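import Pool.Agent.Lib.LQ.Defs2

set_option autoImplicit false

open Finset
open scoped Classical

noncomputable section

namespace Pool.Agent.Lib.LQ

namespace B3a

variable {n : ℕ} [NeZero n]

lemma card_dvd {d : ℕ} (hd : d ∣ n) : #{y : ZMod n | d ∣ y.val} ≤ n / d := by
  conv_rhs => rw [← card_range (n / d)]
  refine card_le_card_of_injOn (fun y => y.val / d) (fun y hy => ?_) fun y hy z hz h => ?_
  · have h1 : d ∣ y.val := by simpa using hy
    simpa using Nat.div_lt_div_of_lt_of_dvd hd (ZMod.val_lt y)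
  · have h1 : d ∣ y.val := by simpa using hy
    have h2 : d ∣ z.val := by simpa using hz
    apply ZMod.val_injective
    rw [← Nat.div_mul_cancel h1, ← Nat.div_mul_cancel h2]
    exact congrArg (· * d) h

lemma card_ann (u : ZMod n) : #{y : ZMod n | u * y = 0} ≤ Nat.gcd u.val n := by
  have hn : n ≠ 0 := NeZero.ne n
  have hg : 0 < Nat.gcd u.val n := Nat.gcd_pos_of_pos_right _ (Nat.pos_of_ne_zero hn)
  have h1 := card_dvd (n := n) (Nat.div_dvd_of_dvd (Nat.gcd_dvd_right u.val n))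
  rw [Nat.div_div_self (Nat.gcd_dvd_right _ _) hn] at h1
  refine le_trans (card_le_card fun y hy => ?_) h1
  have h2 : u * y = 0 := by simpa using hy
  have h3 : n ∣ u.val * y.val := by
    rw [← ZMod.natCast_eq_zero_iff]
    push_cast
    simpa using h2
  simp only [mem_filter, mem_univ, true_and]
  refine (Nat.coprime_div_gcd_div_gcd hg).symm.dvd_of_dvd_mul_left ?_
  rw [← Nat.mul_dvd_mul_iff_left hg, ← mul_assoc, Nat.mul_div_cancel' (Nat.gcd_dvd_right _ _),
    Nat.mul_div_cancel' (Nat.gcd_dvd_left _ _)]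
  exact h3

lemma card_fib (u w : ZMod n) : #{y : ZMod n | u * y = w} ≤ Nat.gcd u.val n := by
  rcases ({y : ZMod n | u * y = w} : Finset (ZMod n)).eq_empty_or_nonempty with h | ⟨y₀, h⟩
  · simp [h]
  · have h0 : u * y₀ = w := by simpa using h
    refine le_trans (card_le_card_of_injOn (fun y => y - y₀) (fun y hy => ?_)
      fun y _ z _ h => sub_left_injective h) (card_ann u)
    have h1 : u * y = w := by simpa using hy
    simp [mul_sub, h0, h1]

lemma sum_gcd : ∑ s : ZMod n, Nat.gcd s.val n ≤ n * n.divisors.card := by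
  have hn : n ≠ 0 := NeZero.ne n
  rw [← sum_fiberwise_of_maps_to (s := univ) (t := n.divisors) (g := fun s : ZMod n => Nat.gcd s.val n)
    fun s _ => Nat.mem_divisors.2 ⟨Nat.gcd_dvd_right _ _, hn⟩, mul_comm, ← smul_eq_mul, ← sum_const]
  refine sum_le_sum fun d hd => ?_
  have h1 := Nat.dvd_of_mem_divisors hd
  rw [sum_congr rfl (g := fun _ => d) fun s hs => (mem_filter.1 hs).2, sum_const, smul_eq_mul]
  refine le_trans (Nat.mul_le_mul_right d (le_trans (card_le_card fun y hy => ?_) (card_dvd h1)))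
    (Nat.div_mul_le_self n d)
  simp only [mem_filter, mem_univ, true_and] at hy ⊢
  exact hy ▸ Nat.gcd_dvd_left _ _

lemma card_triple : #{t : ZMod n × ZMod n × ZMod n | t.1 * (t.2.1 * t.2.2) = 0} ≤
    (n * n.divisors.card) ^ 2 := by
  have h1 : ∀ c : ZMod n, #{t : ZMod n × ZMod n | t.1 * t.2 = c} ≤ n * n.divisors.card := by
    intro c
    refine le_trans ?_ sum_gcd
    rw [card_filter, Fintype.sum_prod_type]
    exact sum_le_sum fun a _ => by rw [← card_filter]; exact card_fib a c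
  rw [card_filter, Fintype.sum_prod_type, sq]
  refine le_trans (sum_le_sum fun s _ => ?_) (le_trans (le_of_eq (sum_mul _ _ _).symm)
    (Nat.mul_le_mul_right _ sum_gcd))
  rw [← card_filter]
  refine le_trans (card_le_mul_card_image_of_maps_to (t := {c : ZMod n | s * c = 0})
    (f := fun t : ZMod n × ZMod n => t.1 * t.2) (fun t ht => by simpa using ht)
    (n * n.divisors.card) fun c _ => le_trans (card_le_card fun t ht => ?_) (h1 c)) ?_
  · simp only [mem_filter, mem_univ, true_and] at ht ⊢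
    exact ht.2
  · rw [mul_comm]
    exact Nat.mul_le_mul_right _ (card_ann s)

lemma second {T : Type} [Fintype T] (p q : T → ZMod n) :
    ∑ w : ZMod n × ZMod n, ‖∑ x, ZMod.stdAddChar (w.1 * p x + w.2 * q x)‖ ^ 2 =
      (n : ℝ) ^ 2 * #{z : T × T | p z.1 = p z.2 ∧ q z.1 = q z.2} := by
  have h1 : ∀ b : ZMod n, ∑ x : ZMod n, ZMod.stdAddChar (x * b) = if b = 0 then (n : ℂ) else 0 := by
    intro b
    have := AddChar.sum_mulShift b (ZMod.isPrimitive_stdAddChar n)
    rw [ZMod.card] at this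
    rw [this]
    split_ifs <;> simp
  have : ((∑ w : ZMod n × ZMod n, ‖∑ x, ZMod.stdAddChar (w.1 * p x + w.2 * q x)‖ ^ 2 : ℝ) : ℂ) =
      (((n : ℝ) ^ 2 * #{z : T × T | p z.1 = p z.2 ∧ q z.1 = q z.2} : ℝ) : ℂ) := by
    push_cast
    simp_rw [← Complex.mul_conj', map_sum, sum_mul_sum, ← AddChar.map_neg_eq_conj,
      ← AddChar.map_add_eq_mul, ← Fintype.sum_prod_type']
    rw [Fintype.sum_prod_type, sum_comm, card_filter]
    push_cast
    rw [mul_sum]
    refine sum_congr rfl fun z _ => ?_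
    have h2 : ∀ w : ZMod n × ZMod n, ZMod.stdAddChar (w.1 * p z.1 + w.2 * q z.1 +
        -(w.1 * p z.2 + w.2 * q z.2)) = ZMod.stdAddChar (w.1 * (p z.1 - p z.2)) *
          ZMod.stdAddChar (w.2 * (q z.1 - q z.2)) := by
      intro w
      rw [← AddChar.map_add_eq_mul]
      congr 1
      ring
    rw [sum_congr rfl fun w _ => h2 w, Fintype.sum_prod_type]
    dsimp only
    rw [← sum_mul_sum, h1, h1]
    simp only [sub_eq_zero]
    by_cases a : p z.1 = p z.2 <;> by_cases b : q z.1 = q z.2 <;> simp [a, b, sq]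
  exact_mod_cast this

/-- The Kloosterman sum. -/
def S (u v : ZMod n) : ℂ :=
  ∑ x : (ZMod n)ˣ, ZMod.stdAddChar (u * (x : ZMod n) + v * ((x⁻¹ : (ZMod n)ˣ) : ZMod n))

lemma S_mul (u v : ZMod n) (t : (ZMod n)ˣ) :
    S (u * (t : ZMod n)) (v * ((t⁻¹ : (ZMod n)ˣ) : ZMod n)) = S u v := by
  unfold S
  refine Fintype.sum_equiv (Equiv.mulLeft t) _ _ fun x => ?_
  simp only [Equiv.coe_mulLeft, mul_inv, Units.val_mul, mul_assoc]

lemma fourth : ∑ w : ZMod n × ZMod n, ‖S w.1 w.2‖ ^ 4 ≤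
    (n : ℝ) ^ 2 * (2 * (n * n.divisors.card) ^ 2) := by
  set p : (ZMod n)ˣ × (ZMod n)ˣ → ZMod n := fun x => x.1 + x.2 with hp
  set q : (ZMod n)ˣ × (ZMod n)ˣ → ZMod n :=
    fun x => ((x.1⁻¹ : (ZMod n)ˣ) : ZMod n) + ((x.2⁻¹ : (ZMod n)ˣ) : ZMod n) with hq
  have h1 : ∀ w : ZMod n × ZMod n, ‖S w.1 w.2‖ ^ 4 =
      ‖∑ x, ZMod.stdAddChar (w.1 * p x + w.2 * q x)‖ ^ 2 := by
    intro w
    rw [show 4 = 2 * 2 from rfl, pow_mul, ← norm_pow, sq (S w.1 w.2)]
    unfold S
    rw [sum_mul_sum, ← Fintype.sum_prod_type']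
    congr 2
    refine sum_congr rfl fun x _ => ?_
    rw [← AddChar.map_add_eq_mul]
    congr 1
    simp only [hp, hq]
    ring
  rw [sum_congr rfl fun w _ => h1 w, second]
  refine mul_le_mul_of_nonneg_left ?_ (sq_nonneg _)
  have h2 := card_le_mul_card_image_of_maps_to
    (s := {z : ((ZMod n)ˣ × (ZMod n)ˣ) × ((ZMod n)ˣ × (ZMod n)ˣ) | p z.1 = p z.2 ∧ q z.1 = q z.2})
    (t := {t : ZMod n × ZMod n × ZMod n | t.1 * (t.2.1 * t.2.2) = 0})
    (f := fun z => ((z.1.1 : ZMod n) + z.1.2, (z.2.1 : ZMod n) - z.1.1, (z.1.2 : ZMod n) - z.2.1))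
    (fun z hz => by
      obtain ⟨⟨a, b⟩, c, d⟩ := z
      simp only [mem_filter, mem_univ, true_and, hp, hq] at hz ⊢
      obtain ⟨e1, e2⟩ := hz
      have ha := a.mul_inv
      have hb := b.mul_inv
      have hc := c.mul_inv
      have hd := d.mul_inv
      linear_combination ((a : ZMod n) * b * c * d) * e2 - (b : ZMod n) * c * d * ha -
        (a : ZMod n) * c * d * hb + (a : ZMod n) * b * d * hc + (a : ZMod n) * b * c * hd +
        ((c : ZMod n) * (a + b) - a * b) * e1)
    2 (fun t _ => by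
      refine le_trans (card_le_card_of_injOn (fun z => (z.1.2 : ZMod n)) (fun z hz => ?_)
        fun z hz z' hz' h => ?_) ((card_fib 2 (t.1 + t.2.1 + t.2.2)).trans ?_)
      · simp only [coe_filter, mem_filter, mem_univ, true_and, Set.mem_ofPred_eq] at hz ⊢
        rw [← hz.2]
        ring
      · simp only [coe_filter, mem_filter, mem_univ, true_and, Set.mem_ofPred_eq, hp] at hz hz' h
        have e := hz.2.trans hz'.2.symm
        simp only [Prod.mk.injEq] at e
        have e1 : (z.1.1 : ZMod n) = z'.1.1 := by linear_combination e.1 - h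
        have e2 : (z.2.1 : ZMod n) = z'.2.1 := by linear_combination h - e.2.2
        have e3 : (z.2.2 : ZMod n) = z'.2.2 := by
          linear_combination hz'.1.1 - hz.1.1 + e.1 - e2
        exact Prod.ext (Prod.ext (Units.ext e1) (Units.ext h))
          (Prod.ext (Units.ext e2) (Units.ext e3))
      · have h3 : ((2 : ℕ) : ZMod n).val = 2 % n := ZMod.val_natCast n 2
        rw [Nat.cast_ofNat] at h3
        rw [h3, ← Nat.gcd_rec]
        exact Nat.le_of_dvd two_pos (Nat.gcd_dvd_right _ _))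
  exact_mod_cast h2.trans (Nat.mul_le_mul_left 2 card_triple)

lemma avg (u v : ZMod n) : (n.totient : ℝ) * ‖S u v‖ ^ 4 ≤
    (min (Nat.gcd u.val n) (Nat.gcd v.val n) : ℕ) * ∑ w : ZMod n × ZMod n, ‖S w.1 w.2‖ ^ 4 := by
  set f : (ZMod n)ˣ → ZMod n × ZMod n := fun t => (u * t, v * (t⁻¹ : (ZMod n)ˣ)) with hf
  have h1 : (n.totient : ℝ) * ‖S u v‖ ^ 4 = ∑ t : (ZMod n)ˣ, ‖S (f t).1 (f t).2‖ ^ 4 := by
    simp only [hf, S_mul, sum_const, card_univ, ZMod.card_units_eq_totient, nsmul_eq_mul]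
  rw [h1, ← sum_fiberwise_of_maps_to (s := univ) (t := univ) (g := f) fun _ _ => mem_univ _,
    mul_sum]
  refine sum_le_sum fun w _ => ?_
  rw [sum_congr rfl (g := fun _ => ‖S w.1 w.2‖ ^ 4) fun t ht => by rw [(mem_filter.1 ht).2],
    sum_const, nsmul_eq_mul]
  refine mul_le_mul_of_nonneg_right (Nat.cast_le.2 (le_min ?_ ?_)) (by positivity)
  · refine le_trans (card_le_card_of_injOn (fun t => (t : ZMod n)) (fun t ht => ?_)
      fun t _ t' _ h => Units.ext h) (card_fib u w.1)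
    simp only [coe_filter, mem_univ, true_and, Set.mem_ofPred_eq] at ht ⊢
    rw [← ht]
  · refine le_trans (card_le_card_of_injOn (fun t => ((t⁻¹ : (ZMod n)ˣ) : ZMod n)) (fun t ht => ?_)
      fun t _ t' _ h => inv_injective (Units.ext h)) (card_fib v w.2)
    simp only [coe_filter, mem_univ, true_and, Set.mem_ofPred_eq] at ht ⊢
    rw [← ht]

lemma le_tot : n ≤ n.totient * n.divisors.card := by
  have hn : n ≠ 0 := NeZero.ne n
  conv_lhs => rw [← Nat.sum_totient n]
  rw [mul_comm, ← smul_eq_mul, ← sum_const]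
  exact sum_le_sum fun d hd => Nat.le_of_dvd (Nat.totient_pos.2 (Nat.pos_of_ne_zero hn))
    (Nat.totient_dvd_of_dvd (Nat.dvd_of_mem_divisors hd))

end B3a

open B3a in
theorem B3a : KlStmt := by
  intro n _ u v
  have hn : (0 : ℝ) < n := by exact_mod_cast Nat.pos_of_ne_zero (NeZero.ne n)
  have h1 := (avg u v).trans (mul_le_mul_of_nonneg_left fourth (Nat.cast_nonneg _))
  have h2 : (n : ℝ) ≤ n.totient * n.divisors.card := by exact_mod_cast le_tot
  have h3 := mul_le_mul_of_nonneg_right h2 (show 0 ≤ ‖S u v‖ ^ 4 by positivity)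
  have h4 := mul_le_mul_of_nonneg_left h1 (Nat.cast_nonneg (α := ℝ) n.divisors.card)
  change ‖S u v‖ ^ 4 ≤ _
  refine le_of_mul_le_mul_left ?_ hn
  nlinarith

end Pool.Agent.Lib.LQ
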