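import Pool.Agent.Lib.LQ.AV1Aux1

/-! Block AV1: averages of the first kind. -/

set_option autoImplicit false

open Finset
open scoped Classical

noncomputable section

namespace Pool.Agent.Lib.LQ

open Pool.Agent.Lib.MP_de94cf_nt (gg det inn)

namespace AV1

/-- the bound of `QUStmt` at fixed parameters -/
def QUat (K : ℝ) (v a e : ℕ) (z : ℝ) : Prop :=
  ∀ (lam p : ℝ) (W1 y d : ℕ) (c c' : ℤ), 0 ≤ lam → lam ≤ 1 → z ^ (9 * e) ≤ p → WOK v W1 →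
    Squarefree y → sg y ≤ 1 / v → (y : ℝ) ≤ z ^ e → Squarefree d → (d : ℝ) ≤ z ^ a →
    (∀ l : ℕ, l.Prime → l ∣ d → ww v < (l : ℝ)) → Nat.Coprime y d → Nat.Coprime y W1 →
    Int.gcd c y = 1 →
    ∑ Q ∈ (disc (2 * p)).filter
        (fun Q => (W1 : GI) ∣ Q - 1 ∧ (y : ℤ) ∣ Q.norm - c ∧ (d : ℤ) ∣ Q.norm - c'),
        lam ^ om (ww v) z Q ≤
      K * p * Real.exp (-(1 - lam) * Lam (ww v) z) * 3 ^ d.primeFactors.card /
        (y * d * (W1 : ℝ) ^ 2)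

lemma le_psi {q : ℕ} (hq : Squarefree q) : (q : ℝ) ≤ psi q := by
  have h : (q : ℝ) = ∏ l ∈ q.primeFactors, (l : ℝ) := by
    conv_lhs => rw [← Nat.prod_primeFactors_of_squarefree hq]
    push_cast; rfl
  rw [h, psi]
  exact prod_le_prod (fun l _ => Nat.cast_nonneg _) fun l _ => by linarith

lemma psi_nonneg (q : ℕ) : 0 ≤ psi q := prod_nonneg fun l _ => by positivity

lemma th_nonneg {x : Wt} (hx : x.OK) (S : Finset GI) (t : Tt) : 0 ≤ th x S t :=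
  mul_nonneg (mul_nonneg (pow_nonneg hx.h1 _) (pow_nonneg hx.h2 _)) (pow_nonneg hx.hP _)

lemma mt_nonneg {x : Wt} (hx : x.OK) (v : ℕ) (z : ℝ) (S : Finset GI) (t : Tt) :
    0 ≤ mt v z x S t :=
  div_nonneg (mul_nonneg (th_nonneg hx S t) (pow_nonneg hx.hQ.1 _)) (psi_nonneg _)

lemma nm_pr_dvd {S S' : Finset GI} (h : S' ⊆ S) : nm (pr S') ∣ nm (pr S) :=
  nm_dvd (prod_dvd_prod_of_subset _ _ _ h)

lemma p_dvd {S : Finset GI} {ρ : GI} {t : Tt} (h : t.S3 ⊆ S) : t.p ρ ∣ nm (pr S * ρ) :=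
  nm_dvd (mul_dvd_mul_right (prod_dvd_prod_of_subset _ _ _ h) ρ)

lemma Maj_nonneg (v : ℕ) (z : ℝ) (x : Wt) (W1 : ℕ) {C1 : ℝ} (hC : 0 ≤ C1) :
    0 ≤ Maj v z x W1 C1 := by
  unfold Maj GQ; positivity

variable {K : ℝ} {v a e f : ℕ} {z Y0 C1 : ℝ} {x : Wt} {W1 : ℕ} {S : Finset GI} {ρ : GI}

lemma stepA (hQ : QUat K v a e z) (hz : 0 < z) (hx : x.OK) (hW : WOK v W1) {d : ℕ}
    (hd : Squarefree d) (hda : (d : ℝ) ≤ z ^ a) (hdw : ∀ l : ℕ, l.Prime → l ∣ d → ww v < (l : ℝ))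
    (T : Finset Tt) (hT : ∀ t ∈ T, Adm v a e f z S ρ W1 Y0 C1 t) (t0 : Tt) (h0 : t0 ∈ T)
    (hs : ∀ t ∈ T, t.S2 = t0.S2 ∧ t.S3 = t0.S3 ∧ t.y = t0.y ∧ (d : ℤ) ∣ (t.q : ℤ) - t0.q)
    (hc : Nat.Coprime t0.y d) :
    ∑ t ∈ T, mt v z x S t ≤
      th x S t0 * (2 * K * GQ v z x * 3 ^ d.primeFactors.card / (d * (W1 : ℝ) ^ 2)) *
        (1 / (t0.y : ℝ)) := by
  have A0 := hT t0 h0
  have hp : (0 : ℝ) < t0.p ρ := lt_of_lt_of_le (pow_pos hz _) A0.lop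
  have hyW : Nat.Coprime t0.y W1 := by
    have := A0.yW.gcd_eq
    simpa [Nat.Coprime] using this
  have hg : Int.gcd (t0.p ρ : ℤ) t0.y = 1 := by
    rw [Int.gcd_natCast_natCast]
    exact (Nat.Coprime.coprime_dvd_right (p_dvd A0.sub3) A0.copy).symm
  have hq := hQ x.xQ (t0.p ρ) W1 t0.y d (t0.p ρ) t0.q hx.hQ.1 hx.hQ.2 A0.lop hW A0.sfy A0.sgy
    A0.hiy hd hda hdw hc hyW hg
  have hpe : ∀ t ∈ T, t.p ρ = t0.p ρ := fun t ht => by
    unfold Tt.p; rw [(hs t ht).2.1]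
  have h1 : ∀ t ∈ T, mt v z x S t ≤ th x S t0 * (2 / (t0.p ρ : ℝ)) * x.xQ ^ om (ww v) z t.Q := by
    intro t ht
    have A := hT t ht
    have e1 : th x S t = th x S t0 := by
      unfold th; rw [(hs t ht).1, (hs t ht).2.1]
    have h2 : (t0.p ρ : ℝ) ≤ 2 * t.q := by
      rw [← hpe t ht]; exact_mod_cast A.pq
    have h3 : (t0.p ρ : ℝ) / 2 ≤ psi t.q := by linarith [le_psi A.sfq]
    have h4 : 0 ≤ th x S t0 * x.xQ ^ om (ww v) z t.Q :=
      mul_nonneg (th_nonneg hx S t0) (pow_nonneg hx.hQ.1 _)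
    unfold mt
    rw [e1]
    calc _ ≤ th x S t0 * x.xQ ^ om (ww v) z t.Q / ((t0.p ρ : ℝ) / 2) :=
          div_le_div_of_nonneg_left h4 (by linarith) h3
      _ = _ := by field_simp
  have hinj : Set.InjOn Tt.Q (T : Set Tt) := by
    intro t ht t' ht' e
    have h2 := hs t (mem_coe.1 ht)
    have h3 := hs t' (mem_coe.1 ht')
    exact Tt.ext (h2.1.trans h3.1.symm) (h2.2.1.trans h3.2.1.symm)
      (h2.2.2.1.trans h3.2.2.1.symm) e
  have h2 : ∑ t ∈ T, x.xQ ^ om (ww v) z t.Q ≤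
      ∑ Q ∈ (disc (2 * (t0.p ρ : ℝ))).filter (fun Q => (W1 : GI) ∣ Q - 1 ∧
        (t0.y : ℤ) ∣ Q.norm - (t0.p ρ : ℤ) ∧ (d : ℤ) ∣ Q.norm - (t0.q : ℤ)),
        x.xQ ^ om (ww v) z Q := by
    rw [← sum_image (f := fun Q : GI => x.xQ ^ om (ww v) z Q) hinj]
    refine sum_le_sum_of_subset_of_nonneg ?_ fun Q _ _ => pow_nonneg hx.hQ.1 _
    intro Q hQ'
    obtain ⟨t, ht, rfl⟩ := mem_image.1 hQ'
    have A := hT t ht
    refine mem_filter.2 ⟨mem_disc.2 ?_, A.QW, ?_, ?_⟩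
    · rw [← hpe t ht]; exact_mod_cast A.qp
    · rw [← nm_int, ← hpe t ht, ← (hs t ht).2.2.1]
      exact dvd_sub_comm.1 A.ydvd
    · rw [← nm_int]; exact (hs t ht).2.2.2
  have h3 : 0 ≤ th x S t0 * (2 / (t0.p ρ : ℝ)) := mul_nonneg (th_nonneg hx S t0) (by positivity)
  calc _ ≤ ∑ t ∈ T, th x S t0 * (2 / (t0.p ρ : ℝ)) * x.xQ ^ om (ww v) z t.Q := sum_le_sum h1
    _ = th x S t0 * (2 / (t0.p ρ : ℝ)) * ∑ t ∈ T, x.xQ ^ om (ww v) z t.Q := (mul_sum _ _ _).symm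
    _ ≤ th x S t0 * (2 / (t0.p ρ : ℝ)) * (K * (t0.p ρ : ℝ) *
          Real.exp (-(1 - x.xQ) * Lam (ww v) z) * 3 ^ d.primeFactors.card /
            (t0.y * d * (W1 : ℝ) ^ 2)) := mul_le_mul_of_nonneg_left (h2.trans hq) h3
    _ = _ := by
        unfold GQ
        have := hp.ne'
        field_simp

lemma key (hQ : QUat K v a e z) (hK : 0 ≤ K) (hz : 0 < z) (hY : 0 < Y0) (hC : 1 ≤ C1) (hx : x.OK)
    (hW : WOK v W1) {d1 d2 : ℕ} (hd : Squarefree d1) (hda : (d1 : ℝ) ≤ z ^ a)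
    (hdw : ∀ l : ℕ, l.Prime → l ∣ d1 → ww v < (l : ℝ)) (hd2 : 0 < d2) (hcop : Nat.Coprime d2 W1)
    (hsz : ((d2 * W1 : ℕ) : ℝ) ≤ z ^ (8 * a))
    (T : Finset Tt) (hT : ∀ t ∈ T, Adm v a e f z S ρ W1 Y0 C1 t)
    (h1 : ∀ t ∈ T, Nat.Coprime t.y d1)
    (h2 : ∀ t ∈ T, ∀ t' ∈ T, t.S2 = t'.S2 → t.S3 = t'.S3 → t.y = t'.y →
      (d1 : ℤ) ∣ (t.q : ℤ) - t'.q)
    (h3 : ∀ t ∈ T, ∀ t' ∈ T, t.S2 = t'.S2 → t.y ≡ t'.y [MOD d2]) :
    ∑ t ∈ T, mt v z x S t ≤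
      4 * K * (3 ^ d1.primeFactors.card / ((d1 : ℝ) * d2)) * Maj v z x W1 C1 := by
  have hW0 : 0 < W1 := Nat.pos_of_ne_zero hW.1.ne_zero
  have hd0 : 0 < d1 := Nat.pos_of_ne_zero hd.ne_zero
  set A : ℝ := 2 * K * GQ v z x * 3 ^ d1.primeFactors.card / (d1 * (W1 : ℝ) ^ 2) with hA
  have hA0 : 0 ≤ A := by rw [hA]; unfold GQ; positivity
  set R := (S.powerset ×ˢ S.powerset).filter (fun r => Disjoint r.1 r.2) with hR
  have hmap : ∀ t ∈ T, (t.S2, t.S3) ∈ R := fun t ht =>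
    mem_filter.2 ⟨mem_product.2 ⟨mem_powerset.2 (hT t ht).sub2, mem_powerset.2 (hT t ht).sub3⟩,
      (hT t ht).disj⟩
  have hfib : ∀ r ∈ R, ∑ t ∈ T.filter (fun t => (t.S2, t.S3) = r), mt v z x S t ≤
      x.x1 ^ (S \ (r.1 ∪ r.2)).card * x.x2 ^ r.1.card * x.xP ^ r.2.card *
        (A * (2 * C1 / ((d2 * W1 : ℕ) : ℝ))) := by
    intro r _
    set Tr := T.filter (fun t => (t.S2, t.S3) = r) with hTr
    set θ := x.x1 ^ (S \ (r.1 ∪ r.2)).card * x.x2 ^ r.1.card * x.xP ^ r.2.card with hθ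
    have hθ0 : 0 ≤ θ :=
      mul_nonneg (mul_nonneg (pow_nonneg hx.h1 _) (pow_nonneg hx.h2 _)) (pow_nonneg hx.hP _)
    have hm : ∀ t ∈ Tr, t ∈ T ∧ t.S2 = r.1 ∧ t.S3 = r.2 := fun t ht => by
      obtain ⟨h4, h5⟩ := mem_filter.1 ht
      exact ⟨h4, congrArg Prod.fst h5, congrArg Prod.snd h5⟩
    have h4 : ∀ y ∈ Tr.image Tt.y, ∑ t ∈ Tr.filter (fun t => t.y = y), mt v z x S t ≤
        θ * A * (1 / (y : ℝ)) := by
      intro y hy
      obtain ⟨t0, ht0, rfl⟩ := mem_image.1 hy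
      have hm0 := hm t0 ht0
      have e1 : th x S t0 = θ := by unfold th; rw [hm0.2.1, hm0.2.2]
      rw [← e1]
      refine stepA hQ hz hx hW hd hda hdw _ (fun t ht => hT t (hm t (mem_filter.1 ht).1).1) t0
        (mem_filter.2 ⟨ht0, rfl⟩) (fun t ht => ?_) (h1 t0 hm0.1)
      obtain ⟨h5, h6⟩ := mem_filter.1 ht
      have h7 := hm t h5
      exact ⟨h7.2.1.trans hm0.2.1.symm, h7.2.2.trans hm0.2.2.symm, h6,
        h2 t h7.1 t0 hm0.1 (h7.2.1.trans hm0.2.1.symm) (h7.2.2.trans hm0.2.2.symm) h6⟩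
    have h5 : ∑ y ∈ Tr.image Tt.y, 1 / (y : ℝ) ≤ 2 * C1 / ((d2 * W1 : ℕ) : ℝ) := by
      by_cases hN : (nm (pr r.1) : ℝ) = 0
      · have : Tr = ∅ := by
          refine eq_empty_of_forall_notMem fun t ht => ?_
          have h6 := (hT t (hm t ht).1).loc
          unfold Tt.c at h6
          push_cast at h6
          rw [(hm t ht).2.1, hN, mul_zero] at h6
          linarith
        rw [this, image_empty, sum_empty]
        positivity
      have hN0 : (0 : ℝ) < nm (pr r.1) := lt_of_le_of_ne (Nat.cast_nonneg _) (Ne.symm hN)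
      refine ysum _ (Y' := Y0 / nm (pr r.1)) (Z := z ^ (8 * a)) (Nat.mul_pos hd2 hW0)
        (div_pos hY hN0) hC hsz (fun y hy => ?_) fun y hy y' hy' => ?_
      · obtain ⟨t, ht, rfl⟩ := mem_image.1 hy
        have A' := hT t (hm t ht).1
        have h6 := A'.loc
        have h7 := A'.hic
        unfold Tt.c at h6 h7
        push_cast at h6 h7
        rw [(hm t ht).2.1] at h6 h7
        refine ⟨(div_le_iff₀ hN0).2 h6, ?_, A'.loy⟩
        rw [← mul_div_assoc, le_div_iff₀ hN0]; exact h7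
      · obtain ⟨t, ht, rfl⟩ := mem_image.1 hy
        obtain ⟨t', ht', rfl⟩ := mem_image.1 hy'
        refine (Nat.modEq_and_modEq_iff_modEq_mul hcop).1 ⟨?_, ?_⟩
        · exact h3 t (hm t ht).1 t' (hm t' ht').1 ((hm t ht).2.1.trans (hm t' ht').2.1.symm)
        · exact (hT t (hm t ht).1).yW.trans (hT t' (hm t' ht').1).yW.symm
    calc _ = ∑ y ∈ Tr.image Tt.y, ∑ t ∈ Tr.filter (fun t => t.y = y), mt v z x S t :=
          (sum_fiberwise_of_maps_to (fun t ht => mem_image_of_mem _ ht) _).symm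
      _ ≤ ∑ y ∈ Tr.image Tt.y, θ * A * (1 / (y : ℝ)) := sum_le_sum h4
      _ = θ * A * ∑ y ∈ Tr.image Tt.y, 1 / (y : ℝ) := (mul_sum _ _ _).symm
      _ ≤ θ * A * (2 * C1 / ((d2 * W1 : ℕ) : ℝ)) :=
          mul_le_mul_of_nonneg_left h5 (mul_nonneg hθ0 hA0)
      _ = _ := by ring
  calc _ = ∑ r ∈ R, ∑ t ∈ T.filter (fun t => (t.S2, t.S3) = r), mt v z x S t :=
        (sum_fiberwise_of_maps_to hmap _).symm
    _ ≤ ∑ r ∈ R, x.x1 ^ (S \ (r.1 ∪ r.2)).card * x.x2 ^ r.1.card * x.xP ^ r.2.card *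
        (A * (2 * C1 / ((d2 * W1 : ℕ) : ℝ))) := sum_le_sum hfib
    _ = (x.x1 + x.x2 + x.xP) ^ S.card * (A * (2 * C1 / ((d2 * W1 : ℕ) : ℝ))) := by
        rw [← sum_mul, ← sum_splits S x.x1 x.x2 x.xP]
    _ = _ := by
        rw [hx.hsum, one_pow, one_mul, hA]
        unfold Maj
        have h6 : (W1 : ℝ) ≠ 0 := by exact_mod_cast hW0.ne'
        have h7 : (d1 : ℝ) ≠ 0 := by exact_mod_cast hd0.ne'
        have h8 : (d2 : ℝ) ≠ 0 := by exact_mod_cast hd2.ne'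
        push_cast
        field_simp
        ring

lemma prod_dvd_int {B : Finset ℕ} (hB : ∀ l ∈ B, l.Prime) {m : ℤ} (h : ∀ l ∈ B, (l : ℤ) ∣ m) :
    ((∏ l ∈ B, l : ℕ) : ℤ) ∣ m :=
  Int.natCast_dvd.2 (Finset.prod_primes_dvd _ (fun l hl => (hB l hl).prime)
    fun l hl => Int.natCast_dvd.1 (h l hl))

lemma sqfree_prod {B : Finset ℕ} (hB : ∀ l ∈ B, l.Prime) : Squarefree (∏ l ∈ B, l) := by
  refine Finset.squarefree_prod_of_pairwise_isCoprime (fun l hl l' hl' hne => ?_)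
    fun l hl => (hB l hl).squarefree
  simp only [Function.onFun, ← Nat.coprime_iff_isRelPrime]
  exact (Nat.coprime_primes (hB l hl) (hB l' hl')).2 hne

lemma big_prod {w : ℝ} {B : Finset ℕ} (hB : B ⊆ PP w z) (l : ℕ) (hl : l.Prime)
    (h : l ∣ ∏ l ∈ B, l) : w < (l : ℝ) := by
  obtain ⟨l', h1, h2⟩ := (hl.prime.dvd_finsetProd_iff _).1 h
  have h3 := mem_PP.1 (hB h1)
  rw [(Nat.prime_dvd_prime_iff_eq hl h3.1).1 h2]
  exact h3.2.2.1

lemma caseQ (hQ : QUat K v a e z) (hK : 0 ≤ K) (hz : 1 ≤ z) (ha : 1 ≤ a) (hY : 0 < Y0)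
    (hC : 1 ≤ C1) (hx : x.OK) (hW : WOK v W1) (hWz : (W1 : ℝ) ≤ z) {B : Finset ℕ}
    (hB : B ⊆ PP (ww v) z) (hBa : nB B ≤ z ^ a) (c0 : ℤ) (D : Tt → ℤ)
    (hD : ∀ t t' : Tt, t.S2 = t'.S2 → t.S3 = t'.S3 → D t - D t' = c0 * (t'.k ρ - t.k ρ))
    (T : Finset Tt) (hT : ∀ t ∈ T, Adm v a e f z S ρ W1 Y0 C1 t)
    (h : ∀ t ∈ T, ∀ l ∈ B, (l : ℤ) ∣ D t ∧ ¬ (l : ℤ) ∣ c0 ∧ ¬ l ∣ t.y) :
    ∑ t ∈ T, mt v z x S t ≤ 4 * K * (3 ^ B.card / nB B) * Maj v z x W1 C1 := by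
  have hp : ∀ l ∈ B, l.Prime := fun l hl => (mem_PP.1 (hB hl)).1
  have h8 : z ≤ z ^ (8 * a) := le_self_pow₀ hz (by omega)
  have hk := key (d1 := ∏ l ∈ B, l) (d2 := 1) hQ hK (by linarith) hY hC hx hW (sqfree_prod hp)
    (by rw [nB_cast]; exact hBa) (big_prod hB) one_pos (Nat.coprime_one_left _)
    (by rw [one_mul]; exact hWz.trans h8) T hT
    (fun t ht => Nat.Coprime.prod_right fun l hl =>
      ((Nat.Prime.coprime_iff_not_dvd (hp l hl)).2 (h t ht l hl).2.2).symm)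
    (fun t ht t' ht' e2 e3 ey => prod_dvd_int hp fun l hl => ?_)
    (fun t _ t' _ _ => Nat.modEq_one)
  · rw [Nat.primeFactors_prod hp, nB_cast, Nat.cast_one, mul_one] at hk
    exact hk
  · have h1 : (l : ℤ) ∣ c0 * (t'.k ρ - t.k ρ) := by
      rw [← hD t t' e2 e3]; exact dvd_sub (h t ht l hl).1 (h t' ht' l hl).1
    have h2 : (l : ℤ) ∣ t'.k ρ - t.k ρ :=
      ((Nat.prime_iff_prime_int.1 (hp l hl)).dvd_or_dvd h1).resolve_left (h t ht l hl).2.1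
    have h3 : (t.y : ℤ) * t.k ρ = (t.p ρ : ℤ) - t.q := Int.mul_ediv_cancel' (hT t ht).ydvd
    have h4 : (t'.y : ℤ) * t'.k ρ = (t'.p ρ : ℤ) - t'.q := Int.mul_ediv_cancel' (hT t' ht').ydvd
    have h5 : t.p ρ = t'.p ρ := by unfold Tt.p; rw [e3]
    have h6 : (t.q : ℤ) - t'.q = (t.y : ℤ) * (t'.k ρ - t.k ρ) := by
      rw [← ey, ← h5] at h4
      linear_combination h3 - h4
    rw [h6]
    exact Dvd.dvd.mul_left h2 _

lemma caseY (hQ : QUat K v a e z) (hK : 0 ≤ K) (hz : 1 ≤ z) (ha : 1 ≤ a) (hY : 0 < Y0)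
    (hC : 1 ≤ C1) (hx : x.OK) (hW : WOK v W1) (hWz : (W1 : ℝ) ≤ z) {B : Finset ℕ}
    (hB : B ⊆ PP (ww v) z) (hBa : nB B ≤ z ^ a) (c0 : ℤ)
    (T : Finset Tt) (hT : ∀ t ∈ T, Adm v a e f z S ρ W1 Y0 C1 t)
    (h : ∀ t ∈ T, ∀ l ∈ B, (l : ℤ) ∣ c0 - t.c ∧ ¬ l ∣ nm (pr S)) :
    ∑ t ∈ T, mt v z x S t ≤ 4 * K * (3 ^ B.card / nB B) * Maj v z x W1 C1 := by
  have hp : ∀ l ∈ B, l.Prime := fun l hl => (mem_PP.1 (hB hl)).1
  have hcop : Nat.Coprime (∏ l ∈ B, l) W1 := by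
    refine Nat.Coprime.prod_left fun l hl => (Nat.Prime.coprime_iff_not_dvd (hp l hl)).2 fun hd => ?_
    have h1 := hW.2 l (hp l hl) hd
    have h2 := (mem_PP.1 (hB hl)).2.2.1
    linarith
  have hsz : (((∏ l ∈ B, l) * W1 : ℕ) : ℝ) ≤ z ^ (8 * a) := by
    rw [Nat.cast_mul, nB_cast]
    calc nB B * W1 ≤ z ^ a * z :=
          mul_le_mul hBa hWz (Nat.cast_nonneg _) (by positivity)
      _ = z ^ (a + 1) := (pow_succ _ _).symm
      _ ≤ z ^ (8 * a) := pow_le_pow_right₀ hz (by omega)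
  have hk := key (d1 := 1) (d2 := ∏ l ∈ B, l) hQ hK (by linarith) hY hC hx hW squarefree_one
    (by rw [Nat.cast_one]; exact one_le_pow₀ hz)
    (fun l hl hd => absurd (Nat.dvd_one.1 hd) hl.ne_one)
    (prod_pos fun l hl => (hp l hl).pos) hcop hsz T hT
    (fun t _ => Nat.coprime_one_right _) (fun t _ t' _ _ _ _ => by simp)
    (fun t ht t' ht' e2 => Nat.modEq_iff_dvd.2 (prod_dvd_int hp fun l hl => ?_))
  · rw [Nat.primeFactors_one, card_empty, pow_zero, nB_cast, Nat.cast_one, one_mul] at hk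
    refine hk.trans (mul_le_mul_of_nonneg_right (mul_le_mul_of_nonneg_left ?_ (by linarith))
      (Maj_nonneg _ _ _ _ (by linarith)))
    exact div_le_div_of_nonneg_right (one_le_pow₀ (by norm_num)) (nB_nonneg B)
  · have h1 : (l : ℤ) ∣ ((t'.y : ℤ) - t.y) * nm (pr t.S2) := by
      have h2 := dvd_sub (h t ht l hl).1 (h t' ht' l hl).1
      have h3 : c0 - t.c - (c0 - t'.c) = ((t'.y : ℤ) - t.y) * nm (pr t.S2) := by
        unfold Tt.c; rw [← e2]; ring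
      rwa [h3] at h2
    refine ((Nat.prime_iff_prime_int.1 (hp l hl)).dvd_or_dvd h1).resolve_right fun h2 => ?_
    exact (h t ht l hl).2 ((Int.natCast_dvd_natCast.1 h2).trans (nm_pr_dvd (hT t ht).sub2))

lemma perB (hQ : QUat K v a e z) (hK : 0 ≤ K) (hz : 1 ≤ z) (ha : 1 ≤ a) (hY : 0 < Y0)
    (hC : 1 ≤ C1) (hx : x.OK) (hW : WOK v W1) (hWz : (W1 : ℝ) ≤ z) (hL : Lab v a f z S ρ)
    {B : Finset ℕ} (hB : B ⊆ PP (ww v) z) (hBa : nB B ≤ z ^ a) (D : Tt → Tt → ℤ)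
    (hD : D = D33 ∨ D = D34 ρ ∨ D = D44 ρ) (t : Tt) (ht : Adm v a e f z S ρ W1 Y0 C1 t)
    (T : Finset Tt) (hT : ∀ t ∈ T, Adm v a e f z S ρ W1 Y0 C1 t)
    (h : ∀ t' ∈ T, ∀ l ∈ B, (l : ℤ) ∣ D t t' ∧ ¬ l ∣ exn S t t') :
    ∑ t' ∈ T, mt v z x S t' ≤ 4 * K * (3 ^ B.card / nB B) * Maj v z x W1 C1 := by
  have hp : ∀ l ∈ B, l.Prime := fun l hl => (mem_PP.1 (hB hl)).1
  have n1 : ∀ t' ∈ T, ∀ l ∈ B, ¬ l ∣ nm (pr S) := fun t' ht' l hl hd =>
    (h t' ht' l hl).2 ((hd.mul_right _).mul_right _)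
  have n2 : ∀ t' ∈ T, ∀ l ∈ B, ¬ l ∣ t.y := fun t' ht' l hl hd =>
    (h t' ht' l hl).2 ((hd.mul_left _).mul_right _)
  have n3 : ∀ t' ∈ T, ∀ l ∈ B, ¬ l ∣ t'.y := fun t' ht' l hl hd =>
    (h t' ht' l hl).2 (hd.mul_left _)
  have hm : ∀ t1 t2 : Tt, t1.S2 = t2.S2 → t1.S3 = t2.S3 → t1.m ρ = t2.m ρ := by
    intro t1 t2 e2 e3
    unfold Tt.m Tt.p; rw [e2, e3]
  rcases hD with rfl | rfl | rfl
  · exact caseY hQ hK hz ha hY hC hx hW hWz hB hBa t.c T hT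
      fun t' ht' l hl => ⟨(h t' ht' l hl).1, n1 t' ht' l hl⟩
  · refine caseQ hQ hK hz ha hY hC hx hW hWz hB hBa t.c (D34 ρ t) (fun t1 t2 e2 e3 => ?_) T hT
      fun t' ht' l hl => ⟨(h t' ht' l hl).1, fun hd => ?_, n3 t' ht' l hl⟩
    · unfold D34; rw [hm t1 t2 e2 e3]; ring
    · unfold Tt.c at hd
      rcases (Nat.prime_iff_prime_int.1 (hp l hl)).dvd_or_dvd hd with h1 | h1
      · exact n2 t' ht' l hl (Int.natCast_dvd_natCast.1 h1)
      · exact n1 t' ht' l hl ((Int.natCast_dvd_natCast.1 h1).trans (nm_pr_dvd ht.sub2))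
  · refine caseQ hQ hK hz ha hY hC hx hW hWz hB hBa (t.m ρ) (D44 ρ t) (fun t1 t2 e2 e3 => ?_) T hT
      fun t' ht' l hl => ⟨(h t' ht' l hl).1, fun hd => ?_, n3 t' ht' l hl⟩
    · unfold D44; rw [hm t1 t2 e2 e3]; ring
    · unfold Tt.m Tt.p at hd
      rcases (Nat.prime_iff_prime_int.1 (hp l hl)).dvd_or_dvd hd with h1 | h1
      · exact n1 t' ht' l hl ((Int.natCast_dvd_natCast.1 h1).trans (nm_pr_dvd ht.sub2))
      · have h2 := Int.natCast_dvd_natCast.1 h1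
        rw [nm_mul] at h2
        rcases (hp l hl).dvd_mul.1 h2 with h3 | h3
        · exact n1 t' ht' l hl (h3.trans (nm_pr_dvd ht.sub3))
        · have h4 := hL.rough l (hp l hl) h3
          have h5 := (mem_PP.1 (hB hl)).2.2.2
          linarith

lemma pointwise (hw1 : 1800 ≤ ww v) (hz : 1 ≤ z) (n : ℕ) (D : ℤ) :
    Real.exp (144 * sst v z n D) - 1 ≤
      ∑ B ∈ (PP (ww v) z).powerset.filter (fun B => nB B ≤ z ^ a),
        cf z (z ^ a) (Real.exp (300 * Lam (ww v) z)) hw B *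
          ind (∀ l ∈ B, (l : ℤ) ∣ D ∧ ¬ l ∣ n) := by
  set A := (PP (ww v) z).filter (fun l : ℕ => (l : ℤ) ∣ D ∧ ¬ l ∣ n) with hA
  have hs : A ⊆ PP (ww v) z := filter_subset _ _
  have h1 : Real.exp (144 * sst v z n D) ≤ ∏ l ∈ A, (1 + hw l) :=
    exp_le_prod A fun l hl => by linarith [(mem_PP.1 (hs hl)).2.2.1]
  have h2 := expand (z := z) (Z := z ^ a) (E := Real.exp (300 * Lam (ww v) z)) (one_le_pow₀ hz) A
    (fun l hl => (mem_PP.1 (hs hl)).2.2.2) hw hw_nonneg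
    (prod_le_exp_Lam (ww v) z 300 (by norm_num) hs)
  have h3 : ∑ B ∈ A.powerset.filter (fun B => nB B ≤ z ^ a),
        cf z (z ^ a) (Real.exp (300 * Lam (ww v) z)) hw B =
      ∑ B ∈ A.powerset.filter (fun B => nB B ≤ z ^ a),
        cf z (z ^ a) (Real.exp (300 * Lam (ww v) z)) hw B *
          ind (∀ l ∈ B, (l : ℤ) ∣ D ∧ ¬ l ∣ n) := by
    refine sum_congr rfl fun B hB => ?_
    rw [ind_true fun l hl => (mem_filter.1 (mem_powerset.1 (mem_filter.1 hB).1 hl)).2, mul_one]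
  refine le_trans (by linarith) (h3.le.trans ?_)
  exact sum_le_sum_of_subset_of_nonneg (filter_subset_filter _ (powerset_mono.2 hs))
    fun B _ _ => mul_nonneg (cf_nonneg (Real.exp_pos _).le hw_nonneg B) (ind_nonneg _)

lemma perT (hQ : QUat K v a e z) (hK : 0 ≤ K) (hz : 1 ≤ z) (ha : 3 ≤ a) (hY : 0 < Y0)
    (hC : 1 ≤ C1) (hx : x.OK) (hW : WOK v W1) (hWz : (W1 : ℝ) ≤ z) (hL : Lab v a f z S ρ)
    (hw1 : 1800 ≤ ww v) (hE : Real.exp ((1200 : ℕ) * Lam (ww v) z) ≤ z) (D : Tt → Tt → ℤ)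
    (hD : D = D33 ∨ D = D34 ρ ∨ D = D44 ρ) (t : Tt) (ht : Adm v a e f z S ρ W1 Y0 C1 t)
    (T : Finset Tt) (hT : ∀ t ∈ T, Adm v a e f z S ρ W1 Y0 C1 t) :
    ∑ t' ∈ T, mt v z x S t' * (Real.exp (144 * sst v z (exn S t t') (D t t')) - 1) ≤
      (3600 / ww v + 1 / z) * (4 * K * Maj v z x W1 C1) := by
  set E := Real.exp (300 * Lam (ww v) z) with hE'
  set F := (PP (ww v) z).powerset.filter (fun B => nB B ≤ z ^ a) with hF
  have hM : 0 ≤ 4 * K * Maj v z x W1 C1 :=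
    mul_nonneg (by linarith) (Maj_nonneg _ _ _ _ (by linarith))
  have h1 : ∀ B ∈ F, ∑ t' ∈ T, mt v z x S t' *
      ind (∀ l ∈ B, (l : ℤ) ∣ D t t' ∧ ¬ l ∣ exn S t t') ≤
      4 * K * (3 ^ B.card / nB B) * Maj v z x W1 C1 := by
    intro B hB
    obtain ⟨hB1, hB2⟩ := mem_filter.1 hB
    have e1 : ∑ t' ∈ T, mt v z x S t' * ind (∀ l ∈ B, (l : ℤ) ∣ D t t' ∧ ¬ l ∣ exn S t t') =
        ∑ t' ∈ T.filter (fun t' => ∀ l ∈ B, (l : ℤ) ∣ D t t' ∧ ¬ l ∣ exn S t t'),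
          mt v z x S t' := by
      rw [sum_filter]
      refine sum_congr rfl fun t' _ => ?_
      by_cases hb : ∀ l ∈ B, (l : ℤ) ∣ D t t' ∧ ¬ l ∣ exn S t t'
      · rw [ind_true hb, if_pos hb, mul_one]
      · rw [ind_false hb, if_neg hb, mul_zero]
    rw [e1]
    exact perB hQ hK hz (by omega) hY hC hx hW hWz hL (mem_powerset.1 hB1) hB2 D hD t ht _
      (fun t' ht' => hT t' (mem_filter.1 ht').1) fun t' ht' => (mem_filter.1 ht').2
  calc _ ≤ ∑ t' ∈ T, mt v z x S t' * ∑ B ∈ F, cf z (z ^ a) E hw B *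
          ind (∀ l ∈ B, (l : ℤ) ∣ D t t' ∧ ¬ l ∣ exn S t t') :=
        sum_le_sum fun t' _ =>
          mul_le_mul_of_nonneg_left (pointwise hw1 hz _ _) (mt_nonneg hx v z S t')
    _ = ∑ B ∈ F, cf z (z ^ a) E hw B * ∑ t' ∈ T, mt v z x S t' *
          ind (∀ l ∈ B, (l : ℤ) ∣ D t t' ∧ ¬ l ∣ exn S t t') := by
        simp_rw [mul_sum]
        rw [sum_comm]
        exact sum_congr rfl fun B _ => sum_congr rfl fun t' _ => by ring
    _ ≤ ∑ B ∈ F, cf z (z ^ a) E hw B * (4 * K * (3 ^ B.card / nB B) * Maj v z x W1 C1) :=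
        sum_le_sum fun B hB =>
          mul_le_mul_of_nonneg_left (h1 B hB) (cf_nonneg (Real.exp_pos _).le hw_nonneg B)
    _ = (∑ B ∈ F, cf z (z ^ a) E hw B * (3 ^ B.card / nB B)) * (4 * K * Maj v z x W1 C1) := by
        rw [sum_mul]
        exact sum_congr rfl fun B _ => by ring
    _ ≤ _ := mul_le_mul_of_nonneg_right (sum_cf_le hw1 hz ha hE) hM

lemma WOK_le (hW : WOK v W1) : W1 ≤ primorial (v ^ 4) := by
  refine Nat.le_of_dvd (primorial_pos _) ?_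
  rw [← Nat.prod_primeFactors_of_squarefree hW.1]
  refine Finset.prod_primes_dvd _ (fun l hl => (Nat.prime_of_mem_primeFactors hl).prime)
    fun l hl => ?_
  have hp := Nat.prime_of_mem_primeFactors hl
  have h := hW.2 l hp (Nat.dvd_of_mem_primeFactors hl)
  rw [hp.dvd_primorial_iff]
  unfold ww at h
  exact_mod_cast h

lemma exn_comm (S : Finset GI) (t t' : Tt) : exn S t t' = exn S t' t := by
  unfold exn; ring

end AV1

open AV1 in
theorem AV1 (h1 : LFLStmt) (h2 : Loc1Stmt) (h3 : QUStmt) : AV1Stmt := by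
  obtain ⟨K0, u0, hQU⟩ := h3
  set K1 := max K0 1 with hK1
  have hK1' : 1 ≤ K1 := le_max_right _ _
  have hK0 : K0 ≤ K1 := le_max_left _ _
  refine ⟨16 * K1, fun δ hδ => ⟨max u0 3, fun v a e f C1 hv hex hC => ?_⟩⟩
  have ha : 3 ≤ a := (le_max_right _ _).trans hex.2.1
  obtain ⟨z1, hz1⟩ := hQU v a e f (by linarith)
    ⟨hex.1, (le_max_left _ _).trans hex.2.1, hex.2.2⟩
  obtain ⟨z2, hz2⟩ := exp_Lam_le 1200
  refine ⟨max (max z1 z2) (max (primorial (v ^ 4) : ℝ) v), ?_⟩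
  intro z Y0 x W1 S ρ T hz hY hx hW hL hT
  have hv16 : (16 : ℝ) ≤ v := by linarith
  have hzv : (v : ℝ) ≤ z := ((le_max_right _ _).trans (le_max_right _ _)).trans hz
  have hz1' : 1 ≤ z := by linarith
  have hWz : (W1 : ℝ) ≤ z := by
    refine le_trans ?_ (((le_max_left _ _).trans (le_max_right _ _)).trans hz)
    exact_mod_cast WOK_le hW
  have hE := hz2 (ww v) z (((le_max_right _ _).trans (le_max_left _ _)).trans hz)
  have hQ : QUat K1 v a e z := by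
    intro lam p W y d c c' a1 a2 a3 a4 a5 a6 a7 a8 a9 a10 a11 a12 a13
    refine (hz1 z lam p W y d c c' (((le_max_left _ _).trans (le_max_left _ _)).trans hz)
      a1 a2 a3 a4 a5 a6 a7 a8 a9 a10 a11 a12 a13).trans ?_
    have hp : 0 ≤ p := le_trans (by positivity) a3
    gcongr
  have hv3 : (4096 : ℝ) ≤ (v : ℝ) ^ 3 := by
    have := pow_le_pow_left₀ (by norm_num) hv16 3
    linarith
  have hww : ww v = (v : ℝ) ^ 3 * v := by unfold ww; ring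
  have hw1 : 1800 ≤ ww v := by rw [hww]; nlinarith
  have hM : 0 ≤ Maj v z x W1 C1 := Maj_nonneg _ _ _ _ (by linarith)
  have hA : ∑ t ∈ T, mt v z x S t ≤ 4 * K1 * Maj v z x W1 C1 := by
    have := caseY (B := ∅) hQ (by linarith) hz1' hex.1 hY hC hx hW hWz (empty_subset _)
      (by simpa [nB] using one_le_pow₀ hz1') 0 T hT (fun t _ l hl => absurd hl (notMem_empty l))
    simpa [nB] using this
  have hsm : 3600 / ww v + 1 / z ≤ 2 / v := by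
    have h4 : 3600 / ww v ≤ 1 / v := by
      rw [div_le_div_iff₀ (by linarith) (by linarith), hww]; nlinarith
    have h5 : 1 / z ≤ 1 / (v : ℝ) := one_div_le_one_div_of_le (by linarith) hzv
    have h6 : 2 / (v : ℝ) = 1 / v + 1 / v := by ring
    linarith
  have hB : ∀ D : Tt → Tt → ℤ, (D = D33 ∨ D = D34 ρ ∨ D = D44 ρ) →
      ∑ t ∈ T, ∑ t' ∈ T, mt v z x S t * mt v z x S t' *
          (Real.exp (144 * sst v z (exn S t t') (D t t')) - 1) ≤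
        (δ + 16 * K1 / v) * (16 * K1) * Maj v z x W1 C1 ^ 2 := by
    intro D hD
    have hN : 0 ≤ 4 * K1 * Maj v z x W1 C1 := mul_nonneg (by linarith) hM
    have hv0 : (0 : ℝ) < v := by linarith
    calc _ = ∑ t ∈ T, mt v z x S t * ∑ t' ∈ T, mt v z x S t' *
            (Real.exp (144 * sst v z (exn S t t') (D t t')) - 1) := by
          refine sum_congr rfl fun t _ => ?_
          rw [mul_sum]
          exact sum_congr rfl fun t' _ => mul_assoc _ _ _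
      _ ≤ ∑ t ∈ T, mt v z x S t * (2 / v * (4 * K1 * Maj v z x W1 C1)) := by
          refine sum_le_sum fun t ht => mul_le_mul_of_nonneg_left ?_ (mt_nonneg hx v z S t)
          exact (perT hQ (by linarith) hz1' ha hY hC hx hW hWz hL hw1 hE D hD t (hT t ht) T
            hT).trans (mul_le_mul_of_nonneg_right hsm hN)
      _ = (∑ t ∈ T, mt v z x S t) * (2 / v * (4 * K1 * Maj v z x W1 C1)) := (sum_mul _ _ _).symm
      _ ≤ (4 * K1 * Maj v z x W1 C1) * (2 / v * (4 * K1 * Maj v z x W1 C1)) :=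
          mul_le_mul_of_nonneg_right hA (mul_nonneg (by positivity) hN)
      _ = (2 * K1 / v) * (16 * K1) * Maj v z x W1 C1 ^ 2 := by ring
      _ ≤ _ := by
          refine mul_le_mul_of_nonneg_right (mul_le_mul_of_nonneg_right ?_ (by linarith))
            (sq_nonneg _)
          have : 2 * K1 / v ≤ 16 * K1 / v := div_le_div_of_nonneg_right (by linarith) hv0.le
          linarith
  refine ⟨hA.trans (mul_le_mul_of_nonneg_right (by linarith) hM), fun D hD => ?_⟩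
  rcases hD with h | h | h | h
  · exact hB D (Or.inl h)
  · exact hB D (Or.inr (Or.inl h))
  · refine le_trans (le_of_eq ?_) (hB (D34 ρ) (Or.inr (Or.inl rfl)))
    rw [sum_comm, h]
    refine sum_congr rfl fun t _ => sum_congr rfl fun t' _ => ?_
    rw [exn_comm S t' t, mul_comm (mt v z x S t')]
  · exact hB D (Or.inr (Or.inr h))

end Pool.Agent.Lib.LQ
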