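import Pool.Agent.Lib.LQ.Basic

/-! Block AV1, part 1: expansion of a product over primes into subsets of bounded product, and a
sum of reciprocals over a residue class. -/

set_option autoImplicit false

open Finset
open scoped Classical

noncomputable section

namespace Pool.Agent.Lib.LQ

open Pool.Agent.Lib.MP_de94cf_nt (gg det inn)

namespace AV1

/-- product of a finite set of naturals, as a real number -/
def nB (B : Finset ℕ) : ℝ := ∏ l ∈ B, (l : ℝ)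

lemma nB_nonneg (B : Finset ℕ) : 0 ≤ nB B := prod_nonneg fun _ _ => Nat.cast_nonneg _

lemma nB_cast (B : Finset ℕ) : ((∏ l ∈ B, l : ℕ) : ℝ) = nB B := by
  simp [nB]

lemma window {z Z : ℝ} (hZ : 1 ≤ Z) (B : Finset ℕ) (hB : ∀ l ∈ B, (l : ℝ) ≤ z)
    (h : Z < nB B) : ∃ B' ⊆ B, Z < nB B' * z ∧ nB B' ≤ Z := by
  induction B using Finset.induction_on with
  | empty => simp [nB] at h; linarith
  | insert l B hl ih =>
    by_cases h0 : Z < nB B
    · obtain ⟨B', h1, h2⟩ := ih (fun m hm => hB m (mem_insert_of_mem hm)) h0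
      exact ⟨B', h1.trans (subset_insert _ _), h2⟩
    · refine ⟨B, subset_insert _ _, ?_, not_lt.1 h0⟩
      have e : nB (insert l B) = l * nB B := by simp [nB, prod_insert hl]
      have h1 := hB l (mem_insert_self _ _)
      have h2 := nB_nonneg B
      rw [e] at h
      nlinarith

lemma inner_le (A B' : Finset ℕ) (h : ℕ → ℝ) (hh : ∀ l, 0 ≤ h l) :
    ∑ B ∈ A.powerset, ind (B' ⊆ B) * ∏ l ∈ B \ B', h l ≤ ∏ l ∈ A, (1 + h l) := by
  have e1 : ∑ B ∈ A.powerset, ind (B' ⊆ B) * ∏ l ∈ B \ B', h l =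
      ∑ B ∈ A.powerset.filter (fun B => B' ⊆ B), ∏ l ∈ B \ B', h l := by
    rw [sum_filter]
    refine sum_congr rfl fun B _ => ?_
    by_cases hb : B' ⊆ B
    · rw [ind_true hb, if_pos hb, one_mul]
    · rw [ind_false hb, if_neg hb, zero_mul]
  have hinj : Set.InjOn (fun B : Finset ℕ => B \ B')
      (A.powerset.filter (fun B => B' ⊆ B) : Finset (Finset ℕ)) := by
    intro B1 h1 B2 h2 e
    have h1' : B' ⊆ B1 := (mem_filter.1 (mem_coe.1 h1)).2
    have h2' : B' ⊆ B2 := (mem_filter.1 (mem_coe.1 h2)).2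
    have e' : B1 \ B' = B2 \ B' := e
    rw [← sdiff_union_of_subset h1', ← sdiff_union_of_subset h2', e']
  rw [e1, prod_one_add, ← sum_image (f := fun C : Finset ℕ => ∏ l ∈ C, h l) hinj]
  refine sum_le_sum_of_subset_of_nonneg ?_ fun C _ _ => prod_nonneg fun l _ => hh l
  intro C hC
  obtain ⟨B, hB, rfl⟩ := mem_image.1 hC
  exact mem_powerset.2 (sdiff_subset.trans (mem_powerset.1 (mem_filter.1 hB).1))

lemma tail_le {z Z : ℝ} (hZ : 1 ≤ Z) (A : Finset ℕ) (hA : ∀ l ∈ A, (l : ℝ) ≤ z) (h : ℕ → ℝ)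
    (hh : ∀ l, 0 ≤ h l) :
    ∑ B ∈ A.powerset.filter (fun B => ¬ nB B ≤ Z), ∏ l ∈ B, h l ≤
      ∑ B' ∈ A.powerset.filter (fun B => nB B ≤ Z),
        (∏ l ∈ B', h l) * ind (Z < nB B' * z) * ∏ l ∈ A, (1 + h l) := by
  have hH : ∀ B : Finset ℕ, 0 ≤ ∏ l ∈ B, h l := fun B => prod_nonneg fun l _ => hh l
  have hn : ∀ B B' : Finset ℕ, 0 ≤ (∏ l ∈ B', h l) * ind (Z < nB B' * z) *
      (ind (B' ⊆ B) * ∏ l ∈ B \ B', h l) := fun B B' =>
    mul_nonneg (mul_nonneg (hH _) (ind_nonneg _)) (mul_nonneg (ind_nonneg _) (hH _))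
  calc ∑ B ∈ A.powerset.filter (fun B => ¬ nB B ≤ Z), ∏ l ∈ B, h l
      ≤ ∑ B ∈ A.powerset.filter (fun B => ¬ nB B ≤ Z),
          ∑ B' ∈ A.powerset.filter (fun B => nB B ≤ Z), (∏ l ∈ B', h l) * ind (Z < nB B' * z) *
            (ind (B' ⊆ B) * ∏ l ∈ B \ B', h l) := by
        refine sum_le_sum fun B hB => ?_
        have hBA : B ⊆ A := mem_powerset.1 (mem_filter.1 hB).1
        obtain ⟨B', h1, h2, h3⟩ := window hZ B (fun l hl => hA l (hBA hl))
          (not_le.1 (mem_filter.1 hB).2)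
        have hm : B' ∈ A.powerset.filter (fun B => nB B ≤ Z) :=
          mem_filter.2 ⟨mem_powerset.2 (h1.trans hBA), h3⟩
        refine le_trans (le_of_eq ?_) (single_le_sum (fun C _ => hn B C) hm)
        rw [ind_true h2, ind_true h1, mul_one, one_mul, mul_comm, prod_sdiff h1]
    _ ≤ ∑ B ∈ A.powerset,
          ∑ B' ∈ A.powerset.filter (fun B => nB B ≤ Z), (∏ l ∈ B', h l) * ind (Z < nB B' * z) *
            (ind (B' ⊆ B) * ∏ l ∈ B \ B', h l) :=
        sum_le_sum_of_subset_of_nonneg (filter_subset _ _)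
          fun B _ _ => sum_nonneg fun C _ => hn B C
    _ = ∑ B' ∈ A.powerset.filter (fun B => nB B ≤ Z), (∏ l ∈ B', h l) * ind (Z < nB B' * z) *
          ∑ B ∈ A.powerset, ind (B' ⊆ B) * ∏ l ∈ B \ B', h l := by
        rw [sum_comm]
        exact sum_congr rfl fun B' _ => (mul_sum _ _ _).symm
    _ ≤ _ := sum_le_sum fun B' _ =>
        mul_le_mul_of_nonneg_left (inner_le A B' h hh) (mul_nonneg (hH _) (ind_nonneg _))

/-- the coefficient of a subset -/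
def cf (z Z E : ℝ) (h : ℕ → ℝ) (B : Finset ℕ) : ℝ :=
  (∏ l ∈ B, h l) * (ind (B ≠ ∅) + E * ind (Z < nB B * z))

lemma cf_nonneg {z Z E : ℝ} (hE : 0 ≤ E) {h : ℕ → ℝ} (hh : ∀ l, 0 ≤ h l) (B : Finset ℕ) :
    0 ≤ cf z Z E h B :=
  mul_nonneg (prod_nonneg fun l _ => hh l) (add_nonneg (ind_nonneg _) (mul_nonneg hE (ind_nonneg _)))

lemma expand {z Z E : ℝ} (hZ : 1 ≤ Z) (A : Finset ℕ) (hA : ∀ l ∈ A, (l : ℝ) ≤ z) (h : ℕ → ℝ)
    (hh : ∀ l, 0 ≤ h l) (hE : ∏ l ∈ A, (1 + h l) ≤ E) :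
    ∏ l ∈ A, (1 + h l) - 1 ≤ ∑ B ∈ A.powerset.filter (fun B => nB B ≤ Z), cf z Z E h B := by
  have hH : ∀ B : Finset ℕ, 0 ≤ ∏ l ∈ B, h l := fun B => prod_nonneg fun l _ => hh l
  have h1 := tail_le hZ A hA h hh
  have h2 : ∏ l ∈ A, (1 + h l) = ∑ B ∈ A.powerset.filter (fun B => nB B ≤ Z), ∏ l ∈ B, h l +
      ∑ B ∈ A.powerset.filter (fun B => ¬ nB B ≤ Z), ∏ l ∈ B, h l := by
    rw [sum_filter_add_sum_filter_not, prod_one_add]
  have hm : (∅ : Finset ℕ) ∈ A.powerset.filter (fun B => nB B ≤ Z) :=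
    mem_filter.2 ⟨empty_mem_powerset _, by simpa [nB] using hZ⟩
  have h3 : ∑ B ∈ A.powerset.filter (fun B => nB B ≤ Z), ∏ l ∈ B, h l =
      1 + ∑ B ∈ A.powerset.filter (fun B => nB B ≤ Z), (∏ l ∈ B, h l) * ind (B ≠ ∅) := by
    rw [← add_sum_erase _ _ hm, ← add_sum_erase _ _ hm, ind_false (by simp), prod_empty,
      mul_zero, zero_add]
    congr 1
    refine sum_congr rfl fun B hB => ?_
    rw [ind_true (mem_erase.1 hB).1, mul_one]
  have h4 : ∑ B' ∈ A.powerset.filter (fun B => nB B ≤ Z),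
        (∏ l ∈ B', h l) * ind (Z < nB B' * z) * ∏ l ∈ A, (1 + h l) ≤
      ∑ B' ∈ A.powerset.filter (fun B => nB B ≤ Z),
        (∏ l ∈ B', h l) * (E * ind (Z < nB B' * z)) := by
    refine sum_le_sum fun B _ => ?_
    have := mul_le_mul_of_nonneg_left hE (mul_nonneg (hH B) (ind_nonneg (Z < nB B * z)))
    linarith
  have h5 : ∑ B ∈ A.powerset.filter (fun B => nB B ≤ Z), cf z Z E h B =
      ∑ B ∈ A.powerset.filter (fun B => nB B ≤ Z), (∏ l ∈ B, h l) * ind (B ≠ ∅) +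
      ∑ B' ∈ A.powerset.filter (fun B => nB B ≤ Z),
        (∏ l ∈ B', h l) * (E * ind (Z < nB B' * z)) := by
    rw [← sum_add_distrib]
    exact sum_congr rfl fun B _ => by rw [cf, mul_add]
  linarith

/-- the weight `300 / l` -/
def hw (l : ℕ) : ℝ := 300 / (l : ℝ)

lemma hw_nonneg (l : ℕ) : 0 ≤ hw l := by unfold hw; positivity

lemma exp_le_prod (A : Finset ℕ) (hA : ∀ l ∈ A, (144 : ℝ) ≤ l) :
    Real.exp (144 * ∑ l ∈ A, 1 / (l : ℝ)) ≤ ∏ l ∈ A, (1 + hw l) := by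
  rw [mul_sum, Real.exp_sum]
  refine prod_le_prod (fun l _ => (Real.exp_pos _).le) fun l hl => ?_
  have h1 := hA l hl
  have h0 : (0 : ℝ) < l := by linarith
  have h2 : (0 : ℝ) ≤ 144 * (1 / (l : ℝ)) := by positivity
  have h3 : 144 * (1 / (l : ℝ)) ≤ 1 := by
    rw [mul_one_div, div_le_one h0]; exact h1
  have h4 := Real.abs_exp_sub_one_le (x := 144 * (1 / (l : ℝ))) (by rwa [abs_of_nonneg h2])
  rw [abs_of_nonneg h2] at h4
  have h5 := (abs_le.1 h4).2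
  have h6 : 2 * (144 * (1 / (l : ℝ))) ≤ hw l := by
    unfold hw
    rw [div_eq_mul_one_div 300]
    have : (0 : ℝ) ≤ 1 / (l : ℝ) := by positivity
    linarith
  linarith

lemma sum_inv_le_Lam (w z : ℝ) : ∑ l ∈ PP w z, 1 / (l : ℝ) ≤ Lam w z := by
  refine sum_le_sum fun l hl => ?_
  have h1 : (1 : ℝ) ≤ l := by exact_mod_cast (mem_PP.1 hl).1.one_le
  rw [div_le_div_iff₀ (by linarith) (by linarith)]
  linarith

lemma prod_le_exp_Lam (w z c : ℝ) (hc : 0 ≤ c) {A : Finset ℕ} (hA : A ⊆ PP w z) :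
    ∏ l ∈ A, (1 + c / (l : ℝ)) ≤ Real.exp (c * Lam w z) := by
  refine (Real.prod_one_add_le_exp_sum A (f := fun l : ℕ => c / (l : ℝ))
    fun l => by positivity).trans (Real.exp_le_exp.2 ?_)
  have h1 : ∑ l ∈ A, c / (l : ℝ) = c * ∑ l ∈ A, 1 / (l : ℝ) := by
    rw [mul_sum]; exact sum_congr rfl fun l _ => by ring
  rw [h1]
  refine mul_le_mul_of_nonneg_left (le_trans ?_ (sum_inv_le_Lam w z)) hc
  exact sum_le_sum_of_subset_of_nonneg hA fun l _ _ => by positivity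

/-- total of the coefficients against the expected densities -/
lemma sum_cf_le {w z : ℝ} {a : ℕ} (hw1 : 1800 ≤ w) (hz : 1 ≤ z) (ha : 3 ≤ a)
    (hL : Real.exp ((1200 : ℕ) * Lam w z) ≤ z) :
    ∑ B ∈ (PP w z).powerset.filter (fun B => nB B ≤ z ^ a),
      cf z (z ^ a) (Real.exp (300 * Lam w z)) hw B * (3 ^ B.card / nB B) ≤ 3600 / w + 1 / z := by
  have hz0 : 0 < z := by linarith
  set E := Real.exp (300 * Lam w z) with hE
  have hE0 : 0 < E := Real.exp_pos _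
  have hpos : ∀ B ∈ (PP w z).powerset, 0 < nB B := fun B hB =>
    prod_pos fun l hl => by exact_mod_cast (mem_PP.1 (mem_powerset.1 hB hl)).1.pos
  have e1 : ∀ B : Finset ℕ, (∏ l ∈ B, hw l) * (3 ^ B.card / nB B) =
      ∏ l ∈ B, (900 / (l : ℝ) ^ 2) := by
    intro B
    rw [← prod_const, nB, ← prod_div_distrib, ← prod_mul_distrib]
    refine prod_congr rfl fun l _ => ?_
    unfold hw
    rw [div_mul_div_comm]; norm_num [sq]
  have e2 : ∀ B : Finset ℕ, ∏ l ∈ B, (900 / (l : ℝ) ^ 2) = (∏ l ∈ B, (900 / (l : ℝ))) / nB B := by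
    intro B
    rw [nB, ← prod_div_distrib]
    refine prod_congr rfl fun l _ => ?_
    rw [div_div, sq]
  have h1 : ∀ B ∈ (PP w z).powerset, cf z (z ^ a) E hw B * (3 ^ B.card / nB B) ≤
      (∏ l ∈ B, (900 / (l : ℝ) ^ 2)) * ind (B ≠ ∅) + E / z ^ 2 * ∏ l ∈ B, (900 / (l : ℝ)) := by
    intro B hB
    have e3 : cf z (z ^ a) E hw B * (3 ^ B.card / nB B) =
        (∏ l ∈ B, (900 / (l : ℝ) ^ 2)) * ind (B ≠ ∅) +
          E * ind (z ^ a < nB B * z) * ((∏ l ∈ B, (900 / (l : ℝ))) / nB B) := by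
      rw [← e2, ← e1, cf]; ring
    rw [e3]
    have hP : 0 ≤ ∏ l ∈ B, (900 / (l : ℝ)) := prod_nonneg fun l _ => by positivity
    have : E * ind (z ^ a < nB B * z) * ((∏ l ∈ B, (900 / (l : ℝ))) / nB B) ≤
        E / z ^ 2 * ∏ l ∈ B, (900 / (l : ℝ)) := by
      by_cases hb : z ^ a < nB B * z
      · rw [ind_true hb, mul_one]
        have h3 : z ^ 3 ≤ z ^ a := pow_le_pow_right₀ hz ha
        have h4 : z ^ 2 ≤ nB B := by
          have : z ^ 2 * z ≤ nB B * z := by nlinarith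
          exact le_of_mul_le_mul_right this hz0
        have h5 : (∏ l ∈ B, (900 / (l : ℝ))) / nB B ≤ (∏ l ∈ B, (900 / (l : ℝ))) / z ^ 2 :=
          div_le_div_of_nonneg_left hP (by positivity) h4
        calc _ ≤ E * ((∏ l ∈ B, (900 / (l : ℝ))) / z ^ 2) := mul_le_mul_of_nonneg_left h5 hE0.le
          _ = _ := by ring
      · rw [ind_false hb, mul_zero, zero_mul]; positivity
    linarith
  have h2 : ∑ B ∈ (PP w z).powerset, (∏ l ∈ B, (900 / (l : ℝ) ^ 2)) * ind (B ≠ ∅) =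
      ∏ l ∈ PP w z, (1 + 900 / (l : ℝ) ^ 2) - 1 := by
    have hm : (∅ : Finset ℕ) ∈ (PP w z).powerset := empty_mem_powerset _
    rw [prod_one_add, ← add_sum_erase _ _ hm, ← add_sum_erase _ _ hm, ind_false (by simp),
      prod_empty, mul_zero, zero_add, add_sub_cancel_left]
    refine sum_congr rfl fun B hB => ?_
    rw [ind_true (mem_erase.1 hB).1, mul_one]
  have h3 : ∏ l ∈ PP w z, (1 + 900 / (l : ℝ) ^ 2) - 1 ≤ 3600 / w := by
    have hw0 : 0 < w := by linarith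
    have h4 : ∑ l ∈ PP w z, 900 / (l : ℝ) ^ 2 ≤ 1800 / w := by
      have := sum_inv_sq_tail (w := w) (by linarith) (S := PP w z) fun l hl => (mem_PP.1 hl).2.2.1
      have e : ∑ l ∈ PP w z, 900 / (l : ℝ) ^ 2 = 900 * ∑ l ∈ PP w z, 1 / (l : ℝ) ^ 2 := by
        rw [mul_sum]; exact sum_congr rfl fun l _ => by ring
      have e' : 1800 / w = 900 * (2 / w) := by ring
      rw [e, e']; linarith
    have h5 := (Real.prod_one_add_le_exp_sum (PP w z) (f := fun l : ℕ => 900 / (l : ℝ) ^ 2)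
      fun l => by positivity).trans (Real.exp_le_exp.2 h4)
    have h6 : (0 : ℝ) ≤ 1800 / w := by positivity
    have h7 := Real.abs_exp_sub_one_le (x := 1800 / w)
      (by rw [abs_of_nonneg h6, div_le_one hw0]; exact hw1)
    rw [abs_of_nonneg h6] at h7
    have h8 := (abs_le.1 h7).2
    have e' : 3600 / w = 2 * (1800 / w) := by ring
    linarith
  have h4 : ∑ B ∈ (PP w z).powerset, E / z ^ 2 * ∏ l ∈ B, (900 / (l : ℝ)) ≤ 1 / z := by
    rw [← mul_sum, ← prod_one_add]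
    have h5 := prod_le_exp_Lam w z 900 (by norm_num) (subset_refl (PP w z))
    have h6 : E * Real.exp (900 * Lam w z) ≤ z := by
      rw [hE, ← Real.exp_add]
      refine le_trans (le_of_eq ?_) hL
      congr 1; push_cast; ring
    calc _ ≤ E / z ^ 2 * Real.exp (900 * Lam w z) :=
          mul_le_mul_of_nonneg_left h5 (by positivity)
      _ = E * Real.exp (900 * Lam w z) / z ^ 2 := by ring
      _ ≤ z / z ^ 2 := div_le_div_of_nonneg_right h6 (by positivity)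
      _ = 1 / z := by field_simp
  calc _ ≤ ∑ B ∈ (PP w z).powerset, cf z (z ^ a) E hw B * (3 ^ B.card / nB B) :=
        sum_le_sum_of_subset_of_nonneg (filter_subset _ _) fun B _ _ =>
          mul_nonneg (cf_nonneg hE0.le hw_nonneg B) (div_nonneg (by positivity) (nB_nonneg B))
    _ ≤ ∑ B ∈ (PP w z).powerset, ((∏ l ∈ B, (900 / (l : ℝ) ^ 2)) * ind (B ≠ ∅) +
          E / z ^ 2 * ∏ l ∈ B, (900 / (l : ℝ))) := sum_le_sum h1
    _ ≤ _ := by rw [sum_add_distrib, h2]; linarith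

/-- reciprocals of a residue class in a window -/
lemma ysum (Y : Finset ℕ) {M : ℕ} {Y' C1 Z : ℝ} (hM : 0 < M) (hY' : 0 < Y') (hC : 1 ≤ C1)
    (hMZ : (M : ℝ) ≤ Z) (h1 : ∀ y ∈ Y, Y' ≤ (y : ℝ) ∧ (y : ℝ) ≤ C1 * Y' ∧ Z ≤ (y : ℝ))
    (h2 : ∀ y ∈ Y, ∀ y' ∈ Y, y ≡ y' [MOD M]) :
    ∑ y ∈ Y, 1 / (y : ℝ) ≤ 2 * C1 / M := by
  have hM' : (0 : ℝ) < M := by exact_mod_cast hM
  have hc : Y.card ≤ ⌊C1 * Y' / M⌋₊ + 1 := by
    rw [← card_range (⌊C1 * Y' / M⌋₊ + 1)]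
    refine card_le_card_of_injOn (fun y => y / M) (fun y hy => ?_) fun y hy y' hy' e => ?_
    · have hy' := h1 y (mem_coe.1 hy)
      refine mem_coe.2 (mem_range.2 (Nat.lt_succ_of_le (Nat.le_floor ?_)))
      exact Nat.cast_div_le.trans (div_le_div_of_nonneg_right hy'.2.1 hM'.le)
    · have e1 : y % M = y' % M := h2 y (mem_coe.1 hy) y' (mem_coe.1 hy')
      have e2 : y / M = y' / M := e
      rw [← Nat.div_add_mod y M, ← Nat.div_add_mod y' M, e1, e2]
  have hc' : (Y.card : ℝ) ≤ C1 * Y' / M + 1 := by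
    have : (Y.card : ℝ) ≤ (⌊C1 * Y' / M⌋₊ : ℝ) + 1 := by exact_mod_cast hc
    have h3 := Nat.floor_le (a := C1 * Y' / M) (by positivity)
    linarith
  have hm : 0 < max Y' Z := lt_max_of_lt_left hY'
  have h3 : ∑ y ∈ Y, 1 / (y : ℝ) ≤ Y.card * (1 / max Y' Z) := by
    rw [← nsmul_eq_mul]
    refine sum_le_card_nsmul _ _ _ fun y hy => ?_
    exact one_div_le_one_div_of_le hm (max_le (h1 y hy).1 (h1 y hy).2.2)
  have h4 : 1 / max Y' Z ≤ 1 / Y' := one_div_le_one_div_of_le hY' (le_max_left _ _)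
  have h5 : 1 / max Y' Z ≤ 1 / (M : ℝ) :=
    one_div_le_one_div_of_le hM' (hMZ.trans (le_max_right _ _))
  have h6 : C1 * Y' / M * (1 / max Y' Z) ≤ C1 / M := by
    calc _ ≤ C1 * Y' / M * (1 / Y') := mul_le_mul_of_nonneg_left h4 (by positivity)
      _ = _ := by field_simp
  have h7 : 1 / (M : ℝ) ≤ C1 / M := div_le_div_of_nonneg_right hC hM'.le
  calc _ ≤ (C1 * Y' / M + 1) * (1 / max Y' Z) :=
        h3.trans (mul_le_mul_of_nonneg_right hc' (by positivity))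
    _ = C1 * Y' / M * (1 / max Y' Z) + 1 / max Y' Z := by ring
    _ ≤ C1 / M + C1 / M := by linarith
    _ = _ := by ring

end AV1

end Pool.Agent.Lib.LQ
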