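import Pool.Agent.Lib.LQ.AV2Aux3

/-! Project LQ, block AV2: averages over common divisors of `Q` and `Q'`. -/

set_option autoImplicit false

open Finset
open scoped Classical

noncomputable section

namespace Pool.Agent.Lib.LQ

open Pool.Agent.Lib.MP_de94cf_nt (gg det inn)

namespace AV2

variable {u v a e f : ℕ} {z Y0 C1 : ℝ} {x : Wt} {W1 : ℕ} {S : Finset GI} {ρ : GI}

lemma sum_ind_eq (T : Finset Tt) (F G : Tt → ℝ) (p : Tt → Prop) [DecidablePred p] :
    ∑ t ∈ T, F t * ind (p t) * G t = ∑ t ∈ T.filter p, F t * G t := by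
  rw [Finset.sum_filter]
  refine Finset.sum_congr rfl fun t _ => ?_
  by_cases h : p t
  · rw [ind_true h, if_pos h, mul_one]
  · rw [ind_false h, if_neg h, mul_zero, zero_mul]

lemma g0_facts (hv : 3 ≤ v) {t : Tt} (h : Adm v a e f z S ρ W1 Y0 C1 t) (t' : Tt) :
    g0 t t' ∣ t.q ∧ g0 t t' ∣ t'.q ∧ Squarefree (g0 t t') ∧ sg (g0 t t') ≤ 1 := by
  have d1 : g0 t t' ∣ t.q := (g0_dvd t t').trans (Nat.gcd_dvd_left _ _)
  refine ⟨d1, (g0_dvd t t').trans (Nat.gcd_dvd_right _ _), h.sfq.squarefree_of_dvd d1, ?_⟩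
  have h1 : (3 : ℝ) ≤ v := by exact_mod_cast hv
  refine (sg_mono d1 h.sfq.ne_zero).trans (h.sgq.trans ?_)
  rw [div_le_one (by linarith)]; linarith

lemma part1 (hv : 3 ≤ v) (hz : 1 ≤ z) (hx : x.OK) (hW : WOK v W1) (hL : Lab v a f z S ρ)
    (he : ExpOK u a e f) (hC : 1 ≤ C1) (hCz : C1 ≤ z) (hWz : (W1 : ℝ) ≤ z) (hY : 0 < Y0)
    {K : ℝ} (hK : 0 ≤ K) (hQ : QUz K v a e z) {R : ℝ} (hR0 : 0 ≤ R)
    (hR : ∀ n : ℕ, n ≠ 0 → (n : ℝ) ≤ 2 * z ^ f → (n.divisors.card : ℝ) ≤ R ∧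
      ∀ A : Finset GI, (∀ α ∈ A, nm α = n) → (A.card : ℝ) ≤ R)
    {T : Finset Tt} (hT : ∀ t ∈ T, Adm v a e f z S ρ W1 Y0 C1 t) {t : Tt}
    (h : Adm v a e f z S ρ W1 Y0 C1 t) :
    ∑ t' ∈ T, mt v z x S t' * ind (D33 t t' ≠ 0 ∧ 1 < g0 t t' ∧ (g0 t t' : ℤ) ∣ D33 t t') *
        (psi (g0 t t') * Real.sqrt (psi (g0 t t'))) ≤
      144 * K / v * Maj v z x W1 C1 + R * (72 * R * C1 / Real.sqrt z) := by
  have hM := Maj_nonneg (v := v) (z := z) (x := x) (W1 := W1) hC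
  have hC0 : 0 ≤ C1 := by linarith
  have hv' : (3 : ℝ) ≤ v := by exact_mod_cast hv
  rw [sum_ind_eq]
  have h1 := fiber_le (T.filter fun t' => D33 t t' ≠ 0 ∧ 1 < g0 t t' ∧ (g0 t t' : ℤ) ∣ D33 t t')
    (t.q.divisors.erase 1) (fun t' => g0 t t')
    (fun t' => mt v z x S t' * (psi (g0 t t') * Real.sqrt (psi (g0 t t'))))
    (fun d => 24 * K * Maj v z x W1 C1 * (3 ^ d.primeFactors.card / Real.sqrt d) +
      72 * R * C1 / Real.sqrt z)
    (fun t' ht' => mem_erase.2 ⟨(mem_filter.1 ht').2.2.1.ne',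
      Nat.mem_divisors.2 ⟨(g0_facts hv h t').1, h.sfq.ne_zero⟩⟩)
    (fun d _ => by positivity)
    (fun V hV t0 h0 hs => by
      obtain ⟨f1, f2, f3, f4⟩ := g0_facts hv h t0
      have e1 : ∑ t' ∈ V, mt v z x S t' * (psi (g0 t t') * Real.sqrt (psi (g0 t t'))) =
          (∑ t' ∈ V, mt v z x S t') * (psi (g0 t t0) * Real.sqrt (psi (g0 t t0))) := by
        rw [Finset.sum_mul]
        exact Finset.sum_congr rfl fun t' ht' => by rw [hs t' ht']
      have h2 := psi32_le f3 f4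
      have h3 : 0 ≤ ∑ t' ∈ V, mt v z x S t' := Finset.sum_nonneg fun t' _ => mt_nonneg hx t'
      have hd0 : (0 : ℝ) < g0 t t0 := by exact_mod_cast Nat.pos_of_ne_zero f3.ne_zero
      have hs0 : 0 < Real.sqrt (g0 t t0) := Real.sqrt_pos.2 hd0
      have hz0 : 0 < Real.sqrt z := Real.sqrt_pos.2 (by linarith)
      rw [e1]
      refine (mul_le_mul_of_nonneg_left h2 h3).trans ?_
      rcases le_or_gt (g0 t t0 : ℝ) (z ^ a) with hda | hda
      · have h4 := small hz hx hW hL he hC hWz hK hQ (c := t.c) hda (U := V) (fun t' ht' => by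
          have h5 := mem_filter.1 (hV ht')
          rw [← hs t' ht']
          exact ⟨hT t' h5.1, (g0_facts hv h t').2.1, h5.2.2.2⟩)
        refine (mul_le_mul_of_nonneg_right h4 (by positivity)).trans
          (le_trans (le_of_eq ?_) (le_add_of_nonneg_right (by positivity)))
        have h6 := Real.mul_self_sqrt hd0.le
        generalize Real.sqrt (g0 t t0) = r at *
        rw [← h6]
        field_simp
        ring
      · have h4 := large hz hx hL he hC hCz hY hR0 (fun n h1 h2 => (hR n h1 h2).2) h.loc h.hic hda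
          (U := V) (fun t' ht' => by
          have h5 := mem_filter.1 (hV ht')
          rw [← hs t' ht']
          exact ⟨hT t' h5.1, (g0_facts hv h t').2.1, h5.2.1, h5.2.2.2⟩)
        refine (mul_le_mul_of_nonneg_right h4 (by positivity)).trans
          (le_trans (le_of_eq ?_) (le_add_of_nonneg_left (by positivity)))
        rw [Real.sqrt_mul hd0.le]
        field_simp
        ring)
  refine h1.trans ?_
  rw [Finset.sum_add_distrib, ← Finset.mul_sum, sum_const, nsmul_eq_mul]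
  have h2 := sum_div_le h.sfq h.sgq (one_div_le_one_div_of_le (by norm_num) hv')
  have h3 : ((t.q.divisors.erase 1).card : ℝ) ≤ R := by
    have h4 : ((t.q.divisors.erase 1).card : ℝ) ≤ t.q.divisors.card := by
      exact_mod_cast card_erase_le
    exact h4.trans (hR t.q h.sfq.ne_zero (by linarith [q_le h, h.hip])).1
  refine add_le_add ((mul_le_mul_of_nonneg_left h2 (by positivity)).trans (le_of_eq (by ring)))
    (mul_le_mul_of_nonneg_right h3 (by positivity))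

lemma part2 (hv : 3 ≤ v) (hz : 1 ≤ z) (hx : x.OK) (hL : Lab v a f z S ρ)
    (he : ExpOK u a e f) {R : ℝ} (hR0 : 0 ≤ R)
    (hR : ∀ n : ℕ, n ≠ 0 → (n : ℝ) ≤ 2 * z ^ f → (n.divisors.card : ℝ) ≤ R ∧
      ∀ A : Finset GI, (∀ α ∈ A, nm α = n) → (A.card : ℝ) ≤ R)
    {T : Finset Tt} (hT : ∀ t ∈ T, Adm v a e f z S ρ W1 Y0 C1 t) {t : Tt}
    (h : Adm v a e f z S ρ W1 Y0 C1 t) :
    ∑ t' ∈ T, mt v z x S t' * ind (¬ Diag t t' ∧ D33 t t' = 0 ∧ g0 t t' = Nat.gcd t.q t'.q) *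
        psi (g0 t t') ≤ R * (60 * R / z ^ 7) := by
  rw [sum_ind_eq]
  have h1 := fiber_le (T.filter fun t' => ¬ Diag t t' ∧ D33 t t' = 0 ∧ g0 t t' = Nat.gcd t.q t'.q)
    t.q.divisors (fun t' => g0 t t') (fun t' => mt v z x S t' * psi (g0 t t'))
    (fun _ => 60 * R / z ^ 7)
    (fun t' _ => Nat.mem_divisors.2 ⟨(g0_facts hv h t').1, h.sfq.ne_zero⟩)
    (fun d _ => by positivity)
    (fun V hV t0 h0 hs => by
      refine fiber_split hx V (fun t' ht' => hT t' (mem_filter.1 (hV ht')).1) _ _ (by positivity)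
        fun V' hV' t1 h1 hs' => ?_
      obtain ⟨f1, f2, f3, f4⟩ := g0_facts hv h t1
      have e1 : ∑ t' ∈ V', mt v z x S t' * psi (g0 t t') =
          (∑ t' ∈ V', mt v z x S t') * psi (g0 t t1) := by
        rw [Finset.sum_mul]
        exact Finset.sum_congr rfl fun t' ht' => by rw [hs t' (hV' ht'), hs t1 (hV' h1)]
      have hA : ∀ t' ∈ V', Adm v a e f z S ρ W1 Y0 C1 t' :=
        fun t' ht' => hT t' (mem_filter.1 (hV (hV' ht'))).1
      have hy : ∀ t' ∈ V', t.y = t'.y :=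
        fun t' ht' => (key2 hL h (hA t' ht') (mem_filter.1 (hV (hV' ht'))).2.2.1).1
      have h2 := crude hz hx hR0 (fun n h1 h2 => (hR n h1 h2).2) hA h1
        (fun t' ht' => ⟨(hs' t' ht').1, (hs' t' ht').2, (hy t' ht').symm.trans (hy t1 h1)⟩)
        (d := g0 t t1) (fun t' ht' => by
          rw [hs t1 (hV' h1), ← hs t' (hV' ht')]
          exact (g0_facts hv h t').2.1)
      have h3 := psi_le f3 f4
      have h4 := mem_filter.1 (hV (hV' h1))
      have h5 := key3 hL h (hA t1 h1) h4.2.1 h4.2.2.1 h4.2.2.2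
      have hd0 : (0 : ℝ) < g0 t t1 := by exact_mod_cast Nat.pos_of_ne_zero f3.ne_zero
      have hy0 := y_pos hz (hA t1 h1)
      have hp0 := p_pos hz (hA t1 h1)
      have hth := th_nonneg (S := S) hx t1
      have hza : 1 ≤ z ^ a := one_le_pow₀ hz
      have h6 : (4 / (g0 t t1 * t1.y) + 2 / t1.p ρ) * (3 * g0 t t1) ≤ 60 / z ^ 7 := by
        have h7 : (g0 t t1 : ℝ) / t1.p ρ ≤ 8 * z ^ a / t1.y := by
          rw [div_le_div_iff₀ hp0 hy0]; exact h5
        have h8 : 1 / (t1.y : ℝ) ≤ z ^ a / t1.y := div_le_div_of_nonneg_right hza hy0.le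
        have h9 : z ^ a / t1.y ≤ 1 / z ^ 7 := by
          rw [div_le_div_iff₀ hy0 (by positivity), one_mul, ← pow_add]
          exact (pow_le_pow_right₀ hz (by have := he.1; omega)).trans (hA t1 h1).loy
        calc (4 / (g0 t t1 * t1.y) + 2 / t1.p ρ) * (3 * g0 t t1 : ℝ)
            = 12 * (1 / t1.y) + 6 * (g0 t t1 / t1.p ρ) := by field_simp; ring
          _ ≤ 12 * (z ^ a / t1.y) + 6 * (8 * z ^ a / t1.y) := by linarith
          _ = 60 * (z ^ a / t1.y) := by ring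
          _ ≤ 60 * (1 / z ^ 7) := by linarith
          _ = _ := by ring
      rw [e1]
      calc (∑ t' ∈ V', mt v z x S t') * psi (g0 t t1)
          ≤ (th x S t1 * R * (4 / (g0 t t1 * t1.y) + 2 / t1.p ρ)) * (3 * g0 t t1) :=
            mul_le_mul h2 h3 (psi_pos _).le (by positivity)
        _ = th x S t1 * R * ((4 / (g0 t t1 * t1.y) + 2 / t1.p ρ) * (3 * g0 t t1)) := by ring
        _ ≤ th x S t1 * R * (60 / z ^ 7) := mul_le_mul_of_nonneg_left h6 (by positivity)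
        _ = _ := by ring)
  refine h1.trans ?_
  rw [sum_const, nsmul_eq_mul]
  exact mul_le_mul_of_nonneg_right (hR t.q h.sfq.ne_zero (by linarith [q_le h, h.hip])).1
    (by positivity)

lemma outer (hx : x.OK) (T : Finset Tt) (F G : Tt → Tt → ℝ) {A B : ℝ} (hB : 0 ≤ B)
    (h1 : ∑ t ∈ T, mt v z x S t ≤ A) (h2 : ∀ t ∈ T, ∑ t' ∈ T, mt v z x S t' * F t t' * G t t' ≤ B) :
    ∑ t ∈ T, ∑ t' ∈ T, mt v z x S t * mt v z x S t' * F t t' * G t t' ≤ A * B := by
  refine le_trans (Finset.sum_le_sum fun t ht => ?_)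
    ((le_of_eq (Finset.sum_mul _ _ _).symm).trans (mul_le_mul_of_nonneg_right h1 hB))
  refine le_trans (le_of_eq ?_) (mul_le_mul_of_nonneg_left (h2 t ht) (mt_nonneg hx t))
  rw [Finset.mul_sum]
  exact Finset.sum_congr rfl fun t' _ => by ring

lemma expOK_mono {u u' : ℕ} (h : ExpOK u a e f) (hu : u' ≤ u) : ExpOK u' a e f :=
  ⟨h.1, hu.trans h.2.1, h.2.2⟩

end AV2

open AV2 in
theorem AV2 (h1 : QUStmt) (h2 : AV1Stmt) : AV2Stmt := by
  obtain ⟨KQ, uQ, hQ⟩ := h1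
  obtain ⟨KA, hA⟩ := h2
  obtain ⟨uA, hA⟩ := hA 1 one_pos
  obtain ⟨K, hK1, hKQ, hKA⟩ : ∃ K : ℝ, 1 ≤ K ∧ KQ ≤ K ∧ KA ≤ K :=
    ⟨max 1 (max KQ KA), le_max_left _ _, (le_max_left _ _).trans (le_max_right _ _),
      (le_max_right _ _).trans (le_max_right _ _)⟩
  refine ⟨145 * K ^ 2, max uQ uA, fun v a e f C1 hv he hC => ?_⟩
  have hK2 : K ≤ K ^ 2 := by nlinarith
  have hv' : (3 : ℝ) ≤ v := by linarith
  have hv3 : 3 ≤ v := by exact_mod_cast hv'
  obtain ⟨z1, hQ⟩ := hQ v a e f (by linarith) (expOK_mono he (le_max_left _ _))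
  obtain ⟨z2, hA⟩ := hA v a e f C1 (by linarith) (expOK_mono he (le_max_right _ _)) hC
  obtain ⟨z3, hE⟩ := exp_Lam_le 16
  obtain ⟨K2, hK2', hdiv⟩ := divb f
  obtain ⟨W, hW1, hWv⟩ : ∃ W : ℝ, 1 ≤ W ∧ ((v ^ 4).factorial : ℝ) ≤ W :=
    ⟨max 1 _, le_max_left _ _, le_max_right _ _⟩
  obtain ⟨s0, hs1, hs2⟩ : ∃ s0 : ℝ, 1 ≤ s0 ∧ 72 * K * C1 * K2 ^ 2 * v * W ^ 3 ≤ s0 :=
    ⟨max 1 _, le_max_left _ _, le_max_right _ _⟩
  refine ⟨max (max z1 z2) (max z3 (s0 ^ 16)), fun z Y0 x W1 S ρ T hz hY hx hW hL hT => ?_⟩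
  have hz1 : z1 ≤ z := (le_max_left _ _).trans ((le_max_left _ _).trans hz)
  have hz2 : z2 ≤ z := (le_max_right _ _).trans ((le_max_left _ _).trans hz)
  have hz3 : z3 ≤ z := (le_max_left _ _).trans ((le_max_right _ _).trans hz)
  have hz4 : s0 ^ 16 ≤ z := (le_max_right _ _).trans ((le_max_right _ _).trans hz)
  have hz0 : 1 ≤ z := (one_le_pow₀ hs1).trans hz4
  obtain ⟨s, hs0, hsz⟩ : ∃ s : ℝ, 0 ≤ s ∧ s ^ 16 = z :=
    ⟨z ^ (((16 : ℕ) : ℝ)⁻¹), by positivity, Real.rpow_inv_natCast_pow (by linarith) (by norm_num)⟩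
  have hss : s0 ≤ s := le_of_pow_le_pow_left₀ (n := 16) (by norm_num) hs0 (by rw [hsz]; exact hz4)
  have hs : 1 ≤ s := hs1.trans hss
  have hsz' : s ≤ z := by rw [← hsz]; exact le_self_pow₀ hs (by norm_num)
  have hW0 : (1 : ℝ) ≤ W1 := by exact_mod_cast Nat.pos_of_ne_zero hW.1.ne_zero
  have hWW : (W1 : ℝ) ≤ W := le_trans (by exact_mod_cast W_le hW) hWv
  have hK22 : 1 ≤ K2 ^ 2 := one_le_pow₀ hK2'
  have hW3 : W ≤ W ^ 3 := le_self_pow₀ hW1 (by norm_num)
  have hW13 : (W1 : ℝ) ^ 3 ≤ W ^ 3 := pow_le_pow_left₀ (by linarith) hWW 3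
  have b0 : 72 * K * C1 * K2 ^ 2 * v * W ^ 3 ≤ s := hs2.trans hss
  have b1 : 72 * K * C1 * K2 ^ 2 ≤ s := by
    refine le_trans ?_ b0
    rw [mul_assoc _ (v : ℝ)]
    exact le_mul_of_one_le_right (by positivity) (one_le_mul_of_one_le_of_one_le (by linarith)
      (by linarith))
  have b2 : 72 * K2 ^ 2 * v * W ^ 3 ≤ s := by
    refine le_trans ?_ b0
    have : 1 ≤ K * C1 := one_le_mul_of_one_le_of_one_le hK1 hC
    have h3 : 0 ≤ 72 * K2 ^ 2 * v * W ^ 3 := by positivity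
    nlinarith
  have b3 : C1 ≤ z := by
    have : 1 ≤ K * K2 ^ 2 := one_le_mul_of_one_le_of_one_le hK1 hK22
    nlinarith
  have b4 : (W1 : ℝ) ≤ z := by
    have : 1 ≤ K2 ^ 2 * v := one_le_mul_of_one_le_of_one_le hK22 (by linarith)
    nlinarith
  have hQz : QUz K v a e z := by
    intro lam p W1 y d c c' g1 g2 g3 g4 g5 g6 g7 g8 g9 g10 g11 g12 g13
    refine (hQ z lam p W1 y d c c' hz1 g1 g2 g3 g4 g5 g6 g7 g8 g9 g10 g11 g12 g13).trans ?_
    have hp : 0 ≤ p := le_trans (by positivity) g3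
    gcongr
  have hM := Maj_nonneg (v := v) (z := z) (x := x) (W1 := W1) hC
  have hsum : ∑ t ∈ T, mt v z x S t ≤ K * Maj v z x W1 C1 :=
    (hA z Y0 x W1 S ρ T hz2 hY hx hW hL hT).1.trans (mul_le_mul_of_nonneg_right hKA hM)
  have hR : ∀ n : ℕ, n ≠ 0 → (n : ℝ) ≤ 2 * z ^ f → (n.divisors.card : ℝ) ≤ K2 * s ∧
      ∀ A : Finset GI, (∀ α ∈ A, nm α = n) → (A.card : ℝ) ≤ K2 * s :=
    fun n g1 g2 => hdiv s hs n g1 (by rw [hsz]; exact g2)
  have hL0 := Lam_nonneg (ww v) z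
  have hG1 : GQ v z x ≤ 1 := by
    have := hx.hQ.2
    exact Real.exp_le_one_iff.2 (by nlinarith)
  have hG2 : 1 / s ≤ GQ v z x := by
    have g1 := hE (ww v) z hz3
    rw [Real.exp_nat_mul] at g1
    have g2 : Real.exp (Lam (ww v) z) ≤ s :=
      le_of_pow_le_pow_left₀ (n := 16) (by norm_num) hs0 (by rw [hsz]; exact g1)
    have g3 : Real.exp (-Lam (ww v) z) ≤ GQ v z x := by
      have := hx.hQ.1
      exact Real.exp_le_exp.2 (by nlinarith)
    refine le_trans ?_ g3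
    rw [Real.exp_neg, ← one_div]
    exact one_div_le_one_div_of_le (Real.exp_pos _) g2
  constructor
  · have g1 : K2 * s * (72 * (K2 * s) * C1 / Real.sqrt z) ≤ 1 / v * Maj v z x W1 C1 := by
      have g2 : Real.sqrt z = s ^ 8 := by
        rw [← hsz, show s ^ 16 = (s ^ 8) ^ 2 by ring, Real.sqrt_sq (by positivity)]
      have g3 : 1 / v * (C1 * (1 / s) / W ^ 3) ≤ 1 / v * Maj v z x W1 C1 := by
        have := GQ_pos v z x
        have : 0 ≤ C1 := by linarith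
        unfold Maj
        gcongr
      refine le_trans ?_ g3
      rw [g2]
      have g4 : s ≤ s ^ 5 := le_self_pow₀ hs (by norm_num)
      have g5 : K2 * s * (72 * (K2 * s) * C1 / s ^ 8) =
          (72 * K2 ^ 2 * v * W ^ 3) / s ^ 5 * (1 / v * (C1 * (1 / s) / W ^ 3)) := by
        field_simp
      rw [g5]
      refine mul_le_of_le_one_left (by positivity) ?_
      rw [div_le_one (by positivity)]
      linarith
    have g2 := outer hx T
      (fun t t' => ind (D33 t t' ≠ 0 ∧ 1 < g0 t t' ∧ (g0 t t' : ℤ) ∣ D33 t t'))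
      (fun t t' => psi (g0 t t') * Real.sqrt (psi (g0 t t')))
      (B := 145 * K / v * Maj v z x W1 C1) (by positivity) hsum (fun t ht => by
        refine (part1 hv3 hz0 hx hW hL he hC b3 b4 hY (by linarith) hQz (by positivity) hR hT
          (hT t ht)).trans ?_
        have g3 : 1 / v * Maj v z x W1 C1 ≤ K / v * Maj v z x W1 C1 := by gcongr
        have g4 : 145 * K / v * Maj v z x W1 C1 =
            144 * K / v * Maj v z x W1 C1 + K / v * Maj v z x W1 C1 := by ring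
        linarith)
    exact g2.trans (le_of_eq (by ring))
  · have g1 : Maj v z x W1 C1 ≤ C1 := by
      unfold Maj
      rw [div_le_iff₀ (by positivity)]
      exact mul_le_mul_of_nonneg_left (hG1.trans (one_le_pow₀ hW0)) (by linarith)
    have g2 := outer hx T
      (fun t t' => ind (¬ Diag t t' ∧ D33 t t' = 0 ∧ g0 t t' = Nat.gcd t.q t'.q))
      (fun t t' => psi (g0 t t')) (A := K * C1) (by positivity)
      (hsum.trans (mul_le_mul_of_nonneg_left g1 (by linarith)))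
      (fun t ht => part2 hv3 hz0 hx hL he (by positivity) hR hT (hT t ht))
    refine g2.trans ?_
    have g3 : K * C1 * (K2 * s * (60 * (K2 * s) / z ^ 7)) =
        (60 * K * C1 * K2 ^ 2 * s ^ 2 / z ^ 6) * (1 / z) := by
      field_simp
    rw [g3]
    refine mul_le_of_le_one_left (by positivity) ?_
    rw [div_le_one (by positivity)]
    have g4 : 60 * K * C1 * K2 ^ 2 ≤ s := by
      have : 0 ≤ K * C1 * K2 ^ 2 := by positivity
      linarith
    calc 60 * K * C1 * K2 ^ 2 * s ^ 2 ≤ s * s ^ 2 := mul_le_mul_of_nonneg_right g4 (by positivity)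
      _ = s ^ 3 := by ring
      _ ≤ z ^ 3 := pow_le_pow_left₀ hs0 hsz' 3
      _ ≤ z ^ 6 := pow_le_pow_right₀ hz0 (by norm_num)

end Pool.Agent.Lib.LQ
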