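import Pool.Agent.Lib.LQ.Basic

/-! Project LQ, block AV2: general lemmas. -/

set_option autoImplicit false

open Finset
open scoped Classical

noncomputable section

namespace Pool.Agent.Lib.LQ

open Pool.Agent.Lib.MP_de94cf_nt (gg det inn)

namespace AV2

lemma fiber_le {α β : Type*} (U : Finset α) (D : Finset β) (g : α → β) (F : α → ℝ) (G : β → ℝ)
    (hmap : ∀ t ∈ U, g t ∈ D) (hG : ∀ d ∈ D, 0 ≤ G d)
    (h : ∀ V ⊆ U, ∀ t0 ∈ V, (∀ t ∈ V, g t = g t0) → ∑ t ∈ V, F t ≤ G (g t0)) :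
    ∑ t ∈ U, F t ≤ ∑ d ∈ D, G d := by
  rw [← Finset.sum_fiberwise_of_maps_to hmap]
  refine Finset.sum_le_sum fun d hd => ?_
  rcases (U.filter fun t => g t = d).eq_empty_or_nonempty with he | ⟨t0, ht0⟩
  · rw [he]; simpa using hG d hd
  · have e : g t0 = d := (Finset.mem_filter.1 ht0).2
    have := h _ (Finset.filter_subset _ _) t0 ht0
      (fun t ht => by rw [(Finset.mem_filter.1 ht).2, e])
    rwa [e] at this

lemma class_card (A : Finset ℕ) (M : ℕ) (B : ℝ) (hB : 0 ≤ B)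
    (hc : ∀ y ∈ A, ∀ y' ∈ A, y ≡ y' [MOD M]) (hb : ∀ y ∈ A, (y : ℝ) ≤ B) :
    (A.card : ℝ) ≤ B / M + 1 := by
  have h1 : A.card ≤ (range (⌊B / M⌋₊ + 1)).card := by
    refine Finset.card_le_card_of_injOn (fun y => y / M) ?_ ?_
    · intro y hy
      have hy' : y ∈ A := hy
      simp only [coe_range, Set.mem_Iio]
      have : y / M ≤ ⌊B / M⌋₊ := by
        refine Nat.le_floor (le_trans Nat.cast_div_le ?_)
        exact div_le_div_of_nonneg_right (hb y hy') (Nat.cast_nonneg _)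
      omega
    · intro y hy y' hy' e
      have h2 : y % M = y' % M := hc y hy y' hy'
      have e' : y / M = y' / M := e
      rw [← Nat.div_add_mod y M, ← Nat.div_add_mod y' M, e', h2]
  rw [card_range] at h1
  have h2 : (⌊B / M⌋₊ : ℝ) ≤ B / M := Nat.floor_le (by positivity)
  have h3 : (A.card : ℝ) ≤ (⌊B / M⌋₊ : ℝ) + 1 := by exact_mod_cast h1
  linarith

lemma class_inv (A : Finset ℕ) (M : ℕ) (Y C : ℝ) (hY : 0 < Y) (hC : 0 ≤ C)
    (hc : ∀ y ∈ A, ∀ y' ∈ A, y ≡ y' [MOD M]) (hb : ∀ y ∈ A, Y ≤ (y : ℝ) ∧ (y : ℝ) ≤ C * Y) :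
    ∑ y ∈ A, 1 / (y : ℝ) ≤ C / M + 1 / Y := by
  have h1 := class_card A M (C * Y) (by positivity) hc (fun y hy => (hb y hy).2)
  calc ∑ y ∈ A, 1 / (y : ℝ) ≤ ∑ _y ∈ A, 1 / Y :=
        Finset.sum_le_sum fun y hy => one_div_le_one_div_of_le hY (hb y hy).1
    _ = A.card * (1 / Y) := by rw [sum_const, nsmul_eq_mul]
    _ ≤ (C * Y / M + 1) * (1 / Y) := mul_le_mul_of_nonneg_right h1 (by positivity)
    _ = C / M + 1 / Y := by field_simp

lemma psi_pos (n : ℕ) : 0 < psi n := Finset.prod_pos fun l _ => by positivity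

lemma cast_eq_prod {n : ℕ} (h : Squarefree n) : (n : ℝ) = ∏ l ∈ n.primeFactors, (l : ℝ) := by
  conv_lhs => rw [← Nat.prod_primeFactors_of_squarefree h]
  push_cast; rfl

lemma le_psi {n : ℕ} (h : Squarefree n) : (n : ℝ) ≤ psi n := by
  rw [cast_eq_prod h]
  exact Finset.prod_le_prod (fun l _ => by positivity) (fun l _ => by linarith)

lemma sg_mono {d q : ℕ} (h : d ∣ q) (hq : q ≠ 0) : sg d ≤ sg q :=
  Finset.sum_le_sum_of_subset_of_nonneg (Nat.primeFactors_mono h hq) fun l _ _ => by positivity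

lemma psi_le {d : ℕ} (h : Squarefree d) (hs : sg d ≤ 1) : psi d ≤ 3 * d := by
  have h1 : psi d ≤ ∏ l ∈ d.primeFactors, ((l : ℝ) * Real.exp (1 / Real.sqrt l)) := by
    refine Finset.prod_le_prod (fun l _ => by positivity) fun l hl => ?_
    have hl1 : (1 : ℝ) ≤ l := by exact_mod_cast (Nat.prime_of_mem_primeFactors hl).one_le
    have h2 : 1 / Real.sqrt l + 1 ≤ Real.exp (1 / Real.sqrt l) := Real.add_one_le_exp _
    have h3 : Real.sqrt l ≤ l := by
      rw [Real.sqrt_le_left (by positivity)]; nlinarith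
    have h4 : 0 < Real.sqrt l := Real.sqrt_pos.2 (by linarith)
    have h5 : 1 ≤ (l : ℝ) * (1 / Real.sqrt l) := by
      rw [mul_one_div, le_div_iff₀ h4]; linarith
    nlinarith
  rw [Finset.prod_mul_distrib, ← cast_eq_prod h, ← Real.exp_sum] at h1
  have h2 : Real.exp (∑ l ∈ d.primeFactors, 1 / Real.sqrt l) ≤ 3 := by
    have : Real.exp (sg d) ≤ Real.exp 1 := Real.exp_le_exp.2 hs
    have h3 := Real.exp_one_lt_d9
    unfold sg at this
    linarith
  have h3 : (0 : ℝ) ≤ d := by positivity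
  nlinarith

lemma psi32_le {d : ℕ} (h : Squarefree d) (hs : sg d ≤ 1) :
    psi d * Real.sqrt (psi d) ≤ 6 * d * Real.sqrt d := by
  have h1 := psi_le h hs
  have h2 : Real.sqrt (psi d) ≤ 2 * Real.sqrt d := by
    have : (2 : ℝ) * Real.sqrt d = Real.sqrt (4 * d) := by
      rw [Real.sqrt_mul (by norm_num), show (4 : ℝ) = 2 ^ 2 by norm_num,
        Real.sqrt_sq (by norm_num)]
    rw [this]
    have h3 : (0 : ℝ) ≤ d := by positivity
    exact Real.sqrt_le_sqrt (by linarith)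
  calc psi d * Real.sqrt (psi d) ≤ (3 * d) * (2 * Real.sqrt d) :=
        mul_le_mul h1 h2 (Real.sqrt_nonneg _) (by positivity)
    _ = 6 * d * Real.sqrt d := by ring

lemma sum_div_le {q : ℕ} (h : Squarefree q) {η : ℝ} (hs : sg q ≤ η) (hη : η ≤ 1 / 3) :
    ∑ d ∈ q.divisors.erase 1, (3 : ℝ) ^ d.primeFactors.card / Real.sqrt d ≤ 6 * η := by
  have hq : q ≠ 0 := h.ne_zero
  have e1 : ∑ d ∈ q.divisors, (3 : ℝ) ^ d.primeFactors.card / Real.sqrt d =
      ∏ l ∈ q.primeFactors, (1 + 3 / Real.sqrt l) := by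
    have hm := ArithmeticFunction.IsMultiplicative.prodPrimeFactors
      (fun l : ℕ => (3 : ℝ) / Real.sqrt l)
    have := hm.prodPrimeFactors_one_add_of_squarefree h
    rw [← Finset.prod_congr rfl (f := fun p => 1 + ArithmeticFunction.prodPrimeFactors
      (fun l : ℕ => (3 : ℝ) / Real.sqrt l) p), this]
    · refine Finset.sum_congr rfl fun d hd => ?_
      have hd0 : d ≠ 0 := (Nat.pos_of_mem_divisors hd).ne'
      have hsf : Squarefree d := h.squarefree_of_dvd (Nat.dvd_of_mem_divisors hd)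
      rw [ArithmeticFunction.prodPrimeFactors_apply hd0, Finset.prod_div_distrib, prod_const,
        ← Real.sqrt_prod _ (fun l _ => by positivity), ← cast_eq_prod hsf]
    · intro p hp
      have hp' := Nat.prime_of_mem_primeFactors hp
      rw [ArithmeticFunction.prodPrimeFactors_apply hp'.ne_zero, hp'.primeFactors, prod_singleton]
  have e2 : ∏ l ∈ q.primeFactors, (1 + 3 / Real.sqrt l) ≤ Real.exp (3 * sg q) := by
    unfold sg
    rw [Finset.mul_sum, Real.exp_sum]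
    refine Finset.prod_le_prod (fun l _ => by positivity) fun l _ => ?_
    have := Real.add_one_le_exp (3 * (1 / Real.sqrt l))
    rw [mul_one_div] at this ⊢
    linarith
  have h0 : 0 ≤ sg q := Finset.sum_nonneg fun l _ => by positivity
  have e3 : Real.exp (3 * sg q) ≤ 1 + 6 * η := by
    have h1 : |3 * sg q| ≤ 1 := by rw [abs_of_nonneg (by linarith)]; linarith
    have h2 := Real.abs_exp_sub_one_le h1
    rw [abs_of_nonneg (show 0 ≤ 3 * sg q by linarith)] at h2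
    have := le_abs_self (Real.exp (3 * sg q) - 1)
    linarith
  have e4 := Finset.add_sum_erase q.divisors
    (fun d : ℕ => (3 : ℝ) ^ d.primeFactors.card / Real.sqrt d) (Nat.one_mem_divisors.2 hq)
  simp only [Nat.primeFactors_one, card_empty, pow_zero, Nat.cast_one, Real.sqrt_one,
    div_one] at e4
  linarith

lemma W_le {v W1 : ℕ} (h : WOK v W1) : W1 ≤ (v ^ 4).factorial := by
  have h1 : W1.primeFactors ⊆ Icc 1 (v ^ 4) := by
    intro l hl
    have hp := Nat.prime_of_mem_primeFactors hl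
    have h2 := h.2 l hp (Nat.dvd_of_mem_primeFactors hl)
    unfold ww at h2
    rw [mem_Icc]
    exact ⟨hp.one_le, by exact_mod_cast h2⟩
  calc W1 = ∏ l ∈ W1.primeFactors, l := (Nat.prod_primeFactors_of_squarefree h.1).symm
    _ ≤ ∏ l ∈ Icc 1 (v ^ 4), l :=
        Finset.prod_le_prod_of_subset_of_one_le' h1 fun i hi _ => (mem_Icc.1 hi).1
    _ = (v ^ 4).factorial := by
        rw [← Finset.Ico_add_one_right_eq_Icc, Finset.prod_Ico_id_eq_factorial]

lemma divb (f : ℕ) : ∃ K : ℝ, 1 ≤ K ∧ ∀ s : ℝ, 1 ≤ s → ∀ n : ℕ, n ≠ 0 →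
    (n : ℝ) ≤ 2 * (s ^ 16) ^ f → (n.divisors.card : ℝ) ≤ K * s ∧
      ∀ A : Finset GI, (∀ α ∈ A, nm α = n) → (A.card : ℝ) ≤ K * s := by
  have hε : (0 : ℝ) < 1 / (16 * f + 1) := by positivity
  obtain ⟨K, hK, h⟩ := div_bounds hε
  refine ⟨2 * K, by linarith, fun s hs n hn hb => ?_⟩
  have h1 : (n : ℝ) ^ (1 / (16 * f + 1) : ℝ) ≤ 2 * s := by
    have h2 : (n : ℝ) ≤ (2 * s) ^ (16 * f + 1) := by
      rw [← pow_mul] at hb
      rw [mul_pow, pow_succ s]
      have h3 : (2 : ℝ) ≤ 2 ^ (16 * f + 1) := le_self_pow₀ (by norm_num) (by omega)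
      have h4 : 0 ≤ s ^ (16 * f) := by positivity
      have h5 : s ^ (16 * f) ≤ s ^ (16 * f) * s := by nlinarith
      nlinarith
    calc (n : ℝ) ^ (1 / (16 * f + 1) : ℝ) ≤ ((2 * s) ^ (16 * f + 1)) ^ (1 / (16 * f + 1) : ℝ) :=
          Real.rpow_le_rpow (by positivity) h2 hε.le
      _ = 2 * s := by
          rw [← Real.rpow_natCast, ← Real.rpow_mul (by positivity)]
          have : ((16 * f + 1 : ℕ) : ℝ) * (1 / (16 * f + 1)) = 1 := by
            push_cast; field_simp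
          rw [this, Real.rpow_one]
  have h6 : K * (n : ℝ) ^ (1 / (16 * f + 1) : ℝ) ≤ 2 * K * s := by nlinarith
  exact ⟨(h n hn).1.trans h6, fun A hA => ((h n hn).2 A hA).trans h6⟩

end AV2

end Pool.Agent.Lib.LQ
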