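import Pool.Agent.Lib.LQ.AV2Aux1

/-! Project LQ, block AV2: sums over fibres of admissible parameters. -/

set_option autoImplicit false

open Finset
open scoped Classical

noncomputable section

namespace Pool.Agent.Lib.LQ

open Pool.Agent.Lib.MP_de94cf_nt (gg det inn)

namespace AV2

variable {v a e f : ℕ} {z Y0 C1 : ℝ} {x : Wt} {W1 : ℕ} {S : Finset GI} {ρ : GI}

lemma nm_sub_dvd {S' : Finset GI} (h : S' ⊆ S) : nm (pr S') ∣ nm (pr S * ρ) :=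
  nm_dvd (Dvd.dvd.mul_right (Finset.prod_dvd_prod_of_subset _ _ _ h) _)

lemma nm_sub_le (hL : Lab v a f z S ρ) {S' : Finset GI} (h : S' ⊆ S) :
    (nm (pr S') : ℝ) ≤ z ^ a := by
  have h0 : nm (pr S) ≠ 0 := fun h0 => pr_ne_zero hL.sub (nm_eq_zero.1 h0)
  have h1 : nm (pr S') ≤ nm (pr S) :=
    Nat.le_of_dvd (Nat.pos_of_ne_zero h0) (nm_dvd (Finset.prod_dvd_prod_of_subset _ _ _ h))
  exact le_trans (by exact_mod_cast h1) hL.hiS

lemma nm_sub_pos (hL : Lab v a f z S ρ) {S' : Finset GI} (h : S' ⊆ S) : 0 < nm (pr S') :=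
  Nat.pos_of_ne_zero fun h0 => pr_ne_zero (h.trans hL.sub) (nm_eq_zero.1 h0)

lemma sfS (hL : Lab v a f z S ρ) : Squarefree (nm (pr S)) :=
  hL.sf.squarefree_of_dvd (nm_sub_dvd (Subset.refl S))

lemma p_dvd {t : Tt} (h : Adm v a e f z S ρ W1 Y0 C1 t) : t.p ρ ∣ nm (pr S * ρ) :=
  nm_dvd (mul_dvd_mul_right (Finset.prod_dvd_prod_of_subset _ _ _ h.sub3) _)

lemma cop_y_p {t : Tt} (h : Adm v a e f z S ρ W1 Y0 C1 t) : Nat.Coprime t.y (t.p ρ) :=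
  h.copy.coprime_dvd_right (p_dvd h)

lemma q_mod {t : Tt} (h : Adm v a e f z S ρ W1 Y0 C1 t) : t.q ≡ t.p ρ [MOD t.y] :=
  Nat.modEq_iff_dvd.2 h.ydvd

lemma cop_q_y {t : Tt} (h : Adm v a e f z S ρ W1 Y0 C1 t) : Nat.Coprime t.q t.y := by
  have h1 := (q_mod h).gcd_eq
  unfold Nat.Coprime
  rw [h1]; exact (cop_y_p h).symm

lemma p_pos {t : Tt} (hz : 1 ≤ z) (h : Adm v a e f z S ρ W1 Y0 C1 t) : (0 : ℝ) < t.p ρ :=
  lt_of_lt_of_le (by positivity) h.lop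

lemma y_pos {t : Tt} (hz : 1 ≤ z) (h : Adm v a e f z S ρ W1 Y0 C1 t) : (0 : ℝ) < t.y :=
  lt_of_lt_of_le (by positivity) h.loy

lemma q_le {t : Tt} (h : Adm v a e f z S ρ W1 Y0 C1 t) : (t.q : ℝ) ≤ 2 * t.p ρ := by
  exact_mod_cast h.qp

lemma c_cast (t : Tt) : (t.c : ℝ) = (t.y : ℝ) * nm (pr t.S2) := by
  unfold Tt.c; push_cast; rfl

lemma th_nonneg (hx : x.OK) (t : Tt) : 0 ≤ th x S t := by
  have := hx.h1; have := hx.h2; have := hx.hP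
  unfold th; positivity

lemma th_congr {t t' : Tt} (h2 : t.S2 = t'.S2) (h3 : t.S3 = t'.S3) : th x S t = th x S t' := by
  unfold th; rw [h2, h3]

lemma p_congr {t t' : Tt} (h3 : t.S3 = t'.S3) : t.p ρ = t'.p ρ := by
  unfold Tt.p; rw [h3]

lemma mt_nonneg (hx : x.OK) (t : Tt) : 0 ≤ mt v z x S t := by
  have := th_nonneg (S := S) hx t; have := hx.hQ.1; have := psi_pos t.q
  unfold mt; positivity

lemma mt_le (hz : 1 ≤ z) (hx : x.OK) {t : Tt} (h : Adm v a e f z S ρ W1 Y0 C1 t) :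
    mt v z x S t ≤ th x S t * (2 / t.p ρ) * x.xQ ^ om (ww v) z t.Q := by
  have h0 := th_nonneg (S := S) hx t
  have h1 := hx.hQ.1
  have h2 := p_pos hz h
  have h3 : (t.p ρ : ℝ) ≤ 2 * t.q := by exact_mod_cast h.pq
  have h4 := le_psi h.sfq
  have h5 : 1 / psi t.q ≤ 2 / t.p ρ := by
    rw [div_le_div_iff₀ (psi_pos _) h2]; linarith
  unfold mt
  calc th x S t * x.xQ ^ om (ww v) z t.Q / psi t.q
      = th x S t * x.xQ ^ om (ww v) z t.Q * (1 / psi t.q) := by ring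
    _ ≤ th x S t * x.xQ ^ om (ww v) z t.Q * (2 / t.p ρ) :=
        mul_le_mul_of_nonneg_left h5 (by positivity)
    _ = _ := by ring

lemma g0_dvd (t t' : Tt) : g0 t t' ∣ Nat.gcd t.q t'.q :=
  (Finset.prod_dvd_prod_of_subset _ _ _ (Finset.filter_subset _ _)).trans
    (Nat.prod_primeFactors_dvd _)

lemma Q_inj {V : Finset Tt} {t0 : Tt}
    (hs : ∀ t ∈ V, t.S2 = t0.S2 ∧ t.S3 = t0.S3 ∧ t.y = t0.y) :
    Set.InjOn (fun t : Tt => t.Q) (V : Set Tt) := by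
  intro t ht t' ht' e
  obtain ⟨a1, a2, a3⟩ := hs t ht
  obtain ⟨b1, b2, b3⟩ := hs t' ht'
  exact Tt.ext (a1.trans b1.symm) (a2.trans b2.symm) (a3.trans b3.symm) e

/-- fibres over the splits -/
lemma fiber_split (hx : x.OK) (U : Finset Tt) (hU : ∀ t ∈ U, Adm v a e f z S ρ W1 Y0 C1 t)
    (F : Tt → ℝ) (B : ℝ) (hB : 0 ≤ B)
    (h : ∀ V ⊆ U, ∀ t0 ∈ V, (∀ t ∈ V, t.S2 = t0.S2 ∧ t.S3 = t0.S3) →
      ∑ t ∈ V, F t ≤ th x S t0 * B) : ∑ t ∈ U, F t ≤ B := by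
  have h1 := hx.h1; have h2 := hx.h2; have h3 := hx.hP
  have := fiber_le U ((S.powerset ×ˢ S.powerset).filter (fun r => Disjoint r.1 r.2))
    (fun t => (t.S2, t.S3)) F
    (fun r => x.x1 ^ (S \ (r.1 ∪ r.2)).card * x.x2 ^ r.1.card * x.xP ^ r.2.card * B)
    (fun t ht => by
      simp only [mem_filter, mem_product, mem_powerset]
      exact ⟨⟨(hU t ht).sub2, (hU t ht).sub3⟩, (hU t ht).disj⟩)
    (fun r _ => by positivity)
    (fun V hV t0 ht0 hs => h V hV t0 ht0 fun t ht => Prod.ext_iff.1 (hs t ht))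
  rw [← Finset.sum_mul, sum_splits, hx.hsum, one_pow, one_mul] at this
  exact this

/-- fibres over `y` -/
lemma fiber_y (U : Finset Tt) (F : Tt → ℝ) (B : ℝ) (hB : 0 ≤ B)
    (h : ∀ V ⊆ U, ∀ t0 ∈ V, (∀ t ∈ V, t.y = t0.y) → ∑ t ∈ V, F t ≤ B * (1 / (t0.y : ℝ))) :
    ∑ t ∈ U, F t ≤ B * ∑ y ∈ (U.image Tt.y : Finset ℕ), 1 / (y : ℝ) := by
  rw [Finset.mul_sum]
  exact fiber_le U _ (fun t => t.y) F (fun y => B * (1 / (y : ℝ)))
    (fun t ht => mem_image_of_mem _ ht) (fun y _ => by positivity) h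

/-- crude bound on a fibre -/
lemma crude (hz : 1 ≤ z) (hx : x.OK) {R : ℝ} (hR0 : 0 ≤ R)
    (hR : ∀ n : ℕ, n ≠ 0 → (n : ℝ) ≤ 2 * z ^ f → ∀ A : Finset GI, (∀ α ∈ A, nm α = n) →
      (A.card : ℝ) ≤ R)
    {V : Finset Tt} (hV : ∀ t ∈ V, Adm v a e f z S ρ W1 Y0 C1 t) {t0 : Tt} (h0 : t0 ∈ V)
    (hs : ∀ t ∈ V, t.S2 = t0.S2 ∧ t.S3 = t0.S3 ∧ t.y = t0.y) {d : ℕ} (hd : ∀ t ∈ V, d ∣ t.q) :
    ∑ t ∈ V, mt v z x S t ≤ th x S t0 * R * (4 / (d * t0.y) + 2 / t0.p ρ) := by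
  have hp := p_pos hz (hV t0 h0)
  have hth := th_nonneg (S := S) hx t0
  have h1 : ∑ t ∈ V, mt v z x S t ≤ ∑ _t ∈ V, th x S t0 * (2 / t0.p ρ) := by
    refine Finset.sum_le_sum fun t ht => (mt_le hz hx (hV t ht)).trans ?_
    rw [th_congr (hs t ht).1 (hs t ht).2.1, p_congr (hs t ht).2.1]
    have : x.xQ ^ om (ww v) z t.Q ≤ 1 := pow_le_one₀ hx.hQ.1 hx.hQ.2
    exact mul_le_of_le_one_right (by positivity) this
  have h2 : ∑ _t ∈ V, (1 : ℝ) ≤ ∑ _q ∈ V.image (fun t => t.q), R := by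
    refine fiber_le V _ (fun t => t.q) (fun _ => 1) (fun _ => R)
      (fun t ht => mem_image_of_mem _ ht) (fun _ _ => hR0) fun V' hV' t1 ht1 hq => ?_
    have hA := hV t1 (hV' ht1)
    have h3 := hR t1.q hA.sfq.ne_zero (by linarith [q_le hA, hA.hip]) (V'.image fun t => t.Q)
      (fun α hα => by
        obtain ⟨t, ht, rfl⟩ := mem_image.1 hα
        exact hq t ht)
    rw [card_image_of_injOn (Q_inj fun t ht => hs t (hV' ht))] at h3
    simpa using h3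
  have hcop : Nat.Coprime d t0.y := (cop_q_y (hV t0 h0)).coprime_dvd_left (hd t0 h0)
  have h3 := class_card (V.image fun t => t.q) (d * t0.y) (2 * t0.p ρ) (by positivity)
    (fun q hq q' hq' => by
      obtain ⟨t, ht, rfl⟩ := mem_image.1 hq
      obtain ⟨t', ht', rfl⟩ := mem_image.1 hq'
      refine (Nat.modEq_and_modEq_iff_modEq_mul hcop).1 ⟨?_, ?_⟩
      · exact ((Nat.modEq_zero_iff_dvd).2 (hd t ht)).trans
          ((Nat.modEq_zero_iff_dvd).2 (hd t' ht')).symm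
      · have e1 := q_mod (hV t ht)
        have e2 := q_mod (hV t' ht')
        rw [(hs t ht).2.2, p_congr (hs t ht).2.1] at e1
        rw [(hs t' ht').2.2, p_congr (hs t' ht').2.1] at e2
        exact e1.trans e2.symm)
    (fun q hq => by
      obtain ⟨t, ht, rfl⟩ := mem_image.1 hq
      have := q_le (hV t ht)
      rwa [p_congr (hs t ht).2.1] at this)
  simp only [sum_const, nsmul_eq_mul, mul_one] at h1 h2
  push_cast at h3
  have h4 : (V.card : ℝ) ≤ (2 * t0.p ρ / (d * t0.y) + 1) * R :=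
    h2.trans (mul_le_mul_of_nonneg_right h3 hR0)
  calc ∑ t ∈ V, mt v z x S t ≤ V.card * (th x S t0 * (2 / t0.p ρ)) := h1
    _ ≤ ((2 * t0.p ρ / (d * t0.y) + 1) * R) * (th x S t0 * (2 / t0.p ρ)) :=
        mul_le_mul_of_nonneg_right h4 (by positivity)
    _ = _ := by field_simp; ring

/-- the conclusion of the lemma on sums over `Q` at a fixed `z` -/
def QUz (K : ℝ) (v a e : ℕ) (z : ℝ) : Prop :=
  ∀ (lam p : ℝ) (W1 y d : ℕ) (c c' : ℤ), 0 ≤ lam → lam ≤ 1 → z ^ (9 * e) ≤ p → WOK v W1 →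
    Squarefree y → sg y ≤ 1 / v → (y : ℝ) ≤ z ^ e → Squarefree d → (d : ℝ) ≤ z ^ a →
    (∀ l : ℕ, l.Prime → l ∣ d → ww v < (l : ℝ)) → Nat.Coprime y d → Nat.Coprime y W1 →
    Int.gcd c y = 1 →
    ∑ Q ∈ (disc (2 * p)).filter
        (fun Q => (W1 : GI) ∣ Q - 1 ∧ (y : ℤ) ∣ Q.norm - c ∧ (d : ℤ) ∣ Q.norm - c'),
        lam ^ om (ww v) z Q ≤
      K * p * Real.exp (-(1 - lam) * Lam (ww v) z) * 3 ^ d.primeFactors.card /
        (y * d * (W1 : ℝ) ^ 2)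

/-- sharp bound on a fibre -/
lemma fine (hz : 1 ≤ z) (hx : x.OK) (hW : WOK v W1) {K : ℝ} (hQ : QUz K v a e z)
    {V : Finset Tt} (hV : ∀ t ∈ V, Adm v a e f z S ρ W1 Y0 C1 t) {t0 : Tt} (h0 : t0 ∈ V)
    (hs : ∀ t ∈ V, t.S2 = t0.S2 ∧ t.S3 = t0.S3 ∧ t.y = t0.y) {d : ℕ} (hd : ∀ t ∈ V, d ∣ t.q)
    (hda : (d : ℝ) ≤ z ^ a) :
    ∑ t ∈ V, mt v z x S t ≤
      th x S t0 * (2 * K * GQ v z x * 3 ^ d.primeFactors.card / (d * (W1 : ℝ) ^ 2)) *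
        (1 / (t0.y : ℝ)) := by
  have hA := hV t0 h0
  have hp := p_pos hz hA
  have hth := th_nonneg (S := S) hx t0
  have h1 : ∑ t ∈ V, mt v z x S t ≤
      th x S t0 * (2 / t0.p ρ) * ∑ t ∈ V, x.xQ ^ om (ww v) z t.Q := by
    rw [Finset.mul_sum]
    refine Finset.sum_le_sum fun t ht => (mt_le hz hx (hV t ht)).trans ?_
    rw [th_congr (hs t ht).1 (hs t ht).2.1, p_congr (hs t ht).2.1]
  have h2 := hQ x.xQ (t0.p ρ) W1 t0.y d (t0.p ρ) 0 hx.hQ.1 hx.hQ.2 hA.lop hW hA.sfy hA.sgy hA.hiy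
    (hA.sfq.squarefree_of_dvd (hd t0 h0)) hda
    (fun l hl hld => hA.bigq l hl (hld.trans (hd t0 h0)))
    ((cop_q_y hA).coprime_dvd_left (hd t0 h0)).symm
    (by
      have := hA.yW.gcd_eq
      unfold Nat.Coprime
      rw [this]; simp)
    (by rw [Int.gcd_natCast_natCast]; exact (cop_y_p hA).symm)
  have h3 : ∑ t ∈ V, x.xQ ^ om (ww v) z t.Q =
      ∑ Q ∈ V.image (fun t => t.Q), x.xQ ^ om (ww v) z Q := by
    rw [Finset.sum_image (Q_inj hs)]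
  have h4 : V.image (fun t => t.Q) ⊆ (disc (2 * (t0.p ρ : ℝ))).filter
      (fun Q => (W1 : GI) ∣ Q - 1 ∧ (t0.y : ℤ) ∣ Q.norm - (t0.p ρ : ℕ) ∧ (d : ℤ) ∣ Q.norm - 0) := by
    intro Q hQ
    obtain ⟨t, ht, rfl⟩ := mem_image.1 hQ
    have hB := hV t ht
    refine mem_filter.2 ⟨mem_disc.2 ?_, hB.QW, ?_, ?_⟩
    · have := q_le hB
      rwa [p_congr (hs t ht).2.1] at this
    · have := hB.ydvd
      rw [(hs t ht).2.2, p_congr (hs t ht).2.1] at this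
      rw [← nm_int, ← neg_sub]
      exact (dvd_neg).2 this
    · rw [← nm_int, sub_zero]
      exact_mod_cast hd t ht
  have h5 := (Finset.sum_le_sum_of_subset_of_nonneg h4
    (f := fun Q => x.xQ ^ om (ww v) z Q) (fun Q _ _ => pow_nonneg hx.hQ.1 _)).trans h2
  rw [← h3] at h5
  refine h1.trans ((mul_le_mul_of_nonneg_left h5 (by positivity)).trans (le_of_eq ?_))
  unfold GQ
  field_simp

end AV2

end Pool.Agent.Lib.LQ
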