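import Pool.Agent.Lib.LQ.AV2Aux2

/-! Project LQ, block AV2: sums for a fixed common divisor. -/

set_option autoImplicit false

open Finset
open scoped Classical

noncomputable section

namespace Pool.Agent.Lib.LQ

open Pool.Agent.Lib.MP_de94cf_nt (gg det inn)

namespace AV2

variable {u v a e f : ℕ} {z Y0 C1 : ℝ} {x : Wt} {W1 : ℕ} {S : Finset GI} {ρ : GI}

lemma y_cong {d n y1 y2 : ℕ} {c : ℤ} (h : Nat.Coprime d n) (h1 : (d : ℤ) ∣ c - y1 * n)
    (h2 : (d : ℤ) ∣ c - y2 * n) : y1 ≡ y2 [MOD d] := by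
  rw [Nat.modEq_iff_dvd]
  have h3 : (d : ℤ) ∣ ((y2 : ℤ) - y1) * n := by
    have := dvd_sub h1 h2
    rwa [show c - y1 * n - (c - y2 * n) = ((y2 : ℤ) - y1) * n by ring] at this
  exact (Nat.isCoprime_iff_coprime.2 h).dvd_of_dvd_mul_right h3

lemma inv_y (hz : 1 ≤ z) (hL : Lab v a f z S ρ) (hC : 1 ≤ C1)
    {V : Finset Tt} (hV : ∀ t ∈ V, Adm v a e f z S ρ W1 Y0 C1 t) {t0 : Tt} (h0 : t0 ∈ V)
    (hs : ∀ t ∈ V, t.S2 = t0.S2) {M : ℕ} (hM : ∀ t ∈ V, ∀ t' ∈ V, t.y ≡ t'.y [MOD M]) :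
    ∑ y ∈ (V.image Tt.y : Finset ℕ), 1 / (y : ℝ) ≤
      C1 / M + 1 / max (z ^ (8 * a)) (Y0 / nm (pr t0.S2)) := by
  have hn : (0 : ℝ) < nm (pr t0.S2) := by exact_mod_cast nm_sub_pos hL (hV t0 h0).sub2
  refine class_inv _ M _ C1 (lt_max_of_lt_left (by positivity)) (by linarith) ?_ ?_
  · intro y hy y' hy'
    obtain ⟨t, ht, rfl⟩ := mem_image.1 hy
    obtain ⟨t', ht', rfl⟩ := mem_image.1 hy'
    exact hM t ht t' ht'
  · intro y hy
    obtain ⟨t, ht, rfl⟩ := mem_image.1 hy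
    have h1 := (hV t ht).loc
    have h2 := (hV t ht).hic
    rw [c_cast, hs t ht] at h1 h2
    refine ⟨max_le (hV t ht).loy ((div_le_iff₀ hn).2 h1), ?_⟩
    have h3 : (t.y : ℝ) ≤ C1 * (Y0 / nm (pr t0.S2)) := by
      rw [← mul_div_assoc, le_div_iff₀ hn]; exact h2
    exact h3.trans (mul_le_mul_of_nonneg_left (le_max_right _ _) (by linarith))

lemma GQ_pos (v : ℕ) (z : ℝ) (x : Wt) : 0 < GQ v z x := Real.exp_pos _

lemma Maj_nonneg (hC : 1 ≤ C1) : 0 ≤ Maj v z x W1 C1 := by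
  have := GQ_pos v z x
  have : 0 ≤ C1 := by linarith
  unfold Maj; positivity

lemma small (hz : 1 ≤ z) (hx : x.OK) (hW : WOK v W1) (hL : Lab v a f z S ρ) (he : ExpOK u a e f)
    (hC : 1 ≤ C1) (hWz : (W1 : ℝ) ≤ z) {K : ℝ} (hK : 0 ≤ K) (hQ : QUz K v a e z) {c : ℤ} {d : ℕ}
    (hda : (d : ℝ) ≤ z ^ a) {U : Finset Tt}
    (hU : ∀ t ∈ U, Adm v a e f z S ρ W1 Y0 C1 t ∧ d ∣ t.q ∧ (d : ℤ) ∣ c - t.c) :
    ∑ t ∈ U, mt v z x S t ≤ 4 * K * 3 ^ d.primeFactors.card / (d : ℝ) ^ 2 * Maj v z x W1 C1 := by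
  have hM := Maj_nonneg (v := v) (z := z) (x := x) (W1 := W1) hC
  have hG := GQ_pos v z x
  refine fiber_split hx U (fun t ht => (hU t ht).1) _ _ (by positivity) fun V hV t0 h0 hs => ?_
  have hth := th_nonneg (S := S) hx t0
  have hA := (hU t0 (hV h0)).1
  have hd0 : (0 : ℝ) < d := by
    exact_mod_cast Nat.pos_of_dvd_of_pos (hU t0 (hV h0)).2.1 (Nat.pos_of_ne_zero hA.sfq.ne_zero)
  have hW0 : (0 : ℝ) < W1 := by exact_mod_cast Nat.pos_of_ne_zero hW.1.ne_zero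
  have h1 := fiber_y V (mt v z x S)
    (th x S t0 * (2 * K * GQ v z x * 3 ^ d.primeFactors.card / (d * (W1 : ℝ) ^ 2)))
    (by positivity) (fun V' hV' t1 h1 hy => by
      have := fine hz hx hW hQ (fun t ht => (hU t (hV (hV' ht))).1) h1
        (fun t ht => ⟨(hs t (hV' ht)).1.trans (hs t1 (hV' h1)).1.symm,
          (hs t (hV' ht)).2.trans (hs t1 (hV' h1)).2.symm, hy t ht⟩)
        (fun t ht => (hU t (hV (hV' ht))).2.1) hda
      rwa [th_congr (hs t1 (hV' h1)).1 (hs t1 (hV' h1)).2] at this)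
  have hcW : Nat.Coprime d W1 := by
    refine Nat.coprime_of_dvd fun l hl h2 h3 => ?_
    have h4 := hA.bigq l hl (h2.trans (hU t0 (hV h0)).2.1)
    have h5 := hW.2 l hl h3
    linarith
  have hcn : Nat.Coprime d (nm (pr t0.S2)) :=
    (hA.copq.coprime_dvd_left (hU t0 (hV h0)).2.1).coprime_dvd_right (nm_sub_dvd hA.sub2)
  have h2 := inv_y hz hL hC (fun t ht => (hU t (hV ht)).1) h0 (fun t ht => (hs t ht).1)
    (M := d * W1) (fun t ht t' ht' => by
      refine (Nat.modEq_and_modEq_iff_modEq_mul hcW).1 ⟨?_, ?_⟩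
      · have e1 := (hU t (hV ht)).2.2
        have e2 := (hU t' (hV ht')).2.2
        unfold Tt.c at e1 e2
        rw [(hs t ht).1] at e1
        rw [(hs t' ht').1] at e2
        exact y_cong hcn e1 e2
      · exact (hU t (hV ht)).1.yW.trans (hU t' (hV ht')).1.yW.symm)
  have h3 : 1 / max (z ^ (8 * a)) (Y0 / nm (pr t0.S2)) ≤ C1 / (d * W1) := by
    have h4 : (d : ℝ) * W1 ≤ z ^ (8 * a) := by
      calc (d : ℝ) * W1 ≤ z ^ a * z := mul_le_mul hda hWz hW0.le (by positivity)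
        _ = z ^ (a + 1) := (pow_succ _ _).symm
        _ ≤ z ^ (8 * a) := pow_le_pow_right₀ hz (by have := he.1; omega)
    calc 1 / max (z ^ (8 * a)) (Y0 / nm (pr t0.S2)) ≤ 1 / (d * W1) :=
          one_div_le_one_div_of_le (by positivity) (h4.trans (le_max_left _ _))
      _ ≤ C1 / (d * W1) := div_le_div_of_nonneg_right hC (by positivity)
  push_cast at h2
  refine h1.trans ((mul_le_mul_of_nonneg_left (h2.trans (add_le_add le_rfl h3))
    (by positivity)).trans (le_of_eq ?_))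
  unfold Maj
  field_simp
  ring

lemma large (hz : 1 ≤ z) (hx : x.OK) (hL : Lab v a f z S ρ) (he : ExpOK u a e f)
    (hC : 1 ≤ C1) (hCz : C1 ≤ z) (hY : 0 < Y0) {R : ℝ} (hR0 : 0 ≤ R)
    (hR : ∀ n : ℕ, n ≠ 0 → (n : ℝ) ≤ 2 * z ^ f → ∀ A : Finset GI, (∀ α ∈ A, nm α = n) →
      (A.card : ℝ) ≤ R) {c : ℤ} (hc1 : Y0 ≤ c) (hc2 : c ≤ C1 * Y0) {d : ℕ}
    (hda : z ^ a < (d : ℝ)) {U : Finset Tt}
    (hU : ∀ t ∈ U, Adm v a e f z S ρ W1 Y0 C1 t ∧ d ∣ t.q ∧ c - t.c ≠ 0 ∧ (d : ℤ) ∣ c - t.c) :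
    ∑ t ∈ U, mt v z x S t ≤ 12 * R * C1 / (d * Real.sqrt (d * z)) := by
  have hC0 : 0 ≤ C1 := by linarith
  have hd0 : (0 : ℝ) < d := lt_of_le_of_lt (by positivity) hda
  refine fiber_split hx U (fun t ht => (hU t ht).1) _ _ (by positivity) fun V hV t0 h0 hs => ?_
  have hth := th_nonneg (S := S) hx t0
  have hA := (hU t0 (hV h0)).1
  have hdY : (d : ℝ) ≤ C1 * Y0 := by
    have h1 := Int.le_of_dvd (abs_pos.2 (hU t0 (hV h0)).2.2.1)
      ((dvd_abs _ _).2 (hU t0 (hV h0)).2.2.2)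
    have h2 : (d : ℝ) ≤ |(c : ℝ) - t0.c| := by exact_mod_cast h1
    have h3 := hA.loc
    have h4 := hA.hic
    refine h2.trans (abs_le.2 ⟨by linarith, by linarith⟩)
  have h1 := fiber_y V (mt v z x S) (th x S t0 * (6 * R / d))
    (by positivity) (fun V' hV' t1 h1 hy => by
      have hB := (hU t1 (hV (hV' h1))).1
      have h2 := crude hz hx hR0 hR (fun t ht => (hU t (hV (hV' ht))).1) h1
        (fun t ht => ⟨(hs t (hV' ht)).1.trans (hs t1 (hV' h1)).1.symm,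
          (hs t (hV' ht)).2.trans (hs t1 (hV' h1)).2.symm, hy t ht⟩)
        (fun t ht => (hU t (hV (hV' ht))).2.1)
      rw [th_congr (hs t1 (hV' h1)).1 (hs t1 (hV' h1)).2] at h2
      have hy0 := y_pos hz hB
      have h3 : (d : ℝ) * t1.y ≤ t1.p ρ := by
        have h4 := hB.loc
        rw [c_cast] at h4
        have h5 : Y0 ≤ z ^ e * z ^ a :=
          h4.trans (mul_le_mul hB.hiy (nm_sub_le hL hB.sub2) (by positivity) (by positivity))
        have h6 : (d : ℝ) ≤ z * (z ^ e * z ^ a) :=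
          hdY.trans (mul_le_mul hCz h5 hY.le (by positivity))
        calc (d : ℝ) * t1.y ≤ z * (z ^ e * z ^ a) * z ^ e :=
              mul_le_mul h6 hB.hiy hy0.le (by positivity)
          _ = z ^ (1 + e + a + e) := by ring
          _ ≤ z ^ (9 * e) := pow_le_pow_right₀ hz (by have := he.1; have := he.2.2.1; omega)
          _ ≤ _ := hB.lop
      have h4 : 2 / (t1.p ρ : ℝ) ≤ 2 / (d * t1.y) :=
        div_le_div_of_nonneg_left (by norm_num) (by positivity) h3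
      refine h2.trans ((mul_le_mul_of_nonneg_left (add_le_add le_rfl h4)
        (by positivity)).trans (le_of_eq ?_))
      field_simp
      ring)
  have hcn : Nat.Coprime d (nm (pr t0.S2)) :=
    (hA.copq.coprime_dvd_left (hU t0 (hV h0)).2.1).coprime_dvd_right (nm_sub_dvd hA.sub2)
  have h2 := inv_y hz hL hC (fun t ht => (hU t (hV ht)).1) h0 (fun t ht => (hs t ht).1)
    (M := d) (fun t ht t' ht' => by
      have e1 := (hU t (hV ht)).2.2.2
      have e2 := (hU t' (hV ht')).2.2.2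
      unfold Tt.c at e1 e2
      rw [(hs t ht).1] at e1
      rw [(hs t' ht').1] at e2
      exact y_cong hcn e1 e2)
  have hr0 : 0 < Real.sqrt (d * z) := Real.sqrt_pos.2 (by positivity)
  have hza : z ≤ z ^ a := le_self_pow₀ hz (by have := he.1; omega)
  have h3 : C1 / d ≤ C1 / Real.sqrt (d * z) := by
    refine div_le_div_of_nonneg_left hC0 hr0 ?_
    rw [Real.sqrt_le_left hd0.le]
    nlinarith
  have h4 : 1 / max (z ^ (8 * a)) (Y0 / nm (pr t0.S2)) ≤ C1 / Real.sqrt (d * z) := by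
    set Y := max (z ^ (8 * a)) (Y0 / nm (pr t0.S2)) with hYdef
    have hn : (0 : ℝ) < nm (pr t0.S2) := by exact_mod_cast nm_sub_pos hL hA.sub2
    have h5 : z ^ (8 * a) ≤ Y := le_max_left _ _
    have hY0 : 0 < Y := lt_of_lt_of_le (by positivity) h5
    have h6 : Y0 ≤ Y * z ^ a := by
      have h7 : Y0 / nm (pr t0.S2) ≤ Y := le_max_right _ _
      rw [div_le_iff₀ hn] at h7
      exact h7.trans (mul_le_mul_of_nonneg_left (nm_sub_le hL hA.sub2) hY0.le)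
    have h7 : z ^ a * z ≤ Y := by
      calc z ^ a * z = z ^ (a + 1) := (pow_succ _ _).symm
        _ ≤ z ^ (8 * a) := pow_le_pow_right₀ hz (by have := he.1; omega)
        _ ≤ Y := h5
    rw [div_le_div_iff₀ hY0 hr0, one_mul, Real.sqrt_le_left (by positivity)]
    calc (d : ℝ) * z ≤ C1 * (Y * z ^ a) * z :=
          mul_le_mul_of_nonneg_right (hdY.trans (mul_le_mul_of_nonneg_left h6 hC0)) (by linarith)
      _ = C1 * Y * (z ^ a * z) := by ring
      _ ≤ C1 * Y * (C1 * Y) := by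
          refine mul_le_mul_of_nonneg_left (h7.trans ?_) (by positivity)
          exact le_mul_of_one_le_left hY0.le hC
      _ = (C1 * Y) ^ 2 := by ring
  refine h1.trans ((mul_le_mul_of_nonneg_left (h2.trans (add_le_add h3 h4))
    (by positivity)).trans (le_of_eq ?_))
  field_simp
  ring

lemma key2 (hL : Lab v a f z S ρ) {t t' : Tt} (h : Adm v a e f z S ρ W1 Y0 C1 t)
    (h' : Adm v a e f z S ρ W1 Y0 C1 t') (hD : D33 t t' = 0) : t.y = t'.y ∧ t.S2 = t'.S2 := by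
  unfold D33 Tt.c at hD
  have e1 : t.y * nm (pr t.S2) = t'.y * nm (pr t'.S2) := by exact_mod_cast sub_eq_zero.1 hD
  have c1 : Nat.Coprime t.y (nm (pr t'.S2)) := h.copy.coprime_dvd_right (nm_sub_dvd h'.sub2)
  have c2 : Nat.Coprime t'.y (nm (pr t.S2)) := h'.copy.coprime_dvd_right (nm_sub_dvd h.sub2)
  have e2 : t.y = t'.y := Nat.dvd_antisymm (c1.dvd_of_dvd_mul_right ⟨_, e1.symm⟩)
    (c2.dvd_of_dvd_mul_right ⟨_, e1⟩)
  refine ⟨e2, subset_eq_of_nm hL.sub (sfS hL) h.sub2 h'.sub2 ?_⟩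
  rw [← e2] at e1
  exact Nat.eq_of_mul_eq_mul_left (Nat.pos_of_ne_zero h.sfy.ne_zero) e1

lemma key3 (hL : Lab v a f z S ρ) {t t' : Tt} (h : Adm v a e f z S ρ W1 Y0 C1 t)
    (h' : Adm v a e f z S ρ W1 Y0 C1 t') (hn : ¬ Diag t t') (hD : D33 t t' = 0)
    (hg : g0 t t' = Nat.gcd t.q t'.q) : (g0 t t' : ℝ) * t'.y ≤ 8 * z ^ a * t'.p ρ := by
  obtain ⟨ey, e2⟩ := key2 hL h h' hD
  have hp : t.p ρ = nm (pr t.S3) * nm ρ := nm_mul _ _
  have hp' : t'.p ρ = nm (pr t'.S3) * nm ρ := nm_mul _ _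
  by_cases hE : (t.q : ℤ) * nm (pr t'.S3) - t'.q * nm (pr t.S3) = 0
  · exfalso
    have e1 : t.q * nm (pr t'.S3) = t'.q * nm (pr t.S3) := by exact_mod_cast sub_eq_zero.1 hE
    have c1 : Nat.Coprime t.q (nm (pr t.S3)) := h.copq.coprime_dvd_right (nm_sub_dvd h.sub3)
    have c2 : Nat.Coprime t'.q (nm (pr t'.S3)) := h'.copq.coprime_dvd_right (nm_sub_dvd h'.sub3)
    have e3 : t.q = t'.q := Nat.dvd_antisymm (c1.dvd_of_dvd_mul_right ⟨_, e1.symm⟩)
      (c2.dvd_of_dvd_mul_right ⟨_, e1⟩)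
    rw [← e3] at e1
    have e4 := Nat.eq_of_mul_eq_mul_left (Nat.pos_of_ne_zero h.sfq.ne_zero) e1
    refine hn ⟨e2, subset_eq_of_nm hL.sub (sfS hL) h.sub3 h'.sub3 e4.symm, ey, ?_, e3⟩
    refine (sqfree_dvd_iff h.sfq _).2 fun l hl => ?_
    have hlp := Nat.prime_of_mem_primeFactors hl
    have h1 : l ∣ g0 t t' := by
      rw [hg, ← e3, Nat.gcd_self]; exact Nat.dvd_of_mem_primeFactors hl
    unfold g0 at h1
    obtain ⟨l', hl', h2⟩ := (hlp.prime.dvd_finsetProd_iff _).1 h1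
    obtain ⟨h3, h4⟩ := mem_filter.1 hl'
    rw [(Nat.prime_dvd_prime_iff_eq hlp (Nat.prime_of_mem_primeFactors h3)).1 h2]
    exact h4
  · have d1 : g0 t t' ∣ t.q := (g0_dvd t t').trans (Nat.gcd_dvd_left _ _)
    have d2 : g0 t t' ∣ t'.q := (g0_dvd t t').trans (Nat.gcd_dvd_right _ _)
    have d3 : (g0 t t' : ℤ) ∣ (t.q : ℤ) * nm (pr t'.S3) - t'.q * nm (pr t.S3) :=
      dvd_sub (Dvd.dvd.mul_right (Int.natCast_dvd_natCast.2 d1) _)
        (Dvd.dvd.mul_right (Int.natCast_dvd_natCast.2 d2) _)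
    have d4 : (t'.y : ℤ) ∣ (t.q : ℤ) * nm (pr t'.S3) - t'.q * nm (pr t.S3) := by
      have y1 := h.ydvd
      have y2 := h'.ydvd
      rw [ey, hp] at y1
      rw [hp'] at y2
      have := dvd_sub (y2.mul_right (nm (pr t.S3) : ℤ)) (y1.mul_right (nm (pr t'.S3) : ℤ))
      push_cast at this
      rwa [show ((nm (pr t'.S3) : ℤ) * nm ρ - t'.q) * nm (pr t.S3) -
        ((nm (pr t.S3) : ℤ) * nm ρ - t.q) * nm (pr t'.S3) =
          (t.q : ℤ) * nm (pr t'.S3) - t'.q * nm (pr t.S3) by ring] at this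
    have c1 : IsCoprime (g0 t t' : ℤ) (t'.y : ℤ) :=
      Nat.isCoprime_iff_coprime.2 ((cop_q_y h').coprime_dvd_left d2)
    have h1 := Int.le_of_dvd (abs_pos.2 hE) ((dvd_abs _ _).2 (c1.mul_dvd d3 d4))
    have h2 : (g0 t t' : ℝ) * t'.y ≤ |(t.q : ℝ) * nm (pr t'.S3) - t'.q * nm (pr t.S3)| := by
      exact_mod_cast h1
    have h3 := q_le h
    have h4 := q_le h'
    have h5 := nm_sub_le hL h.sub3
    rw [hp] at h3
    rw [hp'] at h4 ⊢
    push_cast at h3 h4 ⊢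
    have n1 : (0 : ℝ) ≤ nm (pr t.S3) := by positivity
    have n2 : (0 : ℝ) ≤ nm (pr t'.S3) := by positivity
    have n3 : (0 : ℝ) ≤ nm ρ := by positivity
    have n4 : (0 : ℝ) ≤ t.q := by positivity
    have n5 : (0 : ℝ) ≤ t'.q := by positivity
    have n6 := mul_le_mul_of_nonneg_right h3 n2
    have n7 := mul_le_mul_of_nonneg_right h4 n1
    have n8 := mul_le_mul_of_nonneg_right h5 (mul_nonneg n2 n3)
    have n9 := mul_nonneg n4 n2
    have n10 := mul_nonneg n5 n1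
    have n11 := mul_nonneg n1 (mul_nonneg n2 n3)
    refine h2.trans (abs_le.2 ⟨by nlinarith, by nlinarith⟩)

end AV2

end Pool.Agent.Lib.LQ
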