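import Pool.Agent.Lib.LQ.Defs2
import Pool.Agent.Lib.MP_6073f3_nt.Mertens

/-! Block B1: two-sided Mertens estimate for the primes congruent to 1 modulo 4. -/

set_option autoImplicit false

open Finset
open scoped Classical

noncomputable section

namespace Pool.Agent.Lib.LQ

namespace B1Aux

/-- the nontrivial character modulo 4, real valued -/
def ch (n : ℕ) : ℝ := ((ZMod.χ₄ (n : ZMod 4) : ℤ) : ℝ)

lemma ch_eq (n : ℕ) : ch n = if n % 2 = 0 then 0 else if n % 4 = 1 then 1 else -1 := by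
  unfold ch
  rw [ZMod.χ₄_nat_eq_if_mod_four]
  split_ifs <;> simp

lemma ch_one : ch 1 = 1 := by rw [ch_eq]; simp

lemma ch_mul (m n : ℕ) : ch (m * n) = ch m * ch n := by
  unfold ch
  rw [Nat.cast_mul, map_mul, Int.cast_mul]

lemma ch_val (n : ℕ) : ch n = 0 ∨ ch n = 1 ∨ ch n = -1 := by
  rw [ch_eq]; split_ifs <;> simp

lemma ch_pow (p k : ℕ) : ch (p ^ k) = ch p ^ k := by
  induction k with
  | zero => simp [ch_one]
  | succ k ih => rw [pow_succ, ch_mul, ih, pow_succ]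

lemma T_succ (u : ℕ) : ∑ b ∈ Ioc 0 (u + 1), ch b / b =
    ∑ b ∈ Ioc 0 u, ch b / b + ch (u + 1) / ((u : ℝ) + 1) := by
  rw [sum_Ioc_succ_top (Nat.zero_le u)]
  push_cast
  rfl

lemma T_upper (u : ℕ) : ∑ b ∈ Ioc 0 u, ch b / b +
    (if u % 4 = 1 ∨ u % 4 = 2 then 0 else 1 / ((u : ℝ) + 1)) ≤ 1 := by
  induction u with
  | zero => simp
  | succ u ih =>
    rw [T_succ, ch_eq (u + 1)]
    have h0 : (0 : ℝ) < (u : ℝ) + 1 := by positivity
    have h1 : 1 / ((u : ℝ) + 1 + 1) ≤ 1 / ((u : ℝ) + 1) :=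
      one_div_le_one_div_of_le h0 (by linarith)
    have h2 : (-1 : ℝ) / ((u : ℝ) + 1) = -(1 / ((u : ℝ) + 1)) := by ring
    push_cast
    have h4 : u % 4 = 0 ∨ u % 4 = 1 ∨ u % 4 = 2 ∨ u % 4 = 3 := by omega
    rcases h4 with h | h | h | h
    · rw [if_neg (by omega)] at ih
      rw [if_neg (by omega), if_pos (by omega), if_pos (by omega)]
      linarith
    · rw [if_pos (by omega)] at ih
      rw [if_pos (by omega), if_pos (by omega), zero_div]
      linarith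
    · rw [if_pos (by omega)] at ih
      rw [if_neg (by omega), if_neg (by omega), if_neg (by omega), h2]
      linarith
    · rw [if_neg (by omega)] at ih
      rw [if_pos (by omega), if_neg (by omega), zero_div]
      linarith

lemma T_le (u : ℕ) : ∑ b ∈ Ioc 0 u, ch b / b ≤ 1 := by
  have h := T_upper u
  have : (0 : ℝ) ≤ (if u % 4 = 1 ∨ u % 4 = 2 then 0 else 1 / ((u : ℝ) + 1)) := by
    split_ifs
    · exact le_rfl
    · positivity
  linarith

lemma T_lower (u : ℕ) (hu : 1 ≤ u) : 1 / 2 ≤ ∑ b ∈ Ioc 0 u, ch b / b -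
    (if u % 4 = 1 ∨ u % 4 = 2 then 1 / ((u : ℝ) + 1) else 0) := by
  induction u, hu using Nat.le_induction with
  | base => simp [ch_one]; norm_num
  | succ u hu ih =>
    rw [T_succ, ch_eq (u + 1)]
    have h0 : (0 : ℝ) < (u : ℝ) + 1 := by positivity
    have h1 : 1 / ((u : ℝ) + 1 + 1) ≤ 1 / ((u : ℝ) + 1) :=
      one_div_le_one_div_of_le h0 (by linarith)
    have h2 : (-1 : ℝ) / ((u : ℝ) + 1) = -(1 / ((u : ℝ) + 1)) := by ring
    push_cast
    have h4 : u % 4 = 0 ∨ u % 4 = 1 ∨ u % 4 = 2 ∨ u % 4 = 3 := by omega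
    rcases h4 with h | h | h | h
    · rw [if_neg (by omega)] at ih
      rw [if_neg (by omega), if_pos (by omega), if_pos (by omega)]
      linarith
    · rw [if_pos (by omega)] at ih
      rw [if_pos (by omega), if_pos (by omega), zero_div]
      linarith
    · rw [if_pos (by omega)] at ih
      rw [if_neg (by omega), if_neg (by omega), if_neg (by omega), h2]
      linarith
    · rw [if_neg (by omega)] at ih
      rw [if_pos (by omega), if_neg (by omega), zero_div]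
      linarith

lemma T_ge (u : ℕ) (hu : 1 ≤ u) : 1 / 2 ≤ ∑ b ∈ Ioc 0 u, ch b / b := by
  have h := T_lower u hu
  have : (0 : ℝ) ≤ (if u % 4 = 1 ∨ u % 4 = 2 then 1 / ((u : ℝ) + 1) else 0) := by
    split_ifs
    · positivity
    · exact le_rfl
  linarith

/-- `n ↦ 1 / n` -/
def f0 : ArithmeticFunction ℝ := ⟨fun n => (n : ℝ)⁻¹, by simp⟩

/-- `n ↦ χ(n) / n` -/
def g0 : ArithmeticFunction ℝ := ⟨fun n => ch n / n, by simp⟩

lemma mult_fg : (f0 * g0).IsMultiplicative := by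
  have hf : f0.IsMultiplicative := ⟨by simp [f0], fun _ => by simp [f0, mul_comm]⟩
  have hg : g0.IsMultiplicative := ⟨by simp [g0, ch_one], fun _ => by
    simp only [g0, ArithmeticFunction.coe_mk, ch_mul, Nat.cast_mul, div_mul_div_comm]⟩
  exact hf.mul hg

lemma fg_pow {p : ℕ} (hp : p.Prime) (k : ℕ) :
    (f0 * g0) (p ^ k) = (∑ j ∈ range (k + 1), ch p ^ j) * ((p : ℝ)⁻¹) ^ k := by
  rw [ArithmeticFunction.mul_apply, Nat.sum_divisorsAntidiagonal' (fun a b => f0 a * g0 b),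
    Nat.sum_divisors_prime_pow hp, sum_mul]
  refine sum_congr rfl fun j hj => ?_
  have hj' : j ≤ k := by simpa [Nat.lt_succ_iff] using hj
  have hp0 : (p : ℝ) ≠ 0 := by exact_mod_cast hp.ne_zero
  simp only [f0, g0, ArithmeticFunction.coe_mk, ch_pow, Nat.pow_div hj' hp.pos, Nat.cast_pow]
  rw [pow_sub₀ _ hp0 hj', inv_pow]; field_simp

lemma geom_nonneg (p k : ℕ) : 0 ≤ ∑ j ∈ range (k + 1), ch p ^ j := by
  rcases ch_val p with h | h | h <;> rw [h]
  · exact sum_nonneg fun _ _ => by positivity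
  · exact sum_nonneg fun _ _ => by positivity
  · rw [neg_one_geom_sum]; split_ifs <;> norm_num

lemma geom_le (p k : ℕ) : ∑ j ∈ range (k + 1), ch p ^ j ≤ (k : ℝ) + 1 := by
  have : ∀ j ∈ range (k + 1), ch p ^ j ≤ 1 := fun j _ => by
    refine (le_abs_self _).trans ?_
    rw [abs_pow]
    refine pow_le_one₀ (abs_nonneg _) ?_
    rcases ch_val p with h | h | h <;> rw [h] <;> norm_num
  refine (sum_le_sum this).trans ?_
  simp

lemma fg_nonneg (n : ℕ) : 0 ≤ (f0 * g0) n := by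
  rcases eq_or_ne n 0 with rfl | hn
  · simp
  rw [mult_fg.multiplicative_factorization _ hn]
  refine prod_nonneg fun p hp => ?_
  dsimp only
  rw [fg_pow (Nat.prime_of_mem_primeFactors hp)]
  exact mul_nonneg (geom_nonneg _ _) (by positivity)

lemma inv_le_half {p : ℕ} (hp : p.Prime) : (p : ℝ)⁻¹ ≤ 1 / 2 := by
  rw [one_div]
  exact inv_anti₀ two_pos (by exact_mod_cast hp.two_le)

lemma hasSum_maj {p : ℕ} (hp : p.Prime) :
    HasSum (fun k : ℕ => ((k : ℝ) + 1) * ((p : ℝ)⁻¹) ^ k) (1 / (1 - (p : ℝ)⁻¹) ^ 2) := by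
  have h0 : (0 : ℝ) ≤ (p : ℝ)⁻¹ := by positivity
  have h := hasSum_choose_mul_geometric_of_norm_lt_one (𝕜 := ℝ) 1 (r := (p : ℝ)⁻¹)
    (by rw [Real.norm_of_nonneg h0]; linarith [inv_le_half hp])
  simpa using h

lemma summable_fg {p : ℕ} (hp : p.Prime) : Summable (fun k : ℕ => (f0 * g0) (p ^ k)) := by
  refine Summable.of_nonneg_of_le (fun k => fg_nonneg _) (fun k => ?_) (hasSum_maj hp).summable
  rw [fg_pow hp]
  exact mul_le_mul_of_nonneg_right (geom_le _ _) (by positivity)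

lemma tsum_fg_le {p : ℕ} (hp : p.Prime) :
    ∑' k : ℕ, (f0 * g0) (p ^ k) ≤ Real.exp ((1 + ch p) / p + 8 * ((p : ℝ) ^ 2)⁻¹) := by
  have h0 : (0 : ℝ) ≤ (p : ℝ)⁻¹ := by positivity
  have hh := inv_le_half hp
  have h1 : HasSum (fun k : ℕ => if k = 1 then (1 - ch p) * (p : ℝ)⁻¹ else 0)
      ((1 - ch p) * (p : ℝ)⁻¹) := hasSum_ite_eq 1 _
  have h2 := (hasSum_maj hp).sub h1
  have h3 : ∑' k : ℕ, (f0 * g0) (p ^ k) ≤ 1 / (1 - (p : ℝ)⁻¹) ^ 2 - (1 - ch p) * (p : ℝ)⁻¹ := by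
    refine hasSum_le (fun k => ?_) (summable_fg hp).hasSum h2
    rw [fg_pow hp]
    split_ifs with hk
    · subst hk
      simp only [sum_range_succ, range_zero, sum_empty, pow_zero, pow_one, Nat.cast_one]
      apply le_of_eq; ring
    · rw [sub_zero]
      exact mul_le_mul_of_nonneg_right (geom_le _ _) (by positivity)
  refine h3.trans (le_trans ?_ (Real.add_one_le_exp _))
  rw [div_eq_mul_inv (1 + ch p), ← inv_pow]
  set x := (p : ℝ)⁻¹
  have h4 : 1 / (1 - x) ^ 2 ≤ 1 + 2 * x + 8 * x ^ 2 := by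
    have h5 : 0 < (1 - x) ^ 2 := pow_pos (by linarith) 2
    rw [div_le_iff₀ h5]
    have h6 : 0 ≤ x ^ 2 * ((1 - 2 * x) * (5 - 4 * x)) :=
      mul_nonneg (by positivity) (mul_nonneg (by linarith) (by linarith))
    nlinarith
  linarith

lemma lower_nat (n : ℕ) : Real.log n / 2 ≤
    Real.exp (∑ p ∈ (n + 1).primesBelow, ((1 + ch p) / p + 8 * ((p : ℝ) ^ 2)⁻¹)) := by
  obtain ⟨-, h⟩ := EulerProduct.summable_and_hasSum_smoothNumbers_prod_primesBelow_tsum
    (f := fun n => (f0 * g0) n) mult_fg.1 (fun {m n} hmn => mult_fg.2 hmn)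
    (fun {p} hp => by
      simp only [Real.norm_of_nonneg (fg_nonneg _)]
      exact summable_fg hp) (n + 1)
  have h1 : Real.log n ≤ ∑ m ∈ Ioc 0 n, (m : ℝ)⁻¹ := by
    have := log_add_one_le_harmonic n
    rw [harmonic_eq_sum_Icc] at this
    push_cast at this
    rcases Nat.eq_zero_or_pos n with rfl | hz
    · simp
    · exact (Real.log_le_log (by exact_mod_cast hz) (by linarith)).trans this
  have h2 : (∑ m ∈ Ioc 0 n, (m : ℝ)⁻¹) / 2 ≤ ∑ m ∈ Ioc 0 n, (f0 * g0) m := by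
    rw [ArithmeticFunction.sum_Ioc_mul_eq_sum_sum, sum_div]
    refine sum_le_sum fun m hm => ?_
    rw [mem_Ioc] at hm
    have := T_ge (n / m) (Nat.div_pos hm.2 hm.1)
    have h0 : (0 : ℝ) ≤ (m : ℝ)⁻¹ := by positivity
    calc (m : ℝ)⁻¹ / 2 = (m : ℝ)⁻¹ * (1 / 2) := by ring
      _ ≤ _ := mul_le_mul_of_nonneg_left this h0
  have h3 : ∑ m ∈ Ioc 0 n, (f0 * g0) m ≤
      ∏ p ∈ (n + 1).primesBelow, ∑' k : ℕ, (f0 * g0) (p ^ k) := by
    have h := (hasSum_subtype_iff_indicator (f := fun n => (f0 * g0) n)).1 h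
    refine le_trans (le_of_eq (sum_congr rfl fun m hm => ?_)) (sum_le_hasSum (Ioc 0 n)
      (fun m _ => Set.indicator_nonneg (fun m _ => fg_nonneg m) m) h)
    rw [mem_Ioc] at hm
    rw [Set.indicator_of_mem (Nat.mem_smoothNumbers_of_lt (by omega) (by omega))]
  have h4 : ∏ p ∈ (n + 1).primesBelow, ∑' k : ℕ, (f0 * g0) (p ^ k) ≤
      Real.exp (∑ p ∈ (n + 1).primesBelow, ((1 + ch p) / p + 8 * ((p : ℝ) ^ 2)⁻¹)) := by
    rw [Real.exp_sum]
    exact prod_le_prod (fun p _ => tsum_nonneg fun k => fg_nonneg _)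
      fun p hp => tsum_fg_le (Nat.prime_of_mem_primesBelow hp)
  linarith

lemma mem_PP' {w z : ℝ} (hz : 0 ≤ z) {l : ℕ} :
    l ∈ PP w z ↔ l.Prime ∧ l % 4 = 1 ∧ w < (l : ℝ) ∧ (l : ℝ) ≤ z := by
  unfold PP
  rw [mem_filter, mem_range, Nat.lt_succ_iff, Nat.le_floor_iff hz]
  tauto

lemma Lam_add' {w y z : ℝ} (hy : 0 ≤ y) (h1 : w ≤ y) (h2 : y ≤ z) :
    Lam w z = Lam w y + Lam y z := by
  have hz : 0 ≤ z := hy.trans h2
  unfold Lam
  rw [← sum_filter_add_sum_filter_not (PP w z) (fun l => (l : ℝ) ≤ y)]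
  congr 1
  · refine sum_congr ?_ fun _ _ => rfl
    ext l
    rw [mem_filter, mem_PP' hz, mem_PP' hy]
    constructor
    · rintro ⟨⟨a, b, c, _⟩, e⟩; exact ⟨a, b, c, e⟩
    · rintro ⟨a, b, c, d⟩; exact ⟨⟨a, b, c, d.trans h2⟩, d⟩
  · refine sum_congr ?_ fun _ _ => rfl
    ext l
    rw [mem_filter, mem_PP' hz, mem_PP' hz, not_le]
    constructor
    · rintro ⟨⟨a, b, _, d⟩, e⟩; exact ⟨a, b, e, d⟩
    · rintro ⟨a, b, c, d⟩; exact ⟨⟨a, b, h1.trans_lt c, d⟩, c⟩

lemma upper_real {z : ℝ} (hz : 2 ≤ z) : Lam 2 z ≤ Real.log (Real.log z) + (Real.log 28 + 4) := by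
  have hz0 : 0 ≤ z := by linarith
  have hn : 2 ≤ ⌊z⌋₊ := Nat.le_floor (by exact_mod_cast hz)
  have h := TorsRank.mertens_upper ch ch_one ch_mul ch_val T_le hn (S := PP 2 z) fun l hl => by
    rw [mem_PP' hz0] at hl
    exact ⟨hl.1, Nat.le_floor hl.2.2.2⟩
  have hl := TorsRank.half_le_log hn
  have h1 : Real.log (⌊z⌋₊ : ℝ) ≤ Real.log z :=
    Real.log_le_log (by exact_mod_cast (by omega : 0 < ⌊z⌋₊)) (Nat.floor_le hz0)
  rw [mul_one, Real.log_mul (by norm_num) (by linarith)] at h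
  have h2 : Real.log (Real.log (⌊z⌋₊ : ℝ)) ≤ Real.log (Real.log z) :=
    Real.log_le_log (by linarith) h1
  have h3 : Lam 2 z ≤ ∑ p ∈ PP 2 z, (1 + ch p) / p := by
    refine sum_le_sum fun l hl => ?_
    rw [mem_PP' hz0] at hl
    have h4 : (0 : ℝ) < l := by linarith [hl.2.2.1]
    rw [ch_eq, if_neg (by omega), if_pos hl.2.1, one_add_one_eq_two]
    exact div_le_div_of_nonneg_left (by norm_num) h4 (by linarith)
  linarith

lemma lower_real {z : ℝ} (hz : 2 ≤ z) : Real.log (Real.log z) ≤ Lam 2 z + (Real.log 4 + 10) := by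
  have hz0 : 0 ≤ z := by linarith
  have hn : 2 ≤ ⌊z⌋₊ := Nat.le_floor (by exact_mod_cast hz)
  have hn' : (2 : ℝ) ≤ ⌊z⌋₊ := by exact_mod_cast hn
  have h := lower_nat ⌊z⌋₊
  have h1 : Real.log z ≤ 2 * Real.log (⌊z⌋₊ : ℝ) := by
    have h2 : z ≤ (⌊z⌋₊ : ℝ) ^ 2 := by
      have := Nat.lt_floor_add_one z
      nlinarith
    have := Real.log_le_log (by linarith) h2
    rw [Real.log_pow] at this
    exact_mod_cast this
  have h2 : ∑ p ∈ (⌊z⌋₊ + 1).primesBelow, ((1 + ch p) / p + 8 * ((p : ℝ) ^ 2)⁻¹) ≤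
      Lam 2 z + 10 := by
    have h3 : ∀ p ∈ (⌊z⌋₊ + 1).primesBelow, (1 + ch p) / p + 8 * ((p : ℝ) ^ 2)⁻¹ ≤
        (if p % 4 = 1 then 2 / ((p : ℝ) + 1) else 0) + 10 * ((p : ℝ) ^ 2)⁻¹ := by
      intro p hp
      have hp' := Nat.prime_of_mem_primesBelow hp
      have h4 : (2 : ℝ) ≤ p := by exact_mod_cast hp'.two_le
      have h5 : (0 : ℝ) < p := by linarith
      rw [ch_eq]
      by_cases e : p % 2 = 0
      · have : p = 2 := ((Nat.prime_dvd_prime_iff_eq Nat.prime_two hp').1 (by omega)).symm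
        subst this
        norm_num
      · rw [if_neg e]
        split_ifs with e'
        · have : (1 + 1 : ℝ) / p ≤ 2 / ((p : ℝ) + 1) + 2 * ((p : ℝ) ^ 2)⁻¹ := by
            rw [← sub_nonneg]
            have : 2 / ((p : ℝ) + 1) + 2 * ((p : ℝ) ^ 2)⁻¹ - (1 + 1 : ℝ) / p =
                2 / (((p : ℝ) + 1) * (p : ℝ) ^ 2) := by field_simp; ring
            rw [this]; positivity
          linarith
        · have : (0 : ℝ) ≤ ((p : ℝ) ^ 2)⁻¹ := by positivity
          rw [add_neg_cancel, zero_div]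
          linarith
    refine (sum_le_sum h3).trans ?_
    rw [sum_add_distrib, ← mul_sum, ← sum_filter]
    have h6 := TorsRank.sum_inv_sq_le (S := (⌊z⌋₊ + 1).primesBelow) fun l hl =>
      (Nat.prime_of_mem_primesBelow hl).two_le
    have h7 : ∑ p ∈ (⌊z⌋₊ + 1).primesBelow with p % 4 = 1, 2 / ((p : ℝ) + 1) = Lam 2 z := by
      refine sum_congr ?_ fun _ _ => rfl
      ext l
      rw [mem_filter, Nat.mem_primesBelow, mem_PP' hz0, Nat.lt_succ_iff, Nat.le_floor_iff hz0]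
      constructor
      · rintro ⟨⟨a, b⟩, c⟩
        have := b.two_le
        exact ⟨b, c, by exact_mod_cast (by omega : 2 < l), a⟩
      · rintro ⟨a, b, _, d⟩; exact ⟨⟨d, a⟩, b⟩
    linarith
  have hl := TorsRank.half_le_log hn
  have hlz : 0 < Real.log z := Real.log_pos (by linarith)
  have h3 : Real.log z ≤ 4 * Real.exp (Lam 2 z + 10) := by
    have := Real.exp_le_exp.2 h2
    linarith
  have h4 := Real.log_le_log hlz h3
  rw [Real.log_mul (by norm_num) (Real.exp_pos _).ne', Real.log_exp] at h4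
  linarith

end B1Aux

theorem B1 : MertensStmt := by
  refine ⟨Real.log 28 + 4 + (Real.log 4 + 10), fun y z hy hyz => ?_⟩
  have hz : 2 ≤ z := hy.trans hyz
  have h1 := B1Aux.Lam_add' (w := 2) (by linarith) hy hyz
  have h2 := B1Aux.upper_real hy
  have h3 := B1Aux.upper_real hz
  have h4 := B1Aux.lower_real hy
  have h5 := B1Aux.lower_real hz
  rw [Real.log_div (Real.log_pos (by linarith)).ne' (Real.log_pos (by linarith)).ne', abs_le]
  constructor <;> linarith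

end Pool.Agent.Lib.LQ
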