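import Pool.Agent.Lib.LQ.B3bAux2

set_option autoImplicit false

open Finset
open scoped Classical

noncomputable section

namespace Pool.Agent.Lib.LQ

open Pool.Agent.Lib.MP_de94cf_nt (gg det inn)

namespace B3b

lemma exists_t {a c m : ℕ} (hm : m ≠ 0) (h : ∀ p : ℕ, p.Prime → p ∣ m → p ∣ a → ¬ p ∣ c) :
    ∃ t : ℕ, Nat.Coprime (a + t * c) m := by
  refine ⟨∏ p ∈ m.primeFactors.filter (fun p => ¬ p ∣ a), p, ?_⟩
  apply Nat.coprime_of_dvd
  intro p hp h1 h2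
  by_cases ha : p ∣ a
  · rcases (Nat.Prime.dvd_mul hp).1 ((Nat.dvd_add_right ha).1 h1) with h3 | h3
    · obtain ⟨q, hq, hpq⟩ := (Prime.dvd_finsetProd_iff hp.prime _).1 h3
      rw [mem_filter] at hq
      have := (Nat.prime_dvd_prime_iff_eq hp (Nat.prime_of_mem_primeFactors hq.1)).1 hpq
      exact hq.2 (this ▸ ha)
    · exact h p hp h2 ha h3
  · apply ha
    refine (Nat.dvd_add_left (Dvd.dvd.mul_right ?_ c)).1 h1
    exact dvd_prod_of_mem _ (mem_filter.2 ⟨Nat.mem_primeFactors.2 ⟨hp, h2, hm⟩, ha⟩)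

lemma unit_of {c m a0 : ℕ} [NeZero (c * m)] (ha : Nat.Coprime a0 m) (b a d : ZMod (c * m))
    (h1 : (c : ZMod (c * m)) * (a - a0) = 0) (h2 : a * d = 1 + b * c) : IsUnit a := by
  have hc : c ≠ 0 := left_ne_zero_of_mul (NeZero.ne (c * m))
  rw [← ZMod.natCast_zmod_val a] at h1 h2 ⊢
  rw [cond_iff' hc] at h1
  rw [ZMod.isUnit_iff_coprime]
  refine Nat.Coprime.mul_right ?_ ?_
  · have h3 := congrArg (ZMod.castHom (Dvd.intro m rfl) (ZMod c)) h2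
    rw [map_mul, map_add, map_mul, map_natCast, map_natCast, map_one, ZMod.natCast_self, mul_zero,
      add_zero] at h3
    rw [← ZMod.isUnit_iff_coprime]
    exact IsUnit.of_mul_eq_one _ h3
  · rw [Nat.Coprime, h1.gcd_eq]
    exact ha

/-- a congruence class in the box -/
def Cl (C D m : ℕ) (a0 c0 b0 d0 : ℤ) : Finset (GI × GI) :=
  (Box C D).filter fun x => (m : ℤ) ∣ x.1.re - a0 ∧ (m : ℤ) ∣ x.1.im - c0 ∧
    (m : ℤ) ∣ x.2.re - b0 ∧ (m : ℤ) ∣ x.2.im - d0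

lemma fiber_card {C D m c a0 c0 t : ℕ} (hC : 1 ≤ C) {b0 d0 : ℤ} (hc : c ∈ Ico C (2 * C))
    (hcc : c ≡ c0 [MOD m]) (hdet : (m : ℤ) ∣ a0 * d0 - c0 * b0 - 1)
    (ht : Nat.Coprime (a0 + t * c0) m) :
    ((Cl C D m a0 c0 b0 d0).filter fun x => x.1.im.toNat = c).card =
      ((Ico (-(2 * C) + t * c : ℤ) (-(2 * C) + t * c + (4 * C + 1 : ℕ)) ×ˢ
        Ico (-D : ℤ) (-D + (2 * D + 1 : ℕ))).filter fun y : ℤ × ℤ =>
        (c : ZMod (c * m)) * ((y.1 : ZMod (c * m)) - ((a0 + t * c0 : ℕ) : ZMod (c * m))) = 0 ∧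
          (y.1 : ZMod (c * m)) * y.2 = 1 + ((b0 + t * d0 : ℤ) : ZMod (c * m)) * c).card := by
  rw [mem_Ico] at hc
  have hc0 : c ≠ 0 := by omega
  have hc0' : (c : ℤ) ≠ 0 := by exact_mod_cast hc0
  have hcc' : (m : ℤ) ∣ (c : ℤ) - c0 := by
    rw [← dvd_neg, neg_sub]
    exact hcc.dvd
  have e1 : ∀ y : ℤ, ((c : ZMod (c * m)) * ((y : ZMod (c * m)) -
      ((a0 + t * c0 : ℕ) : ZMod (c * m))) = 0) ↔ (m : ℤ) ∣ y - (a0 + t * c0) := by
    intro y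
    have h := cond_iff (m := m) hc0 y ((a0 + t * c0 : ℕ) : ℤ)
    rw [Int.cast_natCast] at h
    rw [h]
    push_cast
    rfl
  have e2 : ∀ y z : ℤ, ((y : ZMod (c * m)) * z = 1 + ((b0 + t * d0 : ℤ) : ZMod (c * m)) * c) ↔
      (c : ℤ) * m ∣ y * z - (1 + (b0 + t * d0) * c) := by
    intro y z
    rw [← sub_eq_zero, ← Nat.cast_mul, ← ZMod.intCast_zmod_eq_zero_iff_dvd]
    push_cast
    rfl
  simp only [e1, e2]
  have key : ∀ x : GI × GI, x ∈ ((Cl C D m a0 c0 b0 d0).filter fun x => x.1.im.toNat = c) ↔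
      x.1.im = c ∧ |x.1.re| ≤ 2 * C ∧ |x.2.im| ≤ D ∧ x.1.re * x.2.im - c * x.2.re = 1 ∧
        (m : ℤ) ∣ x.1.re - a0 ∧ (m : ℤ) ∣ x.2.re - b0 ∧ (m : ℤ) ∣ x.2.im - d0 := by
    intro x
    rw [mem_filter, Cl, mem_filter, mem_Box hC, det]
    constructor
    · rintro ⟨⟨⟨h1, h2, h3, h4, h5⟩, h6, h7, h8, h9⟩, h10⟩
      have h11 : x.1.im = c := by omega
      rw [h11] at h5
      exact ⟨h11, h3, h4, h5, h6, h8, h9⟩
    · rintro ⟨h1, h3, h4, h5, h6, h8, h9⟩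
      rw [h1]
      exact ⟨⟨⟨by omega, by omega, h3, h4, h5⟩, h6, hcc', h8, h9⟩, by simp⟩
  refine card_nbij (fun x => (x.1.re + t * c, x.2.im)) ?_ ?_ ?_
  · intro x hx
    rw [mem_coe, key] at hx
    obtain ⟨h1, h3, h4, h5, h6, h8, h9⟩ := hx
    rw [abs_le] at h3 h4
    simp only [mem_coe, mem_filter, mem_product, mem_Ico]
    push_cast
    refine ⟨⟨⟨by omega, by omega⟩, by omega, by omega⟩, ?_, ?_⟩
    · have : x.1.re + t * c - (a0 + t * c0) = (x.1.re - a0) + t * ((c : ℤ) - c0) := by ring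
      rw [this]
      exact h6.add (hcc'.mul_left _)
    · have : (x.1.re + t * c) * x.2.im - (1 + (b0 + t * d0) * c) =
          c * ((x.2.re - b0) + t * (x.2.im - d0)) := by linear_combination h5
      rw [this]
      exact mul_dvd_mul_left _ (h8.add (h9.mul_left _))
  · intro x hx y hy e
    rw [mem_coe, key] at hx hy
    have e3 : x.1.re = y.1.re := by simpa using congrArg Prod.fst e
    have e4 : x.2.im = y.2.im := congrArg Prod.snd e
    have e5 : x.2.re = y.2.re := by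
      apply mul_left_cancel₀ hc0'
      have h1 := hx.2.2.2.1
      have h2 := hy.2.2.2.1
      rw [e3, e4] at h1
      linarith
    exact Prod.ext (Zsqrtd.ext e3 (hx.1.trans hy.1.symm)) (Zsqrtd.ext e5 e4)
  · rintro ⟨y, z⟩ hy
    simp only [mem_coe, mem_filter, mem_product, mem_Ico] at hy
    push_cast at hy
    obtain ⟨⟨⟨h1, h2⟩, h3, h4⟩, h5, k, hk⟩ := hy
    have hd : (m : ℤ) ∣ z - d0 := by
      have hco : IsCoprime (m : ℤ) ((a0 + t * c0 : ℕ) : ℤ) := Nat.isCoprime_iff_coprime.2 ht.symm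
      apply hco.dvd_of_dvd_mul_left
      have : ((a0 + t * c0 : ℕ) : ℤ) * (z - d0) = m * (c * k) - z * (y - (a0 + t * c0)) +
          (b0 + t * d0) * ((c : ℤ) - c0) - (a0 * d0 - c0 * b0 - 1) := by
        push_cast
        linear_combination hk
      rw [this]
      exact (((dvd_mul_right _ _).sub (h5.mul_left _)).add (hcc'.mul_left _)).sub hdet
    refine ⟨(⟨y - t * c, c⟩, ⟨b0 + t * d0 + m * k - t * z, z⟩), ?_, by simp⟩
    rw [mem_coe, key]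
    simp only
    refine ⟨trivial, abs_le.2 ⟨by omega, by omega⟩, abs_le.2 ⟨by omega, by omega⟩,
      by linear_combination hk, ?_, ?_, hd⟩
    · have : y - t * c - a0 = (y - (a0 + t * c0)) - t * ((c : ℤ) - c0) := by ring
      rw [this]
      exact h5.sub (hcc'.mul_left _)
    · have : b0 + t * d0 + m * k - t * z - b0 = m * k - t * (z - d0) := by ring
      rw [this]
      exact (dvd_mul_right _ _).sub (hd.mul_left _)

lemma class_count (hK : KlStmt) {C D m a0 c0 : ℕ} (hC : 1 ≤ C) (hm : 1 ≤ m) {b0 d0 : ℤ}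
    (hdet : (m : ℤ) ∣ a0 * d0 - c0 * b0 - 1) {W L : ℝ} (hW0 : 0 ≤ W) (hL0 : 0 ≤ L)
    (hW : ∀ n : ℕ, n ≠ 0 → n ≤ 2 * C * m → 2 * (n : ℝ) ^ 3 * (n.divisors.card : ℝ) ^ 3 * m ≤ W ^ 4)
    (hL : ∀ n : ℕ, n ≠ 0 → n ≤ 2 * C * m → n.divisors.card * (1 + Real.log n) ≤ L) :
    |((Cl C D m a0 c0 b0 d0).card : ℝ) - (4 * C + 1) * (2 * D + 1) / (m : ℝ) ^ 2 * MT C m c0| ≤
      W * L * (4 * C + 2 * D + 2 + C * L) := by
  obtain ⟨t, ht⟩ := exists_t (a := a0) (c := c0) (m := m) (by omega) (by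
    intro p hp h1 h2 h3
    have h4 : (p : ℤ) ∣ a0 * d0 - c0 * b0 - 1 := (Int.natCast_dvd_natCast.2 h1).trans hdet
    have h5 : (p : ℤ) ∣ a0 * d0 - c0 * b0 :=
      ((Int.natCast_dvd_natCast.2 h2).mul_right _).sub ((Int.natCast_dvd_natCast.2 h3).mul_right _)
    have h6 : (p : ℤ) ∣ 1 := by simpa using h5.sub h4
    exact hp.one_lt.ne' (Nat.dvd_one.1 (Int.natCast_dvd_natCast.1 h6)))
  have hC' : (0 : ℝ) < C := by exact_mod_cast hC
  have hm' : (1 : ℝ) ≤ m := by exact_mod_cast hm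
  set S := (Ico C (2 * C)).filter (fun c => c ≡ c0 [MOD m]) with hS
  have h1 : (Cl C D m a0 c0 b0 d0).card =
      ∑ c ∈ S, ((Cl C D m a0 c0 b0 d0).filter fun x => x.1.im.toNat = c).card := by
    refine card_eq_sum_card_fiberwise fun x hx => ?_
    rw [mem_coe, Cl, mem_filter, mem_Box hC] at hx
    obtain ⟨⟨h1, h2, -⟩, -, h3, -⟩ := hx
    rw [mem_coe, hS, mem_filter, mem_Ico]
    refine ⟨by omega, ?_⟩
    rw [Nat.modEq_iff_dvd, Int.toNat_of_nonneg (by omega), ← dvd_neg, neg_sub]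
    exact h3
  rw [h1, MT, ← hS, mul_sum]
  push_cast
  rw [← sum_sub_distrib]
  refine (abs_sum_le_sum_abs _ _).trans ?_
  have h2 : ∀ c ∈ S, |(((Cl C D m a0 c0 b0 d0).filter fun x => x.1.im.toNat = c).card : ℝ) -
      (4 * C + 1) * (2 * D + 1) / (m : ℝ) ^ 2 * (gf m c / c)| ≤
      W * L * ((4 * C + 2 * D + 2) / C + L) := by
    intro c hc
    rw [hS, mem_filter] at hc
    have hc1 := mem_Ico.1 hc.1
    have hc' : (C : ℝ) ≤ c := by exact_mod_cast hc1.1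
    have hn0 : c * m ≠ 0 := Nat.mul_ne_zero (by omega) (by omega)
    have hn1 : c * m ≤ 2 * C * m := Nat.mul_le_mul_right _ hc1.2.le
    have : NeZero (c * m) := ⟨hn0⟩
    have h3 := core (n := c * m) hK (m := m) hm (c := (c : ZMod (c * m)))
      (by rw [← Nat.cast_mul, mul_comm m c, ZMod.natCast_self])
      ((a0 + t * c0 : ℕ) : ZMod (c * m)) ((b0 + t * d0 : ℤ) : ZMod (c * m))
      (fun a d => unit_of ht _ a d) (-(2 * C) + t * c : ℤ) (-D : ℤ) (4 * C + 1) (2 * D + 1) hW0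
      (hW _ hn0 hn1) (hL _ hn0 hn1)
    rw [fiber_card hC hc.1 hc.2 hdet ht]
    rw [UU_eq ht] at h3
    have e : ((4 * C + 1 : ℕ) : ℝ) * ((2 * D + 1 : ℕ) : ℝ) * (c * gf m c) / ((c * m : ℕ) : ℝ) ^ 2 =
        (4 * C + 1) * (2 * D + 1) / (m : ℝ) ^ 2 * (gf m c / c) := by
      have : (c : ℝ) ≠ 0 := by linarith
      push_cast
      field_simp
    rw [e] at h3
    refine le_trans (le_of_eq (by congr)) (h3.trans ?_)
    have e2 : ((4 * C + 1 : ℕ) : ℝ) + ((2 * D + 1 : ℕ) : ℝ) = 4 * C + 2 * D + 2 := by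
      push_cast
      ring
    rw [e2]
    gcongr
    nlinarith
  refine (sum_le_card_nsmul _ _ _ h2).trans ?_
  have h4 : (S.card : ℝ) ≤ C := by
    have : S.card ≤ (Ico C (2 * C)).card := card_filter_le _ _
    rw [Nat.card_Ico] at this
    exact_mod_cast (by omega : S.card ≤ C)
  rw [nsmul_eq_mul]
  calc (S.card : ℝ) * (W * L * ((4 * C + 2 * D + 2) / C + L)) ≤
      C * (W * L * ((4 * C + 2 * D + 2) / C + L)) := by gcongr
    _ = _ := by field_simp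

lemma numeric : ∃ K : ℝ, ∀ C D m : ℕ, 1 ≤ C → 1 ≤ D → 1 ≤ m → ∃ W L : ℝ, 0 ≤ W ∧ 0 ≤ L ∧
    (∀ n : ℕ, n ≠ 0 → n ≤ 2 * C * m → 2 * (n : ℝ) ^ 3 * (n.divisors.card : ℝ) ^ 3 * m ≤ W ^ 4) ∧
    (∀ n : ℕ, n ≠ 0 → n ≤ 2 * C * m → n.divisors.card * (1 + Real.log n) ≤ L) ∧
    2 * (W * L * (4 * C + 2 * D + 2 + C * L)) +
      (4 * C + 1) * (2 * D + 1) / (m : ℝ) ^ 2 * ((1 + Real.log (2 * C : ℕ)) / C) ≤
      K * (m : ℝ) ^ 2 * (C + D) * (C : ℝ) ^ (4 / 5 : ℝ) := by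
  obtain ⟨K, hK1, hK⟩ := div_bounds (ε := 1 / 100) (by norm_num)
  refine ⟨56 * K ^ 3 * 101 ^ 2 + 3030, fun C D m hC hD hm => ?_⟩
  have hC' : (1 : ℝ) ≤ C := by exact_mod_cast hC
  have hD' : (1 : ℝ) ≤ D := by exact_mod_cast hD
  have hm' : (1 : ℝ) ≤ m := by exact_mod_cast hm
  obtain ⟨y, hy⟩ : ∃ y : ℝ, y = (C : ℝ) ^ (1 / 100 : ℝ) := ⟨_, rfl⟩
  obtain ⟨μ, hμ⟩ : ∃ μ : ℝ, μ = (2 * m : ℝ) ^ (1 / 100 : ℝ) := ⟨_, rfl⟩
  have hy1 : 1 ≤ y := hy ▸ Real.one_le_rpow hC' (by norm_num)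
  have hμ1 : 1 ≤ μ := hμ ▸ Real.one_le_rpow (by linarith) (by norm_num)
  have hyC : y ^ 100 = C := by
    rw [hy, ← Real.rpow_natCast, ← Real.rpow_mul (by linarith)]
    norm_num
  have hμm : μ ^ 100 = 2 * m := by
    rw [hμ, ← Real.rpow_natCast, ← Real.rpow_mul (by linarith)]
    norm_num
  have hy80 : (C : ℝ) ^ (4 / 5 : ℝ) = y ^ 80 := by
    rw [hy, ← Real.rpow_natCast, ← Real.rpow_mul (by linarith)]
    norm_num
  have hq : ∀ n : ℕ, n ≤ 2 * C * m → (n : ℝ) ^ (1 / 100 : ℝ) ≤ μ * y := by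
    intro n hn
    rw [hy, hμ, ← Real.mul_rpow (by linarith) (by linarith)]
    have : (n : ℝ) ≤ 2 * m * C := by
      have : (n : ℝ) ≤ ((2 * C * m : ℕ) : ℝ) := by exact_mod_cast hn
      push_cast at this
      linarith
    gcongr
  have hq1 : 1 ≤ μ * y := one_le_mul_of_one_le_of_one_le hμ1 hy1
  have hτ : ∀ n : ℕ, n ≠ 0 → n ≤ 2 * C * m → (n.divisors.card : ℝ) ≤ K * (μ * y) := by
    intro n h0 hn
    refine (hK n h0).1.trans ?_
    gcongr
    exact hq n hn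
  have hlog : ∀ n : ℕ, n ≤ 2 * C * m → 1 + Real.log n ≤ 101 * (μ * y) := by
    intro n hn
    have h1 := Real.log_le_rpow_div (Nat.cast_nonneg n) (show (0 : ℝ) < 1 / 100 by norm_num)
    have h2 := hq n hn
    linarith
  have hKq : 1 ≤ K * (μ * y) := one_le_mul_of_one_le_of_one_le hK1 hq1
  refine ⟨K * (μ * y) * (2 * m) * y ^ 75, K * (μ * y) * (101 * (μ * y)), by positivity,
    by positivity, ?_, ?_, ?_⟩
  · intro n h0 hn
    have h1 : (n : ℝ) ≤ 2 * C * m := by exact_mod_cast hn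
    calc 2 * (n : ℝ) ^ 3 * (n.divisors.card : ℝ) ^ 3 * m ≤
        2 * (2 * C * m) ^ 3 * (K * (μ * y)) ^ 3 * m := by
          gcongr
          exact hτ n h0 hn
      _ = (K * (μ * y)) ^ 3 * 1 * ((2 * m) ^ 4 * (y ^ 100) ^ 3) := by
          rw [hyC]
          ring
      _ ≤ (K * (μ * y)) ^ 3 * (K * (μ * y)) * ((2 * m) ^ 4 * (y ^ 100) ^ 3) := by gcongr
      _ = _ := by ring
  · intro n h0 hn
    have := Real.log_natCast_nonneg n
    gcongr
    · exact hτ n h0 hn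
    · exact hlog n hn
  · rw [hy80]
    have hL1 : 1 ≤ K * (μ * y) * (101 * (μ * y)) :=
      one_le_mul_of_one_le_of_one_le hKq (by linarith)
    have hμ5 : μ ^ 5 ≤ 2 * m := by
      rw [← hμm]
      exact pow_le_pow_right₀ hμ1 (by norm_num)
    have hμ' : μ ≤ 2 * m := le_trans (le_self_pow₀ hμ1 (by norm_num)) hμ5
    have hy' : y ≤ y ^ 80 := le_self_pow₀ hy1 (by norm_num)
    have h1 : 4 * C + 2 * D + 2 + C * (K * (μ * y) * (101 * (μ * y))) ≤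
        7 * (C + D) * (K * (μ * y) * (101 * (μ * y))) := by nlinarith
    have h2 : 2 * (K * (μ * y) * (2 * m) * y ^ 75 * (K * (μ * y) * (101 * (μ * y))) *
        (4 * C + 2 * D + 2 + C * (K * (μ * y) * (101 * (μ * y))))) ≤
        56 * K ^ 3 * 101 ^ 2 * (m : ℝ) ^ 2 * (C + D) * y ^ 80 := by
      calc _ ≤ 2 * (K * (μ * y) * (2 * m) * y ^ 75 * (K * (μ * y) * (101 * (μ * y))) *
          (7 * (C + D) * (K * (μ * y) * (101 * (μ * y))))) := by gcongr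
        _ = 28 * K ^ 3 * 101 ^ 2 * m * μ ^ 5 * (C + D) * y ^ 80 := by ring
        _ ≤ 28 * K ^ 3 * 101 ^ 2 * m * (2 * m) * (C + D) * y ^ 80 := by gcongr
        _ = _ := by ring
    have h3 : (4 * C + 1) * (2 * D + 1) / (m : ℝ) ^ 2 * ((1 + Real.log (2 * C : ℕ)) / C) ≤
        3030 * (m : ℝ) ^ 2 * (C + D) * y ^ 80 := by
      have h4 := hlog (2 * C) (Nat.le_mul_of_pos_right _ hm)
      have h5 := Real.log_natCast_nonneg (2 * C)
      calc _ ≤ (5 * C) * (3 * (C + D)) / 1 * ((101 * (2 * (m : ℝ) ^ 2 * y ^ 80)) / C) := by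
            gcongr
            · linarith
            · linarith
            · exact one_le_pow₀ hm'
            · refine h4.trans ?_
              gcongr
              nlinarith
        _ = _ := by
            field_simp
            ring
    linarith

/-- reduction modulo `m` -/
def red (m : ℕ) (x : GI × GI) : GI × GI :=
  (⟨x.1.re % m, x.1.im % m⟩, ⟨x.2.re % m, x.2.im % m⟩)

lemma emod_iff {m : ℕ} {x a : ℤ} (h0 : 0 ≤ a) (h1 : a < m) : x % m = a ↔ (m : ℤ) ∣ x - a := by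
  rw [Int.dvd_iff_emod_eq_zero, ← Int.emod_eq_emod_iff_emod_sub_eq_zero, Int.emod_eq_of_lt h0 h1]

lemma dvd_sub_emod (m : ℕ) (x : ℤ) : (m : ℤ) ∣ x - x % m :=
  ⟨x / m, by have := Int.emod_add_mul_ediv x m; linarith⟩

lemma gdvd {m : ℕ} {α : GI} (h1 : (m : ℤ) ∣ α.re) (h2 : (m : ℤ) ∣ α.im) : (m : GI) ∣ α := by
  obtain ⟨u, hu⟩ := h1
  obtain ⟨v, hv⟩ := h2
  exact ⟨⟨u, v⟩, Zsqrtd.ext (by simp [hu]) (by simp [hv])⟩

lemma red_mem {C D m : ℕ} (hC : 1 ≤ C) (hm : 1 ≤ m) {x : GI × GI} (hx : x ∈ Box C D) :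
    red m x ∈ cls m := by
  have hm0 : (m : ℤ) ≠ 0 := by omega
  have hm1 : (0 : ℤ) < m := by omega
  rw [cls, mem_filter, mem_product, mem_Sqr, mem_Sqr]
  simp only [red, zero_add]
  refine ⟨⟨⟨Int.emod_nonneg _ hm0, Int.emod_lt_of_pos _ hm1, Int.emod_nonneg _ hm0,
    Int.emod_lt_of_pos _ hm1⟩, Int.emod_nonneg _ hm0, Int.emod_lt_of_pos _ hm1,
    Int.emod_nonneg _ hm0, Int.emod_lt_of_pos _ hm1⟩, ?_⟩
  have h := ((mem_Box hC).1 hx).2.2.2.2
  rw [det] at h ⊢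
  simp only
  have e : x.1.re % m * (x.2.im % m) - x.1.im % m * (x.2.re % m) - 1 =
      -((x.1.re - x.1.re % m) * x.2.im) - x.1.re % m * (x.2.im - x.2.im % m) +
        (x.1.im - x.1.im % m) * x.2.re + x.1.im % m * (x.2.re - x.2.re % m) := by
    linear_combination h
  rw [e]
  exact (((((dvd_sub_emod m _).mul_right _).neg_right).sub ((dvd_sub_emod m _).mul_left _)).add
    ((dvd_sub_emod m _).mul_right _)).add ((dvd_sub_emod m _).mul_left _)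

lemma fiber_eq {C D m : ℕ} {κ : GI × GI} (hκ : κ ∈ cls m) :
    (Box C D).filter (fun x => red m x = κ) = Cl C D m κ.1.re κ.1.im κ.2.re κ.2.im := by
  rw [cls, mem_filter, mem_product, mem_Sqr, mem_Sqr] at hκ
  obtain ⟨⟨⟨h1, h2, h3, h4⟩, h5, h6, h7, h8⟩, -⟩ := hκ
  rw [zero_add] at h2 h4 h6 h8
  rw [Cl]
  refine filter_congr fun x _ => ?_
  rw [← emod_iff h1 h2, ← emod_iff h3 h4, ← emod_iff h5 h6, ← emod_iff h7 h8, Prod.ext_iff,
    Zsqrtd.ext_iff, Zsqrtd.ext_iff, and_assoc]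
  rfl

lemma diff_le (hK : KlStmt) : ∃ K : ℝ, ∀ C D m : ℕ, 1 ≤ C → 1 ≤ D → 1 ≤ m →
    ∀ κ ∈ cls m, ∀ κ' ∈ cls m,
      |(((Box C D).filter fun x => red m x = κ).card : ℝ) -
        ((Box C D).filter fun x => red m x = κ').card| ≤
        K * (m : ℝ) ^ 2 * (C + D) * (C : ℝ) ^ (4 / 5 : ℝ) := by
  obtain ⟨K, h⟩ := numeric
  refine ⟨K, fun C D m hC hD hm κ hκ κ' hκ' => ?_⟩
  obtain ⟨W, L, hW0, hL0, hW, hL, h⟩ := h C D m hC hD hm
  have key : ∀ κ ∈ cls m, |(((Box C D).filter fun x => red m x = κ).card : ℝ) -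
      (4 * C + 1) * (2 * D + 1) / (m : ℝ) ^ 2 * MT C m κ.1.im.toNat| ≤
      W * L * (4 * C + 2 * D + 2 + C * L) := by
    intro κ hκ
    have h1 := mem_cls hκ
    rw [fiber_eq hκ]
    rw [cls, mem_filter, mem_product, mem_Sqr] at hκ
    have e1 := Int.toNat_of_nonneg hκ.1.1.1
    have e2 := Int.toNat_of_nonneg hκ.1.1.2.2.1
    have h2 := class_count hK (D := D) (a0 := κ.1.re.toNat) (c0 := κ.1.im.toNat) (b0 := κ.2.re)
      (d0 := κ.2.im) hC hm (by rw [e1, e2]; exact h1) hW0 hL0 hW hL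
    rwa [e1, e2] at h2
  refine le_trans ?_ h
  have h1 := key κ hκ
  have h2 := key κ' hκ'
  have h3 := MT_diff hC hm κ.1.im.toNat κ'.1.im.toNat
  have h4 : (0 : ℝ) ≤ (4 * C + 1) * (2 * D + 1) / (m : ℝ) ^ 2 := by positivity
  have h5 := mul_le_mul_of_nonneg_left h3 h4
  rw [← abs_of_nonneg h4, ← abs_mul, abs_of_nonneg h4, mul_sub] at h5
  rw [abs_le] at h1 h2 h5 ⊢
  constructor <;> linarith [h1.1, h1.2, h2.1, h2.2, h5.1, h5.2]

lemma avg_bound {ι : Type*} (s : Finset ι) (hs : s.Nonempty) (φ N : ι → ℝ) {E : ℝ}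
    (hφ : ∀ i, 0 ≤ φ i ∧ φ i ≤ 1) (h : ∀ i ∈ s, ∀ j ∈ s, |N i - N j| ≤ E) :
    |∑ i ∈ s, N i * φ i - (∑ i ∈ s, N i) * ((∑ i ∈ s, φ i) / s.card)| ≤ s.card * E := by
  have hc : (0 : ℝ) < s.card := by exact_mod_cast hs.card_pos
  have e : ∑ i ∈ s, N i * φ i - (∑ i ∈ s, N i) * ((∑ i ∈ s, φ i) / s.card) =
      ∑ i ∈ s, φ i * ((∑ j ∈ s, (N i - N j)) / s.card) := by
    rw [sum_div, mul_sum, ← sum_sub_distrib]
    refine sum_congr rfl fun i _ => ?_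
    rw [sum_sub_distrib, sum_const, nsmul_eq_mul]
    field_simp
  rw [e]
  refine (abs_sum_le_sum_abs _ _).trans ?_
  rw [← nsmul_eq_mul]
  refine sum_le_card_nsmul _ _ _ fun i hi => ?_
  have h1 : |(∑ j ∈ s, (N i - N j)) / s.card| ≤ E := by
    rw [abs_div, abs_of_pos hc, div_le_iff₀ hc, mul_comm, ← nsmul_eq_mul]
    exact (abs_sum_le_sum_abs _ _).trans (sum_le_card_nsmul _ _ _ fun j hj => h i hi j hj)
  rw [abs_mul, abs_of_nonneg (hφ i).1]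
  exact (mul_le_of_le_one_left (abs_nonneg _) (hφ i).2).trans h1

end B3b

open B3b in
theorem B3b (h : KlStmt) : EqStmt := by
  obtain ⟨K, hK⟩ := diff_le h
  refine ⟨K, fun C D m hC hD hm φ hφ h01 => ?_⟩
  have hmaps : ∀ x ∈ Box C D, red m x ∈ cls m := fun x hx => red_mem hC hm hx
  have e1 : ∑ x ∈ Box C D, φ x =
      ∑ κ ∈ cls m, (((Box C D).filter fun x => red m x = κ).card : ℝ) * φ κ := by
    rw [← sum_fiberwise_of_maps_to hmaps]
    refine sum_congr rfl fun κ _ => ?_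
    rw [← nsmul_eq_mul, ← sum_const]
    refine sum_congr rfl fun x hx => ?_
    rw [← (mem_filter.1 hx).2]
    exact hφ _ _ (gdvd (dvd_sub_emod _ _) (dvd_sub_emod _ _))
      (gdvd (dvd_sub_emod _ _) (dvd_sub_emod _ _))
  have e2 : ((Box C D).card : ℝ) =
      ∑ κ ∈ cls m, (((Box C D).filter fun x => red m x = κ).card : ℝ) := by
    rw [card_eq_sum_card_fiberwise (f := red m) (t := cls m) fun x hx => hmaps x hx]
    push_cast
    rfl
  rw [e1, e2, Em]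
  refine (avg_bound _ (cls_nonempty hm) φ _ h01 (hK C D m hC hD hm)).trans ?_
  obtain ⟨κ, hκ⟩ := cls_nonempty hm
  have h0 := (abs_nonneg _).trans (hK C D m hC hD hm κ hκ κ hκ)
  have h1 : ((cls m).card : ℝ) ≤ (m : ℝ) ^ 4 := by
    have : (cls m).card ≤ (Sqr 0 0 m ×ˢ Sqr 0 0 m).card := card_filter_le _ _
    rw [card_product, card_Sqr] at this
    calc ((cls m).card : ℝ) ≤ ((m ^ 2 * m ^ 2 : ℕ) : ℝ) := by exact_mod_cast this
      _ = _ := by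
        push_cast
        ring
  calc _ ≤ (m : ℝ) ^ 4 * (K * (m : ℝ) ^ 2 * (C + D) * (C : ℝ) ^ (4 / 5 : ℝ)) := by gcongr
    _ = _ := by ring

end Pool.Agent.Lib.LQ
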