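import Pool.Agent.Lib.LQ.Basic

set_option autoImplicit false

open Finset
open scoped Classical

noncomputable section

namespace Pool.Agent.Lib.LQ

namespace B3b

variable {n : ℕ} [NeZero n]

lemma norm_char (x : ZMod n) : ‖(ZMod.stdAddChar x : ℂ)‖ = 1 := by
  rw [ZMod.stdAddChar_apply]
  exact Circle.norm_coe _

lemma sin_lower {r n : ℕ} (hr : r ≤ n) (hn : 0 < n) :
    2 * (min (r : ℝ) (n - r)) / n ≤ Real.sin (Real.pi * r / n) := by
  have hn' : (0 : ℝ) < n := by exact_mod_cast hn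
  have hr' : (r : ℝ) ≤ n := by exact_mod_cast hr
  have hr0 : (0 : ℝ) ≤ r := Nat.cast_nonneg r
  have key : ∀ x : ℝ, 0 ≤ x → 2 * x ≤ n → 2 * x / n ≤ Real.sin (Real.pi * x / n) := by
    intro x hx h2
    have h := Real.mul_le_sin (x := Real.pi * x / n) (by positivity) (by
      rw [div_le_div_iff₀ hn' (by norm_num)]
      nlinarith [Real.pi_pos])
    have e : 2 / Real.pi * (Real.pi * x / n) = 2 * x / n := by
      field_simp
    rwa [e] at h
  rcases le_total (r : ℝ) (n - r) with h | h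
  · rw [min_eq_left h]
    exact key r hr0 (by linarith)
  · rw [min_eq_right h]
    have h1 := key (n - r) (by linarith) (by linarith)
    have e : Real.pi * (n - r) / n = Real.pi - Real.pi * r / n := by
      field_simp
    rwa [e, Real.sin_pi_sub] at h1

lemma char_sub_one (h : ZMod n) :
    4 * (min (h.val : ℝ) (n - h.val)) / n ≤ ‖(ZMod.stdAddChar h : ℂ) - 1‖ := by
  have e : (ZMod.stdAddChar h : ℂ) = Complex.exp (Complex.I * ((2 * Real.pi * h.val / n : ℝ) : ℂ)) := by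
    rw [ZMod.stdAddChar_apply, ZMod.toCircle_apply]
    congr 1
    push_cast
    ring
  rw [e, Complex.norm_exp_I_mul_ofReal_sub_one]
  have h1 := sin_lower (ZMod.val_lt h).le (NeZero.pos n)
  have e2 : 2 * Real.pi * h.val / n / 2 = Real.pi * h.val / n := by ring
  rw [e2, Real.norm_eq_abs]
  have e3 : 4 * (min (h.val : ℝ) (n - h.val)) / n = 2 * (2 * (min (h.val : ℝ) (n - h.val)) / n) := by
    ring
  rw [e3]
  exact le_trans (by linarith) (le_abs_self _)

/-- exponential sum over an interval -/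
def FF (s : ℤ) (A : ℕ) (h : ZMod n) : ℂ :=
  ∑ a ∈ Ico s (s + A), ZMod.stdAddChar (h * (a : ZMod n))

lemma FF_zero (s : ℤ) (A : ℕ) : FF (n := n) s A 0 = A := by
  simp [FF]

lemma FF_le (s : ℤ) (A : ℕ) {h : ZMod n} (h0 : h ≠ 0) :
    ‖FF s A h‖ ≤ (n : ℝ) / 2 * (1 / h.val + 1 / (n - h.val)) := by
  have hr0 : (0 : ℝ) < h.val := by
    exact_mod_cast Nat.pos_of_ne_zero (fun e => h0 ((ZMod.val_eq_zero h).1 e))
  have hr1 : (0 : ℝ) < n - h.val := by
    have : (h.val : ℝ) < n := by exact_mod_cast ZMod.val_lt h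
    linarith
  have hn : (0 : ℝ) < n := by linarith
  have hm : 0 < min (h.val : ℝ) (n - h.val) := lt_min hr0 hr1
  set z : ℂ := ZMod.stdAddChar h with hz
  have hlow := char_sub_one h
  rw [← hz] at hlow
  have hpos : 0 < 4 * (min (h.val : ℝ) (n - h.val)) / n := by positivity
  have hz1 : z ≠ 1 := by
    intro e
    rw [e, sub_self, norm_zero] at hlow
    linarith
  have e : FF s A h = ZMod.stdAddChar (h * (s : ZMod n)) * ∑ i ∈ range A, z ^ i := by
    rw [FF, Int.Ico_eq_finset_map, sum_map, mul_sum]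
    have : (s + A - s).toNat = A := by simp
    rw [this]
    refine sum_congr rfl fun i _ => ?_
    rw [hz, ← AddChar.map_nsmul_eq_pow, ← AddChar.map_add_eq_mul]
    congr 1
    simp
    ring
  rw [e, norm_mul, norm_char, one_mul, geom_sum_eq hz1, norm_div]
  have h2 : ‖z ^ A - 1‖ ≤ 2 := by
    refine (norm_sub_le _ _).trans ?_
    rw [norm_pow, hz, norm_char]
    norm_num
  calc ‖z ^ A - 1‖ / ‖z - 1‖ ≤ 2 / (4 * (min (h.val : ℝ) (n - h.val)) / n) := by
        gcongr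
    _ = (n : ℝ) / 2 * (1 / min (h.val : ℝ) (n - h.val)) := by
        field_simp
        norm_num
    _ ≤ _ := by
        gcongr
        rcases le_total (h.val : ℝ) (n - h.val) with h' | h'
        · rw [min_eq_left h']
          have : 0 < 1 / ((n : ℝ) - h.val) := by positivity
          linarith
        · rw [min_eq_right h']
          have : 0 < 1 / (h.val : ℝ) := by positivity
          linarith

lemma harm_le (N : ℕ) : ∑ k ∈ Icc 1 N, 1 / (k : ℝ) ≤ 1 + Real.log N := by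
  have h := harmonic_le_one_add_log N
  rw [harmonic_eq_sum_Icc] at h
  push_cast at h
  simpa [one_div] using h

lemma gcd_sum (N : ℕ) (hN : 0 < N) :
    ∑ r ∈ Ico 1 N, (Nat.gcd r N : ℝ) / r ≤ N.divisors.card * (1 + Real.log N) := by
  let f : ℕ → ℕ × ℕ := fun r => (Nat.gcd r N, r / Nat.gcd r N)
  have hinj : Set.InjOn f (Ico 1 N : Finset ℕ) := by
    intro r _ r' _ e
    have e1 : Nat.gcd r N = Nat.gcd r' N := congrArg Prod.fst e
    have e2 : r / Nat.gcd r N = r' / Nat.gcd r' N := congrArg Prod.snd e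
    rw [← Nat.mul_div_cancel' (Nat.gcd_dvd_left r N), ← Nat.mul_div_cancel' (Nat.gcd_dvd_left r' N),
      e2]
    congr 1
  calc ∑ r ∈ Ico 1 N, (Nat.gcd r N : ℝ) / r = ∑ r ∈ Ico 1 N, 1 / ((f r).2 : ℝ) := by
        refine sum_congr rfl fun r hr => ?_
        have hg : 0 < Nat.gcd r N := Nat.gcd_pos_of_pos_right r hN
        have hg' : (Nat.gcd r N : ℝ) ≠ 0 := by positivity
        simp only [f]
        rw [Nat.cast_div (Nat.gcd_dvd_left r N) hg', one_div_div]
    _ = ∑ y ∈ (Ico 1 N).image f, 1 / (y.2 : ℝ) :=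
        (sum_image (f := fun y : ℕ × ℕ => 1 / (y.2 : ℝ)) hinj).symm
    _ ≤ ∑ y ∈ N.divisors ×ˢ Icc 1 N, 1 / (y.2 : ℝ) := by
        refine sum_le_sum_of_subset_of_nonneg ?_ fun _ _ _ => by positivity
        intro y hy
        obtain ⟨r, hr, rfl⟩ := mem_image.1 hy
        rw [mem_Ico] at hr
        have hg : 0 < Nat.gcd r N := Nat.gcd_pos_of_pos_right r hN
        simp only [f, mem_product, Nat.mem_divisors, mem_Icc]
        refine ⟨⟨Nat.gcd_dvd_right r N, hN.ne'⟩, ?_, (Nat.div_le_self _ _).trans hr.2.le⟩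
        exact Nat.div_pos (Nat.gcd_le_left _ hr.1) hg
    _ = N.divisors.card * ∑ k ∈ Icc 1 N, 1 / (k : ℝ) := by
        rw [sum_product]
        simp
    _ ≤ _ := by
        gcongr
        exact harm_le N

lemma FF_gcd_sum (s : ℤ) (A : ℕ) :
    ∑ h ∈ (univ : Finset (ZMod n)).erase 0, ‖FF s A h‖ * Nat.gcd h.val n ≤
      n * (n.divisors.card * (1 + Real.log n)) := by
  have hn : 0 < n := NeZero.pos n
  have h1 : ∑ h ∈ (univ : Finset (ZMod n)).erase 0, ‖FF s A h‖ * Nat.gcd h.val n ≤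
      ∑ h ∈ (univ : Finset (ZMod n)).erase 0,
        (n : ℝ) / 2 * (1 / h.val + 1 / (n - h.val)) * Nat.gcd h.val n := by
    refine sum_le_sum fun h hh => ?_
    gcongr
    exact FF_le s A (ne_of_mem_erase hh)
  have h2 : ∑ h ∈ (univ : Finset (ZMod n)).erase 0,
        (n : ℝ) / 2 * (1 / h.val + 1 / (n - h.val)) * Nat.gcd h.val n =
      ∑ r ∈ Ico 1 n, (n : ℝ) / 2 * (1 / r + 1 / (n - r)) * Nat.gcd r n := by
    refine sum_nbij (fun h => h.val) ?_ ?_ ?_ (fun _ _ => rfl)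
    · intro h hh
      rw [mem_Ico]
      exact ⟨Nat.pos_of_ne_zero (fun e => ne_of_mem_erase hh ((ZMod.val_eq_zero h).1 e)),
        ZMod.val_lt h⟩
    · intro a _ b _ e
      exact ZMod.val_injective n e
    · intro r hr
      rw [coe_Ico, Set.mem_Ico] at hr
      refine ⟨(r : ZMod n), ?_, ZMod.val_cast_of_lt hr.2⟩
      rw [mem_coe, mem_erase]
      refine ⟨fun e => ?_, mem_univ _⟩
      have := congrArg ZMod.val e
      rw [ZMod.val_cast_of_lt hr.2, ZMod.val_zero] at this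
      omega
  have h3 : ∑ r ∈ Ico 1 n, (Nat.gcd r n : ℝ) / (n - r) = ∑ r ∈ Ico 1 n, (Nat.gcd r n : ℝ) / r := by
    refine sum_nbij' (fun r => n - r) (fun r => n - r) ?_ ?_ ?_ ?_ ?_
    · intro r hr
      rw [mem_Ico] at hr ⊢
      omega
    · intro r hr
      rw [mem_Ico] at hr ⊢
      omega
    · intro r hr
      rw [mem_Ico] at hr
      omega
    · intro r hr
      rw [mem_Ico] at hr
      omega
    · intro r hr
      rw [mem_Ico] at hr
      rw [Nat.gcd_self_sub_left hr.2.le, Nat.cast_sub hr.2.le]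
  have h4 : ∑ r ∈ Ico 1 n, (n : ℝ) / 2 * (1 / r + 1 / (n - r)) * Nat.gcd r n =
      n * ∑ r ∈ Ico 1 n, (Nat.gcd r n : ℝ) / r := by
    have : ∀ r ∈ Ico 1 n, (n : ℝ) / 2 * (1 / r + 1 / (n - r)) * Nat.gcd r n =
        (n : ℝ) / 2 * ((Nat.gcd r n : ℝ) / r) + (n : ℝ) / 2 * ((Nat.gcd r n : ℝ) / (n - r)) := by
      intro r _
      ring
    rw [sum_congr rfl this, sum_add_distrib, ← mul_sum, ← mul_sum, h3]
    ring
  rw [h2, h4] at h1
  refine h1.trans ?_
  gcongr
  exact gcd_sum n hn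

lemma gcd_le_of {m : ℕ} (hm : 0 < m) {u h : ZMod n} (e : (m : ZMod n) * u = -((m : ZMod n) * h)) :
    Nat.gcd u.val n ≤ m * Nat.gcd h.val n := by
  have hn : 0 < n := NeZero.pos n
  have h1 : n ∣ m * u.val + m * h.val := by
    rw [← ZMod.natCast_eq_zero_iff]
    push_cast
    rw [ZMod.natCast_zmod_val, ZMod.natCast_zmod_val, e]
    ring
  have h2 : Nat.gcd u.val n ∣ m * h.val :=
    (Nat.dvd_add_right ((Nat.gcd_dvd_left _ _).mul_left m)).1 ((Nat.gcd_dvd_right _ _).trans h1)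
  have h3 : Nat.gcd u.val n ∣ m * Nat.gcd h.val n := by
    rw [← Nat.gcd_mul_left]
    exact Nat.dvd_gcd h2 ((Nat.gcd_dvd_right _ _).mul_left m)
  exact Nat.le_of_dvd (Nat.mul_pos hm (Nat.gcd_pos_of_pos_right _ hn)) h3

/-- the restricted Kloosterman sum -/
def KK (c a0 e h j : ZMod n) : ℂ :=
  ∑ x : (ZMod n)ˣ, if c * ((x : ZMod n) - a0) = 0 then
    ZMod.stdAddChar (-h * (x : ZMod n) + -(j * e) * ((x⁻¹ : (ZMod n)ˣ) : ZMod n)) else 0

lemma sum_range_char {m : ℕ} (y : ZMod n) (hy : (m : ZMod n) * y = 0) :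
    ∑ k ∈ range m, (ZMod.stdAddChar ((k : ZMod n) * y) : ℂ) = if y = 0 then (m : ℂ) else 0 := by
  split_ifs with h
  · simp [h]
  · have hz : (ZMod.stdAddChar y : ℂ) ≠ 1 := by
      intro e
      apply h
      apply ZMod.injective_stdAddChar
      rw [e, AddChar.map_zero_eq_one]
    have : ∀ k ∈ range m, (ZMod.stdAddChar ((k : ZMod n) * y) : ℂ) = ZMod.stdAddChar y ^ k := by
      intro k _
      rw [← AddChar.map_nsmul_eq_pow, nsmul_eq_mul]
    rw [sum_congr rfl this, geom_sum_eq hz, ← AddChar.map_nsmul_eq_pow, nsmul_eq_mul, hy]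
    simp

lemma KK_le {m : ℕ} (hm : 0 < m) {c : ZMod n} (hc : (m : ZMod n) * c = 0) (a0 e h j : ZMod n)
    {X : ℝ} (hX : ∀ k : ℕ, ‖∑ x : (ZMod n)ˣ, (ZMod.stdAddChar ((-h + (k : ZMod n) * c) * (x : ZMod n) +
      -(j * e) * ((x⁻¹ : (ZMod n)ˣ) : ZMod n)) : ℂ)‖ ≤ X) : ‖KK c a0 e h j‖ ≤ X := by
  have e1 : (m : ℂ) * KK c a0 e h j = ∑ k ∈ range m, ZMod.stdAddChar (-((k : ZMod n) * c * a0)) *
      ∑ x : (ZMod n)ˣ, (ZMod.stdAddChar ((-h + (k : ZMod n) * c) * (x : ZMod n) +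
      -(j * e) * ((x⁻¹ : (ZMod n)ˣ) : ZMod n)) : ℂ) := by
    simp only [KK, mul_sum]
    rw [sum_comm]
    refine sum_congr rfl fun x _ => ?_
    have h1 := sum_range_char (m := m) (c * ((x : ZMod n) - a0)) (by rw [← mul_assoc, hc, zero_mul])
    have h2 : ∀ k ∈ range m, (ZMod.stdAddChar (-((k : ZMod n) * c * a0)) : ℂ) *
        ZMod.stdAddChar ((-h + (k : ZMod n) * c) * (x : ZMod n) + -(j * e) * ((x⁻¹ : (ZMod n)ˣ) : ZMod n)) =
        ZMod.stdAddChar ((k : ZMod n) * (c * ((x : ZMod n) - a0))) *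
        ZMod.stdAddChar (-h * (x : ZMod n) + -(j * e) * ((x⁻¹ : (ZMod n)ˣ) : ZMod n)) := by
      intro k _
      rw [← AddChar.map_add_eq_mul, ← AddChar.map_add_eq_mul]
      congr 1
      ring
    rw [sum_congr rfl h2, ← sum_mul, h1]
    split_ifs <;> simp
  have hm' : (0 : ℝ) < m := by exact_mod_cast hm
  have h2 : (m : ℝ) * ‖KK c a0 e h j‖ ≤ m * X := by
    have : (m : ℝ) * ‖KK c a0 e h j‖ = ‖(m : ℂ) * KK c a0 e h j‖ := by simp
    rw [this, e1]
    refine (norm_sum_le _ _).trans ?_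
    calc _ ≤ ∑ _k ∈ range m, X := by
          refine sum_le_sum fun k _ => ?_
          rw [norm_mul, norm_char, one_mul]
          exact hX k
      _ = m * X := by simp
  exact le_of_mul_le_mul_left h2 hm'

lemma root_le {S Z W : ℝ} {g G m : ℕ} (hS : S ^ 4 ≤ Z * g) (hZ : 0 ≤ Z) (hg : g ≤ m * G)
    (hG : 0 < G) (hW0 : 0 ≤ W) (hW : Z * m ≤ W ^ 4) : S ≤ W * G := by
  have hG1 : (1 : ℝ) ≤ G := by exact_mod_cast hG
  have hg' : (g : ℝ) ≤ m * G := by exact_mod_cast hg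
  refine le_of_pow_le_pow_left₀ (n := 4) (by norm_num) (by positivity) ?_
  calc S ^ 4 ≤ Z * (m * G) := hS.trans (by gcongr)
    _ = Z * m * G := by ring
    _ ≤ W ^ 4 * G ^ 4 := by
        gcongr
        exact le_self_pow₀ hG1 (by norm_num)
    _ = (W * G) ^ 4 := by ring

lemma KK_bound (hK : KlStmt) {m : ℕ} (hm : 0 < m) {c : ZMod n} (hc : (m : ZMod n) * c = 0)
    (a0 b h j : ZMod n) {W : ℝ} (hW0 : 0 ≤ W)
    (hW : 2 * (n : ℝ) ^ 3 * (n.divisors.card : ℝ) ^ 3 * m ≤ W ^ 4) :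
    ‖KK c a0 (1 + b * c) h j‖ ≤ W * Nat.gcd h.val n ∧
      ‖KK c a0 (1 + b * c) h j‖ ≤ W * Nat.gcd j.val n := by
  have hn : 0 < n := NeZero.pos n
  have hZ : 0 ≤ 2 * (n : ℝ) ^ 3 * (n.divisors.card : ℝ) ^ 3 := by positivity
  constructor
  · refine KK_le hm hc _ _ _ _ fun k => ?_
    refine root_le (g := Nat.gcd (-h + (k : ZMod n) * c).val n) ((hK n _ _).trans ?_) hZ
      (gcd_le_of hm ?_) (Nat.gcd_pos_of_pos_right _ hn) hW0 hW
    · gcongr
      exact_mod_cast min_le_left _ _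
    · linear_combination (k : ZMod n) * hc
  · refine KK_le hm hc _ _ _ _ fun k => ?_
    refine root_le (g := Nat.gcd (-(j * (1 + b * c))).val n) ((hK n _ _).trans ?_) hZ
      (gcd_le_of hm ?_) (Nat.gcd_pos_of_pos_right _ hn) hW0 hW
    · gcongr
      exact_mod_cast min_le_right _ _
    · linear_combination (-(j * b)) * hc

lemma ind_eq_sum (y : ZMod n) :
    (if y = 0 then (1 : ℂ) else 0) = (n : ℂ)⁻¹ * ∑ h : ZMod n, ZMod.stdAddChar (h * y) := by
  have hn : (n : ℂ) ≠ 0 := by exact_mod_cast NeZero.ne n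
  rw [AddChar.sum_mulShift y (ZMod.isPrimitive_stdAddChar n), ZMod.card]
  split_ifs <;> simp [hn]

lemma pair_ind (c a0 e a d : ZMod n) (hunit : c * (a - a0) = 0 → a * d = e → IsUnit a) :
    (if c * (a - a0) = 0 ∧ a * d = e then (1 : ℂ) else 0) =
      ∑ x : (ZMod n)ˣ, if c * ((x : ZMod n) - a0) = 0 then
        (if a - x = 0 then (1 : ℂ) else 0) *
          (if d - e * ((x⁻¹ : (ZMod n)ˣ) : ZMod n) = 0 then (1 : ℂ) else 0) else 0 := by
  by_cases ha : IsUnit a
  · obtain ⟨x0, rfl⟩ := ha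
    rw [sum_eq_single x0]
    · have e1 : (d - e * ((x0⁻¹ : (ZMod n)ˣ) : ZMod n) = 0) ↔ ((x0 : ZMod n) * d = e) := by
        constructor
        · intro h
          have : d = e * ((x0⁻¹ : (ZMod n)ˣ) : ZMod n) := sub_eq_zero.1 h
          rw [this, mul_comm e, ← mul_assoc, Units.mul_inv, one_mul]
        · intro h
          rw [← h, mul_comm (x0 : ZMod n), mul_assoc, Units.mul_inv, mul_one, sub_self]
      by_cases h1 : c * ((x0 : ZMod n) - a0) = 0 <;> by_cases h2 : (x0 : ZMod n) * d = e <;>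
        simp [h1, h2, e1]
    · intro x _ hx
      have : ¬ ((x0 : ZMod n) - x = 0) := fun h => hx (Units.ext (sub_eq_zero.1 h).symm)
      simp [this]
    · simp
  · rw [if_neg (fun h => ha (hunit h.1 h.2))]
    symm
    refine sum_eq_zero fun x _ => ?_
    have : ¬ (a - x = 0) := fun h => ha (sub_eq_zero.1 h ▸ x.isUnit)
    simp [this]

lemma count_eq (c a0 e : ZMod n) (hunit : ∀ a d, c * (a - a0) = 0 → a * d = e → IsUnit a)
    (s s' : ℤ) (A B : ℕ) :
    (((Ico s (s + A) ×ˢ Ico s' (s' + B)).filter fun y : ℤ × ℤ =>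
      c * ((y.1 : ZMod n) - a0) = 0 ∧ (y.1 : ZMod n) * y.2 = e).card : ℂ) =
      ((n : ℂ) ^ 2)⁻¹ * ∑ h : ZMod n, ∑ j : ZMod n, FF s A h * FF s' B j * KK c a0 e h j := by
  have h1 : ∀ a d : ZMod n, (if c * (a - a0) = 0 ∧ a * d = e then (1 : ℂ) else 0) =
      ((n : ℂ) ^ 2)⁻¹ * ∑ h : ZMod n, ∑ j : ZMod n,
        ZMod.stdAddChar (h * a) * ZMod.stdAddChar (j * d) * KK c a0 e h j := by
    intro a d
    rw [pair_ind c a0 e a d (hunit a d)]
    simp only [KK, mul_sum]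
    symm
    rw [sum_congr rfl fun h _ => sum_comm, sum_comm]
    refine sum_congr rfl fun x _ => ?_
    by_cases hx : c * ((x : ZMod n) - a0) = 0
    · simp only [if_pos hx]
      rw [ind_eq_sum (a - (x : ZMod n)), ind_eq_sum (d - e * ((x⁻¹ : (ZMod n)ˣ) : ZMod n)), mul_mul_mul_comm,
        sum_mul_sum, mul_sum]
      refine sum_congr rfl fun h _ => ?_
      rw [mul_sum]
      refine sum_congr rfl fun j _ => ?_
      rw [← AddChar.map_add_eq_mul, ← AddChar.map_add_eq_mul, ← AddChar.map_add_eq_mul, sq, mul_inv]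
      congr 2
      ring
    · simp [hx]
  rw [card_filter]
  push_cast
  rw [sum_product]
  simp only [h1, FF, ← mul_sum]
  congr 1
  simp only [sum_mul, mul_sum]
  rw [sum_congr rfl fun a _ => sum_comm, sum_comm]
  refine sum_congr rfl fun h _ => ?_
  rw [sum_congr rfl fun a _ => sum_comm, sum_comm]
  refine sum_congr rfl fun j _ => ?_
  rw [sum_comm]

/-- number of units in the class -/
def UU (c a0 : ZMod n) : ℕ := (univ.filter fun x : (ZMod n)ˣ => c * ((x : ZMod n) - a0) = 0).card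

lemma KK_zero (c a0 e : ZMod n) : KK c a0 e 0 0 = UU c a0 := by
  simp [KK, UU]

lemma core (hK : KlStmt) {m : ℕ} (hm : 0 < m) {c : ZMod n} (hc : (m : ZMod n) * c = 0)
    (a0 b : ZMod n) (hunit : ∀ a d, c * (a - a0) = 0 → a * d = 1 + b * c → IsUnit a)
    (s s' : ℤ) (A B : ℕ) {W L : ℝ} (hW0 : 0 ≤ W)
    (hW : 2 * (n : ℝ) ^ 3 * (n.divisors.card : ℝ) ^ 3 * m ≤ W ^ 4)
    (hL : n.divisors.card * (1 + Real.log n) ≤ L) :
    |(((Ico s (s + A) ×ˢ Ico s' (s' + B)).filter fun y : ℤ × ℤ =>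
      c * ((y.1 : ZMod n) - a0) = 0 ∧ (y.1 : ZMod n) * y.2 = 1 + b * c).card : ℝ) -
      (A : ℝ) * B * UU c a0 / (n : ℝ) ^ 2| ≤ W * L * ((A + B) / n + L) := by
  have hn : (0 : ℝ) < n := by exact_mod_cast NeZero.pos n
  have hL0 : 0 ≤ L := by
    refine le_trans ?_ hL
    have := Real.log_natCast_nonneg n
    positivity
  set e := 1 + b * c with he
  set T := ∑ h ∈ (univ : Finset (ZMod n)).erase 0, FF s A h * FF s' B (0 : ZMod n) * KK c a0 e h 0 +
    ∑ h : ZMod n, ∑ j ∈ (univ : Finset (ZMod n)).erase 0, FF s A h * FF s' B j * KK c a0 e h j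
    with hT
  have e1 : ∑ h : ZMod n, ∑ j : ZMod n, FF s A h * FF s' B j * KK c a0 e h j =
      (A : ℂ) * B * UU c a0 + T := by
    rw [sum_congr rfl fun h _ => (add_sum_erase univ _ (mem_univ (0 : ZMod n))).symm,
      sum_add_distrib, ← add_sum_erase univ _ (mem_univ (0 : ZMod n)), hT, FF_zero, FF_zero,
      KK_zero, add_assoc]
  have hF : ∀ (s : ℤ) (A : ℕ), ∑ h ∈ (univ : Finset (ZMod n)).erase 0,
      ‖FF s A h‖ * Nat.gcd h.val n ≤ n * L := fun s A =>
    (FF_gcd_sum s A).trans (by gcongr)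
  have hF1 : ∑ h : ZMod n, ‖FF s A h‖ ≤ A + n * L := by
    rw [← add_sum_erase univ _ (mem_univ (0 : ZMod n)), FF_zero, Complex.norm_natCast]
    gcongr
    refine le_trans (sum_le_sum fun h _ => ?_) (hF s A)
    have : (1 : ℝ) ≤ Nat.gcd h.val n := by
      exact_mod_cast Nat.gcd_pos_of_pos_right _ (NeZero.pos n)
    exact le_mul_of_one_le_right (norm_nonneg _) this
  have hT1 : ‖T‖ ≤ B * W * (n * L) + (A + n * L) * (W * (n * L)) := by
    refine (norm_add_le _ _).trans (add_le_add ?_ ?_)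
    · refine (norm_sum_le _ _).trans ?_
      refine le_trans ?_ (mul_le_mul_of_nonneg_left (hF s A) (by positivity))
      rw [mul_sum]
      refine sum_le_sum fun h _ => ?_
      rw [norm_mul, norm_mul, FF_zero, Complex.norm_natCast]
      calc ‖FF s A h‖ * B * ‖KK c a0 e h 0‖ ≤ ‖FF s A h‖ * B * (W * Nat.gcd h.val n) := by
            gcongr
            exact (KK_bound hK hm hc a0 b h 0 hW0 hW).1
        _ = _ := by ring
    · refine (norm_sum_le _ _).trans ?_
      refine le_trans ?_ (mul_le_mul_of_nonneg_right hF1 (by positivity))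
      rw [sum_mul]
      refine sum_le_sum fun h _ => ?_
      refine (norm_sum_le _ _).trans ?_
      refine le_trans ?_ (mul_le_mul_of_nonneg_left
        (mul_le_mul_of_nonneg_left (hF s' B) hW0) (norm_nonneg _))
      rw [mul_sum, mul_sum]
      refine sum_le_sum fun j _ => ?_
      rw [norm_mul, norm_mul]
      calc ‖FF s A h‖ * ‖FF s' B j‖ * ‖KK c a0 e h j‖ ≤
          ‖FF s A h‖ * ‖FF s' B j‖ * (W * Nat.gcd j.val n) := by
            gcongr
            exact (KK_bound hK hm hc a0 b h j hW0 hW).2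
        _ = _ := by ring
  have e2 := count_eq c a0 e hunit s s' A B
  rw [e1] at e2
  rw [← Real.norm_eq_abs, ← Complex.norm_real]
  push_cast
  rw [e2]
  have e3 : ((n : ℂ) ^ 2)⁻¹ * ((A : ℂ) * B * UU c a0 + T) - (A : ℂ) * B * UU c a0 / (n : ℂ) ^ 2 =
      ((n : ℂ) ^ 2)⁻¹ * T := by ring
  rw [e3, norm_mul, norm_inv, norm_pow, Complex.norm_natCast]
  calc ((n : ℝ) ^ 2)⁻¹ * ‖T‖ ≤ ((n : ℝ) ^ 2)⁻¹ * (B * W * (n * L) + (A + n * L) * (W * (n * L))) := by
        gcongr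
    _ = _ := by
        field_simp
        ring

end B3b

end Pool.Agent.Lib.LQ
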