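import Pool.Agent.Lib.LQ.B3bAux1

set_option autoImplicit false

open Finset
open scoped Classical

noncomputable section

namespace Pool.Agent.Lib.LQ

namespace B3b

open ArithmeticFunction

lemma crt {e m : ℕ} (h : Nat.Coprime e m) (a : ℕ) :
    ∃ r0 : ℕ, ∀ r : ℕ, (r ≡ a [MOD m] ∧ e ∣ r) ↔ r ≡ r0 [MOD (e * m)] := by
  obtain ⟨r0, h1, h2⟩ := Nat.chineseRemainder h 0 a
  refine ⟨r0, fun r => ?_⟩
  rw [← Nat.modEq_and_modEq_iff_modEq_mul h]
  constructor
  · rintro ⟨h3, h4⟩
    exact ⟨((Nat.modEq_zero_iff_dvd).2 h4).trans h1.symm, h3.trans h2.symm⟩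
  · rintro ⟨h3, h4⟩
    exact ⟨h4.trans h2, (Nat.modEq_zero_iff_dvd).1 (h3.trans h1)⟩

lemma moeb_ind (r c : ℕ) (hc : c ≠ 0) :
    (if Nat.Coprime r c then (1 : ℝ) else 0) =
      ∑ e ∈ c.divisors, if e ∣ r then (moebius e : ℝ) else 0 := by
  have h1 := congrArg (fun f : ArithmeticFunction ℝ => f (Nat.gcd r c))
    (coe_moebius_mul_coe_zeta (R := ℝ))
  simp only [coe_mul_zeta_apply, one_apply, intCoe_apply] at h1
  rw [← sum_filter, ← h1]
  congr 1
  ext e
  simp only [Nat.mem_divisors, mem_filter, Nat.dvd_gcd_iff]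
  have : Nat.gcd r c ≠ 0 := Nat.gcd_ne_zero_right hc
  tauto

/-- the density of units -/
def gf (m c : ℕ) : ℝ := ∑ e ∈ c.divisors, if Nat.Coprime e m then (moebius e : ℝ) / e else 0

lemma count_class {c m e a : ℕ} (hc : c ≠ 0) (hm : m ≠ 0) (he : e ∣ c) (ha : Nat.Coprime a m) :
    (((range (c * m)).filter fun r => r ≡ a [MOD m] ∧ e ∣ r).card : ℝ) =
      if Nat.Coprime e m then (c : ℝ) / e else 0 := by
  split_ifs with h
  · obtain ⟨r0, hr0⟩ := crt h a
    obtain ⟨k, rfl⟩ := he
    have he0 : e ≠ 0 := left_ne_zero_of_mul hc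
    have hpos : 0 < e * m := Nat.mul_pos (Nat.pos_of_ne_zero he0) (Nat.pos_of_ne_zero hm)
    simp only [hr0]
    rw [← Nat.count_eq_card_filter_range, Nat.count_modEq_card _ hpos]
    have e1 : e * k * m = e * m * k := by ring
    rw [e1, Nat.mul_mod_right, Nat.mul_div_cancel_left _ hpos]
    have : (e : ℝ) ≠ 0 := by exact_mod_cast he0
    simp
    field_simp
  · rw [Nat.cast_eq_zero, card_eq_zero, filter_eq_empty_iff]
    rintro r _ ⟨h1, h2⟩
    apply h
    have h3 : Nat.Coprime r m := by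
      rw [Nat.Coprime, h1.gcd_eq]
      exact ha
    exact Nat.Coprime.coprime_dvd_left h2 h3

lemma cond_iff {c m : ℕ} (hc : c ≠ 0) (x a : ℤ) :
    ((c : ZMod (c * m)) * ((x : ZMod (c * m)) - (a : ZMod (c * m))) = 0) ↔ (m : ℤ) ∣ x - a := by
  have : (c : ZMod (c * m)) * ((x : ZMod (c * m)) - (a : ZMod (c * m))) =
      (((c : ℤ) * (x - a) : ℤ) : ZMod (c * m)) := by push_cast; rfl
  rw [this, ZMod.intCast_zmod_eq_zero_iff_dvd]
  push_cast
  exact mul_dvd_mul_iff_left (by exact_mod_cast hc)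

lemma cond_iff' {c m : ℕ} (hc : c ≠ 0) (x a : ℕ) :
    ((c : ZMod (c * m)) * ((x : ZMod (c * m)) - (a : ZMod (c * m))) = 0) ↔ x ≡ a [MOD m] := by
  have h := cond_iff (m := m) hc (x : ℤ) (a : ℤ)
  simp only [Int.cast_natCast] at h
  rw [h, Nat.modEq_iff_dvd, ← dvd_neg, neg_sub]

lemma UU_eq {c m a : ℕ} [NeZero (c * m)] (ha : Nat.Coprime a m) :
    (UU (c : ZMod (c * m)) (a : ZMod (c * m)) : ℝ) = c * gf m c := by
  have hn : c * m ≠ 0 := NeZero.ne _
  have hc : c ≠ 0 := left_ne_zero_of_mul hn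
  have hm : m ≠ 0 := right_ne_zero_of_mul hn
  have h1 : UU (c : ZMod (c * m)) (a : ZMod (c * m)) =
      ((range (c * m)).filter fun r => r ≡ a [MOD m] ∧ Nat.Coprime r c).card := by
    refine card_nbij (fun x => (x : ZMod (c * m)).val) ?_ ?_ ?_
    · intro x hx
      rw [mem_coe, mem_filter] at hx ⊢
      refine ⟨mem_range.2 (ZMod.val_lt _), ?_, ?_⟩
      · rw [← cond_iff' hc, ZMod.natCast_zmod_val]
        exact hx.2
      · exact Nat.Coprime.coprime_mul_right_right (ZMod.val_coe_unit_coprime x)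
    · intro x _ y _ e
      exact Units.ext (ZMod.val_injective _ e)
    · intro r hr
      rw [mem_coe, mem_filter, mem_range] at hr
      have h3 : Nat.Coprime r m := by
        rw [Nat.Coprime, hr.2.1.gcd_eq]
        exact ha
      refine ⟨ZMod.unitOfCoprime r (hr.2.2.mul_right h3), ?_, ?_⟩
      · rw [mem_coe, mem_filter]
        refine ⟨mem_univ _, ?_⟩
        rw [ZMod.coe_unitOfCoprime, cond_iff' hc]
        exact hr.2.1
      · simp only [ZMod.coe_unitOfCoprime]
        exact ZMod.val_cast_of_lt hr.1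
  rw [h1, card_filter]
  push_cast
  have h2 : ∀ r ∈ range (c * m), (if r ≡ a [MOD m] ∧ Nat.Coprime r c then (1 : ℝ) else 0) =
      ∑ e ∈ c.divisors, (moebius e : ℝ) * if r ≡ a [MOD m] ∧ e ∣ r then 1 else 0 := by
    intro r _
    by_cases h : r ≡ a [MOD m]
    · simp only [h, true_and, moeb_ind r c hc]
      refine sum_congr rfl fun e _ => ?_
      split_ifs <;> simp
    · simp [h]
  rw [sum_congr rfl h2, sum_comm, gf, mul_sum]
  refine sum_congr rfl fun e he => ?_
  rw [← mul_sum]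
  have h3 := count_class hc hm (Nat.dvd_of_mem_divisors he) ha
  rw [card_filter] at h3
  push_cast at h3
  rw [h3]
  split_ifs
  · ring
  · simp

lemma ap_le {C q : ℕ} (hC : 1 ≤ C) (hq : 1 ≤ q) (r r' : ℕ) :
    ∑ c ∈ (Ico C (2 * C)).filter (fun c => c ≡ r' [MOD q]), 1 / (c : ℝ) ≤
      ∑ c ∈ (Ico C (2 * C)).filter (fun c => c ≡ r [MOD q]), 1 / (c : ℝ) + 1 / C := by
  have : NeZero q := ⟨by omega⟩
  obtain ⟨t, htq, ht⟩ : ∃ t < q, r + t ≡ r' [MOD q] := by
    refine ⟨((r' : ZMod q) - r).val, ZMod.val_lt _, ?_⟩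
    rw [← ZMod.natCast_eq_natCast_iff]
    push_cast
    rw [ZMod.natCast_zmod_val]
    ring
  have hC' : (0 : ℝ) < C := by exact_mod_cast hC
  set S' := (Ico C (2 * C)).filter (fun c => c ≡ r' [MOD q]) with hS'
  rw [← sum_filter_add_sum_filter_not S' (fun c => C + t ≤ c)]
  refine add_le_add ?_ ?_
  · have hinj : Set.InjOn (fun c => c - t) (S'.filter (fun c => C + t ≤ c) : Finset ℕ) := by
      intro a ha b hb e
      rw [mem_coe, mem_filter] at ha hb
      have := ha.2
      have := hb.2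
      simp only at e
      omega
    calc ∑ c ∈ S'.filter (fun c => C + t ≤ c), 1 / (c : ℝ)
        ≤ ∑ c ∈ S'.filter (fun c => C + t ≤ c), 1 / ((c - t : ℕ) : ℝ) := by
          refine sum_le_sum fun c hc => ?_
          rw [mem_filter] at hc
          have h1 : 0 < c - t := by omega
          have h2 : c - t ≤ c := by omega
          gcongr
      _ = ∑ y ∈ (S'.filter (fun c => C + t ≤ c)).image (fun c => c - t), 1 / (y : ℝ) :=
          (sum_image (f := fun y : ℕ => 1 / (y : ℝ)) hinj).symm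
      _ ≤ _ := by
          refine sum_le_sum_of_subset_of_nonneg ?_ fun _ _ _ => by positivity
          intro y hy
          obtain ⟨c, hc, rfl⟩ := mem_image.1 hy
          rw [mem_filter, hS', mem_filter, mem_Ico] at hc
          rw [mem_filter, mem_Ico]
          refine ⟨by omega, ?_⟩
          apply Nat.ModEq.add_right_cancel' t
          rw [Nat.sub_add_cancel (by omega)]
          exact hc.1.2.trans ht.symm
  · have h1 : (S'.filter (fun c => ¬ C + t ≤ c)).card ≤ 1 := by
      rw [card_le_one]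
      intro a ha b hb
      rw [mem_filter, hS', mem_filter, mem_Ico] at ha hb
      refine (ha.1.2.trans hb.1.2.symm).eq_of_abs_lt ?_
      rw [abs_lt]
      omega
    calc ∑ c ∈ S'.filter (fun c => ¬ C + t ≤ c), 1 / (c : ℝ)
        ≤ (S'.filter (fun c => ¬ C + t ≤ c)).card • (1 / (C : ℝ)) := by
          refine sum_le_card_nsmul _ _ _ fun c hc => ?_
          rw [mem_filter, hS', mem_filter, mem_Ico] at hc
          have := hc.1.1.1
          gcongr
      _ ≤ 1 / C := by
          rw [nsmul_eq_mul]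
          have : ((S'.filter (fun c => ¬ C + t ≤ c)).card : ℝ) ≤ 1 := by exact_mod_cast h1
          exact mul_le_of_le_one_left (by positivity) this

/-- the main term of a class -/
def MT (C m c0 : ℕ) : ℝ := ∑ c ∈ (Ico C (2 * C)).filter (fun c => c ≡ c0 [MOD m]), gf m c / c

lemma MT_eq {C : ℕ} (_hC : 1 ≤ C) (m c0 : ℕ) : MT C m c0 = ∑ e ∈ Icc 1 (2 * C),
    if Nat.Coprime e m then (moebius e : ℝ) / e *
      ∑ c ∈ (Ico C (2 * C)).filter (fun c => c ≡ c0 [MOD m] ∧ e ∣ c), 1 / (c : ℝ) else 0 := by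
  have h1 : ∀ c ∈ (Ico C (2 * C)).filter (fun c => c ≡ c0 [MOD m]), gf m c / c =
      ∑ e ∈ Icc 1 (2 * C), if e ∣ c then
        (if Nat.Coprime e m then (moebius e : ℝ) / e * (1 / c) else 0) else 0 := by
    intro c hc
    rw [mem_filter, mem_Ico] at hc
    rw [← sum_filter, gf, sum_div]
    refine sum_congr ?_ fun e _ => ?_
    · ext e
      simp only [Nat.mem_divisors, mem_filter, mem_Icc]
      constructor
      · rintro ⟨h, h0⟩
        have := Nat.le_of_dvd (Nat.pos_of_ne_zero h0) h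
        exact ⟨⟨Nat.pos_of_dvd_of_pos h (Nat.pos_of_ne_zero h0), by omega⟩, h⟩
      · rintro ⟨_, h⟩
        exact ⟨h, by omega⟩
    · split_ifs
      · ring
      · simp
  rw [MT, sum_congr rfl h1, sum_comm]
  refine sum_congr rfl fun e _ => ?_
  split_ifs with h
  · rw [← sum_filter, filter_filter, mul_sum]
  · simp

lemma MT_diff {C m : ℕ} (hC : 1 ≤ C) (hm : 1 ≤ m) (c0 c1 : ℕ) :
    |MT C m c0 - MT C m c1| ≤ (1 + Real.log (2 * C : ℕ)) / C := by
  rw [MT_eq hC, MT_eq hC, ← sum_sub_distrib]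
  refine (abs_sum_le_sum_abs _ _).trans ?_
  have hC' : (0 : ℝ) < C := by exact_mod_cast hC
  calc _ ≤ ∑ e ∈ Icc 1 (2 * C), 1 / (e : ℝ) * (1 / C) := by
        refine sum_le_sum fun e he => ?_
        have he1 : 1 ≤ e := (mem_Icc.1 he).1
        have he' : (0 : ℝ) < e := by exact_mod_cast he1
        split_ifs with h
        · obtain ⟨r0, hr0⟩ := crt h c0
          obtain ⟨r1, hr1⟩ := crt h c1
          simp only [hr0, hr1]
          have hq : 1 ≤ e * m := Nat.mul_pos he1 hm
          have h1 := ap_le hC hq r0 r1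
          have h2 := ap_le hC hq r1 r0
          rw [← mul_sub, abs_mul, abs_div, abs_of_pos he']
          have h3 : |(moebius e : ℝ)| ≤ 1 := by exact_mod_cast abs_moebius_le_one
          gcongr
          rw [abs_le]
          constructor <;> linarith
        · simp only [sub_self, abs_zero]
          positivity
    _ = (∑ e ∈ Icc 1 (2 * C), 1 / (e : ℝ)) / C := by
        rw [← sum_mul]
        ring
    _ ≤ _ := by
        gcongr
        exact harm_le _

end B3b

end Pool.Agent.Lib.LQ
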