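import Pool.Agent.Lib.LQ.Defs2

set_option autoImplicit false

open Finset
open scoped Classical

noncomputable section

namespace Pool.Agent.Lib.LQ

open Pool.Agent.Lib.MP_de94cf_nt (gg det inn)

namespace B4a

lemma memSqr {a b : ℤ} {L : ℕ} {α : GI} :
    α ∈ Sqr a b L ↔ a ≤ α.re ∧ α.re < a + L ∧ b ≤ α.im ∧ α.im < b + L := by
  unfold Sqr
  simp only [mem_image, mem_product, mem_Ico]
  constructor
  · rintro ⟨x, ⟨⟨h1, h2⟩, h3, h4⟩, rfl⟩
    exact ⟨h1, h2, h3, h4⟩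
  · rintro ⟨h1, h2, h3, h4⟩
    exact ⟨(α.re, α.im), ⟨⟨h1, h2⟩, h3, h4⟩, rfl⟩

lemma natDvd {m : ℕ} {α : GI} : (m : GI) ∣ α ↔ (m : ℤ) ∣ α.re ∧ (m : ℤ) ∣ α.im := by
  rw [← Int.cast_natCast, Zsqrtd.intCast_dvd]

/-- reduction of the coordinates -/
def red (m : ℕ) (α : GI) : GI := ⟨α.re % m, α.im % m⟩

def red2 (m : ℕ) (x : GI × GI) : GI × GI := (red m x.1, red m x.2)

def Cg (m : ℕ) (x y : GI × GI) : Prop := (m : GI) ∣ x.1 - y.1 ∧ (m : GI) ∣ x.2 - y.2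

lemma Cg.symm {m : ℕ} {x y : GI × GI} (h : Cg m x y) : Cg m y x :=
  ⟨dvd_sub_comm.1 h.1, dvd_sub_comm.1 h.2⟩

lemma Cg.trans {m : ℕ} {x y z : GI × GI} (h : Cg m x y) (h' : Cg m y z) : Cg m x z :=
  ⟨by simpa using dvd_add h.1 h'.1, by simpa using dvd_add h.2 h'.2⟩

lemma Cg.mono {m n : ℕ} (hd : m ∣ n) {x y : GI × GI} (h : Cg n x y) : Cg m x y :=
  ⟨(Nat.cast_dvd_cast hd).trans h.1, (Nat.cast_dvd_cast hd).trans h.2⟩

lemma red_dvd (m : ℕ) (α : GI) : (m : GI) ∣ red m α - α := by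
  rw [natDvd]
  exact ⟨(Int.mod_modEq α.re m).symm.dvd, (Int.mod_modEq α.im m).symm.dvd⟩

lemma cg_red (m : ℕ) (x : GI × GI) : Cg m (red2 m x) x := ⟨red_dvd m _, red_dvd m _⟩

lemma red_mem {m : ℕ} (hm : 1 ≤ m) (α : GI) : red m α ∈ Sqr 0 0 m := by
  have h : (0 : ℤ) < m := by exact_mod_cast hm
  rw [memSqr, zero_add]
  exact ⟨Int.emod_nonneg _ h.ne', Int.emod_lt_of_pos _ h, Int.emod_nonneg _ h.ne',
    Int.emod_lt_of_pos _ h⟩

lemma red_eq {m : ℕ} {α β : GI} (hβ : β ∈ Sqr 0 0 m) (h : (m : GI) ∣ α - β) : red m α = β := by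
  rw [memSqr, zero_add] at hβ
  rw [natDvd] at h
  ext
  · exact Eq.trans (Int.modEq_iff_dvd.2 h.1).symm (Int.emod_eq_of_lt hβ.1 hβ.2.1)
  · exact Eq.trans (Int.modEq_iff_dvd.2 h.2).symm (Int.emod_eq_of_lt hβ.2.2.1 hβ.2.2.2)

lemma det_cg {m : ℕ} {x y : GI × GI} (h : Cg m x y) (hy : (m : ℤ) ∣ det y.1 y.2 - 1) :
    (m : ℤ) ∣ det x.1 x.2 - 1 := by
  obtain ⟨h1, h2⟩ := natDvd.1 h.1
  obtain ⟨h3, h4⟩ := natDvd.1 h.2
  simp only [Zsqrtd.re_sub, Zsqrtd.im_sub] at h1 h2 h3 h4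
  have : det x.1 x.2 - 1 = (det y.1 y.2 - 1) + ((x.1.re - y.1.re) * x.2.im +
      y.1.re * (x.2.im - y.2.im) - (x.1.im - y.1.im) * x.2.re - y.1.im * (x.2.re - y.2.re)) := by
    unfold det
    ring
  rw [this]
  exact dvd_add hy (dvd_sub (dvd_sub (dvd_add (h1.mul_right _) (h4.mul_left _)) (h2.mul_right _))
    (h3.mul_left _))

lemma det_of_mem {m : ℕ} {x : GI × GI} (h : x ∈ cls m) : (m : ℤ) ∣ det x.1 x.2 - 1 :=
  (mem_filter.1 h).2

lemma red2_mem {m : ℕ} (hm : 1 ≤ m) {x : GI × GI} (h : (m : ℤ) ∣ det x.1 x.2 - 1) :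
    red2 m x ∈ cls m :=
  mem_filter.2 ⟨mem_product.2 ⟨red_mem hm _, red_mem hm _⟩, det_cg (cg_red m x) h⟩

lemma red2_eq {m : ℕ} {x y : GI × GI} (hy : y ∈ cls m) (h : Cg m x y) : red2 m x = y := by
  have := mem_product.1 (mem_filter.1 hy).1
  exact Prod.ext (red_eq this.1 h.1) (red_eq this.2 h.2)

lemma card_pos {m : ℕ} (hm : 1 ≤ m) : (0 : ℝ) < (cls m).card := by
  have : red2 m (1, ⟨0, 1⟩) ∈ cls m := red2_mem hm (by simp [det])
  exact_mod_cast Finset.card_pos.2 ⟨_, this⟩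

/-- linear change of variables -/
def tau (a b c d : ℤ) (x : GI × GI) : GI × GI := (Lf a b x, Lf c d x)

lemma cg_Lf {m : ℕ} {x y : GI × GI} (h : Cg m x y) (u v : ℤ) : (m : GI) ∣ Lf u v x - Lf u v y := by
  have : Lf u v x - Lf u v y = u * (x.1 - y.1) + v * (x.2 - y.2) := by unfold Lf; ring
  rw [this]
  exact dvd_add (h.1.mul_left _) (h.2.mul_left _)

lemma cg_tau {m : ℕ} {x y : GI × GI} (h : Cg m x y) (a b c d : ℤ) :
    Cg m (tau a b c d x) (tau a b c d y) := ⟨cg_Lf h _ _, cg_Lf h _ _⟩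

lemma det_tau (a b c d : ℤ) (x : GI × GI) :
    det (tau a b c d x).1 (tau a b c d x).2 = (a * d - b * c) * det x.1 x.2 := by
  simp [det, tau, Lf]
  ring

lemma det_tau_dvd {m : ℕ} {a b c d : ℤ} (h : (m : ℤ) ∣ a * d - b * c - 1) {x : GI × GI}
    (hx : (m : ℤ) ∣ det x.1 x.2 - 1) :
    (m : ℤ) ∣ det (tau a b c d x).1 (tau a b c d x).2 - 1 := by
  have : det (tau a b c d x).1 (tau a b c d x).2 - 1 =
      (a * d - b * c - 1) * det x.1 x.2 + (det x.1 x.2 - 1) := by rw [det_tau]; ring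
  rw [this]
  exact dvd_add (h.mul_right _) hx

lemma tau_tau {m : ℕ} {a b c d : ℤ} (h : (m : ℤ) ∣ a * d - b * c - 1) (x : GI × GI) :
    Cg m (tau d (-b) (-c) a (tau a b c d x)) x := by
  have h' : (m : GI) ∣ ((a * d - b * c - 1 : ℤ) : GI) := by
    rw [← Int.cast_natCast]
    exact Int.cast_dvd_cast _ _ h
  constructor
  · have : (tau d (-b) (-c) a (tau a b c d x)).1 - x.1 = ((a * d - b * c - 1 : ℤ) : GI) * x.1 := by
      simp only [tau, Lf]
      push_cast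
      ring
    rw [this]
    exact h'.mul_right _
  · have : (tau d (-b) (-c) a (tau a b c d x)).2 - x.2 = ((a * d - b * c - 1 : ℤ) : GI) * x.2 := by
      simp only [tau, Lf]
      push_cast
      ring
    rw [this]
    exact h'.mul_right _

lemma Em_tau {m : ℕ} (hm : 1 ≤ m) {a b c d : ℤ} (h : (m : ℤ) ∣ a * d - b * c - 1)
    {φ : GI × GI → ℝ} (hφ : Per m φ) : Em m (fun x => φ (tau a b c d x)) = Em m φ := by
  have h' : (m : ℤ) ∣ d * a - -b * -c - 1 := by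
    rwa [show d * a - -b * -c - 1 = a * d - b * c - 1 by ring]
  unfold Em
  congr 1
  refine sum_nbij' (fun x => red2 m (tau a b c d x)) (fun x => red2 m (tau d (-b) (-c) a x))
    (fun x hx => red2_mem hm (det_tau_dvd h (det_of_mem hx)))
    (fun x hx => red2_mem hm (det_tau_dvd h' (det_of_mem hx))) (fun x hx => ?_) (fun x hx => ?_)
    fun x _ => ?_
  · exact red2_eq hx ((cg_tau (cg_red m _) _ _ _ _).trans (tau_tau h x))
  · refine red2_eq hx ((cg_tau (cg_red m _) _ _ _ _).trans ?_)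
    simpa only [neg_neg] using tau_tau h' x
  · exact (hφ _ _ (cg_red m _).1 (cg_red m _).2).symm

/-! ### The Chinese remainder theorem -/

lemma sum_crt {m n : ℕ} (hm : 1 ≤ m) (hn : 1 ≤ n) (h : m.Coprime n) {φ ψ : GI × GI → ℝ}
    (hφ : Per m φ) (hψ : Per n ψ) :
    ∑ x ∈ cls (m * n), φ x * ψ x = (∑ x ∈ cls m, φ x) * ∑ x ∈ cls n, ψ x := by
  obtain ⟨a, b, hab⟩ : IsCoprime (m : ℤ) (n : ℤ) := Nat.isCoprime_iff_coprime.2 h
  have hab' : (a : GI) * m + b * n = 1 := by exact_mod_cast congrArg (Int.cast : ℤ → GI) hab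
  have hmn : 1 ≤ m * n := Nat.mul_pos hm hn
  let g : (GI × GI) × (GI × GI) → GI × GI := fun p =>
    (b * n * p.1.1 + a * m * p.2.1, b * n * p.1.2 + a * m * p.2.2)
  have g1 : ∀ p, Cg m (g p) p.1 := fun p =>
    ⟨⟨a * (p.2.1 - p.1.1), by simp only [g]; linear_combination p.1.1 * hab'⟩,
      ⟨a * (p.2.2 - p.1.2), by simp only [g]; linear_combination p.1.2 * hab'⟩⟩
  have g2 : ∀ p, Cg n (g p) p.2 := fun p =>
    ⟨⟨b * (p.1.1 - p.2.1), by simp only [g]; linear_combination p.2.1 * hab'⟩,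
      ⟨b * (p.1.2 - p.2.2), by simp only [g]; linear_combination p.2.2 * hab'⟩⟩
  have hc : ∀ x y, Cg m x y → Cg n x y → Cg (m * n) x y := by
    intro x y h1 h2
    have : IsCoprime (m : GI) (n : GI) := ⟨a, b, hab'⟩
    unfold Cg
    rw [Nat.cast_mul]
    exact ⟨this.mul_dvd h1.1 h2.1, this.mul_dvd h1.2 h2.2⟩
  rw [sum_mul_sum, ← sum_product']
  refine sum_nbij' (fun x => (red2 m x, red2 n x)) (fun p => red2 (m * n) (g p))
    (fun x hx => ?_) (fun p hp => ?_) (fun x hx => ?_) (fun p hp => ?_) fun x _ => ?_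
  · have := det_of_mem hx
    rw [Nat.cast_mul] at this
    exact mem_product.2 ⟨red2_mem hm ((dvd_mul_right _ _).trans this),
      red2_mem hn ((dvd_mul_left _ _).trans this)⟩
  · have hp' := mem_product.1 hp
    refine red2_mem hmn ?_
    rw [Nat.cast_mul]
    exact IsCoprime.mul_dvd ⟨a, b, hab⟩ (det_cg (g1 p) (det_of_mem hp'.1))
      (det_cg (g2 p) (det_of_mem hp'.2))
  · exact red2_eq hx (hc _ _ ((g1 _).trans (cg_red m x)) ((g2 _).trans (cg_red n x)))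
  · have hp' := mem_product.1 hp
    exact Prod.ext (red2_eq hp'.1 (((cg_red _ _).mono (dvd_mul_right _ _)).trans (g1 p)))
      (red2_eq hp'.2 (((cg_red _ _).mono (dvd_mul_left _ _)).trans (g2 p)))
  · rw [hφ _ _ (cg_red m x).1 (cg_red m x).2, hψ _ _ (cg_red n x).1 (cg_red n x).2]

lemma Em_crt {m n : ℕ} (hm : 1 ≤ m) (hn : 1 ≤ n) (h : m.Coprime n) {φ ψ : GI × GI → ℝ}
    (hφ : Per m φ) (hψ : Per n ψ) : Em (m * n) (fun x => φ x * ψ x) = Em m φ * Em n ψ := by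
  have h1 := sum_crt hm hn h (φ := fun _ => 1) (ψ := fun _ => 1) (fun _ _ _ _ => rfl)
    fun _ _ _ _ => rfl
  simp only [mul_one, sum_const, nsmul_eq_mul] at h1
  unfold Em
  rw [sum_crt hm hn h hφ hψ, h1, div_mul_div_comm]

lemma per_prod (L : Finset ℕ) (φ : ℕ → GI × GI → ℝ) (h : ∀ l ∈ L, Per (l ^ 2) (φ l)) :
    Per (∏ l ∈ L, l ^ 2) fun x => ∏ l ∈ L, φ l x := by
  intro x y h1 h2
  refine prod_congr rfl fun l hl => ?_
  have := Cg.mono (dvd_prod_of_mem (fun l : ℕ => l ^ 2) hl) ⟨h1, h2⟩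
  exact h l hl x y this.1 this.2

lemma Em_one {m : ℕ} (hm : 1 ≤ m) : Em m (fun _ => 1) = 1 := by
  unfold Em
  rw [sum_const, nsmul_eq_mul, mul_one, div_self (card_pos hm).ne']

lemma Em_prod (L : Finset ℕ) (φ : ℕ → GI × GI → ℝ) (h : ∀ l ∈ L, l.Prime ∧ Per (l ^ 2) (φ l)) :
    Em (∏ l ∈ L, l ^ 2) (fun x => ∏ l ∈ L, φ l x) = ∏ l ∈ L, Em (l ^ 2) (φ l) := by
  induction L using Finset.induction_on with
  | empty => simpa using Em_one le_rfl
  | @insert l L hl ih =>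
    have h1 := h l (mem_insert_self _ _)
    have h2 : ∀ l' ∈ L, l'.Prime ∧ Per (l' ^ 2) (φ l') := fun l' h' => h l' (mem_insert_of_mem h')
    simp only [prod_insert hl]
    rw [← ih h2]
    refine Em_crt (Nat.pow_pos h1.1.pos) (prod_pos fun l' h' => Nat.pow_pos (h2 l' h').1.pos)
      (Nat.Coprime.prod_right fun l' h' => Nat.Coprime.pow _ _ ?_) h1.2
      (per_prod L φ fun l' h' => (h2 l' h').2)
    exact (Nat.coprime_primes h1.1 (h2 l' h').1).2 fun e => hl (e ▸ h')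

/-! ### Local densities -/

lemma Em_le {m : ℕ} {φ ψ : GI × GI → ℝ}
    (h : ∀ x : GI × GI, (m : ℤ) ∣ det x.1 x.2 - 1 → φ x ≤ ψ x) : Em m φ ≤ Em m ψ :=
  div_le_div_of_nonneg_right (sum_le_sum fun x hx => h x (det_of_mem hx)) (Nat.cast_nonneg _)

lemma Em_congr {m : ℕ} {φ ψ : GI × GI → ℝ}
    (h : ∀ x : GI × GI, (m : ℤ) ∣ det x.1 x.2 - 1 → φ x = ψ x) : Em m φ = Em m ψ :=
  le_antisymm (Em_le fun x hx => (h x hx).le) (Em_le fun x hx => (h x hx).ge)

lemma Em_sum' {ι : Type} (m : ℕ) (s : Finset ι) (φ : ι → GI × GI → ℝ) :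
    Em m (fun x => ∑ i ∈ s, φ i x) = ∑ i ∈ s, Em m (φ i) := by
  unfold Em
  rw [sum_comm, sum_div]

lemma ind0 {p : Prop} (h : ¬p) : ind p = 0 := if_neg h

lemma sum_ind_le {ι : Type} (s : Finset ι) (p : ι → Prop) (q : Prop) (h1 : ∀ i ∈ s, p i → q)
    (h2 : ∀ i ∈ s, ∀ j ∈ s, p i → p j → i = j) : ∑ i ∈ s, ind (p i) ≤ ind q := by
  by_cases h : ∃ i ∈ s, p i
  · obtain ⟨i, hi, hp⟩ := h
    rw [sum_eq_single_of_mem i hi fun j hj hne => ind0 fun hq => hne (h2 j hj i hi hq hp)]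
    simp [ind, hp, h1 i hi hp]
  · rw [sum_eq_zero fun i hi => ind0 fun hp => h ⟨i, hi, hp⟩]
    unfold ind
    split_ifs <;> norm_num

lemma mul_star' (π : GI) : π * star π = (nm π : GI) := by
  rw [nm, ← Int.cast_natCast, Int.natAbs_of_nonneg (GaussianInt.norm_nonneg π), Zsqrtd.norm_eq_mul_conj]

lemma nm_int' (π : GI) : (nm π : ℤ) = π.re ^ 2 + π.im ^ 2 := by
  rw [nm, Int.natAbs_of_nonneg (GaussianInt.norm_nonneg π), Zsqrtd.norm_def]
  ring

lemma nm_star' (π : GI) : nm (star π) = nm π := by rw [nm, nm, Zsqrtd.norm_conj]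

section Loc

variable {l : ℕ} {π : GI}

lemma dvd_l (h : nm π = l) : π ∣ (l : GI) := ⟨star π, by rw [mul_star', h]⟩

lemma int_dvd (hl : l.Prime) (h : nm π = l) {n : ℤ} (hn : π ∣ (n : GI)) : (l : ℤ) ∣ n := by
  obtain ⟨k, hk⟩ := hn
  have h1 := congrArg Zsqrtd.norm hk
  rw [Zsqrtd.norm_intCast, Zsqrtd.norm_mul] at h1
  have h2 : π.norm = l := by rw [← h, nm, Int.natAbs_of_nonneg (GaussianInt.norm_nonneg π)]
  rw [h2] at h1
  exact ((Nat.prime_iff_prime_int.1 hl).dvd_or_dvd ⟨_, h1⟩).elim id id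

lemma not_dvd_one (hl : l.Prime) : ¬(l : ℤ) ∣ 1 := (Nat.prime_iff_prime_int.1 hl).not_dvd_one

lemma not_dvd_im (hl : l.Prime) (h : nm π = l) : ¬(l : ℤ) ∣ π.im ∧ ¬(l : ℤ) ∣ π.re := by
  have hp := Nat.prime_iff_prime_int.1 hl
  have h1 := nm_int' π
  rw [h] at h1
  have key : ∀ a b : ℤ, (l : ℤ) = a ^ 2 + b ^ 2 → ¬(l : ℤ) ∣ b := by
    intro a b e hb
    have h2 : (l : ℤ) ∣ a ^ 2 := by
      have : a ^ 2 = l - b * b := by rw [e]; ring
      rw [this]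
      exact dvd_sub dvd_rfl (hb.mul_right _)
    obtain ⟨a', rfl⟩ := hp.dvd_of_dvd_pow h2
    obtain ⟨b', rfl⟩ := hb
    refine not_dvd_one hl ⟨a' ^ 2 + b' ^ 2, mul_left_cancel₀ hp.ne_zero ?_⟩
    linear_combination e
  exact ⟨key _ _ h1, key _ _ (h1.trans (add_comm _ _))⟩

lemma exists_inv (hl : l.Prime) {u : ℤ} (hu : ¬(l : ℤ) ∣ u) (k : ℕ) :
    ∃ d : ℤ, (l : ℤ) ^ k ∣ u * d - 1 := by
  obtain ⟨a, b, hab⟩ : IsCoprime ((l : ℤ) ^ k) u :=
    ((Prime.coprime_iff_not_dvd (Nat.prime_iff_prime_int.1 hl)).2 hu).pow_left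
  exact ⟨b, -a, by linear_combination hab⟩

/-- every Gaussian integer is congruent to an integer -/
lemma exists_int (hl : l.Prime) (h : nm π = l) (α : GI) : ∃ n : ℤ, π ∣ α - n := by
  obtain ⟨b, k, hk⟩ := exists_inv hl (not_dvd_im hl h).1 1
  refine ⟨α.re - π.re * b * α.im, ?_⟩
  have : α - (α.re - π.re * b * α.im : ℤ) =
      π * ((b * α.im : ℤ) : GI) - (l : GI) * ⟨0, k * α.im⟩ := by
    ext
    · simp
      ring
    · simp
      linear_combination (-α.im) * hk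
  rw [this]
  exact dvd_sub (dvd_mul_right _ _) ((dvd_l h).mul_right _)

lemma dvd_of_int (hl : l.Prime) (h : nm π = l) {n : ℤ} (hn : ¬(l : ℤ) ∣ n) {α : GI}
    (hα : π ∣ (n : GI) * α) : π ∣ α := by
  obtain ⟨d, k, hk⟩ := exists_inv hl hn 1
  rw [pow_one] at hk
  have hk' : (n : GI) * d - 1 = l * k := by exact_mod_cast congrArg (Int.cast : ℤ → GI) hk
  have : α = d * (n * α) - l * (k * α) := by linear_combination (-α) * hk'
  rw [this]
  exact dvd_sub (hα.mul_left _) ((dvd_l h).mul_right _)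

lemma not_both (hl : l.Prime) (h : nm π = l) {x : GI × GI} (hx : (l : ℤ) ∣ det x.1 x.2 - 1)
    (h1 : π ∣ x.1) (h2 : π ∣ x.2) : False := by
  have : ((det x.1 x.2 : ℤ) : GI) = (x.1.re : GI) * ⟨0, -1⟩ * x.2 + ⟨0, 1⟩ * (x.2.re : GI) * x.1 := by
    ext
    · simp [det]
      ring
    · simp
      ring
  have h3 : (l : ℤ) ∣ det x.1 x.2 := int_dvd hl h (this ▸ dvd_add (h2.mul_left _) (h1.mul_left _))
  exact not_dvd_one hl (by simpa using dvd_sub h3 hx)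

lemma res (hl : l.Prime) (h : nm π = l) {x : GI × GI} (hx : (l : ℤ) ∣ det x.1 x.2 - 1)
    {u v u' v' : ℤ} (h1 : π ∣ Lf u v x) (h2 : π ∣ Lf u' v' x) : (l : ℤ) ∣ u * v' - v * u' := by
  by_contra hn
  refine not_both hl h hx (dvd_of_int hl h hn ?_) (dvd_of_int hl h hn ?_)
  · have : ((u * v' - v * u' : ℤ) : GI) * x.1 = v' * Lf u v x - v * Lf u' v' x := by
      unfold Lf; push_cast; ring
    rw [this]
    exact dvd_sub (h1.mul_left _) (h2.mul_left _)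
  · have : ((u * v' - v * u' : ℤ) : GI) * x.2 = u * Lf u' v' x - u' * Lf u v x := by
      unfold Lf; push_cast; ring
    rw [this]
    exact dvd_sub (h2.mul_left _) (h1.mul_left _)

/-- `π` is coprime to its conjugate -/
lemma dvd_of_star (hl : l.Prime) (h2 : l ≠ 2) (h : nm π = l) {α : GI} (hα : π ∣ star π * α) :
    π ∣ α := by
  have hp := Nat.prime_iff_prime_int.1 hl
  refine dvd_of_int hl h (n := 2 * π.re) (fun e => ?_) ?_
  · rcases hp.dvd_or_dvd e with e | e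
    · exact h2 ((Nat.prime_dvd_prime_iff_eq hl Nat.prime_two).1 (by exact_mod_cast e))
    · exact (not_dvd_im hl h).2 e
  · have : ((2 * π.re : ℤ) : GI) = π + star π := by
      ext
      · simp
        ring
      · simp
    rw [this, add_mul]
    exact dvd_add (dvd_mul_right _ _) hα

lemma eq_of_dvd {t t' : ℕ} (ht : t ∈ range l) (ht' : t' ∈ range l) (h : (l : ℤ) ∣ (t' : ℤ) - t) :
    t = t' :=
  Nat.ModEq.eq_of_lt_of_lt (Nat.modEq_iff_dvd.2 h) (mem_range.1 ht) (mem_range.1 ht')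

lemma exists_cd (hl : l.Prime) {u v : ℤ} (h : ¬((l : ℤ) ∣ u ∧ (l : ℤ) ∣ v)) :
    ∃ c d : ℤ, ((l ^ 2 : ℕ) : ℤ) ∣ u * d - v * c - 1 := by
  rw [Nat.cast_pow]
  by_cases hu : (l : ℤ) ∣ u
  · obtain ⟨c, hc⟩ := exists_inv hl (fun e => h ⟨hu, e⟩) 2
    exact ⟨-c, 0, by simpa using hc⟩
  · obtain ⟨d, hd⟩ := exists_inv hl hu 2
    exact ⟨0, d, by simpa using hd⟩

lemma dvd_congr {D α β : GI} {m : ℕ} (hD : D ∣ (m : GI)) (h : (m : GI) ∣ α - β) :
    D ∣ α ↔ D ∣ β := by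
  have := hD.trans h
  exact ⟨fun e => by simpa using dvd_sub e this, fun e => by simpa using dvd_add this e⟩

lemma Em_form (hl : l.Prime) {D : GI} (hD : D ∣ ((l ^ 2 : ℕ) : GI)) {u v : ℤ}
    (h : ¬((l : ℤ) ∣ u ∧ (l : ℤ) ∣ v)) :
    Em (l ^ 2) (fun x => ind (D ∣ Lf u v x)) = Em (l ^ 2) fun x => ind (D ∣ x.1) := by
  obtain ⟨c, d, hcd⟩ := exists_cd hl h
  exact Em_tau (Nat.pow_pos hl.pos) hcd (φ := fun x => ind (D ∣ x.1))
    fun x y h1 _ => by simp only [dvd_congr hD h1]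

lemma weaken {x : GI × GI} (hx : ((l ^ 2 : ℕ) : ℤ) ∣ det x.1 x.2 - 1) :
    (l : ℤ) ∣ det x.1 x.2 - 1 :=
  (Nat.cast_dvd_cast (dvd_pow_self l two_ne_zero)).trans hx

lemma dvd_l2 (h : nm π = l) : π ∣ ((l ^ 2 : ℕ) : GI) :=
  (dvd_l h).trans (Nat.cast_dvd_cast (dvd_pow_self l two_ne_zero))

lemma Lf10 (x : GI × GI) : Lf 1 0 x = x.1 := by simp [Lf]

lemma Lf01 (x : GI × GI) : Lf 0 1 x = x.2 := by simp [Lf]

lemma Em_first (hl : l.Prime) (h : nm π = l) :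
    Em (l ^ 2) (fun x => ind (π ∣ x.1)) = 1 / ((l : ℝ) + 1) := by
  have h1 : ∀ x : GI × GI, ((l ^ 2 : ℕ) : ℤ) ∣ det x.1 x.2 - 1 →
      ∑ o ∈ insertNone (range l), ind (π ∣ Lf (o.elim 0 fun _ => 1) (o.elim 1 fun t => t) x) = 1 := by
    intro x hx
    have hx' := weaken hx
    rw [sum_insertNone]
    simp only [Option.elim, Lf01]
    by_cases h2 : π ∣ x.2
    · rw [sum_eq_zero fun t _ => ind0 fun e => ?_]
      · simp [ind, h2]
      · refine not_dvd_one hl ?_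
        have := res hl h hx' e ((Lf01 x).symm ▸ h2)
        rwa [mul_zero, sub_zero, mul_one] at this
    · obtain ⟨n1, hn1⟩ := exists_int hl h x.1
      obtain ⟨n2, hn2⟩ := exists_int hl h x.2
      have h3 : ¬(l : ℤ) ∣ n2 := by
        rintro ⟨k, rfl⟩
        apply h2
        have : π ∣ ((l * k : ℤ) : GI) := by
          push_cast
          exact (dvd_l h).mul_right _
        simpa using dvd_add hn2 this
      obtain ⟨d, k, hk⟩ := exists_inv hl h3 1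
      have hl0 : (0 : ℤ) < l := by exact_mod_cast hl.pos
      obtain ⟨t, ht⟩ := Int.eq_ofNat_of_zero_le (Int.emod_nonneg (-n1 * d) hl0.ne')
      have ht1 : t ∈ range l := by
        have := Int.emod_lt_of_pos (-n1 * d) hl0
        rw [ht] at this
        exact mem_range.2 (by exact_mod_cast this)
      have ht2 : π ∣ Lf 1 t x := by
        have e1 : (n1 + t * n2 : ℤ) = l * (-n1 * k - (-n1 * d) / l * n2) := by
          rw [← ht, Int.emod_def]
          linear_combination (-n1) * hk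
        have e2 : (n1 : GI) + t * n2 = l * ((-n1 * k - (-n1 * d) / l * n2 : ℤ) : GI) := by
          exact_mod_cast congrArg (Int.cast : ℤ → GI) e1
        have e3 : Lf 1 t x = (x.1 - n1) + t * (x.2 - n2) + (n1 + t * n2) := by
          unfold Lf; push_cast; ring
        rw [e3, e2]
        exact dvd_add (dvd_add hn1 (hn2.mul_left _)) ((dvd_l h).mul_right _)
      rw [sum_eq_single_of_mem t ht1 fun j hj hne => ind0 fun e => hne (eq_of_dvd hj ht1 ?_)]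
      · simp [ind, h2, ht2]
      · simpa using res hl h hx' e ht2
  have h2 := Em_congr h1
  rw [Em_one (Nat.pow_pos hl.pos), Em_sum', sum_congr rfl fun o _ => Em_form hl (dvd_l2 h) (by
    rcases o with _ | t
    · exact fun e => not_dvd_one hl e.2
    · exact fun e => not_dvd_one hl e.1), sum_const, card_insertNone, card_range,
    nsmul_eq_mul] at h2
  rw [eq_div_iff (by positivity)]
  push_cast at h2
  linarith

lemma bound (hl : l.Prime) {q : ℝ} (h : ∑ _t ∈ range l, q ≤ 1 / ((l : ℝ) + 1)) :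
    q ≤ 1 / ((l : ℝ) * ((l : ℝ) + 1)) := by
  have h0 : (0 : ℝ) < l := by exact_mod_cast hl.pos
  rw [sum_const, card_range, nsmul_eq_mul] at h
  rw [mul_comm (l : ℝ), ← div_div, le_div_iff₀ h0, mul_comm]
  exact h

lemma Em_second (hl : l.Prime) (h2 : l ≠ 2) (h : nm π = l) :
    Em (l ^ 2) (fun x => ind (π ^ 2 ∣ x.1)) ≤ 1 / ((l : ℝ) * ((l : ℝ) + 1)) := by
  have hD : π ^ 2 ∣ ((l ^ 2 : ℕ) : GI) := by
    rw [Nat.cast_pow]
    exact pow_dvd_pow_of_dvd (dvd_l h) 2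
  have h0 : π ≠ 0 := by
    rintro rfl
    exact hl.ne_zero (by rw [← h]; rfl)
  refine bound hl ?_
  rw [← Em_first hl h, ← sum_congr rfl fun (t : ℕ) _ => Em_form hl hD (u := 1) (v := t * l)
    fun e => not_dvd_one hl e.1, ← Em_sum']
  refine Em_le fun x hx => ?_
  have h1 : ∀ t : ℕ, π ^ 2 ∣ Lf 1 (t * l) x → π ∣ x.1 := by
    intro t e
    have : x.1 = Lf 1 (t * l) x - l * (t * x.2) := by unfold Lf; push_cast; ring
    rw [this]
    exact dvd_sub ((dvd_pow_self π two_ne_zero).trans e) ((dvd_l h).mul_right _)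
  refine sum_ind_le _ _ _ (fun t _ => h1 t) fun t ht t' ht' e e' => eq_of_dvd ht ht' ?_
  by_contra hn
  refine not_both hl h (weaken hx) (h1 t e) (dvd_of_int hl h hn (dvd_of_star hl h2 h ?_))
  have e1 : Lf 1 (t' * l) x - Lf 1 (t * l) x = π * (star π * ((((t' : ℤ) - t : ℤ) : GI) * x.2)) := by
    rw [← mul_assoc, mul_star', h]
    unfold Lf; push_cast; ring
  have e2 := dvd_sub e' e
  rwa [e1, pow_two, mul_dvd_mul_iff_left h0] at e2

lemma Em_third (hl : l.Prime) (h2 : l ≠ 2) (h : nm π = l) {u v : ℤ}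
    (huv : ¬((l : ℤ) ∣ u ∧ (l : ℤ) ∣ v)) :
    Em (l ^ 2) (fun x => ind (π ∣ x.1 ∧ star π ∣ Lf u v x)) ≤ 1 / ((l : ℝ) * ((l : ℝ) + 1)) := by
  have hs : nm (star π) = l := (nm_star' π).trans h
  by_cases hv : (l : ℤ) ∣ v
  · have : Em (l ^ 2) (fun x => ind (π ∣ x.1 ∧ star π ∣ Lf u v x)) = Em (l ^ 2) fun _ => 0 := by
      refine Em_congr fun x hx => if_neg fun ⟨e1, e2⟩ => ?_
      obtain ⟨k, rfl⟩ := hv
      have e3 : star π ∣ x.1 := by
        refine dvd_of_int hl hs (fun e => huv ⟨e, dvd_mul_right _ _⟩) ?_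
        have : (u : GI) * x.1 = Lf u (l * k) x - l * (k * x.2) := by unfold Lf; push_cast; ring
        rw [this]
        exact dvd_sub e2 ((dvd_l hs).mul_right _)
      obtain ⟨γ, hγ⟩ := e3
      obtain ⟨δ, hδ⟩ := dvd_of_star hl h2 h (hγ ▸ e1)
      have e4 : (l : GI) ∣ x.1 := ⟨δ, by rw [hγ, hδ, ← h, ← mul_star']; ring⟩
      obtain ⟨e5, e6⟩ := natDvd.1 e4
      have e7 : (l : ℤ) ∣ det x.1 x.2 := dvd_sub (e5.mul_right _) (e6.mul_right _)
      exact not_dvd_one hl (by simpa using dvd_sub e7 (weaken hx))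
    rw [this]
    simp only [Em, sum_const_zero, zero_div]
    positivity
  · have hper : Per (l ^ 2) fun x => ind (π ∣ x.1 ∧ star π ∣ Lf u v x) := fun x y h1 h3 => by
      simp only [dvd_congr (dvd_l2 h) h1, dvd_congr (dvd_l2 hs) (cg_Lf ⟨h1, h3⟩ u v)]
    refine bound hl ?_
    rw [← Em_first hl h, ← sum_congr rfl fun (t : ℕ) _ =>
      Em_tau (Nat.pow_pos hl.pos) (a := 1) (b := 0) (c := t) (d := 1) (by simp) hper, ← Em_sum']
    refine Em_le fun x hx => sum_ind_le _ _ _ (fun t _ e => Lf10 x ▸ e.1)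
      fun t ht t' ht' e e' => eq_of_dvd ht ht' ?_
    have e1 : ∀ t : ℕ, Lf u v (tau 1 0 t 1 x) = Lf (u + t * v) v x := by
      intro t
      simp only [Lf, tau]
      push_cast
      ring
    have e2 := res hl hs (weaken hx) (e1 t' ▸ e'.2) (e1 t ▸ e.2)
    have e3 : (u + t' * v) * v - v * (u + t * v) = ((t' : ℤ) - t) * v * v := by ring
    have hp := Nat.prime_iff_prime_int.1 hl
    rw [e3] at e2
    exact (hp.dvd_or_dvd ((hp.dvd_or_dvd e2).resolve_right hv)).resolve_right hv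

end Loc

end B4a

open B4a in
theorem B4a_pe (h : EqStmt) : PEStmt := by
  obtain ⟨K, hK⟩ := h
  refine ⟨K, fun C D hC hD L φ hφ => ?_⟩
  have h1 := hK C D (∏ l ∈ L, l ^ 2) hC hD (prod_pos fun l hl => Nat.pow_pos (hφ l hl).1.pos)
    (fun x => ∏ l ∈ L, φ l x) (per_prod L φ fun l hl => (hφ l hl).2.1)
    fun x => ⟨prod_nonneg fun l hl => ((hφ l hl).2.2 x).1,
      prod_le_one (fun l hl => ((hφ l hl).2.2 x).1) fun l hl => ((hφ l hl).2.2 x).2⟩
  rw [Em_prod L φ fun l hl => ⟨(hφ l hl).1, (hφ l hl).2.1⟩] at h1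
  convert h1 using 4
  push_cast
  rw [prod_pow, ← pow_mul]

open B4a in
theorem B4a_loc : LocStmt := by
  intro l π hl h2 h u v u' v' huv huv'
  have hs : nm (star π) = l := (nm_star' π).trans h
  refine ⟨(Em_form hl (dvd_l2 h) huv).trans (Em_first hl h), ?_, ?_⟩
  · rw [Em_form hl (by rw [Nat.cast_pow]; exact pow_dvd_pow_of_dvd (dvd_l h) 2) huv]
    exact Em_second hl h2 h
  · obtain ⟨c, d, hcd⟩ := exists_cd hl huv
    have hcd' : (l : ℤ) ∣ u * d - v * c - 1 :=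
      (Nat.cast_dvd_cast (dvd_pow_self l two_ne_zero)).trans hcd
    have hn : ¬(l : ℤ) ∣ u * d - v * c := fun e => not_dvd_one hl (by simpa using dvd_sub e hcd')
    have hp := Nat.prime_iff_prime_int.1 hl
    have h3 : ¬((l : ℤ) ∣ u' * d - v' * c ∧ (l : ℤ) ∣ v' * u - u' * v) := by
      rintro ⟨e1, e2⟩
      refine huv' ⟨(hp.dvd_or_dvd (?_ : (l : ℤ) ∣ u' * (u * d - v * c))).resolve_right hn,
        (hp.dvd_or_dvd (?_ : (l : ℤ) ∣ v' * (u * d - v * c))).resolve_right hn⟩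
      · rw [show u' * (u * d - v * c) = (u' * d - v' * c) * u + (v' * u - u' * v) * c by ring]
        exact dvd_add (e1.mul_right _) (e2.mul_right _)
      · rw [show v' * (u * d - v * c) = (u' * d - v' * c) * v + (v' * u - u' * v) * d by ring]
        exact dvd_add (e1.mul_right _) (e2.mul_right _)
    have hper : Per (l ^ 2) fun x => ind (π ∣ x.1 ∧
        star π ∣ Lf (u' * d - v' * c) (v' * u - u' * v) x) := fun x y h1 h3 => by
      simp only [dvd_congr (dvd_l2 h) h1, dvd_congr (dvd_l2 hs) (cg_Lf ⟨h1, h3⟩ _ _)]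
    refine le_of_eq_of_le ?_ (Em_third hl h2 h h3)
    rw [← Em_tau (Nat.pow_pos hl.pos) hcd hper]
    refine congrArg _ (funext fun x => congrArg ind (propext (and_congr Iff.rfl ?_)))
    have e1 : Lf (u' * d - v' * c) (v' * u - u' * v) (tau u v c d x) =
        ((u * d - v * c : ℤ) : GI) * Lf u' v' x := by
      simp only [Lf, tau]
      push_cast
      ring
    rw [e1]
    exact ⟨fun e => e.mul_left _, dvd_of_int hl hs hn⟩

end Pool.Agent.Lib.LQ
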