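import Pool.Agent.Lib.LQ.Basic

/-! Block B4b: the fundamental lemma for boxes in `SL_2(Z)` and for lattice squares. -/

set_option autoImplicit false

open Finset
open scoped Classical

noncomputable section

namespace Pool.Agent.Lib.LQ

open Pool.Agent.Lib.MP_de94cf_nt (gg det inn)

namespace B4b

/-- few sets of primes have a small product -/
lemma card_small (I : Finset ℕ) (hI : ∀ l ∈ I, l.Prime) (Z : ℝ) (hZ : 0 ≤ Z) :
    (((I.powerset.filter (fun S : Finset ℕ => ∏ i ∈ S, (i : ℝ) ≤ Z)).card : ℕ) : ℝ) ≤ Z := by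
  have h1 : (I.powerset.filter (fun S : Finset ℕ => ∏ i ∈ S, (i : ℝ) ≤ Z)).card ≤ (Icc 1 ⌊Z⌋₊).card := by
    apply Finset.card_le_card_of_injOn (fun S => ∏ i ∈ S, i)
    · intro S hS
      simp only [coe_filter, mem_powerset, Set.mem_ofPred_eq] at hS
      simp only [coe_Icc, Set.mem_Icc]
      constructor
      · exact Finset.one_le_prod' fun i hi => (hI i (hS.1 hi)).one_le
      · apply Nat.le_floor
        rw [Nat.cast_prod]
        exact hS.2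
    · intro S hS S' hS' e
      simp only [coe_filter, mem_powerset, Set.mem_ofPred_eq] at hS hS'
      have a1 := Nat.primeFactors_prod (s := S) fun p hp => hI p (hS.1 hp)
      have a2 := Nat.primeFactors_prod (s := S') fun p hp => hI p (hS'.1 hp)
      rw [← a1, ← a2]
      exact congrArg Nat.primeFactors e
  rw [Nat.card_Icc, Nat.add_sub_cancel] at h1
  exact le_trans (Nat.cast_le.mpr h1) (Nat.floor_le hZ)

/-- the fundamental lemma with a compulsory set of primes -/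
lemma gen (h : FLStmt) (κ δ : ℝ) (hδ : 0 < δ) : ∃ u : ℕ, ∀ (A : Type) (T : Finset A)
    (X z R : ℝ) (L0 L1 : Finset ℕ) (φ : ℕ → A → ℝ) (μ : ℕ → ℝ), 2 ≤ z → 0 ≤ X → 0 ≤ R →
    Disjoint L0 L1 →
    (∀ l ∈ L0 ∪ L1, l.Prime ∧ 0 ≤ μ l ∧ μ l ≤ 1 ∧ ∀ x, 0 ≤ φ l x ∧ φ l x ≤ 1) →
    (∀ l ∈ L1, (l : ℝ) ≤ z ∧ 1 - μ l ≤ 1 / 2 ∧ 1 - μ l ≤ κ / l) →
    (∀ S ⊆ L1, ∏ l ∈ S, (l : ℝ) ≤ z ^ u →
      |∑ x ∈ T, (∏ l ∈ L0, φ l x) * ∏ l ∈ S, (1 - φ l x) -
        (X * ∏ l ∈ L0, μ l) * ∏ l ∈ S, (1 - μ l)| ≤ R) →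
    |∑ x ∈ T, ∏ l ∈ L0 ∪ L1, φ l x - X * ∏ l ∈ L0 ∪ L1, μ l| ≤
      δ * (X * ∏ l ∈ L0 ∪ L1, μ l) + 2 * z ^ (u + 1) * R := by
  obtain ⟨u, hu⟩ := h (4 * |κ|) δ hδ
  refine ⟨u, fun A T X z R L0 L1 φ μ hz hX hR hd h1 h2 h3 => ?_⟩
  have hz0 : 0 ≤ z := by linarith
  have key := hu ℕ A L1 (fun l => (l : ℝ)) (fun l => 1 - μ l) z T (fun x => ∏ l ∈ L0, φ l x)
    (fun l x => 1 - φ l x) (X * ∏ l ∈ L0, μ l) (z ^ u * R) hz
    (fun l hl => by
      obtain ⟨a1, a2, a3, -⟩ := h1 l (mem_union_right _ hl)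
      obtain ⟨b1, b2, -⟩ := h2 l hl
      refine ⟨by exact_mod_cast a1.two_le, b1, by linarith, b2⟩)
    (fun y hy => by
      have hdim := dim_four hy (S := L1.filter (fun i : ℕ => y < (i : ℝ) ∧ (i : ℝ) ≤ y ^ 2))
        (fun l hl => by
          rw [mem_filter] at hl
          exact ⟨(h1 l (mem_union_right _ hl.1)).1, hl.2⟩)
      calc ∑ i ∈ L1.filter (fun i : ℕ => y < (i : ℝ) ∧ (i : ℝ) ≤ y ^ 2), (1 - μ i)
          ≤ ∑ i ∈ L1.filter (fun i : ℕ => y < (i : ℝ) ∧ (i : ℝ) ≤ y ^ 2), |κ| * (1 / (i : ℝ)) := by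
            apply sum_le_sum
            intro l hl
            rw [mem_filter] at hl
            refine le_trans (h2 l hl.1).2.2 ?_
            rw [mul_one_div]
            exact div_le_div_of_nonneg_right (le_abs_self κ) (Nat.cast_nonneg l)
        _ = |κ| * ∑ i ∈ L1.filter (fun i : ℕ => y < (i : ℝ) ∧ (i : ℝ) ≤ y ^ 2), 1 / (i : ℝ) := by
            rw [mul_sum]
        _ ≤ 4 * |κ| := by
            rw [mul_comm]
            exact mul_le_mul_of_nonneg_right hdim (abs_nonneg κ))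
    (fun x _ => prod_nonneg fun l hl => ((h1 l (mem_union_left _ hl)).2.2.2 x).1)
    (fun l hl x _ => by
      obtain ⟨a1, a2⟩ := (h1 l (mem_union_right _ hl)).2.2.2 x
      constructor <;> linarith)
    (mul_nonneg hX (prod_nonneg fun l hl => (h1 l (mem_union_left _ hl)).2.1))
    (by
      refine le_trans (sum_le_card_nsmul _ _ R ?_) ?_
      · intro S hS
        rw [mem_filter, mem_powerset] at hS
        exact h3 S hS.1 hS.2
      · rw [nsmul_eq_mul]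
        exact mul_le_mul_of_nonneg_right
          (card_small L1 (fun l hl => (h1 l (mem_union_right _ hl)).1) _ (pow_nonneg hz0 u)) hR)
  simp only [sub_sub_cancel] at key
  simp only [prod_union hd]
  rw [← mul_assoc X, pow_succ]
  calc _ ≤ _ := key
    _ = _ := by ring

lemma prod_mix {A : Type} {L0 S : Finset ℕ} (hd : Disjoint L0 S) (f g : ℕ → A) (F : ℕ → A → ℝ) :
    ∏ l ∈ L0 ∪ S, F l (if l ∈ L0 then f l else g l) =
      (∏ l ∈ L0, F l (f l)) * ∏ l ∈ S, F l (g l) := by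
  rw [prod_union hd]
  congr 1
  · exact prod_congr rfl fun l hl => by rw [if_pos hl]
  · exact prod_congr rfl fun l hl => by rw [if_neg (disjoint_right.mp hd hl)]

/-! ### periodic functions on the integers -/

def P (n : ℕ) (f : ℤ → ℝ) : Prop := ∀ x y : ℤ, (n : ℤ) ∣ x - y → f x = f y

lemma one_period (n : ℕ) [NeZero n] (g : ZMod n → ℝ) (a : ℤ) :
    ∑ x ∈ Ico a (a + n), g (x : ZMod n) = ∑ r : ZMod n, g r := by
  refine Finset.sum_bij (fun x _ => (x : ZMod n)) (fun _ _ => mem_univ _) ?_ ?_ (fun _ _ => rfl)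
  · intro x hx y hy e
    rw [mem_Ico] at hx hy
    rw [ZMod.intCast_eq_intCast_iff_dvd_sub] at e
    have := Int.eq_zero_of_abs_lt_dvd e (by rw [abs_lt]; constructor <;> linarith [hx.1, hx.2, hy.1, hy.2])
    linarith
  · intro r _
    refine ⟨a + ((r - (a : ZMod n)).val : ℤ), ?_, ?_⟩
    · rw [mem_Ico]
      have := ZMod.val_lt (r - (a : ZMod n))
      constructor
      · linarith [Int.natCast_nonneg (r - (a : ZMod n)).val]
      · have : (((r - (a : ZMod n)).val : ℕ) : ℤ) < n := by exact_mod_cast this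
        linarith
    · push_cast
      rw [ZMod.natCast_zmod_val]
      ring

lemma P.lift {n : ℕ} [NeZero n] {f : ℤ → ℝ} (hf : P n f) (x : ℤ) :
    f x = f (((x : ZMod n).val : ℕ) : ℤ) := by
  apply hf
  rw [← ZMod.intCast_eq_intCast_iff_dvd_sub]
  push_cast
  rw [ZMod.natCast_zmod_val]

lemma P.period {n : ℕ} [NeZero n] {f : ℤ → ℝ} (hf : P n f) (a : ℤ) :
    ∑ x ∈ Ico a (a + n), f x = ∑ r : ZMod n, f ((r.val : ℕ) : ℤ) := by
  rw [← one_period n (fun r => f ((r.val : ℕ) : ℤ)) a]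
  exact sum_congr rfl fun x _ => hf.lift x

lemma sum_split (f : ℤ → ℝ) {a b c : ℤ} (h1 : a ≤ b) (h2 : b ≤ c) :
    ∑ x ∈ Ico a c, f x = ∑ x ∈ Ico a b, f x + ∑ x ∈ Ico b c, f x := by
  rw [← Finset.sum_union (Finset.Ico_disjoint_Ico_consecutive a b c),
    Finset.Ico_union_Ico_eq_Ico h1 h2]

lemma P.periods {n : ℕ} [NeZero n] {f : ℤ → ℝ} (hf : P n f) (a : ℤ) (q : ℕ) :
    ∑ x ∈ Ico a (a + q * n), f x = q * ∑ x ∈ Ico (0 : ℤ) (0 + n), f x := by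
  induction q with
  | zero => simp
  | succ q ih =>
    have hq : (0 : ℤ) ≤ q * n := by positivity
    have hn : (0 : ℤ) ≤ n := by positivity
    have e : a + ((q + 1 : ℕ) : ℤ) * n = (a + q * n) + n := by push_cast; ring
    rw [e, sum_split f (b := a + q * n) (by linarith) (by linarith), ih, hf.period, hf.period]
    push_cast
    ring

lemma sum_Ico_bound {f : ℤ → ℝ} {B : ℝ} (h : ∀ x, 0 ≤ f x ∧ f x ≤ B) (a : ℤ) (r : ℕ) :
    0 ≤ ∑ x ∈ Ico a (a + r), f x ∧ ∑ x ∈ Ico a (a + r), f x ≤ r * B := by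
  refine ⟨sum_nonneg fun x _ => (h x).1, ?_⟩
  refine le_trans (sum_le_card_nsmul _ _ B fun x _ => (h x).2) ?_
  rw [Int.card_Ico, nsmul_eq_mul]
  simp

lemma P.equi {n : ℕ} (hn : 1 ≤ n) {f : ℤ → ℝ} (hf : P n f) {B : ℝ} (h : ∀ x, 0 ≤ f x ∧ f x ≤ B)
    (a : ℤ) (L : ℕ) :
    |∑ x ∈ Ico a (a + L), f x - (L : ℝ) / n * ∑ x ∈ Ico (0 : ℤ) (0 + n), f x| ≤ n * B := by
  have : NeZero n := ⟨by omega⟩
  have hn0 : (0 : ℝ) < n := by exact_mod_cast hn
  have hB : 0 ≤ B := le_trans (h 0).1 (h 0).2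
  obtain ⟨q, r, hr, rfl⟩ : ∃ q r : ℕ, r < n ∧ L = q * n + r :=
    ⟨L / n, L % n, Nat.mod_lt _ (by omega), (Nat.div_add_mod' L n).symm⟩
  have hq : (0 : ℤ) ≤ q * n := by positivity
  have hr0 : (0 : ℤ) ≤ r := by positivity
  have e : a + ((q * n + r : ℕ) : ℤ) = (a + q * n) + r := by push_cast; ring
  rw [e, sum_split f (b := a + q * n) (by linarith) (by linarith), hf.periods]
  obtain ⟨a1, a2⟩ := sum_Ico_bound h (a + q * n) r
  obtain ⟨b1, b2⟩ := sum_Ico_bound h 0 n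
  set s := ∑ x ∈ Ico (0 : ℤ) (0 + n), f x
  set t := ∑ x ∈ Ico (a + q * n) (a + q * n + r), f x
  have hrn : (r : ℝ) ≤ n := by exact_mod_cast hr.le
  have hr' : (0 : ℝ) ≤ r := by positivity
  have e2 : ((q * n + r : ℕ) : ℝ) / n * s = q * s + r / n * s := by
    push_cast
    field_simp
  have c1 : 0 ≤ (r : ℝ) / n * s := by positivity
  have c2 : (r : ℝ) / n * s ≤ s := mul_le_of_le_one_left b1 ((div_le_one hn0).mpr hrn)
  have c3 : (r : ℝ) * B ≤ n * B := mul_le_mul_of_nonneg_right hrn hB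
  rw [e2, abs_le]
  constructor <;> linarith

lemma P.crt {m n : ℕ} (hm : 1 ≤ m) (hn : 1 ≤ n) (hc : Nat.Coprime m n) {f g : ℤ → ℝ}
    (hf : P m f) (hg : P n g) :
    ∑ x ∈ Ico (0 : ℤ) (0 + (m * n : ℕ)), f x * g x =
      (∑ x ∈ Ico (0 : ℤ) (0 + m), f x) * ∑ x ∈ Ico (0 : ℤ) (0 + n), g x := by
  have : NeZero m := ⟨by omega⟩
  have : NeZero n := ⟨by omega⟩
  have : NeZero (m * n) := ⟨Nat.mul_ne_zero (by omega) (by omega)⟩
  rw [hf.period, hg.period, sum_mul_sum, ← Fintype.sum_prod_type',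
    ← Equiv.sum_comp (ZMod.chineseRemainder hc).toEquiv,
    ← one_period (m * n) _ 0]
  refine sum_congr rfl fun x _ => ?_
  have e : (ZMod.chineseRemainder hc).toEquiv (x : ZMod (m * n)) =
      ((x : ZMod m), (x : ZMod n)) := by
    change ZMod.chineseRemainder hc (x : ZMod (m * n)) = _
    rw [map_intCast]
    rfl
  rw [e, ← hf.lift, ← hg.lift]

/-! ### periodic functions on the Gaussian integers -/

lemma dvd_mk {n : ℕ} {a b c d : ℤ} (h1 : (n : ℤ) ∣ a - c) (h2 : (n : ℤ) ∣ b - d) :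
    (n : GI) ∣ (⟨a, b⟩ : GI) - ⟨c, d⟩ := by
  obtain ⟨s, hs⟩ := h1
  obtain ⟨t, ht⟩ := h2
  refine ⟨⟨s, t⟩, ?_⟩
  ext
  · simp [hs]
  · simp [ht]

lemma per_im {n : ℕ} {φ : GI → ℝ} (h : Per1 n φ) (x : ℤ) : P n fun y => φ ⟨x, y⟩ :=
  fun _ _ e => h _ _ (dvd_mk (by simp) e)

lemma per_row {n : ℕ} {φ : GI → ℝ} (h : Per1 n φ) (s : Finset ℤ) :
    P n fun x => ∑ y ∈ s, φ ⟨x, y⟩ :=
  fun _ _ e => sum_congr rfl fun _ _ => h _ _ (dvd_mk e (by simp))

lemma equi2 {n : ℕ} (hn : 1 ≤ n) {φ : GI → ℝ} (hp : Per1 n φ) (h : ∀ x, 0 ≤ φ x ∧ φ x ≤ 1)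
    (a b : ℤ) (L : ℕ) : |∑ x ∈ Sqr a b L, φ x - (L : ℝ) ^ 2 * E1 n φ| ≤ 2 * n * L := by
  have hn0 : (0 : ℝ) < n := by exact_mod_cast hn
  have hL : (0 : ℝ) ≤ L := by positivity
  unfold E1
  rw [sum_Sqr, sum_Sqr]
  set G : ℤ → ℝ := fun x => ∑ y ∈ Ico (0 : ℤ) (0 + n), φ ⟨x, y⟩ with hG
  have h1 : ∀ x : ℤ, |∑ y ∈ Ico b (b + L), φ ⟨x, y⟩ - (L : ℝ) / n * G x| ≤ n * 1 := fun x =>
    (per_im hp x).equi hn (fun y => h _) b L
  have h2 : |∑ x ∈ Ico a (a + L), G x - (L : ℝ) / n * ∑ x ∈ Ico (0 : ℤ) (0 + n), G x| ≤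
      n * (n * 1) :=
    (per_row hp _).equi hn (fun x => sum_Ico_bound (fun y => h _) 0 n) a L
  have h3 : |∑ x ∈ Ico a (a + L), (∑ y ∈ Ico b (b + L), φ ⟨x, y⟩ - (L : ℝ) / n * G x)| ≤
      L * (n * 1) := by
    refine le_trans (abs_sum_le_sum_abs _ _) ?_
    exact (sum_Ico_bound (fun x => ⟨abs_nonneg _, h1 x⟩) a L).2
  rw [sum_sub_distrib, ← mul_sum] at h3
  have e : ∑ x ∈ Ico a (a + L), ∑ y ∈ Ico b (b + L), φ ⟨x, y⟩ -
      (L : ℝ) ^ 2 * ((∑ x ∈ Ico (0 : ℤ) (0 + n), G x) / (n : ℝ) ^ 2) =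
      (∑ x ∈ Ico a (a + L), ∑ y ∈ Ico b (b + L), φ ⟨x, y⟩ -
        (L : ℝ) / n * ∑ x ∈ Ico a (a + L), G x) + (L : ℝ) / n *
        (∑ x ∈ Ico a (a + L), G x - (L : ℝ) / n * ∑ x ∈ Ico (0 : ℤ) (0 + n), G x) := by
    field_simp
    ring
  rw [e]
  refine le_trans (abs_add_le _ _) ?_
  rw [abs_mul, abs_of_nonneg (div_nonneg hL hn0.le)]
  have h4 := mul_le_mul_of_nonneg_left h2 (div_nonneg hL hn0.le)
  have e2 : (L : ℝ) / n * (n * (n * 1)) = n * L := by field_simp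
  rw [e2] at h4
  linarith

lemma E1_crt {m n : ℕ} (hm : 1 ≤ m) (hn : 1 ≤ n) (hc : Nat.Coprime m n) {φ ψ : GI → ℝ}
    (hφ : Per1 m φ) (hψ : Per1 n ψ) :
    E1 (m * n) (fun x => φ x * ψ x) = E1 m φ * E1 n ψ := by
  unfold E1
  rw [sum_Sqr, sum_Sqr, sum_Sqr]
  have h1 : ∀ x : ℤ, ∑ y ∈ Ico (0 : ℤ) (0 + (m * n : ℕ)), φ ⟨x, y⟩ * ψ ⟨x, y⟩ =
      (∑ y ∈ Ico (0 : ℤ) (0 + m), φ ⟨x, y⟩) * ∑ y ∈ Ico (0 : ℤ) (0 + n), ψ ⟨x, y⟩ := fun x =>
    P.crt hm hn hc (per_im hφ x) (per_im hψ x)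
  simp only [h1]
  rw [P.crt hm hn hc (per_row hφ _) (per_row hψ _)]
  push_cast
  rw [mul_pow, div_mul_div_comm]

lemma per1_mono {m n : ℕ} (h : m ∣ n) {φ : GI → ℝ} (hφ : Per1 m φ) : Per1 n φ :=
  fun x y e => hφ x y (dvd_trans (Nat.cast_dvd_cast h) e)

lemma E1_prod (L : Finset ℕ) (φ : ℕ → GI → ℝ) (h : ∀ l ∈ L, l.Prime ∧ Per1 (l ^ 2) (φ l)) :
    Per1 (∏ l ∈ L, l ^ 2) (fun x => ∏ l ∈ L, φ l x) ∧
      E1 (∏ l ∈ L, l ^ 2) (fun x => ∏ l ∈ L, φ l x) = ∏ l ∈ L, E1 (l ^ 2) (φ l) := by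
  constructor
  · intro x y e
    exact prod_congr rfl fun l hl => per1_mono (dvd_prod_of_mem (fun l => l ^ 2) hl) (h l hl).2 x y e
  · induction L using Finset.induction_on with
    | empty => simpa using E1_const (m := 1) le_rfl 1
    | insert p L hp ih =>
      have hL : ∀ l ∈ L, l.Prime ∧ Per1 (l ^ 2) (φ l) := fun l hl => h l (mem_insert_of_mem hl)
      obtain ⟨hpp, hper⟩ := h p (mem_insert_self p L)
      simp only [prod_insert hp]
      rw [E1_crt (Nat.one_le_pow _ _ hpp.pos)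
        (Finset.one_le_prod' fun l hl => Nat.one_le_pow _ _ (hL l hl).1.pos) ?_ hper ?_, ih hL]
      · apply Nat.Coprime.prod_right
        intro l hl
        apply Nat.Coprime.pow
        rw [Nat.coprime_primes hpp (hL l hl).1]
        rintro rfl
        exact hp hl
      · intro x y e
        exact prod_congr rfl fun l hl => per1_mono (dvd_prod_of_mem (fun l => l ^ 2) hl) (hL l hl).2 x y e

/-- equidistribution of products of local functions in a square -/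
lemma equi_prod (L : Finset ℕ) (φ : ℕ → GI → ℝ)
    (h : ∀ l ∈ L, l.Prime ∧ Per1 (l ^ 2) (φ l) ∧ ∀ x, 0 ≤ φ l x ∧ φ l x ≤ 1) (a b : ℤ) (M : ℕ) :
    |∑ x ∈ Sqr a b M, ∏ l ∈ L, φ l x - (M : ℝ) ^ 2 * ∏ l ∈ L, E1 (l ^ 2) (φ l)| ≤
      2 * (∏ l ∈ L, (l : ℝ)) ^ 2 * M := by
  obtain ⟨h1, h2⟩ := E1_prod L φ fun l hl => ⟨(h l hl).1, (h l hl).2.1⟩
  have := equi2 (Finset.one_le_prod' fun l hl => Nat.one_le_pow _ _ (h l hl).1.pos) h1
    (fun x => ⟨prod_nonneg fun l hl => ((h l hl).2.2 x).1,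
      prod_le_one (fun l hl => ((h l hl).2.2 x).1) fun l hl => ((h l hl).2.2 x).2⟩) a b M
  rw [h2] at this
  refine le_trans this (le_of_eq ?_)
  push_cast
  rw [prod_pow]

lemma Em_bounds {m : ℕ} (hm : 1 ≤ m) {φ : GI × GI → ℝ} (h : ∀ x, 0 ≤ φ x ∧ φ x ≤ 1) :
    0 ≤ Em m φ ∧ Em m φ ≤ 1 := by
  constructor
  · rw [← Em_const hm 0]
    exact Em_mono fun x _ => (h x).1
  · rw [← Em_const hm 1]
    exact Em_mono fun x _ => (h x).2

lemma E1_bounds {m : ℕ} (hm : 1 ≤ m) {φ : GI → ℝ} (h : ∀ x, 0 ≤ φ x ∧ φ x ≤ 1) :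
    0 ≤ E1 m φ ∧ E1 m φ ≤ 1 := by
  constructor
  · rw [← E1_const hm 0]
    exact E1_mono fun x => (h x).1
  · rw [← E1_const hm 1]
    exact E1_mono fun x => (h x).2

end B4b

open B4b in
theorem B4b_efl (h : FLStmt) (h2 : PEStmt) : EFLStmt := by
  intro κ δ hδ
  obtain ⟨u, hu⟩ := gen h κ δ hδ
  obtain ⟨K, hK⟩ := h2
  refine ⟨u, 2 * |K|, fun C D z L0 L1 φ hC hD hz hd h1 h3 => ?_⟩
  have hz0 : 0 ≤ z := by linarith
  have hP : 0 ≤ ∏ l ∈ L0, (l : ℝ) := prod_nonneg fun l _ => Nat.cast_nonneg l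
  have hW : 0 ≤ ((C : ℝ) + D) * (C : ℝ) ^ (4 / 5 : ℝ) := by positivity
  have key := hu (GI × GI) (Box C D) (Box C D).card z
    (|K| * ((∏ l ∈ L0, (l : ℝ)) * z ^ u) ^ 12 * (((C : ℝ) + D) * (C : ℝ) ^ (4 / 5 : ℝ))) L0 L1 φ
    (fun l => Em (l ^ 2) (φ l)) hz (Nat.cast_nonneg _) (by positivity) hd
    (fun l hl => by
      obtain ⟨a1, -, a3⟩ := h1 l hl
      obtain ⟨b1, b2⟩ := Em_bounds (Nat.one_le_pow 2 l a1.pos) a3
      exact ⟨a1, b1, b2, a3⟩) h3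
    (fun S hS hSz => by
      have hd' : Disjoint L0 S := hd.mono_right hS
      have k := hK C D hC hD (L0 ∪ S) (fun l => if l ∈ L0 then φ l else fun x => 1 - φ l x)
        (fun l hl => by
          obtain ⟨a1, a2, a3⟩ := h1 l (union_subset_union_right hS hl)
          refine ⟨a1, ?_⟩
          split_ifs
          · exact ⟨a2, a3⟩
          · refine ⟨fun x y e1 e2 => congrArg (fun t => 1 - t) (a2 x y e1 e2), fun x => ?_⟩
            obtain ⟨b1, b2⟩ := a3 x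
            constructor <;> linarith)
      have e1 : ∀ x, ∏ l ∈ L0 ∪ S, (if l ∈ L0 then φ l else fun x => 1 - φ l x) x =
          (∏ l ∈ L0, φ l x) * ∏ l ∈ S, (1 - φ l x) := fun x =>
        prod_mix hd' φ (fun l x => 1 - φ l x) (fun _ f => f x)
      have e2 : ∏ l ∈ L0 ∪ S, Em (l ^ 2) (if l ∈ L0 then φ l else fun x => 1 - φ l x) =
          (∏ l ∈ L0, Em (l ^ 2) (φ l)) * ∏ l ∈ S, (1 - Em (l ^ 2) (φ l)) := by
        rw [prod_mix hd' φ (fun l x => 1 - φ l x) (fun l f => Em (l ^ 2) f)]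
        congr 1
        refine prod_congr rfl fun l hl => ?_
        have a1 := (h1 l (mem_union_right _ (hS hl))).1
        rw [Em_sub, Em_const (Nat.one_le_pow 2 l a1.pos)]
      simp only [e1] at k
      rw [e2, ← mul_assoc, prod_union hd'] at k
      refine le_trans k ?_
      rw [mul_assoc]
      apply mul_le_mul_of_nonneg_right _ hW
      have hS0 : 0 ≤ ∏ l ∈ S, (l : ℝ) := prod_nonneg fun l _ => Nat.cast_nonneg l
      apply mul_le_mul (le_abs_self K) _ (by positivity) (abs_nonneg K)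
      exact pow_le_pow_left₀ (by positivity) (mul_le_mul_of_nonneg_left hSz hP) 12)
  refine le_trans key (le_of_eq ?_)
  ring

open B4b in
theorem B4b_lfl (h : FLStmt) : LFLStmt := by
  intro κ δ hδ
  obtain ⟨u, hu⟩ := gen h κ δ hδ
  refine ⟨u, fun a b L z L0 L1 φ hz hd h1 h3 => ?_⟩
  have hz0 : 0 ≤ z := by linarith
  have hP : 0 ≤ ∏ l ∈ L0, (l : ℝ) := prod_nonneg fun l _ => Nat.cast_nonneg l
  have key := hu GI (Sqr a b L) ((L : ℝ) ^ 2) z
    (2 * ((∏ l ∈ L0, (l : ℝ)) * z ^ u) ^ 2 * L) L0 L1 φ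
    (fun l => E1 (l ^ 2) (φ l)) hz (by positivity) (by positivity) hd
    (fun l hl => by
      obtain ⟨a1, -, a3⟩ := h1 l hl
      obtain ⟨b1, b2⟩ := E1_bounds (Nat.one_le_pow 2 l a1.pos) a3
      exact ⟨a1, b1, b2, a3⟩) h3
    (fun S hS hSz => by
      have hd' : Disjoint L0 S := hd.mono_right hS
      have k := equi_prod (L0 ∪ S) (fun l => if l ∈ L0 then φ l else fun x => 1 - φ l x)
        (fun l hl => by
          obtain ⟨a1, a2, a3⟩ := h1 l (union_subset_union_right hS hl)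
          refine ⟨a1, ?_⟩
          split_ifs
          · exact ⟨a2, a3⟩
          · refine ⟨fun x y e1 => congrArg (fun t => 1 - t) (a2 x y e1), fun x => ?_⟩
            obtain ⟨b1, b2⟩ := a3 x
            constructor <;> linarith) a b L
      have e1 : ∀ x, ∏ l ∈ L0 ∪ S, (if l ∈ L0 then φ l else fun x => 1 - φ l x) x =
          (∏ l ∈ L0, φ l x) * ∏ l ∈ S, (1 - φ l x) := fun x =>
        prod_mix hd' φ (fun l x => 1 - φ l x) (fun _ f => f x)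
      have e2 : ∏ l ∈ L0 ∪ S, E1 (l ^ 2) (if l ∈ L0 then φ l else fun x => 1 - φ l x) =
          (∏ l ∈ L0, E1 (l ^ 2) (φ l)) * ∏ l ∈ S, (1 - E1 (l ^ 2) (φ l)) := by
        rw [prod_mix hd' φ (fun l x => 1 - φ l x) (fun l f => E1 (l ^ 2) f)]
        congr 1
        refine prod_congr rfl fun l hl => ?_
        have a1 := (h1 l (mem_union_right _ (hS hl))).1
        rw [E1_sub, E1_const (Nat.one_le_pow 2 l a1.pos)]
      simp only [e1] at k
      rw [e2, ← mul_assoc, prod_union hd'] at k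
      refine le_trans k ?_
      apply mul_le_mul_of_nonneg_right _ (Nat.cast_nonneg L)
      have hS0 : 0 ≤ ∏ l ∈ S, (l : ℝ) := prod_nonneg fun l _ => Nat.cast_nonneg l
      apply mul_le_mul_of_nonneg_left _ (by norm_num)
      exact pow_le_pow_left₀ (by positivity) (mul_le_mul_of_nonneg_left hSz hP) 2)
  refine le_trans key ?_
  have : 0 ≤ 4 * z ^ (u + 1) * ((∏ l ∈ L0, (l : ℝ)) * z ^ u) ^ 4 := by positivity
  nlinarith [this]

end Pool.Agent.Lib.LQ
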