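import Pool.Agent.Lib.LQ.Defs

/-! Block B4c of the project LQ: local counts for Gaussian integers modulo a prime. -/

set_option autoImplicit false

open Finset
open scoped Classical

noncomputable section

namespace Pool.Agent.Lib.LQ

namespace B4c

lemma ind_nonneg (p : Prop) : 0 ≤ ind p := by unfold ind; split_ifs <;> norm_num

lemma ind_congr {p q : Prop} (h : p ↔ q) : ind p = ind q := by rw [propext h]

lemma ind_le_add {p q r : Prop} (h : p → q ∨ r) : ind p ≤ ind q + ind r := by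
  unfold ind
  by_cases hp : p
  · rcases h hp with h | h <;> simp only [hp, h, if_true] <;> split_ifs <;> norm_num
  · simp only [hp, if_false]
    split_ifs <;> norm_num

lemma ind_and (p q : Prop) : ind (p ∧ q) = ind p * ind q := by
  unfold ind
  by_cases hp : p <;> by_cases hq : q <;> simp [hp, hq]

lemma sum_ind_eq {ι : Type*} [Fintype ι] (c : ι) : ∑ a : ι, ind (a = c) = 1 := by
  unfold ind
  rw [Finset.sum_eq_single c] <;> simp +contextual

lemma sum_Sqr (L : ℕ) (F : GI → ℝ) :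
    ∑ α ∈ Sqr 0 0 L, F α = ∑ x ∈ Ico (0 : ℤ) L, ∑ y ∈ Ico (0 : ℤ) L, F ⟨x, y⟩ := by
  unfold Sqr
  rw [Finset.sum_image, Finset.sum_product]
  · simp
  · intro x _ y _ h
    have h1 := congrArg Zsqrtd.re h
    have h2 := congrArg Zsqrtd.im h
    exact Prod.ext h1 h2

lemma sum_per (l k : ℕ) [NeZero l] (G : ZMod l → ℝ) :
    ∑ x ∈ Ico (0 : ℤ) ((l * k : ℕ) : ℤ), G (x : ZMod l) = k * ∑ a, G a := by
  have hl : (0 : ℤ) < l := by exact_mod_cast Nat.pos_of_ne_zero (NeZero.ne l)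
  rw [← Finset.sum_fiberwise_of_maps_to (g := fun x : ℤ => (x : ZMod l)) (t := univ)
    (fun _ _ => mem_univ _), Finset.mul_sum]
  refine Finset.sum_congr rfl fun a _ => ?_
  rw [Finset.sum_congr rfl (g := fun _ => G a) (fun x hx => by rw [(mem_filter.1 hx).2]),
    sum_const, nsmul_eq_mul]
  congr 1
  have h1 := Int.Ico_filter_modEq_card 0 ((l * k : ℕ) : ℤ) hl (a.val : ℤ)
  have h2 : ((Ico (0 : ℤ) ((l * k : ℕ) : ℤ)).filter fun x : ℤ => (x : ZMod l) = a) =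
      (Ico (0 : ℤ) ((l * k : ℕ) : ℤ)).filter fun x : ℤ => x ≡ (a.val : ℤ) [ZMOD l] := by
    refine filter_congr fun x _ => ?_
    rw [← ZMod.intCast_eq_intCast_iff]
    simp
  have hq : (l : ℚ) ≠ 0 := by exact_mod_cast NeZero.ne l
  have h3 : ((((l * k : ℕ) : ℤ) : ℚ) - ((a.val : ℤ) : ℚ)) / ((l : ℤ) : ℚ) =
      (((0 : ℤ) : ℚ) - ((a.val : ℤ) : ℚ)) / ((l : ℤ) : ℚ) + (k : ℤ) := by
    push_cast
    field_simp
    ring
  rw [h3, Int.ceil_add_intCast, add_sub_cancel_left, max_eq_left (by positivity)] at h1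
  rw [h2]
  exact_mod_cast h1

lemma E1_red (l : ℕ) [NeZero l] (φ : GI → ℝ) (G : ZMod l → ZMod l → ℝ)
    (h : ∀ x y : ℤ, φ ⟨x, y⟩ = G x y) : E1 (l ^ 2) φ = (∑ a, ∑ b, G a b) / (l : ℝ) ^ 2 := by
  have hl : (l : ℝ) ≠ 0 := by exact_mod_cast NeZero.ne l
  unfold E1
  rw [sum_Sqr]
  simp_rw [h]
  rw [sq l]
  simp_rw [sum_per l l (G _)]
  rw [sum_per l l fun a => l * ∑ b, G a b, ← Finset.mul_sum]
  push_cast
  field_simp

/-- number of representations as a sum of two squares -/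
def NN (l : ℕ) [NeZero l] (c : ZMod l) : ℝ := ∑ b : ZMod l, ∑ a : ZMod l, ind (a ^ 2 + b ^ 2 = c)

lemma row_le (l : ℕ) [Fact l.Prime] (b c : ZMod l) :
    ∑ a : ZMod l, ind (a ^ 2 + b ^ 2 = c) ≤ 2 := by
  by_cases h : ∃ a0 : ZMod l, a0 ^ 2 + b ^ 2 = c
  · obtain ⟨a0, h0⟩ := h
    calc _ ≤ ∑ a : ZMod l, (ind (a = a0) + ind (a = -a0)) :=
          sum_le_sum fun a _ => ind_le_add fun ha =>
            sq_eq_sq_iff_eq_or_eq_neg.1 (by linear_combination ha - h0)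
      _ = 2 := by rw [sum_add_distrib, sum_ind_eq, sum_ind_eq]; norm_num
  · push Not at h
    simp [ind, h]

lemma NN_le (l : ℕ) [Fact l.Prime] (c : ZMod l) : NN l c ≤ 2 * l := by
  calc _ ≤ ∑ _b : ZMod l, (2 : ℝ) := sum_le_sum fun b _ => row_le l b c
    _ = _ := by simp [mul_comm]

lemma NN_zero (l : ℕ) [Fact l.Prime] : 1 ≤ NN l 0 ∧ NN l 0 ≤ 2 * l - 1 := by
  have h0 : ∑ a : ZMod l, ind (a ^ 2 + (0 : ZMod l) ^ 2 = 0) = 1 := by
    rw [← sum_ind_eq (0 : ZMod l)]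
    exact sum_congr rfl fun a _ => ind_congr (by simp)
  unfold NN
  rw [← Finset.add_sum_erase _ _ (mem_univ (0 : ZMod l)), h0]
  constructor
  · have : 0 ≤ ∑ b ∈ univ.erase (0 : ZMod l), ∑ a : ZMod l, ind (a ^ 2 + b ^ 2 = 0) :=
      sum_nonneg fun _ _ => sum_nonneg fun _ _ => ind_nonneg _
    linarith
  · have h1 : ∑ b ∈ univ.erase (0 : ZMod l), ∑ a : ZMod l, ind (a ^ 2 + b ^ 2 = 0) ≤
        ∑ _b ∈ univ.erase (0 : ZMod l), (2 : ℝ) := sum_le_sum fun b _ => row_le l b 0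
    have h2 : 1 ≤ l := (Fact.out : l.Prime).one_le
    rw [sum_const, card_erase_of_mem (mem_univ _), card_univ, ZMod.card, nsmul_eq_mul,
      Nat.cast_sub h2] at h1
    push_cast at h1
    linarith

lemma NN_mul (l : ℕ) [Fact l.Prime] {c : ZMod l} (hc : c ≠ 0) : NN l c = NN l 1 := by
  obtain ⟨u, v, huv⟩ := ZMod.sq_add_sq l c
  let e : ZMod l × ZMod l ≃ ZMod l × ZMod l :=
    { toFun := fun x => (u * x.1 + v * x.2, u * x.2 - v * x.1)
      invFun := fun x => ((u * x.1 - v * x.2) / c, (u * x.2 + v * x.1) / c)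
      left_inv := fun x => by
        ext
        · simp only
          rw [div_eq_iff hc, ← huv]; ring
        · simp only
          rw [div_eq_iff hc, ← huv]; ring
      right_inv := fun x => by
        ext
        · simp only
          field_simp
          rw [← huv]; ring
        · simp only
          field_simp
          rw [← huv]; ring }
  unfold NN
  rw [← Fintype.sum_prod_type', ← Fintype.sum_prod_type', ← e.sum_comp]
  refine sum_congr rfl fun x _ => ind_congr ?_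
  have : (e x).2 ^ 2 + (e x).1 ^ 2 = c * (x.2 ^ 2 + x.1 ^ 2) := by
    show (u * x.2 - v * x.1) ^ 2 + (u * x.1 + v * x.2) ^ 2 = _
    rw [← huv]; ring
  rw [this]
  exact mul_eq_left₀ hc

lemma NN_sum (l : ℕ) [Fact l.Prime] : ∑ c : ZMod l, NN l c = (l : ℝ) ^ 2 := by
  unfold NN
  rw [Finset.sum_comm]
  simp_rw [Finset.sum_comm (s := (univ : Finset (ZMod l))) (t := (univ : Finset (ZMod l)))
    (f := fun c a => ind (a ^ 2 + _ ^ 2 = c))]
  have : ∀ a b : ZMod l, ∑ c : ZMod l, ind (a ^ 2 + b ^ 2 = c) = 1 := fun a b => by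
    rw [← sum_ind_eq (a ^ 2 + b ^ 2)]
    exact sum_congr rfl fun c _ => ind_congr eq_comm
  simp only [this]
  simp [sq]

lemma NN_bounds (l : ℕ) [Fact l.Prime] {c : ZMod l} (hc : c ≠ 0) :
    (l : ℝ) - 1 ≤ NN l c ∧ NN l c ≤ l + 1 := by
  have h1 := NN_sum l
  have h2 : 1 ≤ l := (Fact.out : l.Prime).one_le
  have h3 : (2 : ℝ) ≤ l := by exact_mod_cast (Fact.out : l.Prime).two_le
  rw [← Finset.add_sum_erase _ _ (mem_univ (0 : ZMod l)),
    sum_congr rfl (g := fun _ => NN l 1) (fun d hd => NN_mul l (ne_of_mem_erase hd)), sum_const,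
    card_erase_of_mem (mem_univ _), card_univ, ZMod.card, nsmul_eq_mul, Nat.cast_sub h2] at h1
  push_cast at h1
  obtain ⟨h4, h5⟩ := NN_zero l
  rw [NN_mul l hc]
  constructor
  · exact le_of_mul_le_mul_left (a := (l : ℝ) - 1) (by nlinarith) (by linarith)
  · exact le_of_mul_le_mul_left (a := (l : ℝ) - 1) (by nlinarith) (by linarith)

lemma dvd_sub_iff (l : ℕ) (x c : ℤ) : (l : ℤ) ∣ x - c ↔ (x : ZMod l) = c := by
  rw [eq_comm, ZMod.intCast_eq_intCast_iff_dvd_sub]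

lemma E1_norm (l : ℕ) [NeZero l] (c : ℤ) :
    E1 (l ^ 2) (fun x => ind ((l : ℤ) ∣ x.norm - c)) = NN l c / (l : ℝ) ^ 2 := by
  have h : ∀ x y : ℤ, (l : ℤ) ∣ (⟨x, y⟩ : GI).norm - c ↔
      (x : ZMod l) ^ 2 + (y : ZMod l) ^ 2 = (c : ZMod l) := by
    intro x y
    rw [dvd_sub_iff, Zsqrtd.norm_def]
    push_cast
    constructor <;> intro h <;> linear_combination h
  rw [E1_red l _ (fun a b => ind (a ^ 2 + b ^ 2 = (c : ZMod l))) fun x y => ind_congr (h x y),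
    Finset.sum_comm, NN]

lemma dvd_iff_lin {l : ℕ} [Fact l.Prime] {π : GI} (hπ : nm π = l) (x y : ℤ) :
    π ∣ ⟨x, y⟩ ↔ (x : ZMod l) = -(y * π.im / π.re) := by
  have hl : l.Prime := Fact.out
  have hn : π.norm = l := by
    rw [← hπ, nm, Int.natAbs_of_nonneg (GaussianInt.norm_nonneg π)]
  have hn2 : π.re * π.re + π.im * π.im = l := by rw [← hn, Zsqrtd.norm_def]; ring
  have hz : (π.re : ZMod l) * π.re + π.im * π.im = 0 := by
    have := congrArg (Int.cast : ℤ → ZMod l) hn2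
    simpa using this
  have hp : (π.re : ZMod l) ≠ 0 := by
    intro h
    have h2 : (π.im : ZMod l) = 0 := by
      rw [h, zero_mul, zero_add] at hz
      exact mul_self_eq_zero.1 hz
    obtain ⟨a, ha⟩ := (ZMod.intCast_zmod_eq_zero_iff_dvd _ _).1 h
    obtain ⟨b, hb⟩ := (ZMod.intCast_zmod_eq_zero_iff_dvd _ _).1 h2
    have hl0 : (l : ℤ) ≠ 0 := by exact_mod_cast hl.ne_zero
    have h3 : (l : ℤ) * (l * (a * a + b * b)) = l * 1 := by
      rw [mul_one]
      nth_rewrite 3 [← hn2]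
      rw [ha, hb]; ring
    have h4 := mul_left_cancel₀ hl0 h3
    have h5 : (l : ℤ) ∣ 1 := ⟨_, h4.symm⟩
    exact hl.one_lt.ne' (by exact_mod_cast Int.eq_one_of_dvd_one (by positivity) h5)
  have hs : star π ≠ 0 := by
    intro h
    have : π = 0 := by simpa using h
    rw [this] at hp
    simp at hp
  have hm : π * star π = ((l : ℤ) : GI) := by rw [← hn, Zsqrtd.norm_eq_mul_conj]
  rw [← mul_dvd_mul_iff_right hs, hm, Zsqrtd.intCast_dvd, ← ZMod.intCast_zmod_eq_zero_iff_dvd,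
    ← ZMod.intCast_zmod_eq_zero_iff_dvd]
  simp only [Zsqrtd.re_mul, Zsqrtd.im_mul, Zsqrtd.re_star, Zsqrtd.im_star]
  push_cast
  constructor
  · rintro ⟨h1, -⟩
    field_simp
    linear_combination h1
  · intro h
    rw [h]
    constructor
    · field_simp
      ring
    · field_simp
      linear_combination (y : ZMod l) * hz

lemma row_sq {l : ℕ} (hl : l.Prime) (h2 : l ≠ 2) (y : ℤ) :
    ∑ x ∈ Ico (0 : ℤ) ((l ^ 2 : ℕ) : ℤ),
      ind (¬ (l : ℤ) ∣ y ∧ (l : ℤ) ^ 2 ∣ x ^ 2 + y ^ 2) ≤ 2 := by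
  have : NeZero (l ^ 2) := ⟨pow_ne_zero 2 hl.ne_zero⟩
  have hp : Prime (l : ℤ) := Nat.prime_iff_prime_int.1 hl
  by_cases h : ∃ x0 : ℤ, ¬ (l : ℤ) ∣ y ∧ (l : ℤ) ^ 2 ∣ x0 ^ 2 + y ^ 2
  · obtain ⟨x0, hy, h0⟩ := h
    have key : ∀ x : ℤ, ¬ (l : ℤ) ∣ y ∧ (l : ℤ) ^ 2 ∣ x ^ 2 + y ^ 2 →
        (x : ZMod (l ^ 2)) = x0 ∨ (x : ZMod (l ^ 2)) = ((-x0 : ℤ) : ZMod (l ^ 2)) := by
      rintro x ⟨-, hx⟩
      rw [← dvd_sub_iff, ← dvd_sub_iff]
      push_cast
      have h3 : (l : ℤ) ^ 2 ∣ (x - x0) * (x - -x0) := by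
        have := dvd_sub hx h0
        rwa [show x ^ 2 + y ^ 2 - (x0 ^ 2 + y ^ 2) = (x - x0) * (x - -x0) by ring] at this
      by_cases h4 : (l : ℤ) ∣ x - x0
      · left
        refine hp.pow_dvd_of_dvd_mul_right 2 (fun h5 => hy ?_) h3
        have h6 : (l : ℤ) ∣ 2 * x0 := by
          have := dvd_sub h5 h4
          rwa [show x - -x0 - (x - x0) = 2 * x0 by ring] at this
        have h7 : (l : ℤ) ∣ x0 := by
          refine (hp.dvd_or_dvd h6).resolve_left fun h8 => h2 ?_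
          exact (Nat.prime_dvd_prime_iff_eq hl Nat.prime_two).1 (by exact_mod_cast h8)
        refine hp.dvd_of_dvd_pow (n := 2) ?_
        exact (dvd_add_right (dvd_pow h7 two_ne_zero)).1 ((dvd_pow_self _ two_ne_zero).trans h0)
      · right
        exact hp.pow_dvd_of_dvd_mul_left 2 h4 h3
    calc _ ≤ ∑ x ∈ Ico (0 : ℤ) ((l ^ 2 : ℕ) : ℤ), (ind ((x : ZMod (l ^ 2)) = x0) +
            ind ((x : ZMod (l ^ 2)) = ((-x0 : ℤ) : ZMod (l ^ 2)))) :=
          sum_le_sum fun x _ => ind_le_add (key x)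
      _ = 2 := by
        have := sum_per (l ^ 2) 1 fun a => ind (a = x0) + ind (a = ((-x0 : ℤ) : ZMod (l ^ 2)))
        rw [mul_one, sum_add_distrib (s := univ), sum_ind_eq, sum_ind_eq] at this
        rw [this]; norm_num
  · push Not at h
    rw [sum_eq_zero fun x _ => by simp only [ind]; exact if_neg fun hx => h x hx.1 hx.2]
    norm_num

end B4c

open B4c in
theorem B4c : Loc1Stmt := by
  refine ⟨fun l c hl => ?_, fun l c hl => ?_, fun l π hl hπ => ?_, fun l c hl _ => ?_,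
    fun l c hl _ hc => ?_, fun l hl h2 => ?_⟩ <;> have : Fact l.Prime := ⟨hl⟩ <;>
    have hl0 : (0 : ℝ) < l := by exact_mod_cast hl.pos
  · rw [E1_red l _ (fun a b => ind (a = c.re) * ind (b = c.im)) fun x y => ?_]
    · simp_rw [← Finset.mul_sum, sum_ind_eq, mul_one, sum_ind_eq]
    · rw [← ind_and, ← dvd_sub_iff, ← dvd_sub_iff]
      exact ind_congr (Zsqrtd.intCast_dvd (l : ℤ) _)
  · rw [E1_red l _ (fun a _ => ind (a = c)) fun x y => ind_congr (dvd_sub_iff l x c),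
      Finset.sum_comm]
    simp_rw [sum_ind_eq]
    simp only [sum_const, card_univ, ZMod.card, nsmul_eq_mul, mul_one]
    field_simp
  · rw [E1_red l _ (fun a b => ind (a = -(b * π.im / π.re))) fun x y =>
      ind_congr (dvd_iff_lin hπ x y), Finset.sum_comm]
    simp_rw [sum_ind_eq]
    simp only [sum_const, card_univ, ZMod.card, nsmul_eq_mul, mul_one]
    field_simp
  · rw [E1_norm, div_le_div_iff₀ (by positivity) hl0]
    nlinarith [NN_le l (c : ZMod l)]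
  · rw [E1_norm]
    obtain ⟨h1, h2⟩ := NN_bounds l (c := (c : ZMod l))
      (fun h => hc ((ZMod.intCast_zmod_eq_zero_iff_dvd _ _).1 h))
    constructor <;> gcongr
  · have hp : Prime (l : ℤ) := Nat.prime_iff_prime_int.1 hl
    unfold E1
    rw [sum_Sqr, Finset.sum_comm]
    have key : ∀ y x : ℤ, ind (l ^ 2 ∣ nm ⟨x, y⟩) ≤ ind ((y : ZMod l) = 0 ∧ (x : ZMod l) = 0) +
        ind (¬ (l : ℤ) ∣ y ∧ (l : ℤ) ^ 2 ∣ x ^ 2 + y ^ 2) := by
      intro y x
      refine ind_le_add fun h => ?_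
      have h3 : (l : ℤ) ^ 2 ∣ x ^ 2 + y ^ 2 := by
        have h4 : ((l ^ 2 : ℕ) : ℤ) ∣ (⟨x, y⟩ : GI).norm := Int.natCast_dvd.2 h
        rw [Zsqrtd.norm_def] at h4
        push_cast at h4
        rwa [show x * x - -1 * y * y = x ^ 2 + y ^ 2 by ring] at h4
      by_cases hy : (l : ℤ) ∣ y
      · left
        rw [ZMod.intCast_zmod_eq_zero_iff_dvd, ZMod.intCast_zmod_eq_zero_iff_dvd]
        refine ⟨hy, hp.dvd_of_dvd_pow (n := 2) ?_⟩
        exact (dvd_add_left (dvd_pow hy two_ne_zero)).1 ((dvd_pow_self _ two_ne_zero).trans h3)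
      · exact Or.inr ⟨hy, h3⟩
    have h5 : ∑ y ∈ Ico (0 : ℤ) ((l ^ 2 : ℕ) : ℤ), ∑ x ∈ Ico (0 : ℤ) ((l ^ 2 : ℕ) : ℤ),
        ind ((y : ZMod l) = 0 ∧ (x : ZMod l) = 0) = (l : ℝ) ^ 2 := by
      simp_rw [ind_and, ← Finset.mul_sum]
      rw [← Finset.sum_mul, sq l, sum_per l l fun a => ind (a = 0), sum_ind_eq]
      ring
    have h6 : ∑ y ∈ Ico (0 : ℤ) ((l ^ 2 : ℕ) : ℤ), ∑ x ∈ Ico (0 : ℤ) ((l ^ 2 : ℕ) : ℤ),
        ind (¬ (l : ℤ) ∣ y ∧ (l : ℤ) ^ 2 ∣ x ^ 2 + y ^ 2) ≤ 2 * (l : ℝ) ^ 2 := by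
      refine (sum_le_sum fun y _ => row_sq hl h2 y).trans (le_of_eq ?_)
      rw [sum_const, Int.card_Ico, sub_zero, Int.toNat_natCast, nsmul_eq_mul]
      push_cast
      ring
    have h7 := sum_le_sum (s := Ico (0 : ℤ) ((l ^ 2 : ℕ) : ℤ)) fun y _ =>
      sum_le_sum (s := Ico (0 : ℤ) ((l ^ 2 : ℕ) : ℤ)) fun x _ => key y x
    simp_rw [sum_add_distrib] at h7
    push_cast at h5 h6 h7 ⊢
    rw [div_le_div_iff₀ (by positivity) (by positivity)]
    nlinarith [pow_pos hl0 2]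

end Pool.Agent.Lib.LQ
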