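import Pool.Agent.Lib.LQ.Basic2
import Pool.Agent.Lib.MP_6073f3_nt.Mertens
import Pool.Agent.Lib.MP_fb430f_co.Circle

set_option autoImplicit false

open Finset
open scoped Classical

noncomputable section

namespace Pool.Agent.Lib.LQ

open Pool.Agent.Lib.MP_de94cf_nt (gg det inn)

lemma div_bounds {ε : ℝ} (hε : 0 < ε) : ∃ K : ℝ, 1 ≤ K ∧ ∀ n : ℕ, n ≠ 0 →
    (n.divisors.card : ℝ) ≤ K * (n : ℝ) ^ ε ∧
    ∀ A : Finset GI, (∀ α ∈ A, nm α = n) → (A.card : ℝ) ≤ K * (n : ℝ) ^ ε := by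
  obtain ⟨C, hC, h⟩ := Pool.Agent.Lib.MP_fb430f_co.div_bound hε
  refine ⟨10 * C + 1, by linarith, fun n hn => ⟨?_, fun A hA => ?_⟩⟩
  · have h1 : n.divisors.card ≤ ∏ p ∈ n.primeFactors, (n.factorization p + 2) := by
      rw [Nat.card_divisors hn]
      exact prod_le_prod' fun _ _ => by omega
    have h2 : (0 : ℝ) ≤ (n : ℝ) ^ ε := by positivity
    have h3 := h n hn
    have h4 : (n.divisors.card : ℝ) ≤
        ((∏ p ∈ n.primeFactors, (n.factorization p + 2) : ℕ) : ℝ) := by exact_mod_cast h1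
    nlinarith
  · have h1 := Pool.Agent.Lib.MP_fb430f_co.form_bound 1 one_pos n hn (A.image fun α => (α.re, α.im)) (by
      intro a ha
      obtain ⟨α, h1, rfl⟩ := mem_image.1 ha
      rw [← hA α h1, nm_int']; ring)
    rw [card_image_of_injective _ (fun a b e => by
      simp only [Prod.mk.injEq] at e; exact Zsqrtd.ext e.1 e.2)] at h1
    have h2 : (0 : ℝ) ≤ (n : ℝ) ^ ε := by positivity
    have h3 := h n hn
    have h4 : (A.card : ℝ) ≤
        10 * ((∏ p ∈ n.primeFactors, (n.factorization p + 2) : ℕ) : ℝ) := by exact_mod_cast h1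
    nlinarith

lemma dim_four {y : ℝ} (hy : 1 < y) {S : Finset ℕ}
    (hS : ∀ l ∈ S, l.Prime ∧ y < (l : ℝ) ∧ (l : ℝ) ≤ y ^ 2) : ∑ l ∈ S, 1 / (l : ℝ) ≤ 4 := by
  by_cases h2 : y < 2
  · have h3 : S ⊆ Icc 1 4 := fun l hl => by
      have h4 := hS l hl
      have : (l : ℝ) ≤ 4 := by nlinarith [h4.2.2]
      exact mem_Icc.2 ⟨h4.1.pos, by exact_mod_cast this⟩
    calc _ ≤ ∑ l ∈ S, (1 : ℝ) := sum_le_sum fun l hl => by
          rw [div_le_one (by exact_mod_cast (hS l hl).1.pos)]; exact_mod_cast (hS l hl).1.pos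
      _ ≤ 4 := by
          have := card_le_card h3
          simp only [Nat.card_Icc] at this
          rw [sum_const, nsmul_eq_mul, mul_one]; exact_mod_cast this
  push Not at h2
  have h1 : 1 ≤ ⌊y ^ 2⌋₊ := Nat.le_floor (by push_cast; nlinarith)
  have h3 := TorsRank.mertens_le ⌊y ^ 2⌋₊ h1 S fun l hl => ⟨(hS l hl).1, Nat.le_floor (hS l hl).2.2⟩
  have h4 : Real.log (⌊y ^ 2⌋₊ : ℝ) ≤ 2 * Real.log y := by
    have := Real.log_le_log (by exact_mod_cast h1) (Nat.floor_le (show 0 ≤ y ^ 2 by positivity))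
    rwa [Real.log_pow] at this
  have h5 : Real.log 4 ≤ 2 * Real.log y := by
    rw [show (4 : ℝ) = 2 ^ 2 by norm_num, Real.log_pow]
    have := Real.log_le_log two_pos h2
    push_cast; linarith
  have h6 : 0 < Real.log y := Real.log_pos hy
  have h7 : Real.log y * ∑ l ∈ S, 1 / (l : ℝ) ≤ ∑ l ∈ S, Real.log l / l := by
    rw [mul_sum]
    refine sum_le_sum fun l hl => ?_
    rw [mul_one_div]
    exact div_le_div_of_nonneg_right (Real.log_le_log (by linarith) (hS l hl).2.1.le)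
      (by positivity)
  nlinarith

lemma sum_tele_le (F G : ℕ → ℝ) (n : ℕ) (hF : ∀ l, 0 ≤ F l) (hG : ∀ l, 0 ≤ G l)
    (h : ∀ l, n ≤ l → F (l + 1) ≤ G l - G (l + 1)) {S : Finset ℕ} (hS : ∀ l ∈ S, n < l) :
    ∑ l ∈ S, F l ≤ G n := by
  obtain ⟨N, hN⟩ := S.bddAbove
  have key : ∀ m, ∑ l ∈ Ioc n (n + m), F l ≤ G n - G (n + m) := by
    intro m
    induction m with
    | zero => simp
    | succ m ih =>
      rw [← add_assoc, sum_Ioc_succ_top (by omega)]
      have := h (n + m) (by omega)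
      linarith
  have h1 : S ⊆ Ioc n (n + N) := fun l hl => mem_Ioc.2 ⟨hS l hl, by have := hN hl; omega⟩
  have := sum_le_sum_of_subset_of_nonneg h1 fun l _ _ => hF l
  linarith [key N, hG (n + N)]

lemma sum_inv_sq_tail {w : ℝ} (hw : 1 ≤ w) {S : Finset ℕ} (hS : ∀ l ∈ S, w < (l : ℝ)) :
    ∑ l ∈ S, 1 / (l : ℝ) ^ 2 ≤ 2 / w := by
  have h1 : 1 ≤ ⌊w⌋₊ := Nat.le_floor (by simpa using hw)
  have h2 : (1 : ℝ) ≤ ⌊w⌋₊ := by exact_mod_cast h1
  have h3 := Nat.lt_floor_add_one w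
  have := sum_tele_le (fun l => 1 / (l : ℝ) ^ 2) (fun l => 1 / (l : ℝ)) ⌊w⌋₊
    (fun _ => by positivity) (fun _ => by positivity) (fun l hl => by
      have : (1 : ℝ) ≤ l := by exact_mod_cast h1.trans hl
      push_cast
      rw [div_sub_div _ _ (by positivity) (by positivity), div_le_div_iff₀ (by positivity)
        (by positivity)]
      nlinarith) (S := S) fun l hl => (Nat.floor_lt (by linarith)).2 (hS l hl)
  refine this.trans ?_
  rw [div_le_div_iff₀ (by positivity) (by positivity)]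
  linarith

lemma sum_inv_sqrt_tail {w : ℝ} (hw : 1 ≤ w) {S : Finset ℕ} (hS : ∀ l ∈ S, w < (l : ℝ)) :
    ∑ l ∈ S, 1 / ((l : ℝ) * Real.sqrt l) ≤ 4 / Real.sqrt w := by
  have h1 : 1 ≤ ⌊w⌋₊ := Nat.le_floor (by simpa using hw)
  have h2 : (1 : ℝ) ≤ ⌊w⌋₊ := by exact_mod_cast h1
  have h3 := Nat.lt_floor_add_one w
  have := sum_tele_le (fun l => 1 / ((l : ℝ) * Real.sqrt l)) (fun l => 2 / Real.sqrt l) ⌊w⌋₊
    (fun _ => by positivity) (fun _ => by positivity) (fun l hl => by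
      have h4 : (1 : ℝ) ≤ l := by exact_mod_cast h1.trans hl
      push_cast
      obtain ⟨a, ha, e1⟩ : ∃ a, 0 < a ∧ a = Real.sqrt l := ⟨_, by positivity, rfl⟩
      obtain ⟨b, hb, e2⟩ : ∃ b, 0 < b ∧ b = Real.sqrt (l + 1) := ⟨_, by positivity, rfl⟩
      have e3 : a ^ 2 = l := by rw [e1, Real.sq_sqrt (by positivity)]
      have e4 : b ^ 2 = l + 1 := by rw [e2, Real.sq_sqrt (by positivity)]
      have hab : a ≤ b := by rw [e1, e2]; exact Real.sqrt_le_sqrt (by linarith)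
      rw [← e1, ← e2, ← e4, div_sub_div _ _ ha.ne' hb.ne', div_le_div_iff₀ (by positivity)
        (by positivity)]
      have e5 : (b - a) * (b + a) = 1 := by linarith
      have e6 : a * b = (b - a) * ((b + a) * (a * b)) := by rw [← mul_assoc, e5, one_mul]
      have e7 : (b + a) * (a * b) ≤ 2 * (b ^ 2 * b) := by
        have := mul_le_mul (show b + a ≤ 2 * b by linarith) (mul_le_mul_of_nonneg_right hab hb.le)
          (by positivity) (by positivity)
        nlinarith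
      have := mul_le_mul_of_nonneg_left e7 (sub_nonneg.2 hab)
      nlinarith) (S := S) fun l hl => (Nat.floor_lt (by linarith)).2 (hS l hl)
  refine this.trans ?_
  have h5 : Real.sqrt w ≤ 2 * Real.sqrt ⌊w⌋₊ := by
    rw [show (2 : ℝ) = Real.sqrt 4 by rw [show (4 : ℝ) = 2 ^ 2 by norm_num, Real.sqrt_sq two_pos.le],
      ← Real.sqrt_mul (by norm_num)]
    exact Real.sqrt_le_sqrt (by linarith)
  rw [div_le_div_iff₀ (by positivity) (by positivity)]
  linarith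

lemma Lam_nonneg (w z : ℝ) : 0 ≤ Lam w z := sum_nonneg fun _ _ => by positivity
lemma Lam_add {w y z : ℝ} (h1 : w ≤ y) (h2 : y ≤ z) : Lam w z = Lam w y + Lam y z := by
  unfold Lam
  rw [← sum_union]
  · refine sum_congr ?_ fun _ _ => rfl
    ext l
    simp only [mem_union, mem_PP]
    constructor
    · rintro ⟨a, b, c, d⟩
      rcases le_or_gt (l : ℝ) y with h | h
      · exact Or.inl ⟨a, b, c, h⟩
      · exact Or.inr ⟨a, b, h, d⟩
    · rintro (⟨a, b, c, d⟩ | ⟨a, b, c, d⟩)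
      · exact ⟨a, b, c, by linarith⟩
      · exact ⟨a, b, by linarith, d⟩
  · rw [disjoint_left]
    intro l a b
    linarith [(mem_PP.1 a).2.2.2, (mem_PP.1 b).2.2.1]
lemma Lam_mono {w w' z z' : ℝ} (h1 : w' ≤ w) (h2 : z ≤ z') : Lam w z ≤ Lam w' z' :=
  sum_le_sum_of_subset_of_nonneg (fun l hl => by
    rw [mem_PP] at hl ⊢
    exact ⟨hl.1, hl.2.1, by linarith [hl.2.2.1], by linarith [hl.2.2.2]⟩) fun _ _ _ => by positivity
lemma Lam_eq (w z : ℝ) : Lam w z = ∑ π ∈ GF w z, 1 / ((nm π : ℝ) + 1) := by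
  rw [sum_GF w z fun l => 1 / ((l : ℝ) + 1), Lam, mul_sum]
  exact sum_congr rfl fun _ _ => by ring
/-- crude bound: `exp (n Λ) ≤ z` for large `z` -/
lemma exp_Lam_le (n : ℕ) : ∃ z0 : ℝ, ∀ w z : ℝ, z0 ≤ z → Real.exp (n * Lam w z) ≤ z := by
  have ht := (Real.isLittleO_pow_log_id_atTop (n := 2 * n)).bound
    (c := 1 / (28 ^ (2 * n) * Real.exp (8 * n))) (by positivity)
  obtain ⟨z0, hz0⟩ := Filter.eventually_atTop.1 ht
  refine ⟨max z0 2, fun w z hz => ?_⟩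
  have h2 : 2 ≤ z := (le_max_right _ _).trans hz
  have h3 := hz0 z ((le_max_left _ _).trans hz)
  have h4 : 2 ≤ ⌊z⌋₊ := Nat.le_floor (by simpa using h2)
  have h5 := TorsRank.recip_upper h4 (S := PP w z) fun l hl =>
    ⟨(mem_PP.1 hl).1, Nat.le_floor (mem_PP.1 hl).2.2.2⟩
  have h4' : (2 : ℝ) ≤ ⌊z⌋₊ := by exact_mod_cast h4
  have hl0 : 0 < Real.log ⌊z⌋₊ := Real.log_pos (by linarith)
  have hl1 : Real.log ⌊z⌋₊ ≤ Real.log z := Real.log_le_log (by linarith) (Nat.floor_le (by linarith))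
  have h6 : Lam w z ≤ 2 * (Real.log (28 * Real.log z) + 4) := by
    have : Lam w z ≤ 2 * ∑ p ∈ PP w z, (p : ℝ)⁻¹ := by
      rw [mul_sum]
      refine sum_le_sum fun l hl => ?_
      have : (0 : ℝ) < l := by exact_mod_cast (mem_PP.1 hl).1.pos
      rw [← div_eq_mul_inv]
      exact div_le_div_of_nonneg_left two_pos.le this (by linarith)
    have h7 := Real.log_le_log (by positivity) (mul_le_mul_of_nonneg_left hl1 (by norm_num : (0 : ℝ) ≤ 28))
    linarith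
  have hl2 : 0 < Real.log z := by linarith
  calc Real.exp (n * Lam w z) ≤ Real.exp (n * (2 * (Real.log (28 * Real.log z) + 4))) :=
        Real.exp_le_exp.2 (mul_le_mul_of_nonneg_left h6 (by positivity))
    _ = (28 ^ (2 * n) * Real.exp (8 * n)) * Real.log z ^ (2 * n) := by
        rw [show (n : ℝ) * (2 * (Real.log (28 * Real.log z) + 4)) =
          ((2 * n : ℕ) : ℝ) * Real.log (28 * Real.log z) + 8 * n by push_cast; ring, Real.exp_add,
          Real.exp_nat_mul, Real.exp_log (by positivity), mul_pow]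
        ring
    _ ≤ z := by
        rw [Real.norm_of_nonneg (by positivity), id, Real.norm_of_nonneg (by linarith), one_div,
          ← div_eq_inv_mul, le_div_iff₀ (by positivity)] at h3
        linarith
/-- sum over ordered pairs of disjoint subsets -/
lemma sum_splits {ι : Type*} [DecidableEq ι] (S : Finset ι) (a b c : ℝ) :
    ∑ r ∈ (S.powerset ×ˢ S.powerset).filter (fun r => Disjoint r.1 r.2),
      a ^ (S \ (r.1 ∪ r.2)).card * b ^ r.1.card * c ^ r.2.card = (a + b + c) ^ S.card := by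
  have e1 : ∀ (T : Finset ι) (x y : ℝ), (x + y) ^ T.card =
      ∑ U ∈ T.powerset, x ^ U.card * y ^ (T \ U).card := by
    intro T x y
    have := prod_add (fun _ : ι => x) (fun _ => y) T
    simpa using this
  rw [show a + b + c = b + (c + a) by ring, e1, sum_filter, sum_product]
  refine sum_congr rfl fun U hU => ?_
  rw [e1, mul_sum, ← sum_filter]
  refine sum_congr ?_ fun V _ => ?_
  · ext V
    simp only [mem_filter, mem_powerset, subset_sdiff, disjoint_comm]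
  · rw [sdiff_sdiff_left, sup_eq_union]; ring

lemma mem_Box {C D : ℕ} (hC : 1 ≤ C) {x : GI × GI} : x ∈ Box C D ↔
    (C : ℤ) ≤ x.1.im ∧ x.1.im < 2 * C ∧ |x.1.re| ≤ 2 * C ∧ |x.2.im| ≤ D ∧ det x.1 x.2 = 1 := by
  unfold Box
  simp only [mem_filter, mem_product, mem_Sqr]
  constructor
  · rintro ⟨⟨h1, -⟩, h2, h3, h4, h5⟩
    refine ⟨h2, h3, abs_le.2 ?_, h4, h5⟩
    push_cast at h1; omega
  · rintro ⟨h2, h3, h1, h4, h5⟩
    refine ⟨?_, h2, h3, h4, h5⟩
    have h6 : |x.2.re| ≤ 2 * D + 1 := by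
      have e : x.1.im * x.2.re = x.1.re * x.2.im - 1 := by unfold det at h5; linarith
      have e2 : |x.1.im| * |x.2.re| ≤ |x.1.re| * |x.2.im| + 1 := by
        rw [← abs_mul, ← abs_mul, e]; exact abs_sub _ _
      rw [abs_of_nonneg (show 0 ≤ x.1.im by omega)] at e2
      have e3 : |x.1.re| * |x.2.im| ≤ 2 * C * D := mul_le_mul h1 h4 (abs_nonneg _) (by positivity)
      have e4 : (C : ℤ) * |x.2.re| ≤ x.1.im * |x.2.re| := mul_le_mul_of_nonneg_right h2 (abs_nonneg _)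
      have hC' : (1 : ℤ) ≤ C := by exact_mod_cast hC
      by_contra hn
      push Not at hn
      nlinarith
    rw [abs_le] at h1 h4 h6
    push_cast; omega
lemma card_Box_le {C D : ℕ} (hC : 1 ≤ C) : ((Box C D).card : ℝ) ≤ 6 * C * (2 * D + 1) := by
  have h := card_le_mul_card_image_of_maps_to (s := Box C D)
    (t := Ico (C : ℤ) (2 * C) ×ˢ Icc (-(D : ℤ)) D) (f := fun x => (x.1.im, x.2.im)) (fun x hx => by
      rw [mem_Box hC] at hx
      exact mem_product.2 ⟨mem_Ico.2 ⟨hx.1, hx.2.1⟩, mem_Icc.2 (abs_le.1 hx.2.2.2.1)⟩) 6 (by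
      rintro ⟨c, d⟩ hcd
      have hc := mem_Ico.1 (mem_product.1 hcd).1
      simp only at hc
      have hc0 : 0 < c := by omega
      rw [show 6 = (Ico (-3 : ℤ) 3).card by rfl]
      refine card_le_card_of_injOn (fun x => x.1.re / c) (fun x hx => ?_) fun x hx y hy e => ?_
      · simp only [coe_filter, Set.mem_setOf_eq, mem_Box hC] at hx
        have h1 := abs_le.1 hx.1.2.2.1
        simp only [coe_Ico, Set.mem_Ico]
        constructor
        · rw [Int.le_ediv_iff_mul_le hc0]; omega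
        · rw [Int.ediv_lt_iff_lt_mul hc0]; omega
      · simp only [coe_filter, Set.mem_setOf_eq, mem_Box hC, Prod.mk.injEq] at hx hy
        obtain ⟨⟨-, -, -, -, h1⟩, h2, h3⟩ := hx
        obtain ⟨⟨-, -, -, -, h4⟩, h5, h6⟩ := hy
        unfold det at h1 h4
        rw [h2, h3] at h1
        rw [h5, h6] at h4
        simp only at e
        have hd : c ∣ x.1.re - y.1.re := by
          have hc : IsCoprime c d := ⟨-x.2.re, x.1.re, by linarith⟩
          exact hc.dvd_of_dvd_mul_right ⟨x.2.re - y.2.re, by linarith⟩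
        have e1 := Int.emod_add_mul_ediv x.1.re c
        have e2 := Int.emod_add_mul_ediv y.1.re c
        have e3 : x.1.re % c = y.1.re % c := Int.emod_eq_emod_iff_emod_sub_eq_zero.2
          (Int.emod_eq_zero_of_dvd hd)
        have e4 : x.1.re = y.1.re := by rw [← e1, ← e2, e, e3]
        have e5 : x.2.re = y.2.re := by
          apply mul_left_cancel₀ hc0.ne'
          rw [e4] at h1; linarith
        exact Prod.ext (Zsqrtd.ext e4 (by rw [h2, h5])) (Zsqrtd.ext e5 (by rw [h3, h6])))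
  rw [card_product, Int.card_Ico, Int.card_Icc] at h
  have e1 : ((2 : ℤ) * C - C).toNat = C := by omega
  have e2 : ((D : ℤ) + 1 - -(D : ℤ)).toNat = 2 * D + 1 := by omega
  rw [e1, e2, ← mul_assoc] at h
  exact_mod_cast h
lemma mem_cls {m : ℕ} {x : GI × GI} (h : x ∈ cls m) : (m : ℤ) ∣ det x.1 x.2 - 1 :=
  (mem_filter.1 h).2
lemma cls_nonempty {m : ℕ} (h : 1 ≤ m) : (cls m).Nonempty := by
  by_cases h1 : m = 1
  · subst h1
    exact ⟨(0, 0), mem_filter.2 ⟨mem_product.2 ⟨mem_Sqr.2 (by simp), mem_Sqr.2 (by simp)⟩, by simp⟩⟩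
  · refine ⟨(1, ⟨0, 1⟩), mem_filter.2 ⟨mem_product.2 ⟨mem_Sqr.2 ?_, mem_Sqr.2 ?_⟩, by simp [det]⟩⟩ <;>
      simp <;> omega
lemma Em_const {m : ℕ} (h : 1 ≤ m) (c : ℝ) : Em m (fun _ => c) = c := by
  have : ((cls m).card : ℝ) ≠ 0 := by exact_mod_cast (cls_nonempty h).card_pos.ne'
  unfold Em; rw [sum_const, nsmul_eq_mul]; field_simp
lemma Em_add (m : ℕ) (φ ψ : GI × GI → ℝ) : Em m (fun x => φ x + ψ x) = Em m φ + Em m ψ := by
  unfold Em; rw [sum_add_distrib, add_div]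
lemma Em_sub (m : ℕ) (φ ψ : GI × GI → ℝ) : Em m (fun x => φ x - ψ x) = Em m φ - Em m ψ := by
  unfold Em; rw [sum_sub_distrib, sub_div]
lemma Em_smul (m : ℕ) (c : ℝ) (φ : GI × GI → ℝ) : Em m (fun x => c * φ x) = c * Em m φ := by
  unfold Em; rw [← mul_sum, mul_div_assoc]
lemma Em_sum {ι : Type*} (m : ℕ) (s : Finset ι) (φ : ι → GI × GI → ℝ) :
    Em m (fun x => ∑ i ∈ s, φ i x) = ∑ i ∈ s, Em m (φ i) := by
  unfold Em; rw [sum_comm, sum_div]
lemma Em_mono {m : ℕ} {φ ψ : GI × GI → ℝ}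
    (h : ∀ x : GI × GI, (m : ℤ) ∣ det x.1 x.2 - 1 → φ x ≤ ψ x) : Em m φ ≤ Em m ψ :=
  div_le_div_of_nonneg_right (sum_le_sum fun x hx => h x (mem_cls hx)) (by positivity)
lemma Em_nonneg {m : ℕ} {φ : GI × GI → ℝ} (h : ∀ x, 0 ≤ φ x) : 0 ≤ Em m φ :=
  div_nonneg (sum_nonneg fun x _ => h x) (by positivity)
lemma E1_const {m : ℕ} (h : 1 ≤ m) (c : ℝ) : E1 m (fun _ => c) = c := by
  have : (m : ℝ) ≠ 0 := by exact_mod_cast (show m ≠ 0 by omega)
  unfold E1; rw [sum_const, card_Sqr, nsmul_eq_mul]; push_cast; field_simp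
lemma E1_add (m : ℕ) (φ ψ : GI → ℝ) : E1 m (fun x => φ x + ψ x) = E1 m φ + E1 m ψ := by
  unfold E1; rw [sum_add_distrib, add_div]
lemma E1_sub (m : ℕ) (φ ψ : GI → ℝ) : E1 m (fun x => φ x - ψ x) = E1 m φ - E1 m ψ := by
  unfold E1; rw [sum_sub_distrib, sub_div]
lemma E1_smul (m : ℕ) (c : ℝ) (φ : GI → ℝ) : E1 m (fun x => c * φ x) = c * E1 m φ := by
  unfold E1; rw [← mul_sum, mul_div_assoc]
lemma E1_mono {m : ℕ} {φ ψ : GI → ℝ} (h : ∀ x, φ x ≤ ψ x) : E1 m φ ≤ E1 m ψ :=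
  div_le_div_of_nonneg_right (sum_le_sum fun x _ => h x) (by positivity)
lemma E1_nonneg {m : ℕ} {φ : GI → ℝ} (h : ∀ x, 0 ≤ φ x) : 0 ≤ E1 m φ :=
  div_nonneg (sum_nonneg fun x _ => h x) (by positivity)

lemma ek_mul (k : ℤ) (α β : GI) : ek k (α * β) = ek k α * ek k β := by
  unfold ek
  rw [← mul_zpow, map_mul, norm_mul, Complex.ofReal_mul, mul_div_mul_comm]
lemma toC_ne_zero {α : GI} (h : α ≠ 0) : (α : ℂ) ≠ 0 := fun h0 =>
  h (GaussianInt.toComplex_eq_zero.1 h0)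
lemma norm_dir {α : GI} (h : α ≠ 0) : ‖(α : ℂ) / (‖(α : ℂ)‖ : ℂ)‖ = 1 := by
  rw [norm_div, Complex.norm_real, norm_norm, div_self (norm_ne_zero_iff.2 (toC_ne_zero h))]
lemma norm_ek {α : GI} (h : α ≠ 0) (k : ℤ) : ‖ek k α‖ = 1 := by
  unfold ek; rw [norm_zpow, norm_dir h, one_zpow]
lemma ek_add {α : GI} (h : α ≠ 0) (k k' : ℤ) : ek (k + k') α = ek k α * ek k' α := by
  unfold ek
  exact zpow_add₀ (fun h0 => by have := norm_dir h; rw [h0] at this; simp at this) _ _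
lemma ek_neg {α : GI} (h : α ≠ 0) (k : ℤ) : ek (-k) α = (starRingEnd ℂ) (ek k α) := by
  rw [← Complex.inv_eq_conj (norm_ek h k)]; unfold ek; rw [zpow_neg]
lemma ek_zero (α : GI) : ek 0 α = 1 := zpow_zero _
lemma mem_ringP {M : ℝ} {α : GI} :
    α ∈ ringP M ↔ M < (nm α : ℝ) ∧ (nm α : ℝ) ≤ 4 * M ∧ cont α = 1 := by
  unfold ringP; rw [mem_filter, mem_disc]; tauto
lemma LL_nonneg (P Q : ℝ) : 0 ≤ LL P Q := sum_nonneg fun _ _ => by positivity
lemma wt_nonneg (J : Finset ℕ) (P Q : ℕ → ℝ) (α : GI) : 0 ≤ wt J P Q α :=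
  prod_nonneg fun _ _ => div_nonneg (by positivity) (LL_nonneg _ _)
lemma Sys.subset {J J' : Finset ℕ} {P Q : ℕ → ℝ} (h : Sys J P Q) (hJ : J' ⊆ J) : Sys J' P Q :=
  ⟨fun j hj => h.one_le j (hJ hj),
    (sum_le_sum_of_subset_of_nonneg hJ fun _ _ _ => div_nonneg one_pos.le (LL_nonneg _ _)).trans
      h.sumL,
    fun j hj => h.pos j (hJ hj),
    (sum_le_sum_of_subset_of_nonneg hJ fun j hj _ =>
      div_nonneg one_pos.le (by linarith [h.pos j hj])).trans h.sumP,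
    fun i hi j hj => h.disj i (hJ hi) j (hJ hj)⟩
lemma gr_mul (α β : GI) : gr (α * β) = gr α * gr β := by
  unfold gr; rw [MP_de94cf_nt.gg_mul, Int.cast_mul]
lemma abs_gr_le (α : GI) : |gr α| ≤ 1 := by
  unfold gr
  by_cases h : α = 0
  · rw [h, MP_de94cf_nt.gg_zero]; simp
  · rcases MP_de94cf_nt.gg_cases h with e | e <;> rw [e] <;> simp
lemma gr_GF {w z : ℝ} {π : GI} (h : π ∈ GF w z) : gr π = -1 := by
  have hp := GF_nm_prime h
  unfold gr gg
  change ((ArithmeticFunction.liouville (nm π) : ℤ) : ℝ) = -1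
  rw [ArithmeticFunction.liouville_apply hp.ne_zero, ArithmeticFunction.cardFactors_apply_prime hp]
  simp
lemma mem_Edges {X R : ℝ} {e : GI × GI} : e ∈ Edges X R ↔ det e.1 e.2 = 1 ∧
    X / R ^ 2 ≤ (nm e.1 : ℝ) ∧ (nm e.1 : ℝ) ≤ R ^ 2 * X ∧
    X / R ^ 2 ≤ (nm e.2 : ℝ) ∧ (nm e.2 : ℝ) ≤ R ^ 2 * X := by
  unfold Edges; rw [mem_filter, mem_product, mem_disc, mem_disc]; tauto
lemma ff_eq {α β : GI} (h : det α β = 1) : ff (inn α β).natAbs = gg α * gg β :=
  (MP_de94cf_nt.gg_edge h).symm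
lemma mem_Tall {v a e f : ℕ} {z : ℝ} {S : Finset GI} {ρ : GI} {W1 : ℕ} {Y0 C1 : ℝ} {t : Tt}
    (h : Adm v a e f z S ρ W1 Y0 C1 t) : t ∈ Tall e f z S := by
  refine mem_image.2 ⟨(t.S2, t.S3, t.y, t.Q), ?_, rfl⟩
  simp only [mem_product, mem_powerset, mem_range, mem_disc]
  refine ⟨h.sub2, h.sub3, Nat.lt_succ_of_le (Nat.le_floor h.hiy), ?_⟩
  have h1 : ((t.q : ℕ) : ℝ) ≤ 2 * (t.p ρ : ℝ) := by exact_mod_cast h.qp
  have h2 := h.hip
  unfold Tt.q at h1
  linarith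
lemma pow_card_le_nm {w z : ℝ} {S : Finset GI} (hS : S ⊆ GF w z) : 5 ^ S.card ≤ nm (pr S) := by
  rw [nm_pr]
  exact pow_card_le_prod _ _ _ fun π h => GF_five_le (hS h)
lemma card_Tall {v a e f u : ℕ} {z : ℝ} {S : Finset GI} {ρ : GI} (hz : 40 ≤ z)
    (he : ExpOK u a e f) (h : Lab v a f z S ρ) : ((Tall e f z S).card : ℝ) ≤ z ^ (3 * f) := by
  have h1 : (Tall e f z S).card ≤ _ := card_image_le
  rw [card_product, card_product, card_product, card_powerset, card_range] at h1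
  have hz1 : 1 ≤ z := by linarith
  have h2 : ((2 ^ S.card * 2 ^ S.card : ℕ) : ℝ) ≤ z ^ a := by
    refine le_trans ?_ h.hiS
    rw [← mul_pow]
    exact_mod_cast (Nat.pow_le_pow_left (by norm_num) _).trans (pow_card_le_nm h.sub)
  have h3 : ((⌊z ^ e⌋₊ + 1 : ℕ) : ℝ) ≤ 2 * z ^ e := by
    have := Nat.floor_le (show 0 ≤ z ^ e by positivity)
    have := one_le_pow₀ (n := e) hz1
    push_cast; linarith
  have h4 := card_disc_le (M := 2 * z ^ f) (by have := one_le_pow₀ (n := f) hz1; linarith)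
  obtain ⟨e1, -, e2, e3⟩ := he
  calc ((Tall e f z S).card : ℝ) ≤ ((2 ^ S.card * 2 ^ S.card : ℕ) : ℝ) *
        (((⌊z ^ e⌋₊ + 1 : ℕ) : ℝ) * (disc (2 * z ^ f)).card) := by
        rw [← mul_assoc] at h1; exact_mod_cast h1
    _ ≤ z ^ a * (2 * z ^ e * (9 * (2 * z ^ f))) := by gcongr
    _ = 36 * z ^ (a + e + f) := by ring
    _ ≤ z * z ^ (a + e + f) := by gcongr; linarith
    _ = z ^ (a + e + f + 1) := by ring
    _ ≤ z ^ (3 * f) := pow_le_pow_right₀ hz1 (by omega)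

end Pool.Agent.Lib.LQ
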