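import Pool.Agent.Lib.LQ.Defs2

set_option autoImplicit false

open Finset
open scoped Classical

noncomputable section

namespace Pool.Agent.Lib.LQ

open Pool.Agent.Lib.MP_de94cf_nt (gg det inn)

lemma nm_int (α : GI) : (nm α : ℤ) = α.norm := by
  unfold nm; exact Int.natAbs_of_nonneg (GaussianInt.norm_nonneg α)
lemma norm_eq (α : GI) : α.norm = α.re ^ 2 + α.im ^ 2 := by
  simp [Zsqrtd.norm]; ring
lemma nm_int' (α : GI) : (nm α : ℤ) = α.re ^ 2 + α.im ^ 2 := by rw [nm_int, norm_eq]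
lemma nm_real (α : GI) : (nm α : ℝ) = (α.re : ℝ) ^ 2 + (α.im : ℝ) ^ 2 := by
  exact_mod_cast nm_int' α
lemma nm_mul (α β : GI) : nm (α * β) = nm α * nm β := by
  unfold nm; rw [Zsqrtd.norm_mul, Int.natAbs_mul]
lemma nm_star (α : GI) : nm (star α) = nm α := by
  unfold nm; rw [Zsqrtd.norm_conj]
lemma nm_neg (α : GI) : nm (-α) = nm α := by
  unfold nm; rw [Zsqrtd.norm_neg]
lemma nm_one : nm 1 = 1 := by simp [nm]
lemma nm_eq_zero {α : GI} : nm α = 0 ↔ α = 0 := by
  unfold nm; rw [Int.natAbs_eq_zero, GaussianInt.norm_eq_zero]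
lemma nm_eq_one {α : GI} : nm α = 1 ↔ IsUnit α := by
  unfold nm; exact Zsqrtd.norm_eq_one_iff
lemma nm_natCast (n : ℕ) : nm (n : GI) = n ^ 2 := by
  have := nm_int' (n : GI)
  simp only [Zsqrtd.re_natCast, Zsqrtd.im_natCast] at this
  zify; rw [this]; ring
lemma nm_pow (α : GI) (n : ℕ) : nm (α ^ n) = nm α ^ n := by
  induction n with
  | zero => simp [nm_one]
  | succ n ih => rw [pow_succ, nm_mul, ih, pow_succ]
lemma nm_pr (S : Finset GI) : nm (pr S) = ∏ π ∈ S, nm π := by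
  unfold pr
  induction S using Finset.induction_on with
  | empty => simp [nm_one]
  | insert a s h ih => rw [prod_insert h, prod_insert h, nm_mul, ih]
lemma nm_dvd {α β : GI} (h : α ∣ β) : nm α ∣ nm β := by
  obtain ⟨c, rfl⟩ := h; rw [nm_mul]; exact dvd_mul_right _ _
lemma mul_star_eq (α : GI) : α * star α = (nm α : GI) := by
  have h := nm_int α
  rw [← Zsqrtd.norm_eq_mul_conj, ← h]; simp
lemma norm_sq_eq (α : GI) : ‖(α : ℂ)‖ ^ 2 = (nm α : ℝ) := by
  rw [Complex.sq_norm, Complex.normSq_apply, nm_real]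
  simp; ring
lemma nm_mul_nm (α β : GI) : (nm α : ℤ) * nm β = inn α β ^ 2 + det α β ^ 2 := by
  rw [nm_int', nm_int']; unfold inn det; ring
lemma star_mul_eq (α β : GI) : star α * β = ⟨inn α β, det α β⟩ := by
  ext <;> simp [inn, det] <;> ring
lemma unit_cases {ε : GI} (h : IsUnit ε) : ε = 1 ∨ ε = -1 ∨ ε = ⟨0, 1⟩ ∨ ε = ⟨0, -1⟩ := by
  have h1 := nm_int' ε
  rw [nm_eq_one.2 h] at h1
  obtain ⟨a, b⟩ := ε
  simp only [Nat.cast_one] at h1
  have ha : -1 ≤ a ∧ a ≤ 1 := by constructor <;> nlinarith [sq_nonneg b]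
  have hb : -1 ≤ b ∧ b ≤ 1 := by constructor <;> nlinarith [sq_nonneg a]
  obtain ⟨ha1, ha2⟩ := ha
  obtain ⟨hb1, hb2⟩ := hb
  clear h
  interval_cases a <;> interval_cases b <;> first | omega | decide
lemma isUnit_I : IsUnit (⟨0, 1⟩ : GI) := nm_eq_one.1 (by decide)
lemma isUnit_negI : IsUnit (⟨0, -1⟩ : GI) := nm_eq_one.1 (by decide)
lemma exists_unit_sector (α : GI) : ∃ ε : GI, IsUnit ε ∧ |(ε * α).re| ≤ (ε * α).im := by
  by_cases h1 : |α.re| ≤ α.im
  · exact ⟨1, isUnit_one, by simpa using h1⟩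
  by_cases h2 : |α.re| ≤ -α.im
  · exact ⟨-1, isUnit_one.neg, by simpa using h2⟩
  by_cases h3 : 0 ≤ α.re
  · refine ⟨⟨0, 1⟩, isUnit_I, ?_⟩
    rw [abs_of_nonneg h3] at h1 h2
    simp [abs_le]; omega
  · refine ⟨⟨0, -1⟩, isUnit_negI, ?_⟩
    rw [abs_of_neg (by omega)] at h1 h2
    simp [abs_le]; omega
lemma det_unit {ε : GI} (h : IsUnit ε) (α β : GI) : det (ε * α) (ε * β) = det α β := by
  rcases unit_cases h with rfl | rfl | rfl | rfl <;> simp [det] <;> ring
lemma inn_unit {ε : GI} (h : IsUnit ε) (α β : GI) : inn (ε * α) (ε * β) = inn α β := by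
  rcases unit_cases h with rfl | rfl | rfl | rfl <;> simp [inn] <;> ring
lemma isCoprime_of_nm {α β : GI} (h : Nat.Coprime (nm α) (nm β)) : IsCoprime α β := by
  have h1 : IsCoprime ((nm α : ℕ) : GI) ((nm β : ℕ) : GI) := Nat.Coprime.cast h
  rw [← mul_star_eq, ← mul_star_eq] at h1
  exact (IsCoprime.of_mul_left_left h1).of_mul_right_left

lemma ind_nonneg (p : Prop) : 0 ≤ ind p := by unfold ind; split_ifs <;> norm_num
lemma ind_le_one (p : Prop) : ind p ≤ 1 := by unfold ind; split_ifs <;> norm_num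
lemma ind_true {p : Prop} (h : p) : ind p = 1 := if_pos h
lemma ind_false {p : Prop} (h : ¬ p) : ind p = 0 := if_neg h
lemma ind_and (p q : Prop) : ind (p ∧ q) = ind p * ind q := by
  by_cases hp : p <;> by_cases hq : q <;> simp [ind, hp, hq]
lemma ind_not (p : Prop) : ind (¬ p) = 1 - ind p := by
  by_cases hp : p <;> simp [ind, hp]
lemma ind_or_le (p q : Prop) : ind (p ∨ q) ≤ ind p + ind q := by
  by_cases hp : p <;> by_cases hq : q <;> simp [ind, hp, hq]
lemma ind_mono {p q : Prop} (h : p → q) : ind p ≤ ind q := by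
  by_cases hp : p
  · rw [ind_true hp, ind_true (h hp)]
  · rw [ind_false hp]; exact ind_nonneg _
lemma ind_congr {p q : Prop} (h : p ↔ q) : ind p = ind q := by rw [propext h]
lemma prod_ind {ι : Type*} (s : Finset ι) (p : ι → Prop) :
    ∏ i ∈ s, ind (p i) = ind (∀ i ∈ s, p i) := by
  by_cases h : ∀ i ∈ s, p i
  · rw [ind_true h]; exact prod_eq_one fun i hi => ind_true (h i hi)
  · rw [ind_false h]
    push Not at h
    obtain ⟨i, hi, hp⟩ := h
    exact prod_eq_zero hi (ind_false hp)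
lemma sum_ind {ι : Type*} (s : Finset ι) (p : ι → Prop) [DecidablePred p] :
    ∑ i ∈ s, ind (p i) = ((s.filter p).card : ℝ) := by
  rw [← sum_boole]
  exact sum_congr rfl fun i _ => by unfold ind; congr

lemma mk_inj : Function.Injective fun x : ℤ × ℤ => (⟨x.1, x.2⟩ : GI) := by
  intro x y h
  simp only [Zsqrtd.mk.injEq] at h
  exact Prod.ext h.1 h.2
lemma mem_Sqr {a b : ℤ} {L : ℕ} {α : GI} :
    α ∈ Sqr a b L ↔ a ≤ α.re ∧ α.re < a + L ∧ b ≤ α.im ∧ α.im < b + L := by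
  unfold Sqr
  simp only [mem_image, mem_product, mem_Ico, Prod.exists]
  constructor
  · rintro ⟨x, y, h, rfl⟩; exact ⟨h.1.1, h.1.2, h.2.1, h.2.2⟩
  · rintro ⟨h1, h2, h3, h4⟩; exact ⟨α.re, α.im, ⟨⟨h1, h2⟩, h3, h4⟩, rfl⟩
lemma card_Sqr (a b : ℤ) (L : ℕ) : (Sqr a b L).card = L ^ 2 := by
  unfold Sqr
  rw [card_image_of_injective _ mk_inj, card_product, Int.card_Ico, Int.card_Ico]
  simp [sq]
lemma sum_Sqr (a b : ℤ) (L : ℕ) (F : GI → ℝ) :
    ∑ α ∈ Sqr a b L, F α = ∑ x ∈ Ico a (a + L), ∑ y ∈ Ico b (b + L), F ⟨x, y⟩ := by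
  unfold Sqr
  rw [sum_image fun x _ y _ h => mk_inj h, sum_product]
lemma abs_re_le (α : GI) : |α.re| ≤ nm α := by
  rw [nm_int']; nlinarith [Int.le_self_sq |α.re|, sq_abs α.re, sq_nonneg α.im]
lemma abs_im_le (α : GI) : |α.im| ≤ nm α := by
  rw [nm_int']; nlinarith [Int.le_self_sq |α.im|, sq_abs α.im, sq_nonneg α.re]
lemma mem_disc {M : ℝ} {α : GI} : α ∈ disc M ↔ (nm α : ℝ) ≤ M := by
  unfold disc
  rw [mem_filter, mem_Sqr]
  refine ⟨fun h => h.2, fun h => ⟨?_, h⟩⟩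
  have h1 : nm α ≤ ⌊M⌋₊ := Nat.le_floor h
  have h2 := abs_le.1 (abs_re_le α)
  have h3 := abs_le.1 (abs_im_le α)
  push_cast
  omega
lemma disc_subset_Sqr {M : ℝ} {r : ℕ} (h : M < ((r : ℝ) + 1) ^ 2) :
    disc M ⊆ Sqr (-(r : ℤ)) (-(r : ℤ)) (2 * r + 1) := by
  intro α hα
  rw [mem_disc] at hα
  have h1 : (nm α : ℤ) < ((r : ℤ) + 1) ^ 2 := by exact_mod_cast hα.trans_lt h
  rw [nm_int'] at h1
  have h2 : |α.re| < r + 1 := abs_lt_of_sq_lt_sq (by nlinarith [sq_nonneg α.im]) (by positivity)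
  have h3 : |α.im| < r + 1 := abs_lt_of_sq_lt_sq (by nlinarith [sq_nonneg α.re]) (by positivity)
  rw [abs_lt] at h2 h3
  rw [mem_Sqr]; push_cast; omega
lemma card_disc_erase {M : ℝ} (hM : 0 ≤ M) : (((disc M).erase 0).card : ℝ) ≤ 8 * M := by
  set r := ⌊Real.sqrt M⌋₊ with hr
  have h1 : Real.sqrt M < r + 1 := Nat.lt_floor_add_one _
  have h2 : (r : ℝ) ≤ Real.sqrt M := Nat.floor_le (Real.sqrt_nonneg _)
  have h3 : M < ((r : ℝ) + 1) ^ 2 := by
    rw [← Real.sq_sqrt hM]; exact pow_lt_pow_left₀ h1 (Real.sqrt_nonneg _) two_ne_zero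
  have h4 : (r : ℝ) ^ 2 ≤ M := by
    rw [← Real.sq_sqrt hM]; exact pow_le_pow_left₀ (by positivity) h2 2
  have h5 := card_le_card (disc_subset_Sqr h3)
  rw [card_Sqr] at h5
  have h6 : (0 : GI) ∈ disc M := mem_disc.2 (by simpa [nm] using hM)
  have h7 := card_erase_add_one h6
  have h8 : ((disc M).erase 0).card ≤ 8 * r ^ 2 := by nlinarith [Nat.le_self_pow two_ne_zero r]
  calc (((disc M).erase 0).card : ℝ) ≤ 8 * (r : ℝ) ^ 2 := by exact_mod_cast h8
    _ ≤ 8 * M := by linarith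
lemma card_disc_le {M : ℝ} (hM : 1 ≤ M) : ((disc M).card : ℝ) ≤ 9 * M := by
  have h := card_disc_erase (M := M) (by linarith)
  have h2 : (disc M).card ≤ ((disc M).erase 0).card + 1 := by
    have := pred_card_le_card_erase (s := disc M) (a := 0); omega
  have h3 : ((disc M).card : ℝ) ≤ ((disc M).erase 0).card + 1 := by exact_mod_cast h2
  linarith
lemma nm_pos {α : GI} (h : α ≠ 0) : (0 : ℝ) < nm α := by
  exact_mod_cast Nat.pos_of_ne_zero (fun h0 => h (nm_eq_zero.1 h0))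
lemma card_mult_le {M : ℝ} (hM : 0 ≤ M) {d : GI} (hd : d ≠ 0) :
    ((((disc M).erase 0).filter fun α => d ∣ α).card : ℝ) ≤ 8 * M / nm d := by
  have h0 := nm_pos hd
  have h1 : (((disc M).erase 0).filter fun α => d ∣ α) ⊆
      ((disc (M / nm d)).erase 0).image fun β => d * β := by
    intro α hα
    simp only [mem_filter, mem_erase, mem_disc] at hα
    obtain ⟨⟨h1, h2⟩, β, rfl⟩ := hα
    refine mem_image.2 ⟨β, mem_erase.2 ⟨right_ne_zero_of_mul h1, mem_disc.2 ?_⟩, rfl⟩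
    rw [le_div_iff₀ h0]
    rw [nm_mul] at h2; push_cast at h2; linarith
  have h2 := (card_le_card h1).trans card_image_le
  have h3 := card_disc_erase (M := M / nm d) (by positivity)
  calc _ ≤ (((disc (M / nm d)).erase 0).card : ℝ) := by exact_mod_cast h2
    _ ≤ 8 * (M / nm d) := h3
    _ = _ := by ring
lemma natCast_dvd_iff {n : ℕ} {α : GI} : (n : GI) ∣ α ↔ n ∣ cont α := by
  unfold cont
  rw [← Int.cast_natCast, Zsqrtd.intCast_dvd, ← Int.natCast_dvd_natCast, Int.coe_gcd]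
  exact ⟨fun h => dvd_gcd h.1 h.2, fun h => ⟨h.trans (gcd_dvd_left _ _), h.trans (gcd_dvd_right _ _)⟩⟩
lemma cont_of_det {α β : GI} (h : det α β = 1) : cont α = 1 ∧ cont β = 1 := by
  unfold det at h
  unfold cont
  constructor
  · exact Int.isCoprime_iff_gcd_eq_one.1 ⟨β.im, -β.re, by linarith⟩
  · exact Int.isCoprime_iff_gcd_eq_one.1 ⟨-α.im, α.re, by linarith⟩
/-- points of a disc on a line -/
lemma card_line_le {α : GI} (hα : cont α = 1) (j : ℤ) {M : ℝ} (hM : 0 ≤ M) :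
    (((disc M).filter fun β => det α β = j).card : ℝ) ≤ 2 * Real.sqrt (M / nm α) + 1 := by
  have hα0 : α ≠ 0 := by rintro rfl; simp [cont] at hα
  have h0 := nm_pos hα0
  rcases ((disc M).filter fun β => det α β = j).eq_empty_or_nonempty with h | h
  · rw [h]; simp; positivity
  obtain ⟨β0, hβ0, hmin⟩ := exists_min_image _ (fun β => inn α β) h
  have hc : IsCoprime α.re α.im := Int.isCoprime_iff_gcd_eq_one.2 hα
  have key : ∀ β ∈ (disc M).filter fun β => det α β = j, ∃ t : ℤ, β = β0 + t * α := by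
    intro β hβ
    have e1 := (mem_filter.1 hβ).2
    have e2 := (mem_filter.1 hβ0).2
    unfold det at e1 e2
    obtain ⟨u, v, huv⟩ := hc
    refine ⟨u * (β.re - β0.re) + v * (β.im - β0.im), ?_⟩
    ext
    · simp; linear_combination (-(β.re - β0.re)) * huv - v * e1 + v * e2
    · simp; linear_combination (-(β.im - β0.im)) * huv + u * e1 - u * e2
  have hin : ∀ β ∈ (disc M).filter fun β => det α β = j,
      |(inn α β : ℝ)| ≤ nm α * Real.sqrt (M / nm α) := by
    intro β hβ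
    have e1 := mem_disc.1 (mem_filter.1 hβ).1
    have e2 : (nm α : ℝ) * nm β = (inn α β : ℝ) ^ 2 + (det α β : ℝ) ^ 2 := by
      exact_mod_cast nm_mul_nm α β
    apply abs_le_of_sq_le_sq _ (by positivity)
    rw [mul_pow, Real.sq_sqrt (by positivity)]
    have : (nm α : ℝ) ^ 2 * (M / nm α) = nm α * M := by field_simp
    rw [this]; nlinarith [sq_nonneg (det α β : ℝ)]
  have hsub : ((disc M).filter fun β => det α β = j) ⊆
      (range (⌊2 * Real.sqrt (M / nm α)⌋₊ + 1)).image fun t : ℕ => β0 + (t : GI) * α := by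
    intro β hβ
    obtain ⟨t, ht⟩ := key β hβ
    have e1 : inn α β = inn α β0 + t * nm α := by
      rw [ht, nm_int']; simp [inn]; ring
    have e2 := hmin β hβ
    have h0' : (0 : ℤ) < nm α := by exact_mod_cast h0
    have ht0 : 0 ≤ t := by
      by_contra hn
      have : t * nm α < 0 := mul_neg_of_neg_of_pos (by omega) h0'
      omega
    lift t to ℕ using ht0
    refine mem_image.2 ⟨t, mem_range.2 (Nat.lt_succ_of_le (Nat.le_floor ?_)), by rw [ht]; simp⟩
    have e3 : (inn α β : ℝ) = inn α β0 + t * nm α := by exact_mod_cast e1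
    have e4 := abs_le.1 (hin β hβ)
    have e5 := abs_le.1 (hin β0 hβ0)
    have : (t : ℝ) * nm α ≤ 2 * Real.sqrt (M / nm α) * nm α := by linarith
    exact le_of_mul_le_mul_right this h0
  have h2 := (card_le_card hsub).trans card_image_le
  rw [card_range] at h2
  have h3 : (⌊2 * Real.sqrt (M / nm α)⌋₊ : ℝ) ≤ 2 * Real.sqrt (M / nm α) :=
    Nat.floor_le (by positivity)
  calc _ ≤ ((⌊2 * Real.sqrt (M / nm α)⌋₊ + 1 : ℕ) : ℝ) := by exact_mod_cast h2
    _ ≤ _ := by push_cast; linarith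

end Pool.Agent.Lib.LQ
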