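import Pool.Agent.Lib.LQ.Basic1

set_option autoImplicit false

open Finset
open scoped Classical

noncomputable section

namespace Pool.Agent.Lib.LQ

open Pool.Agent.Lib.MP_de94cf_nt (gg det inn)

lemma mem_PP {w z : ℝ} {l : ℕ} :
    l ∈ PP w z ↔ l.Prime ∧ l % 4 = 1 ∧ w < (l : ℝ) ∧ (l : ℝ) ≤ z := by
  unfold PP
  rw [mem_filter, mem_range, Nat.lt_succ_iff]
  constructor
  · rintro ⟨h1, h2, h3, h4⟩
    exact ⟨h2, h3, h4, (Nat.le_floor_iff' h2.ne_zero).1 h1⟩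
  · rintro ⟨h2, h3, h4, h1⟩
    exact ⟨Nat.le_floor h1, h2, h3, h4⟩
lemma mem_GF {w z : ℝ} {π : GI} : π ∈ GF w z ↔ nm π ∈ PP w z ∧ |π.im| < π.re := by
  unfold GF
  rw [mem_filter, mem_disc]
  exact ⟨fun h => h.2, fun h => ⟨(mem_PP.1 h.1).2.2.2, h⟩⟩
lemma mem_GH {w z : ℝ} {π : GI} : π ∈ GH w z ↔ π ∈ GF w z ∧ 0 < π.im := mem_filter
lemma GH_subset (w z : ℝ) : GH w z ⊆ GF w z := filter_subset _ _
lemma prime_of_nm {π : GI} (h : (nm π).Prime) : Prime π := by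
  rw [← irreducible_iff_prime]
  refine ⟨fun hu => h.ne_one (nm_eq_one.2 hu), fun a b hab => ?_⟩
  rw [hab, nm_mul] at h
  rcases Nat.prime_mul_iff.1 h with h | h
  · exact Or.inr (nm_eq_one.1 h.2)
  · exact Or.inl (nm_eq_one.1 h.2)
lemma GF_nm_prime {w z : ℝ} {π : GI} (h : π ∈ GF w z) : (nm π).Prime := (mem_PP.1 (mem_GF.1 h).1).1
lemma GF_nm_ne_two {w z : ℝ} {π : GI} (h : π ∈ GF w z) : nm π ≠ 2 := by
  have := (mem_PP.1 (mem_GF.1 h).1).2.1; omega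
lemma GF_five_le {w z : ℝ} {π : GI} (h : π ∈ GF w z) : 5 ≤ nm π := by
  have h1 := (mem_PP.1 (mem_GF.1 h).1).2.1
  have h2 := (GF_nm_prime h).two_le
  omega
lemma GF_prime {w z : ℝ} {π : GI} (h : π ∈ GF w z) : Prime π := prime_of_nm (GF_nm_prime h)
lemma star_mem_GF {w z : ℝ} {π : GI} (h : π ∈ GF w z) : star π ∈ GF w z := by
  rw [mem_GF] at h ⊢
  rw [nm_star]
  simpa using h
lemma eq_unit_mul_of_dvd {α β : GI} (hd : α ∣ β) (h : nm α = nm β) (h0 : β ≠ 0) :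
    ∃ ε : GI, IsUnit ε ∧ β = ε * α := by
  obtain ⟨c, rfl⟩ := hd
  rw [nm_mul] at h
  have h1 : nm α ≠ 0 := fun h1 => left_ne_zero_of_mul h0 (nm_eq_zero.1 h1)
  have : nm c = 1 := (Nat.mul_eq_left h1).1 h.symm
  exact ⟨c, nm_eq_one.1 this, mul_comm _ _⟩
lemma not_sq_of_prime {p : ℕ} (hp : p.Prime) (a : ℤ) : (p : ℤ) ≠ a ^ 2 := by
  intro h
  have : p = a.natAbs * a.natAbs := by zify; rw [h, abs_mul_abs_self]; ring
  exact hp.not_isSquare ⟨_, this⟩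
lemma not_dvd_star {π : GI} (h : (nm π).Prime) (h2 : nm π ≠ 2) : ¬ π ∣ star π := by
  intro hd
  have h0 : star π ≠ 0 := fun h0 => h.ne_zero (by rw [← nm_star, h0]; rfl)
  obtain ⟨ε, hε, e⟩ := eq_unit_mul_of_dvd hd (nm_star π).symm h0
  have hn := nm_int' π
  have er := congrArg Zsqrtd.re e
  have ei := congrArg Zsqrtd.im e
  have two : ∀ a : ℤ, (nm π : ℤ) ≠ 2 * a ^ 2 := fun a ha => by
    have : 2 ∣ nm π := by
      have : (2 : ℤ) ∣ nm π := ⟨_, ha⟩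
      exact_mod_cast this
    exact h2 ((Nat.prime_dvd_prime_iff_eq Nat.prime_two h).1 this).symm
  rcases unit_cases hε with rfl | rfl | rfl | rfl <;> simp at er ei
  · exact not_sq_of_prime h π.re (by rw [hn, show π.im = 0 by omega]; ring)
  · exact not_sq_of_prime h π.im (by rw [hn, show π.re = 0 by omega]; ring)
  · exact two π.im (by rw [hn, er]; ring)
  · exact two π.im (by rw [hn, er]; ring)
lemma GF_eq_of_dvd {w z w' z' : ℝ} {π π' : GI} (h : π ∈ GF w z) (h' : π' ∈ GF w' z')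
    (hd : π ∣ π') : π = π' := by
  have hn := (Nat.prime_dvd_prime_iff_eq (GF_nm_prime h) (GF_nm_prime h')).1 (nm_dvd hd)
  obtain ⟨ε, hε, e⟩ := eq_unit_mul_of_dvd hd hn (GF_prime h').ne_zero
  have h1 := abs_lt.1 (mem_GF.1 h).2
  have h2 := abs_lt.1 (mem_GF.1 h').2
  have er := congrArg Zsqrtd.re e
  have ei := congrArg Zsqrtd.im e
  rcases unit_cases hε with rfl | rfl | rfl | rfl
  · rw [e, one_mul]
  all_goals simp at er ei; omega
lemma star_dvd_star {α β : GI} (h : α ∣ β) : star α ∣ star β := by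
  obtain ⟨c, rfl⟩ := h; exact ⟨star c, by rw [star_mul, mul_comm]⟩
lemma star_dvd_iff {α β : GI} : star α ∣ β ↔ α ∣ star β :=
  ⟨fun h => by simpa using star_dvd_star h, fun h => by simpa using star_dvd_star h⟩
lemma natCast_dvd_of {π α : GI} (h : (nm π).Prime) (h2 : nm π ≠ 2) (h1 : π ∣ α)
    (h3 : star π ∣ α) : (nm π : GI) ∣ α := by
  rw [← mul_star_eq]
  exact ((prime_of_nm h).irreducible.coprime_iff_not_dvd.2 (not_dvd_star h h2)).mul_dvd h1 h3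
lemma dvd_nm_iff {π α : GI} (h : (nm π).Prime) : nm π ∣ nm α ↔ π ∣ α ∨ star π ∣ α := by
  constructor
  · intro hd
    have h1 : (nm π : GI) ∣ (nm α : GI) := Nat.cast_dvd_cast hd
    rw [← mul_star_eq, ← mul_star_eq] at h1
    rcases (prime_of_nm h).dvd_or_dvd (dvd_of_mul_right_dvd h1) with h2 | h2
    · exact Or.inl h2
    · exact Or.inr (star_dvd_iff.2 h2)
  · rintro (h1 | h1)
    · exact nm_dvd h1
    · rw [← nm_star]; exact nm_dvd h1
lemma GF_eq_or_star {w z w' z' : ℝ} {π π' : GI} (h : π ∈ GF w z) (h' : π' ∈ GF w' z')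
    (hd : nm π = nm π') : π' = π ∨ π' = star π := by
  rcases (dvd_nm_iff (GF_nm_prime h)).1 hd.dvd with h1 | h1
  · exact Or.inl (GF_eq_of_dvd h h' h1).symm
  · exact Or.inr (GF_eq_of_dvd (star_mem_GF h) h' h1).symm
lemma GH_inj {w z w' z' : ℝ} {π π' : GI} (h : π ∈ GH w z) (h' : π' ∈ GH w' z')
    (hd : nm π = nm π') : π = π' := by
  rw [mem_GH] at h h'
  rcases GF_eq_or_star h.1 h'.1 hd with e | e
  · exact e.symm
  · have := congrArg Zsqrtd.im e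
    simp at this; omega
lemma GH_not_star_dvd {w z w' z' : ℝ} {π π' : GI} (h : π ∈ GH w z) (h' : π' ∈ GH w' z') :
    ¬ star π ∣ π' := by
  rw [mem_GH] at h h'
  intro hd
  have := congrArg Zsqrtd.im (GF_eq_of_dvd (star_mem_GF h.1) h'.1 hd)
  simp at this; omega
lemma exists_GH {w z : ℝ} {l : ℕ} (h : l ∈ PP w z) : ∃ π ∈ GH w z, nm π = l := by
  have hp := mem_PP.1 h
  have : Fact l.Prime := ⟨hp.1⟩
  obtain ⟨a, b, hab⟩ := Nat.Prime.sq_add_sq (p := l) (by omega)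
  have key : ∀ a b : ℕ, a ^ 2 + b ^ 2 = l → b < a → ∃ π ∈ GH w z, nm π = l := by
    intro a b hab hlt
    have hn : nm ⟨a, b⟩ = l := by
      have := nm_int' ⟨a, b⟩
      simp only at this
      zify at hab ⊢; rw [this, hab]
    have hb : b ≠ 0 := by
      rintro rfl
      exact not_sq_of_prime hp.1 a (by rw [← hab]; push_cast; ring)
    refine ⟨⟨a, b⟩, mem_GH.2 ⟨mem_GF.2 ⟨by rwa [hn], by simpa using hlt⟩, ?_⟩, hn⟩
    simp; omega
  rcases lt_trichotomy a b with h1 | h1 | h1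
  · exact key b a (by omega) h1
  · subst h1; have := hp.2.1; omega
  · exact key a b hab h1
lemma GF_im_ne_zero {w z : ℝ} {π : GI} (h : π ∈ GF w z) : π.im ≠ 0 := fun h0 =>
  not_sq_of_prime (GF_nm_prime h) π.re (by rw [nm_int', h0]; ring)
lemma sum_GH (w z : ℝ) (F : ℕ → ℝ) : ∑ π ∈ GH w z, F (nm π) = ∑ l ∈ PP w z, F l := by
  refine sum_bij (fun π _ => nm π) (fun π h => (mem_GF.1 (mem_GH.1 h).1).1)
    (fun π h π' h' e => GH_inj h h' e) (fun l hl => ?_) (fun _ _ => rfl)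
  obtain ⟨π, h, e⟩ := exists_GH hl
  exact ⟨π, h, e⟩
lemma sum_GF (w z : ℝ) (F : ℕ → ℝ) : ∑ π ∈ GF w z, F (nm π) = 2 * ∑ l ∈ PP w z, F l := by
  rw [← sum_filter_add_sum_filter_not (GF w z) (fun π => 0 < π.im), two_mul, ← sum_GH]
  congr 1
  refine sum_bij (fun π _ => star π) (fun π h => ?_) (fun π _ π' _ e => star_injective e)
    (fun π h => ?_) (fun π _ => by rw [nm_star])
  · rw [mem_filter] at h
    have := GF_im_ne_zero h.1
    exact mem_GH.2 ⟨star_mem_GF h.1, by simp; omega⟩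
  · rw [mem_GH] at h
    exact ⟨star π, mem_filter.2 ⟨star_mem_GF h.1, by simp; omega⟩, star_star _⟩
lemma sq_dvd_nm {π α : GI} (h : (nm π).Prime) (h2 : nm π ^ 2 ∣ nm α) :
    π ^ 2 ∣ α ∨ star π ^ 2 ∣ α ∨ (nm π : GI) ∣ α := by
  have h0 := h.pos
  rw [← mul_star_eq]
  rcases (dvd_nm_iff h).1 ((dvd_pow_self _ two_ne_zero).trans h2) with ⟨c, rfl⟩ | ⟨c, rfl⟩
  · rw [nm_mul, sq, Nat.mul_dvd_mul_iff_left h0] at h2
    rcases (dvd_nm_iff h).1 h2 with h3 | h3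
    · exact Or.inl (by rw [sq]; exact mul_dvd_mul_left _ h3)
    · exact Or.inr (Or.inr (mul_dvd_mul_left _ h3))
  · rw [nm_mul, nm_star, sq, Nat.mul_dvd_mul_iff_left h0] at h2
    rcases (dvd_nm_iff h).1 h2 with h3 | h3
    · exact Or.inr (Or.inr (by rw [mul_comm]; exact mul_dvd_mul_left _ h3))
    · exact Or.inr (Or.inl (by rw [sq]; exact mul_dvd_mul_left _ h3))
lemma pr_dvd {w z : ℝ} {S : Finset GI} (hS : S ⊆ GF w z) {α : GI} (h : ∀ π ∈ S, π ∣ α) :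
    pr S ∣ α := by
  refine Finset.prod_dvd_of_coprime (fun a ha b hb hab => ?_) h
  exact (GF_prime (hS ha)).irreducible.coprime_iff_not_dvd.2
    fun hd => hab (GF_eq_of_dvd (hS ha) (hS hb) hd)
lemma pr_ne_zero {w z : ℝ} {S : Finset GI} (hS : S ⊆ GF w z) : pr S ≠ 0 :=
  prod_ne_zero_iff.2 fun _ ha => (GF_prime (hS ha)).ne_zero
lemma dvd_pr {S : Finset GI} {π : GI} (h : π ∈ S) : π ∣ pr S := dvd_prod_of_mem _ h
lemma pr_dvd_pr {S T : Finset GI} (h : S ⊆ T) : pr S ∣ pr T := prod_dvd_prod_of_subset _ _ _ h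
lemma pr_union {S T : Finset GI} (h : Disjoint S T) : pr (S ∪ T) = pr S * pr T := prod_union h
lemma mem_sm {w z : ℝ} {α π : GI} : π ∈ sm w z α ↔ π ∈ GF w z ∧ π ∣ α := mem_filter
lemma sm_subset (w z : ℝ) (α : GI) : sm w z α ⊆ GF w z := filter_subset _ _
lemma pr_sm_dvd (w z : ℝ) (α : GI) : pr (sm w z α) ∣ α :=
  pr_dvd (sm_subset w z α) fun _ h => (mem_sm.1 h).2
lemma sm_mul (w z : ℝ) (α β : GI) : sm w z (α * β) = sm w z α ∪ sm w z β := by
  ext π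
  simp only [mem_union, mem_sm]
  constructor
  · rintro ⟨h1, h2⟩
    rcases (GF_prime h1).dvd_or_dvd h2 with h | h
    · exact Or.inl ⟨h1, h⟩
    · exact Or.inr ⟨h1, h⟩
  · rintro (h | h)
    · exact ⟨h.1, h.2.mul_right _⟩
    · exact ⟨h.1, h.2.mul_left _⟩
lemma sm_pr {w z : ℝ} {S : Finset GI} (hS : S ⊆ GF w z) : sm w z (pr S) = S := by
  ext π
  rw [mem_sm]
  refine ⟨fun h => ?_, fun h => ⟨hS h, dvd_pr h⟩⟩
  obtain ⟨π', h1, h2⟩ := ((GF_prime h.1).dvd_finsetProd_iff _).1 h.2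
  rwa [GF_eq_of_dvd h.1 (hS h1) h2]
lemma sm_unit (w z : ℝ) {ε : GI} (h : IsUnit ε) (α : GI) : sm w z (ε * α) = sm w z α := by
  ext π; simp only [mem_sm, h.dvd_mul_left]
lemma sm_star (w z : ℝ) (α : GI) : sm w z (star α) = (sm w z α).image star := by
  ext π
  simp only [mem_image, mem_sm]
  constructor
  · rintro ⟨h1, h2⟩
    exact ⟨star π, ⟨star_mem_GF h1, star_dvd_iff.2 h2⟩, star_star _⟩
  · rintro ⟨π', ⟨h1, h2⟩, rfl⟩
    exact ⟨star_mem_GF h1, star_dvd_star h2⟩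
lemma om_star (w z : ℝ) (α : GI) : om w z (star α) = om w z α := by
  unfold om; rw [sm_star, card_image_of_injective _ star_injective]
lemma om_neg (w z : ℝ) (α : GI) : om w z (-α) = om w z α := by
  unfold om; rw [← neg_one_mul, sm_unit _ _ isUnit_one.neg]
lemma sm_eq_empty_iff {w z : ℝ} {α : GI} :
    sm w z α = ∅ ↔ ∀ l ∈ PP w z, ¬ l ∣ nm α := by
  rw [eq_empty_iff_forall_notMem]
  constructor
  · intro h l hl hd
    obtain ⟨π, h1, rfl⟩ := exists_GH hl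
    have h2 := (mem_GH.1 h1).1
    rcases (dvd_nm_iff (GF_nm_prime h2)).1 hd with h3 | h3
    · exact h _ (mem_sm.2 ⟨h2, h3⟩)
    · exact h _ (mem_sm.2 ⟨star_mem_GF h2, h3⟩)
  · intro h π hπ
    rw [mem_sm] at hπ
    exact h _ (mem_GF.1 hπ.1).1 (nm_dvd hπ.2)
/-- on a set with squarefree norm the norm is injective -/
lemma nm_injOn {w z : ℝ} {S : Finset GI} (hS : S ⊆ GF w z) (h : Squarefree (nm (pr S))) :
    Set.InjOn nm (S : Set GI) := by
  intro a ha b hb e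
  by_contra hab
  have h1 : pr {a, b} ∣ pr S := pr_dvd_pr (by
    intro x hx; rcases mem_insert.1 hx with rfl | hx
    · exact ha
    · rw [mem_singleton.1 hx]; exact hb)
  have h2 := nm_dvd h1
  rw [nm_pr, prod_pair hab, ← e] at h2
  exact (GF_nm_prime (hS ha)).ne_one (Nat.isUnit_iff.1 (h _ h2))
lemma primeFactors_nm_pr {w z : ℝ} {S : Finset GI} (hS : S ⊆ GF w z) :
    (nm (pr S)).primeFactors = S.image nm := by
  ext l
  rw [Nat.mem_primeFactors, mem_image]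
  constructor
  · rintro ⟨h1, h2, -⟩
    rw [nm_pr] at h2
    obtain ⟨π, h3, h4⟩ := (h1.prime.dvd_finsetProd_iff _).1 h2
    exact ⟨π, h3, ((Nat.prime_dvd_prime_iff_eq h1 (GF_nm_prime (hS h3))).1 h4).symm⟩
  · rintro ⟨π, h1, rfl⟩
    exact ⟨GF_nm_prime (hS h1), nm_dvd (dvd_pr h1),
      fun h0 => pr_ne_zero hS (nm_eq_zero.1 h0)⟩
lemma subset_eq_of_nm {w z : ℝ} {S S1 S2 : Finset GI} (hS : S ⊆ GF w z)
    (h : Squarefree (nm (pr S))) (h1 : S1 ⊆ S) (h2 : S2 ⊆ S) (e : nm (pr S1) = nm (pr S2)) :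
    S1 = S2 := by
  have e2 : S1.image nm = S2.image nm := by
    rw [← primeFactors_nm_pr (h1.trans hS), ← primeFactors_nm_pr (h2.trans hS), e]
  have key : ∀ {A B : Finset GI}, A ⊆ S → B ⊆ S → A.image nm = B.image nm → A ⊆ B := by
    intro A B hA hB e a ha
    obtain ⟨b, hb, e3⟩ := mem_image.1 (e ▸ mem_image_of_mem nm ha)
    rwa [← nm_injOn hS h (hB hb) (hA ha) e3]
  exact Subset.antisymm (key h1 h2 e2) (key h2 h1 e2.symm)
lemma dvd_of_mod_three {α : GI} {l : ℕ} (hl : l.Prime) (h3 : l % 4 = 3) (h : l ∣ nm α) :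
    (l : GI) ∣ α := by
  have : Fact l.Prime := ⟨hl⟩
  have hp : Prime (l : GI) := GaussianInt.prime_of_nat_prime_of_mod_four_eq_three l h3
  have h1 : (l : GI) ∣ (nm α : GI) := Nat.cast_dvd_cast h
  rw [← mul_star_eq] at h1
  rcases hp.dvd_or_dvd h1 with h2 | h2
  · exact h2
  · simpa using star_dvd_star h2
/-- an odd prime that divides a squarefree norm is 1 mod 4 -/
lemma mod_four_of_sqfree {D : GI} {l : ℕ} (hl : l.Prime) (h2 : l ≠ 2) (h : l ∣ nm D)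
    (h' : ¬ l ^ 2 ∣ nm D) : l % 4 = 1 := by
  have := hl.eq_two_or_odd
  by_contra hn
  apply h'
  rw [← nm_natCast]
  exact nm_dvd (dvd_of_mod_three hl (by omega) h)
lemma exists_nm_eq {l : ℕ} (hl : l.Prime) (h : l % 4 ≠ 3) : ∃ π : GI, nm π = l := by
  have : Fact l.Prime := ⟨hl⟩
  obtain ⟨a, b, hab⟩ := Nat.Prime.sq_add_sq (p := l) h
  refine ⟨⟨a, b⟩, ?_⟩
  have := nm_int' ⟨a, b⟩
  simp only at this
  zify at hab ⊢; rw [this, hab]
/-- the local prime of `D` at `l` -/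
lemma exists_local {D : GI} {l : ℕ} (hl : l.Prime) (h : l ∣ nm D) (h' : ¬ l ^ 2 ∣ nm D) :
    ∃ π : GI, nm π = l ∧ π ∣ D ∧ ∀ L : GI, (l : GI) ∣ star D * L ↔ π ∣ L := by
  have h3 : l % 4 ≠ 3 := fun h3 => h' (by
    rw [← nm_natCast]; exact nm_dvd (dvd_of_mod_three hl h3 h))
  obtain ⟨π, h1, h2⟩ : ∃ π : GI, nm π = l ∧ π ∣ D := by
    obtain ⟨π, rfl⟩ := exists_nm_eq hl h3
    rcases (dvd_nm_iff hl).1 h with h4 | h4
    · exact ⟨π, rfl, h4⟩
    · exact ⟨star π, nm_star π, h4⟩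
  refine ⟨π, h1, h2, fun L => ?_⟩
  obtain ⟨c, rfl⟩ := h2
  subst h1
  have hp := prime_of_nm hl
  have hc : ¬ π ∣ star c := fun hc => h' (by
    rw [nm_mul, sq]; exact mul_dvd_mul_left _ (by rw [← nm_star c]; exact nm_dvd hc))
  rw [← mul_star_eq, star_mul, mul_comm (star c), mul_comm π, mul_assoc,
    mul_dvd_mul_iff_left (star_ne_zero.2 hp.ne_zero)]
  exact ⟨fun h4 => (hp.dvd_or_dvd h4).resolve_left hc, fun h4 => h4.mul_left _⟩
lemma sqfree_dvd_iff {D : GI} (h : Squarefree (nm D)) (L : GI) :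
    D ∣ L ↔ ∀ l ∈ (nm D).primeFactors, (l : GI) ∣ star D * L := by
  have h0 : D ≠ 0 := fun h0 => h.ne_zero (nm_eq_zero.2 h0)
  have e : D ∣ L ↔ (nm D : GI) ∣ star D * L := by
    rw [← mul_star_eq, mul_comm D, mul_dvd_mul_iff_left (star_ne_zero.2 h0)]
  rw [e]
  constructor
  · intro h1 l hl
    exact (Nat.cast_dvd_cast (Nat.dvd_of_mem_primeFactors hl)).trans h1
  · intro h1
    rw [← Nat.prod_primeFactors_of_squarefree h, Nat.cast_prod]
    refine Finset.prod_dvd_of_coprime (fun a ha b hb hab => ?_) h1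
    exact Nat.Coprime.cast ((Nat.coprime_primes (Nat.prime_of_mem_primeFactors ha)
      (Nat.prime_of_mem_primeFactors hb)).2 hab)
lemma assoc_pr {w z : ℝ} {D : GI} (h : Squarefree (nm D))
    (hp : ∀ l : ℕ, l.Prime → l ∣ nm D → l ≠ 2 ∧ w < (l : ℝ) ∧ (l : ℝ) ≤ z) :
    ∃ ε : GI, IsUnit ε ∧ D = ε * pr (sm w z D) := by
  have h0 : D ≠ 0 := fun h0 => h.ne_zero (nm_eq_zero.2 h0)
  have h1 := pr_sm_dvd w z D
  refine eq_unit_mul_of_dvd h1 (Nat.dvd_antisymm (nm_dvd h1) ?_) h0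
  rw [← Nat.prod_primeFactors_of_squarefree h]
  refine Finset.prod_primes_dvd _ (fun l hl => (Nat.prime_of_mem_primeFactors hl).prime) ?_
  intro l hl
  have hl1 := Nat.prime_of_mem_primeFactors hl
  have hl2 := Nat.dvd_of_mem_primeFactors hl
  have h2 := hp l hl1 hl2
  have h3 : l ∈ PP w z := mem_PP.2 ⟨hl1, mod_four_of_sqfree hl1 h2.1 hl2
    (fun h4 => hl1.ne_one (Nat.isUnit_iff.1 (h l (by rwa [← sq])))), h2.2⟩
  obtain ⟨π, h4, rfl⟩ := exists_GH h3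
  have h5 := (mem_GH.1 h4).1
  rcases (dvd_nm_iff hl1).1 hl2 with h6 | h6
  · exact nm_dvd (dvd_pr (mem_sm.2 ⟨h5, h6⟩))
  · rw [← nm_star]; exact nm_dvd (dvd_pr (mem_sm.2 ⟨star_mem_GF h5, h6⟩))
lemma dvd_det_of_dvd {π α β : GI} (h1 : π ∣ α) (h2 : π ∣ β) : (nm π : ℤ) ∣ det α β := by
  obtain ⟨a, rfl⟩ := h1
  obtain ⟨b, rfl⟩ := h2
  refine ⟨det a b, ?_⟩
  rw [nm_int']; simp [det]; ring
/-- two forms vanishing at the same prime have resultant divisible by `l` -/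
lemma dvd_res {π : GI} (_h : (nm π).Prime) {x : GI × GI} (hx : (nm π : ℤ) ∣ det x.1 x.2 - 1)
    {u v u' v' : ℤ} (h1 : π ∣ Lf u v x) (h2 : π ∣ Lf u' v' x) :
    (nm π : ℤ) ∣ u * v' - v * u' := by
  have h3 := dvd_det_of_dvd h1 h2
  have e : det (Lf u v x) (Lf u' v' x) = (u * v' - v * u') * det x.1 x.2 := by
    simp [det, Lf]; ring
  rw [e] at h3
  have := h3.sub (hx.mul_left (u * v' - v * u'))
  rwa [show (u * v' - v * u') * det x.1 x.2 - (u * v' - v * u') * (det x.1 x.2 - 1) =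
    u * v' - v * u' by ring] at this
lemma dvd_coef {l : ℕ} {x : GI × GI} (hx : (l : ℤ) ∣ det x.1 x.2 - 1)
    {u v : ℤ} (h1 : (l : GI) ∣ Lf u v x) : (l : ℤ) ∣ u ∧ (l : ℤ) ∣ v := by
  obtain ⟨c, hc⟩ := h1
  obtain ⟨d, hd⟩ := hx
  have er := congrArg Zsqrtd.re hc
  have ei := congrArg Zsqrtd.im hc
  simp [Lf] at er ei
  unfold det at hd
  exact ⟨⟨c.re * x.2.im - c.im * x.2.re - u * d, by
      linear_combination x.2.im * er - x.2.re * ei - u * hd⟩,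
    ⟨c.im * x.1.re - c.re * x.1.im - v * d, by
      linear_combination x.1.re * ei - x.1.im * er - v * hd⟩⟩

/-- domination by the product measure -/
lemma PM {w z M : ℝ} (hM : 0 ≤ M) {S : Finset GI} (hS : S ⊆ GF w z) (u : GI → ℝ)
    (hu : ∀ π ∈ S, 0 ≤ u π) :
    ∑ α ∈ (disc M).erase 0, ∏ π ∈ S.filter (fun π => π ∣ α), (1 + u π) ≤
      8 * M * ∏ π ∈ S, (1 + u π / nm π) := by
  have e1 : ∀ α : GI, ∏ π ∈ S.filter (fun π => π ∣ α), (1 + u π) =
      ∑ T ∈ S.powerset, (∏ π ∈ T, u π) * ind (∀ π ∈ T, π ∣ α) := by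
    intro α
    have : ∏ π ∈ S.filter (fun π => π ∣ α), (1 + u π) = ∏ π ∈ S, (1 + u π * ind (π ∣ α)) := by
      rw [prod_filter]
      refine prod_congr rfl fun π _ => ?_
      split_ifs with h
      · rw [ind_true h, mul_one]
      · rw [ind_false h, mul_zero, add_zero]
    rw [this, prod_one_add]
    exact sum_congr rfl fun T _ => by rw [prod_mul_distrib, prod_ind]
  rw [sum_congr rfl fun α _ => e1 α, sum_comm, prod_one_add, mul_sum]
  refine sum_le_sum fun T hT => ?_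
  have hT' := mem_powerset.1 hT
  rw [← mul_sum, sum_ind, prod_div_distrib, ← Nat.cast_prod, ← nm_pr]
  have h1 := card_mult_le hM (pr_ne_zero (hT'.trans hS))
  have h2 : (((disc M).erase 0).filter fun α => ∀ π ∈ T, π ∣ α).card ≤
      (((disc M).erase 0).filter fun α => pr T ∣ α).card :=
    card_le_card fun α hα => mem_filter.2 ⟨(mem_filter.1 hα).1,
      pr_dvd (hT'.trans hS) (mem_filter.1 hα).2⟩
  have h3 : 0 ≤ ∏ π ∈ T, u π := prod_nonneg fun π h => hu π (hT' h)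
  calc _ ≤ (∏ π ∈ T, u π) * (8 * M / nm (pr T)) := by
        refine mul_le_mul_of_nonneg_left (le_trans ?_ h1) h3
        exact_mod_cast h2
    _ = _ := by ring

end Pool.Agent.Lib.LQ
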