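import Pool.Agent.Lib.MP_de94cf_nt.Farey

/-! Definitions for the project LQ (both signs of the Liouville function at n^2+1 have positive
density).  Part A: base objects, sieve tools, Part II objects. -/

set_option autoImplicit false

open Finset
open scoped Classical

noncomputable section

namespace Pool.Agent.Lib.LQ

open Pool.Agent.Lib.MP_de94cf_nt (gg det inn)

abbrev GI := GaussianInt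

/-- norm as a natural number -/
def nm (α : GI) : ℕ := α.norm.natAbs

/-- indicator of a proposition -/
def ind (p : Prop) : ℝ := if p then 1 else 0

/-- the axis-parallel square with corner `a + b i` and side `L` -/
def Sqr (a b : ℤ) (L : ℕ) : Finset GI :=
  (Ico a (a + L) ×ˢ Ico b (b + L)).image fun x => (⟨x.1, x.2⟩ : GI)

/-- Gaussian integers of norm at most `M` -/
def disc (M : ℝ) : Finset GI :=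
  (Sqr (-(⌊M⌋₊ : ℤ)) (-(⌊M⌋₊ : ℤ)) (2 * ⌊M⌋₊ + 1)).filter fun α => (nm α : ℝ) ≤ M

/-- primes congruent to 1 mod 4 in `(w, z]` -/
def PP (w z : ℝ) : Finset ℕ :=
  (range (⌊z⌋₊ + 1)).filter fun l => l.Prime ∧ l % 4 = 1 ∧ w < (l : ℝ)

/-- the Gaussian primes above `PP w z`, normalised to `|im| < re` (two above each prime) -/
def GF (w z : ℝ) : Finset GI := (disc z).filter fun π => nm π ∈ PP w z ∧ |π.im| < π.re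

/-- one Gaussian prime above each element of `PP w z` -/
def GH (w z : ℝ) : Finset GI := (GF w z).filter fun π => 0 < π.im

def Lam (w z : ℝ) : ℝ := ∑ l ∈ PP w z, 2 / ((l : ℝ) + 1)

/-- the primes of `GF w z` dividing `α` -/
def sm (w z : ℝ) (α : GI) : Finset GI := (GF w z).filter fun π => π ∣ α

def om (w z : ℝ) (α : GI) : ℕ := (sm w z α).card

def pr (S : Finset GI) : GI := ∏ π ∈ S, π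

def psi (n : ℕ) : ℝ := ∏ l ∈ n.primeFactors, ((l : ℝ) + 1)

/-- sum of `l^(-1/2)` over the primes `l ∣ n` -/
def sg (n : ℕ) : ℝ := ∑ l ∈ n.primeFactors, 1 / Real.sqrt l

/-- sum of `l^(-1/2)` over the primes `l ∣ n` with `w < l` -/
def sgw (w : ℝ) (n : ℕ) : ℝ := ∑ l ∈ n.primeFactors.filter (fun l : ℕ => w < (l : ℝ)), 1 / Real.sqrt l

/-- Liouville function at `n^2+1` -/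
def ff (n : ℕ) : ℤ := ArithmeticFunction.liouville (n ^ 2 + 1)

/-! ### Means modulo `m` -/

/-- `m`-periodic functions on `GI` -/
def Per1 (m : ℕ) (φ : GI → ℝ) : Prop := ∀ x y : GI, (m : GI) ∣ x - y → φ x = φ y

/-- mean of an `m`-periodic function on `GI` -/
def E1 (m : ℕ) (φ : GI → ℝ) : ℝ := (∑ x ∈ Sqr 0 0 m, φ x) / (m : ℝ) ^ 2

/-- `m`-periodic functions on pairs -/
def Per (m : ℕ) (φ : GI × GI → ℝ) : Prop :=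
  ∀ x y : GI × GI, (m : GI) ∣ x.1 - y.1 → (m : GI) ∣ x.2 - y.2 → φ x = φ y

/-- representatives of `SL_2(Z/m)` -/
def cls (m : ℕ) : Finset (GI × GI) :=
  (Sqr 0 0 m ×ˢ Sqr 0 0 m).filter fun x => (m : ℤ) ∣ det x.1 x.2 - 1

/-- mean over `SL_2(Z/m)` -/
def Em (m : ℕ) (φ : GI × GI → ℝ) : ℝ := (∑ x ∈ cls m, φ x) / (cls m).card

/-- the box `C ≤ im β₁ < 2C`, `|re β₁| ≤ 2C`, `|im β₂| ≤ D` in `SL_2(Z)` -/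
def Box (C D : ℕ) : Finset (GI × GI) :=
  (Sqr (-(2 * C : ℤ)) (-(2 * C : ℤ)) (4 * C + 1) ×ˢ
    Sqr (-(2 * D + 1 : ℤ)) (-(2 * D + 1 : ℤ)) (4 * D + 3)).filter fun x =>
      (C : ℤ) ≤ x.1.im ∧ x.1.im < 2 * C ∧ |x.2.im| ≤ D ∧ det x.1 x.2 = 1

/-- the linear form `u β₁ + v β₂` -/
def Lf (u v : ℤ) (x : GI × GI) : GI := (u : GI) * x.1 + (v : GI) * x.2

/-! ### Part II objects -/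

/-- angular character `(α/|α|)^k` -/
def ek (k : ℤ) (α : GI) : ℂ := ((α : ℂ) / (‖(α : ℂ)‖ : ℂ)) ^ k

def cont (α : GI) : ℕ := Int.gcd α.re α.im

/-- primitive Gaussian integers with norm in `(M, 4M]` -/
def ringP (M : ℝ) : Finset GI := (disc (4 * M)).filter fun α => M < (nm α : ℝ) ∧ cont α = 1

/-- sum of reciprocals of the primes 1 mod 4 in `(P, Q]` -/
def LL (P Q : ℝ) : ℝ := ∑ π ∈ GH P Q, 1 / (nm π : ℝ)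

/-- the weight `∏_j ω_j(α) / L_j` -/
def wt (J : Finset ℕ) (P Q : ℕ → ℝ) (α : GI) : ℝ :=
  ∏ j ∈ J, (((GH (P j) (Q j)).filter fun π => π ∣ α).card : ℝ) / LL (P j) (Q j)

/-- admissible systems of prime ranges -/
structure Sys (J : Finset ℕ) (P Q : ℕ → ℝ) : Prop where
  one_le : ∀ j ∈ J, 1 ≤ LL (P j) (Q j)
  sumL : ∑ j ∈ J, 1 / LL (P j) (Q j) ≤ 2
  pos : ∀ j ∈ J, 100 ≤ P j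
  sumP : ∑ j ∈ J, 1 / P j ≤ 1 / 100
  disj : ∀ i ∈ J, ∀ j ∈ J, i ≠ j → Q i ≤ P j ∨ Q j ≤ P i

/-- weighted angular Fourier coefficient of `h` on the ring -/
def Asum (h : GI → ℝ) (J : Finset ℕ) (P Q : ℕ → ℝ) (M : ℝ) (k : ℤ) : ℂ :=
  ∑ α ∈ ringP M, ((h α * wt J P Q α : ℝ) : ℂ) * ek k α

/-- total weight of the ring -/
def Wsum (J : Finset ℕ) (P Q : ℕ → ℝ) (M : ℝ) : ℝ := ∑ α ∈ ringP M, wt J P Q α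

/-- end points of the short ranges -/
def xv (P H : ℝ) (v : ℕ) : ℝ := P * Real.exp (v / H)

/-- number of short ranges -/
def Vn (P Q H : ℝ) : ℕ := ⌈H * Real.log (Q / P)⌉₊

/-- the `v`-th short range of `GH P Q` -/
def GS (P Q H : ℝ) (v : ℕ) : Finset GI :=
  (GH P Q).filter fun π => xv P H v < (nm π : ℝ) ∧ (nm π : ℝ) ≤ xv P H (v + 1)

def Psum (h : GI → ℝ) (S : Finset GI) (k : ℤ) : ℂ := ∑ π ∈ S, ((h π : ℝ) : ℂ) * ek k π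

/-- `gg` as a real function -/
def gr (α : GI) : ℝ := (gg α : ℝ)

/-- balanced Farey edges -/
def Edges (X R : ℝ) : Finset (GI × GI) :=
  (disc (R ^ 2 * X) ×ˢ disc (R ^ 2 * X)).filter fun e =>
    det e.1 e.2 = 1 ∧ X / R ^ 2 ≤ (nm e.1 : ℝ) ∧ X / R ^ 2 ≤ (nm e.2 : ℝ)

def BadE (σ : ℤ) (X R : ℝ) : Finset (GI × GI) := (Edges X R).filter fun e => gg e.1 * gg e.2 ≠ σ

/-- close pairs of primitive points of the ring with different signs -/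
def BadP (M : ℝ) (K : ℕ) : Finset (GI × GI) :=
  (ringP M ×ˢ ringP M).filter fun e => |det e.1 e.2| ≤ K ∧ gg e.1 ≠ gg e.2

def BadN (σ : ℤ) (X C : ℝ) : Finset ℕ :=
  (range (⌊C * X⌋₊ + 1)).filter fun n => X / C ≤ (n : ℝ) ∧ ff n ≠ σ

/-! ### Statements of the base blocks -/

def MertensStmt : Prop :=
  ∃ C : ℝ, ∀ y z : ℝ, 2 ≤ y → y ≤ z → |Lam y z - Real.log (Real.log z / Real.log y)| ≤ C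

def FLStmt : Prop :=
  ∀ κ δ : ℝ, 0 < δ → ∃ u : ℕ, ∀ (ι A : Type) (I : Finset ι) (N p : ι → ℝ) (z : ℝ) (T : Finset A)
    (a : A → ℝ) (ψ : ι → A → ℝ) (M Rem : ℝ), 2 ≤ z →
    (∀ i ∈ I, 2 ≤ N i ∧ N i ≤ z ∧ 0 ≤ p i ∧ p i ≤ 1 / 2) →
    (∀ y : ℝ, 1 < y → ∑ i ∈ I.filter (fun i => y < N i ∧ N i ≤ y ^ 2), p i ≤ κ) →
    (∀ x ∈ T, 0 ≤ a x) → (∀ i ∈ I, ∀ x ∈ T, 0 ≤ ψ i x ∧ ψ i x ≤ 1) → 0 ≤ M →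
    (∑ S ∈ I.powerset.filter (fun S => ∏ i ∈ S, N i ≤ z ^ u),
      |∑ x ∈ T, a x * ∏ i ∈ S, ψ i x - M * ∏ i ∈ S, p i| ≤ Rem) →
    |∑ x ∈ T, a x * ∏ i ∈ I, (1 - ψ i x) - M * ∏ i ∈ I, (1 - p i)| ≤
      δ * (M * ∏ i ∈ I, (1 - p i)) + 2 * z * Rem

def KlStmt : Prop :=
  ∀ (n : ℕ) [NeZero n] (u v : ZMod n),
    ‖∑ x : (ZMod n)ˣ, ZMod.stdAddChar (u * (x : ZMod n) + v * ((x⁻¹ : (ZMod n)ˣ) : ZMod n))‖ ^ 4 ≤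
      2 * (n : ℝ) ^ 3 * (n.divisors.card : ℝ) ^ 3 * min (Nat.gcd u.val n) (Nat.gcd v.val n)

def EqStmt : Prop :=
  ∃ K : ℝ, ∀ C D m : ℕ, 1 ≤ C → 1 ≤ D → 1 ≤ m → ∀ φ : GI × GI → ℝ, Per m φ →
    (∀ x, 0 ≤ φ x ∧ φ x ≤ 1) →
    |∑ x ∈ Box C D, φ x - (Box C D).card * Em m φ| ≤
      K * (m : ℝ) ^ 6 * (C + D) * (C : ℝ) ^ (4 / 5 : ℝ)

def PEStmt : Prop :=
  ∃ K : ℝ, ∀ C D : ℕ, 1 ≤ C → 1 ≤ D → ∀ (L : Finset ℕ) (φ : ℕ → GI × GI → ℝ),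
    (∀ l ∈ L, l.Prime ∧ Per (l ^ 2) (φ l) ∧ ∀ x, 0 ≤ φ l x ∧ φ l x ≤ 1) →
    |∑ x ∈ Box C D, ∏ l ∈ L, φ l x - (Box C D).card * ∏ l ∈ L, Em (l ^ 2) (φ l)| ≤
      K * (∏ l ∈ L, (l : ℝ)) ^ 12 * (C + D) * (C : ℝ) ^ (4 / 5 : ℝ)

def LocStmt : Prop :=
  ∀ (l : ℕ) (π : GI), l.Prime → l ≠ 2 → nm π = l → ∀ u v u' v' : ℤ,
    ¬ ((l : ℤ) ∣ u ∧ (l : ℤ) ∣ v) → ¬ ((l : ℤ) ∣ u' ∧ (l : ℤ) ∣ v') →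
    Em (l ^ 2) (fun x => ind (π ∣ Lf u v x)) = 1 / ((l : ℝ) + 1) ∧
    Em (l ^ 2) (fun x => ind (π ^ 2 ∣ Lf u v x)) ≤ 1 / ((l : ℝ) * ((l : ℝ) + 1)) ∧
    Em (l ^ 2) (fun x => ind (π ∣ Lf u v x ∧ star π ∣ Lf u' v' x)) ≤
      1 / ((l : ℝ) * ((l : ℝ) + 1))

def EFLStmt : Prop :=
  ∀ κ δ : ℝ, 0 < δ → ∃ (u : ℕ) (K : ℝ), ∀ (C D : ℕ) (z : ℝ) (L0 L1 : Finset ℕ)
    (φ : ℕ → GI × GI → ℝ), 1 ≤ C → 1 ≤ D → 2 ≤ z → Disjoint L0 L1 →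
    (∀ l ∈ L0 ∪ L1, l.Prime ∧ Per (l ^ 2) (φ l) ∧ ∀ x, 0 ≤ φ l x ∧ φ l x ≤ 1) →
    (∀ l ∈ L1, (l : ℝ) ≤ z ∧ 1 - Em (l ^ 2) (φ l) ≤ 1 / 2 ∧ 1 - Em (l ^ 2) (φ l) ≤ κ / l) →
    |∑ x ∈ Box C D, ∏ l ∈ L0 ∪ L1, φ l x -
        (Box C D).card * ∏ l ∈ L0 ∪ L1, Em (l ^ 2) (φ l)| ≤
      δ * ((Box C D).card * ∏ l ∈ L0 ∪ L1, Em (l ^ 2) (φ l)) +
        K * (∏ l ∈ L0, (l : ℝ)) ^ 12 * z ^ (13 * u + 1) * (C + D) * (C : ℝ) ^ (4 / 5 : ℝ)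

def LFLStmt : Prop :=
  ∀ κ δ : ℝ, 0 < δ → ∃ u : ℕ, ∀ (a b : ℤ) (L : ℕ) (z : ℝ) (L0 L1 : Finset ℕ)
    (φ : ℕ → GI → ℝ), 2 ≤ z → Disjoint L0 L1 →
    (∀ l ∈ L0 ∪ L1, l.Prime ∧ Per1 (l ^ 2) (φ l) ∧ ∀ x, 0 ≤ φ l x ∧ φ l x ≤ 1) →
    (∀ l ∈ L1, (l : ℝ) ≤ z ∧ 1 - E1 (l ^ 2) (φ l) ≤ 1 / 2 ∧ 1 - E1 (l ^ 2) (φ l) ≤ κ / l) →
    |∑ x ∈ Sqr a b L, ∏ l ∈ L0 ∪ L1, φ l x - (L : ℝ) ^ 2 * ∏ l ∈ L0 ∪ L1, E1 (l ^ 2) (φ l)| ≤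
      δ * ((L : ℝ) ^ 2 * ∏ l ∈ L0 ∪ L1, E1 (l ^ 2) (φ l)) +
        4 * z ^ (u + 1) * (((∏ l ∈ L0, (l : ℝ)) * z ^ u) ^ 2 * L + ((∏ l ∈ L0, (l : ℝ)) * z ^ u) ^ 4)

def Loc1Stmt : Prop :=
  (∀ (l : ℕ) (c : GI), l.Prime → E1 (l ^ 2) (fun x => ind ((l : GI) ∣ x - c)) = 1 / (l : ℝ) ^ 2) ∧
  (∀ (l : ℕ) (c : ℤ), l.Prime → E1 (l ^ 2) (fun x => ind ((l : ℤ) ∣ x.re - c)) = 1 / (l : ℝ)) ∧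
  (∀ (l : ℕ) (π : GI), l.Prime → nm π = l → E1 (l ^ 2) (fun x => ind (π ∣ x)) = 1 / (l : ℝ)) ∧
  (∀ (l : ℕ) (c : ℤ), l.Prime → l ≠ 2 →
    E1 (l ^ 2) (fun x => ind ((l : ℤ) ∣ x.norm - c)) ≤ 2 / (l : ℝ)) ∧
  (∀ (l : ℕ) (c : ℤ), l.Prime → l ≠ 2 → ¬ (l : ℤ) ∣ c →
    ((l : ℝ) - 1) / (l : ℝ) ^ 2 ≤ E1 (l ^ 2) (fun x => ind ((l : ℤ) ∣ x.norm - c)) ∧
    E1 (l ^ 2) (fun x => ind ((l : ℤ) ∣ x.norm - c)) ≤ ((l : ℝ) + 1) / (l : ℝ) ^ 2) ∧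
  (∀ l : ℕ, l.Prime → l ≠ 2 → E1 (l ^ 2) (fun x => ind (l ^ 2 ∣ nm x)) ≤ 3 / (l : ℝ) ^ 2)

def GaussStmt : Prop :=
  ∃ K : ℝ, ∀ y : ℝ, 1 ≤ y → |((disc y).card : ℝ) - Real.pi * y| ≤ K * Real.sqrt y

def EXPStmt : Prop :=
  ∀ j0 : ℕ, ∃ c K : ℝ, 0 < c ∧ c ≤ 1 / 2 ∧ ∀ (y : ℝ) (κ : ℤ), 1 ≤ y → κ ≠ 0 → (|κ| : ℝ) ≤ y ^ j0 →
    ‖∑ α ∈ disc y, ek κ α‖ ≤ K * y ^ (1 - c)

def VdCStmt : Prop :=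
  ∀ (r : ℕ) (A : ℝ), 1 ≤ A → ∃ K : ℝ, ∀ (f : ℕ → ℝ → ℝ) (n n' H : ℕ) (a lam : ℝ),
    1 ≤ H → H ≤ n → n' ≤ n → 0 < lam →
    (∀ j ≤ r + 1, ∀ x ∈ Set.Icc a (a + n'), HasDerivAt (f j) (f (j + 1) x) x) →
    (∀ x ∈ Set.Icc a (a + n'), lam ≤ |f (r + 1) x| ∧ |f (r + 1) x| ≤ A * lam ∧
      |f (r + 2) x| ≤ A * lam / n) → A * lam * (H : ℝ) ^ r ≤ 1 →
    ‖∑ i ∈ range n', Complex.exp (Complex.I * (f 0 (a + i) : ℝ))‖ ≤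
      K * n * ((1 / (H : ℝ)) ^ ((1 / 2 : ℝ) ^ (r + 1)) +
        (1 / (n * lam * (H : ℝ) ^ r)) ^ ((1 / 2 : ℝ) ^ (r + 1)))

def EXPLStmt : Prop :=
  ∀ j0 : ℕ, ∃ c K : ℝ, 0 < c ∧ ∀ (y : ℝ) (κ : ℤ), 1 ≤ y → y ^ (1 / 4 : ℝ) ≤ (|κ| : ℝ) →
    (|κ| : ℝ) ≤ y ^ j0 → ‖∑ α ∈ disc y, ek κ α‖ ≤ K * y ^ (1 - c)

def EXPSStmt : Prop :=
  ∃ K : ℝ, ∀ (y : ℝ) (κ : ℤ), 1 ≤ y → κ ≠ 0 → ‖∑ α ∈ disc y, ek κ α‖ ≤ K * |κ| * Real.sqrt y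

/-! ### Statements of Part II -/

def MVTStmt : Prop :=
  ∃ K : ℝ, ∀ (N : ℕ) (M ρ : ℝ) (S : Finset GI) (c : GI → ℂ), 1 ≤ N → 1 ≤ M → 1 ≤ ρ →
    (∀ α ∈ S, M / ρ ≤ (nm α : ℝ) ∧ (nm α : ℝ) ≤ M) →
    ∑ k ∈ Icc (-(N : ℤ)) N, ‖∑ α ∈ S, c α * ek k α‖ ^ 2 ≤
      K * ∑ α ∈ S, ‖c α‖ ^ 2 * (cont α * Real.sqrt ρ * N + M)

def MomStmt : Prop :=
  ∃ K : ℝ, ∀ (J : Finset ℕ) (P Q : ℕ → ℝ) (M : ℝ) (r : ℕ), Sys J P Q → 0 ≤ M → r ≤ 4 →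
    ∑ α ∈ (disc M).erase 0, wt J P Q α ^ r ≤ K * M

def LowStmt : Prop :=
  ∃ c M0 : ℝ, 0 < c ∧ ∀ (J : Finset ℕ) (P Q : ℕ → ℝ) (M : ℝ), Sys J P Q → M0 ≤ M →
    ∏ j ∈ J, Q j ≤ Real.sqrt M →
    c * M ≤ ∑ α ∈ (ringP M).filter (fun α => (nm α : ℝ) ≤ 2 * M ∧ Odd (nm α)), wt J P Q α

def DecStmt : Prop :=
  ∃ K : ℝ, ∀ (J : Finset ℕ) (P Q : ℕ → ℝ) (j : ℕ) (H M : ℝ) (N : ℕ) (h : GI → ℝ),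
    Sys J P Q → j ∈ J → 1 ≤ H → 1 ≤ N → (N : ℝ) ≤ M →
    (∀ α β, h (α * β) = h α * h β) → (∀ α, |h α| ≤ 1) →
    ∑ k ∈ Icc (-(N : ℤ)) N, ‖Asum h J P Q M k - ((1 / LL (P j) (Q j) : ℝ) : ℂ) *
        ∑ v ∈ range (Vn (P j) (Q j) H), Psum h (GS (P j) (Q j) H v) k *
          Asum h (J.erase j) P Q (M / xv (P j) H v) k‖ ^ 2 ≤
      K * M ^ 2 * (1 / Real.sqrt H + N / M / LL (P j) (Q j) + 1 / P j + M ^ (-(1 / 4) : ℝ))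

def RPStmt : Prop :=
  ∃ K : ℝ, ∀ (x y : ℝ) (S B : Finset GI) (c : GI → ℂ) (l N : ℕ), 2 ≤ x → 1 ≤ y → 1 ≤ l → 1 ≤ N →
    S ⊆ GH x (3 * x) → (∀ β ∈ B, cont β = 1 ∧ y ≤ (nm β : ℝ) ∧ (nm β : ℝ) ≤ 4 * y) →
    ∑ k ∈ Icc (-(N : ℤ)) N, ‖∑ β ∈ B, c β * ek k β‖ ^ 2 * ‖∑ π ∈ S, ek k π‖ ^ (2 * l) ≤
      K * (3 ^ l * N + y * (3 * x) ^ l) * (3 * x) ^ l * (l : ℝ) ^ (2 * l) *
        ∑ β ∈ B, ‖c β‖ ^ 2 * Real.exp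
          (((S.filter fun π => π ∣ β).card : ℝ) + ((S.filter fun π => star π ∣ β).card : ℝ))

def ChainStmt : Prop :=
  ∀ c η : ℝ, 0 < c → 0 < η → ∃ K' M0 : ℝ, 1 ≤ K' ∧ ∀ M P0 Q0 : ℝ, M0 ≤ M → M ^ c ≤ P0 →
    1 ≤ LL P0 Q0 → ∃ (J : Finset ℕ) (P Q : ℕ → ℝ), 0 ∈ J ∧ P 0 = P0 ∧ Q 0 = Q0 ∧ Sys J P Q ∧
      ∏ j ∈ J.erase 0, Q j ≤ M ^ c ∧ ∀ N : ℕ, 1 ≤ N → (N : ℝ) ≤ M / K' →
        ∃ U : Finset ℤ, U ⊆ Icc (-(N : ℤ)) N ∧ (U.card : ℝ) ≤ M ^ c ∧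
          ∑ k ∈ Icc (-(N : ℤ)) N \ U, ‖Asum gr J P Q M k‖ ^ 2 ≤ η * M ^ 2

def HMStmt : Prop :=
  ∃ c : ℝ, 0 < c ∧ ∀ η : ℝ, 0 < η → ∃ y0 : ℝ, ∀ (J : Finset ℕ) (P Q : ℕ → ℝ) (y : ℝ)
    (U : Finset ℤ), Sys J P Q → y0 ≤ y → ∏ j ∈ J, Q j ≤ y ^ c → (U.card : ℝ) ≤ y ^ c →
    (∀ k ∈ U, (|k| : ℝ) ≤ y ^ 2) →
    ∑ k ∈ U, ‖Asum gr J P Q y k‖ ^ 2 ≤ Wsum J P Q y ^ 2 + η * y ^ 2

def PSStmt : Prop :=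
  ∀ j0 : ℕ, ∃ Cs : ℝ, 0 < Cs ∧ ∀ (r : ℕ) (H : ℝ), 1 ≤ r → 1 ≤ H → ∃ x0 : ℝ, ∀ (x : ℝ) (k : ℤ)
    (S : Finset GI), x0 ≤ x → k ≠ 0 → (|k| : ℝ) ≤ x ^ j0 → S ⊆ GH x (x * Real.exp (1 / H)) →
    ‖∑ π ∈ S, ek k π‖ ≤ S.card - (S.card - Cs / r * x / (H * Real.log x)) / (r : ℝ) ^ 2

def FejStmt : Prop :=
  ∀ η K' : ℝ, 0 < η → 1 ≤ K' → ∃ (K : ℕ) (η' : ℝ), 0 < η' ∧ ∀ (J : Finset ℕ) (P Q : ℕ → ℝ)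
    (M : ℝ) (N : ℕ), Sys J P Q → 1 ≤ N → (N : ℝ) ≤ M / K' → M / K' ≤ 2 * N →
    ((BadP M K).card : ℝ) ≤ η' * M →
    Wsum J P Q M ^ 2 - η * M ^ 2 ≤ ∑ k ∈ Icc (-(N : ℤ)) N, ‖Asum gr J P Q M k‖ ^ 2

def MRStmt : Prop :=
  ∃ (K : ℕ) (η M0 : ℝ), 0 < η ∧ ∀ M : ℝ, M0 ≤ M → η * M ≤ ((BadP M K).card : ℝ)

def FarStmt : Prop :=
  ∀ (K : ℕ) (η : ℝ), 0 < η → ∃ R δ : ℝ, 1 ≤ R ∧ 0 < δ ∧ ∀ M : ℝ, 1 ≤ M →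
    ((BadE 1 M R).card : ℝ) ≤ δ * M → ((BadP M K).card : ℝ) ≤ η * M

def TriStmt : Prop :=
  ∃ c M0 : ℝ, 0 < c ∧ ∀ M : ℝ, M0 ≤ M → c * M ≤ ((BadE (-1) M 7).card : ℝ)

/-- the transfer theorem (conclusion of Part I) -/
def TRStmt : Prop :=
  ∀ R δ : ℝ, 1 ≤ R → 0 < δ → ∃ C ε X0 : ℝ, 1 ≤ C ∧ 0 < ε ∧ ∀ (X : ℝ) (σ : ℤ), X0 ≤ X →
    (σ = 1 ∨ σ = -1) → ((BadN σ X C).card : ℝ) ≤ ε * X → ((BadE σ X R).card : ℝ) ≤ δ * X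

def GoalStmt : Prop :=
  ∃ C ε X0 : ℝ, 1 ≤ C ∧ 0 < ε ∧ ∀ (X : ℝ) (σ : ℤ), X0 ≤ X → (σ = 1 ∨ σ = -1) →
    ε * X ≤ ((BadN σ X C).card : ℝ)

def FinalStmt : Prop :=
    ∃ ε : ℝ, 0 < ε ∧ ∀ᶠ N : ℕ in Filter.atTop,
      |(∑ n ∈ Finset.Icc 1 N, (1 : ℝ) / (n : ℝ))⁻¹ *
          ∑ n ∈ Finset.Icc 1 N,
            (-1 : ℝ) ^ (ArithmeticFunction.cardFactors (n ^ 2 + 1)) / (n : ℝ)| ≤ 1 - ε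

end Pool.Agent.Lib.LQ
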