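import Pool.Agent.Lib.LQ.Defs

/-! Definitions for the project LQ, Part B: squares, objects, second moments (Part I). -/

set_option autoImplicit false

open Finset
open scoped Classical

noncomputable section

namespace Pool.Agent.Lib.LQ

open Pool.Agent.Lib.MP_de94cf_nt (gg det inn)

/-- the lower sieving bound `w = v^4` -/
def ww (v : ℕ) : ℝ := (v : ℝ) ^ 4

/-- four-term relations among values of `n^2+1` -/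
@[ext] structure Sq where
  a1 : GI
  a2 : GI
  a3 : GI
  a4 : GI
  P : GI
  Q : GI
  y : ℤ
  k : ℤ

structure Sq.Valid (s : Sq) : Prop where
  hdet : det s.a1 (s.a2 * star s.P) = 1
  h4 : s.a4 * star s.Q = s.a2 * star s.P + (s.k : GI) * s.a1
  h3 : s.a3 * star s.Q = s.P * s.a1 + (s.y : GI) * s.a2
  hq : s.Q.norm = s.P.norm - s.k * s.y
  hQ : s.Q ≠ 0

def Sq.n1 (s : Sq) : ℤ := inn s.a1 (s.a2 * star s.P)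

def Sq.v4 (s : Sq) : Sq := ⟨s.a1, s.a4, s.a3, s.a2, s.Q, s.P, s.y, -s.k⟩

def Sq.v2 (s : Sq) : Sq := ⟨star s.a3, -star s.a2, star s.a1, -star s.a4, s.Q, s.P, s.y, -s.k⟩

def Sq.v3 (s : Sq) : Sq := s.v2.v4

def Sq.N6 (s : Sq) : ℕ := nm s.a1 * nm s.a2 * nm s.a3 * nm s.a4 * nm s.P * nm s.Q

/-- arithmetic conditions on a square that are symmetric under the four views -/
structure Sq.Core (v a e f : ℕ) (z : ℝ) (s : Sq) : Prop where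
  sq6 : ∀ l ∈ PP (ww v) z, ¬ l ^ 2 ∣ s.N6
  yc : ∀ l ∈ PP (ww v) z, l ∣ s.y.natAbs → ¬ l ∣ s.N6
  sz : ∏ l ∈ (PP (ww v) z).filter (fun l => l ∣ s.N6), (l : ℝ) ≤ z ^ a
  sfP : Squarefree (nm s.P)
  sfQ : Squarefree (nm s.Q)
  cop : Nat.Coprime (nm s.P) (nm s.Q)
  bigP : ∀ l : ℕ, l.Prime → l ∣ nm s.P → ww v < (l : ℝ)
  bigQ : ∀ l : ℕ, l.Prime → l ∣ nm s.Q → ww v < (l : ℝ)
  sgP : sg (nm s.P) ≤ 1 / v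
  sgQ : sg (nm s.Q) ≤ 1 / v
  PQ : nm s.P ≤ 2 * nm s.Q
  QP : nm s.Q ≤ 2 * nm s.P
  ne : nm s.P ≠ nm s.Q
  loP : z ^ (9 * e) ≤ (nm s.P : ℝ)
  hiP : (nm s.P : ℝ) ≤ z ^ f
  loQ : z ^ (9 * e) ≤ (nm s.Q : ℝ)
  hiQ : (nm s.Q : ℝ) ≤ z ^ f
  ypos : 0 < s.y
  sfy : Squarefree s.y.natAbs
  sgy : sg s.y.natAbs ≤ 1 / v
  loy : z ^ (8 * a) ≤ (s.y : ℝ)
  hiy : (s.y : ℝ) ≤ z ^ e
  sgk : sgw (ww v) s.k.natAbs ≤ 1 / v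

structure Sq.Size (C X : ℝ) (s : Sq) : Prop where
  lon : X / C ≤ (|s.n1| : ℝ)
  hin : (|s.n1| : ℝ) ≤ C * X
  loa : X / C ≤ (s.y : ℝ) * nm s.a2
  hia : (s.y : ℝ) * nm s.a2 ≤ C * X

/-- the six weights -/
structure Wt where
  x1 : ℝ
  x2 : ℝ
  xP : ℝ
  x3 : ℝ
  x4 : ℝ
  xQ : ℝ

structure Wt.OK (x : Wt) : Prop where
  h1 : 0 ≤ x.x1
  h2 : 0 ≤ x.x2
  hP : 0 ≤ x.xP
  hsum : x.x1 + x.x2 + x.xP = 1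
  h3 : 0 ≤ x.x3 ∧ x.x3 ≤ 1
  h4 : 0 ≤ x.x4 ∧ x.x4 ≤ 1
  hQ : 0 ≤ x.xQ ∧ x.xQ ≤ 1

def Sq.W (v : ℕ) (z : ℝ) (x : Wt) (s : Sq) : ℝ :=
  x.x1 ^ om (ww v) z s.a1 * x.x2 ^ om (ww v) z s.a2 * x.xP ^ om (ww v) z s.P *
    x.x3 ^ om (ww v) z s.a3 * x.x4 ^ om (ww v) z s.a4 * x.xQ ^ om (ww v) z s.Q

/-- weights of the first view -/
def x0 : Wt := ⟨1 / 3, 1 / 3, 1 / 3, 1 / 6, 1 / 6, 1 / 6⟩

/-- parameters of a square through a given object -/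
@[ext] structure Tt where
  S2 : Finset GI
  S3 : Finset GI
  y : ℕ
  Q : GI

def Tt.p (ρ : GI) (t : Tt) : ℕ := nm (pr t.S3 * ρ)
def Tt.q (t : Tt) : ℕ := nm t.Q
def Tt.k (ρ : GI) (t : Tt) : ℤ := ((t.p ρ : ℤ) - t.q) / t.y
def Tt.m (ρ : GI) (t : Tt) : ℤ := (nm (pr t.S2) : ℤ) * t.p ρ
def Tt.c (t : Tt) : ℤ := (t.y : ℤ) * nm (pr t.S2)
def Tt.L3 (t : Tt) (γ : GI × GI) : GI := Lf 1 t.c γ
def Tt.L4 (ρ : GI) (t : Tt) (γ : GI × GI) : GI := Lf (t.k ρ) (t.m ρ) γ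

/-- admissible labels -/
structure Lab (v a f : ℕ) (z : ℝ) (S : Finset GI) (ρ : GI) : Prop where
  sub : S ⊆ GF (ww v) z
  sf : Squarefree (nm (pr S * ρ))
  rough : ∀ l : ℕ, l.Prime → l ∣ nm ρ → z < (l : ℝ)
  hiS : (nm (pr S) : ℝ) ≤ z ^ a
  hiρ : (nm ρ : ℝ) ≤ z ^ f

/-- admissible parameters -/
structure Adm (v a e f : ℕ) (z : ℝ) (S : Finset GI) (ρ : GI) (W1 : ℕ) (Y0 C1 : ℝ) (t : Tt) :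
    Prop where
  sub2 : t.S2 ⊆ S
  sub3 : t.S3 ⊆ S
  disj : Disjoint t.S2 t.S3
  loc : Y0 ≤ (t.c : ℝ)
  hic : (t.c : ℝ) ≤ C1 * Y0
  loy : z ^ (8 * a) ≤ (t.y : ℝ)
  hiy : (t.y : ℝ) ≤ z ^ e
  sfy : Squarefree t.y
  yW : t.y ≡ 1 [MOD W1]
  sgy : sg t.y ≤ 1 / v
  copy : Nat.Coprime t.y (nm (pr S * ρ))
  sfq : Squarefree t.q
  bigq : ∀ l : ℕ, l.Prime → l ∣ t.q → ww v < (l : ℝ)
  sgq : sg t.q ≤ 1 / v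
  copq : Nat.Coprime t.q (nm (pr S * ρ))
  pq : t.p ρ ≤ 2 * t.q
  qp : t.q ≤ 2 * t.p ρ
  ne : t.p ρ ≠ t.q
  ydvd : (t.y : ℤ) ∣ (t.p ρ : ℤ) - t.q
  QW : (W1 : GI) ∣ t.Q - 1
  lop : z ^ (9 * e) ≤ (t.p ρ : ℝ)
  hip : (t.p ρ : ℝ) ≤ z ^ f
  sgk : sgw (ww v) (t.k ρ).natAbs ≤ 1 / v

/-- squarefree moduli made of primes at most `w` -/
def WOK (v W1 : ℕ) : Prop := Squarefree W1 ∧ ∀ l : ℕ, l.Prime → l ∣ W1 → (l : ℝ) ≤ ww v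

structure BoxOK (f : ℕ) (z X : ℝ) (C D : ℕ) : Prop where
  hC : 1 ≤ C
  hD : 1 ≤ D
  hiC : (C : ℝ) ≤ Real.sqrt X * z ^ f
  hiD : (D : ℝ) ≤ Real.sqrt X * z ^ f

/-- relations among the exponents -/
def ExpOK (u a e f : ℕ) : Prop := 1 ≤ a ∧ u ≤ a ∧ 8 * a ≤ e ∧ 9 * e ≤ f

/-- objects of the box with label `(S, ρ)` -/
def Aset (v : ℕ) (z : ℝ) (S : Finset GI) (ρ : GI) (C D : ℕ) : Finset (GI × GI) :=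
  (Box C D).filter fun γ => sm (ww v) z γ.1 = S ∧ sm (ww v) z γ.2 = ∅ ∧ ρ ∣ γ.1

def th (x : Wt) (S : Finset GI) (t : Tt) : ℝ :=
  x.x1 ^ (S \ (t.S2 ∪ t.S3)).card * x.x2 ^ t.S2.card * x.xP ^ t.S3.card

/-- primes of `GF` dividing `L` whose norm does not divide `n` -/
def omx (v : ℕ) (z : ℝ) (n : ℕ) (L : GI) : ℕ := ((sm (ww v) z L).filter fun π => ¬ nm π ∣ n).card

def phi (v : ℕ) (z : ℝ) (x : Wt) (S : Finset GI) (ρ : GI) (t : Tt) (γ : GI × GI) : ℝ :=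
  th x S t * x.xQ ^ om (ww v) z t.Q * ind (star t.Q ∣ t.L3 γ) *
    x.x3 ^ omx v z (nm (pr S) * t.q) (t.L3 γ) * x.x4 ^ omx v z (nm (pr S) * t.q) (t.L4 ρ γ)

def mt (v : ℕ) (z : ℝ) (x : Wt) (S : Finset GI) (t : Tt) : ℝ :=
  th x S t * x.xQ ^ om (ww v) z t.Q / psi t.q

def Nlab (v : ℕ) (z : ℝ) (S : Finset GI) (ρ : GI) (C D : ℕ) : ℝ :=
  (Box C D).card * Real.exp (-2 * Lam (ww v) z) / psi (nm (pr S * ρ))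

def G34 (v : ℕ) (z : ℝ) (x : Wt) : ℝ := Real.exp (-(2 - x.x3 - x.x4) * Lam (ww v) z)

def GQ (v : ℕ) (z : ℝ) (x : Wt) : ℝ := Real.exp (-(1 - x.xQ) * Lam (ww v) z)

def sS (S : Finset GI) : ℝ := ∑ π ∈ S, 1 / (nm π : ℝ)

def Maj (v : ℕ) (z : ℝ) (x : Wt) (W1 : ℕ) (C1 : ℝ) : ℝ := C1 * GQ v z x / (W1 : ℝ) ^ 3

def D33 (t t' : Tt) : ℤ := t.c - t'.c
def D34 (ρ : GI) (t t' : Tt) : ℤ := t'.m ρ - t.c * t'.k ρ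
def D44 (ρ : GI) (t t' : Tt) : ℤ := t.k ρ * t'.m ρ - t'.k ρ * t.m ρ

/-- sum of `1/l` over sieving primes dividing `D` but not `n` -/
def sst (v : ℕ) (z : ℝ) (n : ℕ) (D : ℤ) : ℝ :=
  ∑ l ∈ (PP (ww v) z).filter (fun l : ℕ => (l : ℤ) ∣ D ∧ ¬ l ∣ n), 1 / (l : ℝ)

/-- norm of the greatest common divisor of `Q` and `Q'` -/
def g0 (t t' : Tt) : ℕ :=
  ∏ l ∈ (Nat.gcd t.q t'.q).primeFactors.filter (fun l : ℕ => (l : GI) ∣ star t.Q * t'.Q), l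

def exn (S : Finset GI) (t t' : Tt) : ℕ := nm (pr S) * t.y * t'.y

def Exc (v : ℕ) (z : ℝ) (S : Finset GI) (ρ : GI) (t t' : Tt) : ℝ :=
  Real.exp (12 * (sst v z (exn S t t') (D33 t t') + sst v z (exn S t t') (D34 ρ t t') +
      sst v z (exn S t t') (D34 ρ t' t) + sst v z (exn S t t') (D44 ρ t t'))) *
    ind ((g0 t t' : ℤ) ∣ D33 t t' ∧ (D33 t t' = 0 → g0 t t' = Nat.gcd t.q t'.q)) * psi (g0 t t')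

def Diag (t t' : Tt) : Prop :=
  t.S2 = t'.S2 ∧ t.S3 = t'.S3 ∧ t.y = t'.y ∧ t.Q ∣ t'.Q ∧ t.q = t'.q

/-- a finite set containing all admissible parameters -/
def Tall (e f : ℕ) (z : ℝ) (S : Finset GI) : Finset Tt :=
  (S.powerset ×ˢ S.powerset ×ˢ range (⌊z ^ e⌋₊ + 1) ×ˢ disc (2 * z ^ f)).image
    fun r => ⟨r.1, r.2.1, r.2.2.1, r.2.2.2⟩

/-- the square attached to an object and a parameter -/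
def mkSq (ρ : GI) (γ : GI × GI) (t : Tt) : Sq :=
  ⟨γ.1 / (pr t.S2 * (pr t.S3 * ρ)), star (pr t.S2) * γ.2, t.L3 γ / (pr t.S2 * star t.Q),
    t.L4 ρ γ / (pr t.S2 * (pr t.S3 * ρ) * star t.Q), pr t.S3 * ρ, t.Q, t.y, t.k ρ⟩

/-- the modulus of the first view -/
def WW (v : ℕ) : ℕ := primorial (v ^ 4)

/-- parameters used in the first view (`a = 3 a₁`) -/
def T1 (v a1 e f : ℕ) (z : ℝ) (S : Finset GI) (ρ : GI) (Y0 : ℝ) : Finset Tt :=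
  (Tall e f z S).filter fun t => Adm v (3 * a1) e f z S ρ (WW v) Y0 2 t ∧ t.q < t.p ρ ∧
    Nat.Coprime (t.k ρ).natAbs (nm (pr S)) ∧ 0.14 * Lam (ww v) z ≤ (om (ww v) z t.Q : ℝ) ∧
    (nm (pr (sm (ww v) z t.Q)) : ℝ) ≤ z ^ a1

/-- truncated weight of the first view -/
def w1 (v a1 e f : ℕ) (z : ℝ) (S : Finset GI) (ρ : GI) (t : Tt) (γ : GI × GI) : ℝ :=
  ind (star t.Q ∣ t.L3 γ ∧ (mkSq ρ γ t).Core v (3 * a1) e f z ∧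
      0.28 * Lam (ww v) z ≤ (om (ww v) z (mkSq ρ γ t).a3 : ℝ) + om (ww v) z (mkSq ρ γ t).a4) *
    (1 / 3) ^ S.card *
    (1 / 6) ^ (om (ww v) z (mkSq ρ γ t).a3 + om (ww v) z (mkSq ρ γ t).a4 + om (ww v) z t.Q)

/-- labels of the first view -/
structure Lab1 (v a1 e f : ℕ) (z : ℝ) (S : Finset GI) (ρ : GI) (Y0 : ℝ) : Prop where
  lab : Lab v a1 f z S ρ
  sgS : sg (nm (pr S * ρ)) ≤ 1 / v
  loρ : 2 * z ^ (9 * e) ≤ (nm ρ : ℝ)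
  hip : (nm (pr S * ρ) : ℝ) ≤ z ^ f
  loY : z ^ (25 * a1) ≤ Y0
  hiY : 2 * Y0 ≤ z ^ e

/-- many sieving primes at every scale -/
def Multi (v : ℕ) (z C0 : ℝ) (S : Finset GI) : Prop :=
  ∀ i : ℕ, 1.9 * Lam (ww v ^ 2 ^ i) z - C0 ≤ ((S.filter fun π => ww v ^ 2 ^ i < (nm π : ℝ)).card : ℝ)

/-- objects: a basis and two marked primes -/
@[ext] structure Ob where
  b1 : GI
  b2 : GI
  r1 : GI
  r2 : GI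

/-- typical objects (`a = 3 a₁`) -/
structure TypOb (v a0 a1 b : ℕ) (C0 R z X : ℝ) (o : Ob) : Prop where
  hdet : det o.b1 o.b2 = 1
  sect : |o.b1.re| ≤ o.b1.im
  lon : X / (2 * R ^ 2) ≤ (inn o.b1 o.b2 : ℝ)
  hin : (inn o.b1 o.b2 : ℝ) ≤ R ^ 2 * X
  sm2 : sm (ww v) z o.b2 = ∅
  sfS : Squarefree (nm (pr (sm (ww v) z o.b1)))
  hr1 : o.r1 ∈ GF (z ^ (360 * a1 * b)) (z ^ (360 * a1 * b ^ 2))
  hr2 : o.r2 ∈ GF (z ^ (30 * a1)) (z ^ (30 * a1 * b))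
  dv : o.r1 * o.r2 ∣ o.b1
  hiS : (nm (pr (sm (ww v) z o.b1)) : ℝ) ≤ z ^ a0
  sgS : sg (nm (pr (sm (ww v) z o.b1))) ≤ 1 / (2 * v)
  multi : Multi v z C0 (sm (ww v) z o.b1)
  lo1 : X * nm o.r2 / R ^ 2 ≤ (nm o.b1 : ℝ)
  hi1 : (nm o.b1 : ℝ) ≤ R ^ 2 * X * z ^ a0 * nm o.r2

/-- number of balanced edges that can give the object -/
def mult (v : ℕ) (R z X : ℝ) (o : Ob) : ℕ :=
  ((sm (ww v) z o.b1).powerset.filter fun u =>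
    X * nm (pr u) * nm o.r2 / R ^ 2 ≤ (nm o.b1 : ℝ) ∧
      (nm o.b1 : ℝ) ≤ R ^ 2 * X * nm (pr u) * nm o.r2).card

/-- typical edges -/
structure TypE (v a0 a1 b : ℕ) (C0 z : ℝ) (e : GI × GI) : Prop where
  sq : ∀ l ∈ PP (ww v) z, ¬ l ^ 2 ∣ nm e.1 * nm e.2
  hiS : (nm (pr (sm (ww v) z (e.1 * star e.2))) : ℝ) ≤ z ^ a0
  sgS : sg (nm (pr (sm (ww v) z (e.1 * star e.2)))) ≤ 1 / (2 * v)
  multi : Multi v z C0 (sm (ww v) z (e.1 * star e.2))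
  ex1 : ∃ r ∈ GF (z ^ (360 * a1 * b)) (z ^ (360 * a1 * b ^ 2)), r ∣ e.1
  ex2 : ∃ r ∈ GF (z ^ (30 * a1)) (z ^ (30 * a1 * b)), r ∣ star e.2

/-! ### Statements of Part I -/

/-- upper bound for weighted sums over `Q` -/
def QUStmt : Prop :=
  ∃ (K : ℝ) (u : ℕ), ∀ v a e f : ℕ, K ≤ v → ExpOK u a e f → ∃ z0 : ℝ, ∀ (z lam p : ℝ)
    (W1 y d : ℕ) (c c' : ℤ), z0 ≤ z → 0 ≤ lam → lam ≤ 1 → z ^ (9 * e) ≤ p → WOK v W1 →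
    Squarefree y → sg y ≤ 1 / v → (y : ℝ) ≤ z ^ e → Squarefree d → (d : ℝ) ≤ z ^ a →
    (∀ l : ℕ, l.Prime → l ∣ d → ww v < (l : ℝ)) → Nat.Coprime y d → Nat.Coprime y W1 →
    Int.gcd c y = 1 →
    ∑ Q ∈ (disc (2 * p)).filter
        (fun Q => (W1 : GI) ∣ Q - 1 ∧ (y : ℤ) ∣ Q.norm - c ∧ (d : ℤ) ∣ Q.norm - c'),
        lam ^ om (ww v) z Q ≤
      K * p * Real.exp (-(1 - lam) * Lam (ww v) z) * 3 ^ d.primeFactors.card /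
        (y * d * (W1 : ℝ) ^ 2)

/-- averages of the first kind -/
def AV1Stmt : Prop :=
  ∃ K : ℝ, ∀ δ : ℝ, 0 < δ → ∃ u : ℕ, ∀ (v a e f : ℕ) (C1 : ℝ), K ≤ v → ExpOK u a e f → 1 ≤ C1 →
    ∃ z0 : ℝ, ∀ (z Y0 : ℝ) (x : Wt) (W1 : ℕ) (S : Finset GI) (ρ : GI) (T : Finset Tt),
    z0 ≤ z → 0 < Y0 → x.OK → WOK v W1 → Lab v a f z S ρ →
    (∀ t ∈ T, Adm v a e f z S ρ W1 Y0 C1 t) →
    ∑ t ∈ T, mt v z x S t ≤ K * Maj v z x W1 C1 ∧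
    ∀ D : Tt → Tt → ℤ, (D = D33 ∨ D = D34 ρ ∨ D = (fun t t' => D34 ρ t' t) ∨ D = D44 ρ) →
      ∑ t ∈ T, ∑ t' ∈ T, mt v z x S t * mt v z x S t' *
          (Real.exp (144 * sst v z (exn S t t') (D t t')) - 1) ≤
        (δ + K / v) * K * Maj v z x W1 C1 ^ 2

/-- averages over common divisors of `Q` and `Q'` -/
def AV2Stmt : Prop :=
  ∃ (K : ℝ) (u : ℕ), ∀ (v a e f : ℕ) (C1 : ℝ), K ≤ v → ExpOK u a e f → 1 ≤ C1 →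
    ∃ z0 : ℝ, ∀ (z Y0 : ℝ) (x : Wt) (W1 : ℕ) (S : Finset GI) (ρ : GI) (T : Finset Tt),
    z0 ≤ z → 0 < Y0 → x.OK → WOK v W1 → Lab v a f z S ρ →
    (∀ t ∈ T, Adm v a e f z S ρ W1 Y0 C1 t) →
    ∑ t ∈ T, ∑ t' ∈ T, mt v z x S t * mt v z x S t' *
        ind (D33 t t' ≠ 0 ∧ 1 < g0 t t' ∧ (g0 t t' : ℤ) ∣ D33 t t') *
          (psi (g0 t t') * Real.sqrt (psi (g0 t t'))) ≤ K / v * Maj v z x W1 C1 ^ 2 ∧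
    ∑ t ∈ T, ∑ t' ∈ T, mt v z x S t * mt v z x S t' *
        ind (¬ Diag t t' ∧ D33 t t' = 0 ∧ g0 t t' = Nat.gcd t.q t'.q) * psi (g0 t t') ≤
      1 / z

/-- the pair bound and the size of a label class -/
def U2Stmt : Prop :=
  ∃ K : ℝ, ∀ δ : ℝ, 0 < δ → ∃ u : ℕ, ∀ v a e f : ℕ, K ≤ v → ExpOK u a e f →
    ∃ z0 : ℝ, ∀ (z X : ℝ) (S : Finset GI) (ρ : GI) (C D : ℕ),
    z0 ≤ z → z ^ (4000 * f) ≤ X → Lab v a f z S ρ → BoxOK f z X C D →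
    ((Aset v z S ρ C D).card : ℝ) ≤
      (1 + δ + K / v) * Real.exp (K * sS S) * Nlab v z S ρ C D + X ^ (0.93 : ℝ) ∧
    ∀ (x : Wt) (W1 : ℕ) (Y0 C1 : ℝ) (t t' : Tt), x.OK → Adm v a e f z S ρ W1 Y0 C1 t →
      Adm v a e f z S ρ W1 Y0 C1 t' →
      ∑ γ ∈ Aset v z S ρ C D, phi v z x S ρ t γ * phi v z x S ρ t' γ ≤
        (1 + δ + K / v) * Real.exp (K * sS S) * Nlab v z S ρ C D * G34 v z x ^ 2 *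
          (mt v z x S t * mt v z x S t' * Exc v z S ρ t t') + X ^ (0.93 : ℝ)

/-- the second moment theorem -/
def SMStmt : Prop :=
  ∃ K : ℝ, ∀ δ : ℝ, 0 < δ → ∃ u : ℕ, ∀ (v a e f : ℕ) (C1 : ℝ), K ≤ v → ExpOK u a e f → 1 ≤ C1 →
    ∃ z0 : ℝ, ∀ (z X Y0 : ℝ) (x : Wt) (W1 : ℕ) (S : Finset GI) (ρ : GI) (C D : ℕ) (T : Finset Tt)
      (wmax : ℝ) (w : Tt → GI × GI → ℝ),
    z0 ≤ z → z ^ (4000 * f) ≤ X → 0 < Y0 → x.OK → WOK v W1 → Lab v a f z S ρ → BoxOK f z X C D →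
    (∀ t ∈ T, Adm v a e f z S ρ W1 Y0 C1 t) → 0 ≤ wmax →
    (∀ t ∈ T, ∀ γ ∈ Aset v z S ρ C D, 0 ≤ w t γ ∧ w t γ ≤ phi v z x S ρ t γ ∧ w t γ ≤ wmax) →
    ∑ t ∈ T, mt v z x S t ≤ K * Maj v z x W1 C1 ∧
    ∑ γ ∈ Aset v z S ρ C D, (∑ t ∈ T, w t γ) ^ 2 ≤
      Real.exp (K * sS S) * Nlab v z S ρ C D * G34 v z x ^ 2 *
          ((1 + δ + K / v) * (∑ t ∈ T, mt v z x S t) ^ 2 + (δ + K / v) * K * Maj v z x W1 C1 ^ 2) +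
        4 * wmax * ∑ γ ∈ Aset v z S ρ C D, ∑ t ∈ T, w t γ + X ^ (0.95 : ℝ)

/-- squares built from objects -/
def MKStmt : Prop :=
  ∀ (v a e f : ℕ) (z : ℝ) (S : Finset GI) (ρ : GI) (W1 : ℕ) (Y0 C1 : ℝ) (t : Tt) (γ : GI × GI),
    0 < z → Lab v a f z S ρ → Adm v a e f z S ρ W1 Y0 C1 t → det γ.1 γ.2 = 1 →
    sm (ww v) z γ.1 = S → sm (ww v) z γ.2 = ∅ → ρ ∣ γ.1 → star t.Q ∣ t.L3 γ →
    (mkSq ρ γ t).Valid ∧ (mkSq ρ γ t).n1 = inn γ.1 γ.2 ∧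
    γ.1 = (mkSq ρ γ t).a1 * (pr t.S2 * (pr t.S3 * ρ)) ∧
    t.L3 γ = (mkSq ρ γ t).a3 * (pr t.S2 * star t.Q) ∧
    t.L4 ρ γ = (mkSq ρ γ t).a4 * (pr t.S2 * (pr t.S3 * ρ) * star t.Q) ∧
    sm (ww v) z (star (mkSq ρ γ t).a2) = t.S2 ∧ sm (ww v) z (mkSq ρ γ t).P = t.S3 ∧
    ((∀ l ∈ PP (ww v) z, ¬ l ^ 2 ∣ (mkSq ρ γ t).N6) →
      om (ww v) z (mkSq ρ γ t).a1 + om (ww v) z (mkSq ρ γ t).a2 + om (ww v) z (mkSq ρ γ t).P =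
        S.card)

/-- the views of a square -/
def VWStmt : Prop :=
  (∀ s : Sq, s.Valid → s.P ≠ 0 → s.v2.Valid ∧ s.v3.Valid ∧ s.v4.Valid ∧
    ff s.n1.natAbs * ff s.v2.n1.natAbs * ff s.v3.n1.natAbs * ff s.v4.n1.natAbs = 1) ∧
  (∀ (v a e f : ℕ) (z : ℝ) (s : Sq), s.Core v a e f z →
    s.v2.Core v a e f z ∧ s.v3.Core v a e f z ∧ s.v4.Core v a e f z) ∧
  (∀ (v : ℕ) (z : ℝ) (s : Sq),
    s.v2.W v z ⟨1 / 6, 2 / 3, 1 / 6, 2 / 3, 1 / 6, 2 / 3⟩ =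
        s.W v z ⟨2 / 3, 2 / 3, 2 / 3, 1 / 6, 1 / 6, 1 / 6⟩ ∧
      s.v3.W v z ⟨1 / 6, 1 / 6, 2 / 3, 2 / 3, 2 / 3, 1 / 6⟩ =
        s.W v z ⟨2 / 3, 2 / 3, 2 / 3, 1 / 6, 1 / 6, 1 / 6⟩ ∧
      s.v4.W v z ⟨2 / 3, 1 / 6, 1 / 6, 1 / 6, 2 / 3, 2 / 3⟩ =
        s.W v z ⟨2 / 3, 2 / 3, 2 / 3, 1 / 6, 1 / 6, 1 / 6⟩) ∧
  (Function.Injective Sq.v2 ∧ Function.Injective Sq.v3 ∧ Function.Injective Sq.v4) ∧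
  (∀ C : ℝ, 1 ≤ C → ∃ C2 : ℝ, 1 ≤ C2 ∧ ∀ (X : ℝ) (s : Sq), 1 ≤ X → s.Valid → 0 < s.n1 → 0 < s.y →
    nm s.Q < nm s.P → nm s.P ≤ 2 * nm s.Q → s.Size C X →
    s.v2.Size C2 X ∧ s.v3.Size C2 X ∧ s.v4.Size C2 X)

/-- first moment, one parameter -/
def L1Stmt : Prop :=
  ∃ K : ℝ, ∀ δ : ℝ, 0 < δ → ∃ u : ℕ, ∀ v a1 e f : ℕ, K ≤ v → u ≤ a1 → ExpOK u (3 * a1) e f →
    ∃ z0 : ℝ, ∀ (z X Y0 : ℝ) (S : Finset GI) (ρ : GI) (C D : ℕ) (t : Tt),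
    z0 ≤ z → z ^ (4000 * f) ≤ X → Lab1 v a1 e f z S ρ Y0 → BoxOK f z X C D →
    t ∈ T1 v a1 e f z S ρ Y0 →
    (1 - δ - K / v) * Nlab v z S ρ C D * G34 v z x0 * mt v z x0 S t - X ^ (0.93 : ℝ) ≤
      ∑ γ ∈ Aset v z S ρ C D, w1 v a1 e f z S ρ t γ

/-- total mass of the parameters of the first view -/
def SLStmt : Prop :=
  ∃ (K c : ℝ) (u : ℕ), 0 < c ∧ ∀ v a1 e f : ℕ, K ≤ v → u ≤ a1 → ExpOK u (3 * a1) e f →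
    ∃ z0 : ℝ, ∀ (z Y0 : ℝ) (S : Finset GI) (ρ : GI), z0 ≤ z → Lab1 v a1 e f z S ρ Y0 →
    c * GQ v z x0 / (WW v : ℝ) ^ 3 ≤ ∑ t ∈ T1 v a1 e f z S ρ Y0, mt v z x0 S t

/-- concentration in the first view -/
def V1Stmt : Prop :=
  ∃ K c : ℝ, 0 < c ∧ ∀ δ : ℝ, 0 < δ → ∃ u : ℕ, ∀ (v a1 e f : ℕ) (C0 : ℝ), K ≤ v → u ≤ a1 →
    ExpOK u (3 * a1) e f → ∃ z0 : ℝ, ∀ (z X Y0 : ℝ) (S : Finset GI) (ρ : GI) (C D : ℕ),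
    z0 ≤ z → z ^ (4000 * f) ≤ X → Lab1 v a1 e f z S ρ Y0 → BoxOK f z X C D →
    1.9 * Lam (ww v) z - C0 ≤ (S.card : ℝ) →
    (((Aset v z S ρ C D).filter fun γ => ∑ t ∈ T1 v a1 e f z S ρ Y0, w1 v a1 e f z S ρ t γ <
        c * Real.exp (-(5 / 2) * Lam (ww v) z) / (WW v : ℝ) ^ 3).card : ℝ) ≤
      (δ + K / v) * K * Nlab v z S ρ C D + X ^ (0.97 : ℝ)

/-- number of objects above the integers of a set -/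
def OCStmt : Prop :=
  ∀ (v E : ℕ) (C : ℝ), 1 ≤ C → ∃ K : ℝ, ∀ (z X : ℝ) (B : Finset ℕ) (O : Finset ((GI × GI) × GI)),
    2 ≤ z → 1 ≤ X → X ≤ z ^ E → (∀ n ∈ B, (n : ℝ) ≤ C * X) →
    (∀ o ∈ O, det o.1.1 o.1.2 = 1 ∧ (inn o.1.1 o.1.2).natAbs ∈ B ∧
      sm (ww v) z o.1.2 = ∅ ∧ o.2 ∣ o.1.1 ∧ ∀ l : ℕ, l.Prime → l ∣ nm o.2 → z < (l : ℝ)) →
    (O.card : ℝ) ≤ K * Real.sqrt (X * B.card)

/-- uniform integrability in the other views -/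
def UIStmt : Prop :=
  ∃ (K : ℝ) (u : ℕ), ∀ (v a e f E : ℕ) (C2 : ℝ), K ≤ v → ExpOK u a e f → 1 ≤ C2 →
    ∃ Cu z0 : ℝ, ∀ (z X : ℝ) (x : Wt) (F : Finset Sq) (B : Finset ℕ),
    z0 ≤ z → z ^ (4000 * f) ≤ X → X ≤ z ^ E → x.OK → x.x3 + x.x4 + x.xQ = 3 / 2 →
    (∀ n ∈ B, (n : ℝ) ≤ C2 * X) →
    (∀ s ∈ F, s.Valid ∧ s.Core v a e f z ∧ s.Size C2 X ∧ s.n1.natAbs ∈ B ∧
      s.W v z x ≤ Real.exp (-(3 / 2) * Lam (ww v) z)) →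
    ∑ s ∈ F, s.W v z x ≤
      Cu * Real.exp (-(3 / 2) * Lam (ww v) z) * Real.sqrt (X * Real.sqrt (X * B.card))

/-- mass of the typical objects of the wrong sign -/
def NUStmt : Prop :=
  ∃ K : ℝ, ∀ (R C0 : ℝ) (a0 b : ℕ), 1 ≤ R → 1 ≤ a0 → 2 ≤ b → ∃ K1 C2 : ℝ, 1 ≤ C2 ∧
    ∀ δ : ℝ, 0 < δ → ∃ u : ℕ, ∀ v a1 E : ℕ, K ≤ v → u ≤ a1 → a0 ≤ a1 → ∃ Cn z0 : ℝ,
    ∀ (z X : ℝ) (σ : ℤ) (O : Finset Ob), z0 ≤ z → z ^ (4000 * (396 * a1 * b ^ 2)) ≤ X →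
    X ≤ z ^ E → (σ = 1 ∨ σ = -1) →
    (∀ o ∈ O, TypOb v a0 a1 b C0 R z X o ∧ gg o.b1 * gg o.b2 ≠ σ) →
    ∑ o ∈ O, (2 : ℝ) ^ om (ww v) z o.b1 * Real.exp (-Lam (ww v) z) ≤
      (δ + K / v) * K1 * Real.log v * X + Cn * Real.sqrt (X * Real.sqrt (X * (BadN σ X C2).card))

/-- second moment of the multiplicity -/
def UMStmt : Prop :=
  ∃ (K : ℝ) (u : ℕ), ∀ (R C0 : ℝ) (b : ℕ), 1 ≤ R → 2 ≤ b → ∃ Cm : ℝ,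
    ∀ v a0 a1 : ℕ, K ≤ v → u ≤ a1 → 1 ≤ a0 → a0 ≤ a1 → ∃ z0 : ℝ,
    ∀ (z X : ℝ) (O : Finset Ob), z0 ≤ z → z ^ (4000 * (396 * a1 * b ^ 2)) ≤ X →
    (∀ o ∈ O, TypOb v a0 a1 b C0 R z X o) →
    ∑ o ∈ O, (mult v R z X o : ℝ) ^ 2 / 2 ^ om (ww v) z o.b1 * Real.exp (Lam (ww v) z) ≤ Cm * X

/-- most edges are typical -/
def TEStmt : Prop :=
  ∀ R δ : ℝ, 1 ≤ R → 0 < δ → ∃ (K C0 : ℝ) (a0 b u : ℕ), 1 ≤ a0 ∧ 2 ≤ b ∧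
    ∀ v a1 : ℕ, K ≤ v → u ≤ a1 → a0 ≤ a1 → ∃ (z0 : ℝ) (E0 : ℕ), ∀ z X : ℝ, z0 ≤ z →
    z ^ E0 ≤ X →
    (((Edges X R).filter fun e => ¬ TypE v a0 a1 b C0 z e).card : ℝ) ≤ δ * X

end Pool.Agent.Lib.LQ
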