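import Pool.Agent.Lib.LQ.Defs

set_option autoImplicit false

open Finset
open scoped Classical

noncomputable section

namespace Pool.Agent.Lib.LQ

namespace F

lemma badN_mono (σ : ℤ) {X C C' : ℝ} (hX : 0 ≤ X) (hC : 1 ≤ C) (h : C ≤ C') :
    ((BadN σ X C).card : ℝ) ≤ (BadN σ X C').card := by
  refine Nat.cast_le.2 (card_le_card fun n hn => ?_)
  simp only [BadN, mem_filter, mem_range, Nat.lt_succ_iff] at hn ⊢
  exact ⟨hn.1.trans (Nat.floor_mono (by gcongr)),
    (div_le_div_of_nonneg_left hX (by linarith) h).trans hn.2.1, hn.2.2⟩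

/-- logarithmic mass of the set where `ff` differs from `σ` -/
def T (σ : ℤ) (N : ℕ) : ℝ := ∑ n ∈ (Icc 1 N).filter (fun n => ff n ≠ σ), 1 / (n : ℝ)

lemma T_nonneg (σ : ℤ) (N : ℕ) : 0 ≤ T σ N := sum_nonneg fun _ _ => by positivity

lemma T_lower {σ : ℤ} {C ε X0 : ℝ} (hC : 1 ≤ C) (hε : 0 < ε)
    (h : ∀ X : ℝ, X0 ≤ X → ε * X ≤ ((BadN σ X C).card : ℝ)) (N : ℕ) (hN : 1 ≤ N) :
    ε / C * (Real.log N - Real.log (max (C * X0) (2 * C ^ 2))) / Real.log (2 * C ^ 2) ≤ T σ N := by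
  have hC2 : 1 < 2 * C ^ 2 := by nlinarith
  have hl := Real.log_pos hC2
  induction N using Nat.strong_induction_on with
  | _ N ih =>
    have hN0 : (0 : ℝ) < N := Nat.cast_pos.2 hN
    rcases le_or_gt (N : ℝ) (max (C * X0) (2 * C ^ 2)) with h1 | h1
    · refine le_trans (div_nonpos_of_nonpos_of_nonneg (mul_nonpos_of_nonneg_of_nonpos
        (by positivity) (sub_nonpos.2 (Real.log_le_log hN0 h1))) hl.le) (T_nonneg _ _)
    have h2 : C * X0 < N := (le_max_left _ _).trans_lt h1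
    have h3 : 2 * C ^ 2 < N := (le_max_right _ _).trans_lt h1
    have h4 : 2 < (N : ℝ) / C ^ 2 := by rw [lt_div_iff₀ (by positivity)]; exact h3
    obtain ⟨N', hN'⟩ : ∃ N' : ℕ, ⌈(N : ℝ) / C ^ 2⌉₊ = N' + 1 :=
      Nat.exists_eq_succ_of_ne_zero (Nat.ceil_pos.2 (by linarith)).ne'
    have h5 : (N : ℝ) / C ^ 2 ≤ N' + 1 := by
      have := Nat.le_ceil ((N : ℝ) / C ^ 2)
      rwa [hN', Nat.cast_succ] at this
    have h6 : (N' : ℝ) < N / C ^ 2 := Nat.lt_ceil.1 (by omega)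
    have h7 : (N : ℝ) / C ^ 2 ≤ N := div_le_self hN0.le (by nlinarith)
    have h8 : N' < N := Nat.cast_lt.1 (h6.trans_le h7)
    have h9 : (1 : ℝ) < N' := by linarith
    have h10 := ih N' h8 (by exact_mod_cast h9.le)
    have h11 : Real.log N - Real.log (2 * C ^ 2) ≤ Real.log N' := by
      rw [← Real.log_div hN0.ne' (by positivity)]
      refine Real.log_le_log (by positivity) ?_
      rw [mul_comm, ← div_div]
      linarith
    have hB := h (N / C) (by rw [le_div_iff₀ (by linarith)]; linarith)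
    have hfl : ⌊C * (N / C)⌋₊ = N := by rw [mul_div_cancel₀ _ (by linarith), Nat.floor_natCast]
    have hmem : ∀ n ∈ BadN σ (N / C) C, N' < n ∧ n ≤ N ∧ ff n ≠ σ := fun n hn => by
      simp only [BadN, hfl, mem_filter, mem_range, Nat.lt_succ_iff] at hn
      refine ⟨Nat.cast_lt.1 (h6.trans_le ?_), hn.1, hn.2.2⟩
      rw [sq, ← div_div]; exact hn.2.1
    have h12 : T σ N' + ∑ n ∈ BadN σ (N / C) C, 1 / (n : ℝ) ≤ T σ N := by
      rw [T, ← sum_union (disjoint_left.2 fun n h1 h2 => by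
        have := (hmem n h2).1
        have := (mem_Icc.1 (mem_filter.1 h1).1).2
        omega)]
      refine sum_le_sum_of_subset_of_nonneg (union_subset (fun n hn => ?_) fun n hn => ?_)
        fun _ _ _ => by positivity
      · simp only [mem_filter, mem_Icc] at hn ⊢
        exact ⟨⟨hn.1.1, by omega⟩, hn.2⟩
      · have := hmem n hn
        exact mem_filter.2 ⟨mem_Icc.2 ⟨by omega, this.2.1⟩, this.2.2⟩
    have h13 : ε / C ≤ ∑ n ∈ BadN σ (N / C) C, 1 / (n : ℝ) := by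
      refine le_trans ?_ (card_nsmul_le_sum _ _ (1 / (N : ℝ)) fun n hn => ?_)
      · rw [nsmul_eq_mul, mul_one_div, le_div_iff₀ hN0, div_mul_eq_mul_div, mul_div_assoc]
        exact hB
      · have := hmem n hn
        exact one_div_le_one_div_of_le (Nat.cast_pos.2 (by omega)) (Nat.cast_le.2 this.2.1)
    refine le_trans ?_ h12
    refine le_trans ?_ (add_le_add h10 h13)
    rw [div_add' _ _ _ hl.ne', ← mul_add]
    gcongr
    linarith

lemma ff_eq (n : ℕ) : (ff n : ℝ) = (-1) ^ ArithmeticFunction.cardFactors (n ^ 2 + 1) := by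
  rw [ff, ArithmeticFunction.liouville_apply (by positivity)]; push_cast; rfl

lemma ff_cases (n : ℕ) : ff n = 1 ∨ ff n = -1 := by
  rw [ff, ArithmeticFunction.liouville_apply (by positivity)]; exact neg_one_pow_eq_or _ _

lemma sum_eq {σ : ℤ} (hσ : σ = 1 ∨ σ = -1) (N : ℕ) :
    σ * ∑ n ∈ Icc 1 N, (ff n : ℝ) / n = ∑ n ∈ Icc 1 N, (1 : ℝ) / n - 2 * T σ N := by
  rw [T, sum_filter, mul_sum, mul_sum, ← sum_sub_distrib]
  refine sum_congr rfl fun n _ => ?_
  rcases hσ with rfl | rfl <;> rcases ff_cases n with h | h <;> simp [h] <;> ring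

end F

theorem F_goal (h1 : TRStmt) (h2 : FarStmt) (h3 : TriStmt) (h4 : MRStmt) : GoalStmt := by
  obtain ⟨K, η, M0, hη, h4⟩ := h4
  obtain ⟨R, δ, hR, hδ, h2⟩ := h2 K (η / 2) (half_pos hη)
  obtain ⟨c, M1, hc, h3⟩ := h3
  obtain ⟨C, ε, X0, hC, hε, h5⟩ := h1 R δ hR hδ
  obtain ⟨C', ε', X1, hC', hε', h6⟩ := h1 7 (c / 2) (by norm_num) (half_pos hc)
  refine ⟨max C C', min ε ε', max (max (max M0 M1) (max X0 X1)) 1, le_max_of_le_left hC,
    lt_min hε hε', fun X σ hX hσ => ?_⟩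
  simp only [max_le_iff] at hX
  obtain ⟨⟨⟨a1, a2⟩, a3, a4⟩, a5⟩ := hX
  rcases hσ with rfl | rfl
  · refine le_trans ?_ (F.badN_mono 1 (by linarith) hC (le_max_left _ _))
    refine (mul_le_mul_of_nonneg_right (min_le_left _ _) (by linarith)).trans (not_lt.1 fun h => ?_)
    have := (h4 X a1).trans (h2 X a5 (h5 X 1 a3 (Or.inl rfl) h.le))
    nlinarith
  · refine le_trans ?_ (F.badN_mono (-1) (by linarith) hC' (le_max_right _ _))
    refine (mul_le_mul_of_nonneg_right (min_le_right _ _) (by linarith)).trans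
      (not_lt.1 fun h => ?_)
    have := (h3 X a2).trans (h6 X (-1) a4 (Or.inr rfl) h.le)
    nlinarith

theorem F_final (h : GoalStmt) : FinalStmt := by
  obtain ⟨C, ε, X0, hC, hε, h⟩ := h
  have hl : 0 < Real.log (2 * C ^ 2) := Real.log_pos (by nlinarith)
  set B := Real.log (max (C * X0) (2 * C ^ 2))
  have hκ : 0 < ε / C / Real.log (2 * C ^ 2) := by positivity
  refine ⟨ε / C / Real.log (2 * C ^ 2), hκ, ?_⟩
  filter_upwards [(Real.tendsto_log_atTop.comp tendsto_natCast_atTop_atTop).eventually_ge_atTop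
    (2 * B + 1), Filter.eventually_ge_atTop 1] with N h1 hN
  have h2 : ∑ n ∈ Icc 1 N, (1 : ℝ) / n ≤ 1 + Real.log N := by
    have := harmonic_le_one_add_log N
    rw [harmonic_eq_sum_Icc] at this
    simpa using this
  have h3 : 0 < ∑ n ∈ Icc 1 N, (1 : ℝ) / n :=
    sum_pos (fun n hn => by have := (mem_Icc.1 hn).1; positivity) ⟨1, mem_Icc.2 ⟨le_rfl, hN⟩⟩
  have h4 : ∀ σ : ℤ, σ = 1 ∨ σ = -1 → σ * ∑ n ∈ Icc 1 N, (ff n : ℝ) / n ≤
      (1 - ε / C / Real.log (2 * C ^ 2)) * ∑ n ∈ Icc 1 N, (1 : ℝ) / n := fun σ hσ => by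
    have h5 := F.T_lower hC hε (fun X hX => h X σ hX hσ) N hN
    rw [mul_div_right_comm] at h5
    rw [F.sum_eq hσ]
    simp only [Function.comp] at h1
    nlinarith [mul_le_mul_of_nonneg_left (show ∑ n ∈ Icc 1 N, (1 : ℝ) / n ≤ 2 * (Real.log N - B) by
      linarith) hκ.le]
  have h5 := h4 1 (Or.inl rfl)
  have h6 := h4 (-1) (Or.inr rfl)
  simp only [← F.ff_eq]
  rw [abs_mul, abs_of_pos (inv_pos.2 h3), inv_mul_le_iff₀ h3, abs_le]
  push_cast at h5 h6
  constructor <;> linarith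

end Pool.Agent.Lib.LQ
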