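import Pool.Agent.Lib.LQ.L1Aux3

/-! Block L1, first moment for one parameter. -/

set_option autoImplicit false

open Finset
open scoped Classical

noncomputable section

namespace Pool.Agent.Lib.LQ

open Pool.Agent.Lib.MP_de94cf_nt (gg det inn)

namespace L1

lemma lam_big (h0 : MertensStmt) {w : ℝ} (hw : 2 ≤ w) (B : ℝ) :
    ∃ z0 : ℝ, ∀ z : ℝ, z0 ≤ z → B ≤ Lam w z := by
  obtain ⟨C, hC⟩ := h0
  refine ⟨max w (Real.exp (Real.exp (B + C) * Real.log w)), fun z hz => ?_⟩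
  have lw : 0 < Real.log w := Real.log_pos (by linarith)
  have a := (abs_le.1 (hC w z hw ((le_max_left _ _).trans hz))).1
  have b := Real.log_le_log (Real.exp_pos _) ((le_max_right _ _).trans hz)
  rw [Real.log_exp, ← le_div_iff₀ lw] at b
  have c := Real.log_le_log (Real.exp_pos _) b
  rw [Real.log_exp] at c
  linarith

lemma err_le {f u C D : ℕ} {z X K P : ℝ} (hz : 2 ≤ z) (hK : 6 * |K| ≤ z) (hu : 13 * u + 1 ≤ f)
    (hX : z ^ (4000 * f) ≤ X) (hb : BoxOK f z X C D) (P0 : 0 ≤ P) (hP : P ≤ z ^ f * z ^ f) :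
    K * P ^ 12 * z ^ (13 * u + 1) * (C + D) * (C : ℝ) ^ (4 / 5 : ℝ) ≤ X ^ (0.93 : ℝ) / (3 * z) := by
  have z1 : 1 ≤ z := by linarith
  have X1 : 1 ≤ X := (one_le_pow₀ z1).trans hX
  obtain ⟨T, T1, rfl⟩ : ∃ T : ℝ, 1 ≤ T ∧ X = T ^ 100 :=
    ⟨X ^ ((100 : ℕ) : ℝ)⁻¹, Real.one_le_rpow X1 (by positivity),
      (Real.rpow_inv_natCast_pow (by linarith) (by norm_num)).symm⟩
  have e1 : (T ^ 100) ^ (0.93 : ℝ) = T ^ 93 := by
    rw [← Real.rpow_natCast, ← Real.rpow_mul (by linarith), ← Real.rpow_natCast]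
    norm_num
  have e2 : Real.sqrt (T ^ 100) = T ^ 50 := by
    rw [show T ^ 100 = (T ^ 50) ^ 2 by ring, Real.sqrt_sq (by positivity)]
  set Z := z ^ f with hZ
  have zZ : z ≤ Z := le_self_pow₀ z1 (by omega)
  have Z1 : 1 ≤ Z := z1.trans zZ
  have e3 : Z ^ 40 ≤ T := by
    refine le_of_pow_le_pow_left₀ (n := 100) (by norm_num) (by linarith) (le_trans (le_of_eq ?_) hX)
    rw [hZ]
    ring
  have e4 : Z ≤ T := (le_self_pow₀ Z1 (by norm_num)).trans e3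
  have c1 := hb.hiC
  have c2 := hb.hiD
  rw [e2, ← hZ] at c1 c2
  have e5 : (C : ℝ) ^ (4 / 5 : ℝ) ≤ T ^ 41 := by
    refine le_of_pow_le_pow_left₀ (n := 5) (by norm_num) (by positivity) ?_
    rw [← Real.rpow_natCast, ← Real.rpow_mul (Nat.cast_nonneg _)]
    norm_num
    calc (C : ℝ) ^ 4 ≤ (T ^ 50 * T) ^ 4 := by gcongr; exact c1.trans (by gcongr)
      _ = T ^ 204 := by ring
      _ ≤ T ^ 205 := pow_le_pow_right₀ T1 (by norm_num)
      _ = _ := by ring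
  have e6 : z ^ (13 * u + 1) ≤ Z := pow_le_pow_right₀ z1 hu
  have e7 : (C : ℝ) + D ≤ 2 * (T ^ 50 * Z) := by linarith
  rw [e1, le_div_iff₀ (by linarith)]
  calc _ ≤ |K| * (Z * Z) ^ 12 * Z * (2 * (T ^ 50 * Z)) * T ^ 41 * (3 * Z) := by
        gcongr
        exact le_abs_self K
    _ = 6 * |K| * Z ^ 27 * T ^ 91 := by ring
    _ ≤ Z * Z ^ 39 * T ^ 92 := by
        gcongr
        exacts [hK.trans zZ, by norm_num, by norm_num]
    _ = Z ^ 40 * T ^ 92 := by ring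
    _ ≤ T * T ^ 92 := by gcongr
    _ = _ := by ring

lemma final {θ δ δ' r M E x y Er S1 S2 S3 P1 P2 P3 z : ℝ} (θ0 : 0 ≤ θ) (θ1 : θ ≤ 1)
    (d0 : 0 ≤ δ') (d1 : δ' ≤ 1) (d2 : δ' ≤ δ / 3) (r0 : 0 ≤ r) (M0 : 0 ≤ M) (hz : 2 ≤ z)
    (E0 : 0 ≤ E) (x0 : 0 ≤ x) (xz : x ≤ z) (y0 : 0 ≤ y) (y1 : y ≤ 1) (hE : Er ≤ E / (3 * z))
    (s1 : |S1 - P1| ≤ δ' * P1 + Er) (s2 : |S2 - P2| ≤ δ' * P2 + Er)
    (s3 : |S3 - P3| ≤ δ' * P3 + Er) (p1 : (1 - r) * M ≤ P1) (p2 : 0 ≤ P2) (p3 : 0 ≤ P3)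
    (q2 : x * (2 * P2) ≤ δ / 3 * M) (q3 : y * (2 * P3) ≤ δ / 3 * M) :
    (1 - δ - r) * (θ * M) - E ≤ θ * (S1 - x * S2 - y * S3) := by
  have e0 : 0 ≤ E / (3 * z) := by positivity
  have e1 : E = 3 * z * (E / (3 * z)) := by field_simp
  generalize E / (3 * z) = e at *
  have a1 : (1 - δ') * ((1 - r) * M) - e ≤ S1 := by
    nlinarith [(abs_le.1 s1).1, mul_le_mul_of_nonneg_left p1 (sub_nonneg.2 d1)]
  have a2 : S2 ≤ 2 * P2 + e := by nlinarith [(abs_le.1 s2).2]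
  have a3 : S3 ≤ 2 * P3 + e := by nlinarith [(abs_le.1 s3).2]
  have b : (1 - δ - r) * M - E ≤ S1 - x * S2 - y * S3 := by
    nlinarith [mul_le_mul_of_nonneg_left a2 x0, mul_le_mul_of_nonneg_left a3 y0,
      mul_le_mul_of_nonneg_right xz e0, mul_le_mul_of_nonneg_right y1 e0,
      mul_le_mul_of_nonneg_right hz e0, mul_nonneg (mul_nonneg d0 r0) M0,
      mul_le_mul_of_nonneg_right d2 M0]
  nlinarith [mul_le_mul_of_nonneg_left b θ0, mul_le_mul_of_nonneg_right θ1 E0]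

end L1

open L1 in
theorem L1 (h0 : MertensStmt) (h1 : EFLStmt) (h2 : LocStmt) (h3 : MKStmt) : L1Stmt := by
  refine ⟨200, fun δ hδ => ?_⟩
  have d0 : 0 < min (δ / 3) 1 := lt_min (by linarith) one_pos
  obtain ⟨u, K, hE⟩ := h1 18 _ d0
  obtain ⟨u', hu'⟩ := exists_pow_lt_of_lt_one (show 0 < δ / 6 / Real.exp 60 by positivity)
    (show (1 / 2 : ℝ) < 1 by norm_num)
  refine ⟨max u u', fun v a1 e f hv hu hex => ?_⟩
  have hw : 36 ≤ ww v := le_trans (by norm_num) (pow_le_pow_left₀ (by norm_num) hv 4)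
  obtain ⟨z1, hz1⟩ := exp_Lam_le 1
  obtain ⟨z2, hz2⟩ := lam_big h0 (w := ww v) (by linarith) (500 * (56 - Real.log (δ / 6)))
  refine ⟨max (max z1 z2) (max (ww v) (6 * |K|)), fun z X Y0 S ρ C D t hz hX hl hb ht => ?_⟩
  simp only [max_le_iff] at hz hu
  obtain ⟨⟨a1', a2⟩, a3, a4⟩ := hz
  obtain ⟨-, ad, qp, ck, -, hQ⟩ := mem_filter.1 ht
  have h : H v a1 e f z S ρ Y0 t := ⟨hl, ad, qp, ck, hQ, by linarith, a3, hw⟩
  have hP : ∏ l ∈ (n0 S ρ t).primeFactors, (l : ℝ) ≤ z ^ f * z ^ f := by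
    refine (prod_le_of_dvd h.sf0.ne_zero fun l hl =>
      ⟨Nat.prime_of_mem_primeFactors hl, Nat.dvd_of_mem_primeFactors hl⟩).trans ?_
    rw [n0, Nat.cast_mul]
    exact mul_le_mul hl.hip ((Nat.cast_le.2 qp.le).trans ad.hip) (Nat.cast_nonneg _)
      (by have := h.hz; positivity)
  have er := err_le h.hz a4 (u := u) (by obtain ⟨_, _, _, _⟩ := hex; omega) hX hb
    (prod_nonneg fun _ _ => Nat.cast_nonneg _) hP
  have bd : ∀ lam : ℕ → ℝ, (∀ l ∈ PP (ww v) z, 0 ≤ lam l ∧ lam l ≤ 1) →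
      ∀ l ∈ (n0 S ρ t).primeFactors ∪ LG v z S ρ t, l.Prime ∧ Per (l ^ 2) (ph S ρ t lam l) ∧
        ∀ x, 0 ≤ ph S ρ t lam l x ∧ ph S ρ t lam l x ≤ 1 := fun lam hlam l hl => by
    rcases mem_union.1 hl with a | a
    · exact ⟨Nat.prime_of_mem_primeFactors a, per_ph _ _ _ _ _,
        ph_bd0 lam (Nat.prime_of_mem_primeFactors a) (Nat.dvd_of_mem_primeFactors a)⟩
    · obtain ⟨a, b⟩ := mem_filter.1 a
      refine ⟨(mem_PP.1 a).1, per_ph _ _ _ _ _, ?_⟩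
      rw [ph_gen lam b]
      exact f1_bd l (hlam l a).1 (hlam l a).2 _ _ _ _
  have ef := fun (lam : ℕ → ℝ) (hlam : ∀ l ∈ PP (ww v) z, 0 ≤ lam l ∧ lam l ≤ 1) =>
    hE C D z _ _ (ph S ρ t lam) hb.hC hb.hD h.hz (disj0 v z S ρ t) (bd lam hlam) fun l hl =>
      ⟨(mem_PP.1 (mem_filter.1 hl).1).2.2.2,
        h.mean1 h2 lam hl (hlam l (mem_filter.1 hl).1).1 (hlam l (mem_filter.1 hl).1).2⟩
  have nn := fun (lam : ℕ → ℝ) (hlam : ∀ l ∈ PP (ww v) z, 0 ≤ lam l ∧ lam l ≤ 1) =>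
    mul_nonneg (Nat.cast_nonneg (α := ℝ) (Box C D).card) (prod_nonneg fun l hl =>
      Em_nonneg (m := l ^ 2) fun x => ((bd lam hlam l hl).2.2 x).1)
  have l1 : ∀ l ∈ PP (ww v) z, (0 : ℝ) ≤ 1 / 6 ∧ (1 / 6 : ℝ) ≤ 1 := fun _ _ => by norm_num
  have l2 : ∀ l ∈ PP (ww v) z, (0 : ℝ) ≤ 5 / 33 ∧ (5 / 33 : ℝ) ≤ 1 := fun _ _ => by norm_num
  have l3 : ∀ l ∈ PP (ww v) z, 0 ≤ lamR z l ∧ lamR z l ≤ 1 := fun l hl =>
    have := lamR_bd h.hz (mem_PP.1 hl).1 (mem_PP.1 hl).2.2.2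
    ⟨this.1, this.2.1⟩
  have ψ := mul_pos (psi_pos (nm (pr S * ρ))) (psi_pos t.q)
  have L0 := Lam_nonneg (ww v) z
  have u2 := h.upper h2 l2
  have u3 := (h.upper h2 l3).trans (div_le_div_of_nonneg_right (Real.exp_le_exp.2
    (sub_le_sub_left (sum_lamR h.hz) 56)) ψ.le)
  rw [← mul_sum, ← Lam] at u2
  have key := final (θ := (1 / 3) ^ S.card * (1 / 6) ^ om (ww v) z t.Q) (δ := δ) (r := 200 / v)
    (M := (Box C D).card * (Real.exp (-(11 / 3) * Lam (ww v) z) /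
      (psi (nm (pr S * ρ)) * psi t.q))) (x := Real.exp (0.028 * Lam (ww v) z)) (y := (1 / 2) ^ a1)
    (by positivity) (mul_le_one₀ (pow_le_one₀ (by norm_num) (by norm_num)) (by positivity)
      (pow_le_one₀ (by norm_num) (by norm_num))) d0.le (min_le_right _ _) (min_le_left _ _)
    (by positivity) (by positivity) h.hz
    (Real.rpow_nonneg (le_trans (by have := h.hz; positivity) hX) _) (by positivity)
    ((Real.exp_le_exp.2 (by push_cast; linarith)).trans (hz1 (ww v) z a1')) (by positivity)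
    (pow_le_one₀ (by norm_num) (by norm_num)) er (ef _ l1) (ef _ l2) (ef _ l3)
    (by rw [mul_left_comm]; exact mul_le_mul_of_nonneg_left (h.lower h2 hv) (Nat.cast_nonneg _))
    (nn _ l2) (nn _ l3) ?_ ?_
  · refine le_trans (le_of_eq ?_) (key.trans ?_)
    · have c : (S \ (t.S2 ∪ t.S3)).card + t.S2.card + t.S3.card = S.card := by
        rw [add_assoc, ← card_union_of_disjoint ad.disj,
          card_sdiff_add_card_eq_card (union_subset ad.sub2 ad.sub3)]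
      have c' : Real.exp (-(11 / 3) * Lam (ww v) z) = Real.exp (-2 * Lam (ww v) z) *
          Real.exp (-(2 - 1 / 6 - 1 / 6) * Lam (ww v) z) := by
        rw [← Real.exp_add]
        congr 1
        ring
      simp only [Nlab, G34, mt, th, x0, c', ← pow_add, c]
      ring
    · rw [Aset, sum_filter, mul_sum, mul_sum, ← sum_sub_distrib, ← sum_sub_distrib, mul_sum]
      exact sum_le_sum fun γ hγ => pt h3 h ((mem_Box hb.hC).1 hγ).2.2.2.2
  · have a : Real.exp (0.028 * Lam (ww v) z) * Real.exp (56 - (4 - 2 * (5 / 33)) * Lam (ww v) z) ≤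
        δ / 6 * Real.exp (-(11 / 3) * Lam (ww v) z) := by
      rw [← Real.exp_log (show 0 < δ / 6 by positivity), ← Real.exp_add, ← Real.exp_add]
      exact Real.exp_le_exp.2 (by linarith [hz2 z a2])
    calc _ ≤ Real.exp (0.028 * Lam (ww v) z) * (2 * ((Box C D).card *
          (Real.exp (56 - (4 - 2 * (5 / 33)) * Lam (ww v) z) /
            (psi (nm (pr S * ρ)) * psi t.q)))) := by gcongr
      _ = 2 * (Box C D).card * (Real.exp (0.028 * Lam (ww v) z) *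
          Real.exp (56 - (4 - 2 * (5 / 33)) * Lam (ww v) z)) /
            (psi (nm (pr S * ρ)) * psi t.q) := by ring
      _ ≤ 2 * (Box C D).card * (δ / 6 * Real.exp (-(11 / 3) * Lam (ww v) z)) /
            (psi (nm (pr S * ρ)) * psi t.q) := by gcongr
      _ = _ := by ring
  · have a : (1 / 2 : ℝ) ^ a1 * Real.exp (56 - (11 / 3 * Lam (ww v) z - 4)) ≤
        δ / 6 * Real.exp (-(11 / 3) * Lam (ww v) z) := by
      have b := (pow_le_pow_of_le_one (show (0 : ℝ) ≤ 1 / 2 by norm_num) (by norm_num) hu.2).trans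
        hu'.le
      rw [le_div_iff₀ (Real.exp_pos _)] at b
      rw [show 56 - (11 / 3 * Lam (ww v) z - 4) = 60 + -(11 / 3) * Lam (ww v) z by ring,
        Real.exp_add, ← mul_assoc]
      gcongr
    calc _ ≤ (1 / 2 : ℝ) ^ a1 * (2 * ((Box C D).card *
          (Real.exp (56 - (11 / 3 * Lam (ww v) z - 4)) /
            (psi (nm (pr S * ρ)) * psi t.q)))) := by gcongr
      _ = 2 * (Box C D).card * ((1 / 2 : ℝ) ^ a1 * Real.exp (56 - (11 / 3 * Lam (ww v) z - 4))) /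
            (psi (nm (pr S * ρ)) * psi t.q) := by ring
      _ ≤ 2 * (Box C D).card * (δ / 6 * Real.exp (-(11 / 3) * Lam (ww v) z)) /
            (psi (nm (pr S * ρ)) * psi t.q) := by gcongr
      _ = _ := by ring

end Pool.Agent.Lib.LQ
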