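import Pool.Agent.Lib.LQ.Basic

/-! Block M1: the angular mean value theorem and its version with a power of a prime sum. -/

set_option autoImplicit false

open Finset
open scoped Classical ComplexConjugate

noncomputable section

namespace Pool.Agent.Lib.LQ

open Pool.Agent.Lib.MP_de94cf_nt (gg det inn)

namespace M1

lemma count (N : ℕ) (b : ℤ → ℝ) (hb : ∀ k, 0 ≤ b k) :
    (N + 1) * ∑ k ∈ Icc (-(N : ℤ)) N, b k ≤
      ∑ j' ∈ range (3 * N + 1), ∑ j ∈ range (3 * N + 1), b (j - j') := by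
  have h1 : ∀ j' ∈ Icc N (2 * N), ∑ k ∈ Icc (-(N : ℤ)) N, b k ≤
      ∑ j ∈ range (3 * N + 1), b (j - j') := fun j' hj' => by
    rw [← sum_image (s := range (3 * N + 1)) (g := fun j : ℕ => (j : ℤ) - j') (f := b)
      fun i _ j _ e => by simpa using e]
    refine sum_le_sum_of_subset_of_nonneg (fun k hk => ?_) fun k _ _ => hb k
    rw [mem_Icc] at hk hj'
    exact mem_image.2 ⟨(k + j').toNat, mem_range.2 (by omega), by omega⟩
  calc _ = ∑ _j' ∈ Icc N (2 * N), ∑ k ∈ Icc (-(N : ℤ)) N, b k := by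
        rw [sum_const, Nat.card_Icc, nsmul_eq_mul, show 2 * N + 1 - N = N + 1 by omega]
        push_cast; rfl
    _ ≤ _ := (sum_le_sum h1).trans (sum_le_sum_of_subset_of_nonneg
        (fun j hj => mem_range.2 (by rw [mem_Icc] at hj; omega))
        fun _ _ _ => sum_nonneg fun _ _ => hb _)

lemma expand {ι : Type} (S : Finset ι) (c z : ι → ℂ) (n : ℕ) :
    ∑ j' ∈ range n, ∑ j ∈ range n, ‖∑ a ∈ S, c a * (z a ^ j * conj (z a) ^ j')‖ ^ 2 ≤
      ∑ a ∈ S, ‖c a‖ ^ 2 * ∑ b ∈ S, ‖∑ j ∈ range n, (z a * conj (z b)) ^ j‖ ^ 2 := by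
  set D : ι → ι → ℝ := fun a b => ‖∑ j ∈ range n, (z a * conj (z b)) ^ j‖ ^ 2 with hD
  have hs : ∀ a b, D a b = D b a := fun a b => by
    simp only [hD]
    rw [← Complex.norm_conj]
    simp [mul_comm]
  have h1 : ((∑ j' ∈ range n, ∑ j ∈ range n,
      ‖∑ a ∈ S, c a * (z a ^ j * conj (z a) ^ j')‖ ^ 2 : ℝ) : ℂ) =
      ∑ a ∈ S, ∑ b ∈ S, c a * conj (c b) * (D a b : ℂ) := by
    simp only [hD]
    push_cast
    simp only [← Complex.mul_conj', map_sum, sum_mul_sum, map_mul, map_pow, Complex.conj_conj]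
    simp only [mul_sum]
    rw [sum_comm]
    conv_lhs => enter [2, j]; rw [sum_comm]; enter [2, a]; rw [sum_comm]
    rw [sum_comm]
    refine sum_congr rfl fun a _ => ?_
    rw [sum_comm]
    exact sum_congr rfl fun b _ => sum_congr rfl fun j _ => sum_congr rfl fun j' _ => by ring
  have h2 := (Complex.re_le_norm _).trans ((congrArg norm h1).le.trans
    ((norm_sum_le _ _).trans (sum_le_sum fun a _ => norm_sum_le _ _)))
  rw [Complex.ofReal_re] at h2
  refine h2.trans ?_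
  have h0 : ∀ a b, 0 ≤ D a b := fun a b => by positivity
  have h3 : ∀ a b, ‖c a * conj (c b) * (D a b : ℂ)‖ ≤
      (‖c a‖ ^ 2 * D a b + ‖c b‖ ^ 2 * D b a) / 2 := fun a b => by
    rw [norm_mul, norm_mul, Complex.norm_conj, Complex.norm_real, Real.norm_of_nonneg (h0 a b),
      ← hs a b]
    nlinarith [mul_nonneg (h0 a b) (sq_nonneg (‖c a‖ - ‖c b‖))]
  refine (sum_le_sum fun a _ => sum_le_sum fun b _ => h3 a b).trans (le_of_eq ?_)
  simp only [← sum_div, sum_add_distrib, mul_sum]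
  rw [sum_comm (f := fun a b => ‖c b‖ ^ 2 * D b a)]
  ring

lemma geom {u : ℂ} (hu : ‖u‖ = 1) (n : ℕ) :
    ‖∑ j ∈ range n, u ^ j‖ ≤ n ∧ ‖∑ j ∈ range n, u ^ j‖ * |u.im| ≤ 2 := by
  refine ⟨(norm_sum_le _ _).trans (by simp [hu]), ?_⟩
  have h1 : |u.im| ≤ ‖u - 1‖ := by simpa using Complex.abs_im_le_norm (u - 1)
  refine (mul_le_mul_of_nonneg_left h1 (norm_nonneg _)).trans ?_
  rw [← norm_mul, geom_sum_mul]
  exact (norm_sub_le _ _).trans (by norm_num [hu])

lemma tele {s n : ℝ} (hs : 0 < s) (hn : 0 < n) (L : ℕ) :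
    ∑ m ∈ range (L + 1), 4 * s ^ 2 * n ^ 2 / (s + n * m) ^ 2 ≤
      4 * n ^ 2 + 4 * s * n - 4 * s ^ 2 * n / (s + n * L) := by
  induction L with
  | zero => simp; field_simp; simp
  | succ L ih =>
    rw [sum_range_succ]
    have h0 : 0 < s + n * L := by positivity
    have h1 : 4 * s ^ 2 * n ^ 2 / (s + n * (L + 1 : ℕ)) ^ 2 ≤
        4 * s ^ 2 * n / (s + n * L) - 4 * s ^ 2 * n / (s + n * (L + 1 : ℕ)) := by
      push_cast
      rw [div_sub_div _ _ h0.ne' (by positivity), div_le_div_iff₀ (by positivity) (by positivity)]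
      have : 0 ≤ 4 * s ^ 2 * n ^ 3 * (s + n * (L + 1)) := by positivity
      nlinarith
    linarith

lemma im_eq {α β : GI} (hα : α ≠ 0) (hβ : β ≠ 0) :
    (ek 1 α * conj (ek 1 β)).im ^ 2 * (nm α * nm β) = (det α β : ℝ) ^ 2 := by
  have h1 : ‖(α : ℂ)‖ ≠ 0 := by simpa using hα
  have h2 : ‖(β : ℂ)‖ ≠ 0 := by simpa using hβ
  have h3 : (ek 1 α * conj (ek 1 β)).im = -(det α β : ℝ) / (‖(α : ℂ)‖ * ‖(β : ℂ)‖) := by
    simp only [ek, zpow_one, map_div₀, Complex.conj_ofReal, div_mul_div_comm,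
      ← Complex.ofReal_mul, Complex.div_ofReal_im, Complex.mul_im, Complex.conj_re,
      Complex.conj_im, det, ← GaussianInt.intCast_re, ← GaussianInt.intCast_im]
    push_cast
    ring
  rw [h3, ← norm_sq_eq, ← norm_sq_eq]
  field_simp

lemma row {M ρ : ℝ} (hM : 1 ≤ M) (hρ : 1 ≤ ρ) {S : Finset GI}
    (hS : ∀ α ∈ S, M / ρ ≤ (nm α : ℝ) ∧ (nm α : ℝ) ≤ M) {n : ℕ} (hn : 0 < n) {α : GI}
    (hα : α ∈ S) : ∑ β ∈ S, ‖∑ j ∈ range n, (ek 1 α * conj (ek 1 β)) ^ j‖ ^ 2 ≤
      24 * (cont α * Real.sqrt ρ * n ^ 2 + 2 * M * n) := by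
  have hpos : ∀ β ∈ S, (0 : ℝ) < nm β := fun β hβ => lt_of_lt_of_le (by positivity) (hS β hβ).1
  have h0 : ∀ β ∈ S, β ≠ 0 := fun β hβ e => by
    have := hpos β hβ
    rw [nm_eq_zero.2 e] at this
    simp at this
  have hd : 0 < cont α := Int.gcd_pos_iff.2 (by
    by_contra h
    push Not at h
    exact h0 α hα (Zsqrtd.ext h.1 h.2))
  obtain ⟨a, b, hab, ha, hb⟩ := Int.exists_gcd_one hd
  set α₀ : GI := ⟨a, b⟩ with hα₀
  have hd' : (1 : ℝ) ≤ cont α := by exact_mod_cast hd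
  have ha' : (α.re : ℝ) = α₀.re * cont α := by exact_mod_cast ha
  have hb' : (α.im : ℝ) = α₀.im * cont α := by exact_mod_cast hb
  have e1 : (nm α : ℝ) = cont α ^ 2 * nm α₀ := by
    rw [nm_real, nm_real, ha', hb']; ring
  have e2 : ∀ β, (det α β : ℝ) = cont α * det α₀ β := fun β => by
    simp only [det]
    push_cast
    rw [ha', hb']; ring
  have h1 : (0 : ℝ) < nm α₀ := by
    have := hpos α hα
    rw [e1] at this
    exact (mul_pos_iff_of_pos_left (by positivity)).1 this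
  set t := Real.sqrt (M / nm α₀) with ht
  have t2 : t ^ 2 * nm α₀ = M := by
    rw [ht, Real.sq_sqrt (by positivity)]; field_simp
  have t1 : 1 ≤ t := by
    refine Real.le_sqrt_of_sq_le ?_
    rw [le_div_iff₀ h1]
    nlinarith [(hS α hα).2, mul_nonneg (sub_nonneg.2 (one_le_pow₀ hd' (n := 2))) h1.le]
  have t3 : t ≤ cont α * Real.sqrt ρ := by
    refine Real.sqrt_le_iff.2 ⟨by positivity, ?_⟩
    have := (hS α hα).1
    rw [div_le_iff₀ (by positivity), e1] at this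
    rw [div_le_iff₀ h1, mul_pow, Real.sq_sqrt (by positivity)]
    linarith
  set s := 2 * M / t with hs
  have s0 : 0 < s := by positivity
  have s2 : s ^ 2 = 4 * nm α₀ * M := by
    rw [hs, div_pow, div_eq_iff (by positivity)]
    linear_combination (-4 * M) * t2
  have n0 : (0 : ℝ) < n := by exact_mod_cast hn
  have h2 : ∀ β ∈ S, ‖∑ j ∈ range n, (ek 1 α * conj (ek 1 β)) ^ j‖ ^ 2 ≤
      4 * s ^ 2 * n ^ 2 / (s + n * (det α₀ β).natAbs) ^ 2 := fun β hβ => by
    obtain ⟨g1, g2⟩ := geom (u := ek 1 α * conj (ek 1 β)) (by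
      rw [norm_mul, Complex.norm_conj, norm_ek (h0 α hα), norm_ek (h0 β hβ), one_mul]) n
    have g3 := im_eq (h0 α hα) (h0 β hβ)
    have g4 := pow_le_pow_left₀ (norm_nonneg _) g1 2
    have g5 := pow_le_pow_left₀ (by positivity) g2 2
    rw [mul_pow, sq_abs] at g5
    generalize ‖∑ j ∈ range n, (ek 1 α * conj (ek 1 β)) ^ j‖ = D at *
    have g6 : ((det α₀ β).natAbs : ℝ) ^ 2 = (det α₀ β : ℝ) ^ 2 := by
      rw [Nat.cast_natAbs, Int.cast_abs, sq_abs]
    have g7 : (ek 1 α * conj (ek 1 β)).im ^ 2 * (nm α₀ * nm β) = ((det α₀ β).natAbs : ℝ) ^ 2 := by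
      rw [e1, e2] at g3
      rw [g6]
      apply mul_left_cancel₀ (show (cont α : ℝ) ^ 2 ≠ 0 by positivity)
      linear_combination g3
    have g8 : D ^ 2 * ((det α₀ β).natAbs : ℝ) ^ 2 ≤ s ^ 2 := by
      rw [← g7, s2, ← mul_assoc]
      calc _ ≤ 2 ^ 2 * ((nm α₀ : ℝ) * M) := by gcongr; exact (hS β hβ).2
        _ = _ := by ring
    rw [le_div_iff₀ (by positivity)]
    generalize ((det α₀ β).natAbs : ℝ) = m at *
    nlinarith [mul_nonneg (sq_nonneg D) (sq_nonneg (s - n * m)),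
      mul_le_mul_of_nonneg_left g4 (sq_nonneg s), mul_le_mul_of_nonneg_left g8 (sq_nonneg (n : ℝ))]
  refine (sum_le_sum h2).trans ?_
  obtain ⟨L, hL⟩ : ∃ L : ℕ, ∀ β ∈ S, (det α₀ β).natAbs ∈ range (L + 1) :=
    ⟨S.sup fun β => (det α₀ β).natAbs, fun β hβ => mem_range.2 (Nat.lt_succ_of_le
      (le_sup (f := fun β => (det α₀ β).natAbs) hβ))⟩
  rw [← sum_fiberwise_of_maps_to hL]
  have h3 : ∀ m ∈ range (L + 1), ∑ β ∈ S with (det α₀ β).natAbs = m,
      4 * s ^ 2 * n ^ 2 / (s + n * (det α₀ β).natAbs) ^ 2 ≤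
      6 * t * (4 * s ^ 2 * n ^ 2 / (s + n * m) ^ 2) := fun m _ => by
    rw [sum_congr rfl fun β hβ => by rw [(mem_filter.1 hβ).2], sum_const, nsmul_eq_mul]
    refine mul_le_mul_of_nonneg_right ?_ (by positivity)
    have : (S.filter fun β => (det α₀ β).natAbs = m) ⊆ ((disc M).filter fun β => det α₀ β = m) ∪
        (disc M).filter fun β => det α₀ β = -m := fun β hβ => by
      obtain ⟨g1, g2⟩ := mem_filter.1 hβ
      have g3 := mem_disc.2 (hS β g1).2
      simp only [mem_union, mem_filter, g3, true_and]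
      omega
    have g1 := (card_le_card this).trans (card_union_le _ _)
    have g2 := card_line_le (α := α₀) hab m (M := M) (by positivity)
    have g3 := card_line_le (α := α₀) hab (-m) (M := M) (by positivity)
    have g4 := (Nat.cast_le (α := ℝ)).2 g1
    push_cast at g4
    linarith
  refine (sum_le_sum h3).trans ?_
  rw [← mul_sum]
  have h4 := tele s0 n0 L
  have h5 : 0 ≤ 4 * s ^ 2 * n / (s + n * L) := by positivity
  have h6 : t * s = 2 * M := by rw [hs]; field_simp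
  calc _ ≤ 6 * t * (4 * n ^ 2 + 4 * s * n) := by gcongr; linarith
    _ = 24 * (t * n ^ 2 + t * s * n) := by ring
    _ ≤ _ := by rw [h6]; gcongr

lemma cont_mul {π : GI} (h : (nm π).Prime) (γ : GI) :
    cont (γ * π) ∣ (if star π ∣ γ then nm π else 1) * cont γ := by
  have h1 : (cont (γ * π) : GI) ∣ γ * π := natCast_dvd_iff.2 dvd_rfl
  split_ifs with hs
  · have h2 : (cont (γ * π) : GI) ∣ (nm π : GI) * γ := by
      rw [← mul_star_eq, mul_comm _ γ, ← mul_assoc]; exact h1.mul_right _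
    have h3 := natCast_dvd_iff.1 h2
    have h4 : cont ((nm π : GI) * γ) = nm π * cont γ := by
      simp [cont, Int.gcd_mul_left]
    rwa [h4] at h3
  · rw [one_mul, ← natCast_dvd_iff]
    refine IsCoprime.dvd_of_dvd_mul_right ?_ h1
    refine ((prime_of_nm h).irreducible.coprime_iff_not_dvd.2 fun hd => hs ?_).symm
    have h2 := nm_dvd hd
    rw [nm_natCast] at h2
    have h3 := (Nat.cast_dvd_cast (α := GI) (h.dvd_of_dvd_pow h2)).trans h1
    rw [← mul_star_eq, mul_comm γ] at h3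
    exact (mul_dvd_mul_iff_left (prime_of_nm h).ne_zero).1 h3

lemma cont_prod {w z : ℝ} {ι : Type} (f : ι → GI) (hf : ∀ i, f i ∈ GH w z) {β : GI}
    (hβ : cont β = 1) (s : Finset ι) :
    cont (β * ∏ i ∈ s, f i) ∣ ∏ i ∈ s, if star (f i) ∣ β then nm (f i) else 1 := by
  induction s using Finset.induction_on with
  | empty => simp [hβ]
  | insert i s hi ih =>
    rw [prod_insert hi, prod_insert hi, mul_comm (f i), ← mul_assoc]
    have h1 := (mem_GH.1 (hf i)).1
    refine (cont_mul (mem_PP.1 (mem_GF.1 h1).1).1 _).trans (mul_dvd_mul ?_ ih)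
    by_cases h : star (f i) ∣ β
    · rw [if_pos h, if_pos (h.mul_right _)]
    · rw [if_neg h, if_neg]
      intro h2
      have hp := GF_prime (star_mem_GF h1)
      rcases hp.dvd_or_dvd h2 with h2 | h2
      · exact h h2
      · obtain ⟨j, -, hj⟩ := hp.exists_mem_finset_dvd h2
        exact GH_not_star_dvd (hf i) (hf j) hj

lemma pow_le {l : ℕ} (hl : 1 ≤ l) {t : ℝ} (ht : 0 ≤ t) : (t + l) ^ l ≤ l ^ l * Real.exp t := by
  have h0 : (0 : ℝ) < l := by exact_mod_cast hl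
  have h1 : t + l ≤ l * Real.exp (t / l) := by
    have := mul_le_mul_of_nonneg_left (Real.add_one_le_exp (t / l)) h0.le
    rwa [mul_add, mul_div_cancel₀ _ h0.ne', mul_one] at this
  refine (pow_le_pow_left₀ (by positivity) h1 l).trans (le_of_eq ?_)
  rw [mul_pow, ← Real.exp_nat_mul, mul_div_cancel₀ _ h0.ne']

lemma card_le {x : ℝ} (hx : 0 ≤ x) {S : Finset GI} (hS : S ⊆ GH x (3 * x)) :
    (S.card : ℝ) ≤ 3 * x := by
  have h1 : S.card ≤ (Icc 1 ⌊3 * x⌋₊).card := card_le_card_of_injOn nm (fun π hπ => by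
      have := mem_PP.1 (mem_GF.1 (mem_GH.1 (hS hπ)).1).1
      exact mem_coe.2 (mem_Icc.2 ⟨this.1.pos, Nat.le_floor this.2.2.2⟩))
    fun a ha b hb e => GH_inj (hS ha) (hS hb) e
  rw [Nat.card_Icc, Nat.add_sub_cancel] at h1
  exact (Nat.cast_le.2 h1).trans (Nat.floor_le (by positivity))

lemma fiber {w z : ℝ} {S : Finset GI} (hS : S ⊆ GH w z) (B : Finset GI) {l : ℕ} {β : GI}
    {f : Fin l → GI} (hf : ∀ i, f i ∈ S) :
    ((B ×ˢ Fintype.piFinset fun _ : Fin l => S).filter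
      fun p => p.1 * ∏ i, p.2 i = β * ∏ i, f i).card ≤ ((S.filter fun π => π ∣ β).card + l) ^ l := by
  have hp : ∀ π ∈ S, Prime π := fun π h => GF_prime (mem_GH.1 (hS h)).1
  have h1 : ((S.filter fun π => π ∣ β) ∪ univ.image f).card ≤
      (S.filter fun π => π ∣ β).card + l :=
    (card_union_le _ _).trans (Nat.add_le_add_left (card_image_le.trans (by simp)) _)
  refine le_trans ?_ (Nat.pow_le_pow_left h1 l)
  rw [← Fintype.card_piFinset_const]
  refine card_le_card_of_injOn Prod.snd (fun p hp' => ?_) fun p hp' q hq' e => ?_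
  · obtain ⟨h2, h3⟩ := mem_filter.1 (mem_coe.1 hp')
    have h4 := Fintype.mem_piFinset.1 (mem_product.1 h2).2
    refine mem_coe.2 (Fintype.mem_piFinset.2 fun i => ?_)
    have h5 : p.2 i ∣ β * ∏ i, f i := h3 ▸ (dvd_prod_of_mem _ (mem_univ i)).mul_left _
    rcases (hp _ (h4 i)).dvd_or_dvd h5 with h5 | h5
    · exact mem_union_left _ (mem_filter.2 ⟨h4 i, h5⟩)
    · obtain ⟨j, -, hj⟩ := (hp _ (h4 i)).exists_mem_finset_dvd h5
      exact mem_union_right _ (mem_image.2 ⟨j, mem_univ j,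
        (GF_eq_of_dvd (mem_GH.1 (hS (h4 i))).1 (mem_GH.1 (hS (hf j))).1 hj).symm⟩)
  · obtain ⟨h2, h3⟩ := mem_filter.1 (mem_coe.1 hp')
    have h4 := Fintype.mem_piFinset.1 (mem_product.1 h2).2
    refine Prod.ext (mul_right_cancel₀ (prod_ne_zero_iff.2 fun i (_ : i ∈ univ) =>
      (hp _ (h4 i)).ne_zero) ?_) e
    rw [h3, ← (mem_filter.1 (mem_coe.1 hq')).2, e]

lemma group {ι : Type} (T : Finset ι) (g : ι → GI) (c : ι → ℂ) (F : GI → ℝ) (hF : ∀ γ, 0 ≤ F γ) :
    ∑ γ ∈ T.image g, ‖∑ p ∈ T with g p = γ, c p‖ ^ 2 * F γ ≤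
      ∑ p ∈ T, ‖c p‖ ^ 2 * ((T.filter fun q => g q = g p).card * F (g p)) := by
  rw [← sum_fiberwise_of_maps_to (s := T) (t := T.image g) fun p hp => mem_image_of_mem g hp]
  refine sum_le_sum fun γ _ => ?_
  refine le_of_le_of_eq ?_ (sum_congr rfl fun p hp => by rw [(mem_filter.1 hp).2]).symm
  rw [← sum_mul, ← mul_assoc]
  refine mul_le_mul_of_nonneg_right ?_ (hF γ)
  rw [mul_comm]
  exact (pow_le_pow_left₀ (norm_nonneg _) (norm_sum_le _ _) 2).trans sq_sum_le_card_mul_sum_sq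

end M1

open M1

theorem M1_mvt : MVTStmt := by
  refine ⟨288, fun N M ρ S c hN hM hρ hS => ?_⟩
  have h0 : ∀ β ∈ S, β ≠ 0 := fun β hβ e => by
    have : (0 : ℝ) < nm β := lt_of_lt_of_le (by positivity) (hS β hβ).1
    rw [nm_eq_zero.2 e] at this
    simp at this
  have h1 := count N (fun k => ‖∑ α ∈ S, c α * ek k α‖ ^ 2) fun k => by positivity
  have h2 : ∀ j j' : ℕ, ∑ α ∈ S, c α * ek (j - j') α =
      ∑ α ∈ S, c α * (ek 1 α ^ j * conj (ek 1 α) ^ j') := fun j j' =>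
    sum_congr rfl fun α hα => by
      rw [sub_eq_add_neg, ek_add (h0 α hα), ek_neg (h0 α hα), ← map_pow]
      simp only [ek, zpow_one, zpow_natCast]
  simp only [h2] at h1
  have h3 := h1.trans ((expand S c (ek 1) _).trans (sum_le_sum fun α hα =>
    mul_le_mul_of_nonneg_left (row hM hρ hS (Nat.succ_pos _) hα) (by positivity)))
  refine le_of_mul_le_mul_left (h3.trans ?_) (show (0 : ℝ) < N + 1 by positivity)
  rw [mul_sum, mul_sum]
  refine sum_le_sum fun α _ => ?_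
  have hN' : (1 : ℝ) ≤ N := by exact_mod_cast hN
  have h4 : 0 ≤ cont α * Real.sqrt ρ := by positivity
  push_cast
  have h5 : (3 * N + 1 : ℝ) ^ 2 ≤ 12 * N * (N + 1) := by nlinarith
  have h6 := mul_le_mul_of_nonneg_left h5 h4
  have h7 : 24 * (cont α * Real.sqrt ρ * (3 * N + 1) ^ 2 + 2 * M * (3 * N + 1)) ≤
      (N + 1) * (288 * (cont α * Real.sqrt ρ * N + M)) := by nlinarith
  nlinarith [mul_le_mul_of_nonneg_left h7 (sq_nonneg ‖c α‖)]

theorem M1_rp (h : MVTStmt) : RPStmt := by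
  obtain ⟨K, hK⟩ := h
  refine ⟨4 * max K 0, fun x y S B c l N hx hy hl hN hS hB => ?_⟩
  set T := B ×ˢ Fintype.piFinset fun _ : Fin l => S with hT
  set g : GI × (Fin l → GI) → GI := fun p => p.1 * ∏ i, p.2 i with hg
  have x0 : 0 < x := by linarith
  have hn : ∀ π ∈ S, x ≤ nm π ∧ (nm π : ℝ) ≤ 3 * x := fun π hπ => by
    have := mem_PP.1 (mem_GF.1 (mem_GH.1 (hS hπ)).1).1
    exact ⟨this.2.2.1.le, this.2.2.2⟩
  have h1 : ∀ k : ℤ, ‖∑ β ∈ B, c β * ek k β‖ ^ 2 * ‖∑ π ∈ S, ek k π‖ ^ (2 * l) =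
      ‖∑ γ ∈ T.image g, (∑ p ∈ T with g p = γ, c p.1) * ek k γ‖ ^ 2 := fun k => by
    rw [mul_comm 2 l, pow_mul, ← mul_pow, ← norm_pow, ← norm_mul]
    congr 2
    have e1 : ∀ f : Fin l → GI, ek k (∏ i, f i) = ∏ i, ek k (f i) := fun f => by
      induction (univ : Finset (Fin l)) using Finset.induction_on with
      | empty => simp [ek]
      | insert i s hi ih => rw [prod_insert hi, prod_insert hi, ek_mul, ih]
    rw [← Fin.prod_const, prod_univ_sum, sum_mul_sum, ← sum_product', ← hT,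
      ← sum_fiberwise_of_maps_to (s := T) (t := T.image g) fun p hp => mem_image_of_mem g hp]
    refine sum_congr rfl fun γ _ => ?_
    rw [sum_mul]
    refine sum_congr rfl fun p hp => ?_
    rw [← (mem_filter.1 hp).2, hg, ek_mul, e1, mul_assoc]
  have x1 : 1 ≤ (3 * x) ^ l := one_le_pow₀ (by linarith)
  have r1 : (1 : ℝ) ≤ 3 ^ l := one_le_pow₀ (by norm_num)
  have h2 := hK N (4 * y * (3 * x) ^ l) (4 * 3 ^ l) (T.image g)
    (fun γ => ∑ p ∈ T with g p = γ, c p.1) hN (by nlinarith) (by linarith) fun γ hγ => by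
      obtain ⟨p, hp, rfl⟩ := mem_image.1 hγ
      obtain ⟨g1, g2⟩ := mem_product.1 hp
      have g3 := Fintype.mem_piFinset.1 g2
      have e1 : (nm (g p) : ℝ) = nm p.1 * ∏ i, (nm (p.2 i) : ℝ) := by
        simp only [hg]
        rw [nm_mul, Nat.cast_mul, ← Nat.cast_prod]
        congr 2
        induction (univ : Finset (Fin l)) using Finset.induction_on with
        | empty => simp [nm_one]
        | insert i s hi ih => rw [prod_insert hi, prod_insert hi, nm_mul, ih]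
      rw [e1, show 4 * y * (3 * x) ^ l / (4 * 3 ^ l) = y * x ^ l by rw [mul_pow]; field_simp,
        ← Fin.prod_const, ← Fin.prod_const]
      exact ⟨mul_le_mul (hB _ g1).2.1 (prod_le_prod (fun _ _ => x0.le) fun i _ => (hn _ (g3 i)).1)
        (by positivity) (by positivity), mul_le_mul (hB _ g1).2.2
          (prod_le_prod (fun _ _ => by positivity) fun i _ => (hn _ (g3 i)).2) (by positivity)
          (by positivity)⟩
  simp only [h1]
  refine h2.trans ((mul_le_mul_of_nonneg_right (le_max_left K 0) (by positivity)).trans ?_)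
  have e0 : ∀ A B C D : ℝ, 4 * max K 0 * A * B * C * D = max K 0 * (4 * A * B * C * D) := by
    intros; ring
  rw [e0]
  refine mul_le_mul_of_nonneg_left ((group T g _ _ fun γ => by positivity).trans ?_)
    (le_max_right _ _)
  rw [hT, sum_product, mul_sum]
  refine sum_le_sum fun β hβ => ?_
  set a : ℝ := ((S.filter fun π => π ∣ β).card : ℝ) with ha
  set b : ℝ := ((S.filter fun π => star π ∣ β).card : ℝ) with hb
  have a0 : 0 ≤ a := by positivity
  have b0 : 0 ≤ b := by positivity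
  have l1 : (1 : ℝ) ≤ l := by exact_mod_cast hl
  have q1 : Real.sqrt (4 * 3 ^ l) ≤ 4 * 3 ^ l := Real.sqrt_le_iff.2 ⟨by positivity, by nlinarith⟩
  have h3 : ∀ f ∈ Fintype.piFinset fun _ : Fin l => S, ‖c β‖ ^ 2 *
      ((((B ×ˢ Fintype.piFinset fun _ : Fin l => S).filter fun q => g q = g (β, f)).card : ℝ) *
        (cont (g (β, f)) * Real.sqrt (4 * 3 ^ l) * N + 4 * y * (3 * x) ^ l)) ≤
      ‖c β‖ ^ 2 * (l ^ l * Real.exp a * (4 * (3 ^ l * N + y * (3 * x) ^ l) *
        ∏ i, (if star (f i) ∣ β then (nm (f i) : ℝ) else 1))) := fun f hf => by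
    have g3 := Fintype.mem_piFinset.1 hf
    have g4 := (Nat.cast_le (α := ℝ)).2 (fiber hS B (β := β) g3)
    push_cast at g4
    have g0 : 0 < ∏ i, if star (f i) ∣ β then nm (f i) else 1 := prod_pos fun i _ => by
      split_ifs
      exacts [(mem_PP.1 (mem_GF.1 (mem_GH.1 (hS (g3 i))).1).1).1.pos, one_pos]
    have g5 := (Nat.cast_le (α := ℝ)).2 (Nat.le_of_dvd g0
      (cont_prod f (fun i => hS (g3 i)) (hB β hβ).1 univ))
    have g6 := (Nat.cast_le (α := ℝ)).2 (Nat.succ_le_of_lt g0)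
    push_cast at g5 g6
    generalize (∏ i, if star (f i) ∣ β then (nm (f i) : ℝ) else 1) = W at *
    refine mul_le_mul_of_nonneg_left (mul_le_mul (g4.trans (pow_le hl a0)) ?_ (by positivity)
      (by positivity)) (sq_nonneg _)
    have g7 : (cont (g (β, f)) : ℝ) * Real.sqrt (4 * 3 ^ l) * N ≤ W * (4 * 3 ^ l) * N := by
      gcongr
    have g8 : 0 ≤ 4 * y * (3 * x) ^ l := by positivity
    nlinarith [mul_le_mul_of_nonneg_left g6 g8]
  refine (sum_le_sum h3).trans ?_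
  rw [← mul_sum, ← mul_sum, ← mul_sum, ← prod_univ_sum (fun _ : Fin l => S)
    fun _ π => if star π ∣ β then (nm π : ℝ) else 1, Fin.prod_const]
  have h4 : ∑ π ∈ S, (if star π ∣ β then (nm π : ℝ) else 1) ≤ 3 * x * (b + l) := by
    rw [sum_ite, sum_const, nsmul_eq_mul, mul_one]
    have g1 : ∑ π ∈ S with star π ∣ β, (nm π : ℝ) ≤ b * (3 * x) := by
      rw [hb, ← nsmul_eq_mul]
      exact sum_le_card_nsmul _ _ _ fun π hπ => (hn π (mem_filter.1 hπ).1).2
    have g2 := card_le x0.le ((filter_subset (fun π => ¬ star π ∣ β) S).trans hS)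
    nlinarith
  have h5 := (pow_le_pow_left₀ (sum_nonneg fun π _ => by positivity) h4 l).trans
    ((mul_pow _ _ l).le.trans (mul_le_mul_of_nonneg_left (pow_le hl b0) (by positivity)))
  calc _ ≤ ‖c β‖ ^ 2 * (l ^ l * Real.exp a * (4 * (3 ^ l * N + y * (3 * x) ^ l) *
        ((3 * x) ^ l * (l ^ l * Real.exp b)))) := by gcongr
    _ = _ := by rw [Real.exp_add, two_mul l, pow_add]; ring

end Pool.Agent.Lib.LQ
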