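import Pool.Agent.Lib.LQ.Basic

set_option autoImplicit false

open Finset
open scoped Classical

noncomputable section

namespace Pool.Agent.Lib.LQ

namespace M2

lemma disj {J : Finset ℕ} {P Q : ℕ → ℝ} (h : Sys J P Q) {i j : ℕ} (hi : i ∈ J) (hj : j ∈ J)
    {π : GI} (h1 : π ∈ GH (P i) (Q i)) (h2 : π ∈ GH (P j) (Q j)) : i = j := by
  by_contra e
  have a1 := mem_PP.1 (mem_GF.1 (mem_GH.1 h1).1).1
  have a2 := mem_PP.1 (mem_GF.1 (mem_GH.1 h2).1).1
  rcases h.disj i hi j hj e with k | k <;> linarith [a1.2.2.1, a1.2.2.2, a2.2.2.1, a2.2.2.2]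

lemma exp_le {t : ℝ} (h0 : 0 ≤ t) (h4 : t ≤ 4) : Real.exp t - 1 - t ≤ t ^ 2 * Real.exp 4 := by
  have h1 := Real.add_one_le_exp (-t)
  have h2 : Real.exp t * Real.exp (-t) = 1 := by rw [← Real.exp_add]; simp
  have h3 := Real.exp_pos t
  have h5 : Real.exp t * (1 - t) ≤ 1 := by nlinarith
  have h6 : Real.exp t * (1 - t) * (1 + t) ≤ 1 + t := by nlinarith
  nlinarith [mul_le_mul_of_nonneg_left (Real.exp_le_exp.2 h4) (sq_nonneg t)]

lemma cnt (A : ℤ) (n m : ℕ) (hm : 0 < m) (q : ℤ → Prop) [DecidablePred q]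
    (hq : ∀ x x', q x → q x' → (m : ℤ) ∣ x - x') :
    (((Ico A (A + n)).filter q).card : ℝ) ≤ n / m + 1 := by
  have hm' : (0 : ℤ) < m := by exact_mod_cast hm
  have h : ((Ico A (A + n)).filter q).card ≤ (Icc (0 : ℤ) ((n / m : ℕ) : ℤ)).card := by
    refine card_le_card_of_injOn (fun x => (x - A) / m) (fun x hx => ?_) fun x hx x' hx' e => ?_
    · simp only [coe_filter, mem_Ico, Set.mem_ofPred_eq, coe_Icc, Set.mem_Icc] at hx ⊢
      refine ⟨Int.ediv_nonneg (by omega) hm'.le, ?_⟩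
      push_cast
      exact Int.ediv_le_ediv hm' (by omega)
    · simp only [coe_filter, Set.mem_ofPred_eq] at hx hx' e
      have h1 : (x' - A) % m = (x - A) % m :=
        Int.modEq_iff_dvd.2 (by simpa using hq x x' hx.2 hx'.2)
      have h2 := Int.mul_ediv_add_emod (x - A) m
      have h3 := Int.mul_ediv_add_emod (x' - A) m
      rw [e] at h2
      omega
  rw [Int.card_Icc] at h
  have h2 : (((Ico A (A + n)).filter q).card : ℝ) ≤ ((n / m : ℕ) : ℝ) + 1 := by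
    generalize n / m = k at h
    exact_mod_cast h.trans_eq (by omega)
  linarith [Nat.cast_div_le (α := ℝ) (m := n) (n := m)]

/-- the point with odd real and even imaginary part -/
def pt (x : ℤ × ℤ) : GI := ⟨2 * x.1 + 1, 2 * x.2⟩

lemma bad1 (A : ℤ) (n m : ℕ) (hm : 0 < m) :
    (((Ico A (A + n) ×ˢ Ico A (A + n)).filter fun x => (m : GI) ∣ pt x).card : ℝ) ≤
      11 / 10 * n ^ 2 * (1 / (m : ℝ) ^ 2) + 11 := by
  have key : ∀ x y z : ℤ, (m : ℤ) ∣ 2 * z + 1 → (m : ℤ) ∣ 2 * x - 2 * y → (m : ℤ) ∣ x - y :=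
    fun x y z h1 h2 => by
      have := (h1.mul_right (x - y)).sub (h2.mul_left z)
      rwa [show (2 * z + 1) * (x - y) - z * (2 * x - 2 * y) = x - y by ring] at this
  have h1 := cnt A n m hm (fun x => (m : ℤ) ∣ 2 * x + 1) fun x x' h h' =>
    key x x' x h (by simpa using h.sub h')
  have h2 := cnt A n m hm (fun y => (∃ z, (m : ℤ) ∣ 2 * z + 1) ∧ (m : ℤ) ∣ 2 * y)
    fun x x' h h' => h.1.elim fun z hz => key x x' z hz (h.2.sub h'.2)
  have h3 : ((Ico A (A + n) ×ˢ Ico A (A + n)).filter fun x => (m : GI) ∣ pt x) ⊆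
      (Ico A (A + n)).filter (fun x => (m : ℤ) ∣ 2 * x + 1) ×ˢ
        (Ico A (A + n)).filter fun y => (∃ z, (m : ℤ) ∣ 2 * z + 1) ∧ (m : ℤ) ∣ 2 * y := by
    intro x hx
    simp only [mem_filter, mem_product] at hx ⊢
    have := (Zsqrtd.intCast_dvd (m : ℤ) (pt x)).1 (by simpa using hx.2)
    exact ⟨⟨hx.1.1, this.1⟩, hx.1.2, ⟨_, this.1⟩, this.2⟩
  have h4 := card_le_card h3
  rw [card_product] at h4
  have h5 := (Nat.cast_le (α := ℝ)).2 h4
  rw [Nat.cast_mul] at h5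
  have h6 := mul_le_mul h1 h2 (Nat.cast_nonneg _) (by positivity)
  have h7 : 11 / 10 * (n : ℝ) ^ 2 * (1 / (m : ℝ) ^ 2) = 11 / 10 * (n / m) ^ 2 := by ring
  nlinarith [sq_nonneg ((n : ℝ) / m - 10)]

lemma bad2 (A : ℤ) (n : ℕ) {π : GI} (h : (nm π).Prime) (h2 : nm π ≠ 2) :
    (((Ico A (A + n) ×ˢ Ico A (A + n)).filter fun x => π ∣ pt x).card : ℝ) ≤
      n * (n / nm π + 1) := by
  rw [← sum_ind, sum_product_right]
  refine (sum_le_card_nsmul _ _ (n / nm π + 1 : ℝ) fun y _ => ?_).trans (by simp [mul_add])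
  rw [sum_ind]
  refine cnt A n _ h.pos _ fun x x' h3 h4 => ?_
  have h5 := nm_dvd (h3.sub h4)
  have h6 : (nm (pt (x, y) - pt (x', y)) : ℤ) = (2 * (x - x')) ^ 2 := by
    rw [nm_int]
    simp [pt, Zsqrtd.norm_def]
    ring
  have h7 := Int.natCast_dvd_natCast.2 h5
  have hp := Nat.prime_iff_prime_int.1 h
  rw [h6] at h7
  refine (hp.dvd_or_dvd (hp.dvd_of_dvd_pow h7)).resolve_left fun k => h2 ?_
  exact (Nat.prime_dvd_prime_iff_eq h Nat.prime_two).1 (by exact_mod_cast k)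

lemma good {ι : Type} [Fintype ι] (f : ι → GI) (hf : ∀ i, (nm (f i)).Prime ∧ nm (f i) ≠ 2)
    (h1 : ∑ i, 1 / (nm (f i) : ℝ) ≤ 1 / 100) {s : ℝ} (hs : 10 ^ 7 ≤ s)
    (hk : (Fintype.card ι : ℝ) ^ 2 ≤ s) : ∃ T : Finset GI, s ^ 2 / 1000 ≤ T.card ∧ ∀ β ∈ T,
      s ^ 2 < nm β ∧ (nm β : ℝ) ≤ 2 * s ^ 2 ∧ Odd (nm β) ∧
        (∀ p : ℕ, p.Prime → ¬ (p : GI) ∣ β) ∧ ∀ i, ¬ f i ∣ β := by
  set A : ℤ := ⌈36 / 100 * s⌉ with hA
  set n : ℕ := ⌊s / 10⌋₊ with hn
  have a1 : 36 / 100 * s ≤ A := Int.le_ceil _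
  have a2 : (A : ℝ) < 36 / 100 * s + 1 := Int.ceil_lt_add_one _
  have n1 : (n : ℝ) ≤ s / 10 := Nat.floor_le (by linarith)
  have n2 : s / 10 < n + 1 := Nat.lt_floor_add_one _
  set B := Ico A (A + n) ×ˢ Ico A (A + n) with hB
  set G := B.filter fun x => (∀ p : ℕ, p.Prime → ¬ (p : GI) ∣ pt x) ∧ ∀ i, ¬ f i ∣ pt x with hG
  have bx : ∀ x ∈ B, (36 / 100 * s ≤ x.1 ∧ 2 * (x.1 : ℝ) + 1 ≤ s) ∧
      36 / 100 * s ≤ x.2 ∧ 2 * (x.2 : ℝ) + 1 ≤ s := by
    intro x hx
    simp only [hB, mem_product, mem_Ico] at hx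
    obtain ⟨⟨e1, e2⟩, e3, e4⟩ := hx
    have e1 : (A : ℝ) ≤ x.1 := by exact_mod_cast e1
    have e2 : (x.1 : ℝ) < A + n := by exact_mod_cast e2
    have e3 : (A : ℝ) ≤ x.2 := by exact_mod_cast e3
    have e4 : (x.2 : ℝ) < A + n := by exact_mod_cast e4
    refine ⟨⟨?_, ?_⟩, ?_, ?_⟩ <;> linarith
  have sub : B ⊆ G ∪ ((Icc 3 ⌊s⌋₊).biUnion fun m : ℕ => B.filter fun x => (m : GI) ∣ pt x) ∪
      univ.biUnion fun i => B.filter fun x => f i ∣ pt x := by
    intro x hx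
    simp only [hG, mem_union, mem_filter, mem_biUnion, mem_univ, true_and, hx, mem_Icc]
    by_contra k
    push Not at k
    obtain ⟨⟨k1, k2⟩, k3⟩ := k
    refine (k1 fun p hp hd => ?_).elim fun i hi => k3 i hi
    have d := ((Zsqrtd.intCast_dvd (p : ℤ) (pt x)).1 (by simpa using hd)).1
    obtain ⟨⟨e1, e2⟩, -⟩ := bx x hx
    have e3 : 0 < 2 * x.1 + 1 := by exact_mod_cast (by linarith : (0 : ℝ) < 2 * x.1 + 1)
    have e4 : (p : ℝ) ≤ 2 * x.1 + 1 := by exact_mod_cast Int.le_of_dvd e3 d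
    refine k2 p ⟨?_, Nat.le_floor (by linarith)⟩ hd
    have := hp.two_le
    rcases eq_or_ne p 2 with rfl | e
    · simp only [pt] at d
      omega
    · omega
  have c0 : (B.card : ℝ) = n ^ 2 := by simp [hB, sq]
  have c1 := (Nat.cast_le (α := ℝ)).2 ((card_le_card sub).trans ((card_union_le _ _).trans
    (add_le_add ((card_union_le _ _).trans (add_le_add le_rfl card_biUnion_le)) card_biUnion_le)))
  push_cast at c1
  have c2 := sum_le_sum fun m (hm : m ∈ Icc 3 ⌊s⌋₊) => bad1 A n m (by grind)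
  have c3 := sum_le_sum fun i (_ : i ∈ univ) => bad2 A n (hf i).1 (hf i).2
  have c4 := sum_inv_sq_tail (w := 29 / 10) (by norm_num) (S := Icc 3 ⌊s⌋₊) fun l hl => by
    have : (3 : ℝ) ≤ l := by exact_mod_cast (mem_Icc.1 hl).1
    linarith
  have c5 : ((Icc 3 ⌊s⌋₊).card : ℝ) ≤ s :=
    le_trans (by exact_mod_cast (by simp : (Icc 3 ⌊s⌋₊).card ≤ ⌊s⌋₊)) (Nat.floor_le (by linarith))
  rw [sum_add_distrib, ← mul_sum, sum_const, nsmul_eq_mul] at c2
  have c6 : ∑ i, (n : ℝ) * (n / nm (f i) + 1) =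
      n ^ 2 * ∑ i, 1 / (nm (f i) : ℝ) + n * Fintype.card ι := by
    rw [mul_sum, ← card_univ, card_eq_sum_ones, Nat.cast_sum, mul_sum, ← sum_add_distrib]
    exact sum_congr rfl fun i _ => by push_cast; ring
  have c7 : (Fintype.card ι : ℝ) ≤ s / 2000 := by
    by_contra k
    nlinarith
  have n0 : (0 : ℝ) ≤ n := Nat.cast_nonneg _
  refine ⟨G.image pt, ?_, fun β hβ => ?_⟩
  · rw [card_image_of_injective _ fun x y e => by
      simp only [pt, Zsqrtd.mk.injEq] at e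
      ext <;> omega]
    have n3 : s / 11 ≤ n := by linarith
    have d1 := mul_le_mul_of_nonneg_left c4 (sq_nonneg (n : ℝ))
    have d2 := mul_le_mul_of_nonneg_left h1 (sq_nonneg (n : ℝ))
    have d3 := mul_le_mul_of_nonneg_left (c7.trans (by linarith : s / 2000 ≤ n / 100)) n0
    have d4 : 11 * s ≤ n ^ 2 / 100 := by nlinarith
    have d5 : s ^ 2 ≤ 121 * n ^ 2 := by nlinarith
    rw [← hB] at c2 c3
    linarith
  · obtain ⟨x, hx, rfl⟩ := mem_image.1 hβ
    obtain ⟨k1, k2, k3⟩ := mem_filter.1 hx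
    obtain ⟨⟨e1, e2⟩, e3, e4⟩ := bx x k1
    refine ⟨?_, ?_, ?_, k2, k3⟩
    · rw [nm_real]
      simp only [pt]
      push_cast
      nlinarith
    · rw [nm_real]
      simp only [pt]
      push_cast
      nlinarith
    · rw [← Int.odd_coe_nat, nm_int]
      exact ⟨2 * x.1 ^ 2 + 2 * x.1 + 2 * x.2 ^ 2, by simp [pt, Zsqrtd.norm_def]; ring⟩

lemma many {J : Finset ℕ} {P Q : ℕ → ℝ} (h : Sys J P Q) {M : ℝ} (hM : 10 ^ 28 ≤ M)
    (hQ : ∏ j ∈ J, Q j ≤ Real.sqrt M) {f : J → GI} (hf : ∀ i : J, f i ∈ GH (P i) (Q i)) :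
    M / 1000 * ∏ i, 1 / (nm (f i) : ℝ) ≤ ∑ α ∈ (ringP M).filter
      (fun α => (nm α : ℝ) ≤ 2 * M ∧ Odd (nm α)), ∏ i, ind (f i ∣ α) := by
  have p1 := fun i => mem_PP.1 (mem_GF.1 (mem_GH.1 (hf i)).1).1
  have p2 : ∀ i, (100 : ℝ) < nm (f i) := fun i => (h.pos i i.2).trans_lt (p1 i).2.2.1
  set d := ∏ i, f i with hd
  have d1 : nm d = ∏ i, nm (f i) :=
    map_prod (⟨⟨nm, nm_one⟩, nm_mul⟩ : GI →* ℕ) f univ
  have d2 : (nm d : ℝ) ≤ Real.sqrt M := by
    rw [d1, Nat.cast_prod]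
    refine le_trans ?_ hQ
    rw [← prod_coe_sort J Q]
    exact prod_le_prod (fun i _ => by positivity) fun i _ => (p1 i).2.2.2
  have d3 : (100 : ℝ) ^ Fintype.card J ≤ nm d := by
    rw [d1, Nat.cast_prod, ← card_univ, ← prod_const]
    exact prod_le_prod (fun i _ => by positivity) fun i _ => (p2 i).le
  have d4 : (0 : ℝ) < nm d := lt_of_lt_of_le (by positivity) d3
  have d5 : d ≠ 0 := fun e => by simp [nm_eq_zero.2 e] at d4
  have m0 : 0 < M := by linarith [show (0 : ℝ) < 10 ^ 28 by norm_num]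
  set s := Real.sqrt (M / nm d) with hs
  have s1 : s ^ 2 = M / nm d := Real.sq_sqrt (by positivity)
  have s2 : Real.sqrt M ≤ M / nm d := by
    rw [le_div_iff₀ d4]
    nlinarith [Real.mul_self_sqrt m0.le, Real.sqrt_nonneg M]
  have s3 : 10 ^ 14 ≤ Real.sqrt M := Real.le_sqrt_of_sq_le (by linarith)
  obtain ⟨T, t1, t2⟩ := good (fun i => star (f i)) (s := s)
    (fun i => by rw [nm_star]; exact ⟨(p1 i).1, fun e => by have := (p1 i).2.1; omega⟩)
    (by
      refine le_trans ?_ h.sumP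
      rw [← sum_coe_sort J]
      exact sum_le_sum fun i _ => by
        rw [nm_star]
        exact one_div_le_one_div_of_le (by linarith [h.pos i i.2]) (p1 i).2.2.1.le)
    (Real.le_sqrt_of_sq_le (by linarith))
    (Real.le_sqrt_of_sq_le (by
      have : (Fintype.card J : ℝ) ≤ 2 ^ Fintype.card J := by exact_mod_cast Nat.lt_two_pow_self.le
      calc ((Fintype.card J : ℝ) ^ 2) ^ 2 ≤ ((2 ^ Fintype.card J) ^ 2) ^ 2 := by gcongr
        _ = 16 ^ Fintype.card J := by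
          rw [← pow_mul, ← pow_mul, mul_comm, pow_mul]
          norm_num
        _ ≤ 100 ^ Fintype.card J := by gcongr; norm_num
        _ ≤ _ := by linarith))
  simp only [prod_ind]
  rw [sum_ind, prod_div_distrib, prod_const_one, ← Nat.cast_prod, ← d1]
  refine (le_of_eq (by rw [s1]; ring)).trans (t1.trans (Nat.cast_le.2
    (card_le_card_of_injOn (d * ·) (fun β hβ => ?_) (mul_right_injective₀ d5).injOn)))
  obtain ⟨e1, e2, e3, e4, e5⟩ := t2 β hβ
  rw [s1] at e1 e2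
  rw [div_lt_iff₀ d4] at e1
  rw [← mul_div_assoc, le_div_iff₀ d4] at e2
  simp only [coe_filter, mem_filter, mem_ringP, Set.mem_ofPred_eq, nm_mul, Nat.cast_mul]
  refine ⟨⟨⟨by linarith, by linarith, ?_⟩, by linarith, Odd.mul ?_ e3⟩,
    fun i hi => (dvd_prod_of_mem f hi).mul_right β⟩
  · by_contra k
    obtain ⟨p, hp, hd'⟩ := Nat.exists_prime_and_dvd k
    rw [← natCast_dvd_iff] at hd'
    by_cases c : p ∣ nm d
    · rw [d1] at c
      obtain ⟨i, -, hi⟩ := (hp.prime.dvd_finsetProd_iff _).1 c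
      rw [(Nat.prime_dvd_prime_iff_eq hp (p1 i).1).1 hi, ← mul_star_eq] at hd'
      have q := prime_of_nm (π := star (f i)) (by rw [nm_star]; exact (p1 i).1)
      rcases q.dvd_or_dvd ((dvd_mul_left _ _).trans hd') with k | k
      · obtain ⟨j, -, hj⟩ := (q.dvd_finsetProd_iff _).1 k
        exact GH_not_star_dvd (hf i) (hf j) hj
      · exact e5 i k
    · refine e4 p hp (IsCoprime.dvd_of_dvd_mul_left (isCoprime_of_nm ?_) hd')
      rw [nm_natCast]
      exact ((Nat.Prime.coprime_iff_not_dvd hp).2 c).pow_left 2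
  · rw [d1]
    exact prod_induction _ _ (fun _ _ => Odd.mul) odd_one fun i _ =>
      Nat.odd_iff.2 (by have := (p1 i).2.1; omega)

end M2

theorem M2_mom : MomStmt := by
  refine ⟨8 * Real.exp (32 * Real.exp 4), fun J P Q M r h hM hr => ?_⟩
  set G := fun j => GH (P j) (Q j) with hG
  set L := fun j => LL (P j) (Q j) with hL
  have L1 : ∀ j ∈ J, 1 ≤ L j := h.one_le
  set u : GI → ℝ := fun π => ∑ j ∈ J, if π ∈ G j then Real.exp (r / L j) - 1 else 0 with hu
  have u1 : ∀ j ∈ J, ∀ π ∈ G j, u π = Real.exp (r / L j) - 1 := fun j hj π hπ => by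
    rw [hu]
    beta_reduce
    rw [sum_eq_single_of_mem j hj fun i hi e => if_neg fun k => e (M2.disj h hi hj k hπ),
      if_pos hπ]
  have u2 : ∀ j ∈ J, 0 ≤ Real.exp (r / L j) - 1 := fun j hj => by
    have := L1 j hj
    exact sub_nonneg.2 (Real.one_le_exp (by positivity))
  have dj : (J : Set ℕ).PairwiseDisjoint G := fun i hi j hj e =>
    disjoint_left.2 fun π h1 h2 => e (M2.disj h hi hj h1 h2)
  have pm := PM (w := 0) (z := ∑ j ∈ J, |Q j|) hM (S := J.biUnion G) (fun π hπ => by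
    obtain ⟨j, hj, hπ⟩ := mem_biUnion.1 hπ
    obtain ⟨e1, e2⟩ := mem_GF.1 (mem_GH.1 hπ).1
    obtain ⟨e3, e4, e5, e6⟩ := mem_PP.1 e1
    exact mem_GF.2 ⟨mem_PP.2 ⟨e3, e4, by linarith [h.pos j hj], e6.trans ((le_abs_self _).trans
      (single_le_sum (f := fun j => |Q j|) (fun _ _ => abs_nonneg _) hj))⟩, e2⟩) u fun π hπ => by
    obtain ⟨j, hj, hπ⟩ := mem_biUnion.1 hπ
    rw [u1 j hj π hπ]
    exact u2 j hj
  have k1 : ∀ α, wt J P Q α ^ r ≤ (∏ _j ∈ J, Real.exp (-r)) *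
      ∏ π ∈ (J.biUnion G).filter (fun π => π ∣ α), (1 + u π) := fun α => by
    rw [filter_biUnion, prod_biUnion (dj.mono fun j => filter_subset _ _), ← prod_mul_distrib, wt,
      ← prod_pow]
    refine prod_le_prod (fun j hj => by have := L1 j hj; positivity) fun j hj => ?_
    have := L1 j hj
    rw [prod_congr rfl fun π hπ => by rw [u1 j hj π (mem_filter.1 hπ).1], prod_const,
      add_sub_cancel, ← Real.exp_nat_mul, ← Real.exp_add]
    refine (pow_le_pow_left₀ (by positivity) (le_trans (by rw [sub_add_cancel])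
      (Real.add_one_le_exp (_ - 1))) r).trans_eq ?_
    rw [← Real.exp_nat_mul]
    congr 1
    ring
  have k2 : (∏ _j ∈ J, Real.exp (-r)) * ∏ π ∈ J.biUnion G, (1 + u π / nm π) ≤
      Real.exp (32 * Real.exp 4) := by
    rw [prod_biUnion dj, ← prod_mul_distrib]
    refine (prod_le_prod (g := fun j => Real.exp (16 * Real.exp 4 * (1 / L j))) (fun j hj => ?_)
      fun j hj => ?_).trans ?_
    · refine mul_nonneg (by positivity) (prod_nonneg fun π hπ => ?_)
      have := u2 j hj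
      rw [u1 j hj π hπ]
      positivity
    · have l1 := L1 j hj
      have r4 : (r : ℝ) ≤ 4 := by exact_mod_cast hr
      have r0 : (0 : ℝ) ≤ r := Nat.cast_nonneg _
      have e1 : ∏ π ∈ G j, (1 + u π / nm π) ≤ Real.exp ((Real.exp (r / L j) - 1) * L j) := by
        rw [show ∀ c, c * L j = ∑ π ∈ G j, c * (1 / (nm π : ℝ)) from fun c => mul_sum _ _ _,
          Real.exp_sum]
        refine prod_le_prod (fun π hπ => ?_) fun π hπ => ?_ <;> rw [u1 j hj π hπ]
        · have := u2 j hj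
          positivity
        · rw [add_comm, mul_one_div]
          exact Real.add_one_le_exp _
      refine (mul_le_mul_of_nonneg_left e1 (by positivity)).trans ?_
      rw [← Real.exp_add, Real.exp_le_exp]
      have e2 := mul_le_mul_of_nonneg_right (M2.exp_le (t := r / L j) (by positivity)
        ((div_le_self r0 l1).trans r4)) (by positivity : 0 ≤ L j)
      have e3 : (r / L j) ^ 2 * Real.exp 4 * L j = r ^ 2 * (Real.exp 4 * (1 / L j)) := by
        field_simp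
      have e4 : r / L j * L j = r := by field_simp
      have e5 : r ^ 2 * (Real.exp 4 * (1 / L j)) ≤ 16 * (Real.exp 4 * (1 / L j)) := by
        gcongr
        nlinarith
      linarith
    · rw [← Real.exp_sum, Real.exp_le_exp, ← mul_sum]
      nlinarith [h.sumL, Real.exp_pos 4]
  refine (sum_le_sum fun α _ => k1 α).trans ?_
  rw [← mul_sum]
  refine (mul_le_mul_of_nonneg_left pm (by positivity)).trans ?_
  nlinarith [mul_le_mul_of_nonneg_left k2 hM]

theorem M2_low : LowStmt := by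
  refine ⟨1 / 1000, 10 ^ 28, by norm_num, fun J P Q M h hM hQ => ?_⟩
  have L0 : ∀ i : J, 0 < LL (P i) (Q i) := fun i => by linarith [h.one_le i i.2]
  have k1 : ∀ α, wt J P Q α = ∑ f ∈ Fintype.piFinset fun i : J => GH (P i) (Q i),
      (∏ i : J, 1 / LL (P i) (Q i)) * ∏ i, ind (f i ∣ α) := fun α => by
    rw [wt, ← prod_coe_sort, ← mul_sum, ← prod_univ_sum (fun i : J => GH (P i) (Q i))
      fun _ π => ind (π ∣ α), ← prod_mul_distrib]
    exact prod_congr rfl fun i _ => by rw [sum_ind]; ring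
  simp only [k1]
  rw [sum_comm]
  simp only [← mul_sum]
  refine le_trans (le_of_eq ?_) (mul_le_mul_of_nonneg_left
    (sum_le_sum fun f hf => M2.many h hM hQ (Fintype.mem_piFinset.1 hf))
      (prod_nonneg fun i _ => by have := L0 i; positivity))
  rw [← mul_sum, ← prod_univ_sum (fun i : J => GH (P i) (Q i))
    fun _ π => 1 / (nm π : ℝ), mul_left_comm, ← prod_mul_distrib, prod_eq_one]
  · ring
  · exact fun i _ => one_div_mul_cancel (L0 i).ne'

end Pool.Agent.Lib.LQ
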