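import Pool.Agent.Lib.LQ.Basic

/-! Block M4: the decomposition over short prime ranges. -/

set_option autoImplicit false

open Finset
open scoped Classical

noncomputable section

namespace Pool.Agent.Lib.LQ

namespace M4

variable {J : Finset ℕ} {P Q : ℕ → ℝ} {j : ℕ}

lemma mem_PP_of {w z : ℝ} {π : GI} (h : π ∈ GH w z) :
    (nm π).Prime ∧ w < (nm π : ℝ) ∧ (nm π : ℝ) ≤ z := by
  have := mem_PP.1 (mem_GF.1 (mem_GH.1 h).1).1
  exact ⟨this.1, this.2.2⟩

lemma wt_mul (hS : Sys J P Q) (hj : j ∈ J) {π δ : GI} (hπ : π ∈ GH (P j) (Q j))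
    (hδ : nm δ = nm π) (β : GI) : wt (J.erase j) P Q (δ * β) = wt (J.erase j) P Q β := by
  refine prod_congr rfl fun i hi => ?_
  rw [filter_congr fun π' hπ' => show π' ∣ δ * β ↔ π' ∣ β from ⟨fun h => ?_, fun h => h.mul_left δ⟩]
  refine ((GF_prime (mem_GH.1 hπ').1).dvd_or_dvd h).resolve_left fun e => ?_
  obtain ⟨a1, a2, a3⟩ := mem_PP_of hπ
  obtain ⟨b1, b2, b3⟩ := mem_PP_of hπ'
  have := (Nat.prime_dvd_prime_iff_eq b1 a1).1 (hδ ▸ nm_dvd e)
  rw [this] at b2 b3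
  rcases hS.disj i (mem_of_mem_erase hi) j hj (ne_of_mem_erase hi) with c | c <;> linarith

lemma short {P Q H : ℝ} (hP : 0 < P) (hH : 0 < H) : ∃ x : GI → ℝ,
    (∀ π ∈ GH P Q, 0 < x π ∧ x π < nm π ∧ (nm π : ℝ) ≤ x π * Real.exp (1 / H)) ∧
    ∀ F : ℝ → GI → ℂ, ∑ v ∈ range (Vn P Q H), ∑ π ∈ GS P Q H v, F (xv P H v) π =
      ∑ π ∈ GH P Q, F (x π) π := by
  have key : ∀ π ∈ GH P Q, ∀ v : ℕ, (xv P H v < nm π ∧ (nm π : ℝ) ≤ xv P H (v + 1)) ↔
      ⌈H * Real.log (nm π / P)⌉₊ = v + 1 := fun π hπ v => by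
    have h0 : (0 : ℝ) < nm π / P := div_pos (hP.trans (mem_PP_of hπ).2.1) hP
    rw [Nat.ceil_eq_iff (Nat.add_one_ne_zero v), Nat.add_sub_cancel, xv, xv, ← lt_div_iff₀' hP,
      ← div_le_iff₀' hP, ← Real.lt_log_iff_exp_lt h0, ← Real.log_le_iff_le_exp h0,
      div_lt_iff₀' hH, le_div_iff₀' hH]
  have pos : ∀ π ∈ GH P Q, ⌈H * Real.log (nm π / P)⌉₊ = ⌈H * Real.log (nm π / P)⌉₊ - 1 + 1 :=
    fun π hπ => by
      have := Nat.ceil_pos.2 (mul_pos hH (Real.log_pos ((one_lt_div hP).2 (mem_PP_of hπ).2.1)))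
      omega
  refine ⟨fun π => xv P H (⌈H * Real.log (nm π / P)⌉₊ - 1), fun π hπ => ?_, fun F => ?_⟩
  · obtain ⟨h1, h2⟩ := (key π hπ _).2 (pos π hπ)
    refine ⟨mul_pos hP (Real.exp_pos _), h1, h2.trans_eq ?_⟩
    simp only [xv]
    rw [mul_assoc, ← Real.exp_add, Nat.cast_succ, add_div]
  · rw [← sum_fiberwise_of_maps_to (s := GH P Q) (t := range (Vn P Q H))
      (g := fun π => ⌈H * Real.log (nm π / P)⌉₊ - 1) fun π hπ => ?_]
    · refine sum_congr rfl fun v _ => sum_congr (filter_congr fun π hπ => ?_) fun π hπ => ?_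
      · rw [key π hπ]; have := pos π hπ; omega
      · simp only [(mem_filter.1 hπ).2]
    · obtain ⟨-, h1, h2⟩ := mem_PP_of hπ
      have : ⌈H * Real.log (nm π / P)⌉₊ ≤ Vn P Q H := Nat.ceil_mono (by
        gcongr
        exact div_pos (hP.trans h1) hP)
      have := pos π hπ
      rw [mem_range]; omega

lemma cont_nat (l : ℕ) (β : GI) : cont ((l : GI) * β) = l * cont β := by
  simp [cont, Int.gcd_mul_left]

lemma cont_eq {π β : GI} (hπ : (nm π).Prime) (hβ : cont β = 1) (h : cont (π * β) ≠ 1) :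
    cont (π * β) = nm π := by
  refine ((Nat.dvd_prime hπ).1 ?_).resolve_left h
  have : ((cont (π * β) : ℕ) : GI) ∣ (nm π : GI) * β := by
    rw [← mul_star_eq, mul_right_comm]
    exact (natCast_dvd_iff.2 dvd_rfl).mul_right _
  simpa [cont_nat, hβ] using natCast_dvd_iff.1 this

lemma shell (h : GaussStmt) : ∃ K : ℝ, 0 ≤ K ∧ ∀ M H : ℝ, 1 ≤ M → 1 ≤ H →
    (((disc (M * Real.exp (1 / H))).filter fun γ => M < (nm γ : ℝ)).card : ℝ) ≤
      K * (M / H + Real.sqrt M) := by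
  obtain ⟨K, hK⟩ := h
  refine ⟨8 + 3 * |K|, by positivity, fun M H hM hH => ?_⟩
  have h0 : 0 ≤ 1 / H := by positivity
  have h1 : 1 / H ≤ 1 := (div_le_one (by linarith)).2 hH
  have e1 := Real.abs_exp_sub_one_le (x := 1 / H) (by rwa [abs_of_nonneg h0])
  rw [abs_of_nonneg h0] at e1
  have e2 := (abs_le.1 e1).2
  have e3 := Real.one_le_exp h0
  have sub : disc M ⊆ disc (M * Real.exp (1 / H)) := fun γ hγ =>
    mem_disc.2 ((mem_disc.1 hγ).trans (by nlinarith))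
  have e : ((disc (M * Real.exp (1 / H))).filter fun γ => M < (nm γ : ℝ)) =
      disc (M * Real.exp (1 / H)) \ disc M := by
    ext γ; simp [mem_disc]
  rw [e, card_sdiff_of_subset sub, Nat.cast_sub (card_le_card sub)]
  have a1 := (abs_le.1 (hK M hM)).1
  have a2 := (abs_le.1 (hK (M * Real.exp (1 / H)) (by nlinarith))).2
  have s1 : Real.sqrt (M * Real.exp (1 / H)) ≤ 2 * Real.sqrt M := by
    rw [Real.sqrt_le_left (by positivity), mul_pow, Real.sq_sqrt (by linarith)]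
    nlinarith
  have s0 := Real.sqrt_nonneg M
  have k1 : K * Real.sqrt M ≤ |K| * Real.sqrt M := by gcongr; exact le_abs_self K
  have k2 : K * Real.sqrt (M * Real.exp (1 / H)) ≤ |K| * (2 * Real.sqrt M) := by
    gcongr; exact le_abs_self K
  have p1 : Real.pi * (M * Real.exp (1 / H)) - Real.pi * M ≤ 8 * (M / H) := by
    have := Real.pi_le_four
    calc _ = Real.pi * (M * (Real.exp (1 / H) - 1)) := by ring
      _ ≤ 4 * (M * (2 * (1 / H))) := by gcongr
      _ = _ := by ring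
  have : 0 ≤ |K| * (M / H) := by positivity
  nlinarith

lemma mult_le (hS : Sys J P Q) (hj : j ∈ J) {K : ℝ}
    (h2 : ∀ M : ℝ, 0 ≤ M → ∑ α ∈ (disc M).erase 0, wt (J.erase j) P Q α ^ 2 ≤ K * M)
    {π : GI} (hπ : π ∈ GH (P j) (Q j)) {Y : ℝ} (hY : 0 ≤ Y) {S : Finset GI}
    (hS' : ∀ γ ∈ S, γ ≠ 0 ∧ (nm γ : ℝ) ≤ Y) :
    ∑ γ ∈ S, ind ((nm π : GI) ∣ γ) * wt (J.erase j) P Q γ ^ 2 ≤ K * (Y / (nm π : ℝ) ^ 2) := by
  have l0 : (0 : ℝ) < nm π := by exact_mod_cast (mem_PP_of hπ).1.pos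
  refine le_trans ?_ (h2 _ (by positivity))
  have : ∀ β, wt (J.erase j) P Q ((nm π : GI) * β) = wt (J.erase j) P Q β := fun β => by
    rw [← mul_star_eq, mul_assoc, wt_mul hS hj hπ rfl, wt_mul hS hj hπ (nm_star π)]
  simp only [ind, ite_mul, one_mul, zero_mul]
  rw [← sum_filter]
  refine le_trans (sum_le_sum_of_subset_of_nonneg ?_ fun _ _ _ => sq_nonneg _)
    ((sum_image_le_of_nonneg (g := fun β => (nm π : GI) * β)
      (f := fun γ => wt (J.erase j) P Q γ ^ 2) fun _ _ => sq_nonneg _).trans_eq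
      (sum_congr rfl fun β _ => by rw [this]))
  intro γ hγ
  obtain ⟨h1, β, rfl⟩ := mem_filter.1 hγ
  obtain ⟨h3, h4⟩ := hS' _ h1
  refine mem_image.2 ⟨β, mem_erase.2 ⟨right_ne_zero_of_mul h3, mem_disc.2 ?_⟩, rfl⟩
  rw [nm_mul, nm_natCast] at h4
  rw [le_div_iff₀' (by positivity)]
  exact_mod_cast h4

end M4

open M4 in
theorem M4 (h1 : MVTStmt) (h2 : MomStmt) (h3 : GaussStmt) : DecStmt := by
  obtain ⟨K1, h1⟩ := h1
  obtain ⟨K2', h2'⟩ := h2
  obtain ⟨K2, k2, h2⟩ : ∃ K : ℝ, 0 ≤ K ∧ ∀ (J : Finset ℕ) (P Q : ℕ → ℝ) (M : ℝ) (r : ℕ),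
      Sys J P Q → 0 ≤ M → r ≤ 4 → ∑ α ∈ (disc M).erase 0, wt J P Q α ^ r ≤ K * M :=
    ⟨|K2'|, abs_nonneg _, fun J P Q M r a b c => (h2' J P Q M r a b c).trans (by
      gcongr; exact le_abs_self _)⟩
  obtain ⟨K3, k3, h3⟩ := shell h3
  refine ⟨|K1| * (30 * (44 * K3 * K2 + 1) + 242 * K2),
    fun J P Q j H M N h hS hj hH hN hNM hmul hle => ?_⟩
  have hN' : (1 : ℝ) ≤ N := by exact_mod_cast hN
  have hM : 1 ≤ M := hN'.trans hNM
  have hP : 100 ≤ P j := hS.pos j hj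
  obtain ⟨x, hx, hx'⟩ := short (P := P j) (Q := Q j) (H := H) (by linarith) (by linarith)
  have hL : 1 ≤ LL (P j) (Q j) := hS.one_le j hj
  have E1 : 1 ≤ Real.exp (1 / H) := Real.one_le_exp (by positivity)
  have E2 : Real.exp (1 / H) ≤ 11 / 4 := (Real.exp_le_exp.2 ((div_le_one (by linarith)).2 hH)).trans
    (Real.exp_one_lt_d9.le.trans (by norm_num))
  have s1 := h3 M H hM hH
  have s2 := h3 (4 * M) H (by linarith) hH
  have hwt : ∀ γ, wt J P Q γ = (((GH (P j) (Q j)).filter fun π => π ∣ γ).card : ℝ) /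
      LL (P j) (Q j) * wt (J.erase j) P Q γ := fun γ => (mul_prod_erase J _ hj).symm
  have hW := fun π hπ β => wt_mul hS hj (π := π) hπ rfl β
  have hmu := fun π hπ (S : Finset GI) => mult_le hS hj (fun M hM => h2 _ P Q M 2
    (hS.subset (erase_subset _ _)) hM (by norm_num)) (π := π) hπ (Y := 11 * M) (by linarith) (S := S)
  have hLL : ∑ π ∈ GH (P j) (Q j), 1 / (nm π : ℝ) = LL (P j) (Q j) := rfl
  set L := LL (P j) (Q j)
  set G := GH (P j) (Q j) with hG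
  set W := wt (J.erase j) P Q
  set E := Real.exp (1 / H)
  set S := (disc (4 * M * E)).filter fun γ => M < (nm γ : ℝ) with hSd
  have mS : ∀ γ, γ ∈ S ↔ M < (nm γ : ℝ) ∧ (nm γ : ℝ) ≤ 4 * M * E := fun γ => by
    rw [hSd, mem_filter, mem_disc, and_comm]
  have bS : ∀ γ ∈ S, γ ≠ 0 ∧ (nm γ : ℝ) ≤ 11 * M := fun γ hγ => by
    obtain ⟨a, b⟩ := (mS γ).1 hγ
    refine ⟨fun e => ?_, by nlinarith⟩
    rw [nm_eq_zero.2 e] at a; push_cast at a; linarith
  let R : GI → GI → Prop := fun π γ => ∃ β ∈ ringP (M / x π), γ = π * β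
  let e : GI → ℝ := fun γ => h γ * W γ * (ind (γ ∈ ringP M) * (G.filter fun π => π ∣ γ).card -
    (G.filter fun π => R π γ).card) / L
  have dec : ∀ k : ℤ, Asum h J P Q M k - ((1 / L : ℝ) : ℂ) *
      ∑ v ∈ range (Vn (P j) (Q j) H), Psum h (GS (P j) (Q j) H v) k *
        Asum h (J.erase j) P Q (M / xv (P j) H v) k = ∑ γ ∈ S, ((e γ : ℝ) : ℂ) * ek k γ := by
    intro k
    have a1 : Asum h J P Q M k = ∑ γ ∈ S, ((h γ * W γ * (ind (γ ∈ ringP M) *
        (G.filter fun π => π ∣ γ).card) / L : ℝ) : ℂ) * ek k γ := by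
      rw [Asum, ← sum_subset (s₁ := ringP M) (s₂ := S) (fun γ hγ => ?_) fun γ _ hγ => ?_]
      · exact sum_congr rfl fun γ hγ => by rw [hwt, ind_true hγ]; congr 2; ring
      · obtain ⟨a, b, -⟩ := mem_ringP.1 hγ
        exact (mS γ).2 ⟨a, by nlinarith⟩
      · simp [ind_false hγ]
    have a2 : ∀ π ∈ G, ((h π : ℝ) : ℂ) * ek k π * Asum h (J.erase j) P Q (M / x π) k =
        ∑ γ ∈ S, if R π γ then ((h γ * W γ : ℝ) : ℂ) * ek k γ else 0 := fun π hπ => by
      obtain ⟨x1, x2, x3⟩ := hx π hπ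
      rw [← sum_filter, Asum, mul_sum]
      refine sum_bij (fun β _ => π * β) (fun β hβ => mem_filter.2 ⟨?_, β, hβ, rfl⟩)
        (fun β _ β' _ e => mul_left_cancel₀ (GF_prime (mem_GH.1 hπ).1).ne_zero e)
        (fun γ hγ => ?_) fun β _ => ?_
      · obtain ⟨a, b, -⟩ := mem_ringP.1 hβ
        rw [div_lt_iff₀ x1] at a
        rw [← mul_div_assoc, le_div_iff₀ x1] at b
        rw [mS, nm_mul, Nat.cast_mul]
        have : (0 : ℝ) ≤ nm β := Nat.cast_nonneg _
        constructor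
        · nlinarith
        · nlinarith
      · obtain ⟨β, hβ, e⟩ := (mem_filter.1 hγ).2
        exact ⟨β, hβ, e.symm⟩
      · rw [hmul, ek_mul, hW π hπ]; push_cast; ring
    simp only [Psum, sum_mul]
    rw [hx' fun y π => ((h π : ℝ) : ℂ) * ek k π * Asum h (J.erase j) P Q (M / y) k,
      sum_congr rfl a2, sum_comm, a1, mul_sum, ← sum_sub_distrib]
    refine sum_congr rfl fun γ _ => ?_
    rw [← sum_filter, sum_const, nsmul_eq_mul]
    simp only [e]
    push_cast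
    ring
  set S₁ := (disc (M * E)).filter fun γ => M < (nm γ : ℝ) with hS₁
  set S₂ := (disc (4 * M * E)).filter fun γ => 4 * M < (nm γ : ℝ) with hS₂
  have r11 : Real.sqrt 11 ≤ 4 := Real.sqrt_le_iff.2 ⟨by norm_num, by norm_num⟩
  have pt : ∀ γ ∈ S, ‖((e γ : ℝ) : ℂ)‖ ^ 2 * (cont γ * Real.sqrt 11 * N + 11 * M) ≤
      15 * M * (ind (γ ∈ S₁) * wt J P Q γ ^ 2 + ind (γ ∈ S₂) * wt J P Q γ ^ 2) +
        ∑ π ∈ G, (4 * nm π * N + 11 * M) / L ^ 2 * (ind ((nm π : GI) ∣ γ) * W γ ^ 2) := by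
    intro γ hγ
    obtain ⟨g1, g2⟩ := (mS γ).1 hγ
    have n1 := ind_nonneg (γ ∈ S₁)
    have n2 := ind_nonneg (γ ∈ S₂)
    have n3 : ∀ π ∈ G, 0 ≤ (4 * nm π * N + 11 * M) / L ^ 2 * (ind ((nm π : GI) ∣ γ) * W γ ^ 2) :=
      fun π _ => by have := ind_nonneg ((nm π : GI) ∣ γ); positivity
    have hh : h γ ^ 2 ≤ 1 := (sq_le_one_iff_abs_le_one _).2 (hle γ)
    rw [Complex.norm_real, Real.norm_eq_abs, sq_abs]
    by_cases c : cont γ = 1
    · refine le_add_of_le_of_nonneg ?_ (sum_nonneg n3)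
      by_cases c' : M * E < nm γ ∧ (nm γ : ℝ) ≤ 4 * M
      · have : (G.filter fun π => R π γ) = G.filter fun π => π ∣ γ := filter_congr fun π hπ => by
          refine ⟨fun ⟨β, _, e⟩ => ⟨β, e⟩, fun ⟨β, e⟩ => ⟨β, mem_ringP.2 ?_, e⟩⟩
          obtain ⟨x1, x2, x3⟩ := hx π hπ
          obtain ⟨c1, c2⟩ := c'
          rw [e, nm_mul, Nat.cast_mul] at c1 c2
          have : (0 : ℝ) ≤ nm β := Nat.cast_nonneg _
          refine ⟨?_, ?_, Nat.dvd_one.1 (c ▸ natCast_dvd_iff.1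
            (e ▸ (natCast_dvd_iff.2 dvd_rfl).mul_left π))⟩
          · rw [div_lt_iff₀ x1]; nlinarith
          · rw [← mul_div_assoc, le_div_iff₀ x1]; nlinarith
        have : e γ = 0 := by
          simp only [e]
          rw [this, ind_true (mem_ringP.2 ⟨g1, c'.2, c⟩)]; simp
        rw [this]
        simp only [ne_eq, OfNat.ofNat_ne_zero, not_false_eq_true, zero_pow, zero_mul]
        positivity
      · have a1 : 1 ≤ ind (γ ∈ S₁) + ind (γ ∈ S₂) := by
          rcases not_and_or.1 c' with a | a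
          · rw [ind_true (p := γ ∈ S₁) (mem_filter.2 ⟨mem_disc.2 (not_lt.1 a), g1⟩)]; linarith
          · rw [ind_true (p := γ ∈ S₂) (mem_filter.2 ⟨mem_disc.2 g2, not_le.1 a⟩)]; linarith
        have a2 : ((G.filter fun π => R π γ).card : ℝ) ≤ (G.filter fun π => π ∣ γ).card := by
          refine Nat.cast_le.2 (card_le_card fun π hπ => ?_)
          obtain ⟨b, β, -, e⟩ := mem_filter.1 hπ
          exact mem_filter.2 ⟨b, β, e⟩
        have a3 : (ind (γ ∈ ringP M) * (G.filter fun π => π ∣ γ).card -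
            (G.filter fun π => R π γ).card) ^ 2 ≤ ((G.filter fun π => π ∣ γ).card : ℝ) ^ 2 := by
          have b1 := ind_nonneg (γ ∈ ringP M)
          have b2 := ind_le_one (γ ∈ ringP M)
          have b3 : (0 : ℝ) ≤ (G.filter fun π => R π γ).card := Nat.cast_nonneg _
          exact sq_le_sq' (by nlinarith) (by nlinarith)
        have a4 : e γ ^ 2 ≤ wt J P Q γ ^ 2 := by
          simp only [e]
          rw [hwt, div_pow, mul_pow, mul_pow, mul_pow, div_pow]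
          calc _ ≤ 1 * W γ ^ 2 * ((G.filter fun π => π ∣ γ).card : ℝ) ^ 2 / L ^ 2 := by gcongr
            _ = _ := by ring
        rw [c, ← add_mul]
        calc _ ≤ wt J P Q γ ^ 2 * (15 * M) := by gcongr; push_cast; nlinarith
          _ = 15 * M * (1 * wt J P Q γ ^ 2) := by ring
          _ ≤ _ := by gcongr
    · refine le_add_of_nonneg_of_le (by positivity) ?_
      have a0 : ind (γ ∈ ringP M) = 0 := ind_false fun a => c (mem_ringP.1 a).2.2
      have a1 : ∀ π ∈ G.filter fun π => R π γ, cont γ = nm π := fun π hπ => by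
        obtain ⟨b, β, hβ, rfl⟩ := mem_filter.1 hπ
        exact cont_eq (mem_PP_of b).1 (mem_ringP.1 hβ).2.2 c
      rcases (G.filter fun π => R π γ).eq_empty_or_nonempty with a | ⟨π, hπ⟩
      · have : e γ = 0 := by simp only [e]; rw [a0, a]; simp
        rw [this]
        simpa using sum_nonneg n3
      · refine le_trans ?_ (single_le_sum n3 (mem_filter.1 hπ).1)
        have : (G.filter fun π => R π γ).card = 1 := card_eq_one.2 ⟨π, eq_singleton_iff_unique_mem.2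
          ⟨hπ, fun π' hπ' => GH_inj (mem_filter.1 hπ').1 (mem_filter.1 hπ).1
            ((a1 π' hπ').symm.trans (a1 π hπ))⟩⟩
        simp only [e]
        rw [a0, this, ind_true (natCast_dvd_iff.2 (a1 π hπ ▸ dvd_rfl)), a1 π hπ]
        calc _ = h γ ^ 2 * (W γ ^ 2 / L ^ 2) * (Real.sqrt 11 * nm π * N + 11 * M) := by
              push_cast; ring
          _ ≤ 1 * (W γ ^ 2 / L ^ 2) * (4 * nm π * N + 11 * M) := by gcongr
          _ = _ := by ring
  set a := 1 / Real.sqrt H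
  set b := M ^ (-(1 / 4) : ℝ) with hb
  have a0 : 0 ≤ a := by positivity
  have b0 : 0 ≤ b := by positivity
  have ab : M * (M / H + Real.sqrt M) ≤ (M * (a + b)) ^ 2 := by
    have e1 : a ^ 2 = 1 / H := by rw [div_pow, Real.sq_sqrt (by linarith), one_pow]
    have e2 : M * b ^ 2 = Real.sqrt M := by
      rw [hb, ← Real.rpow_natCast, ← Real.rpow_mul (by linarith), Real.sqrt_eq_rpow,
        mul_comm M, ← Real.rpow_add_one (by linarith)]
      norm_num
    rw [← e2, div_eq_mul_one_div, ← e1]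
    nlinarith [mul_nonneg a0 b0, sq_nonneg M]
  have cs : ∀ T : Finset GI, T ⊆ S → (T.card : ℝ) ≤ 4 * K3 * (M / H + Real.sqrt M) →
      ∑ γ ∈ S, ind (γ ∈ T) * wt J P Q γ ^ 2 ≤ (44 * K3 * K2 + 1) * (M * (a + b)) := by
    intro T t1 t2
    simp only [ind, ite_mul, one_mul, zero_mul]
    rw [← sum_filter, filter_mem_eq_inter, inter_eq_right.2 t1]
    refine (abs_le_of_sq_le_sq' ?_ (by positivity)).2
    have t3 : ∑ γ ∈ T, (wt J P Q γ ^ 2) ^ 2 ≤ K2 * (11 * M) := by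
      simp only [← pow_mul]
      exact le_trans (sum_le_sum_of_subset_of_nonneg
        (fun γ hγ => mem_erase.2 ((bS γ (t1 hγ)).imp_right mem_disc.2))
        fun _ _ _ => pow_nonneg (wt_nonneg _ _ _ _) _) (h2 J P Q _ 4 hS (by linarith) le_rfl)
    calc _ ≤ _ := sq_sum_le_card_mul_sum_sq
      _ ≤ 4 * K3 * (M / H + Real.sqrt M) * (K2 * (11 * M)) := by gcongr
      _ = 44 * K3 * K2 * (M * (M / H + Real.sqrt M)) := by ring
      _ ≤ (44 * K3 * K2 + 1) ^ 2 * (M * (a + b)) ^ 2 := by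
          gcongr
          nlinarith [mul_nonneg k3 k2]
      _ = _ := by ring
  have sq4 : Real.sqrt (4 * M) ≤ 4 * Real.sqrt M := by
    rw [Real.sqrt_le_left (by positivity), mul_pow, Real.sq_sqrt (by linarith)]; linarith
  have c1 := cs S₁ (fun γ hγ => (mS γ).2 ⟨(mem_filter.1 hγ).2,
    (mem_disc.1 (mem_filter.1 hγ).1).trans (by nlinarith)⟩) (s1.trans (by gcongr; linarith))
  have c2 := cs S₂ (fun γ hγ => (mS γ).2 ⟨by linarith [(mem_filter.1 hγ).2],
    mem_disc.1 (mem_filter.1 hγ).1⟩) (s2.trans (by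
      rw [mul_div_assoc, mul_comm 4 K3, mul_assoc, mul_add 4]; gcongr))
  have c3 : ∑ π ∈ G, 1 / (nm π : ℝ) ^ 2 ≤ 2 / P j := by
    rw [hG, sum_GH _ _ fun l => 1 / (l : ℝ) ^ 2]
    exact sum_inv_sq_tail (by linarith) fun l hl => (mem_PP.1 hl).2.2.1
  have c4 : ∑ π ∈ G, ∑ γ ∈ S, (4 * nm π * N + 11 * M) / L ^ 2 *
      (ind ((nm π : GI) ∣ γ) * W γ ^ 2) ≤ 242 * K2 * M ^ 2 * (N / M / L + 1 / P j) := by
    calc _ ≤ ∑ π ∈ G, (44 * K2 * M * N / L ^ 2 * (1 / (nm π : ℝ)) +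
          121 * K2 * M ^ 2 / L ^ 2 * (1 / (nm π : ℝ) ^ 2)) := sum_le_sum fun π hπ => by
          have l0 : (0 : ℝ) < nm π := by exact_mod_cast (mem_PP_of hπ).1.pos
          rw [← mul_sum]
          refine (mul_le_mul_of_nonneg_left (hmu π hπ S bS) (by positivity)).trans_eq ?_
          field_simp
          ring
      _ ≤ 44 * K2 * M * N / L ^ 2 * L + 121 * K2 * M ^ 2 / 1 ^ 2 * (2 / P j) := by
          rw [sum_add_distrib, ← mul_sum, ← mul_sum, hLL]
          gcongr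
      _ = 44 * K2 * M ^ 2 * (N / M / L) + 242 * K2 * M ^ 2 * (1 / P j) := by
          field_simp
          ring
      _ ≤ _ := by
          rw [mul_add]
          gcongr
          norm_num
  simp only [dec]
  refine (h1 N (11 * M) 11 S _ hN (by linarith) (by norm_num) fun γ hγ =>
    ⟨by linarith [((mS γ).1 hγ).1], (bS γ hγ).2⟩).trans ?_
  refine (mul_le_mul_of_nonneg_right (le_abs_self K1) (sum_nonneg fun γ _ => by positivity)).trans ?_
  rw [mul_assoc, mul_assoc]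
  refine mul_le_mul_of_nonneg_left ((sum_le_sum pt).trans ?_) (abs_nonneg _)
  rw [sum_add_distrib, ← mul_sum, sum_add_distrib, sum_comm]
  have u0 : 0 ≤ N / M / L + 1 / P j := by positivity
  have u1 : 0 ≤ 44 * K3 * K2 + 1 := by positivity
  calc _ ≤ 15 * M * ((44 * K3 * K2 + 1) * (M * (a + b)) + (44 * K3 * K2 + 1) * (M * (a + b))) +
        242 * K2 * M ^ 2 * (N / M / L + 1 / P j) := by gcongr
    _ = 30 * (44 * K3 * K2 + 1) * (M ^ 2 * (a + b)) +
        242 * K2 * (M ^ 2 * (N / M / L + 1 / P j)) := by ring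
    _ ≤ 30 * (44 * K3 * K2 + 1) * (M ^ 2 * (a + N / M / L + 1 / P j + b)) +
        242 * K2 * (M ^ 2 * (a + N / M / L + 1 / P j + b)) := by
          have v1 : a + b ≤ a + N / M / L + 1 / P j + b := by linarith
          have v2 : N / M / L + 1 / P j ≤ a + N / M / L + 1 / P j + b := by linarith
          gcongr ?_ + ?_ <;> gcongr _ * (_ * ?_)
    _ = _ := by ring

end Pool.Agent.Lib.LQ
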