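import Pool.Agent.Lib.LQ.M5Aux3

/-! Block M5: the chain of prime ranges. -/

set_option autoImplicit false

open Finset
open scoped Classical

noncomputable section

namespace Pool.Agent.Lib.LQ

namespace M5

lemma PF_pos (b P0 : ℝ) {j : ℕ} (hj : 1 ≤ j) : PF b P0 j = Real.exp (pp b j) :=
  if_neg (by omega)

lemma QF_pos (b Q0 : ℝ) {j : ℕ} (hj : 1 ≤ j) : QF b Q0 j = Real.exp (pp b j ^ 2) :=
  if_neg (by omega)

lemma PF_zero (b P0 : ℝ) : PF b P0 0 = P0 := if_pos rfl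

lemma QF_zero (b Q0 : ℝ) : QF b Q0 0 = Q0 := if_pos rfl

lemma LL_ge {C b : ℝ} (hC : ∀ y z : ℝ, 2 ≤ y → y ≤ z →
    |Lam y z - Real.log (Real.log z / Real.log y)| ≤ C) (hb : 2 ≤ b)
    (hbC : |C| + 1 ≤ Real.log b) (j : ℕ) :
    2 ^ j ≤ LL (Real.exp (pp b j)) (Real.exp (pp b j ^ 2)) := by
  have hp := pp_ge hb j
  have h1 := hC (Real.exp (pp b j)) (Real.exp (pp b j ^ 2))
    (by linarith [Real.add_one_le_exp (pp b j)]) (Real.exp_le_exp.2 (by nlinarith))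
  rw [Real.log_exp, Real.log_exp, show pp b j ^ 2 / pp b j = pp b j by field_simp] at h1
  have h2 : Real.log (pp b j) = 2 * 4 ^ j * Real.log b := by
    rw [pp, qq, ← pow_mul, Real.log_pow]; push_cast; ring
  have h3 : Lam (Real.exp (pp b j)) (Real.exp (pp b j ^ 2)) ≤
      2 * LL (Real.exp (pp b j)) (Real.exp (pp b j ^ 2)) := by
    rw [LL, sum_GH _ _ (fun l => 1 / (l : ℝ)), Lam, mul_sum]
    refine sum_le_sum fun l hl => ?_
    have : (0 : ℝ) < l := by exact_mod_cast (mem_PP.1 hl).1.pos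
    rw [mul_one_div]
    exact div_le_div_of_nonneg_left (by norm_num) this (by linarith)
  have h4 := (abs_le.1 h1).1
  have h5 : (2 : ℝ) ^ j ≤ 4 ^ j := pow_le_pow_left₀ (by norm_num) (by norm_num) j
  have h6 : (1 : ℝ) ≤ 4 ^ j := one_le_pow₀ (by norm_num)
  have h7 := le_abs_self C
  have h8 := abs_nonneg C
  have h9 := mul_le_mul_of_nonneg_left hbC (show (0 : ℝ) ≤ 2 * 4 ^ j by positivity)
  nlinarith

lemma sum_inv_LL {C b : ℝ} (hC : ∀ y z : ℝ, 2 ≤ y → y ≤ z →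
    |Lam y z - Real.log (Real.log z / Real.log y)| ≤ C) (hb : 2 ≤ b)
    (hbC : |C| + 1 ≤ Real.log b) (P0 Q0 : ℝ) (n : ℕ) :
    ∑ j ∈ Icc 1 n, 1 / LL (PF b P0 j) (QF b Q0 j) ≤ 1 := by
  refine le_trans (sum_le_sum fun j hj => ?_) (sum_half n)
  rw [PF_pos _ _ (mem_Icc.1 hj).1, QF_pos _ _ (mem_Icc.1 hj).1, one_div_pow]
  exact one_div_le_one_div_of_le (by positivity) (LL_ge hC hb hbC j)

lemma inv_exp_pp {b : ℝ} (hb : 2 ≤ b) (j : ℕ) : 1 / Real.exp (pp b j) ≤ 1 / qq b j :=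
  one_div_le_one_div_of_le (by linarith [qq_ge_b hb j])
    (by linarith [qq_le_pp hb j, Real.add_one_le_exp (pp b j)])

lemma sys {C b P0 Q0 : ℝ} (hC : ∀ y z : ℝ, 2 ≤ y → y ≤ z →
    |Lam y z - Real.log (Real.log z / Real.log y)| ≤ C) (hb : 200 ≤ b)
    (hbC : |C| + 1 ≤ Real.log b) {n : ℕ} (h0 : 200 ≤ P0) (h1 : 1 ≤ LL P0 Q0)
    (h2 : Real.exp (pp b n ^ 2) ≤ P0) : Sys (insert 0 (Icc 1 n)) (PF b P0) (QF b Q0) := by
  have hb2 : 2 ≤ b := by linarith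
  have hn : 0 ∉ Icc 1 n := by simp
  refine ⟨fun j hj => ?_, ?_, fun j hj => ?_, ?_, fun i hi j hj hij => ?_⟩
  · rcases mem_insert.1 hj with rfl | hj
    · rw [PF_zero, QF_zero]; exact h1
    · rw [PF_pos _ _ (mem_Icc.1 hj).1, QF_pos _ _ (mem_Icc.1 hj).1]
      exact (one_le_pow₀ (by norm_num)).trans (LL_ge hC hb2 hbC j)
  · rw [sum_insert hn, PF_zero, QF_zero]
    have := sum_inv_LL hC hb2 hbC P0 Q0 n
    have h3 : 1 / LL P0 Q0 ≤ 1 := by rw [div_le_one (by linarith)]; exact h1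
    linarith
  · rcases mem_insert.1 hj with rfl | hj
    · rw [PF_zero]; linarith
    · rw [PF_pos _ _ (mem_Icc.1 hj).1]
      linarith [qq_le_pp hb2 j, Real.add_one_le_exp (pp b j), qq_ge_b hb2 j]
  · rw [sum_insert hn, PF_zero]
    have h3 : ∑ j ∈ Icc 1 n, 1 / PF b P0 j ≤ 1 / b := by
      refine le_trans (sum_le_sum fun j hj => ?_) (sum_inv_qq hb2 n)
      rw [PF_pos _ _ (mem_Icc.1 hj).1]
      exact inv_exp_pp hb2 j
    have h4 : 1 / P0 ≤ 1 / 200 := one_div_le_one_div_of_le (by norm_num) h0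
    have h5 : 1 / b ≤ 1 / 200 := one_div_le_one_div_of_le (by norm_num) hb
    linarith
  · have k0 : ∀ j ∈ Icc 1 n, QF b Q0 j ≤ PF b P0 0 := fun j hj => by
      rw [PF_zero, QF_pos _ _ (mem_Icc.1 hj).1]
      refine le_trans (Real.exp_le_exp.2 ?_) h2
      exact pow_le_pow_left₀ (by linarith [pp_ge hb2 j]) (pp_mono hb2 (mem_Icc.1 hj).2) 2
    have k1 : ∀ i j, 1 ≤ i → i < j → QF b Q0 i ≤ PF b P0 j := fun i j hi hij => by
      rw [QF_pos _ _ hi, PF_pos _ _ (by omega), Real.exp_le_exp]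
      have a1 := pp_mono hb2 (Nat.succ_le_of_lt hij)
      rw [Nat.succ_eq_add_one, pp_succ] at a1
      exact (pow_le_pow_right₀ (by linarith [pp_ge hb2 i]) (by norm_num)).trans a1
    rcases mem_insert.1 hi with rfl | hi
    · rcases mem_insert.1 hj with rfl | hj
      · exact absurd rfl hij
      · exact Or.inr (k0 j hj)
    · rcases mem_insert.1 hj with rfl | hj
      · exact Or.inl (k0 i hi)
      · rcases lt_or_gt_of_ne hij with h | h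
        · exact Or.inl (k1 i j (mem_Icc.1 hi).1 h)
        · exact Or.inr (k1 j i (mem_Icc.1 hj).1 h)

lemma prodQ {b : ℝ} (hb : 2 ≤ b) (Q0 : ℝ) (n : ℕ) :
    ∏ j ∈ (insert 0 (Icc 1 n)).erase 0, QF b Q0 j ≤ Real.exp (pp b n ^ 3) := by
  rw [erase_insert (by simp)]
  have hp := pp_ge hb n
  calc _ ≤ ∏ j ∈ Icc 1 n, Real.exp (pp b n ^ 2) := by
        refine prod_le_prod (fun j hj => ?_) fun j hj => ?_
        · rw [QF_pos _ _ (mem_Icc.1 hj).1]; exact (Real.exp_pos _).le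
        · rw [QF_pos _ _ (mem_Icc.1 hj).1, Real.exp_le_exp]
          exact pow_le_pow_left₀ (by linarith [pp_ge hb j]) (pp_mono hb (mem_Icc.1 hj).2) 2
    _ = Real.exp (n * pp b n ^ 2) := by rw [prod_const, Nat.card_Icc, Real.exp_nat_mul]; simp
    _ ≤ _ := by
        rw [Real.exp_le_exp]
        have := (le_qq hb n).trans (qq_le_pp hb n)
        nlinarith

lemma E_bound {KD : ℝ} (hKD : ∀ (J : Finset ℕ) (P Q : ℕ → ℝ) (j : ℕ) (H M : ℝ) (N : ℕ)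
    (h : GI → ℝ), Sys J P Q → j ∈ J → 1 ≤ H → 1 ≤ N → (N : ℝ) ≤ M →
    (∀ α β, h (α * β) = h α * h β) → (∀ α, |h α| ≤ 1) →
    ∑ k ∈ Icc (-(N : ℤ)) N, ‖Asum h J P Q M k - ((1 / LL (P j) (Q j) : ℝ) : ℂ) *
        ∑ v ∈ range (Vn (P j) (Q j) H), Psum h (GS (P j) (Q j) H v) k *
          Asum h (J.erase j) P Q (M / xv (P j) H v) k‖ ^ 2 ≤
      KD * M ^ 2 * (1 / Real.sqrt H + N / M / LL (P j) (Q j) + 1 / P j + M ^ (-(1 / 4) : ℝ)))
    {b : ℝ} (hb : 2 ≤ b) {J : Finset ℕ} {P Q : ℕ → ℝ} (hS : Sys J P Q) {j : ℕ} (hj : j ∈ J)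
    (hP : P j = Real.exp (pp b j)) (hQ : Q j = Real.exp (pp b j ^ 2)) {M K' : ℝ} (hM : 0 < M)
    (hK' : 1 ≤ K') {N : ℕ} (hN : 1 ≤ N) (hNM : (N : ℝ) ≤ M / K') :
    ∑ k ∈ Icc (-(N : ℤ)) N, EE b J P Q M j k ≤
      |KD| * M ^ 2 * (2 * (1 / qq b j) + 1 / K' * (1 / LL (P j) (Q j)) + M ^ (-(1 / 4) : ℝ)) := by
  have h1 := hKD J P Q j (pp b j) M N gr hS hj (by linarith [pp_ge hb j]) hN
    (hNM.trans (div_le_self hM.le hK')) gr_mul abs_gr_le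
  have hL := hS.one_le j hj
  have hq := qq_ge_b hb j
  have e1 : Real.sqrt (pp b j) = qq b j := by rw [pp, Real.sqrt_sq (by linarith)]
  have e2 : (N : ℝ) / M / LL (P j) (Q j) ≤ 1 / K' * (1 / LL (P j) (Q j)) := by
    rw [mul_one_div]
    refine div_le_div_of_nonneg_right ?_ (by linarith)
    rw [div_le_iff₀ hM]
    calc (N : ℝ) ≤ M / K' := hNM
      _ = _ := by ring
  have e3 : 1 / P j ≤ 1 / qq b j := hP ▸ inv_exp_pp hb j
  have e4 : 0 < P j := hP ▸ Real.exp_pos _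
  have e5 : 0 < qq b j := by linarith
  rw [e1] at h1
  calc _ ≤ KD * M ^ 2 * (1 / qq b j + N / M / LL (P j) (Q j) + 1 / P j + M ^ (-(1 / 4) : ℝ)) := by
        refine le_trans (le_of_eq ?_) h1
        refine sum_congr rfl fun k _ => ?_
        simp only [EE, VV, SS, ← xv_eq, hP, hQ]
    _ ≤ |KD| * M ^ 2 * (1 / qq b j + N / M / LL (P j) (Q j) + 1 / P j + M ^ (-(1 / 4) : ℝ)) := by
        have : 0 < LL (P j) (Q j) := by linarith
        gcongr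
        exact le_abs_self _
    _ ≤ _ := mul_le_mul_of_nonneg_left (by linarith) (by positivity)

lemma chain (h0 : MertensStmt) (h1 : MVTStmt) (h2 : MomStmt) (h3 : DecStmt) (h4 : RPStmt)
    {c η : ℝ} (hc : 0 < c) (hc1 : c ≤ 1) (hη : 0 < η) :
    ∃ K' M0 : ℝ, 1 ≤ K' ∧ 1 ≤ M0 ∧ ∀ M P0 Q0 : ℝ, M0 ≤ M → M ^ c ≤ P0 →
    1 ≤ LL P0 Q0 → ∃ (J : Finset ℕ) (P Q : ℕ → ℝ), 0 ∈ J ∧ P 0 = P0 ∧ Q 0 = Q0 ∧ Sys J P Q ∧
      ∏ j ∈ J.erase 0, Q j ≤ M ^ c ∧ ∀ N : ℕ, 1 ≤ N → (N : ℝ) ≤ M / K' →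
        ∃ U : Finset ℤ, U ⊆ Icc (-(N : ℤ)) N ∧ (U.card : ℝ) ≤ M ^ c ∧
          ∑ k ∈ Icc (-(N : ℤ)) N \ U, ‖Asum gr J P Q M k‖ ^ 2 ≤ η * M ^ 2 := by
  obtain ⟨C, hC⟩ := h0
  obtain ⟨K1, hK10, hK1⟩ := Rb h1 h2
  obtain ⟨K2, hK20, hK2⟩ := RPb h2 h4
  obtain ⟨K3, hK30, hK3⟩ := Ub h4
  obtain ⟨KD, hKD⟩ := h3
  obtain ⟨K, hK⟩ : ∃ K : ℝ, K = |KD| + K1 + K2 := ⟨_, rfl⟩
  have hKD0 := abs_nonneg KD
  have hK0 : 0 < K := by linarith
  obtain ⟨θ, hθ⟩ : ∃ θ : ℝ, θ = η / (16 * K) := ⟨_, rfl⟩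
  have hθ0 : 0 < θ := by rw [hθ]; positivity
  obtain ⟨b, hb⟩ : ∃ b : ℝ, b = 200 + Real.exp (|C| + 1) + 1024 / c + 1 / θ := ⟨_, rfl⟩
  have p1 := Real.exp_pos (|C| + 1)
  have p2 : 0 < 1024 / c := by positivity
  have p3 : 0 < 1 / θ := by positivity
  have hb200 : 200 ≤ b := by linarith
  have hb2 : 2 ≤ b := by linarith
  have hbC : |C| + 1 ≤ Real.log b := by
    rw [Real.le_log_iff_exp_le (by linarith)]; linarith
  have hbc : 1024 ≤ c * b := by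
    have : 1024 / c ≤ b := by linarith
    rw [div_le_iff₀ hc] at this; linarith
  have hbθ : 1 / b ≤ θ := by
    rw [one_div_le (by linarith) hθ0]; linarith
  obtain ⟨D, hD⟩ : ∃ D : ℝ, D = pp b 1 ^ 6 * Real.exp (pp b 1 ^ 2) := ⟨_, rfl⟩
  have hD0 : 0 ≤ D := by rw [hD]; positivity
  obtain ⟨K', hK'⟩ : ∃ K' : ℝ, K' = 1 + (1 + D) / θ := ⟨_, rfl⟩
  have p4 : 0 ≤ (1 + D) / θ := by positivity
  have hK'1 : 1 ≤ K' := by linarith
  have hK'θ : (1 + D) / K' ≤ θ := by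
    rw [div_le_iff₀ (by linarith), hK', mul_add, mul_div_cancel₀ _ hθ0.ne']; linarith
  have hK'2 : 1 / K' ≤ θ :=
    le_trans (div_le_div_of_nonneg_right (by linarith) (by linarith)) hK'θ
  have hK'3 : D / K' ≤ θ :=
    le_trans (div_le_div_of_nonneg_right (by linarith) (by linarith)) hK'θ
  obtain ⟨T0, hT0⟩ := eventually_T (B := b ^ 2) (K := K3) hc hθ0 (by linarith)
  refine ⟨K', max 1 (Real.exp T0), hK'1, le_max_left _ _, fun M P0 Q0 hM hP0 hL0 => ?_⟩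
  have hM1 : 1 ≤ M := (le_max_left _ _).trans hM
  have hM0 : 0 < M := by linarith
  obtain ⟨T, hT⟩ : ∃ T, T = Real.log M := ⟨_, rfl⟩
  have hMT : M = Real.exp T := by rw [hT, Real.exp_log hM0]
  have hTT : T0 ≤ T := by
    rw [← Real.exp_le_exp, ← hMT]; exact (le_max_right _ _).trans hM
  obtain ⟨t1, t2, t3, t4, t5, t6⟩ := hT0 T hTT
  obtain ⟨Λ, hΛ⟩ : ∃ Λ, Λ = 16 / c * Real.log (6 * T) := ⟨_, rfl⟩
  rw [← hΛ] at t2 t3
  have hMc : M ^ c = Real.exp (c * T) := by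
    rw [Real.rpow_def_of_pos hM0, ← hT, mul_comm]
  have hM4 : M ^ (-(1 / 4) : ℝ) = Real.exp (-(T / 4)) := by
    rw [Real.rpow_def_of_pos hM0, ← hT]; ring_nf
  have hex : ∃ j, Λ ≤ pp b j :=
    ⟨⌈Λ⌉₊, (Nat.le_ceil _).trans ((le_qq hb2 _).trans (qq_le_pp hb2 _))⟩
  obtain ⟨n, hn⟩ : ∃ n, n = Nat.find hex := ⟨_, rfl⟩
  have n1 : Λ ≤ pp b n := hn ▸ Nat.find_spec hex
  have n2 : ∀ i < n, ¬ Λ ≤ pp b i := fun i hi => Nat.find_min hex (hn ▸ hi)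
  have n3 : 1 ≤ n := by
    rcases Nat.eq_zero_or_pos n with rfl | h
    · rw [pp, qq_zero] at n1; linarith
    · exact h
  have n4 : pp b n ^ 3 ≤ c * T := by
    obtain ⟨m, rfl⟩ : ∃ m, n = m + 1 := ⟨n - 1, by omega⟩
    have a1 := not_le.1 (n2 m (by omega))
    rw [pp_succ, ← pow_mul]
    exact (pow_le_pow_left₀ (by linarith [pp_ge hb2 m]) a1.le _).trans t3
  have hpn := pp_ge hb2 n
  have n5 : c * T ≤ T := by nlinarith
  have n6 : pp b n ^ 2 ≤ pp b n ^ 3 := pow_le_pow_right₀ (by linarith) (by norm_num)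
  have n7 : (n : ℝ) ≤ T := by
    have := (le_qq hb2 n).trans (qq_le_pp hb2 n)
    nlinarith
  rw [hMc] at hP0 ⊢
  have hS := sys (Q0 := Q0) (n := n) hC hb200 hbC (t6.trans hP0) hL0
    ((Real.exp_le_exp.2 (n6.trans n4)).trans hP0)
  obtain ⟨J, hJ⟩ : ∃ J, J = insert 0 (Icc 1 n) := ⟨_, rfl⟩
  refine ⟨J, PF b P0, QF b Q0, by rw [hJ]; exact mem_insert_self _ _, PF_zero _ _, QF_zero _ _,
    hJ ▸ hS, by rw [hJ]; exact (prodQ hb2 Q0 n).trans (Real.exp_le_exp.2 n4), fun N hN hNM => ?_⟩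
  rw [← hJ] at hS
  have hJm : ∀ j ∈ Icc 1 n, j ∈ J := fun j hj => by rw [hJ]; exact mem_insert_of_mem hj
  have hNM' : (N : ℝ) ≤ M := hNM.trans (div_le_self hM0.le hK'1)
  have hQM : ∀ j ∈ Icc 1 n, Real.exp (pp b j ^ 2) ≤ M := fun j hj => by
    rw [hMT, Real.exp_le_exp]
    exact (pow_le_pow_left₀ (by linarith [pp_ge hb2 j]) (pp_mono hb2 (mem_Icc.1 hj).2) 2).trans
      (n6.trans (n4.trans n5))
  refine ⟨(Icc (-(N : ℤ)) N).filter fun k => ¬ good b c n k, filter_subset _ _, ?_, ?_⟩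
  · have a1 := U_card hK30 hK3 hb2 hc (T := T) (n := n) hN (hMT ▸ hNM') (n4.trans n5) (hΛ ▸ n1)
    calc _ ≤ _ := a1
      _ ≤ Real.exp (c / 4 * T) * Real.exp (3 * c / 4 * T) :=
          mul_le_mul_of_nonneg_right t5 (Real.exp_pos _).le
      _ = _ := by rw [← Real.exp_add]; ring_nf
  obtain ⟨P, hP⟩ : ∃ P, P = PF b P0 := ⟨_, rfl⟩
  obtain ⟨Q, hQ⟩ : ∃ Q, Q = QF b Q0 := ⟨_, rfl⟩
  have hsL := sum_inv_LL hC hb2 hbC P0 Q0 n
  rw [← hP, ← hQ] at hS hsL ⊢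
  have hE : ∑ j ∈ Icc 1 n, ∑ k ∈ Icc (-(N : ℤ)) N, EE b J P Q M j k ≤ |KD| * M ^ 2 * (4 * θ) := by
    calc _ ≤ ∑ j ∈ Icc 1 n, |KD| * M ^ 2 *
          (2 * (1 / qq b j) + 1 / K' * (1 / LL (P j) (Q j)) + M ^ (-(1 / 4) : ℝ)) :=
          sum_le_sum fun j hj => E_bound hKD hb2 hS (hJm j hj)
            (by rw [hP, PF_pos _ _ (mem_Icc.1 hj).1]) (by rw [hQ, QF_pos _ _ (mem_Icc.1 hj).1])
            hM0 hK'1 hN hNM
      _ = |KD| * M ^ 2 * (2 * ∑ j ∈ Icc 1 n, 1 / qq b j +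
            1 / K' * ∑ j ∈ Icc 1 n, 1 / LL (P j) (Q j) + n * Real.exp (-(T / 4))) := by
          rw [← mul_sum, sum_add_distrib, sum_add_distrib, ← mul_sum, ← mul_sum, sum_const,
            Nat.card_Icc, nsmul_eq_mul, hM4]
          simp
      _ ≤ _ := by
          refine mul_le_mul_of_nonneg_left ?_ (by positivity)
          have a1 := sum_inv_qq hb2 n
          have a2 : 1 / K' * ∑ j ∈ Icc 1 n, 1 / LL (P j) (Q j) ≤ 1 / K' * 1 :=
            mul_le_mul_of_nonneg_left hsL (by positivity)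
          have a3 : n * Real.exp (-(T / 4)) ≤ T * Real.exp (-(T / 4)) :=
            mul_le_mul_of_nonneg_right n7 (Real.exp_pos _).le
          linarith
  have hG : ∑ j ∈ Icc 1 n, ∑ k ∈ Icc (-(N : ℤ)) N, GG b c J P Q M j k ≤
      (2 * K1 + K2) * M ^ 2 * θ := by
    have hz : 0 ≤ K1 * M ^ 2 * (2 * θ) := by positivity
    calc _ ≤ ∑ j ∈ Icc 1 n, (K2 * M ^ 2 * (1 / qq b j) +
          if j = 1 then K1 * M ^ 2 * (2 * θ) else 0) := by
          refine sum_le_sum fun j hj => ?_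
          split_ifs with hj1
          · subst hj1
            have a1 := G_one hK10 hK1 hb2 hc hbc hS (by linarith : 0 < K') hN hNM (hQM 1 hj)
            rw [← hD] at a1
            have a2 : K1 * M ^ 2 * (D / K' + 1 / b) ≤ K1 * M ^ 2 * (2 * θ) :=
              mul_le_mul_of_nonneg_left (by linarith) (by positivity)
            have a3 : 0 < qq b 1 := by linarith [qq_ge_b hb2 1]
            have a4 : 0 ≤ K2 * M ^ 2 * (1 / qq b 1) := by positivity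
            linarith
          · obtain ⟨i, rfl⟩ : ∃ i, j = i + 1 := ⟨j - 1, by have := (mem_Icc.1 hj).1; omega⟩
            rw [add_zero]
            exact G_succ hK20 hK2 (by linarith) hc hc1 hbc hS hN hNM' (by omega) (hQM _ hj)
      _ = K2 * M ^ 2 * ∑ j ∈ Icc 1 n, 1 / qq b j + K1 * M ^ 2 * (2 * θ) := by
          rw [sum_add_distrib, ← mul_sum, sum_ite_eq', if_pos (mem_Icc.2 ⟨le_rfl, n3⟩)]
      _ ≤ K2 * M ^ 2 * θ + K1 * M ^ 2 * (2 * θ) := by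
          have := (sum_inv_qq hb2 n).trans hbθ
          gcongr
      _ = _ := by ring
  have hF : ∀ k, 0 ≤ ∑ j ∈ Icc 1 n, (2 * EE b J P Q M j k + 2 * GG b c J P Q M j k) := fun k =>
    sum_nonneg fun j _ => add_nonneg (mul_nonneg (by norm_num) (sq_nonneg _))
      (mul_nonneg (by norm_num) (GG_nonneg _ _ _ _ _ _ _ _))
  calc _ ≤ ∑ k ∈ Icc (-(N : ℤ)) N \ (Icc (-(N : ℤ)) N).filter (fun k => ¬ good b c n k),
        ∑ j ∈ Icc 1 n, (2 * EE b J P Q M j k + 2 * GG b c J P Q M j k) := by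
        refine sum_le_sum fun k hk => pointwise hb2 M (fun j hj => hS.one_le j (hJm j hj))
          ⟨n, mem_Icc.2 ⟨n3, le_rfl⟩, ?_⟩
        rw [mem_sdiff, mem_filter] at hk
        by_contra hg
        exact hk.2 ⟨hk.1, hg⟩
    _ ≤ ∑ k ∈ Icc (-(N : ℤ)) N, ∑ j ∈ Icc 1 n, (2 * EE b J P Q M j k + 2 * GG b c J P Q M j k) :=
        sum_le_sum_of_subset_of_nonneg sdiff_subset fun k _ _ => hF k
    _ = 2 * ∑ j ∈ Icc 1 n, ∑ k ∈ Icc (-(N : ℤ)) N, EE b J P Q M j k +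
          2 * ∑ j ∈ Icc 1 n, ∑ k ∈ Icc (-(N : ℤ)) N, GG b c J P Q M j k := by
        rw [sum_comm]
        simp only [sum_add_distrib, ← mul_sum]
    _ ≤ (8 * |KD| + 4 * K1 + 2 * K2) * θ * M ^ 2 := by linarith
    _ ≤ η * M ^ 2 := by
        refine mul_le_mul_of_nonneg_right ?_ (sq_nonneg _)
        have : η = 16 * K * θ := by rw [hθ]; field_simp
        rw [this]
        exact mul_le_mul_of_nonneg_right (by linarith) hθ0.le

end M5

theorem M5 (h0 : MertensStmt) (h1 : MVTStmt) (h2 : MomStmt) (h3 : DecStmt) (h4 : RPStmt) :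
    ChainStmt := by
  intro c η hc hη
  obtain ⟨K', M0, a1, a2, a3⟩ := M5.chain h0 h1 h2 h3 h4 (c := min c 1) (lt_min hc one_pos)
    (min_le_right _ _) hη
  refine ⟨K', M0, a1, fun M P0 Q0 hM hP hL => ?_⟩
  have hc' : M ^ min c 1 ≤ M ^ c := Real.rpow_le_rpow_of_exponent_le (a2.trans hM) (min_le_left _ _)
  obtain ⟨J, P, Q, b1, b2, b3, b4, b5, b6⟩ := a3 M P0 Q0 hM (hc'.trans hP) hL
  refine ⟨J, P, Q, b1, b2, b3, b4, b5.trans hc', fun N hN hNM => ?_⟩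
  obtain ⟨U, u1, u2, u3⟩ := b6 N hN hNM
  exact ⟨U, u1, u2.trans hc', u3⟩

end Pool.Agent.Lib.LQ
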