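import Pool.Agent.Lib.LQ.Basic

/-! Block M6: the Halasz-Montgomery inequality for the weighted ring. -/

set_option autoImplicit false

open Finset
open scoped Classical

noncomputable section

namespace Pool.Agent.Lib.LQ

open Pool.Agent.Lib.MP_de94cf_nt (gg det inn)

namespace M6

lemma dual {R R' : Finset GI} (hR : R' ⊆ R) (h0 : ∀ α ∈ R, α ≠ 0) {w ν g : GI → ℝ}
    (hw : ∀ α ∈ R', 0 ≤ w α ∧ w α ≤ ν α) (hν : ∀ α ∈ R, 0 ≤ ν α) (hg : ∀ α, |g α| ≤ 1)
    (U : Finset ℤ) {B : ℝ} (hB0 : 0 ≤ B)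
    (hB : ∀ k ∈ U, ∀ k' ∈ U, k ≠ k' → ‖∑ α ∈ R, (ν α : ℂ) * ek (k - k') α‖ ≤ B) :
    ∑ k ∈ U, ‖∑ α ∈ R', ((g α * w α : ℝ) : ℂ) * ek k α‖ ^ 2
      ≤ (∑ α ∈ R', w α) * (∑ α ∈ R, ν α + U.card * B) := by
  set a : ℤ → ℂ := fun k => ∑ α ∈ R', ((g α * w α : ℝ) : ℂ) * ek k α with ha
  set S := ∑ k ∈ U, ‖a k‖ ^ 2 with hS
  let b : GI → ℂ := fun β => ∑ k ∈ U, (starRingEnd ℂ) (a k) * ek k β
  have hW : 0 ≤ ∑ α ∈ R', w α := sum_nonneg fun α h => (hw α h).1
  have hN : 0 ≤ ∑ α ∈ R, ν α := sum_nonneg hν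
  have hS0 : 0 ≤ S := sum_nonneg fun _ _ => by positivity
  have e1 : (S : ℂ) = ∑ β ∈ R', ((g β * w β : ℝ) : ℂ) * b β := by
    simp only [b, mul_sum]
    rw [sum_comm, hS, Complex.ofReal_sum]
    refine sum_congr rfl fun k _ => ?_
    rw [Complex.ofReal_pow, ← Complex.conj_mul']
    conv_lhs => rw [show a k = ∑ α ∈ R', ((g α * w α : ℝ) : ℂ) * ek k α from rfl, mul_sum]
    exact sum_congr rfl fun β _ => by ring
  have e2 : S ≤ ∑ β ∈ R', w β * ‖b β‖ := by
    have : S = ‖(S : ℂ)‖ := by rw [Complex.norm_real, Real.norm_of_nonneg hS0]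
    rw [this, e1]
    refine (norm_sum_le _ _).trans (sum_le_sum fun β h => ?_)
    rw [norm_mul, Complex.norm_real, Real.norm_eq_abs, abs_mul, abs_of_nonneg (hw β h).1]
    exact mul_le_mul_of_nonneg_right (mul_le_of_le_one_left (hw β h).1 (hg β)) (norm_nonneg _)
  have e3 : (∑ β ∈ R', w β * ‖b β‖) ^ 2 ≤ (∑ β ∈ R', w β) * ∑ β ∈ R', w β * ‖b β‖ ^ 2 :=
    sum_sq_le_sum_mul_sum_of_sq_le_mul _ (fun β h => (hw β h).1)
      (fun β h => mul_nonneg (hw β h).1 (by positivity)) fun β _ => le_of_eq (by ring)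
  have e4 : ∑ β ∈ R', w β * ‖b β‖ ^ 2 ≤ ∑ β ∈ R, ν β * ‖b β‖ ^ 2 :=
    (sum_le_sum fun β h => mul_le_mul_of_nonneg_right (hw β h).2 (by positivity)).trans
      (sum_le_sum_of_subset_of_nonneg hR fun β h _ => mul_nonneg (hν β h) (by positivity))
  have e5 : ((∑ β ∈ R, ν β * ‖b β‖ ^ 2 : ℝ) : ℂ) = ∑ k ∈ U, ∑ k' ∈ U,
      (starRingEnd ℂ) (a k) * a k' * ∑ α ∈ R, (ν α : ℂ) * ek (k - k') α := by
    simp only [mul_sum]
    rw [Complex.ofReal_sum, sum_congr rfl fun k _ => sum_comm, sum_comm (s := U)]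
    refine sum_congr rfl fun β h => ?_
    rw [Complex.ofReal_mul, Complex.ofReal_pow, ← Complex.mul_conj']
    simp only [b, map_sum, sum_mul_sum]
    simp only [mul_sum]
    refine sum_congr rfl fun k _ => sum_congr rfl fun k' _ => ?_
    rw [sub_eq_add_neg, ek_add (h0 β h), ek_neg (h0 β h), map_mul, Complex.conj_conj]
    ring
  have e6 : ∑ β ∈ R, ν β * ‖b β‖ ^ 2 ≤ S * (∑ α ∈ R, ν α + U.card * B) := by
    refine (le_abs_self _).trans ?_
    rw [← Real.norm_eq_abs, ← Complex.norm_real, e5]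
    have h1 : ∀ k ∈ U, ∀ k' ∈ U,
        ‖(starRingEnd ℂ) (a k) * a k' * ∑ α ∈ R, (ν α : ℂ) * ek (k - k') α‖ ≤
        (if k = k' then ‖a k‖ ^ 2 * ∑ α ∈ R, ν α else 0)
          + (‖a k‖ ^ 2 * (B / 2) + ‖a k'‖ ^ 2 * (B / 2)) := by
      intro k hk k' hk'
      rw [norm_mul, norm_mul, Complex.norm_conj]
      split_ifs with h
      · subst h
        simp only [sub_self, ek_zero, mul_one]
        rw [← Complex.ofReal_sum, Complex.norm_real, Real.norm_of_nonneg hN]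
        have : 0 ≤ ‖a k‖ ^ 2 * (B / 2) := by positivity
        nlinarith
      · have h2 := mul_le_mul_of_nonneg_left (hB k hk k' hk' h)
          (mul_nonneg (norm_nonneg (a k)) (norm_nonneg (a k')))
        nlinarith [mul_nonneg (sq_nonneg (‖a k‖ - ‖a k'‖)) hB0]
    refine (norm_sum_le _ _).trans ((sum_le_sum fun k hk => (norm_sum_le _ _).trans
      (sum_le_sum fun k' hk' => h1 k hk k' hk')).trans (le_of_eq ?_))
    simp only [sum_add_distrib, sum_ite_eq, sum_const, nsmul_eq_mul, ← sum_mul, ← mul_sum]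
    rw [sum_congr rfl fun k hk => if_pos hk, ← sum_mul, ← hS]
    ring
  have e7 : S * S ≤ S * ((∑ α ∈ R', w α) * (∑ α ∈ R, ν α + U.card * B)) := by
    have := mul_le_mul_of_nonneg_left (e4.trans e6) hW
    nlinarith
  rcases hS0.eq_or_lt with h | h
  · rw [← h]; positivity
  · exact le_of_mul_le_mul_left e7 h

/-- bounds for twisted sums over multiples -/
def Phi (R : Finset GI) (e : GI → ℂ) (F : GI → ℝ) (B L : ℝ) : Prop :=
  ∀ D : GI, D ≠ 0 → (nm D : ℝ) ≤ L → ‖∑ α ∈ R, ((F α * ind (D ∣ α) : ℝ) : ℂ) * e α‖ ≤ B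

lemma Phi.mul {R : Finset GI} {e : GI → ℂ} {F : GI → ℝ} {B L : ℝ} (h : Phi R e F B L)
    (hB : 0 ≤ B) {T : Finset GI} {c : GI → ℝ} {m l : ℝ} (hl : 0 < l)
    (hT : ∀ t ∈ T, t ≠ 0 ∧ (nm t : ℝ) ≤ l) (hm : ∑ t ∈ T, |c t| ≤ m) :
    Phi R e (fun α => F α * ∑ t ∈ T, c t * ind (t ∣ α)) (B * m) (L / l) := by
  intro D hD hL
  have e1 : ∑ α ∈ R, ((F α * (∑ t ∈ T, c t * ind (t ∣ α)) * ind (D ∣ α) : ℝ) : ℂ) * e α
      = ∑ t ∈ T, (c t : ℂ) *
        ∑ α ∈ R, ((F α * ind (EuclideanDomain.lcm D t ∣ α) : ℝ) : ℂ) * e α := by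
    simp only [mul_sum, sum_mul, Complex.ofReal_sum]
    rw [sum_comm]
    refine sum_congr rfl fun t _ => sum_congr rfl fun α _ => ?_
    rw [EuclideanDomain.lcm_dvd_iff, ind_and]
    push_cast
    ring
  rw [e1]
  refine (norm_sum_le _ _).trans (le_trans (sum_le_sum fun t ht => ?_)
    ((mul_sum T (fun t => |c t|) B).symm.le.trans (mul_le_mul_of_nonneg_left hm hB)))
  rw [norm_mul, Complex.norm_real, Real.norm_eq_abs, mul_comm]
  have h1 : D * t ≠ 0 := mul_ne_zero hD (hT t ht).1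
  have h2 : EuclideanDomain.lcm D t ∣ D * t :=
    EuclideanDomain.lcm_dvd (dvd_mul_right _ _) (dvd_mul_left _ _)
  refine mul_le_mul_of_nonneg_right (h _ (ne_zero_of_dvd_ne_zero h1 h2) ?_) (abs_nonneg _)
  have h3 : (nm (EuclideanDomain.lcm D t) : ℝ) ≤ nm D * nm t := by
    have := Nat.le_of_dvd (Nat.pos_of_ne_zero fun h => h1 (nm_eq_zero.1 h)) (nm_dvd h2)
    rw [nm_mul] at this
    exact_mod_cast this
  rw [le_div_iff₀ hl] at hL
  exact h3.trans ((mul_le_mul_of_nonneg_left (hT t ht).2 (Nat.cast_nonneg _)).trans hL)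

lemma Phi.prod {R : Finset GI} {e : GI → ℂ} {F : GI → ℝ} {B L : ℝ} (h : Phi R e F B L)
    (hB : 0 ≤ B) (s : Finset ℕ) {T : ℕ → Finset GI} {c : ℕ → GI → ℝ} {m l : ℕ → ℝ}
    (hl : ∀ i ∈ s, 0 < l i) (hT : ∀ i ∈ s, ∀ t ∈ T i, t ≠ 0 ∧ (nm t : ℝ) ≤ l i)
    (hm : ∀ i ∈ s, ∑ t ∈ T i, |c i t| ≤ m i) :
    Phi R e (fun α => F α * ∏ i ∈ s, ∑ t ∈ T i, c i t * ind (t ∣ α)) (B * ∏ i ∈ s, m i)
      (L / ∏ i ∈ s, l i) := by
  induction s using Finset.induction_on with
  | empty => simpa using h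
  | insert i s hi ih =>
    have h1 := (ih (fun j hj => hl j (mem_insert_of_mem hj)) (fun j hj => hT j (mem_insert_of_mem hj))
      fun j hj => hm j (mem_insert_of_mem hj)).mul
      (mul_nonneg hB (prod_nonneg fun j hj => (sum_nonneg fun _ _ => abs_nonneg _).trans
        (hm j (mem_insert_of_mem hj)))) (hl i (mem_insert_self _ _)) (hT i (mem_insert_self _ _))
      (hm i (mem_insert_self _ _))
    simp only [prod_insert hi, mul_comm (m i), mul_comm (l i),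
      mul_comm (∑ t ∈ T i, c i t * ind (t ∣ _)), ← mul_assoc, ← div_div]
    exact h1

lemma sum_mult (κ : ℤ) (t : ℝ) {D : GI} (hD : D ≠ 0) :
    ∑ α ∈ disc t, ((1 * ind (D ∣ α) : ℝ) : ℂ) * ek κ α
      = ek κ D * ∑ β ∈ disc (t / nm D), ek κ β := by
  have h0 : (0 : ℝ) < nm D := by exact_mod_cast Nat.pos_of_ne_zero fun h => hD (nm_eq_zero.1 h)
  have e : (disc t).filter (D ∣ ·) = (disc (t / nm D)).image (D * ·) := by
    ext α
    simp only [mem_filter, mem_image, mem_disc, le_div_iff₀ h0]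
    constructor
    · rintro ⟨h, β, rfl⟩
      exact ⟨β, by rwa [nm_mul, Nat.cast_mul, mul_comm] at h, rfl⟩
    · rintro ⟨β, h, rfl⟩
      exact ⟨by rwa [nm_mul, Nat.cast_mul, mul_comm], dvd_mul_right _ _⟩
  rw [mul_sum, ← sum_congr rfl fun β _ => ek_mul κ D β,
    ← sum_image (f := ek κ) fun a _ b _ h => mul_left_cancel₀ hD h, ← e, sum_filter]
  refine sum_congr rfl fun α _ => ?_
  split_ifs with h
  · rw [ind_true h]; simp
  · rw [ind_false h]; simp

lemma base {c K : ℝ} (hc : c ≤ 1 / 2) (hc0 : 0 < c) (hK : 0 ≤ K)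
    (h : ∀ (y : ℝ) (κ : ℤ), 1 ≤ y → κ ≠ 0 → (|κ| : ℝ) ≤ y ^ 5 →
      ‖∑ α ∈ disc y, ek κ α‖ ≤ K * y ^ (1 - c)) {y : ℝ} (hy : 4 ≤ y) {κ : ℤ} (hκ : κ ≠ 0)
    (hκ' : (|κ| : ℝ) ≤ 2 * y ^ 2) :
    Phi (disc (4 * y) \ disc y) (ek κ) (fun _ => 1) (8 * K * y ^ (1 - c)) (Real.sqrt y) := by
  intro D hD hL
  have h0 : (1 : ℝ) ≤ nm D := by exact_mod_cast Nat.pos_of_ne_zero fun h => hD (nm_eq_zero.1 h)
  have hs : Real.sqrt y * Real.sqrt y = y := Real.mul_self_sqrt (by linarith)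
  have hs2 : 2 ≤ Real.sqrt y := Real.le_sqrt_of_sq_le (by linarith)
  have key : ∀ t, y ≤ t → t ≤ 4 * y →
      ‖∑ α ∈ disc t, ((1 * ind (D ∣ α) : ℝ) : ℂ) * ek κ α‖ ≤ 4 * K * y ^ (1 - c) := by
    intro t h1 h2
    have h3 : Real.sqrt y ≤ t / nm D := by
      rw [le_div_iff₀ (by linarith)]
      nlinarith
    have h4 : t / nm D ≤ 4 * y := (div_le_self (by linarith) h0).trans h2
    rw [sum_mult κ t hD, norm_mul, norm_ek hD, one_mul]
    refine (h _ κ (by linarith) hκ (hκ'.trans ?_)).trans ?_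
    · calc 2 * y ^ 2 ≤ Real.sqrt y * (Real.sqrt y * Real.sqrt y) ^ 2 := by rw [hs]; gcongr
        _ = Real.sqrt y ^ 5 := by ring
        _ ≤ _ := by gcongr
    · calc K * (t / nm D) ^ (1 - c) ≤ K * (4 * y) ^ (1 - c) :=
            mul_le_mul_of_nonneg_left (Real.rpow_le_rpow (by linarith) h4 (by linarith)) hK
        _ = K * (4 ^ (1 - c) * y ^ (1 - c)) := by rw [Real.mul_rpow (by norm_num) (by linarith)]
        _ ≤ K * (4 ^ (1 : ℝ) * y ^ (1 - c)) := by
            gcongr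
            · norm_num
            · linarith
        _ = _ := by rw [Real.rpow_one]; ring
  rw [sum_sdiff_eq_sub fun α hα => mem_disc.2 ((mem_disc.1 hα).trans (by linarith))]
  refine (norm_sub_le _ _).trans ?_
  linarith [key y le_rfl (by linarith), key (4 * y) (by linarith) le_rfl]

/-- the indicator of having no small integer divisor -/
def chi (n : ℕ) (α : GI) : ℝ := ∏ i ∈ Icc 2 n, (1 - ind ((i : GI) ∣ α))

lemma chi_nonneg (n : ℕ) (α : GI) : 0 ≤ chi n α :=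
  prod_nonneg fun _ _ => sub_nonneg.2 (ind_le_one _)

lemma chi_prim (n : ℕ) {α : GI} (h : cont α = 1) : chi n α = 1 :=
  prod_eq_one fun i hi => by
    rw [ind_false, sub_zero]
    rw [natCast_dvd_iff, h, Nat.dvd_one]
    have := (mem_Icc.1 hi).1
    omega

lemma card_GH {P Q : ℝ} (hQ : 0 ≤ Q) : ((GH P Q).card : ℝ) ≤ Q := by
  have h1 := sum_GH P Q fun _ => 1
  simp only [sum_const, nsmul_eq_mul, mul_one] at h1
  have h2 : (PP P Q).card ≤ (Icc 1 ⌊Q⌋₊).card := card_le_card fun l hl =>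
    mem_Icc.2 ⟨(mem_PP.1 hl).1.one_le, Nat.le_floor (mem_PP.1 hl).2.2.2⟩
  rw [Nat.card_Icc, Nat.add_sub_cancel] at h2
  rw [h1]
  exact (Nat.cast_le.2 h2).trans (Nat.floor_le hQ)

lemma Q_pos {J : Finset ℕ} {P Q : ℕ → ℝ} (h : Sys J P Q) {j : ℕ} (hj : j ∈ J) : 0 < Q j := by
  have h1 := h.one_le j hj
  obtain ⟨π, hπ⟩ : (GH (P j) (Q j)).Nonempty := by
    rw [nonempty_iff_ne_empty]
    intro h'
    rw [LL, h', sum_empty] at h1
    linarith
  have := mem_PP.1 (mem_GF.1 (mem_GH.1 hπ).1).1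
  linarith [h.pos j hj, this.2.2.1, this.2.2.2]

lemma nuhat {R : Finset GI} {e : GI → ℂ} {B L : ℝ} (h : Phi R e (fun _ => 1) B L) (hB : 0 ≤ B)
    {J : Finset ℕ} {P Q : ℕ → ℝ} (hS : Sys J P Q) (n : ℕ)
    (hL : (∏ j ∈ J, Q j) * ∏ i ∈ Icc 2 n, (i : ℝ) ^ 2 ≤ L) :
    ‖∑ α ∈ R, ((wt J P Q α * chi n α : ℝ) : ℂ) * e α‖ ≤ B * (∏ j ∈ J, Q j) * 2 ^ n := by
  have hQ : 0 < ∏ j ∈ J, Q j := prod_pos fun j hj => Q_pos hS hj
  have hi : ∀ i ∈ Icc 2 n, (2 : ℝ) ≤ i := fun i hi => by exact_mod_cast (mem_Icc.1 hi).1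
  have hne : ∀ i ∈ Icc 2 n, (1 : GI) ≠ i := fun i hi h => by
    have h1 := congrArg nm h
    have := (mem_Icc.1 hi).1
    rw [nm_one, nm_natCast] at h1
    nlinarith
  have h1 := h.prod hB J (T := fun j => GH (P j) (Q j)) (c := fun j _ => 1 / LL (P j) (Q j))
    (m := Q) (l := Q) (fun j hj => Q_pos hS hj)
    (fun j _ t ht => ⟨(GF_prime (mem_GH.1 ht).1).ne_zero,
      (mem_PP.1 (mem_GF.1 (mem_GH.1 ht).1).1).2.2.2⟩) fun j hj => by
      have := hS.one_le j hj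
      rw [sum_const, nsmul_eq_mul, abs_of_nonneg (by positivity)]
      exact (mul_le_of_le_one_right (Nat.cast_nonneg _) ((div_le_one (by linarith)).2 this)).trans
        (card_GH (Q_pos hS hj).le)
  have h2 := h1.prod (by positivity) (Icc 2 n) (T := fun i => {1, (i : GI)})
    (c := fun _ t => if t = 1 then 1 else -1) (m := fun _ => 2) (l := fun i => (i : ℝ) ^ 2)
    (fun i h => by have := hi i h; positivity)
    (fun i h t ht => by
      have := hi i h
      rcases mem_insert.1 ht with rfl | ht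
      · exact ⟨one_ne_zero, by rw [nm_one]; push_cast; nlinarith⟩
      · rw [mem_singleton.1 ht, nm_natCast]
        exact ⟨by exact_mod_cast (by have := (mem_Icc.1 h).1; omega : i ≠ 0), by push_cast; rfl⟩)
    fun i h => by
      rw [sum_pair (hne i h), if_pos rfl, if_neg (hne i h).symm]
      norm_num
  have h3 := h2 1 one_ne_zero (by
    rw [nm_one, Nat.cast_one, div_div, one_le_div₀ (mul_pos hQ (prod_pos fun i h => by
      have := hi i h; positivity))]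
    exact hL)
  refine le_trans (le_of_eq ?_) (h3.trans ?_)
  · refine congrArg _ (sum_congr rfl fun α _ => ?_)
    beta_reduce
    rw [ind_true (one_dvd α), mul_one, one_mul, wt, chi]
    congr 3
    · refine prod_congr rfl fun j _ => ?_
      rw [← mul_sum, sum_ind]
      ring
    · refine prod_congr rfl fun i h => ?_
      rw [sum_pair (hne i h), if_pos rfl, if_neg (hne i h).symm, ind_true (one_dvd α)]
      ring
  · rw [prod_const, Nat.card_Icc]
    exact mul_le_mul_of_nonneg_left (pow_le_pow_right₀ one_le_two (by omega)) (by positivity)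

lemma sum_nu {J : Finset ℕ} {P Q : ℕ → ℝ} {y K : ℝ} (hy : 0 < y) {n : ℕ} (hn : 1 ≤ n) {t : ℝ}
    (ht : 0 < t) (h : ∑ α ∈ (disc (4 * y)).erase 0, wt J P Q α ^ 2 ≤ K * (4 * y)) :
    ∑ α ∈ disc (4 * y) \ disc y, wt J P Q α * chi n α
      ≤ Wsum J P Q y + (t * (K * (4 * y)) + 64 * y / n / t) := by
  set R := disc (4 * y) \ disc y with hR
  have hsub : R ⊆ (disc (4 * y)).erase 0 := fun α hα => mem_erase.2 ⟨fun h0 => by
    subst h0
    exact (mem_sdiff.1 hα).2 (mem_disc.2 (by rw [nm_eq_zero.2 rfl]; simpa using hy.le)),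
    (mem_sdiff.1 hα).1⟩
  have h1 : ∀ α ∈ R, wt J P Q α * chi n α ≤ (if cont α = 1 then wt J P Q α else 0) +
      (t * wt J P Q α ^ 2 + (if n < cont α then 1 else 0) / t) := by
    intro α hα
    have hw := wt_nonneg J P Q α
    have hc : chi n α ≤ 1 := prod_le_one (fun _ _ => sub_nonneg.2 (ind_le_one _))
      fun _ _ => sub_le_self _ (ind_nonneg _)
    have h2 : wt J P Q α * chi n α ≤ wt J P Q α := mul_le_of_le_one_right hw hc
    have h3 : 0 ≤ t * wt J P Q α ^ 2 := by positivity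
    by_cases a1 : cont α = 1
    · have : 0 ≤ (if n < cont α then 1 else 0 : ℝ) / t := by split_ifs <;> positivity
      rw [if_pos a1]
      linarith
    rw [if_neg a1]
    by_cases a2 : n < cont α
    · rw [if_pos a2]
      have : t * wt J P Q α ^ 2 + 1 / t - 2 * wt J P Q α = (t * wt J P Q α - 1) ^ 2 / t := by
        field_simp
        ring
      have : 0 ≤ (t * wt J P Q α - 1) ^ 2 / t := by positivity
      linarith
    · have a3 : cont α ≠ 0 := fun h0 => (mem_erase.1 (hsub hα)).1 (by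
        simpa using natCast_dvd_iff.2 (h0 ▸ dvd_rfl : 0 ∣ cont α))
      have a4 : chi n α = 0 := prod_eq_zero (mem_Icc.2 ⟨by omega, not_lt.1 a2⟩)
        (by rw [ind_true (natCast_dvd_iff.2 dvd_rfl), sub_self])
      rw [a4, if_neg a2, zero_div]
      linarith
  refine (sum_le_sum h1).trans ?_
  simp only [sum_add_distrib, ← sum_filter, ← mul_sum, ← sum_div]
  refine add_le_add (le_of_eq ?_) (add_le_add (mul_le_mul_of_nonneg_left
    ((sum_le_sum_of_subset_of_nonneg hsub fun _ _ _ => by positivity).trans h) ht.le)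
    (div_le_div_of_nonneg_right ?_ ht.le))
  · refine sum_congr ?_ fun _ _ => rfl
    ext α
    simp only [hR, mem_filter, mem_sdiff, mem_disc, mem_ringP, not_le]
    tauto
  · set F := R.filter fun α => n < cont α
    have hn' : (1 : ℝ) ≤ n := by exact_mod_cast hn
    have h4 : ∀ i ∈ F.image cont, n < i := fun i hi => by
      obtain ⟨α, hα, rfl⟩ := mem_image.1 hi
      exact (mem_filter.1 hα).2
    rw [← sum_fiberwise_of_maps_to (t := F.image cont) (g := cont) fun α h => mem_image_of_mem _ h]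
    have h5 := sum_inv_sq_tail hn' (S := F.image cont) fun i hi => by exact_mod_cast h4 i hi
    refine le_trans (sum_le_sum fun i hi => ?_) (le_trans (mul_sum _ _ (32 * y)).symm.le
      ((mul_le_mul_of_nonneg_left h5 (by positivity)).trans (le_of_eq (by ring))))
    have h6 := card_mult_le (M := 4 * y) (by positivity) (d := (i : GI))
      (by exact_mod_cast (by have := h4 i hi; omega : i ≠ 0))
    rw [nm_natCast] at h6
    rw [sum_const, nsmul_eq_mul, mul_one]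
    refine le_trans (Nat.cast_le.2 (card_le_card fun α hα => ?_)) (h6.trans (le_of_eq ?_))
    · exact mem_filter.2 ⟨hsub (mem_filter.1 (mem_filter.1 hα).1).1,
        natCast_dvd_iff.2 ((mem_filter.1 hα).2 ▸ dvd_rfl)⟩
    · push_cast
      ring

end M6

open M6 in
theorem M6 (h1 : EXPStmt) (h2 : MomStmt) : HMStmt := by
  obtain ⟨c, K₀, hc0, hc, hE⟩ := h1 5
  obtain ⟨K₁, hM⟩ := h2
  set K := max (max K₀ K₁) 1 with hK
  have hK1 : 1 ≤ K := le_max_right _ _
  have hK0 : K₀ ≤ K := (le_max_left _ _).trans (le_max_left _ _)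
  have hK2 : K₁ ≤ K := (le_max_right _ _).trans (le_max_left _ _)
  refine ⟨c / 4, by positivity, fun η hη => ?_⟩
  set t := η / (48 * K ^ 2) with ht
  have ht0 : 0 < t := by positivity
  obtain ⟨n, hn⟩ := exists_nat_ge (max 1 (768 * K / (t * η)))
  have hn1 : (1 : ℝ) ≤ n := (le_max_left _ _).trans hn
  have hn2 : 768 * K / (t * η) ≤ n := (le_max_right _ _).trans hn
  have ev1 := (tendsto_rpow_atTop (y := 1 / 4) (by norm_num)).eventually_ge_atTop
    (∏ i ∈ Icc 2 n, (i : ℝ) ^ 2)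
  have ev2 := (tendsto_rpow_atTop (y := c / 2) (by positivity)).eventually_ge_atTop
    (96 * K ^ 2 * 2 ^ n / η)
  obtain ⟨y0, hy0⟩ := Filter.eventually_atTop.1 (ev1.and (ev2.and (Filter.eventually_ge_atTop 4)))
  refine ⟨y0, fun J P Q y U hS hy hQ hU hk => ?_⟩
  obtain ⟨a1, a2, a3⟩ := hy0 y hy
  have hy1 : 0 < y := by linarith
  have hQ0 : 0 < ∏ j ∈ J, Q j := prod_pos fun j hj => Q_pos hS hj
  have hsub : ringP y ⊆ disc (4 * y) \ disc y := fun α hα => mem_sdiff.2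
    ⟨mem_disc.2 (mem_ringP.1 hα).2.1, fun h => (mem_ringP.1 hα).1.not_ge (mem_disc.1 h)⟩
  have h0 : ∀ α ∈ disc (4 * y) \ disc y, α ≠ 0 := fun α hα h0 => by
    subst h0
    exact (mem_sdiff.1 hα).2 (mem_disc.2 (by rw [nm_eq_zero.2 rfl]; simpa using hy1.le))
  have hL : (∏ j ∈ J, Q j) * ∏ i ∈ Icc 2 n, (i : ℝ) ^ 2 ≤ Real.sqrt y :=
    calc _ ≤ y ^ (1 / 4 : ℝ) * y ^ (1 / 4 : ℝ) := mul_le_mul (hQ.trans
          (Real.rpow_le_rpow_of_exponent_le (by linarith) (by linarith))) a1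
          (prod_nonneg fun _ _ => by positivity) (by positivity)
      _ = _ := by rw [← Real.rpow_add hy1, Real.sqrt_eq_rpow]; norm_num
  have key := dual hsub h0 (w := wt J P Q) (ν := fun α => wt J P Q α * chi n α) (g := gr)
    (fun α hα => ⟨wt_nonneg _ _ _ _, by rw [chi_prim n (mem_ringP.1 hα).2.2, mul_one]⟩)
    (fun α _ => mul_nonneg (wt_nonneg _ _ _ _) (chi_nonneg _ _)) abs_gr_le U
    (B := 8 * K * y ^ (1 - c) * (∏ j ∈ J, Q j) * 2 ^ n) (by positivity) fun k hk1 k' hk2 hne =>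
      nuhat (base hc hc0 (by linarith) (fun y κ b1 b2 b3 => (hE y κ b1 b2 b3).trans
        (mul_le_mul_of_nonneg_right hK0 (by positivity))) a3 (sub_ne_zero.2 hne) (by
          have := abs_sub (k : ℝ) k'
          push_cast
          linarith [hk k hk1, hk k' hk2])) (by positivity) hS n hL
  have hM' : ∀ r ≤ 4, ∑ α ∈ (disc (4 * y)).erase 0, wt J P Q α ^ r ≤ K * (4 * y) := fun r hr =>
    (hM J P Q (4 * y) r hS (by positivity) hr).trans
      (mul_le_mul_of_nonneg_right hK2 (by positivity))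
  have b1 := sum_nu hy1 (n := n) (by exact_mod_cast hn1) ht0 (hM' 2 (by norm_num))
  have b2 : Wsum J P Q y ≤ K * (4 * y) := by
    refine le_trans ?_ (hM' 1 (by norm_num))
    simp only [pow_one]
    exact sum_le_sum_of_subset_of_nonneg (fun α hα => mem_erase.2 ⟨h0 α (hsub hα),
      (mem_sdiff.1 (hsub hα)).1⟩) fun _ _ _ => wt_nonneg _ _ _ _
  have b3 : 0 ≤ Wsum J P Q y := sum_nonneg fun _ _ => wt_nonneg _ _ _ _
  have b4 : t * (K * (4 * y)) = η * y / (12 * K) := by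
    rw [ht]
    field_simp
    ring
  have b5 : 64 * y / n / t ≤ η * y / (12 * K) := by
    rw [div_le_iff₀ (by positivity)] at hn2
    rw [div_div, div_le_div_iff₀ (by positivity) (by positivity)]
    nlinarith
  have b6 : U.card * (8 * K * y ^ (1 - c) * (∏ j ∈ J, Q j) * 2 ^ n) ≤ η * y / (12 * K) := by
    have e : y ^ (c / 4) * y ^ (c / 4) * y ^ (1 - c) * y ^ (c / 2) = y := by
      rw [← Real.rpow_add hy1, ← Real.rpow_add hy1, ← Real.rpow_add hy1]
      ring_nf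
      exact Real.rpow_one y
    rw [div_le_iff₀ hη] at a2
    rw [le_div_iff₀ (by positivity)]
    calc _ ≤ y ^ (c / 4) * (8 * K * y ^ (1 - c) * y ^ (c / 4) * 2 ^ n) * (12 * K) := by gcongr
      _ = y ^ (c / 4) * y ^ (c / 4) * y ^ (1 - c) * (96 * K ^ 2 * 2 ^ n) := by ring
      _ ≤ y ^ (c / 4) * y ^ (c / 4) * y ^ (1 - c) * (y ^ (c / 2) * η) := by gcongr
      _ = _ := by rw [← mul_assoc, e, mul_comm]
  refine key.trans ?_
  have b7 : K * (4 * y) * (3 * (η * y / (12 * K))) = η * y ^ 2 := by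
    field_simp
    ring
  have b8 : 0 ≤ η * y / (12 * K) := by positivity
  calc _ ≤ Wsum J P Q y * (Wsum J P Q y + 3 * (η * y / (12 * K))) :=
        mul_le_mul_of_nonneg_left (by linarith) b3
    _ ≤ _ := by nlinarith

end Pool.Agent.Lib.LQ
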