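import Pool.Agent.Lib.LQ.M8Aux2

/-! Block M8 of the project LQ: the Fejér kernel, far pairs and Farey triangles. -/

set_option autoImplicit false

open Finset
open scoped Classical

noncomputable section

namespace Pool.Agent.Lib.LQ

open Pool.Agent.Lib.MP_de94cf_nt (gg det inn)

namespace M8

/-- the relative direction of two points -/
def uu (α β : GI) : ℂ := ek 1 α * (starRingEnd ℂ) (ek 1 β)

/-- the unnormalised Fejér kernel -/
def Phi (n : ℕ) (α β : GI) : ℝ := ‖∑ j ∈ range n, uu α β ^ j‖ ^ 2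

lemma ek_nat (j : ℕ) (α : GI) : ek (j : ℤ) α = ek 1 α ^ j := by
  unfold ek
  rw [zpow_natCast, zpow_one]

lemma ek_sub {α : GI} (h : α ≠ 0) (j j' : ℕ) :
    ek ((j : ℤ) - j') α = ek 1 α ^ j * (starRingEnd ℂ) (ek 1 α) ^ j' := by
  rw [sub_eq_add_neg, ek_add h, ek_neg h, ek_nat, ek_nat, map_pow]

lemma normSq_eq (z : ℂ) : ((‖z‖ ^ 2 : ℝ) : ℂ) = z * (starRingEnd ℂ) z := by
  rw [Complex.mul_conj, Complex.normSq_eq_norm_sq]

lemma fejer (n : ℕ) (S : Finset GI) (hS : ∀ α ∈ S, α ≠ 0) (a : GI → ℝ) :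
    ∑ j ∈ range n, ∑ j' ∈ range n, ‖∑ α ∈ S, (a α : ℂ) * ek ((j : ℤ) - j') α‖ ^ 2 =
      ∑ α ∈ S, ∑ β ∈ S, a α * a β * Phi n α β := by
  apply Complex.ofReal_injective
  have h1 : ∀ j j' : ℕ, ((‖∑ α ∈ S, (a α : ℂ) * ek ((j : ℤ) - j') α‖ ^ 2 : ℝ) : ℂ) =
      ∑ α ∈ S, ∑ β ∈ S, (a α : ℂ) * (a β : ℂ) *
        (uu α β ^ j * (starRingEnd ℂ) (uu α β ^ j')) := by
    intro j j'
    rw [normSq_eq, map_sum, Finset.sum_mul_sum]
    refine Finset.sum_congr rfl fun α hα => Finset.sum_congr rfl fun β hβ => ?_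
    rw [ek_sub (hS α hα), ek_sub (hS β hβ)]
    simp only [uu, map_mul, map_pow, Complex.conj_ofReal, Complex.conj_conj, mul_pow]
    ring
  have h2 : ∀ α β : GI, ((a α * a β * Phi n α β : ℝ) : ℂ) =
      ∑ j ∈ range n, ∑ j' ∈ range n, (a α : ℂ) * (a β : ℂ) *
        (uu α β ^ j * (starRingEnd ℂ) (uu α β ^ j')) := by
    intro α β
    rw [Complex.ofReal_mul, Complex.ofReal_mul, Phi, normSq_eq, map_sum, Finset.sum_mul_sum,
      Finset.mul_sum]
    refine Finset.sum_congr rfl fun j _ => ?_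
    rw [Finset.mul_sum]
  simp only [Complex.ofReal_sum, h1, h2]
  calc ∑ j ∈ range n, ∑ j' ∈ range n, ∑ α ∈ S, ∑ β ∈ S, (a α : ℂ) * (a β : ℂ) *
        (uu α β ^ j * (starRingEnd ℂ) (uu α β ^ j'))
      = ∑ j ∈ range n, ∑ α ∈ S, ∑ β ∈ S, ∑ j' ∈ range n, (a α : ℂ) * (a β : ℂ) *
        (uu α β ^ j * (starRingEnd ℂ) (uu α β ^ j')) := by
        refine Finset.sum_congr rfl fun j _ => ?_
        rw [Finset.sum_comm]
        refine Finset.sum_congr rfl fun α _ => ?_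
        rw [Finset.sum_comm]
    _ = _ := by
        rw [Finset.sum_comm]
        refine Finset.sum_congr rfl fun α _ => ?_
        rw [Finset.sum_comm]

lemma norm_uu {α β : GI} (hα : α ≠ 0) (hβ : β ≠ 0) : ‖uu α β‖ = 1 := by
  rw [uu, norm_mul, Complex.norm_conj, norm_ek hα, norm_ek hβ, mul_one]

lemma Phi_nonneg (n : ℕ) (α β : GI) : 0 ≤ Phi n α β := sq_nonneg _

lemma Phi_le {α β : GI} (hα : α ≠ 0) (hβ : β ≠ 0) (n : ℕ) : Phi n α β ≤ (n : ℝ) ^ 2 := by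
  refine pow_le_pow_left₀ (norm_nonneg _) ((norm_sum_le _ _).trans (le_of_eq ?_)) 2
  simp [norm_pow, norm_uu hα hβ]

lemma im_uu {α β : GI} (hα : α ≠ 0) (hβ : β ≠ 0) :
    (uu α β).im * (‖(α : ℂ)‖ * ‖(β : ℂ)‖) = -(det α β : ℝ) := by
  have a1 : ‖(α : ℂ)‖ ≠ 0 := by
    intro h
    have := norm_sq_eq α
    rw [h] at this
    have h2 := nm_pos hα
    linarith [this]
  have b1 : ‖(β : ℂ)‖ ≠ 0 := by
    intro h
    have := norm_sq_eq β
    rw [h] at this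
    have h2 := nm_pos hβ
    linarith [this]
  have e : uu α β * ((‖(α : ℂ)‖ * ‖(β : ℂ)‖ : ℝ) : ℂ) = (α : ℂ) * (starRingEnd ℂ) (β : ℂ) := by
    have a2 : ((‖(α : ℂ)‖ : ℝ) : ℂ) ≠ 0 := by exact_mod_cast a1
    have b2 : ((‖(β : ℂ)‖ : ℝ) : ℂ) ≠ 0 := by exact_mod_cast b1
    simp only [uu, ek, zpow_one, map_div₀, Complex.conj_ofReal, Complex.ofReal_mul]
    field_simp
  have e2 := congrArg Complex.im e
  rw [Complex.im_mul_ofReal] at e2
  rw [e2, Complex.mul_im, Complex.conj_re, Complex.conj_im, ← GaussianInt.intCast_re,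
    ← GaussianInt.intCast_im, ← GaussianInt.intCast_re, ← GaussianInt.intCast_im]
  unfold det
  push_cast
  ring

lemma Phi_mul_le {α β : GI} (hα : α ≠ 0) (hβ : β ≠ 0) (n : ℕ) :
    Phi n α β * (det α β : ℝ) ^ 2 ≤ 4 * (nm α * nm β) := by
  have h1 : ‖∑ j ∈ range n, uu α β ^ j‖ * ‖uu α β - 1‖ ≤ 2 := by
    rw [← norm_mul, geom_sum_mul]
    refine (norm_sub_le _ _).trans (le_of_eq ?_)
    rw [norm_pow, norm_uu hα hβ]; norm_num
  have h2 : |(uu α β).im| ≤ ‖uu α β - 1‖ := by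
    have := Complex.abs_im_le_norm (uu α β - 1)
    simpa using this
  have h3 : ‖∑ j ∈ range n, uu α β ^ j‖ * |(uu α β).im| ≤ 2 :=
    (mul_le_mul_of_nonneg_left h2 (norm_nonneg _)).trans h1
  have h4 : Phi n α β * (uu α β).im ^ 2 ≤ 4 := by
    have := pow_le_pow_left₀ (by positivity) h3 2
    rw [mul_pow, sq_abs] at this
    unfold Phi
    linarith
  have h5 : (det α β : ℝ) ^ 2 = (uu α β).im ^ 2 * (nm α * nm β) := by
    rw [← norm_sq_eq, ← norm_sq_eq, ← neg_sq, ← im_uu hα hβ]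
    ring
  rw [h5, ← mul_assoc]
  exact mul_le_mul_of_nonneg_right h4 (by positivity)

/-- the tail kernel -/
def tl (K : ℕ) (j : ℤ) : ℝ := if (K : ℤ) < |j| then 1 / (j : ℝ) ^ 2 else 0

lemma tl_nonneg (K : ℕ) (j : ℤ) : 0 ≤ tl K j := by
  unfold tl; split_ifs <;> positivity

lemma tl_neg (K : ℕ) (j : ℤ) : tl K (-j) = tl K j := by
  unfold tl; simp

lemma sum_tl {K : ℕ} (hK : 1 ≤ K) (J : Finset ℤ) : ∑ j ∈ J, tl K j ≤ 4 / K := by
  have hK' : (1 : ℝ) ≤ K := by exact_mod_cast hK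
  have pos : ∀ T : Finset ℤ, (∀ j ∈ T, 0 ≤ j) → ∑ j ∈ T, tl K j ≤ 2 / K := by
    intro T hT
    have h1 : ∑ j ∈ T, tl K j = ∑ j ∈ T.filter (fun j => (K : ℤ) < |j|), 1 / (j : ℝ) ^ 2 := by
      rw [Finset.sum_filter]; rfl
    have h2 := sum_inv_sq_tail hK' (S := (T.filter fun j => (K : ℤ) < |j|).image Int.natAbs) (by
      intro l hl
      obtain ⟨j, hj, rfl⟩ := Finset.mem_image.mp hl
      have := (Finset.mem_filter.mp hj).2
      rw [← Int.natCast_natAbs] at this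
      exact_mod_cast this)
    rw [Finset.sum_image (by
      intro x hx y hy hxy
      have h3 := hT x (Finset.mem_filter.mp hx).1
      have h4 := hT y (Finset.mem_filter.mp hy).1
      omega)] at h2
    rw [h1]
    refine le_trans (le_of_eq (Finset.sum_congr rfl fun j _ => ?_)) h2
    rw [← Int.cast_natCast, Int.natCast_natAbs, Int.cast_abs, sq_abs]
  rw [← Finset.sum_filter_add_sum_filter_not J (fun j => 0 ≤ j)]
  have a1 := pos (J.filter fun j => 0 ≤ j) fun j hj => (Finset.mem_filter.mp hj).2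
  have a2 := pos ((J.filter fun j => ¬ 0 ≤ j).image fun j => -j) (by
    intro j hj
    obtain ⟨i, hi, rfl⟩ := Finset.mem_image.mp hj
    have := (Finset.mem_filter.mp hi).2
    omega)
  rw [Finset.sum_image (fun x _ y _ h => neg_injective h)] at a2
  simp only [tl_neg] at a2
  have : (4 : ℝ) / K = 2 / K + 2 / K := by ring
  linarith

/-- Schur test on the ring -/
lemma schur {M : ℝ} (hM : 0 < M) (f : ℤ → ℝ) (hf : ∀ j, 0 ≤ f j) (hs : ∀ j, f (-j) = f j) {B : ℝ}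
    (hB : ∀ J : Finset ℤ, ∑ j ∈ J, f j ≤ B) (a : GI → ℝ) :
    ∑ α ∈ ringP M, ∑ β ∈ ringP M, a α * a β * f (det α β) ≤ 5 * B * ∑ α ∈ ringP M, a α ^ 2 := by
  have hB0 : 0 ≤ B := by simpa using hB ∅
  have row : ∀ α ∈ ringP M, ∑ β ∈ ringP M, f (det α β) ≤ 5 * B := by
    intro α hα
    refine (fiber_sum (mem_ringP.mp hα).2.2 (by linarith) (ring_subset M) f hf).trans ?_
    exact mul_le_mul (ring_sqrt hM hα) (hB _) (Finset.sum_nonneg fun j _ => hf j) (by norm_num)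
  have h1 : ∑ α ∈ ringP M, ∑ β ∈ ringP M, a α ^ 2 * f (det α β) ≤
      5 * B * ∑ α ∈ ringP M, a α ^ 2 := by
    rw [Finset.mul_sum]
    refine Finset.sum_le_sum fun α hα => ?_
    rw [← Finset.mul_sum, mul_comm]
    exact mul_le_mul_of_nonneg_right (row α hα) (sq_nonneg _)
  have h2 : ∑ α ∈ ringP M, ∑ β ∈ ringP M, a β ^ 2 * f (det α β) =
      ∑ α ∈ ringP M, ∑ β ∈ ringP M, a α ^ 2 * f (det α β) := by
    rw [Finset.sum_comm]
    refine Finset.sum_congr rfl fun α _ => Finset.sum_congr rfl fun β _ => ?_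
    rw [det_swap α β, hs]
  have h3 : ∑ α ∈ ringP M, ∑ β ∈ ringP M, a α * a β * f (det α β) ≤
      ∑ α ∈ ringP M, ∑ β ∈ ringP M, (1 / 2 * (a α ^ 2 * f (det α β)) +
        1 / 2 * (a β ^ 2 * f (det α β))) := by
    refine Finset.sum_le_sum fun α _ => Finset.sum_le_sum fun β _ => ?_
    nlinarith [mul_nonneg (sq_nonneg (a α - a β)) (hf (det α β))]
  simp only [Finset.sum_add_distrib, ← Finset.mul_sum] at h3
  simp only [← Finset.mul_sum] at h1 h2
  linarith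

lemma ring_ne_zero {M : ℝ} {α : GI} (h : α ∈ ringP M) : α ≠ 0 :=
  ne_zero_of_cont (mem_ringP.mp h).2.2

/-- pointwise bound for the difference of the two quadratic forms -/
lemma point {M T : ℝ} (hM : 0 < M) (hT : 0 < T) (K n : ℕ) {α β : GI} (hα : α ∈ ringP M)
    (hβ : β ∈ ringP M) {x y : ℝ} (hx : 0 ≤ x) (hy : 0 ≤ y) :
    x * y * Phi n α β - gr α * x * (gr β * y) * Phi n α β ≤
      2 * (n : ℝ) ^ 2 * T * ind (|det α β| ≤ K ∧ gg α ≠ gg β) +
        2 * (n : ℝ) ^ 2 / T * (x ^ 2 * y ^ 2 * ind (|det α β| ≤ (K : ℤ))) +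
        128 * M ^ 2 * (x * y * tl K (det α β)) := by
  have a0 := ring_ne_zero hα
  have b0 := ring_ne_zero hβ
  have hP := Phi_nonneg n α β
  have hxy : 0 ≤ x * y := mul_nonneg hx hy
  have t1 : 0 ≤ 2 * (n : ℝ) ^ 2 * T * ind (|det α β| ≤ K ∧ gg α ≠ gg β) :=
    mul_nonneg (by positivity) (ind_nonneg _)
  have t2 : 0 ≤ 2 * (n : ℝ) ^ 2 / T * (x ^ 2 * y ^ 2 * ind (|det α β| ≤ (K : ℤ))) :=
    mul_nonneg (by positivity) (mul_nonneg (by positivity) (ind_nonneg _))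
  have t3 : 0 ≤ 128 * M ^ 2 * (x * y * tl K (det α β)) :=
    mul_nonneg (by positivity) (mul_nonneg hxy (tl_nonneg _ _))
  by_cases hg : gg α = gg β
  · have : gr α * gr β = 1 := by
      unfold gr
      rw [← hg]
      exact_mod_cast MP_de94cf_nt.gg_sq a0
    have e : x * y * Phi n α β - gr α * x * (gr β * y) * Phi n α β =
        (1 - gr α * gr β) * (x * y * Phi n α β) := by ring
    rw [e, this]
    linarith
  have hle : x * y * Phi n α β - gr α * x * (gr β * y) * Phi n α β ≤ 2 * (x * y * Phi n α β) := by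
    have h1 : |gr α * gr β| ≤ 1 := by
      rw [abs_mul]
      exact mul_le_one₀ (abs_gr_le α) (abs_nonneg _) (abs_gr_le β)
    have h2 := (abs_le.mp h1).1
    nlinarith [mul_nonneg hxy hP]
  refine hle.trans ?_
  by_cases hd : |det α β| ≤ (K : ℤ)
  · rw [ind_true (And.intro hd hg), ind_true hd]
    have h1 : x * y * Phi n α β ≤ x * y * (n : ℝ) ^ 2 :=
      mul_le_mul_of_nonneg_left (Phi_le a0 b0 n) hxy
    have h2 : x * y ≤ T + x ^ 2 * y ^ 2 / T := by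
      have : T + x ^ 2 * y ^ 2 / T - x * y = ((T - x * y) ^ 2 + T * (x * y)) / T := by
        field_simp; ring
      have h3 : 0 ≤ ((T - x * y) ^ 2 + T * (x * y)) / T := by positivity
      linarith
    have h3 := mul_le_mul_of_nonneg_right h2 (sq_nonneg (n : ℝ))
    have h4 : 2 * (n : ℝ) ^ 2 * T * 1 + 2 * (n : ℝ) ^ 2 / T * (x ^ 2 * y ^ 2 * 1) =
        2 * ((T + x ^ 2 * y ^ 2 / T) * (n : ℝ) ^ 2) := by ring
    linarith
  · have hlt : (K : ℤ) < |det α β| := not_le.mp hd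
    have hne : (det α β : ℝ) ≠ 0 := by
      have : det α β ≠ 0 := by
        intro h; rw [h] at hlt; simp at hlt; omega
      exact_mod_cast this
    have h1 := Phi_mul_le a0 b0 n
    have h2 : (nm α : ℝ) * nm β ≤ (4 * M) * (4 * M) :=
      mul_le_mul (mem_ringP.mp hα).2.1 (mem_ringP.mp hβ).2.1 (Nat.cast_nonneg _) (by linarith)
    have h3 : Phi n α β ≤ 64 * M ^ 2 * tl K (det α β) := by
      unfold tl
      rw [if_pos hlt, mul_one_div, le_div_iff₀ (by positivity)]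
      nlinarith
    have h4 := mul_le_mul_of_nonneg_left h3 hxy
    nlinarith

lemma diag_le (n : ℕ) (F : ℤ → ℝ) (hF : ∀ k, 0 ≤ F k) :
    (n : ℝ) * F 0 ≤ ∑ j ∈ range n, ∑ j' ∈ range n, F ((j : ℤ) - j') := by
  have : (n : ℝ) * F 0 = ∑ j ∈ range n, F ((j : ℤ) - j) := by simp
  rw [this]
  exact Finset.sum_le_sum fun j hj =>
    Finset.single_le_sum (f := fun j' : ℕ => F ((j : ℤ) - j')) (fun _ _ => hF _) hj

lemma le_full (N : ℕ) (F : ℤ → ℝ) (hF : ∀ k, 0 ≤ F k) :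
    ∑ j ∈ range (N + 1), ∑ j' ∈ range (N + 1), F ((j : ℤ) - j') ≤
      ((N + 1 : ℕ) : ℝ) * ∑ k ∈ Icc (-(N : ℤ)) N, F k := by
  have h : ∀ j ∈ range (N + 1), ∑ j' ∈ range (N + 1), F ((j : ℤ) - j') ≤
      ∑ k ∈ Icc (-(N : ℤ)) N, F k := by
    intro j hj
    rw [← Finset.sum_image (s := range (N + 1)) (g := fun j' : ℕ => (j : ℤ) - j') (f := F)
      (fun x _ y _ h => by simpa using h)]
    refine Finset.sum_le_sum_of_subset_of_nonneg ?_ fun _ _ _ => hF _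
    intro k hk
    obtain ⟨i, hi, rfl⟩ := Finset.mem_image.mp hk
    rw [Finset.mem_range] at hi hj
    rw [Finset.mem_Icc]
    omega
  refine (Finset.sum_le_sum h).trans (le_of_eq ?_)
  simp

lemma main_ineq {M T : ℝ} (hM : 0 < M) (hT : 0 < T) {K : ℕ} (hK : 1 ≤ K) (N : ℕ) (w : GI → ℝ)
    (hw : ∀ α, 0 ≤ w α) :
    ((N + 1 : ℕ) : ℝ) * (∑ α ∈ ringP M, w α) ^ 2 -
      ((N + 1 : ℕ) : ℝ) *
        ∑ k ∈ Icc (-(N : ℤ)) N, ‖∑ α ∈ ringP M, ((gr α * w α : ℝ) : ℂ) * ek k α‖ ^ 2 ≤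
      2 * ((N + 1 : ℕ) : ℝ) ^ 2 * T * (BadP M K).card +
        2 * ((N + 1 : ℕ) : ℝ) ^ 2 / T * (5 * (2 * K + 1) * ∑ α ∈ ringP M, (w α ^ 2) ^ 2) +
        128 * M ^ 2 * (5 * (4 / K) * ∑ α ∈ ringP M, w α ^ 2) := by
  have h1 := diag_le (N + 1) (fun k => ‖∑ α ∈ ringP M, (w α : ℂ) * ek k α‖ ^ 2)
    fun _ => sq_nonneg _
  have h2 := le_full N (fun k => ‖∑ α ∈ ringP M, ((gr α * w α : ℝ) : ℂ) * ek k α‖ ^ 2)
    fun _ => sq_nonneg _
  rw [fejer (N + 1) (ringP M) (fun _ h => ring_ne_zero h) w] at h1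
  rw [fejer (N + 1) (ringP M) (fun _ h => ring_ne_zero h) fun α => gr α * w α] at h2
  have h0 : ‖∑ α ∈ ringP M, (w α : ℂ) * ek 0 α‖ ^ 2 = (∑ α ∈ ringP M, w α) ^ 2 := by
    simp only [ek_zero, mul_one]
    rw [← Complex.ofReal_sum, Complex.norm_real, Real.norm_eq_abs, sq_abs]
  simp only [h0] at h1
  have h3 : ∑ α ∈ ringP M, ∑ β ∈ ringP M, (w α * w β * Phi (N + 1) α β -
      gr α * w α * (gr β * w β) * Phi (N + 1) α β) ≤
      ∑ α ∈ ringP M, ∑ β ∈ ringP M,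
        (2 * ((N + 1 : ℕ) : ℝ) ^ 2 * T * ind (|det α β| ≤ K ∧ gg α ≠ gg β) +
        2 * ((N + 1 : ℕ) : ℝ) ^ 2 / T * (w α ^ 2 * w β ^ 2 * ind (|det α β| ≤ (K : ℤ))) +
        128 * M ^ 2 * (w α * w β * tl K (det α β))) :=
    Finset.sum_le_sum fun α hα => Finset.sum_le_sum fun β hβ =>
      point hM hT K (N + 1) hα hβ (hw α) (hw β)
  have s1 : ∑ α ∈ ringP M, ∑ β ∈ ringP M, ind (|det α β| ≤ K ∧ gg α ≠ gg β) =
      ((BadP M K).card : ℝ) := by
    rw [← Finset.sum_product', sum_ind]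
    unfold BadP
    congr
  have s2 := schur hM (fun j => ind (|j| ≤ (K : ℤ))) (fun _ => ind_nonneg _)
    (fun j => by simp only [abs_neg]) (sum_ind_abs_le K) fun α => w α ^ 2
  have s3 := schur hM (tl K) (tl_nonneg K) (tl_neg K) (sum_tl hK) w
  have s2' := mul_le_mul_of_nonneg_left s2
    (show 0 ≤ 2 * ((N + 1 : ℕ) : ℝ) ^ 2 / T by positivity)
  have s3' := mul_le_mul_of_nonneg_left s3 (show 0 ≤ 128 * M ^ 2 by positivity)
  rw [← s1]
  have e1 : ∑ α ∈ ringP M, ∑ β ∈ ringP M, (w α * w β * Phi (N + 1) α β -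
      gr α * w α * (gr β * w β) * Phi (N + 1) α β) =
      ∑ α ∈ ringP M, ∑ β ∈ ringP M, w α * w β * Phi (N + 1) α β -
        ∑ α ∈ ringP M, ∑ β ∈ ringP M, gr α * w α * (gr β * w β) * Phi (N + 1) α β := by
    simp only [Finset.sum_sub_distrib]
  have e2 : ∑ α ∈ ringP M, ∑ β ∈ ringP M,
        (2 * ((N + 1 : ℕ) : ℝ) ^ 2 * T * ind (|det α β| ≤ K ∧ gg α ≠ gg β) +
        2 * ((N + 1 : ℕ) : ℝ) ^ 2 / T * (w α ^ 2 * w β ^ 2 * ind (|det α β| ≤ (K : ℤ))) +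
        128 * M ^ 2 * (w α * w β * tl K (det α β))) =
      2 * ((N + 1 : ℕ) : ℝ) ^ 2 * T *
          ∑ α ∈ ringP M, ∑ β ∈ ringP M, ind (|det α β| ≤ K ∧ gg α ≠ gg β) +
        2 * ((N + 1 : ℕ) : ℝ) ^ 2 / T *
          ∑ α ∈ ringP M, ∑ β ∈ ringP M, w α ^ 2 * w β ^ 2 * ind (|det α β| ≤ (K : ℤ)) +
        128 * M ^ 2 * ∑ α ∈ ringP M, ∑ β ∈ ringP M, w α * w β * tl K (det α β) := by
    simp only [Finset.sum_add_distrib, Finset.mul_sum]
  rw [e1, e2] at h3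
  linarith

lemma fej (h : MomStmt) : FejStmt := by
  obtain ⟨K0, h⟩ := h
  intro η K' hη hK'
  set Km : ℝ := max K0 1 with hKm
  have hKm1 : 1 ≤ Km := le_max_right _ _
  obtain ⟨K, hK⟩ := exists_nat_ge (max 1 (61440 * Km * K' / η))
  have hK1 : (1 : ℝ) ≤ K := le_trans (le_max_left _ _) hK
  have hK2 : 61440 * Km * K' / η ≤ K := le_trans (le_max_right _ _) hK
  set T : ℝ := 240 * (2 * K + 1) * Km / η with hT
  have hT0 : 0 < T := by positivity
  refine ⟨K, η / (12 * T), by positivity, fun J P Q M N sys hN h1 h2 hb => ?_⟩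
  have hN' : (1 : ℝ) ≤ N := by exact_mod_cast hN
  have hM : K' ≤ M := by
    have := hN'.trans h1
    rwa [le_div_iff₀ (by linarith), one_mul] at this
  have hM0 : 0 < M := by linarith
  have hNM : (N : ℝ) ≤ M := h1.trans (div_le_self hM0.le hK')
  have mom : ∀ r : ℕ, r ≤ 4 → ∑ α ∈ ringP M, wt J P Q α ^ r ≤ Km * (4 * M) := by
    intro r hr
    refine le_trans (Finset.sum_le_sum_of_subset_of_nonneg ?_ fun α _ _ =>
      pow_nonneg (wt_nonneg J P Q α) r) ((h J P Q (4 * M) r sys (by linarith) hr).trans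
      (mul_le_mul_of_nonneg_right (le_max_left _ _) (by linarith)))
    intro α hα
    exact Finset.mem_erase.mpr ⟨ring_ne_zero hα, ring_subset M hα⟩
  have m2 := mom 2 (by norm_num)
  have m4 := mom 4 le_rfl
  have key := main_ineq hM0 hT0 (show 1 ≤ K by exact_mod_cast hK1) N (wt J P Q) (wt_nonneg J P Q)
  have e4 : ∑ α ∈ ringP M, (wt J P Q α ^ 2) ^ 2 = ∑ α ∈ ringP M, wt J P Q α ^ 4 :=
    Finset.sum_congr rfl fun α _ => by ring
  rw [e4] at key
  set n : ℝ := ((N + 1 : ℕ) : ℝ) with hn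
  have hn1 : n = N + 1 := by rw [hn]; push_cast; ring
  have hn0 : 0 < n := by linarith
  have hn2 : n ≤ 2 * M := by linarith
  have hn3 : M ≤ 2 * K' * n := by
    rw [div_le_iff₀ (by linarith)] at h2
    nlinarith
  have t1 : 2 * n ^ 2 * T * ((BadP M K).card : ℝ) ≤ n * (η / 3 * M ^ 2) := by
    refine (mul_le_mul_of_nonneg_left hb (by positivity)).trans ?_
    have : 2 * n ^ 2 * T * (η / (12 * T) * M) = n * (η / 6 * M * n) := by
      field_simp; ring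
    rw [this]
    refine mul_le_mul_of_nonneg_left ?_ hn0.le
    have := mul_le_mul_of_nonneg_left hn2 (show 0 ≤ η / 6 * M by positivity)
    linarith
  have t2 : 2 * n ^ 2 / T * (5 * (2 * K + 1) * ∑ α ∈ ringP M, wt J P Q α ^ 4) ≤
      n * (η / 3 * M ^ 2) := by
    refine (mul_le_mul_of_nonneg_left (mul_le_mul_of_nonneg_left m4 (by positivity))
      (by positivity)).trans ?_
    have : 2 * n ^ 2 / T * (5 * (2 * K + 1) * (Km * (4 * M))) = n * (η / 6 * M * n) := by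
      rw [hT]; field_simp; ring
    rw [this]
    refine mul_le_mul_of_nonneg_left ?_ hn0.le
    have := mul_le_mul_of_nonneg_left hn2 (show 0 ≤ η / 6 * M by positivity)
    linarith
  have t3 : 128 * M ^ 2 * (5 * (4 / K) * ∑ α ∈ ringP M, wt J P Q α ^ 2) ≤
      n * (η / 3 * M ^ 2) := by
    refine (mul_le_mul_of_nonneg_left (mul_le_mul_of_nonneg_left m2 (by positivity))
      (by positivity)).trans ?_
    have e : 128 * M ^ 2 * (5 * (4 / K) * (Km * (4 * M))) = M ^ 2 * (10240 * Km / K * M) := by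
      field_simp; ring
    have a1 : 10240 * Km / K * M ≤ 10240 * Km / K * (2 * K' * n) :=
      mul_le_mul_of_nonneg_left hn3 (by positivity)
    have a2 : 10240 * Km / K * (2 * K') ≤ η / 3 := by
      rw [div_le_iff₀ hη] at hK2
      rw [div_mul_eq_mul_div, div_le_iff₀ (by linarith)]
      nlinarith
    have a3 := mul_le_mul_of_nonneg_right a2 hn0.le
    rw [e]
    have a4 : 10240 * Km / K * M ≤ η / 3 * n := by nlinarith
    have a5 := mul_le_mul_of_nonneg_left a4 (sq_nonneg M)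
    linarith
  have fin : n * (Wsum J P Q M ^ 2 - η * M ^ 2) ≤
      n * ∑ k ∈ Icc (-(N : ℤ)) N, ‖Asum gr J P Q M k‖ ^ 2 := by
    unfold Wsum Asum
    linarith
  exact le_of_mul_le_mul_left fin hn0

end M8

theorem M8_fej (h : MomStmt) : FejStmt := M8.fej h

theorem M8_far : FarStmt := M8.far

theorem M8_tri (h : LowStmt) : TriStmt := M8.tri h

end Pool.Agent.Lib.LQ
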