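import Pool.Agent.Lib.LQ.Basic

set_option autoImplicit false

open Finset
open scoped Classical

noncomputable section

namespace Pool.Agent.Lib.LQ

open Pool.Agent.Lib.MP_de94cf_nt (gg det inn)

namespace M9

lemma mink (U : Finset ℤ) (s : Finset ℕ) (A : ℤ → ℂ) (F : ℕ → ℤ → ℂ) {a : ℝ} (ha : 0 ≤ a) :
    √(∑ k ∈ U, ‖A k‖ ^ 2) ≤ √(∑ k ∈ U, ‖A k - (a : ℂ) * ∑ v ∈ s, F v k‖ ^ 2) +
      a * ∑ v ∈ s, √(∑ k ∈ U, ‖F v k‖ ^ 2) := by
  let vec : (ℤ → ℂ) → EuclideanSpace ℂ U := fun f => WithLp.toLp 2 fun k => f k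
  have hv : ∀ f, √(∑ k ∈ U, ‖f k‖ ^ 2) = ‖vec f‖ := fun f => by
    rw [EuclideanSpace.norm_eq, ← sum_coe_sort U]
  have h : vec A = vec (fun k => A k - (a : ℂ) * ∑ v ∈ s, F v k) + (a : ℂ) • ∑ v ∈ s, vec (F v) := by
    ext k
    simp [vec]
  simp only [hv A, hv (F _), hv fun k => A k - (a : ℂ) * ∑ v ∈ s, F v k]
  rw [h]
  refine (norm_add_le _ _).trans (add_le_add le_rfl ?_)
  rw [norm_smul, Complex.norm_real, Real.norm_of_nonneg ha]
  exact mul_le_mul_of_nonneg_left (norm_sum_le _ _) ha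

lemma one_v (U : Finset ℤ) (T R : ℤ → ℂ) {n s W c e : ℝ} (hn : ∀ k, ‖T k‖ ≤ n)
    (hs : ∀ k ∈ U, k ≠ 0 → ‖T k‖ ≤ n - s) (hsn : s ≤ n) (hR0 : ‖R 0‖ ≤ (1 - c) * W)
    (hR : ∑ k ∈ U, ‖R k‖ ^ 2 ≤ W ^ 2 + e ^ 2) (hW : 0 ≤ W) (he : 0 ≤ e) (hc : 0 ≤ c)
    (hc1 : c ≤ 1) : √(∑ k ∈ U, ‖T k * R k‖ ^ 2) ≤ W * (n - c * s / 2) + n * e := by
  have hn0 : 0 ≤ n := (norm_nonneg _).trans (hn 0)
  obtain ⟨m, hm0, hmn, hms, hm⟩ : ∃ m, 0 ≤ m ∧ m ≤ n ∧ m ≤ n - s ∧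
      ∀ k ∈ U, k ≠ 0 → ‖T k‖ ≤ m :=
    ⟨min n (n - s), le_min hn0 (by linarith), min_le_left _ _, min_le_right _ _,
      fun k hk h0 => le_min (hn k) (hs k hk h0)⟩
  have h1 : m ^ 2 ≤ n ^ 2 := pow_le_pow_left₀ hm0 hmn 2
  have h2 : ∑ k ∈ U, ‖T k * R k‖ ^ 2 ≤
      ∑ k ∈ U, (m ^ 2 * ‖R k‖ ^ 2 + if k = 0 then (n ^ 2 - m ^ 2) * ‖R 0‖ ^ 2 else 0) :=
    sum_le_sum fun k hk => by
      rw [norm_mul, mul_pow]
      split_ifs with h0
      · subst h0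
        nlinarith [pow_le_pow_left₀ (norm_nonneg _) (hn 0) 2, sq_nonneg ‖R 0‖]
      · nlinarith [pow_le_pow_left₀ (norm_nonneg _) (hm k hk h0) 2, sq_nonneg ‖R k‖]
  rw [sum_add_distrib, ← mul_sum, sum_ite_eq'] at h2
  have h3 : ‖R 0‖ ^ 2 ≤ (1 - c) * W ^ 2 :=
    (pow_le_pow_left₀ (norm_nonneg _) hR0 2).trans (by
      nlinarith [mul_nonneg (mul_nonneg hc (sub_nonneg.2 hc1)) (sq_nonneg W)])
  have h4 : (if (0 : ℤ) ∈ U then (n ^ 2 - m ^ 2) * ‖R 0‖ ^ 2 else 0) ≤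
      (n ^ 2 - m ^ 2) * ((1 - c) * W ^ 2) := by
    split_ifs
    · exact mul_le_mul_of_nonneg_left h3 (by linarith)
    · exact mul_nonneg (by linarith) (mul_nonneg (by linarith) (sq_nonneg _))
  have h5 : 0 ≤ n - c * (n - m) / 2 := by nlinarith
  have h6 : m ^ 2 + (n ^ 2 - m ^ 2) * (1 - c) ≤ (n - c * (n - m) / 2) ^ 2 := by
    nlinarith [mul_nonneg (mul_nonneg hc hm0) (sub_nonneg.2 hmn), sq_nonneg (c * (n - m))]
  have h7 : W * (n - c * (n - m) / 2) ≤ W * (n - c * s / 2) :=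
    mul_le_mul_of_nonneg_left (by nlinarith) hW
  refine le_trans (Real.sqrt_le_iff.2 ⟨by positivity, ?_⟩) (add_le_add h7 (le_refl (n * e)))
  nlinarith [mul_le_mul_of_nonneg_left hR (sq_nonneg m), mul_le_mul_of_nonneg_left h6 (sq_nonneg W),
    mul_le_mul_of_nonneg_left h1 (sq_nonneg e), mul_nonneg (mul_nonneg hW h5) (mul_nonneg hn0 he)]

lemma wt_mul (J : Finset ℕ) (P Q : ℕ → ℝ) (α : GI) : wt J P Q (⟨1, 1⟩ * α) = wt J P Q α := by
  refine prod_congr rfl fun j _ => ?_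
  congr 3
  refine filter_congr fun π hπ => ?_
  have h1 := (mem_GH.1 hπ).1
  refine ⟨fun h => ((GF_prime h1).dvd_or_dvd h).resolve_left fun h2 => ?_, fun h => h.mul_left _⟩
  have h3 : nm π ≤ 2 := Nat.le_of_dvd two_pos (nm_dvd h2)
  obtain ⟨h4, h5, -⟩ := mem_PP.1 (mem_GF.1 h1).1
  have := h4.two_le
  omega

lemma cont_mul {α : GI} (h : cont α = 1) (ho : Odd (nm α)) : cont (⟨1, 1⟩ * α) = 1 := by
  have h1 : Odd (α.re * α.re + α.im * α.im) := by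
    have := nm_int α
    rw [Zsqrtd.norm_def] at this
    have h2 : Odd (nm α : ℤ) := by exact_mod_cast ho
    rw [this] at h2
    simpa using h2
  obtain ⟨t, ht⟩ := h1
  obtain ⟨u, v, huv⟩ := Int.isCoprime_iff_gcd_eq_one.2 h
  refine Int.isCoprime_iff_gcd_eq_one.1 ⟨α.re - t * (u - v), α.im - t * (u + v), ?_⟩
  simp only [Zsqrtd.re_mul, Zsqrtd.im_mul]
  linear_combination ht - 2 * t * huv

lemma A0_le (J : Finset ℕ) (P Q : ℕ → ℝ) (y : ℝ) :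
    ‖Asum gr J P Q y 0‖ ≤ Wsum J P Q y -
      2 * ∑ α ∈ (ringP y).filter (fun α => (nm α : ℝ) ≤ 2 * y ∧ Odd (nm α)), wt J P Q α := by
  set O := (ringP y).filter (fun α => (nm α : ℝ) ≤ 2 * y ∧ Odd (nm α)) with hO
  have hn : ∀ α : GI, (nm (⟨1, 1⟩ * α) : ℝ) = 2 * nm α := fun α => by
    rw [nm_mul]; push_cast; rfl
  have key : ∀ σ : ℝ, |σ| ≤ 1 → 2 * ∑ α ∈ O, wt J P Q α ≤
      ∑ α ∈ ringP y, (1 - σ * gr α) * wt J P Q α := fun σ hσ => by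
    have hd : Disjoint O (O.image fun α => (⟨1, 1⟩ : GI) * α) := by
      refine disjoint_left.2 fun α h1 h2 => ?_
      obtain ⟨β, h3, rfl⟩ := mem_image.1 h2
      linarith [(mem_filter.1 h1).2.1, hn β, (mem_ringP.1 (mem_filter.1 h3).1).1]
    have hs : O ∪ O.image (fun α => (⟨1, 1⟩ : GI) * α) ⊆ ringP y := by
      refine union_subset (filter_subset _ _) (image_subset_iff.2 fun β h => ?_)
      obtain ⟨h1, h2, h3⟩ := mem_filter.1 h
      obtain ⟨h4, -, h5⟩ := mem_ringP.1 h1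
      exact mem_ringP.2 ⟨by rw [hn]; linarith, by rw [hn]; linarith, cont_mul h5 h3⟩
    refine le_trans (le_of_eq ?_) (sum_le_sum_of_subset_of_nonneg hs fun α _ _ =>
      mul_nonneg ?_ (wt_nonneg _ _ _ _))
    · rw [sum_union hd, sum_image fun a _ b _ h => mul_left_cancel₀ (by decide) h,
        ← sum_add_distrib, mul_sum]
      refine sum_congr rfl fun α _ => ?_
      have : gr ⟨1, 1⟩ = -1 := by simp [gr, Pool.Agent.Lib.MP_de94cf_nt.gg_one_add_i]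
      rw [wt_mul, gr_mul, this]
      ring
    · have := (le_abs_self _).trans ((abs_mul σ (gr α)).le.trans
        (mul_le_one₀ hσ (abs_nonneg _) (abs_gr_le α)))
      linarith
  have h1 := key 1 (by simp)
  have h2 := key (-1) (by simp)
  simp only [Asum, ek_zero, mul_one, ← Complex.ofReal_sum, Complex.norm_real, Real.norm_eq_abs]
  simp only [sub_mul, one_mul, neg_mul, sub_neg_eq_add, add_mul, sum_sub_distrib,
    sum_add_distrib] at h1 h2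
  rw [abs_le, Wsum]
  constructor <;> linarith

lemma Wsum_nonneg (J : Finset ℕ) (P Q : ℕ → ℝ) (y : ℝ) : 0 ≤ Wsum J P Q y :=
  sum_nonneg fun _ _ => wt_nonneg _ _ _ _

lemma Wsum_le (h : MomStmt) : ∃ K : ℝ, 1 ≤ K ∧ ∀ (J : Finset ℕ) (P Q : ℕ → ℝ) (y : ℝ),
    Sys J P Q → 0 ≤ y → Wsum J P Q y ≤ K * y := by
  obtain ⟨K, hK⟩ := h
  refine ⟨max (4 * K) 1, le_max_right _ _, fun J P Q y hS hy => ?_⟩
  have h1 := hK J P Q (4 * y) 1 hS (by positivity) (by norm_num)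
  simp only [pow_one] at h1
  refine (sum_le_sum_of_subset_of_nonneg (fun α hα => ?_) fun _ _ _ => wt_nonneg _ _ _ _).trans
    (h1.trans (by nlinarith [le_max_left (4 * K) 1]))
  obtain ⟨h2, h3, -⟩ := mem_ringP.1 hα
  refine mem_erase.2 ⟨?_, mem_disc.2 h3⟩
  rintro rfl
  rw [nm_eq_zero.2 rfl] at h2
  simp at h2
  linarith

lemma xv_succ (P H : ℝ) (v : ℕ) : xv P H (v + 1) = xv P H v * Real.exp (1 / H) := by
  rw [xv, xv, mul_assoc, ← Real.exp_add]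
  push_cast
  ring_nf

lemma GS_subset (P Q H : ℝ) (v : ℕ) :
    GS P Q H v ⊆ GH (xv P H v) (xv P H v * Real.exp (1 / H)) := fun π hπ => by
  obtain ⟨h1, h2, h3⟩ := mem_filter.1 hπ
  obtain ⟨h4, h5⟩ := mem_GH.1 h1
  obtain ⟨h6, h7⟩ := mem_GF.1 h4
  obtain ⟨h8, h9, -⟩ := mem_PP.1 h6
  exact mem_GH.2 ⟨mem_GF.2 ⟨mem_PP.2 ⟨h8, h9, h2, xv_succ P H v ▸ h3⟩, h7⟩, h5⟩

lemma sum_card_le {P Q H : ℝ} (hP : 0 < P) (hH : 1 ≤ H) (V : ℕ) :
    ∑ v ∈ range V, ((GS P Q H v).card : ℝ) * (1 / xv P H v) ≤ 3 * LL P Q := by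
  have hm : Monotone (xv P H) := fun a b h =>
    mul_le_mul_of_nonneg_left (Real.exp_le_exp.2 (by gcongr)) hP.le
  have hd : (range V : Set ℕ).PairwiseDisjoint (GS P Q H) := fun a _ b _ hab =>
    disjoint_left.2 fun π h1 h2 => by
      obtain ⟨-, h3, h4⟩ := mem_filter.1 h1
      obtain ⟨-, h5, h6⟩ := mem_filter.1 h2
      rcases hab.lt_or_gt with h | h
      · linarith [hm (show a + 1 ≤ b from h)]
      · linarith [hm (show b + 1 ≤ a from h)]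
  have h1 : ∑ v ∈ range V, ∑ π ∈ GS P Q H v, 1 / (nm π : ℝ) ≤ LL P Q := by
    rw [← sum_biUnion hd]
    exact sum_le_sum_of_subset_of_nonneg (biUnion_subset.2 fun v _ => filter_subset _ _)
      fun _ _ _ => by positivity
  refine le_trans ?_ (mul_le_mul_of_nonneg_left h1 (by norm_num))
  rw [mul_sum]
  refine sum_le_sum fun v _ => ?_
  rw [mul_sum, ← nsmul_eq_mul]
  refine card_nsmul_le_sum _ _ _ fun π hπ => ?_
  obtain ⟨-, h3, h4⟩ := mem_filter.1 hπ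
  have hx : 0 < xv P H v := mul_pos hP (Real.exp_pos _)
  have he : Real.exp (1 / H) ≤ 3 := (Real.exp_le_exp.2 ((div_le_one (by linarith)).2 hH)).trans
    (Real.exp_one_lt_d9.le.trans (by norm_num))
  rw [xv_succ] at h4
  rw [mul_one_div, div_le_div_iff₀ hx (hx.trans h3)]
  nlinarith

lemma one_le_LL (h : MertensStmt) : ∃ j : ℕ, 4 ≤ j ∧ ∀ t : ℝ, 1 ≤ t / j →
    1 ≤ LL (Real.exp (t / j)) (Real.exp (t / 4)) := by
  obtain ⟨C, hC⟩ := h
  refine ⟨4 * (⌈Real.exp (C + 2)⌉₊ + 1), by omega, fun t ht => ?_⟩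
  set m : ℕ := ⌈Real.exp (C + 2)⌉₊ + 1 with hm
  have h0 : Real.exp (C + 2) ≤ m := (Nat.le_ceil _).trans (by rw [hm]; push_cast; linarith)
  have h1 : (1 : ℝ) ≤ m := by rw [hm]; push_cast; linarith [Nat.cast_nonneg (α := ℝ) ⌈Real.exp (C + 2)⌉₊]
  push_cast at ht ⊢
  have ht0 : 0 < t := by
    by_contra h
    linarith [div_nonpos_of_nonpos_of_nonneg (not_lt.1 h) (by linarith : (0 : ℝ) ≤ 4 * m)]
  have h2 := (abs_le.1 (hC (Real.exp (t / (4 * m))) (Real.exp (t / 4))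
    (by linarith [Real.add_one_le_exp (t / (4 * m))])
    (Real.exp_le_exp.2 (by gcongr; linarith)))).1
  rw [Real.log_exp, Real.log_exp, show t / 4 / (t / (4 * m)) = m by field_simp] at h2
  have h3 : C + 2 ≤ Real.log m := (Real.le_log_iff_exp_le (by linarith)).2 h0
  have h4 : Lam (Real.exp (t / (4 * m))) (Real.exp (t / 4)) ≤
      2 * LL (Real.exp (t / (4 * m))) (Real.exp (t / 4)) := by
    rw [LL, sum_GH _ _ fun l => 1 / (l : ℝ), mul_sum]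
    refine sum_le_sum fun l hl => ?_
    have : (0 : ℝ) < l := by exact_mod_cast (mem_PP.1 hl).1.pos
    rw [mul_one_div]
    gcongr
    linarith
  linarith

lemma norm_Psum {w z : ℝ} {S : Finset GI} (hS : S ⊆ GH w z) (k : ℤ) :
    ‖Psum gr S k‖ = ‖∑ π ∈ S, ek k π‖ := by
  rw [← norm_neg, Psum, ← sum_neg_distrib]
  congr 1
  exact sum_congr rfl fun π hπ => by simp [gr_GF (mem_GH.1 (hS hπ)).1]

lemma norm_Psum_le {w z : ℝ} {S : Finset GI} (hS : S ⊆ GH w z) (k : ℤ) :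
    ‖Psum gr S k‖ ≤ S.card := by
  rw [norm_Psum hS]
  refine (norm_sum_le _ _).trans (le_of_eq ?_)
  rw [sum_congr rfl fun π hπ => norm_ek (GF_prime (mem_GH.1 (hS hπ)).1).ne_zero k]
  simp

lemma Asum_one (J : Finset ℕ) (P Q : ℕ → ℝ) (y : ℝ) :
    Asum (fun _ => 1) J P Q y 0 = Wsum J P Q y := by simp [Asum, Wsum, ek_zero]

lemma Psum_one (S : Finset GI) : Psum (fun _ => 1) S 0 = (S.card : ℝ) := by simp [Psum, ek_zero]

lemma dec' (h : DecStmt) {ε : ℝ} (hε : 0 < ε) : ∃ B : ℝ, 1 ≤ B ∧ ∀ (J : Finset ℕ) (P Q : ℕ → ℝ)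
    (t : ℝ) (N : ℕ) (h : GI → ℝ), Sys J P Q → 0 ∈ J → 1 ≤ N → (N : ℝ) ≤ Real.exp t / B → B ≤ P 0 →
    B ≤ Real.exp (t / 4) → (∀ α β, h (α * β) = h α * h β) → (∀ α, |h α| ≤ 1) →
    ∑ k ∈ Icc (-(N : ℤ)) N, ‖Asum h J P Q (Real.exp t) k - ((1 / LL (P 0) (Q 0) : ℝ) : ℂ) *
        ∑ v ∈ range (Vn (P 0) (Q 0) (B ^ 2)), Psum h (GS (P 0) (Q 0) (B ^ 2) v) k *
          Asum h (J.erase 0) P Q (Real.exp t / xv (P 0) (B ^ 2) v) k‖ ^ 2 ≤
      (ε * Real.exp t) ^ 2 := by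
  obtain ⟨K, hK⟩ := h
  have h0 : 0 ≤ 4 * |K| / ε ^ 2 := by positivity
  refine ⟨4 * |K| / ε ^ 2 + 1, by linarith, fun J P Q t N h hS hJ hN hN' hP hQ hm hb => ?_⟩
  set B := 4 * |K| / ε ^ 2 + 1 with hB
  have hB1 : 1 ≤ B := by linarith
  have hM := Real.exp_pos t
  refine (hK J P Q 0 (B ^ 2) _ N h hS hJ (one_le_pow₀ hB1) hN
    (hN'.trans (div_le_self hM.le hB1)) hm hb).trans ?_
  have h1 : 1 / √(B ^ 2) ≤ 1 / B := by rw [Real.sqrt_sq (by linarith)]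
  have h2 : N / Real.exp t / LL (P 0) (Q 0) ≤ 1 / B :=
    (div_le_self (by positivity) (hS.one_le 0 hJ)).trans (by
      rw [div_le_iff₀ hM, one_div_mul_eq_div]; exact hN')
  have h3 : 1 / P 0 ≤ 1 / B := one_div_le_one_div_of_le (by linarith) hP
  have h4 : Real.exp t ^ (-(1 / 4) : ℝ) ≤ 1 / B := by
    rw [← Real.exp_mul, mul_neg, Real.exp_neg, mul_one_div, ← one_div]
    exact one_div_le_one_div_of_le (by linarith) hQ
  have h5 : |K| * (4 * (1 / B)) ≤ ε ^ 2 := by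
    rw [mul_one_div, ← mul_div_assoc, div_le_iff₀ (by linarith), hB, mul_add,
      mul_div_cancel₀ _ (by positivity)]
    nlinarith [sq_nonneg ε]
  have h6 : 0 ≤ LL (P 0) (Q 0) := zero_le_one.trans (hS.one_le 0 hJ)
  have h7 : 0 ≤ P 0 := by linarith
  calc _ ≤ |K| * Real.exp t ^ 2 * (4 * (1 / B)) := by
        refine (mul_le_mul_of_nonneg_right (mul_le_mul_of_nonneg_right (le_abs_self K)
          (by positivity)) (by positivity)).trans (mul_le_mul_of_nonneg_left ?_ (by positivity))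
        linarith
    _ ≤ _ := by nlinarith [mul_le_mul_of_nonneg_left h5 (sq_nonneg (Real.exp t))]

lemma per_v (U : Finset ℤ) (J : Finset ℕ) (P Q : ℕ → ℝ) {S : Finset GI}
    {x x' y c K C r e D : ℝ} (hS : S ⊆ GH x x')
    (hPS : ∀ k ∈ U, k ≠ 0 → ‖∑ π ∈ S, ek k π‖ ≤ S.card - (S.card - C) / r ^ 2) (hC : 0 ≤ C)
    (hr : 1 ≤ r ^ 2) (hW : Wsum J P Q y ≤ K * y) (hL : c * y ≤
      ∑ α ∈ (ringP y).filter (fun α => (nm α : ℝ) ≤ 2 * y ∧ Odd (nm α)), wt J P Q α)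
    (hHM : ∑ k ∈ U, ‖Asum gr J P Q y k‖ ^ 2 ≤ Wsum J P Q y ^ 2 + e ^ 2) (hc : 0 < c) (hK : c ≤ K)
    (hy : 0 ≤ y) (he : 0 ≤ e) (hD : K * y * C ≤ D) :
    √(∑ k ∈ U, ‖Psum gr S k * Asum gr J P Q y k‖ ^ 2) ≤
      (1 - c / K / (2 * r ^ 2)) * (S.card * Wsum J P Q y) + c / K / (2 * r ^ 2) * D +
        S.card * e := by
  have hK0 := hc.trans_le hK
  have hn : (0 : ℝ) ≤ S.card := Nat.cast_nonneg _
  refine (one_v U _ _ (s := (S.card - C) / r ^ 2) (c := c / K) (norm_Psum_le hS)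
    (fun k hk h0 => (norm_Psum hS k).trans_le (hPS k hk h0))
    ((div_le_iff₀ (by linarith)).2 (by nlinarith)) ((A0_le _ _ _ _).trans ?_) hHM
    (Wsum_nonneg _ _ _ _) he (by positivity) ((div_le_one hK0).2 hK)).trans ?_
  · have h : c / K * Wsum J P Q y ≤ c * y := by
      rw [div_mul_eq_mul_div, div_le_iff₀ hK0]
      nlinarith
    nlinarith [mul_nonneg hc.le hy]
  · have h := mul_le_mul_of_nonneg_left ((mul_le_mul_of_nonneg_right hW hC).trans hD)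
      (show 0 ≤ c / K / (2 * r ^ 2) by positivity)
    refine le_trans (le_of_eq ?_) (add_le_add (add_le_add le_rfl h) le_rfl)
    ring

lemma arith {K Cs c r j H t a : ℝ} (hK : 0 ≤ K) (hCs : 0 ≤ Cs) (hc : 0 < c) (hr : 0 < r)
    (hH : 0 < H) (ht : 0 < t) (ha : 0 < a) (h1 : K * Cs * j / c ≤ r) (h2 : t ≤ a * j) :
    K * Real.exp (t - a) * (Cs / r * Real.exp a / (H * Real.log (Real.exp a))) ≤
      2 * c * Real.exp t / (H * t) := by
  rw [div_le_iff₀ hc] at h1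
  rw [Real.log_exp, Real.exp_sub]
  field_simp
  nlinarith [mul_le_mul_of_nonneg_left h2 (mul_nonneg hK hCs),
    mul_le_mul_of_nonneg_left h1 ha.le, show 0 ≤ a * (r * c) by positivity]

lemma fin {X W M θ c ε a S₁ S₂ S₃ : ℝ} (hM : 0 < M) (hθ : 0 < θ) (hθ1 : θ ≤ 1) (hc : 0 < c)
    (hε : ε = θ * c / 20) (hW : c * M ≤ W) (h1 : a * S₁ ≤ W + ε * M) (h2 : a * S₂ ≤ c * M / 2)
    (h3 : a * S₃ ≤ 3) (hX : W ^ 2 - 2 * (ε ^ 2 * M ^ 2) ≤ X)
    (h : √X ≤ ε * M + a * ((1 - θ) * S₁ + θ * S₂ + ε * M * S₃)) : False := by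
  have hεM : 0 < ε * M := by rw [hε]; positivity
  have e4 : θ * (c * M) = 20 * (ε * M) := by rw [hε]; ring
  have e5 : √X ≤ W - 5 * (ε * M) := by
    nlinarith [mul_le_mul_of_nonneg_left h1 (sub_nonneg.2 hθ1), mul_le_mul_of_nonneg_left h2 hθ.le,
      mul_le_mul_of_nonneg_left h3 hεM.le, mul_le_mul_of_nonneg_left hW hθ.le, mul_pos hθ hεM]
  have e6 := (Real.sqrt_le_iff.1 e5).2
  have e7 : 20 * (ε * M) ≤ W := e4 ▸ (mul_le_of_le_one_left (by positivity) hθ1).trans hW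
  nlinarith [mul_le_mul_of_nonneg_left e7 hεM.le, mul_pos hεM hεM]

lemma xv_range {P Q H t a b : ℝ} (hP : P = Real.exp a) (hQ : Q = Real.exp b) (hH : 1 ≤ H)
    (ha : 1 ≤ a) (hab : a ≤ b) (hb : b = t / 4) : (Vn P Q H : ℝ) ≤ H * (t / 4) ∧
    ∀ v ∈ range (Vn P Q H), ∃ u, xv P H v = Real.exp u ∧ a ≤ u ∧ u ≤ t / 4 := by
  have hlog : Real.log (Q / P) = b - a := by rw [hP, hQ, ← Real.exp_sub, Real.log_exp]
  rw [Vn, hlog, ← hb]
  refine ⟨?_, fun v hv => ⟨a + v / H, by rw [xv, hP, Real.exp_add],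
    le_add_of_nonneg_right (by positivity), ?_⟩⟩
  · nlinarith [Nat.ceil_lt_add_one (show 0 ≤ H * (b - a) by nlinarith)]
  · have := Nat.lt_ceil.1 (mem_range.1 hv)
    rw [← div_lt_iff₀' (by linarith)] at this
    linarith

end M9

open M9 in
theorem M9 (h0 : MertensStmt) (h1 : MomStmt) (h2 : LowStmt) (h3 : DecStmt) (h4 : ChainStmt)
    (h5 : HMStmt) (h6 : PSStmt) (h7 : FejStmt) : MRStmt := by
  obtain ⟨j, hj, hLL⟩ := one_le_LL h0
  obtain ⟨K, hK1, hK⟩ := Wsum_le h1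
  obtain ⟨c', M1, hc', hLow'⟩ := h2
  obtain ⟨c1, hc1, hc11, hc1'⟩ : ∃ c1 : ℝ, 0 < c1 ∧ c1 ≤ 1 ∧ c1 ≤ c' :=
    ⟨min 1 c', lt_min one_pos hc', min_le_left _ _, min_le_right _ _⟩
  have hLow := fun J P Q (b a : ℝ) hS hM (hQ : ∏ j ∈ J, Q j ≤ Real.exp a) (hab : a ≤ b / 2) =>
    (mul_le_mul_of_nonneg_right hc1' (Real.exp_pos b).le).trans (hLow' J P Q _ hS hM
      (hQ.trans ((Real.exp_le_exp.2 hab).trans_eq (Real.exp_half b))))
  obtain ⟨cH, hcH, hHM⟩ := h5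
  obtain ⟨Cs, hCs, hPS⟩ := h6 j
  have hj' : (4 : ℝ) ≤ j := by exact_mod_cast hj
  have hj0 : (0 : ℝ) < j := by linarith
  obtain ⟨r, hr1, hr⟩ : ∃ r : ℕ, 1 ≤ r ∧ K * Cs * j / c1 ≤ r :=
    ⟨⌈K * Cs * j / c1⌉₊ + 1, by omega, (Nat.le_ceil _).trans (by push_cast; linarith)⟩
  have hr1' : (1 : ℝ) ≤ r := by exact_mod_cast hr1
  have hr2 : (1 : ℝ) ≤ r ^ 2 := one_le_pow₀ hr1'
  have hc0 : c1 / K ≤ 1 := (div_le_one (by linarith)).2 (by linarith)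
  obtain ⟨θ, hθ⟩ : ∃ θ, θ = c1 / K / (2 * r ^ 2) := ⟨_, rfl⟩
  have hθ0 : 0 < θ := by rw [hθ]; positivity
  have hθ1 : θ ≤ 1 := hθ ▸ (div_le_one (by linarith)).2 (by linarith)
  obtain ⟨ε, hε⟩ : ∃ ε, ε = θ * c1 / 20 := ⟨_, rfl⟩
  have hε0 : 0 < ε := by rw [hε]; positivity
  obtain ⟨B, hB1, hD⟩ := dec' h3 hε0
  have hH : 1 ≤ B ^ 2 := one_le_pow₀ hB1
  obtain ⟨x0, hPS⟩ := hPS r (B ^ 2) hr1 hH
  obtain ⟨y0, hHM⟩ := hHM (ε ^ 2) (by positivity)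
  obtain ⟨c, hc, hcc, hcj⟩ : ∃ c : ℝ, 0 < c ∧ c ≤ cH / 2 ∧ c ≤ 1 / j :=
    ⟨min (cH / 2) (1 / j), by positivity, min_le_left _ _, min_le_right _ _⟩
  obtain ⟨K', Mc, hK', hCh⟩ := h4 c (ε ^ 2) hc (by positivity)
  obtain ⟨Kf, η', hη', hF⟩ := h7 (ε ^ 2) (max K' B) (by positivity) (le_max_of_le_left hK')
  obtain ⟨T, hT1, hT⟩ : ∃ T : ℝ, 1 ≤ T ∧ x0 ≤ T ∧ max K' B ≤ T ∧ M1 ≤ T ∧ y0 ≤ T ∧ Mc ≤ T :=
    ⟨max 1 (max x0 (max (max K' B) (max M1 (max y0 Mc)))), by simp⟩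
  refine ⟨Kf, η', Real.exp (T * j), hη', fun M hM => not_lt.1 fun hBad => ?_⟩
  obtain ⟨t, rfl⟩ : ∃ t, Real.exp t = M := ⟨_, Real.exp_log ((Real.exp_pos _).trans_le hM)⟩
  have ht : T ≤ t / j := (le_div_iff₀ hj0).2 (Real.exp_le_exp.1 hM)
  have ht0 : 0 < t := (mul_pos (one_pos.trans_le hT1) hj0).trans_le (Real.exp_le_exp.1 hM)
  have ht4 : t / j ≤ t / 4 := div_le_div_of_nonneg_left ht0.le four_pos hj'
  have hct : t * c ≤ t / j := (mul_le_mul_of_nonneg_left hcj ht0.le).trans_eq (mul_one_div _ _)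
  have hbig : ∀ a, t / j ≤ a → T ≤ Real.exp a := fun a ha => by
    linarith only [Real.add_one_le_exp a, ha, ht]
  have hM0 := Real.exp_pos t
  have hMT := hbig t (by linarith only [ht4, ht0])
  obtain ⟨J, P, Q, hJ, hP0, hQ0, hS, hQ, hU⟩ := hCh _ (Real.exp (t / j)) (Real.exp (t / 4))
    (hT.2.2.2.2.trans hMT) (by rw [← Real.exp_mul]; exact Real.exp_le_exp.2 hct)
    (hLL t (hT1.trans ht))
  have hB0 := one_pos.trans_le hB1
  have hK0 : 0 < max K' B := lt_max_of_lt_right hB0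
  obtain ⟨N, hN1, hN2, hN3⟩ : ∃ N : ℕ, 1 ≤ N ∧ (N : ℝ) ≤ Real.exp t / max K' B ∧
      Real.exp t / max K' B ≤ 2 * N := by
    have h := (one_le_div hK0).2 (hT.2.1.trans hMT)
    have h' := Nat.le_floor (n := 1) (Nat.cast_one.trans_le h)
    refine ⟨_, h', Nat.floor_le (zero_le_one.trans h), ?_⟩
    linarith only [Nat.lt_floor_add_one (Real.exp t / max K' B), Nat.one_le_cast (α := ℝ).2 h']
  have hNB := hN2.trans (div_le_div_of_nonneg_left hM0.le hB0 (le_max_right K' B))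
  obtain ⟨U, hUs, hUc, hU⟩ := hU N hN1 (hN2.trans (div_le_div_of_nonneg_left hM0.le
    (one_pos.trans_le hK') (le_max_left K' B)))
  have hF := hF J P Q _ N hS hN1 hN2 hN3 hBad.le
  rw [← sum_sdiff hUs] at hF
  rw [← Real.exp_mul] at hQ hUc
  have hBT := (le_max_right K' B).trans hT.2.1
  have hD := fun h => hD J P Q t N h hS hJ hN1 hNB (hP0 ▸ hBT.trans (hbig _ le_rfl))
    (hBT.trans (hbig _ ht4))
  have hS' := hS.subset (erase_subset 0 J)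
  have hW : c1 * Real.exp t ≤ Wsum J P Q (Real.exp t) := by
    refine (hLow J P Q t (t / 4 + t * c) hS (hT.2.2.1.trans hMT) ?_
      (by linarith only [hct, ht4])).trans
      (sum_le_sum_of_subset_of_nonneg (filter_subset _ _) fun _ _ _ => wt_nonneg _ _ _ _)
    rw [← mul_prod_erase J Q hJ, hQ0, Real.exp_add]
    exact mul_le_mul_of_nonneg_left hQ (Real.exp_pos _).le
  have hL := hS.one_le 0 hJ
  have hL0 := one_pos.trans_le hL
  obtain ⟨hV, hx⟩ := xv_range hP0 hQ0 hH (hT1.trans ht) ht4 rfl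
  have hv : ∀ v ∈ range (Vn (P 0) (Q 0) (B ^ 2)),
      √(∑ k ∈ U, ‖Psum gr (GS (P 0) (Q 0) (B ^ 2) v) k *
        Asum gr (J.erase 0) P Q (Real.exp t / xv (P 0) (B ^ 2) v) k‖ ^ 2) ≤
      (1 - θ) * ((GS (P 0) (Q 0) (B ^ 2) v).card *
        Wsum (J.erase 0) P Q (Real.exp t / xv (P 0) (B ^ 2) v)) +
      θ * (2 * c1 * Real.exp t / (B ^ 2 * t)) +
      ε * Real.exp t * ((GS (P 0) (Q 0) (B ^ 2) v).card * (1 / xv (P 0) (B ^ 2) v)) := by
    intro v hv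
    obtain ⟨a, ha, ha1, ha2⟩ := hx v hv
    have hsub := GS_subset (P 0) (Q 0) (B ^ 2) v
    rw [mul_left_comm (ε * Real.exp t), mul_one_div, mul_div_assoc ε, hθ]
    rw [ha] at hsub ⊢
    rw [← Real.exp_sub]
    have hy0 := Real.exp_pos (t - a)
    have hyT := hbig (t - a) (by linarith only [ha2, ht4, ht0])
    have ha0 : 0 < a := (div_pos ht0 hj0).trans_le ha1
    have haj := (div_le_iff₀ hj0).1 ha1
    have hkN : ∀ k ∈ U, (|k| : ℝ) ≤ Real.exp t := fun k hk => by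
      have h : |k| ≤ N := abs_le.2 (mem_Icc.1 (hUs hk))
      have h' : (|k| : ℝ) ≤ N := by exact_mod_cast h
      exact h'.trans (hNB.trans (div_le_self hM0.le hB1))
    have hcy : Real.exp (t * c) ≤ Real.exp (t - a) ^ cH := by
      rw [← Real.exp_mul]
      exact Real.exp_le_exp.2 (by nlinarith only [hcc, ha2, ht0, hcH])
    refine per_v U _ P Q hsub (fun k hk hk0 => hPS _ k _ (hT.1.trans (hbig a ha1)) hk0
      ((hkN k hk).trans ?_) hsub) (by rw [Real.log_exp]; positivity) hr2 (hK _ P Q _ hS' hy0.le)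
      (hLow _ P Q _ _ hS' (hT.2.2.1.trans hyT) hQ (by linarith only [hct, ht4, ha2, ht0]))
      (mul_pow ε _ 2 ▸ hHM _ P Q _ U hS' (hT.2.2.2.1.trans hyT) (hQ.trans hcy) (hUc.trans hcy)
        fun k hk => (hkN k hk).trans ?_) hc1 (hc11.trans hK1) hy0.le (by positivity)
      (arith (zero_le_one.trans hK1) hCs.le hc1 (one_pos.trans_le hr1') (by positivity) ht0 ha0 hr
        haj)
    · rw [← Real.exp_nat_mul, mul_comm]
      exact Real.exp_le_exp.2 haj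
    · rw [← Real.exp_nat_mul]
      exact Real.exp_le_exp.2 (by push_cast; linarith only [ha2, ht0])
  have ha0 : 0 ≤ 1 / LL (P 0) (Q 0) := by positivity
  have hA := (mink U _ (Asum gr J P Q (Real.exp t)) _ ha0).trans (add_le_add
    (Real.sqrt_le_iff.2 ⟨by positivity, (sum_le_sum_of_subset_of_nonneg hUs
      fun _ _ _ => by positivity).trans (hD gr gr_mul abs_gr_le)⟩)
    (mul_le_mul_of_nonneg_left (sum_le_sum hv) ha0))
  rw [sum_add_distrib, sum_add_distrib, ← mul_sum, ← mul_sum, ← mul_sum, sum_const, card_range,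
    nsmul_eq_mul] at hA
  refine fin hM0 hθ0 hθ1 hc1 hε hW ?_ ?_ ?_ (by linarith only [hF, hU]) hA
  · have h8 := (single_le_sum (fun _ _ => by positivity)
      (by simp : (0 : ℤ) ∈ Icc (-(N : ℤ)) N)).trans (hD (fun _ => 1) (by simp) (by simp))
    simp only [Asum_one, Psum_one, ← Complex.ofReal_sum, ← Complex.ofReal_mul,
      ← Complex.ofReal_sub, Complex.norm_real, Real.norm_eq_abs] at h8
    linarith only [(abs_le.1 (le_of_sq_le_sq h8 (by positivity))).1]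
  · refine (mul_le_of_le_one_left (by positivity) ((div_le_one hL0).2 hL)).trans
      ((mul_le_mul_of_nonneg_right hV (by positivity)).trans (le_of_eq ?_))
    field_simp
    ring
  · exact (mul_le_mul_of_nonneg_left (sum_card_le (hP0 ▸ Real.exp_pos _) hH _) ha0).trans
      (le_of_eq (by field_simp))

end Pool.Agent.Lib.LQ
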