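import Pool.Agent.Lib.LQ.Basic

/-! Blocks MK and VW: the algebra of squares. -/

set_option autoImplicit false

open Finset
open scoped Classical

noncomputable section

namespace Pool.Agent.Lib.LQ

open Pool.Agent.Lib.MP_de94cf_nt (gg det inn gg_mul gg_star gg_sq)

namespace MKVW

lemma det_eq (α β : GI) : det α β = (star α * β).im := by rw [star_mul_eq]

lemma inn_eq (α β : GI) : inn α β = (star α * β).re := by rw [star_mul_eq]

lemma norm_cast_eq (α : GI) : ((α.norm : ℤ) : GI) = α * star α := Zsqrtd.norm_eq_mul_conj α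

lemma hq' {s : Sq} (h : s.Valid) : s.Q * star s.Q = s.P * star s.P - s.k * s.y := by
  rw [← norm_cast_eq, ← norm_cast_eq, h.hq]; push_cast; ring

lemma valid4 {s : Sq} (h : s.Valid) (hP : s.P ≠ 0) : s.v4.Valid := by
  refine ⟨?_, ?_, ?_, ?_, hP⟩ <;> simp only [Sq.v4]
  · rw [h.h4]; refine Eq.trans ?_ h.hdet; simp [det]; ring
  · rw [h.h4]; push_cast; ring
  · refine mul_right_cancel₀ (star_ne_zero.2 h.hQ) ?_
    linear_combination star s.P * h.h3 - s.y * h.h4 - s.a1 * hq' h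
  · rw [h.hq]; ring

lemma key2 {s : Sq} (h : s.Valid) : star (star s.a3) * (-star s.a2 * star s.Q) =
    -star (star s.a1 * (s.a2 * star s.P)) - ((s.y * nm s.a2 : ℤ) : GI) := by
  push_cast
  simp only [star_mul, star_star, ← mul_star_eq]
  linear_combination -star s.a2 * h.h3

lemma valid2 {s : Sq} (h : s.Valid) (hP : s.P ≠ 0) : s.v2.Valid := by
  refine ⟨?_, ?_, ?_, ?_, hP⟩ <;> simp only [Sq.v2]
  · refine Eq.trans ?_ h.hdet
    rw [det_eq, key2 h, det_eq, Zsqrtd.im_sub, Zsqrtd.im_intCast]; simp; ring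
  · have : s.a4 * s.P = s.a2 * s.Q + s.k * s.a3 := by
      refine mul_right_cancel₀ (star_ne_zero.2 h.hQ) ?_
      linear_combination s.P * h.h4 - s.k * h.h3 - s.a2 * hq' h
    have := congrArg star this
    simp only [star_mul, star_add, star_intCast] at this
    push_cast
    linear_combination -this
  · have := congrArg star h.h3
    simp only [star_mul, star_add, star_intCast, star_star] at this
    linear_combination -this
  · rw [h.hq]; ring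

lemma n4 {s : Sq} (h : s.Valid) : s.v4.n1 = s.n1 + s.k * nm s.a1 := by
  simp only [Sq.v4, Sq.n1]
  rw [h.h4, nm_int]; simp [inn, Zsqrtd.norm]; ring

lemma n2 {s : Sq} (h : s.Valid) : s.v2.n1 = -(s.n1 + s.y * nm s.a2) := by
  simp only [Sq.v2, Sq.n1]
  rw [inn_eq, key2 h, inn_eq, Zsqrtd.re_sub, Zsqrtd.re_intCast]; simp; ring

lemma gg_neg (α : GI) : gg (-α) = gg α := by simp [gg]

lemma ff_n1 {s : Sq} (h : s.Valid) : ff s.n1.natAbs = gg s.a1 * (gg s.a2 * gg s.P) := by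
  rw [Sq.n1, ff_eq h.hdet, gg_mul, gg_star]

lemma nrm {s : Sq} (h : s.Valid) : (nm s.a1 : ℤ) * nm s.a2 * nm s.P = s.n1 ^ 2 + 1 := by
  have := nm_mul_nm s.a1 (s.a2 * star s.P)
  rw [h.hdet, nm_mul, nm_star] at this
  push_cast at this
  rw [mul_assoc, this, Sq.n1]

lemma ne12 {s : Sq} (h : s.Valid) : s.a1 ≠ 0 ∧ s.a2 ≠ 0 := by
  have := nrm h
  constructor <;> intro h0 <;> rw [nm_eq_zero.2 h0] at this <;> simp at this <;> nlinarith

lemma N2 (s : Sq) : s.v2.N6 = s.N6 := by simp only [Sq.N6, Sq.v2, nm_neg, nm_star]; ring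

lemma N4 (s : Sq) : s.v4.N6 = s.N6 := by simp only [Sq.N6, Sq.v4]; ring

lemma core2 {v a e f : ℕ} {z : ℝ} {s : Sq} (h : s.Core v a e f z) : s.v2.Core v a e f z :=
  ⟨N2 s ▸ h.sq6, N2 s ▸ h.yc, N2 s ▸ h.sz, h.sfQ, h.sfP, h.cop.symm, h.bigQ, h.bigP, h.sgQ, h.sgP,
    h.QP, h.PQ, h.ne.symm, h.loQ, h.hiQ, h.loP, h.hiP, h.ypos, h.sfy, h.sgy, h.loy, h.hiy,
    (Int.natAbs_neg s.k).symm ▸ h.sgk⟩

lemma core4 {v a e f : ℕ} {z : ℝ} {s : Sq} (h : s.Core v a e f z) : s.v4.Core v a e f z :=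
  ⟨N4 s ▸ h.sq6, N4 s ▸ h.yc, N4 s ▸ h.sz, h.sfQ, h.sfP, h.cop.symm, h.bigQ, h.bigP, h.sgQ, h.sgP,
    h.QP, h.PQ, h.ne.symm, h.loQ, h.hiQ, h.loP, h.hiP, h.ypos, h.sfy, h.sgy, h.loy, h.hiy,
    (Int.natAbs_neg s.k).symm ▸ h.sgk⟩

lemma inj2 : Function.Injective Sq.v2 :=
  Function.Involutive.injective fun s => by simp [Sq.v2]

lemma inj4 : Function.Injective Sq.v4 :=
  Function.Involutive.injective fun s => by simp [Sq.v4]

/-- the real inequalities behind the size conditions -/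
lemma size_aux {C X n y k p q A1 A2 A3 A4 : ℝ} (hC : 1 ≤ C) (hX : 1 ≤ X) (hy : 0 < y)
    (hq : 0 < q) (hqp : q < p) (hpq : p ≤ 2 * q) (hk : q = p - k * y) (h1 : 0 ≤ A1) (h3 : 0 ≤ A3)
    (h4 : 0 ≤ A4) (l1 : X / C ≤ n) (u1 : n ≤ C * X) (l2 : X / C ≤ y * A2) (u2 : y * A2 ≤ C * X)
    (e1 : A1 * A2 * p = n ^ 2 + 1) (e2 : A3 * A2 * q = (n + y * A2) ^ 2 + 1)
    (e4 : A1 * A4 * q = (n + k * A1) ^ 2 + 1) :
    0 ≤ k * A1 ∧ k * A1 ≤ 2 * C ^ 3 * X ∧ 0 ≤ k * A3 ∧ k * A3 ≤ 5 * C ^ 3 * X ∧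
      y * A2 ≤ y * A4 ∧ y * A4 ≤ 20 * C ^ 9 * X := by
  have hk0 : 0 < k := pos_of_mul_pos_right (a := y) (by nlinarith) hy.le
  have hB : 0 < X / C := by positivity
  have hp := hq.trans hqp
  have hn : 0 < n := hB.trans_le l1
  have hA : 0 < y * A2 := hB.trans_le l2
  have hA2 : 0 < A2 := (pos_iff_pos_of_mul_pos hA).1 hy
  have hCX : 1 ≤ C * X := one_le_mul_of_one_le_of_one_le hC hX
  have l2' : X ≤ C * (y * A2) := by rwa [div_le_iff₀' (by positivity)] at l2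
  have l1' : X ≤ C * n := by rwa [div_le_iff₀' (by positivity)] at l1
  have bd : ∀ t c : ℝ, 0 ≤ t → t * (y * A2) ≤ c * (C * X) ^ 2 → t ≤ c * C ^ 3 * X := by
    intro t c ht h
    refine le_of_mul_le_mul_right ?_ (show 0 < X by positivity)
    calc t * X ≤ t * (C * (y * A2)) := by gcongr
      _ = C * (t * (y * A2)) := by ring
      _ ≤ C * (c * (C * X) ^ 2) := by gcongr
      _ = _ := by ring
  have a1 : 0 ≤ k * A1 := by positivity
  have a2 : k * A1 ≤ 2 * C ^ 3 * X := bd _ _ a1 (by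
    calc k * A1 * (y * A2) = A1 * A2 * (k * y) := by ring
      _ ≤ A1 * A2 * p := by gcongr; linarith
      _ ≤ (C * X) ^ 2 + (C * X) ^ 2 := by rw [e1]; gcongr; exact one_le_pow₀ hCX
      _ = _ := by ring)
  have a3 : 0 ≤ k * A3 := by positivity
  have a4 : k * A3 ≤ 5 * C ^ 3 * X := bd _ _ a3 (by
    calc k * A3 * (y * A2) = A3 * A2 * (k * y) := by ring
      _ ≤ A3 * A2 * q := by gcongr; linarith
      _ ≤ (C * X + C * X) ^ 2 + (C * X) ^ 2 := by rw [e2]; gcongr; exact one_le_pow₀ hCX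
      _ = _ := by ring)
  have hA1 : 0 < A1 := h1.lt_of_ne fun h => by rw [← h] at e1; nlinarith
  refine ⟨a1, a2, a3, a4, mul_le_mul_of_nonneg_left ?_ hy.le, ?_⟩
  · refine le_of_mul_le_mul_right ?_ (mul_pos hA1 hq)
    calc A2 * (A1 * q) ≤ A2 * (A1 * p) := by gcongr
      _ = n ^ 2 + 1 := by rw [← e1]; ring
      _ ≤ (n + k * A1) ^ 2 + 1 := by gcongr; linarith
      _ = _ := by rw [← e4]; ring
  · have c3 : C * X ≤ C ^ 3 * X := by gcongr; exact le_self_pow₀ hC (by norm_num)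
    refine le_of_mul_le_mul_right ?_ (show 0 < X ^ 2 by positivity)
    calc y * A4 * X ^ 2 ≤ y * A4 * (C * n) ^ 2 := by gcongr
      _ ≤ y * A4 * (C ^ 2 * (n ^ 2 + 1)) := by rw [mul_pow]; gcongr; linarith
      _ = C ^ 2 * (y * A2) * (A1 * A4 * p) := by rw [← e1]; ring
      _ ≤ C ^ 2 * (C * X) * (A1 * A4 * (2 * q)) := by gcongr
      _ = C ^ 2 * (C * X) * (2 * ((n + k * A1) ^ 2 + 1)) := by rw [← e4]; ring
      _ ≤ C ^ 2 * (C * X) * (2 * ((C ^ 3 * X + 2 * C ^ 3 * X) ^ 2 + (C ^ 3 * X) ^ 2)) := by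
        gcongr
        · exact u1.trans c3
        · exact one_le_pow₀ (hCX.trans c3)
      _ = _ := by ring

end MKVW

open MKVW

theorem VW : VWStmt := by
  refine ⟨fun s h hP => ?_, fun v a e f z s h => ⟨core2 h, core4 (core2 h), core4 h⟩,
    fun v z s => ?_, ⟨inj2, inj4.comp inj2, inj4⟩, fun C hC => ⟨20 * C ^ 9, ?_, ?_⟩⟩
  · have h2 := valid2 h hP
    have h3 : s.v3.Valid := valid4 h2 h.hQ
    have h4 := valid4 h hP
    refine ⟨h2, h3, h4, ?_⟩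
    rw [ff_n1 h, ff_n1 h2, ff_n1 h3, ff_n1 h4]
    simp only [Sq.v3, Sq.v2, Sq.v4, gg_neg, gg_star]
    calc _ = gg s.a1 * gg s.a1 * (gg s.a2 * gg s.a2) * (gg s.a3 * gg s.a3) * (gg s.a4 * gg s.a4) *
        (gg s.P * gg s.P) * (gg s.Q * gg s.Q) := by ring
      _ = 1 := by
        rw [gg_sq (ne12 h).1, gg_sq (ne12 h).2, gg_sq (star_ne_zero.1 (ne12 h2).1),
          gg_sq (z := s.a4) (ne12 h4).2, gg_sq hP, gg_sq h.hQ]
        rfl
  · simp only [Sq.W, Sq.v3, Sq.v2, Sq.v4, om_neg, om_star]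
    exact ⟨by ring, by ring, by ring⟩
  · have := one_le_pow₀ (n := 9) hC
    linarith
  intro X s hX h hn hy hqp hpq hs
  have hP : s.P ≠ 0 := fun h0 => by rw [nm_eq_zero.2 h0] at hqp; omega
  have h2 := valid2 h hP
  have h4 := valid4 h hP
  have e1 := nrm h
  have e2 := nrm h2
  have e4 := nrm h4
  have e3 : s.v3.n1 = _ := n4 h2
  rw [n2 h] at e2 e3
  rw [n4 h] at e4
  have hq := h.hq
  rw [← nm_int, ← nm_int] at hq
  simp only [Sq.v2, Sq.v4, nm_neg, nm_star, neg_sq] at e2 e3 e4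
  obtain ⟨l1, u1, l2, u2⟩ := hs
  have hn' : (0 : ℝ) < s.n1 := by exact_mod_cast hn
  rw [abs_of_pos hn'] at l1 u1
  obtain ⟨a1, a2, a3, a4, a5, a6⟩ := size_aux (p := nm s.P) (q := nm s.Q) (k := s.k)
    (A1 := nm s.a1) (A3 := nm s.a3) (A4 := nm s.a4) hC hX (by exact_mod_cast hy)
    (by exact_mod_cast Nat.pos_of_ne_zero (nm_eq_zero.not.2 h.hQ)) (by exact_mod_cast hqp)
    (by exact_mod_cast hpq) (by exact_mod_cast hq) (by positivity) (by positivity) (by positivity)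
    l1 u1 l2 u2 (by exact_mod_cast e1) (by exact_mod_cast e2) (by exact_mod_cast e4)
  have c1 : C * X ≤ C ^ 9 * X := by gcongr; exact le_self_pow₀ hC (by norm_num)
  have c3 : C ^ 3 * X ≤ C ^ 9 * X := by gcongr; norm_num
  have c0 : X / (20 * C ^ 9) ≤ X / C := by
    gcongr
    linarith [le_self_pow₀ hC (show 9 ≠ 0 by norm_num)]
  have c2 : 0 < X / C := by positivity
  refine ⟨⟨?_, ?_, ?_, ?_⟩, ⟨?_, ?_, ?_, ?_⟩, ⟨?_, ?_, ?_, ?_⟩⟩
  all_goals first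
    | rw [n2 h]; push_cast; rw [abs_neg, abs_of_nonneg (by linarith)]; linarith
    | rw [e3]; push_cast; rw [abs_of_nonpos (by linarith)]; linarith
    | rw [n4 h]; push_cast; rw [abs_of_nonneg (by linarith)]; linarith
    | simp only [Sq.v3, Sq.v2, Sq.v4, nm_neg, nm_star]; linarith

theorem MK : MKStmt := by
  intro v a e f z S ρ W1 Y0 C1 t γ _ hL hA hdet hS h2 hρ hQ
  have g2 := hA.sub2.trans hL.sub
  have g3 := hA.sub3.trans hL.sub
  have hU : pr (t.S2 ∪ t.S3) = pr t.S2 * pr t.S3 := prod_union hA.disj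
  have dU : pr t.S2 * pr t.S3 ∣ pr S :=
    hU ▸ prod_dvd_prod_of_subset _ _ _ (union_subset hA.sub2 hA.sub3)
  have dN : pr t.S2 * (pr t.S3 * ρ) ∣ pr S * ρ := mul_assoc _ _ ρ ▸ mul_dvd_mul_right dU ρ
  have n0 : pr t.S2 * (pr t.S3 * ρ) ≠ 0 :=
    ne_zero_of_dvd_ne_zero (nm_eq_zero.not.1 hL.sf.ne_zero) dN
  have q0 : star t.Q ≠ 0 := star_ne_zero.2 (nm_eq_zero.not.1 hA.sfq.ne_zero)
  have co : IsCoprime (star t.Q) (pr t.S2 * (pr t.S3 * ρ)) :=
    (isCoprime_of_nm (by rw [nm_star]; exact hA.copq)).of_isCoprime_of_dvd_right dN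
  obtain ⟨a1, h1⟩ : pr t.S2 * (pr t.S3 * ρ) ∣ γ.1 :=
    dN.trans ((isCoprime_of_nm (Nat.coprime_of_squarefree_mul (nm_mul _ ρ ▸ hL.sf))).mul_dvd
      (pr_dvd hL.sub fun π hπ => (mem_sm.1 (hS ▸ hπ)).2) hρ)
  have hk : t.Q.norm = (pr t.S3 * ρ).norm - t.k ρ * t.y := by
    rw [Tt.k, Int.ediv_mul_cancel hA.ydvd, ← nm_int, ← nm_int, Tt.p, Tt.q]; ring
  have hk' : t.Q * star t.Q = pr t.S3 * ρ * star (pr t.S3 * ρ) - t.k ρ * t.y := by
    rw [← norm_cast_eq, ← norm_cast_eq, hk]; push_cast; ring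
  have e3 : t.L3 γ = pr t.S2 * (pr t.S3 * ρ * a1 + t.y * (star (pr t.S2) * γ.2)) := by
    simp only [Tt.L3, Lf, Tt.c]; push_cast; rw [← mul_star_eq, h1]; ring
  have e4 : t.L4 ρ γ = pr t.S2 * (pr t.S3 * ρ) *
      (star (pr t.S2) * γ.2 * star (pr t.S3 * ρ) + t.k ρ * a1) := by
    simp only [Tt.L4, Lf, Tt.m, Tt.p]; push_cast; rw [← mul_star_eq, ← mul_star_eq, h1]; ring
  obtain ⟨a3, h3⟩ := co.of_mul_right_left.dvd_of_dvd_mul_left (e3 ▸ hQ)
  obtain ⟨a4, h4⟩ : star t.Q ∣ star (pr t.S2) * γ.2 * star (pr t.S3 * ρ) + t.k ρ * a1 :=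
    co.of_mul_right_right.dvd_of_dvd_mul_left ⟨t.k ρ * a3 + t.Q * (star (pr t.S2) * γ.2), by
      linear_combination (t.k ρ : GI) * h3 - star (pr t.S2) * γ.2 * hk'⟩
  have f3 : t.L3 γ = a3 * (pr t.S2 * star t.Q) := by rw [e3, h3]; ring
  have f4 : t.L4 ρ γ = a4 * (pr t.S2 * (pr t.S3 * ρ) * star t.Q) := by rw [e4, h4]; ring
  have E : mkSq ρ γ t = ⟨a1, star (pr t.S2) * γ.2, a3, a4, pr t.S3 * ρ, t.Q, t.y, t.k ρ⟩ := by
    rw [mkSq, f3, f4, mul_div_cancel_right₀ _ (mul_ne_zero (left_ne_zero_of_mul n0) q0),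
      mul_div_cancel_right₀ _ (mul_ne_zero n0 q0), h1, mul_div_cancel_left₀ _ n0]
  have key : star a1 * (star (pr t.S2) * γ.2 * star (pr t.S3 * ρ)) = star γ.1 * γ.2 := by
    rw [h1]; simp only [star_mul]; ring
  have s2 : sm (ww v) z (star (star (pr t.S2) * γ.2)) = t.S2 := by
    rw [star_mul, star_star, sm_mul, sm_star, h2, sm_pr g2]; simp
  have s3 : sm (ww v) z (pr t.S3 * ρ) = t.S3 := by
    rw [sm_mul, sm_pr g3, sm_eq_empty_iff.2 fun l hl hd =>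
      (hL.rough l (mem_PP.1 hl).1 hd).not_ge (mem_PP.1 hl).2.2.2, union_empty]
  rw [E]
  refine ⟨⟨by rw [det_eq, key, ← det_eq, hdet], by rw [h4, mul_comm], by
    push_cast; rw [h3, mul_comm], hk, star_ne_zero.1 q0⟩, by rw [Sq.n1, inn_eq, key, ← inn_eq],
    by rw [h1, mul_comm], f3, f4, s2, s3, fun hN => ?_⟩
  have d : Disjoint (sm (ww v) z a1) (t.S2 ∪ t.S3) := disjoint_left.2 fun π hπ hπ' => by
    obtain ⟨p1, p2⟩ := mem_sm.1 hπ
    refine hN _ (mem_GF.1 p1).1 ?_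
    rw [sq, Sq.N6]
    rcases mem_union.1 hπ' with h | h
    · have := nm_dvd (mem_sm.1 (s2 ▸ h)).2
      rw [nm_star] at this
      exact ((((mul_dvd_mul (nm_dvd p2) this).mul_right _).mul_right _).mul_right _).mul_right _
    · exact (mul_dvd_mul ((((nm_dvd p2).mul_right _).mul_right _).mul_right _)
        (nm_dvd (mem_sm.1 (s3 ▸ h)).2)).mul_right _
  rw [← om_star _ _ (star (pr t.S2) * γ.2), om, om, om, s2, s3, add_assoc,
    ← card_union_of_disjoint hA.disj, ← card_union_of_disjoint d, ← hS, h1, sm_mul, sm_mul, s3,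
    sm_pr g2, union_comm]

end Pool.Agent.Lib.LQ
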