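import Pool.Agent.Lib.LQ.NUAux3

/-! Block NU: the mass of the typical objects of the wrong sign. -/

set_option autoImplicit false

open Finset
open scoped Classical

noncomputable section

namespace Pool.Agent.Lib.LQ

open Pool.Agent.Lib.MP_de94cf_nt (gg det inn)

namespace NUa

lemma mert_a {Cm : ℝ}
    (h : ∀ y z : ℝ, 2 ≤ y → y ≤ z → |Lam y z - Real.log (Real.log z / Real.log y)| ≤ Cm)
    {v : ℕ} (hv : 3 ≤ v) {z : ℝ} (hz : ww v ≤ z) :
    Real.exp (-Lam (ww v) z) * Real.log z ≤ Real.exp Cm * (4 * Real.log v) := by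
  have hv' : (3 : ℝ) ≤ v := by exact_mod_cast hv
  have hw : 2 ≤ ww v := by
    unfold ww
    have : (3 : ℝ) ^ 4 ≤ (v : ℝ) ^ 4 := pow_le_pow_left₀ (by norm_num) hv' 4
    linarith
  have k := (abs_le.1 (h _ _ hw hz)).1
  have l1 : 0 < Real.log (ww v) := Real.log_pos (by linarith)
  have l2 : 0 < Real.log z := Real.log_pos (by linarith)
  have e : Real.log (ww v) = 4 * Real.log v := by unfold ww; rw [Real.log_pow]; norm_num
  have k2 : Real.exp (-Lam (ww v) z) ≤ Real.exp (Cm - Real.log (Real.log z / Real.log (ww v))) :=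
    Real.exp_le_exp.2 (by linarith)
  rw [Real.exp_sub, Real.exp_log (by positivity), div_div_eq_mul_div, le_div_iff₀ l2] at k2
  rwa [← e]

lemma mert_b {Cm : ℝ}
    (h : ∀ y z : ℝ, 2 ≤ y → y ≤ z → |Lam y z - Real.log (Real.log z / Real.log y)| ≤ Cm)
    {z : ℝ} (hz : 2 ≤ z) {n m b : ℕ} (hn : 1 ≤ n) (hb : 1 ≤ b) (hm : m = n * b) :
    Lam (z ^ n) (z ^ m) ≤ Real.log b + |Cm| := by
  have h1 : (1 : ℝ) ≤ z := by linarith
  have h2 : 2 ≤ z ^ n := hz.trans (by simpa using pow_le_pow_right₀ h1 hn)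
  have h3 : z ^ n ≤ z ^ m := pow_le_pow_right₀ h1 (by rw [hm]; nlinarith)
  have k := (abs_le.1 (h _ _ h2 h3)).2
  have l : 0 < Real.log z := Real.log_pos (by linarith)
  have hn' : (0 : ℝ) < n := by exact_mod_cast hn
  have e : Real.log (z ^ m) / Real.log (z ^ n) = b := by
    rw [Real.log_pow, Real.log_pow, hm]; push_cast; field_simp
  rw [e] at k
  have := le_abs_self Cm
  linarith

lemma mert_c {Cm : ℝ}
    (h : ∀ y z : ℝ, 2 ≤ y → y ≤ z → |Lam y z - Real.log (Real.log z / Real.log y)| ≤ Cm)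
    {v : ℕ} (hv : 3 ≤ v) {z L : ℝ} (hz : ww v ≤ z)
    (hz2 : Real.exp (Real.exp L * (Real.exp Cm * (4 * Real.log v))) ≤ z) : L ≤ Lam (ww v) z := by
  have k := mert_a h hv hz
  have hv' : (3 : ℝ) ≤ v := by exact_mod_cast hv
  have l0 : 0 < Real.log v := Real.log_pos (by linarith)
  have k2 : Real.exp L * (Real.exp Cm * (4 * Real.log v)) ≤ Real.log z := by
    rw [Real.le_log_iff_exp_le ((Real.exp_pos _).trans_le hz2)]; exact hz2
  have p : 0 < Real.exp Cm * (4 * Real.log v) := by positivity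
  have k3 : Real.exp (-Lam (ww v) z) * Real.exp L * (Real.exp Cm * (4 * Real.log v)) ≤
      1 * (Real.exp Cm * (4 * Real.log v)) := by
    rw [mul_assoc, one_mul]
    exact (mul_le_mul_of_nonneg_left k2 (Real.exp_pos _).le).trans k
  have k4 := le_of_mul_le_mul_right k3 p
  rw [← Real.exp_add, Real.exp_le_one_iff] at k4
  linarith

end NUa

open NUa in
theorem NU (h0 : MertensStmt) (h1 : V1Stmt) (h2 : UIStmt) (h3 : MKStmt) (h4 : VWStmt) :
    NUStmt := by
  obtain ⟨Cm, hM⟩ := h0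
  obtain ⟨KV, c, hc, hV⟩ := h1
  obtain ⟨KU, uU, hU⟩ := h2
  obtain ⟨ze, hze⟩ := exp_Lam_le 2
  set K := |KV| + |KU| + 3 with hK
  have aV := abs_nonneg KV
  have aU := abs_nonneg KU
  refine ⟨K, fun R C0 a0 b hR ha0 hb => ?_⟩
  have hR4 : 1 ≤ R ^ 4 := one_le_pow₀ hR
  obtain ⟨C2, hC2, hS⟩ := h4.2.2.2.2 (32 * R ^ 4) (by linarith)
  set L := Real.log b + |Cm| with hL
  refine ⟨(42 * R ^ 2 * K + 1) * ((a0 + 2) * L * L * (4 * Real.exp Cm)), C2, hC2,
    fun δ hδ => ?_⟩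
  obtain ⟨uV, hV⟩ := hV δ hδ
  refine ⟨max uV uU, fun v a1 E hv hu ha => ?_⟩
  have hv3 : (3 : ℝ) ≤ v := by linarith
  have hv3' : 3 ≤ v := by exact_mod_cast hv3
  have ha1 : 1 ≤ a1 := ha0.trans ha
  have hex : ∀ u, u ≤ a1 → ExpOK u (3 * a1) (36 * a1 * b) (396 * a1 * b ^ 2) := by
    intro u hu
    have t1 : a1 * 2 ≤ a1 * b := Nat.mul_le_mul_left _ hb
    have t2 : a1 * b * 2 ≤ a1 * b * b := Nat.mul_le_mul_left _ hb
    refine ⟨by omega, by omega, by nlinarith, by nlinarith⟩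
  have huV : uV ≤ a1 := (le_max_left _ _).trans hu
  have huU : uU ≤ a1 := (le_max_right _ _).trans hu
  obtain ⟨zV, hV⟩ := hV v a1 _ _ C0 (by linarith [le_abs_self KV]) huV (hex _ huV)
  obtain ⟨Cu, zU, hU⟩ := hU v (3 * a1) _ _ E C2 (by linarith [le_abs_self KU]) (hex _ huU) hC2
  refine ⟨3 * Cu * (WW v : ℝ) ^ 3 / c, max (max (max zV zU) (max ze (ww v)))
    (max (max (8 * R ^ 4) (16 * (v : ℝ) ^ 2))
      (Real.exp (Real.exp (20 * |C0|) * (Real.exp Cm * (4 * Real.log v))))),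
    fun z X σ O hz hX hXE hσ hO => ?_⟩
  simp only [max_le_iff] at hz
  obtain ⟨⟨⟨z1, z2⟩, z3, z4⟩, ⟨z5, z6⟩, z7⟩ := hz
  have H : Big v a0 a1 b R z X := ⟨hR, by omega, ha0, ha, hb, z5, z6, hX⟩
  have hz2 : 2 ≤ z := by have := H.z8; linarith
  have hX1 := H.X1
  set Λ := Lam (ww v) z with hΛ
  set μ := c * Real.exp (-(5 / 2) * Λ) / (WW v : ℝ) ^ 3 with hμ
  set A := (δ + K / v) * K with hA
  have hW : (0 : ℝ) < WW v := by exact_mod_cast primorial_pos _
  have hμ0 : 0 < μ := by positivity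
  have hA0 : 0 ≤ A := by positivity
  have hconc : Conc v a1 b C0 z X A μ := by
    intro Y0 S ρ C D l1 l2 l3
    refine (hV z X Y0 S ρ C D z1 hX l1 l2 l3).trans (add_le_add_left ?_ _)
    have n0 : 0 ≤ Nlab v z S ρ C D := by
      unfold Nlab
      have := psi_pos (nm (pr S * ρ))
      positivity
    apply mul_le_mul_of_nonneg_right _ n0
    calc (δ + KV / v) * KV = δ * KV + |KV| * |KV| / v := by rw [abs_mul_abs_self]; ring
      _ ≤ δ * K + K * K / v := by
          have := le_abs_self KV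
          gcongr <;> linarith
      _ = A := by rw [hA]; ring
  have hviews : Views v (3 * a1) (36 * a1 * b) (396 * a1 * b ^ 2) z X C2
      (Cu * Real.exp (-(3 / 2) * Λ) *
        Real.sqrt (X * Real.sqrt (X * (BadN σ X C2).card))) (BadN σ X C2) := by
    intro x F hx hx2 hF
    refine hU z X x F _ z2 hX hXE hx hx2 (fun n hn => ?_) hF
    have := Nat.lt_succ_iff.1 (mem_range.1 (mem_filter.1 hn).1)
    exact (Nat.le_floor_iff (by positivity)).1 this
  have hexp : Real.exp (2 * Λ) ≤ z := by simpa using hze (ww v) z z3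
  have hb1 : 1 ≤ b := by omega
  have s1 := exc_sum (L1 := L) (L2 := L) H hA0 hconc hexp
    (mert_b hM hz2 (by nlinarith) hb1 (by ring)) (mert_b hM hz2 (by omega) hb1 rfl)
    (E := O.filter fun o => Zs v a1 b z X o < μ)
    fun o ho => ⟨(hO o (mem_filter.1 ho).1).1, (mem_filter.1 ho).2⟩
  have s2 := good_sum (μ := μ) h3 h4 H hσ (mert_c hM hv3' z4 z7) (fun s => hS X s hX1) hviews
    (E := O.filter fun o => ¬ Zs v a1 b z X o < μ)
    fun o ho => ⟨(hO o (mem_filter.1 ho).1).1, (hO o (mem_filter.1 ho).1).2,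
      not_lt.1 (mem_filter.1 ho).2⟩
  rw [← sum_mul, ← sum_filter_add_sum_filter_not O fun o => Zs v a1 b z X o < μ, add_mul]
  apply add_le_add
  · have m1 := mert_a hM hv3' z4
    have hL0 : 0 ≤ L := by
      have : 0 ≤ Real.log b := Real.log_nonneg (by exact_mod_cast hb1)
      positivity
    have t1 : 42 * R ^ 2 * A + 1 / v ≤ (δ + K / v) * (42 * R ^ 2 * K + 1) := by
      have : 1 / (v : ℝ) ≤ K / v := by gcongr; linarith
      rw [hA]; nlinarith
    have lv : 0 ≤ Real.log v := Real.log_nonneg (by linarith)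
    calc _ ≤ (42 * R ^ 2 * A + 1 / v) * X * ((a0 + 2) * Real.log z) * L * L * Real.exp (-Λ) :=
          mul_le_mul_of_nonneg_right s1 (Real.exp_pos _).le
      _ = (42 * R ^ 2 * A + 1 / v) * (X * (a0 + 2) * L * L) * (Real.exp (-Λ) * Real.log z) := by
          ring
      _ ≤ (δ + K / v) * (42 * R ^ 2 * K + 1) * (X * (a0 + 2) * L * L) *
            (Real.exp Cm * (4 * Real.log v)) := by
          have : 0 ≤ Real.exp (-Λ) * Real.log z :=
            mul_nonneg (Real.exp_pos _).le (Real.log_nonneg H.one_le)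
          gcongr
      _ = _ := by ring
  · have e : Real.exp (-(5 / 2) * Λ) = Real.exp (-(3 / 2) * Λ) * Real.exp (-Λ) := by
      rw [← Real.exp_add]; congr 1; ring
    have p3 := Real.exp_pos (-(3 / 2) * Λ)
    have p1 := Real.exp_pos (-Λ)
    rw [← le_div_iff₀ hμ0] at s2
    refine (mul_le_mul_of_nonneg_right s2 p1.le).trans (le_of_eq ?_)
    rw [hμ, e]
    field_simp

end Pool.Agent.Lib.LQ
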