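import Pool.Agent.Lib.LQ.Basic
import Pool.Agent.Lib.MP_de94cf_nt.Divisor

set_option autoImplicit false

open Finset
open scoped Classical

noncomputable section

namespace Pool.Agent.Lib.LQ

open Pool.Agent.Lib.MP_de94cf_nt (gg det inn tau tau_mul_le tau_pos count_roots)

namespace OC

lemma split (P : ℕ → Prop) {M : ℕ} (hM : M ≠ 0) : ∃ s t, M = s * t ∧
    (∀ l : ℕ, l.Prime → l ∣ s → P l) ∧ ∀ l : ℕ, l.Prime → l ∣ t → ¬P l := by
  induction M using induction_on_primes with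
  | zero => exact absurd rfl hM
  | one => exact ⟨1, 1, rfl, fun l hl h => (hl.not_dvd_one h).elim,
      fun l hl h => (hl.not_dvd_one h).elim⟩
  | prime_mul p a hp ih =>
    obtain ⟨s, t, rfl, hs, ht⟩ := ih (right_ne_zero_of_mul hM)
    by_cases h : P p
    · exact ⟨p * s, t, by ring, fun l hl hd => (hl.dvd_mul.1 hd).elim
        (fun e => (Nat.prime_dvd_prime_iff_eq hl hp).1 e ▸ h) (hs l hl), ht⟩
    · exact ⟨s, p * t, by ring, hs, fun l hl hd => (hl.dvd_mul.1 hd).elim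
        (fun e => (Nat.prime_dvd_prime_iff_eq hl hp).1 e ▸ h) (ht l hl)⟩

lemma part (P : ℕ → Prop) {M : ℕ} (hM : M ≠ 0) : ∃ s, s ∣ M ∧ (∀ l : ℕ, l.Prime → l ∣ s → P l) ∧
    ∀ d, d ∣ M → (∀ l : ℕ, l.Prime → l ∣ d → P l) → d ∣ s := by
  obtain ⟨s, t, rfl, hs, ht⟩ := split P hM
  exact ⟨s, dvd_mul_right _ _, hs, fun d hd h => Nat.Coprime.dvd_of_dvd_mul_right
    (Nat.coprime_of_dvd fun l hl h1 h2 => ht l hl h2 (h l hl h1)) hd⟩

lemma rough {z : ℝ} (hz : 0 ≤ z) {r : ℕ} (hr : r ≠ 0) (h : ∀ l : ℕ, l.Prime → l ∣ r → z < l) :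
    ∃ k : ℕ, tau r ≤ 2 ^ k ∧ z ^ k ≤ r := by
  induction r using induction_on_primes with
  | zero => exact absurd rfl hr
  | one => exact ⟨0, by simp [tau], by simp⟩
  | prime_mul p a hp ih =>
    obtain ⟨k, h1, h2⟩ := ih (right_ne_zero_of_mul hr) fun l hl hd => h l hl (hd.mul_left p)
    refine ⟨k + 1, (tau_mul_le p a).trans ?_, ?_⟩
    · rw [pow_succ', tau, hp.divisors, card_pair hp.one_lt.ne]
      exact Nat.mul_le_mul_left 2 h1
    · rw [pow_succ', Nat.cast_mul]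
      exact mul_le_mul (h p hp (dvd_mul_right p a)).le h2 (by positivity) (by positivity)

/-- divisors of `M` without prime factors in `(W, z]` -/
def DD (W : ℕ) (z : ℝ) (M : ℕ) : Finset ℕ :=
  M.divisors.filter fun d => ∀ l : ℕ, l.Prime → l ∣ d → l ≤ W ∨ z < l

lemma card_DD (W : ℕ) {z c : ℝ} (hz : 2 ≤ z) (hc : 1 ≤ c) {M E : ℕ} (hM : M ≠ 0)
    (h : M ≤ c * z ^ E) : ∃ s, s ∣ M ∧ s ∈ (W + 1).smoothNumbers ∧
      ((DD W z M).card : ℝ) ≤ c * 2 ^ E * tau s := by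
  obtain ⟨s, hs, hs1, hs2⟩ := part (· ≤ W) hM
  obtain ⟨r, hr, hr1, hr2⟩ := part (fun l => z < l) hM
  have r0 := ne_zero_of_dvd_ne_zero hM hr
  have s0 := ne_zero_of_dvd_ne_zero hM hs
  obtain ⟨k, k1, k2⟩ := rough (by linarith) r0 hr1
  refine ⟨s, hs, Nat.mem_smoothNumbers'.2 fun l hl hd => Nat.lt_succ_of_le (hs1 l hl hd), ?_⟩
  have h1 : (DD W z M).card ≤ tau (r * s) := card_le_card fun d hd => by
    obtain ⟨hd, h⟩ := mem_filter.1 hd
    have hd' := Nat.dvd_of_mem_divisors hd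
    obtain ⟨a, b, rfl, ha, hb⟩ := split (· ≤ W) (ne_zero_of_dvd_ne_zero hM hd')
    refine Nat.mem_divisors.2 ⟨?_, mul_ne_zero r0 s0⟩
    rw [mul_comm]
    exact mul_dvd_mul (hr2 b ((dvd_mul_left b a).trans hd') fun l hl e =>
      (h l hl (e.mul_left a)).resolve_left (hb l hl e)) (hs2 a ((dvd_mul_right a b).trans hd') ha)
  have h2 : (2 : ℝ) ^ k ≤ c * 2 ^ E := by
    rcases le_total k E with e | e
    · exact (pow_le_pow_right₀ one_le_two e).trans (le_mul_of_one_le_left (by positivity) hc)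
    · obtain ⟨j, rfl⟩ := Nat.exists_eq_add_of_le e
      have : z ^ j * z ^ E ≤ c * z ^ E := by
        rw [← pow_add, add_comm]
        exact k2.trans ((Nat.cast_le.2 (Nat.le_of_dvd (Nat.pos_of_ne_zero hM) hr)).trans h)
      rw [pow_add, mul_comm]
      exact mul_le_mul_of_nonneg_right ((pow_le_pow_left₀ zero_le_two hz j).trans
        (le_of_mul_le_mul_right this (by positivity))) (by positivity)
  calc ((DD W z M).card : ℝ) ≤ (2 ^ k * tau s : ℕ) := by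
        exact_mod_cast h1.trans ((tau_mul_le r s).trans (Nat.mul_le_mul_right _ k1))
    _ ≤ _ := by push_cast; gcongr

lemma smooth_sum (N : ℕ) : ∃ K : ℝ, 0 ≤ K ∧ ∀ T : Finset ℕ, (∀ s ∈ T, s ∈ N.smoothNumbers) →
    ∑ s ∈ T, (s : ℝ) ^ (-(1 / 4) : ℝ) ≤ K := by
  let f : ℕ →* ℝ := ⟨⟨fun n => (n : ℝ) ^ (-(1 / 4) : ℝ), by simp⟩, fun a b => by
    simp only [Nat.cast_mul]; exact Real.mul_rpow (by positivity) (by positivity)⟩
  have := (EulerProduct.summable_and_hasSum_smoothNumbers_prod_primesBelow_geometric (f := f)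
    (fun {p} hp => by
      rw [Real.norm_of_nonneg (show 0 ≤ f p from Real.rpow_nonneg p.cast_nonneg _)]
      exact Real.rpow_lt_one_of_one_lt_of_neg (by exact_mod_cast hp.one_lt) (by norm_num)) N).1
  refine ⟨∑' m : N.smoothNumbers, ‖f m‖, tsum_nonneg fun _ => norm_nonneg _, fun T hT => ?_⟩
  rw [← sum_subtype_of_mem _ hT]
  exact (sum_le_sum fun s _ => le_abs_self _).trans (this.sum_le_tsum _ fun _ _ => abs_nonneg _)

lemma moment (N : ℕ) : ∃ K : ℝ, 0 ≤ K ∧ ∀ (Y : ℝ) (B : Finset ℕ) (s : ℕ → ℕ), 1 ≤ Y →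
    (∀ n ∈ B, (n : ℝ) ≤ Y ∧ s n ∣ n ^ 2 + 1 ∧ s n ∈ N.smoothNumbers) →
    ∑ n ∈ B, (tau (s n) : ℝ) ^ 4 ≤ K * Y := by
  obtain ⟨K, K0, hK⟩ := smooth_sum N
  obtain ⟨A, A1, hA⟩ := div_bounds (ε := 1 / 20) (by norm_num)
  refine ⟨5 * A ^ 5 * K, by positivity, fun Y B s hY h => ?_⟩
  rw [sum_comp (fun d => (tau d : ℝ) ^ 4) s]
  refine (sum_le_sum (g := fun d : ℕ => 5 * A ^ 5 * Y * (d : ℝ) ^ (-(1 / 4) : ℝ))
    fun d hd => ?_).trans ?_
  · obtain ⟨n, hn, rfl⟩ := mem_image.1 hd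
    obtain ⟨h1, h2, -⟩ := h n hn
    have d0 : s n ≠ 0 := ne_zero_of_dvd_ne_zero (by positivity) h2
    generalize s n = d at *
    have c1 : (B.filter fun m => s m = d).card ≤ tau d * (⌊Y⌋₊ / d + 1) + 1 := by
      refine (card_le_card (t := insert 0 ((Icc 1 ⌊Y⌋₊).filter fun n => d ∣ n ^ 2 + 1))
        fun m hm => ?_).trans ((card_insert_le _ _).trans (Nat.succ_le_succ (count_roots d _ d0)))
      obtain ⟨hm', e⟩ := mem_filter.1 hm
      rcases m.eq_zero_or_pos with rfl | m0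
      · exact mem_insert_self _ _
      · exact mem_insert_of_mem (mem_filter.2 ⟨mem_Icc.2 ⟨m0, Nat.le_floor (h m hm').1⟩,
          e ▸ (h m hm').2.1⟩)
    have d1 : (1 : ℝ) ≤ d := by exact_mod_cast Nat.pos_of_ne_zero d0
    obtain ⟨u, hu⟩ : ∃ u : ℝ, u = (d : ℝ) ^ (1 / 20 : ℝ) := ⟨_, rfl⟩
    have u1 : 1 ≤ u := hu ▸ Real.one_le_rpow d1 (by norm_num)
    have e1 : (d : ℝ) = u ^ 20 := by rw [hu, ← Real.rpow_natCast, ← Real.rpow_mul (by positivity)]; simp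
    have e2 : (d : ℝ) ^ (-(1 / 4) : ℝ) = u ^ 5 / u ^ 10 := by
      rw [hu, ← Real.rpow_natCast, ← Real.rpow_natCast, ← Real.rpow_mul (by positivity),
        ← Real.rpow_mul (by positivity), ← Real.rpow_sub (by positivity)]
      norm_num
    have t1 : (tau d : ℝ) ≤ A * u := hu ▸ (hA d d0).1
    have t2 : (1 : ℝ) ≤ tau d := by exact_mod_cast tau_pos d0
    have c2 : ((⌊Y⌋₊ / d : ℕ) : ℝ) ≤ Y / u ^ 10 :=
      Nat.cast_div_le.trans (div_le_div₀ (by linarith) (Nat.floor_le (by linarith)) (by positivity)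
        (e1 ▸ pow_le_pow_right₀ u1 (by norm_num)))
    have c3 : 1 ≤ 2 * (Y / u ^ 10) := by
      rw [← mul_div_assoc, one_le_div (by positivity)]
      refine le_of_pow_le_pow_left₀ two_ne_zero (by linarith) ?_
      have : (d : ℝ) ≤ n ^ 2 + 1 := by exact_mod_cast Nat.le_of_dvd (by positivity) h2
      have : (n : ℝ) ^ 2 ≤ Y ^ 2 := by gcongr
      rw [← pow_mul, ← e1]; nlinarith
    have c4 : ((B.filter fun m => s m = d).card : ℝ) ≤ tau d * (5 * (Y / u ^ 10)) := by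
      have : ((B.filter fun m => s m = d).card : ℝ) ≤ tau d * ((⌊Y⌋₊ / d : ℕ) + 1) + 1 := by
        exact_mod_cast c1
      nlinarith
    rw [nsmul_eq_mul, e2]
    calc _ ≤ A * u * (5 * (Y / u ^ 10)) * (A * u) ^ 4 := by
          gcongr; exact c4.trans (by gcongr)
      _ = _ := by ring
  · rw [← mul_sum, mul_right_comm]
    gcongr
    exact hK _ fun d hd => by obtain ⟨n, hn, rfl⟩ := mem_image.1 hd; exact (h n hn).2.2

lemma dvd_of_nm {m : ℤ} {α β : GI} (ha : α ∣ ⟨m, 1⟩) (hb : β ∣ ⟨m, 1⟩) (h : nm α = nm β) :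
    α ∣ β := by
  obtain ⟨δ, hδ⟩ := hb
  have e : β = ((β.re - β.im * m : ℤ) : GI) + β.im * ⟨m, 1⟩ := by ext <;> simp
  have : ((nm β : ℤ) : GI) ∣ star (⟨m, 1⟩ : GI) * ((β.re - β.im * m : ℤ) : GI) :=
    ⟨star δ * (1 - β.im * δ), by
      rw [eq_sub_of_add_eq e.symm, hδ, Int.cast_natCast, ← mul_star_eq, star_mul']; ring⟩
  have := (Zsqrtd.intCast_dvd _ _).1 this
  rw [e]
  refine dvd_add (dvd_trans ⟨star α, by rw [mul_star_eq, h, Int.cast_natCast]⟩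
    (Int.cast_dvd_cast (nm β : ℤ) _ ?_)) (ha.mul_left _)
  rw [dvd_sub_comm]
  simpa using this.2

lemma four {m : ℤ} {d : ℕ} {A : Finset GI} (h : ∀ α ∈ A, α ∣ ⟨m, 1⟩ ∧ nm α = d) : A.card ≤ 4 := by
  rcases A.eq_empty_or_nonempty with rfl | ⟨α, hα⟩
  · simp
  refine (card_le_card (t := image (α * ·) {1, -1, ⟨0, 1⟩, ⟨0, -1⟩}) fun β hβ => ?_).trans
    (card_image_le.trans card_le_four)
  have e := (h α hα).2.trans (h β hβ).2.symm
  obtain ⟨ε, rfl⟩ := dvd_of_nm (h α hα).1 (h β hβ).1 e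
  have a0 : nm α ≠ 0 := fun h0 => by simpa [nm_eq_zero.1 h0, Zsqrtd.ext_iff] using (h α hα).1
  rw [nm_mul, eq_comm, mul_eq_left₀ a0, nm_eq_one] at e
  exact mem_image.2 ⟨ε, by simpa using unit_cases e, rfl⟩

lemma fiber {v : ℕ} {z : ℝ} (m : ℤ) {O : Finset ((GI × GI) × GI)}
    (h : ∀ o ∈ O, det o.1.1 o.1.2 = 1 ∧ inn o.1.1 o.1.2 = m ∧ sm (ww v) z o.1.2 = ∅ ∧
      o.2 ∣ o.1.1 ∧ ∀ l : ℕ, l.Prime → l ∣ nm o.2 → z < (l : ℝ)) :
    O.card ≤ 16 * (DD (v ^ 4 + 2) z (m.natAbs ^ 2 + 1)).card ^ 2 := by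
  have e : ∀ o ∈ O, star o.1.1 * o.1.2 = ⟨m, 1⟩ := fun o ho => by
    rw [star_mul_eq, (h o ho).1, (h o ho).2.1]
  have nn : nm ⟨m, 1⟩ = m.natAbs ^ 2 + 1 := by
    zify; rw [nm_int, Zsqrtd.norm_def]; simp [sq]
  set A := O.image (fun o => o.1.2) ∪ O.image fun o => star o.2 with hA
  have h1 : ∀ α ∈ A, α ∣ ⟨m, 1⟩ ∧ ∀ l : ℕ, l.Prime → l ∣ nm α → l ≤ v ^ 4 + 2 ∨ z < l := by
    intro α hα
    rcases mem_union.1 hα with hα | hα <;> obtain ⟨o, ho, rfl⟩ := mem_image.1 hα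
    · have d : o.1.2 ∣ ⟨m, 1⟩ := e o ho ▸ dvd_mul_left _ _
      refine ⟨d, fun l hl hd => ?_⟩
      by_contra hh
      push Not at hh
      refine sm_eq_empty_iff.1 (h o ho).2.2.1 l (mem_PP.2 ⟨hl, ?_, ?_, hh.2⟩) hd
      · have : Fact l.Prime := ⟨hl⟩
        have h3 := ZMod.mod_four_ne_three_of_sq_eq_neg_one (p := l) (y := (m.natAbs : ZMod l)) (by
          have := (ZMod.natCast_eq_zero_iff _ _).2 (nn ▸ hd.trans (nm_dvd d))
          push_cast at this ⊢; linear_combination this)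
        have := hl.eq_two_or_odd
        omega
      · unfold ww; exact_mod_cast (by omega : v ^ 4 < l)
    · exact ⟨e o ho ▸ (map_dvd (starRingEnd GI) (h o ho).2.2.2.1).mul_right _,
        fun l hl hd => .inr ((h o ho).2.2.2.2 l hl (nm_star o.2 ▸ hd))⟩
  have h2 : A.card ≤ 4 * (DD (v ^ 4 + 2) z (m.natAbs ^ 2 + 1)).card :=
    card_le_mul_card_image_of_maps_to (f := nm) (fun α hα => mem_filter.2 ⟨Nat.mem_divisors.2
      ⟨nn ▸ nm_dvd (h1 α hα).1, by positivity⟩, (h1 α hα).2⟩) 4 fun d _ =>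
      four (m := m) (d := d) fun α hα => ⟨(h1 α (mem_filter.1 hα).1).1, (mem_filter.1 hα).2⟩
  have h3 : O.card ≤ (A ×ˢ A).card := by
    refine card_le_card_of_injOn (fun o => (o.1.2, star o.2)) (fun o ho => ?_) fun o ho o' ho' q => ?_
    · exact mem_coe.2 (mem_product.2 ⟨mem_union_left _ (mem_image_of_mem _ ho),
        mem_union_right _ (mem_image_of_mem _ ho)⟩)
    · obtain ⟨q1, q2⟩ := Prod.ext_iff.1 q
      have b0 : o.1.2 ≠ 0 := fun h0 => by simpa [h0, Zsqrtd.ext_iff] using e o ho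
      refine Prod.ext (Prod.ext (star_injective (mul_right_cancel₀ b0 ?_)) q1) (star_injective q2)
      rw [e o ho, show o.1.2 = o'.1.2 from q1, e o' ho']
  rw [card_product] at h3
  nlinarith

end OC

open OC in
theorem OC : OCStmt := by
  intro v E C hC
  obtain ⟨K, K0, hK⟩ := moment (v ^ 4 + 2 + 1)
  obtain ⟨c, hc⟩ : ∃ c : ℝ, c = 2 * C ^ 2 * 2 ^ (2 * E) := ⟨_, rfl⟩
  refine ⟨32 * c ^ 2 * Real.sqrt (K * C), fun z X B O hz hX hE hB h => ?_⟩
  have CX : 1 ≤ C * X := one_le_mul_of_one_le_of_one_le hC hX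
  have : ∀ n : ℕ, ∃ s, n ∈ B → s ∣ n ^ 2 + 1 ∧ s ∈ (v ^ 4 + 2 + 1).smoothNumbers ∧
      ((DD (v ^ 4 + 2) z (n ^ 2 + 1)).card : ℝ) ≤ c * tau s := fun n => by
    by_cases hn : n ∈ B
    · obtain ⟨s, hs⟩ := card_DD (v ^ 4 + 2) (c := 2 * C ^ 2) (M := n ^ 2 + 1) (E := 2 * E) hz
        (by nlinarith) (by positivity) (by
          have h1 : (n : ℝ) ^ 2 ≤ (C * X) ^ 2 := by gcongr; exact hB n hn
          have h2 : (C * X) ^ 2 ≤ (C * z ^ E) ^ 2 := by gcongr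
          rw [pow_mul']; push_cast; nlinarith)
      exact ⟨s, fun _ => hc ▸ hs⟩
    · exact ⟨0, fun h => (hn h).elim⟩
  choose s hs using this
  have h1 : (O.card : ℝ) ≤ ∑ n ∈ B, 32 * c ^ 2 * (tau (s n) : ℝ) ^ 2 := by
    rw [card_eq_sum_card_fiberwise (f := fun o => (inn o.1.1 o.1.2).natAbs) (t := B)
      fun o ho => (h o ho).2.1, Nat.cast_sum]
    refine sum_le_sum fun n hn => ?_
    have f := fun m : ℤ => fiber (v := v) (z := z) m (O := O.filter fun o => inn o.1.1 o.1.2 = m)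
      fun o ho => ⟨(h o (mem_filter.1 ho).1).1, (mem_filter.1 ho).2, (h o (mem_filter.1 ho).1).2.2⟩
    have f1 := f n
    have f2 := f (-n)
    rw [Int.natAbs_neg] at f2
    rw [Int.natAbs_natCast] at f1 f2
    have f3 : (O.filter fun o => (inn o.1.1 o.1.2).natAbs = n).card ≤
        32 * (DD (v ^ 4 + 2) z (n ^ 2 + 1)).card ^ 2 := by
      refine (card_le_card (t := O.filter (fun o => inn o.1.1 o.1.2 = n) ∪
        O.filter fun o => inn o.1.1 o.1.2 = -n) fun o ho => ?_).trans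
        ((card_union_le _ _).trans (by omega))
      rw [← filter_or]
      exact mem_filter.2 ⟨(mem_filter.1 ho).1, Int.natAbs_eq_iff.1 (mem_filter.1 ho).2⟩
    calc _ ≤ 32 * ((DD (v ^ 4 + 2) z (n ^ 2 + 1)).card : ℝ) ^ 2 := by exact_mod_cast f3
      _ ≤ 32 * (c * tau (s n)) ^ 2 := by gcongr; exact (hs n hn).2.2
      _ = _ := by ring
  refine h1.trans ?_
  rw [← mul_sum, mul_assoc (32 * c ^ 2), ← Real.sqrt_mul (by positivity)]
  gcongr
  refine Real.le_sqrt_of_sq_le (sq_sum_le_card_mul_sum_sq.trans ?_)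
  simp only [← pow_mul]
  calc _ ≤ (B.card : ℝ) * (K * (C * X)) := by
        gcongr; exact hK _ B s CX fun n hn => ⟨hB n hn, (hs n hn).1, (hs n hn).2.1⟩
    _ = _ := by ring

end Pool.Agent.Lib.LQ
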