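import Pool.Agent.Lib.LQ.Basic

set_option autoImplicit false

open Finset
open scoped Classical

noncomputable section

namespace Pool.Agent.Lib.LQ

namespace QU

lemma norm_congr {l : ℕ} {x y : GI} (h : (l : GI) ∣ x - y) : (l : ℤ) ∣ x.norm - y.norm := by
  obtain ⟨t, ht⟩ := h
  have hx : x = y + l * t := by rw [← ht]; ring
  subst hx
  refine ⟨2 * (y.re * t.re + y.im * t.im) + l * (t.re ^ 2 + t.im ^ 2), ?_⟩
  simp [Zsqrtd.norm_def]
  ring

lemma dvd_of_sq {l : ℕ} {x : GI} (h : ((l ^ 2 : ℕ) : GI) ∣ x) : (l : GI) ∣ x :=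
  (Nat.cast_dvd_cast (dvd_pow_self l two_ne_zero)).trans h

lemma per_sub (l : ℕ) (c : GI) : Per1 (l ^ 2) fun x => ind ((l : GI) ∣ x - c) := by
  intro x y h
  have h1 := dvd_of_sq h
  have : x - c = (x - y) + (y - c) := by ring
  simp only [this, dvd_add_right h1]

lemma per_norm (l : ℕ) (c : ℤ) : Per1 (l ^ 2) fun x => ind ((l : ℤ) ∣ x.norm - c) := by
  intro x y h
  have h1 := norm_congr (dvd_of_sq h)
  have : x.norm - c = (x.norm - y.norm) + (y.norm - c) := by ring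
  simp only [this, dvd_add_right h1]

lemma dvd_norm_iff (l : ℕ) (x : GI) : (l : ℤ) ∣ x.norm - 0 ↔ l ∣ nm x := by
  rw [sub_zero, ← nm_int, Int.natCast_dvd_natCast]

/-- the local weights -/
def ph (lam : ℝ) (W1 y d : ℕ) (c c' : ℤ) (l : ℕ) (x : GI) : ℝ :=
  if l ∣ W1 then ind ((l : GI) ∣ x - 1) else if l ∣ y then ind ((l : ℤ) ∣ x.norm - c)
  else if l ∣ d then ind ((l : ℤ) ∣ x.norm - c') else 1 - (1 - lam) * ind ((l : ℤ) ∣ x.norm - 0)

lemma ph_per (lam : ℝ) (W1 y d : ℕ) (c c' : ℤ) (l : ℕ) : Per1 (l ^ 2) (ph lam W1 y d c c' l) := by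
  intro x x' h
  have e1 := per_sub l 1 x x' h
  have e2 := per_norm l c x x' h
  have e3 := per_norm l c' x x' h
  have e4 := per_norm l 0 x x' h
  simp only at e1 e2 e3 e4
  simp only [ph, e1, e2, e3, e4]

lemma ph_bd {lam : ℝ} (h0 : 0 ≤ lam) (h1 : lam ≤ 1) (W1 y d : ℕ) (c c' : ℤ) (l : ℕ) (x : GI) :
    0 ≤ ph lam W1 y d c c' l x ∧ ph lam W1 y d c c' l x ≤ 1 := by
  unfold ph
  split_ifs
  · exact ⟨ind_nonneg _, ind_le_one _⟩
  · exact ⟨ind_nonneg _, ind_le_one _⟩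
  · exact ⟨ind_nonneg _, ind_le_one _⟩
  · have := ind_nonneg ((l : ℤ) ∣ x.norm - 0)
    have := ind_le_one ((l : ℤ) ∣ x.norm - 0)
    constructor <;> nlinarith

lemma E1_nonneg {m : ℕ} {φ : GI → ℝ} (h : ∀ x, 0 ≤ φ x) : 0 ≤ E1 m φ :=
  div_nonneg (sum_nonneg fun x _ => h x) (by positivity)

lemma mean_low (h2 : Loc1Stmt) {w z : ℝ} {l : ℕ} (hl : l ∈ PP w z) :
    2 / ((l : ℝ) + 1) ≤ E1 (l ^ 2) fun x => ind ((l : ℤ) ∣ x.norm - 0) := by
  obtain ⟨π, hπ, hn⟩ := exists_GH hl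
  obtain ⟨hp, h4, -, -⟩ := mem_PP.1 hl
  have hp' : (nm π).Prime := hn ▸ hp
  have h2' : nm π ≠ 2 := by omega
  have key : E1 (l ^ 2) (fun x => ind (π ∣ x) + ind (star π ∣ x) - ind ((l : GI) ∣ x - 0)) ≤
      E1 (l ^ 2) fun x => ind ((l : ℤ) ∣ x.norm - 0) := by
    refine E1_mono fun x => ?_
    rw [dvd_norm_iff, ← hn, dvd_nm_iff hp', sub_zero]
    by_cases a : π ∣ x <;> by_cases b : star π ∣ x
    · rw [ind_true a, ind_true b, ind_true (natCast_dvd_of hp' h2' a b), ind_true (Or.inl a)]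
      norm_num
    · rw [ind_true a, ind_false b, ind_true (Or.inl a)]
      linarith [ind_nonneg (((nm π : ℕ) : GI) ∣ x)]
    · rw [ind_false a, ind_true b, ind_true (Or.inr b)]
      linarith [ind_nonneg (((nm π : ℕ) : GI) ∣ x)]
    · rw [ind_false a, ind_false b]
      linarith [ind_nonneg (((nm π : ℕ) : GI) ∣ x), ind_nonneg (π ∣ x ∨ star π ∣ x)]
  rw [E1_sub, E1_add, h2.1 l 0 hp, h2.2.2.1 l π hp hn,
    h2.2.2.1 l (star π) hp (by rw [nm_star, hn])] at key
  refine le_trans ?_ key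
  have hl1 : (1 : ℝ) ≤ l := by exact_mod_cast hp.one_le
  rw [div_le_iff₀ (by positivity)]
  have e : (1 / (l : ℝ) + 1 / l - 1 / (l : ℝ) ^ 2) * (l + 1) = 2 + (l - 1) / (l : ℝ) ^ 2 := by
    field_simp
    ring
  rw [e]
  have : 0 ≤ ((l : ℝ) - 1) / (l : ℝ) ^ 2 := div_nonneg (by linarith) (by positivity)
  linarith

lemma disc_sub {M : ℝ} : disc M ⊆ Sqr (-(⌈Real.sqrt M⌉₊ : ℤ)) (-(⌈Real.sqrt M⌉₊ : ℤ))
    (2 * ⌈Real.sqrt M⌉₊ + 1) := by
  intro α hα
  have h := mem_disc.1 hα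
  rw [nm_real] at h
  have hc := Nat.le_ceil (Real.sqrt M)
  have h1 : |(α.re : ℝ)| ≤ ⌈Real.sqrt M⌉₊ :=
    (Real.abs_le_sqrt (by nlinarith [sq_nonneg (α.im : ℝ)])).trans hc
  have h2 : |(α.im : ℝ)| ≤ ⌈Real.sqrt M⌉₊ :=
    (Real.abs_le_sqrt (by nlinarith [sq_nonneg (α.re : ℝ)])).trans hc
  have h1' : |α.re| ≤ (⌈Real.sqrt M⌉₊ : ℤ) := by exact_mod_cast h1
  have h2' : |α.im| ≤ (⌈Real.sqrt M⌉₊ : ℤ) := by exact_mod_cast h2
  rw [abs_le] at h1' h2'
  rw [mem_Sqr]
  push_cast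
  omega

lemma side_le {p : ℝ} (hp : 1 ≤ p) :
    ((2 * ⌈Real.sqrt (2 * p)⌉₊ + 1 : ℕ) : ℝ) ≤ 6 * Real.sqrt p := by
  have h1 := (Nat.ceil_lt_add_one (Real.sqrt_nonneg (2 * p))).le
  have h2 : 1 ≤ Real.sqrt p := Real.one_le_sqrt.2 hp
  have h3 : Real.sqrt (2 * p) ≤ 3 / 2 * Real.sqrt p := by
    rw [Real.sqrt_le_left (by positivity), mul_pow, Real.sq_sqrt (by linarith)]
    linarith
  push_cast
  linarith

lemma W_le {v W1 : ℕ} (hv : 1 ≤ v) (h : WOK v W1) : W1 ≤ (v ^ 4) ^ (v ^ 4 + 1) := by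
  have hle : ∀ l ∈ W1.primeFactors, l ≤ v ^ 4 := by
    intro l hl
    have := h.2 l (Nat.prime_of_mem_primeFactors hl) (Nat.dvd_of_mem_primeFactors hl)
    unfold ww at this
    exact_mod_cast this
  calc W1 = ∏ l ∈ W1.primeFactors, l := (Nat.prod_primeFactors_of_squarefree h.1).symm
    _ ≤ (v ^ 4) ^ W1.primeFactors.card := Finset.prod_le_pow_card _ _ _ hle
    _ ≤ _ := by
      apply Nat.pow_le_pow_right (Nat.one_le_pow _ _ hv)
      calc W1.primeFactors.card ≤ (range (v ^ 4 + 1)).card :=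
            card_le_card fun l hl => mem_range.2 (Nat.lt_succ_of_le (hle l hl))
        _ = _ := card_range _

lemma prod_cast {n : ℕ} (h : Squarefree n) : ∏ l ∈ n.primeFactors, (l : ℝ) = n := by
  rw [← Nat.cast_prod, Nat.prod_primeFactors_of_squarefree h]

lemma sg_facts {v y : ℕ} (hv : 2 ≤ v) (h : sg y ≤ 1 / v) :
    (∀ l ∈ y.primeFactors, l ≠ 2) ∧ ∑ l ∈ y.primeFactors, 1 / (l : ℝ) ≤ 1 := by
  have hv' : (2 : ℝ) ≤ v := by exact_mod_cast hv
  have h12 : 1 / (v : ℝ) ≤ 1 / 2 := one_div_le_one_div_of_le (by norm_num) hv'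
  constructor
  · rintro l hl rfl
    have h1 : 1 / Real.sqrt ((2 : ℕ) : ℝ) ≤ sg y :=
      single_le_sum (f := fun l : ℕ => 1 / Real.sqrt l) (fun _ _ => by positivity) hl
    have h2 : Real.sqrt ((2 : ℕ) : ℝ) < 2 := by
      rw [Real.sqrt_lt' (by norm_num)]; norm_num
    have h3 : 1 / 2 < 1 / Real.sqrt ((2 : ℕ) : ℝ) :=
      one_div_lt_one_div_of_lt (by positivity) h2
    linarith
  · refine le_trans (sum_le_sum fun l hl => ?_) (h.trans (h12.trans (by norm_num)))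
    have hl1 : (1 : ℝ) ≤ l := by exact_mod_cast (Nat.prime_of_mem_primeFactors hl).one_le
    refine one_div_le_one_div_of_le (by positivity) ?_
    rw [Real.sqrt_le_left (by positivity)]
    nlinarith

lemma point {lam w z : ℝ} (h0 : 0 ≤ lam) (h1 : lam ≤ 1) {W1 y d : ℕ} {c c' : ℤ} {Q : GI}
    (hW : (W1 : GI) ∣ Q - 1) (hy : (y : ℤ) ∣ Q.norm - c) (hd : (d : ℤ) ∣ Q.norm - c')
    (L0 : Finset ℕ) (hL : ∀ l ∈ L0, l ∣ W1 ∨ l ∣ y ∨ l ∣ d) :
    lam ^ om w z Q ≤ ∏ l ∈ L0 ∪ PP w z \ L0, ph lam W1 y d c c' l Q := by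
  have hb : ∀ l ∈ L0 ∪ PP w z \ L0,
      (if l ∈ PP w z ∧ l ∣ nm Q then lam else 1) ≤ ph lam W1 y d c c' l Q := by
    intro l hl
    have hle : (if l ∈ PP w z ∧ l ∣ nm Q then lam else 1) ≤ 1 := by split_ifs <;> linarith
    unfold ph
    split_ifs with a b c d e f g
    · rw [ind_true ((Nat.cast_dvd_cast b).trans hW)]; exact h1
    · rw [ind_true ((Int.natCast_dvd_natCast.2 c).trans hy)]; exact h1
    · rw [ind_true ((Int.natCast_dvd_natCast.2 d).trans hd)]; exact h1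
    · rw [ind_true ((dvd_norm_iff _ _).2 a.2)]; linarith
    · rw [ind_true ((Nat.cast_dvd_cast e).trans hW)]
    · rw [ind_true ((Int.natCast_dvd_natCast.2 f).trans hy)]
    · rw [ind_true ((Int.natCast_dvd_natCast.2 g).trans hd)]
    · have hP : l ∈ PP w z := by
        rcases mem_union.1 hl with h | h
        · rcases hL l h with h | h | h <;> contradiction
        · exact (mem_sdiff.1 h).1
      rw [ind_false fun h => a ⟨hP, (dvd_norm_iff _ _).1 h⟩]; linarith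
  refine le_trans ?_ (prod_le_prod (fun l _ => by split_ifs <;> linarith) hb)
  rw [prod_ite, prod_const, prod_const_one, mul_one]
  refine pow_le_pow_of_le_one h0 h1 ?_
  refine le_trans (card_le_card fun l hl => ?_) (card_image_le (s := sm w z Q) (f := nm))
  obtain ⟨-, hP, hdv⟩ := mem_filter.1 hl
  obtain ⟨π, hπ, hn⟩ := exists_GH hP
  have hp' : (nm π).Prime := hn ▸ (mem_PP.1 hP).1
  rw [← hn, dvd_nm_iff hp'] at hdv
  rcases hdv with h | h
  · exact mem_image.2 ⟨π, mem_sm.2 ⟨(mem_GH.1 hπ).1, h⟩, hn⟩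
  · exact mem_image.2 ⟨star π, mem_sm.2 ⟨star_mem_GF (mem_GH.1 hπ).1, h⟩, by rw [nm_star, hn]⟩

lemma main_bound (h2 : Loc1Stmt) {v W1 y d : ℕ} {lam z : ℝ} {c c' : ℤ} (hv : 2 ≤ v)
    (h0 : 0 ≤ lam) (h1 : lam ≤ 1) (hW : WOK v W1) (hy : Squarefree y) (hsg : sg y ≤ 1 / v)
    (hd : Squarefree d) (hdw : ∀ l : ℕ, l.Prime → l ∣ d → ww v < (l : ℝ)) (hyd : Nat.Coprime y d)
    (hyW : Nat.Coprime y W1) (hc : Int.gcd c y = 1) :
    ∏ l ∈ (W1.primeFactors ∪ y.primeFactors ∪ d.primeFactors) ∪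
        PP (ww v) z \ (W1.primeFactors ∪ y.primeFactors ∪ d.primeFactors),
      E1 (l ^ 2) (ph lam W1 y d c c' l) ≤
    Real.exp 3 * Real.exp (-(1 - lam) * Lam (ww v) z) * 3 ^ d.primeFactors.card /
      (y * d * (W1 : ℝ) ^ 2) := by
  obtain ⟨hy2, hys⟩ := sg_facts hv hsg
  have hw16 : (16 : ℝ) ≤ ww v := by
    have : (2 : ℝ) ≤ v := by exact_mod_cast hv
    unfold ww
    calc (16 : ℝ) = 2 ^ 4 := by norm_num
      _ ≤ _ := pow_le_pow_left₀ (by norm_num) this 4
  have hnn : ∀ l, 0 ≤ E1 (l ^ 2) (ph lam W1 y d c c' l) := fun l =>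
    E1_nonneg fun x => (ph_bd h0 h1 W1 y d c c' l x).1
  have nWy : ∀ l ∈ y.primeFactors, ¬ l ∣ W1 := fun l hl h =>
    (Nat.prime_of_mem_primeFactors hl).one_lt.ne'
      (Nat.eq_one_of_dvd_coprimes hyW (Nat.dvd_of_mem_primeFactors hl) h)
  have nWd : ∀ l ∈ d.primeFactors, ¬ l ∣ W1 := fun l hl h => by
    have hp := Nat.prime_of_mem_primeFactors hl
    linarith [hW.2 l hp h, hdw l hp (Nat.dvd_of_mem_primeFactors hl)]
  have nyd : ∀ l ∈ d.primeFactors, ¬ l ∣ y := fun l hl h =>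
    (Nat.prime_of_mem_primeFactors hl).one_lt.ne'
      (Nat.eq_one_of_dvd_coprimes hyd h (Nat.dvd_of_mem_primeFactors hl))
  have d1 : Disjoint W1.primeFactors y.primeFactors :=
    disjoint_right.2 fun l hl h => nWy l hl (Nat.dvd_of_mem_primeFactors h)
  have d2 : Disjoint (W1.primeFactors ∪ y.primeFactors) d.primeFactors :=
    disjoint_right.2 fun l hl h => by
      rcases mem_union.1 h with h | h
      · exact nWd l hl (Nat.dvd_of_mem_primeFactors h)
      · exact nyd l hl (Nat.dvd_of_mem_primeFactors h)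
  set L0 := W1.primeFactors ∪ y.primeFactors ∪ d.primeFactors with hL0
  set a : ℕ → ℝ := fun l => 2 / ((l : ℝ) + 1) with ha
  have ha0 : ∀ l, 0 ≤ a l := fun l => by simp only [ha]; positivity
  have hA : ∏ l ∈ W1.primeFactors, E1 (l ^ 2) (ph lam W1 y d c c' l) = 1 / (W1 : ℝ) ^ 2 := by
    rw [← prod_cast hW.1, ← prod_pow, one_div, ← prod_inv_distrib]
    refine prod_congr rfl fun l hl => ?_
    have : ph lam W1 y d c c' l = fun x => ind ((l : GI) ∣ x - 1) := by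
      funext x; simp only [ph, if_pos (Nat.dvd_of_mem_primeFactors hl)]
    rw [this, h2.1 l 1 (Nat.prime_of_mem_primeFactors hl), one_div]
  have hB : (∏ l ∈ y.primeFactors, E1 (l ^ 2) (ph lam W1 y d c c' l)) *
      Real.exp (∑ l ∈ y.primeFactors, a l) ≤ Real.exp 3 / y := by
    rw [Real.exp_sum, ← prod_mul_distrib]
    calc _ ≤ ∏ l ∈ y.primeFactors, ((l : ℝ)⁻¹ * Real.exp (3 * (1 / l))) := by
          refine prod_le_prod (fun l _ => mul_nonneg (hnn l) (Real.exp_pos _).le) fun l hl => ?_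
          have hp := Nat.prime_of_mem_primeFactors hl
          have hl0 : (0 : ℝ) < l := by exact_mod_cast hp.pos
          have : ph lam W1 y d c c' l = fun x => ind ((l : ℤ) ∣ x.norm - c) := by
            funext x; simp only [ph, if_neg (nWy l hl), if_pos (Nat.dvd_of_mem_primeFactors hl)]
          have hlc : ¬ (l : ℤ) ∣ c := fun h => by
            have := Int.dvd_gcd h (Int.natCast_dvd_natCast.2 (Nat.dvd_of_mem_primeFactors hl))
            rw [hc] at this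
            exact hp.one_lt.ne' (Nat.dvd_one.1 this)
          have e1 := (h2.2.2.2.2.1 l c hp (hy2 l hl) hlc).2
          have e2 : ((l : ℝ) + 1) / (l : ℝ) ^ 2 ≤ (l : ℝ)⁻¹ * Real.exp (1 / l) := by
            have := Real.add_one_le_exp (1 / (l : ℝ))
            calc ((l : ℝ) + 1) / (l : ℝ) ^ 2 = (l : ℝ)⁻¹ * (1 / l + 1) := by field_simp; ring
              _ ≤ _ := mul_le_mul_of_nonneg_left this (by positivity)
          have e3 : Real.exp (a l) ≤ Real.exp (2 * (1 / l)) := by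
            apply Real.exp_le_exp.2
            simp only [ha]
            rw [mul_one_div]
            exact div_le_div_of_nonneg_left (by norm_num) hl0 (by linarith)
          rw [this]
          calc _ ≤ ((l : ℝ)⁻¹ * Real.exp (1 / l)) * Real.exp (2 * (1 / l)) :=
                mul_le_mul (e1.trans e2) e3 (Real.exp_pos _).le (by positivity)
            _ = _ := by rw [mul_assoc, ← Real.exp_add]; congr 2; ring
      _ = (y : ℝ)⁻¹ * Real.exp (3 * ∑ l ∈ y.primeFactors, 1 / (l : ℝ)) := by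
          rw [prod_mul_distrib, prod_inv_distrib, prod_cast hy, mul_sum, Real.exp_sum]
      _ ≤ _ := by
          rw [div_eq_inv_mul]
          exact mul_le_mul_of_nonneg_left (Real.exp_le_exp.2 (by linarith)) (by positivity)
  have hC : (∏ l ∈ d.primeFactors, E1 (l ^ 2) (ph lam W1 y d c c' l)) *
      Real.exp (∑ l ∈ d.primeFactors, a l) ≤ 3 ^ d.primeFactors.card / d := by
    rw [Real.exp_sum, ← prod_mul_distrib]
    calc _ ≤ ∏ l ∈ d.primeFactors, (3 / (l : ℝ)) := by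
          refine prod_le_prod (fun l _ => mul_nonneg (hnn l) (Real.exp_pos _).le) fun l hl => ?_
          have hp := Nat.prime_of_mem_primeFactors hl
          have hlw := hdw l hp (Nat.dvd_of_mem_primeFactors hl)
          have hl2 : l ≠ 2 := by
            rintro rfl
            push_cast at hlw
            linarith
          have : ph lam W1 y d c c' l = fun x => ind ((l : ℤ) ∣ x.norm - c') := by
            funext x
            simp only [ph, if_neg (nWd l hl), if_neg (nyd l hl),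
              if_pos (Nat.dvd_of_mem_primeFactors hl)]
          have e1 := h2.2.2.2.1 l c' hp hl2
          have e3 : Real.exp (a l) ≤ 3 / 2 := by
            have h3 : a l ≤ 1 / 3 := by
              simp only [ha]
              rw [div_le_div_iff₀ (by linarith) (by norm_num)]
              linarith
            have h4 := Real.add_one_le_exp (-a l)
            have h5 : Real.exp (a l) * Real.exp (-a l) = 1 := by rw [← Real.exp_add]; simp
            nlinarith [Real.exp_pos (a l)]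
          rw [this]
          calc _ ≤ 2 / (l : ℝ) * (3 / 2) := mul_le_mul e1 e3 (Real.exp_pos _).le (by positivity)
            _ = _ := by ring
      _ = _ := by rw [prod_div_distrib, prod_const, prod_cast hd]
  have hD : ∏ l ∈ PP (ww v) z \ L0, E1 (l ^ 2) (ph lam W1 y d c c' l) ≤
      Real.exp (-(1 - lam) * Lam (ww v) z) * (Real.exp (∑ l ∈ y.primeFactors, a l) *
        Real.exp (∑ l ∈ d.primeFactors, a l)) := by
    have hsum : Lam (ww v) z ≤ ∑ l ∈ PP (ww v) z \ L0, a l +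
        (∑ l ∈ y.primeFactors, a l + ∑ l ∈ d.primeFactors, a l) := by
      have dyd : Disjoint y.primeFactors d.primeFactors :=
        disjoint_right.2 fun l hl h => nyd l hl (Nat.dvd_of_mem_primeFactors h)
      rw [← sum_union dyd, ← sum_union (disjoint_left.2 fun l hl h => (mem_sdiff.1 hl).2 (by
        rw [hL0, union_assoc]; exact mem_union_right _ h))]
      refine sum_le_sum_of_subset_of_nonneg (fun l hl => ?_) fun l _ _ => ha0 l
      by_cases h : l ∈ L0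
      · rw [hL0, union_assoc] at h
        rcases mem_union.1 h with h | h
        · have := hW.2 l (Nat.prime_of_mem_primeFactors h) (Nat.dvd_of_mem_primeFactors h)
          linarith [(mem_PP.1 hl).2.2.1]
        · exact mem_union_right _ h
      · exact mem_union_left _ (mem_sdiff.2 ⟨hl, h⟩)
    calc _ ≤ ∏ l ∈ PP (ww v) z \ L0, Real.exp (-(1 - lam) * a l) := by
          refine prod_le_prod (fun l _ => hnn l) fun l hl => ?_
          obtain ⟨hP, hn⟩ := mem_sdiff.1 hl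
          have hp := (mem_PP.1 hP).1
          have n1 : ¬ l ∣ W1 := fun h => hn (mem_union_left _ (mem_union_left _
            (Nat.mem_primeFactors.2 ⟨hp, h, hW.1.ne_zero⟩)))
          have n2 : ¬ l ∣ y := fun h => hn (mem_union_left _ (mem_union_right _
            (Nat.mem_primeFactors.2 ⟨hp, h, hy.ne_zero⟩)))
          have n3 : ¬ l ∣ d := fun h => hn (mem_union_right _
            (Nat.mem_primeFactors.2 ⟨hp, h, hd.ne_zero⟩))
          have : ph lam W1 y d c c' l =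
              fun x => 1 - (1 - lam) * ind ((l : ℤ) ∣ x.norm - 0) := by
            funext x; simp only [ph, if_neg n1, if_neg n2, if_neg n3]
          rw [this, E1_sub, E1_smul, E1_const (Nat.one_le_pow _ _ hp.pos)]
          have e1 := mean_low h2 hP
          have e2 := Real.add_one_le_exp (-(1 - lam) * a l)
          simp only [ha] at e2 ⊢
          nlinarith
      _ = Real.exp (-(1 - lam) * ∑ l ∈ PP (ww v) z \ L0, a l) := by rw [mul_sum, Real.exp_sum]
      _ ≤ _ := by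
          rw [← Real.exp_add, ← Real.exp_add]
          apply Real.exp_le_exp.2
          have s1 : 0 ≤ ∑ l ∈ y.primeFactors, a l := sum_nonneg fun l _ => ha0 l
          have s2 : 0 ≤ ∑ l ∈ d.primeFactors, a l := sum_nonneg fun l _ => ha0 l
          nlinarith
  rw [prod_union disjoint_sdiff, hL0, prod_union d2, prod_union d1, hA, ← hL0]
  have p1 : 0 ≤ ∏ l ∈ y.primeFactors, E1 (l ^ 2) (ph lam W1 y d c c' l) :=
    prod_nonneg fun l _ => hnn l
  have p2 : 0 ≤ ∏ l ∈ d.primeFactors, E1 (l ^ 2) (ph lam W1 y d c c' l) :=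
    prod_nonneg fun l _ => hnn l
  calc _ ≤ 1 / (W1 : ℝ) ^ 2 * (∏ l ∈ y.primeFactors, E1 (l ^ 2) (ph lam W1 y d c c' l)) *
        (∏ l ∈ d.primeFactors, E1 (l ^ 2) (ph lam W1 y d c c' l)) *
        (Real.exp (-(1 - lam) * Lam (ww v) z) * (Real.exp (∑ l ∈ y.primeFactors, a l) *
        Real.exp (∑ l ∈ d.primeFactors, a l))) :=
        mul_le_mul_of_nonneg_left hD (by positivity)
    _ = 1 / (W1 : ℝ) ^ 2 * Real.exp (-(1 - lam) * Lam (ww v) z) *
        (((∏ l ∈ y.primeFactors, E1 (l ^ 2) (ph lam W1 y d c c' l)) *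
          Real.exp (∑ l ∈ y.primeFactors, a l)) *
        ((∏ l ∈ d.primeFactors, E1 (l ^ 2) (ph lam W1 y d c c' l)) *
          Real.exp (∑ l ∈ d.primeFactors, a l))) := by ring
    _ ≤ 1 / (W1 : ℝ) ^ 2 * Real.exp (-(1 - lam) * Lam (ww v) z) *
        (Real.exp 3 / y * (3 ^ d.primeFactors.card / d)) :=
        mul_le_mul_of_nonneg_left (mul_le_mul hB hC (by positivity) (by positivity))
          (by positivity)
    _ = _ := by ring

lemma err_bound {u a e : ℕ} {z p n D L : ℝ} (ha : 1 ≤ a) (hu : u ≤ a) (he : 8 * a ≤ e)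
    (hz : 1 ≤ z) (hp : z ^ (9 * e) ≤ p) (hn0 : 0 ≤ n) (hn : n ≤ z ^ (1 + e + a)) (hD0 : 0 ≤ D)
    (hD : D ≤ z ^ (e + a + 3)) (hL0 : 0 ≤ L) (hL : L ≤ 6 * Real.sqrt p) :
    4 * z ^ (u + 1) * ((n * z ^ u) ^ 2 * L + (n * z ^ u) ^ 4) * D ≤ 28 * p := by
  have hz0 : 0 ≤ z := by linarith
  have hp0 : 0 ≤ p := (pow_nonneg hz0 _).trans hp
  have hm : n * z ^ u ≤ z ^ (1 + e + a + u) := by
    rw [pow_add z (1 + e + a)]
    exact mul_le_mul_of_nonneg_right hn (by positivity)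
  have h1 : z ^ (3 * u + 3 * e + 3 * a + 6) ≤ Real.sqrt p := by
    apply Real.le_sqrt_of_sq_le
    rw [← pow_mul]
    exact (pow_le_pow_right₀ hz (by omega)).trans hp
  have h2 : z ^ (5 * u + 5 * e + 5 * a + 8) ≤ p := (pow_le_pow_right₀ hz (by omega)).trans hp
  calc _ ≤ 4 * z ^ (u + 1) * ((z ^ (1 + e + a + u)) ^ 2 * (6 * Real.sqrt p) +
        (z ^ (1 + e + a + u)) ^ 4) * z ^ (e + a + 3) := by gcongr
    _ = 24 * (z ^ (3 * u + 3 * e + 3 * a + 6) * Real.sqrt p) +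
        4 * z ^ (5 * u + 5 * e + 5 * a + 8) := by ring
    _ ≤ 24 * (Real.sqrt p * Real.sqrt p) + 4 * p := by gcongr
    _ = 28 * p := by rw [Real.mul_self_sqrt hp0]; ring

end QU

open QU in
theorem QU (h1 : LFLStmt) (h2 : Loc1Stmt) : QUStmt := by
  obtain ⟨u, hu⟩ := h1 2 1 one_pos
  obtain ⟨z1, hz1⟩ := exp_Lam_le 1
  refine ⟨72 * Real.exp 3 + 28, u, fun v a e f hv hE => ?_⟩
  refine ⟨max (max z1 2) (((v ^ 4) ^ (v ^ 4 + 1) : ℕ) : ℝ), ?_⟩
  intro z lam p W1 y d c c' hz h0 hl1 hp hW hy hsg hye hd hda hdw hyd hyW hc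
  have hv2 : 2 ≤ v := by
    have : (2 : ℝ) ≤ v := by linarith [Real.exp_pos 3]
    exact_mod_cast this
  have hz2 : 2 ≤ z := (le_max_right _ _).trans ((le_max_left _ _).trans hz)
  have hzz : z1 ≤ z := (le_max_left _ _).trans ((le_max_left _ _).trans hz)
  have hWz : (W1 : ℝ) ≤ z := by
    refine le_trans ?_ ((le_max_right _ _).trans hz)
    exact_mod_cast W_le (by omega) hW
  have hz1' : 1 ≤ z := by linarith
  have hp1 : 1 ≤ p := (one_le_pow₀ hz1').trans hp
  set L0 := W1.primeFactors ∪ y.primeFactors ∪ d.primeFactors with hL0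
  set r : ℕ := ⌈Real.sqrt (2 * p)⌉₊ with hr
  have hL0d : ∀ l ∈ L0, l ∣ W1 ∨ l ∣ y ∨ l ∣ d := by
    intro l hl
    rcases mem_union.1 hl with h | h
    · rcases mem_union.1 h with h | h
      · exact Or.inl (Nat.dvd_of_mem_primeFactors h)
      · exact Or.inr (Or.inl (Nat.dvd_of_mem_primeFactors h))
    · exact Or.inr (Or.inr (Nat.dvd_of_mem_primeFactors h))
  have hL0p : ∀ l ∈ L0, l.Prime := by
    intro l hl
    rcases mem_union.1 hl with h | h
    · rcases mem_union.1 h with h | h <;> exact Nat.prime_of_mem_primeFactors h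
    · exact Nat.prime_of_mem_primeFactors h
  have hF := hu (-(r : ℤ)) (-(r : ℤ)) (2 * r + 1) z L0 (PP (ww v) z \ L0) (ph lam W1 y d c c') hz2
    disjoint_sdiff (fun l hl => ⟨by
      rcases mem_union.1 hl with h | h
      · exact hL0p l h
      · exact (mem_PP.1 (mem_sdiff.1 h).1).1, ph_per _ _ _ _ _ _ _, ph_bd h0 hl1 _ _ _ _ _ _⟩)
    (fun l hl => by
      obtain ⟨hP, hn⟩ := mem_sdiff.1 hl
      obtain ⟨hp, h4, -, hlz⟩ := mem_PP.1 hP
      have n1 : ¬ l ∣ W1 := fun h => hn (mem_union_left _ (mem_union_left _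
        (Nat.mem_primeFactors.2 ⟨hp, h, hW.1.ne_zero⟩)))
      have n2 : ¬ l ∣ y := fun h => hn (mem_union_left _ (mem_union_right _
        (Nat.mem_primeFactors.2 ⟨hp, h, hy.ne_zero⟩)))
      have n3 : ¬ l ∣ d := fun h => hn (mem_union_right _
        (Nat.mem_primeFactors.2 ⟨hp, h, hd.ne_zero⟩))
      have : ph lam W1 y d c c' l = fun x => 1 - (1 - lam) * ind ((l : ℤ) ∣ x.norm - 0) := by
        funext x; simp only [ph, if_neg n1, if_neg n2, if_neg n3]
      rw [this, E1_sub, E1_smul, E1_const (Nat.one_le_pow _ _ hp.pos)]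
      have e1 := h2.2.2.2.1 l 0 hp (by omega)
      have e0 : 0 ≤ E1 (l ^ 2) fun x => ind ((l : ℤ) ∣ x.norm - 0) :=
        E1_nonneg fun x => ind_nonneg _
      have h5 : (4 : ℝ) ≤ l := by
        have := hp.two_le
        exact_mod_cast (by omega : 4 ≤ l)
      have e2 : 2 / (l : ℝ) ≤ 1 / 2 := by
        rw [div_le_div_iff₀ (by linarith) (by norm_num)]; linarith
      refine ⟨hlz, ?_, ?_⟩ <;> nlinarith)
  have hM := main_bound (z := z) (c' := c') h2 hv2 h0 hl1 hW hy hsg hd hdw hyd hyW hc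
  rw [← hL0] at hM
  have hS : ∑ Q ∈ (disc (2 * p)).filter
        (fun Q => (W1 : GI) ∣ Q - 1 ∧ (y : ℤ) ∣ Q.norm - c ∧ (d : ℤ) ∣ Q.norm - c'),
        lam ^ om (ww v) z Q ≤ ∑ x ∈ Sqr (-(r : ℤ)) (-(r : ℤ)) (2 * r + 1),
        ∏ l ∈ L0 ∪ PP (ww v) z \ L0, ph lam W1 y d c c' l x := by
    refine le_trans (sum_le_sum fun Q hQ => ?_) (sum_le_sum_of_subset_of_nonneg
      ((filter_subset _ _).trans disc_sub) fun x _ _ =>
        prod_nonneg fun l _ => (ph_bd h0 hl1 _ _ _ _ _ l x).1)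
    obtain ⟨-, a1, a2, a3⟩ := mem_filter.1 hQ
    exact point h0 hl1 a1 a2 a3 L0 hL0d
  have hside := side_le hp1
  rw [← hr] at hside
  have hy0 : (0 : ℝ) < y := by exact_mod_cast Nat.pos_of_ne_zero hy.ne_zero
  have hd0 : (0 : ℝ) < d := by exact_mod_cast Nat.pos_of_ne_zero hd.ne_zero
  have hW0 : (0 : ℝ) < W1 := by exact_mod_cast Nat.pos_of_ne_zero hW.1.ne_zero
  have hn : ∏ l ∈ L0, (l : ℝ) ≤ z ^ (1 + e + a) := by
    have i1 : ∀ s t : Finset ℕ, (∀ l ∈ t, 1 ≤ l) →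
        ∏ l ∈ s ∪ t, (l : ℝ) ≤ (∏ l ∈ s, (l : ℝ)) * ∏ l ∈ t, (l : ℝ) := by
      intro s t ht
      rw [← union_sdiff_self_eq_union, prod_union disjoint_sdiff]
      refine mul_le_mul_of_nonneg_left ?_ (prod_nonneg fun _ _ => by positivity)
      exact prod_le_prod_of_subset_of_one_le sdiff_subset (fun _ _ => by positivity)
        fun l hl _ => by exact_mod_cast ht l hl
    calc ∏ l ∈ L0, (l : ℝ) ≤ (∏ l ∈ W1.primeFactors ∪ y.primeFactors, (l : ℝ)) *
          ∏ l ∈ d.primeFactors, (l : ℝ) :=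
          i1 _ _ fun l hl => (Nat.prime_of_mem_primeFactors hl).one_le
      _ ≤ ((∏ l ∈ W1.primeFactors, (l : ℝ)) * ∏ l ∈ y.primeFactors, (l : ℝ)) *
          ∏ l ∈ d.primeFactors, (l : ℝ) :=
          mul_le_mul_of_nonneg_right
            (i1 _ _ fun l hl => (Nat.prime_of_mem_primeFactors hl).one_le)
            (prod_nonneg fun _ _ => by positivity)
      _ = W1 * y * d := by rw [prod_cast hW.1, prod_cast hy, prod_cast hd]
      _ ≤ z * z ^ e * z ^ a := by gcongr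
      _ = _ := by ring
  have hD : z * (y * d * (W1 : ℝ) ^ 2) ≤ z ^ (e + a + 3) := by
    calc _ ≤ z * (z ^ e * z ^ a * z ^ 2) := by gcongr
      _ = _ := by ring
  have hErr := err_bound hE.1 hE.2.1 hE.2.2.1 hz1' hp (prod_nonneg fun _ _ => by positivity) hn
    (by positivity) hD (by positivity) hside
  set X := Real.exp (-(1 - lam) * Lam (ww v) z) * 3 ^ d.primeFactors.card /
    (y * d * (W1 : ℝ) ^ 2) with hX
  have hX1 : 1 ≤ X * (z * (y * d * (W1 : ℝ) ^ 2)) := by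
    have e1 : X * (z * (y * d * (W1 : ℝ) ^ 2)) =
        Real.exp (-(1 - lam) * Lam (ww v) z) * z * 3 ^ d.primeFactors.card := by
      rw [hX]; field_simp
    have e2 := hz1 (ww v) z hzz
    have e3 : 1 ≤ Real.exp (-(1 - lam) * Lam (ww v) z) * Real.exp ((1 : ℕ) * Lam (ww v) z) := by
      rw [← Real.exp_add]
      apply Real.one_le_exp
      have := Lam_nonneg (ww v) z
      push_cast
      nlinarith
    rw [e1]
    refine one_le_mul_of_one_le_of_one_le (e3.trans ?_) (one_le_pow₀ (by norm_num))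
    exact mul_le_mul_of_nonneg_left e2 (Real.exp_pos _).le
  have hX0 : 0 ≤ X := by rw [hX]; positivity
  set Er := 4 * z ^ (u + 1) * (((∏ l ∈ L0, (l : ℝ)) * z ^ u) ^ 2 * ((2 * r + 1 : ℕ) : ℝ) +
    ((∏ l ∈ L0, (l : ℝ)) * z ^ u) ^ 4) with hEr
  have hEr0 : 0 ≤ Er := by
    have : 0 ≤ ∏ l ∈ L0, (l : ℝ) := prod_nonneg fun _ _ => by positivity
    rw [hEr]; positivity
  have hE2 : Er ≤ 28 * p * X := by
    calc Er ≤ Er * (X * (z * (y * d * (W1 : ℝ) ^ 2))) := le_mul_of_one_le_right hEr0 hX1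
      _ = Er * (z * (y * d * (W1 : ℝ) ^ 2)) * X := by ring
      _ ≤ _ := mul_le_mul_of_nonneg_right hErr hX0
  have hM2 : ((2 * r + 1 : ℕ) : ℝ) ^ 2 *
      ∏ l ∈ L0 ∪ PP (ww v) z \ L0, E1 (l ^ 2) (ph lam W1 y d c c' l) ≤
      36 * p * (Real.exp 3 * X) := by
    refine mul_le_mul ?_ (hM.trans (le_of_eq (by rw [hX]; ring)))
      (prod_nonneg fun l _ => E1_nonneg fun x => (ph_bd h0 hl1 _ _ _ _ _ l x).1) (by positivity)
    calc _ ≤ (6 * Real.sqrt p) ^ 2 := pow_le_pow_left₀ (by positivity) hside 2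
      _ = _ := by rw [mul_pow, Real.sq_sqrt (by linarith)]; norm_num
  have hfin := (abs_le.1 hF).2
  calc _ ≤ _ := hS
    _ ≤ (72 * Real.exp 3 + 28) * p * X := by nlinarith
    _ = _ := by rw [hX]; ring

end Pool.Agent.Lib.LQ
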