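import Pool.Agent.Lib.LQ.SLAux4

set_option autoImplicit false

open Finset
open scoped Classical

noncomputable section

namespace Pool.Agent.Lib.LQ

namespace SL

lemma c0_pos : 0 < c0 := by unfold c0; positivity

lemma psi_le {q : ℕ} (h : Squarefree q) (hs : sg q ≤ 1) : 0 < psi q ∧ psi q ≤ Real.exp 1 * q := by
  refine ⟨prod_pos fun l _ => by positivity, ?_⟩
  calc psi q ≤ ∏ l ∈ q.primeFactors, (Real.exp (1 / Real.sqrt l) * l) := by
        refine prod_le_prod (fun l _ => by positivity) fun l hl => ?_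
        have hp := Nat.prime_of_mem_primeFactors hl
        have h0 : (0 : ℝ) < l := by exact_mod_cast hp.pos
        have h1 := Real.add_one_le_exp (1 / Real.sqrt l)
        have h2 := inv_le_inv_sqrt hp
        calc (l : ℝ) + 1 = (1 / l + 1) * l := by field_simp; ring
          _ ≤ _ := by gcongr; linarith
    _ = Real.exp (sg q) * q := by rw [prod_mul_distrib, prod_cast h, ← Real.exp_sum, sg]
    _ ≤ _ := by gcongr

lemma sg_mono {m n : ℕ} (h : m ∣ n) (hn : n ≠ 0) : sg m ≤ sg n :=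
  sum_le_sum_of_subset_of_nonneg (Nat.primeFactors_mono h hn) fun _ _ _ => by positivity

lemma num1 {z s W y R G c : ℝ} {u e : ℕ} (hz : 1 ≤ z) (hs : 0 < s) (hsz : s ≤ z) (hW : 0 < W)
    (hWz : W ≤ z) (hy : 0 < y) (hyz : y ≤ z ^ e) (hR : z ^ (4 * e) ≤ R) (hG : 1 / s ≤ G)
    (hc : 0 < c) (hcz : 128 / c ≤ z) (hu : 3 * u + 7 ≤ e) :
    4 * z ^ (u + 1) * ((W * y * z ^ u) ^ 2 * R + (W * y * z ^ u) ^ 4) ≤
      c / 16 * (R * R * G / (y * W ^ 2)) := by
  have hz0 : 0 < z := by linarith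
  have hR0 : 0 < R := lt_of_lt_of_le (by positivity) hR
  have a1 : (W * y * z ^ u) ^ 2 ≤ z ^ (2 + 2 * e + 2 * u) := by
    calc _ ≤ (z * z ^ e * z ^ u) ^ 2 := by gcongr
      _ = _ := by ring
  have a2 : z ^ (2 + 2 * e + 2 * u) ≤ R := (pow_le_pow_right₀ hz (by omega)).trans hR
  have a3 : (W * y * z ^ u) ^ 4 ≤ z ^ (2 + 2 * e + 2 * u) * R := by
    calc _ = (W * y * z ^ u) ^ 2 * (W * y * z ^ u) ^ 2 := by ring
      _ ≤ _ := by gcongr; exact a1.trans a2
  have a4 : 128 / c * s * y * W ^ 2 * (z ^ (u + 1) * z ^ (2 + 2 * e + 2 * u)) ≤ R := by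
    calc _ ≤ z * z * z ^ e * z ^ 2 * (z ^ (u + 1) * z ^ (2 + 2 * e + 2 * u)) := by gcongr
      _ = z ^ (3 * e + 3 * u + 7) := by ring
      _ ≤ _ := (pow_le_pow_right₀ hz (by omega)).trans hR
  calc _ ≤ 4 * z ^ (u + 1) * (z ^ (2 + 2 * e + 2 * u) * R + z ^ (2 + 2 * e + 2 * u) * R) := by
        gcongr
    _ = c / 16 * (128 / c * s * y * W ^ 2 * (z ^ (u + 1) * z ^ (2 + 2 * e + 2 * u)) * R * (1 / s) /
        (y * W ^ 2)) := by field_simp; ring
    _ ≤ _ := by gcongr

lemma num2 {s W y R G c K v : ℝ} (hs : 1 ≤ s) (hW : 0 < W) (hy : 0 < y) (hR : y * s ^ 4 ≤ R)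
    (hG : 1 / s ≤ G) (hc : 0 < c) (hK : 0 ≤ K) (hv : 0 ≤ v)
    (h : K * (6 + 24 * v) * W ^ 2 * 16 / c ≤ s) :
    K * s * (R * R / y * (3 + 16 * v) / s ^ 4 + (3 + 8 * v) * R) ≤
      c / 16 * (R * R * G / (y * W ^ 2)) := by
  have hs0 : 0 < s := by linarith
  have hR0 : 0 < R := lt_of_lt_of_le (by positivity) hR
  have a1 : R ≤ R * R / (y * s ^ 4) := by rw [le_div_iff₀ (by positivity)]; gcongr
  have a2 : K * (6 + 24 * v) * W ^ 2 * 16 / c ≤ s ^ 2 := h.trans (by nlinarith)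
  calc _ ≤ K * s * (R * R / y * (3 + 16 * v) / s ^ 4 + (3 + 8 * v) * (R * R / (y * s ^ 4))) := by
        gcongr
    _ = c / 16 * (R * R * (K * (6 + 24 * v) * W ^ 2 * 16 / c / s ^ 3) / (y * W ^ 2)) := by
        field_simp; ring
    _ ≤ c / 16 * (R * R * (s ^ 2 / s ^ 3) / (y * W ^ 2)) := by gcongr
    _ = c / 16 * (R * R * (1 / s) / (y * W ^ 2)) := by field_simp
    _ ≤ _ := by gcongr

lemma lam_large (h0 : MertensStmt) {w : ℝ} (hw : 2 ≤ w) (T : ℝ) :
    ∃ z0, ∀ z, z0 ≤ z → T ≤ Lam w z := by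
  obtain ⟨C, hC⟩ := h0
  have hlw : 0 < Real.log w := Real.log_pos (by linarith)
  refine ⟨max w (Real.exp (Real.log w * Real.exp (T + C))), fun z hz => ?_⟩
  have h1 := (abs_le.1 (hC w z hw (le_of_max_le_left hz))).1
  have h2 : Real.log w * Real.exp (T + C) ≤ Real.log z :=
    (Real.le_log_iff_exp_le (by linarith [le_of_max_le_left hz])).2 (le_of_max_le_right hz)
  have h3 : Real.exp (T + C) ≤ Real.log z / Real.log w := by rwa [le_div_iff₀' hlw]
  have h4 := (Real.le_log_iff_exp_le ((Real.exp_pos _).trans_le h3)).2 h3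
  linarith

end SL

open SL in
theorem SL (h0 : MertensStmt) (h1 : LFLStmt) (h2 : Loc1Stmt) (h3 : QUStmt) : SLStmt := by
  obtain ⟨uL, hL⟩ := h1 9 (1 / 2) (by norm_num)
  obtain ⟨K0, uQ, hQ⟩ := h3
  have hc0 := c0_pos
  set KQ := max K0 1 with hKQ
  have hK1 : 1 ≤ KQ := le_max_right _ _
  set B := 912 * KQ / c0 with hB
  have hB0 : 0 < B := by positivity
  refine ⟨max (max K0 100) B, c0 / (16 * Real.exp 1), max (max uL uQ) ⌈B⌉₊, by positivity,
    fun v a1 e f hv hu hE => ?_⟩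
  have hv1 : (100 : ℝ) ≤ v := (le_max_right _ _).trans ((le_max_left _ _).trans hv)
  have hv2 : 100 ≤ v := by exact_mod_cast hv1
  have hvB : B ≤ v := (le_max_right _ _).trans hv
  have haB : B ≤ a1 := Nat.ceil_le.1 ((le_max_right _ _).trans hu)
  have huL : uL ≤ a1 := (le_max_left _ _).trans ((le_max_left _ _).trans hu)
  have huQ : uQ ≤ a1 := (le_max_right _ _).trans ((le_max_left _ _).trans hu)
  obtain ⟨E1, E2, E3, E4⟩ := hE
  have ha : 1 ≤ a1 := by omega
  have hf : (0 : ℝ) < f := by exact_mod_cast (by omega : 0 < f)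
  obtain ⟨zQ, hQ⟩ := hQ v (3 * a1) e f ((le_max_left _ _).trans ((le_max_left _ _).trans hv))
    ⟨E1, by omega, E3, E4⟩
  obtain ⟨Kd, hKd, hd⟩ := div_bounds (ε := 1 / (8 * f)) (by positivity)
  obtain ⟨z8, h8⟩ := exp_Lam_le 8
  have hw := ww_ge hv2
  obtain ⟨zM, hM⟩ := lam_large h0 (w := ww v) (by linarith) (Real.log (16 * KQ / c0) / 0.0014)
  have hW : 0 < WW v := primorial_pos _
  have hW' : (1 : ℝ) ≤ WW v := by exact_mod_cast hW
  refine ⟨max (max (max zQ z8) (max zM 40)) (max (max ((100 * v * WW v : ℝ) ^ 2) (128 / c0))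
    ((Kd * (6 + 24 * v) * (WW v : ℝ) ^ 2 * 16 / c0) ^ 8)), fun z Y0 S ρ hz hl => ?_⟩
  simp only [max_le_iff] at hz
  obtain ⟨⟨⟨z1, z2⟩, z3, z4⟩, ⟨z5, z6⟩, z7⟩ := hz
  have hz1 : 1 ≤ z := by linarith
  have hz0 : 0 < z := by linarith
  set s := z ^ (1 / 8 : ℝ) with hs
  have hs8 : s ^ 8 = z := by
    rw [hs, ← Real.rpow_natCast, ← Real.rpow_mul hz0.le]; norm_num
  have hs1 : 1 ≤ s := Real.one_le_rpow hz1 (by norm_num)
  have hsz : s ≤ z := by rw [← hs8]; exact le_self_pow₀ hs1 (by norm_num)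
  have hs4 : Real.sqrt z = s ^ 4 := by
    rw [← hs8, show s ^ 8 = (s ^ 4) ^ 2 by ring, Real.sqrt_sq (by positivity)]
  have hsK : Kd * (6 + 24 * v) * (WW v : ℝ) ^ 2 * 16 / c0 ≤ s :=
    le_of_pow_le_pow_left₀ (n := 8) (by norm_num) (by linarith) (by rwa [hs8])
  have hG : 1 / s ≤ GQ v z x0 := by
    have a1 : Real.exp (Lam (ww v) z) ≤ s := by
      refine le_of_pow_le_pow_left₀ (n := 8) (by norm_num) (by linarith) ?_
      rw [hs8, ← Real.exp_nat_mul]; exact h8 _ z z2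
    calc 1 / s ≤ 1 / Real.exp (Lam (ww v) z) := by gcongr
      _ = Real.exp (-Lam (ww v) z) := by rw [Real.exp_neg, one_div]
      _ ≤ _ := by
        refine Real.exp_le_exp.2 ?_
        simp only [x0]
        linarith [Lam_nonneg (ww v) z]
  have hG0 : 0 < GQ v z x0 := Real.exp_pos _
  have hWz : (WW v : ℝ) ≤ z := by
    have a1 : (WW v : ℝ) ≤ 100 * v * WW v := le_mul_of_one_le_left (by linarith) (by linarith)
    exact (a1.trans (le_self_pow₀ (hW'.trans a1) two_ne_zero)).trans z5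
  have e3 : 3 * KQ * (16 / v + 3 / a1) ≤ c0 / 16 := by
    calc _ ≤ 3 * KQ * (16 / B + 3 / B) := by gcongr
      _ = _ := by rw [hB]; field_simp; norm_num
  have e4 : KQ * Real.exp (-(0.0014 * Lam (ww v) z)) ≤ c0 / 16 := by
    have a1 := hM z z3
    rw [div_le_iff₀' (by norm_num)] at a1
    calc _ ≤ KQ * Real.exp (-Real.log (16 * KQ / c0)) := by gcongr
      _ = _ := by rw [Real.exp_neg, Real.exp_log (by positivity)]; field_simp
  have hn0 : nm (pr S * ρ) ≠ 0 := hl.lab.sf.ne_zero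
  have hns0 : nm (pr S) ≠ 0 := fun h => hn0 (by rw [nm_mul, h, zero_mul])
  have hsn : sg (nm (pr S * ρ)) ≤ 1 := hl.sgS.trans (by rw [div_le_one (by linarith)]; linarith)
  have hdv : nm (pr S) ∣ nm (pr S * ρ) := nm_dvd (dvd_mul_right _ _)
  have key : ∀ r ∈ (S.powerset ×ˢ S.powerset).filter (fun r => Disjoint r.1 r.2),
      (1 / 3 : ℝ) ^ (S \ (r.1 ∪ r.2)).card * (1 / 3) ^ r.1.card * (1 / 3) ^ r.2.card *
        (c0 / (16 * Real.exp 1) * GQ v z x0 / (WW v : ℝ) ^ 3) ≤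
      ∑ t ∈ (T1 v a1 e f z S ρ Y0).filter (fun t => (t.S2, t.S3) = r), mt v z x0 S t := by
    rintro ⟨S2, S3⟩ hr
    simp only [mem_filter, mem_product, mem_powerset] at hr
    obtain ⟨⟨r1, r2⟩, r3⟩ := hr
    have d2 : nm (pr S2) ∣ nm (pr S) := nm_dvd (prod_dvd_prod_of_subset _ _ _ r1)
    have d3 : nm (pr S3 * ρ) ∣ nm (pr S * ρ) :=
      nm_dvd (mul_dvd_mul_right (prod_dvd_prod_of_subset _ _ _ r2) ρ)
    set p := nm (pr S3 * ρ) with hp
    have hp0 : p ≠ 0 := ne_zero_of_dvd_ne_zero hn0 d3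
    have s2lo : (1 : ℝ) ≤ nm (pr S2) := by
      exact_mod_cast Nat.pos_of_ne_zero (ne_zero_of_dvd_ne_zero hns0 d2)
    have s2hi : (nm (pr S2) : ℝ) ≤ z ^ a1 :=
      le_trans (by exact_mod_cast Nat.le_of_dvd (Nat.pos_of_ne_zero hns0) d2) hl.lab.hiS
    have phi : (p : ℝ) ≤ z ^ f :=
      le_trans (by exact_mod_cast Nat.le_of_dvd (Nat.pos_of_ne_zero hn0) d3) hl.hip
    have plo : z ^ (9 * e) ≤ (p : ℝ) := by
      have a1 : (nm ρ : ℝ) ≤ p := by
        exact_mod_cast Nat.le_of_dvd (Nat.pos_of_ne_zero hp0) (nm_dvd (dvd_mul_left _ _))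
      have := hl.loρ
      have : 0 < z ^ (9 * e) := by positivity
      linarith
    have hR : z ^ (4 * e) ≤ Real.sqrt p := Real.le_sqrt_of_sq_le (by
      rw [← pow_mul]; exact (pow_le_pow_right₀ hz1 (by omega)).trans plo)
    have hRR := Real.mul_self_sqrt (show (0 : ℝ) ≤ p by positivity)
    have hp100 : 100 ≤ Real.sqrt p := by
      have : z ^ 2 ≤ z ^ (4 * e) := pow_le_pow_right₀ hz1 (by omega)
      nlinarith
    set Y := Y0 / nm (pr S2) with hY
    have hYlo : z ^ (24 * a1) ≤ Y := by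
      rw [hY, le_div_iff₀ (by linarith)]
      calc _ ≤ z ^ (24 * a1) * z ^ a1 := by gcongr
        _ = z ^ (25 * a1) := by ring
        _ ≤ _ := hl.loY
    have hYz : z ≤ Y := (le_self_pow₀ hz1 (by omega)).trans hYlo
    have hYY : Y * nm (pr S2) = Y0 := div_mul_cancel₀ _ (by linarith)
    have hYhi : 2 * Y ≤ z ^ e := by have := hl.hiY; nlinarith
    obtain ⟨A, hA1, hA⟩ := exists_ys hv2 hn0 hsn (z5.trans hYz)
    let D := (A ×ˢ sqr p).filter fun d => GoodQ v a1 d.1 (nm (pr S)) (nm (pr S * ρ)) p z d.2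
    let mk : ℕ × GI → Tt := fun d => ⟨S2, S3, d.1, d.2⟩
    have hmk : ∀ d ∈ D, mk d ∈ (T1 v a1 e f z S ρ Y0).filter fun t => (t.S2, t.S3) = (S2, S3) := by
      rintro ⟨y, Q⟩ hd
      obtain ⟨a, g⟩ := mem_filter.1 hd
      obtain ⟨y1, y2, y3, y4, y5, y6⟩ := hA y (mem_product.1 a).1
      have adm : Adm v (3 * a1) e f z S ρ (WW v) Y0 2 (mk (y, Q)) := by
        refine ⟨r1, r2, r3, ?_, ?_, ?_, y2.trans hYhi, y3, y4, y5.trans (by gcongr; linarith), y6,
          g.sfq, g.bigq, g.sgq, g.copq, g.pq, ?_, g.lt.ne', g.ydvd, g.QW, plo, phi, g.sgk⟩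
        · simp only [mk, Tt.c]; push_cast; nlinarith
        · simp only [mk, Tt.c]; push_cast; nlinarith
        · rw [show 8 * (3 * a1) = 24 * a1 by ring]; exact hYlo.trans y1
        · exact g.lt.le.trans (Nat.le_mul_of_pos_left _ two_pos)
      refine mem_filter.2 ⟨mem_filter.2 ⟨mem_Tall adm, adm, g.lt, g.copk, g.hom, g.sz⟩, rfl⟩
    have hQs : ∀ y ∈ A, c0 / 4 * (p * GQ v z x0 / (2 * Y * (WW v : ℝ) ^ 2)) ≤
        ∑ Q ∈ (sqr p).filter (GoodQ v a1 y (nm (pr S)) (nm (pr S * ρ)) p z),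
          (1 / 6 : ℝ) ^ om (ww v) z Q := by
      intro y hy
      obtain ⟨y1, y2, y3, y4, y5, y6⟩ := hA y hy
      have y0 : (0 : ℝ) < y := by linarith
      have y7 : Nat.Coprime y p := y6.coprime_dvd_right d3
      refine le_trans (by unfold M0; gcongr) (Qsum (KQ := KQ) (r := Kd * s) hL h2 ?_ (by linarith)
        hv2 ha y4 y3 y5 y7 hns0 ((sg_mono hdv hn0).trans hsn) hn0 hsn hp100 (by linarith) ?_ ?_
        (by positivity) ?_ ?_ ?_ e3 e4)
      · intro lam d c' l0 l1 d1 d2 d3 d4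
        refine (hQ z lam p (WW v) y d p c' z1 l0 l1 plo ⟨squarefree_primorial _, fun l hl hd => ?_⟩
          y3 (y5.trans (by gcongr; linarith)) (y2.trans hYhi) d1
          (d2.trans (le_self_pow₀ hz1 (by omega))) d3 d4
          (Nat.coprime_of_dvd fun l a b => not_dvd_WW a (big_of_mod y4 a b))
          (by rw [Int.gcd_natCast_natCast]; exact y7.symm)).trans ?_
        · exact not_lt.1 fun h => not_dvd_WW hl h hd
        · gcongr; exact le_max_left _ _
      · intro l a b c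
        rw [nm_mul] at b
        exact ((Nat.Prime.dvd_mul a).1 b).resolve_right fun h =>
          absurd (hl.lab.rough l a h) (not_lt.2 c)
      · intro l a b
        have := Nat.mem_primeFactors.2 ⟨a, b, hns0⟩
        rw [primeFactors_nm_pr hl.lab.sub] at this
        obtain ⟨π, hπ, rfl⟩ := mem_image.1 this
        obtain ⟨-, -, c3, c4⟩ := mem_PP.1 (mem_GF.1 (hl.lab.sub hπ)).1
        exact ⟨c3, c4, fun h => a.one_lt.ne' (Nat.eq_one_of_dvd_coprimes y6 h (b.trans hdv))⟩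
      · intro q q0 q1 T hT
        refine ((hd q q0).2 T hT).trans (mul_le_mul_of_nonneg_left ?_ (by linarith))
        calc (q : ℝ) ^ (1 / (8 * f) : ℝ) ≤ (z ^ f) ^ (1 / (8 * f) : ℝ) := by
              gcongr; exact le_trans (by exact_mod_cast q1) phi
          _ = s := by
              rw [hs, ← Real.rpow_natCast, ← Real.rpow_mul hz0.le]; congr 1; field_simp
      · have := num1 (u := uL) hz1 (by linarith) hsz (by linarith) hWz y0 (y2.trans hYhi) hR hG hc0
          z6 (by omega)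
        rwa [hRR] at this
      · have := num2 (R := Real.sqrt p) (v := v) hs1 (by linarith : (0 : ℝ) < WW v) y0 ?_ hG hc0
          (by linarith : 0 ≤ Kd) (by linarith) hsK
        · rwa [hRR, ← hs4] at this
        · calc (y : ℝ) * s ^ 4 ≤ z ^ e * z := by
                gcongr
                · exact y2.trans hYhi
                · rw [← hs8]; exact pow_le_pow_right₀ hs1 (by norm_num)
            _ = z ^ (e + 1) := by ring
            _ ≤ _ := (pow_le_pow_right₀ hz1 (by omega)).trans hR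
    have hp' : (0 : ℝ) < p := by exact_mod_cast Nat.pos_of_ne_zero hp0
    set θ := (1 / 3 : ℝ) ^ (S \ (S2 ∪ S3)).card * (1 / 3) ^ S2.card * (1 / 3) ^ S3.card with hθ
    have hθ0 : 0 ≤ θ := by positivity
    calc θ * (c0 / (16 * Real.exp 1) * GQ v z x0 / (WW v : ℝ) ^ 3)
        = θ / (Real.exp 1 * p) * (Y / (2 * WW v) *
            (c0 / 4 * (p * GQ v z x0 / (2 * Y * (WW v : ℝ) ^ 2)))) := by
          have : 0 < Y := by linarith
          field_simp; ring
      _ ≤ θ / (Real.exp 1 * p) * ∑ d ∈ D, (1 / 6 : ℝ) ^ om (ww v) z d.2 := by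
          refine mul_le_mul_of_nonneg_left ?_ (by positivity)
          have : 0 < Y := by linarith
          calc _ ≤ A.card * (c0 / 4 * (p * GQ v z x0 / (2 * Y * (WW v : ℝ) ^ 2))) := by gcongr
            _ ≤ _ := by
              rw [← nsmul_eq_mul, ← sum_const, sum_filter, sum_product]
              exact sum_le_sum fun y hy => (hQs y hy).trans (le_of_eq (sum_filter _ _))
      _ ≤ ∑ d ∈ D, mt v z x0 S (mk d) := by
          rw [mul_sum]
          refine sum_le_sum fun d hd => ?_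
          have g := (mem_filter.1 hd).2
          obtain ⟨b1, b2⟩ := psi_le g.sfq (g.sgq.trans (by rw [div_le_one (by linarith)]; linarith))
          have b3 : (nm d.2 : ℝ) ≤ p := by exact_mod_cast g.lt.le
          calc _ = θ * (1 / 6) ^ om (ww v) z d.2 / (Real.exp 1 * p) := by ring
            _ ≤ θ * (1 / 6) ^ om (ww v) z d.2 / psi (nm d.2) := by
              gcongr; exact b2.trans (by gcongr)
            _ = _ := rfl
      _ ≤ _ := by
          rw [← sum_image (g := mk) (f := mt v z x0 S)]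
          · refine sum_le_sum_of_subset_of_nonneg (fun t ht => ?_) fun t _ _ => ?_
            · obtain ⟨d, hd, rfl⟩ := mem_image.1 ht
              exact hmk d hd
            · have : 0 ≤ psi t.q := prod_nonneg fun _ _ => by positivity
              simp only [mt, th, x0]; positivity
          · intro d _ d' _ h
            exact Prod.ext (congrArg Tt.y h) (congrArg Tt.Q h)
  have := sum_le_sum key
  rw [← sum_mul, sum_splits, sum_fiberwise_of_maps_to] at this
  · norm_num at this ⊢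
    exact this
  · intro t ht
    have a := (mem_filter.1 ht).2.1
    exact mem_filter.2 ⟨mem_product.2 ⟨mem_powerset.2 a.sub2, mem_powerset.2 a.sub3⟩, a.disj⟩

end Pool.Agent.Lib.LQ
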