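import Pool.Agent.Lib.LQ.Basic

set_option autoImplicit false

open Finset
open scoped Classical

noncomputable section

namespace Pool.Agent.Lib.LQ

open Pool.Agent.Lib.MP_de94cf_nt (gg det inn)

namespace SM

lemma psi_nonneg (n : ℕ) : 0 ≤ psi n := prod_nonneg fun _ _ => by positivity

lemma mt_nonneg {v : ℕ} {z : ℝ} {x : Wt} (hx : x.OK) (S : Finset GI) (t : Tt) :
    0 ≤ mt v z x S t := by
  have := hx.h1
  have := hx.h2
  have := hx.hP
  have := hx.hQ.1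
  have := psi_nonneg t.q
  unfold mt th
  positivity

lemma sst_nonneg (v : ℕ) (z : ℝ) (n : ℕ) (D : ℤ) : 0 ≤ sst v z n D :=
  sum_nonneg fun _ _ => by positivity

lemma sst_le (v : ℕ) (z : ℝ) (n : ℕ) (D : ℤ) : sst v z n D ≤ Lam (ww v) z := by
  refine (sum_le_sum_of_subset_of_nonneg (filter_subset _ _) fun _ _ _ => by positivity).trans
    (sum_le_sum fun l hl => ?_)
  have h : (1 : ℝ) ≤ l := by exact_mod_cast (mem_PP.1 hl).1.pos
  rw [div_le_div_iff₀ (by linarith) (by linarith)]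
  linarith

lemma Exc_nonneg (v : ℕ) (z : ℝ) (S : Finset GI) (ρ : GI) (t t' : Tt) : 0 ≤ Exc v z S ρ t t' :=
  mul_nonneg (mul_nonneg (Real.exp_pos _).le (ind_nonneg _)) (psi_nonneg _)

lemma cube_le (a b c d : ℝ) : Real.exp (12 * (a + b + c + d)) ^ 3 ≤
    (Real.exp (144 * a) + Real.exp (144 * b) + Real.exp (144 * c) + Real.exp (144 * d)) / 4 := by
  have e : ∀ s : ℝ, Real.exp (144 * s) = Real.exp (36 * s) ^ 4 := fun s => by
    rw [← Real.exp_nat_mul]; congr 1; push_cast; ring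
  have e' : Real.exp (12 * (a + b + c + d)) ^ 3 =
      Real.exp (36 * a) * Real.exp (36 * b) * Real.exp (36 * c) * Real.exp (36 * d) := by
    rw [← Real.exp_nat_mul, ← Real.exp_add, ← Real.exp_add, ← Real.exp_add]
    congr 1; push_cast; ring
  rw [e', e, e, e, e]
  generalize Real.exp (36 * a) = A
  generalize Real.exp (36 * b) = B
  generalize Real.exp (36 * c) = C
  generalize Real.exp (36 * d) = D
  nlinarith [sq_nonneg (A ^ 2 - B ^ 2), sq_nonneg (C ^ 2 - D ^ 2), sq_nonneg (A * B - C * D)]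

lemma young {x y : ℝ} (hx : 0 ≤ x) (hy : 0 ≤ y) : y * x ≤ y ^ 3 + x * Real.sqrt x := by
  obtain ⟨r, hr, rfl⟩ : ∃ r, 0 ≤ r ∧ x = r ^ 2 := ⟨Real.sqrt x, Real.sqrt_nonneg x, (Real.sq_sqrt hx).symm⟩
  rw [Real.sqrt_sq hr]
  rcases le_total y r with h | h
  · have := mul_le_mul_of_nonneg_right h (sq_nonneg r)
    nlinarith [pow_nonneg hy 3]
  · have h1 : r ^ 2 ≤ y ^ 2 := pow_le_pow_left₀ hr h 2
    have := mul_le_mul_of_nonneg_left h1 hy
    nlinarith [mul_nonneg (sq_nonneg r) hr]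

lemma exc_le (v : ℕ) (z : ℝ) (S : Finset GI) (ρ : GI) {t t' : Tt} (hnd : ¬ Diag t t') :
    Exc v z S ρ t t' ≤ 1 +
      ((Real.exp (144 * sst v z (exn S t t') (D33 t t')) - 1) +
        (Real.exp (144 * sst v z (exn S t t') (D34 ρ t t')) - 1) +
        (Real.exp (144 * sst v z (exn S t t') (D34 ρ t' t)) - 1) +
        (Real.exp (144 * sst v z (exn S t t') (D44 ρ t t')) - 1)) / 4 +
      ind (D33 t t' ≠ 0 ∧ 1 < g0 t t' ∧ (g0 t t' : ℤ) ∣ D33 t t') *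
        (psi (g0 t t') * Real.sqrt (psi (g0 t t'))) +
      Real.exp (48 * Lam (ww v) z) *
        (ind (¬ Diag t t' ∧ D33 t t' = 0 ∧ g0 t t' = Nat.gcd t.q t'.q) * psi (g0 t t')) := by
  have h3 := cube_le (sst v z (exn S t t') (D33 t t')) (sst v z (exn S t t') (D34 ρ t t'))
    (sst v z (exn S t t') (D34 ρ t' t)) (sst v z (exn S t t') (D44 ρ t t'))
  have hy2 : Real.exp (12 * (sst v z (exn S t t') (D33 t t') + sst v z (exn S t t') (D34 ρ t t') +
      sst v z (exn S t t') (D34 ρ t' t) + sst v z (exn S t t') (D44 ρ t t'))) ≤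
      Real.exp (48 * Lam (ww v) z) := Real.exp_le_exp.2 (by
    linarith [sst_le v z (exn S t t') (D33 t t'), sst_le v z (exn S t t') (D34 ρ t t'),
      sst_le v z (exn S t t') (D34 ρ t' t), sst_le v z (exn S t t') (D44 ρ t t')])
  have hy1 : 1 ≤ Real.exp (12 * (sst v z (exn S t t') (D33 t t') +
      sst v z (exn S t t') (D34 ρ t t') + sst v z (exn S t t') (D34 ρ t' t) +
      sst v z (exn S t t') (D44 ρ t t'))) := Real.one_le_exp (by
    linarith [sst_nonneg v z (exn S t t') (D33 t t'), sst_nonneg v z (exn S t t') (D34 ρ t t'),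
      sst_nonneg v z (exn S t t') (D34 ρ t' t), sst_nonneg v z (exn S t t') (D44 ρ t t')])
  unfold Exc
  generalize Real.exp (12 * (sst v z (exn S t t') (D33 t t') +
      sst v z (exn S t t') (D34 ρ t t') + sst v z (exn S t t') (D34 ρ t' t) +
      sst v z (exn S t t') (D44 ρ t t'))) = y at h3 hy1 hy2 ⊢
  have hx := psi_nonneg (g0 t t')
  have hA : 0 ≤ ind (D33 t t' ≠ 0 ∧ 1 < g0 t t' ∧ (g0 t t' : ℤ) ∣ D33 t t') *
      (psi (g0 t t') * Real.sqrt (psi (g0 t t'))) :=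
    mul_nonneg (ind_nonneg _) (mul_nonneg hx (Real.sqrt_nonneg _))
  have hB : 0 ≤ Real.exp (48 * Lam (ww v) z) *
      (ind (¬ Diag t t' ∧ D33 t t' = 0 ∧ g0 t t' = Nat.gcd t.q t'.q) * psi (g0 t t')) :=
    mul_nonneg (Real.exp_pos _).le (mul_nonneg (ind_nonneg _) hx)
  have hy3 : y ≤ y ^ 3 := le_self_pow₀ hy1 (by norm_num)
  by_cases hI : (g0 t t' : ℤ) ∣ D33 t t' ∧ (D33 t t' = 0 → g0 t t' = Nat.gcd t.q t'.q)
  swap
  · rw [ind_false hI]
    linarith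
  rw [ind_true hI, mul_one]
  have hg : 0 < g0 t t' := prod_pos fun l hl => (Nat.prime_of_mem_primeFactors (mem_filter.1 hl).1).pos
  by_cases hD : D33 t t' = 0
  · rw [ind_true (p := ¬ Diag t t' ∧ D33 t t' = 0 ∧ g0 t t' = Nat.gcd t.q t'.q) ⟨hnd, hD, hI.2 hD⟩,
      one_mul]
    have := mul_le_mul_of_nonneg_right hy2 hx
    linarith
  by_cases h1 : g0 t t' = 1
  · have e : psi (g0 t t') = 1 := by rw [h1]; simp [psi]
    have : y * psi (g0 t t') = y := by rw [e, mul_one]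
    linarith
  · rw [ind_true (p := D33 t t' ≠ 0 ∧ 1 < g0 t t' ∧ (g0 t t' : ℤ) ∣ D33 t t')
      ⟨hD, by omega, hI.1⟩, one_mul]
    have := young hx (by linarith : 0 ≤ y)
    linarith

lemma card_diag {T : Finset Tt} (hT : ∀ t ∈ T, t.q ≠ 0) (t : Tt) :
    (T.filter fun t' => Diag t t').card ≤ 4 := by
  have h : (T.filter fun t' => Diag t t') ⊆ ({1, -1, ⟨0, 1⟩, ⟨0, -1⟩} : Finset GI).image
      fun ε => (⟨t.S2, t.S3, t.y, ε * t.Q⟩ : Tt) := by
    intro t' ht'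
    obtain ⟨h0, h1, h2, h3, h4, h5⟩ := mem_filter.1 ht'
    obtain ⟨ε, hε, e⟩ := eq_unit_mul_of_dvd h4 h5 fun h => hT t' h0 (nm_eq_zero.2 h)
    refine mem_image.2 ⟨ε, ?_, Tt.ext h1 h2 h3 e.symm⟩
    simpa using unit_cases hε
  exact (card_le_card h).trans (card_image_le.trans card_le_four)

lemma W_le {v W1 : ℕ} (h : WOK v W1) : 1 ≤ W1 ∧ W1 ≤ (v ^ 4).factorial := by
  refine ⟨Nat.pos_of_ne_zero h.1.ne_zero, Nat.le_of_dvd (Nat.factorial_pos _) ?_⟩
  rw [← Nat.prod_primeFactors_of_squarefree h.1]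
  refine Finset.prod_primes_dvd _ (fun l hl => (Nat.prime_of_mem_primeFactors hl).prime)
    fun l hl => ?_
  have hp := Nat.prime_of_mem_primeFactors hl
  have := h.2 l hp (Nat.dvd_of_mem_primeFactors hl)
  unfold ww at this
  exact hp.dvd_factorial.2 (by exact_mod_cast this)

lemma Maj_nonneg {v : ℕ} {z : ℝ} {x : Wt} {W1 : ℕ} {C1 : ℝ} (hC : 1 ≤ C1) :
    0 ≤ Maj v z x W1 C1 := by
  unfold Maj GQ
  positivity

lemma small {v : ℕ} (hv : 1 ≤ v) : ∃ z0 : ℝ, ∀ (z : ℝ) (x : Wt) (W1 : ℕ) (C1 : ℝ), z0 ≤ z → x.OK →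
    WOK v W1 → 1 ≤ C1 → Real.exp (48 * Lam (ww v) z) * (1 / z) ≤ 1 / v * Maj v z x W1 C1 ^ 2 := by
  obtain ⟨z0, h⟩ := exp_Lam_le 100
  refine ⟨max z0 ((v * ((v ^ 4).factorial : ℝ) ^ 6) ^ 2), fun z x W1 C1 hz hx hW hC => ?_⟩
  have h1 := h (ww v) z ((le_max_left _ _).trans hz)
  have h2 := (le_max_right _ _).trans hz
  obtain ⟨h3, h4⟩ := W_le hW
  have h3' : (1 : ℝ) ≤ W1 := by exact_mod_cast h3
  have h4' : (W1 : ℝ) ≤ (v ^ 4).factorial := by exact_mod_cast h4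
  have hv' : (1 : ℝ) ≤ v := by exact_mod_cast hv
  have hL := Lam_nonneg (ww v) z
  have h5 : Real.exp (-Lam (ww v) z) / (W1 : ℝ) ^ 3 ≤ Maj v z x W1 C1 := by
    unfold Maj GQ
    refine div_le_div_of_nonneg_right ?_ (by positivity)
    refine (Real.exp_le_exp.2 ?_).trans (le_mul_of_one_le_left (Real.exp_pos _).le hC)
    nlinarith [hx.hQ.1]
  have h6 := pow_le_pow_left₀ (by positivity) h5 2
  refine le_trans ?_ (mul_le_mul_of_nonneg_left h6 (by positivity))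
  have e1 : Real.exp (((100 : ℕ) : ℝ) * Lam (ww v) z) = Real.exp (50 * Lam (ww v) z) ^ 2 := by
    rw [← Real.exp_nat_mul]; congr 1; push_cast; ring
  have e2 : Real.exp (48 * Lam (ww v) z) =
      Real.exp (50 * Lam (ww v) z) * Real.exp (-Lam (ww v) z) ^ 2 := by
    rw [← Real.exp_nat_mul, ← Real.exp_add]; congr 1; push_cast; ring
  rw [e1] at h1
  have h7 : (v * (W1 : ℝ) ^ 6) ^ 2 ≤ z := le_trans (by gcongr) h2
  have hz0 : 0 < z := lt_of_lt_of_le (by positivity) h7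
  have h8 : Real.exp (50 * Lam (ww v) z) * (v * (W1 : ℝ) ^ 6) ≤ z := by
    nlinarith [sq_nonneg (Real.exp (50 * Lam (ww v) z) - v * (W1 : ℝ) ^ 6)]
  rw [e2, div_pow, ← pow_mul, mul_one_div, div_mul_div_comm, one_mul,
    div_le_div_iff₀ hz0 (by positivity)]
  have := mul_le_mul_of_nonneg_left h8 (sq_nonneg (Real.exp (-Lam (ww v) z)))
  norm_num
  linarith

lemma err {f : ℕ} {z X : ℝ} (hz : 1 ≤ z) (hX : z ^ (4000 * f) ≤ X) :
    z ^ (3 * f) * z ^ (3 * f) * X ^ (0.93 : ℝ) ≤ X ^ (0.95 : ℝ) := by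
  have h1 : 1 ≤ X := (one_le_pow₀ hz).trans hX
  have h2 : z ^ (3 * f) * z ^ (3 * f) ≤ X ^ (0.02 : ℝ) := by
    have h3 := Real.rpow_le_rpow (by positivity) hX (show (0 : ℝ) ≤ 0.02 by norm_num)
    refine le_trans ?_ h3
    rw [← pow_add, ← Real.rpow_natCast, ← Real.rpow_natCast, ← Real.rpow_mul (by linarith)]
    refine Real.rpow_le_rpow_of_exponent_le hz ?_
    push_cast
    have : (0 : ℝ) ≤ f := by positivity
    linarith
  rw [show (0.95 : ℝ) = 0.02 + 0.93 by norm_num, Real.rpow_add (by linarith)]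
  exact mul_le_mul_of_nonneg_right h2 (by positivity)

/-- splitting of the square into the diagonal and the rest -/
lemma split {A : Finset (GI × GI)} {T : Finset Tt} {wmax : ℝ} {w φ : Tt → GI × GI → ℝ}
    (hT : ∀ t ∈ T, t.q ≠ 0) (h0 : 0 ≤ wmax)
    (hw : ∀ t ∈ T, ∀ γ ∈ A, 0 ≤ w t γ ∧ w t γ ≤ φ t γ ∧ w t γ ≤ wmax) :
    ∑ γ ∈ A, (∑ t ∈ T, w t γ) ^ 2 ≤ 4 * wmax * ∑ γ ∈ A, ∑ t ∈ T, w t γ +
      ∑ t ∈ T, ∑ t' ∈ T.filter (fun t' => ¬ Diag t t'), ∑ γ ∈ A, φ t γ * φ t' γ := by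
  have e : ∑ t ∈ T, ∑ t' ∈ T.filter (fun t' => ¬ Diag t t'), ∑ γ ∈ A, φ t γ * φ t' γ =
      ∑ γ ∈ A, ∑ t ∈ T, ∑ t' ∈ T.filter (fun t' => ¬ Diag t t'), φ t γ * φ t' γ := by
    rw [sum_comm (s := A)]
    exact sum_congr rfl fun t _ => sum_comm
  rw [e, mul_sum, ← sum_add_distrib]
  refine sum_le_sum fun γ hγ => ?_
  rw [sq, sum_mul_sum, mul_sum, ← sum_add_distrib]
  refine sum_le_sum fun t ht => ?_
  rw [← sum_filter_add_sum_filter_not T fun t' => Diag t t']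
  have h1 := hw t ht γ hγ
  refine add_le_add ?_ (sum_le_sum fun t' ht' => ?_)
  · have h2 := sum_le_card_nsmul (T.filter fun t' => Diag t t') (fun t' => w t γ * w t' γ)
      (w t γ * wmax) fun t' ht' =>
        mul_le_mul_of_nonneg_left (hw t' (mem_filter.1 ht').1 γ hγ).2.2 h1.1
    have h3 : ((T.filter fun t' => Diag t t').card : ℝ) ≤ 4 := by exact_mod_cast card_diag hT t
    rw [nsmul_eq_mul] at h2
    have := mul_le_mul_of_nonneg_right h3 (mul_nonneg h1.1 h0)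
    linarith
  · have h2 := hw t' (mem_filter.1 ht').1 γ hγ
    exact mul_le_mul h1.2.1 h2.2.1 h2.1 (h1.1.trans h1.2.1)

/-- the sum of the main terms off the diagonal -/
lemma off {v : ℕ} {z : ℝ} {x : Wt} (hx : x.OK) (S : Finset GI) (ρ : GI) (T : Finset Tt)
    {B1 B2 B3 : ℝ}
    (h1 : ∀ D : Tt → Tt → ℤ, (D = D33 ∨ D = D34 ρ ∨ D = (fun t t' => D34 ρ t' t) ∨ D = D44 ρ) →
      ∑ t ∈ T, ∑ t' ∈ T, mt v z x S t * mt v z x S t' *
          (Real.exp (144 * sst v z (exn S t t') (D t t')) - 1) ≤ B1)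
    (h2 : ∑ t ∈ T, ∑ t' ∈ T, mt v z x S t * mt v z x S t' *
        ind (D33 t t' ≠ 0 ∧ 1 < g0 t t' ∧ (g0 t t' : ℤ) ∣ D33 t t') *
          (psi (g0 t t') * Real.sqrt (psi (g0 t t'))) ≤ B2)
    (h3 : ∑ t ∈ T, ∑ t' ∈ T, mt v z x S t * mt v z x S t' *
        ind (¬ Diag t t' ∧ D33 t t' = 0 ∧ g0 t t' = Nat.gcd t.q t'.q) * psi (g0 t t') ≤ B3) :
    ∑ t ∈ T, ∑ t' ∈ T.filter (fun t' => ¬ Diag t t'),
        mt v z x S t * mt v z x S t' * Exc v z S ρ t t' ≤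
      (∑ t ∈ T, mt v z x S t) ^ 2 + B1 + B2 + Real.exp (48 * Lam (ww v) z) * B3 := by
  have a1 := h1 _ (Or.inl rfl)
  have a2 := h1 _ (Or.inr (Or.inl rfl))
  have a3 := h1 _ (Or.inr (Or.inr (Or.inl rfl)))
  have a4 := h1 _ (Or.inr (Or.inr (Or.inr rfl)))
  have a5 := mul_le_mul_of_nonneg_left h3 (Real.exp_pos (48 * Lam (ww v) z)).le
  have a6 := (div_le_div_of_nonneg_right (add_le_add (add_le_add (add_le_add a1 a2) a3) a4)
    (show (0 : ℝ) ≤ 4 by norm_num)).trans (show _ ≤ B1 by linarith)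
  refine le_trans ?_ (add_le_add (add_le_add (add_le_add le_rfl a6) h2) a5)
  rw [sq, sum_mul_sum]
  simp only [mul_sum, sum_div, ← sum_add_distrib]
  refine sum_le_sum fun t _ => ?_
  have hm := fun t' => mul_nonneg (mt_nonneg (v := v) (z := z) hx S t) (mt_nonneg (v := v) (z := z) hx S t')
  refine (sum_le_sum fun t' ht' => mul_le_mul_of_nonneg_left
    (exc_le v z S ρ (mem_filter.1 ht').2) (hm t')).trans
    ((sum_le_sum_of_subset_of_nonneg (filter_subset _ _) fun t' _ _ => ?_).trans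
      (le_of_eq (sum_congr rfl fun t' _ => by ring)))
  have b : ∀ D : ℤ, 0 ≤ Real.exp (144 * sst v z (exn S t t') D) - 1 := fun D =>
    sub_nonneg.2 (Real.one_le_exp (by linarith [sst_nonneg v z (exn S t t') D]))
  have hp := psi_nonneg (g0 t t')
  refine mul_nonneg (hm t') (add_nonneg (add_nonneg (add_nonneg zero_le_one (div_nonneg
    (add_nonneg (add_nonneg (add_nonneg (b _) (b _)) (b _)) (b _)) (by norm_num)))
    (mul_nonneg (ind_nonneg _) (mul_nonneg hp (Real.sqrt_nonneg _))))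
    (mul_nonneg (Real.exp_pos _).le (mul_nonneg (ind_nonneg _) hp)))

end SM

theorem SM (h1 : U2Stmt) (h2 : AV1Stmt) (h3 : AV2Stmt) : SMStmt := by
  obtain ⟨KU, hU⟩ := h1
  obtain ⟨K1, hA⟩ := h2
  obtain ⟨K2, u2, hB⟩ := h3
  have a0 := abs_nonneg KU
  have a1 := abs_nonneg K1
  have a2 := abs_nonneg K2
  have b0 := le_abs_self KU
  have b1 := le_abs_self K1
  have b2 := le_abs_self K2
  obtain ⟨K, hK⟩ : ∃ K, K = 3 * (|KU| + |K1| + |K2| + 1) := ⟨_, rfl⟩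
  refine ⟨K, fun δ hδ => ?_⟩
  have hδ0 : 0 < min δ 1 := lt_min hδ one_pos
  have hδ1 := min_le_left δ 1
  have hδ2 := min_le_right δ 1
  generalize min δ 1 = δ' at hδ0 hδ1 hδ2
  obtain ⟨uU, hU⟩ := hU δ' hδ0
  obtain ⟨u1, hA⟩ := hA δ' hδ0
  refine ⟨max uU (max u1 u2), fun v a e f C1 hv he hC => ?_⟩
  have hv1 : (3 : ℝ) ≤ v := by linarith
  have hv0 : (0 : ℝ) < v := by linarith
  obtain ⟨zU, hU⟩ := hU v a e f (by linarith) ⟨he.1, by have := he.2.1; omega, he.2.2⟩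
  obtain ⟨z1, hA⟩ := hA v a e f C1 (by linarith) ⟨he.1, by have := he.2.1; omega, he.2.2⟩ hC
  obtain ⟨z2, hB⟩ := hB v a e f C1 (by linarith) ⟨he.1, by have := he.2.1; omega, he.2.2⟩ hC
  obtain ⟨z3, hs⟩ := SM.small (v := v) (by exact_mod_cast (by linarith : (1 : ℝ) ≤ v))
  refine ⟨max (max zU z1) (max (max z2 z3) 40), ?_⟩
  intro z X Y0 x W1 S ρ C D T wmax w hz hX hY hx hW hL hBox hT hw0 hw
  simp only [max_le_iff] at hz
  obtain ⟨⟨hzU, hz1⟩, ⟨hz2, hz3⟩, hz4⟩ := hz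
  obtain ⟨-, hU⟩ := hU z X S ρ C D hzU hX hL hBox
  obtain ⟨hA1, hA2⟩ := hA z Y0 x W1 S ρ T hz1 hY hx hW hL hT
  obtain ⟨hB1, hB2⟩ := hB z Y0 x W1 S ρ T hz2 hY hx hW hL hT
  have hs := hs z x W1 C1 hz3 hx hW hC
  have hM := SM.Maj_nonneg (v := v) (z := z) (x := x) (W1 := W1) hC
  refine ⟨hA1.trans (mul_le_mul_of_nonneg_right (by linarith) hM), ?_⟩
  have hoff := SM.off hx S ρ T hA2 hB1 hB2
  have hsp := SM.split (fun t ht => (hT t ht).sfq.ne_zero) hw0 hw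
  have hN : 0 ≤ Nlab v z S ρ C D :=
    div_nonneg (mul_nonneg (by positivity) (Real.exp_pos _).le) (SM.psi_nonneg _)
  have hsS : 0 ≤ sS S := sum_nonneg fun _ _ => by positivity
  obtain ⟨E, hE⟩ : ∃ E, E = Real.exp (K * sS S) * Nlab v z S ρ C D * G34 v z x ^ 2 := ⟨_, rfl⟩
  have hE0 : 0 ≤ E := by rw [hE]; positivity
  obtain ⟨c, hc⟩ : ∃ c, c = 1 + δ' + |KU| / v := ⟨_, rfl⟩
  have hc0 : 0 ≤ c := by rw [hc]; positivity
  have hc1 : c ≤ 3 := by
    have : |KU| / v ≤ 1 := (div_le_one hv0).2 (by linarith)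
    linarith
  have hc2 : c ≤ 1 + δ + K / v := by
    have : |KU| / v ≤ K / v := div_le_div_of_nonneg_right (by linarith) hv0.le
    linarith
  have hX0 : 0 ≤ X ^ (0.93 : ℝ) := Real.rpow_nonneg (le_trans (by positivity) hX) _
  have hpair : ∀ t ∈ T, ∀ t' ∈ T,
      ∑ γ ∈ Aset v z S ρ C D, phi v z x S ρ t γ * phi v z x S ρ t' γ ≤
        E * c * (mt v z x S t * mt v z x S t' * Exc v z S ρ t t') + X ^ (0.93 : ℝ) := by
    intro t ht t' ht'
    refine (hU x W1 Y0 C1 t t' hx (hT t ht) (hT t' ht')).trans (add_le_add ?_ le_rfl)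
    refine mul_le_mul_of_nonneg_right ?_ (mul_nonneg (mul_nonneg (SM.mt_nonneg hx S t)
      (SM.mt_nonneg hx S t')) (SM.Exc_nonneg v z S ρ t t'))
    have h4 : (1 + δ' + KU / v) * Real.exp (KU * sS S) ≤ c * Real.exp (K * sS S) := by
      refine mul_le_mul ?_ (Real.exp_le_exp.2 (mul_le_mul_of_nonneg_right (by linarith) hsS))
        (Real.exp_pos _).le hc0
      have : KU / v ≤ |KU| / v := div_le_div_of_nonneg_right b0 hv0.le
      linarith
    have := mul_le_mul_of_nonneg_right h4 (mul_nonneg hN (sq_nonneg (G34 v z x)))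
    rw [hE]
    linarith
  have hcard : (T.card : ℝ) ≤ z ^ (3 * f) :=
    le_trans (by exact_mod_cast card_le_card fun t ht => mem_Tall (hT t ht)) (card_Tall hz4 he hL)
  have hsum : ∑ t ∈ T, ∑ t' ∈ T.filter (fun t' => ¬ Diag t t'),
      ∑ γ ∈ Aset v z S ρ C D, phi v z x S ρ t γ * phi v z x S ρ t' γ ≤
      E * c * ∑ t ∈ T, ∑ t' ∈ T.filter (fun t' => ¬ Diag t t'),
        mt v z x S t * mt v z x S t' * Exc v z S ρ t t' + X ^ (0.95 : ℝ) := by
    refine (sum_le_sum fun t ht => sum_le_sum fun t' ht' =>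
      hpair t ht t' (mem_filter.1 ht').1).trans ?_
    simp only [sum_add_distrib, ← mul_sum]
    refine add_le_add le_rfl (le_trans ?_ (SM.err (by linarith) hX))
    refine (sum_le_card_nsmul _ _ (z ^ (3 * f) * X ^ (0.93 : ℝ)) fun t _ => ?_).trans ?_
    · rw [sum_const, nsmul_eq_mul]
      refine mul_le_mul_of_nonneg_right (le_trans ?_ hcard) hX0
      exact_mod_cast card_filter_le _ _
    · rw [nsmul_eq_mul, mul_assoc]
      exact mul_le_mul_of_nonneg_right hcard (by positivity)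
  rw [← hE]
  have hfin : c * ((∑ t ∈ T, mt v z x S t) ^ 2 + (δ' + K1 / v) * K1 * Maj v z x W1 C1 ^ 2 +
      K2 / v * Maj v z x W1 C1 ^ 2 + Real.exp (48 * Lam (ww v) z) * (1 / z)) ≤
      (1 + δ + K / v) * (∑ t ∈ T, mt v z x S t) ^ 2 + (δ + K / v) * K * Maj v z x W1 C1 ^ 2 := by
    have h4 := mul_le_mul_of_nonneg_right hc2 (sq_nonneg (∑ t ∈ T, mt v z x S t))
    have h5 : (δ' + K1 / v) * K1 + K2 / v + 1 / v ≤ δ * |K1| + (|K1| ^ 2 + |K2| + 1) / v := by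
      have e : (δ' + K1 / v) * K1 + K2 / v + 1 / v = δ' * K1 + (|K1| ^ 2 + K2 + 1) / v := by
        rw [sq_abs]; ring
      have := div_le_div_of_nonneg_right (show |K1| ^ 2 + K2 + 1 ≤ |K1| ^ 2 + |K2| + 1 by linarith)
        hv0.le
      have := mul_le_mul_of_nonneg_left b1 hδ0.le
      have := mul_le_mul_of_nonneg_right hδ1 a1
      linarith
    have h6 : 3 * (δ * |K1| + (|K1| ^ 2 + |K2| + 1) / v) ≤ (δ + K / v) * K := by
      have h7 : 3 * (|K1| ^ 2 + |K2| + 1) ≤ K * K := by rw [hK]; nlinarith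
      have h8 := div_le_div_of_nonneg_right h7 hv0.le
      have h9 := mul_le_mul_of_nonneg_left (show 3 * |K1| ≤ K by linarith) hδ.le
      have e1 : (δ + K / v) * K = δ * K + K * K / v := by ring
      have e2 : 3 * (|K1| ^ 2 + |K2| + 1) / v = 3 * ((|K1| ^ 2 + |K2| + 1) / v) := by ring
      linarith
    have h10 : 0 ≤ δ * |K1| + (|K1| ^ 2 + |K2| + 1) / v := by positivity
    have h11 := mul_le_mul_of_nonneg_right h5 (sq_nonneg (Maj v z x W1 C1))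
    have h12 : (δ' + K1 / v) * K1 * Maj v z x W1 C1 ^ 2 + K2 / v * Maj v z x W1 C1 ^ 2 +
        Real.exp (48 * Lam (ww v) z) * (1 / z) ≤
        (δ * |K1| + (|K1| ^ 2 + |K2| + 1) / v) * Maj v z x W1 C1 ^ 2 := by linarith
    have h13 := mul_le_mul_of_nonneg_left h12 hc0
    have h14 := mul_le_mul_of_nonneg_right hc1 (mul_nonneg h10 (sq_nonneg (Maj v z x W1 C1)))
    have h15 := mul_le_mul_of_nonneg_right h6 (sq_nonneg (Maj v z x W1 C1))
    linarith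
  have h16 := mul_le_mul_of_nonneg_left ((mul_le_mul_of_nonneg_left hoff hc0).trans hfin) hE0
  linarith

end Pool.Agent.Lib.LQ
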