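import Pool.Agent.Lib.LQ.TEAux1

/-! Block TE: almost all balanced edges are typical. -/

set_option autoImplicit false

open Finset
open scoped Classical

noncomputable section

namespace Pool.Agent.Lib.LQ

open Pool.Agent.Lib.MP_de94cf_nt (gg det inn)

namespace TE

/-- the conclusion of `sieveU` -/
def SV (u : ℕ) : Prop := ∀ y z M lam : ℝ, 4 ≤ y → 2 ≤ z → 1 ≤ M → 0 ≤ lam → lam ≤ 1 →
  ∑ α ∈ disc M, lam ^ oc y z α ≤
    18 * M * Real.exp (-(1 - lam) * Lam y z) + 16 * z ^ (5 * u + 1) * Real.sqrt M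

lemma card_lg {w z M a : ℝ} (hM : 0 ≤ M) (hz : 2 ≤ z) (ha : 0 < a) :
    ((((disc M).erase 0).filter fun α =>
      a * Real.log z < ∑ π ∈ sm w z α, Real.log (nm π)).card : ℝ) ≤ 48 * M / a := by
  have hl : 0 < Real.log z := Real.log_pos (by linarith)
  refine (markov hM (by positivity) _ fun π => Real.log_natCast_nonneg _).trans ?_
  have h1 : 2 ≤ ⌊z⌋₊ := Nat.le_floor (by simpa using hz)
  have h2 := TorsRank.mertens3 h1 (S := PP w z) fun l hl =>
    ⟨(mem_PP.1 hl).1, Nat.le_floor (mem_PP.1 hl).2.2.2⟩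
  have h3 : Real.log ⌊z⌋₊ ≤ Real.log z :=
    Real.log_le_log (by exact_mod_cast (by omega : 0 < ⌊z⌋₊)) (Nat.floor_le (by linarith))
  rw [sum_GF w z fun l => Real.log l / l, div_le_div_iff₀ (by positivity) ha]
  have := mul_le_mul_of_nonneg_left (h2.trans (mul_le_mul_of_nonneg_left h3 (by norm_num)))
    (show 0 ≤ 16 * M * a by positivity)
  linarith

lemma card_sr {v : ℕ} {z M : ℝ} (hM : 0 ≤ M) (hv : 1 ≤ v) :
    ((((disc M).erase 0).filter fun α =>
      1 / (4 * (v : ℝ)) < ∑ π ∈ sm (ww v) z α, 1 / Real.sqrt (nm π)).card : ℝ) ≤ 256 * M / v := by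
  have h0 : (1 : ℝ) ≤ v := by exact_mod_cast hv
  refine (markov hM (by positivity) _ fun π => by positivity).trans ?_
  have h2 := sum_inv_sqrt_tail (w := ww v) (one_le_pow₀ h0) (S := PP (ww v) z)
    fun l hl => (mem_PP.1 hl).2.2.1
  rw [show Real.sqrt (ww v) = (v : ℝ) ^ 2 by
    rw [ww, show (v : ℝ) ^ 4 = ((v : ℝ) ^ 2) ^ 2 by ring, Real.sqrt_sq (by positivity)]] at h2
  rw [sum_GF (ww v) z fun l => 1 / Real.sqrt l / l]
  simp only [div_div, mul_comm (Real.sqrt _)]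
  refine (div_le_div_of_nonneg_right (mul_le_mul_of_nonneg_left (mul_le_mul_of_nonneg_left h2
    zero_le_two) (by positivity)) (by positivity)).trans (le_of_eq ?_)
  field_simp
  ring

lemma card_ex {C : ℝ} (hC : ∀ y z : ℝ, 2 ≤ y → y ≤ z →
    |Lam y z - Real.log (Real.log z / Real.log y)| ≤ C) {u : ℕ} (hu : SV u) {y M : ℝ} {b : ℕ}
    (hy : 4 ≤ y) (hb : 1 ≤ b) (hM : 1 ≤ M) :
    ((((disc M).erase 0).filter fun α => ¬ ∃ r ∈ GF y (y ^ b), r ∣ α).card : ℝ) ≤
      18 * Real.exp C * M / b + 16 * (y ^ b) ^ (5 * u + 1) * Real.sqrt M := by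
  have h1 : y ≤ y ^ b := le_self_pow₀ (by linarith) (by omega)
  have h2 := hu y (y ^ b) M 0 hy (by linarith) hM le_rfl zero_le_one
  have h3 := (abs_le.1 (hC y _ (by linarith) h1)).1
  have hb' : (0 : ℝ) < b := by exact_mod_cast hb
  rw [Real.log_pow, mul_div_assoc, div_self (Real.log_pos (by linarith)).ne', mul_one] at h3
  have h4 : Real.exp (-(1 - 0) * Lam y (y ^ b)) ≤ Real.exp C / b := by
    rw [← Real.exp_log hb', ← Real.exp_sub]
    exact Real.exp_le_exp.2 (by linarith)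
  have h5 := mul_le_mul_of_nonneg_left h4 (show 0 ≤ 18 * M by positivity)
  rw [show 18 * Real.exp C * M / b = 18 * M * (Real.exp C / b) by ring]
  refine le_trans ?_ (h2.trans (by linarith))
  rw [card_eq_sum_ones, Nat.cast_sum]
  refine (sum_le_sum fun α hα => ?_).trans (sum_le_sum_of_subset_of_nonneg
    ((filter_subset _ _).trans (erase_subset _ _)) fun _ _ _ => by positivity)
  have : sm y (y ^ b) α = ∅ := filter_eq_empty_iff.2 fun r hr k => (mem_filter.1 hα).2 ⟨r, hr, k⟩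
  rw [oc, filter_eq_empty_iff.2 (sm_eq_empty_iff.1 this)]
  simp

lemma card_mu1 {u : ℕ} (hu : SV u) {y z M C : ℝ} (hy : 4 ≤ y) (hz : 2 ≤ z) (hM : 1 ≤ M)
    (hC : 0 < C) (hL : Real.exp (Lam y z) ≤ z) :
    ((((disc M).erase 0).filter fun α => (oc y z α : ℝ) < 0.95 * Lam y z - C).card : ℝ) ≤
      720 * M / C * Real.exp (-(1 / 2000) * Lam y z) + 16 * z ^ (5 * u + 2) * Real.sqrt M := by
  have hΔ := Lam_nonneg y z
  have h1 : Real.exp (-(1 / 40)) ≤ 1 - 1 / 41 := by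
    rw [Real.exp_neg, inv_le_comm₀ (by positivity) (by norm_num)]
    linarith [Real.add_one_le_exp (1 / 40 : ℝ)]
  have h2 := hu y z M (Real.exp (-(1 / 40))) hy hz hM (by positivity) (by linarith)
  set t := Real.exp ((0.95 * Lam y z - C) / 40) with ht
  have h3 := mul_le_mul_of_nonneg_left h2 (show 0 ≤ t by positivity)
  have h4 : t * Real.exp (-(1 - Real.exp (-(1 / 40))) * Lam y z) ≤
      40 / C * Real.exp (-(1 / 2000) * Lam y z) := by
    have a1 : Real.exp (-(C / 40)) ≤ 40 / C := by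
      rw [Real.exp_neg, inv_le_comm₀ (by positivity) (by positivity), inv_div]
      linarith [Real.add_one_le_exp (C / 40)]
    refine le_trans ?_ (mul_le_mul_of_nonneg_right a1 (by positivity))
    rw [ht, ← Real.exp_add, ← Real.exp_add]
    exact Real.exp_le_exp.2 (by nlinarith)
  have h5 : t ≤ z := (Real.exp_le_exp.2 (by linarith)).trans hL
  have h6 := mul_le_mul_of_nonneg_left h4 (show 0 ≤ 18 * M by positivity)
  have h7 := mul_le_mul_of_nonneg_left h5
    (show 0 ≤ 16 * z ^ (5 * u + 1) * Real.sqrt M by positivity)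
  refine le_trans ?_ (h3.trans (le_of_le_of_eq (b := 18 * M * (40 / C *
    Real.exp (-(1 / 2000) * Lam y z)) + 16 * z ^ (5 * u + 1) * Real.sqrt M * z) (by linarith)
    (by ring)))
  rw [card_eq_sum_ones, Nat.cast_sum, mul_sum]
  refine (sum_le_sum fun α hα => ?_).trans (sum_le_sum_of_subset_of_nonneg
    ((filter_subset _ _).trans (erase_subset _ _)) fun _ _ _ => by positivity)
  rw [ht, ← Real.exp_nat_mul, ← Real.exp_add, Nat.cast_one]
  exact Real.one_le_exp (by linarith [(mem_filter.1 hα).2])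

lemma card_mu (h0 : MertensStmt) : ∃ K z0 : ℝ, 0 < K ∧ ∀ u : ℕ, SV u → ∀ w z M C : ℝ, 4 ≤ w →
    z0 ≤ z → 2 ≤ z → 1 ≤ M → 0 < C → ((((disc M).erase 0).filter fun α => ∃ i : ℕ,
      (oc (w ^ 2 ^ i) z α : ℝ) < 0.95 * Lam (w ^ 2 ^ i) z - C).card : ℝ) ≤
      K * M / C + 32 * z ^ (5 * u + 3) * Real.sqrt M := by
  obtain ⟨C1, hC1⟩ := h0
  obtain ⟨z0, hz0⟩ := exp_Lam_le 1
  set ρ := Real.exp (1 / 2000 * Real.log 2) with hρ
  have hρ1 : 1 < ρ := Real.one_lt_exp_iff.2 (by have := Real.log_pos one_lt_two; positivity)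
  have hκ : 0 < ρ / (ρ - 1) := div_pos (by linarith) (by linarith)
  refine ⟨720 * (Real.exp (1 / 2000 * C1) * (ρ / (ρ - 1))), z0, by positivity,
    fun u hu w z M C hw hz hz2 hM hC => ?_⟩
  have hy : ∀ i : ℕ, w ≤ w ^ 2 ^ i := fun i => le_self_pow₀ (by linarith) (by positivity)
  let I := (range (⌊z⌋₊ + 1)).filter fun i => w ^ 2 ^ i ≤ z
  have hsub : (((disc M).erase 0).filter fun α => ∃ i : ℕ,
      (oc (w ^ 2 ^ i) z α : ℝ) < 0.95 * Lam (w ^ 2 ^ i) z - C) ⊆ I.biUnion fun i =>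
      ((disc M).erase 0).filter fun α =>
        (oc (w ^ 2 ^ i) z α : ℝ) < 0.95 * Lam (w ^ 2 ^ i) z - C := fun α hα => by
    obtain ⟨k, i, hi⟩ := mem_filter.1 hα
    have a1 : w ^ 2 ^ i ≤ z := by
      by_contra a
      have : PP (w ^ 2 ^ i) z = ∅ := eq_empty_of_forall_notMem fun l hl => a
        ((mem_PP.1 hl).2.2.1.le.trans (mem_PP.1 hl).2.2.2)
      rw [Lam, this, sum_empty] at hi
      linarith [Nat.cast_nonneg (α := ℝ) (oc (w ^ 2 ^ i) z α)]
    refine mem_biUnion.2 ⟨i, mem_filter.2 ⟨mem_range.2 (Nat.lt_succ_of_le (Nat.le_floor ?_)), a1⟩,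
      mem_filter.2 ⟨k, hi⟩⟩
    have a2 : i ≤ 2 ^ 2 ^ i := (Nat.lt_two_pow_self.trans Nat.lt_two_pow_self).le
    exact le_trans (by exact_mod_cast a2)
      ((pow_le_pow_left₀ zero_le_two (by linarith : (2 : ℝ) ≤ w) _).trans a1)
  refine (Nat.cast_le.2 ((card_le_card hsub).trans card_biUnion_le)).trans ?_
  rw [Nat.cast_sum]
  refine (sum_le_sum fun i _ => card_mu1 hu (hw.trans (hy i)) hz2 hM hC
    (by simpa using hz0 _ z hz)).trans ?_
  rw [sum_add_distrib, ← mul_sum, sum_const, nsmul_eq_mul]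
  have lw : 0 < Real.log w := Real.log_pos (by linarith)
  have lz : 0 < Real.log z := Real.log_pos (by linarith)
  have e : ∀ i : ℕ, Real.log (Real.log z / Real.log (w ^ 2 ^ i)) =
      Real.log (Real.log z / Real.log w) - i * Real.log 2 := fun i => by
    rw [Real.log_pow, mul_comm, ← div_div, Real.log_div (by positivity) (by positivity),
      Nat.cast_pow, Real.log_pow]
    rfl
  have e' : ∀ i : ℕ, Real.exp (1 / 2000 * (C1 - Real.log (Real.log z / Real.log w))) * ρ ^ i =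
      Real.exp (1 / 2000 * (C1 - Real.log (Real.log z / Real.log (w ^ 2 ^ i)))) := fun i => by
    rw [hρ, ← Real.exp_nat_mul, ← Real.exp_add, e]
    congr 1
    ring
  have c1 := geo (t := Real.exp (1 / 2000 * (C1 - Real.log (Real.log z / Real.log w))))
    (B := Real.exp (1 / 2000 * C1)) hρ1 (by positivity) (by positivity) I fun i hi => by
      have a1 : 0 < Real.log (w ^ 2 ^ i) := Real.log_pos (by linarith [hy i])
      have := Real.log_nonneg ((one_le_div a1).2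
        (Real.log_le_log (by positivity) (mem_filter.1 hi).2))
      rw [e']
      exact Real.exp_le_exp.2 (by linarith)
  have c2 : ∑ i ∈ I, Real.exp (-(1 / 2000) * Lam (w ^ 2 ^ i) z) ≤ _ :=
    (sum_le_sum fun i hi => by
      have := (abs_le.1 (hC1 _ z (by linarith [hy i]) (mem_filter.1 hi).2)).1
      rw [e']
      exact Real.exp_le_exp.2 (by linarith)).trans c1
  have c3 : (I.card : ℝ) ≤ 2 * z := by
    have : I.card ≤ ⌊z⌋₊ + 1 := (card_filter_le _ _).trans (card_range _).le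
    have a2 : (⌊z⌋₊ : ℝ) ≤ z := Nat.floor_le (by linarith)
    have a3 : (I.card : ℝ) ≤ ⌊z⌋₊ + 1 := by exact_mod_cast this
    linarith
  exact add_le_add ((mul_le_mul_of_nonneg_left c2 (by positivity)).trans (le_of_eq (by ring)))
    ((mul_le_mul_of_nonneg_right c3 (by positivity)).trans (le_of_eq (by ring)))

/-- typical vertices -/
structure GoodV (v a a1 b : ℕ) (C z : ℝ) (α : GI) : Prop where
  sq : ¬ ∃ l ∈ PP (ww v) z, l ^ 2 ∣ nm α
  lg : ¬ a * Real.log z < ∑ π ∈ sm (ww v) z α, Real.log (nm π)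
  sr : ¬ 1 / (4 * (v : ℝ)) < ∑ π ∈ sm (ww v) z α, 1 / Real.sqrt (nm π)
  mu : ¬ ∃ i : ℕ, (oc (ww v ^ 2 ^ i) z α : ℝ) < 0.95 * Lam (ww v ^ 2 ^ i) z - C
  e1 : ∃ r ∈ GF (z ^ (360 * a1 * b)) ((z ^ (360 * a1 * b)) ^ b), r ∣ α
  e2 : ∃ r ∈ GF (z ^ (30 * a1)) ((z ^ (30 * a1)) ^ b), r ∣ α

lemma oc_le {w y z : ℝ} (h : w ≤ y) (α : GI) :
    oc y z α ≤ ((sm w z α).filter fun π => y < (nm π : ℝ)).card := by
  refine card_le_card_of_surjOn nm fun l hl => ?_
  obtain ⟨hl, hd⟩ := mem_filter.1 (mem_coe.1 hl)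
  obtain ⟨a1, a2, a3, a4⟩ := mem_PP.1 hl
  obtain ⟨π, hπ, rfl⟩ := exists_GH (mem_PP.2 ⟨a1, a2, h.trans_lt a3, a4⟩)
  rcases (dvd_nm_iff a1).1 hd with k | k
  · exact ⟨π, mem_coe.2 (mem_filter.2 ⟨mem_sm.2 ⟨GH_subset _ _ hπ, k⟩, a3⟩), rfl⟩
  · exact ⟨star π, mem_coe.2 (mem_filter.2 ⟨mem_sm.2 ⟨star_mem_GF (GH_subset _ _ hπ), k⟩,
      by rwa [nm_star]⟩), nm_star π⟩

lemma typ {v a a1 b : ℕ} {C z : ℝ} {e : GI × GI} (hv : 1 ≤ v) (hz : 0 < z)
    (h1 : GoodV v a a1 b C z e.1) (h2 : GoodV v a a1 b C z (star e.2))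
    (h3 : ¬ ∃ l ∈ PP (ww v) z, l ∣ nm e.1 ∧ l ∣ nm e.2) : TypE v (2 * a) a1 b (2 * C) z e := by
  have h0 : (1 : ℝ) ≤ v := by exact_mod_cast hv
  have hd : Disjoint (sm (ww v) z e.1) (sm (ww v) z (star e.2)) := disjoint_left.2 fun π k1 k2 =>
    h3 ⟨nm π, (mem_GF.1 (mem_sm.1 k1).1).1, nm_dvd (mem_sm.1 k1).2,
      nm_star e.2 ▸ nm_dvd (mem_sm.1 k2).2⟩
  refine ⟨fun l hl k => ?_, ?_, ?_, fun i => ?_, ?_, ?_⟩
  · have hp := (mem_PP.1 hl).1
    by_cases c : l ∣ nm e.1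
    · exact h1.sq ⟨l, hl, (Nat.Coprime.pow_left 2 ((hp.coprime_iff_not_dvd).2 fun c' =>
        h3 ⟨l, hl, c, c'⟩)).dvd_of_dvd_mul_right k⟩
    · exact h2.sq ⟨l, hl, (nm_star e.2).symm ▸ (Nat.Coprime.pow_left 2
        ((hp.coprime_iff_not_dvd).2 c)).dvd_of_dvd_mul_left k⟩
  · rw [← Real.log_le_log_iff (nm_pos (pr_ne_zero (sm_subset _ _ _))) (by positivity), nm_pr,
      Nat.cast_prod, Real.log_prod fun π hπ => (nm_pos (GF_ne (sm_subset _ _ _ hπ))).ne',
      Real.log_pow, sm_mul, sum_union hd]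
    push_cast
    linarith [not_lt.1 h1.lg, not_lt.1 h2.lg]
  · rw [sg, primeFactors_nm_pr (sm_subset _ _ _)]
    refine (sum_image_le_of_nonneg fun _ _ => by positivity).trans ?_
    rw [sm_mul, sum_union hd, show 1 / (2 * (v : ℝ)) = 1 / (4 * v) + 1 / (4 * v) by ring]
    exact add_le_add (not_lt.1 h1.sr) (not_lt.1 h2.sr)
  · have hy : ww v ≤ ww v ^ 2 ^ i := le_self_pow₀ (one_le_pow₀ h0) (by positivity)
    have a1 := not_lt.1 fun k => h1.mu ⟨i, k⟩
    have a2 := not_lt.1 fun k => h2.mu ⟨i, k⟩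
    have a3 := (Nat.cast_le (α := ℝ)).2 (oc_le (z := z) hy e.1)
    have a4 := (Nat.cast_le (α := ℝ)).2 (oc_le (z := z) hy (star e.2))
    rw [sm_mul, filter_union, card_union_of_disjoint (disjoint_filter_filter hd), Nat.cast_add]
    linarith
  · rw [show 360 * a1 * b ^ 2 = 360 * a1 * b * b by ring, pow_mul z (360 * a1 * b) b]
    exact h1.e1
  · rw [pow_mul z _ b]
    exact h2.e2

lemma cU {ι : Type} [DecidableEq ι] {A B : Finset ι} {x y : ℝ} (h1 : (A.card : ℝ) ≤ x) (h2 : (B.card : ℝ) ≤ y) :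
    ((A ∪ B).card : ℝ) ≤ x + y :=
  le_trans (by exact_mod_cast card_union_le A B) (add_le_add h1 h2)

end TE

open TE in
theorem TE (h0 : MertensStmt) (h1 : LFLStmt) (h2 : Loc1Stmt) (h3 : PEStmt) (h4 : LocStmt) :
    TEStmt := by
  intro R δ hR hδ
  obtain ⟨K3, z3, hK3, hmu⟩ := card_mu h0
  obtain ⟨C1, hC1⟩ := h0
  obtain ⟨u, hu⟩ := sieveU h1 h2
  obtain ⟨KJ, hKJ, hJ⟩ := joint h3 h4
  set η := δ / ((18 * (2 * R ^ 2 + 1) + 2) * R ^ 2) with hη
  have hη0 : 0 < η := by positivity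
  set a := ⌈48 / η⌉₊ + 1 with ha
  set b := ⌈18 * Real.exp C1 / η⌉₊ + 2 with hb
  refine ⟨max 2 (2304 / η), 2 * (K3 / η), 2 * a, b, 0, by omega, by omega,
    fun v a1 hv _ ha1 => ⟨max (max 4 z3) (max (32 / η) (KJ / η)),
      360 * a1 * b * b * (5 * u + 4) * 2 + 140, fun z X hz hX => ?_⟩⟩
  simp only [max_le_iff] at hz hv
  obtain ⟨⟨z4, hz3⟩, z32, zJ⟩ := hz
  have z1 : 1 ≤ z := by linarith
  have a0 : 0 < a1 := by omega
  have hv1 : 1 ≤ v := by exact_mod_cast one_le_two.trans hv.1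
  have hw : (v : ℝ) ≤ ww v := le_self_pow₀ (by linarith) (by norm_num)
  have hw4 : 4 ≤ ww v := le_trans (by norm_num) (pow_le_pow_left₀ zero_le_two hv.1 4)
  have hX1 : 1 ≤ X := (one_le_pow₀ z1).trans hX
  set M := R ^ 2 * X with hM
  have hXM : X ≤ M := le_mul_of_one_le_left (by linarith) (one_le_pow₀ hR)
  have hM1 : 1 ≤ M := hX1.trans hXM
  have sm1 : ∀ c t : ℝ, 0 < t → c / η ≤ t → c * M / t ≤ η * M := fun c t ht h => by
    rw [div_le_iff₀ hη0] at h
    rw [div_le_iff₀ ht]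
    nlinarith
  have sm2 : ∀ (c : ℝ) (n : ℕ), c ≤ 32 → n ≤ 360 * a1 * b * b * (5 * u + 3) →
      c * z ^ n * Real.sqrt M ≤ η * M := fun c n hc hn => by
    have k1 : z ^ (n + 1) ≤ Real.sqrt M := by
      refine Real.le_sqrt_of_sq_le (le_trans ?_ (hX.trans hXM))
      rw [← pow_mul]
      refine pow_le_pow_right₀ z1 ?_
      have : 1 ≤ 360 * a1 * b * b := Nat.pos_of_ne_zero (by positivity)
      rw [mul_add _ _ 3] at hn
      rw [mul_add _ _ 4]
      omega
    rw [div_le_iff₀ hη0] at z32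
    have k2 : c * z ^ n ≤ η * Real.sqrt M :=
      (mul_le_mul_of_nonneg_right (hc.trans z32) (by positivity)).trans
        (le_of_eq_of_le (by ring) (mul_le_mul_of_nonneg_left k1 hη0.le))
    refine (mul_le_mul_of_nonneg_right k2 (by positivity)).trans (le_of_eq ?_)
    rw [mul_assoc, Real.mul_self_sqrt (by linarith)]
  let B := ((disc M).erase 0).filter fun α => ¬ GoodV v a a1 b (K3 / η) z α
  have hB : (B.card : ℝ) ≤ 9 * (η * M) := by
    have c1 := card_sq (z := z) (M := M) (w := ww v) (by linarith) (by linarith)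
    have c2 := card_lg (w := ww v) (M := M) (a := a) (by linarith) (z := z) (by linarith)
      (by positivity)
    have c3 := card_sr (z := z) (M := M) (by linarith) hv1
    have c4 := hmu u hu (ww v) z M (K3 / η) hw4 hz3 (by linarith) hM1 (by positivity)
    have c5 := card_ex hC1 hu (y := z ^ (360 * a1 * b)) (b := b)
      (z4.trans (le_self_pow₀ z1 (by positivity))) (by omega) hM1
    have c6 := card_ex hC1 hu (y := z ^ (30 * a1)) (b := b)
      (z4.trans (le_self_pow₀ z1 (by omega))) (by omega) hM1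
    have hvη : ∀ c : ℝ, c ≤ 2304 → c / η ≤ v := fun c hc =>
      (div_le_div_of_nonneg_right hc hη0.le).trans hv.2
    have d1 := sm1 64 (ww v) (by linarith) ((hvη _ (by norm_num)).trans hw)
    have d2 := sm1 48 a (by positivity) ((Nat.le_ceil _).trans (Nat.cast_le.2 (by omega)))
    have d3 := sm1 256 v (by linarith) (hvη _ (by norm_num))
    have d4 := sm1 K3 _ (by positivity) le_rfl
    have d5 := sm1 (18 * Real.exp C1) b (by positivity)
      ((Nat.le_ceil _).trans (Nat.cast_le.2 (by omega)))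
    have d6 := sm2 32 (5 * u + 3) le_rfl (Nat.le_mul_of_pos_left _ (by positivity))
    have d7 := sm2 16 (360 * a1 * b * b * (5 * u + 1)) (by norm_num) (by gcongr; omega)
    have d8 := sm2 16 (30 * a1 * b * (5 * u + 1)) (by norm_num) (Nat.mul_le_mul
      (le_trans (by gcongr; omega) (Nat.le_mul_of_pos_right _ (by omega))) (by omega))
    rw [pow_mul, pow_mul] at d7 d8
    refine le_trans (Nat.cast_le.2 (card_le_card fun α hα => ?_))
      ((cU (cU (cU (cU (cU c1 c2) c3) c4) c5) c6).trans (by linarith))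
    obtain ⟨k1, k2⟩ := mem_filter.1 hα
    by_contra k
    simp only [mem_union, not_or, mem_filter, k1, true_and, not_not] at k
    exact k2 ⟨k.1.1.1.1.1, k.1.1.1.1.2, k.1.1.1.2, k.1.1.2, k.1.2, k.2⟩
  have c7 := hJ (ww v) z M ((Edges X R).filter fun e => ∃ l ∈ PP (ww v) z, l ∣ nm e.1 ∧ l ∣ nm e.2)
    (by linarith) z1 ((pow_le_pow_right₀ z1 (by omega)).trans (hX.trans hXM)) fun e he => by
      obtain ⟨k1, k2⟩ := mem_filter.1 he
      obtain ⟨k3, -, k4, -, k5⟩ := mem_Edges.1 k1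
      exact ⟨k3, k4, k5, k2⟩
  have d1 := sm1 2304 (ww v) (by linarith) (hv.2.trans hw)
  have d2 := sm1 KJ z (by linarith) zJ
  have c8 := partner (X := X) (by linarith) hR B
  have c9 := partner' (X := X) (by linarith) hR B
  have d3 := mul_le_mul_of_nonneg_left hB (show 0 ≤ 2 * R ^ 2 + 1 by positivity)
  have d4 : (18 * (2 * R ^ 2 + 1) + 2) * (η * M) = δ * X := by
    rw [hη, hM]; field_simp
  refine le_trans (Nat.cast_le.2 (card_le_card fun e he => ?_))
    ((cU (cU c7 c8) c9).trans (by linarith))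
  obtain ⟨k1, k2⟩ := mem_filter.1 he
  obtain ⟨-, k3, k4, k5, k6⟩ := mem_Edges.1 k1
  have k7 : 0 < X / R ^ 2 := by positivity
  have k8 : ∀ α : GI, X / R ^ 2 ≤ nm α → (nm α : ℝ) ≤ M → α ∈ (disc M).erase 0 := fun α p q =>
    mem_erase.2 ⟨fun r => by rw [nm_eq_zero.2 r, Nat.cast_zero] at p; linarith, mem_disc.2 q⟩
  by_contra k
  simp only [mem_union, not_or, mem_filter, k1, true_and, B, k8 _ k3 k4,
    k8 (star e.2) (by rwa [nm_star]) (by rwa [nm_star]), not_not] at k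
  exact k2 (typ hv1 (by linarith) k.1.2 k.2 k.1.1)

end Pool.Agent.Lib.LQ
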