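import Pool.Agent.Lib.LQ.Basic

/-! Block TR: the transfer theorem from typical edges, multiplicities and bad objects. -/

set_option autoImplicit false

open Finset
open scoped Classical

noncomputable section

namespace Pool.Agent.Lib.LQ

open Pool.Agent.Lib.MP_de94cf_nt (gg det inn gg_edge gg_mul gg_intCast)

namespace TR

/-- the admissible subsets counted by `mult` -/
def mset (v : ℕ) (R z X : ℝ) (o : Ob) : Finset (Finset GI) :=
  (sm (ww v) z o.b1).powerset.filter fun u =>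
    X * nm (pr u) * nm o.r2 / R ^ 2 ≤ (nm o.b1 : ℝ) ∧
      (nm o.b1 : ℝ) ≤ R ^ 2 * X * nm (pr u) * nm o.r2

def un : Finset GI := {1, -1, ⟨0, 1⟩, ⟨0, -1⟩}

lemma card_un : un.card ≤ 4 := card_le_four

lemma GF_mono {w z w' z' : ℝ} (h1 : w' ≤ w) (h2 : z ≤ z') : GF w z ⊆ GF w' z' := fun π h => by
  rw [mem_GF, mem_PP] at h ⊢
  exact ⟨⟨h.1.1, h.1.2.1, h1.trans_lt h.1.2.2.1, h.1.2.2.2.trans h2⟩, h.2⟩

lemma one_le_nm {α : GI} (h : α ≠ 0) : 1 ≤ nm α :=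
  Nat.one_le_iff_ne_zero.2 fun e => h (nm_eq_zero.1 e)

lemma inn_bounds {X R : ℝ} (hR : 1 ≤ R) (hX : 2 * R ^ 2 ≤ X) {e : GI × GI} (he : e ∈ Edges X R)
    (hp : 0 ≤ inn e.1 e.2) : X / (2 * R ^ 2) ≤ (inn e.1 e.2 : ℝ) ∧ (inn e.1 e.2 : ℝ) ≤ R ^ 2 * X := by
  obtain ⟨hd, l1, u1, l2, u2⟩ := mem_Edges.1 he
  have hR2 : 0 < R ^ 2 := by positivity
  have h0 : (0 : ℝ) ≤ inn e.1 e.2 := by exact_mod_cast hp
  have h1 : (nm e.1 : ℝ) * nm e.2 = (inn e.1 e.2 : ℝ) ^ 2 + 1 := by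
    have := nm_mul_nm e.1 e.2
    rw [hd] at this
    exact_mod_cast this
  have h2 : 2 ≤ X / R ^ 2 := by rwa [le_div_iff₀ hR2]
  have hX0 : 0 ≤ X := by nlinarith
  constructor
  · have h3 : X / R ^ 2 * (X / R ^ 2) ≤ (nm e.1 : ℝ) * nm e.2 :=
      mul_le_mul l1 l2 (by linarith) (by positivity)
    have e4 : X / (2 * R ^ 2) = X / R ^ 2 / 2 := by field_simp
    rw [e4]
    exact abs_le_of_sq_le_sq' (by nlinarith) h0 |>.2
  · have h3 : (nm e.1 : ℝ) * nm e.2 ≤ R ^ 2 * X * (R ^ 2 * X) :=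
      mul_le_mul u1 u2 (by positivity) (by positivity)
    exact abs_le_of_sq_le_sq' (by nlinarith) (by positivity) |>.2

lemma exists_ob {v a0 a1 b : ℕ} {C0 R z X : ℝ} (hR : 1 ≤ R) (hX : 2 * R ^ 2 ≤ X) (hz : 1 ≤ z)
    (hw : ww v ≤ z) (ha : 1 ≤ a1) (hb : 1 ≤ b) {e : GI × GI} (he : e ∈ Edges X R)
    (hp : 0 ≤ inn e.1 e.2) (ht : TypE v a0 a1 b C0 z e) :
    ∃ (o : Ob) (u : Finset GI) (ε : GI), TypOb v a0 a1 b C0 R z X o ∧
      gg o.b1 * gg o.b2 = gg e.1 * gg e.2 ∧ u ∈ mset v R z X o ∧ ε ∈ un ∧ ε ≠ 0 ∧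
      pr u * o.r2 ≠ 0 ∧ ε * e.1 * (pr u * o.r2) = o.b1 ∧ ε * e.2 = o.b2 * star (pr u * o.r2) := by
  obtain ⟨hd, l1, u1, l2, u2⟩ := mem_Edges.1 he
  obtain ⟨i1, i2⟩ := inn_bounds hR hX he hp
  obtain ⟨r1, hr1, d1⟩ := ht.ex1
  obtain ⟨r2, hr2, d2⟩ := ht.ex2
  have hR2 : 0 < R ^ 2 := by positivity
  have hX0 : 0 < X := by linarith
  set u := sm (ww v) z (star e.2) with hu
  have hus : u ⊆ GF (ww v) z := sm_subset _ _ _
  have hz1 : z ≤ z ^ (30 * a1) := le_self_pow₀ hz (by omega)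
  have hz2 : z ≤ z ^ (30 * a1 * b) := le_self_pow₀ hz (by positivity)
  have hr2' : r2 ∉ GF (ww v) z := fun h => by
    have h1 := (mem_PP.1 (mem_GF.1 h).1).2.2.2
    have h2 := (mem_PP.1 (mem_GF.1 hr2).1).2.2.1
    linarith
  have hsr : sm (ww v) z r2 = ∅ := eq_empty_of_forall_notMem fun π h =>
    hr2' (GF_eq_of_dvd (mem_sm.1 h).1 hr2 (mem_sm.1 h).2 ▸ (mem_sm.1 h).1)
  have hD : pr u * r2 ∣ star e.2 := by
    have := pr_dvd (w := ww v) (z := z ^ (30 * a1 * b)) (S := insert r2 u) (α := star e.2)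
      (insert_subset (GF_mono (hw.trans hz1) le_rfl hr2) (hus.trans (GF_mono le_rfl hz2)))
      fun π h => by
        rcases mem_insert.1 h with rfl | h
        · exact d2
        · exact (mem_sm.1 h).2
    rwa [pr, prod_insert fun h => hr2' (hus h), mul_comm] at this
  obtain ⟨c, hc⟩ := hD
  have hc' : e.2 = star c * star (pr u * r2) := by rw [← star_mul, ← hc, star_star]
  have hu0 : pr u ≠ 0 := pr_ne_zero hus
  have hr0 : r2 ≠ 0 := (GF_prime hr2).ne_zero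
  obtain ⟨ε, hε, hs⟩ := exists_unit_sector (e.1 * (pr u * r2))
  have key : star (e.1 * (pr u * r2)) * star c = star e.1 * e.2 := by
    rw [star_mul', mul_assoc, mul_comm _ (star c), ← hc']
  rw [star_mul_eq, star_mul_eq, Zsqrtd.mk.injEq] at key
  have hdet : det (ε * (e.1 * (pr u * r2))) (ε * star c) = 1 := by rw [det_unit hε, key.2, hd]
  have hinn : inn (ε * (e.1 * (pr u * r2))) (ε * star c) = inn e.1 e.2 := by
    rw [inn_unit hε, key.1]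
  have hS : sm (ww v) z (ε * (e.1 * (pr u * r2))) = sm (ww v) z (e.1 * star e.2) := by
    rw [sm_unit _ _ hε, sm_mul, sm_mul, sm_mul, sm_pr hus, hsr, union_empty]
  have huS : u ⊆ sm (ww v) z (e.1 * star e.2) := by rw [sm_mul]; exact subset_union_right
  have hn : (nm (ε * (e.1 * (pr u * r2))) : ℝ) = nm e.1 * nm (pr u) * nm r2 := by
    rw [nm_mul, nm_eq_one.2 hε, nm_mul, nm_mul]; push_cast; ring
  have hu1 : (1 : ℝ) ≤ nm (pr u) := by exact_mod_cast one_le_nm hu0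
  have hr1' : (0 : ℝ) ≤ nm r2 := by positivity
  have hlo : X * nm (pr u) * nm r2 / R ^ 2 ≤ (nm e.1 : ℝ) * nm (pr u) * nm r2 := by
    rw [show X * nm (pr u) * nm r2 / R ^ 2 = X / R ^ 2 * nm (pr u) * nm r2 by ring]
    gcongr
  have hhi : (nm e.1 : ℝ) * nm (pr u) * nm r2 ≤ R ^ 2 * X * nm (pr u) * nm r2 := by gcongr
  refine ⟨⟨ε * (e.1 * (pr u * r2)), ε * star c, r1, r2⟩, u, ε,
    ⟨hdet, hs, hinn ▸ i1, hinn ▸ i2, ?_, ?_, hr1, hr2, ?_, hS ▸ ht.hiS, hS ▸ ht.sgS,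
      hS ▸ ht.multi, ?_, ?_⟩, ?_, ?_, ?_, hε.ne_zero, mul_ne_zero hu0 hr0, mul_assoc _ _ _, ?_⟩
  · change sm (ww v) z (ε * star c) = ∅
    rw [sm_unit _ _ hε, sm_star, image_eq_empty]
    refine eq_empty_of_forall_notMem fun π h => ?_
    obtain ⟨h1, h2⟩ := mem_sm.1 h
    have h3 : π ∈ u := mem_sm.2 ⟨h1, hc ▸ h2.mul_left _⟩
    have h4 : π * π ∣ star e.2 :=
      hc ▸ mul_dvd_mul ((dvd_prod_of_mem (fun π => π) h3).mul_right _) h2
    have h5 := nm_dvd h4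
    rw [nm_mul, nm_star, ← sq] at h5
    exact ht.sq _ (mem_GF.1 h1).1 (h5.mul_left _)
  · change Squarefree (nm (pr (sm (ww v) z (ε * (e.1 * (pr u * r2))))))
    rw [hS]
    have h1 := nm_dvd (pr_dvd (sm_subset (ww v) z (e.1 * star e.2)) fun π h => (mem_sm.1 h).2)
    rw [nm_mul, nm_star] at h1
    refine Nat.squarefree_iff_prime_squarefree.2 fun l hl h => ?_
    have h2 : l ∈ (nm (pr (sm (ww v) z (e.1 * star e.2)))).primeFactors :=
      Nat.mem_primeFactors.2 ⟨hl, (Dvd.intro _ rfl).trans h,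
        fun e' => pr_ne_zero (sm_subset _ _ _) (nm_eq_zero.1 e')⟩
    rw [primeFactors_nm_pr (sm_subset _ _ _)] at h2
    obtain ⟨π, hπ, rfl⟩ := mem_image.1 h2
    exact ht.sq _ (mem_GF.1 (mem_sm.1 hπ).1).1 (sq (nm π) ▸ h.trans h1)
  · exact (mul_dvd_mul d1 (Dvd.intro_left _ rfl)).mul_left _
  · change X * nm r2 / R ^ 2 ≤ (nm (ε * (e.1 * (pr u * r2))) : ℝ)
    rw [hn]
    refine le_trans ?_ hlo
    gcongr
    exact le_mul_of_one_le_right hX0.le hu1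
  · change (nm (ε * (e.1 * (pr u * r2))) : ℝ) ≤ R ^ 2 * X * z ^ a0 * nm r2
    rw [hn]
    refine hhi.trans ?_
    gcongr
    refine le_trans ?_ ht.hiS
    have h1 : pr u ∣ pr (sm (ww v) z (e.1 * star e.2)) := prod_dvd_prod_of_subset _ _ _ huS
    exact_mod_cast Nat.le_of_dvd (one_le_nm (pr_ne_zero (sm_subset _ _ _))) (nm_dvd h1)
  · rw [gg_edge hdet, gg_edge hd, hinn]
  · exact mem_filter.2 ⟨mem_powerset.2 (hS ▸ huS), hn ▸ hlo, hn ▸ hhi⟩
  · rcases unit_cases hε with h | h | h | h <;> simp [un, h]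
  · change ε * e.2 = ε * star c * star (pr u * r2)
    rw [mul_assoc, ← hc']

lemma count {v a0 a1 b : ℕ} {C0 R z X : ℝ} (hR : 1 ≤ R) (hX : 2 * R ^ 2 ≤ X) (hz : 1 ≤ z)
    (hw : ww v ≤ z) (ha : 1 ≤ a1) (hb : 1 ≤ b) (σ : ℤ) :
    ∃ O : Finset Ob, (∀ o ∈ O, TypOb v a0 a1 b C0 R z X o ∧ gg o.b1 * gg o.b2 ≠ σ) ∧
      (BadE σ X R).card ≤ 2 * (((Edges X R).filter fun e => ¬ TypE v a0 a1 b C0 z e).card +
        4 * ∑ o ∈ O, mult v R z X o) := by
  set T := (BadE σ X R).filter fun e => 0 ≤ inn e.1 e.2 ∧ TypE v a0 a1 b C0 z e with hT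
  have h1 : ∀ e : GI × GI, ∃ (o : Ob) (u : Finset GI) (ε : GI), e ∈ T →
      TypOb v a0 a1 b C0 R z X o ∧
      gg o.b1 * gg o.b2 = gg e.1 * gg e.2 ∧ u ∈ mset v R z X o ∧ ε ∈ un ∧ ε ≠ 0 ∧
      pr u * o.r2 ≠ 0 ∧ ε * e.1 * (pr u * o.r2) = o.b1 ∧
      ε * e.2 = o.b2 * star (pr u * o.r2) := fun e => by
    by_cases h : e ∈ T
    · obtain ⟨h1, h2, h3⟩ := mem_filter.1 h
      obtain ⟨o, u, ε, h⟩ := exists_ob hR hX hz hw ha hb (mem_filter.1 h1).1 h2 h3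
      exact ⟨o, u, ε, fun _ => h⟩
    · exact ⟨⟨0, 0, 0, 0⟩, ∅, 0, fun h' => (h h').elim⟩
  choose o u ε H using h1
  refine ⟨T.image o, fun x hx => ?_, ?_⟩
  · obtain ⟨e, he, rfl⟩ := mem_image.1 hx
    exact ⟨(H e he).1, (H e he).2.1 ▸ (mem_filter.1 (mem_filter.1 he).1).2⟩
  have h2 : T.card ≤ 4 * ∑ x ∈ T.image o, mult v R z X x := by
    have := card_le_card_of_injOn (s := T)
      (t := (T.image o).sigma fun x => mset v R z X x ×ˢ un)
      (fun e => (⟨o e, (u e, ε e)⟩ : Σ _ : Ob, Finset GI × GI))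
      (fun e he => mem_sigma.2 ⟨mem_image_of_mem _ he,
        mem_product.2 ⟨(H e he).2.2.1, (H e he).2.2.2.1⟩⟩) fun e he e' he' h => by
        simp only [Sigma.mk.injEq, heq_eq_eq, Prod.mk.injEq] at h
        obtain ⟨-, -, -, -, k1, k2, k3, k4⟩ := H e he
        obtain ⟨-, -, -, -, -, -, k5, k6⟩ := H e' he'
        rw [← h.1, ← h.2.1, ← h.2.2] at k5 k6
        exact Prod.ext (mul_left_cancel₀ k1 (mul_right_cancel₀ k2 (k3.trans k5.symm)))
          (mul_left_cancel₀ k1 (k4.trans k6.symm))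
    refine this.trans ?_
    rw [card_sigma, mul_sum]
    refine sum_le_sum fun x _ => ?_
    rw [card_product, mul_comm]
    exact Nat.mul_le_mul card_un le_rfl
  have h3 : ((BadE σ X R).filter fun e => 0 ≤ inn e.1 e.2).card ≤
      ((Edges X R).filter fun e => ¬ TypE v a0 a1 b C0 z e).card + T.card := by
    refine le_trans (card_le_card fun e he => ?_) (card_union_le _ _)
    obtain ⟨k1, k2⟩ := mem_filter.1 he
    by_cases h : TypE v a0 a1 b C0 z e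
    · exact mem_union_right _ (mem_filter.2 ⟨k1, k2, h⟩)
    · exact mem_union_left _ (mem_filter.2 ⟨(mem_filter.1 k1).1, h⟩)
  have h4 : ((BadE σ X R).filter fun e => ¬ 0 ≤ inn e.1 e.2).card ≤
      ((BadE σ X R).filter fun e => 0 ≤ inn e.1 e.2).card := by
    refine card_le_card_of_injOn (fun e => (e.2, -e.1)) (fun e he => ?_) fun e _ e' _ h => ?_
    · obtain ⟨k1, k2⟩ := mem_filter.1 he
      obtain ⟨k3, k4⟩ := mem_filter.1 k1
      obtain ⟨hd, l1, u1, l2, u2⟩ := mem_Edges.1 k3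
      have g1 : gg (-e.1) = gg e.1 := by simp [gg]
      refine mem_filter.2 ⟨mem_filter.2 ⟨mem_Edges.2 ⟨?_, l2, u2, ?_, ?_⟩, ?_⟩, ?_⟩
      · simp only [det, Zsqrtd.re_neg, Zsqrtd.im_neg] at hd ⊢
        linarith
      · rwa [nm_neg]
      · rwa [nm_neg]
      · rwa [g1, mul_comm]
      · simp only [inn, Zsqrtd.re_neg, Zsqrtd.im_neg] at k2 ⊢
        linarith
    · simp only [Prod.mk.injEq, neg_inj] at h
      exact Prod.ext h.2 h.1
  have h5 := card_filter_add_card_filter_not (s := BadE σ X R) fun e => 0 ≤ inn e.1 e.2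
  omega

lemma exists_v (K A η : ℝ) (hη : 0 < η) : ∃ v : ℕ, K ≤ v ∧ 2 ≤ v ∧ A * (Real.log v / v) ≤ η := by
  have h1 : Filter.Tendsto (fun x : ℝ => A * (Real.log x / x)) Filter.atTop (nhds (A * 0)) :=
    (Real.isLittleO_log_id_atTop.tendsto_div_nhds_zero).const_mul A
  rw [mul_zero] at h1
  have h2 := (h1.comp tendsto_natCast_atTop_atTop).eventually (ge_mem_nhds hη)
  obtain ⟨v, h3, h4, h5⟩ := (h2.and ((tendsto_natCast_atTop_atTop.eventually_ge_atTop K).and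
    (Filter.eventually_ge_atTop 2))).exists
  exact ⟨v, h4, h5, h3⟩

end TR

open TR in
theorem TR (h1 : TEStmt) (h2 : UMStmt) (h3 : NUStmt) : TRStmt := by
  intro R δ hR hδ
  obtain ⟨KT, C0, a0, b, uT, ha0, hb, hT⟩ := h1 R (δ / 4) hR (by positivity)
  obtain ⟨KM, uM, hM⟩ := h2
  obtain ⟨Cm, hM⟩ := hM R C0 b hR hb
  obtain ⟨KN, hN⟩ := h3
  obtain ⟨K1, C2, hC2, hN⟩ := hN R C0 a0 b hR ha0 hb
  set η := (δ / 16) ^ 2 / (|Cm| + 1) with hη
  have hη0 : 0 < η := by positivity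
  obtain ⟨v, hv, hv2, hv3⟩ := exists_v (max KT (max KM KN)) (|KN| * |K1|) (η / 4) (by positivity)
  have hlog : 0 < Real.log v := Real.log_pos (by exact_mod_cast hv2)
  have hv0 : (0 : ℝ) < v := by positivity
  obtain ⟨uN, hN⟩ := hN (η / (4 * (|K1| + 1) * Real.log v)) (by positivity)
  obtain ⟨a1, k1, k2, k3, k4⟩ : ∃ a1 : ℕ, uT ≤ a1 ∧ uM ≤ a1 ∧ uN ≤ a1 ∧ a0 ≤ a1 :=
    ⟨uT + uM + uN + a0, by omega, by omega, by omega, by omega⟩
  obtain ⟨zT, E0, hT⟩ := hT v a1 ((le_max_left _ _).trans hv) k1 k4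
  obtain ⟨zM, hM⟩ := hM v a0 a1 (((le_max_left _ _).trans (le_max_right _ _)).trans hv) k2 ha0 k4
  obtain ⟨E, k5, k6, k7⟩ : ∃ E : ℕ, E0 ≤ E ∧ 4000 * (396 * a1 * b ^ 2) ≤ E ∧ E ≠ 0 :=
    ⟨E0 + 4000 * (396 * a1 * b ^ 2) + 1, by omega, by omega, by omega⟩
  obtain ⟨Cn, zN, hN⟩ := hN v a1 E (((le_max_right _ _).trans (le_max_right _ _)).trans hv) k3 k4
  set t := η / (2 * (|Cn| + 1)) with ht
  have ht0 : 0 < t := by positivity
  obtain ⟨z0, m1, m2, m3, m4, m5⟩ : ∃ z0 : ℝ, zT ≤ z0 ∧ zM ≤ z0 ∧ zN ≤ z0 ∧ ww v ≤ z0 ∧ 1 ≤ z0 :=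
    ⟨max zT (max zM (max zN (max (ww v) 1))), by simp, by simp, by simp, by simp, by simp⟩
  refine ⟨C2, t ^ 4, max (z0 ^ E) (2 * R ^ 2), hC2, by positivity, fun X σ hX hσ hB => ?_⟩
  have hX1 : 2 * R ^ 2 ≤ X := (le_max_right _ _).trans hX
  have hX0 : 0 < X := lt_of_lt_of_le (by positivity) hX1
  obtain ⟨z, hz0, hz⟩ : ∃ z : ℝ, 0 ≤ z ∧ z ^ E = X :=
    ⟨X ^ (E : ℝ)⁻¹, by positivity, Real.rpow_inv_natCast_pow hX0.le k7⟩
  have hz1 : z0 ≤ z := le_of_pow_le_pow_left₀ k7 hz0 (hz ▸ (le_max_left _ _).trans hX)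
  have hz2 : 1 ≤ z := m5.trans hz1
  obtain ⟨O, hO, hc⟩ := count (v := v) (a0 := a0) (a1 := a1) (b := b) (C0 := C0) hR hX1 hz2
    (m4.trans hz1) (ha0.trans k4) (by omega) σ
  have p1 := hT z X (m1.trans hz1) (hz ▸ pow_le_pow_right₀ hz2 k5)
  have p2 := hM z X O (m2.trans hz1) (hz ▸ pow_le_pow_right₀ hz2 k6) fun o ho => (hO o ho).1
  have p3 := hN z X σ O (m3.trans hz1) (hz ▸ pow_le_pow_right₀ hz2 k6) hz.ge hσ hO
  have p4 : Real.sqrt (X * Real.sqrt (X * (BadN σ X C2).card)) ≤ t * X := by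
    have q1 : Real.sqrt (X * (BadN σ X C2).card) ≤ t ^ 2 * X :=
      Real.sqrt_le_iff.2 ⟨by positivity, by nlinarith⟩
    exact Real.sqrt_le_iff.2 ⟨by positivity, by nlinarith⟩
  have p5 : Cn * Real.sqrt (X * Real.sqrt (X * (BadN σ X C2).card)) ≤ η / 2 * X := by
    have q1 : (|Cn| + 1) * (t * X) = η / 2 * X := by rw [ht]; field_simp
    rw [← q1]
    exact mul_le_mul (by linarith [le_abs_self Cn]) p4 (Real.sqrt_nonneg _) (by positivity)
  have p6 : (η / (4 * (|K1| + 1) * Real.log v) + KN / v) * K1 * Real.log v ≤ η / 2 := by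
    have q1 : η / (4 * (|K1| + 1) * Real.log v) * K1 * Real.log v ≤ η / 4 := by
      have : η / (4 * (|K1| + 1) * Real.log v) * (|K1| + 1) * Real.log v = η / 4 := by field_simp
      rw [← this]
      gcongr
      linarith [le_abs_self K1]
    have q2 : KN / v * K1 * Real.log v ≤ |KN| * |K1| * (Real.log v / v) := by
      rw [show KN / v * K1 * Real.log v = KN * K1 * (Real.log v / v) by ring, ← abs_mul]
      gcongr
      exact le_abs_self _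
    nlinarith
  have p7 : ∑ o ∈ O, (2 : ℝ) ^ om (ww v) z o.b1 * Real.exp (-Lam (ww v) z) ≤ η * X := by
    nlinarith [mul_le_mul_of_nonneg_right p6 hX0.le]
  have p8 : (∑ o ∈ O, (mult v R z X o : ℝ)) ^ 2 ≤ (δ / 16 * X) ^ 2 := by
    refine (sum_sq_le_sum_mul_sum_of_sq_le_mul O
      (f := fun o => (mult v R z X o : ℝ) ^ 2 / 2 ^ om (ww v) z o.b1 * Real.exp (Lam (ww v) z))
      (g := fun o => (2 : ℝ) ^ om (ww v) z o.b1 * Real.exp (-Lam (ww v) z))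
      (fun _ _ => by positivity) (fun _ _ => by positivity) fun o _ => le_of_eq ?_).trans ?_
    · rw [Real.exp_neg]; field_simp
    · have q1 : (|Cm| + 1) * X * (η * X) = (δ / 16 * X) ^ 2 := by rw [hη]; field_simp
      rw [← q1]
      exact mul_le_mul (p2.trans (by nlinarith [le_abs_self Cm])) p7
        (sum_nonneg fun _ _ => by positivity) (by positivity)
  have p9 := (abs_le_of_sq_le_sq' p8 (by positivity)).2
  have p10 : ((BadE σ X R).card : ℝ) ≤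
      2 * (((Edges X R).filter fun e => ¬ TypE v a0 a1 b C0 z e).card +
        4 * ∑ o ∈ O, (mult v R z X o : ℝ)) := by exact_mod_cast hc
  linarith

end Pool.Agent.Lib.LQ
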