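import Pool.Agent.Lib.LQ.U2Aux2

/-! Block U2: the pair bound and the size of a label class. -/

set_option autoImplicit false

open Finset
open scoped Classical

noncomputable section

namespace Pool.Agent.Lib.LQ

open Pool.Agent.Lib.MP_de94cf_nt (gg det inn)

namespace U2a

lemma res6 {l c k m c' k' m' : ℤ} (h1 : ¬ l ∣ 1) (h2 : ¬ l ∣ c) (h3 : ¬ l ∣ m) (h4 : ¬ l ∣ k)
    (h5 : ¬ l ∣ c') (h6 : ¬ l ∣ m') (h7 : ¬ l ∣ k') (h8 : ¬ l ∣ m - c * k)
    (h9 : ¬ l ∣ m' - c' * k') (h10 : ¬ l ∣ c - c') (h11 : ¬ l ∣ m' - c * k')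
    (h12 : ¬ l ∣ m - c' * k) (h13 : ¬ l ∣ k * m' - k' * m) (i j : Fin 6) (hne : i ≠ j) :
    ¬ l ∣ ![1, 0, 1, k, 1, k'] i * ![0, 1, c, m, c', m'] j -
      ![0, 1, c, m, c', m'] i * ![1, 0, 1, k, 1, k'] j := by
  have key : ∀ {a b : ℤ}, ¬ l ∣ a → (b - a) * (b + a) = 0 → ¬ l ∣ b := by
    intro a b h e
    rcases mul_eq_zero.1 e with e | e
    · rwa [sub_eq_zero.1 e]
    · rwa [eq_neg_of_add_eq_zero_left e, dvd_neg]
  fin_cases i <;> fin_cases j <;> simp only [Fin.reduceFinMk, Matrix.cons_val] <;>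
    first
    | exact absurd rfl hne
    | exact key h1 (by ring1)
    | exact key h2 (by ring1)
    | exact key h3 (by ring1)
    | exact key h4 (by ring1)
    | exact key h5 (by ring1)
    | exact key h6 (by ring1)
    | exact key h7 (by ring1)
    | exact key h8 (by ring1)
    | exact key h9 (by ring1)
    | exact key h10 (by ring1)
    | exact key h11 (by ring1)
    | exact key h12 (by ring1)
    | exact key h13 (by ring1)

lemma res2 {l : ℤ} (h1 : ¬ l ∣ 1) (i j : Fin 2) (hne : i ≠ j) :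
    ¬ l ∣ (![1, 0] : Fin 2 → ℤ) i * (![0, 1] : Fin 2 → ℤ) j -
      (![0, 1] : Fin 2 → ℤ) i * (![1, 0] : Fin 2 → ℤ) j := by
  fin_cases i <;> fin_cases j
  · exact absurd rfl hne
  · simpa using h1
  · simpa using h1
  · exact absurd rfl hne

section adm
variable {v a e f W1 : ℕ} {z Y0 C1 : ℝ} {S : Finset GI} {ρ : GI} {t : Tt}

lemma adm_k (h : Adm v a e f z S ρ W1 Y0 C1 t) : (t.y : ℤ) * t.k ρ = (t.p ρ : ℤ) - t.q :=
  Int.mul_ediv_cancel' h.ydvd

lemma adm_k_ne (h : Adm v a e f z S ρ W1 Y0 C1 t) : (t.k ρ).natAbs ≠ 0 := by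
  intro c
  have := adm_k h
  rw [Int.natAbs_eq_zero.1 c, mul_zero, eq_comm, sub_eq_zero] at this
  exact h.ne (by exact_mod_cast this)

lemma adm_q_le (h : Adm v a e f z S ρ W1 Y0 C1 t) : (t.q : ℝ) ≤ 2 * z ^ f := by
  have : (t.q : ℝ) ≤ 2 * t.p ρ := by exact_mod_cast h.qp
  linarith [h.hip]

lemma adm_res (hl : Lab v a f z S ρ) (h : Adm v a e f z S ρ W1 Y0 C1 t) {l : ℕ}
    (hP : l ∈ PP (ww v) z) (b1 : ¬ l ∣ nm (pr S)) (b2 : ¬ l ∣ t.q) (b3 : ¬ l ∣ t.y) :
    ¬ (l : ℤ) ∣ t.c ∧ ¬ (l : ℤ) ∣ t.m ρ ∧ ¬ (l : ℤ) ∣ t.m ρ - t.c * t.k ρ := by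
  have hp := (mem_PP.1 hP).1
  have s2 : ¬ l ∣ nm (pr t.S2) := fun c =>
    b1 (c.trans (nm_dvd (prod_dvd_prod_of_subset _ _ _ h.sub2)))
  have sp : ¬ l ∣ t.p ρ := fun c => b1 (lab_dvd hl hP (c.trans
    (nm_dvd (mul_dvd_mul_right (prod_dvd_prod_of_subset _ _ _ h.sub3) ρ))))
  refine ⟨fun c => ?_, fun c => ?_, fun c => ?_⟩
  · unfold Tt.c at c
    exact hp.not_dvd_mul b3 s2 (by exact_mod_cast c)
  · unfold Tt.m at c
    exact hp.not_dvd_mul s2 sp (by exact_mod_cast c)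
  · have e : t.m ρ - t.c * t.k ρ = (nm (pr t.S2) : ℤ) * t.q := by
      unfold Tt.m Tt.c
      linear_combination (-(nm (pr t.S2) : ℤ)) * adm_k h
    rw [e] at c
    exact hp.not_dvd_mul s2 b2 (by exact_mod_cast c)

end adm

/-- the primes which are not sieved in the pair bound -/
def Bad (S : Finset GI) (ρ : GI) (t t' : Tt) (l : ℕ) : Prop :=
  l ∣ nm (pr S) ∨ l ∣ t.q ∨ l ∣ t'.q ∨ l ∣ t.y ∨ l ∣ t'.y ∨ l ∣ (t.k ρ).natAbs ∨
    l ∣ (t'.k ρ).natAbs ∨ ((l : ℤ) ∣ D33 t t' ∧ ¬ l ∣ exn S t t') ∨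
    ((l : ℤ) ∣ D34 ρ t t' ∧ ¬ l ∣ exn S t t') ∨ ((l : ℤ) ∣ D34 ρ t' t ∧ ¬ l ∣ exn S t t') ∨
    ((l : ℤ) ∣ D44 ρ t t' ∧ ¬ l ∣ exn S t t')

lemma sd_Bad {v a e f W1 : ℕ} {z Y0 C1 : ℝ} {S : Finset GI} {ρ : GI} {t t' : Tt}
    (hl : Lab v a f z S ρ) (h : Adm v a e f z S ρ W1 Y0 C1 t)
    (h' : Adm v a e f z S ρ W1 Y0 C1 t') :
    sd (ww v) z (Bad S ρ t t') ≤ sS S + 6 * (1 / v) + (sst v z (exn S t t') (D33 t t') +
      sst v z (exn S t t') (D34 ρ t t') + sst v z (exn S t t') (D34 ρ t' t) +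
      sst v z (exn S t t') (D44 ρ t t')) := by
  have e := (sd_or (ww v) z _ _).trans (add_le_add (sd_le_sS hl.sub)
    ((sd_or (ww v) z _ _).trans (add_le_add ((sd_le_sg _ z h.sfq.ne_zero).trans h.sgq)
    ((sd_or (ww v) z _ _).trans (add_le_add ((sd_le_sg _ z h'.sfq.ne_zero).trans h'.sgq)
    ((sd_or (ww v) z _ _).trans (add_le_add ((sd_le_sg _ z h.sfy.ne_zero).trans h.sgy)
    ((sd_or (ww v) z _ _).trans (add_le_add ((sd_le_sg _ z h'.sfy.ne_zero).trans h'.sgy)
    ((sd_or (ww v) z _ _).trans (add_le_add ((sd_le_sgw _ z (adm_k_ne h)).trans h.sgk)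
    ((sd_or (ww v) z _ _).trans (add_le_add ((sd_le_sgw _ z (adm_k_ne h')).trans h'.sgk)
    ((sd_or (ww v) z _ _).trans (add_le_add (sd_le_sst v z (exn S t t') (D33 t t'))
    ((sd_or (ww v) z _ _).trans (add_le_add (sd_le_sst v z (exn S t t') (D34 ρ t t'))
    ((sd_or (ww v) z _ _).trans (add_le_add (sd_le_sst v z (exn S t t') (D34 ρ t' t))
      (sd_le_sst v z (exn S t t') (D44 ρ t t')))))))))))))))))))))
  refine le_trans e (le_of_eq ?_)
  ring

lemma th_mem {x : Wt} (hx : x.OK) (S : Finset GI) (t : Tt) (n : ℕ) :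
    0 ≤ th x S t * x.xQ ^ n ∧ th x S t * x.xQ ^ n ≤ 1 := by
  have := hx.h1
  have := hx.h2
  have := hx.hP
  have := hx.hsum
  have := hx.hQ.1
  unfold th
  refine ⟨by positivity, mul_le_one₀ (mul_le_one₀ (mul_le_one₀ ?_ (by positivity) ?_)
    (by positivity) ?_) (by positivity) (pow_le_one₀ hx.hQ.1 hx.hQ.2)⟩ <;>
  exact pow_le_one₀ (by assumption) (by linarith)

lemma sS_nonneg (S : Finset GI) : 0 ≤ sS S := sum_nonneg fun _ _ => by positivity

end U2a

open U2a

theorem U2 (h1 : EFLStmt) (h2 : LocStmt) : U2Stmt := by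
  refine ⟨1000, fun δ hδ => ?_⟩
  obtain ⟨u, K, hK, H⟩ := core h1 h2 (lt_min hδ one_pos)
  refine ⟨u, fun v a e f hv he => ⟨2 * K + 4, fun z X S ρ C D hz hX hl hB => ?_⟩⟩
  have z2 : 2 ≤ z := by linarith
  have z1 : 1 ≤ z := by linarith
  have v0 : (0 : ℝ) < v := by linarith
  have hw : (v : ℝ) ≤ ww v := le_self_pow₀ (by linarith) (by norm_num)
  have hw24 : 24 ≤ ww v := by linarith
  have hw2 : 144 / ww v ≤ 144 * (1 / v) := by
    rw [mul_one_div]
    gcongr
  have af : a ≤ f := by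
    obtain ⟨-, -, a3, a4⟩ := he
    omega
  have n0 := lab_le hl z1 af
  have hS := sS_nonneg S
  have hcst := const_le hδ hv
  have e217 : (217 : ℝ) / v = 217 * (1 / v) := by ring
  have iv : (0 : ℝ) ≤ 1 / v := by positivity
  have b0 : (0 : ℝ) ≤ (Box C D).card := Nat.cast_nonneg _
  have d0 : 0 ≤ 1 + min δ 1 := by have := lt_min hδ one_pos; linarith
  have ps := psi_pos (nm (pr S * ρ))
  constructor
  · have H1 := H (Fin 2) ![1, 1] ![1, 0] ![0, 1] C D (ww v) z (nm (pr S * ρ)).primeFactors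
      (fun l x => ind ((l : GI) ∣ star (pr S * ρ) * Lf 1 0 x)) (fun l => l ∣ nm (pr S))
      (1 / psi (nm (pr S * ρ))) (by simp) (fun i => by fin_cases i <;> simp) hB.hC hB.hD hw24 z2
      (fun l hl => ⟨Nat.prime_of_mem_primeFactors hl,
        fun x y a1 a2 => by simp only [mul_Lf_congr a1 a2],
        fun x => ⟨ind_nonneg _, ind_le_one _⟩⟩)
      (fun l h0 hP => lab_dvd hl hP (Nat.dvd_of_mem_primeFactors h0))
      (fun l hP _ => res2 (not_dvd_one (mem_PP.1 hP).1)) (le_of_eq (by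
        rw [psi, one_div, ← prod_inv_distrib]
        refine prod_congr rfl fun l h0 => ?_
        obtain ⟨p1, p2, -⟩ := Nat.mem_primeFactors.1 h0
        rw [mean_loc h2 p1 (lab_ne_two hl z2 p1 p2) p2 hl.sf 0, one_div]))
    have E1 := err_le (P := ∏ l ∈ (nm (pr S * ρ)).primeFactors, (l : ℝ)) hK hz he hX hB
      (by positivity) ((prod_pf_le (lab_ne hl)).trans (n0.trans (by
        have : z ^ (2 * f) ≤ z ^ (4 * f) := pow_le_pow_right₀ z1 (by omega)
        have : 0 ≤ z ^ (4 * f) := by positivity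
        linarith)))
    refine le_trans ?_ (H1.trans (add_le_add ?_ E1))
    · rw [card_eq_sum_ones, Nat.cast_sum]
      refine le_trans (sum_le_sum fun γ hγ => le_of_eq ?_)
        (sum_le_sum_of_subset_of_nonneg (filter_subset _ _) fun γ _ _ => mul_nonneg
          (prod_nonneg fun l _ => ind_nonneg _) (prod_nonneg fun l _ =>
            (wl_mem (fun i => by fin_cases i <;> simp) _ _ l γ).1))
      obtain ⟨-, f1, f2, f3⟩ := aset_facts hl hB.hC hγ
      rw [prod_eq_one fun l h0 => ind_true (f1 l (Nat.dvd_of_mem_primeFactors h0)), prod_eq_one]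
      · simp
      · intro l h0
        simp only [mem_filter] at h0
        simp [wl, Fin.prod_univ_two, ind_false (f2 l h0.1 h0.2), ind_false (f3 l h0.1)]
    · have s1 := sd_le_sS (z := z) hl.sub
      have x1 : Real.exp (-(∑ i : Fin 2, (![1, 1] : Fin 2 → ℝ) i) * Lam (ww v) z +
          12 * sd (ww v) z (fun l => l ∣ nm (pr S)) + 144 / ww v) ≤
          Real.exp (217 / v) * (Real.exp (1000 * sS S) * Real.exp (-2 * Lam (ww v) z)) := by
        rw [← Real.exp_add, ← Real.exp_add, Real.exp_le_exp, Fin.sum_univ_two]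
        simp only [Matrix.cons_val_zero, Matrix.cons_val_one]
        linarith
      calc _ ≤ (1 + min δ 1) * ((Box C D).card * (1 / psi (nm (pr S * ρ)) * (Real.exp (217 / v) *
            (Real.exp (1000 * sS S) * Real.exp (-2 * Lam (ww v) z))))) := by gcongr
        _ = (1 + min δ 1) * Real.exp (217 / v) * (Real.exp (1000 * sS S) * Nlab v z S ρ C D) := by
          unfold Nlab
          ring
        _ ≤ (1 + δ + 1000 / v) * (Real.exp (1000 * sS S) * Nlab v z S ρ C D) := by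
          refine mul_le_mul_of_nonneg_right hcst ?_
          unfold Nlab
          positivity
        _ = _ := by ring
  · intro x W1 Y0 C1 t t' hx ht ht'
    have q2 : ∀ l : ℕ, l.Prime → l ∣ t.q → l ≠ 2 := fun l p1 p2 c => by
      have := ht.bigq l p1 p2
      rw [c] at this
      norm_num at this
      linarith
    have q2' : ∀ l : ℕ, l.Prime → l ∣ t'.q → l ≠ 2 := fun l p1 p2 c => by
      have := ht'.bigq l p1 p2
      rw [c] at this
      norm_num at this
      linarith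
    have X0 : 0 ≤ X ^ (0.93 : ℝ) := Real.rpow_nonneg (le_trans (by positivity) hX) _
    obtain ⟨m0, m1⟩ := th_mem hx S t (om (ww v) z t.Q)
    obtain ⟨m0', m1'⟩ := th_mem hx S t' (om (ww v) z t'.Q)
    by_cases hI : (g0 t t' : ℤ) ∣ D33 t t' ∧ (D33 t t' = 0 → g0 t t' = Nat.gcd t.q t'.q)
    swap
    · rw [Exc, ind_false hI, sum_eq_zero]
      · simpa using X0
      · intro γ hγ
        unfold phi
        by_cases c : star t.Q ∣ t.L3 γ
        · by_cases c' : star t'.Q ∣ t'.L3 γ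
          · exact absurd (exc_cond ht.sfq ht'.sfq q2 (aset_facts hl hB.hC hγ).1 c c') hI
          · simp [ind_false c']
        · simp [ind_false c]
    have hc6 : ∀ i : Fin 6, 0 ≤ ![1, 1, 1 - x.x3, 1 - x.x4, 1 - x.x3, 1 - x.x4] i ∧
        ![1, 1, 1 - x.x3, 1 - x.x4, 1 - x.x3, 1 - x.x4] i ≤ 1 := by
      have := hx.h3
      have := hx.h4
      intro i
      fin_cases i <;> simp only [Fin.reduceFinMk, Matrix.cons_val] <;> constructor <;> linarith
    have hN : nm (pr S * ρ) * t.q * t'.q ≠ 0 :=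
      mul_ne_zero (mul_ne_zero (lab_ne hl) ht.sfq.ne_zero) ht'.sfq.ne_zero
    have H1 := H (Fin 6) ![1, 1, 1 - x.x3, 1 - x.x4, 1 - x.x3, 1 - x.x4]
      ![1, 0, 1, t.k ρ, 1, t'.k ρ] ![0, 1, t.c, t.m ρ, t'.c, t'.m ρ] C D (ww v) z
      (nm (pr S * ρ) * t.q * t'.q).primeFactors (ev (pr S * ρ) t t') (Bad S ρ t t') _
      (by simp) hc6 hB.hC hB.hD hw24 z2
      (fun l hl => ⟨Nat.prime_of_mem_primeFactors hl, ev_per _ _ _ l,
        fun x => ⟨ind_nonneg _, ind_le_one _⟩⟩)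
      (fun l h0 hP => by
        obtain ⟨p1, p2, -⟩ := Nat.mem_primeFactors.1 h0
        rw [p1.dvd_mul, p1.dvd_mul] at p2
        rcases p2 with (c | c) | c
        · exact Or.inl (lab_dvd hl hP c)
        · exact Or.inr (Or.inl c)
        · exact Or.inr (Or.inr (Or.inl c)))
      (fun l hP hb => by
        have p1 := (mem_PP.1 hP).1
        simp only [Bad, not_or, not_and, not_not] at hb
        obtain ⟨b1, b2, b3, b4, b5, b6, b7, b8, b9, b10, b11⟩ := hb
        have bx : ¬ l ∣ exn S t t' := p1.not_dvd_mul (p1.not_dvd_mul b1 b4) b5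
        obtain ⟨r1, r2, r3⟩ := adm_res hl ht hP b1 b2 b4
        obtain ⟨r4, r5, r6⟩ := adm_res hl ht' hP b1 b3 b5
        exact res6 (not_dvd_one p1) r1 r2 (fun c => b6 (Int.natCast_dvd.1 c)) r4 r5
          (fun c => b7 (Int.natCast_dvd.1 c)) r3 r6 (fun c => bx (b8 c)) (fun c => bx (b9 c))
          (fun c => bx (b10 c)) fun c => bx (b11 c))
      (mean_ev h2 hl.sf ht.sfq ht'.sfq ht.copq ht'.copq fun l p1 p2 => by
        rw [p1.dvd_mul, p1.dvd_mul] at p2
        rcases p2 with (c | c) | c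
        · exact lab_ne_two hl z2 p1 c
        · exact q2 l p1 c
        · exact q2' l p1 c)
    have E1 := err_le (P := ∏ l ∈ (nm (pr S * ρ) * t.q * t'.q).primeFactors, (l : ℝ)) hK hz he hX
      hB (by positivity) ((prod_pf_le hN).trans (by
        rw [Nat.cast_mul, Nat.cast_mul]
        calc _ ≤ z ^ (2 * f) * (2 * z ^ f) * (2 * z ^ f) := by
              gcongr
              · exact adm_q_le ht
              · exact adm_q_le ht'
          _ = _ := by ring))
    set A := th x S t * x.xQ ^ om (ww v) z t.Q with hA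
    set A' := th x S t' * x.xQ ^ om (ww v) z t'.Q with hA'
    have hAA : 0 ≤ A * A' := mul_nonneg m0 m0'
    have H2 := mul_le_mul_of_nonneg_left (H1.trans (add_le_add le_rfl E1)) hAA
    refine le_trans ?_ (H2.trans ?_)
    · rw [mul_sum]
      refine le_trans (sum_le_sum fun γ hγ => ?_)
        (sum_le_sum_of_subset_of_nonneg (filter_subset _ _) fun γ _ _ => mul_nonneg hAA (mul_nonneg
          (prod_nonneg fun l _ => ind_nonneg _) (prod_nonneg fun l _ => (wl_mem hc6 _ _ l γ).1)))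
      have w0 : 0 ≤ A * A' * ((∏ l ∈ (nm (pr S * ρ) * t.q * t'.q).primeFactors,
          ev (pr S * ρ) t t' l γ) * ∏ l ∈ (PP (ww v) z).filter (fun l => ¬ Bad S ρ t t' l),
            wl ![1, 1, 1 - x.x3, 1 - x.x4, 1 - x.x3, 1 - x.x4] ![1, 0, 1, t.k ρ, 1, t'.k ρ]
              ![0, 1, t.c, t.m ρ, t'.c, t'.m ρ] l γ) := mul_nonneg hAA (mul_nonneg
          (prod_nonneg fun l _ => ind_nonneg _) (prod_nonneg fun l _ => (wl_mem hc6 _ _ l γ).1))
      unfold phi
      rw [← hA, ← hA']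
      by_cases c : star t.Q ∣ t.L3 γ
      swap
      · simpa [ind_false c] using w0
      by_cases c' : star t'.Q ∣ t'.L3 γ
      swap
      · simpa [ind_false c'] using w0
      obtain ⟨-, f1, f2, f3⟩ := aset_facts hl hB.hC hγ
      have hL1 : ∀ l ∈ (PP (ww v) z).filter (fun l => ¬ Bad S ρ t t' l), l ∈ PP (ww v) z ∧
          ¬ l ∣ nm (pr S) ∧ ¬ l ∣ nm (pr S) * t.q ∧ ¬ l ∣ nm (pr S) * t'.q := by
        intro l h0
        obtain ⟨hP, hb⟩ := mem_filter.1 h0
        have p1 := (mem_PP.1 hP).1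
        simp only [Bad, not_or] at hb
        exact ⟨hP, hb.1, p1.not_dvd_mul hb.1 hb.2.1, p1.not_dvd_mul hb.1 hb.2.2.1⟩
      have i1 := pow_omx_le hx.h3 (t.L3 γ) fun l h0 => ⟨(hL1 l h0).1, (hL1 l h0).2.2.1⟩
      have i2 := pow_omx_le hx.h4 (t.L4 ρ γ) fun l h0 => ⟨(hL1 l h0).1, (hL1 l h0).2.2.1⟩
      have i3 := pow_omx_le hx.h3 (t'.L3 γ) fun l h0 => ⟨(hL1 l h0).1, (hL1 l h0).2.2.2⟩
      have i4 := pow_omx_le hx.h4 (t'.L4 ρ γ) fun l h0 => ⟨(hL1 l h0).1, (hL1 l h0).2.2.2⟩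
      have x3 := hx.h3.1
      have x4 := hx.h4.1
      have i5 := mul_le_mul (mul_le_mul (mul_le_mul i1 i2 (by positivity)
        (le_trans (by positivity) i1)) i3 (by positivity)
        (mul_nonneg (le_trans (by positivity) i1) (le_trans (by positivity) i2))) i4
        (by positivity) (mul_nonneg (mul_nonneg (le_trans (by positivity) i1)
          (le_trans (by positivity) i2)) (le_trans (by positivity) i3))
      rw [← prod_mul_distrib, ← prod_mul_distrib, ← prod_mul_distrib] at i5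
      have i6 : ∏ l ∈ (nm (pr S * ρ) * t.q * t'.q).primeFactors, ev (pr S * ρ) t t' l γ = 1 :=
        prod_eq_one fun l _ => ind_true ⟨f1 l, fun d => dvd_mul_of d c, fun d => dvd_mul_of d c'⟩
      rw [i6, ind_true c, ind_true c', one_mul]
      refine le_trans (le_of_eq (by ring)) (le_trans (mul_le_mul_of_nonneg_left i5 hAA)
        (le_of_eq ?_))
      congr 1
      refine prod_congr rfl fun l h0 => ?_
      simp only [wl, Fin.prod_univ_six, Matrix.cons_val, ind_false (f2 l (hL1 l h0).1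
        (hL1 l h0).2.1), ind_false (f3 l (hL1 l h0).1), Tt.L3, Tt.L4]
      ring
    · rw [mul_add]
      refine add_le_add ?_ (mul_le_of_le_one_left X0 (mul_le_one₀ m1 m0' m1'))
      have s1 := sd_Bad hl ht ht'
      set T := sst v z (exn S t t') (D33 t t') + sst v z (exn S t t') (D34 ρ t t') +
        sst v z (exn S t t') (D34 ρ t' t) + sst v z (exn S t t') (D44 ρ t t') with hT
      have x1 : Real.exp (sg t.q) * Real.exp (-(∑ i : Fin 6,
          ![1, 1, 1 - x.x3, 1 - x.x4, 1 - x.x3, 1 - x.x4] i) * Lam (ww v) z +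
          12 * sd (ww v) z (Bad S ρ t t') + 144 / ww v) ≤
          Real.exp (217 / v) * (Real.exp (1000 * sS S) * Real.exp (-2 * Lam (ww v) z) *
            G34 v z x ^ 2 * Real.exp (12 * T)) := by
        rw [G34, ← Real.exp_nat_mul, ← Real.exp_add, ← Real.exp_add, ← Real.exp_add,
          ← Real.exp_add, ← Real.exp_add, Real.exp_le_exp, Fin.sum_univ_six]
        simp only [Matrix.cons_val]
        push_cast
        linarith [ht.sgq]
      have p1 := psi_pos t.q
      have p2 := psi_pos t'.q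
      have p3 := psi_pos (g0 t t')
      calc _ = (1 + min δ 1) * (A * A' * (Box C D).card * (psi (g0 t t') /
              (psi (nm (pr S * ρ)) * psi t.q * psi t'.q))) * (Real.exp (sg t.q) * _) := by ring
        _ ≤ (1 + min δ 1) * (A * A' * (Box C D).card * (psi (g0 t t') /
              (psi (nm (pr S * ρ)) * psi t.q * psi t'.q))) * _ :=
          mul_le_mul_of_nonneg_left x1 (by positivity)
        _ = (1 + min δ 1) * Real.exp (217 / v) * (Real.exp (1000 * sS S) * Nlab v z S ρ C D *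
            G34 v z x ^ 2 * (mt v z x S t * mt v z x S t' * Exc v z S ρ t t')) := by
          rw [Exc, ind_true hI, mt, mt, ← hA, ← hA', ← hT, Nlab]
          ring
        _ ≤ (1 + δ + 1000 / v) * (Real.exp (1000 * sS S) * Nlab v z S ρ C D *
            G34 v z x ^ 2 * (mt v z x S t * mt v z x S t' * Exc v z S ρ t t')) := by
          refine mul_le_mul_of_nonneg_right hcst ?_
          rw [Exc, ind_true hI, mt, mt, ← hA, ← hA', ← hT, Nlab]
          positivity
        _ = _ := by ring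

end Pool.Agent.Lib.LQ
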