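import Pool.Agent.Lib.LQ.UIAux2

/-! Block UI of the project LQ: uniform integrability in the other views. -/

set_option autoImplicit false

open Finset
open scoped Classical

noncomputable section

namespace Pool.Agent.Lib.LQ

open Pool.Agent.Lib.MP_de94cf_nt (gg det inn)

namespace UI

/-- the second moment bound with `δ = 1` and trivial modulus -/
def SMin (K : ℝ) (v a e f : ℕ) (C1 z X : ℝ) (x : Wt) : Prop :=
  ∀ (Y0 : ℝ) (S : Finset GI) (ρ : GI) (C D : ℕ) (T : Finset Tt) (wmax : ℝ) (w : Tt → GI × GI → ℝ),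
    0 < Y0 → Lab v a f z S ρ → BoxOK f z X C D → (∀ t ∈ T, Adm v a e f z S ρ 1 Y0 C1 t) →
    0 ≤ wmax →
    (∀ t ∈ T, ∀ γ ∈ Aset v z S ρ C D, 0 ≤ w t γ ∧ w t γ ≤ phi v z x S ρ t γ ∧ w t γ ≤ wmax) →
    ∑ t ∈ T, mt v z x S t ≤ K * Maj v z x 1 C1 ∧
    ∑ γ ∈ Aset v z S ρ C D, (∑ t ∈ T, w t γ) ^ 2 ≤
      Real.exp (K * sS S) * Nlab v z S ρ C D * G34 v z x ^ 2 *
          ((1 + 1 + K / v) * (∑ t ∈ T, mt v z x S t) ^ 2 + (1 + K / v) * K * Maj v z x 1 C1 ^ 2) +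
        4 * wmax * ∑ γ ∈ Aset v z S ρ C D, ∑ t ∈ T, w t γ + X ^ (0.95 : ℝ)

def obj (v : ℕ) (z : ℝ) (ε : GI) (s : Sq) : (GI × GI) × GI := (gam v z ε s, rho v z s)

def lb (v : ℕ) (z : ℝ) (o : (GI × GI) × GI) : ℕ × Finset GI × GI :=
  (jj o.1.1, sm (ww v) z o.1.1, o.2)

def mu (v : ℕ) (z : ℝ) : ℝ := Real.exp (-(3 / 2) * Lam (ww v) z)

def Good (v a e f : ℕ) (C2 z X : ℝ) (x : Wt) (ε : GI) (s : Sq) : Prop :=
  s.Valid ∧ s.Core v a e f z ∧ s.Size C2 X ∧ s.W v z x ≤ mu v z ∧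
    |(gam v z ε s).1.re| ≤ (gam v z ε s).1.im

def AA (K C2 : ℝ) : ℝ := (4 * K ^ 2 + |K|) * (16 * C2 ^ 6) ^ 2 * (42 * C2) + 1

variable {v a e f u : ℕ} {z K C2 X : ℝ} {s : Sq} {ε : GI} {x : Wt}

lemma th_nonneg (hx : x.OK) (S : Finset GI) (t : Tt) : 0 ≤ th x S t := by
  have := hx.h1; have := hx.h2; have := hx.hP
  unfold th; positivity

lemma good_box (hv : 2 ≤ v) (he : ExpOK u a e f) (hC2 : 1 ≤ C2) (hz : 7 * C2 ^ 3 ≤ z) (hX : 1 ≤ X)
    (hε : IsUnit ε) (h : Good v a e f C2 z X x ε s) :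
    BoxOK f z X (2 ^ jj (gam v z ε s).1) (DD C2 X (jj (gam v z ε s).1)) := by
  obtain ⟨h1, h2, h3, -, h5⟩ := h
  obtain ⟨-, r2, r3⟩ := sizes hε h1 h2 h3 hC2 hX h5
  have hy : (1 : ℝ) ≤ s.y := by exact_mod_cast h2.ypos
  have h6 : (1 : ℝ) ≤ nm (pr (S2 v z s)) := by
    exact_mod_cast Nat.pos_of_ne_zero fun h0 => s2_ne v z s (nm_eq_zero.1 h0)
  have h7 := lab hv hε h2
  refine boxok he hC2 hz hX r2 r3 (by rw [tt_c h2]; nlinarith) ?_
  rw [tt_c h2]
  refine mul_le_mul h2.hiy (le_trans ?_ h7.hiS) (by positivity) (by linarith [h2.hiy])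
  exact_mod_cast Nat.le_of_dvd (Nat.pos_of_ne_zero fun h0 => pr_ne_zero h7.sub (nm_eq_zero.1 h0))
    (nm_dvd (pr_dvd_pr (sub2 v z ε s)))

lemma C_le {C D : ℕ} (hz : 1 ≤ z) (hX : z ^ (4000 * f) ≤ X) (h : BoxOK f z X C D) :
    (C : ℝ) ≤ X := by
  have hX1 : 1 ≤ X := (one_le_pow₀ hz).trans hX
  have h1 : z ^ f ≤ Real.sqrt X := Real.le_sqrt_of_sq_le (by
    rw [← pow_mul]; exact (pow_le_pow_right₀ hz (by omega)).trans hX)
  calc (C : ℝ) ≤ Real.sqrt X * z ^ f := h.hiC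
    _ ≤ Real.sqrt X * Real.sqrt X := by gcongr
    _ = X := Real.mul_self_sqrt (by linarith)

lemma err_le {S : Finset GI} {ρ : GI} (he : ExpOK u a e f) (hz : 1 ≤ z) (hX : z ^ (4000 * f) ≤ X)
    (hexp : Real.exp (5 * Lam (ww v) z) ≤ z) (h : Lab v a f z S ρ) :
    X ^ (0.95 : ℝ) ≤ X * mu v z ^ 2 * Real.exp (-2 * Lam (ww v) z) / psi (nm (pr S * ρ)) := by
  have hX1 : 1 ≤ X := (one_le_pow₀ hz).trans hX
  obtain ⟨e1, -, e2, e3⟩ := he
  have h1 : (nm (pr S * ρ) : ℝ) ≤ z ^ (2 * f) := by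
    rw [nm_mul, Nat.cast_mul, two_mul, pow_add]
    exact mul_le_mul (h.hiS.trans (pow_le_pow_right₀ hz (by omega))) h.hiρ (by positivity)
      (by positivity)
  have h2 : psi (nm (pr S * ρ)) ≤ z ^ (4 * f) := (psi_le h.sf.ne_zero).trans (by
    rw [show 4 * f = 2 * f * 2 by ring, pow_mul]; gcongr)
  have h3 : z ^ (200 * f) ≤ X ^ (0.05 : ℝ) := by
    have h4 : ((z ^ (200 * f)) ^ 20) ^ (0.05 : ℝ) ≤ X ^ (0.05 : ℝ) :=
      Real.rpow_le_rpow (by positivity) (by rw [← pow_mul, mul_right_comm]; exact hX) (by norm_num)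
    rwa [← Real.rpow_natCast _ 20, ← Real.rpow_mul (by positivity),
      show ((20 : ℕ) : ℝ) * 0.05 = 1 by norm_num, Real.rpow_one] at h4
  have h4 : mu v z ^ 2 * Real.exp (-2 * Lam (ww v) z) * Real.exp (5 * Lam (ww v) z) = 1 := by
    rw [mu, ← Real.exp_nat_mul, ← Real.exp_add, ← Real.exp_add, ← Real.exp_zero]
    congr 1; push_cast; ring
  have h5 : X ^ (0.95 : ℝ) * X ^ (0.05 : ℝ) = X := by
    rw [← Real.rpow_add (by linarith)]; norm_num
  have h6 : psi (nm (pr S * ρ)) * Real.exp (5 * Lam (ww v) z) ≤ X ^ (0.05 : ℝ) :=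
    calc _ ≤ z ^ (4 * f) * z := mul_le_mul h2 hexp (by positivity) (by positivity)
      _ = z ^ (4 * f + 1) := by ring
      _ ≤ z ^ (200 * f) := pow_le_pow_right₀ hz (by omega)
      _ ≤ _ := h3
  rw [le_div_iff₀ (psi_pos _)]
  refine le_of_mul_le_mul_right ?_ (Real.exp_pos (5 * Lam (ww v) z))
  calc _ = X ^ (0.95 : ℝ) * (psi (nm (pr S * ρ)) * Real.exp (5 * Lam (ww v) z)) := by ring
    _ ≤ X ^ (0.95 : ℝ) * X ^ (0.05 : ℝ) := by gcongr
    _ = X * 1 := by rw [h5, mul_one]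
    _ = _ := by rw [← h4]; ring

lemma per_label (hSM : SMin K v a e f (16 * C2 ^ 6) z X x) (hx : x.OK)
    (hx3 : x.x3 + x.x4 + x.xQ = 3 / 2) (hε : IsUnit ε) (he : ExpOK u a e f) (hv : 2 ≤ v)
    (hKv : |K| ≤ v) (hC2 : 1 ≤ C2) (hz : 7 * C2 ^ 3 ≤ z) (hX : z ^ (4000 * f) ≤ X)
    (hexp : Real.exp (5 * Lam (ww v) z) ≤ z) {G : Finset Sq} {l : ℕ × Finset GI × GI}
    (hG : ∀ s ∈ G, Good v a e f C2 z X x ε s ∧ lb v z (obj v z ε s) = l) (hne : G.Nonempty) :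
    ∑ o ∈ G.image (obj v z ε), (∑ s ∈ G.filter (fun s => obj v z ε s = o), s.W v z x) ^ 2 ≤
      AA K C2 * X * mu v z ^ 2 * Real.exp (-2 * Lam (ww v) z) *
        (Real.exp (|K| * sS l.2.1) / psi (nm (pr l.2.1 * l.2.2))) +
      4 * mu v z * ∑ s ∈ G, s.W v z x := by
  obtain ⟨j, S, ρ⟩ := l
  have hz1 : 1 ≤ z := by linarith [one_le_pow₀ (n := 3) hC2]
  have hX1 : 1 ≤ X := (one_le_pow₀ hz1).trans hX
  have ej : ∀ s ∈ G, jj (gam v z ε s).1 = j := fun s hs => congrArg (·.1) (hG s hs).2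
  have eS : ∀ s ∈ G, sm (ww v) z (gam v z ε s).1 = S := fun s hs => congrArg (·.2.1) (hG s hs).2
  have eρ : ∀ s ∈ G, rho v z s = ρ := fun s hs => congrArg (·.2.2) (hG s hs).2
  obtain ⟨s0, hs0⟩ := hne
  have hlab : Lab v a f z S ρ := eS s0 hs0 ▸ eρ s0 hs0 ▸ lab hv hε (hG s0 hs0).1.2.1
  have hbox : BoxOK f z X (2 ^ j) (DD C2 X j) :=
    ej s0 hs0 ▸ good_box hv he hC2 hz hX1 hε (hG s0 hs0).1
  set A := Aset v z S ρ (2 ^ j) (DD C2 X j) with hA
  have hmem : ∀ s ∈ G, obj v z ε s ∈ A.image (·, ρ) := fun s hs => by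
    obtain ⟨h1, h2, h3, -, h5⟩ := (hG s hs).1
    refine mem_image.2 ⟨gam v z ε s, mem_filter.2 ⟨ej s hs ▸ (sizes hε h1 h2 h3 hC2 hX1 h5).1,
      eS s hs, sm_bb hε h2, ?_⟩, by rw [obj, eρ s hs]⟩
    rw [← eρ s hs]
    exact ((Dvd.intro_left _ (rho_eq v z s)).mul_left _).mul_left ε
  have hμ : 0 < mu v z := Real.exp_pos _
  have hinj : ∀ γ ∈ A, ∀ γ' ∈ A, (γ, ρ) = (γ', ρ) → γ = γ' := fun _ _ _ _ h => congrArg Prod.fst h
  have hw : ∀ γ : GI × GI, ∑ t ∈ G.image (tt v z), ∑ s ∈ (G.filter fun s => obj v z ε s = (γ, ρ)).filter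
      (fun s => tt v z s = t), s.W v z x = ∑ s ∈ G.filter (fun s => obj v z ε s = (γ, ρ)), s.W v z x :=
    fun γ => sum_fiberwise_of_maps_to (fun s hs => mem_image_of_mem _ (mem_filter.1 hs).1) _
  obtain ⟨r1, r2⟩ := hSM (YY C2 X j) S ρ (2 ^ j) (DD C2 X j) (G.image (tt v z)) (mu v z)
    (fun t γ => ∑ s ∈ (G.filter fun s => obj v z ε s = (γ, ρ)).filter (fun s => tt v z s = t),
      s.W v z x) (by unfold YY; positivity) hlab hbox (fun t ht => by
      obtain ⟨s, hs, rfl⟩ := mem_image.1 ht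
      obtain ⟨h1, h2, h3, -, h5⟩ := (hG s hs).1
      obtain ⟨-, r2, r3⟩ := sizes hε h1 h2 h3 hC2 hX1 h5
      rw [← eS s hs, ← eρ s hs, ← ej s hs]
      exact adm hε h1 h2 r2 r3) hμ.le (fun t _ γ _ => by
      refine ⟨sum_nonneg fun s _ => W_nonneg hx v z s, ?_⟩
      rcases ((G.filter fun s => obj v z ε s = (γ, ρ)).filter
        (fun s => tt v z s = t)).eq_empty_or_nonempty with h | ⟨s, hs⟩
      · rw [h, sum_empty]
        have := th_nonneg hx S t; have := hx.h3.1; have := hx.h4.1; have := hx.hQ.1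
        have := ind_nonneg (star t.Q ∣ t.L3 γ)
        exact ⟨by unfold phi; positivity, hμ.le⟩
      · have hs' := hs
        simp only [mem_filter] at hs'
        obtain ⟨⟨q1, q2⟩, q3⟩ := hs'
        obtain ⟨h1, h2, -, h4, -⟩ := (hG s q1).1
        rw [eq_singleton_iff_unique_mem.2 ⟨hs, fun s' hs' => ?_⟩, sum_singleton]
        · have q4 : gam v z ε s = γ := congrArg Prod.fst q2
          rw [← eS s q1, ← eρ s q1, ← q3, ← q4]
          exact ⟨W_le hx hε h1 h2, h4⟩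
        · simp only [mem_filter] at hs'
          have q5 := hs'.1.2.trans q2.symm
          exact inj hε (hG s' hs'.1.1).1.1 (hG s' hs'.1.1).1.2.1 h1 h2 (congrArg Prod.fst q5)
            (congrArg Prod.snd q5) (hs'.2.trans q3.symm))
  simp only [hw] at r2
  have q1 : ∑ γ ∈ A, ∑ s ∈ G.filter (fun s => obj v z ε s = (γ, ρ)), s.W v z x =
      ∑ s ∈ G, s.W v z x := by
    rw [← sum_fiberwise_of_maps_to hmem, sum_image hinj]
  rw [← hA, q1] at r2
  refine (sum_le_sum_of_subset_of_nonneg (image_subset_iff.2 hmem) fun _ _ _ => sq_nonneg _).trans ?_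
  rw [sum_image hinj]
  refine r2.trans ?_
  have q2 := err_le he hz1 hX hexp hlab
  have q3 := card_box hC2 (C_le hz1 hX hbox)
  have q4 : G34 v z x * Maj v z x 1 (16 * C2 ^ 6) = 16 * C2 ^ 6 * mu v z := by
    unfold G34 Maj GQ mu
    rw [Nat.cast_one, one_pow, div_one, mul_left_comm, ← Real.exp_add]
    congr 2
    linear_combination Lam (ww v) z * hx3
  have q5 : 0 ≤ ∑ t ∈ G.image (tt v z), mt v z x S t := sum_nonneg fun t _ => by
    have := th_nonneg hx S t; have := hx.hQ.1; have := psi_pos t.q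
    unfold mt; positivity
  have hv' : (2 : ℝ) ≤ v := by exact_mod_cast hv
  have q6 : K / v ≤ 1 := (div_le_one (by linarith)).2 ((le_abs_self K).trans hKv)
  have q7 : K ^ 2 / v ≤ K ^ 2 := div_le_self (sq_nonneg _) (by linarith)
  have q8 := pow_le_pow_left₀ q5 r1 2
  generalize (∑ t ∈ G.image (tt v z), mt v z x S t) = m at *
  have q9 : (1 + 1 + K / v) * m ^ 2 + (1 + K / v) * K * Maj v z x 1 (16 * C2 ^ 6) ^ 2 ≤
      (4 * K ^ 2 + |K|) * Maj v z x 1 (16 * C2 ^ 6) ^ 2 := by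
    have b1 : (1 + 1 + K / v) * m ^ 2 ≤ 3 * m ^ 2 := by gcongr; linarith
    have b2 : (1 + K / v) * K ≤ |K| + K ^ 2 := by
      have : (1 + K / v) * K = K + K ^ 2 / v := by ring
      linarith [le_abs_self K]
    have b3 := mul_le_mul_of_nonneg_right b2 (sq_nonneg (Maj v z x 1 (16 * C2 ^ 6)))
    rw [mul_pow] at q8
    linarith
  have hs : 0 ≤ sS S := sum_nonneg fun _ _ => by positivity
  have q10 : Real.exp (K * sS S) ≤ Real.exp (|K| * sS S) := by gcongr; exact le_abs_self K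
  have q11 : 1 ≤ Real.exp (|K| * sS S) := Real.one_le_exp (by positivity)
  have hp := psi_pos (nm (pr S * ρ))
  have q12 : Real.exp (K * sS S) * Nlab v z S ρ (2 ^ j) (DD C2 X j) * G34 v z x ^ 2 *
      ((1 + 1 + K / v) * m ^ 2 + (1 + K / v) * K * Maj v z x 1 (16 * C2 ^ 6) ^ 2) ≤
      Real.exp (|K| * sS S) * (42 * C2 * X * Real.exp (-2 * Lam (ww v) z) / psi (nm (pr S * ρ))) *
        ((4 * K ^ 2 + |K|) * (16 * C2 ^ 6 * mu v z) ^ 2) := by
    rw [← q4]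
    unfold Nlab
    refine (mul_le_mul_of_nonneg_left q9 (by positivity)).trans ?_
    rw [mul_assoc _ (G34 v z x ^ 2), mul_left_comm (G34 v z x ^ 2), ← mul_pow]
    gcongr
  have q13 := q2.trans (le_mul_of_one_le_left (by positivity) q11)
  refine (add_le_add (add_le_add q12 le_rfl) q13).trans_eq ?_
  unfold AA
  ring

lemma fixed (hSM : SMin K v a e f (16 * C2 ^ 6) z X x) (hx : x.OK)
    (hx3 : x.x3 + x.x4 + x.xQ = 3 / 2) (hε : IsUnit ε) (he : ExpOK u a e f) (hv : 2 ≤ v)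
    (hKv : |K| ≤ v) (hC2 : 1 ≤ C2) (hz : 7 * C2 ^ 3 ≤ z) (hX : z ^ (4000 * f) ≤ X)
    (hexp : Real.exp (5 * Lam (ww v) z) ≤ z) {E : ℕ} (hE : X ≤ z ^ E) {CM : ℝ}
    (hM : ∀ y z : ℝ, 2 ≤ y → y ≤ z → |Lam y z - Real.log (Real.log z / Real.log y)| ≤ CM)
    (hwz : ww v ≤ z) {G : Finset Sq} (hG : ∀ s ∈ G, Good v a e f C2 z X x ε s) :
    ∑ o ∈ G.image (obj v z ε), (∑ s ∈ G.filter (fun s => obj v z ε s = o), s.W v z x) ^ 2 ≤
      AA K C2 * ((2 * E + 1) * (Real.exp CM * Real.log (ww v)) * Real.exp 8 *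
        (4 * (Real.exp CM * f) * Real.exp 8)) * mu v z ^ 2 * X +
      4 * mu v z * ∑ s ∈ G, s.W v z x := by
  have hw := two_lt_ww hv
  have hz1 : 1 ≤ z := by linarith
  have hX1 : 1 ≤ X := (one_le_pow₀ hz1).trans hX
  set L := G.image fun s => lb v z (obj v z ε s) with hL
  rw [← sum_fiberwise_of_maps_to (t := L) (g := lb v z) (fun o ho => by
      obtain ⟨s, hs, rfl⟩ := mem_image.1 ho
      exact mem_image_of_mem _ hs),
    ← sum_fiberwise_of_maps_to (s := G) (t := L) (fun s hs => mem_image_of_mem _ hs)]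
  have h1 : ∀ l ∈ L, ∑ o ∈ (G.image (obj v z ε)).filter (fun o => lb v z o = l),
      (∑ s ∈ G.filter (fun s => obj v z ε s = o), s.W v z x) ^ 2 ≤ _ := fun l hl => by
    refine le_trans (le_of_eq ?_) (per_label hSM hx hx3 hε he hv hKv hC2 hz hX hexp
      (G := G.filter fun s => lb v z (obj v z ε s) = l) (l := l)
      (fun s hs => ⟨hG s (mem_filter.1 hs).1, (mem_filter.1 hs).2⟩) (by
        obtain ⟨s, hs, e⟩ := mem_image.1 hl
        exact ⟨s, mem_filter.2 ⟨hs, e⟩⟩))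
    rw [filter_image]
    refine sum_congr rfl fun o ho => ?_
    obtain ⟨s, hs, rfl⟩ := mem_image.1 ho
    rw [filter_filter]
    congr 2
    exact filter_congr fun s' _ => ⟨fun h => ⟨h ▸ (mem_filter.1 hs).2, h⟩, fun h => h.2⟩
  refine (sum_le_sum h1).trans ?_
  rw [sum_add_distrib, ← mul_sum, ← mul_sum]
  refine add_le_add ?_ le_rfl
  have hl : 1 ≤ Real.log z := by
    rw [Real.le_log_iff_exp_le (by linarith)]; linarith [Real.exp_one_lt_d9]
  have hlw : 0 < Real.log (ww v) := Real.log_pos (by linarith)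
  have h2 := sum_labels (a := a) (f := f) (abs_nonneg K) hv hKv (by linarith : 2 ≤ z)
    (⌊2 * E * Real.log z⌋₊ + 1) (L := L) fun l hl => by
      obtain ⟨s, hs, rfl⟩ := mem_image.1 hl
      refine ⟨Nat.lt_succ_of_le (Nat.le_floor ?_), lab hv hε (hG s hs).2.1⟩
      have h3 := Real.log_le_log (by positivity)
        ((C_le hz1 hX (good_box hv he hC2 hz hX1 hε (hG s hs))).trans hE)
      rw [Nat.cast_pow, Real.log_pow, Real.log_pow, Nat.cast_ofNat] at h3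
      have h4 := Real.log_two_gt_d9
      have h5 : (0 : ℝ) ≤ jj (gam v z ε s).1 := by positivity
      show ((jj (gam v z ε s).1 : ℕ) : ℝ) ≤ _
      nlinarith
  have h3 : ((⌊2 * E * Real.log z⌋₊ + 1 : ℕ) : ℝ) ≤ (2 * E + 1) * Real.log z := by
    have := Nat.floor_le (show 0 ≤ 2 * E * Real.log z by positivity)
    push_cast; linarith
  have hf : 1 ≤ f := by obtain ⟨e1, -, e2, e3⟩ := he; omega
  have hf' : (1 : ℝ) ≤ f := by exact_mod_cast hf
  have h4 : Real.exp (Lam z (z ^ f)) ≤ Real.exp CM * f := by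
    have h5 := (abs_le.1 (hM z (z ^ f) (by linarith) (le_self_pow₀ hz1 (by omega)))).2
    rw [Real.log_pow, mul_div_assoc, div_self (by linarith), mul_one] at h5
    rw [← Real.exp_log (show (0 : ℝ) < f by linarith), ← Real.exp_add, Real.exp_le_exp]
    linarith
  have h5 : Real.exp (-Lam (ww v) z) * Real.log z ≤ Real.exp CM * Real.log (ww v) := by
    have h6 := (abs_le.1 (hM (ww v) z (by linarith) hwz)).1
    rw [Real.log_div (by linarith) hlw.ne'] at h6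
    rw [← Real.exp_log (show 0 < Real.log z by linarith), ← Real.exp_log hlw, ← Real.exp_add,
      ← Real.exp_add, Real.exp_le_exp]
    linarith
  have hA : 0 ≤ AA K C2 := by unfold AA; positivity
  have h6 : Real.exp (-2 * Lam (ww v) z) * Real.exp (Lam (ww v) z) = Real.exp (-Lam (ww v) z) := by
    rw [← Real.exp_add]; congr 1; ring
  rw [Real.exp_add, Real.exp_add] at h2
  calc _ ≤ AA K C2 * X * mu v z ^ 2 * Real.exp (-2 * Lam (ww v) z) * ((2 * E + 1) * Real.log z *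
        (Real.exp (Lam (ww v) z) * Real.exp 8 * (4 * (Real.exp CM * f * Real.exp 8)))) := by
        refine mul_le_mul_of_nonneg_left (h2.trans ?_) (by positivity)
        gcongr
    _ = AA K C2 * ((2 * E + 1) * (Real.exp (-Lam (ww v) z) * Real.log z) * Real.exp 8 *
        (4 * (Real.exp CM * f) * Real.exp 8)) * mu v z ^ 2 * X := by rw [← h6]; ring
    _ ≤ _ := by gcongr

end UI

open UI in
theorem UI (h0 : MertensStmt) (h1 : SMStmt) (h2 : U2Stmt) (h3 : OCStmt) : UIStmt := by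
  obtain ⟨CM, hM⟩ := h0
  obtain ⟨K, hK⟩ := h1
  obtain ⟨u, hu⟩ := hK 1 one_pos
  refine ⟨max |K| 2, u, fun v a e f E C2 hKv he hC2 => ?_⟩
  have hKv' : |K| ≤ v := (le_max_left _ _).trans hKv
  have hv : 2 ≤ v := by exact_mod_cast (le_max_right _ _).trans hKv
  obtain ⟨z1, hz1⟩ := hu v a e f (16 * C2 ^ 6) ((le_abs_self K).trans hKv') he
    (by linarith [one_le_pow₀ (n := 6) hC2])
  obtain ⟨z2, hz2⟩ := exp_Lam_le 5
  obtain ⟨KO, hO⟩ := h3 v E C2 hC2
  set K2 := AA K C2 * ((2 * E + 1) * (Real.exp CM * Real.log (ww v)) * Real.exp 8 *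
    (4 * (Real.exp CM * f) * Real.exp 8)) with hK2
  refine ⟨4 * Real.sqrt (|KO| * (K2 + 4 * (4 * (|KO| * (2 * C2)) + |KO| * (2 * C2) * K2 + 1))),
    max (max z1 z2) (max (7 * C2 ^ 3) (ww v)), fun z X x F B hz hX hE hx hx3 hB hF => ?_⟩
  simp only [max_le_iff] at hz
  obtain ⟨⟨a1, a2⟩, a3, a4⟩ := hz
  have hw := two_lt_ww hv
  have hX1 : 1 ≤ X := (one_le_pow₀ (by linarith)).trans hX
  have hSM : SMin K v a e f (16 * C2 ^ 6) z X x := fun Y0 S ρ C D T wmax w b1 b2 b3 b4 b5 b6 =>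
    hz1 z X Y0 x 1 S ρ C D T wmax w a1 hX b1 hx
      ⟨squarefree_one, fun l hl hd => absurd (Nat.dvd_one.1 hd) hl.one_lt.ne'⟩ b2 b3 b4 b5 b6
  have hB' : (B.card : ℝ) ≤ 2 * C2 * X := by
    have h4 : B ⊆ range (⌊C2 * X⌋₊ + 1) := fun n hn =>
      mem_range.2 (Nat.lt_succ_of_le (Nat.le_floor (hB n hn)))
    have h5 : (B.card : ℝ) ≤ (⌊C2 * X⌋₊ + 1 : ℕ) := by
      exact_mod_cast (card_le_card h4).trans_eq (card_range _)
    have h6 := Nat.floor_le (show 0 ≤ C2 * X by positivity)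
    have h7 : 1 ≤ C2 * X := by nlinarith
    push_cast at h5; linarith
  have hR : Real.sqrt (X * B.card) ≤ 2 * C2 * X := by
    rw [Real.sqrt_le_left (by positivity)]
    have : X * B.card ≤ X * (2 * C2 * X) := by gcongr
    have h8 : 0 ≤ C2 * X ^ 2 := by positivity
    nlinarith
  have hK20 : 0 ≤ K2 := by
    have := Real.log_nonneg (show 1 ≤ ww v by linarith)
    rw [hK2]; unfold AA; positivity
  choose ep hep using fun s : Sq => exists_unit_sector (be v z s)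
  rw [← sum_fiberwise_of_maps_to (s := F) (t := ({1, -1, ⟨0, 1⟩, ⟨0, -1⟩} : Finset GI)) (g := ep)
    (fun s _ => by simpa using unit_cases (hep s).1)]
  refine (sum_le_card_nsmul _ _ (Real.sqrt (|KO| * (K2 + 4 * (4 * (|KO| * (2 * C2)) +
    |KO| * (2 * C2) * K2 + 1))) * mu v z * Real.sqrt (X * Real.sqrt (X * B.card)))
    fun ε hε => ?_).trans ?_
  · have hε' : IsUnit ε := by
      simp only [mem_insert, mem_singleton] at hε
      rcases hε with rfl | rfl | rfl | rfl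
      exacts [isUnit_one, isUnit_one.neg, isUnit_I, isUnit_negI]
    set G := F.filter (fun s => ep s = ε) with hG
    have hg : ∀ s ∈ G, Good v a e f C2 z X x ε s := fun s hs => by
      obtain ⟨b1, b2⟩ := mem_filter.1 hs
      obtain ⟨c1, c2, c3, -, c5⟩ := hF s b1
      exact ⟨c1, c2, c3, c5, b2 ▸ (hep s).2⟩
    refine final_alg (n := (G.image (obj v z ε)).card) (sum_nonneg fun s _ => W_nonneg hx v z s)
      (Real.exp_pos _) (by linarith) (Real.sqrt_nonneg _) (abs_nonneg _) (by positivity) hK20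
      (by positivity) ((hO z X B _ (by linarith) hX1 hE hB fun o ho => ?_).trans
        (mul_le_mul_of_nonneg_right (le_abs_self _) (Real.sqrt_nonneg _))) hR
      (fixed hSM hx hx3 hε' he hv hKv' hC2 a3 hX (by exact_mod_cast hz2 _ z a2) hE hM a4 hg) ?_
    · obtain ⟨s, hs, rfl⟩ := mem_image.1 ho
      obtain ⟨c1, c2, -, c4, -⟩ := hF s (mem_filter.1 hs).1
      exact ⟨det_gam hε' c1, (inn_gam (v := v) (z := z) hε').symm ▸ c4, sm_bb hε' c2,
        ((Dvd.intro_left _ (rho_eq v z s)).mul_left _).mul_left ε, rho_rough hv c2⟩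
    · rw [← sum_fiberwise_of_maps_to (s := G) (g := obj v z ε) fun s hs => mem_image_of_mem _ hs]
      exact sq_sum_le_card_mul_sum_sq
  · have h4 : ((({1, -1, ⟨0, 1⟩, ⟨0, -1⟩} : Finset GI).card : ℕ) : ℝ) ≤ 4 := by
      exact_mod_cast card_le_four
    rw [nsmul_eq_mul, mul_assoc 4, mul_assoc 4]
    exact mul_le_mul_of_nonneg_right h4 (by have : 0 < mu v z := Real.exp_pos _; positivity)

end Pool.Agent.Lib.LQ
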