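import Pool.Agent.Lib.LQ.Basic

/-! Block V1 of the project LQ: concentration in the first view. -/

set_option autoImplicit false

open Finset
open scoped Classical

noncomputable section

namespace Pool.Agent.Lib.LQ

open Pool.Agent.Lib.MP_de94cf_nt (gg det inn)

namespace V1

/-- Chebyshev -/
lemma cheb {ι : Type*} (A : Finset ι) (Z : ι → ℝ) {μ τ : ℝ} (hμ : 0 < μ) (hτ : τ ≤ μ / 2) :
    ((A.filter fun γ => Z γ < τ).card : ℝ) * (μ ^ 2 / 4) ≤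
      ∑ γ ∈ A, Z γ ^ 2 - 2 * μ * ∑ γ ∈ A, Z γ + μ ^ 2 * A.card := by
  have e : ∑ γ ∈ A, Z γ ^ 2 - 2 * μ * ∑ γ ∈ A, Z γ + μ ^ 2 * A.card =
      ∑ γ ∈ A, (Z γ - μ) ^ 2 := by
    have : ∀ γ, (Z γ - μ) ^ 2 = Z γ ^ 2 - 2 * μ * Z γ + μ ^ 2 := fun γ => by ring
    simp only [this, sum_add_distrib, sum_sub_distrib, ← mul_sum, sum_const, nsmul_eq_mul]
    ring
  rw [e]
  calc ((A.filter fun γ => Z γ < τ).card : ℝ) * (μ ^ 2 / 4)
      = ∑ γ ∈ A.filter (fun γ => Z γ < τ), μ ^ 2 / 4 := by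
        rw [sum_const, nsmul_eq_mul]
    _ ≤ ∑ γ ∈ A.filter (fun γ => Z γ < τ), (Z γ - μ) ^ 2 := by
        refine sum_le_sum fun γ hγ => ?_
        have h := (mem_filter.1 hγ).2
        nlinarith
    _ ≤ ∑ γ ∈ A, (Z γ - μ) ^ 2 :=
        sum_le_sum_of_subset_of_nonneg (filter_subset _ _) fun _ _ _ => sq_nonneg _

/-- the variance computation -/
lemma var_bound {S1 S2 cA N μ η A wm d E1 E2 E3 : ℝ} (hN : 0 ≤ N) (hμ : 0 < μ) (hη : 0 ≤ η)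
    (hd : d ≤ η) (hd1 : d ≤ 1) (hd0 : 0 ≤ d) (hE2 : 0 ≤ E2) (hS1 : 0 ≤ S1)
    (h2 : S2 ≤ N * μ ^ 2 * (1 + 2 * η + 3 * η * A) + 4 * wm * S1 + E1)
    (h1 : (1 - η) * N * μ - E2 ≤ S1) (hA : cA ≤ (1 + 5 * η) * N + E3)
    (hw : 4 * wm ≤ d * μ) :
    S2 - 2 * μ * S1 + μ ^ 2 * cA ≤
      N * μ ^ 2 * (η * (10 + 3 * A)) + E1 + 2 * μ * E2 + μ ^ 2 * E3 := by
  have a1 : 4 * wm * S1 ≤ d * μ * S1 := mul_le_mul_of_nonneg_right hw hS1
  have a2 : (2 - d) * μ * ((1 - η) * N * μ - E2) ≤ (2 - d) * μ * S1 :=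
    mul_le_mul_of_nonneg_left h1 (mul_nonneg (by linarith) hμ.le)
  have a3 : μ ^ 2 * cA ≤ μ ^ 2 * ((1 + 5 * η) * N + E3) :=
    mul_le_mul_of_nonneg_left hA (sq_nonneg _)
  have hNμ : 0 ≤ N * μ ^ 2 := mul_nonneg hN (sq_nonneg _)
  have a4 : N * μ ^ 2 * (2 - 3 * η) ≤ N * μ ^ 2 * ((2 - d) * (1 - η)) :=
    mul_le_mul_of_nonneg_left (by nlinarith [mul_nonneg hd0 hη]) hNμ
  have a5 : 0 ≤ d * μ * E2 := mul_nonneg (mul_nonneg hd0 hμ.le) hE2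
  nlinarith

lemma sS_nonneg (S : Finset GI) : 0 ≤ sS S :=
  sum_nonneg fun _ _ => by positivity

lemma sS_le {v a f : ℕ} {z : ℝ} {S : Finset GI} {ρ : GI} (h : Lab v a f z S ρ) :
    sS S ≤ sg (nm (pr S * ρ)) := by
  have hsf : Squarefree (nm (pr S)) := by
    have := h.sf
    rw [nm_mul] at this
    exact this.of_mul_left
  have hinj := nm_injOn h.sub hsf
  have hne : nm (pr S * ρ) ≠ 0 := h.sf.ne_zero
  have hsub : S.image nm ⊆ (nm (pr S * ρ)).primeFactors := by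
    rw [← primeFactors_nm_pr h.sub]
    exact Nat.primeFactors_mono (nm_dvd (dvd_mul_right _ _)) hne
  unfold sS sg
  calc ∑ π ∈ S, 1 / (nm π : ℝ) = ∑ l ∈ S.image nm, 1 / (l : ℝ) := by
        rw [sum_image fun x hx y hy e => hinj hx hy e]
    _ ≤ ∑ l ∈ S.image nm, 1 / Real.sqrt l := by
        refine sum_le_sum fun l hl => ?_
        have hp : 1 ≤ l := (Nat.prime_of_mem_primeFactors (hsub hl)).one_le
        have hp' : (1 : ℝ) ≤ l := by exact_mod_cast hp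
        have hs : 0 < Real.sqrt l := Real.sqrt_pos.2 (by linarith)
        refine one_div_le_one_div_of_le hs ?_
        rw [Real.sqrt_le_left (by linarith)]
        nlinarith
    _ ≤ ∑ l ∈ (nm (pr S * ρ)).primeFactors, 1 / Real.sqrt l :=
        sum_le_sum_of_subset_of_nonneg hsub fun _ _ _ => by positivity

lemma x0_ok : x0.OK := by
  constructor <;> simp only [x0] <;> norm_num

lemma wok (v : ℕ) : WOK v (WW v) := by
  refine ⟨squarefree_primorial _, fun l hl hd => ?_⟩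
  have := hl.dvd_primorial_iff.1 hd
  unfold ww
  exact_mod_cast this

lemma th_x0 {S : Finset GI} {t : Tt} (h2 : t.S2 ⊆ S) (h3 : t.S3 ⊆ S) (hd : Disjoint t.S2 t.S3) :
    th x0 S t = (1 / 3) ^ S.card := by
  have hu : t.S2 ∪ t.S3 ⊆ S := union_subset h2 h3
  have e : (S \ (t.S2 ∪ t.S3)).card + t.S2.card + t.S3.card = S.card := by
    have := card_sdiff_add_card_eq_card hu
    rw [card_union_of_disjoint hd] at this
    omega
  simp only [th, x0]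
  rw [← pow_add, ← pow_add, e]

lemma omx_le {v : ℕ} {z : ℝ} {n : ℕ} {L a b : GI} (e : L = a * b)
    (hb : ∀ π ∈ GF (ww v) z, π ∣ b → nm π ∣ n) : omx v z n L ≤ om (ww v) z a := by
  unfold omx om
  refine card_le_card fun π hπ => ?_
  obtain ⟨h1, h2⟩ := mem_filter.1 hπ
  obtain ⟨h3, h4⟩ := mem_sm.1 h1
  rw [e] at h4
  rcases (GF_prime h3).dvd_or_dvd h4 with h | h
  · exact mem_sm.2 ⟨h3, h⟩
  · exact absurd (hb π h3 h) h2

lemma w1_nonneg (v a1 e f : ℕ) (z : ℝ) (S : Finset GI) (ρ : GI) (t : Tt) (γ : GI × GI) :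
    0 ≤ w1 v a1 e f z S ρ t γ := by
  unfold w1
  have := ind_nonneg (star t.Q ∣ t.L3 γ ∧ (mkSq ρ γ t).Core v (3 * a1) e f z ∧
      0.28 * Lam (ww v) z ≤ (om (ww v) z (mkSq ρ γ t).a3 : ℝ) + om (ww v) z (mkSq ρ γ t).a4)
  positivity

lemma w1_le_phi (h5 : MKStmt) {v a1 e f : ℕ} {z Y0 : ℝ} {S : Finset GI} {ρ : GI} {W1 C D : ℕ}
    {C1 : ℝ} {t : Tt} {γ : GI × GI} (hz : 0 < z) (hL : Lab v (3 * a1) f z S ρ)
    (ht : Adm v (3 * a1) e f z S ρ W1 Y0 C1 t) (hγ : γ ∈ Aset v z S ρ C D) :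
    w1 v a1 e f z S ρ t γ ≤ phi v z x0 S ρ t γ := by
  obtain ⟨hB, hs1, hs2, hρ⟩ := mem_filter.1 hγ
  have hdet : det γ.1 γ.2 = 1 := (mem_filter.1 hB).2.2.2.2
  have hphi : ∀ p : Prop, ¬ p → ind p * (1 / 3) ^ S.card *
      (1 / 6) ^ (om (ww v) z (mkSq ρ γ t).a3 + om (ww v) z (mkSq ρ γ t).a4 + om (ww v) z t.Q) ≤
      phi v z x0 S ρ t γ := by
    intro p hp
    rw [ind_false hp, zero_mul, zero_mul]
    unfold phi
    rw [th_x0 ht.sub2 ht.sub3 ht.disj]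
    have := ind_nonneg (star t.Q ∣ t.L3 γ)
    simp only [x0]
    positivity
  unfold w1
  by_cases hp : star t.Q ∣ t.L3 γ ∧ (mkSq ρ γ t).Core v (3 * a1) e f z ∧
      0.28 * Lam (ww v) z ≤ (om (ww v) z (mkSq ρ γ t).a3 : ℝ) + om (ww v) z (mkSq ρ γ t).a4
  swap
  · exact hphi _ hp
  obtain ⟨-, -, -, e3, e4, -⟩ :=
    h5 v (3 * a1) e f z S ρ W1 Y0 C1 t γ hz hL ht hdet hs1 hs2 hρ hp.1
  have d2 : pr t.S2 ∣ pr S := prod_dvd_prod_of_subset _ _ _ ht.sub2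
  have d3 : pr t.S3 ∣ pr S := prod_dvd_prod_of_subset _ _ _ ht.sub3
  have hq : ∀ π : GI, π ∣ star t.Q → nm π ∣ nm (pr S) * t.q := fun π h => by
    have := nm_dvd h
    rw [nm_star] at this
    exact Dvd.dvd.mul_left this _
  have hS : ∀ π : GI, π ∣ pr S → nm π ∣ nm (pr S) * t.q := fun π h =>
    Dvd.dvd.mul_right (nm_dvd h) _
  have o3 : omx v z (nm (pr S) * t.q) (t.L3 γ) ≤ om (ww v) z (mkSq ρ γ t).a3 := by
    refine omx_le e3 fun π hπ hd => ?_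
    rcases (GF_prime hπ).dvd_or_dvd hd with h | h
    · exact hS π (h.trans d2)
    · exact hq π h
  have o4 : omx v z (nm (pr S) * t.q) (t.L4 ρ γ) ≤ om (ww v) z (mkSq ρ γ t).a4 := by
    refine omx_le e4 fun π hπ hd => ?_
    rcases (GF_prime hπ).dvd_or_dvd hd with h | h
    · rcases (GF_prime hπ).dvd_or_dvd h with h | h
      · exact hS π (h.trans d2)
      · rcases (GF_prime hπ).dvd_or_dvd h with h | h
        · exact hS π (h.trans d3)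
        · have hP := mem_PP.1 (mem_GF.1 hπ).1
          have := hL.rough _ hP.1 (nm_dvd h)
          linarith [hP.2.2.2]
    · exact hq π h
  unfold phi
  rw [ind_true hp, ind_true hp.1, th_x0 ht.sub2 ht.sub3 ht.disj]
  simp only [x0]
  have p3 : ((1 : ℝ) / 6) ^ om (ww v) z (mkSq ρ γ t).a3 ≤
      (1 / 6) ^ omx v z (nm (pr S) * t.q) (t.L3 γ) :=
    pow_le_pow_of_le_one (by norm_num) (by norm_num) o3
  have p4 : ((1 : ℝ) / 6) ^ om (ww v) z (mkSq ρ γ t).a4 ≤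
      (1 / 6) ^ omx v z (nm (pr S) * t.q) (t.L4 ρ γ) :=
    pow_le_pow_of_le_one (by norm_num) (by norm_num) o4
  rw [pow_add, pow_add]
  calc (1 : ℝ) * (1 / 3) ^ S.card * ((1 / 6) ^ om (ww v) z (mkSq ρ γ t).a3 *
        (1 / 6) ^ om (ww v) z (mkSq ρ γ t).a4 * (1 / 6) ^ om (ww v) z t.Q)
      = (1 / 3) ^ S.card * (1 / 6) ^ om (ww v) z t.Q * 1 *
        (1 / 6) ^ om (ww v) z (mkSq ρ γ t).a3 * (1 / 6) ^ om (ww v) z (mkSq ρ γ t).a4 := by ring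
    _ ≤ _ := by gcongr

lemma third_le (n : ℕ) : ((1 : ℝ) / 3) ^ n ≤ Real.exp (-(n : ℝ)) := by
  have h : (1 : ℝ) / 3 ≤ Real.exp (-1) := by
    rw [Real.exp_neg, one_div]
    exact inv_anti₀ (Real.exp_pos _) (by linarith [Real.exp_one_lt_d9])
  calc ((1 : ℝ) / 3) ^ n ≤ Real.exp (-1) ^ n := by gcongr
    _ = Real.exp (-(n : ℝ)) := by rw [← Real.exp_nat_mul]; ring_nf

lemma sixth_le (n : ℕ) : ((1 : ℝ) / 6) ^ n ≤ Real.exp (-(1.5 * (n : ℝ))) := by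
  have h : (1 : ℝ) / 6 ≤ Real.exp (-1.5) := by
    rw [Real.exp_neg, one_div]
    refine inv_anti₀ (Real.exp_pos _) ?_
    have h3 : Real.exp 1 ≤ 3 := by linarith [Real.exp_one_lt_d9]
    have e : Real.exp 1.5 ^ 2 = Real.exp 1 ^ 3 := by
      rw [← Real.exp_nat_mul, ← Real.exp_nat_mul]; norm_num
    have : Real.exp 1 ^ 3 ≤ 3 ^ 3 := by gcongr
    nlinarith [Real.exp_pos 1.5]
  calc ((1 : ℝ) / 6) ^ n ≤ Real.exp (-1.5) ^ n := by gcongr
    _ = Real.exp (-(1.5 * (n : ℝ))) := by rw [← Real.exp_nat_mul]; ring_nf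

lemma w1_le_max {v a1 e f : ℕ} {z C0 : ℝ} {S : Finset GI} {ρ : GI} {t : Tt} {γ : GI × GI}
    (hS : 1.9 * Lam (ww v) z - C0 ≤ (S.card : ℝ))
    (hQ : 0.14 * Lam (ww v) z ≤ (om (ww v) z t.Q : ℝ)) :
    w1 v a1 e f z S ρ t γ ≤ Real.exp (C0 - 2.53 * Lam (ww v) z) := by
  unfold w1
  by_cases hp : star t.Q ∣ t.L3 γ ∧ (mkSq ρ γ t).Core v (3 * a1) e f z ∧
      0.28 * Lam (ww v) z ≤ (om (ww v) z (mkSq ρ γ t).a3 : ℝ) + om (ww v) z (mkSq ρ γ t).a4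
  swap
  · rw [ind_false hp, zero_mul, zero_mul]
    exact (Real.exp_pos _).le
  rw [ind_true hp, one_mul]
  refine (mul_le_mul (third_le _) (sixth_le _) (by positivity) (Real.exp_pos _).le).trans ?_
  rw [← Real.exp_add, Real.exp_le_exp]
  have := hp.2.2
  push_cast
  linarith

/-- the sum over sieving primes tends to infinity -/
lemma Lam_large (h0 : MertensStmt) {w : ℝ} (hw : 2 ≤ w) (B : ℝ) :
    ∃ z0 : ℝ, ∀ z : ℝ, z0 ≤ z → B ≤ Lam w z := by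
  obtain ⟨C, hC⟩ := h0
  have hl : 0 < Real.log w := Real.log_pos (by linarith)
  refine ⟨max w (Real.exp (Real.log w * Real.exp (B + C))), fun z hz => ?_⟩
  have h1 : w ≤ z := (le_max_left _ _).trans hz
  have h2 : Real.exp (Real.log w * Real.exp (B + C)) ≤ z := (le_max_right _ _).trans hz
  have h3 : Real.log w * Real.exp (B + C) ≤ Real.log z :=
    (Real.le_log_iff_exp_le (by linarith)).2 h2
  have h4 : Real.exp (B + C) ≤ Real.log z / Real.log w := by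
    rw [le_div_iff₀ hl]; linarith
  have h5 : B + C ≤ Real.log (Real.log z / Real.log w) :=
    (Real.le_log_iff_exp_le ((Real.exp_pos _).trans_le h4)).2 h4
  have := (abs_le.1 (hC w z hw h1)).1
  linarith

lemma exp_le {K K0 s v : ℝ} (hK : |K| ≤ K0) (hs0 : 0 ≤ s) (hs : s ≤ 1 / v) (hv : 0 < v)
    (hKv : K0 ≤ v) : Real.exp (K * s) ≤ 1 + 2 * (K0 / v) := by
  have hK0 : 0 ≤ K0 := (abs_nonneg _).trans hK
  have h1 : K * s ≤ K0 / v := by
    calc K * s ≤ K0 * s := mul_le_mul_of_nonneg_right ((le_abs_self _).trans hK) hs0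
      _ ≤ K0 * (1 / v) := mul_le_mul_of_nonneg_left hs hK0
      _ = K0 / v := by ring
  have h2 : 0 ≤ K0 / v := by positivity
  have h3 : K0 / v ≤ 1 := (div_le_one hv).2 hKv
  have h4 := Real.abs_exp_sub_one_le (x := K0 / v) (by rwa [abs_of_nonneg h2])
  rw [abs_of_nonneg h2] at h4
  have := (abs_le.1 h4).2
  linarith [Real.exp_le_exp.2 h1]

/-- the error terms -/
lemma err_le {z X μ T : ℝ} {f : ℕ} (hz : 40 ≤ z) (hf : 1 ≤ f) (hX : z ^ (4000 * f) ≤ X)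
    (hμ : 0 < μ) (hμ' : 1 ≤ μ * z ^ 2) (hT0 : 0 ≤ T) (hT : T ≤ z ^ (3 * f)) :
    X ^ (0.95 : ℝ) + 2 * μ * (T * X ^ (0.93 : ℝ)) + μ ^ 2 * X ^ (0.93 : ℝ) ≤
      X ^ (0.97 : ℝ) * (μ ^ 2 / 4) := by
  have hz1 : 1 ≤ z := by linarith
  have hX1 : 1 ≤ X := (one_le_pow₀ hz1).trans hX
  have hX0 : 0 < X := by linarith
  have hY : z ^ (80 * f) ≤ X ^ (0.02 : ℝ) := by
    calc z ^ (80 * f) = (z ^ (4000 * f)) ^ (0.02 : ℝ) := by
          rw [← Real.rpow_natCast, ← Real.rpow_natCast, ← Real.rpow_mul (by linarith)]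
          congr 1
          push_cast
          ring
      _ ≤ X ^ (0.02 : ℝ) := Real.rpow_le_rpow (by positivity) hX (by norm_num)
  have e1 : X ^ (0.97 : ℝ) = X ^ (0.95 : ℝ) * X ^ (0.02 : ℝ) := by
    rw [← Real.rpow_add hX0]; norm_num
  have h93 : X ^ (0.93 : ℝ) ≤ X ^ (0.95 : ℝ) :=
    Real.rpow_le_rpow_of_exponent_le hX1 (by norm_num)
  set P := X ^ (0.95 : ℝ) with hP
  set U := z ^ (3 * f + 4) with hU
  have hP0 : 0 ≤ P := by positivity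
  have hU4 : z ^ 4 ≤ U := pow_le_pow_right₀ hz1 (by omega)
  have hU1 : 1 ≤ U := one_le_pow₀ hz1
  have hUT : T * z ^ 2 ≤ U := by
    calc T * z ^ 2 ≤ z ^ (3 * f) * z ^ 2 := by gcongr
      _ = z ^ (3 * f + 2) := by rw [pow_add]
      _ ≤ U := pow_le_pow_right₀ hz1 (by omega)
  have hUY : 16 * U ≤ X ^ (0.02 : ℝ) := by
    calc 16 * U ≤ z * U := by gcongr; linarith
      _ = z ^ (3 * f + 5) := by rw [hU]; ring
      _ ≤ z ^ (80 * f) := pow_le_pow_right₀ hz1 (by omega)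
      _ ≤ _ := hY
  have b1 : 1 ≤ μ ^ 2 * U := by
    calc (1 : ℝ) ≤ (μ * z ^ 2) ^ 2 := one_le_pow₀ hμ'
      _ = μ ^ 2 * z ^ 4 := by ring
      _ ≤ μ ^ 2 * U := by gcongr
  have b2 : μ * T ≤ μ ^ 2 * U := by
    calc μ * T = μ * T * 1 := by ring
      _ ≤ μ * T * (μ * z ^ 2) := by gcongr
      _ = μ ^ 2 * (T * z ^ 2) := by ring
      _ ≤ μ ^ 2 * U := by gcongr
  have b3 : μ ^ 2 ≤ μ ^ 2 * U := le_mul_of_one_le_right (sq_nonneg _) hU1
  calc P + 2 * μ * (T * X ^ (0.93 : ℝ)) + μ ^ 2 * X ^ (0.93 : ℝ)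
      ≤ P + 2 * μ * (T * P) + μ ^ 2 * P := by gcongr
    _ = P * (1 + 2 * (μ * T) + μ ^ 2) := by ring
    _ ≤ P * (4 * (μ ^ 2 * U)) := mul_le_mul_of_nonneg_left (by linarith) hP0
    _ = P * (16 * U) * (μ ^ 2 / 4) := by ring
    _ ≤ P * X ^ (0.02 : ℝ) * (μ ^ 2 / 4) := by gcongr
    _ = _ := by rw [e1]

lemma psi_nonneg (n : ℕ) : 0 ≤ psi n := prod_nonneg fun _ _ => by positivity

lemma Nlab_nonneg (v : ℕ) (z : ℝ) (S : Finset GI) (ρ : GI) (C D : ℕ) : 0 ≤ Nlab v z S ρ C D := by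
  unfold Nlab
  have := psi_nonneg (nm (pr S * ρ))
  positivity

end V1

open V1 in
theorem V1 (h0 : MertensStmt) (h1 : SMStmt) (h2 : U2Stmt) (h3 : L1Stmt) (h4 : SLStmt)
    (h5 : MKStmt) : V1Stmt := by
  obtain ⟨K1, h1⟩ := h1
  obtain ⟨K2, h2⟩ := h2
  obtain ⟨K3, h3⟩ := h3
  obtain ⟨K4, c, u4, hc, h4⟩ := h4
  obtain ⟨K0, hK0⟩ : ∃ K0 : ℝ, K0 = |K1| + |K2| + |K3| + |K4| + 2 := ⟨_, rfl⟩
  have k1 : |K1| ≤ K0 := by linarith [abs_nonneg K2, abs_nonneg K3, abs_nonneg K4]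
  have k2 : |K2| ≤ K0 := by linarith [abs_nonneg K1, abs_nonneg K3, abs_nonneg K4]
  have k3 : |K3| ≤ K0 := by linarith [abs_nonneg K1, abs_nonneg K2, abs_nonneg K4]
  have k4 : |K4| ≤ K0 := by linarith [abs_nonneg K1, abs_nonneg K2, abs_nonneg K3]
  have k0 : 2 ≤ K0 := by linarith [abs_nonneg K1, abs_nonneg K2, abs_nonneg K3, abs_nonneg K4]
  obtain ⟨A, hA⟩ : ∃ A : ℝ, A = 1 + K0 * (4 / c ^ 2) := ⟨_, rfl⟩
  have hA0 : 0 ≤ A := by rw [hA]; positivity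
  refine ⟨K0 + 4 * (10 + 3 * A), c / 2, by positivity, fun δ hδ => ?_⟩
  obtain ⟨d, hd0, hd1, hdδ⟩ : ∃ d : ℝ, 0 < d ∧ d ≤ 1 ∧ d ≤ δ :=
    ⟨min δ 1, lt_min hδ one_pos, min_le_right _ _, min_le_left _ _⟩
  obtain ⟨u1, h1⟩ := h1 d hd0
  obtain ⟨u2, h2⟩ := h2 d hd0
  obtain ⟨u3, h3⟩ := h3 d hd0
  refine ⟨u1 + u2 + u3 + u4, fun v a1 e f C0 hv hu hE => ?_⟩
  have hKv : K0 ≤ v := by linarith
  have hv2 : (2 : ℝ) ≤ v := k0.trans hKv
  have hv0 : (0 : ℝ) < v := by linarith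
  have hE' : ∀ u : ℕ, u ≤ u1 + u2 + u3 + u4 → ExpOK u (3 * a1) e f := fun u h =>
    ⟨hE.1, h.trans hE.2.1, hE.2.2⟩
  have hle : ∀ K : ℝ, |K| ≤ K0 → K ≤ v := fun K h => ((le_abs_self _).trans h).trans hKv
  obtain ⟨z1, h1⟩ := h1 v (3 * a1) e f 2 (hle _ k1) (hE' _ (by omega)) (by norm_num)
  obtain ⟨z2, h2⟩ := h2 v (3 * a1) e f (hle _ k2) (hE' _ (by omega))
  obtain ⟨z3, h3⟩ := h3 v a1 e f (hle _ k3) (by omega) (hE' _ (by omega))
  obtain ⟨z4, h4⟩ := h4 v a1 e f (hle _ k4) (by omega) (hE' _ (by omega))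
  obtain ⟨z5, h6⟩ := exp_Lam_le 3
  have hw : 2 ≤ ww v := by
    unfold ww
    calc (2 : ℝ) ≤ 2 ^ 4 := by norm_num
      _ ≤ (v : ℝ) ^ 4 := by gcongr
  have hW : (0 : ℝ) < (WW v : ℝ) ^ 3 := by
    have : 0 < WW v := primorial_pos _
    positivity
  obtain ⟨W, hWe⟩ : ∃ W : ℝ, W = (WW v : ℝ) ^ 3 := ⟨_, rfl⟩
  rw [← hWe] at hW
  obtain ⟨z6, h7⟩ := Lam_large h0 hw (4 * W * Real.exp C0 / (d * c) / 0.03)
  refine ⟨max (max (max z1 z2) (max z3 z4)) (max (max z5 z6) (max 40 (W / c))),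
    fun z X Y0 S ρ C D hz hX hL hB hS => ?_⟩
  simp only [max_le_iff] at hz
  obtain ⟨⟨⟨hz1, hz2⟩, hz3, hz4⟩, ⟨hz5, hz6⟩, hz7, hz8⟩ := hz
  have hz0 : 0 < z := by linarith
  have hL3 : Lab v (3 * a1) f z S ρ :=
    ⟨hL.lab.sub, hL.lab.sf, hL.lab.rough,
      hL.lab.hiS.trans (pow_le_pow_right₀ (by linarith) (by omega)), hL.lab.hiρ⟩
  have hY0 : 0 < Y0 := lt_of_lt_of_le (by positivity) hL.loY
  have hT : ∀ t ∈ T1 v a1 e f z S ρ Y0, Adm v (3 * a1) e f z S ρ (WW v) Y0 2 t :=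
    fun t ht => (mem_filter.1 ht).2.1
  have hTc : ((T1 v a1 e f z S ρ Y0).card : ℝ) ≤ z ^ (3 * f) :=
    le_trans (by exact_mod_cast card_le_card (filter_subset _ _)) (card_Tall hz7 hE hL3)
  have s1 := (h1 z X Y0 x0 (WW v) S ρ C D (T1 v a1 e f z S ρ Y0)
    (Real.exp (C0 - 2.53 * Lam (ww v) z)) (w1 v a1 e f z S ρ) hz1 hX hY0 x0_ok (wok v) hL3 hB hT
    (Real.exp_pos _).le (fun t ht γ hγ => ⟨w1_nonneg _ _ _ _ _ _ _ _ _,
      w1_le_phi h5 hz0 hL3 (hT t ht) hγ, w1_le_max hS (mem_filter.1 ht).2.2.2.2.1⟩)).2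
  have s2 := (h2 z X S ρ C D hz2 hX hL3 hB).1
  have s3 := fun t ht => h3 z X Y0 S ρ C D t hz3 hX hL hB ht
  have s4 := h4 z Y0 S ρ hz4 hL
  have s6 := h6 (ww v) z hz5
  have s7 := h7 z hz6
  have hΛ := Lam_nonneg (ww v) z
  have hsS : sS S ≤ 1 / v := (sS_le hL.lab).trans hL.sgS
  have hN := Nlab_nonneg v z S ρ C D
  have e1 := exp_le k1 (sS_nonneg S) hsS hv0 hKv
  have e2 := exp_le k2 (sS_nonneg S) hsS hv0 hKv
  have s3' := sum_le_sum s3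
  rw [sum_comm, sum_sub_distrib, ← mul_sum, sum_const, nsmul_eq_mul] at s3'
  have hG : G34 v z x0 * GQ v z x0 = Real.exp (-(5 / 2) * Lam (ww v) z) := by
    unfold G34 GQ
    rw [← Real.exp_add]
    simp only [x0]
    congr 1
    ring
  have hG0 : 0 < G34 v z x0 := Real.exp_pos _
  have hQ0 : 0 < GQ v z x0 := Real.exp_pos _
  unfold Maj at s1
  rw [← hWe] at s1 s4 ⊢
  generalize Lam (ww v) z = Λ at *
  generalize Nlab v z S ρ C D = N at *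
  generalize G34 v z x0 = G at *
  generalize GQ v z x0 = Q at *
  generalize ∑ t ∈ T1 v a1 e f z S ρ Y0, mt v z x0 S t = m at *
  have hm : 0 < m := lt_of_lt_of_le (by positivity) s4
  have hμ : 0 < G * m := by positivity
  have hμ1 : c * Real.exp (-(5 / 2) * Λ) / W ≤ G * m := by
    rw [← hG]
    calc c * (G * Q) / W = G * (c * Q / W) := by ring
      _ ≤ G * m := by gcongr
  obtain ⟨η, hη⟩ : ∃ η : ℝ, η = d + K0 / v := ⟨_, rfl⟩
  have hq0 : 0 ≤ K0 / v := by positivity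
  have hq1 : K0 / v ≤ 1 := (div_le_one hv0).2 hKv
  have hη0 : 0 ≤ η := by linarith
  have hdiv : ∀ K : ℝ, |K| ≤ K0 → |K / v| ≤ K0 / v := fun K h => by
    rw [abs_div, abs_of_pos hv0]; gcongr
  have q1 := abs_le.1 (hdiv _ k1)
  have q2 := abs_le.1 (hdiv _ k2)
  have q3 := abs_le.1 (hdiv _ k3)
  -- second moment
  have t1 : (1 + d + K1 / v) * m ^ 2 + (d + K1 / v) * K1 * (2 * Q / W) ^ 2 ≤
      m ^ 2 * (1 + η * A) := by
    have a1 : (d + K1 / v) * K1 ≤ η * K0 := by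
      refine (le_abs_self _).trans ?_
      rw [abs_mul]
      refine mul_le_mul ?_ k1 (abs_nonneg _) hη0
      rw [abs_le]
      constructor <;> linarith
    have a2 : 2 * Q / W ≤ 2 / c * m := by
      calc 2 * Q / W = 2 / c * (c * Q / W) := by field_simp
        _ ≤ 2 / c * m := by gcongr
    have a3 : (2 * Q / W) ^ 2 ≤ (2 / c * m) ^ 2 := by gcongr
    calc (1 + d + K1 / v) * m ^ 2 + (d + K1 / v) * K1 * (2 * Q / W) ^ 2
        ≤ (1 + η) * m ^ 2 + η * K0 * (2 * Q / W) ^ 2 := by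
          gcongr ?_ * _ + ?_ * _
          linarith [q1.2]
      _ ≤ (1 + η) * m ^ 2 + η * K0 * (2 / c * m) ^ 2 := by gcongr
      _ = m ^ 2 * (1 + η * A) := by rw [hA]; field_simp; ring
  have t2 : Real.exp (K1 * sS S) * N * G ^ 2 *
      ((1 + d + K1 / v) * m ^ 2 + (d + K1 / v) * K1 * (2 * Q / W) ^ 2) ≤
      N * (G * m) ^ 2 * (1 + 2 * η + 3 * η * A) := by
    have hηA : 0 ≤ η * A := mul_nonneg hη0 hA0
    calc _ ≤ Real.exp (K1 * sS S) * N * G ^ 2 * (m ^ 2 * (1 + η * A)) := by gcongr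
      _ = N * (G * m) ^ 2 * (Real.exp (K1 * sS S) + Real.exp (K1 * sS S) * (η * A)) := by ring
      _ ≤ N * (G * m) ^ 2 * (1 + 2 * η + 3 * (η * A)) := by gcongr <;> linarith
      _ = _ := by ring
  have t3 : (1 + d + K2 / v) * Real.exp (K2 * sS S) * N ≤ (1 + 5 * η) * N := by
    refine mul_le_mul_of_nonneg_right ?_ hN
    calc (1 + d + K2 / v) * Real.exp (K2 * sS S) ≤ (1 + η) * Real.exp (K2 * sS S) := by
          gcongr ?_ * _
          linarith [q2.2]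
      _ = Real.exp (K2 * sS S) + η * Real.exp (K2 * sS S) := by ring
      _ ≤ 1 + 2 * η + η * 3 := by gcongr <;> linarith
      _ = _ := by ring
  have t4 : (1 - η) * N * (G * m) ≤ (1 - d - K3 / v) * N * G * m := by
    calc (1 - η) * N * (G * m) ≤ (1 - d - K3 / v) * N * (G * m) := by
          gcongr ?_ * _ * _
          linarith [q3.2]
      _ = _ := by ring
  have t5 : 4 * Real.exp (C0 - 2.53 * Λ) ≤ d * (G * m) := by
    have a1 : 4 * W * Real.exp C0 / (d * c) ≤ Real.exp (0.03 * Λ) := by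
      have := Real.add_one_le_exp (0.03 * Λ)
      rw [div_le_iff₀ (by norm_num)] at s7
      linarith
    rw [div_le_iff₀ (by positivity)] at a1
    have a2 : Real.exp (-(5 / 2) * Λ) = Real.exp (0.03 * Λ) * Real.exp (-(2.53 * Λ)) := by
      rw [← Real.exp_add]; congr 1; ring
    calc 4 * Real.exp (C0 - 2.53 * Λ) = 4 * W * Real.exp C0 * Real.exp (-(2.53 * Λ)) / W := by
          rw [sub_eq_add_neg, Real.exp_add]; field_simp
      _ ≤ Real.exp (0.03 * Λ) * (d * c) * Real.exp (-(2.53 * Λ)) / W := by gcongr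
      _ = d * (c * Real.exp (-(5 / 2) * Λ) / W) := by rw [a2]; ring
      _ ≤ d * (G * m) := by gcongr
  have t6 : 1 ≤ G * m * z ^ 2 := by
    have a1 : 1 ≤ Real.exp (-(5 / 2) * Λ) * z := by
      calc (1 : ℝ) ≤ Real.exp (-(5 / 2) * Λ + (3 : ℕ) * Λ) :=
            Real.one_le_exp (by push_cast; linarith)
        _ = Real.exp (-(5 / 2) * Λ) * Real.exp ((3 : ℕ) * Λ) := Real.exp_add _ _
        _ ≤ _ := by gcongr
    have a2 : 1 ≤ c / W * z := by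
      rw [div_le_iff₀ hc] at hz8
      rw [div_mul_eq_mul_div, le_div_iff₀ hW]
      linarith
    calc (1 : ℝ) ≤ (c / W * z) * (Real.exp (-(5 / 2) * Λ) * z) := one_le_mul_of_one_le_of_one_le a2 a1
      _ = c * Real.exp (-(5 / 2) * Λ) / W * z ^ 2 := by ring
      _ ≤ _ := by gcongr
  have hX0 : 0 ≤ X := le_trans (by positivity) hX
  have hf : 1 ≤ f := by
    obtain ⟨a, -, b, c⟩ := hE
    omega
  have hS1 : 0 ≤ ∑ γ ∈ Aset v z S ρ C D, ∑ t ∈ T1 v a1 e f z S ρ Y0, w1 v a1 e f z S ρ t γ :=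
    sum_nonneg fun _ _ => sum_nonneg fun _ _ => w1_nonneg _ _ _ _ _ _ _ _ _
  have r1 := var_bound (A := A) (E1 := X ^ (0.95 : ℝ)) (E3 := X ^ (0.93 : ℝ))
    (E2 := (T1 v a1 e f z S ρ Y0).card * X ^ (0.93 : ℝ))
    hN hμ hη0 (by linarith : d ≤ η) hd1 hd0.le (by positivity) hS1
    (s1.trans (by linarith)) (le_trans (by linarith) s3') (s2.trans (by linarith)) t5
  have r2 := cheb (Aset v z S ρ C D)
    (fun γ => ∑ t ∈ T1 v a1 e f z S ρ Y0, w1 v a1 e f z S ρ t γ) hμ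
    (τ := c / 2 * Real.exp (-(5 / 2) * Λ) / W) (by
      calc c / 2 * Real.exp (-(5 / 2) * Λ) / W = c * Real.exp (-(5 / 2) * Λ) / W / 2 := by ring
        _ ≤ G * m / 2 := by gcongr)
  have r3 := err_le hz7 hf hX hμ t6 (Nat.cast_nonneg _) hTc
  refine le_of_mul_le_mul_right ?_ (by positivity : 0 < (G * m) ^ 2 / 4)
  have r4 : η * (10 + 3 * A) ≤
      (δ + (K0 + 4 * (10 + 3 * A)) / v) * (K0 + 4 * (10 + 3 * A)) / 4 := by
    have a1 : η ≤ δ + (K0 + 4 * (10 + 3 * A)) / v := by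
      have : K0 / v ≤ (K0 + 4 * (10 + 3 * A)) / v := by gcongr; linarith
      linarith
    calc η * (10 + 3 * A) = η * (4 * (10 + 3 * A)) / 4 := by ring
      _ ≤ _ := by gcongr; linarith
  have r5 : N * (G * m) ^ 2 * (η * (10 + 3 * A)) ≤ N * (G * m) ^ 2 *
      ((δ + (K0 + 4 * (10 + 3 * A)) / v) * (K0 + 4 * (10 + 3 * A)) / 4) := by gcongr
  calc _ ≤ _ := r2
    _ ≤ _ := r1
    _ ≤ N * (G * m) ^ 2 * ((δ + (K0 + 4 * (10 + 3 * A)) / v) * (K0 + 4 * (10 + 3 * A)) / 4) +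
        X ^ (0.97 : ℝ) * ((G * m) ^ 2 / 4) := by linarith
    _ = _ := by ring

end Pool.Agent.Lib.LQ
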