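import Pool.Agent.Lib.LQ.Defs

/-! Block X1: the van der Corput k-th derivative test. -/

set_option autoImplicit false

open Finset
open scoped Classical

noncomputable section

namespace Pool.Agent.Lib.LQ

namespace X1

/-- mean value theorem on a subinterval -/
theorem mvt (F F' : ℝ → ℝ) (lo hi x d : ℝ) (hd : 0 < d) (hx : lo ≤ x) (hxd : x + d ≤ hi)
    (h : ∀ y ∈ Set.Icc lo hi, HasDerivAt F (F' y) y) :
    ∃ ξ ∈ Set.Icc lo hi, x ≤ ξ ∧ ξ ≤ x + d ∧ F (x + d) - F x = d * F' ξ := by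
  have hsub : Set.Icc x (x + d) ⊆ Set.Icc lo hi := Set.Icc_subset_Icc hx hxd
  obtain ⟨ξ, hξ, he⟩ := exists_hasDerivAt_eq_slope F F' (a := x) (b := x + d) (by linarith)
    (fun y hy => (h y (hsub hy)).continuousAt.continuousWithinAt)
    (fun y hy => h y (hsub (Set.Ioo_subset_Icc_self hy)))
  refine ⟨ξ, hsub (Set.Ioo_subset_Icc_self hξ), hξ.1.le, hξ.2.le, ?_⟩
  rw [he, add_sub_cancel_left]
  field_simp

theorem lip (F F' : ℝ → ℝ) (lo hi M x y : ℝ) (hx : x ∈ Set.Icc lo hi) (hy : y ∈ Set.Icc lo hi)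
    (h : ∀ y ∈ Set.Icc lo hi, HasDerivAt F (F' y) y) (hM : ∀ y ∈ Set.Icc lo hi, |F' y| ≤ M) :
    |F y - F x| ≤ M * |y - x| := by
  have := Convex.norm_image_sub_le_of_norm_hasDerivWithin_le (f := F) (f' := F') (C := M)
    (s := Set.Icc lo hi) (fun z hz => (h z hz).hasDerivWithinAt)
    (fun z hz => by simpa [Real.norm_eq_abs] using hM z hz) (convex_Icc lo hi) hx hy
  simpa [Real.norm_eq_abs] using this

/-- the unit complex number of argument `t` -/
def ee (t : ℝ) : ℂ := Complex.exp (Complex.I * t)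

theorem norm_ee (t : ℝ) : ‖ee t‖ = 1 := by
  unfold ee; exact Complex.norm_exp_I_mul_ofReal t

theorem ee_add (s t : ℝ) : ee (s + t) = ee s * ee t := by
  unfold ee; rw [← Complex.exp_add]; congr 1; push_cast; ring

theorem ee_conj (s t : ℝ) : ee s * (starRingEnd ℂ) (ee t) = ee (s - t) := by
  unfold ee
  rw [← Complex.exp_conj, ← Complex.exp_add]
  congr 1
  simp only [map_mul, Complex.conj_I, Complex.conj_ofReal]
  push_cast; ring

theorem ee_lip (s t : ℝ) : ‖ee s - ee t‖ ≤ |s - t| := by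
  have h1 : ee s - ee t = ee t * (ee (s - t) - 1) := by
    rw [mul_sub, ← ee_add]; simp
  rw [h1, norm_mul, norm_ee, one_mul]
  have := Real.norm_exp_I_mul_ofReal_sub_one_le (x := s - t)
  simpa [ee, Real.norm_eq_abs] using this

theorem ee_low (t : ℝ) (ht : |t| ≤ 1) : |t| / 2 ≤ ‖ee t - 1‖ := by
  have h1 : (ee t - 1).im = Real.sin t := by
    unfold ee
    rw [mul_comm]
    simp [Complex.exp_ofReal_mul_I_im]
  have h2 : |(ee t - 1).im| ≤ ‖ee t - 1‖ := Complex.abs_im_le_norm _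
  have h3 : 2 / Real.pi * |t| ≤ |Real.sin t| :=
    Real.mul_abs_le_abs_sin (by have := Real.pi_gt_three; linarith)
  have h4 : (1 / 2 : ℝ) ≤ 2 / Real.pi := by
    rw [div_le_div_iff₀ (by norm_num) Real.pi_pos]
    have := Real.pi_le_four; linarith
  have h5 : 0 ≤ |t| := abs_nonneg t
  rw [h1] at h2
  nlinarith

/-- summation by parts -/
theorem abel (z c : ℕ → ℂ) (B δ : ℝ) (m : ℕ) (hz : ∀ i, ‖z i‖ ≤ 1)
    (hc : ∀ i ≤ m, z i = c i * (z (i + 1) - z i)) (hB : ∀ i ≤ m, ‖c i‖ ≤ B)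
    (hδ : ∀ i < m, ‖c i - c (i + 1)‖ ≤ δ) :
    ‖∑ i ∈ range (m + 1), z i‖ ≤ 2 * B + m * δ := by
  have key : ∀ k ≤ m, ‖∑ i ∈ range (k + 1), z i - c k * z (k + 1)‖ ≤ B + k * δ := by
    intro k
    induction k with
    | zero =>
      intro h0
      have h1 : ∑ i ∈ range (0 + 1), z i - c 0 * z (0 + 1) = -(c 0 * z 0) := by
        rw [sum_range_one]
        linear_combination hc 0 h0
      rw [h1, norm_neg, norm_mul]
      have := hB 0 h0
      have := hz 0
      have := norm_nonneg (c 0)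
      have := norm_nonneg (z 0)
      simp only [Nat.cast_zero, zero_mul, add_zero]
      nlinarith
    | succ k ih =>
      intro hk
      have h1 : ∑ i ∈ range (k + 1 + 1), z i - c (k + 1) * z (k + 1 + 1) =
          (∑ i ∈ range (k + 1), z i - c k * z (k + 1)) + (c k - c (k + 1)) * z (k + 1) := by
        rw [sum_range_succ _ (k + 1)]
        linear_combination hc (k + 1) hk
      rw [h1]
      have h2 := ih (by omega)
      have h3 : ‖(c k - c (k + 1)) * z (k + 1)‖ ≤ δ := by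
        rw [norm_mul]
        have := hδ k (by omega)
        have := hz (k + 1)
        have := norm_nonneg (c k - c (k + 1))
        have := norm_nonneg (z (k + 1))
        nlinarith
      have h4 := norm_add_le (∑ i ∈ range (k + 1), z i - c k * z (k + 1))
        ((c k - c (k + 1)) * z (k + 1))
      push_cast
      linarith
  have h1 := key m le_rfl
  have h2 : ‖c m * z (m + 1)‖ ≤ B := by
    rw [norm_mul]
    have := hB m le_rfl
    have := hz (m + 1)
    have := norm_nonneg (c m)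
    have := norm_nonneg (z (m + 1))
    nlinarith
  have h3 := norm_add_le (∑ i ∈ range (m + 1), z i - c m * z (m + 1)) (c m * z (m + 1))
  rw [sub_add_cancel] at h3
  linarith

theorem triv (g : ℕ → ℝ) (m : ℕ) : ‖∑ i ∈ range m, ee (g i)‖ ≤ m := by
  refine (norm_sum_le _ _).trans ?_
  simp [norm_ee]

/-- first derivative test -/
theorem first (f0 f1 f2 : ℝ → ℝ) (n n' : ℕ) (a lam A : ℝ) (hA : 1 ≤ A) (hn : 1 ≤ n) (hn' : n' ≤ n)
    (hl : 0 < lam) (h0 : ∀ x ∈ Set.Icc a (a + n'), HasDerivAt f0 (f1 x) x)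
    (h1 : ∀ x ∈ Set.Icc a (a + n'), HasDerivAt f1 (f2 x) x)
    (hb : ∀ x ∈ Set.Icc a (a + n'), lam ≤ |f1 x| ∧ |f1 x| ≤ 1 ∧ |f2 x| ≤ A * lam / n) :
    ‖∑ i ∈ range n', ee (f0 (a + i))‖ ≤ 12 * A / lam := by
  rcases Nat.eq_zero_or_pos n' with h | h
  · subst h; simp; positivity
  obtain ⟨m, rfl⟩ : ∃ m, n' = m + 1 := ⟨n' - 1, by omega⟩
  have hnR : (0 : ℝ) < n := by exact_mod_cast hn
  set ψ : ℕ → ℝ := fun i => f0 (a + (i + 1 : ℕ)) - f0 (a + i) with hψ
  have hm : ∀ i ≤ m, ∃ ξ ∈ Set.Icc a (a + (m + 1 : ℕ)), a + i ≤ ξ ∧ ξ ≤ a + i + 1 ∧ ψ i = f1 ξ := by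
    intro i hi
    have hi' : (i : ℝ) ≤ m := by exact_mod_cast hi
    obtain ⟨ξ, h1, h2, h3, h4⟩ := mvt f0 f1 a (a + (m + 1 : ℕ)) (a + i) 1 one_pos
      (by have : (0 : ℝ) ≤ i := Nat.cast_nonneg i
          linarith) (by push_cast; linarith) h0
    refine ⟨ξ, h1, h2, h3, ?_⟩
    simp only [hψ]
    push_cast
    rw [← add_assoc, h4, one_mul]
  have hlow : ∀ i ≤ m, lam / 2 ≤ ‖ee (ψ i) - 1‖ := by
    intro i hi
    obtain ⟨ξ, h1, -, -, h4⟩ := hm i hi
    have := hb ξ h1
    have h5 := ee_low (ψ i) (by rw [h4]; exact this.2.1)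
    rw [h4] at h5 ⊢
    linarith [this.1]
  have hne : ∀ i ≤ m, ee (ψ i) - 1 ≠ 0 := by
    intro i hi h
    have := hlow i hi
    rw [h, norm_zero] at this
    linarith
  have hinv : ∀ i ≤ m, ‖(ee (ψ i) - 1)⁻¹‖ ≤ 2 / lam := by
    intro i hi
    rw [norm_inv]
    calc ‖ee (ψ i) - 1‖⁻¹ ≤ (lam / 2)⁻¹ := inv_anti₀ (by positivity) (hlow i hi)
      _ = 2 / lam := by rw [inv_div]
  have main := abel (fun i => ee (f0 (a + i))) (fun i => (ee (ψ i) - 1)⁻¹) (2 / lam)
    (8 * A / (n * lam)) m (fun i => (norm_ee _).le) ?_ hinv ?_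
  · refine main.trans ?_
    have hmn : (m : ℝ) ≤ n := by exact_mod_cast (by omega : m ≤ n)
    have : (m : ℝ) * (8 * A / (n * lam)) ≤ 8 * A / lam := by
      calc (m : ℝ) * (8 * A / (n * lam)) ≤ n * (8 * A / (n * lam)) := by gcongr
        _ = 8 * A / lam := by field_simp
    have h2 : 2 * (2 / lam) ≤ 4 * A / lam := by
      rw [show 2 * (2 / lam) = 4 * 1 / lam by ring]; gcongr
    calc _ ≤ 4 * A / lam + 8 * A / lam := by linarith
      _ = 12 * A / lam := by ring
  · intro i hi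
    have h2 : ee (f0 (a + (i + 1 : ℕ))) = ee (f0 (a + i)) * ee (ψ i) := by
      rw [← ee_add]; simp only [hψ]; congr 1; ring
    have := hne i hi
    simp only [h2]
    field_simp
  · intro i hi
    have e1 := hne i hi.le
    have e2 := hne (i + 1) hi
    have h2 : (ee (ψ i) - 1)⁻¹ - (ee (ψ (i + 1)) - 1)⁻¹ =
        (ee (ψ i) - 1)⁻¹ * (ee (ψ (i + 1)) - 1)⁻¹ * (ee (ψ (i + 1)) - ee (ψ i)) := by
      field_simp; ring
    obtain ⟨ξ, k1, k2, k3, k4⟩ := hm i hi.le
    obtain ⟨ξ', l1, l2, l3, l4⟩ := hm (i + 1) hi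
    have h3 := lip f1 f2 a _ (A * lam / n) ξ ξ' k1 l1 h1 (fun y hy => (hb y hy).2.2)
    have h4 : |ξ' - ξ| ≤ 2 := by
      push_cast at l2 l3
      rw [abs_le]; constructor <;> linarith
    have h5 : ‖ee (ψ (i + 1)) - ee (ψ i)‖ ≤ A * lam / n * 2 := by
      refine (ee_lip _ _).trans ?_
      rw [k4, l4]
      refine h3.trans ?_
      gcongr
    rw [h2, norm_mul, norm_mul]
    calc _ ≤ 2 / lam * (2 / lam) * (A * lam / n * 2) := by
          gcongr
          · exact hinv i hi.le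
          · exact hinv (i + 1) hi
      _ = 8 * A / (n * lam) := by field_simp; ring

theorem shift (g : ℕ → ℂ) (H m N h : ℕ) (hh : h ≤ H) (hm : m ≤ N)
    (hs : ∀ y, y < H ∨ H + m ≤ y → g y = 0) :
    ∑ x ∈ range (N + H), g (x + h) = ∑ i ∈ range m, g (H + i) := by
  have h1 : ∑ x ∈ range (N + H), g (x + h) = ∑ y ∈ Ico h (h + (N + H)), g y := by
    rw [sum_Ico_eq_sum_range]
    simp only [Nat.add_sub_cancel_left]
    exact sum_congr rfl fun x _ => by rw [add_comm]
  have h2 : ∑ i ∈ range m, g (H + i) = ∑ y ∈ Ico H (H + m), g y := by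
    rw [sum_Ico_eq_sum_range]
    simp only [Nat.add_sub_cancel_left]
  rw [h1, h2]
  symm
  refine sum_subset (Ico_subset_Ico hh (by omega)) fun y _ hy => hs y ?_
  rw [mem_Ico] at hy
  omega

theorem sum_inj (s t : Finset ℕ) (φ : ℕ → ℕ) (D : ℕ → ℝ) (hD : ∀ d, 0 ≤ D d)
    (hi : Set.InjOn φ s) (hm : ∀ x ∈ s, φ x ∈ t) : ∑ x ∈ s, D (φ x) ≤ ∑ d ∈ t, D d := by
  rw [← sum_image (f := D) hi]
  refine sum_le_sum_of_subset_of_nonneg ?_ fun d _ _ => hD d
  intro d hd
  obtain ⟨x, hx, rfl⟩ := mem_image.1 hd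
  exact hm x hx

/-- Weyl differencing -/
theorem weyl (z : ℕ → ℂ) (N H : ℕ) :
    (H : ℝ) ^ 2 * ‖∑ i ∈ range N, z i‖ ^ 2 ≤ (N + H) * (2 * H *
      ∑ d ∈ range H, ‖∑ i ∈ range (N - d), z (i + d) * (starRingEnd ℂ) (z i)‖) := by
  set w : ℕ → ℂ := fun x => if H ≤ x ∧ x < H + N then z (x - H) else 0 with hw
  set D : ℕ → ℝ := fun d => ‖∑ i ∈ range (N - d), z (i + d) * (starRingEnd ℂ) (z i)‖ with hD
  have hD0 : ∀ d, 0 ≤ D d := fun d => norm_nonneg _
  have h1 : ∀ h ∈ range H, ∑ x ∈ range (N + H), w (x + h) = ∑ i ∈ range N, z i := by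
    intro h hh
    rw [shift w H N N h (mem_range.1 hh).le le_rfl]
    · refine sum_congr rfl fun i hi => ?_
      have := mem_range.1 hi
      simp only [hw]
      rw [if_pos (by omega), Nat.add_sub_cancel_left]
    · intro y hy
      simp only [hw]
      rw [if_neg (by omega)]
  have h2 : (H : ℂ) * ∑ i ∈ range N, z i = ∑ x ∈ range (N + H), ∑ h ∈ range H, w (x + h) := by
    rw [sum_comm, sum_congr rfl h1]; simp
  have h3 : ∀ h h', h' ≤ h → h < H →
      ‖∑ x ∈ range (N + H), w (x + h) * (starRingEnd ℂ) (w (x + h'))‖ = D (h - h') := by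
    intro h h' hle hh
    obtain ⟨d, rfl⟩ := Nat.exists_eq_add_of_le hle
    have := shift (fun y => w (y + d) * (starRingEnd ℂ) (w y)) H (N - d) N h' (by omega)
      (by omega) ?_
    · simp only [add_assoc] at this
      rw [this, Nat.add_sub_cancel_left]
      simp only [hD]
      congr 1
      refine sum_congr rfl fun i hi => ?_
      have := mem_range.1 hi
      simp only [hw]
      rw [if_pos (by omega), if_pos (by omega), Nat.add_sub_cancel_left, Nat.add_sub_cancel_left]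
    · intro y hy
      simp only [hw]
      rcases hy with hy | hy
      · rw [if_neg (show ¬(H ≤ y ∧ y < H + N) by omega)]; simp
      · rw [if_neg (show ¬(H ≤ y + d ∧ y + d < H + N) by omega)]; simp
  have h4 : ∀ h ∈ range H, ∑ h' ∈ range H,
      ‖∑ x ∈ range (N + H), w (x + h) * (starRingEnd ℂ) (w (x + h'))‖ ≤
        2 * ∑ d ∈ range H, D d := by
    intro h hh
    have hh' := mem_range.1 hh
    rw [← sum_filter_add_sum_filter_not (range H) (fun h' => h' ≤ h), two_mul]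
    refine add_le_add ?_ ?_
    · refine le_trans (le_of_eq (sum_congr rfl fun h' hx => h3 h h' (mem_filter.1 hx).2 hh')) ?_
      refine sum_inj _ _ (fun h' => h - h') D hD0 ?_ fun x _ => mem_range.2 (by omega)
      intro x hx y hy hxy
      have := (mem_filter.1 (mem_coe.1 hx)).2
      have := (mem_filter.1 (mem_coe.1 hy)).2
      simp only at hxy
      omega
    · have e : ∀ h' ∈ (range H).filter (fun h' => ¬h' ≤ h),
          ‖∑ x ∈ range (N + H), w (x + h) * (starRingEnd ℂ) (w (x + h'))‖ = D (h' - h) := by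
        intro h' hx
        have k1 := (mem_filter.1 hx).2
        have k2 := mem_range.1 (mem_filter.1 hx).1
        rw [← h3 h' h (by omega) k2, ← Complex.norm_conj, map_sum]
        congr 1
        refine sum_congr rfl fun x _ => ?_
        rw [map_mul, Complex.conj_conj, mul_comm]
      refine le_trans (le_of_eq (sum_congr rfl e)) ?_
      refine sum_inj _ _ (fun h' => h' - h) D hD0 ?_ fun x hx => mem_range.2 ?_
      · intro x hx y hy hxy
        have := (mem_filter.1 (mem_coe.1 hx)).2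
        have := (mem_filter.1 (mem_coe.1 hy)).2
        simp only at hxy
        omega
      · have := mem_range.1 (mem_filter.1 hx).1
        omega
  have h5 : ∑ x ∈ range (N + H), ‖∑ h ∈ range H, w (x + h)‖ ^ 2 ≤
      2 * H * ∑ d ∈ range H, D d := by
    have e : ((∑ x ∈ range (N + H), ‖∑ h ∈ range H, w (x + h)‖ ^ 2 : ℝ) : ℂ) =
        ∑ h ∈ range H, ∑ h' ∈ range H, ∑ x ∈ range (N + H),
          w (x + h) * (starRingEnd ℂ) (w (x + h')) := by
      push_cast
      simp only [← Complex.mul_conj', map_sum, sum_mul_sum]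
      rw [sum_comm]
      exact sum_congr rfl fun h _ => sum_comm
    have e2 : ∑ x ∈ range (N + H), ‖∑ h ∈ range H, w (x + h)‖ ^ 2 =
        ‖((∑ x ∈ range (N + H), ‖∑ h ∈ range H, w (x + h)‖ ^ 2 : ℝ) : ℂ)‖ := by
      rw [Complex.norm_real, Real.norm_of_nonneg (sum_nonneg fun _ _ => sq_nonneg _)]
    rw [e2, e]
    calc _ ≤ ∑ h ∈ range H, ∑ h' ∈ range H, ‖∑ x ∈ range (N + H),
          w (x + h) * (starRingEnd ℂ) (w (x + h'))‖ :=
          (norm_sum_le _ _).trans (sum_le_sum fun h _ => norm_sum_le _ _)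
      _ ≤ ∑ h ∈ range H, 2 * ∑ d ∈ range H, D d := sum_le_sum h4
      _ = _ := by simp; ring
  have h6 : (H : ℝ) ^ 2 * ‖∑ i ∈ range N, z i‖ ^ 2 =
      ‖∑ x ∈ range (N + H), ∑ h ∈ range H, w (x + h)‖ ^ 2 := by
    rw [← h2, norm_mul, Complex.norm_natCast, mul_pow]
  rw [h6]
  calc _ ≤ (∑ x ∈ range (N + H), ‖∑ h ∈ range H, w (x + h)‖) ^ 2 := by
        gcongr; exact norm_sum_le _ _
    _ ≤ (range (N + H)).card * ∑ x ∈ range (N + H), ‖∑ h ∈ range H, w (x + h)‖ ^ 2 :=
        sq_sum_le_card_mul_sum_sq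
    _ ≤ _ := by
        rw [card_range]; push_cast
        gcongr

theorem sum_inv_sqrt (H : ℕ) : ∑ d ∈ range H, 1 / Real.sqrt (d + 1) ≤ 2 * Real.sqrt H := by
  induction H with
  | zero => simp
  | succ H ih =>
    rw [sum_range_succ]
    push_cast
    have h0 : (0 : ℝ) ≤ H := Nat.cast_nonneg H
    have h1 := Real.sq_sqrt h0
    have h2 := Real.sq_sqrt (show (0 : ℝ) ≤ H + 1 by linarith)
    have h3 : 0 < Real.sqrt (H + 1) := Real.sqrt_pos.2 (by linarith)
    have h4 : 1 / Real.sqrt (H + 1) ≤ 2 * Real.sqrt (H + 1) - 2 * Real.sqrt H := by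
      rw [div_le_iff₀ h3]
      nlinarith [sq_nonneg (Real.sqrt (H + 1) - Real.sqrt H)]
    linarith

theorem sum_ratio (H : ℕ) (e : ℝ) (he1 : e ≤ 1 / 2) :
    ∑ d ∈ range H, ((H : ℝ) / (d + 1)) ^ e ≤ 2 * H := by
  have h0 : (0 : ℝ) ≤ H := Nat.cast_nonneg H
  calc ∑ d ∈ range H, ((H : ℝ) / (d + 1)) ^ e
      ≤ ∑ d ∈ range H, Real.sqrt H * (1 / Real.sqrt (d + 1)) := by
        refine sum_le_sum fun d hd => ?_
        have hd' : (d : ℝ) + 1 ≤ H := by exact_mod_cast mem_range.1 hd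
        have hp : (0 : ℝ) < d + 1 := by positivity
        have : (1 : ℝ) ≤ H / (d + 1) := by rw [le_div_iff₀ hp]; linarith
        calc _ ≤ ((H : ℝ) / (d + 1)) ^ (1 / 2 : ℝ) := Real.rpow_le_rpow_of_exponent_le this he1
          _ = _ := by rw [← Real.sqrt_eq_rpow, Real.sqrt_div h0]; ring
    _ = Real.sqrt H * ∑ d ∈ range H, 1 / Real.sqrt (d + 1) := by rw [mul_sum]
    _ ≤ Real.sqrt H * (2 * Real.sqrt H) := by gcongr; exact sum_inv_sqrt H
    _ = 2 * H := by have := Real.mul_self_sqrt h0; nlinarith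

theorem main (A : ℝ) (hA : 1 ≤ A) (r : ℕ) : ∃ K : ℝ, 0 ≤ K ∧
    ∀ (f : ℕ → ℝ → ℝ) (n n' H : ℕ) (a lam : ℝ),
    1 ≤ H → H ≤ n → n' ≤ n → 0 < lam →
    (∀ j ≤ r + 1, ∀ x ∈ Set.Icc a (a + n'), HasDerivAt (f j) (f (j + 1) x) x) →
    (∀ x ∈ Set.Icc a (a + n'), lam ≤ |f (r + 1) x| ∧ |f (r + 1) x| ≤ A * lam ∧
      |f (r + 2) x| ≤ A * lam / n) → A * lam * (H : ℝ) ^ r ≤ 1 →
    ‖∑ i ∈ range n', ee (f 0 (a + i))‖ ≤
      K * n * ((1 / (H : ℝ)) ^ ((1 / 2 : ℝ) ^ (r + 1)) +
        (1 / (n * lam * (H : ℝ) ^ r)) ^ ((1 / 2 : ℝ) ^ (r + 1))) := by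
  induction r with
  | zero =>
    refine ⟨Real.sqrt (12 * A), Real.sqrt_nonneg _, ?_⟩
    intro f n n' H a lam hH hHn hn' hl hd hb hs
    have hnR : (0 : ℝ) < n := by exact_mod_cast (by omega : 0 < n)
    simp only [pow_zero, mul_one, zero_add, pow_one] at hs hb ⊢
    have h1 := first (f 0) (f 1) (f 2) n n' a lam A hA (by omega) hn' hl (hd 0 (by omega))
      (hd 1 le_rfl) (fun x hx => ⟨(hb x hx).1, (hb x hx).2.1.trans hs, (hb x hx).2.2⟩)
    have h2 : ‖∑ i ∈ range n', ee (f 0 (a + i))‖ ≤ n :=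
      (triv (fun i => f 0 (a + i)) n').trans (by exact_mod_cast hn')
    have h3 : ‖∑ i ∈ range n', ee (f 0 (a + i))‖ ≤
        Real.sqrt (12 * A) * n * (1 / (n * lam)) ^ (1 / 2 : ℝ) := by
      rw [← Real.sqrt_eq_rpow]
      refine abs_le_of_sq_le_sq' ?_ (by positivity) |>.2
      rw [mul_pow, mul_pow, Real.sq_sqrt (by positivity), Real.sq_sqrt (by positivity)]
      calc _ ≤ n * (12 * A / lam) := by rw [sq]; gcongr
        _ = _ := by field_simp
    refine h3.trans ?_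
    gcongr
    exact le_add_of_nonneg_left (by positivity)
  | succ r ih =>
    obtain ⟨K, hK, ih⟩ := ih
    refine ⟨Real.sqrt (4 + 8 * K), Real.sqrt_nonneg _, ?_⟩
    intro f n n' H a lam hH hHn hn' hl hd hb hs
    have hnR : (0 : ℝ) < n := by exact_mod_cast (by omega : 0 < n)
    have hHR : (1 : ℝ) ≤ H := by exact_mod_cast hH
    have hHnR : (H : ℝ) ≤ n := by exact_mod_cast hHn
    have hn'R : (n' : ℝ) ≤ n := by exact_mod_cast hn'
    set e : ℝ := (1 / 2 : ℝ) ^ (r + 1) with he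
    have he0 : 0 < e := by positivity
    have he1 : e ≤ 1 / 2 := by
      rw [he, pow_succ]
      have : (1 / 2 : ℝ) ^ r ≤ 1 := pow_le_one₀ (by norm_num) (by norm_num)
      linarith
    set U : ℝ := (1 / (H : ℝ)) ^ e with hU
    set V : ℝ := (1 / (n * lam * (H : ℝ) ^ (r + 1))) ^ e with hV
    have hU0 : 0 ≤ U := by positivity
    have hV0 : 0 ≤ V := by positivity
    set D : ℕ → ℝ := fun d => ‖∑ i ∈ range (n' - d),
      ee (f 0 (a + (i + d : ℕ))) * (starRingEnd ℂ) (ee (f 0 (a + i)))‖ with hD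
    have hD0 : D 0 ≤ n := by
      simp only [hD, ee_conj]
      exact (triv _ _).trans (by exact_mod_cast (by omega : n' - 0 ≤ n))
    have hD1 : ∀ d < H, D (d + 1) ≤ K * n * (U + V * ((H : ℝ) / (d + 1)) ^ e) := by
      intro d hdH
      rcases lt_or_ge n' (d + 1) with hlt | hge
      · simp only [hD]
        rw [Nat.sub_eq_zero_of_le hlt.le]
        simp only [range_zero, sum_empty, norm_zero]
        positivity
      have hp : (0 : ℝ) < (d + 1 : ℕ) := by positivity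
      have hdR : ((d + 1 : ℕ) : ℝ) ≤ H := by exact_mod_cast hdH
      have hc : ((n' - (d + 1) : ℕ) : ℝ) = n' - (d + 1 : ℕ) := Nat.cast_sub hge
      have hmem : ∀ x ∈ Set.Icc a (a + (n' - (d + 1) : ℕ)), x + (d + 1 : ℕ) ≤ a + n' := by
        intro x hx
        have := hx.2
        rw [hc] at this
        linarith
      have key := ih (fun j x => f j (x + (d + 1 : ℕ)) - f j x) n (n' - (d + 1)) H a
        ((d + 1 : ℕ) * lam) hH hHn (by omega) (by positivity) ?_ ?_ ?_
      · have e1 : D (d + 1) = ‖∑ i ∈ range (n' - (d + 1)),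
            ee (f 0 (a + i + (d + 1 : ℕ)) - f 0 (a + i))‖ := by
          simp only [hD, ee_conj]
          congr 1
          refine sum_congr rfl fun i _ => ?_
          rw [Nat.cast_add i (d + 1), add_assoc]
        rw [e1]
        refine key.trans (le_of_eq ?_)
        congr 2
        rw [hV, ← Real.mul_rpow (by positivity) (by positivity)]
        congr 1
        push_cast
        field_simp
        ring
      · intro j hj x hx
        have k1 := hd j (by omega) x ⟨hx.1, by linarith [hmem x hx]⟩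
        have k2 := hd j (by omega) (x + (d + 1 : ℕ)) ⟨by linarith [hx.1], hmem x hx⟩
        exact (k2.comp_add_const x _).sub k1
      · intro x hx
        obtain ⟨ξ, k1, -, -, k2⟩ := mvt (f (r + 1)) (f (r + 1 + 1)) a (a + n') x (d + 1 : ℕ) hp
          hx.1 (hmem x hx) (hd (r + 1) (by omega))
        obtain ⟨ξ', l1, -, -, l2⟩ := mvt (f (r + 2)) (f (r + 1 + 2)) a (a + n') x (d + 1 : ℕ) hp
          hx.1 (hmem x hx) (hd (r + 2) (by omega))
        rw [k2, l2, abs_mul, abs_mul, abs_of_pos hp]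
        obtain ⟨m1, m2, -⟩ := hb ξ k1
        obtain ⟨-, -, m3⟩ := hb ξ' l1
        refine ⟨by gcongr, ?_, ?_⟩
        · calc _ ≤ ((d + 1 : ℕ) : ℝ) * (A * lam) := by gcongr
            _ = _ := by ring
        · calc _ ≤ ((d + 1 : ℕ) : ℝ) * (A * lam / n) := by gcongr
            _ = _ := by ring
      · calc A * (((d + 1 : ℕ) : ℝ) * lam) * (H : ℝ) ^ r ≤ A * (H * lam) * (H : ℝ) ^ r := by gcongr
          _ = A * lam * (H : ℝ) ^ (r + 1) := by ring
          _ ≤ 1 := hs
    have hsum : ∑ d ∈ range H, D d ≤ n + K * n * (H * U + V * (2 * H)) := by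
      calc ∑ d ∈ range H, D d ≤ ∑ d ∈ range (H + 1), D d :=
            sum_le_sum_of_subset_of_nonneg (range_subset_range.2 (by omega))
              fun _ _ _ => norm_nonneg _
        _ = ∑ d ∈ range H, D (d + 1) + D 0 := sum_range_succ' _ _
        _ ≤ ∑ d ∈ range H, K * n * (U + V * ((H : ℝ) / (d + 1)) ^ e) + n :=
            add_le_add (sum_le_sum fun d hd => hD1 d (mem_range.1 hd)) hD0
        _ = n + K * n * (H * U + V * ∑ d ∈ range H, ((H : ℝ) / (d + 1)) ^ e) := by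
            rw [← mul_sum, sum_add_distrib, ← mul_sum]; simp; ring
        _ ≤ _ := by gcongr; exact sum_ratio H e he1
    have hw := weyl (fun i => ee (f 0 (a + i))) n' H
    have hHU : 1 ≤ H * U := by
      have : (1 / (H : ℝ)) ^ (1 : ℝ) ≤ U := by
        refine Real.rpow_le_rpow_of_exponent_ge (by positivity) ?_ (by linarith)
        rw [div_le_one (by linarith)]; exact hHR
      rw [Real.rpow_one, div_le_iff₀ (by linarith)] at this
      linarith
    have hsq : ‖∑ i ∈ range n', ee (f 0 (a + i))‖ ^ 2 ≤ (4 + 8 * K) * n ^ 2 * (U + V) := by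
      have hH2 : (0 : ℝ) < (H : ℝ) ^ 2 := by positivity
      refine le_of_mul_le_mul_left (hw.trans ?_) hH2
      calc ((n' : ℝ) + H) * (2 * H * ∑ d ∈ range H, D d)
          ≤ (n + n) * (2 * H * (n * (H * U) + K * n * (H * U + V * (2 * H)))) := by
            gcongr
            refine hsum.trans ?_
            nlinarith
        _ = (H : ℝ) ^ 2 * (n ^ 2 * ((4 + 4 * K) * U + 8 * K * V)) := by ring
        _ ≤ (H : ℝ) ^ 2 * (n ^ 2 * ((4 + 8 * K) * U + (4 + 8 * K) * V)) := by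
            gcongr <;> linarith
        _ = _ := by ring
    have e2 : (1 / 2 : ℝ) ^ (r + 1 + 1) = e * (1 / 2) := by rw [he]; ring
    rw [e2, Real.rpow_mul (by positivity), Real.rpow_mul (by positivity), ← hU, ← hV,
      ← Real.sqrt_eq_rpow, ← Real.sqrt_eq_rpow]
    refine abs_le_of_sq_le_sq' (hsq.trans ?_) (by positivity) |>.2
    rw [mul_pow, mul_pow, Real.sq_sqrt (by positivity)]
    gcongr
    have := Real.sq_sqrt hU0
    have := Real.sq_sqrt hV0
    have := mul_nonneg (Real.sqrt_nonneg U) (Real.sqrt_nonneg V)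
    nlinarith

end X1

theorem X1 : VdCStmt := by
  intro r A hA
  obtain ⟨K, -, h⟩ := X1.main A hA r
  exact ⟨K, h⟩

end Pool.Agent.Lib.LQ
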