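import Pool.Agent.Lib.LQ.Defs2

/-! Block X2: angular exponential sums over a disc at large frequencies. -/

set_option autoImplicit false

open Finset
open scoped Classical

noncomputable section

namespace Pool.Agent.Lib.LQ

namespace X2

open Complex

/-- The logarithm and its derivatives. -/
def G : ℕ → ℂ → ℂ
  | 0, z => log z
  | j + 1, z => (-1) ^ j * (j.factorial : ℂ) * z⁻¹ ^ (j + 1)

theorem hasDerivAt_G (j : ℕ) {z : ℂ} (hz : z ∈ slitPlane) : HasDerivAt (G j) (G (j + 1) z) z := by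
  have h0 : z ≠ 0 := slitPlane_ne_zero hz
  cases j with
  | zero => exact (hasDerivAt_log hz).congr_deriv (by simp [G])
  | succ j =>
    refine (((hasDerivAt_inv h0).fun_pow (j + 1)).const_mul
      ((-1) ^ j * (j.factorial : ℂ))).congr_deriv ?_
    simp only [G, Nat.factorial_succ, Nat.add_sub_cancel, ← inv_pow]
    push_cast
    ring

/-- The phase along a row and its derivatives. -/
def f (κ b : ℝ) (j : ℕ) (x : ℝ) : ℝ := κ * (G j (x + b * I)).im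

theorem slit {b : ℝ} (hb : b ≠ 0) (x : ℝ) : (x : ℂ) + b * I ∈ slitPlane :=
  Or.inr (by simpa using hb)

theorem hasDerivAt_f (κ : ℝ) {b : ℝ} (hb : b ≠ 0) (j : ℕ) (x : ℝ) :
    HasDerivAt (f κ b j) (f κ b (j + 1) x) x := by
  have h := ((hasDerivAt_G j (slit hb x)).comp_add_const (x : ℂ) (b * I)).comp_ofReal
  exact (imCLM.hasFDerivAt.comp_hasDerivAt x h).const_mul κ

theorem abs_f (κ b : ℝ) (j : ℕ) (x : ℝ) :
    |f κ b (j + 1) x| = |κ| * j.factorial * |(((x : ℂ) + b * I)⁻¹ ^ (j + 1)).im| := by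
  have : (G (j + 1) (x + b * I)).im =
      (-1) ^ j * j.factorial * (((x : ℂ) + b * I)⁻¹ ^ (j + 1)).im := by
    rw [G, ← im_ofReal_mul]
    push_cast
    rfl
  rw [f, this, abs_mul, abs_mul, abs_mul, abs_pow, abs_neg, abs_one, one_pow, one_mul,
    Nat.abs_cast, mul_assoc]

theorem abs_f_le (κ b : ℝ) (j : ℕ) (x : ℝ) :
    |f κ b (j + 1) x| ≤ |κ| * j.factorial * ‖((x : ℂ) + b * I)⁻¹‖ ^ (j + 1) := by
  rw [abs_f, ← norm_pow]
  exact mul_le_mul_of_nonneg_left (abs_im_le_norm _) (by positivity)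

theorem abs_le_norm (x b : ℝ) : |b| ≤ ‖(x : ℂ) + b * I‖ := by
  simpa using abs_im_le_norm ((x : ℂ) + b * I)

theorem dichotomy {b : ℝ} (hb : b ≠ 0) (x : ℝ) (J : ℕ) :
    |b| * ‖((x : ℂ) + b * I)⁻¹‖ ^ (J + 1) / 2 ≤ |(((x : ℂ) + b * I)⁻¹ ^ J).im| ∨
    |b| * ‖((x : ℂ) + b * I)⁻¹‖ ^ (J + 2) / 2 ≤ |(((x : ℂ) + b * I)⁻¹ ^ (J + 1)).im| := by
  have h0 : (x : ℂ) + b * I ≠ 0 := slitPlane_ne_zero (slit hb x)
  have him : |(((x : ℂ) + b * I)⁻¹).im| = |b| * ‖((x : ℂ) + b * I)⁻¹‖ ^ 2 := by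
    rw [inv_im, abs_div, abs_neg, normSq_eq_norm_sq, norm_inv, inv_pow, abs_pow, abs_norm]
    simp [div_eq_mul_inv]
  have hu : 0 < ‖((x : ℂ) + b * I)⁻¹‖ := norm_pos_iff.2 (inv_ne_zero h0)
  generalize ((x : ℂ) + b * I)⁻¹ = u at *
  have e : ‖u ^ J‖ ^ 2 * u.im = (u ^ (J + 1)).im * (u ^ J).re - (u ^ (J + 1)).re * (u ^ J).im := by
    rw [← normSq_eq_norm_sq, normSq_apply, pow_succ, mul_im, mul_re]
    ring
  have e2 : ‖u‖ ^ J * (|b| * ‖u‖ ^ (J + 2)) ≤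
      ‖u‖ ^ J * (|(u ^ (J + 1)).im| + ‖u‖ * |(u ^ J).im|) := by
    calc ‖u‖ ^ J * (|b| * ‖u‖ ^ (J + 2)) = |‖u ^ J‖ ^ 2 * u.im| := by
          rw [abs_mul, him, abs_pow, abs_norm, norm_pow]; ring
      _ ≤ |(u ^ (J + 1)).im| * |(u ^ J).re| + |(u ^ (J + 1)).re| * |(u ^ J).im| := by
          rw [e, ← abs_mul, ← abs_mul]; exact abs_sub _ _
      _ ≤ |(u ^ (J + 1)).im| * ‖u ^ J‖ + ‖u ^ (J + 1)‖ * |(u ^ J).im| := by
          gcongr
          exacts [abs_re_le_norm _, abs_re_le_norm _]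
      _ = _ := by rw [norm_pow, norm_pow]; ring
  have e3 := le_of_mul_le_mul_left e2 (pow_pos hu J)
  by_contra H
  push Not at H
  have := mul_lt_mul_of_pos_left H.1 hu
  have e4 : ‖u‖ * (|b| * ‖u‖ ^ (J + 1) / 2) = |b| * ‖u‖ ^ (J + 2) / 2 := by ring
  linarith [H.2]

theorem block (h : VdCStmt) (r : ℕ) : ∃ K : ℝ, 0 ≤ K ∧ ∀ (κ b x W : ℝ) (n n' H0 : ℕ), b ≠ 0 →
    κ ≠ 0 → 1 ≤ H0 → H0 ≤ n → n' ≤ n → (n : ℝ) * ((r + 1) * 2 ^ (r + 4)) ≤ |b| →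
    |b| * ‖((x : ℂ) + b * I)⁻¹‖ ^ (r + 2) / 2 ≤ |(((x : ℂ) + b * I)⁻¹ ^ (r + 1)).im| →
    3 * |κ| * r.factorial * (H0 : ℝ) ^ r ≤ |b| ^ (r + 1) → 0 < W → W ≤ H0 →
    W * (3 * 2 ^ r) ≤ n → W ≤ (n : ℝ) ^ (r + 1) * |κ| * |b| * ‖((x : ℂ) + b * I)⁻¹‖ ^ (r + 2) / 4 →
    ‖∑ i ∈ range n', exp (I * (f κ b 0 (x + i) : ℝ))‖ ≤
      n * (K * (1 / W) ^ ((1 / 2 : ℝ) ^ (r + 1))) := by
  obtain ⟨K, hK⟩ := h r 3 (by norm_num)
  refine ⟨2 * max K 0, by positivity, ?_⟩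
  intro κ b x W n n' H0 hb hκ h1 h2 h3 h4 h5 h6 hW h7 h8 h9
  have hb' : 0 < |b| := abs_pos.2 hb
  have hκ' : 0 < |κ| := abs_pos.2 hκ
  have hn : (1 : ℝ) ≤ n := by exact_mod_cast h1.trans h2
  have hz : 0 < ‖(x : ℂ) + b * I‖ := hb'.trans_le (abs_le_norm x b)
  have hu : 0 < ‖((x : ℂ) + b * I)⁻¹‖ := by rw [norm_inv]; positivity
  have hfac : (1 : ℝ) ≤ r.factorial := by exact_mod_cast r.factorial_pos
  set lam := |f κ b (r + 1) x| / 2 with hlam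
  have l1 : |κ| * r.factorial * (|b| * ‖((x : ℂ) + b * I)⁻¹‖ ^ (r + 2)) / 4 ≤ lam := by
    rw [hlam, abs_f]
    have := mul_le_mul_of_nonneg_left h5 (show 0 ≤ |κ| * r.factorial by positivity)
    linarith
  have l0 : 0 < lam := lt_of_lt_of_le (by positivity) l1
  have d2 : ∀ t ∈ Set.Icc x (x + n'), |f κ b (r + 2) t| ≤ lam / n := fun t ht => by
    have hn' : (n' : ℝ) ≤ n := by exact_mod_cast h3
    have p1 : (2 : ℝ) ≤ (r + 1) * 2 ^ (r + 4) := by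
      have : (2 : ℝ) ^ 1 ≤ 2 ^ (r + 4) := pow_le_pow_right₀ one_le_two (by omega)
      nlinarith [Nat.cast_nonneg (α := ℝ) r]
    have p2 : ‖(x : ℂ) + b * I‖ ≤ 2 * ‖(t : ℂ) + b * I‖ := by
      have e : (x : ℂ) + b * I = (t + b * I) - ((t - x : ℝ) : ℂ) := by push_cast; ring
      have := norm_sub_le ((t : ℂ) + b * I) ((t - x : ℝ) : ℂ)
      rw [← e, norm_real, Real.norm_eq_abs, abs_of_nonneg (by linarith [ht.1])] at this
      nlinarith [abs_le_norm t b, ht.2]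
    have p3 : ‖((t : ℂ) + b * I)⁻¹‖ ≤ 2 * ‖((x : ℂ) + b * I)⁻¹‖ := by
      rw [norm_inv, norm_inv, ← div_eq_mul_inv, inv_eq_one_div,
        div_le_div_iff₀ (hb'.trans_le (abs_le_norm t b)) hz]
      linarith
    refine (abs_f_le κ b (r + 1) t).trans ?_
    rw [le_div_iff₀ (by linarith)]
    refine le_trans ?_ l1
    calc |κ| * (r + 1).factorial * ‖((t : ℂ) + b * I)⁻¹‖ ^ (r + 1 + 1) * n
        ≤ |κ| * (r + 1).factorial * (2 * ‖((x : ℂ) + b * I)⁻¹‖) ^ (r + 1 + 1) * n := by gcongr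
      _ = |κ| * r.factorial * (n * ((r + 1) * 2 ^ (r + 4)) *
            ‖((x : ℂ) + b * I)⁻¹‖ ^ (r + 2)) / 4 := by
          rw [Nat.factorial_succ]; push_cast; ring
      _ ≤ _ := by gcongr
  have d1 : ∀ t ∈ Set.Icc x (x + n'), |f κ b (r + 1) t - f κ b (r + 1) x| ≤ lam := fun t ht => by
    have hn' : (n' : ℝ) ≤ n := by exact_mod_cast h3
    have := norm_image_sub_le_of_norm_deriv_le_segment' (f := f κ b (r + 1))
      (f' := f κ b (r + 2)) (a := x) (b := x + n') (C := lam / n)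
      (fun s _ => (hasDerivAt_f κ hb (r + 1) s).hasDerivWithinAt)
      (fun s hs => d2 s ⟨hs.1, hs.2.le⟩) t ht
    refine this.trans ?_
    rw [div_mul_eq_mul_div, div_le_iff₀ (by linarith)]
    exact mul_le_mul_of_nonneg_left (by linarith [ht.2]) l0.le
  have P0 : 3 * lam * (H0 : ℝ) ^ r ≤ 1 := by
    have a1 := abs_f_le κ b r x
    have a2 : ‖((x : ℂ) + b * I)⁻¹‖ ^ (r + 1) ≤ (|b| ^ (r + 1))⁻¹ := by
      rw [norm_inv, ← inv_pow]
      gcongr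
      exact abs_le_norm x b
    calc 3 * lam * (H0 : ℝ) ^ r ≤ 3 * (|κ| * r.factorial * (|b| ^ (r + 1))⁻¹) * (H0 : ℝ) ^ r := by
          gcongr
          have := mul_le_mul_of_nonneg_left a2 (show 0 ≤ |κ| * r.factorial by positivity)
          linarith
      _ = 3 * |κ| * r.factorial * (H0 : ℝ) ^ r / |b| ^ (r + 1) := by ring
      _ ≤ 1 := (div_le_one (by positivity)).2 h6
  set H := Nat.findGreatest (fun H : ℕ => 3 * lam * (H : ℝ) ^ r ≤ 1) n with hH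
  have H1 : H0 ≤ H := Nat.le_findGreatest h2 P0
  have H2 : H ≤ n := Nat.findGreatest_le n
  have H3 : 3 * lam * (H : ℝ) ^ r ≤ 1 :=
    Nat.findGreatest_spec (P := fun H : ℕ => 3 * lam * (H : ℝ) ^ r ≤ 1) h2 P0
  have H4 : (1 : ℝ) ≤ H := by exact_mod_cast h1.trans H1
  have H5 : W ≤ n * lam * (H : ℝ) ^ r := by
    rcases H2.eq_or_lt with e | e
    · rw [e]
      refine h9.trans ?_
      calc _ = (n : ℝ) ^ (r + 1) *
            (|κ| * 1 * (|b| * ‖((x : ℂ) + b * I)⁻¹‖ ^ (r + 2)) / 4) := by ring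
        _ ≤ (n : ℝ) ^ (r + 1) * lam := by
            refine mul_le_mul_of_nonneg_left (le_trans ?_ l1) (by positivity)
            gcongr
        _ = _ := by ring
    · have := Nat.findGreatest_is_greatest (P := fun H : ℕ => 3 * lam * (H : ℝ) ^ r ≤ 1)
        (Nat.lt_succ_self H) e
      have a1 : ((H + 1 : ℕ) : ℝ) ^ r ≤ (2 * H) ^ r := by
        gcongr
        push_cast
        linarith
      have a2 : 1 ≤ 3 * 2 ^ r * (lam * (H : ℝ) ^ r) := by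
        have := mul_le_mul_of_nonneg_left a1 (show 0 ≤ 3 * lam by positivity)
        rw [mul_pow] at this
        linarith
      calc W ≤ W * (3 * 2 ^ r * (lam * (H : ℝ) ^ r)) := le_mul_of_one_le_right hW.le a2
        _ = W * (3 * 2 ^ r) * (lam * (H : ℝ) ^ r) := by ring
        _ ≤ n * (lam * (H : ℝ) ^ r) := by gcongr
        _ = _ := by ring
  have H6 : W ≤ H := h7.trans (by exact_mod_cast H1)
  refine (hK (f κ b) n n' H x lam (h1.trans H1) H2 h3 l0 (fun j _ t _ => hasDerivAt_f κ hb j t)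
    (fun t ht => ?_) H3).trans ?_
  · have a1 := abs_sub_abs_le_abs_sub (f κ b (r + 1) t) (f κ b (r + 1) x)
    have a2 := abs_sub_abs_le_abs_sub (f κ b (r + 1) x) (f κ b (r + 1) t)
    rw [abs_sub_comm] at a2
    have a3 := d1 t ht
    refine ⟨by linarith, by linarith, (d2 t ht).trans ?_⟩
    gcongr
    linarith
  · calc _ ≤ max K 0 * n * ((1 / W) ^ ((1 / 2 : ℝ) ^ (r + 1)) +
          (1 / W) ^ ((1 / 2 : ℝ) ^ (r + 1))) := by
          gcongr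
          exact le_max_left _ _
      _ = _ := by ring

theorem blocks {F : ℕ → ℂ} {n L : ℕ} {E : ℝ} (hn : 0 < n) (hE : 0 ≤ E)
    (h : ∀ a n', n' ≤ n → a < L → ‖∑ i ∈ range n', F (a + i)‖ ≤ n * E) (hL : 0 < L) :
    ∀ M ≤ L, ‖∑ i ∈ range M, F i‖ ≤ (M + n) * E := by
  intro M
  induction M using Nat.strong_induction_on with
  | _ M ih =>
    intro hM
    rcases le_or_gt M n with h1 | h1
    · have := h 0 M h1 hL
      simp only [zero_add] at this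
      nlinarith [Nat.cast_nonneg (α := ℝ) M]
    · obtain ⟨M', rfl⟩ := Nat.exists_eq_add_of_le' h1.le
      rw [sum_range_add]
      have a1 := ih M' (by omega) (by omega)
      have a2 := h M' n le_rfl (by omega)
      refine (norm_add_le _ _).trans ?_
      push_cast
      linarith

theorem nm_real (α : GI) : (nm α : ℝ) = (α.re : ℝ) ^ 2 + (α.im : ℝ) ^ 2 := by
  rw [nm, ← Int.cast_natCast, Int.natAbs_of_nonneg (GaussianInt.norm_nonneg α), Zsqrtd.norm_def]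
  push_cast
  ring

theorem mem_disc {M : ℝ} {α : GI} : α ∈ disc M ↔ (α.re : ℝ) ^ 2 + (α.im : ℝ) ^ 2 ≤ M := by
  rw [disc, mem_filter, nm_real, and_iff_right_iff_imp]
  intro h
  have key : ∀ t : ℤ, (t : ℝ) ^ 2 ≤ M → t ∈ Ico (-(⌊M⌋₊ : ℤ)) (-(⌊M⌋₊ : ℤ) + (2 * ⌊M⌋₊ + 1 : ℕ)) := by
    intro t ht
    have : t.natAbs ^ 2 ≤ ⌊M⌋₊ := Nat.le_floor (by simpa using ht)
    have := (Nat.le_self_pow two_ne_zero _).trans this
    rw [mem_Ico]
    omega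
  exact mem_image.2 ⟨(α.re, α.im), mem_product.2 ⟨key _ (by nlinarith), key _ (by nlinarith)⟩, rfl⟩

theorem abs_le_floor {t : ℤ} {M : ℝ} (hM : 0 ≤ M) :
    (t : ℝ) ^ 2 ≤ M ↔ -(⌊√M⌋₊ : ℤ) ≤ t ∧ t ≤ ⌊√M⌋₊ := by
  rw [← abs_le, ← sq_abs, ← Real.le_sqrt (abs_nonneg _) hM, Int.abs_eq_natAbs, Nat.cast_le,
    Nat.le_floor_iff (Real.sqrt_nonneg _)]
  simp

theorem row_eq {y : ℝ} {b : ℤ} (hb : (b : ℝ) ^ 2 ≤ y) (F : GI → ℂ) :
    ∑ α ∈ (disc y).filter (fun α => α.im = b), F α =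
      ∑ i ∈ range (2 * ⌊√(y - b ^ 2)⌋₊ + 1), F ⟨-(⌊√(y - b ^ 2)⌋₊ : ℤ) + i, b⟩ := by
  have key : ∀ t : ℤ, (t : ℝ) ^ 2 + (b : ℝ) ^ 2 ≤ y ↔
      -(⌊√(y - b ^ 2)⌋₊ : ℤ) ≤ t ∧ t ≤ ⌊√(y - b ^ 2)⌋₊ := fun t => by
    rw [← abs_le_floor (by linarith), le_sub_iff_add_le]
  refine sum_nbij' (fun α => (α.re + ⌊√(y - b ^ 2)⌋₊).toNat)
    (fun i => ⟨-(⌊√(y - b ^ 2)⌋₊ : ℤ) + i, b⟩) ?_ ?_ ?_ ?_ ?_
  · intro α hα
    obtain ⟨h1, rfl⟩ := mem_filter.1 hα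
    have := (key _).1 (mem_disc.1 h1)
    rw [mem_range]
    omega
  · intro i hi
    have := mem_range.1 hi
    exact mem_filter.2 ⟨mem_disc.2 ((key _).2 ⟨by simp, by dsimp only; omega⟩), rfl⟩
  · intro α hα
    obtain ⟨h1, rfl⟩ := mem_filter.1 hα
    have := (key _).1 (mem_disc.1 h1)
    exact Zsqrtd.ext (by dsimp only; omega) rfl
  · intro i _
    simp
  · intro α hα
    obtain ⟨h1, rfl⟩ := mem_filter.1 hα
    have := (key _).1 (mem_disc.1 h1)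
    congr 1
    exact Zsqrtd.ext (by dsimp only; omega) rfl

theorem ek_eq (κ t : ℤ) {b : ℤ} (hb : b ≠ 0) :
    ek κ ⟨t, b⟩ = exp (I * (f κ b 0 t : ℝ)) := by
  have h0 : ((t : ℝ) : ℂ) + (b : ℝ) * I ≠ 0 := slitPlane_ne_zero (slit (by exact_mod_cast hb) _)
  have e : ((⟨t, b⟩ : GI) : ℂ) = ((t : ℝ) : ℂ) + (b : ℝ) * I := by
    simp [GaussianInt.toComplex_def]
  rw [ek, e, f, G, log_im]
  generalize ((t : ℝ) : ℂ) + (b : ℝ) * I = z at h0
  have : z / (‖z‖ : ℂ) = exp (arg z * I) := by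
    rw [div_eq_iff (by simpa using h0), mul_comm, norm_mul_exp_arg_mul_I]
  rw [this, ← exp_int_mul]
  congr 1
  push_cast
  ring

theorem norm_ek_le (κ : ℤ) (α : GI) : ‖ek κ α‖ ≤ 1 := by
  rw [ek, norm_zpow, norm_div, norm_real, norm_norm]
  rcases eq_or_ne ‖(α : ℂ)‖ 0 with h | h
  · rw [h, div_zero]
    rcases eq_or_ne κ 0 with rfl | hκ
    · simp
    · simp [zero_zpow _ hκ]
  · simp [div_self h]

theorem len_le {y t : ℝ} (hy : 1 ≤ y) (ht : t ≤ y) : ((2 * ⌊√t⌋₊ + 1 : ℕ) : ℝ) ≤ 3 * √y := by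
  have h1 := Nat.floor_le (Real.sqrt_nonneg t)
  have h2 := Real.sqrt_le_sqrt ht
  have h3 := Real.one_le_sqrt.2 hy
  push_cast
  linarith

theorem row_triv {y : ℝ} (hy : 1 ≤ y) {b : ℤ} (hb : (b : ℝ) ^ 2 ≤ y) (κ : ℤ) :
    ‖∑ α ∈ (disc y).filter (fun α => α.im = b), ek κ α‖ ≤ 3 * √y := by
  rw [row_eq hb]
  refine (norm_sum_le_of_le _ fun i _ => norm_ek_le κ _).trans ?_
  simpa using len_le hy (show y - b ^ 2 ≤ y by nlinarith)

theorem row (h : VdCStmt) (j : ℕ) : ∃ K w0 : ℝ, 0 ≤ K ∧ 1 ≤ w0 ∧ ∀ (w y : ℝ) (κ b : ℤ), w0 ≤ w →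
    1 ≤ y → √y = w ^ (16 * j + 24) → w ^ (8 * j + 12) ≤ |(κ : ℝ)| →
    |(κ : ℝ)| ≤ w ^ ((32 * j + 48) * j) → w ^ (16 * j + 23) ≤ |(b : ℝ)| → (b : ℝ) ^ 2 ≤ y →
    ‖∑ α ∈ (disc y).filter (fun α => α.im = b), ek κ α‖ ≤
      K * √y * w ^ (-(1 / 2 : ℝ) ^ (4 * j + 6)) := by
  obtain ⟨K1, hK1, B1⟩ := block h (4 * j + 3)
  obtain ⟨K2, hK2, B2⟩ := block h (4 * j + 4)
  obtain ⟨D, hD⟩ : ∃ D : ℝ, D = (4 * j + 6) * 2 ^ (4 * j + 8) := ⟨_, rfl⟩
  have hD1 : 1 ≤ D := by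
    have : (1 : ℝ) ≤ 2 ^ (4 * j + 8) := one_le_pow₀ one_le_two
    nlinarith [Nat.cast_nonneg (α := ℝ) j]
  obtain ⟨C, hC⟩ : ∃ C : ℝ, C = 4 * (2 * D) ^ (4 * j + 6) := ⟨_, rfl⟩
  have hC2 : 3 * 2 ^ (4 * j + 6) ≤ C := by
    have : (2 : ℝ) ^ (4 * j + 6) ≤ (2 * D) ^ (4 * j + 6) := by gcongr; linarith
    have : (0 : ℝ) ≤ 2 ^ (4 * j + 6) := by positivity
    linarith
  have hC1 : 2 ≤ C := by
    have : (1 : ℝ) ≤ 2 ^ (4 * j + 6) := one_le_pow₀ one_le_two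
    linarith
  refine ⟨4 * ((K1 + K2) * C), 2 * D + 3 * (4 * j + 6).factorial, by positivity,
    by linarith [Nat.cast_nonneg (α := ℝ) (4 * j + 6).factorial], ?_⟩
  intro w y κ b hw hy hs k1 k2 b1 b2
  have hf : (0 : ℝ) ≤ (4 * j + 6).factorial := Nat.cast_nonneg _
  have w1 : 1 ≤ w := by linarith
  have b3 : w ^ 2 ≤ |(b : ℝ)| := (pow_le_pow_right₀ w1 (by omega)).trans b1
  have b4 : (1 : ℝ) ≤ |(b : ℝ)| := (one_le_pow₀ w1).trans b3
  have b0 : (b : ℝ) ≠ 0 := abs_pos.1 (by linarith)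
  have k0 : (κ : ℝ) ≠ 0 := abs_pos.1 (lt_of_lt_of_le (by positivity) k1)
  have b5 : |(b : ℝ)| ≤ √y := Real.abs_le_sqrt b2
  obtain ⟨n, n1, n2⟩ : ∃ n : ℕ, (n : ℝ) * D ≤ |(b : ℝ)| ∧ |(b : ℝ)| ≤ n * (2 * D) := by
    have a0 : 1 ≤ |(b : ℝ)| / D := by rw [le_div_iff₀ (by linarith)]; nlinarith
    have a1 := Nat.floor_le (zero_le_one.trans a0)
    have a2 := Nat.lt_floor_add_one (|(b : ℝ)| / D)
    have a3 : (1 : ℝ) ≤ ⌊|(b : ℝ)| / D⌋₊ := by exact_mod_cast Nat.le_floor (by simpa using a0)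
    rw [div_lt_iff₀ (by linarith)] at a2
    exact ⟨_, (le_div_iff₀ (by linarith)).1 a1, by nlinarith⟩
  have n3 : w ≤ n := le_of_mul_le_mul_right (a := 2 * D) (by nlinarith) (by linarith)
  have n4 : (n : ℝ) ≤ √y := by nlinarith [Nat.cast_nonneg (α := ℝ) n]
  have f1 := Nat.floor_le (zero_le_one.trans w1)
  have f2 := Nat.lt_floor_add_one w
  have f3 : 1 ≤ ⌊w⌋₊ := Nat.le_floor (by simpa using w1)
  have f4 : (1 : ℝ) ≤ ⌊w⌋₊ := by exact_mod_cast f3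
  have key : ∀ (r : ℕ) (x : ℝ), 4 * j + 3 ≤ r → r ≤ 4 * j + 4 → x ^ 2 + (b : ℝ) ^ 2 ≤ y →
      (n : ℝ) * ((r + 1) * 2 ^ (r + 4)) ≤ |(b : ℝ)| ∧
      3 * |(κ : ℝ)| * r.factorial * (⌊w⌋₊ : ℝ) ^ r ≤ |(b : ℝ)| ^ (r + 1) ∧
      w / C * (3 * 2 ^ r) ≤ n ∧ w / C ≤ (n : ℝ) ^ (r + 1) * |(κ : ℝ)| * |(b : ℝ)| *
        ‖((x : ℂ) + (b : ℝ) * I)⁻¹‖ ^ (r + 2) / 4 ∧
      (1 / (w / C)) ^ ((1 / 2 : ℝ) ^ (r + 1)) ≤ C * w ^ (-(1 / 2 : ℝ) ^ (4 * j + 6)) := by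
    intro r x r1 r2 hx
    have r3 : (r : ℝ) + 1 ≤ 4 * j + 6 := by exact_mod_cast (by omega : r + 1 ≤ 4 * j + 6)
    refine ⟨le_trans ?_ n1, ?_, ?_, ?_, ?_⟩
    · have : (2 : ℝ) ^ (r + 4) ≤ 2 ^ (4 * j + 8) := pow_le_pow_right₀ one_le_two (by omega)
      rw [hD]
      exact mul_le_mul_of_nonneg_left (mul_le_mul r3 this (by positivity) (by positivity))
        (by positivity)
    · have : (r.factorial : ℝ) ≤ (4 * j + 6).factorial := by
        exact_mod_cast Nat.factorial_le (by omega)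
      calc _ = (3 * r.factorial) * |(κ : ℝ)| * (⌊w⌋₊ : ℝ) ^ r := by ring
        _ ≤ w * w ^ ((32 * j + 48) * j) * w ^ r := by
            gcongr
            linarith
        _ = w ^ (1 + (32 * j + 48) * j + r) := by ring
        _ ≤ w ^ ((16 * j + 23) * (r + 1)) := pow_le_pow_right₀ w1 (by nlinarith)
        _ ≤ _ := by rw [pow_mul]; gcongr
    · have : (2 : ℝ) ^ r ≤ 2 ^ (4 * j + 6) := pow_le_pow_right₀ one_le_two (by omega)
      rw [div_mul_eq_mul_div, div_le_iff₀ (by linarith)]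
      exact mul_le_mul n3 (by linarith) (by positivity) (by positivity)
    · have hz : ‖(x : ℂ) + (b : ℝ) * I‖ ≤ √y := by
        rw [norm_add_mul_I]; exact Real.sqrt_le_sqrt hx
      have hz0 : 0 < ‖(x : ℂ) + (b : ℝ) * I‖ := by linarith [abs_le_norm x b]
      have u1 : 1 ≤ w * (|(b : ℝ)| * ‖((x : ℂ) + (b : ℝ) * I)⁻¹‖) := by
        rw [norm_inv, ← mul_assoc, ← div_eq_mul_inv, one_le_div hz0]
        refine hz.trans ?_
        rw [hs, pow_succ']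
        gcongr
      generalize ‖((x : ℂ) + (b : ℝ) * I)⁻¹‖ = u at u1
      have u0 : 0 ≤ u := by
        by_contra e
        have : |(b : ℝ)| * u ≤ 0 := by nlinarith
        nlinarith
      rw [div_le_div_iff₀ (by linarith) (by norm_num)]
      refine le_of_mul_le_mul_right (a := w ^ (r + 2)) ?_ (by positivity)
      calc w * 4 * w ^ (r + 2) = 4 * w ^ (r + 3) * 1 := by ring
        _ ≤ 4 * |(κ : ℝ)| * (w * (|(b : ℝ)| * u)) ^ (r + 2) := by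
            gcongr
            · exact (pow_le_pow_right₀ w1 (by omega)).trans k1
            · exact one_le_pow₀ u1
        _ = 4 * |(κ : ℝ)| * |(b : ℝ)| ^ (r + 1) * |(b : ℝ)| * u ^ (r + 2) * w ^ (r + 2) := by ring
        _ ≤ 4 * |(κ : ℝ)| * (n * (2 * D)) ^ (r + 1) * |(b : ℝ)| * u ^ (r + 2) * w ^ (r + 2) := by
            gcongr
        _ = (n : ℝ) ^ (r + 1) * |(κ : ℝ)| * |(b : ℝ)| * u ^ (r + 2) * (4 * (2 * D) ^ (r + 1)) *
              w ^ (r + 2) := by ring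
        _ ≤ _ := by
            have : (2 * D) ^ (r + 1) ≤ (2 * D) ^ (4 * j + 6) :=
              pow_le_pow_right₀ (by linarith) (by omega)
            have : 4 * (2 * D) ^ (r + 1) ≤ C := by linarith
            gcongr
    · rw [one_div_div, Real.div_rpow (by linarith) (by linarith), Real.rpow_neg (by linarith),
        div_eq_mul_inv]
      refine mul_le_mul ?_ (inv_anti₀ (by positivity) (Real.rpow_le_rpow_of_exponent_le w1
        (pow_le_pow_of_le_one (by norm_num) (by norm_num) (by omega)))) (by positivity)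
        (by linarith)
      simpa using Real.rpow_le_rpow_of_exponent_le (x := C) (by linarith)
        (pow_le_one₀ (n := r + 1) (a := (1 / 2 : ℝ)) (by norm_num) (by norm_num))
  have hW : w / C ≤ ⌊w⌋₊ := by rw [div_le_iff₀ (by linarith)]; nlinarith
  have hH : ⌊w⌋₊ ≤ n := by exact_mod_cast f1.trans n3
  have hE : 0 ≤ w ^ (-(1 / 2 : ℝ) ^ (4 * j + 6)) := by positivity
  rw [row_eq b2]
  refine (blocks (n := n) (E := (K1 + K2) * C * w ^ (-(1 / 2 : ℝ) ^ (4 * j + 6))) (by omega)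
    (by positivity) (fun a n' hn' ha => ?_) (Nat.succ_pos _) _ le_rfl).trans ?_
  · have hx : ((-(⌊√(y - b ^ 2)⌋₊ : ℤ) + a : ℤ) : ℝ) ^ 2 + (b : ℝ) ^ 2 ≤ y := by
      rw [← le_sub_iff_add_le, abs_le_floor (by linarith)]
      omega
    have e : ∀ i : ℕ, ek κ ⟨-(⌊√(y - b ^ 2)⌋₊ : ℤ) + (a + i : ℕ), b⟩ =
        exp (I * (f κ b 0 (((-(⌊√(y - b ^ 2)⌋₊ : ℤ) + a : ℤ) : ℝ) + i) : ℝ)) := fun i => by
      rw [ek_eq κ _ (by exact_mod_cast b0)]
      push_cast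
      rw [add_assoc]
    simp only [e]
    generalize ((-(⌊√(y - b ^ 2)⌋₊ : ℤ) + a : ℤ) : ℝ) = x at hx
    rcases dichotomy b0 x (4 * j + 4) with d | d
    · obtain ⟨c1, c2, c3, c4, c5⟩ := key (4 * j + 3) x le_rfl (by omega) hx
      refine (B1 κ b x (w / C) n n' _ b0 k0 f3 hH hn' c1 d c2 (by positivity) hW c3 c4).trans ?_
      rw [mul_assoc (K1 + K2)]
      gcongr
      linarith
    · obtain ⟨c1, c2, c3, c4, c5⟩ := key (4 * j + 4) x (by omega) le_rfl hx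
      refine (B2 κ b x (w / C) n n' _ b0 k0 f3 hH hn' c1 d c2 (by positivity) hW c3 c4).trans ?_
      rw [mul_assoc (K1 + K2)]
      gcongr
      linarith
  · have := len_le hy (show y - b ^ 2 ≤ y by nlinarith)
    calc _ ≤ (4 * √y) * ((K1 + K2) * C * w ^ (-(1 / 2 : ℝ) ^ (4 * j + 6))) := by
          gcongr
          linarith
      _ = _ := by ring

end X2

open X2 in
theorem X2 (h : VdCStmt) : EXPLStmt := by
  intro j
  obtain ⟨K, w0, hK, hw0, H⟩ := row h j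
  obtain ⟨θ, hθ⟩ : ∃ θ : ℝ, θ = (1 / 2 : ℝ) ^ (4 * j + 6) := ⟨_, rfl⟩
  have θ0 : 0 < θ := by rw [hθ]; positivity
  have θ1 : θ ≤ 1 := by rw [hθ]; exact pow_le_one₀ (by norm_num) (by norm_num)
  rw [← hθ] at H
  refine ⟨θ / (32 * j + 48 : ℕ), 9 * w0 + 3 * K, by positivity, fun y κ hy k1 k2 => ?_⟩
  obtain ⟨w, w1, rfl⟩ : ∃ w : ℝ, 1 ≤ w ∧ y = w ^ (32 * j + 48) :=
    ⟨y ^ ((32 * j + 48 : ℕ) : ℝ)⁻¹, Real.one_le_rpow hy (by positivity),
      (Real.rpow_inv_natCast_pow (by linarith) (by omega)).symm⟩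
  have w2 : 0 < w := by linarith
  have hs : √(w ^ (32 * j + 48)) = w ^ (16 * j + 24) := by
    rw [show 32 * j + 48 = (16 * j + 24) * 2 by ring, pow_mul, Real.sqrt_sq (by positivity)]
  have e1 : (w ^ (32 * j + 48)) ^ (1 / 4 : ℝ) = w ^ (8 * j + 12) := by
    rw [show 32 * j + 48 = (8 * j + 12) * 4 by ring, pow_mul, one_div]
    exact_mod_cast Real.pow_rpow_inv_natCast (n := 4) (by positivity) (by norm_num)
  have e2 : (w ^ (32 * j + 48)) ^ (1 - θ / (32 * j + 48 : ℕ)) = w ^ (32 * j + 48) * w ^ (-θ) := by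
    rw [sub_eq_add_neg, Real.rpow_add (by positivity), Real.rpow_one,
      ← Real.rpow_natCast w (32 * j + 48), ← Real.rpow_mul w2.le]
    congr 2
    field_simp
  rw [e1] at k1
  rw [← pow_mul] at k2
  rw [e2]
  generalize hy' : w ^ (32 * j + 48) = y at *
  have hyy : √y * √y = y := Real.mul_self_sqrt (by linarith)
  have hE : 0 < w ^ (-θ) := by positivity
  have hE1 : 1 ≤ w * w ^ (-θ) := by
    have := Real.one_le_rpow w1 (show 0 ≤ 1 + -θ by linarith)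
    rwa [Real.rpow_add w2, Real.rpow_one] at this
  have hS : ∀ b : ℤ, b ∈ Icc (-(⌊√y⌋₊ : ℤ)) ⌊√y⌋₊ ↔ (b : ℝ) ^ 2 ≤ y := fun b => by
    rw [mem_Icc, abs_le_floor (by linarith)]
  have hcard : ∀ m : ℕ, ((Icc (-(m : ℤ)) m).card : ℝ) = (2 * m + 1 : ℕ) := fun m => by
    rw [Int.card_Icc]; congr 1; omega
  have hl := len_le hy le_rfl
  rw [← sum_fiberwise_of_maps_to (t := Icc (-(⌊√y⌋₊ : ℤ)) ⌊√y⌋₊) (g := fun α : GI => α.im)
    fun α hα => (hS _).2 (by nlinarith [mem_disc.1 hα])]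
  rcases le_or_gt w0 w with hw | hw
  · set m := ⌊w ^ (16 * j + 23)⌋₊ with hm
    have a1 : ∀ b ∈ Icc (-(⌊√y⌋₊ : ℤ)) ⌊√y⌋₊,
        ‖∑ α ∈ (disc y).filter (fun α => α.im = b), ek κ α‖ ≤
          K * √y * w ^ (-θ) + if b ∈ Icc (-(m : ℤ)) m then 3 * √y else 0 := fun b hb => by
      split_ifs with hb'
      · exact (row_triv hy ((hS b).1 hb) κ).trans (le_add_of_nonneg_left (by positivity))
      · rw [add_zero]
        refine H w y κ b hw hy hs k1 k2 ?_ ((hS b).1 hb)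
        have : ((m + 1 : ℕ) : ℤ) ≤ |b| := by
          rw [mem_Icc, ← abs_le] at hb'
          omega
        have : ((m + 1 : ℕ) : ℝ) ≤ |(b : ℝ)| := by exact_mod_cast this
        have := Nat.lt_floor_add_one (w ^ (16 * j + 23))
        push_cast at *
        linarith
    refine (norm_sum_le_of_le _ a1).trans ?_
    rw [sum_add_distrib, sum_const, nsmul_eq_mul, hcard, sum_ite_mem, sum_const, nsmul_eq_mul]
    have a2 : ((Icc (-(⌊√y⌋₊ : ℤ)) ⌊√y⌋₊ ∩ Icc (-(m : ℤ)) m).card : ℝ) ≤ 3 * w ^ (16 * j + 23) := by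
      refine le_trans (by exact_mod_cast card_le_card inter_subset_right) ((hcard m).trans_le ?_)
      have := Nat.floor_le (show 0 ≤ w ^ (16 * j + 23) by positivity)
      have := one_le_pow₀ (n := 16 * j + 23) w1
      push_cast
      linarith
    have a3 : w ^ (16 * j + 23) ≤ √y * w ^ (-θ) := by
      rw [hs, pow_succ w (16 * j + 23), mul_assoc]
      exact le_mul_of_one_le_right (by positivity) hE1
    calc _ ≤ 3 * √y * (K * √y * w ^ (-θ)) + 3 * (√y * w ^ (-θ)) * (3 * √y) := by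
          gcongr
          linarith
      _ = (9 * 1 + 3 * K) * ((√y * √y) * w ^ (-θ)) := by ring
      _ ≤ _ := by rw [hyy]; gcongr
  · refine (norm_sum_le_of_le _ fun b hb => row_triv hy ((hS b).1 hb) κ).trans ?_
    rw [sum_const, nsmul_eq_mul, hcard]
    calc _ ≤ 3 * √y * (3 * √y) * 1 := by rw [mul_one]; gcongr
      _ ≤ 3 * √y * (3 * √y) * (w0 * w ^ (-θ)) := by
          gcongr
          nlinarith
      _ = (9 * w0 + 0) * ((√y * √y) * w ^ (-θ)) := by ring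
      _ ≤ _ := by
          rw [hyy]
          gcongr
          positivity

end Pool.Agent.Lib.LQ
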