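import Pool.Agent.Lib.LQ.Defs

/-! Block X3: the Gauss circle bound and angular sums over discs with small frequency. -/

set_option autoImplicit false

open Finset
open scoped Classical

noncomputable section

namespace Pool.Agent.Lib.LQ

open Pool.Agent.Lib.MP_de94cf_nt (gg det inn)

namespace X3

open MeasureTheory

lemma nm_real (α : GI) : (nm α : ℝ) = (α.re : ℝ) ^ 2 + (α.im : ℝ) ^ 2 := by
  rw [nm, Nat.cast_natAbs, abs_of_nonneg (GaussianInt.norm_nonneg α), Zsqrtd.norm_def]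
  push_cast
  ring

lemma norm_sq_eq (α : GI) : ‖(α : ℂ)‖ ^ 2 = (nm α : ℝ) := by
  rw [nm_real, Complex.sq_norm, Complex.normSq_apply, ← GaussianInt.intCast_re,
    ← GaussianInt.intCast_im]
  ring

lemma nm_eq_zero {α : GI} : nm α = 0 ↔ α = 0 := by
  rw [nm, Int.natAbs_eq_zero, GaussianInt.norm_eq_zero]

lemma mem_Sqr {a b : ℤ} {L : ℕ} {α : GI} :
    α ∈ Sqr a b L ↔ a ≤ α.re ∧ α.re < a + L ∧ b ≤ α.im ∧ α.im < b + L := by
  simp only [Sqr, mem_image, mem_product, mem_Ico]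
  constructor
  · rintro ⟨x, ⟨⟨h1, h2⟩, h3, h4⟩, rfl⟩
    exact ⟨h1, h2, h3, h4⟩
  · rintro ⟨h1, h2, h3, h4⟩
    exact ⟨(α.re, α.im), ⟨⟨h1, h2⟩, h3, h4⟩, rfl⟩

lemma sum_Sqr (a b : ℤ) (L : ℕ) (F : GI → ℝ) :
    ∑ α ∈ Sqr a b L, F α = ∑ x ∈ Ico a (a + L), ∑ y ∈ Ico b (b + L), F ⟨x, y⟩ := by
  rw [Sqr, sum_image, sum_product]
  intro x _ y _ h
  simp only [Zsqrtd.ext_iff] at h
  exact Prod.ext h.1 h.2

lemma mem_disc {M : ℝ} {α : GI} : α ∈ disc M ↔ (nm α : ℝ) ≤ M := by
  rw [disc, mem_filter]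
  refine ⟨fun h => h.2, fun h => ⟨?_, h⟩⟩
  have h1 : nm α ≤ ⌊M⌋₊ := Nat.le_floor h
  have h2 : ((nm α : ℕ) : ℤ) = α.re ^ 2 + α.im ^ 2 := by exact_mod_cast nm_real α
  have h3 : ((nm α : ℕ) : ℤ) ≤ (⌊M⌋₊ : ℤ) := by exact_mod_cast h1
  rw [mem_Sqr]
  push_cast
  have h4 := Int.le_self_sq α.re
  have h5 := Int.le_self_sq α.im
  have h6 := Int.le_self_sq (-α.re)
  have h7 := Int.le_self_sq (-α.im)
  rw [neg_sq] at h6 h7
  have h8 := sq_nonneg α.re
  have h9 := sq_nonneg α.im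
  omega

/-- the lattice point below-left of `x` -/
def fl (x : ℂ) : GI := ⟨⌊x.re⌋, ⌊x.im⌋⟩

/-- the unit cell of a lattice point -/
def cell (α : GI) : Set ℂ := {x | fl x = α}

lemma cell_eq (α : GI) : cell α = Complex.measurableEquivRealProd ⁻¹'
    (Set.Ico (α.re : ℝ) (α.re + 1) ×ˢ Set.Ico (α.im : ℝ) (α.im + 1)) := by
  ext x
  simp only [cell, fl, Set.mem_ofPred_eq, Set.mem_preimage, Set.mem_prod, Set.mem_Ico,
    Complex.measurableEquivRealProd_apply, Zsqrtd.ext_iff, Int.floor_eq_iff]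

lemma meas_cell (α : GI) : MeasurableSet (cell α) := by
  rw [cell_eq]
  exact Complex.measurableEquivRealProd.measurable (measurableSet_Ico.prod measurableSet_Ico)

lemma vol_cell (α : GI) : volume (cell α) = 1 := by
  rw [cell_eq, Complex.volume_preserving_equiv_real_prod.measure_preimage
    (measurableSet_Ico.prod measurableSet_Ico).nullMeasurableSet, Measure.volume_eq_prod,
    Measure.prod_prod]
  simp

lemma dist_fl (x : ℂ) : ‖((fl x : GI) : ℂ) - x‖ ≤ 2 := by
  refine (Complex.norm_le_abs_re_add_abs_im _).trans ?_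
  have h1 : |(((fl x : GI) : ℂ) - x).re| ≤ 1 := by
    rw [Complex.sub_re, ← GaussianInt.intCast_re]
    simp only [fl]
    rw [abs_le]
    constructor <;> linarith [Int.floor_le x.re, Int.lt_floor_add_one x.re]
  have h2 : |(((fl x : GI) : ℂ) - x).im| ≤ 1 := by
    rw [Complex.sub_im, ← GaussianInt.intCast_im]
    simp only [fl]
    rw [abs_le]
    constructor <;> linarith [Int.floor_le x.im, Int.lt_floor_add_one x.im]
  linarith

lemma vol_ball (r : ℝ) (hr : 0 ≤ r) : volume.real (Metric.ball (0 : ℂ) r) = Real.pi * r ^ 2 := by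
  rw [Measure.real, Complex.volume_ball]
  simp [ENNReal.toReal_ofReal hr, mul_comm]

lemma vol_ann (R : ℝ) (hR : 1 ≤ R) :
    volume.real (Metric.ball (0 : ℂ) (R + 3) \ Metric.ball (0 : ℂ) (R - 3)) ≤ 200 * R := by
  have hpi := Real.pi_le_four
  have hpi0 := Real.pi_pos
  by_cases h : 3 ≤ R
  · rw [measureReal_sdiff (Metric.ball_subset_ball (by linarith)) measurableSet_ball
      measure_ball_lt_top.ne, vol_ball _ (by linarith), vol_ball _ (by linarith)]
    nlinarith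
  · refine (measureReal_mono Set.sdiff_subset measure_ball_lt_top.ne).trans ?_
    rw [vol_ball _ (by linarith)]
    have : (R + 3) ^ 2 ≤ 36 := by nlinarith
    nlinarith

lemma mem_disc_iff {y : ℝ} (hy : 0 ≤ y) (α : GI) : α ∈ disc y ↔ ‖(α : ℂ)‖ ≤ Real.sqrt y := by
  rw [mem_disc, ← norm_sq_eq, Real.le_sqrt (norm_nonneg _) hy]

/-- comparison of a lattice sum over a disc with the integral over the disc -/
lemma cmp_int (F : ℂ → ℂ) (hF : Measurable F) (h1 : ∀ x, ‖F x‖ ≤ 1) (bd : GI → ℝ)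
    (hb : ∀ x, ‖F (fl x : GI) - F x‖ ≤ bd (fl x)) {y : ℝ} (hy : 1 ≤ y) :
    ‖∑ α ∈ disc y, F α - ∫ x in Metric.ball (0 : ℂ) (Real.sqrt y), F x‖ ≤
      ∑ α ∈ disc y, bd α + 200 * Real.sqrt y := by
  set R := Real.sqrt y with hR
  have hR1 : 1 ≤ R := Real.one_le_sqrt.2 hy
  have hint : ∀ s : Set ℂ, volume s ≠ ⊤ → IntegrableOn F s := fun s hs =>
    Measure.integrableOn_of_bounded hs hF.aestronglyMeasurable (M := 1)
      (Filter.Eventually.of_forall h1)
  have hc : ∀ α, volume (cell α) ≠ ⊤ := fun α => by rw [vol_cell]; simp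
  set U : Set ℂ := ⋃ α ∈ disc y, cell α with hU
  have hUm : MeasurableSet U := Finset.measurableSet_biUnion _ fun α _ => meas_cell α
  have hmem : ∀ x, x ∈ U ↔ fl x ∈ disc y := fun x => by
    simp [hU, cell]
  have hUR : U ⊆ Metric.ball 0 (R + 3) := fun x hx => by
    rw [hmem, mem_disc_iff (by linarith)] at hx
    rw [mem_ball_zero_iff]
    have := dist_fl x
    have h2 := norm_sub_norm_le x ((fl x : GI) : ℂ)
    rw [norm_sub_rev] at h2
    linarith
  have hUf : volume U ≠ ⊤ := ((measure_mono hUR).trans_lt measure_ball_lt_top).ne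
  have e1 : ∫ x in U, F x = ∑ α ∈ disc y, ∫ x in cell α, F x := by
    refine integral_biUnion_finset _ (fun α _ => meas_cell α) ?_ fun α _ => hint _ (hc α)
    intro α _ β _ hne
    refine Set.disjoint_left.2 fun x hx hx' => hne ?_
    exact (hx : fl x = α).symm.trans hx'
  have e2 : ∀ α : GI, ‖F α - ∫ x in cell α, F x‖ ≤ bd α := fun α => by
    have hv : volume.real (cell α) = 1 := by rw [Measure.real, vol_cell]; simp
    have : F α - ∫ x in cell α, F x = ∫ x in cell α, (F α - F x) := by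
      have i1 : IntegrableOn (fun _ : ℂ => F α) (cell α) := integrableOn_const (hc α)
      have := integral_sub i1.integrable (hint _ (hc α)).integrable
      rw [this, setIntegral_const, hv, one_smul]
    rw [this]
    refine (norm_setIntegral_le_of_norm_le_const (C := bd α) (hc α).lt_top fun x hx => ?_).trans
      (by rw [hv, mul_one])
    have := hb x
    rwa [(hx : fl x = α)] at this
  set A := Metric.ball (0 : ℂ) (R + 3) \ Metric.ball (0 : ℂ) (R - 3) with hA
  have hAm : MeasurableSet A := measurableSet_ball.diff measurableSet_ball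
  have hAf : volume A ≠ ⊤ := ((measure_mono Set.sdiff_subset).trans_lt measure_ball_lt_top).ne
  have e3 : ‖(∫ x in U, F x) - ∫ x in Metric.ball (0 : ℂ) R, F x‖ ≤ 200 * R := by
    rw [← integral_indicator hUm, ← integral_indicator measurableSet_ball,
      ← integral_sub ((integrable_indicator_iff hUm).2 (hint _ hUf))
        ((integrable_indicator_iff measurableSet_ball).2 (hint _ measure_ball_lt_top.ne))]
    refine (norm_integral_le_of_norm_le (g := A.indicator fun _ => (1 : ℝ))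
      ((integrable_indicator_iff hAm).2 (integrableOn_const hAf))
      (Filter.Eventually.of_forall fun x => ?_)).trans ?_
    · by_cases hx : x ∈ A
      · rw [Set.indicator_of_mem hx]
        by_cases hxU : x ∈ U <;> by_cases hxB : x ∈ Metric.ball (0 : ℂ) R <;>
          simp [hxU, hxB, h1 x]
      · rw [Set.indicator_of_notMem hx]
        have hx' : x ∉ Metric.ball (0 : ℂ) (R + 3) ∨ x ∈ Metric.ball (0 : ℂ) (R - 3) := by
          by_contra hcon
          push Not at hcon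
          exact hx ⟨hcon.1, hcon.2⟩
        rcases hx' with h | h
        · have hxU : x ∉ U := fun h' => h (hUR h')
          have hxB : x ∉ Metric.ball (0 : ℂ) R := fun h' =>
            h (Metric.ball_subset_ball (by linarith) h')
          simp [hxU, hxB]
        · have hxB : x ∈ Metric.ball (0 : ℂ) R := Metric.ball_subset_ball (by linarith) h
          have hxU : x ∈ U := by
            rw [hmem, mem_disc_iff (by linarith)]
            rw [mem_ball_zero_iff] at h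
            have := dist_fl x
            have h2 := norm_sub_norm_le ((fl x : GI) : ℂ) x
            linarith
          simp [hxU, hxB]
    · rw [integral_indicator hAm, setIntegral_const, smul_eq_mul, mul_one]
      exact vol_ann R hR1
  have e4 : ‖∑ α ∈ disc y, F α - ∫ x in U, F x‖ ≤ ∑ α ∈ disc y, bd α := by
    rw [e1, ← sum_sub_distrib]
    exact (norm_sum_le _ _).trans (sum_le_sum fun α _ => e2 α)
  calc _ ≤ ‖∑ α ∈ disc y, F α - ∫ x in U, F x‖ +
        ‖(∫ x in U, F x) - ∫ x in Metric.ball (0 : ℂ) R, F x‖ := norm_sub_le_norm_sub_add_norm_sub _ _ _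
    _ ≤ _ := add_le_add e4 e3

/-- the angular character on the plane -/
def FF (κ : ℤ) (x : ℂ) : ℂ := (x / (‖x‖ : ℂ)) ^ κ

lemma meas_FF (κ : ℤ) : Measurable (FF κ) := by
  unfold FF
  fun_prop

lemma norm_unit {x : ℂ} (hx : x ≠ 0) : ‖x / (‖x‖ : ℂ)‖ = 1 := by
  rw [norm_div, Complex.norm_real, norm_norm, div_self (norm_ne_zero_iff.2 hx)]

lemma norm_FF (κ : ℤ) (x : ℂ) : ‖FF κ x‖ ≤ 1 := by
  by_cases hx : x = 0
  · subst hx
    by_cases hκ : κ = 0
    · simp [FF, hκ]
    · simp [FF, zero_zpow _ hκ]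
  · rw [FF, norm_zpow, norm_unit hx, one_zpow]

lemma pow_sub_le {u v : ℂ} (hu : ‖u‖ = 1) (hv : ‖v‖ = 1) (n : ℕ) :
    ‖u ^ n - v ^ n‖ ≤ n * ‖u - v‖ := by
  induction n with
  | zero => simp
  | succ n ih =>
    have : u ^ (n + 1) - v ^ (n + 1) = u * (u ^ n - v ^ n) + (u - v) * v ^ n := by ring
    rw [this]
    refine (norm_add_le _ _).trans ?_
    rw [norm_mul, norm_mul, norm_pow, hu, hv, one_pow]
    push_cast
    linarith

lemma zpow_sub_le {u v : ℂ} (hu : ‖u‖ = 1) (hv : ‖v‖ = 1) (k : ℤ) :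
    ‖u ^ k - v ^ k‖ ≤ |(k : ℝ)| * ‖u - v‖ := by
  have hu0 : u ≠ 0 := by rintro rfl; simp at hu
  have hv0 : v ≠ 0 := by rintro rfl; simp at hv
  obtain ⟨n, rfl | rfl⟩ := Int.eq_nat_or_neg k
  · simpa using pow_sub_le hu hv n
  · have h := pow_sub_le (u := u⁻¹) (v := v⁻¹) (by rw [norm_inv, hu, inv_one])
      (by rw [norm_inv, hv, inv_one]) n
    have e : ‖u⁻¹ - v⁻¹‖ = ‖u - v‖ := by
      have : u⁻¹ - v⁻¹ = (v - u) / (u * v) := by field_simp
      rw [this, norm_div, norm_mul, hu, hv, norm_sub_rev]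
      simp
    rw [e] at h
    simpa [zpow_neg, inv_pow] using h

lemma unit_sub_le {a x : ℂ} (ha : a ≠ 0) (hx : x ≠ 0) :
    ‖a / (‖a‖ : ℂ) - x / (‖x‖ : ℂ)‖ ≤ 2 * ‖a - x‖ / ‖a‖ := by
  have ha' : 0 < ‖a‖ := norm_pos_iff.2 ha
  have hx' : 0 < ‖x‖ := norm_pos_iff.2 hx
  have ha'' : (‖a‖ : ℂ) ≠ 0 := by exact_mod_cast ha'.ne'
  have hx'' : (‖x‖ : ℂ) ≠ 0 := by exact_mod_cast hx'.ne'
  have e : a / (‖a‖ : ℂ) - x / (‖x‖ : ℂ) =
      ((a - x) + x / (‖x‖ : ℂ) * ((‖x‖ - ‖a‖ : ℝ) : ℂ)) / (‖a‖ : ℂ) := by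
    push_cast
    field_simp
    ring
  rw [e, norm_div, Complex.norm_real, norm_norm]
  refine div_le_div_of_nonneg_right ?_ ha'.le
  refine (norm_add_le _ _).trans ?_
  rw [norm_mul, norm_unit hx, one_mul, Complex.norm_real, Real.norm_eq_abs]
  have := abs_norm_sub_norm_le x a
  rw [norm_sub_rev] at this
  linarith

/-- one-dimensional weight -/
def wx (a : ℤ) : ℝ := 1 / Real.sqrt (|(a : ℝ)| + 1)

lemma wx_pos (a : ℤ) : 0 < wx a := by
  unfold wx
  positivity

lemma inv_norm_le {α : GI} (h : α ≠ 0) : 1 / ‖(α : ℂ)‖ ≤ 2 * (wx α.re * wx α.im) := by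
  have h1 : (1 : ℝ) ≤ nm α := by
    have : nm α ≠ 0 := fun e => h (nm_eq_zero.1 e)
    exact_mod_cast Nat.one_le_iff_ne_zero.2 this
  have h2 := norm_sq_eq α
  have h3 := nm_real α
  have hn : 1 ≤ ‖(α : ℂ)‖ := by nlinarith [norm_nonneg (α : ℂ)]
  have hre : |(α.re : ℝ)| ≤ ‖(α : ℂ)‖ := by
    apply abs_le_of_sq_le_sq' _ (norm_nonneg _) |> fun t => abs_le.2 t
    nlinarith [sq_nonneg (α.im : ℝ)]
  have him : |(α.im : ℝ)| ≤ ‖(α : ℂ)‖ := by
    apply abs_le_of_sq_le_sq' _ (norm_nonneg _) |> fun t => abs_le.2 t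
    nlinarith [sq_nonneg (α.re : ℝ)]
  have h4 : Real.sqrt (|(α.re : ℝ)| + 1) * Real.sqrt (|(α.im : ℝ)| + 1) ≤ 2 * ‖(α : ℂ)‖ := by
    rw [← Real.sqrt_mul (by positivity), Real.sqrt_le_left (by positivity)]
    have : (|(α.re : ℝ)| + 1) * (|(α.im : ℝ)| + 1) ≤ (2 * ‖(α : ℂ)‖) * (2 * ‖(α : ℂ)‖) :=
      mul_le_mul (by linarith) (by linarith) (by positivity) (by positivity)
    nlinarith
  unfold wx
  rw [one_div_mul_one_div, mul_one_div, div_le_div_iff₀ (by linarith) (by positivity)]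
  linarith

lemma FF_sub_le {κ : ℤ} (hκ : κ ≠ 0) (x : ℂ) :
    ‖FF κ (fl x : GI) - FF κ x‖ ≤ 8 * |(κ : ℝ)| * (wx (fl x).re * wx (fl x).im) := by
  have hk : (1 : ℝ) ≤ |(κ : ℝ)| := by
    rw [← Int.cast_abs]
    exact_mod_cast Int.one_le_abs hκ
  by_cases h0 : fl x = 0
  · refine (norm_sub_le _ _).trans ?_
    have := norm_FF κ (fl x : GI)
    have := norm_FF κ x
    have e : wx (fl x).re * wx (fl x).im = 1 := by
      rw [h0]
      simp [wx]
    rw [e]
    linarith
  · have hx : x ≠ 0 := by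
      rintro rfl
      apply h0
      simp [fl, Zsqrtd.ext_iff]
    have ha : ((fl x : GI) : ℂ) ≠ 0 := fun e => h0 (GaussianInt.toComplex_eq_zero.1 e)
    refine (zpow_sub_le (norm_unit ha) (norm_unit hx) κ).trans ?_
    have h1 := unit_sub_le ha hx
    have h2 := inv_norm_le h0
    have h3 := dist_fl x
    have ha' : 0 < ‖((fl x : GI) : ℂ)‖ := norm_pos_iff.2 ha
    have h4 : 2 * ‖((fl x : GI) : ℂ) - x‖ / ‖((fl x : GI) : ℂ)‖ ≤
        4 * (1 / ‖((fl x : GI) : ℂ)‖) := by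
      rw [mul_one_div]
      exact div_le_div_of_nonneg_right (by linarith) ha'.le
    have h5 : ‖((fl x : GI) : ℂ) / (‖((fl x : GI) : ℂ)‖ : ℂ) - x / (‖x‖ : ℂ)‖ ≤
        8 * (wx (fl x).re * wx (fl x).im) := by linarith
    calc _ ≤ |(κ : ℝ)| * (8 * (wx (fl x).re * wx (fl x).im)) :=
          mul_le_mul_of_nonneg_left h5 (abs_nonneg _)
      _ = _ := by ring

lemma sum_wx (n : ℕ) : ∑ a ∈ Ico (-(n : ℤ)) (-(n : ℤ) + ((2 * n + 1 : ℕ) : ℤ)), wx a ≤
    4 * Real.sqrt (n + 1) := by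
  induction n with
  | zero =>
    have e : Ico (-((0 : ℕ) : ℤ)) (-((0 : ℕ) : ℤ) + ((2 * 0 + 1 : ℕ) : ℤ)) = {0} := by decide
    rw [e]
    simp [wx]
  | succ n ih =>
    have e : Ico (-((n + 1 : ℕ) : ℤ)) (-((n + 1 : ℕ) : ℤ) + ((2 * (n + 1) + 1 : ℕ) : ℤ)) =
        insert (-((n : ℤ) + 1)) (insert ((n : ℤ) + 1)
          (Ico (-(n : ℤ)) (-(n : ℤ) + ((2 * n + 1 : ℕ) : ℤ)))) := by
      ext a
      simp only [mem_Ico, mem_insert]
      push_cast
      omega
    rw [e, sum_insert, sum_insert]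
    · have e1 : wx (-((n : ℤ) + 1)) = 1 / Real.sqrt (n + 2) := by
        unfold wx
        push_cast
        rw [abs_neg, abs_of_nonneg (by positivity)]
        congr 2
        ring
      have e2 : wx ((n : ℤ) + 1) = 1 / Real.sqrt (n + 2) := by
        unfold wx
        push_cast
        rw [abs_of_nonneg (by positivity)]
        congr 2
        ring
      rw [e1, e2]
      have e3 : ((n + 1 : ℕ) : ℝ) + 1 = n + 2 := by push_cast; ring
      rw [e3]
      set s := Real.sqrt (n + 1) with hs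
      set t := Real.sqrt (n + 2) with ht
      have hs2 : s ^ 2 = n + 1 := Real.sq_sqrt (by positivity)
      have ht2 : t ^ 2 = n + 2 := Real.sq_sqrt (by positivity)
      have hs0 : 0 ≤ s := Real.sqrt_nonneg _
      have ht0 : 0 < t := Real.sqrt_pos.2 (by positivity)
      have : 1 / t ≤ 2 * (t - s) := by
        rw [div_le_iff₀ ht0]
        nlinarith [sq_nonneg (t - s)]
      linarith
    · simp only [mem_Ico]
      push_cast
      omega
    · simp only [mem_insert, mem_Ico]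
      push_cast
      omega

lemma sum_wx_disc {y : ℝ} (hy : 1 ≤ y) :
    ∑ α ∈ disc y, wx α.re * wx α.im ≤ 32 * Real.sqrt y := by
  set n := ⌊Real.sqrt y⌋₊ with hn
  have hR1 : 1 ≤ Real.sqrt y := Real.one_le_sqrt.2 hy
  have hsub : disc y ⊆ Sqr (-(n : ℤ)) (-(n : ℤ)) (2 * n + 1) := fun α hα => by
    rw [mem_disc, nm_real] at hα
    have key : ∀ a : ℤ, (a : ℝ) ^ 2 ≤ y → |a| ≤ n := fun a ha => by
      have h1 : ((a.natAbs : ℕ) : ℝ) ≤ Real.sqrt y := by
        rw [Nat.cast_natAbs, Int.cast_abs]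
        exact Real.abs_le_sqrt ha
      have h2 : a.natAbs ≤ n := Nat.le_floor h1
      rw [Int.abs_eq_natAbs]
      exact_mod_cast h2
    have h1 := key α.re (by nlinarith [sq_nonneg (α.im : ℝ)])
    have h2 := key α.im (by nlinarith [sq_nonneg (α.re : ℝ)])
    rw [mem_Sqr]
    push_cast
    rw [abs_le] at h1 h2
    omega
  refine (sum_le_sum_of_subset_of_nonneg hsub fun α _ _ =>
    (mul_pos (wx_pos _) (wx_pos _)).le).trans ?_
  rw [sum_Sqr, ← sum_mul_sum]
  have h1 := sum_wx n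
  have h0 : 0 ≤ ∑ a ∈ Ico (-(n : ℤ)) (-(n : ℤ) + ((2 * n + 1 : ℕ) : ℤ)), wx a :=
    sum_nonneg fun a _ => (wx_pos a).le
  refine (mul_le_mul h1 h1 h0 (by positivity)).trans ?_
  have h2 : Real.sqrt (n + 1) ^ 2 = n + 1 := Real.sq_sqrt (by positivity)
  have h3 : (n : ℝ) ≤ Real.sqrt y := Nat.floor_le (by linarith)
  nlinarith

lemma int_FF {κ : ℤ} (hκ : κ ≠ 0) (R : ℝ) : ∫ x in Metric.ball (0 : ℂ) R, FF κ x = 0 := by
  set a : Circle := Circle.exp (Real.pi / κ) with ha
  have hak : (a : ℂ) ^ κ = -1 := by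
    have hk : (κ : ℂ) ≠ 0 := by exact_mod_cast hκ
    rw [ha, Circle.coe_exp, ← Complex.exp_int_mul, ← Complex.exp_pi_mul_I]
    congr 1
    push_cast
    field_simp
  rw [← integral_indicator measurableSet_ball]
  have h := MeasureTheory.integral_comp (rotation a) ((Metric.ball (0 : ℂ) R).indicator (FF κ))
  have e : ∀ x, (Metric.ball (0 : ℂ) R).indicator (FF κ) (rotation a x) =
      -(Metric.ball (0 : ℂ) R).indicator (FF κ) x := fun x => by
    have hn : ‖(a : ℂ) * x‖ = ‖x‖ := by rw [norm_mul, Circle.norm_coe, one_mul]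
    rw [rotation_apply]
    by_cases hx : x ∈ Metric.ball (0 : ℂ) R
    · have hx' : (a : ℂ) * x ∈ Metric.ball (0 : ℂ) R := by
        rwa [mem_ball_zero_iff, hn, ← mem_ball_zero_iff]
      rw [Set.indicator_of_mem hx, Set.indicator_of_mem hx', FF, FF, hn, mul_div_assoc, mul_zpow,
        hak, neg_one_mul]
    · have hx' : (a : ℂ) * x ∉ Metric.ball (0 : ℂ) R := by
        rwa [mem_ball_zero_iff, hn, ← mem_ball_zero_iff]
      rw [Set.indicator_of_notMem hx, Set.indicator_of_notMem hx', neg_zero]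
  simp only [e, integral_neg] at h
  linear_combination (-1 / 2 : ℂ) * h

end X3

open X3 in
theorem X3_gauss : GaussStmt := by
  refine ⟨200, fun y hy => ?_⟩
  have h := cmp_int (fun _ => 1) measurable_const (fun _ => by simp) (fun _ => 0) (fun _ => by simp) hy
  rw [MeasureTheory.setIntegral_const, vol_ball _ (Real.sqrt_nonneg _),
    Real.sq_sqrt (by linarith)] at h
  simp only [sum_const, nsmul_eq_mul, mul_one, smul_zero, zero_add, Complex.real_smul] at h
  rw [← Real.norm_eq_abs, ← Complex.norm_real]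
  push_cast at h ⊢
  exact h

open X3 in
theorem X3_small : EXPSStmt := by
  refine ⟨456, fun y κ hy hκ => ?_⟩
  have h := cmp_int (FF κ) (meas_FF κ) (norm_FF κ)
    (fun α => 8 * |(κ : ℝ)| * (wx α.re * wx α.im)) (FF_sub_le hκ) hy
  rw [int_FF hκ, sub_zero, ← mul_sum] at h
  have hk : (1 : ℝ) ≤ |(κ : ℝ)| := by
    rw [← Int.cast_abs]
    exact_mod_cast Int.one_le_abs hκ
  have h2 := sum_wx_disc hy
  have h3 : 8 * |(κ : ℝ)| * ∑ α ∈ disc y, wx α.re * wx α.im ≤ 8 * |(κ : ℝ)| * (32 * Real.sqrt y) :=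
    mul_le_mul_of_nonneg_left h2 (by positivity)
  have h4 : 200 * Real.sqrt y ≤ 200 * (|(κ : ℝ)| * Real.sqrt y) := by
    have := Real.sqrt_nonneg y
    nlinarith
  rw [Int.cast_abs]
  refine le_trans (le_of_eq rfl) (h.trans ?_)
  linarith

theorem X3_exp (h : EXPLStmt) (h2 : EXPSStmt) : EXPStmt := by
  intro j0
  obtain ⟨c, K, hc, hK⟩ := h j0
  obtain ⟨K', hK'⟩ := h2
  refine ⟨min c (1 / 4), max (max K K') 0, lt_min hc (by norm_num),
    (min_le_right _ _).trans (by norm_num), fun y κ hy hκ hκy => ?_⟩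
  have hy0 : 0 < y := by linarith
  by_cases hs : y ^ (1 / 4 : ℝ) ≤ (|κ| : ℝ)
  · refine (hK y κ hy hs hκy).trans ?_
    refine mul_le_mul ((le_max_left _ _).trans (le_max_left _ _)) ?_ (by positivity)
      (le_max_right _ _)
    exact Real.rpow_le_rpow_of_exponent_le hy (by linarith [min_le_left c (1 / 4)])
  · refine (hK' y κ hy hκ).trans ?_
    rw [mul_assoc]
    refine mul_le_mul ((le_max_right _ _).trans (le_max_left _ _)) ?_ (by positivity)
      (le_max_right _ _)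
    have e : y ^ (1 / 4 : ℝ) * Real.sqrt y = y ^ (1 - 1 / 4 : ℝ) := by
      rw [Real.sqrt_eq_rpow, ← Real.rpow_add hy0]
      norm_num
    have h3 : ((|κ| : ℤ) : ℝ) ≤ y ^ (1 / 4 : ℝ) := by
      rw [Int.cast_abs]
      exact (not_le.1 hs).le
    refine (mul_le_mul_of_nonneg_right h3 (Real.sqrt_nonneg _)).trans ?_
    rw [e]
    exact Real.rpow_le_rpow_of_exponent_le hy (by linarith [min_le_right c (1 / 4)])

end Pool.Agent.Lib.LQ
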