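import Pool.Agent.Lib.LQ.B1
import Pool.Agent.Lib.LQ.B2
import Pool.Agent.Lib.LQ.B3a
import Pool.Agent.Lib.LQ.B3b
import Pool.Agent.Lib.LQ.B4a
import Pool.Agent.Lib.LQ.B4b
import Pool.Agent.Lib.LQ.B4c
import Pool.Agent.Lib.LQ.X1
import Pool.Agent.Lib.LQ.X2
import Pool.Agent.Lib.LQ.X3
import Pool.Agent.Lib.LQ.M1
import Pool.Agent.Lib.LQ.M2
import Pool.Agent.Lib.LQ.M4
import Pool.Agent.Lib.LQ.M5
import Pool.Agent.Lib.LQ.M6
import Pool.Agent.Lib.LQ.M7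
import Pool.Agent.Lib.LQ.M8
import Pool.Agent.Lib.LQ.M9
import Pool.Agent.Lib.LQ.F
import Pool.Agent.Lib.LQ.QU
import Pool.Agent.Lib.LQ.AV1
import Pool.Agent.Lib.LQ.AV2
import Pool.Agent.Lib.LQ.U2
import Pool.Agent.Lib.LQ.SM
import Pool.Agent.Lib.LQ.MKVW
import Pool.Agent.Lib.LQ.L1
import Pool.Agent.Lib.LQ.SL
import Pool.Agent.Lib.LQ.V1
import Pool.Agent.Lib.LQ.OC
import Pool.Agent.Lib.LQ.UI
import Pool.Agent.Lib.LQ.NU
import Pool.Agent.Lib.LQ.UMb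
import Pool.Agent.Lib.LQ.TE
import Pool.Agent.Lib.LQ.TR

set_option autoImplicit false

namespace Pool.Agent.Lib.LQ

/-- both signs of the Liouville function at `n^2+1` occupy a positive proportion of `[X/C, CX]` -/
theorem goal : GoalStmt :=
  have pe := B4a_pe (B3b B3a)
  have efl := B4b_efl B2 pe
  have lfl := B4b_lfl B2
  have ex := X3_exp (X2 X1) X3_small
  have dec := M4 M1_mvt M2_mom X3_gauss
  have mr := M9 B1 M2_mom M2_low dec (M5 B1 M1_mvt M2_mom dec (M1_rp M1_mvt)) (M6 ex M2_mom)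
    (M7 B1 B2 ex X3_gauss) (M8_fej M2_mom)
  have qu := QU lfl B4c
  have av1 := AV1 lfl B4c qu
  have u2 := U2 efl B4a_loc
  have sm := SM u2 av1 (AV2 qu av1)
  have v1 := V1 B1 sm u2 (L1 B1 efl B4a_loc MK) (SL B1 lfl B4c qu) MK
  have nu := NU B1 v1 (UI B1 sm u2 OC) MK VW
  F_goal (TR (TE B1 lfl B4c pe B4a_loc) (UMb.main B1 u2) nu) M8_far (M8_tri M2_low) mr

theorem final : FinalStmt := F_final goal

end Pool.Agent.Lib.LQ
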