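import Pool.Agent.Lib.LQ.Basic

/-! Block L1, local means. -/

set_option autoImplicit false

open Finset
open scoped Classical

noncomputable section

namespace Pool.Agent.Lib.LQ

open Pool.Agent.Lib.MP_de94cf_nt (gg det inn)

namespace L1

lemma Lf10 (x : GI × GI) : Lf 1 0 x = x.1 := by simp [Lf]
lemma Lf01 (x : GI × GI) : Lf 0 1 x = x.2 := by simp [Lf]

lemma nm_modEq {n : ℕ} {α β : GI} (h : (n : GI) ∣ α - β) : nm α ≡ nm β [MOD n] := by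
  obtain ⟨γ, hγ⟩ := h
  rw [sub_eq_iff_eq_add] at hγ
  rw [← Int.natCast_modEq_iff, nm_int, nm_int, hγ]
  refine (Int.modEq_iff_dvd.2 ⟨-(n * γ.norm + 2 * (γ.re * β.re + γ.im * β.im)), ?_⟩)
  simp [Zsqrtd.norm_def]
  ring

lemma Lf_dvd {n : ℕ} (u v : ℤ) {x y : GI × GI} (h1 : (n : GI) ∣ x.1 - y.1)
    (h2 : (n : GI) ∣ x.2 - y.2) : (n : GI) ∣ Lf u v x - Lf u v y := by
  have : Lf u v x - Lf u v y = u * (x.1 - y.1) + v * (x.2 - y.2) := by simp only [Lf]; ring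
  rw [this]
  exact dvd_add (h1.mul_left _) (h2.mul_left _)

lemma Em_congr {m : ℕ} {φ ψ : GI × GI → ℝ}
    (h : ∀ x : GI × GI, (m : ℤ) ∣ det x.1 x.2 - 1 → φ x = ψ x) : Em m φ = Em m ψ :=
  le_antisymm (Em_mono fun x hx => (h x hx).le) (Em_mono fun x hx => (h x hx).ge)

/-- primitive form at `l` -/
def Pm (l : ℕ) (u v : ℤ) : Prop := ¬ ((l : ℤ) ∣ u ∧ (l : ℤ) ∣ v)

lemma dl {l : ℕ} {a : ℤ} (h : ((l ^ 2 : ℕ) : ℤ) ∣ a) : (l : ℤ) ∣ a :=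
  (Int.natCast_dvd_natCast.2 (dvd_pow_self l two_ne_zero)).trans h

section
variable (hL : LocStmt) {l : ℕ} {π : GI} (hl : l.Prime) (h2 : l ≠ 2) (hπ : nm π = l)
include hL hl h2 hπ

lemma mean_E {u v : ℤ} (h : Pm l u v) :
    Em (l ^ 2) (fun x => ind (l ∣ nm (Lf u v x))) = 2 / ((l : ℝ) + 1) := by
  subst hπ
  have e1 := (hL _ π hl h2 rfl u v u v h h).1
  have e2 := (hL _ (star π) hl h2 (nm_star π) u v u v h h).1
  rw [Em_congr (ψ := fun x => ind (π ∣ Lf u v x) + ind (star π ∣ Lf u v x)), Em_add, e1, e2]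
  · ring
  · intro x hx
    have : ¬ (π ∣ Lf u v x ∧ star π ∣ Lf u v x) := fun h' =>
      h (dvd_coef (dl hx) (natCast_dvd_of hl h2 h'.1 h'.2))
    rw [dvd_nm_iff hl]
    by_cases a : π ∣ Lf u v x <;> by_cases b : star π ∣ Lf u v x <;> simp_all [ind]

lemma mean_sq {u v : ℤ} (h : Pm l u v) :
    Em (l ^ 2) (fun x => ind (l ^ 2 ∣ nm (Lf u v x))) ≤ 2 / ((l : ℝ) * ((l : ℝ) + 1)) := by
  subst hπ
  have e1 := (hL _ π hl h2 rfl u v u v h h).2.1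
  have e2 := (hL _ (star π) hl h2 (nm_star π) u v u v h h).2.1
  refine (Em_mono (ψ := fun x => ind (π ^ 2 ∣ Lf u v x) + ind (star π ^ 2 ∣ Lf u v x)) ?_).trans ?_
  · intro x hx
    refine (ind_mono fun h' => ?_).trans (ind_or_le _ _)
    rcases sq_dvd_nm hl h' with a | a | a
    · exact Or.inl a
    · exact Or.inr a
    · exact (h (dvd_coef (dl hx) a)).elim
  · rw [Em_add]
    refine (add_le_add e1 e2).trans (le_of_eq ?_)
    ring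

lemma mean_piE {u v u' v' : ℤ} (h : Pm l u v) (h' : Pm l u' v') (hr : ¬ (l : ℤ) ∣ u * v' - v * u') :
    Em (l ^ 2) (fun x => ind (π ∣ Lf u v x ∧ l ∣ nm (Lf u' v' x))) ≤
      1 / ((l : ℝ) * ((l : ℝ) + 1)) := by
  subst hπ
  refine (Em_mono fun x hx => ind_mono fun a => ?_).trans (hL _ π hl h2 rfl u v u' v' h h').2.2
  refine ⟨a.1, ((dvd_nm_iff hl).1 a.2).resolve_left fun b => hr (dvd_res hl (dl hx) a.1 b)⟩

lemma mean_EE {u v u' v' : ℤ} (h : Pm l u v) (h' : Pm l u' v') (hr : ¬ (l : ℤ) ∣ u * v' - v * u') :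
    Em (l ^ 2) (fun x => ind (l ∣ nm (Lf u v x)) * ind (l ∣ nm (Lf u' v' x))) ≤
      2 / ((l : ℝ) * ((l : ℝ) + 1)) := by
  have e1 := mean_piE hL hl h2 hπ h h' hr
  have e2 := mean_piE hL hl h2 ((nm_star π).trans hπ) h h' hr
  refine (Em_mono (ψ := fun x => ind (π ∣ Lf u v x ∧ l ∣ nm (Lf u' v' x)) +
    ind (star π ∣ Lf u v x ∧ l ∣ nm (Lf u' v' x))) ?_).trans ?_
  · intro x _
    rw [← ind_and]
    refine (ind_mono fun a => ?_).trans (ind_or_le _ _)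
    subst hπ
    exact ((dvd_nm_iff hl).1 a.1).imp (fun b => ⟨b, a.2⟩) fun b => ⟨b, a.2⟩
  · rw [Em_add]
    refine (add_le_add e1 e2).trans (le_of_eq ?_)
    ring

end

/-- `l` divides `N / n` when `n` is a squarefree divisor of `N` -/
def bad (l n N : ℕ) : Prop := if l ∣ n then l ^ 2 ∣ N else l ∣ N

lemma bad_iff {l n A : ℕ} (hl : l.Prime) (hn : Squarefree n) : bad l n (n * A) ↔ l ∣ A := by
  unfold bad
  split_ifs with h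
  · obtain ⟨n', rfl⟩ := h
    have h' : ¬ l ∣ n' := fun h' => hl.not_isUnit (hn l (mul_dvd_mul_left l h'))
    rw [pow_two, mul_assoc, Nat.mul_dvd_mul_iff_left hl.pos, hl.dvd_mul]
    tauto
  · rw [hl.dvd_mul]
    tauto

lemma mean_bad (hL : LocStmt) {l : ℕ} {π : GI} (hl : l.Prime) (h2 : l ≠ 2) (hπ : nm π = l)
    {u v u' v' : ℤ} {n : ℕ} (h : Pm l u v) (h' : Pm l u' v')
    (hr : ¬ l ∣ n → ¬ (l : ℤ) ∣ u * v' - v * u') :
    Em (l ^ 2) (fun x => ind (π ∣ Lf u v x ∧ bad l n (nm (Lf u' v' x)))) ≤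
      2 / ((l : ℝ) * ((l : ℝ) + 1)) := by
  unfold bad
  split_ifs with hn
  · exact (Em_mono fun x _ => ind_mono And.right).trans (mean_sq hL hl h2 hπ h')
  · refine (mean_piE hL hl h2 hπ h h' (hr hn)).trans ?_
    gcongr
    norm_num

/-- weight `lam` on the event `p` -/
def wl (lam : ℝ) (p : Prop) : ℝ := if p then lam else 1

/-- local factor at a prime of the label or of `q` -/
def f0 (l : ℕ) (A : GI) (u v c k m : ℤ) (n1 n3 n4 : ℕ) (x : GI × GI) : ℝ :=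
  ind ((l : GI) ∣ A * Lf u v x ∧ ¬ bad l n1 (nm (Lf 1 0 x)) ∧ ¬ bad l 1 (nm (Lf 0 1 x)) ∧
    ¬ bad l n3 (nm (Lf 1 c x)) ∧ ¬ bad l n4 (nm (Lf k m x)))

/-- the sieving conditions at a generic prime -/
def g1 (l y a b c d : ℕ) : Prop := ¬ l ∣ a ∧ ¬ l ∣ b ∧ ¬ l ^ 2 ∣ c * d ∧ (l ∣ y → ¬ l ∣ c * d)

/-- local factor at a generic prime -/
def f1 (l : ℕ) (lam : ℝ) (c k m : ℤ) (y : ℕ) (x : GI × GI) : ℝ :=
  ind (g1 l y (nm (Lf 1 0 x)) (nm (Lf 0 1 x)) (nm (Lf 1 c x)) (nm (Lf k m x))) *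
    (wl lam (l ∣ nm (Lf 1 c x)) * wl lam (l ∣ nm (Lf k m x)))

lemma mq {l a b : ℕ} (h : a ≡ b [MOD l ^ 2]) : (l ∣ a ↔ l ∣ b) ∧ (l ^ 2 ∣ a ↔ l ^ 2 ∣ b) :=
  ⟨h.dvd_iff (dvd_pow_self l two_ne_zero), h.dvd_iff dvd_rfl⟩

lemma per_f0 (l : ℕ) (A : GI) (u v c k m : ℤ) (n1 n3 n4 : ℕ) :
    Per (l ^ 2) (f0 l A u v c k m n1 n3 n4) := by
  intro x y h1 h2
  have e := fun u v => mq (nm_modEq (Lf_dvd u v h1 h2))
  have e0 : (l : GI) ∣ A * Lf u v x ↔ (l : GI) ∣ A * Lf u v y := by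
    have : (l : GI) ∣ A * Lf u v x - A * Lf u v y := by
      rw [← mul_sub]
      exact ((Nat.cast_dvd_cast (dvd_pow_self l two_ne_zero)).trans (Lf_dvd u v h1 h2)).mul_left _
    exact dvd_iff_dvd_of_dvd_sub this
  simp only [f0, bad, e0, (e _ _).1, (e _ _).2]

lemma per_f1 (l : ℕ) (lam : ℝ) (c k m : ℤ) (y : ℕ) : Per (l ^ 2) (f1 l lam c k m y) := by
  intro x x' h1 h2
  have e := fun u v => nm_modEq (Lf_dvd u v h1 h2)
  have e' := mq ((e 1 c).mul (e k m))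
  simp only [f1, g1, (mq (e _ _)).1, e'.1, e'.2]

lemma wl_bd {lam : ℝ} (h0 : 0 ≤ lam) (h1 : lam ≤ 1) (p : Prop) : 0 ≤ wl lam p ∧ wl lam p ≤ 1 := by
  unfold wl
  split_ifs
  exacts [⟨h0, h1⟩, ⟨zero_le_one, le_rfl⟩]

lemma f1_bd (l : ℕ) {lam : ℝ} (h0 : 0 ≤ lam) (h1 : lam ≤ 1) (c k m : ℤ) (y : ℕ) (x : GI × GI) :
    0 ≤ f1 l lam c k m y x ∧ f1 l lam c k m y x ≤ 1 :=
  ⟨mul_nonneg (ind_nonneg _) (mul_nonneg (wl_bd h0 h1 _).1 (wl_bd h0 h1 _).1),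
    mul_le_one₀ (ind_le_one _) (mul_nonneg (wl_bd h0 h1 _).1 (wl_bd h0 h1 _).1)
      (mul_le_one₀ (wl_bd h0 h1 _).2 (wl_bd h0 h1 _).1 (wl_bd h0 h1 _).2)⟩

lemma pt_lo {l : ℕ} (hl : l.Prime) {lam : ℝ} (h0 : 0 ≤ lam) (h1 : lam ≤ 1) (y a b c d : ℕ) :
    1 - (ind (l ∣ a) + ind (l ∣ b) + (1 - lam + ind (l ∣ y)) * (ind (l ∣ c) + ind (l ∣ d)) +
      (ind (l ^ 2 ∣ c) + ind (l ^ 2 ∣ d) + ind (l ∣ c) * ind (l ∣ d))) ≤
      ind (g1 l y a b c d) * (wl lam (l ∣ c) * wl lam (l ∣ d)) := by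
  have key : l ^ 2 ∣ c * d → l ^ 2 ∣ c ∨ l ^ 2 ∣ d ∨ (l ∣ c ∧ l ∣ d) := fun h => by
    by_cases hc : l ∣ c
    · by_cases hd : l ∣ d
      · exact Or.inr (Or.inr ⟨hc, hd⟩)
      · exact Or.inl ((Nat.Coprime.pow_left 2 ((Nat.Prime.coprime_iff_not_dvd hl).2 hd)).dvd_of_dvd_mul_right h)
    · exact Or.inr (Or.inl
        ((Nat.Coprime.pow_left 2 ((Nat.Prime.coprime_iff_not_dvd hl).2 hc)).dvd_of_dvd_mul_left h))
  have n := ind_nonneg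
  have w := fun p => (wl_bd h0 h1 p).1
  by_cases hg : g1 l y a b c d
  · rw [ind_true hg, one_mul]
    have := n (l ∣ a); have := n (l ∣ b); have := n (l ^ 2 ∣ c); have := n (l ^ 2 ∣ d)
    have := n (l ∣ y)
    by_cases hc : l ∣ c <;> by_cases hd : l ∣ d <;>
      simp only [wl, hc, hd, if_true, if_false, ind_true trivial, ind_false not_false] <;> nlinarith
  · rw [ind_false hg, zero_mul]
    have p1 := mul_nonneg (add_nonneg (sub_nonneg.2 h1) (n (l ∣ y))) (add_nonneg (n (l ∣ c)) (n (l ∣ d)))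
    have p2 := mul_nonneg (n (l ∣ c)) (n (l ∣ d))
    have := n (l ∣ a); have := n (l ∣ b); have := n (l ^ 2 ∣ c); have := n (l ^ 2 ∣ d)
    have := n (l ∣ c); have := n (l ∣ d)
    simp only [g1, not_and_or, not_not, Classical.not_imp, hl.dvd_mul] at hg
    rcases hg with h | h | h | ⟨h, h' | h'⟩
    · linarith [ind_true h]
    · linarith [ind_true h]
    · rcases key h with h | h | ⟨h, h'⟩
      · linarith [ind_true h]
      · linarith [ind_true h]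
      · rw [ind_true h, ind_true h'] at *
        linarith
    · rw [ind_true h, ind_true h'] at *
      nlinarith
    · rw [ind_true h, ind_true h'] at *
      nlinarith

lemma pt_hi {l : ℕ} {lam : ℝ} (h0 : 0 ≤ lam) (h1 : lam ≤ 1) (y a b c d : ℕ) :
    ind (g1 l y a b c d) * (wl lam (l ∣ c) * wl lam (l ∣ d)) ≤
      1 - (ind (l ∣ a) + ind (l ∣ b) + (1 - lam) * (ind (l ∣ c) + ind (l ∣ d))) +
      (ind (l ∣ a) * ind (l ∣ b) + ind (l ∣ a) * ind (l ∣ c) + ind (l ∣ a) * ind (l ∣ d) +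
        ind (l ∣ b) * ind (l ∣ c) + ind (l ∣ b) * ind (l ∣ d) + ind (l ∣ c) * ind (l ∣ d)) := by
  have : ind (g1 l y a b c d) ≤ ind (¬ l ∣ a ∧ ¬ l ∣ b) := ind_mono fun h => ⟨h.1, h.2.1⟩
  refine (mul_le_mul_of_nonneg_right this
    (mul_nonneg (wl_bd h0 h1 _).1 (wl_bd h0 h1 _).1)).trans ?_
  by_cases ha : l ∣ a <;> by_cases hb : l ∣ b <;> by_cases hc : l ∣ c <;> by_cases hd : l ∣ d <;>
    simp [wl, ind, ha, hb, hc, hd] <;> nlinarith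

section
variable (hL : LocStmt) {l : ℕ} {π : GI} (hl : l.Prime) (h2 : l ≠ 2) (hπ : nm π = l)
include hl

lemma pm1 (c : ℤ) : Pm l 1 c := fun h => hl.one_lt.ne' (by exact_mod_cast Int.eq_one_of_dvd_one (by positivity) h.1)
lemma pm0 : Pm l 0 1 := fun h => pm1 hl 1 ⟨h.2, h.2⟩
lemma nd1 : ¬ (l : ℤ) ∣ 1 := fun h => pm1 hl 1 ⟨h, h⟩

include hL h2 hπ

lemma mean_f0 {A : GI} {u v c k m : ℤ} {n1 n3 n4 : ℕ} (hA : ∀ L, (l : GI) ∣ A * L ↔ π ∣ L)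
    (h : Pm l u v) (h4 : Pm l k m) (r1 : ¬ l ∣ n1 → ¬ (l : ℤ) ∣ u * 0 - v * 1)
    (r2 : ¬ (l : ℤ) ∣ u * 1 - v * 0) (r3 : ¬ l ∣ n3 → ¬ (l : ℤ) ∣ u * c - v * 1)
    (r4 : ¬ l ∣ n4 → ¬ (l : ℤ) ∣ u * m - v * k) :
    1 / ((l : ℝ) + 1) * (1 - 8 / l) ≤ Em (l ^ 2) (f0 l A u v c k m n1 n3 n4) ∧
      Em (l ^ 2) (f0 l A u v c k m n1 n3 n4) ≤ 1 / ((l : ℝ) + 1) := by
  have e := (hL _ π hl h2 hπ u v u v h h).1
  have e1 := mean_bad hL hl h2 hπ h (pm1 hl 0) r1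
  have e2 := mean_bad hL hl h2 hπ (n := 1) h (pm0 hl) fun _ => r2
  have e3 := mean_bad hL hl h2 hπ h (pm1 hl c) r3
  have e4 := mean_bad hL hl h2 hπ h h4 r4
  refine ⟨le_trans ?_ (Em_mono (φ := fun x => ind (π ∣ Lf u v x) -
    (ind (π ∣ Lf u v x ∧ bad l n1 (nm (Lf 1 0 x))) + ind (π ∣ Lf u v x ∧ bad l 1 (nm (Lf 0 1 x))) +
     ind (π ∣ Lf u v x ∧ bad l n3 (nm (Lf 1 c x))) + ind (π ∣ Lf u v x ∧ bad l n4 (nm (Lf k m x)))))
      fun x _ => ?_), (Em_mono fun x _ => ind_mono fun a => (hA _).1 a.1).trans e.le⟩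
  · rw [Em_sub, Em_add, Em_add, Em_add, e]
    have : (0 : ℝ) < l := by exact_mod_cast hl.pos
    have : 1 / ((l : ℝ) + 1) * (1 - 8 / l) = 1 / ((l : ℝ) + 1) - 4 * (2 / (l * (l + 1))) := by
      field_simp
      ring
    linarith
  · simp only [f0, hA]
    by_cases a : π ∣ Lf u v x <;> by_cases b1 : bad l n1 (nm (Lf 1 0 x)) <;>
      by_cases b2 : bad l 1 (nm (Lf 0 1 x)) <;> by_cases b3 : bad l n3 (nm (Lf 1 c x)) <;>
      by_cases b4 : bad l n4 (nm (Lf k m x)) <;> simp [ind, a, b1, b2, b3, b4] <;> norm_num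

lemma mean_f1_lo {lam : ℝ} (h0 : 0 ≤ lam) (h1 : lam ≤ 1) {c k m : ℤ} (y : ℕ)
    (hm : ¬ (l : ℤ) ∣ m) (hr : ¬ (l : ℤ) ∣ 1 * m - c * k) :
    1 - ((4 - 2 * lam + 2 * ind (l ∣ y)) * (2 / ((l : ℝ) + 1)) + 6 / (l * (l + 1))) ≤
      Em (l ^ 2) (f1 l lam c k m y) := by
  have h4 : Pm l k m := fun h => hm h.2
  refine le_trans ?_ (Em_mono fun x _ => pt_lo hl h0 h1 y _ _ _ _)
  have hp : 1 ≤ l ^ 2 := Nat.one_le_pow _ _ hl.pos
  simp only [Em_sub, Em_add, Em_smul, Em_const hp, mean_E hL hl h2 hπ (pm1 hl _),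
    mean_E hL hl h2 hπ (pm0 hl), mean_E hL hl h2 hπ h4]
  have e1 := mean_sq hL hl h2 hπ (pm1 hl c)
  have e2 := mean_sq hL hl h2 hπ h4
  have e3 := mean_EE hL hl h2 hπ (pm1 hl c) h4 hr
  have : (6 : ℝ) / (l * (l + 1)) = 3 * (2 / (l * (l + 1))) := by ring
  linarith

lemma mean_f1_hi {lam : ℝ} (h0 : 0 ≤ lam) (h1 : lam ≤ 1) {c k m : ℤ} (y : ℕ)
    (hm : ¬ (l : ℤ) ∣ m) (hr : ¬ (l : ℤ) ∣ 1 * m - c * k) (hc : ¬ (l : ℤ) ∣ c)
    (hk : ¬ (l : ℤ) ∣ k) :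
    Em (l ^ 2) (f1 l lam c k m y) ≤
      1 - (4 - 2 * lam) * (2 / ((l : ℝ) + 1)) + 12 / (l * (l + 1)) := by
  have h4 : Pm l k m := fun h => hm h.2
  refine (Em_mono fun x _ => pt_hi h0 h1 y _ _ _ _).trans ?_
  have hp : 1 ≤ l ^ 2 := Nat.one_le_pow _ _ hl.pos
  simp only [Em_sub, Em_add, Em_smul, Em_const hp, mean_E hL hl h2 hπ (pm1 hl _),
    mean_E hL hl h2 hπ (pm0 hl), mean_E hL hl h2 hπ h4]
  have e1 := mean_EE hL hl h2 hπ (pm1 hl 0) (pm0 hl) (by simpa using nd1 hl)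
  have e2 := mean_EE hL hl h2 hπ (pm1 hl 0) (pm1 hl c) (by simpa using hc)
  have e3 := mean_EE hL hl h2 hπ (pm1 hl 0) h4 (by simpa using hm)
  have e4 := mean_EE hL hl h2 hπ (pm0 hl) (pm1 hl c) (by simpa using nd1 hl)
  have e5 := mean_EE hL hl h2 hπ (pm0 hl) h4 (by simpa using hk)
  have e6 := mean_EE hL hl h2 hπ (pm1 hl c) h4 hr
  have : (12 : ℝ) / (l * (l + 1)) = 6 * (2 / (l * (l + 1))) := by ring
  linarith

end

end L1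

end Pool.Agent.Lib.LQ
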