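import Pool.Agent.Lib.LQ.L1Aux1

/-! Block L1, arithmetic of one parameter and the pointwise inequality. -/

set_option autoImplicit false

open Finset
open scoped Classical

noncomputable section

namespace Pool.Agent.Lib.LQ

open Pool.Agent.Lib.MP_de94cf_nt (gg det inn)

namespace L1

/-- standing hypotheses -/
structure H (v a1 e f : ℕ) (z : ℝ) (S : Finset GI) (ρ : GI) (Y0 : ℝ) (t : Tt) : Prop where
  lab : Lab1 v a1 e f z S ρ Y0
  adm : Adm v (3 * a1) e f z S ρ (WW v) Y0 2 t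
  qp : t.q < t.p ρ
  ck : Nat.Coprime (t.k ρ).natAbs (nm (pr S))
  hQ : (nm (pr (sm (ww v) z t.Q)) : ℝ) ≤ z ^ a1
  hz : 2 ≤ z
  wz : ww v ≤ z
  hw : 36 ≤ ww v

/-- the product of the special primes -/
def n0 (S : Finset GI) (ρ : GI) (t : Tt) : ℕ := nm (pr S * ρ) * t.q

/-- generic primes -/
def LG (v : ℕ) (z : ℝ) (S : Finset GI) (ρ : GI) (t : Tt) : Finset ℕ :=
  (PP (ww v) z).filter fun l => ¬ l ∣ n0 S ρ t

/-- local factors -/
def ph (S : Finset GI) (ρ : GI) (t : Tt) (lam : ℕ → ℝ) (l : ℕ) : GI × GI → ℝ :=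
  if l ∣ t.q then f0 l t.Q 1 t.c t.c (t.k ρ) (t.m ρ) (nm (pr S * ρ)) (nm (pr t.S2) * t.q)
    (nm (pr t.S2) * t.p ρ * t.q)
  else if l ∣ nm (pr S * ρ) then f0 l (star (pr S * ρ)) 1 0 t.c (t.k ρ) (t.m ρ) (nm (pr S * ρ))
    (nm (pr t.S2) * t.q) (nm (pr t.S2) * t.p ρ * t.q)
  else f1 l (lam l) t.c (t.k ρ) (t.m ρ) t.y

lemma per_ph (S : Finset GI) (ρ : GI) (t : Tt) (lam : ℕ → ℝ) (l : ℕ) :
    Per (l ^ 2) (ph S ρ t lam l) := by
  unfold ph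
  split_ifs
  · apply per_f0
  · apply per_f0
  · apply per_f1

lemma ph_gen {S : Finset GI} {ρ : GI} {t : Tt} (lam : ℕ → ℝ) {l : ℕ} (h : ¬ l ∣ n0 S ρ t) :
    ph S ρ t lam l = f1 l (lam l) t.c (t.k ρ) (t.m ρ) t.y := by
  unfold ph
  rw [if_neg fun a => h (a.mul_left _), if_neg fun a => h (a.mul_right _)]

lemma ph_bd0 {S : Finset GI} {ρ : GI} {t : Tt} (lam : ℕ → ℝ) {l : ℕ} (hl : l.Prime)
    (h : l ∣ n0 S ρ t) (x : GI × GI) : 0 ≤ ph S ρ t lam l x ∧ ph S ρ t lam l x ≤ 1 := by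
  unfold ph
  split_ifs with a b
  exacts [⟨ind_nonneg _, ind_le_one _⟩, ⟨ind_nonneg _, ind_le_one _⟩,
    ((hl.dvd_mul.1 h).elim b a).elim]

lemma om_eq {w z : ℝ} {α : GI} (h : ∀ l ∈ PP w z, ¬ l ^ 2 ∣ nm α) :
    om w z α = ((PP w z).filter fun l => l ∣ nm α).card := by
  refine card_bij (fun π _ => nm π) (fun π hπ => ?_) (fun π hπ π' hπ' e => ?_) fun l hl => ?_
  · exact mem_filter.2 ⟨(mem_GF.1 (mem_sm.1 hπ).1).1, nm_dvd (mem_sm.1 hπ).2⟩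
  · obtain ⟨a, b⟩ := mem_sm.1 hπ
    obtain ⟨a', b'⟩ := mem_sm.1 hπ'
    rcases GF_eq_or_star a a' e with c | c
    · exact c.symm
    · have := nm_dvd (natCast_dvd_of (GF_nm_prime a) (GF_nm_ne_two a) b (c ▸ b'))
      rw [nm_natCast] at this
      exact (h _ (mem_GF.1 a).1 this).elim
  · obtain ⟨a, b⟩ := mem_filter.1 hl
    obtain ⟨π, hπ, rfl⟩ := exists_GH a
    have g := (mem_GH.1 hπ).1
    rcases (dvd_nm_iff (GF_nm_prime g)).1 b with c | c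
    · exact ⟨π, mem_sm.2 ⟨g, c⟩, rfl⟩
    · exact ⟨star π, mem_sm.2 ⟨star_mem_GF g, c⟩, nm_star π⟩

lemma dvd_sm {w z : ℝ} {α : GI} {l : ℕ} (hl : l ∈ PP w z) (h : l ∣ nm α) :
    l ∣ nm (pr (sm w z α)) := by
  obtain ⟨π, hπ, rfl⟩ := exists_GH hl
  have g := (mem_GH.1 hπ).1
  rcases (dvd_nm_iff (GF_nm_prime g)).1 h with c | c
  · exact nm_dvd (dvd_pr (mem_sm.2 ⟨g, c⟩))
  · exact nm_star π ▸ nm_dvd (dvd_pr (mem_sm.2 ⟨star_mem_GF g, c⟩))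

lemma sg_mono {a b : ℕ} (h : a ∣ b) (hb : b ≠ 0) : sg a ≤ sg b :=
  sum_le_sum_of_subset_of_nonneg (Nat.primeFactors_mono h hb) fun _ _ _ => by positivity

lemma prod_le_of_dvd {T : Finset ℕ} {M : ℕ} (hM : M ≠ 0) (h : ∀ l ∈ T, l.Prime ∧ l ∣ M) :
    ∏ l ∈ T, (l : ℝ) ≤ M := by
  have : ∏ l ∈ T, l ∣ M := (prod_dvd_prod_of_subset _ _ _ fun l hl =>
    Nat.mem_primeFactors.2 ⟨(h l hl).1, (h l hl).2, hM⟩).trans (Nat.prod_primeFactors_dvd M)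
  rw [← Nat.cast_prod]
  exact Nat.cast_le.2 (Nat.le_of_dvd (Nat.pos_of_ne_zero hM) this)

lemma nsq {l n : ℕ} (hl : l.Prime) (hn : Squarefree n) : ¬ l ^ 2 ∣ n := fun h =>
  hl.not_isUnit (hn l (pow_two l ▸ h))

lemma sq_left {l a b : ℕ} (hl : l.Prime) (hb : ¬ l ∣ b) (h : l ^ 2 ∣ a * b) : l ^ 2 ∣ a :=
  (Nat.Coprime.pow_left 2 ((Nat.Prime.coprime_iff_not_dvd hl).2 hb)).dvd_of_dvd_mul_right h

namespace H

variable {v a1 e f : ℕ} {z : ℝ} {S : Finset GI} {ρ : GI} {Y0 : ℝ} {t : Tt}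
  (h : H v a1 e f z S ρ Y0 t)
include h

lemma sp : nm (pr t.S2) * t.p ρ ∣ nm (pr S * ρ) := by
  rw [Tt.p, ← nm_mul, ← mul_assoc, ← pr_union h.adm.disj]
  exact nm_dvd (mul_dvd_mul_right (pr_dvd_pr (union_subset h.adm.sub2 h.adm.sub3)) _)

lemma sf0 : Squarefree (n0 S ρ t) :=
  (Nat.squarefree_mul h.adm.copq.symm).2 ⟨h.lab.lab.sf, h.adm.sfq⟩

lemma d4 : nm (pr t.S2) * t.p ρ * t.q ∣ n0 S ρ t := mul_dvd_mul_right h.sp _

lemma d3 : nm (pr t.S2) * t.q ∣ n0 S ρ t :=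
  mul_dvd_mul_right ((dvd_mul_right _ _).trans h.sp) _

lemma big1 {l : ℕ} (hl : l.Prime) (d : l ∣ nm (pr S * ρ)) : ww v < (l : ℝ) := by
  rw [nm_mul, hl.dvd_mul] at d
  rcases d with d | d
  · rw [nm_pr] at d
    obtain ⟨π, hπ, d⟩ := (Prime.dvd_finsetProd_iff hl.prime _).1 d
    have g := h.lab.lab.sub hπ
    rw [(Nat.prime_dvd_prime_iff_eq hl (GF_nm_prime g)).1 d]
    exact (mem_PP.1 (mem_GF.1 g).1).2.2.1
  · exact h.wz.trans_lt (h.lab.lab.rough l hl d)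

lemma big {l : ℕ} (hl : l.Prime) (d : l ∣ n0 S ρ t) : ww v < (l : ℝ) :=
  (hl.dvd_mul.1 d).elim (h.big1 hl) (h.adm.bigq l hl)

lemma kq : (t.y : ℤ) * t.k ρ = t.p ρ - t.q := Int.mul_ediv_cancel' h.adm.ydvd

lemma res : 1 * t.m ρ - t.c * t.k ρ = (nm (pr t.S2) * t.q : ℕ) := by
  have := h.kq
  simp only [Tt.m, Tt.c]
  push_cast
  linear_combination (-(nm (pr t.S2) : ℤ)) * this

lemma k_ne : t.k ρ ≠ 0 := fun a => by
  have := h.kq
  rw [a, mul_zero] at this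
  exact h.adm.ne (by omega)

lemma pq {l : ℕ} (hl : l.Prime) (a : l ∣ nm (pr S * ρ)) : ¬ l ∣ t.q := fun b =>
  hl.one_lt.ne' (Nat.eq_one_of_dvd_coprimes h.adm.copq b a)

lemma yn {l : ℕ} (hl : l.Prime) (d : l ∣ n0 S ρ t) : ¬ l ∣ t.y := fun a => by
  have c : ¬ l ∣ nm (pr S * ρ) := fun b =>
    hl.one_lt.ne' (Nat.eq_one_of_dvd_coprimes h.adm.copy a b)
  have b : (l : ℤ) ∣ t.q := Int.natCast_dvd_natCast.2 ((hl.dvd_mul.1 d).resolve_left c)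
  have := dvd_add ((Int.natCast_dvd_natCast.2 a).trans h.adm.ydvd) b
  rw [sub_add_cancel] at this
  exact c ((Int.natCast_dvd_natCast.1 this).trans ((dvd_mul_left _ _).trans h.sp))

lemma pm4 {l : ℕ} (hl : l.Prime) : Pm l (t.k ρ) (t.m ρ) := fun ⟨a, b⟩ => by
  have b' : l ∣ nm (pr t.S2) * t.p ρ := by
    rw [Tt.m] at b
    exact_mod_cast b
  rcases hl.dvd_mul.1 b' with c | c
  · exact hl.one_lt.ne' (Nat.eq_one_of_dvd_coprimes h.ck (Int.natCast_dvd.1 a)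
      (c.trans (nm_dvd (pr_dvd_pr h.adm.sub2))))
  · have := dvd_sub (Int.natCast_dvd_natCast.2 c) (h.kq ▸ a.mul_left t.y)
    rw [sub_sub_cancel] at this
    exact h.pq hl (b'.trans h.sp) (Int.natCast_dvd_natCast.1 this)

omit h in
lemma c_dvd {l : ℕ} (hl : l.Prime) (a : (l : ℤ) ∣ t.c) : l ∣ t.y ∨ l ∣ nm (pr t.S2) := by
  rw [Tt.c] at a
  exact hl.dvd_mul.1 (by exact_mod_cast a)

lemma mean0 (hL : LocStmt) (lam : ℕ → ℝ) {l : ℕ} (hl : l.Prime) (d : l ∣ n0 S ρ t) :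
    1 / ((l : ℝ) + 1) * (1 - 8 / l) ≤ Em (l ^ 2) (ph S ρ t lam l) ∧
      Em (l ^ 2) (ph S ρ t lam l) ≤ 1 / ((l : ℝ) + 1) := by
  have h2 : l ≠ 2 := by
    rintro rfl
    have := h.big hl d
    have := h.hw
    push_cast at *
    linarith
  unfold ph
  split_ifs with a b
  · obtain ⟨π, hπ, -, hA⟩ := exists_local (D := star t.Q) hl (by rwa [nm_star])
      (by rw [nm_star]; exact nsq hl h.adm.sfq)
    rw [star_star] at hA
    refine mean_f0 hL hl h2 hπ hA (pm1 hl _) (h.pm4 hl) (fun b c => ?_) (by simpa using nd1 hl)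
      (fun b => (b (a.mul_left _)).elim) fun b => (b (a.mul_left _)).elim
    exact (c_dvd hl (by simpa using c)).elim (h.yn hl d)
      fun c => b (c.trans ((dvd_mul_right _ _).trans h.sp))
  · obtain ⟨π, hπ, -, hA⟩ := exists_local hl b (nsq hl h.lab.lab.sf)
    refine mean_f0 hL hl h2 hπ hA (pm1 hl _) (h.pm4 hl) (fun c => (c b).elim)
      (by simpa using nd1 hl) (fun b c => ?_) fun b c => b (Dvd.dvd.mul_right ?_ _)
    · exact (c_dvd hl (by simpa using c)).elim (h.yn hl d) fun c => b (c.mul_right _)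
    · rw [Tt.m, one_mul, zero_mul, sub_zero] at c
      exact_mod_cast c
  · exact ((hl.dvd_mul.1 d).elim b a).elim

lemma nm_gen {l : ℕ} (d : ¬ l ∣ n0 S ρ t) :
    ¬ (l : ℤ) ∣ t.m ρ ∧ ¬ (l : ℤ) ∣ 1 * t.m ρ - t.c * t.k ρ := by
  refine ⟨fun a => d ((Dvd.dvd.mul_right ?_ _).trans h.d4), fun a => d (Dvd.dvd.trans ?_ h.d3)⟩
  · rw [Tt.m] at a
    exact_mod_cast a
  · rw [h.res] at a
    exact_mod_cast a

lemma lab3 : Lab v (3 * a1) f z S ρ :=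
  { h.lab.lab with
    hiS := h.lab.lab.hiS.trans (pow_le_pow_right₀ (by linarith [h.hz]) (by omega)) }

end H

/-- all local conditions hold -/
def Good (v : ℕ) (z : ℝ) (S : Finset GI) (ρ : GI) (t : Tt) (γ : GI × GI) : Prop :=
  (∀ l ∈ (n0 S ρ t).primeFactors, ph S ρ t (fun _ => 1) l γ ≠ 0) ∧
    ∀ l ∈ LG v z S ρ t, g1 l t.y (nm γ.1) (nm γ.2) (nm (t.L3 γ)) (nm (t.L4 ρ γ))

def G3 (v : ℕ) (z : ℝ) (S : Finset GI) (ρ : GI) (t : Tt) (γ : GI × GI) : Finset ℕ :=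
  (LG v z S ρ t).filter fun l => l ∣ nm (t.L3 γ)

def G4 (v : ℕ) (z : ℝ) (S : Finset GI) (ρ : GI) (t : Tt) (γ : GI × GI) : Finset ℕ :=
  (LG v z S ρ t).filter fun l => l ∣ nm (t.L4 ρ γ)

lemma disj0 (v : ℕ) (z : ℝ) (S : Finset GI) (ρ : GI) (t : Tt) :
    Disjoint (n0 S ρ t).primeFactors (LG v z S ρ t) :=
  disjoint_left.2 fun _ a b => (mem_filter.1 b).2 (Nat.dvd_of_mem_primeFactors a)

lemma F_eq (v : ℕ) (z : ℝ) (S : Finset GI) (ρ : GI) (t : Tt) (lam : ℕ → ℝ) (γ : GI × GI) :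
    ∏ l ∈ (n0 S ρ t).primeFactors ∪ LG v z S ρ t, ph S ρ t lam l γ = ind (Good v z S ρ t γ) *
      ((∏ l ∈ G3 v z S ρ t γ, lam l) * ∏ l ∈ G4 v z S ρ t γ, lam l) := by
  have e0 : ∀ l ∈ (n0 S ρ t).primeFactors,
      ph S ρ t lam l γ = ind (ph S ρ t (fun _ => 1) l γ ≠ 0) := fun l hl => by
    unfold ph
    split_ifs with a b
    · simp only [f0, ind]
      split_ifs <;> simp_all
    · simp only [f0, ind]
      split_ifs <;> simp_all
    · exact (((Nat.prime_of_mem_primeFactors hl).dvd_mul.1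
        (Nat.dvd_of_mem_primeFactors hl)).elim b a).elim
  have e1 : ∀ l ∈ LG v z S ρ t, ph S ρ t lam l γ = f1 l (lam l) t.c (t.k ρ) (t.m ρ) t.y γ :=
    fun l hl => congrFun (ph_gen lam (mem_filter.1 hl).2) γ
  rw [prod_union (disj0 _ _ _ _ _), prod_congr rfl e0, prod_congr rfl e1]
  simp only [f1, prod_mul_distrib, prod_ind, Good, ind_and, G3, G4, prod_filter, wl, Lf10, Lf01,
    Tt.L3, Tt.L4, mul_assoc]
  congr!

lemma good_loc {v : ℕ} {z : ℝ} {S : Finset GI} {ρ : GI} {t : Tt} {γ : GI × GI}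
    (g : Good v z S ρ t γ) {l : ℕ} (hl : l ∈ (n0 S ρ t).primeFactors) :
    ((l ∣ t.q → (l : GI) ∣ t.Q * t.L3 γ) ∧ (¬ l ∣ t.q → (l : GI) ∣ star (pr S * ρ) * γ.1)) ∧
      ¬ bad l (nm (pr S * ρ)) (nm γ.1) ∧ ¬ bad l 1 (nm γ.2) ∧
      ¬ bad l (nm (pr t.S2) * t.q) (nm (t.L3 γ)) ∧
      ¬ bad l (nm (pr t.S2) * t.p ρ * t.q) (nm (t.L4 ρ γ)) := by
  have := g.1 l hl
  unfold ph at this
  split_ifs at this with a b
  · have := not_not.1 fun c => this (ind_false c)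
    rw [Lf10, Lf01] at this
    exact ⟨⟨fun _ => this.1, fun c => (c a).elim⟩, this.2⟩
  · have := not_not.1 fun c => this (ind_false c)
    rw [Lf10, Lf01] at this
    exact ⟨⟨fun c => (a c).elim, fun _ => this.1⟩, this.2⟩
  · exact (((Nat.prime_of_mem_primeFactors hl).dvd_mul.1
      (Nat.dvd_of_mem_primeFactors hl)).elim b a).elim

lemma good_main (hM : MKStmt) {v a1 e f : ℕ} {z : ℝ} {S : Finset GI} {ρ : GI} {Y0 : ℝ} {t : Tt}
    (h : H v a1 e f z S ρ Y0 t) {γ : GI × GI} (hd : det γ.1 γ.2 = 1) (g : Good v z S ρ t γ) :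
    (sm (ww v) z γ.1 = S ∧ sm (ww v) z γ.2 = ∅ ∧ ρ ∣ γ.1) ∧ star t.Q ∣ t.L3 γ ∧
      om (ww v) z (mkSq ρ γ t).a3 = (G3 v z S ρ t γ).card ∧
      om (ww v) z (mkSq ρ γ t).a4 = (G4 v z S ρ t γ).card ∧
      ((∏ l ∈ G3 v z S ρ t γ, (l : ℝ)) * ∏ l ∈ G4 v z S ρ t γ, (l : ℝ) ≤ z ^ a1 →
        (mkSq ρ γ t).Core v (3 * a1) e f z) := by
  have n0ne := h.sf0.ne_zero
  have mem : ∀ {l : ℕ}, l.Prime → l ∣ n0 S ρ t → l ∈ (n0 S ρ t).primeFactors :=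
    fun a b => Nat.mem_primeFactors.2 ⟨a, b, n0ne⟩
  have pp : ∀ {l : ℕ}, l ∈ PP (ww v) z → l.Prime := fun a => (mem_PP.1 a).1
  have gen : ∀ {l : ℕ}, l ∈ PP (ww v) z → ¬ l ∣ n0 S ρ t →
      g1 l t.y (nm γ.1) (nm γ.2) (nm (t.L3 γ)) (nm (t.L4 ρ γ)) :=
    fun a b => g.2 _ (mem_filter.2 ⟨a, b⟩)
  have d1 : pr S * ρ ∣ γ.1 := (sqfree_dvd_iff h.lab.lab.sf _).2 fun l hl => by
    have a := Nat.prime_of_mem_primeFactors hl
    have b := Nat.dvd_of_mem_primeFactors hl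
    exact (good_loc g (mem a (b.mul_right _))).1.2 (h.pq a b)
  have dQ : star t.Q ∣ t.L3 γ :=
    (sqfree_dvd_iff (by rw [nm_star]; exact h.adm.sfq) _).2 fun l hl => by
      rw [nm_star] at hl
      have b := Nat.dvd_of_mem_primeFactors hl
      rw [star_star]
      exact (good_loc g (mem (Nat.prime_of_mem_primeFactors hl) (b.mul_left _))).1.1 b
  obtain ⟨b, hb⟩ := d1
  have nb : nm γ.1 = nm (pr S * ρ) * nm b := by rw [hb, nm_mul]
  have cb : ∀ l ∈ PP (ww v) z, ¬ l ∣ nm b := fun l hl c => by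
    by_cases a : l ∣ n0 S ρ t
    · exact (good_loc g (mem (pp hl) a)).2.1 (nb ▸ (bad_iff (pp hl) h.lab.lab.sf).2 c)
    · exact (gen hl a).1 (nb ▸ c.mul_left _)
  have c2 : ∀ l ∈ PP (ww v) z, ¬ l ∣ nm γ.2 := fun l hl c => by
    by_cases a : l ∣ n0 S ρ t
    · exact (good_loc g (mem (pp hl) a)).2.2.1
        (one_mul (nm γ.2) ▸ (bad_iff (pp hl) squarefree_one).2 c)
    · exact (gen hl a).2.1 c
  have cρ : ∀ l ∈ PP (ww v) z, ¬ l ∣ nm ρ := fun l hl c =>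
    (h.lab.lab.rough l (pp hl) c).not_ge (mem_PP.1 hl).2.2.2
  have s1 : sm (ww v) z γ.1 = S := by
    rw [hb, sm_mul, sm_mul, sm_pr h.lab.lab.sub, sm_eq_empty_iff.2 cb, sm_eq_empty_iff.2 cρ,
      union_empty, union_empty]
  have s2 := sm_eq_empty_iff.2 c2
  have dρ : ρ ∣ γ.1 := hb ▸ (dvd_mul_left _ _).mul_right _
  have z0 : 0 < z := by linarith [h.hz]
  obtain ⟨-, -, e1, e3, e4, -⟩ := hM v _ e f z S ρ _ Y0 2 t γ z0 h.lab3 h.adm hd s1 s2 dρ dQ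
  set A3 := nm (mkSq ρ γ t).a3 with hA3
  set A4 := nm (mkSq ρ γ t).a4 with hA4
  have n3 : nm (t.L3 γ) = nm (pr t.S2) * t.q * A3 := by
    rw [e3, nm_mul, nm_mul, nm_star, mul_comm]; rfl
  have n4 : nm (t.L4 ρ γ) = nm (pr t.S2) * t.p ρ * t.q * A4 := by
    rw [e4, nm_mul, nm_mul, nm_mul, nm_star, mul_comm]; rfl
  have n6 : (mkSq ρ γ t).N6 = n0 S ρ t * (A3 * A4) * (nm b * nm γ.2) := by
    have e1' := congrArg nm e1
    rw [nb, nm_mul (mkSq ρ γ t).a1, nm_mul (pr t.S2)] at e1'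
    have : (mkSq ρ γ t).N6 = nm (mkSq ρ γ t).a1 * (nm (pr t.S2) * nm (pr t.S3 * ρ)) *
        (nm γ.2 * A3 * A4 * t.q) := by
      simp only [Sq.N6, ← hA3, ← hA4]
      simp only [mkSq, nm_mul, nm_star, Tt.q]
      ring
    rw [this, ← e1', n0]
    ring
  have c3 : ∀ {l : ℕ}, l.Prime → l ∣ n0 S ρ t → ¬ l ∣ A3 := fun a b c =>
    (good_loc g (mem a b)).2.2.2.1 (n3 ▸ (bad_iff a (h.sf0.squarefree_of_dvd h.d3)).2 c)
  have c4 : ∀ {l : ℕ}, l.Prime → l ∣ n0 S ρ t → ¬ l ∣ A4 := fun a b c =>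
    (good_loc g (mem a b)).2.2.2.2 (n4 ▸ (bad_iff a (h.sf0.squarefree_of_dvd h.d4)).2 c)
  have d34 : A3 * A4 ∣ nm (t.L3 γ) * nm (t.L4 ρ γ) :=
    n3 ▸ n4 ▸ mul_dvd_mul (dvd_mul_left _ _) (dvd_mul_left _ _)
  have cb2 : ∀ {l : ℕ}, l ∈ PP (ww v) z → ¬ l ∣ nm b * nm γ.2 := fun a c =>
    ((pp a).dvd_mul.1 c).elim (cb _ a) (c2 _ a)
  have q34 : ∀ l ∈ PP (ww v) z, ¬ l ^ 2 ∣ n0 S ρ t * (A3 * A4) := fun l hl c => by
    by_cases a : l ∣ n0 S ρ t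
    · exact nsq (pp hl) h.sf0 (sq_left (pp hl)
        (fun c => ((pp hl).dvd_mul.1 c).elim (c3 (pp hl) a) (c4 (pp hl) a)) c)
    · exact (gen hl a).2.2.1 ((sq_left (pp hl) a (mul_comm (n0 S ρ t) _ ▸ c)).trans d34)
  have g3 : (PP (ww v) z).filter (fun l => l ∣ A3) = G3 v z S ρ t γ := by
    ext l
    simp only [G3, LG, mem_filter, n3]
    exact ⟨fun a => ⟨⟨a.1, fun c => c3 (pp a.1) c a.2⟩, a.2.mul_left _⟩, fun a => ⟨a.1.1,
      ((pp a.1.1).dvd_mul.1 a.2).resolve_left fun c => a.1.2 (c.trans h.d3)⟩⟩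
  have g4 : (PP (ww v) z).filter (fun l => l ∣ A4) = G4 v z S ρ t γ := by
    ext l
    simp only [G4, LG, mem_filter, n4]
    exact ⟨fun a => ⟨⟨a.1, fun c => c4 (pp a.1) c a.2⟩, a.2.mul_left _⟩, fun a => ⟨a.1.1,
      ((pp a.1.1).dvd_mul.1 a.2).resolve_left fun c => a.1.2 (c.trans h.d4)⟩⟩
  refine ⟨⟨s1, s2, dρ⟩, dQ, ?_, ?_, fun hG => ?_⟩
  · rw [om_eq fun l hl c => q34 l hl ((c.mul_right _).mul_left _), g3]
  · rw [om_eq fun l hl c => q34 l hl ((c.mul_left _).mul_left _), g4]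
  have p1 : t.p ρ ∣ nm (pr S * ρ) := (dvd_mul_left _ _).trans h.sp
  have hy : (0 : ℝ) < t.y := (pow_pos z0 _).trans_le h.adm.loy
  refine
    { sq6 := fun l hl c => q34 l hl (sq_left (pp hl) (cb2 hl) (n6 ▸ c))
      yc := fun l hl a c => ?_
      sz := ?_
      sfP := h.lab.lab.sf.squarefree_of_dvd p1
      sfQ := h.adm.sfq
      cop := (h.adm.copq.coprime_dvd_right p1).symm
      bigP := fun l hl c => h.big1 hl (c.trans p1)
      bigQ := h.adm.bigq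
      sgP := (sg_mono p1 h.lab.lab.sf.ne_zero).trans h.lab.sgS
      sgQ := h.adm.sgq
      PQ := h.adm.pq
      QP := h.adm.qp
      ne := h.adm.ne
      loP := h.adm.lop
      hiP := h.adm.hip
      loQ := ?_
      hiQ := (Nat.cast_le.2 h.qp.le).trans h.adm.hip
      ypos := by simpa [mkSq] using hy
      sfy := h.adm.sfy
      sgy := h.adm.sgy
      loy := by simpa [mkSq] using h.adm.loy
      hiy := by simpa [mkSq] using h.adm.hiy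
      sgk := h.adm.sgk }
  · have a' : l ∣ t.y := a
    have c0 : ¬ l ∣ n0 S ρ t := fun c => h.yn (pp hl) c a'
    rw [n6, (pp hl).dvd_mul, (pp hl).dvd_mul] at c
    rcases c with (c | c) | c
    exacts [c0 c, (gen hl c0).2.2.2 a' (c.trans d34), cb2 hl c]
  · have ne : ∀ T : Finset ℕ, T ⊆ PP (ww v) z → ∏ l ∈ T, l ≠ 0 := fun T hT =>
      prod_ne_zero_iff.2 fun l hl => (pp (hT hl)).ne_zero
    have nS : ∀ T : Finset GI, T ⊆ GF (ww v) z → nm (pr T) ≠ 0 := fun T hT c =>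
      pr_ne_zero hT (nm_eq_zero.1 c)
    refine (prod_le_of_dvd (M := nm (pr S) * nm (pr (sm (ww v) z t.Q)) *
      ((∏ l ∈ G3 v z S ρ t γ, l) * ∏ l ∈ G4 v z S ρ t γ, l)) (mul_ne_zero
        (mul_ne_zero (nS _ h.lab.lab.sub) (nS _ (sm_subset _ _ _))) (mul_ne_zero
        (ne _ (g3 ▸ filter_subset _ _)) (ne _ (g4 ▸ filter_subset _ _)))) fun l hl => ?_).trans ?_
    · obtain ⟨hl, c⟩ := mem_filter.1 hl
      refine ⟨pp hl, ?_⟩
      rw [n6, n0, nm_mul] at c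
      simp only [(pp hl).dvd_mul] at c ⊢
      rcases c with (((c | c) | c) | c | c) | c
      · exact Or.inl (Or.inl c)
      · exact (cρ l hl c).elim
      · exact Or.inl (Or.inr (dvd_sm hl c))
      · exact Or.inr (Or.inl (dvd_prod_of_mem _ (g3 ▸ mem_filter.2 ⟨hl, c⟩)))
      · exact Or.inr (Or.inr (dvd_prod_of_mem _ (g4 ▸ mem_filter.2 ⟨hl, c⟩)))
      · exact (cb2 hl ((pp hl).dvd_mul.2 c)).elim
    · push_cast
      rw [show z ^ (3 * a1) = z ^ a1 * z ^ a1 * z ^ a1 by ring]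
      have := h.lab.lab.hiS
      have := h.hQ
      gcongr
  · have a : nm ρ ≤ t.p ρ := Nat.le_of_dvd (Nat.pos_of_ne_zero
      (h.lab.lab.sf.squarefree_of_dvd p1).ne_zero) (nm_dvd (dvd_mul_left _ _))
    have a' : (nm ρ : ℝ) ≤ 2 * t.q := by exact_mod_cast a.trans h.adm.pq
    have := h.lab.loρ
    change _ ≤ (t.q : ℝ)
    linarith

/-- the Rankin weight -/
def lamR (z : ℝ) (l : ℕ) : ℝ := Real.exp (Real.log 2 / Real.log z * Real.log l) / 6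

/-- product of the local factors -/
def FF (v : ℕ) (z : ℝ) (S : Finset GI) (ρ : GI) (t : Tt) (lam : ℕ → ℝ) (γ : GI × GI) : ℝ :=
  ∏ l ∈ (n0 S ρ t).primeFactors ∪ LG v z S ρ t, ph S ρ t lam l γ

lemma prod_lamR (z : ℝ) {T : Finset ℕ} (hT : ∀ l ∈ T, l.Prime) : ∏ l ∈ T, lamR z l =
    Real.exp (Real.log 2 / Real.log z * Real.log (∏ l ∈ T, (l : ℝ))) * (1 / 6) ^ T.card := by
  rw [Real.log_prod fun l hl => Nat.cast_ne_zero.2 (hT l hl).ne_zero, mul_sum, Real.exp_sum,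
    ← prod_const, ← prod_mul_distrib]
  exact prod_congr rfl fun l _ => by rw [lamR]; ring

lemma pt (hM : MKStmt) {v a1 e f : ℕ} {z : ℝ} {S : Finset GI} {ρ : GI} {Y0 : ℝ} {t : Tt}
    (h : H v a1 e f z S ρ Y0 t) {γ : GI × GI} (hd : det γ.1 γ.2 = 1) :
    (1 / 3) ^ S.card * (1 / 6) ^ om (ww v) z t.Q * (FF v z S ρ t (fun _ => 1 / 6) γ -
      Real.exp (0.028 * Lam (ww v) z) * FF v z S ρ t (fun _ => 5 / 33) γ -
      (1 / 2) ^ a1 * FF v z S ρ t (lamR z) γ) ≤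
    if sm (ww v) z γ.1 = S ∧ sm (ww v) z γ.2 = ∅ ∧ ρ ∣ γ.1 then w1 v a1 e f z S ρ t γ else 0 := by
  have w0 : 0 ≤ w1 v a1 e f z S ρ t γ := by
    unfold w1
    exact mul_nonneg (mul_nonneg (ind_nonneg _) (by positivity)) (by positivity)
  simp only [FF, F_eq]
  by_cases g : Good v z S ρ t γ
  swap
  · rw [ind_false g]
    split_ifs <;> simp [w0]
  obtain ⟨a, dQ, o3, o4, hc⟩ := good_main hM h hd g
  have pp : ∀ l ∈ LG v z S ρ t, l.Prime := fun l a => (mem_PP.1 (mem_filter.1 a).1).1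
  have p3 : ∀ l ∈ G3 v z S ρ t γ, l.Prime := fun l a => pp l (mem_filter.1 a).1
  have p4 : ∀ l ∈ G4 v z S ρ t γ, l.Prime := fun l a => pp l (mem_filter.1 a).1
  have q : ∀ {T : Finset ℕ}, (∀ l ∈ T, l.Prime) → 0 < ∏ l ∈ T, (l : ℝ) := fun hT =>
    prod_pos fun l hl => Nat.cast_pos.2 (hT l hl).pos
  rw [if_pos a, ind_true g, prod_lamR z p3, prod_lamR z p4, mul_mul_mul_comm (Real.exp _),
    ← Real.exp_add, ← mul_add, ← Real.log_mul (q p3).ne' (q p4).ne']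
  simp only [prod_const, one_mul, ← pow_add]
  have hq := mul_pos (q p3) (q p4)
  generalize (∏ l ∈ G3 v z S ρ t γ, (l : ℝ)) * ∏ l ∈ G4 v z S ρ t γ, (l : ℝ) = G at *
  set n := (G3 v z S ρ t γ).card + (G4 v z S ρ t γ).card with hn
  have b1 : 0 ≤ Real.exp (0.028 * Lam (ww v) z) * (5 / 33 : ℝ) ^ n := by positivity
  have b2 : 0 ≤ (1 / 2 : ℝ) ^ a1 *
    (Real.exp (Real.log 2 / Real.log z * Real.log G) * (1 / 6 : ℝ) ^ n) := by positivity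
  by_cases hG : G ≤ z ^ a1
  · by_cases hn' : 0.28 * Lam (ww v) z ≤ n
    · rw [w1, ind_true ⟨dQ, hc hG, by rw [o3, o4]; exact_mod_cast hn'⟩, o3, o4, ← hn,
        pow_add _ n (om _ _ _), one_mul, mul_comm ((1 / 6 : ℝ) ^ n) (_ ^ om _ _ _),
        ← mul_assoc _ (_ ^ om _ _ _)]
      exact mul_le_mul_of_nonneg_left (by linarith) (by positivity)
    · refine le_trans (mul_nonpos_of_nonneg_of_nonpos (by positivity) ?_) w0
      have e1 : (11 / 10 : ℝ) ^ n ≤ Real.exp (0.028 * Lam (ww v) z) := by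
        refine (pow_le_pow_left₀ (by norm_num) (b := Real.exp 0.1) ?_ n).trans ?_
        · linarith [Real.add_one_le_exp (0.1 : ℝ)]
        · rw [← Real.exp_nat_mul]
          exact Real.exp_le_exp.2 (by linarith)
      have e2 : (1 / 6 : ℝ) ^ n = (11 / 10) ^ n * (5 / 33) ^ n := by
        rw [← mul_pow]
        norm_num
      have := mul_le_mul_of_nonneg_right e1 (by positivity : 0 ≤ (5 / 33 : ℝ) ^ n)
      linarith
  · refine le_trans (mul_nonpos_of_nonneg_of_nonpos (by positivity) ?_) w0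
    have lz : 0 < Real.log z := Real.log_pos (by linarith [h.hz])
    have e1 : (2 : ℝ) ^ a1 ≤ Real.exp (Real.log 2 / Real.log z * Real.log G) := by
      rw [← Real.exp_log (by positivity : (0 : ℝ) < 2 ^ a1), Real.log_pow]
      refine Real.exp_le_exp.2 ?_
      have := Real.log_le_log (pow_pos (by linarith [h.hz]) _) (not_le.1 hG).le
      rw [Real.log_pow] at this
      calc _ = Real.log 2 / Real.log z * (a1 * Real.log z) := by field_simp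
        _ ≤ _ := by gcongr
    have e2 : (1 / 6 : ℝ) ^ n = (1 / 2) ^ a1 * (2 ^ a1 * (1 / 6) ^ n) := by
      rw [← mul_assoc, ← mul_pow]
      norm_num
    have : (1 / 2 : ℝ) ^ a1 * (2 ^ a1 * (1 / 6) ^ n) ≤ (1 / 2) ^ a1 *
        (Real.exp (Real.log 2 / Real.log z * Real.log G) * (1 / 6 : ℝ) ^ n) := by gcongr
    linarith

end L1

end Pool.Agent.Lib.LQ
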