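import Pool.Agent.Lib.LQ.L1Aux2

/-! Block L1, products of the local means. -/

set_option autoImplicit false

open Finset
open scoped Classical

noncomputable section

namespace Pool.Agent.Lib.LQ

open Pool.Agent.Lib.MP_de94cf_nt (gg det inn)

namespace L1

lemma one_sub_sum_le (s : Finset ℕ) (r : ℕ → ℝ) (h : ∀ i ∈ s, 0 ≤ r i ∧ r i ≤ 1) :
    1 - ∑ i ∈ s, r i ≤ ∏ i ∈ s, (1 - r i) := by
  induction s using Finset.induction_on with
  | empty => simp
  | insert a s ha ih =>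
    rw [sum_insert ha, prod_insert ha]
    have h1 := h a (mem_insert_self _ _)
    have h2 := ih fun i hi => h i (mem_insert_of_mem hi)
    have h3 := sum_nonneg fun i hi => (h i (mem_insert_of_mem hi)).1
    nlinarith [mul_le_mul_of_nonneg_left h2 (sub_nonneg.2 h1.2), mul_nonneg h1.1 h3]

lemma prod_lo (s : Finset ℕ) {b r E : ℕ → ℝ} {R : ℝ} (hR : ∑ i ∈ s, r i ≤ R)
    (h : ∀ i ∈ s, 0 ≤ b i ∧ (0 ≤ r i ∧ r i ≤ 1) ∧ b i * (1 - r i) ≤ E i) :
    (∏ i ∈ s, b i) * (1 - R) ≤ ∏ i ∈ s, E i := by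
  have := one_sub_sum_le s r fun i hi => (h i hi).2.1
  refine (mul_le_mul_of_nonneg_left (c := ∏ i ∈ s, (1 - r i)) (by linarith)
    (prod_nonneg fun i hi => (h i hi).1)).trans ?_
  rw [← prod_mul_distrib]
  exact prod_le_prod (fun i hi => mul_nonneg (h i hi).1 (sub_nonneg.2 (h i hi).2.1.2))
    fun i hi => (h i hi).2.2

lemma loc_lo {s r r' E : ℝ} (hs0 : 0 ≤ s) (hs : s ≤ 1) (hr : 0 ≤ r) (h : s ^ 2 + 2 * r ≤ r')
    (hr' : r' ≤ 1) (hE : 1 - (s + r) ≤ E) : Real.exp (-s) * (1 - r') ≤ E := by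
  have e1 : Real.exp (-s) * (1 + s) ≤ 1 := by
    rw [Real.exp_neg, inv_mul_le_iff₀ (Real.exp_pos _)]
    linarith [Real.add_one_le_exp s]
  have e2 : 1 - r' ≤ (1 + s) * (1 - (s + r)) := by nlinarith [mul_nonneg hr (sub_nonneg.2 hs)]
  have e3 : 0 ≤ 1 - (s + r) := by nlinarith
  calc _ ≤ Real.exp (-s) * ((1 + s) * (1 - (s + r))) := by gcongr
    _ ≤ 1 * (1 - (s + r)) := by rw [← mul_assoc]; gcongr
    _ ≤ E := by linarith

lemma inv_le_sqrt {l : ℕ} (hl : l.Prime) : 1 / (l : ℝ) ≤ 1 / Real.sqrt l := by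
  have h1 : (1 : ℝ) ≤ l := by exact_mod_cast hl.pos
  exact one_div_le_one_div_of_le (Real.sqrt_pos.2 (by linarith))
    (Real.sqrt_le_iff.2 ⟨by linarith, by nlinarith⟩)

lemma sum_dvd_le {T : Finset ℕ} {w : ℝ} {n : ℕ} (hn : n ≠ 0)
    (hT : ∀ l ∈ T, l.Prime ∧ w < (l : ℝ)) : ∑ l ∈ T, ind (l ∣ n) / l ≤ sgw w n := by
  calc _ = ∑ l ∈ T.filter (· ∣ n), 1 / (l : ℝ) := by
        rw [sum_filter]
        exact sum_congr rfl fun l _ => by unfold ind; split_ifs <;> simp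
    _ ≤ ∑ l ∈ T.filter (· ∣ n), 1 / Real.sqrt l :=
        sum_le_sum fun l hl => inv_le_sqrt (hT l (mem_filter.1 hl).1).1
    _ ≤ _ := sum_le_sum_of_subset_of_nonneg (fun l hl => mem_filter.2 ⟨Nat.mem_primeFactors.2
        ⟨(hT l (mem_filter.1 hl).1).1, (mem_filter.1 hl).2, hn⟩, (hT l (mem_filter.1 hl).1).2⟩)
        fun _ _ _ => by positivity

lemma sgw_le (w : ℝ) (n : ℕ) : sgw w n ≤ sg n :=
  sum_le_sum_of_subset_of_nonneg (filter_subset _ _) fun _ _ _ => by positivity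

lemma psi_pos (n : ℕ) : 0 < psi n := prod_pos fun _ _ => by positivity

lemma lamR_bd {z : ℝ} (hz : 2 ≤ z) {l : ℕ} (hl : l.Prime) (h : (l : ℝ) ≤ z) :
    0 ≤ lamR z l ∧ lamR z l ≤ 1 ∧ lamR z l ≤ 1 / 6 + Real.log l / Real.log z / 3 := by
  have lz : 0 < Real.log z := Real.log_pos (by linarith)
  have l0 : 0 ≤ Real.log l := Real.log_natCast_nonneg l
  have l1 : Real.log l / Real.log z ≤ 1 :=
    (div_le_one lz).2 (Real.log_le_log (Nat.cast_pos.2 hl.pos) h)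
  have l2 := div_nonneg l0 lz.le
  have e : Real.log 2 / Real.log z * Real.log l = Real.log 2 * (Real.log l / Real.log z) := by ring
  have := Real.log_two_lt_d9
  have := Real.log_two_gt_d9
  have a : Real.exp (Real.log 2 * (Real.log l / Real.log z)) ≤ 1 + 2 * (Real.log l / Real.log z) := by
    have := Real.abs_exp_sub_one_le (x := Real.log 2 * (Real.log l / Real.log z))
      (by rw [abs_of_nonneg (by positivity)]; nlinarith)
    rw [abs_of_nonneg (a := Real.log 2 * _) (by positivity)] at this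
    nlinarith [le_abs_self (Real.exp (Real.log 2 * (Real.log l / Real.log z)) - 1)]
  unfold lamR
  rw [e]
  exact ⟨by positivity, by linarith, by linarith⟩

lemma sum_lamR {w z : ℝ} (hz : 2 ≤ z) :
    11 / 3 * Lam w z - 4 ≤ ∑ l ∈ PP w z, (4 - 2 * lamR z l) * (2 / ((l : ℝ) + 1)) := by
  have lz : 0 < Real.log z := Real.log_pos (by linarith)
  have h1 : 1 ≤ ⌊z⌋₊ := Nat.le_floor (by push_cast; linarith)
  have m := TorsRank.mertens_le ⌊z⌋₊ h1 (PP w z)
    fun l hl => ⟨(mem_PP.1 hl).1, Nat.le_floor (mem_PP.1 hl).2.2.2⟩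
  have m1 : Real.log ⌊z⌋₊ ≤ Real.log z :=
    Real.log_le_log (by exact_mod_cast h1) (Nat.floor_le (by linarith))
  have m2 : Real.log 4 ≤ 2 * Real.log z := by
    rw [show (4 : ℝ) = 2 ^ 2 by norm_num, Real.log_pow]
    have := Real.log_le_log two_pos hz
    push_cast
    linarith
  have m3 : 4 / 3 / Real.log z * ∑ l ∈ PP w z, Real.log l / l ≤ 4 := by
    rw [div_mul_eq_mul_div, div_le_iff₀ lz]
    linarith
  refine le_trans (b := ∑ l ∈ PP w z, (11 / 3 * (2 / ((l : ℝ) + 1)) -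
    4 / 3 / Real.log z * (Real.log l / l))) ?_ (sum_le_sum fun l hl => ?_)
  · rw [sum_sub_distrib, ← mul_sum, ← mul_sum, Lam]
    linarith
  · obtain ⟨p, -, -, q⟩ := mem_PP.1 hl
    have l0 : (0 : ℝ) < l := Nat.cast_pos.2 p.pos
    have a := (lamR_bd hz p q).2.2
    have b : 2 / ((l : ℝ) + 1) ≤ 2 / l := by gcongr; linarith
    have c : 0 ≤ Real.log l / Real.log z := div_nonneg (Real.log_natCast_nonneg l) lz.le
    have d : 4 / 3 / Real.log z * (Real.log l / l) =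
      2 / 3 * (Real.log l / Real.log z * (2 / l)) := by ring
    have e : 0 ≤ 2 / ((l : ℝ) + 1) := by positivity
    nlinarith [mul_le_mul_of_nonneg_left b c, mul_le_mul_of_nonneg_right a e]

namespace H

variable {v a1 e f : ℕ} {z : ℝ} {S : Finset GI} {ρ : GI} {Y0 : ℝ} {t : Tt}
  (h : H v a1 e f z S ρ Y0 t)
include h

lemma psi0 : ∏ l ∈ (n0 S ρ t).primeFactors, 1 / ((l : ℝ) + 1) =
    1 / (psi (nm (pr S * ρ)) * psi t.q) := by
  rw [prod_div_distrib, prod_const_one, n0, h.adm.copq.symm.primeFactors_mul,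
    prod_union h.adm.copq.symm.disjoint_primeFactors]
  rfl

lemma sg0 : sg (n0 S ρ t) ≤ 2 / v := by
  have : sg (n0 S ρ t) = sg (nm (pr S * ρ)) + sg t.q := by
    rw [sg, n0, h.adm.copq.symm.primeFactors_mul,
      sum_union h.adm.copq.symm.disjoint_primeFactors]
    rfl
  rw [this, show (2 : ℝ) / v = 1 / v + 1 / v by ring]
  exact add_le_add h.lab.sgS h.adm.sgq

lemma y_ne : t.y ≠ 0 := h.adm.sfy.ne_zero

lemma v_ge : (1 : ℝ) ≤ v ∧ 1 / ww v ≤ 1 / v := by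
  have h1 : 1 ≤ v := Nat.pos_of_ne_zero (by rintro rfl; have := h.hw; norm_num [ww] at this)
  have h2 : (1 : ℝ) ≤ v := by exact_mod_cast h1
  exact ⟨h2, one_div_le_one_div_of_le (by linarith) (le_self_pow₀ h2 (by norm_num))⟩

lemma gen {l : ℕ} (hl : l ∈ PP (ww v) z) :
    l.Prime ∧ l ≠ 2 ∧ (36 : ℝ) ≤ l ∧ ∃ π : GI, nm π = l := by
  obtain ⟨a, b, c, -⟩ := mem_PP.1 hl
  obtain ⟨π, -, d⟩ := exists_GH hl
  exact ⟨a, by omega, h.hw.trans c.le, π, d⟩

lemma mean1 (hL : LocStmt) (lam : ℕ → ℝ) {l : ℕ} (hl : l ∈ LG v z S ρ t) (h0 : 0 ≤ lam l)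
    (h1 : lam l ≤ 1) : 1 - Em (l ^ 2) (ph S ρ t lam l) ≤ 1 / 2 ∧
      1 - Em (l ^ 2) (ph S ρ t lam l) ≤ 18 / l := by
  obtain ⟨hl, d⟩ := mem_filter.1 hl
  obtain ⟨p, p2, p36, π, hπ⟩ := h.gen hl
  have a := mean_f1_lo hL p p2 hπ h0 h1 t.y (h.nm_gen d).1 (h.nm_gen d).2
  rw [← ph_gen lam d] at a
  have b : 2 / ((l : ℝ) + 1) ≤ 2 / l := by gcongr; linarith
  have c : 6 / ((l : ℝ) * (l + 1)) ≤ 6 / l := by gcongr; nlinarith
  have c' : (18 : ℝ) / l ≤ 18 / 36 := by gcongr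
  have := ind_le_one (l ∣ t.y)
  have e : (4 - 2 * lam l + 2 * ind (l ∣ t.y)) * (2 / ((l : ℝ) + 1)) ≤ 6 * (2 / l) :=
    mul_le_mul (by linarith) b (by positivity) (by norm_num)
  have e' : (18 : ℝ) / l = 6 * (2 / l) + 6 / l := by ring
  constructor <;> linarith

lemma lower (hL : LocStmt) (hv : (200 : ℝ) ≤ v) :
    (1 - 200 / v) * (Real.exp (-(11 / 3) * Lam (ww v) z) / (psi (nm (pr S * ρ)) * psi t.q)) ≤
      ∏ l ∈ (n0 S ρ t).primeFactors ∪ LG v z S ρ t, Em (l ^ 2) (ph S ρ t (fun _ => 1 / 6) l) := by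
  have A : (∏ l ∈ (n0 S ρ t).primeFactors, 1 / ((l : ℝ) + 1)) * (1 - 16 / v) ≤
      ∏ l ∈ (n0 S ρ t).primeFactors, Em (l ^ 2) (ph S ρ t (fun _ => 1 / 6) l) := by
    refine prod_lo _ (r := fun l => 8 / l) ?_ fun l hl => ?_
    · calc _ ≤ ∑ l ∈ (n0 S ρ t).primeFactors, 8 * (1 / Real.sqrt l) := sum_le_sum fun l hl => by
            have := inv_le_sqrt (Nat.prime_of_mem_primeFactors hl)
            rw [div_eq_mul_one_div]
            linarith
        _ ≤ _ := by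
            rw [← mul_sum, show (16 : ℝ) / v = 8 * (2 / v) by ring]
            exact mul_le_mul_of_nonneg_left h.sg0 (by norm_num)
    · have p := Nat.prime_of_mem_primeFactors hl
      have d := Nat.dvd_of_mem_primeFactors hl
      have := h.hw.trans_lt (h.big p d)
      exact ⟨by positivity, ⟨by positivity, (div_le_one (by linarith)).2 (by linarith)⟩,
        (h.mean0 hL _ p d).1⟩
  have B : (∏ l ∈ LG v z S ρ t, Real.exp (-(11 / 3 * (2 / ((l : ℝ) + 1))))) * (1 - 140 / v) ≤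
      ∏ l ∈ LG v z S ρ t, Em (l ^ 2) (ph S ρ t (fun _ => 1 / 6) l) := by
    have hT : ∀ l ∈ LG v z S ρ t, l.Prime ∧ ww v < (l : ℝ) := fun l hl =>
      ⟨(mem_PP.1 (mem_filter.1 hl).1).1, (mem_PP.1 (mem_filter.1 hl).1).2.2.1⟩
    refine prod_lo _ (r := fun l => 66 * (1 / (l : ℝ) ^ 2) + 8 * (ind (l ∣ t.y) / l)) ?_
      fun l hl => ?_
    · have a := sum_inv_sq_tail (by linarith [h.hw]) fun l hl => (hT l hl).2
      have b := ((sum_dvd_le h.y_ne hT).trans (sgw_le _ _)).trans h.adm.sgy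
      have c := h.v_ge.2
      rw [sum_add_distrib, ← mul_sum, ← mul_sum, div_eq_mul_one_div 140]
      rw [div_eq_mul_one_div 2] at a
      linarith
    · obtain ⟨hl, d⟩ := mem_filter.1 hl
      obtain ⟨p, p2, p36, π, hπ⟩ := h.gen hl
      have a := mean_f1_lo hL p p2 hπ (lam := 1 / 6) (by norm_num) (by norm_num) t.y
        (h.nm_gen d).1 (h.nm_gen d).2
      rw [← ph_gen (fun _ => 1 / 6) d] at a
      have i0 := ind_nonneg (l ∣ t.y)
      have i1 := ind_le_one (l ∣ t.y)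
      have b : 2 / ((l : ℝ) + 1) ≤ 2 * (1 / l) := by rw [mul_one_div]; gcongr; linarith
      have b0 : 0 ≤ 2 / ((l : ℝ) + 1) := by positivity
      have c : 6 / ((l : ℝ) * (l + 1)) ≤ 6 * (1 / l) ^ 2 := by
        rw [one_div_pow, mul_one_div]; gcongr; nlinarith
      have c' : (1 : ℝ) / l ≤ 1 / 36 := by gcongr
      have u0 : (0 : ℝ) ≤ 1 / l := by positivity
      rw [← one_div_pow, div_eq_mul_one_div (ind _)]
      generalize (1 : ℝ) / l = u at *
      have r1 : 66 * u ^ 2 + 8 * (ind (l ∣ t.y) * u) ≤ 1 := by nlinarith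
      refine ⟨(Real.exp_pos _).le, ⟨by positivity, r1⟩, loc_lo (by positivity) (by linarith)
        (r := 2 * ind (l ∣ t.y) * (2 / ((l : ℝ) + 1)) + 6 / ((l : ℝ) * (l + 1))) (by positivity)
        ?_ r1 (by linarith)⟩
      nlinarith [mul_le_mul_of_nonneg_left b i0, mul_self_le_mul_self b0 b]
  rw [h.psi0] at A
  rw [← Real.exp_sum] at B
  have C : Real.exp (-(11 / 3) * Lam (ww v) z) ≤
      Real.exp (∑ l ∈ LG v z S ρ t, -(11 / 3 * (2 / ((l : ℝ) + 1)))) := by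
    rw [Real.exp_le_exp, sum_neg_distrib, ← mul_sum, neg_mul, neg_le_neg_iff]
    exact mul_le_mul_of_nonneg_left (sum_le_sum_of_subset_of_nonneg (filter_subset _ _)
      fun _ _ _ => by positivity) (by norm_num)
  have u1 : (1 : ℝ) / v ≤ 1 / 200 := by gcongr
  have u0 : (0 : ℝ) ≤ 1 / v := by positivity
  have := psi_pos (nm (pr S * ρ))
  have := psi_pos t.q
  rw [div_eq_mul_one_div 16] at A
  rw [div_eq_mul_one_div 140] at B
  rw [div_eq_mul_one_div 200, prod_union (disj0 _ _ _ _ _)]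
  generalize (1 : ℝ) / v = u at *
  have a0 : 0 ≤ 1 - 16 * u := by linarith
  have b0 : 0 ≤ 1 - 140 * u := by linarith
  refine le_trans ?_ (mul_le_mul A ((mul_le_mul_of_nonneg_right C b0).trans B) (by positivity)
    (le_trans (by positivity) A))
  rw [mul_mul_mul_comm, mul_comm (1 - 200 * u), one_div_mul_eq_div]
  gcongr
  nlinarith

lemma upper (hL : LocStmt) {lam : ℕ → ℝ} (hlam : ∀ l ∈ PP (ww v) z, 0 ≤ lam l ∧ lam l ≤ 1) :
    ∏ l ∈ (n0 S ρ t).primeFactors ∪ LG v z S ρ t, Em (l ^ 2) (ph S ρ t lam l) ≤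
      Real.exp (56 - ∑ l ∈ PP (ww v) z, (4 - 2 * lam l) * (2 / ((l : ℝ) + 1))) /
        (psi (nm (pr S * ρ)) * psi t.q) := by
  have A : ∏ l ∈ (n0 S ρ t).primeFactors, Em (l ^ 2) (ph S ρ t lam l) ≤
      ∏ l ∈ (n0 S ρ t).primeFactors, 1 / ((l : ℝ) + 1) :=
    prod_le_prod (fun l hl => Em_nonneg fun x => (ph_bd0 lam (Nat.prime_of_mem_primeFactors hl)
      (Nat.dvd_of_mem_primeFactors hl) x).1) fun l hl =>
      (h.mean0 hL _ (Nat.prime_of_mem_primeFactors hl) (Nat.dvd_of_mem_primeFactors hl)).2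
  have nn : ∀ l ∈ LG v z S ρ t, 0 ≤ Em (l ^ 2) (ph S ρ t lam l) := fun l hl => by
    linarith [(h.mean1 hL lam hl (hlam l (mem_filter.1 hl).1).1 (hlam l (mem_filter.1 hl).1).2).1]
  set c : ℕ → ℝ := fun l => 12 * (1 / (l : ℝ) ^ 2) + 8 * (ind (l ∣ t.y) / l) +
    8 * (ind (l ∣ (t.k ρ).natAbs) / l) + 8 * (ind (l ∣ n0 S ρ t) / l) -
      (4 - 2 * lam l) * (2 / ((l : ℝ) + 1)) with hc
  have c0 : ∀ l ∈ PP (ww v) z, l ∣ t.y ∨ l ∣ (t.k ρ).natAbs ∨ l ∣ n0 S ρ t → 0 ≤ c l := by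
    intro l hl d
    have p36 := (h.gen hl).2.2.1
    have b : 2 / ((l : ℝ) + 1) ≤ 2 * (1 / l) := by rw [mul_one_div]; gcongr; linarith
    have e : (4 - 2 * lam l) * (2 / ((l : ℝ) + 1)) ≤ 4 * (2 * (1 / l)) :=
      mul_le_mul (by linarith [(hlam l hl).1]) b (by positivity) (by norm_num)
    have n := fun p => div_nonneg (ind_nonneg p) (Nat.cast_nonneg (α := ℝ) l)
    have := n (l ∣ t.y)
    have := n (l ∣ (t.k ρ).natAbs)
    have := n (l ∣ n0 S ρ t)
    have : 0 ≤ 1 / (l : ℝ) ^ 2 := by positivity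
    simp only [hc]
    rcases d with d | d | d <;> rw [ind_true d] at * <;> linarith
  have B : ∏ l ∈ LG v z S ρ t, Em (l ^ 2) (ph S ρ t lam l) ≤
      ∏ l ∈ LG v z S ρ t, Real.exp (c l) := prod_le_prod nn fun l hl => by
    obtain ⟨hl, d⟩ := mem_filter.1 hl
    obtain ⟨p, p2, p36, π, hπ⟩ := h.gen hl
    rw [ph_gen lam d]
    by_cases a : l ∣ t.y ∨ l ∣ (t.k ρ).natAbs ∨ l ∣ n0 S ρ t
    · refine le_trans ?_ (Real.one_le_exp (c0 l hl a))
      rw [← Em_const (Nat.one_le_pow 2 l p.pos) 1]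
      exact Em_mono fun x _ => (f1_bd l (hlam l hl).1 (hlam l hl).2 _ _ _ _ x).2
    · rw [not_or, not_or] at a
      refine (mean_f1_hi hL p p2 hπ (hlam l hl).1 (hlam l hl).2 t.y (h.nm_gen d).1 (h.nm_gen d).2
        (fun b => (c_dvd p b).elim a.1 fun b => d ((b.mul_right _).trans h.d3))
        fun b => a.2.1 (Int.natCast_dvd.1 b)).trans (le_trans ?_ (Real.add_one_le_exp _))
      have : 12 / ((l : ℝ) * (l + 1)) ≤ 12 * (1 / l ^ 2) := by
        rw [mul_one_div]; gcongr; nlinarith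
      simp only [hc, ind_false a.1, ind_false a.2.1, ind_false d, zero_div]
      linarith
  have C : ∑ l ∈ LG v z S ρ t, c l ≤
      56 - ∑ l ∈ PP (ww v) z, (4 - 2 * lam l) * (2 / ((l : ℝ) + 1)) := by
    refine (sum_le_sum_of_subset_of_nonneg (filter_subset _ _) fun l hl a =>
      c0 l hl (Or.inr (Or.inr (not_not.1 fun b => a (mem_filter.2 ⟨hl, b⟩))))).trans ?_
    have hT : ∀ l ∈ PP (ww v) z, l.Prime ∧ ww v < (l : ℝ) := fun l hl =>
      ⟨(mem_PP.1 hl).1, (mem_PP.1 hl).2.2.1⟩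
    have a := sum_inv_sq_tail (by linarith [h.hw]) fun l hl => (hT l hl).2
    have b1 := ((sum_dvd_le h.y_ne hT).trans (sgw_le _ _)).trans h.adm.sgy
    have b2 := (sum_dvd_le (Int.natAbs_ne_zero.2 h.k_ne) hT).trans h.adm.sgk
    have b3 := ((sum_dvd_le h.sf0.ne_zero hT).trans (sgw_le _ _)).trans h.sg0
    have c1 := h.v_ge.2
    have c2 : (1 : ℝ) / v ≤ 1 := (div_le_one (by linarith [h.v_ge.1])).2 h.v_ge.1
    simp only [hc, sum_sub_distrib, sum_add_distrib, ← mul_sum]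
    rw [div_eq_mul_one_div 2] at a b3
    linarith
  rw [h.psi0] at A
  rw [← Real.exp_sum] at B
  rw [prod_union (disj0 _ _ _ _ _), ← one_div_mul_eq_div]
  have := psi_pos (nm (pr S * ρ))
  have := psi_pos t.q
  exact mul_le_mul A (B.trans (Real.exp_le_exp.2 C)) (prod_nonneg nn) (by positivity)

end H

end L1

end Pool.Agent.Lib.LQ
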