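import Pool.Agent.Lib.LQ.Basic

/-! Block M5, part 1: mean value bounds used in the chain. -/

set_option autoImplicit false

open Finset
open scoped Classical

noncomputable section

namespace Pool.Agent.Lib.LQ

open Pool.Agent.Lib.MP_de94cf_nt (gg det inn)

namespace M5

lemma ring_sub (y : ℝ) (hy : 0 ≤ y) : ringP y ⊆ (disc (4 * y)).erase 0 := by
  intro α h
  rw [mem_ringP] at h
  rw [mem_erase, mem_disc]
  refine ⟨?_, h.2.1⟩
  rintro rfl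
  have : nm (0 : GI) = 0 := nm_eq_zero.2 rfl
  rw [this] at h
  have := h.1
  simp at this
  linarith

lemma coef_sq (J : Finset ℕ) (P Q : ℕ → ℝ) (α : GI) :
    ‖((gr α * wt J P Q α : ℝ) : ℂ)‖ ^ 2 ≤ wt J P Q α ^ 2 := by
  rw [Complex.norm_real, Real.norm_eq_abs, abs_mul, abs_of_nonneg (wt_nonneg J P Q α), mul_pow]
  have h1 : |gr α| ^ 2 ≤ 1 := pow_le_one₀ (abs_nonneg _) (abs_gr_le α)
  nlinarith [sq_nonneg (wt J P Q α)]

/-- pointwise Cauchy-Schwarz step -/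
lemma pt1 (A : ℂ) (L : ℝ) (hL : 1 ≤ L) (V : ℕ) (Pv Rv : ℕ → ℂ) (a : ℕ → ℝ)
    (h : ∀ v ∈ range V, ‖Pv v‖ ≤ a v) :
    ‖A‖ ^ 2 ≤ 2 * ‖A - ((1 / L : ℝ) : ℂ) * ∑ v ∈ range V, Pv v * Rv v‖ ^ 2 +
      2 * (V * ∑ v ∈ range V, a v ^ 2 * ‖Rv v‖ ^ 2) := by
  obtain ⟨B, hB⟩ : ∃ B, B = ((1 / L : ℝ) : ℂ) * ∑ v ∈ range V, Pv v * Rv v := ⟨_, rfl⟩
  rw [← hB]
  have h1 : ‖A‖ ≤ ‖A - B‖ + ‖B‖ := by
    calc ‖A‖ = ‖(A - B) + B‖ := by ring_nf
      _ ≤ _ := norm_add_le _ _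
  have h2 : ‖B‖ ≤ ∑ v ∈ range V, a v * ‖Rv v‖ := by
    rw [hB, norm_mul, Complex.norm_real, Real.norm_eq_abs, abs_of_nonneg (by positivity)]
    have h3 : ‖∑ v ∈ range V, Pv v * Rv v‖ ≤ ∑ v ∈ range V, a v * ‖Rv v‖ := by
      refine (norm_sum_le _ _).trans (sum_le_sum fun v hv => ?_)
      rw [norm_mul]
      exact mul_le_mul_of_nonneg_right (h v hv) (norm_nonneg _)
    have h4 : 1 / L ≤ 1 := by rw [div_le_one (by linarith)]; exact hL
    calc 1 / L * ‖∑ v ∈ range V, Pv v * Rv v‖ ≤ 1 * ‖∑ v ∈ range V, Pv v * Rv v‖ :=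
          mul_le_mul_of_nonneg_right h4 (norm_nonneg _)
      _ ≤ _ := by rw [one_mul]; exact h3
  have h5 : ‖B‖ ^ 2 ≤ V * ∑ v ∈ range V, a v ^ 2 * ‖Rv v‖ ^ 2 := by
    have h6 := sq_sum_le_card_mul_sum_sq (s := range V) (f := fun v => a v * ‖Rv v‖)
    rw [card_range] at h6
    calc ‖B‖ ^ 2 ≤ (∑ v ∈ range V, a v * ‖Rv v‖) ^ 2 :=
          pow_le_pow_left₀ (norm_nonneg _) h2 2
      _ ≤ _ := h6
      _ = _ := by simp only [mul_pow]
  have h7 : ‖A‖ ^ 2 ≤ (‖A - B‖ + ‖B‖) ^ 2 := pow_le_pow_left₀ (norm_nonneg _) h1 2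
  nlinarith [sq_nonneg (‖A - B‖ - ‖B‖)]

/-- mean square of the ring sums -/
lemma Rb (h1 : MVTStmt) (h2 : MomStmt) : ∃ K : ℝ, 1 ≤ K ∧ ∀ (J : Finset ℕ) (P Q : ℕ → ℝ) (y : ℝ)
    (N : ℕ), Sys J P Q → 1 ≤ y → 1 ≤ N →
    ∑ k ∈ Icc (-(N : ℤ)) N, ‖Asum gr J P Q y k‖ ^ 2 ≤ K * ((N + y) * y) := by
  obtain ⟨K1, hK1⟩ := h1
  obtain ⟨K2, hK2⟩ := h2
  refine ⟨max 1 (16 * |K1| * |K2|), le_max_left _ _, fun J P Q y N hS hy hN => ?_⟩
  have h3 := hK1 N (4 * y) 4 (ringP y) (fun α => ((gr α * wt J P Q α : ℝ) : ℂ)) hN (by linarith)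
    (by norm_num) (fun α hα => by
      rw [mem_ringP] at hα
      exact ⟨by linarith [hα.1], hα.2.1⟩)
  have h4 := hK2 J P Q (4 * y) 2 hS (by linarith) (by norm_num)
  have hs : Real.sqrt 4 = 2 := by
    rw [show (4 : ℝ) = 2 ^ 2 by norm_num, Real.sqrt_sq (by norm_num)]
  have hN0 : (0 : ℝ) ≤ N := Nat.cast_nonneg _
  have h5 : ∑ α ∈ ringP y, ‖((gr α * wt J P Q α : ℝ) : ℂ)‖ ^ 2 * (cont α * Real.sqrt 4 * N + 4 * y) ≤
      (4 * (N + y)) * (|K2| * (4 * y)) := by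
    calc _ ≤ ∑ α ∈ ringP y, wt J P Q α ^ 2 * (4 * (N + y)) := by
          refine sum_le_sum fun α hα => ?_
          rw [mem_ringP] at hα
          rw [hα.2.2, hs]
          refine mul_le_mul (coef_sq J P Q α) (by push_cast; linarith) (by positivity) (sq_nonneg _)
      _ = (4 * (N + y)) * ∑ α ∈ ringP y, wt J P Q α ^ 2 := by rw [← sum_mul, mul_comm]
      _ ≤ _ := by
          refine mul_le_mul_of_nonneg_left ?_ (by positivity)
          calc ∑ α ∈ ringP y, wt J P Q α ^ 2 ≤ ∑ α ∈ (disc (4 * y)).erase 0, wt J P Q α ^ 2 :=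
                sum_le_sum_of_subset_of_nonneg (ring_sub y (by linarith)) fun _ _ _ => sq_nonneg _
            _ ≤ K2 * (4 * y) := h4
            _ ≤ _ := mul_le_mul_of_nonneg_right (le_abs_self _) (by linarith)
  have h6 : 0 ≤ ∑ α ∈ ringP y,
      ‖((gr α * wt J P Q α : ℝ) : ℂ)‖ ^ 2 * (cont α * Real.sqrt 4 * N + 4 * y) :=
    sum_nonneg fun α _ => by positivity
  calc _ ≤ _ := h3
    _ ≤ |K1| * ((4 * (N + y)) * (|K2| * (4 * y))) :=
        (mul_le_mul_of_nonneg_right (le_abs_self _) h6).trans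
          (mul_le_mul_of_nonneg_left h5 (abs_nonneg _))
    _ = (16 * |K1| * |K2|) * ((N + y) * y) := by ring
    _ ≤ _ := mul_le_mul_of_nonneg_right (le_max_right _ _) (by positivity)

/-- exponential moment of the number of prime factors in a short range -/
lemma expmom {x M : ℝ} (hx : 3 ≤ x) (hM : 0 ≤ M) {S : Finset GI} (hS : S ⊆ GH x (3 * x)) :
    ∑ β ∈ (disc M).erase 0, Real.exp (((S.filter fun π => π ∣ β).card : ℝ) +
      ((S.filter fun π => star π ∣ β).card : ℝ)) ^ 2 ≤ 8 * M * Real.exp (8 * Real.exp 4) := by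
  have hu : 0 ≤ Real.exp 4 - 1 := by linarith [Real.add_one_le_exp (4 : ℝ)]
  have h1 := PM (w := x) (z := 3 * x) hM (S := GF x (3 * x)) (Subset.refl _)
    (fun _ => Real.exp 4 - 1) (fun _ _ => hu)
  have h2 : ∏ π ∈ GF x (3 * x), (1 + (Real.exp 4 - 1) / nm π) ≤ Real.exp (8 * Real.exp 4) := by
    calc _ ≤ ∏ π ∈ GF x (3 * x), Real.exp (Real.exp 4 * (1 / (nm π : ℝ))) := by
          refine prod_le_prod (fun π _ => by positivity) fun π _ => ?_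
          have h3 : (Real.exp 4 - 1) / (nm π : ℝ) ≤ Real.exp 4 * (1 / (nm π : ℝ)) := by
            rw [mul_one_div]
            exact div_le_div_of_nonneg_right (by linarith) (Nat.cast_nonneg _)
          linarith [Real.add_one_le_exp (Real.exp 4 * (1 / (nm π : ℝ)))]
      _ = Real.exp (Real.exp 4 * ∑ π ∈ GF x (3 * x), 1 / (nm π : ℝ)) := by
          rw [mul_sum, Real.exp_sum]
      _ ≤ _ := by
          rw [Real.exp_le_exp, sum_GF x (3 * x) (fun l => 1 / (l : ℝ))]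
          have h4 : ∑ l ∈ PP x (3 * x), 1 / (l : ℝ) ≤ 4 :=
            dim_four (y := x) (by linarith) fun l hl => by
              rw [mem_PP] at hl
              exact ⟨hl.1, hl.2.2.1, by nlinarith [hl.2.2.2]⟩
          nlinarith [Real.exp_pos (4 : ℝ)]
  refine le_trans (sum_le_sum fun β _ => ?_) (h1.trans (mul_le_mul_of_nonneg_left h2 (by positivity)))
  have hGF : ∀ π ∈ S, π ∈ GF x (3 * x) := fun π hπ => (mem_GH.1 (hS hπ)).1
  have c1 : (S.filter fun π => π ∣ β).card ≤ ((GF x (3 * x)).filter fun π => π ∣ β).card :=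
    card_le_card fun π hπ => by
      rw [mem_filter] at hπ ⊢
      exact ⟨hGF π hπ.1, hπ.2⟩
  have c2 : (S.filter fun π => star π ∣ β).card ≤ ((GF x (3 * x)).filter fun π => π ∣ β).card := by
    refine card_le_card_of_injOn star (fun π hπ => ?_) (fun a _ b _ hab => star_injective hab)
    rw [mem_coe, mem_filter] at hπ ⊢
    exact ⟨star_mem_GF (hGF π hπ.1), hπ.2⟩
  rw [prod_const, show 1 + (Real.exp 4 - 1) = Real.exp 4 by ring, ← Real.exp_nat_mul,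
    ← Real.exp_nat_mul, Real.exp_le_exp]
  have c1' : ((S.filter fun π => π ∣ β).card : ℝ) ≤
      ((GF x (3 * x)).filter fun π => π ∣ β).card := by exact_mod_cast c1
  have c2' : ((S.filter fun π => star π ∣ β).card : ℝ) ≤
      ((GF x (3 * x)).filter fun π => π ∣ β).card := by exact_mod_cast c2
  push_cast
  linarith

lemma rp_num {x y : ℝ} {l N : ℕ} (hx : 0 ≤ x) (hy : 0 ≤ y) (hN : (N : ℝ) ≤ y * x ^ l) :
    (3 ^ l * N + y * (3 * x) ^ l) * (3 * x) ^ l * (l : ℝ) ^ (2 * l) ≤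
      2 * ((3 * (l : ℝ)) ^ (2 * l) * y * x ^ (2 * l)) := by
  have h1 : (3 : ℝ) ^ l * N + y * (3 * x) ^ l ≤ 2 * (3 ^ l * (y * x ^ l)) := by
    have : (3 : ℝ) ^ l * N ≤ 3 ^ l * (y * x ^ l) := mul_le_mul_of_nonneg_left hN (by positivity)
    rw [mul_pow]; linarith
  calc _ ≤ 2 * (3 ^ l * (y * x ^ l)) * (3 * x) ^ l * (l : ℝ) ^ (2 * l) := by gcongr
    _ = _ := by
        simp only [mul_pow, two_mul l, pow_add]; ring

/-- ring sum times a power of a prime sum -/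
lemma RPb (h2 : MomStmt) (h4 : RPStmt) : ∃ K : ℝ, 1 ≤ K ∧ ∀ (J : Finset ℕ) (P Q : ℕ → ℝ)
    (x y : ℝ) (S : Finset GI) (l N : ℕ), Sys J P Q → 3 ≤ x → 1 ≤ y → 1 ≤ l → 1 ≤ N →
    S ⊆ GH x (3 * x) → (N : ℝ) ≤ y * x ^ l →
    ∑ k ∈ Icc (-(N : ℤ)) N, ‖Asum gr J P Q y k‖ ^ 2 * ‖∑ π ∈ S, ek k π‖ ^ (2 * l) ≤
      K * ((3 * (l : ℝ)) ^ (2 * l) * y ^ 2 * x ^ (2 * l)) := by
  obtain ⟨K2, hK2⟩ := h2
  obtain ⟨K4, hK4⟩ := h4
  obtain ⟨E, hE⟩ : ∃ E : ℝ, E = Real.exp (8 * Real.exp 4) := ⟨_, rfl⟩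
  have hE0 : 0 < E := hE ▸ Real.exp_pos _
  refine ⟨max 1 (|K4| * (4 * |K2| + 32 * E)), le_max_left _ _,
    fun J P Q x y S l N hSys hx hy hl hN hS hNy => ?_⟩
  have h3 := hK4 x y S (ringP y) (fun α => ((gr α * wt J P Q α : ℝ) : ℂ)) l N (by linarith) hy hl hN
    hS (fun β hβ => by
      rw [mem_ringP] at hβ
      exact ⟨hβ.2.2, hβ.1.le, hβ.2.1⟩)
  have h5 := hK2 J P Q (4 * y) 4 hSys (by linarith) le_rfl
  have h6 := expmom hx (M := 4 * y) (by linarith) hS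
  rw [← hE] at h6
  obtain ⟨F, hF⟩ : ∃ F : GI → ℝ, F = fun β => Real.exp (((S.filter fun π => π ∣ β).card : ℝ) +
      ((S.filter fun π => star π ∣ β).card : ℝ)) := ⟨_, rfl⟩
  have hF0 : ∀ β, 0 ≤ F β := fun β => by rw [hF]; exact (Real.exp_pos _).le
  have h6' : ∑ β ∈ (disc (4 * y)).erase 0, F β ^ 2 ≤ 8 * (4 * y) * E := by rw [hF]; exact h6
  have h7 : ∑ β ∈ ringP y, ‖((gr β * wt J P Q β : ℝ) : ℂ)‖ ^ 2 * F β ≤
      (2 * |K2| + 16 * E) * y := by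
    calc _ ≤ ∑ β ∈ ringP y, (wt J P Q β ^ 4 + F β ^ 2) / 2 := by
          refine sum_le_sum fun β _ => ?_
          have a1 := mul_le_mul_of_nonneg_right (coef_sq J P Q β) (hF0 β)
          nlinarith [sq_nonneg (wt J P Q β ^ 2 - F β)]
      _ ≤ ∑ β ∈ (disc (4 * y)).erase 0, (wt J P Q β ^ 4 + F β ^ 2) / 2 :=
          sum_le_sum_of_subset_of_nonneg (ring_sub y (by linarith)) fun β _ _ => by positivity
      _ = (∑ β ∈ (disc (4 * y)).erase 0, wt J P Q β ^ 4 +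
            ∑ β ∈ (disc (4 * y)).erase 0, F β ^ 2) / 2 := by
          rw [← sum_div, sum_add_distrib]
      _ ≤ _ := by
          have : K2 * (4 * y) ≤ |K2| * (4 * y) :=
            mul_le_mul_of_nonneg_right (le_abs_self _) (by linarith)
          nlinarith
  have h8 := rp_num (x := x) (y := y) (l := l) (N := N) (by linarith) (by linarith) hNy
  have h9 : 0 ≤ ∑ β ∈ ringP y, ‖((gr β * wt J P Q β : ℝ) : ℂ)‖ ^ 2 * F β :=
    sum_nonneg fun β _ => mul_nonneg (sq_nonneg _) (hF0 β)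
  have hx0 : 0 ≤ x := by linarith
  have hy0 : 0 ≤ y := by linarith
  obtain ⟨Z, hZ⟩ : ∃ Z : ℝ, Z = (3 ^ l * N + y * (3 * x) ^ l) * (3 * x) ^ l * (l : ℝ) ^ (2 * l) :=
    ⟨_, rfl⟩
  have hZ0 : 0 ≤ Z := by rw [hZ]; positivity
  rw [← hZ] at h8
  calc _ ≤ K4 * Z * ∑ β ∈ ringP y, ‖((gr β * wt J P Q β : ℝ) : ℂ)‖ ^ 2 * F β := by
        refine h3.trans (le_of_eq ?_)
        rw [hZ, hF]; ring
    _ ≤ |K4| * (2 * ((3 * (l : ℝ)) ^ (2 * l) * y * x ^ (2 * l))) * ((2 * |K2| + 16 * E) * y) := by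
        refine mul_le_mul ?_ h7 h9 (by positivity)
        exact mul_le_mul (le_abs_self _) h8 hZ0 (abs_nonneg _)
    _ = (|K4| * (4 * |K2| + 32 * E)) * ((3 * (l : ℝ)) ^ (2 * l) * y ^ 2 * x ^ (2 * l)) := by ring
    _ ≤ _ := mul_le_mul_of_nonneg_right (le_max_right _ _) (by positivity)

/-- high moment of a prime sum -/
lemma Ub (h4 : RPStmt) : ∃ K : ℝ, 1 ≤ K ∧ ∀ (x : ℝ) (S : Finset GI) (l N : ℕ), 3 ≤ x → 1 ≤ l →
    1 ≤ N → S ⊆ GH x (3 * x) → (N : ℝ) ≤ x ^ l →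
    ∑ k ∈ Icc (-(N : ℤ)) N, ‖∑ π ∈ S, ek k π‖ ^ (2 * l) ≤
      K * ((3 * (l : ℝ)) ^ (2 * l) * x ^ (2 * l)) := by
  obtain ⟨K4, hK4⟩ := h4
  refine ⟨max 1 (2 * |K4|), le_max_left _ _, fun x S l N hx hl hN hS hNx => ?_⟩
  have h3 := hK4 x 1 S {1} (fun _ => 1) l N (by linarith) le_rfl hl hN hS (fun β hβ => by
    rw [mem_singleton] at hβ
    subst hβ
    rw [nm_one]
    refine ⟨by simp [cont], by norm_num, by norm_num⟩)
  have e1 : ∀ k : ℤ, ek k 1 = 1 := fun k => by simp [ek]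
  have f1 : (S.filter fun π => π ∣ (1 : GI)) = ∅ := by
    rw [filter_eq_empty_iff]
    intro π hπ hd
    exact (GF_prime (mem_GH.1 (hS hπ)).1).not_dvd_one hd
  have f2 : (S.filter fun π => star π ∣ (1 : GI)) = ∅ := by
    rw [filter_eq_empty_iff]
    intro π hπ hd
    exact (GF_prime (star_mem_GF (mem_GH.1 (hS hπ)).1)).not_dvd_one hd
  simp only [sum_singleton, e1, f1, f2, card_empty, mul_one, norm_one, one_pow, one_mul,
    Nat.cast_zero, add_zero, Real.exp_zero] at h3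
  have h8 := rp_num (x := x) (y := 1) (l := l) (N := N) (by linarith) (by linarith)
    (by rw [one_mul]; exact hNx)
  have hx0 : 0 ≤ x := by linarith
  rw [one_mul, mul_one] at h8
  calc _ ≤ K4 * ((3 ^ l * N + (3 * x) ^ l) * (3 * x) ^ l * (l : ℝ) ^ (2 * l)) := by
        refine h3.trans (le_of_eq ?_); ring
    _ ≤ |K4| * (2 * ((3 * (l : ℝ)) ^ (2 * l) * x ^ (2 * l))) :=
        mul_le_mul (le_abs_self _) h8 (by positivity) (abs_nonneg _)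
    _ = (2 * |K4|) * ((3 * (l : ℝ)) ^ (2 * l) * x ^ (2 * l)) := by ring
    _ ≤ _ := mul_le_mul_of_nonneg_right (le_max_right _ _) (by positivity)

end M5

end Pool.Agent.Lib.LQ
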