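import Pool.Agent.Lib.LQ.M5Aux1

/-! Block M5, part 2: the parameters of the chain and numerical estimates. -/

set_option autoImplicit false

open Finset
open scoped Classical

noncomputable section

namespace Pool.Agent.Lib.LQ

namespace M5

def qq (b : ℝ) (j : ℕ) : ℝ := b ^ (4 ^ j)
def pp (b : ℝ) (j : ℕ) : ℝ := qq b j ^ 2
def al (c : ℝ) (j : ℕ) : ℝ := c / 8 * (1 - (1 / 2) ^ j)
def XX (b : ℝ) (j v : ℕ) : ℝ := pp b j + v / pp b j
def VV (b : ℝ) (j : ℕ) : ℕ := Vn (Real.exp (pp b j)) (Real.exp (pp b j ^ 2)) (pp b j)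
def SS (b : ℝ) (j v : ℕ) : Finset GI := GS (Real.exp (pp b j)) (Real.exp (pp b j ^ 2)) (pp b j) v
def PF (b P0 : ℝ) (j : ℕ) : ℝ := if j = 0 then P0 else Real.exp (pp b j)
def QF (b Q0 : ℝ) (j : ℕ) : ℝ := if j = 0 then Q0 else Real.exp (pp b j ^ 2)
def PS (b : ℝ) (j v : ℕ) (k : ℤ) : ℝ := ‖∑ π ∈ SS b j v, ek k π‖
def aa (b c : ℝ) (j v : ℕ) : ℝ := Real.exp ((1 - al c j) * XX b j v)
def good (b c : ℝ) (j : ℕ) (k : ℤ) : Prop := ∀ v ∈ range (VV b j), PS b j v k ≤ aa b c j v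

lemma qq_succ (b : ℝ) (j : ℕ) : qq b (j + 1) = qq b j ^ 4 := by
  rw [qq, qq, ← pow_mul, pow_succ]

lemma qq_zero (b : ℝ) : qq b 0 = b := by simp [qq]

lemma qq_ge {b : ℝ} (hb : 2 ≤ b) (j : ℕ) : b * 2 ^ j ≤ qq b j := by
  induction j with
  | zero => simp [qq]
  | succ j ih =>
    rw [qq_succ, pow_succ]
    have h1 : (1 : ℝ) ≤ 2 ^ j := one_le_pow₀ (by norm_num)
    have h2 : 2 ≤ qq b j := by nlinarith
    have h3 : 2 ≤ qq b j ^ 3 := by nlinarith [sq_nonneg (qq b j)]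
    nlinarith

lemma qq_ge_b {b : ℝ} (hb : 2 ≤ b) (j : ℕ) : b ≤ qq b j := by
  have h1 : (1 : ℝ) ≤ 2 ^ j := one_le_pow₀ (by norm_num)
  nlinarith [qq_ge hb j]

lemma qq_mono {b : ℝ} (hb : 2 ≤ b) {i j : ℕ} (h : i ≤ j) : qq b i ≤ qq b j :=
  pow_le_pow_right₀ (by linarith) (Nat.pow_le_pow_right (by norm_num) h)

lemma qq_le_pp {b : ℝ} (hb : 2 ≤ b) (j : ℕ) : qq b j ≤ pp b j := by
  have := qq_ge_b hb j
  rw [pp]; nlinarith

lemma pp_ge {b : ℝ} (hb : 2 ≤ b) (j : ℕ) : 4 ≤ pp b j := by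
  have := qq_ge_b hb j
  rw [pp]; nlinarith

lemma pp_mono {b : ℝ} (hb : 2 ≤ b) {i j : ℕ} (h : i ≤ j) : pp b i ≤ pp b j :=
  pow_le_pow_left₀ (by linarith [qq_ge_b hb i]) (qq_mono hb h) 2

lemma pp_succ (b : ℝ) (j : ℕ) : pp b (j + 1) = pp b j ^ 4 := by
  rw [pp, pp, qq_succ]; ring

lemma le_qq {b : ℝ} (hb : 2 ≤ b) (j : ℕ) : (j : ℝ) ≤ qq b j := by
  have h1 : (j : ℝ) ≤ 2 ^ j := by exact_mod_cast (Nat.lt_two_pow_self (n := j)).le
  have h2 : (0 : ℝ) ≤ 2 ^ j := by positivity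
  nlinarith [qq_ge hb j]

lemma sum_half (n : ℕ) : ∑ j ∈ Icc 1 n, (1 / 2 : ℝ) ^ j ≤ 1 := by
  have : ∑ j ∈ Icc 1 n, (1 / 2 : ℝ) ^ j = 1 - (1 / 2) ^ n := by
    induction n with
    | zero => simp
    | succ n ih => rw [sum_Icc_succ_top (by omega), ih]; ring
  rw [this]
  have : (0 : ℝ) ≤ (1 / 2) ^ n := by positivity
  linarith

lemma inv_qq_le {b : ℝ} (hb : 2 ≤ b) (j : ℕ) : 1 / qq b j ≤ 1 / b * (1 / 2) ^ j := by
  rw [one_div_pow, one_div_mul_one_div]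
  exact one_div_le_one_div_of_le (by positivity) (qq_ge hb j)

lemma sum_inv_qq {b : ℝ} (hb : 2 ≤ b) (n : ℕ) : ∑ j ∈ Icc 1 n, 1 / qq b j ≤ 1 / b := by
  calc _ ≤ ∑ j ∈ Icc 1 n, 1 / b * (1 / 2 : ℝ) ^ j := sum_le_sum fun j _ => inv_qq_le hb j
    _ = 1 / b * ∑ j ∈ Icc 1 n, (1 / 2 : ℝ) ^ j := by rw [mul_sum]
    _ ≤ 1 / b * 1 := mul_le_mul_of_nonneg_left (sum_half n) (by positivity)
    _ = _ := mul_one _

lemma al_nonneg {c : ℝ} (hc : 0 < c) (j : ℕ) : 0 ≤ al c j := by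
  have : (1 / 2 : ℝ) ^ j ≤ 1 := pow_le_one₀ (by norm_num) (by norm_num)
  rw [al]; nlinarith

lemma al_le {c : ℝ} (hc : 0 < c) (j : ℕ) : al c j ≤ c / 8 := by
  have : (0 : ℝ) ≤ (1 / 2 : ℝ) ^ j := by positivity
  rw [al]; nlinarith

lemma al_succ (c : ℝ) (j : ℕ) : al c (j + 1) - al c j = c / 16 * (1 / 2) ^ j := by
  rw [al, al]; ring

lemma xv_eq (b : ℝ) (j v : ℕ) : xv (Real.exp (pp b j)) (pp b j) v = Real.exp (XX b j v) := by
  rw [xv, XX, Real.exp_add]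

lemma XX_ge {b : ℝ} (hb : 2 ≤ b) (j v : ℕ) : pp b j ≤ XX b j v := by
  have := pp_ge hb j
  have h : 0 ≤ (v : ℝ) / pp b j := by positivity
  rw [XX]; linarith

lemma VV_eq (b : ℝ) (j : ℕ) : VV b j = ⌈pp b j * (pp b j ^ 2 - pp b j)⌉₊ := by
  rw [VV, Vn, ← Real.exp_sub, Real.log_exp]

lemma XX_le {b : ℝ} (hb : 2 ≤ b) {j v : ℕ} (hv : v ∈ range (VV b j)) : XX b j v ≤ pp b j ^ 2 := by
  rw [mem_range, VV_eq, Nat.lt_ceil] at hv
  have := pp_ge hb j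
  have h : (v : ℝ) / pp b j ≤ pp b j ^ 2 - pp b j := by
    rw [div_le_iff₀ (by linarith)]; linarith
  rw [XX]; linarith

lemma VV_le {b : ℝ} (hb : 2 ≤ b) (j : ℕ) : (VV b j : ℝ) ≤ pp b j ^ 3 := by
  have h := pp_ge hb j
  rw [VV_eq]
  have h1 : 0 ≤ pp b j * (pp b j ^ 2 - pp b j) := by nlinarith
  have := Nat.ceil_lt_add_one h1
  nlinarith

lemma exp_XX_ge {b : ℝ} (hb : 2 ≤ b) (j v : ℕ) : 3 ≤ Real.exp (XX b j v) := by
  have := Real.add_one_le_exp (XX b j v)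
  linarith [XX_ge hb j v, pp_ge hb j]

lemma SS_sub {b : ℝ} (hb : 2 ≤ b) (j v : ℕ) :
    SS b j v ⊆ GH (Real.exp (XX b j v)) (3 * Real.exp (XX b j v)) := by
  intro π h
  rw [SS, GS, mem_filter, xv_eq, xv_eq, mem_GH, mem_GF, mem_PP] at h
  obtain ⟨⟨⟨⟨a1, a2, _, _⟩, a5⟩, a6⟩, a7, a8⟩ := h
  rw [mem_GH, mem_GF, mem_PP]
  refine ⟨⟨⟨a1, a2, a7, a8.trans ?_⟩, a5⟩, a6⟩
  have hp := pp_ge hb j
  have e : XX b j (v + 1) = 1 / pp b j + XX b j v := by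
    rw [XX, XX]; push_cast; ring
  rw [e, Real.exp_add]
  refine mul_le_mul_of_nonneg_right ?_ (Real.exp_pos _).le
  have h1 : 1 / pp b j ≤ 1 := by rw [div_le_one (by linarith)]; linarith
  calc Real.exp (1 / pp b j) ≤ Real.exp 1 := Real.exp_le_exp.2 h1
    _ ≤ 3 := by linarith [Real.exp_one_lt_d9]

lemma norm_Psum {b : ℝ} (hb : 2 ≤ b) (j v : ℕ) (k : ℤ) : ‖Psum gr (SS b j v) k‖ = PS b j v k := by
  have : Psum gr (SS b j v) k = -∑ π ∈ SS b j v, ek k π := by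
    rw [Psum, ← sum_neg_distrib]
    refine sum_congr rfl fun π hπ => ?_
    rw [gr_GF (mem_GH.1 (SS_sub hb j v hπ)).1]
    simp
  rw [this, norm_neg, PS]

lemma pow_le_exp {q : ℝ} (hq : 0 ≤ q) (n : ℕ) : q ^ n ≤ Real.exp (n * q) := by
  rw [Real.exp_nat_mul]
  exact pow_le_pow_left₀ hq (by linarith [Real.add_one_le_exp q]) n

lemma pow_exp_le {q : ℝ} (hq : 0 < q) (n : ℕ) {t : ℝ} (ht : (n + 1) * q ≤ t) :
    q ^ n * Real.exp (-t) ≤ 1 / q := by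
  rw [le_div_iff₀ hq]
  calc q ^ n * Real.exp (-t) * q = q ^ (n + 1) * Real.exp (-t) := by ring
    _ ≤ Real.exp ((n + 1 : ℕ) * q) * Real.exp (-t) :=
        mul_le_mul_of_nonneg_right (pow_le_exp hq.le _) (Real.exp_pos _).le
    _ = Real.exp ((n + 1 : ℕ) * q - t) := by rw [← Real.exp_add]; ring_nf
    _ ≤ 1 := by
        rw [Real.exp_le_one_iff]; push_cast; linarith

lemma pow_self_le {l : ℕ} (hl : 1 ≤ l) {B : ℝ} (h : 3 * (l : ℝ) ≤ B) :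
    (3 * (l : ℝ)) ^ (2 * l) ≤ Real.exp (2 * l * Real.log B) := by
  have h1 : (1 : ℝ) ≤ l := by exact_mod_cast hl
  have h2 : 0 < B := by linarith
  calc (3 * (l : ℝ)) ^ (2 * l) ≤ B ^ (2 * l) := pow_le_pow_left₀ (by positivity) h _
    _ = Real.exp (Real.log B) ^ (2 * l) := by rw [Real.exp_log h2]
    _ = _ := by rw [← Real.exp_nat_mul]; push_cast; ring_nf

/-- basic facts on the exponent `⌈X / X'⌉` -/
lemma ceil_facts {X X' p : ℝ} (hp : 0 < p) (h1 : p ≤ X') (h2 : p ≤ X) :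
    1 ≤ ⌈X / X'⌉₊ ∧ X ≤ ⌈X / X'⌉₊ * X' ∧ ⌈X / X'⌉₊ * X' ≤ X + X' ∧
      (⌈X / X'⌉₊ : ℝ) ≤ 2 * X / p := by
  have hX' : 0 < X' := by linarith
  have hX : 0 < X := by linarith
  have a1 : X / X' ≤ ⌈X / X'⌉₊ := Nat.le_ceil _
  have a2 : (⌈X / X'⌉₊ : ℝ) < X / X' + 1 := Nat.ceil_lt_add_one (by positivity)
  refine ⟨Nat.one_le_iff_ne_zero.2 (Nat.ceil_pos.2 (by positivity)).ne', ?_, ?_, ?_⟩
  · rwa [div_le_iff₀ hX'] at a1
  · have := mul_le_mul_of_nonneg_right a2.le hX'.le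
    rwa [add_mul, div_mul_cancel₀ _ hX'.ne', one_mul] at this
  · have b1 : X / X' ≤ X / p := div_le_div_of_nonneg_left hX.le hp h1
    have b2 : 1 ≤ X / p := by rw [le_div_iff₀ hp]; linarith
    rw [mul_div_assoc]; linarith

lemma num_pair {q δ X X' : ℝ} (hq : 3 ≤ q) (hδ : 64 ≤ δ * q) (h1 : q ^ 8 ≤ X) (h2 : X ≤ q ^ 16)
    (h3 : q ^ 2 ≤ X') (h4 : X' ≤ q ^ 4) :
    (3 * (⌈X / X'⌉₊ : ℝ)) ^ (2 * ⌈X / X'⌉₊) * Real.exp (-(2 * δ * X) + X') ≤
      Real.exp (-(63 * q ^ 4)) := by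
  have hq0 : 0 < q := by linarith
  have hq1 : 1 ≤ q := by linarith
  have hp : 0 < q ^ 2 := by positivity
  have h28 : q ^ 2 ≤ q ^ 8 := pow_le_pow_right₀ hq1 (by norm_num)
  obtain ⟨a1, _, _, a4⟩ := ceil_facts hp h3 (h28.trans h1)
  obtain ⟨l, hl⟩ : ∃ l, l = ⌈X / X'⌉₊ := ⟨_, rfl⟩
  rw [← hl] at a1 a4 ⊢
  have hX : 0 < X := lt_of_lt_of_le (by positivity) h1
  have hδ0 : 0 < δ := by
    by_contra hn
    have : δ * q ≤ 0 := mul_nonpos_of_nonpos_of_nonneg (not_lt.1 hn) hq0.le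
    linarith
  have b1 : 3 * (l : ℝ) ≤ q ^ 16 := by
    have c1 : 2 * X / q ^ 2 ≤ q ^ 16 / 3 := by
      rw [div_le_div_iff₀ hp (by norm_num)]
      have : 9 ≤ q ^ 2 := by nlinarith
      have : 0 < q ^ 16 := by positivity
      nlinarith
    linarith
  have b2 := pow_self_le a1 b1
  have b3 : Real.log (q ^ 16) ≤ 16 * q := by
    rw [Real.log_pow]
    have := Real.log_le_sub_one_of_pos hq0
    push_cast; linarith
  have b4 : 2 * l * Real.log (q ^ 16) ≤ δ * X := by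
    have c0 : 0 ≤ Real.log (q ^ 16) := Real.log_nonneg (one_le_pow₀ hq1)
    calc 2 * l * Real.log (q ^ 16) ≤ 2 * (2 * X / q ^ 2) * (16 * q) := by gcongr
      _ = 64 * (X / q) := by field_simp; ring
      _ ≤ δ * q * (X / q) := mul_le_mul_of_nonneg_right hδ (by positivity)
      _ = δ * X := by field_simp
  have b5 : 64 * q ^ 4 ≤ δ * X := by
    have c1 : q ^ 5 ≤ q ^ 8 := pow_le_pow_right₀ hq1 (by norm_num)
    calc 64 * q ^ 4 ≤ δ * q * q ^ 4 := mul_le_mul_of_nonneg_right hδ (by positivity)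
      _ = δ * q ^ 5 := by ring
      _ ≤ δ * X := mul_le_mul_of_nonneg_left (c1.trans h1) hδ0.le
  calc _ ≤ Real.exp (2 * l * Real.log (q ^ 16)) * Real.exp (-(2 * δ * X) + X') :=
        mul_le_mul_of_nonneg_right b2 (Real.exp_pos _).le
    _ = Real.exp (2 * l * Real.log (q ^ 16) + (-(2 * δ * X) + X')) := by rw [← Real.exp_add]
    _ ≤ _ := by rw [Real.exp_le_exp]; linarith

lemma num_U {c T X p α : ℝ} (hc : 0 < c) (hp : 1 ≤ p) (h1 : p ≤ X) (h2 : X ≤ T)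
    (h3 : 16 / c * Real.log (6 * T) ≤ p) (hα0 : 0 ≤ α) (hα : α ≤ c / 8) :
    (3 * (⌈T / X⌉₊ : ℝ)) ^ (2 * ⌈T / X⌉₊) * Real.exp (2 * α * (⌈T / X⌉₊ * X)) ≤
      Real.exp (3 * c / 4 * T) := by
  have hp0 : 0 < p := by linarith
  obtain ⟨a1, _, a3, a4⟩ := ceil_facts hp0 h1 (h1.trans h2)
  obtain ⟨l, hl⟩ : ∃ l, l = ⌈T / X⌉₊ := ⟨_, rfl⟩
  rw [← hl] at a1 a3 a4 ⊢
  have hT : 1 ≤ T := by linarith
  have b1 : 3 * (l : ℝ) ≤ 6 * T := by
    have : 2 * T / p ≤ 2 * T := div_le_self (by linarith) hp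
    linarith
  have b2 := pow_self_le a1 b1
  have c0 : 0 ≤ Real.log (6 * T) := Real.log_nonneg (by linarith)
  have b3 : Real.log (6 * T) ≤ c / 16 * p := by
    have := mul_le_mul_of_nonneg_left h3 (show 0 ≤ c / 16 by positivity)
    rwa [← mul_assoc, show c / 16 * (16 / c) = 1 by field_simp, one_mul] at this
  have b4 : 2 * l * Real.log (6 * T) ≤ c / 4 * T := by
    calc 2 * l * Real.log (6 * T) ≤ 2 * (2 * T / p) * (c / 16 * p) := by gcongr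
      _ = c / 4 * T := by field_simp; ring
  have b5 : 2 * α * (l * X) ≤ c / 2 * T := by
    have hX : 0 ≤ X := by linarith
    calc 2 * α * (l * X) ≤ 2 * (c / 8) * (2 * T) := by
          refine mul_le_mul (by linarith) (by linarith) (by positivity) (by positivity)
      _ = c / 2 * T := by ring
  calc _ ≤ Real.exp (2 * l * Real.log (6 * T)) * Real.exp (2 * α * (l * X)) :=
        mul_le_mul_of_nonneg_right b2 (Real.exp_pos _).le
    _ = Real.exp (2 * l * Real.log (6 * T) + 2 * α * (l * X)) := by rw [← Real.exp_add]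
    _ ≤ _ := by rw [Real.exp_le_exp]; linarith

/-- the conditions on `T = log M` -/
lemma eventually_T {c ε B K : ℝ} (hc : 0 < c) (hε : 0 < ε) (hK : 0 ≤ K) : ∃ T0 : ℝ, ∀ T ≥ T0,
    1 ≤ T ∧ B < 16 / c * Real.log (6 * T) ∧ (16 / c * Real.log (6 * T)) ^ 12 ≤ c * T ∧
      T * Real.exp (-(T / 4)) ≤ ε ∧ K * T ≤ Real.exp (c / 4 * T) ∧ 200 ≤ Real.exp (c * T) := by
  have t6 : Filter.Tendsto (fun T : ℝ => 6 * T) Filter.atTop Filter.atTop :=
    Filter.tendsto_id.const_mul_atTop (by norm_num)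
  have e1 : ∀ᶠ T : ℝ in Filter.atTop, 1 ≤ T := Filter.eventually_ge_atTop 1
  have e2 : ∀ᶠ T : ℝ in Filter.atTop, B < 16 / c * Real.log (6 * T) :=
    ((Real.tendsto_log_atTop.comp t6).const_mul_atTop (show 0 < 16 / c by positivity)).eventually
      (Filter.eventually_gt_atTop B)
  have e3 : ∀ᶠ T : ℝ in Filter.atTop, (16 / c * Real.log (6 * T)) ^ 12 ≤ c * T := by
    have h := ((Real.isLittleO_pow_log_id_atTop (n := 12)).comp_tendsto t6).bound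
      (c := c / (6 * (16 / c) ^ 12)) (by positivity)
    filter_upwards [h, e1] with T hT h1
    simp only [Function.comp, id, Real.norm_eq_abs] at hT
    rw [abs_of_nonneg (show (0 : ℝ) ≤ 6 * T by linarith)] at hT
    have h2 := (le_abs_self _).trans hT
    rw [mul_pow]
    calc (16 / c) ^ 12 * Real.log (6 * T) ^ 12 ≤
          (16 / c) ^ 12 * (c / (6 * (16 / c) ^ 12) * (6 * T)) :=
          mul_le_mul_of_nonneg_left h2 (by positivity)
      _ = c * T := by field_simp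
  have e4 : ∀ᶠ T : ℝ in Filter.atTop, T * Real.exp (-(T / 4)) ≤ ε := by
    filter_upwards [Filter.eventually_ge_atTop (64 / ε), e1] with T hT h1
    have h2 := pow_exp_le (q := T / 8) (by linarith) 1 (t := T / 4) (by push_cast; linarith)
    rw [pow_one] at h2
    have h3 : 1 / (T / 8) ≤ ε / 8 := by
      rw [div_le_iff₀ hε] at hT
      rw [div_le_div_iff₀ (by linarith) (by norm_num)]
      nlinarith
    linarith
  have e5 : ∀ᶠ T : ℝ in Filter.atTop, K * T ≤ Real.exp (c / 4 * T) := by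
    filter_upwards [Filter.eventually_ge_atTop (64 * K / c ^ 2), e1] with T hT h1
    have h2 := pow_le_exp (q := c / 8 * T) (by positivity) 2
    rw [div_le_iff₀ (by positivity)] at hT
    have h3 : ((2 : ℕ) : ℝ) * (c / 8 * T) = c / 4 * T := by push_cast; ring
    rw [h3] at h2
    nlinarith
  have e6 : ∀ᶠ T : ℝ in Filter.atTop, 200 ≤ Real.exp (c * T) := by
    filter_upwards [Filter.eventually_ge_atTop (200 / c)] with T hT
    rw [div_le_iff₀ hc] at hT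
    linarith [Real.add_one_le_exp (c * T)]
  obtain ⟨T0, hT0⟩ := Filter.eventually_atTop.1 (e1.and (e2.and (e3.and (e4.and (e5.and e6)))))
  exact ⟨T0, hT0⟩

end M5

end Pool.Agent.Lib.LQ
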