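import Pool.Agent.Lib.LQ.M5Aux2

/-! Block M5, part 3: the pointwise bound and the main terms. -/

set_option autoImplicit false

open Finset
open scoped Classical

noncomputable section

namespace Pool.Agent.Lib.LQ

namespace M5

def RR (b : ℝ) (J : Finset ℕ) (P Q : ℕ → ℝ) (M : ℝ) (j v : ℕ) (k : ℤ) : ℝ :=
  ‖Asum gr (J.erase j) P Q (M / Real.exp (XX b j v)) k‖

def WW (b c : ℝ) (j v : ℕ) (k : ℤ) : ℝ :=
  if j = 1 then 1 else ∑ v' ∈ range (VV b (j - 1)),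
    (PS b (j - 1) v' k / aa b c (j - 1) v') ^ (2 * ⌈XX b j v / XX b (j - 1) v'⌉₊)

def GG (b c : ℝ) (J : Finset ℕ) (P Q : ℕ → ℝ) (M : ℝ) (j : ℕ) (k : ℤ) : ℝ :=
  VV b j * ∑ v ∈ range (VV b j), aa b c j v ^ 2 * RR b J P Q M j v k ^ 2 * WW b c j v k

def EE (b : ℝ) (J : Finset ℕ) (P Q : ℕ → ℝ) (M : ℝ) (j : ℕ) (k : ℤ) : ℝ :=
  ‖Asum gr J P Q M k - ((1 / LL (P j) (Q j) : ℝ) : ℂ) * ∑ v ∈ range (VV b j),
    Psum gr (SS b j v) k * Asum gr (J.erase j) P Q (M / Real.exp (XX b j v)) k‖ ^ 2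

lemma aa_pos (b c : ℝ) (j v : ℕ) : 0 < aa b c j v := Real.exp_pos _

lemma PS_nonneg (b : ℝ) (j v : ℕ) (k : ℤ) : 0 ≤ PS b j v k := norm_nonneg _

lemma WW_nonneg (b c : ℝ) (j v : ℕ) (k : ℤ) : 0 ≤ WW b c j v k := by
  unfold WW
  split_ifs
  · norm_num
  · exact sum_nonneg fun v' _ => pow_nonneg (div_nonneg (PS_nonneg _ _ _ _) (aa_pos _ _ _ _).le) _

lemma GG_nonneg (b c : ℝ) (J : Finset ℕ) (P Q : ℕ → ℝ) (M : ℝ) (j : ℕ) (k : ℤ) :
    0 ≤ GG b c J P Q M j k :=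
  mul_nonneg (Nat.cast_nonneg _) (sum_nonneg fun _ _ =>
    mul_nonneg (mul_nonneg (sq_nonneg _) (sq_nonneg _)) (WW_nonneg _ _ _ _ _))

lemma pointwise {b c : ℝ} (hb : 2 ≤ b) {J : Finset ℕ} {P Q : ℕ → ℝ} (M : ℝ) {n : ℕ}
    (hL : ∀ j ∈ Icc 1 n, 1 ≤ LL (P j) (Q j)) {k : ℤ} (hk : ∃ j, j ∈ Icc 1 n ∧ good b c j k) :
    ‖Asum gr J P Q M k‖ ^ 2 ≤ ∑ j ∈ Icc 1 n, (2 * EE b J P Q M j k + 2 * GG b c J P Q M j k) := by
  obtain ⟨j, hj⟩ : ∃ j, j = Nat.find hk := ⟨_, rfl⟩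
  have h1 : j ∈ Icc 1 n ∧ good b c j k := hj ▸ Nat.find_spec hk
  have h2 : ∀ i < j, ¬ (i ∈ Icc 1 n ∧ good b c i k) := fun i hi => Nat.find_min hk (hj ▸ hi)
  refine le_trans ?_ (single_le_sum (f := fun j => 2 * EE b J P Q M j k + 2 * GG b c J P Q M j k)
    (fun i _ => add_nonneg (mul_nonneg (by norm_num) (sq_nonneg _))
      (mul_nonneg (by norm_num) (GG_nonneg _ _ _ _ _ _ _ _))) h1.1)
  have h3 := pt1 (Asum gr J P Q M k) (LL (P j) (Q j)) (hL j h1.1) (VV b j)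
    (fun v => Psum gr (SS b j v) k)
    (fun v => Asum gr (J.erase j) P Q (M / Real.exp (XX b j v)) k) (fun v => aa b c j v)
    (fun v hv => by rw [norm_Psum hb]; exact h1.2 v hv)
  refine h3.trans (add_le_add le_rfl (mul_le_mul_of_nonneg_left ?_ (by norm_num)))
  refine mul_le_mul_of_nonneg_left (sum_le_sum fun v _ => ?_) (Nat.cast_nonneg _)
  refine le_mul_of_one_le_right (mul_nonneg (sq_nonneg _) (sq_nonneg _)) ?_
  unfold WW
  split_ifs with hj1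
  · exact le_rfl
  · have h4 := mem_Icc.1 h1.1
    have h5 := h2 (j - 1) (by omega)
    have h6 : ¬ good b c (j - 1) k := fun hg => h5 ⟨mem_Icc.2 ⟨by omega, by omega⟩, hg⟩
    unfold good at h6
    push Not at h6
    obtain ⟨v', hv', h7⟩ := h6
    refine le_trans ?_ (single_le_sum (f := fun v' => (PS b (j - 1) v' k / aa b c (j - 1) v') ^
      (2 * ⌈XX b j v / XX b (j - 1) v'⌉₊))
      (fun i _ => pow_nonneg (div_nonneg (PS_nonneg _ _ _ _) (aa_pos _ _ _ _).le) _) hv')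
    exact one_le_pow₀ ((one_le_div (aa_pos _ _ _ _)).2 h7.le)

lemma y_ge {b M : ℝ} (hb : 2 ≤ b) {j v : ℕ} (hv : v ∈ range (VV b j))
    (hM : Real.exp (pp b j ^ 2) ≤ M) : 1 ≤ M / Real.exp (XX b j v) := by
  rw [one_le_div (Real.exp_pos _)]
  exact (Real.exp_le_exp.2 (XX_le hb hv)).trans hM

lemma aa_y (b c M : ℝ) (j v : ℕ) : aa b c j v ^ 2 * (M / Real.exp (XX b j v)) ^ 2 =
    M ^ 2 * Real.exp (-(2 * al c j * XX b j v)) := by
  have : aa b c j v = Real.exp (XX b j v) * Real.exp (-(al c j * XX b j v)) := by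
    rw [aa, ← Real.exp_add]; ring_nf
  have h2 : Real.exp (-(2 * al c j * XX b j v)) = Real.exp (-(al c j * XX b j v)) ^ 2 := by
    rw [← Real.exp_nat_mul]; push_cast; ring_nf
  rw [this, h2]
  have := (Real.exp_pos (XX b j v)).ne'
  field_simp

/-- first link of the chain -/
lemma G_one {K1 : ℝ} (hK0 : 1 ≤ K1) (hK1 : ∀ (J : Finset ℕ) (P Q : ℕ → ℝ) (y : ℝ)
    (N : ℕ), Sys J P Q → 1 ≤ y → 1 ≤ N →
    ∑ k ∈ Icc (-(N : ℤ)) N, ‖Asum gr J P Q y k‖ ^ 2 ≤ K1 * ((N + y) * y))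
    {b c : ℝ} (hb : 2 ≤ b) (hc : 0 < c) (hbc : 1024 ≤ c * b) {J : Finset ℕ} {P Q : ℕ → ℝ}
    (hS : Sys J P Q) {M K' : ℝ} (hK' : 0 < K') {N : ℕ} (hN : 1 ≤ N) (hNM : (N : ℝ) ≤ M / K')
    (hM : Real.exp (pp b 1 ^ 2) ≤ M) :
    ∑ k ∈ Icc (-(N : ℤ)) N, GG b c J P Q M 1 k ≤
      K1 * M ^ 2 * (pp b 1 ^ 6 * Real.exp (pp b 1 ^ 2) / K' + 1 / b) := by
  have hM0 : 0 < M := (Real.exp_pos _).trans_le hM
  obtain ⟨Z, hZ⟩ : ∃ Z : ℝ, Z = K1 * M ^ 2 * (Real.exp (pp b 1 ^ 2) / K' +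
    Real.exp (-(c / 8 * pp b 1))) := ⟨_, rfl⟩
  have hZ0 : 0 ≤ Z := by rw [hZ]; positivity
  have h1 : ∀ v ∈ range (VV b 1), ∑ k ∈ Icc (-(N : ℤ)) N,
      aa b c 1 v ^ 2 * RR b J P Q M 1 v k ^ 2 * WW b c 1 v k ≤ Z := by
    intro v hv
    simp only [WW, if_true, mul_one]
    rw [← mul_sum]
    have a1 := hK1 (J.erase 1) P Q _ N (hS.subset (erase_subset _ _)) (y_ge hb hv hM) hN
    have a2 := aa_y b c M 1 v
    have hx := Real.exp_pos (XX b 1 v)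
    have a3 : Real.exp (-(2 * al c 1 * XX b 1 v)) ≤ Real.exp (-(c / 8 * pp b 1)) := by
      rw [Real.exp_le_exp, al]
      have := XX_ge hb 1 v
      nlinarith
    have a4 : aa b c 1 v ≤ Real.exp (XX b 1 v) := by
      rw [aa, Real.exp_le_exp]
      have := al_nonneg hc 1
      have := XX_ge hb 1 v
      have := pp_ge hb 1
      nlinarith
    have a5 : aa b c 1 v ^ 2 * (N * (M / Real.exp (XX b 1 v))) ≤
        M ^ 2 * (Real.exp (pp b 1 ^ 2) / K') := by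
      have a6 : aa b c 1 v ^ 2 ≤ Real.exp (XX b 1 v) ^ 2 :=
        pow_le_pow_left₀ (aa_pos _ _ _ _).le a4 2
      have a7 : Real.exp (XX b 1 v) ≤ Real.exp (pp b 1 ^ 2) := Real.exp_le_exp.2 (XX_le hb hv)
      calc _ ≤ Real.exp (XX b 1 v) ^ 2 * (M / K' * (M / Real.exp (XX b 1 v))) := by gcongr
        _ = M ^ 2 * (Real.exp (XX b 1 v) / K') := by field_simp
        _ ≤ _ := by gcongr
    calc _ ≤ aa b c 1 v ^ 2 * (K1 * ((N + M / Real.exp (XX b 1 v)) * (M / Real.exp (XX b 1 v)))) :=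
          mul_le_mul_of_nonneg_left a1 (sq_nonneg _)
      _ = K1 * (aa b c 1 v ^ 2 * (N * (M / Real.exp (XX b 1 v))) +
            aa b c 1 v ^ 2 * (M / Real.exp (XX b 1 v)) ^ 2) := by ring
      _ ≤ K1 * (M ^ 2 * (Real.exp (pp b 1 ^ 2) / K') + M ^ 2 * Real.exp (-(c / 8 * pp b 1))) := by
          rw [a2]; gcongr
      _ = Z := by rw [hZ]; ring
  have hV := VV_le hb 1
  have hq := qq_ge_b hb 1
  have h2 : pp b 1 ^ 6 * Real.exp (-(c / 8 * pp b 1)) ≤ 1 / b := by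
    have a1 : 1024 ≤ c * qq b 1 := hbc.trans (mul_le_mul_of_nonneg_left hq hc.le)
    have a2 := pow_exp_le (q := qq b 1) (by linarith) 12 (t := c / 8 * pp b 1) (by
      rw [pp]; push_cast; nlinarith)
    rw [show pp b 1 ^ 6 = qq b 1 ^ 12 by rw [pp]; ring]
    exact a2.trans (one_div_le_one_div_of_le (by linarith) hq)
  have hp := pp_ge hb 1
  calc _ = VV b 1 * ∑ v ∈ range (VV b 1), ∑ k ∈ Icc (-(N : ℤ)) N,
        aa b c 1 v ^ 2 * RR b J P Q M 1 v k ^ 2 * WW b c 1 v k := by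
        simp only [GG]; rw [← mul_sum, sum_comm]
    _ ≤ VV b 1 * ∑ v ∈ range (VV b 1), Z :=
        mul_le_mul_of_nonneg_left (sum_le_sum h1) (Nat.cast_nonneg _)
    _ = VV b 1 * (VV b 1 * Z) := by rw [sum_const, card_range, nsmul_eq_mul]
    _ ≤ pp b 1 ^ 3 * (pp b 1 ^ 3 * Z) := by gcongr
    _ = K1 * M ^ 2 * (pp b 1 ^ 6 * Real.exp (pp b 1 ^ 2) / K' +
          pp b 1 ^ 6 * Real.exp (-(c / 8 * pp b 1))) := by rw [hZ]; ring
    _ ≤ _ := by gcongr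

/-- the other links of the chain -/
lemma G_succ {K2 : ℝ} (hK0 : 1 ≤ K2) (hK2 : ∀ (J : Finset ℕ) (P Q : ℕ → ℝ)
    (x y : ℝ) (S : Finset GI) (l N : ℕ), Sys J P Q → 3 ≤ x → 1 ≤ y → 1 ≤ l → 1 ≤ N →
    S ⊆ GH x (3 * x) → (N : ℝ) ≤ y * x ^ l →
    ∑ k ∈ Icc (-(N : ℤ)) N, ‖Asum gr J P Q y k‖ ^ 2 * ‖∑ π ∈ S, ek k π‖ ^ (2 * l) ≤
      K2 * ((3 * (l : ℝ)) ^ (2 * l) * y ^ 2 * x ^ (2 * l)))
    {b c : ℝ} (hb : 3 ≤ b) (hc : 0 < c) (hc1 : c ≤ 1) (hbc : 1024 ≤ c * b) {J : Finset ℕ}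
    {P Q : ℕ → ℝ} (hS : Sys J P Q) {M : ℝ} {N : ℕ} (hN : 1 ≤ N) (hNM : (N : ℝ) ≤ M) {i : ℕ}
    (hi : 1 ≤ i) (hM : Real.exp (pp b (i + 1) ^ 2) ≤ M) :
    ∑ k ∈ Icc (-(N : ℤ)) N, GG b c J P Q M (i + 1) k ≤ K2 * M ^ 2 * (1 / qq b (i + 1)) := by
  have hb2 : 2 ≤ b := by linarith
  have hM0 : 0 < M := (Real.exp_pos _).trans_le hM
  obtain ⟨Z, hZ⟩ : ∃ Z : ℝ, Z = K2 * M ^ 2 * Real.exp (-(63 * qq b i ^ 4)) := ⟨_, rfl⟩
  have hZ0 : 0 ≤ Z := by rw [hZ]; positivity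
  have hq := qq_ge_b hb2 i
  have hδ : 64 ≤ (al c (i + 1) - al c i) * qq b i := by
    rw [al_succ]
    have a1 := qq_ge hb2 i
    have a2 : (0 : ℝ) < (1 / 2) ^ i := by positivity
    calc (64 : ℝ) ≤ c * b / 16 := by linarith
      _ = c / 16 * (1 / 2) ^ i * (b * 2 ^ i) := by
          rw [one_div_pow]; field_simp
      _ ≤ _ := mul_le_mul_of_nonneg_left a1 (by positivity)
  have h1 : ∀ v ∈ range (VV b (i + 1)), ∀ v' ∈ range (VV b i), ∑ k ∈ Icc (-(N : ℤ)) N,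
      aa b c (i + 1) v ^ 2 * RR b J P Q M (i + 1) v k ^ 2 *
        (PS b i v' k / aa b c i v') ^ (2 * ⌈XX b (i + 1) v / XX b i v'⌉₊) ≤ Z := by
    intro v hv v' hv'
    have x1 : qq b i ^ 8 ≤ XX b (i + 1) v := by
      have := XX_ge hb2 (i + 1) v
      rw [pp, qq_succ] at this; linarith [show (qq b i ^ 4) ^ 2 = qq b i ^ 8 by ring]
    have x2 : XX b (i + 1) v ≤ qq b i ^ 16 := by
      have := XX_le hb2 hv
      rw [pp, qq_succ] at this; linarith [show ((qq b i ^ 4) ^ 2) ^ 2 = qq b i ^ 16 by ring]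
    have x3 : qq b i ^ 2 ≤ XX b i v' := XX_ge hb2 i v'
    have x4 : XX b i v' ≤ qq b i ^ 4 := by
      have := XX_le hb2 hv'
      rw [pp] at this; linarith [show (qq b i ^ 2) ^ 2 = qq b i ^ 4 by ring]
    have hn := num_pair (by linarith) hδ x1 x2 x3 x4
    have hp : 0 < qq b i ^ 2 := pow_pos (by linarith) 2
    obtain ⟨c1, c2, c3, _⟩ := ceil_facts hp x3
      ((pow_le_pow_right₀ (by linarith : 1 ≤ qq b i) (by norm_num : 2 ≤ 8)).trans x1)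
    obtain ⟨l, hl⟩ : ∃ l, l = ⌈XX b (i + 1) v / XX b i v'⌉₊ := ⟨_, rfl⟩
    rw [← hl] at hn c1 c2 c3 ⊢
    have hx := Real.exp_pos (XX b (i + 1) v)
    have a1 := hK2 (J.erase (i + 1)) P Q (Real.exp (XX b i v')) (M / Real.exp (XX b (i + 1) v))
      (SS b i v') l N (hS.subset (erase_subset _ _)) (exp_XX_ge hb2 _ _) (y_ge hb2 hv hM) c1 hN
      (SS_sub hb2 _ _) (by
        rw [← Real.exp_nat_mul]
        calc (N : ℝ) ≤ M := hNM
          _ = M / Real.exp (XX b (i + 1) v) * Real.exp (XX b (i + 1) v) := by field_simp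
          _ ≤ _ := mul_le_mul_of_nonneg_left (Real.exp_le_exp.2 c2) (by positivity))
    have a2 := aa_y b c M (i + 1) v
    have ha := aa_pos b c i v'
    have a3 : Real.exp (XX b i v') ^ (2 * l) / aa b c i v' ^ (2 * l) ≤
        Real.exp (2 * al c i * XX b (i + 1) v + XX b i v') := by
      rw [aa, ← Real.exp_nat_mul, ← Real.exp_nat_mul, ← Real.exp_sub, Real.exp_le_exp]
      have d1 := al_nonneg hc i
      have d2 := al_le hc i
      have d3 : 0 ≤ XX b i v' := by linarith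
      have d4 := mul_le_mul_of_nonneg_left c3 d1
      have d5 : al c i * XX b i v' ≤ 1 / 2 * XX b i v' :=
        mul_le_mul_of_nonneg_right (by linarith) d3
      push_cast
      nlinarith
    calc _ = aa b c (i + 1) v ^ 2 / aa b c i v' ^ (2 * l) * ∑ k ∈ Icc (-(N : ℤ)) N,
          ‖Asum gr (J.erase (i + 1)) P Q (M / Real.exp (XX b (i + 1) v)) k‖ ^ 2 *
            ‖∑ π ∈ SS b i v', ek k π‖ ^ (2 * l) := by
          rw [mul_sum]
          refine sum_congr rfl fun k _ => ?_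
          rw [RR, PS, div_pow]; ring
      _ ≤ aa b c (i + 1) v ^ 2 / aa b c i v' ^ (2 * l) * (K2 * ((3 * (l : ℝ)) ^ (2 * l) *
            (M / Real.exp (XX b (i + 1) v)) ^ 2 * Real.exp (XX b i v') ^ (2 * l))) :=
          mul_le_mul_of_nonneg_left a1 (by positivity)
      _ = K2 * (3 * (l : ℝ)) ^ (2 * l) * (aa b c (i + 1) v ^ 2 *
            (M / Real.exp (XX b (i + 1) v)) ^ 2) *
            (Real.exp (XX b i v') ^ (2 * l) / aa b c i v' ^ (2 * l)) := by ring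
      _ ≤ K2 * (3 * (l : ℝ)) ^ (2 * l) * (M ^ 2 * Real.exp (-(2 * al c (i + 1) * XX b (i + 1) v))) *
            Real.exp (2 * al c i * XX b (i + 1) v + XX b i v') := by
          rw [a2]; gcongr
      _ = K2 * M ^ 2 * ((3 * (l : ℝ)) ^ (2 * l) *
            Real.exp (-(2 * (al c (i + 1) - al c i) * XX b (i + 1) v) + XX b i v')) := by
          rw [show -(2 * (al c (i + 1) - al c i) * XX b (i + 1) v) + XX b i v' =
            -(2 * al c (i + 1) * XX b (i + 1) v) + (2 * al c i * XX b (i + 1) v + XX b i v') by ring,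
            Real.exp_add (-(2 * al c (i + 1) * XX b (i + 1) v))]
          ring
      _ ≤ Z := by rw [hZ]; gcongr
  have hV := VV_le hb2 (i + 1)
  have hV' := (VV_le hb2 i).trans (pow_le_pow_left₀ (by linarith [pp_ge hb2 i])
    (pp_mono hb2 (Nat.le_succ i)) 3)
  have hp := pp_ge hb2 (i + 1)
  have hq' := qq_ge_b hb2 (i + 1)
  have h2 : pp b (i + 1) ^ 9 * Real.exp (-(63 * qq b i ^ 4)) ≤ 1 / qq b (i + 1) := by
    rw [← qq_succ, show pp b (i + 1) ^ 9 = qq b (i + 1) ^ 18 by rw [pp]; ring]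
    exact pow_exp_le (by linarith) 18 (by push_cast; linarith)
  calc _ = VV b (i + 1) * ∑ v ∈ range (VV b (i + 1)), ∑ v' ∈ range (VV b i),
        ∑ k ∈ Icc (-(N : ℤ)) N, aa b c (i + 1) v ^ 2 * RR b J P Q M (i + 1) v k ^ 2 *
          (PS b i v' k / aa b c i v') ^ (2 * ⌈XX b (i + 1) v / XX b i v'⌉₊) := by
        simp only [GG, WW, if_neg (show i + 1 ≠ 1 by omega), Nat.add_sub_cancel]
        rw [← mul_sum, sum_comm]
        congr 1
        refine sum_congr rfl fun v _ => ?_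
        simp only [mul_sum]
        rw [sum_comm]
    _ ≤ VV b (i + 1) * ∑ v ∈ range (VV b (i + 1)), ∑ v' ∈ range (VV b i), Z :=
        mul_le_mul_of_nonneg_left (sum_le_sum fun v hv => sum_le_sum (h1 v hv)) (Nat.cast_nonneg _)
    _ = VV b (i + 1) * (VV b (i + 1) * (VV b i * Z)) := by
        simp only [sum_const, card_range, nsmul_eq_mul]
    _ ≤ pp b (i + 1) ^ 3 * (pp b (i + 1) ^ 3 * (pp b (i + 1) ^ 3 * Z)) := by gcongr
    _ = K2 * M ^ 2 * (pp b (i + 1) ^ 9 * Real.exp (-(63 * qq b i ^ 4))) := by rw [hZ]; ring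
    _ ≤ _ := by gcongr

/-- the exceptional set -/
lemma U_card {K3 : ℝ} (hK0 : 1 ≤ K3) (hK3 : ∀ (x : ℝ) (S : Finset GI) (l N : ℕ), 3 ≤ x → 1 ≤ l →
    1 ≤ N → S ⊆ GH x (3 * x) → (N : ℝ) ≤ x ^ l →
    ∑ k ∈ Icc (-(N : ℤ)) N, ‖∑ π ∈ S, ek k π‖ ^ (2 * l) ≤
      K3 * ((3 * (l : ℝ)) ^ (2 * l) * x ^ (2 * l)))
    {b c T : ℝ} (hb : 2 ≤ b) (hc : 0 < c) {N n : ℕ} (hN : 1 ≤ N) (hNM : (N : ℝ) ≤ Real.exp T)
    (h1 : pp b n ^ 3 ≤ T) (h2 : 16 / c * Real.log (6 * T) ≤ pp b n) :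
    (((Icc (-(N : ℤ)) N).filter fun k => ¬ good b c n k).card : ℝ) ≤
      K3 * T * Real.exp (3 * c / 4 * T) := by
  have hp := pp_ge hb n
  have h3 : ∀ v ∈ range (VV b n), ∑ k ∈ Icc (-(N : ℤ)) N,
      (PS b n v k / aa b c n v) ^ (2 * ⌈T / XX b n v⌉₊) ≤ K3 * Real.exp (3 * c / 4 * T) := by
    intro v hv
    have x1 := XX_ge hb n v
    have x2 : XX b n v ≤ T := (XX_le hb hv).trans (le_trans (by nlinarith) h1)
    have hn := num_U hc (by linarith) x1 x2 h2 (al_nonneg hc n) (al_le hc n)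
    obtain ⟨c1, c2, _, _⟩ := ceil_facts (by linarith : 0 < pp b n) x1 (x1.trans x2)
    obtain ⟨l, hl⟩ : ∃ l, l = ⌈T / XX b n v⌉₊ := ⟨_, rfl⟩
    rw [← hl] at hn c1 c2 ⊢
    have a1 := hK3 (Real.exp (XX b n v)) (SS b n v) l N (exp_XX_ge hb _ _) c1 hN (SS_sub hb _ _)
      (by rw [← Real.exp_nat_mul]; exact hNM.trans (Real.exp_le_exp.2 c2))
    have ha := aa_pos b c n v
    have a3 : Real.exp (XX b n v) ^ (2 * l) / aa b c n v ^ (2 * l) =
        Real.exp (2 * al c n * (l * XX b n v)) := by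
      rw [aa, ← Real.exp_nat_mul, ← Real.exp_nat_mul, ← Real.exp_sub]
      push_cast; ring_nf
    calc _ = 1 / aa b c n v ^ (2 * l) * ∑ k ∈ Icc (-(N : ℤ)) N,
          ‖∑ π ∈ SS b n v, ek k π‖ ^ (2 * l) := by
          rw [mul_sum]
          refine sum_congr rfl fun k _ => ?_
          rw [PS, div_pow]; ring
      _ ≤ 1 / aa b c n v ^ (2 * l) *
            (K3 * ((3 * (l : ℝ)) ^ (2 * l) * Real.exp (XX b n v) ^ (2 * l))) :=
          mul_le_mul_of_nonneg_left a1 (by positivity)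
      _ = K3 * ((3 * (l : ℝ)) ^ (2 * l) *
            (Real.exp (XX b n v) ^ (2 * l) / aa b c n v ^ (2 * l))) := by ring
      _ ≤ _ := by rw [a3]; gcongr
  have hnn : ∀ v k, 0 ≤ (PS b n v k / aa b c n v) ^ (2 * ⌈T / XX b n v⌉₊) := fun v k =>
    pow_nonneg (div_nonneg (PS_nonneg _ _ _ _) (aa_pos _ _ _ _).le) _
  calc _ = ∑ k ∈ (Icc (-(N : ℤ)) N).filter (fun k => ¬ good b c n k), (1 : ℝ) := by simp
    _ ≤ ∑ k ∈ (Icc (-(N : ℤ)) N).filter (fun k => ¬ good b c n k), ∑ v ∈ range (VV b n),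
          (PS b n v k / aa b c n v) ^ (2 * ⌈T / XX b n v⌉₊) := by
        refine sum_le_sum fun k hk => ?_
        have h6 := (mem_filter.1 hk).2
        unfold good at h6
        push Not at h6
        obtain ⟨v', hv', h7⟩ := h6
        refine le_trans ?_ (single_le_sum (f := fun v => (PS b n v k / aa b c n v) ^
          (2 * ⌈T / XX b n v⌉₊)) (fun i _ => hnn i k) hv')
        exact one_le_pow₀ ((one_le_div (aa_pos _ _ _ _)).2 h7.le)
    _ ≤ ∑ k ∈ Icc (-(N : ℤ)) N, ∑ v ∈ range (VV b n),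
          (PS b n v k / aa b c n v) ^ (2 * ⌈T / XX b n v⌉₊) :=
        sum_le_sum_of_subset_of_nonneg (filter_subset _ _) fun k _ _ =>
          sum_nonneg fun v _ => hnn v k
    _ ≤ ∑ v ∈ range (VV b n), K3 * Real.exp (3 * c / 4 * T) := by
        rw [sum_comm]; exact sum_le_sum h3
    _ = VV b n * (K3 * Real.exp (3 * c / 4 * T)) := by rw [sum_const, card_range, nsmul_eq_mul]
    _ ≤ T * (K3 * Real.exp (3 * c / 4 * T)) :=
        mul_le_mul_of_nonneg_right ((VV_le hb n).trans h1) (by positivity)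
    _ = _ := by ring

end M5

end Pool.Agent.Lib.LQ
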