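import Pool.Agent.Lib.LQ.Basic

/-! Block M7: the prime saving.  A sum of the angular character over Gaussian primes of a short
range cannot be too close to the trivial bound (Fejer kernel plus an upper bound sieve). -/

set_option autoImplicit false

open Finset
open scoped Classical

noncomputable section

namespace Pool.Agent.Lib.LQ

open Pool.Agent.Lib.MP_de94cf_nt (gg det inn)

namespace M7

lemma norm_pow_sub_one {u : ℂ} (hu : ‖u‖ = 1) (m : ℕ) : ‖u ^ m - 1‖ ≤ m * ‖u - 1‖ := by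
  induction m with
  | zero => simp
  | succ m ih =>
    have e : u ^ (m + 1) - 1 = u ^ m * (u - 1) + (u ^ m - 1) := by ring
    rw [e]
    refine (norm_add_le _ _).trans ?_
    rw [norm_mul, norm_pow, hu, one_pow, one_mul]
    push_cast
    linarith

lemma norm_pow_sub_pow {u : ℂ} (hu : ‖u‖ = 1) {r j j' : ℕ} (hj : j < r) (h : j' ≤ j) :
    ‖u ^ j - u ^ j'‖ ≤ r * ‖u - 1‖ := by
  obtain ⟨d, rfl⟩ := Nat.exists_eq_add_of_le h
  have e : u ^ (j' + d) - u ^ j' = u ^ j' * (u ^ d - 1) := by ring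
  rw [e, norm_mul, norm_pow, hu, one_pow, one_mul]
  refine (norm_pow_sub_one hu d).trans ?_
  have : (d : ℝ) ≤ r := by exact_mod_cast (by omega : d ≤ r)
  exact mul_le_mul_of_nonneg_right this (norm_nonneg _)

lemma sq_norm_sub {a b : ℂ} (ha : ‖a‖ = 1) (hb : ‖b‖ = 1) :
    ‖a - b‖ ^ 2 = 2 - 2 * (a * (starRingEnd ℂ) b).re := by
  have h1 : a.re ^ 2 + a.im ^ 2 = 1 := by
    have := Complex.sq_norm a
    rw [ha, Complex.normSq_apply] at this
    linarith
  have h2 : b.re ^ 2 + b.im ^ 2 = 1 := by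
    have := Complex.sq_norm b
    rw [hb, Complex.normSq_apply] at this
    linarith
  rw [Complex.sq_norm, Complex.normSq_apply]
  simp only [Complex.sub_re, Complex.sub_im, Complex.mul_re, Complex.conj_re, Complex.conj_im]
  nlinarith

lemma one_sub_re {u : ℂ} (hu : ‖u‖ = 1) {r j j' : ℕ} (hj : j < r) (hj' : j' < r) :
    1 - (u ^ j * (starRingEnd ℂ) (u ^ j')).re ≤ (r : ℝ) ^ 2 * (1 - u.re) := by
  have h1 : ‖u ^ j - u ^ j'‖ ≤ r * ‖u - 1‖ := by
    rcases le_total j' j with h | h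
    · exact norm_pow_sub_pow hu hj h
    · rw [norm_sub_rev]; exact norm_pow_sub_pow hu hj' h
  have h2 := sq_norm_sub (a := u ^ j) (b := u ^ j') (by rw [norm_pow, hu, one_pow])
    (by rw [norm_pow, hu, one_pow])
  have h3 := sq_norm_sub (a := u) (b := 1) hu norm_one
  simp only [map_one, mul_one] at h3
  have h4 : ‖u ^ j - u ^ j'‖ ^ 2 ≤ (r * ‖u - 1‖) ^ 2 :=
    pow_le_pow_left₀ (norm_nonneg _) h1 2
  rw [mul_pow, h2, h3] at h4
  linarith

/-- the normalised Fejer kernel -/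
def FF (r : ℕ) (u : ℂ) : ℝ := ‖∑ j ∈ range r, u ^ j‖ ^ 2 / (r : ℝ) ^ 2

lemma FF_nonneg (r : ℕ) (u : ℂ) : 0 ≤ FF r u := by unfold FF; positivity

lemma FF_eq (r : ℕ) (u : ℂ) : FF r u =
    (∑ j ∈ range r, ∑ j' ∈ range r, (u ^ j * (starRingEnd ℂ) (u ^ j')).re) / (r : ℝ) ^ 2 := by
  unfold FF
  congr 1
  have h := Complex.mul_conj (∑ j ∈ range r, u ^ j)
  have h2 : ‖∑ j ∈ range r, u ^ j‖ ^ 2 =
      ((∑ j ∈ range r, u ^ j) * (starRingEnd ℂ) (∑ j ∈ range r, u ^ j)).re := by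
    rw [h, Complex.ofReal_re, Complex.sq_norm]
  rw [h2, map_sum, Finset.sum_mul_sum, Complex.re_sum]
  exact Finset.sum_congr rfl fun j _ => by rw [Complex.re_sum]

lemma re_le {u : ℂ} (hu : ‖u‖ = 1) {r : ℕ} (hr : 1 ≤ r) :
    u.re ≤ 1 - (1 - FF r u) / (r : ℝ) ^ 2 := by
  have hr' : (0 : ℝ) < (r : ℝ) ^ 2 := by positivity
  have h : ∑ j ∈ range r, ∑ j' ∈ range r, (1 - (r : ℝ) ^ 2 * (1 - u.re)) ≤
      ∑ j ∈ range r, ∑ j' ∈ range r, (u ^ j * (starRingEnd ℂ) (u ^ j')).re :=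
    sum_le_sum fun j hj => sum_le_sum fun j' hj' => by
      have := one_sub_re hu (mem_range.1 hj) (mem_range.1 hj')
      linarith
  simp only [sum_const, card_range, nsmul_eq_mul] at h
  have h2 : 1 - (r : ℝ) ^ 2 * (1 - u.re) ≤ FF r u := by
    rw [FF_eq, le_div_iff₀ hr']
    nlinarith
  have h3 : (1 - FF r u) / (r : ℝ) ^ 2 ≤ 1 - u.re := by
    rw [div_le_iff₀ hr']
    linarith
  linarith

lemma exists_zeta (P : ℂ) : ∃ ζ : ℂ, ‖ζ‖ = 1 ∧ ‖P‖ = (ζ * P).re := by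
  by_cases h : P = 0
  · exact ⟨1, norm_one, by simp [h]⟩
  · have hp : (0 : ℝ) < ‖P‖ := norm_pos_iff.2 h
    refine ⟨(starRingEnd ℂ) P / (‖P‖ : ℂ), ?_, ?_⟩
    · rw [norm_div, Complex.norm_conj, Complex.norm_real, Real.norm_eq_abs, abs_of_pos hp,
        div_self hp.ne']
    · have e : (starRingEnd ℂ) P / (‖P‖ : ℂ) * P = ((‖P‖ : ℝ) : ℂ) := by
        rw [div_mul_eq_mul_div, Complex.conj_mul', sq, mul_div_assoc,
          div_self (by exact_mod_cast hp.ne'), mul_one]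
      rw [e, Complex.ofReal_re]

lemma ek_pow (k : ℤ) (α : GI) (j : ℕ) : ek k α ^ j = ek (k * j) α := by
  unfold ek
  rw [zpow_mul, zpow_natCast]

lemma pow_mul_conj (ζ : ℂ) (k : ℤ) {α : GI} (hα : α ≠ 0) (j j' : ℕ) :
    (ζ * ek k α) ^ j * (starRingEnd ℂ) ((ζ * ek k α) ^ j') =
      ζ ^ j * (starRingEnd ℂ) (ζ ^ j') * ek (k * ((j : ℤ) - j')) α := by
  have e : k * ((j : ℤ) - j') = k * j + -(k * j') := by ring
  rw [e, ek_add hα, ek_neg hα, mul_pow, mul_pow, map_mul, ek_pow, ek_pow]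
  ring

/-- the shell -/
def Sh (y1 y2 : ℝ) : Finset GI := disc y2 \ disc y1

lemma mem_Sh {y1 y2 : ℝ} {α : GI} : α ∈ Sh y1 y2 ↔ y1 < (nm α : ℝ) ∧ (nm α : ℝ) ≤ y2 := by
  unfold Sh
  rw [mem_sdiff, mem_disc, mem_disc, not_le, and_comm]

lemma nmp {D : GI} (hD : D ≠ 0) : (0 : ℝ) < nm D := by
  have : nm D ≠ 0 := fun h => hD (nm_eq_zero.1 h)
  positivity

lemma sum_shell {y1 y2 : ℝ} (h12 : y1 ≤ y2) {D : GI} (hD : D ≠ 0) (κ : ℤ) :
    ∑ α ∈ Sh y1 y2, ((ind (D ∣ α) : ℝ) : ℂ) * ek κ α =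
      ek κ D * (∑ β ∈ disc (y2 / nm D), ek κ β - ∑ β ∈ disc (y1 / nm D), ek κ β) := by
  have hn := nmp hD
  have hsub : disc (y1 / nm D) ⊆ disc (y2 / nm D) := fun β hβ => by
    rw [mem_disc] at hβ ⊢
    exact hβ.trans (div_le_div_of_nonneg_right h12 hn.le)
  rw [← sum_sdiff_eq_sub hsub, mul_sum]
  have e1 : ∑ α ∈ Sh y1 y2, ((ind (D ∣ α) : ℝ) : ℂ) * ek κ α =
      ∑ α ∈ (Sh y1 y2).filter (fun α => D ∣ α), ek κ α := by
    rw [sum_filter]
    refine sum_congr rfl fun α _ => ?_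
    by_cases h : D ∣ α
    · rw [ind_true h, if_pos h]; simp
    · rw [ind_false h, if_neg h]; simp
  rw [e1]
  symm
  refine sum_bij (fun β _ => D * β) ?_ ?_ ?_ ?_
  · intro β hβ
    have hβ' : β ∈ Sh (y1 / nm D) (y2 / nm D) := hβ
    rw [mem_Sh, div_lt_iff₀ hn, le_div_iff₀ hn] at hβ'
    rw [mem_filter, mem_Sh, nm_mul]
    push_cast
    exact ⟨⟨by linarith [hβ'.1], by linarith [hβ'.2]⟩, dvd_mul_right _ _⟩
  · intro β _ β' _ h
    exact mul_left_cancel₀ hD h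
  · intro α hα
    rw [mem_filter, mem_Sh] at hα
    obtain ⟨⟨h1, h2⟩, β, rfl⟩ := hα
    rw [nm_mul] at h1 h2
    push_cast at h1 h2
    refine ⟨β, ?_, rfl⟩
    change β ∈ Sh (y1 / nm D) (y2 / nm D)
    rw [mem_Sh, div_lt_iff₀ hn, le_div_iff₀ hn]
    exact ⟨by linarith, by linarith⟩
  · intro β _
    rw [ek_mul]

/-- the remainder for one modulus -/
lemma rem_one {K c : ℝ} {j1 : ℕ} (hK : 0 ≤ K) (hc : c ≤ 1 / 2)
    (hG : ∀ y : ℝ, 1 ≤ y → |((disc y).card : ℝ) - Real.pi * y| ≤ K * Real.sqrt y)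
    (hE : ∀ (y : ℝ) (κ : ℤ), 1 ≤ y → κ ≠ 0 → (|κ| : ℝ) ≤ y ^ j1 →
      ‖∑ α ∈ disc y, ek κ α‖ ≤ K * y ^ (1 - c))
    {y1 y2 : ℝ} (h12 : y1 ≤ y2) {D : GI} (hD : D ≠ 0) (h1 : 1 ≤ y1 / nm D)
    {r : ℕ} (hr : 1 ≤ r) {k : ℤ} (hk : k ≠ 0) (hk' : r * (|k| : ℝ) ≤ (y1 / nm D) ^ j1)
    {ζ : ℂ} (hζ : ‖ζ‖ = 1) :
    |∑ α ∈ Sh y1 y2, FF r (ζ * ek k α) * ind (D ∣ α) -
      Real.pi * (y2 - y1) / r * (1 / (nm D : ℝ))| ≤ 2 * K * y2 ^ (1 - c) := by
  have hn := nmp hD
  have hn1 : (1 : ℝ) ≤ nm D := by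
    have : nm D ≠ 0 := fun h => hD (nm_eq_zero.1 h)
    exact_mod_cast Nat.one_le_iff_ne_zero.2 this
  have hy1 : 0 < y1 := by
    have := (le_div_iff₀ hn).1 h1
    linarith
  have h12' : y1 / nm D ≤ y2 / nm D := div_le_div_of_nonneg_right h12 hn.le
  have h2 : 1 ≤ y2 / nm D := h1.trans h12'
  have h2' : y2 / nm D ≤ y2 := div_le_self (by linarith) hn1
  have hr' : (0 : ℝ) < r := by exact_mod_cast hr
  have hpw : ∀ y : ℝ, 1 ≤ y → y ≤ y2 → y ^ (1 - c) ≤ y2 ^ (1 - c) := fun y hy hy' =>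
    Real.rpow_le_rpow (by linarith) hy' (by linarith)
  have hsq : ∀ y : ℝ, 1 ≤ y → y ≤ y2 → Real.sqrt y ≤ y2 ^ (1 - c) := fun y hy hy' => by
    refine le_trans ?_ (hpw y hy hy')
    rw [Real.sqrt_eq_rpow]
    exact Real.rpow_le_rpow_of_exponent_le hy (by linarith)
  set B : ℤ → ℂ := fun κ => ∑ α ∈ Sh y1 y2, ((ind (D ∣ α) : ℝ) : ℂ) * ek κ α with hB
  have e1 : ∑ α ∈ Sh y1 y2, FF r (ζ * ek k α) * ind (D ∣ α) =
      (∑ j ∈ range r, ∑ j' ∈ range r,
        (ζ ^ j * (starRingEnd ℂ) (ζ ^ j') * B (k * ((j : ℤ) - j'))).re) / (r : ℝ) ^ 2 := by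
    have : ∀ α ∈ Sh y1 y2, FF r (ζ * ek k α) * ind (D ∣ α) =
        (∑ j ∈ range r, ∑ j' ∈ range r, (ζ ^ j * (starRingEnd ℂ) (ζ ^ j') *
          (((ind (D ∣ α) : ℝ) : ℂ) * ek (k * ((j : ℤ) - j')) α)).re) / (r : ℝ) ^ 2 := by
      intro α hα
      have hα0 : α ≠ 0 := by
        rintro rfl
        rw [mem_Sh, nm_eq_zero.2 rfl] at hα
        simp only [Nat.cast_zero] at hα
        linarith [hα.1]
      rw [FF_eq, div_mul_eq_mul_div, sum_mul]
      congr 1
      refine sum_congr rfl fun j _ => ?_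
      rw [sum_mul]
      refine sum_congr rfl fun j' _ => ?_
      rw [pow_mul_conj ζ k hα0, mul_left_comm _ ((ind (D ∣ α) : ℝ) : ℂ), Complex.re_ofReal_mul,
        mul_comm]
    rw [sum_congr rfl this, ← sum_div]
    congr 1
    rw [sum_comm]
    refine sum_congr rfl fun j _ => ?_
    rw [sum_comm]
    refine sum_congr rfl fun j' _ => ?_
    rw [hB]
    simp only
    rw [mul_sum, Complex.re_sum]
  have e2 : Real.pi * (y2 - y1) / r * (1 / (nm D : ℝ)) =
      (∑ j ∈ range r, ∑ j' ∈ range r,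
        if j = j' then Real.pi * (y2 / nm D - y1 / nm D) else 0) / (r : ℝ) ^ 2 := by
    have : ∀ j ∈ range r, (∑ j' ∈ range r,
        if j = j' then Real.pi * (y2 / nm D - y1 / nm D) else 0) =
        Real.pi * (y2 / nm D - y1 / nm D) := fun j hj => by
      rw [sum_ite_eq, if_pos hj]
    rw [sum_congr rfl this, sum_const, card_range, nsmul_eq_mul]
    field_simp
  have hb : ∀ j ∈ range r, ∀ j' ∈ range r,
      |(ζ ^ j * (starRingEnd ℂ) (ζ ^ j') * B (k * ((j : ℤ) - j'))).re -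
        (if j = j' then Real.pi * (y2 / nm D - y1 / nm D) else 0)| ≤
        2 * K * y2 ^ (1 - c) := by
    intro j hj j' hj'
    have hBe := sum_shell h12 hD (k * ((j : ℤ) - j'))
    change B _ = _ at hBe
    rw [hBe]
    by_cases hjj : j = j'
    · subst hjj
      rw [if_pos rfl, Complex.mul_conj, Complex.normSq_eq_norm_sq, norm_pow, hζ]
      simp only [sub_self, mul_zero, ek_zero, sum_const, nsmul_eq_mul, mul_one, one_pow,
        Complex.ofReal_one, one_mul, Complex.sub_re, Complex.natCast_re]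
      have g1 := abs_le.1 (hG _ h1)
      have g2 := abs_le.1 (hG _ h2)
      have s1 := mul_le_mul_of_nonneg_left (hsq _ h1 (h12'.trans h2')) hK
      have s2 := mul_le_mul_of_nonneg_left (hsq _ h2 h2') hK
      rw [abs_le]
      constructor <;> nlinarith [g1.1, g1.2, g2.1, g2.2]
    · rw [if_neg hjj, sub_zero]
      refine (Complex.abs_re_le_norm _).trans ?_
      rw [norm_mul, norm_mul, norm_mul, Complex.norm_conj, norm_pow, norm_pow, hζ, norm_ek hD]
      simp only [one_pow, one_mul]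
      have hκ : k * ((j : ℤ) - j') ≠ 0 :=
        mul_ne_zero hk (sub_ne_zero.2 (by exact_mod_cast hjj))
      have hκ' : (|((k * ((j : ℤ) - j') : ℤ) : ℝ)|) ≤ (y1 / nm D) ^ j1 := by
        refine le_trans ?_ hk'
        push_cast
        rw [abs_mul, mul_comm]
        refine mul_le_mul_of_nonneg_right ?_ (abs_nonneg _)
        have a1 : (j : ℝ) < r := by exact_mod_cast mem_range.1 hj
        have a2 : (j' : ℝ) < r := by exact_mod_cast mem_range.1 hj'
        have a3 : (0 : ℝ) ≤ j := Nat.cast_nonneg _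
        have a4 : (0 : ℝ) ≤ j' := Nat.cast_nonneg _
        rw [abs_le]
        constructor <;> linarith
      have g1 := hE _ _ h1 hκ hκ'
      have g2 := hE _ _ h2 hκ (hκ'.trans (pow_le_pow_left₀ (by linarith) h12' _))
      have s1 := mul_le_mul_of_nonneg_left (hpw _ h1 (h12'.trans h2')) hK
      have s2 := mul_le_mul_of_nonneg_left (hpw _ h2 h2') hK
      refine (norm_sub_le _ _).trans ?_
      linarith
  rw [e1, e2, ← sub_div, abs_div, abs_of_pos (by positivity : (0 : ℝ) < (r : ℝ) ^ 2),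
    div_le_iff₀ (by positivity), ← sum_sub_distrib]
  refine (abs_sum_le_sum_abs _ _).trans ?_
  have : ∀ j ∈ range r, |∑ j' ∈ range r,
      (ζ ^ j * (starRingEnd ℂ) (ζ ^ j') * B (k * ((j : ℤ) - j'))).re -
      ∑ j' ∈ range r, (if j = j' then Real.pi * (y2 / nm D - y1 / nm D) else 0)| ≤
      r * (2 * K * y2 ^ (1 - c)) := by
    intro j hj
    rw [← sum_sub_distrib]
    refine (abs_sum_le_sum_abs _ _).trans ?_
    refine (sum_le_sum (hb j hj)).trans ?_
    rw [sum_const, card_range, nsmul_eq_mul]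
  refine (sum_le_sum this).trans ?_
  rw [sum_const, card_range, nsmul_eq_mul]
  exact le_of_eq (by ring)

lemma card_sets {w z Y : ℝ} (hY : 1 ≤ Y) :
    ((((GF w z).powerset.filter fun S => ∏ i ∈ S, (nm i : ℝ) ≤ Y).card : ℕ) : ℝ) ≤ 9 * Y := by
  refine le_trans ?_ (card_disc_le hY)
  have : ((GF w z).powerset.filter fun S => ∏ i ∈ S, (nm i : ℝ) ≤ Y).card ≤ (disc Y).card := by
    refine card_le_card_of_injOn pr ?_ ?_
    · intro S hS
      rw [coe_filter] at hS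
      rw [mem_coe, mem_disc, nm_pr]
      push_cast
      exact hS.2
    · intro S hS S' hS' h
      rw [coe_filter] at hS hS'
      rw [← sm_pr (mem_powerset.1 hS.1), h, sm_pr (mem_powerset.1 hS'.1)]
  exact_mod_cast this

lemma dim_eight (w z y : ℝ) (hy : 1 < y) :
    ∑ i ∈ (GF w z).filter (fun i => y < (nm i : ℝ) ∧ (nm i : ℝ) ≤ y ^ 2), 1 / (nm i : ℝ) ≤ 8 := by
  rw [sum_filter]
  rw [sum_GF w z (fun l => if y < (l : ℝ) ∧ (l : ℝ) ≤ y ^ 2 then 1 / (l : ℝ) else 0), ← sum_filter]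
  have := dim_four hy (S := (PP w z).filter fun l => y < (l : ℝ) ∧ (l : ℝ) ≤ y ^ 2) (by
    intro l hl
    rw [mem_filter, mem_PP] at hl
    exact ⟨hl.1.1, hl.2⟩)
  linarith

lemma prod_le_exp (w z : ℝ) :
    ∏ i ∈ GF w z, (1 - 1 / (nm i : ℝ)) ≤ Real.exp (-Lam w z) := by
  rw [Lam_eq, ← sum_neg_distrib, Real.exp_sum]
  refine prod_le_prod ?_ ?_
  · intro i hi
    have h2 : (2 : ℝ) ≤ nm i := by exact_mod_cast (mem_PP.1 (mem_GF.1 hi).1).1.two_le
    have : 1 / (nm i : ℝ) ≤ 1 := by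
      rw [div_le_one (by linarith)]
      linarith
    linarith
  · intro i hi
    have h2 : (2 : ℝ) ≤ nm i := by exact_mod_cast (mem_PP.1 (mem_GF.1 hi).1).1.two_le
    have h3 : 1 / ((nm i : ℝ) + 1) ≤ 1 / (nm i : ℝ) :=
      one_div_le_one_div_of_le (by linarith) (by linarith)
    have := Real.add_one_le_exp (-(1 / ((nm i : ℝ) + 1)))
    linarith

end M7

open M7 in
theorem M7 (h0 : MertensStmt) (h1 : FLStmt) (h2 : EXPStmt) (h3 : GaussStmt) : PSStmt := by
  intro j0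
  obtain ⟨C, hC⟩ := h0
  obtain ⟨u, hu⟩ := h1 8 1 one_pos
  obtain ⟨c, K1, hc0, hc, hE1⟩ := h2 (2 * j0 + 2)
  obtain ⟨K2, hG2⟩ := h3
  set K : ℝ := max (max K1 K2) 0 with hKdef
  have hK : 0 ≤ K := le_max_right _ _
  have hK1 : K1 ≤ K := (le_max_left _ _).trans (le_max_left _ _)
  have hK2 : K2 ≤ K := (le_max_right _ _).trans (le_max_left _ _)
  have hG : ∀ y : ℝ, 1 ≤ y → |((disc y).card : ℝ) - Real.pi * y| ≤ K * Real.sqrt y :=
    fun y hy => (hG2 y hy).trans (mul_le_mul_of_nonneg_right hK2 (Real.sqrt_nonneg _))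
  have hE : ∀ (y : ℝ) (κ : ℤ), 1 ≤ y → κ ≠ 0 → (|κ| : ℝ) ≤ y ^ (2 * j0 + 2) →
      ‖∑ α ∈ disc y, ek κ α‖ ≤ K * y ^ (1 - c) := fun y κ hy hκ hκ' =>
    (hE1 y κ hy hκ hκ').trans
      (mul_le_mul_of_nonneg_right hK1 (Real.rpow_nonneg (by linarith) _))
  set θ : ℝ := c / (2 * (u + 1)) with hθ
  have hθ0 : 0 < θ := by positivity
  have hθu : θ * (u + 1) = c / 2 := by rw [hθ]; field_simp
  have hθ1 : θ ≤ 1 := by
    have : (0 : ℝ) ≤ θ * u := by positivity
    linarith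
  refine ⟨16 * Real.exp C / θ + 1, by positivity, ?_⟩
  intro r H hr hH
  have hr' : (0 : ℝ) < r := by exact_mod_cast hr
  have hH0 : 0 < H := by linarith
  have ev1 : ∀ᶠ x : ℝ in Filter.atTop, 2 ≤ x ^ θ :=
    (tendsto_rpow_atTop hθ0).eventually_ge_atTop 2
  have ev2 : ∀ᶠ x : ℝ in Filter.atTop,
      ‖Real.log x‖ ≤ 1 / (108 * K * r * H + 1) * ‖x ^ (c / 2)‖ :=
    (isLittleO_log_rpow_atTop (by positivity : 0 < c / 2)).def (by positivity)
  obtain ⟨x0, hx0⟩ := Filter.eventually_atTop.1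
    (ev1.and (ev2.and ((Filter.eventually_ge_atTop (r : ℝ)).and (Filter.eventually_ge_atTop 2))))
  refine ⟨x0, ?_⟩
  intro x k S hx hk hkx hS
  obtain ⟨hz2, hlog, hxr, hx2⟩ := hx0 x hx
  have hx1 : 1 ≤ x := by linarith
  have hxp : 0 < x := by linarith
  have hlp : 0 < Real.log x := Real.log_pos (by linarith)
  set z : ℝ := x ^ θ with hz
  set t : ℝ := Real.exp (1 / H) with ht
  have hH1 : 1 / H ≤ 1 := by rw [div_le_one hH0]; exact hH
  have hH2 : 0 < 1 / H := by positivity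
  have ht1 : 1 ≤ t := Real.one_le_exp hH2.le
  have ht2 : t - 1 ≤ 2 * (1 / H) := by
    have := Real.abs_exp_sub_one_le (x := 1 / H) (by rw [abs_of_pos hH2]; exact hH1)
    rw [abs_of_pos hH2] at this
    exact (le_abs_self _).trans this
  have ht3 : t ≤ 3 := by linarith
  have h12 : x ≤ x * t := le_mul_of_one_le_right hxp.le ht1
  obtain ⟨ζ, hζ, hP⟩ := exists_zeta (∑ π ∈ S, ek k π)
  have hzx : z ≤ x := by
    have := Real.rpow_le_rpow_of_exponent_le hx1 hθ1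
    rwa [Real.rpow_one] at this
  have hzu : z ^ (u + 1) = x ^ (c / 2) := by
    rw [hz, ← Real.rpow_natCast, ← Real.rpow_mul hxp.le]
    push_cast
    rw [hθu]
  have hz1 : 1 ≤ z := by linarith
  have hzu1 : 1 ≤ z ^ u := one_le_pow₀ hz1
  have hzu2 : z ^ u ≤ Real.sqrt x := by
    have a1 : z ^ u ≤ z ^ (u + 1) := pow_le_pow_right₀ hz1 (Nat.le_succ u)
    rw [hzu] at a1
    rw [Real.sqrt_eq_rpow]
    exact a1.trans (Real.rpow_le_rpow_of_exponent_le hx1 (by linarith))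
  have hsx : 1 ≤ Real.sqrt x := Real.one_le_sqrt.2 hx1
  set M : ℝ := Real.pi * (x * t - x) / r with hM
  have hM0 : 0 ≤ M := by
    have : 0 ≤ x * t - x := by linarith
    have := Real.pi_pos
    positivity
  have hsieve := hu GI GI (GF 2 z) (fun i => (nm i : ℝ)) (fun i => 1 / (nm i : ℝ)) z
    (Sh x (x * t)) (fun α => FF r (ζ * ek k α)) (fun i α => ind (i ∣ α)) M
    (9 * z ^ u * (2 * K * (x * t) ^ (1 - c))) hz2
    (by
      intro i hi
      have hi' := mem_PP.1 (mem_GF.1 hi).1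
      have a2 : (2 : ℝ) ≤ nm i := hi'.2.2.1.le
      exact ⟨a2, hi'.2.2.2, by positivity, one_div_le_one_div_of_le (by norm_num) a2⟩)
    (fun y hy => dim_eight 2 z y hy) (fun α _ => FF_nonneg _ _)
    (fun i _ α _ => ⟨ind_nonneg _, ind_le_one _⟩) hM0
    (by
      refine le_trans (sum_le_card_nsmul _ _ (2 * K * (x * t) ^ (1 - c)) ?_) ?_
      · intro S' hS'
        rw [mem_filter, mem_powerset] at hS'
        obtain ⟨hS1, hS2⟩ := hS'
        have hD := pr_ne_zero hS1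
        have hn := nmp hD
        have en : (nm (pr S') : ℝ) = ∏ i ∈ S', (nm i : ℝ) := by rw [nm_pr]; push_cast; rfl
        have e1 : ∀ α : GI, ∏ i ∈ S', ind (i ∣ α) = ind (pr S' ∣ α) := by
          intro α
          rw [prod_ind]
          congr 1
          exact propext ⟨fun h => pr_dvd hS1 h,
            fun h i hi => (dvd_prod_of_mem (fun π => π) hi).trans h⟩
        have e2 : ∏ i ∈ S', 1 / (nm i : ℝ) = 1 / (nm (pr S') : ℝ) := by
          rw [prod_div_distrib, prod_const_one, en]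
        have hy : Real.sqrt x ≤ x / nm (pr S') := by
          rw [le_div_iff₀ hn, en]
          calc Real.sqrt x * ∏ i ∈ S', (nm i : ℝ) ≤ Real.sqrt x * Real.sqrt x :=
                mul_le_mul_of_nonneg_left (hS2.trans hzu2) (Real.sqrt_nonneg _)
            _ = x := Real.mul_self_sqrt hxp.le
        simp only [e1, e2]
        refine rem_one hK hc hG hE h12 hD (hsx.trans hy) hr hk ?_ hζ
        refine le_trans ?_ (pow_le_pow_left₀ (Real.sqrt_nonneg _) hy _)
        have e3 : Real.sqrt x ^ (2 * j0 + 2) = x * x ^ j0 := by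
          rw [show 2 * j0 + 2 = 2 * (j0 + 1) by ring, pow_mul, Real.sq_sqrt hxp.le]
          ring
        rw [e3]
        exact mul_le_mul hxr hkx (abs_nonneg _) hxp.le
      · rw [nsmul_eq_mul]
        exact mul_le_mul_of_nonneg_right (card_sets hzu1) (by positivity))
  have hup := (abs_le.1 hsieve).2
  have hlow : ∑ π ∈ S, FF r (ζ * ek k π) ≤
      ∑ α ∈ Sh x (x * t), FF r (ζ * ek k α) * ∏ i ∈ GF 2 z, (1 - ind (i ∣ α)) := by
    have e : ∑ π ∈ S, FF r (ζ * ek k π) =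
        ∑ π ∈ S, FF r (ζ * ek k π) * ∏ i ∈ GF 2 z, (1 - ind (i ∣ π)) := by
      refine sum_congr rfl fun π hπ => ?_
      have hπ' := (mem_GH.1 (hS hπ)).1
      rw [prod_eq_one, mul_one]
      intro i hi
      rw [ind_false, sub_zero]
      intro hd
      have e := GF_eq_of_dvd hi hπ' hd
      have a1 := (mem_PP.1 (mem_GF.1 hi).1).2.2.2
      have a2 := (mem_PP.1 (mem_GF.1 hπ').1).2.2.1
      rw [e] at a1
      linarith
    rw [e]
    refine sum_le_sum_of_subset_of_nonneg ?_ ?_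
    · intro π hπ
      have hπ' := mem_PP.1 (mem_GF.1 (mem_GH.1 (hS hπ)).1).1
      exact mem_Sh.2 hπ'.2.2
    · intro α _ _
      exact mul_nonneg (FF_nonneg _ _)
        (prod_nonneg fun i _ => sub_nonneg.2 (ind_le_one _))
  have hV : ∏ i ∈ GF 2 z, (1 - 1 / (nm i : ℝ)) ≤ Real.exp C / (θ * Real.log x) := by
    refine (prod_le_exp 2 z).trans ?_
    have a1 := (abs_le.1 (hC 2 z le_rfl hz2)).1
    have a2 : Real.log z = θ * Real.log x := by rw [hz, Real.log_rpow hxp]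
    have l2 : 0 < Real.log 2 := Real.log_pos one_lt_two
    have l3 : Real.log 2 ≤ 1 := by linarith [Real.log_two_lt_d9]
    have a3 : 0 < θ * Real.log x := by positivity
    have a4 : Real.log (θ * Real.log x) ≤ Real.log (Real.log z / Real.log 2) := by
      refine Real.log_le_log a3 ?_
      rw [a2, le_div_iff₀ l2]
      exact mul_le_of_le_one_right a3.le l3
    calc Real.exp (-Lam 2 z) ≤ Real.exp (C - Real.log (θ * Real.log x)) :=
          Real.exp_le_exp.2 (by linarith)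
      _ = Real.exp C / (θ * Real.log x) := by rw [Real.exp_sub, Real.exp_log a3]
  have hM1 : M ≤ 8 * x / (r * H) := by
    rw [hM, div_le_div_iff₀ hr' (by positivity)]
    have a1 : x * t - x ≤ x * (2 * (1 / H)) := by nlinarith
    have a2 : (x * t - x) * H ≤ 2 * x := by
      have := mul_le_mul_of_nonneg_right a1 hH0.le
      have e : x * (2 * (1 / H)) * H = 2 * x := by field_simp
      linarith
    have a3 : Real.pi ≤ 4 := Real.pi_le_four
    have a4 : 0 ≤ (x * t - x) * H := mul_nonneg (by linarith) hH0.le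
    have a5 : Real.pi * ((x * t - x) * H) ≤ 4 * (2 * x) :=
      mul_le_mul a3 a2 a4 (by norm_num)
    nlinarith
  have hmain : M * ∏ i ∈ GF 2 z, (1 - 1 / (nm i : ℝ)) ≤
      8 * x / (r * H) * (Real.exp C / (θ * Real.log x)) :=
    (mul_le_mul_of_nonneg_left hV hM0).trans
      (mul_le_mul_of_nonneg_right hM1 (by positivity))
  have herr : 2 * z * (9 * z ^ u * (2 * K * (x * t) ^ (1 - c))) ≤ x / (r * H * Real.log x) := by
    have a1 : (x * t) ^ (1 - c) ≤ 3 * x ^ (1 - c) := by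
      rw [Real.mul_rpow hxp.le (by linarith), mul_comm]
      refine mul_le_mul_of_nonneg_right ?_ (Real.rpow_nonneg hxp.le _)
      have := Real.rpow_le_rpow_of_exponent_le ht1 (by linarith : 1 - c ≤ 1)
      rw [Real.rpow_one] at this
      linarith
    have hp : 0 < x ^ (c / 2) := Real.rpow_pos_of_pos hxp _
    have hq : 0 < x ^ (1 - c) := Real.rpow_pos_of_pos hxp _
    have a2 : x ^ (c / 2) * x ^ (c / 2) * x ^ (1 - c) = x := by
      rw [← Real.rpow_add hxp, ← Real.rpow_add hxp]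
      have : c / 2 + c / 2 + (1 - c) = 1 := by ring
      rw [this, Real.rpow_one]
    rw [Real.norm_eq_abs, Real.norm_eq_abs, abs_of_pos hlp, abs_of_pos hp, one_div,
      inv_mul_eq_div, le_div_iff₀ (by positivity)] at hlog
    have a3 : 108 * K * (r * H * Real.log x) ≤ x ^ (c / 2) := by nlinarith
    have a4 : 2 * z * (9 * z ^ u * (2 * K * (x * t) ^ (1 - c))) =
        36 * K * x ^ (c / 2) * (x * t) ^ (1 - c) := by rw [← hzu]; ring
    rw [a4, le_div_iff₀ (by positivity)]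
    calc 36 * K * x ^ (c / 2) * (x * t) ^ (1 - c) * (r * H * Real.log x)
        ≤ 36 * K * x ^ (c / 2) * (3 * x ^ (1 - c)) * (r * H * Real.log x) := by gcongr
      _ = 108 * K * (r * H * Real.log x) * (x ^ (c / 2) * x ^ (1 - c)) := by ring
      _ ≤ x ^ (c / 2) * (x ^ (c / 2) * x ^ (1 - c)) :=
          mul_le_mul_of_nonneg_right a3 (by positivity)
      _ = x := by rw [← mul_assoc, a2]
  have hF : ∑ π ∈ S, FF r (ζ * ek k π) ≤
      (16 * Real.exp C / θ + 1) / r * x / (H * Real.log x) := by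
    have e : (16 * Real.exp C / θ + 1) / r * x / (H * Real.log x) =
        2 * (8 * x / (r * H) * (Real.exp C / (θ * Real.log x))) + x / (r * H * Real.log x) := by
      field_simp
      ring
    rw [e]
    linarith
  have hfin : (ζ * ∑ π ∈ S, ek k π).re ≤
      ∑ π ∈ S, (1 - (1 - FF r (ζ * ek k π)) / (r : ℝ) ^ 2) := by
    rw [mul_sum, Complex.re_sum]
    refine sum_le_sum fun π hπ => re_le ?_ hr
    rw [norm_mul, hζ, norm_ek (GF_prime (mem_GH.1 (hS hπ)).1).ne_zero, one_mul]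
  rw [hP]
  refine hfin.trans ?_
  rw [sum_sub_distrib, ← sum_div, sum_sub_distrib]
  simp only [sum_const, nsmul_eq_mul, mul_one]
  have : ((S.card : ℝ) - (16 * Real.exp C / θ + 1) / r * x / (H * Real.log x)) / (r : ℝ) ^ 2 ≤
      ((S.card : ℝ) - ∑ π ∈ S, FF r (ζ * ek k π)) / (r : ℝ) ^ 2 :=
    div_le_div_of_nonneg_right (by linarith) (by positivity)
  linarith

end Pool.Agent.Lib.LQ
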