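import Pool.Agent.Lib.LQ.Basic

/-! Block M8 of the project LQ: counting on lines, Farey triangles and far pairs. -/

set_option autoImplicit false

open Finset
open scoped Classical

noncomputable section

namespace Pool.Agent.Lib.LQ

open Pool.Agent.Lib.MP_de94cf_nt (gg det inn)

namespace M8

lemma det_swap (α β : GI) : det β α = -det α β := by unfold det; ring

lemma ne_zero_of_cont {α : GI} (h : cont α = 1) : α ≠ 0 := by
  rintro rfl
  simp [cont] at h

lemma nm_pos {α : GI} (h : α ≠ 0) : (0 : ℝ) < nm α := by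
  have : nm α ≠ 0 := fun h0 => h (nm_eq_zero.mp h0)
  exact_mod_cast Nat.pos_of_ne_zero this

/-- sums of a function of the determinant over a part of a disc -/
lemma fiber_sum {α : GI} (hα : cont α = 1) {Y : ℝ} (hY : 0 ≤ Y) {S : Finset GI}
    (hS : S ⊆ disc Y) (f : ℤ → ℝ) (hf : ∀ j, 0 ≤ f j) :
    ∑ β ∈ S, f (det α β) ≤
      (2 * Real.sqrt (Y / nm α) + 1) * ∑ j ∈ S.image (det α), f j := by
  rw [Finset.sum_comp f (det α), Finset.mul_sum]
  refine Finset.sum_le_sum fun j _ => ?_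
  rw [nsmul_eq_mul]
  refine mul_le_mul_of_nonneg_right ?_ (hf j)
  refine le_trans ?_ (card_line_le hα j hY)
  exact_mod_cast Finset.card_le_card (Finset.filter_subset_filter _ hS)

lemma sum_ind_abs_le (K : ℕ) (J : Finset ℤ) : ∑ j ∈ J, ind (|j| ≤ (K : ℤ)) ≤ 2 * K + 1 := by
  have h : ∀ T : Finset ℤ, (∀ j ∈ T, |j| ≤ (K : ℤ)) → (T.card : ℝ) ≤ 2 * K + 1 := by
    intro T hT
    have h : T ⊆ Icc (-(K : ℤ)) K := fun j hj => Finset.mem_Icc.mpr (abs_le.mp (hT j hj))
    have h2 := Finset.card_le_card h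
    rw [Int.card_Icc] at h2
    have h3 : ((K : ℤ) + 1 - -(K : ℤ)).toNat = 2 * K + 1 := by omega
    rw [h3] at h2
    exact_mod_cast h2
  rw [sum_ind]
  exact h _ fun j hj => by simpa using (by simpa using hj : j ∈ J ∧ |j| ≤ (K : ℤ)).2

/-- number of points of a disc in a strip -/
lemma card_strip {α : GI} (hα : cont α = 1) {Y : ℝ} (hY : 0 ≤ Y) (K : ℕ) {S : Finset GI}
    (hS : S ⊆ disc Y) (hK : ∀ β ∈ S, |det α β| ≤ K) :
    (S.card : ℝ) ≤ (2 * Real.sqrt (Y / nm α) + 1) * (2 * K + 1) := by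
  have h := fiber_sum hα hY hS (fun j => ind (|j| ≤ (K : ℤ))) (fun j => ind_nonneg _)
  have h1 : ∑ β ∈ S, ind (|det α β| ≤ (K : ℤ)) = S.card := by
    rw [Finset.sum_congr rfl fun β hβ => ind_true (hK β hβ)]
    simp
  rw [h1] at h
  refine h.trans (mul_le_mul_of_nonneg_left (sum_ind_abs_le K _) ?_)
  positivity

lemma sqrt_le_of {x c : ℝ} (hc : 0 ≤ c) (h : x ≤ c ^ 2) : Real.sqrt x ≤ c :=
  Real.sqrt_le_iff.mpr ⟨hc, h⟩

lemma ring_subset (M : ℝ) : ringP M ⊆ disc (4 * M) := Finset.filter_subset _ _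

lemma ring_sqrt {M : ℝ} (hM : 0 < M) {α : GI} (hα : α ∈ ringP M) :
    2 * Real.sqrt (4 * M / nm α) + 1 ≤ 5 := by
  obtain ⟨h1, _, _⟩ := mem_ringP.mp hα
  have : Real.sqrt (4 * M / nm α) ≤ 2 := by
    refine sqrt_le_of (by norm_num) ?_
    rw [div_le_iff₀ (by linarith)]
    linarith
  linarith

/-- the sum of the inverse lengths over a disc -/
lemma sum_inv_sqrt (n : ℕ) : ∀ Y : ℝ, 0 ≤ Y → Y < 4 ^ n →
    ∑ v ∈ (disc Y).erase 0, 1 / Real.sqrt (nm v) ≤ 32 * Real.sqrt Y := by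
  induction n with
  | zero =>
    intro Y h0 h1
    have : (disc Y).erase 0 = ∅ := by
      refine Finset.eq_empty_of_forall_notMem fun v hv => ?_
      rw [Finset.mem_erase, mem_disc] at hv
      have h2 : nm v ≠ 0 := fun h => hv.1 (nm_eq_zero.mp h)
      have h3 : (1 : ℝ) ≤ nm v := by exact_mod_cast Nat.pos_of_ne_zero h2
      rw [pow_zero] at h1
      linarith [hv.2]
    rw [this, Finset.sum_empty]
    positivity
  | succ n ih =>
    intro Y h0 h1
    rcases h0.eq_or_lt with h | hpos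
    · subst h
      exact ih 0 le_rfl (by positivity)
    have hsub : (disc (Y / 4)).erase 0 ⊆ (disc Y).erase 0 := by
      intro v hv
      rw [Finset.mem_erase, mem_disc] at hv ⊢
      exact ⟨hv.1, by linarith [hv.2]⟩
    rw [← Finset.sum_sdiff hsub]
    have e1 := ih (Y / 4) (by positivity) (by rw [pow_succ] at h1; linarith)
    have hs : Real.sqrt (Y / 4) = Real.sqrt Y / 2 := by
      rw [Real.sqrt_div h0, show (4 : ℝ) = 2 ^ 2 by norm_num, Real.sqrt_sq (by norm_num)]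
    have hsp : 0 < Real.sqrt Y := Real.sqrt_pos.mpr hpos
    have e2 : ∑ v ∈ (disc Y).erase 0 \ (disc (Y / 4)).erase 0, 1 / Real.sqrt (nm v) ≤
        ∑ v ∈ (disc Y).erase 0 \ (disc (Y / 4)).erase 0, 2 / Real.sqrt Y := by
      refine Finset.sum_le_sum fun v hv => ?_
      rw [Finset.mem_sdiff, Finset.mem_erase, Finset.mem_erase, mem_disc, mem_disc] at hv
      have h3 : Y / 4 < nm v := by
        by_contra hc
        exact hv.2 ⟨hv.1.1, not_lt.mp hc⟩
      have h4 : Real.sqrt Y / 2 ≤ Real.sqrt (nm v) := by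
        rw [← hs]; exact Real.sqrt_le_sqrt h3.le
      rw [div_le_div_iff₀ (by linarith) hsp]
      linarith
    rw [Finset.sum_const, nsmul_eq_mul] at e2
    have e3 : (((disc Y).erase 0 \ (disc (Y / 4)).erase 0).card : ℝ) ≤ 8 * Y := by
      refine le_trans ?_ (card_disc_erase h0)
      exact_mod_cast Finset.card_le_card Finset.sdiff_subset
    have e4 : 8 * Y * (2 / Real.sqrt Y) = 16 * Real.sqrt Y := by
      have := Real.mul_self_sqrt h0
      field_simp
      nlinarith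
    have e5 : (((disc Y).erase 0 \ (disc (Y / 4)).erase 0).card : ℝ) * (2 / Real.sqrt Y) ≤
        8 * Y * (2 / Real.sqrt Y) := mul_le_mul_of_nonneg_right e3 (by positivity)
    rw [hs] at e1
    linarith

lemma sum_inv_sqrt' {Y : ℝ} (hY : 0 ≤ Y) :
    ∑ v ∈ (disc Y).erase 0, 1 / Real.sqrt (nm v) ≤ 32 * Real.sqrt Y := by
  obtain ⟨n, hn⟩ := pow_unbounded_of_one_lt Y (show (1 : ℝ) < 4 by norm_num)
  exact sum_inv_sqrt n Y hY hn

/-- a Farey neighbour with prescribed inner product -/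
lemma exists_nb {b : GI} (hb : cont b = 1) :
    ∃ b' : GI, det b b' = 1 ∧ (nm b : ℤ) ≤ inn b b' ∧ inn b b' < 2 * nm b := by
  have h0 := ne_zero_of_cont hb
  have hn : (0 : ℤ) < nm b := by exact_mod_cast Nat.pos_of_ne_zero fun h => h0 (nm_eq_zero.mp h)
  have hg := Int.gcd_eq_gcd_ab b.re b.im
  unfold cont at hb
  rw [hb] at hg
  set c : GI := ⟨-Int.gcdB b.re b.im, Int.gcdA b.re b.im⟩ with hc
  have hd : det b c = 1 := by
    unfold det
    simp only [hc]
    push_cast at hg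
    linarith
  have hN : (nm b : ℤ) = b.re ^ 2 + b.im ^ 2 := by
    rw [nm_int, Zsqrtd.norm]; ring
  set t : ℤ := 1 - inn b c / nm b with ht
  refine ⟨c + (t : GI) * b, ?_, ?_, ?_⟩
  · have : det b (c + (t : GI) * b) = det b c := by
      unfold det; simp; ring
    rw [this, hd]
  · have : inn b (c + (t : GI) * b) = inn b c + t * nm b := by
      rw [hN]; unfold inn; simp; ring
    rw [this, ht]
    have h1 := Int.emod_nonneg (inn b c) hn.ne'
    have h2 := Int.emod_add_mul_ediv (inn b c) (nm b)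
    nlinarith
  · have : inn b (c + (t : GI) * b) = inn b c + t * nm b := by
      rw [hN]; unfold inn; simp; ring
    rw [this, ht]
    have h1 := Int.emod_lt_of_pos (inn b c) hn
    have h2 := Int.emod_add_mul_ediv (inn b c) (nm b)
    nlinarith

lemma nm_add (α β : GI) : (nm (α + β) : ℤ) = nm α + 2 * inn α β + nm β := by
  rw [nm_int, nm_int, nm_int]
  simp only [Zsqrtd.norm, inn, Zsqrtd.re_add, Zsqrtd.im_add]
  ring

lemma tri_edge {M : ℝ} (hM : 0 < M) {b : GI} (hb : b ∈ ringP M) :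
    ∃ e ∈ BadE (-1) M 7, e.1 = b ∨ e.1 - e.2 = b := by
  obtain ⟨h1, h2, h3⟩ := mem_ringP.mp hb
  obtain ⟨b', d, i1, i2⟩ := exists_nb h3
  have h0 := ne_zero_of_cont h3
  have hn : (0 : ℤ) < nm b := by exact_mod_cast Nat.pos_of_ne_zero fun h => h0 (nm_eq_zero.mp h)
  have e := nm_mul_nm b b'
  rw [d] at e
  have l1 : (nm b : ℤ) ≤ nm b' := by nlinarith
  have u1 : (nm b' : ℤ) ≤ 4 * nm b := by nlinarith
  have e2 := nm_add b b'
  have l2 : (nm b : ℤ) ≤ nm (b + b') := by omega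
  have u2 : (nm (b + b') : ℤ) ≤ 9 * nm b := by omega
  have l1' : (nm b : ℝ) ≤ nm b' := by exact_mod_cast l1
  have u1' : (nm b' : ℝ) ≤ 4 * nm b := by exact_mod_cast u1
  have l2' : (nm b : ℝ) ≤ nm (b + b') := by exact_mod_cast l2
  have u2' : (nm (b + b') : ℝ) ≤ 9 * nm b := by exact_mod_cast u2
  have d2 : det b (b + b') = 1 := by
    refine Eq.trans ?_ d; unfold det; simp; ring
  have d3 : det (b + b') b' = 1 := by
    refine Eq.trans ?_ d; unfold det; simp; ring
  have lo : M / 7 ^ 2 ≤ M := by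
    rw [div_le_iff₀ (by norm_num)]; linarith
  have z1 := ne_zero_of_cont (cont_of_det d).2
  have z2 := ne_zero_of_cont (cont_of_det d2).2
  by_cases c1 : gg b * gg b' ≠ -1
  · refine ⟨(b, b'), Finset.mem_filter.mpr ⟨mem_Edges.mpr ⟨d, ?_, ?_, ?_, ?_⟩, c1⟩, Or.inl rfl⟩ <;>
      dsimp only <;> linarith
  by_cases c2 : gg b * gg (b + b') ≠ -1
  · refine ⟨(b, b + b'), Finset.mem_filter.mpr ⟨mem_Edges.mpr ⟨d2, ?_, ?_, ?_, ?_⟩, c2⟩,
      Or.inl rfl⟩ <;> dsimp only <;> linarith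
  have c3 : gg (b + b') * gg b' ≠ -1 := by
    push Not at c1 c2
    rcases MP_de94cf_nt.gg_cases h0 with a | a <;> rcases MP_de94cf_nt.gg_cases z1 with a1 | a1 <;>
      rcases MP_de94cf_nt.gg_cases z2 with a2 | a2 <;> simp_all
  refine ⟨(b + b', b'), Finset.mem_filter.mpr ⟨mem_Edges.mpr ⟨d3, ?_, ?_, ?_, ?_⟩, c3⟩,
    Or.inr (by simp)⟩ <;> dsimp only <;> linarith

lemma tri (h : LowStmt) : TriStmt := by
  obtain ⟨c, M0, hc, h⟩ := h
  refine ⟨c / 2, max M0 1, by positivity, fun M hM => ?_⟩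
  have hM1 : 1 ≤ M := le_trans (le_max_right _ _) hM
  have sys : Sys ∅ (fun _ => 0) (fun _ => 0) :=
    ⟨by simp, by simp, by simp, by simp, by simp⟩
  have h1 := h ∅ (fun _ => 0) (fun _ => 0) M sys (le_trans (le_max_left _ _) hM) (by
    rw [Finset.prod_empty]
    exact Real.one_le_sqrt.mpr hM1)
  simp only [wt, Finset.prod_empty, Finset.sum_const, nsmul_eq_mul, mul_one] at h1
  have h2 : (ringP M).filter (fun α => (nm α : ℝ) ≤ 2 * M ∧ Odd (nm α)) ⊆
      (BadE (-1) M 7).image (fun e => e.1) ∪ (BadE (-1) M 7).image (fun e => e.1 - e.2) := by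
    intro b hb
    obtain ⟨e, he, h3⟩ := tri_edge (by linarith) (Finset.mem_filter.mp hb).1
    rcases h3 with h3 | h3
    · exact Finset.mem_union_left _ (Finset.mem_image.mpr ⟨e, he, h3⟩)
    · exact Finset.mem_union_right _ (Finset.mem_image.mpr ⟨e, he, h3⟩)
  have h3 := (Finset.card_le_card h2).trans (Finset.card_union_le _ _)
  have h4 := Finset.card_image_le (s := BadE (-1) M 7) (f := fun e => e.1)
  have h5 := Finset.card_image_le (s := BadE (-1) M 7) (f := fun e => e.1 - e.2)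
  have h6 : ((ringP M).filter (fun α => (nm α : ℝ) ≤ 2 * M ∧ Odd (nm α))).card ≤
      2 * (BadE (-1) M 7).card := by omega
  have h7 : (((ringP M).filter (fun α => (nm α : ℝ) ≤ 2 * M ∧ Odd (nm α))).card : ℝ) ≤
      2 * ((BadE (-1) M 7).card : ℝ) := by exact_mod_cast h6
  linarith

end M8

end Pool.Agent.Lib.LQ
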