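import Pool.Agent.Lib.LQ.M8Aux1

/-! Block M8 of the project LQ: close pairs with different signs come from bad edges. -/

set_option autoImplicit false

open Finset
open scoped Classical

noncomputable section

namespace Pool.Agent.Lib.LQ

open Pool.Agent.Lib.MP_de94cf_nt (gg det inn)

namespace M8

lemma card_cover {ι A : Type*} (S : Finset A) (I : Finset ι) (B : ι → Finset A)
    (h : ∀ e ∈ S, ∃ i ∈ I, e ∈ B i) : (S.card : ℝ) ≤ ∑ i ∈ I, ((B i).card : ℝ) := by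
  have h1 : S ⊆ I.biUnion B := fun e he => Finset.mem_biUnion.mpr (h e he)
  have h2 := (Finset.card_le_card h1).trans Finset.card_biUnion_le
  exact_mod_cast h2

lemma det_convex {K D p q : ℤ} {α a b γ : GI} (hD : 0 < D) (hp : 0 ≤ p) (hq : 0 ≤ q)
    (hpq : p + q ≤ D) (e : (D : GI) * γ = p * a + q * b) (ha : |det α a| ≤ K)
    (hb : |det α b| ≤ K) : |det α γ| ≤ K := by
  have er := congrArg Zsqrtd.re e
  have ei := congrArg Zsqrtd.im e
  simp at er ei
  have h : D * det α γ = p * det α a + q * det α b := by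
    unfold det
    linear_combination α.re * ei - α.im * er
  have hK : 0 ≤ K := le_trans (abs_nonneg _) ha
  rw [abs_le] at ha hb ⊢
  constructor
  · by_contra hc
    push Not at hc
    nlinarith [mul_le_mul_of_nonneg_left ha.1 hp, mul_le_mul_of_nonneg_left hb.1 hq]
  · by_contra hc
    push Not at hc
    nlinarith [mul_le_mul_of_nonneg_left ha.2 hp, mul_le_mul_of_nonneg_left hb.2 hq]

lemma nm_convex {Y : ℝ} {D p q : ℤ} {a b γ : GI} (hD : 0 < D) (hp : 0 ≤ p) (hq : 0 ≤ q)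
    (hpq : p + q ≤ D) (e : (D : GI) * γ = p * a + q * b) (ha : (nm a : ℝ) ≤ Y)
    (hb : (nm b : ℝ) ≤ Y) : (nm γ : ℝ) ≤ Y := by
  have er := congrArg Zsqrtd.re e
  have ei := congrArg Zsqrtd.im e
  simp at er ei
  have er' : (D : ℝ) * γ.re = p * a.re + q * b.re := by exact_mod_cast er
  have ei' : (D : ℝ) * γ.im = p * a.im + q * b.im := by exact_mod_cast ei
  have hY : 0 ≤ Y := le_trans (Nat.cast_nonneg _) ha
  rw [nm_real] at ha hb ⊢
  have hD' : (0 : ℝ) < D := by exact_mod_cast hD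
  have hp' : (0 : ℝ) ≤ p := by exact_mod_cast hp
  have hq' : (0 : ℝ) ≤ q := by exact_mod_cast hq
  have hpq' : (p : ℝ) + q ≤ D := by exact_mod_cast hpq
  have h1 : (D : ℝ) ^ 2 * ((γ.re : ℝ) ^ 2 + (γ.im : ℝ) ^ 2) =
      (p : ℝ) ^ 2 * ((a.re : ℝ) ^ 2 + (a.im : ℝ) ^ 2) +
        2 * (p * q) * ((a.re : ℝ) * b.re + (a.im : ℝ) * b.im) +
        (q : ℝ) ^ 2 * ((b.re : ℝ) ^ 2 + (b.im : ℝ) ^ 2) := by
    have : (D : ℝ) ^ 2 * ((γ.re : ℝ) ^ 2 + (γ.im : ℝ) ^ 2) =
        ((D : ℝ) * γ.re) ^ 2 + ((D : ℝ) * γ.im) ^ 2 := by ring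
    rw [this, er', ei']; ring
  have h2 : (a.re : ℝ) * b.re + (a.im : ℝ) * b.im ≤ Y := by
    nlinarith [sq_nonneg ((a.re : ℝ) - b.re), sq_nonneg ((a.im : ℝ) - b.im)]
  have h3 : (D : ℝ) ^ 2 * ((γ.re : ℝ) ^ 2 + (γ.im : ℝ) ^ 2) ≤ ((p : ℝ) + q) ^ 2 * Y := by
    rw [h1]
    have i1 := mul_le_mul_of_nonneg_left ha (sq_nonneg (p : ℝ))
    have i2 := mul_le_mul_of_nonneg_left hb (sq_nonneg (q : ℝ))
    have i3 := mul_le_mul_of_nonneg_left h2 (show (0 : ℝ) ≤ 2 * (p * q) by positivity)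
    nlinarith
  have h4 : ((p : ℝ) + q) ^ 2 * Y ≤ (D : ℝ) ^ 2 * Y :=
    mul_le_mul_of_nonneg_right (pow_le_pow_left₀ (by positivity) hpq' 2) hY
  exact le_of_mul_le_mul_left (h3.trans h4) (by positivity)

lemma far_cases {M R : ℝ} {K : ℕ} (hR : 2 ≤ R) (hM : 0 < M) {e : GI × GI} (he : e ∈ BadP M K) :
    (∃ f ∈ BadE 1 M R, |det f.1 e.1| ≤ K ∧ |det f.1 e.2| ≤ K) ∨
      ∃ v ∈ (disc (M / R ^ 2)).erase 0, cont v = 1 ∧ |det v e.1| ≤ K := by
  obtain ⟨hr, hd, hg⟩ := Finset.mem_filter.mp he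
  obtain ⟨r1, r2⟩ := Finset.mem_product.mp hr
  obtain ⟨_, u1, c1⟩ := mem_ringP.mp r1
  obtain ⟨_, u2, c2⟩ := mem_ringP.mp r2
  have hself : ∀ α : GI, |det α α| ≤ (K : ℤ) := by
    intro α
    have : det α α = 0 := by unfold det; ring
    rw [this]; simp
  obtain ⟨a, b, d, ⟨a1, a2, a3⟩, ⟨b1, b2, _⟩, hab⟩ := MP_de94cf_nt.exists_edge
    (fun γ => (nm γ : ℝ) ≤ 4 * M ∧ |det e.1 γ| ≤ K ∧ |det e.2 γ| ≤ K)
    (fun α β γ D p q hα hβ hD hp hq hpq h =>
      ⟨nm_convex hD hp hq hpq h hα.1 hβ.1, det_convex hD hp hq hpq h hα.2.1 hβ.2.1,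
        det_convex hD hp hq hpq h hα.2.2 hβ.2.2⟩)
    e.1 e.2 (ne_zero_of_cont c1) (ne_zero_of_cont c2)
    ⟨u1, hself _, by rw [det_swap, abs_neg]; exact hd⟩ ⟨u2, hd, hself _⟩ hg
  have hca := (cont_of_det d).1
  have hcb := (cont_of_det d).2
  have hRM : 4 * M ≤ R ^ 2 * M := mul_le_mul_of_nonneg_right (by nlinarith) hM.le
  by_cases la : M / R ^ 2 ≤ (nm a : ℝ)
  · by_cases lb : M / R ^ 2 ≤ (nm b : ℝ)
    · refine Or.inl ⟨(a, b), Finset.mem_filter.mpr ⟨mem_Edges.mpr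
        ⟨d, la, a1.trans hRM, lb, b1.trans hRM⟩, ?_⟩, ?_, ?_⟩
      · dsimp only; rw [hab]; norm_num
      · dsimp only; rw [det_swap, abs_neg]; exact a2
      · dsimp only; rw [det_swap, abs_neg]; exact a3
    · refine Or.inr ⟨b, Finset.mem_erase.mpr ⟨ne_zero_of_cont hcb, mem_disc.mpr
        (not_le.mp lb).le⟩, hcb, ?_⟩
      rw [det_swap, abs_neg]; exact b2
  · refine Or.inr ⟨a, Finset.mem_erase.mpr ⟨ne_zero_of_cont hca, mem_disc.mpr
      (not_le.mp la).le⟩, hca, ?_⟩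
    rw [det_swap, abs_neg]; exact a2

/-- points of the ring in the strip around `v` -/
def strip (M : ℝ) (K : ℕ) (v : GI) : Finset GI := (ringP M).filter fun β => |det v β| ≤ K

lemma mem_strip {M : ℝ} {K : ℕ} {v β : GI} : β ∈ strip M K v ↔ β ∈ ringP M ∧ |det v β| ≤ K :=
  Finset.mem_filter

lemma card_strip' {M : ℝ} (hM : 0 < M) (K : ℕ) {v : GI} (hv : cont v = 1) :
    ((strip M K v).card : ℝ) ≤ (2 * Real.sqrt (4 * M / nm v) + 1) * (2 * K + 1) :=
  card_strip hv (by linarith) K (fun _ h => ring_subset M (mem_strip.mp h).1)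
    fun _ h => (mem_strip.mp h).2

lemma card_strip_ring {M : ℝ} (hM : 0 < M) (K : ℕ) {α : GI} (hα : α ∈ ringP M) :
    ((strip M K α).card : ℝ) ≤ 5 * (2 * K + 1) :=
  (card_strip' hM K (mem_ringP.mp hα).2.2).trans
    (mul_le_mul_of_nonneg_right (ring_sqrt hM hα) (by positivity))

/-- close pairs whose first point is in the strip around `v` -/
def pairs (M : ℝ) (K : ℕ) (v : GI) : Finset (GI × GI) :=
  (ringP M ×ˢ ringP M).filter fun e => |det v e.1| ≤ K ∧ |det e.1 e.2| ≤ K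

lemma card_pairs {M : ℝ} (hM : 0 < M) (K : ℕ) {v : GI} (hc : cont v = 1) (hv3 : (nm v : ℝ) ≤ M) :
    ((pairs M K v).card : ℝ) ≤ 25 * (2 * K + 1) ^ 2 * Real.sqrt M * (1 / Real.sqrt (nm v)) := by
  have hn := nm_pos (ne_zero_of_cont hc)
  have hsq : 0 < Real.sqrt (nm v) := Real.sqrt_pos.mpr hn
  have a1 : Real.sqrt (4 * M / nm v) = 2 * (Real.sqrt M * (1 / Real.sqrt (nm v))) := by
    rw [Real.sqrt_div (by linarith), Real.sqrt_mul (by norm_num),
      show (4 : ℝ) = 2 ^ 2 by norm_num, Real.sqrt_sq (by norm_num)]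
    ring
  have a2 : 1 ≤ Real.sqrt M * (1 / Real.sqrt (nm v)) := by
    rw [mul_one_div, le_div_iff₀ hsq, one_mul]
    exact Real.sqrt_le_sqrt hv3
  have a3 : ((strip M K v).card : ℝ) ≤
      5 * (Real.sqrt M * (1 / Real.sqrt (nm v))) * (2 * K + 1) :=
    (card_strip' hM K hc).trans
      (mul_le_mul_of_nonneg_right (by rw [a1]; linarith) (by positivity))
  have a0 := card_cover (pairs M K v) (strip M K v) (fun α => {α} ×ˢ strip M K α) (by
    intro e he
    obtain ⟨hr, d1, d2⟩ := Finset.mem_filter.mp he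
    obtain ⟨r1, r2⟩ := Finset.mem_product.mp hr
    exact ⟨e.1, mem_strip.mpr ⟨r1, d1⟩, Finset.mem_product.mpr
      ⟨Finset.mem_singleton_self _, mem_strip.mpr ⟨r2, d2⟩⟩⟩)
  have a4 : ∑ α ∈ strip M K v, ((({α} ×ˢ strip M K α : Finset (GI × GI)).card : ℕ) : ℝ) ≤
      ∑ α ∈ strip M K v, 5 * (2 * (K : ℝ) + 1) := by
    refine Finset.sum_le_sum fun α hα => ?_
    rw [Finset.card_product, Finset.card_singleton, one_mul]
    exact card_strip_ring hM K (mem_strip.mp hα).1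
  rw [Finset.sum_const, nsmul_eq_mul] at a4
  refine a0.trans (a4.trans ((mul_le_mul_of_nonneg_right a3 (by positivity)).trans (le_of_eq ?_)))
  ring

lemma far_count {M R : ℝ} (K : ℕ) (hR : 2 ≤ R) (hM : 0 < M) :
    ((BadP M K).card : ℝ) ≤ ((4 * R + 1) * (2 * K + 1)) ^ 2 * (BadE 1 M R).card +
      800 * (2 * K + 1) ^ 2 / R * M := by
  set p : GI × GI → Prop := fun e => ∃ f ∈ BadE 1 M R, |det f.1 e.1| ≤ K ∧ |det f.1 e.2| ≤ K
    with hp
  have hsplit := Finset.card_filter_add_card_filter_not (s := BadP M K) p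
  have hsplit' : ((BadP M K).card : ℝ) =
      (((BadP M K).filter p).card : ℝ) + (((BadP M K).filter fun e => ¬ p e).card : ℝ) := by
    exact_mod_cast hsplit.symm
  have hR0 : 0 < R := by linarith
  have h1 : (((BadP M K).filter p).card : ℝ) ≤
      ((4 * R + 1) * (2 * K + 1)) ^ 2 * (BadE 1 M R).card := by
    refine (card_cover _ (BadE 1 M R) (fun f => strip M K f.1 ×ˢ strip M K f.1) ?_).trans ?_
    · intro e he
      obtain ⟨he1, f, hf, d1, d2⟩ := Finset.mem_filter.mp he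
      obtain ⟨r1, r2⟩ := Finset.mem_product.mp (Finset.mem_filter.mp he1).1
      exact ⟨f, hf, Finset.mem_product.mpr ⟨mem_strip.mpr ⟨r1, d1⟩, mem_strip.mpr ⟨r2, d2⟩⟩⟩
    · rw [mul_comm, ← nsmul_eq_mul, ← Finset.sum_const]
      refine Finset.sum_le_sum fun f hf => ?_
      obtain ⟨d, l1, _⟩ := mem_Edges.mp (Finset.mem_filter.mp hf).1
      have hc := (cont_of_det d).1
      have hn := nm_pos (ne_zero_of_cont hc)
      have h2 : Real.sqrt (4 * M / nm f.1) ≤ 2 * R := by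
        refine sqrt_le_of (by linarith) ?_
        rw [div_le_iff₀ (by positivity)] at l1
        rw [div_le_iff₀ hn]
        nlinarith
      have h3 : ((strip M K f.1).card : ℝ) ≤ (4 * R + 1) * (2 * K + 1) :=
        (card_strip' hM K hc).trans (mul_le_mul_of_nonneg_right (by linarith) (by positivity))
      rw [Finset.card_product, Nat.cast_mul, ← sq]
      exact pow_le_pow_left₀ (Nat.cast_nonneg _) h3 2
  have h2 : (((BadP M K).filter fun e => ¬ p e).card : ℝ) ≤ 800 * (2 * K + 1) ^ 2 / R * M := by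
    refine (card_cover _ (((disc (M / R ^ 2)).erase 0).filter fun v => cont v = 1)
      (pairs M K) ?_).trans ?_
    · intro e he
      obtain ⟨he1, hn⟩ := Finset.mem_filter.mp he
      obtain ⟨v, hv, hc, hd⟩ := (far_cases hR hM he1).resolve_left hn
      obtain ⟨hr, hd2, _⟩ := Finset.mem_filter.mp he1
      exact ⟨v, Finset.mem_filter.mpr ⟨hv, hc⟩, Finset.mem_filter.mpr ⟨hr, hd, hd2⟩⟩
    · have hs : ∀ v ∈ ((disc (M / R ^ 2)).erase 0).filter (fun v => cont v = 1),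
          ((pairs M K v).card : ℝ) ≤
            25 * (2 * K + 1) ^ 2 * Real.sqrt M * (1 / Real.sqrt (nm v)) := by
        intro v hv
        obtain ⟨hv1, hc⟩ := Finset.mem_filter.mp hv
        have hv2 := mem_disc.mp (Finset.mem_erase.mp hv1).2
        refine card_pairs hM K hc (hv2.trans ?_)
        rw [div_le_iff₀ (by positivity)]
        have : 1 ≤ R ^ 2 := by nlinarith
        nlinarith
      refine (Finset.sum_le_sum hs).trans ?_
      rw [← Finset.mul_sum]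
      have b1 : ∑ v ∈ ((disc (M / R ^ 2)).erase 0).filter (fun v => cont v = 1),
          1 / Real.sqrt (nm v) ≤ 32 * Real.sqrt (M / R ^ 2) :=
        (Finset.sum_le_sum_of_subset_of_nonneg (Finset.filter_subset _ _)
          fun _ _ _ => by positivity).trans (sum_inv_sqrt' (by positivity))
      have b2 : Real.sqrt (M / R ^ 2) = Real.sqrt M / R := by
        rw [Real.sqrt_div hM.le, Real.sqrt_sq hR0.le]
      rw [b2] at b1
      refine (mul_le_mul_of_nonneg_left b1 (by positivity)).trans (le_of_eq ?_)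
      have b3 := Real.mul_self_sqrt hM.le
      field_simp
      nlinarith
  linarith

lemma far : FarStmt := by
  intro K η hη
  set R : ℝ := max 2 (1600 * (2 * K + 1) ^ 2 / η) with hRdef
  have hR : 2 ≤ R := le_max_left _ _
  have hR2 : 1600 * (2 * K + 1) ^ 2 / η ≤ R := le_max_right _ _
  have hA : (0 : ℝ) < ((4 * R + 1) * (2 * K + 1)) ^ 2 := by positivity
  refine ⟨R, η / (2 * ((4 * R + 1) * (2 * K + 1)) ^ 2), by linarith, by positivity,
    fun M hM hb => ?_⟩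
  have h := far_count K hR (show 0 < M by linarith)
  have h1 : ((4 * R + 1) * (2 * K + 1)) ^ 2 * ((BadE 1 M R).card : ℝ) ≤ η / 2 * M := by
    refine (mul_le_mul_of_nonneg_left hb hA.le).trans (le_of_eq ?_)
    field_simp
  have h2 : 800 * (2 * (K : ℝ) + 1) ^ 2 / R ≤ η / 2 := by
    rw [div_le_iff₀ hη] at hR2
    rw [div_le_iff₀ (by linarith)]
    nlinarith
  have h3 := mul_le_mul_of_nonneg_right h2 (show 0 ≤ M by linarith)
  linarith

end M8

end Pool.Agent.Lib.LQ
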