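import Pool.Agent.Lib.LQ.Basic

/-! Block NU, part 1: labels and boxes of typical objects. -/

set_option autoImplicit false

open Finset
open scoped Classical

noncomputable section

namespace Pool.Agent.Lib.LQ

open Pool.Agent.Lib.MP_de94cf_nt (gg det inn)

namespace NUa

/-- dyadic level of an object -/
def jj (o : Ob) : ℕ := Nat.log 2 o.b1.im.toNat

/-- height of the box at level `j` -/
def DD (R X : ℝ) (j : ℕ) : ℕ := ⌈2 * R ^ 2 * X / 2 ^ j⌉₊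

/-- scale of the parameter at level `j` -/
def YY (X : ℝ) (j : ℕ) : ℝ := ((2 : ℝ) ^ j) ^ 2 / X

/-- size conditions on the global parameters -/
structure Big (v a0 a1 b : ℕ) (R z X : ℝ) : Prop where
  hR : 1 ≤ R
  hv : 1 ≤ v
  ha0 : 1 ≤ a0
  ha : a0 ≤ a1
  hb : 2 ≤ b
  z1 : 8 * R ^ 4 ≤ z
  z2 : 16 * (v : ℝ) ^ 2 ≤ z
  hX : z ^ (4000 * (396 * a1 * b ^ 2)) ≤ X

variable {v a0 a1 b : ℕ} {C0 R z X : ℝ} {o : Ob}

lemma Big.R2 (h : Big v a0 a1 b R z X) : 1 ≤ R ^ 2 := one_le_pow₀ h.hR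

lemma Big.R4 (h : Big v a0 a1 b R z X) : R ^ 2 ≤ R ^ 4 := pow_le_pow_right₀ h.hR (by norm_num)

lemma Big.z8 (h : Big v a0 a1 b R z X) : 8 ≤ z := by
  have := h.R2; have := h.R4; have := h.z1; linarith

lemma Big.zR (h : Big v a0 a1 b R z X) : 8 * R ^ 2 ≤ z := by
  have := h.R4; have := h.z1; linarith

lemma Big.one_le (h : Big v a0 a1 b R z X) : 1 ≤ z := by have := h.z8; linarith

lemma Big.ha1 (h : Big v a0 a1 b R z X) : 1 ≤ a1 := h.ha0.trans h.ha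

lemma Big.mono (h : Big v a0 a1 b R z X) {m n : ℕ} (hmn : m ≤ n) : z ^ m ≤ z ^ n :=
  pow_le_pow_right₀ h.one_le hmn

lemma Big.le_pow (h : Big v a0 a1 b R z X) {n : ℕ} (hn : 1 ≤ n) : z ≤ z ^ n := by
  simpa using h.mono hn

lemma Big.X1 (h : Big v a0 a1 b R z X) : 1 ≤ X := (one_le_pow₀ h.one_le).trans h.hX

lemma Big.ab (h : Big v a0 a1 b R z X) : 2 * a1 ≤ a1 * b ∧ 2 * (a1 * b) ≤ a1 * b ^ 2 := by
  have h1 := h.hb
  constructor
  · nlinarith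
  · have : a1 * b ^ 2 = (a1 * b) * b := by ring
    rw [this, mul_comm 2]; exact Nat.mul_le_mul_left _ h1

lemma im_pos (h : TypOb v a0 a1 b C0 R z X o) : 1 ≤ o.b1.im := by
  have h1 := h.sect
  have h2 := h.hdet
  by_contra hc
  have h3 : o.b1.im = 0 := by have := abs_nonneg o.b1.re; omega
  have h4 : o.b1.re = 0 := by rw [h3] at h1; exact abs_nonpos_iff.1 h1
  simp [det, h3, h4] at h2

lemma im_bounds (h : TypOb v a0 a1 b C0 R z X o) :
    ((2 ^ jj o : ℕ) : ℤ) ≤ o.b1.im ∧ o.b1.im < 2 * ((2 ^ jj o : ℕ) : ℤ) := by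
  have h1 := im_pos h
  have h2 : (o.b1.im.toNat : ℤ) = o.b1.im := Int.toNat_of_nonneg (by omega)
  have h3 : o.b1.im.toNat ≠ 0 := by omega
  have h4 := Nat.pow_log_le_self 2 h3
  have h5 := Nat.lt_pow_succ_log_self (b := 2) (by norm_num) o.b1.im.toNat
  rw [pow_succ] at h5
  unfold jj
  constructor
  · rw [← h2]; exact_mod_cast h4
  · rw [← h2]
    have : o.b1.im.toNat < 2 * 2 ^ Nat.log 2 o.b1.im.toNat := by omega
    exact_mod_cast this

lemma nm_bounds (h : TypOb v a0 a1 b C0 R z X o) :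
    ((2 : ℝ) ^ jj o) ^ 2 ≤ nm o.b1 ∧ (nm o.b1 : ℝ) ≤ 8 * ((2 : ℝ) ^ jj o) ^ 2 := by
  obtain ⟨h1, h2⟩ := im_bounds h
  have h3 := h.sect
  have e1 : ((2 : ℝ) ^ jj o) ≤ (o.b1.im : ℝ) := by exact_mod_cast h1
  have e2 : (o.b1.im : ℝ) ≤ 2 * ((2 : ℝ) ^ jj o) := by exact_mod_cast h2.le
  have e3 : |(o.b1.re : ℝ)| ≤ (o.b1.im : ℝ) := by exact_mod_cast h3
  have e4 : (o.b1.re : ℝ) ^ 2 ≤ (o.b1.im : ℝ) ^ 2 := by
    rw [← sq_abs (o.b1.re : ℝ)]; exact pow_le_pow_left₀ (abs_nonneg _) e3 2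
  have e5 : (0 : ℝ) < (2 : ℝ) ^ jj o := by positivity
  rw [nm_real]
  constructor <;> nlinarith [sq_nonneg (o.b1.re : ℝ)]

lemma r1_facts (h : TypOb v a0 a1 b C0 R z X o) : (nm o.r1).Prime ∧
    z ^ (360 * a1 * b) < (nm o.r1 : ℝ) ∧ (nm o.r1 : ℝ) ≤ z ^ (360 * a1 * b ^ 2) := by
  have := mem_PP.1 (mem_GF.1 h.hr1).1
  exact ⟨this.1, this.2.2.1, this.2.2.2⟩

lemma r2_facts (h : TypOb v a0 a1 b C0 R z X o) : (nm o.r2).Prime ∧
    z ^ (30 * a1) < (nm o.r2 : ℝ) ∧ (nm o.r2 : ℝ) ≤ z ^ (30 * a1 * b) := by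
  have := mem_PP.1 (mem_GF.1 h.hr2).1
  exact ⟨this.1, this.2.2.1, this.2.2.2⟩

lemma r_big (H : Big v a0 a1 b R z X) (h : TypOb v a0 a1 b C0 R z X o) :
    z < (nm o.r2 : ℝ) ∧ nm o.r2 < nm o.r1 := by
  obtain ⟨_, h1, _⟩ := r1_facts h
  obtain ⟨_, h2, h3⟩ := r2_facts h
  have a := H.ha1
  constructor
  · exact (H.le_pow (by omega)).trans_lt h2
  · have : z ^ (30 * a1 * b) ≤ z ^ (360 * a1 * b) := H.mono (by nlinarith)
    have : (nm o.r2 : ℝ) < nm o.r1 := by linarith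
    exact_mod_cast this

/-- the square of the box width, lower bound -/
lemma C_lo (H : Big v a0 a1 b R z X) (h : TypOb v a0 a1 b C0 R z X o) :
    X * nm o.r2 / (8 * R ^ 2) ≤ ((2 : ℝ) ^ jj o) ^ 2 := by
  have h1 := (nm_bounds h).2
  have h2 := h.lo1
  have h3 := H.R2
  rw [div_le_iff₀ (by positivity)] at h2 ⊢
  nlinarith

lemma C_hi (h : TypOb v a0 a1 b C0 R z X o) :
    ((2 : ℝ) ^ jj o) ^ 2 ≤ R ^ 2 * X * z ^ a0 * nm o.r2 := (nm_bounds h).1.trans h.hi1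

lemma small_prime {w : ℝ} {S : Finset GI} (hS : S ⊆ GF w z) {l : ℕ} (hl : l.Prime)
    (hd : l ∣ nm (pr S)) : (l : ℝ) ≤ z := by
  have h0 : nm (pr S) ≠ 0 := fun e => pr_ne_zero hS (nm_eq_zero.1 e)
  have h1 : l ∈ (nm (pr S)).primeFactors := Nat.mem_primeFactors.2 ⟨hl, hd, h0⟩
  rw [primeFactors_nm_pr hS, mem_image] at h1
  obtain ⟨π, hπ, rfl⟩ := h1
  exact (mem_PP.1 (mem_GF.1 (hS hπ)).1).2.2.2

lemma cops (H : Big v a0 a1 b R z X) (h : TypOb v a0 a1 b C0 R z X o) :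
    Nat.Coprime (nm (pr (sm (ww v) z o.b1))) (nm o.r1 * nm o.r2) ∧
      Nat.Coprime (nm o.r1) (nm o.r2) := by
  obtain ⟨p1, _, _⟩ := r1_facts h
  obtain ⟨p2, _, _⟩ := r2_facts h
  obtain ⟨b1, b2⟩ := r_big H h
  have b3 : z < (nm o.r1 : ℝ) := b1.trans (by exact_mod_cast b2)
  refine ⟨Nat.Coprime.mul_right ?_ ?_, (Nat.coprime_primes p1 p2).2 (by omega)⟩
  · refine ((Nat.Prime.coprime_iff_not_dvd p1).2 fun hd => ?_).symm
    have := small_prime (sm_subset _ _ _) p1 hd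
    linarith
  · refine ((Nat.Prime.coprime_iff_not_dvd p2).2 fun hd => ?_).symm
    have := small_prime (sm_subset _ _ _) p2 hd
    linarith

lemma pf_label (H : Big v a0 a1 b R z X) (h : TypOb v a0 a1 b C0 R z X o) (F : ℕ → ℝ) :
    (∑ l ∈ (nm (pr (sm (ww v) z o.b1) * (o.r1 * o.r2))).primeFactors, F l =
      ∑ l ∈ (nm (pr (sm (ww v) z o.b1))).primeFactors, F l + F (nm o.r1) + F (nm o.r2)) ∧
    (∏ l ∈ (nm (pr (sm (ww v) z o.b1) * (o.r1 * o.r2))).primeFactors, F l =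
      (∏ l ∈ (nm (pr (sm (ww v) z o.b1))).primeFactors, F l) * F (nm o.r1) * F (nm o.r2)) := by
  obtain ⟨p1, _, _⟩ := r1_facts h
  obtain ⟨p2, _, _⟩ := r2_facts h
  obtain ⟨c1, c2⟩ := cops H h
  rw [nm_mul, nm_mul, Nat.Coprime.primeFactors_mul c1, Nat.Coprime.primeFactors_mul c2]
  have d1 := Nat.Coprime.disjoint_primeFactors c1
  have d2 := Nat.Coprime.disjoint_primeFactors c2
  rw [Nat.Coprime.primeFactors_mul c2] at d1
  rw [sum_union d1, sum_union d2, prod_union d1, prod_union d2, p1.primeFactors, p2.primeFactors]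
  simp only [sum_singleton, prod_singleton]
  constructor <;> ring

lemma lab1 (H : Big v a0 a1 b R z X) (h : TypOb v a0 a1 b C0 R z X o) :
    Lab1 v a1 (36 * a1 * b) (396 * a1 * b ^ 2) z (sm (ww v) z o.b1) (o.r1 * o.r2)
      (YY X (jj o)) := by
  obtain ⟨p1, l1, u1⟩ := r1_facts h
  obtain ⟨p2, l2, u2⟩ := r2_facts h
  obtain ⟨c1, c2⟩ := cops H h
  obtain ⟨b1, b2⟩ := r_big H h
  obtain ⟨ab1, ab2⟩ := H.ab
  have ha := H.ha1
  have hz8 := H.z8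
  have hz0 : (0 : ℝ) < z := by linarith
  have hX := H.X1
  have b3 : z < (nm o.r1 : ℝ) := b1.trans (by exact_mod_cast b2)
  have hS : (nm (pr (sm (ww v) z o.b1)) : ℝ) ≤ z ^ a1 := h.hiS.trans (H.mono H.ha)
  have hρ : (nm (o.r1 * o.r2) : ℝ) ≤ z ^ (360 * a1 * b ^ 2 + 30 * a1 * b) := by
    rw [nm_mul, pow_add]; push_cast
    exact mul_le_mul u1 u2 (by positivity) (by positivity)
  have e1 : 360 * a1 * b ^ 2 = 360 * (a1 * b ^ 2) := by ring
  have e2 : 396 * a1 * b ^ 2 = 396 * (a1 * b ^ 2) := by ring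
  have e3 : 30 * a1 * b = 30 * (a1 * b) := by ring
  have e4 : 36 * a1 * b = 36 * (a1 * b) := by ring
  have e5 : 360 * a1 * b = 360 * (a1 * b) := by ring
  refine ⟨⟨sm_subset _ _ _, ?_, ?_, hS, hρ.trans (H.mono (by omega))⟩, ?_, ?_, ?_, ?_, ?_⟩
  · rw [nm_mul, nm_mul]
    exact (Nat.squarefree_mul c1).2 ⟨h.sfS, (Nat.squarefree_mul c2).2
      ⟨p1.prime.squarefree, p2.prime.squarefree⟩⟩
  · intro l hl hd
    rw [nm_mul] at hd
    rcases (Nat.Prime.dvd_mul hl).1 hd with hd | hd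
    · rw [(Nat.prime_dvd_prime_iff_eq hl p1).1 hd]; exact b3
    · rw [(Nat.prime_dvd_prime_iff_eq hl p2).1 hd]; exact b1
  · unfold sg
    rw [(pf_label H h fun l => 1 / Real.sqrt l).1]
    have hs := h.sgS
    unfold sg at hs
    have hv : (1 : ℝ) ≤ v := by exact_mod_cast H.hv
    have key : ∀ n : ℕ, z < (n : ℝ) → 1 / Real.sqrt n ≤ 1 / (4 * v) := by
      intro n hn
      apply one_div_le_one_div_of_le (by positivity)
      apply Real.le_sqrt_of_sq_le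
      have := H.z2
      nlinarith
    have k1 := key _ b1
    have k2 := key _ b3
    have : 1 / (2 * (v : ℝ)) + 1 / (4 * v) + 1 / (4 * v) = 1 / v := by field_simp; ring
    linarith
  · rw [nm_mul]; push_cast
    have t1 : z ^ (9 * (36 * a1 * b)) ≤ z ^ (360 * a1 * b) := H.mono (by omega)
    have t2 : (2 : ℝ) ≤ nm o.r2 := by linarith
    have t3 : 0 ≤ z ^ (9 * (36 * a1 * b)) := by positivity
    nlinarith
  · rw [nm_mul]; push_cast
    calc (nm (pr (sm (ww v) z o.b1)) : ℝ) * nm (o.r1 * o.r2)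
        ≤ z ^ a1 * z ^ (360 * a1 * b ^ 2 + 30 * a1 * b) :=
          mul_le_mul hS hρ (by positivity) (by positivity)
      _ = z ^ (a1 + (360 * a1 * b ^ 2 + 30 * a1 * b)) := by rw [← pow_add]
      _ ≤ _ := H.mono (by omega)
  · have t1 := C_lo H h
    unfold YY
    rw [le_div_iff₀ (by linarith)]
    refine le_trans ?_ t1
    have hR := H.R2
    rw [le_div_iff₀ (by positivity)]
    have t2 : z ^ (25 * a1) * z ≤ z ^ (30 * a1) := by
      rw [← pow_succ]; exact H.mono (by omega)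
    have t3 := H.zR
    have t4 : 0 ≤ z ^ (25 * a1) := by positivity
    have t5 : z ^ (25 * a1) * (8 * R ^ 2) ≤ nm o.r2 := by nlinarith
    nlinarith
  · have t1 := C_hi h
    unfold YY
    rw [← mul_div_assoc, div_le_iff₀ (by linarith)]
    have t2 : z ^ a0 ≤ z ^ a1 := H.mono H.ha
    have t3 : z * (z ^ a1 * z ^ (30 * a1 * b)) ≤ z ^ (36 * a1 * b) := by
      rw [← pow_add, ← pow_succ']; exact H.mono (by omega)
    have t4 := H.zR
    have hR := H.R2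
    have t5 : z ^ a0 * nm o.r2 ≤ z ^ a1 * z ^ (30 * a1 * b) :=
      mul_le_mul t2 u2 (by positivity) (by positivity)
    have t6 : 0 ≤ z ^ a1 * z ^ (30 * a1 * b) := by positivity
    have t7 : 2 * R ^ 2 * (z ^ a0 * nm o.r2) ≤ z ^ (36 * a1 * b) := by
      calc 2 * R ^ 2 * (z ^ a0 * nm o.r2) ≤ z * (z ^ a1 * z ^ (30 * a1 * b)) :=
            mul_le_mul (by linarith) t5 (by positivity) (by positivity)
        _ ≤ _ := t3
    calc 2 * ((2 : ℝ) ^ jj o) ^ 2 ≤ 2 * (R ^ 2 * X * z ^ a0 * nm o.r2) := by linarith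
      _ = 2 * R ^ 2 * (z ^ a0 * nm o.r2) * X := by ring
      _ ≤ _ := mul_le_mul_of_nonneg_right t7 (by linarith)

lemma C_sq (H : Big v a0 a1 b R z X) (h : TypOb v a0 a1 b C0 R z X o) :
    X ≤ ((2 : ℝ) ^ jj o) ^ 2 ∧ ((2 : ℝ) ^ jj o) ^ 2 ≤ X * z ^ (36 * a1 * b) := by
  have t1 := (lab1 H h).loY
  have t2 := (lab1 H h).hiY
  have hX := H.X1
  unfold YY at t1 t2
  rw [le_div_iff₀ (by linarith)] at t1
  rw [← mul_div_assoc, div_le_iff₀ (by linarith)] at t2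
  have t3 : 1 ≤ z ^ (25 * a1) := one_le_pow₀ H.one_le
  have t4 : (0 : ℝ) ≤ ((2 : ℝ) ^ jj o) ^ 2 := by positivity
  constructor <;> nlinarith

lemma boxok (H : Big v a0 a1 b R z X) (h : TypOb v a0 a1 b C0 R z X o) :
    BoxOK (396 * a1 * b ^ 2) z X (2 ^ jj o) (DD R X (jj o)) := by
  obtain ⟨t1, t2⟩ := C_sq H h
  obtain ⟨ab1, ab2⟩ := H.ab
  have ha := H.ha1
  have hX := H.X1
  have hR := H.R2
  have hz := H.one_le
  have e2 : 396 * a1 * b ^ 2 = 396 * (a1 * b ^ 2) := by ring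
  have e4 : 36 * a1 * b = 36 * (a1 * b) := by ring
  have sX : Real.sqrt X ^ 2 = X := Real.sq_sqrt (by linarith)
  have sX1 : 1 ≤ Real.sqrt X := Real.one_le_sqrt.2 hX
  have hC : (0 : ℝ) < 2 ^ jj o := by positivity
  refine ⟨Nat.one_le_two_pow, ?_, ?_, ?_⟩
  · exact Nat.one_le_iff_ne_zero.2 (Nat.ceil_pos.2 (by positivity)).ne'
  · push_cast
    apply le_of_sq_le_sq _ (by positivity)
    rw [mul_pow, sX, ← pow_mul z]
    have t9 : z ^ (36 * a1 * b) ≤ z ^ (396 * a1 * b ^ 2 * 2) := H.mono (by omega)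
    exact t2.trans (mul_le_mul_of_nonneg_left t9 (by linarith))
  · have t3 : Real.sqrt X ≤ 2 ^ jj o := by
      apply le_of_sq_le_sq _ hC.le
      rw [sX]; exact t1
    have t4 : (DD R X (jj o) : ℝ) ≤ 2 * R ^ 2 * X / 2 ^ jj o + 1 :=
      (Nat.ceil_lt_add_one (by positivity)).le
    have t5 : 2 * R ^ 2 * X / 2 ^ jj o ≤ 2 * R ^ 2 * Real.sqrt X := by
      rw [div_le_iff₀ hC]
      have : X ≤ Real.sqrt X * 2 ^ jj o := by nlinarith
      nlinarith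
    have t6 : z ≤ z ^ (396 * a1 * b ^ 2) := H.le_pow (by omega)
    have t7 := H.zR
    nlinarith

lemma nm_b2 (h : TypOb v a0 a1 b C0 R z X o) :
    (nm o.b1 : ℝ) * nm o.b2 = (inn o.b1 o.b2 : ℝ) ^ 2 + 1 := by
  have := nm_mul_nm o.b1 o.b2
  rw [h.hdet] at this
  exact_mod_cast this

lemma b2_bounds (H : Big v a0 a1 b R z X) (h : TypOb v a0 a1 b C0 R z X o) :
    X ^ 2 / (32 * R ^ 4) ≤ ((2 : ℝ) ^ jj o) ^ 2 * nm o.b2 ∧
      ((2 : ℝ) ^ jj o) ^ 2 * nm o.b2 ≤ 2 * R ^ 4 * X ^ 2 := by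
  have t1 := nm_b2 h
  obtain ⟨t2, t3⟩ := nm_bounds h
  have t4 := h.lon
  have t5 := h.hin
  have hX := H.X1
  have hR := H.R2
  have t6 : (0 : ℝ) ≤ nm o.b2 := by positivity
  have t7 : 0 < X / (2 * R ^ 2) := by positivity
  constructor
  · have e : X ^ 2 / (32 * R ^ 4) = (X / (2 * R ^ 2)) ^ 2 / 8 := by field_simp; ring
    have t8 : (X / (2 * R ^ 2)) ^ 2 ≤ (inn o.b1 o.b2 : ℝ) ^ 2 := pow_le_pow_left₀ t7.le t4 2
    rw [e]; nlinarith
  · have t8 : (inn o.b1 o.b2 : ℝ) ^ 2 ≤ (R ^ 2 * X) ^ 2 := pow_le_pow_left₀ (by linarith) t5 2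
    have t9 : 1 ≤ (R ^ 2 * X) ^ 2 := one_le_pow₀ (by nlinarith)
    nlinarith

lemma memA (H : Big v a0 a1 b R z X) (h : TypOb v a0 a1 b C0 R z X o) :
    (o.b1, o.b2) ∈ Aset v z (sm (ww v) z o.b1) (o.r1 * o.r2) (2 ^ jj o) (DD R X (jj o)) := by
  obtain ⟨t1, t2⟩ := im_bounds h
  have t3 := h.sect
  refine mem_filter.2 ⟨(mem_Box Nat.one_le_two_pow).2 ⟨t1, t2, by simp only; omega, ?_, h.hdet⟩,
    rfl, h.sm2, h.dv⟩
  have t4 := (b2_bounds H h).2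
  have hC : (0 : ℝ) < 2 ^ jj o := by positivity
  have hX := H.X1
  have hR := H.R2
  have t5 : |(o.b2.im : ℝ)| ≤ 2 * R ^ 2 * X / 2 ^ jj o := by
    apply le_of_sq_le_sq _ (by positivity)
    rw [sq_abs, div_pow, le_div_iff₀ (by positivity)]
    rw [nm_real] at t4
    have : 0 ≤ ((2 : ℝ) ^ jj o) ^ 2 * (o.b2.re : ℝ) ^ 2 := by positivity
    have : 0 ≤ R ^ 4 * X ^ 2 := by positivity
    nlinarith
  have t6 : 2 * R ^ 2 * X / 2 ^ jj o ≤ (DD R X (jj o) : ℝ) := Nat.le_ceil _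
  have t7 : |(o.b2.im : ℝ)| ≤ (DD R X (jj o) : ℝ) := t5.trans t6
  exact_mod_cast t7

lemma card_box (H : Big v a0 a1 b R z X) (h : TypOb v a0 a1 b C0 R z X o) :
    ((Box (2 ^ jj o) (DD R X (jj o))).card : ℝ) ≤ 42 * R ^ 2 * X := by
  have t1 := card_Box_le (C := 2 ^ jj o) (D := DD R X (jj o)) Nat.one_le_two_pow
  have hC : (0 : ℝ) < 2 ^ jj o := by positivity
  have hX := H.X1
  have hR := H.R2
  have t4 : (DD R X (jj o) : ℝ) ≤ 2 * R ^ 2 * X / 2 ^ jj o + 1 :=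
    (Nat.ceil_lt_add_one (by positivity)).le
  have t5 : (2 : ℝ) ^ jj o ≤ X := by
    apply le_of_sq_le_sq _ (by linarith)
    have t6 := (C_sq H h).2
    obtain ⟨ab1, ab2⟩ := H.ab
    have e2 : 396 * a1 * b ^ 2 = 396 * (a1 * b ^ 2) := by ring
    have e4 : 36 * a1 * b = 36 * (a1 * b) := by ring
    have t7 : z ^ (36 * a1 * b) ≤ X := (H.mono (by omega)).trans H.hX
    nlinarith
  push_cast at t1
  have t8 : (2 : ℝ) ^ jj o * (DD R X (jj o) : ℝ) ≤ 2 * R ^ 2 * X + 2 ^ jj o := by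
    calc (2 : ℝ) ^ jj o * (DD R X (jj o) : ℝ) ≤ 2 ^ jj o * (2 * R ^ 2 * X / 2 ^ jj o + 1) :=
          mul_le_mul_of_nonneg_left t4 hC.le
      _ = _ := by field_simp
  nlinarith

lemma card_S (h : TypOb v a0 a1 b C0 R z X o) :
    1.9 * Lam (ww v) z - C0 ≤ ((sm (ww v) z o.b1).card : ℝ) := by
  have t := h.multi 0
  simp only [pow_zero, pow_one] at t
  exact t.trans (by exact_mod_cast card_filter_le _ _)

lemma psi_label (H : Big v a0 a1 b R z X) (h : TypOb v a0 a1 b C0 R z X o) :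
    psi (nm (pr (sm (ww v) z o.b1) * (o.r1 * o.r2))) =
      (∏ π ∈ sm (ww v) z o.b1, ((nm π : ℝ) + 1)) * ((nm o.r1 : ℝ) + 1) * ((nm o.r2 : ℝ) + 1) := by
  unfold psi
  rw [(pf_label H h fun l => (l : ℝ) + 1).2, primeFactors_nm_pr (sm_subset _ _ _),
    prod_image (nm_injOn (sm_subset _ _ _) h.sfS)]

lemma psi_pos (n : ℕ) : 0 < psi n := prod_pos fun l _ => by positivity

lemma psi_le {n : ℕ} (hn : n ≠ 0) : psi n ≤ (n : ℝ) ^ 2 := by
  unfold psi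
  have h1 : ∏ l ∈ n.primeFactors, ((l : ℝ) + 1) ≤ ∏ l ∈ n.primeFactors, ((l : ℝ) ^ 2) := by
    apply prod_le_prod (fun l _ => by positivity)
    intro l hl
    have : (2 : ℝ) ≤ l := by exact_mod_cast (Nat.prime_of_mem_primeFactors hl).two_le
    nlinarith
  have h2 : ((∏ l ∈ n.primeFactors, l : ℕ) : ℝ) ≤ n := by
    exact_mod_cast Nat.le_of_dvd (Nat.pos_of_ne_zero hn) (Nat.prod_primeFactors_dvd n)
  rw [prod_pow] at h1
  push_cast at h2
  exact h1.trans (pow_le_pow_left₀ (prod_nonneg fun l _ => by positivity) h2 2)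

/-- number of dyadic levels in a range -/
lemma card_levels {J : Finset ℕ} {A T : ℝ} (hA : 0 < A) (hT : 1 ≤ T)
    (h : ∀ j ∈ J, A ≤ ((2 : ℝ) ^ j) ^ 2 ∧ ((2 : ℝ) ^ j) ^ 2 ≤ A * T) :
    (J.card : ℝ) ≤ Real.log T + 1 := by
  have hl : 0 ≤ Real.log T := Real.log_nonneg hT
  rcases J.eq_empty_or_nonempty with rfl | hne
  · simp; linarith
  have hsub : J ⊆ Icc (J.min' hne) (J.min' hne + ⌊Real.log T⌋₊) := by
    intro j hj
    have h1 := J.min'_le j hj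
    obtain ⟨d, hd⟩ := Nat.exists_eq_add_of_le h1
    refine mem_Icc.2 ⟨h1, hd.le.trans (Nat.add_le_add_left (Nat.le_floor ?_) _)⟩
    have h2 := (h _ (J.min'_mem hne)).1
    have h3 := (h _ hj).2
    rw [hd, pow_add, mul_pow] at h3
    have h4 : ((2 : ℝ) ^ d) ^ 2 ≤ T := by
      have h5 : (0 : ℝ) < ((2 : ℝ) ^ d) ^ 2 := by positivity
      have h6 : A * ((2 : ℝ) ^ d) ^ 2 ≤ A * T := by nlinarith
      exact le_of_mul_le_mul_left h6 hA
    have h7 := Real.log_le_log (by positivity) h4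
    rw [Real.log_pow, Real.log_pow] at h7
    have h8 := Real.log_two_gt_d9
    have h9 : (0 : ℝ) ≤ d := by positivity
    push_cast at h7
    nlinarith
  have h1 := card_le_card hsub
  rw [Nat.card_Icc] at h1
  have h2 : J.card ≤ ⌊Real.log T⌋₊ + 1 := by omega
  have h3 : (J.card : ℝ) ≤ (⌊Real.log T⌋₊ : ℝ) + 1 := by exact_mod_cast h2
  have h4 := Nat.floor_le hl
  linarith

end NUa

end Pool.Agent.Lib.LQ
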