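import Pool.Agent.Lib.LQ.NUAux1

/-! Block NU, part 2: the exceptional objects. -/

set_option autoImplicit false

open Finset
open scoped Classical

noncomputable section

namespace Pool.Agent.Lib.LQ

open Pool.Agent.Lib.MP_de94cf_nt (gg det inn)

namespace NUa

variable {v a0 a1 b : ℕ} {C0 R z X : ℝ} {o : Ob}

/-- total weight of the first view at an object -/
def Zs (v a1 b : ℕ) (z X : ℝ) (o : Ob) : ℝ :=
  ∑ t ∈ T1 v a1 (36 * a1 * b) (396 * a1 * b ^ 2) z (sm (ww v) z o.b1) (o.r1 * o.r2) (YY X (jj o)),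
    w1 v a1 (36 * a1 * b) (396 * a1 * b ^ 2) z (sm (ww v) z o.b1) (o.r1 * o.r2) t (o.b1, o.b2)

/-- the concentration bound at fixed global parameters -/
def Conc (v a1 b : ℕ) (C0 z X A μ : ℝ) : Prop :=
  ∀ (Y0 : ℝ) (S : Finset GI) (ρ : GI) (C D : ℕ),
    Lab1 v a1 (36 * a1 * b) (396 * a1 * b ^ 2) z S ρ Y0 → BoxOK (396 * a1 * b ^ 2) z X C D →
    1.9 * Lam (ww v) z - C0 ≤ (S.card : ℝ) →
    (((Aset v z S ρ C D).filter fun γ =>
      ∑ t ∈ T1 v a1 (36 * a1 * b) (396 * a1 * b ^ 2) z S ρ Y0,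
        w1 v a1 (36 * a1 * b) (396 * a1 * b ^ 2) z S ρ t γ < μ).card : ℝ) ≤
      A * Nlab v z S ρ C D + X ^ (0.97 : ℝ)

lemma err_le (H : Big v a0 a1 b R z X) (h : TypOb v a0 a1 b C0 R z X o)
    (hL : Real.exp (2 * Lam (ww v) z) ≤ z) :
    X ^ (0.97 : ℝ) ≤ 1 / v * X * Real.exp (-2 * Lam (ww v) z) /
      psi (nm (pr (sm (ww v) z o.b1) * (o.r1 * o.r2))) := by
  have l1 := lab1 H h
  have hn : nm (pr (sm (ww v) z o.b1) * (o.r1 * o.r2)) ≠ 0 := l1.lab.sf.ne_zero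
  have hX := H.X1
  have hz := H.one_le
  have hv : (1 : ℝ) ≤ v := by exact_mod_cast H.hv
  obtain ⟨ab1, ab2⟩ := H.ab
  have ha := H.ha1
  have e2 : 396 * a1 * b ^ 2 = 396 * (a1 * b ^ 2) := by ring
  set f := 396 * a1 * b ^ 2 with hf
  have p1 : psi (nm (pr (sm (ww v) z o.b1) * (o.r1 * o.r2))) ≤ z ^ (f * 2) := by
    rw [pow_mul]
    exact (psi_le hn).trans (pow_le_pow_left₀ (by positivity) l1.hip 2)
  have p0 := psi_pos (nm (pr (sm (ww v) z o.b1) * (o.r1 * o.r2)))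
  have p2 : z ^ (f * 2 + 2) ≤ X ^ (0.03 : ℝ) := by
    calc z ^ (f * 2 + 2) ≤ z ^ (120 * f) := H.mono (by omega)
      _ = (z ^ (4000 * f)) ^ (0.03 : ℝ) := by
          rw [← Real.rpow_natCast, ← Real.rpow_natCast, ← Real.rpow_mul (by linarith)]
          congr 1; push_cast; ring
      _ ≤ _ := Real.rpow_le_rpow (by positivity) H.hX (by norm_num)
  have p3 : X ^ (0.97 : ℝ) * X ^ (0.03 : ℝ) = X := by
    rw [← Real.rpow_add (by linarith)]; norm_num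
  have p4 : (v : ℝ) ≤ z := by have := H.z2; nlinarith
  have p5 : 0 ≤ X ^ (0.97 : ℝ) := by positivity
  rw [le_div_iff₀ p0, neg_mul, Real.exp_neg, one_div_mul_eq_div, ← div_eq_mul_inv, div_div,
    le_div_iff₀ (by positivity)]
  have p6 : psi (nm (pr (sm (ww v) z o.b1) * (o.r1 * o.r2))) *
      (v * Real.exp (2 * Lam (ww v) z)) ≤ z ^ (f * 2 + 2) := by
    rw [pow_add, sq]
    exact mul_le_mul p1 (mul_le_mul p4 hL (by positivity) (by linarith)) (by positivity)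
      (by positivity)
  calc X ^ (0.97 : ℝ) * psi (nm (pr (sm (ww v) z o.b1) * (o.r1 * o.r2))) *
        (v * Real.exp (2 * Lam (ww v) z))
      = X ^ (0.97 : ℝ) * (psi (nm (pr (sm (ww v) z o.b1) * (o.r1 * o.r2))) *
        (v * Real.exp (2 * Lam (ww v) z))) := by ring
    _ ≤ X ^ (0.97 : ℝ) * X ^ (0.03 : ℝ) := mul_le_mul_of_nonneg_left (p6.trans p2) p5
    _ = X := p3

lemma fiber {A μ : ℝ} (H : Big v a0 a1 b R z X) (hA : 0 ≤ A) (hc : Conc v a1 b C0 z X A μ)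
    (hL : Real.exp (2 * Lam (ww v) z) ≤ z) {E : Finset Ob} {S : Finset GI} {r1 r2 : GI} {j : ℕ}
    (hE : ∀ o ∈ E, TypOb v a0 a1 b C0 R z X o ∧ Zs v a1 b z X o < μ ∧
      sm (ww v) z o.b1 = S ∧ o.r1 = r1 ∧ o.r2 = r2 ∧ jj o = j) :
    (E.card : ℝ) ≤ (42 * R ^ 2 * A + 1 / v) * X * Real.exp (-2 * Lam (ww v) z) /
      ((∏ π ∈ S, ((nm π : ℝ) + 1)) * ((nm r1 : ℝ) + 1) * ((nm r2 : ℝ) + 1)) := by
  have hX := H.X1
  have hR := H.R2
  rcases E.eq_empty_or_nonempty with rfl | ⟨o, ho⟩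
  · simp only [card_empty, Nat.cast_zero]
    have : 0 ≤ ∏ π ∈ S, ((nm π : ℝ) + 1) := prod_nonneg fun _ _ => by positivity
    positivity
  obtain ⟨h, -, rfl, rfl, rfl, rfl⟩ := hE o ho
  have k1 := hc _ _ _ _ _ (lab1 H h) (boxok H h) (card_S h)
  have k2 : E.card ≤ ((Aset v z (sm (ww v) z o.b1) (o.r1 * o.r2) (2 ^ jj o) (DD R X (jj o))).filter
      fun γ => ∑ t ∈ T1 v a1 (36 * a1 * b) (396 * a1 * b ^ 2) z (sm (ww v) z o.b1) (o.r1 * o.r2)
        (YY X (jj o)), w1 v a1 (36 * a1 * b) (396 * a1 * b ^ 2) z (sm (ww v) z o.b1)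
          (o.r1 * o.r2) t γ < μ).card := by
    apply card_le_card_of_injOn (fun o' : Ob => (o'.b1, o'.b2))
    · intro o' ho'
      obtain ⟨h', hZ, e1, e2, e3, e4⟩ := hE o' ho'
      have m := memA H h'
      unfold Zs at hZ
      rw [e1, e2, e3, e4] at m hZ
      exact mem_coe.2 (mem_filter.2 ⟨m, hZ⟩)
    · intro o1 h1 o2 h2 e
      obtain ⟨-, -, -, e2, e3, -⟩ := hE o1 h1
      obtain ⟨-, -, -, e2', e3', -⟩ := hE o2 h2
      simp only [Prod.mk.injEq] at e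
      exact Ob.ext e.1 e.2 (e2.trans e2'.symm) (e3.trans e3'.symm)
  have k3 : (E.card : ℝ) ≤ _ := (Nat.cast_le.2 k2).trans k1
  have k4 := err_le H h hL
  have k5 := card_box H h
  have p0 := psi_pos (nm (pr (sm (ww v) z o.b1) * (o.r1 * o.r2)))
  have k6 : Nlab v z (sm (ww v) z o.b1) (o.r1 * o.r2) (2 ^ jj o) (DD R X (jj o)) ≤
      42 * R ^ 2 * X * Real.exp (-2 * Lam (ww v) z) /
        psi (nm (pr (sm (ww v) z o.b1) * (o.r1 * o.r2))) := by
    unfold Nlab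
    gcongr
  rw [← psi_label H h]
  calc (E.card : ℝ) ≤ A * (42 * R ^ 2 * X * Real.exp (-2 * Lam (ww v) z) /
        psi (nm (pr (sm (ww v) z o.b1) * (o.r1 * o.r2)))) +
        1 / v * X * Real.exp (-2 * Lam (ww v) z) /
          psi (nm (pr (sm (ww v) z o.b1) * (o.r1 * o.r2))) :=
        k3.trans (add_le_add (mul_le_mul_of_nonneg_left k6 hA) k4)
    _ = _ := by ring

lemma levels (H : Big v a0 a1 b R z X) {E : Finset Ob} {r2 : GI}
    (hE : ∀ o ∈ E, TypOb v a0 a1 b C0 R z X o ∧ o.r2 = r2) :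
    ((E.image jj).card : ℝ) ≤ (a0 + 2) * Real.log z := by
  have hX := H.X1
  have hR := H.R2
  have hz8 := H.z8
  have hlog : 1 ≤ Real.log z := by
    rw [Real.le_log_iff_exp_le (by linarith)]
    have := Real.exp_one_lt_d9
    linarith
  rcases E.eq_empty_or_nonempty with rfl | ⟨o, ho⟩
  · simp only [image_empty, card_empty, Nat.cast_zero]; positivity
  obtain ⟨h, rfl⟩ := hE o ho
  have hr : (0 : ℝ) < nm o.r2 := by have := (r_big H h).1; linarith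
  have hR4 : 1 ≤ R ^ 4 := hR.trans H.R4
  have hza : 1 ≤ z ^ a0 := one_le_pow₀ H.one_le
  have k := card_levels (J := E.image jj) (A := X * nm o.r2 / (8 * R ^ 2))
    (T := 8 * R ^ 4 * z ^ a0) (by positivity) (by nlinarith) (by
      intro j hj
      obtain ⟨o', ho', rfl⟩ := mem_image.1 hj
      obtain ⟨h', e⟩ := hE o' ho'
      have t1 := C_lo H h'
      have t2 := C_hi h'
      rw [e] at t1 t2
      refine ⟨t1, t2.trans (le_of_eq ?_)⟩
      field_simp)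
  have k2 : Real.log (8 * R ^ 4 * z ^ a0) ≤ Real.log (z ^ (a0 + 1)) := by
    apply Real.log_le_log (by positivity)
    rw [pow_succ' z]
    exact mul_le_mul_of_nonneg_right H.z1 (by linarith)
  rw [Real.log_pow] at k2
  push_cast at k2
  linarith

lemma sum_labels (w z : ℝ) :
    ∑ S ∈ (GF w z).powerset, (2 : ℝ) ^ S.card / ∏ π ∈ S, ((nm π : ℝ) + 1) ≤
      Real.exp (2 * Lam w z) := by
  have e1 : ∀ S : Finset GI, (2 : ℝ) ^ S.card / ∏ π ∈ S, ((nm π : ℝ) + 1) =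
      ∏ π ∈ S, (2 / ((nm π : ℝ) + 1)) := by
    intro S; rw [prod_div_distrib, prod_const]
  simp_rw [e1]
  rw [← prod_one_add, Lam_eq, mul_sum, Real.exp_sum]
  apply prod_le_prod (fun _ _ => by positivity)
  intro π _
  have := Real.add_one_le_exp (2 * (1 / ((nm π : ℝ) + 1)))
  rw [mul_one_div] at this ⊢
  linarith

/-- the mass of the exceptional objects -/
lemma exc_sum {A μ L1 L2 : ℝ} (H : Big v a0 a1 b R z X) (hA : 0 ≤ A)
    (hc : Conc v a1 b C0 z X A μ) (hL : Real.exp (2 * Lam (ww v) z) ≤ z)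
    (hL1 : Lam (z ^ (360 * a1 * b)) (z ^ (360 * a1 * b ^ 2)) ≤ L1)
    (hL2 : Lam (z ^ (30 * a1)) (z ^ (30 * a1 * b)) ≤ L2) {E : Finset Ob}
    (hE : ∀ o ∈ E, TypOb v a0 a1 b C0 R z X o ∧ Zs v a1 b z X o < μ) :
    ∑ o ∈ E, (2 : ℝ) ^ om (ww v) z o.b1 ≤
      (42 * R ^ 2 * A + 1 / v) * X * ((a0 + 2) * Real.log z) * L1 * L2 := by
  set G1 := GF (z ^ (360 * a1 * b)) (z ^ (360 * a1 * b ^ 2))
  set G2 := GF (z ^ (30 * a1)) (z ^ (30 * a1 * b))
  set B := (42 * R ^ 2 * A + 1 / v) * X * Real.exp (-2 * Lam (ww v) z) with hB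
  set N := ((a0 : ℝ) + 2) * Real.log z with hN
  have hX := H.X1
  have hB0 : 0 ≤ B := by positivity
  have hN0 : 0 ≤ N := by
    have := Real.log_nonneg H.one_le
    positivity
  let lb : Ob → Finset GI × GI × GI := fun o => (sm (ww v) z o.b1, o.r1, o.r2)
  have hmap : ∀ o ∈ E, lb o ∈ (GF (ww v) z).powerset ×ˢ G1 ×ˢ G2 := fun o ho =>
    mem_product.2 ⟨mem_powerset.2 (sm_subset _ _ _),
      mem_product.2 ⟨(hE o ho).1.hr1, (hE o ho).1.hr2⟩⟩
  rw [← sum_fiberwise_of_maps_to hmap]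
  have step : ∀ ℓ ∈ (GF (ww v) z).powerset ×ˢ G1 ×ˢ G2,
      ∑ o ∈ E with lb o = ℓ, (2 : ℝ) ^ om (ww v) z o.b1 ≤
        N * B * ((2 : ℝ) ^ ℓ.1.card / ∏ π ∈ ℓ.1, ((nm π : ℝ) + 1)) *
          ((1 / ((nm ℓ.2.1 : ℝ) + 1)) * (1 / ((nm ℓ.2.2 : ℝ) + 1))) := by
    rintro ⟨S, r1, r2⟩ -
    have e1 : ∑ o ∈ E with lb o = (S, r1, r2), (2 : ℝ) ^ om (ww v) z o.b1 =
        (E.filter fun o => lb o = (S, r1, r2)).card * (2 : ℝ) ^ S.card := by
      rw [← nsmul_eq_mul, ← sum_const]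
      refine sum_congr rfl fun o ho => ?_
      have := (mem_filter.1 ho).2
      simp only [lb, Prod.mk.injEq] at this
      rw [om, this.1]
    set E' := E.filter fun o => lb o = (S, r1, r2) with hE'
    have hE2 : ∀ o ∈ E', TypOb v a0 a1 b C0 R z X o ∧ Zs v a1 b z X o < μ ∧
        sm (ww v) z o.b1 = S ∧ o.r1 = r1 ∧ o.r2 = r2 := by
      intro o ho
      obtain ⟨h1, h2⟩ := mem_filter.1 ho
      simp only [lb, Prod.mk.injEq] at h2
      exact ⟨(hE o h1).1, (hE o h1).2, h2.1, h2.2.1, h2.2.2⟩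
    have hP : 0 < ∏ π ∈ S, ((nm π : ℝ) + 1) := prod_pos fun _ _ => by positivity
    have e2 : (E'.card : ℝ) ≤ N * (B /
        ((∏ π ∈ S, ((nm π : ℝ) + 1)) * ((nm r1 : ℝ) + 1) * ((nm r2 : ℝ) + 1))) := by
      rw [card_eq_sum_card_image jj E']
      push_cast
      calc ∑ j ∈ E'.image jj, ((E'.filter fun o => jj o = j).card : ℝ)
          ≤ ∑ j ∈ E'.image jj, B /
            ((∏ π ∈ S, ((nm π : ℝ) + 1)) * ((nm r1 : ℝ) + 1) * ((nm r2 : ℝ) + 1)) := by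
            refine sum_le_sum fun j _ => fiber H hA hc hL (j := j) fun o ho => ?_
            obtain ⟨h1, h2⟩ := mem_filter.1 ho
            obtain ⟨k1, k2, k3, k4, k5⟩ := hE2 o h1
            exact ⟨k1, k2, k3, k4, k5, h2⟩
        _ = (E'.image jj).card * (B /
            ((∏ π ∈ S, ((nm π : ℝ) + 1)) * ((nm r1 : ℝ) + 1) * ((nm r2 : ℝ) + 1))) := by
            rw [sum_const, nsmul_eq_mul]
        _ ≤ _ := mul_le_mul_of_nonneg_right
            (levels H (r2 := r2) fun o ho => ⟨(hE2 o ho).1, (hE2 o ho).2.2.2.2⟩) (by positivity)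
    rw [e1]
    calc (E'.card : ℝ) * 2 ^ S.card ≤ N * (B /
        ((∏ π ∈ S, ((nm π : ℝ) + 1)) * ((nm r1 : ℝ) + 1) * ((nm r2 : ℝ) + 1))) * 2 ^ S.card :=
          mul_le_mul_of_nonneg_right e2 (by positivity)
      _ = _ := by simp only; field_simp
  refine (sum_le_sum step).trans ?_
  have e3 : ∑ ℓ ∈ (GF (ww v) z).powerset ×ˢ G1 ×ˢ G2,
      N * B * ((2 : ℝ) ^ ℓ.1.card / ∏ π ∈ ℓ.1, ((nm π : ℝ) + 1)) *
          ((1 / ((nm ℓ.2.1 : ℝ) + 1)) * (1 / ((nm ℓ.2.2 : ℝ) + 1))) =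
      N * B * (∑ S ∈ (GF (ww v) z).powerset, (2 : ℝ) ^ S.card / ∏ π ∈ S, ((nm π : ℝ) + 1)) *
        ((∑ r ∈ G1, 1 / ((nm r : ℝ) + 1)) * ∑ r ∈ G2, 1 / ((nm r : ℝ) + 1)) := by
    rw [sum_mul_sum G1 G2, ← sum_product' G1 G2, mul_sum (GF (ww v) z).powerset, sum_mul_sum,
      ← sum_product']
  rw [e3, ← Lam_eq, ← Lam_eq]
  have s1 := sum_labels (ww v) z
  have n1 := Lam_nonneg (z ^ (360 * a1 * b)) (z ^ (360 * a1 * b ^ 2))
  have n2 := Lam_nonneg (z ^ (30 * a1)) (z ^ (30 * a1 * b))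
  calc N * B * (∑ S ∈ (GF (ww v) z).powerset, (2 : ℝ) ^ S.card / ∏ π ∈ S, ((nm π : ℝ) + 1)) *
        (Lam (z ^ (360 * a1 * b)) (z ^ (360 * a1 * b ^ 2)) * Lam (z ^ (30 * a1)) (z ^ (30 * a1 * b)))
      ≤ N * B * Real.exp (2 * Lam (ww v) z) * (L1 * L2) := by
        apply mul_le_mul (mul_le_mul_of_nonneg_left s1 (by positivity))
          (mul_le_mul hL1 hL2 n2 (by linarith)) (by positivity) (by positivity)
    _ = (42 * R ^ 2 * A + 1 / v) * X * N * L1 * L2 *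
          (Real.exp (-2 * Lam (ww v) z) * Real.exp (2 * Lam (ww v) z)) := by rw [hB]; ring
    _ = _ := by rw [← Real.exp_add]; simp

end NUa

end Pool.Agent.Lib.LQ
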