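import Pool.Agent.Lib.LQ.NUAux2

/-! Block NU, part 3: the squares through non-exceptional objects. -/

set_option autoImplicit false

open Finset
open scoped Classical

noncomputable section

namespace Pool.Agent.Lib.LQ

open Pool.Agent.Lib.MP_de94cf_nt (gg det inn)

namespace NUa

variable {v a0 a1 b : ℕ} {C0 R z X : ℝ} {o : Ob}

/-- the symmetric weights -/
def xs : Wt := ⟨2 / 3, 2 / 3, 2 / 3, 1 / 6, 1 / 6, 1 / 6⟩

def sqo (o : Ob) (t : Tt) : Sq := mkSq (o.r1 * o.r2) (o.b1, o.b2) t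

def TT (v a1 b : ℕ) (z X : ℝ) (o : Ob) : Finset Tt :=
  T1 v a1 (36 * a1 * b) (396 * a1 * b ^ 2) z (sm (ww v) z o.b1) (o.r1 * o.r2) (YY X (jj o))

def Cond (v a1 b : ℕ) (z : ℝ) (o : Ob) (t : Tt) : Prop :=
  star t.Q ∣ t.L3 (o.b1, o.b2) ∧ (sqo o t).Core v (3 * a1) (36 * a1 * b) (396 * a1 * b ^ 2) z ∧
    0.28 * Lam (ww v) z ≤ (om (ww v) z (sqo o t).a3 : ℝ) + om (ww v) z (sqo o t).a4

lemma lab3 (H : Big v a0 a1 b R z X) (h : TypOb v a0 a1 b C0 R z X o) :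
    Lab v (3 * a1) (396 * a1 * b ^ 2) z (sm (ww v) z o.b1) (o.r1 * o.r2) := by
  have l := (lab1 H h).lab
  exact ⟨l.sub, l.sf, l.rough, l.hiS.trans (H.mono (by omega)), l.hiρ⟩

lemma mem_TT {t : Tt} (ht : t ∈ TT v a1 b z X o) :
    Adm v (3 * a1) (36 * a1 * b) (396 * a1 * b ^ 2) z (sm (ww v) z o.b1) (o.r1 * o.r2) (WW v)
      (YY X (jj o)) 2 t ∧ t.q < t.p (o.r1 * o.r2) ∧
      0.14 * Lam (ww v) z ≤ (om (ww v) z t.Q : ℝ) := by
  have := (mem_filter.1 ht).2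
  exact ⟨this.1, this.2.1, this.2.2.2.1⟩

lemma mk_facts (hM : MKStmt) (H : Big v a0 a1 b R z X) (h : TypOb v a0 a1 b C0 R z X o) {t : Tt}
    (ht : t ∈ TT v a1 b z X o) (hc : Cond v a1 b z o t) :
    (sqo o t).Valid ∧ (sqo o t).n1 = inn o.b1 o.b2 ∧
    o.b1 = (sqo o t).a1 * (pr t.S2 * (pr t.S3 * (o.r1 * o.r2))) ∧
    sm (ww v) z (star (sqo o t).a2) = t.S2 ∧ sm (ww v) z (sqo o t).P = t.S3 ∧
    om (ww v) z (sqo o t).a1 + om (ww v) z (sqo o t).a2 + om (ww v) z (sqo o t).P =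
      om (ww v) z o.b1 := by
  have hz : 0 < z := by have := H.one_le; linarith
  obtain ⟨k1, k2, k3, -, -, k6, k7, k8⟩ := hM v (3 * a1) (36 * a1 * b) (396 * a1 * b ^ 2) z _ _ _ _ _
    t (o.b1, o.b2) hz (lab3 H h) (mem_TT ht).1 h.hdet rfl h.sm2 h.dv hc.1
  exact ⟨k1, k2, k3, k6, k7, k8 hc.2.1.sq6⟩

lemma W_eq (s : Sq) : s.W v z xs = (2 / 3) ^ (om (ww v) z s.a1 + om (ww v) z s.a2 + om (ww v) z s.P)
    * (1 / 6) ^ (om (ww v) z s.a3 + om (ww v) z s.a4 + om (ww v) z s.Q) := by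
  simp only [Sq.W, xs, pow_add]; ring

lemma W_nonneg (s : Sq) : 0 ≤ s.W v z xs := by rw [W_eq]; positivity

lemma Zs_eq (hM : MKStmt) (H : Big v a0 a1 b R z X) (h : TypOb v a0 a1 b C0 R z X o) :
    (2 : ℝ) ^ om (ww v) z o.b1 * Zs v a1 b z X o =
      ∑ t ∈ (TT v a1 b z X o).filter (Cond v a1 b z o), (sqo o t).W v z xs := by
  unfold Zs
  rw [mul_sum, sum_filter]
  refine sum_congr rfl fun t ht => ?_
  change _ * (ind (Cond v a1 b z o t) * (1 / 3) ^ om (ww v) z o.b1 * (1 / 6) ^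
    (om (ww v) z (sqo o t).a3 + om (ww v) z (sqo o t).a4 + om (ww v) z (sqo o t).Q)) = _
  split_ifs with hc
  · have k := (mk_facts hM H h ht hc).2.2.2.2.2
    rw [ind_true hc, W_eq, k]
    have : (2 / 3 : ℝ) = 2 * (1 / 3) := by norm_num
    rw [this, mul_pow]
    ring
  · rw [ind_false hc]; simp

lemma W_le (hM : MKStmt) (H : Big v a0 a1 b R z X) (h : TypOb v a0 a1 b C0 R z X o) {t : Tt}
    (ht : t ∈ TT v a1 b z X o) (hc : Cond v a1 b z o t) (hL : 20 * |C0| ≤ Lam (ww v) z) :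
    (sqo o t).W v z xs ≤ Real.exp (-(3 / 2) * Lam (ww v) z) := by
  have k := (mk_facts hM H h ht hc).2.2.2.2.2
  rw [W_eq, k]
  have k1 : 1.9 * Lam (ww v) z - C0 ≤ (om (ww v) z o.b1 : ℝ) := card_S h
  have k2 := hc.2.2
  have k3 : 0.14 * Lam (ww v) z ≤ (om (ww v) z (sqo o t).Q : ℝ) := (mem_TT ht).2.2
  have l2 := Real.log_two_gt_d9
  have l2' := Real.log_two_lt_d9
  have l3 := Real.log_three_gt_d9
  have e1 : (2 / 3 : ℝ) = Real.exp (Real.log 2 - Real.log 3) := by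
    rw [Real.exp_sub, Real.exp_log (by norm_num), Real.exp_log (by norm_num)]
  have e2 : (1 / 6 : ℝ) = Real.exp (-(Real.log 2 + Real.log 3)) := by
    rw [Real.exp_neg, Real.exp_add, Real.exp_log (by norm_num), Real.exp_log (by norm_num)]
    norm_num
  rw [e1, e2, ← Real.exp_nat_mul, ← Real.exp_nat_mul, ← Real.exp_add, Real.exp_le_exp]
  push_cast
  set m := (om (ww v) z o.b1 : ℝ)
  set m3 := (om (ww v) z (sqo o t).a3 : ℝ)
  set m4 := (om (ww v) z (sqo o t).a4 : ℝ)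
  set mQ := (om (ww v) z (sqo o t).Q : ℝ)
  have p0 : 0 ≤ m := by positivity
  have p1 : 0 ≤ m3 + m4 + mQ := by positivity
  have p2 : m * (Real.log 2 - Real.log 3) ≤ m * (-0.405) :=
    mul_le_mul_of_nonneg_left (by linarith) p0
  have p3 : (m3 + m4 + mQ) * -(Real.log 2 + Real.log 3) ≤ (m3 + m4 + mQ) * (-1.79) :=
    mul_le_mul_of_nonneg_left (by linarith) p1
  have p4 := le_abs_self C0
  have p5 := abs_nonneg C0
  linarith

lemma size_sqo (hM : MKStmt) (H : Big v a0 a1 b R z X) (h : TypOb v a0 a1 b C0 R z X o) {t : Tt}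
    (ht : t ∈ TT v a1 b z X o) (hc : Cond v a1 b z o t) :
    0 < (sqo o t).n1 ∧ (sqo o t).Size (32 * R ^ 4) X := by
  have k := (mk_facts hM H h ht hc).2.1
  have hX := H.X1
  have hR := H.R2
  have hR4 := H.R4
  have t1 := h.lon
  have t2 := h.hin
  have t3 : 0 < X / (2 * R ^ 2) := by positivity
  have t4 : (0 : ℝ) < (inn o.b1 o.b2 : ℝ) := by linarith
  obtain ⟨b1, b2⟩ := b2_bounds H h
  have c1 := (mem_TT ht).1.loc
  have c2 := (mem_TT ht).1.hic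
  have e : (((sqo o t).y : ℤ) : ℝ) * nm (sqo o t).a2 = (t.c : ℝ) * nm o.b2 := by
    simp only [sqo, mkSq, Tt.c, nm_mul, nm_star]; push_cast; ring
  have n0 : (0 : ℝ) ≤ nm o.b2 := by positivity
  have e2 : YY X (jj o) * nm o.b2 = ((2 : ℝ) ^ jj o) ^ 2 * nm o.b2 / X := by unfold YY; ring
  refine ⟨by rw [k]; exact_mod_cast t4, ?_, ?_, ?_, ?_⟩
  · rw [k, abs_of_pos t4]
    refine le_trans ?_ t1
    exact div_le_div_of_nonneg_left (by linarith) (by positivity) (by linarith)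
  · rw [k, abs_of_pos t4]
    nlinarith
  · rw [e]
    calc X / (32 * R ^ 4) = X ^ 2 / (32 * R ^ 4) / X := by field_simp
      _ ≤ YY X (jj o) * nm o.b2 := by rw [e2]; gcongr
      _ ≤ _ := mul_le_mul_of_nonneg_right c1 n0
  · rw [e]
    calc (t.c : ℝ) * nm o.b2 ≤ 2 * YY X (jj o) * nm o.b2 := mul_le_mul_of_nonneg_right c2 n0
      _ = 2 * (((2 : ℝ) ^ jj o) ^ 2 * nm o.b2 / X) := by rw [mul_assoc, e2]
      _ ≤ 2 * (2 * R ^ 4 * X ^ 2 / X) := by gcongr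
      _ = 4 * R ^ 4 * X := by field_simp; ring
      _ ≤ _ := by
          have : 0 ≤ R ^ 4 * X := by positivity
          nlinarith

lemma sqo_inj (hM : MKStmt) (H : Big v a0 a1 b R z X) {o o' : Ob} {t t' : Tt}
    (h : TypOb v a0 a1 b C0 R z X o) (ht : t ∈ TT v a1 b z X o) (hc : Cond v a1 b z o t)
    (h' : TypOb v a0 a1 b C0 R z X o') (ht' : t' ∈ TT v a1 b z X o') (hc' : Cond v a1 b z o' t')
    (e : sqo o t = sqo o' t') : o = o' ∧ t = t' := by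
  obtain ⟨-, -, k3, k4, k5, -⟩ := mk_facts hM H h ht hc
  obtain ⟨-, -, k3', k4', k5', -⟩ := mk_facts hM H h' ht' hc'
  rw [e] at k3 k4 k5
  have e2 : t.S2 = t'.S2 := k4.symm.trans k4'
  have e3 : t.S3 = t'.S3 := k5.symm.trans k5'
  have ey : t.y = t'.y := by
    have := congrArg Sq.y e
    simp only [sqo, mkSq] at this
    exact_mod_cast this
  have eQ : t.Q = t'.Q := congrArg Sq.Q e
  have et : t = t' := Tt.ext e2 e3 ey eQ
  subst et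
  have n2 : pr t.S2 ≠ 0 := pr_ne_zero ((mem_TT ht).1.sub2.trans (sm_subset _ _ _))
  have n3 : pr t.S3 ≠ 0 := pr_ne_zero ((mem_TT ht).1.sub3.trans (sm_subset _ _ _))
  have eρ : o.r1 * o.r2 = o'.r1 * o'.r2 := mul_left_cancel₀ n3 (congrArg Sq.P e)
  have eb1 : o.b1 = o'.b1 := by rw [k3, k3', eρ, ← k3']
  have eb2 : o.b2 = o'.b2 := mul_left_cancel₀ (star_ne_zero.2 n2) (congrArg Sq.a2 e)
  have er1 : o.r1 = o'.r1 := by
    have d : o.r1 ∣ o'.r1 * o'.r2 := ⟨o.r2, eρ.symm⟩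
    rcases (GF_prime h.hr1).dvd_or_dvd d with d | d
    · exact GF_eq_of_dvd h.hr1 h'.hr1 d
    · exfalso
      have e' := GF_eq_of_dvd h.hr1 h'.hr2 d
      have u1 := (r1_facts h).2.1
      have u2 := (r2_facts h').2.2
      rw [← e'] at u2
      have : z ^ (30 * a1 * b) ≤ z ^ (360 * a1 * b) := H.mono (by nlinarith)
      linarith
  have er2 : o.r2 = o'.r2 := by
    rw [← er1] at eρ
    exact mul_left_cancel₀ (GF_prime h.hr1).ne_zero eρ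
  exact ⟨Ob.ext eb1 eb2 er1 er2, rfl⟩

lemma mem_BadN {σ : ℤ} {C : ℝ} {s : Sq} (h : s.Size C X) (hf : ff s.n1.natAbs ≠ σ) :
    s.n1.natAbs ∈ BadN σ X C := by
  have e : ((s.n1.natAbs : ℕ) : ℝ) = |(s.n1 : ℝ)| := by
    rw [Nat.cast_natAbs]; push_cast; rfl
  refine mem_filter.2 ⟨mem_range.2 (Nat.lt_succ_of_le (Nat.le_floor ?_)), ?_, hf⟩
  · rw [e]; exact h.hin
  · rw [e]; exact h.lon

/-- the bound of the other views at fixed global parameters -/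
def Views (v a e f : ℕ) (z X C2 U : ℝ) (B : Finset ℕ) : Prop :=
  ∀ (x : Wt) (F : Finset Sq), x.OK → x.x3 + x.x4 + x.xQ = 3 / 2 →
    (∀ s ∈ F, s.Valid ∧ s.Core v a e f z ∧ s.Size C2 X ∧ s.n1.natAbs ∈ B ∧
      s.W v z x ≤ Real.exp (-(3 / 2) * Lam (ww v) z)) → ∑ s ∈ F, s.W v z x ≤ U

lemma one_view {a e f : ℕ} {C2 U : ℝ} {σ : ℤ} (hU : Views v a e f z X C2 U (BadN σ X C2))
    (φ : Sq → Sq) (hφ : Function.Injective φ) (x : Wt) (hx : x.OK)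
    (hx2 : x.x3 + x.x4 + x.xQ = 3 / 2) (hW : ∀ s, (φ s).W v z x = s.W v z xs) {F : Finset Sq}
    (hF : ∀ s ∈ F, (φ s).Valid ∧ (φ s).Core v a e f z ∧ (φ s).Size C2 X ∧
      s.W v z xs ≤ Real.exp (-(3 / 2) * Lam (ww v) z)) :
    ∑ s ∈ F, s.W v z xs * ind (ff (φ s).n1.natAbs ≠ σ) ≤ U := by
  have k := hU x ((F.filter fun s => ff (φ s).n1.natAbs ≠ σ).image φ) hx hx2 (by
    intro s' hs'
    obtain ⟨s, hs, rfl⟩ := mem_image.1 hs'
    obtain ⟨h1, h2⟩ := mem_filter.1 hs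
    obtain ⟨k1, k2, k3, k4⟩ := hF s h1
    exact ⟨k1, k2, k3, mem_BadN k3 h2, by rw [hW]; exact k4⟩)
  rw [sum_image (fun _ _ _ _ e => hφ e), sum_filter] at k
  refine le_trans (le_of_eq (sum_congr rfl fun s _ => ?_)) k
  rw [hW]
  unfold ind
  split_ifs <;> simp

/-- the mass of the non-exceptional objects -/
lemma good_sum {C2 U μ : ℝ} {σ : ℤ} (hM : MKStmt) (hV : VWStmt) (H : Big v a0 a1 b R z X)
    (hσ : σ = 1 ∨ σ = -1) (hL : 20 * |C0| ≤ Lam (ww v) z)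
    (hC2 : ∀ s : Sq, s.Valid → 0 < s.n1 → 0 < s.y → nm s.Q < nm s.P → nm s.P ≤ 2 * nm s.Q →
      s.Size (32 * R ^ 4) X → s.v2.Size C2 X ∧ s.v3.Size C2 X ∧ s.v4.Size C2 X)
    (hU : Views v (3 * a1) (36 * a1 * b) (396 * a1 * b ^ 2) z X C2 U (BadN σ X C2))
    {E : Finset Ob}
    (hE : ∀ o ∈ E, TypOb v a0 a1 b C0 R z X o ∧ gg o.b1 * gg o.b2 ≠ σ ∧ μ ≤ Zs v a1 b z X o) :
    (∑ o ∈ E, (2 : ℝ) ^ om (ww v) z o.b1) * μ ≤ 3 * U := by
  obtain ⟨V1, V2, V3, ⟨I2, I3, I4⟩, -⟩ := hV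
  set Pr := E.sigma fun o => (TT v a1 b z X o).filter (Cond v a1 b z o) with hPr
  have hP : ∀ p ∈ Pr, TypOb v a0 a1 b C0 R z X p.1 ∧ gg p.1.b1 * gg p.1.b2 ≠ σ ∧
      p.2 ∈ TT v a1 b z X p.1 ∧ Cond v a1 b z p.1 p.2 := by
    intro p hp
    obtain ⟨h1, h2⟩ := mem_sigma.1 hp
    obtain ⟨h3, h4⟩ := mem_filter.1 h2
    exact ⟨(hE _ h1).1, (hE _ h1).2.1, h3, h4⟩
  set F := Pr.image fun p => sqo p.1 p.2 with hF
  have s1 : (∑ o ∈ E, (2 : ℝ) ^ om (ww v) z o.b1) * μ ≤ ∑ s ∈ F, s.W v z xs := by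
    rw [hF, sum_image, hPr, sum_sigma, sum_mul]
    · refine sum_le_sum fun o ho => ?_
      rw [← Zs_eq hM H (hE o ho).1]
      exact mul_le_mul_of_nonneg_left (hE o ho).2.2 (by positivity)
    · intro p hp p' hp' e
      obtain ⟨k1, -, k2, k3⟩ := hP p hp
      obtain ⟨k1', -, k2', k3'⟩ := hP p' hp'
      obtain ⟨e1, e2⟩ := sqo_inj hM H k1 k2 k3 k1' k2' k3' e
      exact Sigma.ext e1 (heq_of_eq e2)
  have hs : ∀ s ∈ F, (s.v2.Valid ∧ s.v3.Valid ∧ s.v4.Valid) ∧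
      (s.v2.Core v (3 * a1) (36 * a1 * b) (396 * a1 * b ^ 2) z ∧
        s.v3.Core v (3 * a1) (36 * a1 * b) (396 * a1 * b ^ 2) z ∧
        s.v4.Core v (3 * a1) (36 * a1 * b) (396 * a1 * b ^ 2) z) ∧
      (s.v2.Size C2 X ∧ s.v3.Size C2 X ∧ s.v4.Size C2 X) ∧
      s.W v z xs ≤ Real.exp (-(3 / 2) * Lam (ww v) z) ∧
      (ff s.v2.n1.natAbs ≠ σ ∨ ff s.v3.n1.natAbs ≠ σ ∨ ff s.v4.n1.natAbs ≠ σ) := by
    intro s hs
    obtain ⟨p, hp, rfl⟩ := mem_image.1 hs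
    obtain ⟨k1, k0, k2, k3⟩ := hP p hp
    obtain ⟨m1, m2, -⟩ := mk_facts hM H k1 k2 k3
    obtain ⟨z1, z2⟩ := size_sqo hM H k1 k2 k3
    have hc := k3.2.1
    have hP0 : (sqo p.1 p.2).P ≠ 0 := fun e => hc.sfP.ne_zero (nm_eq_zero.2 e)
    obtain ⟨w2, w3, w4, w5⟩ := V1 _ m1 hP0
    refine ⟨⟨w2, w3, w4⟩, V2 _ _ _ _ _ _ hc, hC2 _ m1 z1 hc.ypos (mem_TT k2).2.1 hc.PQ z2,
      W_le hM H k1 k2 k3 hL, ?_⟩
    by_contra hn
    push Not at hn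
    obtain ⟨q2, q3, q4⟩ := hn
    rw [q2, q3, q4, m2, ff_eq k1.hdet] at w5
    apply k0
    rcases hσ with rfl | rfl <;> linarith
  have s2 := one_view hU Sq.v2 I2 ⟨1 / 6, 2 / 3, 1 / 6, 2 / 3, 1 / 6, 2 / 3⟩
    (by constructor <;> norm_num) (by norm_num) (fun s => (V3 v z s).1) (F := F)
    fun s h => ⟨(hs s h).1.1, (hs s h).2.1.1, (hs s h).2.2.1.1, (hs s h).2.2.2.1⟩
  have s3 := one_view hU Sq.v3 I3 ⟨1 / 6, 1 / 6, 2 / 3, 2 / 3, 2 / 3, 1 / 6⟩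
    (by constructor <;> norm_num) (by norm_num) (fun s => (V3 v z s).2.1) (F := F)
    fun s h => ⟨(hs s h).1.2.1, (hs s h).2.1.2.1, (hs s h).2.2.1.2.1, (hs s h).2.2.2.1⟩
  have s4 := one_view hU Sq.v4 I4 ⟨2 / 3, 1 / 6, 1 / 6, 1 / 6, 2 / 3, 2 / 3⟩
    (by constructor <;> norm_num) (by norm_num) (fun s => (V3 v z s).2.2) (F := F)
    fun s h => ⟨(hs s h).1.2.2, (hs s h).2.1.2.2, (hs s h).2.2.1.2.2, (hs s h).2.2.2.1⟩
  have s5 : ∑ s ∈ F, s.W v z xs ≤ ∑ s ∈ F, (s.W v z xs * ind (ff s.v2.n1.natAbs ≠ σ) +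
      s.W v z xs * ind (ff s.v3.n1.natAbs ≠ σ) + s.W v z xs * ind (ff s.v4.n1.natAbs ≠ σ)) := by
    refine sum_le_sum fun s h => ?_
    have w0 : 0 ≤ s.W v z xs := W_nonneg s
    have i2 := mul_nonneg w0 (ind_nonneg (ff s.v2.n1.natAbs ≠ σ))
    have i3 := mul_nonneg w0 (ind_nonneg (ff s.v3.n1.natAbs ≠ σ))
    have i4 := mul_nonneg w0 (ind_nonneg (ff s.v4.n1.natAbs ≠ σ))
    rcases (hs s h).2.2.2.2 with q | q | q <;> rw [ind_true q] at * <;> linarith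
  rw [sum_add_distrib, sum_add_distrib] at s5
  linarith

end NUa

end Pool.Agent.Lib.LQ
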