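import Pool.Agent.Lib.LQ.Basic

set_option autoImplicit false

open Finset
open scoped Classical

noncomputable section

namespace Pool.Agent.Lib.LQ

namespace SL

/-- pairwise congruent numbers in a short interval -/
lemma card_cong {A : Finset ℕ} {m : ℕ} {N : ℝ} (hm : 0 < m) (hN : 0 ≤ N)
    (h1 : ∀ x ∈ A, ∀ x' ∈ A, (x : ℝ) - x' ≤ N) (h2 : ∀ x ∈ A, ∀ x' ∈ A, (m : ℤ) ∣ (x : ℤ) - x') :
    (A.card : ℝ) ≤ N / m + 1 := by
  have hm' : (0 : ℝ) < m := by exact_mod_cast hm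
  rcases A.eq_empty_or_nonempty with rfl | hA
  · simp only [card_empty, Nat.cast_zero]; positivity
  have ha := A.min'_mem hA
  set a := A.min' hA
  have key : ∀ x ∈ A, x = a + m * ((x - a) / m) := by
    intro x hx
    have hle : a ≤ x := A.min'_le x hx
    have : m ∣ x - a := by
      have := h2 x hx a ha
      rw [← Nat.cast_sub hle] at this
      exact_mod_cast this
    rw [Nat.mul_div_cancel' this]; omega
  have : A.card ≤ (range (⌊N / m⌋₊ + 1)).card := by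
    refine card_le_card_of_injOn (fun x => (x - a) / m) (fun x hx => ?_) (fun x hx y hy e => ?_)
    · have hx : x ∈ A := hx
      simp only [coe_range, Set.mem_Iio, Nat.lt_succ_iff]
      refine Nat.le_floor ?_
      rw [le_div_iff₀ hm']
      have h3 := h1 x hx a ha
      have h4 : (x : ℝ) = a + m * ((x - a) / m : ℕ) := by exact_mod_cast key x hx
      linarith
    · rw [key x hx, key y hy]
      simp only at e
      rw [e]
  rw [card_range] at this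
  have h5 : (A.card : ℝ) ≤ ⌊N / m⌋₊ + 1 := by exact_mod_cast this
  linarith [Nat.floor_le (div_nonneg hN hm'.le)]

lemma sum_inv_sqrt (n : ℕ) : ∑ l ∈ range (n + 1), 1 / Real.sqrt l ≤ 2 * Real.sqrt n := by
  induction n with
  | zero => simp
  | succ n ih =>
    rw [sum_range_succ]
    have h1 : 0 < Real.sqrt ((n + 1 : ℕ) : ℝ) := Real.sqrt_pos.2 (by positivity)
    have h2 := Real.sq_sqrt (show (0 : ℝ) ≤ ((n + 1 : ℕ) : ℝ) by positivity)
    have h3 := Real.sq_sqrt (show (0 : ℝ) ≤ (n : ℝ) by positivity)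
    have h4 := Real.sqrt_nonneg (n : ℝ)
    have : 1 / Real.sqrt ((n + 1 : ℕ) : ℝ) ≤
        2 * Real.sqrt ((n + 1 : ℕ) : ℝ) - 2 * Real.sqrt n := by
      rw [div_le_iff₀ h1]
      push_cast at h2 h1 ⊢
      nlinarith [sq_nonneg (Real.sqrt ((n : ℝ) + 1) - Real.sqrt n)]
    linarith

lemma sum_inv_sqrt_le {L : Finset ℕ} {X : ℝ} (hX : 0 ≤ X) (h : ∀ l ∈ L, (l : ℝ) ≤ X) :
    ∑ l ∈ L, 1 / Real.sqrt l ≤ 2 * Real.sqrt X := by
  calc ∑ l ∈ L, 1 / Real.sqrt l ≤ ∑ l ∈ range (⌊X⌋₊ + 1), 1 / Real.sqrt l := by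
        refine sum_le_sum_of_subset_of_nonneg (fun l hl => ?_) fun _ _ _ => by positivity
        exact mem_range.2 (Nat.lt_succ_of_le (Nat.le_floor (h l hl)))
    _ ≤ 2 * Real.sqrt ⌊X⌋₊ := sum_inv_sqrt _
    _ ≤ _ := by gcongr; exact Nat.floor_le hX

/-- badness of the number `x` at the prime `l` -/
def bad (n0 : ℕ) (c : ℤ) (V : ℝ) (l x : ℕ) : ℝ :=
  ind (l ^ 2 ∣ x) + ind (l ∣ n0) * ind (l ∣ x) +
    V * (ind (l ∣ x) + ind ((l : ℤ) ∣ (x : ℤ) - c)) / Real.sqrt l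

lemma bad_nonneg (n0 : ℕ) (c : ℤ) {V : ℝ} (hV : 0 ≤ V) (l x : ℕ) : 0 ≤ bad n0 c V l x := by
  have := ind_nonneg (l ^ 2 ∣ x)
  have := ind_nonneg (l ∣ n0)
  have := ind_nonneg (l ∣ x)
  have := ind_nonneg ((l : ℤ) ∣ (x : ℤ) - c)
  unfold bad; positivity

lemma sum_le_sg {L : Finset ℕ} {n : ℕ} (hn : n ≠ 0) (hL : ∀ l ∈ L, l.Prime) :
    ∑ l ∈ L, ind (l ∣ n) / Real.sqrt l ≤ sg n := by
  calc ∑ l ∈ L, ind (l ∣ n) / Real.sqrt l = ∑ l ∈ L.filter (· ∣ n), 1 / Real.sqrt l := by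
        rw [sum_filter]
        refine sum_congr rfl fun l _ => ?_
        unfold ind; split_ifs <;> simp
    _ ≤ sg n := by
        refine sum_le_sum_of_subset_of_nonneg (fun l hl => ?_) fun _ _ _ => by positivity
        rw [mem_filter] at hl
        exact Nat.mem_primeFactors.2 ⟨hL l hl.1, hl.2, hn⟩

lemma bad_count {A L : Finset ℕ} {M n0 : ℕ} {N X w0 V : ℝ} (c : ℤ) (hM : 0 < M) (hN : 0 ≤ N)
    (hX : 1 ≤ X) (hw : 1 ≤ w0) (hV : 0 ≤ V) (hn0 : n0 ≠ 0) (hsg : sg n0 ≤ 1)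
    (h0 : ∀ x ∈ A, 0 < x ∧ (x : ℝ) ≤ X)
    (h1 : ∀ x ∈ A, ∀ x' ∈ A, (x : ℝ) - x' ≤ N) (h2 : ∀ x ∈ A, ∀ x' ∈ A, (M : ℤ) ∣ (x : ℤ) - x')
    (hL : ∀ l ∈ L, l.Prime ∧ ¬ l ∣ M ∧ w0 < (l : ℝ) ∧ (l : ℝ) ≤ X) :
    ∑ x ∈ A, ∑ l ∈ L, bad n0 c V l x ≤
      N / M * (3 + 8 * V) / Real.sqrt w0 + (3 + 4 * V) * Real.sqrt X := by
  have hM' : (0 : ℝ) < M := by exact_mod_cast hM
  have hsw : 1 ≤ Real.sqrt w0 := Real.one_le_sqrt.2 hw
  have hsX : 1 ≤ Real.sqrt X := Real.one_le_sqrt.2 hX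
  have hNM : 0 ≤ N / M := by positivity
  have cnt : ∀ l ∈ L, ∀ (j : ℕ) (P : ℕ → Prop),
      (∀ x x', P x → P x' → ((l ^ j : ℕ) : ℤ) ∣ (x : ℤ) - x') →
      ∑ x ∈ A, ind (P x) ≤ N / M / (l : ℝ) ^ j + 1 := by
    intro l hl j P hP
    obtain ⟨hp, hlM, -, -⟩ := hL l hl
    rw [sum_ind]
    have hc : Nat.Coprime M (l ^ j) := ((Nat.Prime.coprime_iff_not_dvd hp).2 hlM).symm.pow_right j
    have := card_cong (A := A.filter P) (m := M * l ^ j) (N := N)
      (Nat.mul_pos hM (pow_pos hp.pos j)) hN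
      (fun x hx x' hx' => h1 x (mem_filter.1 hx).1 x' (mem_filter.1 hx').1) (fun x hx x' hx' => by
        rw [Nat.cast_mul]
        exact (Nat.isCoprime_iff_coprime.2 hc).mul_dvd
          (h2 x (mem_filter.1 hx).1 x' (mem_filter.1 hx').1)
          (hP x x' (mem_filter.1 hx).2 (mem_filter.1 hx').2))
    convert this using 2
    push_cast; rw [div_div]
  have key : ∀ l ∈ L, ∑ x ∈ A, bad n0 c V l x ≤
      N / M * (1 / (l : ℝ) ^ 2) + ind ((l : ℝ) ≤ Real.sqrt X) +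
        (N / M / Real.sqrt w0 + Real.sqrt X) * (ind (l ∣ n0) / Real.sqrt l) +
        2 * V * (N / M) * (1 / (l * Real.sqrt l)) + 2 * V * (1 / Real.sqrt l) := by
    intro l hl
    obtain ⟨hp, hlM, hlw, hlX⟩ := hL l hl
    have hl0 : (0 : ℝ) < l := by exact_mod_cast hp.pos
    have hs0 : 0 < Real.sqrt l := Real.sqrt_pos.2 hl0
    have hss := Real.mul_self_sqrt hl0.le
    have a1 : ∑ x ∈ A, ind (l ^ 2 ∣ x) ≤
        N / M * (1 / (l : ℝ) ^ 2) + ind ((l : ℝ) ≤ Real.sqrt X) := by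
      by_cases h : (l : ℝ) ≤ Real.sqrt X
      · rw [ind_true h, mul_one_div]
        refine cnt l hl 2 _ fun x x' hx hx' => ?_
        exact dvd_sub (by exact_mod_cast hx) (by exact_mod_cast hx')
      · rw [ind_false h, sum_eq_zero]
        · positivity
        intro x hx
        refine ind_false fun hd => h ?_
        have h3 : ((l ^ 2 : ℕ) : ℝ) ≤ x := by exact_mod_cast Nat.le_of_dvd (h0 x hx).1 hd
        refine Real.le_sqrt_of_sq_le ?_
        push_cast at h3; linarith [(h0 x hx).2]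
    have a2 : ∑ x ∈ A, ind (l ∣ x) ≤ N / M / l + 1 := by
      have := cnt l hl 1 (fun x => l ∣ x) fun x x' hx hx' => by
        rw [pow_one]; exact dvd_sub (by exact_mod_cast hx) (by exact_mod_cast hx')
      rwa [pow_one] at this
    have a3 : ∑ x ∈ A, ind ((l : ℤ) ∣ (x : ℤ) - c) ≤ N / M / l + 1 := by
      have := cnt l hl 1 (fun x => (l : ℤ) ∣ (x : ℤ) - c) fun x x' hx hx' => by
        rw [pow_one]; have := dvd_sub hx hx'; rwa [sub_sub_sub_cancel_right] at this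
      rwa [pow_one] at this
    have a4 : N / M / l + 1 ≤ (N / M / Real.sqrt w0 + Real.sqrt X) / Real.sqrt l := by
      rw [add_div, div_div (N / M)]
      gcongr
      · calc Real.sqrt w0 * Real.sqrt l ≤ Real.sqrt l * Real.sqrt l := by gcongr
          _ = l := hss
      · rw [le_div_iff₀ hs0, one_mul]; gcongr
    have e : ∑ x ∈ A, bad n0 c V l x = ∑ x ∈ A, ind (l ^ 2 ∣ x) +
        ind (l ∣ n0) * ∑ x ∈ A, ind (l ∣ x) +
        V / Real.sqrt l * (∑ x ∈ A, ind (l ∣ x) + ∑ x ∈ A, ind ((l : ℤ) ∣ (x : ℤ) - c)) := by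
      simp only [bad, sum_add_distrib, mul_sum, ← sum_add_distrib]
      exact sum_congr rfl fun x _ => by ring
    rw [e]
    have b1 := mul_le_mul_of_nonneg_left (a2.trans a4) (ind_nonneg (l ∣ n0))
    have b2 := mul_le_mul_of_nonneg_left (add_le_add a2 a3) (show 0 ≤ V / Real.sqrt l by positivity)
    have e1 : ind (l ∣ n0) * ((N / M / Real.sqrt w0 + Real.sqrt X) / Real.sqrt l) =
        (N / M / Real.sqrt w0 + Real.sqrt X) * (ind (l ∣ n0) / Real.sqrt l) := by ring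
    have e2 : V / Real.sqrt l * (N / M / l + 1 + (N / M / l + 1)) =
        2 * V * (N / M) * (1 / (l * Real.sqrt l)) + 2 * V * (1 / Real.sqrt l) := by
      field_simp; ring
    linarith
  rw [sum_comm]
  refine (sum_le_sum key).trans ?_
  simp only [sum_add_distrib, ← mul_sum]
  have s1 := sum_inv_sq_tail hw (S := L) fun l hl => (hL l hl).2.2.1
  have s2 := sum_inv_sqrt_tail hw (S := L) fun l hl => (hL l hl).2.2.1
  have s3 := (sum_le_sg hn0 (L := L) fun l hl => (hL l hl).1).trans hsg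
  have s4 := sum_inv_sqrt_le (L := L) (by linarith : 0 ≤ X) fun l hl => (hL l hl).2.2.2
  have s5 : ∑ l ∈ L, ind ((l : ℝ) ≤ Real.sqrt X) ≤ 2 * Real.sqrt X := by
    rw [sum_ind]
    have : (L.filter fun l : ℕ => (l : ℝ) ≤ Real.sqrt X).card ≤ (range (⌊Real.sqrt X⌋₊ + 1)).card :=
      card_le_card fun l hl => mem_range.2 (Nat.lt_succ_of_le (Nat.le_floor (mem_filter.1 hl).2))
    rw [card_range] at this
    have h6 : ((L.filter fun l : ℕ => (l : ℝ) ≤ Real.sqrt X).card : ℝ) ≤ ⌊Real.sqrt X⌋₊ + 1 := by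
      exact_mod_cast this
    linarith [Nat.floor_le (Real.sqrt_nonneg X)]
  have s6 : 2 / w0 ≤ 2 / Real.sqrt w0 := by
    gcongr
    nlinarith [Real.mul_self_sqrt (by linarith : 0 ≤ w0)]
  have t1 := mul_le_mul_of_nonneg_left (s1.trans s6) hNM
  have t2 := mul_le_mul_of_nonneg_left s2 (show 0 ≤ 2 * V * (N / M) by positivity)
  have t3 := mul_le_mul_of_nonneg_left s3
    (show 0 ≤ N / M / Real.sqrt w0 + Real.sqrt X by positivity)
  have t4 := mul_le_mul_of_nonneg_left s4 (show 0 ≤ 2 * V by positivity)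
  have e : N / M * (3 + 8 * V) / Real.sqrt w0 = N / M * (2 / Real.sqrt w0) +
      2 * V * (N / M) * (4 / Real.sqrt w0) + N / M / Real.sqrt w0 := by ring
  rw [e]
  linarith

/-- consequences of small badness -/
lemma of_bad {L : Finset ℕ} {n0 x : ℕ} {c : ℤ} {V : ℝ} (hV : 0 ≤ V)
    (h : ∑ l ∈ L, bad n0 c V l x < 1) :
    (∀ l ∈ L, ¬ l ^ 2 ∣ x) ∧ (∀ l ∈ L, l ∣ n0 → ¬ l ∣ x) := by
  have key : ∀ l ∈ L, bad n0 c V l x < 1 := fun l hl =>
    (single_le_sum (f := fun l => bad n0 c V l x) (fun l _ => bad_nonneg n0 c hV l x) hl).trans_lt h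
  have nn : ∀ l : ℕ, 0 ≤ V * (ind (l ∣ x) + ind ((l : ℤ) ∣ (x : ℤ) - c)) / Real.sqrt l := fun l => by
    have := ind_nonneg (l ∣ x)
    have := ind_nonneg ((l : ℤ) ∣ (x : ℤ) - c)
    positivity
  constructor
  · intro l hl hd
    have h1 := key l hl
    have := mul_nonneg (ind_nonneg (l ∣ n0)) (ind_nonneg (l ∣ x))
    rw [bad, ind_true hd] at h1
    linarith [nn l]
  · intro l hl hd hd'
    have h1 := key l hl
    have h2 := nn l
    rw [bad, ind_true hd] at h1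
    have h3 := ind_true hd'
    linarith [ind_nonneg (l ^ 2 ∣ x)]

lemma le_bad (n0 x : ℕ) (c : ℤ) (V : ℝ) (l : ℕ) :
    V * (ind (l ∣ x) + ind ((l : ℤ) ∣ (x : ℤ) - c)) / Real.sqrt l ≤ bad n0 c V l x := by
  have := mul_nonneg (ind_nonneg (l ∣ n0)) (ind_nonneg (l ∣ x))
  rw [bad]
  linarith [ind_nonneg (l ^ 2 ∣ x)]

lemma sqfree_of {x : ℕ} (h : ∀ l : ℕ, l.Prime → l ∣ x → ¬ l ^ 2 ∣ x) : Squarefree x := by
  rw [Nat.squarefree_iff_prime_squarefree]
  intro l hl hd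
  exact h l hl (dvd_trans (dvd_mul_right l l) hd) (by rwa [sq])

lemma big_of_mod {v y l : ℕ} (hy : y ≡ 1 [MOD WW v]) (hl : l.Prime) (hd : l ∣ y) :
    ww v < (l : ℝ) := by
  by_contra h
  have h1 : l ≤ v ^ 4 := by
    have : (l : ℝ) ≤ (v : ℝ) ^ 4 := not_lt.1 h
    exact_mod_cast this
  have h2 : y ≡ 1 [MOD l] := hy.of_dvd (hl.dvd_primorial_iff.2 h1)
  have h3 : (0 : ℕ) ≡ 1 [MOD l] := ((Nat.modEq_zero_iff_dvd.2 hd).symm).trans h2
  exact hl.one_lt.ne' (Nat.dvd_one.1 ((Nat.modEq_iff_dvd' zero_le_one).1 h3))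

lemma not_dvd_WW {v l : ℕ} (hl : l.Prime) (h : ww v < (l : ℝ)) : ¬ l ∣ WW v := fun hd => by
  have h1 : l ≤ v ^ 4 := hl.dvd_primorial_iff.1 hd
  have : (l : ℝ) ≤ (v : ℝ) ^ 4 := by exact_mod_cast h1
  exact absurd h (not_lt.2 this)

lemma sqrt_ww (v : ℕ) : Real.sqrt (ww v) = (v : ℝ) ^ 2 := by
  rw [ww, show (v : ℝ) ^ 4 = ((v : ℝ) ^ 2) ^ 2 by ring, Real.sqrt_sq (by positivity)]

/-- many admissible values of `y` -/
lemma exists_ys {v n0 : ℕ} {Y : ℝ} (hv : 100 ≤ v) (hn0 : n0 ≠ 0) (hsg : sg n0 ≤ 1)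
    (hY : (100 * v * WW v : ℝ) ^ 2 ≤ Y) : ∃ A : Finset ℕ, Y / (2 * WW v) ≤ A.card ∧ ∀ y ∈ A,
      Y ≤ y ∧ (y : ℝ) ≤ 2 * Y ∧ Squarefree y ∧ y ≡ 1 [MOD WW v] ∧ sg y ≤ 1 / (2 * v) ∧
        Nat.Coprime y n0 := by
  have hW : 0 < WW v := primorial_pos _
  have hW' : (1 : ℝ) ≤ WW v := by exact_mod_cast hW
  have hv' : (100 : ℝ) ≤ v := by exact_mod_cast hv
  have hsY : 100 * v * WW v ≤ Real.sqrt Y := Real.le_sqrt_of_sq_le hY
  have hs1 : (10000 : ℝ) ≤ 100 * v * WW v := by nlinarith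
  have hY1 : 1 ≤ Y := by nlinarith
  have hYY := Real.mul_self_sqrt (by linarith : 0 ≤ Y)
  set n := ⌊(Y - 1) / WW v⌋₊
  set J := ⌈Y / WW v⌉₊
  let A0 := (Ico J (J + n)).image fun j => 1 + WW v * j
  have hc : A0.card = n := by
    rw [card_image_of_injective _ fun a b h => by simpa [hW.ne'] using h]; simp
  have hJ1 : Y ≤ WW v * J := by
    have := Nat.le_ceil (Y / WW v)
    rwa [div_le_iff₀' (by linarith)] at this
  have hJ2 : (WW v : ℝ) * J ≤ Y + WW v := by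
    have := (Nat.ceil_lt_add_one (show 0 ≤ Y / WW v by positivity)).le
    calc (WW v : ℝ) * J ≤ WW v * (Y / WW v + 1) := by gcongr
      _ = _ := by field_simp
  have hn1 : (WW v : ℝ) * n ≤ Y - 1 := by
    have := Nat.floor_le (show 0 ≤ (Y - 1) / WW v from div_nonneg (by linarith) (by linarith))
    rwa [le_div_iff₀' (by linarith)] at this
  have hn2 : Y / WW v - 2 ≤ n := by
    have := (Nat.lt_floor_add_one ((Y - 1) / WW v)).le
    have h1 : 1 / (WW v : ℝ) ≤ 1 := by rw [div_le_one (by linarith)]; exact hW'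
    have h2 : (Y - 1) / WW v = Y / WW v - 1 / WW v := sub_div _ _ _
    linarith
  have hA0 : ∀ y ∈ A0, Y ≤ y ∧ (y : ℝ) ≤ 2 * Y ∧ y ≡ 1 [MOD WW v] := by
    intro y hy
    obtain ⟨j, hj, rfl⟩ := mem_image.1 hy
    rw [mem_Ico] at hj
    have j1 : (J : ℝ) ≤ j := by exact_mod_cast hj.1
    have j2 : (j : ℝ) + 1 ≤ J + n := by exact_mod_cast hj.2
    refine ⟨?_, ?_, ?_⟩
    · push_cast; nlinarith
    · push_cast; nlinarith
    · exact (Nat.modEq_iff_dvd' (by omega)).2 (by simp) |>.symm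
  let L := (range (⌊2 * Y⌋₊ + 1)).filter fun l : ℕ => l.Prime ∧ ww v < (l : ℝ)
  have hw : 1 ≤ ww v := one_le_pow₀ (by linarith)
  have hb := bad_count (A := A0) (L := L) (M := WW v) (n0 := n0) (N := Y) (X := 2 * Y)
    (w0 := ww v) (V := v) 0 hW (by linarith) (by linarith) hw (by positivity) hn0 hsg
    (fun x hx => ⟨by
      have := (hA0 x hx).1
      have : (0 : ℝ) < x := by linarith
      exact_mod_cast this, (hA0 x hx).2.1⟩)
    (fun x hx x' hx' => by linarith [(hA0 x hx).2.1, (hA0 x' hx').1])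
    (fun x hx x' hx' => ((hA0 x' hx').2.2.trans (hA0 x hx).2.2.symm).dvd)
    (fun l hl => by
      obtain ⟨h1, h2, h3⟩ := mem_filter.1 hl
      refine ⟨h2, not_dvd_WW h2 h3, h3, ?_⟩
      have : (l : ℝ) ≤ ⌊2 * Y⌋₊ := by exact_mod_cast Nat.lt_succ_iff.1 (mem_range.1 h1)
      exact this.trans (Nat.floor_le (by linarith)))
  refine ⟨A0.filter fun y => ∑ l ∈ L, bad n0 0 v l y < 1, ?_, fun y hy => ?_⟩
  · have h1 : ∑ y ∈ A0, (1 - ∑ l ∈ L, bad n0 0 v l y) ≤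
        ∑ y ∈ A0, ind (∑ l ∈ L, bad n0 0 v l y < 1) := by
      refine sum_le_sum fun y _ => ?_
      by_cases h : ∑ l ∈ L, bad n0 0 v l y < 1
      · rw [ind_true h]
        linarith [sum_nonneg fun l (_ : l ∈ L) => bad_nonneg n0 0 (V := v) (by positivity) l y]
      · rw [ind_false h]; linarith
    rw [sum_ind, sum_sub_distrib, sum_const, hc, nsmul_eq_mul, mul_one] at h1
    rw [sqrt_ww] at hb
    have h2 : Y / WW v * (3 + 8 * v) / (v : ℝ) ^ 2 ≤ Y / WW v / 4 := by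
      rw [mul_div_assoc, div_eq_mul_one_div (Y / WW v) 4]
      refine mul_le_mul_of_nonneg_left ?_ (by positivity)
      rw [div_le_div_iff₀ (by positivity) (by norm_num)]
      nlinarith
    have h3 : Real.sqrt (2 * Y) ≤ 2 * Real.sqrt Y := by
      refine Real.sqrt_le_iff.2 ⟨by positivity, by nlinarith⟩
    have h4 : 100 * v * Real.sqrt Y ≤ Y / WW v := by
      rw [le_div_iff₀ (by linarith)]; nlinarith
    have h5 : (3 + 4 * v) * Real.sqrt (2 * Y) ≤ (3 + 4 * v) * (2 * Real.sqrt Y) := by gcongr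
    have e : Y / (2 * WW v) = Y / WW v / 2 := by field_simp
    rw [e]
    nlinarith
  · obtain ⟨hy0, hy1⟩ := mem_filter.1 hy
    obtain ⟨a1, a2, a3⟩ := hA0 y hy0
    have hy0' : y ≠ 0 := by rintro rfl; simp at a1; linarith
    have hL : ∀ l : ℕ, l.Prime → l ∣ y → l ∈ L := fun l hl hd => by
      refine mem_filter.2 ⟨mem_range.2 (Nat.lt_succ_of_le (Nat.le_floor ?_)), hl,
        big_of_mod a3 hl hd⟩
      have : (l : ℝ) ≤ y := by exact_mod_cast Nat.le_of_dvd (Nat.pos_of_ne_zero hy0') hd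
      linarith
    obtain ⟨b1, b2⟩ := of_bad (by positivity) hy1
    refine ⟨a1, a2, sqfree_of fun l hl hd => b1 l (hL l hl hd), a3, ?_,
      Nat.Coprime.symm (Nat.coprime_of_dvd fun l hl h1 h2 => b2 l (hL l hl h2) h1 h2)⟩
    have : 2 * v * sg y ≤ ∑ l ∈ L, bad n0 0 v l y := by
      rw [sg, mul_sum]
      calc ∑ l ∈ y.primeFactors, 2 * (v : ℝ) * (1 / Real.sqrt l) ≤
            ∑ l ∈ y.primeFactors, bad n0 0 v l y := by
            refine sum_le_sum fun l hl => le_trans (le_of_eq ?_) (le_bad n0 y 0 v l)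
            have hd := Nat.dvd_of_mem_primeFactors hl
            rw [ind_true hd, ind_true (by rw [sub_zero]; exact_mod_cast hd)]
            ring
        _ ≤ _ := sum_le_sum_of_subset_of_nonneg (fun l hl => hL l (Nat.prime_of_mem_primeFactors hl)
            (Nat.dvd_of_mem_primeFactors hl)) fun l _ _ => bad_nonneg n0 0 (by positivity) l y
    rw [le_div_iff₀' (by positivity)]
    linarith

end SL

end Pool.Agent.Lib.LQ
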