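import Pool.Agent.Lib.LQ.SLAux1

set_option autoImplicit false

open Finset
open scoped Classical

noncomputable section

namespace Pool.Agent.Lib.LQ

namespace SL

/-- local weights -/
def ph (v y ns : ℕ) (p : ℤ) (l : ℕ) (Q : GI) : ℝ :=
  if l ∣ WW v then ind ((l : GI) ∣ Q - 1)
  else if l ∣ y then ind ((l : ℤ) ∣ Q.norm - p)
  else ind (¬ l ^ 2 ∣ nm Q ∧ (l ∣ ns → ¬ l ∣ nm Q ∧ ¬ (l : ℤ) ∣ Q.norm - p)) *
    (if l ∣ nm Q then 1 / 6 else 1)

def L0 (v y : ℕ) : Finset ℕ := (WW v).primeFactors ∪ y.primeFactors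

def L1 (v y : ℕ) (z : ℝ) : Finset ℕ :=
  (range (⌊z⌋₊ + 1)).filter fun l : ℕ => l.Prime ∧ ww v < (l : ℝ) ∧ ¬ l ∣ y

def Ph (v y ns : ℕ) (p : ℤ) (z : ℝ) (Q : GI) : ℝ := ∏ l ∈ L0 v y ∪ L1 v y z, ph v y ns p l Q

lemma mem_L1 {v y l : ℕ} {z : ℝ} (hz : 0 ≤ z) :
    l ∈ L1 v y z ↔ l.Prime ∧ ww v < (l : ℝ) ∧ (l : ℝ) ≤ z ∧ ¬ l ∣ y := by
  simp only [L1, mem_filter, mem_range, Nat.lt_succ_iff, Nat.le_floor_iff hz]
  tauto

lemma dvd_nm {n : ℕ} {x : GI} : n ∣ nm x ↔ (n : ℤ) ∣ x.norm := Int.natCast_dvd.symm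

lemma norm_cong {m : ℕ} {x y : GI} (h : (m : GI) ∣ x - y) : (m : ℤ) ∣ x.norm - y.norm := by
  obtain ⟨d, hd⟩ := h
  have : x = y + m * d := by rw [← hd]; ring
  subst this
  refine ⟨2 * (y.re * d.re + y.im * d.im) + m * (d.re * d.re + d.im * d.im), ?_⟩
  simp [Zsqrtd.norm_def]
  ring

lemma ph_per (v y ns : ℕ) (p : ℤ) (l : ℕ) : Per1 (l ^ 2) (ph v y ns p l) := by
  intro x x' h
  have h1 := norm_cong h
  have h2 : (l : ℤ) ∣ x.norm - x'.norm := dvd_trans (by push_cast; exact dvd_pow_self _ two_ne_zero) h1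
  have h3 : (l : GI) ∣ x - x' := dvd_trans (by push_cast; exact dvd_pow_self _ two_ne_zero) h
  have e1 : (l : GI) ∣ x - 1 ↔ (l : GI) ∣ x' - 1 :=
    dvd_iff_dvd_of_dvd_sub (by rwa [sub_sub_sub_cancel_right])
  have e2 : (l : ℤ) ∣ x.norm - p ↔ (l : ℤ) ∣ x'.norm - p :=
    dvd_iff_dvd_of_dvd_sub (by rwa [sub_sub_sub_cancel_right])
  have e3 : l ^ 2 ∣ nm x ↔ l ^ 2 ∣ nm x' := by
    rw [dvd_nm, dvd_nm]; exact dvd_iff_dvd_of_dvd_sub h1
  have e4 : l ∣ nm x ↔ l ∣ nm x' := by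
    rw [dvd_nm, dvd_nm]; exact dvd_iff_dvd_of_dvd_sub h2
  simp only [ph, e1, e2, e3, e4]

lemma ph_mem (v y ns : ℕ) (p : ℤ) (l : ℕ) (Q : GI) : 0 ≤ ph v y ns p l Q ∧ ph v y ns p l Q ≤ 1 := by
  unfold ph ind
  split_ifs <;> norm_num

lemma one_sub_ge {x : ℝ} (h0 : 0 ≤ x) (h1 : x ≤ 1 / 2) : Real.exp (-(x + 2 * x ^ 2)) ≤ 1 - x := by
  have h2 := Real.add_one_le_exp (x + 2 * x ^ 2)
  rw [Real.exp_neg, inv_le_iff_one_le_mul₀ (Real.exp_pos _)]
  have h3 : 0 ≤ 1 - x := by linarith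
  nlinarith [mul_le_mul_of_nonneg_left h2 h3, mul_nonneg (sq_nonneg x) (by linarith : 0 ≤ 1 - 2 * x)]

lemma mean1 (h2 : Loc1Stmt) {v y ns l : ℕ} (p : ℤ) (hl : l.Prime) (hl2 : l ≠ 2) (hW : ¬ l ∣ WW v)
    (hy : ¬ l ∣ y) : 1 - E1 (l ^ 2) (ph v y ns p l) ≤
      ind (l % 4 = 1) * (5 / 3 / l) + 3 / (l : ℝ) ^ 2 + ind (l ∣ ns) * (4 / l) := by
  have hm : 1 ≤ l ^ 2 := Nat.one_le_pow _ _ hl.pos
  have a1 := h2.2.2.2.1 l 0 hl hl2
  have a2 := h2.2.2.2.1 l p hl hl2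
  have a3 := h2.2.2.2.2.2 l hl hl2
  have key : ∀ Q, 1 - ph v y ns p l Q ≤
      ind (l % 4 = 1) * (5 / 6) * ind ((l : ℤ) ∣ Q.norm - 0) + ind (l ^ 2 ∣ nm Q) +
        ind (l ∣ ns) * (ind ((l : ℤ) ∣ Q.norm - 0) + ind ((l : ℤ) ∣ Q.norm - p)) := by
    intro Q
    simp only [ph, if_neg hW, if_neg hy, sub_zero, ← dvd_nm]
    have := fun h h' => mod_four_of_sqfree (D := Q) hl hl2 h h'
    unfold ind
    by_cases c1 : l ^ 2 ∣ nm Q <;> by_cases c2 : l ∣ nm Q <;> by_cases c3 : l ∣ ns <;>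
      by_cases c4 : (l : ℤ) ∣ Q.norm - p <;> by_cases c5 : l % 4 = 1 <;>
      simp only [c1, c2, c3, c4, c5, not_true, not_false_iff, true_and, false_and, and_true,
        and_false, if_true, if_false, forall_true_left, IsEmpty.forall_iff, imp_false] <;>
      first | (norm_num; done) | exact absurd (this c2 c1) c5
  have h := E1_mono (m := l ^ 2) key
  rw [E1_sub, E1_const hm, E1_add, E1_add, E1_smul, E1_smul, E1_add] at h
  have b1 := mul_le_mul_of_nonneg_left a1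
    (mul_nonneg (ind_nonneg (l % 4 = 1)) (by norm_num : (0 : ℝ) ≤ 5 / 6))
  have b2 := mul_le_mul_of_nonneg_left (add_le_add a1 a2) (ind_nonneg (l ∣ ns))
  have e1 : ind (l % 4 = 1) * (5 / 6) * (2 / (l : ℝ)) = ind (l % 4 = 1) * (5 / 3 / l) := by ring
  have e2 : ind (l ∣ ns) * (2 / (l : ℝ) + 2 / l) = ind (l ∣ ns) * (4 / l) := by ring
  linarith

lemma mean1_le {ns l : ℕ} (hl : l.Prime) :
    ind (l % 4 = 1) * (5 / 3 / l) + 3 / (l : ℝ) ^ 2 + ind (l ∣ ns) * (4 / l) ≤ 9 / l := by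
  have h1 : (1 : ℝ) ≤ l := by exact_mod_cast hl.pos
  have a1 := mul_le_mul_of_nonneg_right (ind_le_one (l % 4 = 1))
    (show (0 : ℝ) ≤ 5 / 3 / l by positivity)
  have a2 := mul_le_mul_of_nonneg_right (ind_le_one (l ∣ ns)) (show (0 : ℝ) ≤ 4 / l by positivity)
  have a3 : 3 / (l : ℝ) ^ 2 ≤ 3 / l := by gcongr; nlinarith
  have e : (9 : ℝ) / l = 1 * (5 / 3 / l) + 3 / l + 1 * (4 / l) + 1 / 3 / l := by ring
  have : (0 : ℝ) ≤ 1 / 3 / l := by positivity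
  linarith

lemma ww_ge {v : ℕ} (hv : 100 ≤ v) : 1000 ≤ ww v := by
  have hv' : (100 : ℝ) ≤ v := by exact_mod_cast hv
  calc (1000 : ℝ) ≤ 100 ^ 4 := by norm_num
    _ ≤ _ := pow_le_pow_left₀ (by norm_num) hv' 4

lemma inv_le_inv_sqrt {l : ℕ} (hl : l.Prime) : 1 / (l : ℝ) ≤ 1 / Real.sqrt l := by
  have h1 : (1 : ℝ) ≤ l := by exact_mod_cast hl.pos
  have h2 := Real.one_le_sqrt.2 h1
  gcongr
  nlinarith [Real.mul_self_sqrt (by linarith : (0 : ℝ) ≤ l)]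

lemma prod1 (h2 : Loc1Stmt) {v y ns : ℕ} (p : ℤ) {z : ℝ} (hz : 0 ≤ z) (hv : 100 ≤ v) (hns : ns ≠ 0)
    (hsg : sg ns ≤ 1) :
    Real.exp (-5) * GQ v z x0 ≤ ∏ l ∈ L1 v y z, E1 (l ^ 2) (ph v y ns p l) := by
  have hw := ww_ge hv
  have key : ∀ l ∈ L1 v y z, Real.exp (-(5 / 6 * (ind (l % 4 = 1) * (2 / ((l : ℝ) + 1))) +
      167 * (1 / (l : ℝ) ^ 2) + 4 * (ind (l ∣ ns) / Real.sqrt l))) ≤
      E1 (l ^ 2) (ph v y ns p l) := by
    intro l hl
    obtain ⟨hp, h1, -, h3⟩ := (mem_L1 hz).1 hl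
    have hl0 : (1000 : ℝ) ≤ l := by linarith
    have a1 := mean1 h2 (ns := ns) p hp (by rintro rfl; norm_num at hl0) (not_dvd_WW hp h1) h3
    have a2 := mean1_le (ns := ns) hp
    set X := ind (l % 4 = 1) * (5 / 3 / l) + 3 / (l : ℝ) ^ 2 + ind (l ∣ ns) * (4 / l) with hX
    have i1 := ind_nonneg (l % 4 = 1)
    have i2 := ind_nonneg (l ∣ ns)
    have a3 : 0 ≤ X := by positivity
    have a4 : 9 / (l : ℝ) ≤ 1 / 2 := by rw [div_le_iff₀ (by linarith)]; linarith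
    refine le_trans (Real.exp_le_exp.2 ?_) ((one_sub_ge a3 (a2.trans a4)).trans (by linarith))
    have b1 : X ^ 2 ≤ 81 * (1 / (l : ℝ) ^ 2) := by
      calc X ^ 2 ≤ (9 / l) ^ 2 := by gcongr
        _ = _ := by ring
    have b2 : ind (l ∣ ns) * (4 / l) ≤ 4 * (ind (l ∣ ns) / Real.sqrt l) := by
      have := mul_le_mul_of_nonneg_left (inv_le_inv_sqrt hp) (mul_nonneg i2 (by norm_num : (0:ℝ) ≤ 4))
      calc _ = ind (l ∣ ns) * 4 * (1 / (l : ℝ)) := by ring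
        _ ≤ _ := this
        _ = _ := by ring
    have b3 : 5 / 3 / (l : ℝ) ≤ 5 / 6 * (2 / ((l : ℝ) + 1)) + 2 * (1 / (l : ℝ) ^ 2) := by
      rw [← sub_nonneg]
      have : 5 / 6 * (2 / ((l : ℝ) + 1)) + 2 * (1 / (l : ℝ) ^ 2) - 5 / 3 / (l : ℝ) =
          (l + 6) / (3 * l ^ 2 * (l + 1)) := by field_simp; ring
      rw [this]; positivity
    have b4 := mul_le_mul_of_nonneg_left b3 i1
    have b5 := mul_le_mul_of_nonneg_right (ind_le_one (l % 4 = 1))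
      (show (0 : ℝ) ≤ 2 * (1 / (l : ℝ) ^ 2) by positivity)
    have e : 3 / (l : ℝ) ^ 2 = 3 * (1 / (l : ℝ) ^ 2) := by ring
    nlinarith
  refine le_trans ?_ (prod_le_prod (fun l _ => (Real.exp_pos _).le) key)
  rw [← Real.exp_sum, GQ, ← Real.exp_add]
  refine Real.exp_le_exp.2 ?_
  simp only [sum_neg_distrib, sum_add_distrib, ← mul_sum]
  have s1 := sum_inv_sq_tail (by linarith : 1 ≤ ww v) (S := L1 v y z)
    fun l hl => ((mem_L1 hz).1 hl).2.1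
  have s2 := (sum_le_sg hns (L := L1 v y z) fun l hl => ((mem_L1 hz).1 hl).1).trans hsg
  have s3 : ∑ l ∈ L1 v y z, ind (l % 4 = 1) * (2 / ((l : ℝ) + 1)) ≤ Lam (ww v) z := by
    calc _ = ∑ l ∈ (L1 v y z).filter (· % 4 = 1), 2 / ((l : ℝ) + 1) := by
          rw [sum_filter]
          refine sum_congr rfl fun l _ => ?_
          unfold ind; split_ifs <;> simp
      _ ≤ _ := by
          refine sum_le_sum_of_subset_of_nonneg (fun l hl => ?_) fun _ _ _ => by positivity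
          obtain ⟨a, b⟩ := mem_filter.1 hl
          obtain ⟨c1, c2, c3, -⟩ := (mem_L1 hz).1 a
          exact mem_PP.2 ⟨c1, b, c2, c3⟩
  have s4 : 2 / ww v ≤ 1 / 167 := by rw [div_le_iff₀ (by linarith)]; linarith
  simp only [x0]
  linarith

lemma disj0 {v y : ℕ} (hy : y ≡ 1 [MOD WW v]) : Disjoint (WW v).primeFactors y.primeFactors :=
  disjoint_left.2 fun l h1 h2 => not_dvd_WW (Nat.prime_of_mem_primeFactors h1)
    (big_of_mod hy (Nat.prime_of_mem_primeFactors h1) (Nat.dvd_of_mem_primeFactors h2))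
    (Nat.dvd_of_mem_primeFactors h1)

lemma disj1 {v y : ℕ} {z : ℝ} (hz : 0 ≤ z) : Disjoint (L0 v y) (L1 v y z) :=
  disjoint_left.2 fun l h1 h2 => by
    obtain ⟨a, b, -, d⟩ := (mem_L1 hz).1 h2
    rcases mem_union.1 h1 with h | h
    · exact not_dvd_WW a b (Nat.dvd_of_mem_primeFactors h)
    · exact d (Nat.dvd_of_mem_primeFactors h)

lemma prod_cast {n : ℕ} (h : Squarefree n) : ∏ l ∈ n.primeFactors, (l : ℝ) = n := by
  rw [← Nat.cast_prod, Nat.prod_primeFactors_of_squarefree h]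

lemma prod_L0 {v y : ℕ} (hy : y ≡ 1 [MOD WW v]) (hs : Squarefree y) :
    ∏ l ∈ L0 v y, (l : ℝ) = WW v * y := by
  rw [L0, prod_union (disj0 hy), prod_cast hs, prod_cast (n := WW v) (squarefree_primorial _)]

lemma prod0 (h2 : Loc1Stmt) {v y ns p : ℕ} (hv : 100 ≤ v) (hy : y ≡ 1 [MOD WW v])
    (hs : Squarefree y) (hsg : sg y ≤ 1 / 2) (hc : Nat.Coprime y p) :
    Real.exp (-1) / (y * (WW v : ℝ) ^ 2) ≤ ∏ l ∈ L0 v y, E1 (l ^ 2) (ph v y ns p l) := by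
  have hw := ww_ge hv
  rw [L0, prod_union (disj0 hy)]
  have e1 : ∏ l ∈ (WW v).primeFactors, E1 (l ^ 2) (ph v y ns p l) = 1 / (WW v : ℝ) ^ 2 := by
    rw [← prod_cast (n := WW v) (squarefree_primorial _), ← prod_pow, one_div, ← prod_inv_distrib]
    refine prod_congr rfl fun l hl => ?_
    rw [← one_div, ← h2.1 l 1 (Nat.prime_of_mem_primeFactors hl)]
    congr 1
    funext Q
    simp only [ph, if_pos (Nat.dvd_of_mem_primeFactors hl)]
  have e2 : ∀ l ∈ y.primeFactors, (l : ℝ)⁻¹ * Real.exp (-(2 * (1 / Real.sqrt l))) ≤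
      E1 (l ^ 2) (ph v y ns p l) := by
    intro l hl
    have hp := Nat.prime_of_mem_primeFactors hl
    have hd := Nat.dvd_of_mem_primeFactors hl
    have hb := big_of_mod hy hp hd
    have hl0 : (1000 : ℝ) ≤ l := by linarith
    have a1 := (h2.2.2.2.2.1 l p hp (by rintro rfl; norm_num at hl0) (fun h =>
      hp.one_lt.ne' (Nat.eq_one_of_dvd_coprimes hc hd (by exact_mod_cast h)))).1
    have a2 : ph v y ns p l = fun x => ind ((l : ℤ) ∣ x.norm - p) := by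
      funext Q
      simp only [ph, if_neg (not_dvd_WW hp hb), if_pos hd]
    rw [a2]
    refine le_trans ?_ a1
    have a3 : 1 / (l : ℝ) ≤ 1 / 2 := by gcongr; linarith
    have a4 := one_sub_ge (x := 1 / l) (by positivity) a3
    have a5 := inv_le_inv_sqrt hp
    have a6 : Real.exp (-(2 * (1 / Real.sqrt l))) ≤ 1 - 1 / l := by
      refine le_trans (Real.exp_le_exp.2 ?_) a4
      have : (0 : ℝ) ≤ 1 / l := by positivity
      nlinarith
    calc _ ≤ (l : ℝ)⁻¹ * (1 - 1 / l) := by gcongr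
      _ = _ := by field_simp
  have e3 := prod_le_prod (fun l _ => by positivity) e2
  rw [prod_mul_distrib, prod_inv_distrib, prod_cast hs, ← Real.exp_sum, sum_neg_distrib,
    ← mul_sum] at e3
  have e4 : Real.exp (-1) ≤ Real.exp (-(2 * ∑ l ∈ y.primeFactors, 1 / Real.sqrt l)) :=
    Real.exp_le_exp.2 (by unfold sg at hsg; linarith)
  rw [e1]
  calc _ = 1 / (WW v : ℝ) ^ 2 * ((y : ℝ)⁻¹ * Real.exp (-1)) := by ring
    _ ≤ _ := by gcongr; exact le_trans (by gcongr) e3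

/-- the support of the weight -/
structure Supp (v y ns : ℕ) (p : ℤ) (z : ℝ) (Q : GI) : Prop where
  QW : (WW v : GI) ∣ Q - 1
  yd : (y : ℤ) ∣ Q.norm - p
  loc : ∀ l ∈ L1 v y z, ¬ l ^ 2 ∣ nm Q ∧ (l ∣ ns → ¬ l ∣ nm Q ∧ ¬ (l : ℤ) ∣ Q.norm - p)

lemma dvd_of_primes {n m : ℕ} (h : Squarefree n) (h' : ∀ l ∈ n.primeFactors, l ∣ m) : n ∣ m := by
  rw [← Nat.prod_primeFactors_of_squarefree h]
  exact Finset.prod_primes_dvd m (fun l hl => (Nat.prime_of_mem_primeFactors hl).prime) h'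

lemma ne_ind {P : Prop} (h : ind P ≠ 0) : P := by
  by_contra h'
  exact h (ind_false h')

lemma supp {v y ns : ℕ} {p : ℤ} {z : ℝ} {Q : GI} (hz : 0 ≤ z) (hy : y ≡ 1 [MOD WW v])
    (hs : Squarefree y) (h : Ph v y ns p z Q ≠ 0) : Supp v y ns p z Q := by
  have h1 := prod_ne_zero_iff.1 h
  refine ⟨natCast_dvd_iff.2 (dvd_of_primes (squarefree_primorial _) fun l hl => ?_),
    Int.natCast_dvd.2 (dvd_of_primes hs fun l hl => ?_), fun l hl => ?_⟩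
  · have := h1 l (mem_union_left _ (mem_union_left _ hl))
    rw [ph, if_pos (Nat.dvd_of_mem_primeFactors hl)] at this
    exact natCast_dvd_iff.1 (ne_ind this)
  · have := h1 l (mem_union_left _ (mem_union_right _ hl))
    have hp := Nat.prime_of_mem_primeFactors hl
    have hd := Nat.dvd_of_mem_primeFactors hl
    rw [ph, if_neg (not_dvd_WW hp (big_of_mod hy hp hd)), if_pos hd] at this
    exact Int.natCast_dvd.1 (ne_ind this)
  · have := h1 l (mem_union_right _ hl)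
    obtain ⟨a, b, -, d⟩ := (mem_L1 hz).1 hl
    rw [ph, if_neg (not_dvd_WW a b), if_neg d] at this
    exact ne_ind (left_ne_zero_of_mul this)

lemma Supp.not_dvd {v y ns p l : ℕ} {z : ℝ} {Q : GI} (h : Supp v y ns p z Q) (hc : Nat.Coprime y p)
    (hl : l.Prime) (hd : l ∣ nm Q) : ¬ l ∣ y := fun hy => by
  have h1 : (l : ℤ) ∣ Q.norm - p := dvd_trans (by exact_mod_cast hy) h.yd
  have h2 : (l : ℤ) ∣ p := (dvd_iff_dvd_of_dvd_sub h1).1 (dvd_nm.1 hd)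
  exact hl.one_lt.ne' (Nat.eq_one_of_dvd_coprimes hc hy (by exact_mod_cast h2))

lemma Supp.sum_sm {v y ns p : ℕ} {z : ℝ} {Q : GI} (h : Supp v y ns p z Q) (hz : 0 ≤ z)
    (hv : 100 ≤ v) (hc : Nat.Coprime y p) (F : ℕ → ℝ) (hF : ∀ l, 0 ≤ F l) :
    ∑ π ∈ sm (ww v) z Q, F (nm π) ≤ ∑ l ∈ (L1 v y z).filter (· ∣ nm Q), F l := by
  have hw := ww_ge hv
  have m : ∀ π ∈ sm (ww v) z Q, nm π ∈ (L1 v y z).filter (· ∣ nm Q) := fun π hπ => by
    obtain ⟨a, b⟩ := mem_sm.1 hπ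
    obtain ⟨c1, -, c3, c4⟩ := mem_PP.1 (mem_GF.1 a).1
    exact mem_filter.2 ⟨(mem_L1 hz).2 ⟨c1, c3, c4, h.not_dvd hc c1 (nm_dvd b)⟩, nm_dvd b⟩
  rw [← sum_image (g := nm) (f := F)]
  · refine sum_le_sum_of_subset_of_nonneg (fun l hl => ?_) fun l _ _ => hF l
    obtain ⟨π, hπ, rfl⟩ := mem_image.1 hl
    exact m π hπ
  · intro π hπ π' hπ' e
    obtain ⟨a, b⟩ := mem_sm.1 hπ
    obtain ⟨a', b'⟩ := mem_sm.1 hπ'
    rcases GF_eq_or_star a a' e with h1 | h1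
    · exact h1.symm
    · obtain ⟨c1, c2, -, -⟩ := mem_PP.1 (mem_GF.1 a).1
      have := nm_dvd (natCast_dvd_of c1 (by omega) b (h1 ▸ b'))
      rw [nm_natCast] at this
      exact absurd this (h.loc _ (mem_filter.1 (m π hπ)).1).1

lemma Ph_nonneg (v y ns : ℕ) (p : ℤ) (z : ℝ) (Q : GI) : 0 ≤ Ph v y ns p z Q :=
  prod_nonneg fun l _ => (ph_mem v y ns p l Q).1

lemma Ph_le {v y ns p : ℕ} {z : ℝ} (hz : 0 ≤ z) (hv : 100 ≤ v) (hy : y ≡ 1 [MOD WW v])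
    (hs : Squarefree y) (hc : Nat.Coprime y p) (Q : GI) :
    Ph v y ns p z Q ≤ (1 / 6) ^ om (ww v) z Q := by
  by_cases h : Ph v y ns p z Q = 0
  · rw [h]; positivity
  have h1 := (supp hz hy hs h).sum_sm hz hv hc (fun _ => 1) fun _ => zero_le_one
  simp only [sum_const, nsmul_eq_mul, mul_one, Nat.cast_le] at h1
  calc Ph v y ns p z Q ≤ ∏ l ∈ (L1 v y z).filter (· ∣ nm Q), ph v y ns p l Q :=
        prod_le_prod_of_subset_of_le_one ((filter_subset _ _).trans subset_union_right)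
          (fun l _ => (ph_mem v y ns p l Q).1) fun l _ _ => (ph_mem v y ns p l Q).2
    _ ≤ ∏ l ∈ (L1 v y z).filter (· ∣ nm Q), (1 / 6 : ℝ) := by
        refine prod_le_prod (fun l _ => (ph_mem v y ns p l Q).1) fun l hl => ?_
        obtain ⟨a, b⟩ := mem_filter.1 hl
        obtain ⟨c1, c2, -, c4⟩ := (mem_L1 hz).1 a
        rw [ph, if_neg (not_dvd_WW c1 c2), if_neg c4, if_pos b]
        exact mul_le_of_le_one_left (by norm_num) (ind_le_one _)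
    _ ≤ _ := by
        rw [prod_const]
        exact pow_le_pow_of_le_one (by norm_num) (by norm_num) h1

end SL

end Pool.Agent.Lib.LQ
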