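import Pool.Agent.Lib.LQ.SLAux2

set_option autoImplicit false

open Finset
open scoped Classical

noncomputable section

namespace Pool.Agent.Lib.LQ

namespace SL

def sqr (p : ℕ) : Finset GI :=
  Sqr ⌈0.51 * Real.sqrt p⌉ ⌈0.51 * Real.sqrt p⌉ ⌊0.18 * Real.sqrt p⌋₊

lemma mem_sqr {p : ℕ} (hp : 100 ≤ Real.sqrt p) {Q : GI} (h : Q ∈ sqr p) :
    p ≤ 2 * nm Q ∧ nm Q < p := by
  obtain ⟨a, b, c, d⟩ := mem_Sqr.1 h
  have h0 := Real.mul_self_sqrt (show (0 : ℝ) ≤ p by positivity)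
  set r := Real.sqrt p
  have h1 := Int.le_ceil (0.51 * r)
  have h2 := Int.ceil_lt_add_one (0.51 * r)
  have h3 := Nat.floor_le (show 0 ≤ 0.18 * r by positivity)
  have a' : ((⌈0.51 * r⌉ : ℤ) : ℝ) ≤ Q.re := by exact_mod_cast a
  have b' : (Q.re : ℝ) < (⌈0.51 * r⌉ : ℤ) + (⌊0.18 * r⌋₊ : ℕ) := by exact_mod_cast b
  have c' : ((⌈0.51 * r⌉ : ℤ) : ℝ) ≤ Q.im := by exact_mod_cast c
  have d' : (Q.im : ℝ) < (⌈0.51 * r⌉ : ℤ) + (⌊0.18 * r⌋₊ : ℕ) := by exact_mod_cast d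
  have e := nm_real Q
  have l1 : 0.51 * r ≤ Q.re := by linarith
  have l2 : 0.51 * r ≤ Q.im := by linarith
  have u1 : (Q.re : ℝ) ≤ 0.7 * r := by linarith
  have u2 : (Q.im : ℝ) ≤ 0.7 * r := by linarith
  have m1 := pow_le_pow_left₀ (by positivity) l1 2
  have m2 := pow_le_pow_left₀ (by positivity) l2 2
  have m3 := pow_le_pow_left₀ (by linarith) u1 2
  have m4 := pow_le_pow_left₀ (by linarith) u2 2
  constructor
  · have : (p : ℝ) ≤ 2 * nm Q := by nlinarith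
    exact_mod_cast this
  · have : (nm Q : ℝ) < p := by nlinarith
    exact_mod_cast this

lemma side {p : ℕ} (hp : 100 ≤ Real.sqrt p) : (p : ℝ) / 40 ≤ (⌊0.18 * Real.sqrt p⌋₊ : ℝ) ^ 2 ∧
    (⌊0.18 * Real.sqrt p⌋₊ : ℝ) ≤ Real.sqrt p := by
  have h0 := Real.mul_self_sqrt (show (0 : ℝ) ≤ p by positivity)
  set r := Real.sqrt p
  have h3 := Nat.floor_le (show 0 ≤ 0.18 * r by positivity)
  have h4 := Nat.lt_floor_add_one (0.18 * r)
  have h5 : 0.17 * r ≤ ⌊0.18 * r⌋₊ := by linarith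
  have m1 := pow_le_pow_left₀ (by positivity) h5 2
  exact ⟨by nlinarith, by linarith⟩

structure GoodQ (v a1 y ns n0 p : ℕ) (z : ℝ) (Q : GI) : Prop where
  sfq : Squarefree (nm Q)
  bigq : ∀ l : ℕ, l.Prime → l ∣ nm Q → ww v < (l : ℝ)
  sgq : sg (nm Q) ≤ 1 / v
  copq : Nat.Coprime (nm Q) n0
  pq : p ≤ 2 * nm Q
  lt : nm Q < p
  ydvd : (y : ℤ) ∣ (p : ℤ) - nm Q
  QW : (WW v : GI) ∣ Q - 1
  sgk : sgw (ww v) (((p : ℤ) - nm Q) / y).natAbs ≤ 1 / v
  copk : Nat.Coprime (((p : ℤ) - nm Q) / y).natAbs ns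
  hom : 0.14 * Lam (ww v) z ≤ (om (ww v) z Q : ℝ)
  sz : (nm (pr (sm (ww v) z Q)) : ℝ) ≤ z ^ a1

def L2 (y p : ℕ) (z : ℝ) : Finset ℕ :=
  (range (p + 1)).filter fun l : ℕ => l.Prime ∧ z < (l : ℝ) ∧ ¬ l ∣ y

def B1 (v y n0 p : ℕ) (z : ℝ) (q : ℕ) : ℝ := ∑ l ∈ L2 y p z, bad n0 p (2 * v) l q

def B2 (v a1 y p : ℕ) (z : ℝ) (Q : GI) : ℝ :=
  ∑ l ∈ L1 v y z, ((2 * v / Real.sqrt l + Real.log l / (a1 * Real.log z)) *
    ind ((l : ℤ) ∣ Q.norm - 0) + 2 * v / Real.sqrt l * ind ((l : ℤ) ∣ Q.norm - p))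

def B3 (v : ℕ) (z : ℝ) (Q : GI) : ℝ := Real.exp (0.0252 * Lam (ww v) z) * 0.84 ^ om (ww v) z Q

lemma B1_nonneg (v y n0 p : ℕ) (z : ℝ) (q : ℕ) : 0 ≤ B1 v y n0 p z q :=
  sum_nonneg fun l _ => bad_nonneg _ _ (by positivity) _ _

lemma B2_nonneg (v a1 y p : ℕ) {z : ℝ} (hz : 1 ≤ z) (Q : GI) : 0 ≤ B2 v a1 y p z Q :=
  sum_nonneg fun l _ => by
    have := ind_nonneg ((l : ℤ) ∣ Q.norm - 0)
    have := ind_nonneg ((l : ℤ) ∣ Q.norm - p)
    have := Real.log_nonneg hz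
    have := Real.log_natCast_nonneg l
    positivity

lemma B3_nonneg (v : ℕ) (z : ℝ) (Q : GI) : 0 ≤ B3 v z Q := by unfold B3; positivity

lemma sum_filter_ind (L : Finset ℕ) (P : ℕ → Prop) [DecidablePred P] (F : ℕ → ℝ) :
    ∑ l ∈ L.filter P, F l = ∑ l ∈ L, F l * ind (P l) := by
  rw [sum_filter]
  refine sum_congr rfl fun l _ => ?_
  by_cases h : P l
  · rw [if_pos h, ind_true h, mul_one]
  · rw [if_neg h, ind_false h, mul_zero]

lemma good_of {v a1 y ns n0 p : ℕ} {z : ℝ} {Q : GI} (hv : 100 ≤ v) (ha : 1 ≤ a1) (hz : 2 ≤ z)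
    (hs : Supp v y ns p z Q) (hc : Nat.Coprime y p) (hy0 : y ≠ 0) (hsg : sg y ≤ 1 / (2 * v))
    (hn0 : ∀ l : ℕ, l.Prime → l ∣ n0 → (l : ℝ) ≤ z → l ∣ ns)
    (hns : ∀ l : ℕ, l.Prime → l ∣ ns → ww v < (l : ℝ) ∧ (l : ℝ) ≤ z ∧ ¬ l ∣ y)
    (h1 : p ≤ 2 * nm Q) (h2 : nm Q < p)
    (hB : B1 v y n0 p z (nm Q) + B2 v a1 y p z Q + B3 v z Q < 1) : GoodQ v a1 y ns n0 p z Q := by
  have hz0 : 0 ≤ z := by linarith
  have hv' : (100 : ℝ) ≤ v := by exact_mod_cast hv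
  have n1 := B1_nonneg v y n0 p z (nm Q)
  have n2 := B2_nonneg v a1 y p (by linarith : 1 ≤ z) Q
  have n3 := B3_nonneg v z Q
  have hq0 : nm Q ≠ 0 := by omega
  have hlz : 0 < a1 * Real.log z :=
    mul_pos (by exact_mod_cast ha) (Real.log_pos (by linarith))
  have big : ∀ l : ℕ, l.Prime → l ∣ nm Q → ww v < (l : ℝ) := fun l hl hd => by
    refine big_of_mod (y := nm Q) ?_ hl hd
    have := norm_cong hs.QW
    rw [Zsqrtd.norm_one, ← nm_int] at this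
    exact (Nat.modEq_iff_dvd.2 (by exact_mod_cast this)).symm
  have mem : ∀ l : ℕ, l.Prime → ww v < (l : ℝ) → l ≤ p → ¬ l ∣ y → l ∈ L1 v y z ∨ l ∈ L2 y p z :=
    fun l a b c d => (le_or_gt (l : ℝ) z).imp (fun h => (mem_L1 hz0).2 ⟨a, b, h, d⟩)
      fun h => mem_filter.2 ⟨mem_range.2 (by omega), a, h, d⟩
  have memq : ∀ l : ℕ, l.Prime → l ∣ nm Q → l ∈ L1 v y z ∨ l ∈ L2 y p z := fun l a b =>
    mem l a (big l a b) ((Nat.le_of_dvd (by omega) b).trans h2.le) (hs.not_dvd hc a b)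
  obtain ⟨b1, b2⟩ := of_bad (L := L2 y p z) (n0 := n0) (x := nm Q) (c := p) (V := 2 * v)
    (by positivity) (by unfold B1 at hB n1; linarith)
  have hyd : (y : ℤ) ∣ (p : ℤ) - nm Q := by rw [nm_int]; exact dvd_sub_comm.1 hs.yd
  have kd : ∀ l : ℕ, l ∣ (((p : ℤ) - nm Q) / y).natAbs → (l : ℤ) ∣ (nm Q : ℤ) - p := fun l h =>
    dvd_sub_comm.1 ((Int.natCast_dvd.2 h).trans (Int.ediv_dvd_of_dvd hyd))
  have hT : 2 * v * (∑ l ∈ (L1 v y z ∪ L2 y p z).filter (· ∣ nm Q), 1 / Real.sqrt l +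
      ∑ l ∈ (L1 v y z ∪ L2 y p z).filter (fun l : ℕ => (l : ℤ) ∣ (nm Q : ℤ) - p),
        1 / Real.sqrt l) ≤ B2 v a1 y p z Q + B1 v y n0 p z (nm Q) := by
    rw [sum_filter_ind, sum_filter_ind, ← sum_add_distrib, mul_sum, sum_union]
    · refine add_le_add (sum_le_sum fun l _ => ?_) (sum_le_sum fun l _ =>
        le_trans (le_of_eq (by ring)) (le_bad n0 (nm Q) p (2 * v) l))
      simp only [sub_zero, ← nm_int, Int.natCast_dvd_natCast]
      have := mul_nonneg (div_nonneg (Real.log_natCast_nonneg l) hlz.le) (ind_nonneg (l ∣ nm Q))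
      have e : (2 * v / Real.sqrt l + Real.log l / (a1 * Real.log z)) * ind (l ∣ nm Q) +
          2 * v / Real.sqrt l * ind ((l : ℤ) ∣ (nm Q : ℤ) - p) =
          2 * v * (1 / Real.sqrt l * ind (l ∣ nm Q) +
            1 / Real.sqrt l * ind ((l : ℤ) ∣ (nm Q : ℤ) - p)) +
          Real.log l / (a1 * Real.log z) * ind (l ∣ nm Q) := by ring
      linarith
    · exact disjoint_left.2 fun l a b =>
        absurd ((mem_L1 hz0).1 a).2.2.1 (not_le.2 (mem_filter.1 b).2.2.1)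
  set T1 := ∑ l ∈ (L1 v y z ∪ L2 y p z).filter (· ∣ nm Q), 1 / Real.sqrt l with hT1
  set T2 := ∑ l ∈ (L1 v y z ∪ L2 y p z).filter (fun l : ℕ => (l : ℤ) ∣ (nm Q : ℤ) - p),
    1 / Real.sqrt l with hT2
  have t1 : 0 ≤ T1 := sum_nonneg fun _ _ => by positivity
  have t2 : 0 ≤ T2 := sum_nonneg fun _ _ => by positivity
  have t3 : T1 + T2 ≤ 1 / (2 * v) := by rw [le_div_iff₀' (by positivity)]; linarith
  have t4 : 1 / (2 * (v : ℝ)) + 1 / (2 * v) = 1 / v := by field_simp; norm_num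
  have t5 : 0 ≤ 1 / (2 * (v : ℝ)) := by positivity
  refine ⟨sqfree_of fun l a b => (memq l a b).elim (fun h => (hs.loc l h).1) (b1 l), big, ?_,
    Nat.coprime_of_dvd fun l a b c => ?_, h1, h2, hyd, hs.QW, ?_,
    Nat.coprime_of_dvd fun l a b c => ?_, ?_, ?_⟩
  · have : sg (nm Q) ≤ T1 := by
      refine sum_le_sum_of_subset_of_nonneg (fun l hl => ?_) fun _ _ _ => by positivity
      have a := Nat.prime_of_mem_primeFactors hl
      have b := Nat.dvd_of_mem_primeFactors hl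
      exact mem_filter.2 ⟨mem_union.2 (memq l a b), b⟩
    linarith
  · rcases memq l a b with h | h
    · exact ((hs.loc l h).2 (hn0 l a c ((mem_L1 hz0).1 h).2.2.1)).1 b
    · exact b2 l h c b
  · have u := sum_union_inter (s₁ := y.primeFactors) (s₂ := (L1 v y z ∪ L2 y p z).filter
      (fun l : ℕ => (l : ℤ) ∣ (nm Q : ℤ) - p)) (f := fun l : ℕ => 1 / Real.sqrt l)
    have u1 : 0 ≤ ∑ l ∈ y.primeFactors ∩ (L1 v y z ∪ L2 y p z).filter
      (fun l : ℕ => (l : ℤ) ∣ (nm Q : ℤ) - p), 1 / Real.sqrt l := sum_nonneg fun _ _ => by positivity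
    have u2 : sgw (ww v) (((p : ℤ) - nm Q) / y).natAbs ≤ ∑ l ∈ y.primeFactors ∪
        (L1 v y z ∪ L2 y p z).filter (fun l : ℕ => (l : ℤ) ∣ (nm Q : ℤ) - p), 1 / Real.sqrt l := by
      refine sum_le_sum_of_subset_of_nonneg (fun l hl => ?_) fun _ _ _ => by positivity
      obtain ⟨a, b⟩ := mem_filter.1 hl
      have c := Nat.prime_of_mem_primeFactors a
      have d := kd l (Nat.dvd_of_mem_primeFactors a)
      by_cases h : l ∣ y
      · exact mem_union_left _ (Nat.mem_primeFactors.2 ⟨c, h, hy0⟩)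
      · refine mem_union_right _ (mem_filter.2 ⟨mem_union.2 (mem l c b ?_ h), d⟩)
        have := Int.le_of_dvd (by omega) (dvd_sub_comm.1 d)
        omega
    unfold sg at hsg
    linarith
  · obtain ⟨c1, c2, c3⟩ := hns l a c
    exact ((hs.loc l ((mem_L1 hz0).2 ⟨a, c1, c2, c3⟩)).2 c).2 (nm_int Q ▸ kd l b)
  · by_contra h
    have e1 : Real.exp (-0.18) ≤ 0.84 := by
      rw [Real.exp_neg, inv_le_comm₀ (Real.exp_pos _) (by norm_num)]
      linarith [Real.quadratic_le_exp_of_nonneg (show (0 : ℝ) ≤ 0.18 by norm_num)]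
    have e2 : Real.exp (-0.18) ^ om (ww v) z Q ≤ 0.84 ^ om (ww v) z Q := by gcongr
    have e3 : 1 ≤ Real.exp (0.0252 * Lam (ww v) z) * Real.exp (-0.18) ^ om (ww v) z Q := by
      rw [← Real.exp_nat_mul, ← Real.exp_add]
      exact Real.one_le_exp (by linarith)
    have e4 := mul_le_mul_of_nonneg_left e2 (Real.exp_pos (0.0252 * Lam (ww v) z)).le
    unfold B3 at hB
    linarith
  · have hne : ∀ π ∈ sm (ww v) z Q, (nm π : ℝ) ≠ 0 := fun π hπ => by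
      exact_mod_cast (mem_PP.1 (mem_GF.1 (mem_sm.1 hπ).1).1).1.ne_zero
    have e1 := hs.sum_sm hz0 hv hc (fun l => Real.log l) fun l => Real.log_natCast_nonneg l
    have e2 : ∑ l ∈ (L1 v y z).filter (· ∣ nm Q), Real.log l ≤
        a1 * Real.log z * B2 v a1 y p z Q := by
      rw [sum_filter_ind, B2, mul_sum]
      refine sum_le_sum fun l _ => ?_
      simp only [sub_zero, ← dvd_nm]
      have i1 := ind_nonneg (l ∣ nm Q)
      have i2 := ind_nonneg ((l : ℤ) ∣ Q.norm - p)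
      have e : a1 * Real.log z * ((2 * v / Real.sqrt l + Real.log l / (a1 * Real.log z)) *
          ind (l ∣ nm Q) + 2 * v / Real.sqrt l * ind ((l : ℤ) ∣ Q.norm - p)) =
          Real.log l * ind (l ∣ nm Q) + a1 * Real.log z * (2 * v / Real.sqrt l *
            (ind (l ∣ nm Q) + ind ((l : ℤ) ∣ Q.norm - p))) := by
        have := hlz.ne'
        generalize a1 * Real.log z = t at *
        field_simp; ring
      rw [e]
      exact le_add_of_nonneg_right (by positivity)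
    rw [nm_pr, Nat.cast_prod, ← Real.log_le_log_iff (prod_pos fun π hπ =>
      lt_of_le_of_ne (by positivity) (hne π hπ).symm) (by positivity), Real.log_prod hne,
      Real.log_pow]
    nlinarith

end SL

end Pool.Agent.Lib.LQ
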