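import Pool.Agent.Lib.LQ.SLAux3

set_option autoImplicit false

open Finset
open scoped Classical

noncomputable section

namespace Pool.Agent.Lib.LQ

namespace SL

def M0 (v y p : ℕ) (z : ℝ) : ℝ := p * GQ v z x0 / (y * (WW v : ℝ) ^ 2)

def c0 : ℝ := Real.exp (-6) / 40

def QUat (KQ : ℝ) (v y p : ℕ) (z : ℝ) : Prop :=
  ∀ (lam : ℝ) (d : ℕ) (c' : ℤ), 0 ≤ lam → lam ≤ 1 → Squarefree d → (d : ℝ) ≤ z →
    (∀ l : ℕ, l.Prime → l ∣ d → ww v < (l : ℝ)) → Nat.Coprime y d →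
    ∑ Q ∈ (disc (2 * (p : ℝ))).filter
        (fun Q => (WW v : GI) ∣ Q - 1 ∧ (y : ℤ) ∣ Q.norm - p ∧ (d : ℤ) ∣ Q.norm - c'),
        lam ^ om (ww v) z Q ≤
      KQ * p * Real.exp (-(1 - lam) * Lam (ww v) z) * 3 ^ d.primeFactors.card /
        (y * d * (WW v : ℝ) ^ 2)

def LFat (u : ℕ) : Prop :=
  ∀ (a b : ℤ) (L : ℕ) (z : ℝ) (L0 L1 : Finset ℕ)
    (φ : ℕ → GI → ℝ), 2 ≤ z → Disjoint L0 L1 →
    (∀ l ∈ L0 ∪ L1, l.Prime ∧ Per1 (l ^ 2) (φ l) ∧ ∀ x, 0 ≤ φ l x ∧ φ l x ≤ 1) →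
    (∀ l ∈ L1, (l : ℝ) ≤ z ∧ 1 - E1 (l ^ 2) (φ l) ≤ 1 / 2 ∧ 1 - E1 (l ^ 2) (φ l) ≤ 9 / l) →
    |∑ x ∈ Sqr a b L, ∏ l ∈ L0 ∪ L1, φ l x - (L : ℝ) ^ 2 * ∏ l ∈ L0 ∪ L1, E1 (l ^ 2) (φ l)| ≤
      1 / 2 * ((L : ℝ) ^ 2 * ∏ l ∈ L0 ∪ L1, E1 (l ^ 2) (φ l)) +
        4 * z ^ (u + 1) * (((∏ l ∈ L0, (l : ℝ)) * z ^ u) ^ 2 * L + ((∏ l ∈ L0, (l : ℝ)) * z ^ u) ^ 4)

lemma main_lower {u v y ns p : ℕ} {z : ℝ} (h1 : LFat u) (h2 : Loc1Stmt) (hz : 2 ≤ z)
    (hv : 100 ≤ v) (hy : y ≡ 1 [MOD WW v]) (hs : Squarefree y) (hsg : sg y ≤ 1 / 2)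
    (hc : Nat.Coprime y p) (hns : ns ≠ 0) (hsn : sg ns ≤ 1) (hp : 100 ≤ Real.sqrt p) :
    c0 / 2 * M0 v y p z - 4 * z ^ (u + 1) * ((WW v * y * z ^ u) ^ 2 * Real.sqrt p +
      (WW v * y * z ^ u) ^ 4) ≤ ∑ Q ∈ sqr p, Ph v y ns p z Q := by
  have hz0 : 0 ≤ z := by linarith
  have hw := ww_ge hv
  have h := h1 ⌈0.51 * Real.sqrt p⌉ ⌈0.51 * Real.sqrt p⌉ ⌊0.18 * Real.sqrt p⌋₊ z (L0 v y)
    (L1 v y z) (ph v y ns p) hz (disj1 hz0) (fun l hl => ⟨?_, ph_per _ _ _ _ _, ph_mem _ _ _ _ _⟩)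
    fun l hl => ?_
  · rw [prod_L0 hy hs] at h
    obtain ⟨s1, s2⟩ := side hp
    have a0 := prod0 h2 (ns := ns) hv hy hs hsg hc
    have a1 := prod1 h2 (y := y) p hz0 hv hns hsn
    have hG : 0 < GQ v z x0 := Real.exp_pos _
    have a2 : c0 * M0 v y p z ≤ (⌊0.18 * Real.sqrt p⌋₊ : ℝ) ^ 2 *
        ∏ l ∈ L0 v y ∪ L1 v y z, E1 (l ^ 2) (ph v y ns p l) := by
      rw [prod_union (disj1 hz0)]
      calc c0 * M0 v y p z = (p : ℝ) / 40 * (Real.exp (-1) / (y * (WW v : ℝ) ^ 2) *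
            (Real.exp (-5) * GQ v z x0)) := by
            rw [c0, M0, show (-6 : ℝ) = -1 + -5 by norm_num, Real.exp_add]; ring
        _ ≤ _ := by
            refine mul_le_mul s1 (mul_le_mul a0 a1 (by positivity) (le_trans (by positivity) a0))
              (by positivity) (by positivity)
    have a3 : 4 * z ^ (u + 1) * ((WW v * y * z ^ u) ^ 2 * (⌊0.18 * Real.sqrt p⌋₊ : ℝ) +
        (WW v * y * z ^ u) ^ 4) ≤ 4 * z ^ (u + 1) * ((WW v * y * z ^ u) ^ 2 * Real.sqrt p +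
        (WW v * y * z ^ u) ^ 4) := by gcongr
    have a4 := (abs_le.1 h).1
    unfold sqr Ph
    linarith
  · rcases mem_union.1 hl with h | h
    · rcases mem_union.1 h with h | h <;> exact Nat.prime_of_mem_primeFactors h
    · exact ((mem_L1 hz0).1 h).1
  · obtain ⟨a, b, c, d⟩ := (mem_L1 hz0).1 hl
    have hl0 : (1000 : ℝ) ≤ l := by linarith
    have e := (mean1 h2 (ns := ns) p a (by rintro rfl; norm_num at hl0) (not_dvd_WW a b) d).trans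
      (mean1_le a)
    exact ⟨c, e.trans (by rw [div_le_iff₀ (by linarith)]; linarith), e⟩

lemma qu_use {v y ns p d : ℕ} {z θ : ℝ} (c' : ℤ) (hz : 0 ≤ z) (hv : 100 ≤ v)
    (hy : y ≡ 1 [MOD WW v]) (hs : Squarefree y) (hc : Nat.Coprime y p)
    (hp : 100 ≤ Real.sqrt p) (hθ : 0 ≤ θ) :
    ∑ Q ∈ sqr p, Ph v y ns p z Q * (θ ^ om (ww v) z Q * ind ((d : ℤ) ∣ Q.norm - c')) ≤
      ∑ Q ∈ (disc (2 * (p : ℝ))).filter
        (fun Q => (WW v : GI) ∣ Q - 1 ∧ (y : ℤ) ∣ Q.norm - p ∧ (d : ℤ) ∣ Q.norm - c'),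
        (θ / 6) ^ om (ww v) z Q := by
  rw [← sum_filter_ne_zero]
  refine le_trans (sum_le_sum fun Q _ => ?_) (sum_le_sum_of_subset_of_nonneg (fun Q hQ => ?_)
    fun _ _ _ => by positivity)
  · calc _ ≤ (1 / 6) ^ om (ww v) z Q * (θ ^ om (ww v) z Q * 1) :=
          mul_le_mul (Ph_le hz hv hy hs hc Q) (mul_le_mul_of_nonneg_left (ind_le_one _)
            (by positivity)) (mul_nonneg (by positivity) (ind_nonneg _)) (by positivity)
      _ = _ := by rw [mul_one, ← mul_pow]; congr 1; ring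
  · obtain ⟨a, b⟩ := mem_filter.1 hQ
    have s := supp hz hy hs (left_ne_zero_of_mul b)
    refine mem_filter.2 ⟨mem_disc.2 ?_, s.QW, s.yd,
      ne_ind (right_ne_zero_of_mul (right_ne_zero_of_mul b))⟩
    have : (nm Q : ℝ) ≤ p := by exact_mod_cast (mem_sqr hp a).2.le
    have : (0 : ℝ) ≤ p := by positivity
    linarith

lemma sum_B3 {KQ : ℝ} {v y ns p : ℕ} {z : ℝ} (hQ : QUat KQ v y p z) (hz : 2 ≤ z) (hv : 100 ≤ v)
    (hy : y ≡ 1 [MOD WW v]) (hs : Squarefree y) (hc : Nat.Coprime y p)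
    (hp : 100 ≤ Real.sqrt p) (hK : 0 ≤ KQ) :
    ∑ Q ∈ sqr p, Ph v y ns p z Q * B3 v z Q ≤
      KQ * Real.exp (-(0.0014 * Lam (ww v) z)) * M0 v y p z := by
  have a := (qu_use (ns := ns) (d := 1) (θ := 0.84) 0 (by linarith) hv hy hs hc hp
    (by norm_num)).trans (hQ _ 1 0 (by norm_num) (by norm_num) squarefree_one
      (by push_cast; linarith) (fun l hl hd => absurd (Nat.dvd_one.1 hd) hl.one_lt.ne')
      (Nat.coprime_one_right y))
  simp only [Nat.cast_one, one_dvd, ind_true, mul_one, Nat.primeFactors_one, card_empty,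
    pow_zero] at a
  have hL := Lam_nonneg (ww v) z
  calc _ = Real.exp (0.0252 * Lam (ww v) z) *
        ∑ Q ∈ sqr p, Ph v y ns p z Q * 0.84 ^ om (ww v) z Q := by
        rw [mul_sum]; exact sum_congr rfl fun Q _ => by rw [B3]; ring
    _ ≤ Real.exp (0.0252 * Lam (ww v) z) * (KQ * p * Real.exp (-(1 - 0.84 / 6) * Lam (ww v) z) /
        (y * (WW v : ℝ) ^ 2)) := by gcongr
    _ = KQ * (Real.exp (0.0252 * Lam (ww v) z) * Real.exp (-(1 - 0.84 / 6) * Lam (ww v) z)) *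
        (p / (y * (WW v : ℝ) ^ 2)) := by ring
    _ ≤ KQ * (Real.exp (-(0.0014 * Lam (ww v) z)) * GQ v z x0) * (p / (y * (WW v : ℝ) ^ 2)) := by
        refine mul_le_mul_of_nonneg_right (mul_le_mul_of_nonneg_left ?_ hK) (by positivity)
        rw [GQ, ← Real.exp_add, ← Real.exp_add]
        refine Real.exp_le_exp.2 ?_
        simp only [x0]
        linarith
    _ = _ := by rw [M0]; ring

lemma sum_B2 {KQ : ℝ} {v a1 y ns p : ℕ} {z : ℝ} (hQ : QUat KQ v y p z) (hz : 2 ≤ z) (hv : 100 ≤ v)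
    (ha : 1 ≤ a1) (hy : y ≡ 1 [MOD WW v]) (hs : Squarefree y) (hc : Nat.Coprime y p)
    (hp : 100 ≤ Real.sqrt p) (hK : 0 ≤ KQ) :
    ∑ Q ∈ sqr p, Ph v y ns p z Q * B2 v a1 y p z Q ≤
      3 * KQ * (16 / v + 3 / a1) * M0 v y p z := by
  have hz0 : 0 ≤ z := by linarith
  have hv' : (100 : ℝ) ≤ v := by exact_mod_cast hv
  have ha' : (1 : ℝ) ≤ a1 := by exact_mod_cast ha
  have hlz : 0 < Real.log z := Real.log_pos (by linarith)
  have hM : 0 ≤ M0 v y p z := by have := (Real.exp_pos _ : 0 < GQ v z x0); unfold M0; positivity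
  have key : ∀ l ∈ L1 v y z, ∀ c' : ℤ, ∑ Q ∈ sqr p, Ph v y ns p z Q * ind ((l : ℤ) ∣ Q.norm - c') ≤
      3 * KQ * M0 v y p z / l := by
    intro l hl c'
    obtain ⟨a, b, c, d⟩ := (mem_L1 hz0).1 hl
    have e := (qu_use (ns := ns) (d := l) (θ := 1) c' hz0 hv hy hs hc hp
      (by norm_num)).trans (hQ _ l c' (by norm_num) (by norm_num) a.squarefree c
        (fun l' hl' hd => by rwa [(Nat.prime_dvd_prime_iff_eq hl' a).1 hd])
        ((Nat.Prime.coprime_iff_not_dvd a).2 d).symm)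
    simp only [one_pow, one_mul, a.primeFactors, card_singleton, pow_one] at e
    refine e.trans (le_of_eq ?_)
    simp only [M0, GQ, x0]
    ring
  calc _ = ∑ l ∈ L1 v y z, ((2 * v / Real.sqrt l + Real.log l / (a1 * Real.log z)) *
          ∑ Q ∈ sqr p, Ph v y ns p z Q * ind ((l : ℤ) ∣ Q.norm - 0) + 2 * v / Real.sqrt l *
          ∑ Q ∈ sqr p, Ph v y ns p z Q * ind ((l : ℤ) ∣ Q.norm - p)) := by
        simp only [B2, mul_sum, ← sum_add_distrib]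
        rw [sum_comm]
        exact sum_congr rfl fun l _ => sum_congr rfl fun Q _ => by ring
    _ ≤ ∑ l ∈ L1 v y z, 3 * KQ * M0 v y p z * (4 * v * (1 / (l * Real.sqrt l)) +
          (Real.log l / l) / (a1 * Real.log z)) := by
        refine sum_le_sum fun l hl => ?_
        have := Real.log_natCast_nonneg l
        have b1 := mul_le_mul_of_nonneg_left (key l hl 0)
          (show 0 ≤ 2 * v / Real.sqrt l + Real.log l / (a1 * Real.log z) by positivity)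
        have b2 := mul_le_mul_of_nonneg_left (key l hl p)
          (show 0 ≤ 2 * v / Real.sqrt l by positivity)
        refine (add_le_add b1 b2).trans (le_of_eq ?_)
        ring
    _ ≤ 3 * KQ * M0 v y p z * (4 * v * (4 / (v : ℝ) ^ 2) + 3 * Real.log z / (a1 * Real.log z)) := by
        rw [← mul_sum, sum_add_distrib, ← mul_sum, ← sum_div]
        have s1 := sum_inv_sqrt_tail (by linarith [ww_ge hv] : 1 ≤ ww v) (S := L1 v y z)
          fun l hl => ((mem_L1 hz0).1 hl).2.1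
        rw [sqrt_ww] at s1
        have s2 := TorsRank.mertens3 (z := ⌊z⌋₊) (Nat.le_floor (by exact_mod_cast hz))
          (S := L1 v y z) fun l hl => ⟨((mem_L1 hz0).1 hl).1, Nat.le_floor ((mem_L1 hz0).1 hl).2.2.1⟩
        have s3 : Real.log ⌊z⌋₊ ≤ Real.log z := Real.log_le_log
          (by exact_mod_cast Nat.floor_pos.2 (by linarith)) (Nat.floor_le hz0)
        gcongr
        linarith
    _ = _ := by field_simp; ring

lemma sum_B1 {v y ns n0 p : ℕ} {z r : ℝ} (hz : 2 ≤ z) (hv : 100 ≤ v)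
    (hy : y ≡ 1 [MOD WW v]) (hs : Squarefree y) (hp : 100 ≤ Real.sqrt p) (hn0 : n0 ≠ 0)
    (hsn : sg n0 ≤ 1) (hr0 : 0 ≤ r)
    (hr : ∀ q : ℕ, q ≠ 0 → q ≤ p → ∀ A : Finset GI, (∀ α ∈ A, nm α = q) → (A.card : ℝ) ≤ r) :
    ∑ Q ∈ sqr p, Ph v y ns p z Q * B1 v y n0 p z (nm Q) ≤
      r * (p / y * (3 + 16 * v) / Real.sqrt z + (3 + 8 * v) * Real.sqrt p) := by
  have hz0 : 0 ≤ z := by linarith
  have hp1 : (1 : ℝ) ≤ p := Real.one_le_sqrt.1 (by linarith)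
  set T := (sqr p).filter fun Q => Ph v y ns p z Q ≠ 0
  have hT : ∀ q ∈ T.image nm, 0 < q ∧ q < p ∧ (y : ℤ) ∣ (q : ℤ) - p := fun q hq => by
    obtain ⟨Q, hQ, rfl⟩ := mem_image.1 hq
    obtain ⟨a, b⟩ := mem_filter.1 hQ
    obtain ⟨c, d⟩ := mem_sqr hp a
    exact ⟨by omega, d, nm_int Q ▸ (supp hz0 hy hs b).yd⟩
  have hb := bad_count (A := T.image nm) (L := L2 y p z) (M := y) (n0 := n0) (N := p) (X := p)
    (w0 := z) (V := 2 * v) p (Nat.pos_of_ne_zero hs.ne_zero) (by positivity) hp1 (by linarith)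
    (by positivity) hn0 hsn (fun x hx => ⟨(hT x hx).1, by exact_mod_cast (hT x hx).2.1.le⟩)
    (fun x hx x' _ => by
      have : (x : ℝ) ≤ p := by exact_mod_cast (hT x hx).2.1.le
      have : (0 : ℝ) ≤ x' := by positivity
      linarith)
    (fun x hx x' hx' => by
      have := dvd_sub (hT x hx).2.2 (hT x' hx').2.2
      rwa [sub_sub_sub_cancel_right] at this)
    (fun l hl => by
      obtain ⟨a, b, c, d⟩ := mem_filter.1 hl
      exact ⟨b, d, c, by exact_mod_cast Nat.lt_succ_iff.1 (mem_range.1 a)⟩)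
  calc _ = ∑ Q ∈ T, Ph v y ns p z Q * B1 v y n0 p z (nm Q) :=
        (sum_filter_of_ne fun Q _ h => left_ne_zero_of_mul h).symm
    _ ≤ ∑ Q ∈ T, B1 v y n0 p z (nm Q) := sum_le_sum fun Q _ =>
        mul_le_of_le_one_left (B1_nonneg _ _ _ _ _ _)
          (prod_le_one (fun l _ => (ph_mem _ _ _ _ l Q).1) fun l _ => (ph_mem _ _ _ _ l Q).2)
    _ = ∑ q ∈ T.image nm, (T.filter fun Q => nm Q = q).card • B1 v y n0 p z q :=
        sum_comp (B1 v y n0 p z) nm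
    _ ≤ ∑ q ∈ T.image nm, r * B1 v y n0 p z q := sum_le_sum fun q hq => by
        rw [nsmul_eq_mul]
        exact mul_le_mul_of_nonneg_right (hr q (hT q hq).1.ne' (hT q hq).2.1.le _
          fun α hα => (mem_filter.1 hα).2) (B1_nonneg _ _ _ _ _ _)
    _ ≤ _ := by
        rw [← mul_sum]
        refine mul_le_mul_of_nonneg_left (hb.trans (le_of_eq ?_)) hr0
        ring

lemma Qsum {KQ : ℝ} {u v a1 y ns n0 p : ℕ} {z r : ℝ} (h1 : LFat u) (h2 : Loc1Stmt)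
    (hQ : QUat KQ v y p z) (hz : 2 ≤ z) (hv : 100 ≤ v) (ha : 1 ≤ a1) (hy : y ≡ 1 [MOD WW v])
    (hs : Squarefree y) (hsg : sg y ≤ 1 / (2 * v)) (hc : Nat.Coprime y p) (hns0 : ns ≠ 0)
    (hsns : sg ns ≤ 1) (hn00 : n0 ≠ 0) (hsn : sg n0 ≤ 1) (hp : 100 ≤ Real.sqrt p) (hK : 0 ≤ KQ)
    (hn0 : ∀ l : ℕ, l.Prime → l ∣ n0 → (l : ℝ) ≤ z → l ∣ ns)
    (hns : ∀ l : ℕ, l.Prime → l ∣ ns → ww v < (l : ℝ) ∧ (l : ℝ) ≤ z ∧ ¬ l ∣ y) (hr0 : 0 ≤ r)
    (hr : ∀ q : ℕ, q ≠ 0 → q ≤ p → ∀ A : Finset GI, (∀ α ∈ A, nm α = q) → (A.card : ℝ) ≤ r)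
    (e1 : 4 * z ^ (u + 1) * ((WW v * y * z ^ u) ^ 2 * Real.sqrt p + (WW v * y * z ^ u) ^ 4) ≤
      c0 / 16 * M0 v y p z)
    (e2 : r * (p / y * (3 + 16 * v) / Real.sqrt z + (3 + 8 * v) * Real.sqrt p) ≤
      c0 / 16 * M0 v y p z)
    (e3 : 3 * KQ * (16 / v + 3 / a1) ≤ c0 / 16)
    (e4 : KQ * Real.exp (-(0.0014 * Lam (ww v) z)) ≤ c0 / 16) :
    c0 / 4 * M0 v y p z ≤
      ∑ Q ∈ (sqr p).filter (GoodQ v a1 y ns n0 p z), (1 / 6 : ℝ) ^ om (ww v) z Q := by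
  have hz0 : 0 ≤ z := by linarith
  have hv' : (100 : ℝ) ≤ v := by exact_mod_cast hv
  have hM : 0 ≤ M0 v y p z := by have := (Real.exp_pos _ : 0 < GQ v z x0); unfold M0; positivity
  have a0 := main_lower h1 h2 hz hv hy hs (hsg.trans (by gcongr; linarith)) hc hns0 hsns hp
  have a1' := (sum_B1 (ns := ns) hz hv hy hs hp hn00 hsn hr0 hr).trans e2
  have a2 := (sum_B2 (ns := ns) hQ hz hv ha hy hs hc hp hK).trans
    (mul_le_mul_of_nonneg_right e3 hM)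
  have a3 := (sum_B3 (ns := ns) hQ hz hv hy hs hc hp hK).trans (mul_le_mul_of_nonneg_right e4 hM)
  have key : ∑ Q ∈ sqr p, (Ph v y ns p z Q - (Ph v y ns p z Q * B1 v y n0 p z (nm Q) +
      Ph v y ns p z Q * B2 v a1 y p z Q + Ph v y ns p z Q * B3 v z Q)) ≤
      ∑ Q ∈ (sqr p).filter (GoodQ v a1 y ns n0 p z), (1 / 6 : ℝ) ^ om (ww v) z Q := by
    rw [sum_filter]
    refine sum_le_sum fun Q hQ => ?_
    have n0' := Ph_nonneg v y ns p z Q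
    have n1 := B1_nonneg v y n0 p z (nm Q)
    have n2 := B2_nonneg v a1 y p (by linarith : 1 ≤ z) Q
    have n3 := B3_nonneg v z Q
    rw [← mul_add, ← mul_add]
    split_ifs with h
    · have := Ph_le (ns := ns) hz0 hv hy hs hc Q
      nlinarith [mul_nonneg n0' (add_nonneg (add_nonneg n1 n2) n3)]
    · by_cases h0 : Ph v y ns p z Q = 0
      · rw [h0]; simp
      have := not_lt.1 fun hB => h (good_of hv ha hz (supp hz0 hy hs h0) hc hs.ne_zero hsg hn0 hns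
        (mem_sqr hp hQ).1 (mem_sqr hp hQ).2 hB)
      nlinarith
  rw [sum_sub_distrib, sum_add_distrib, sum_add_distrib] at key
  linarith

end SL

end Pool.Agent.Lib.LQ
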