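import Pool.Agent.Lib.LQ.Basic

/-! Block TE, auxiliary counts. -/

set_option autoImplicit false

open Finset
open scoped Classical

noncomputable section

namespace Pool.Agent.Lib.LQ

open Pool.Agent.Lib.MP_de94cf_nt (gg det inn)

namespace TE

lemma geo {ρ t B : ℝ} (hρ : 1 < ρ) (ht : 0 ≤ t) (hB : 0 ≤ B) (S : Finset ℕ)
    (h : ∀ i ∈ S, t * ρ ^ i ≤ B) : ∑ i ∈ S, t * ρ ^ i ≤ B * (ρ / (ρ - 1)) := by
  have h1 : 0 < ρ - 1 := by linarith
  rcases S.eq_empty_or_nonempty with rfl | hne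
  · rw [sum_empty]; positivity
  have h2 := h _ (S.max'_mem hne)
  refine (sum_le_sum_of_subset_of_nonneg (t := range (S.max' hne + 1))
    (fun i hi => mem_range.2 (Nat.lt_succ_of_le (S.le_max' i hi))) fun _ _ _ => by positivity).trans ?_
  rw [← mul_sum, geom_sum_eq hρ.ne', ← mul_div_assoc, ← mul_div_assoc, pow_succ]
  exact div_le_div_of_nonneg_right (by nlinarith) h1.le

lemma GF_ne {w z : ℝ} {π : GI} (h : π ∈ GF w z) : π ≠ 0 := (GF_prime h).ne_zero

lemma markov {w z M t : ℝ} (hM : 0 ≤ M) (ht : 0 < t) (f : GI → ℝ) (hf : ∀ π, 0 ≤ f π) :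
    ((((disc M).erase 0).filter fun α => t < ∑ π ∈ sm w z α, f π).card : ℝ) ≤
      8 * M * (∑ π ∈ GF w z, f π / nm π) / t := by
  rw [le_div_iff₀ ht, mul_sum]
  calc _ = ∑ _α ∈ ((disc M).erase 0).filter fun α => t < ∑ π ∈ sm w z α, f π, t := by
        rw [sum_const, nsmul_eq_mul]
    _ ≤ ∑ α ∈ ((disc M).erase 0).filter fun α => t < ∑ π ∈ sm w z α, f π, ∑ π ∈ sm w z α, f π :=
        sum_le_sum fun α h => (mem_filter.1 h).2.le
    _ ≤ ∑ α ∈ (disc M).erase 0, ∑ π ∈ sm w z α, f π :=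
        sum_le_sum_of_subset_of_nonneg (filter_subset _ _) fun _ _ _ => sum_nonneg fun π _ => hf π
    _ = ∑ π ∈ GF w z, f π * (((disc M).erase 0).filter fun α => π ∣ α).card := by
        simp only [sm, sum_filter]
        rw [sum_comm]
        exact sum_congr rfl fun π _ => by rw [← sum_filter, sum_const, nsmul_eq_mul, mul_comm]
    _ ≤ _ := sum_le_sum fun π h =>
        (mul_le_mul_of_nonneg_left (card_mult_le hM (GF_ne h)) (hf π)).trans (le_of_eq (by ring))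

lemma sum_GF_sq {w : ℝ} (hw : 1 ≤ w) (z : ℝ) : ∑ π ∈ GF w z, 1 / (nm π : ℝ) ^ 2 ≤ 4 / w := by
  rw [sum_GF w z fun l => 1 / (l : ℝ) ^ 2]
  have := sum_inv_sq_tail hw (S := PP w z) fun l hl => (mem_PP.1 hl).2.2.1
  rw [show 4 / w = 2 * (2 / w) by ring]
  linarith

lemma card_sq {w z M : ℝ} (hM : 0 ≤ M) (hw : 1 ≤ w) :
    ((((disc M).erase 0).filter fun α => ∃ l ∈ PP w z, l ^ 2 ∣ nm α).card : ℝ) ≤ 64 * M / w := by
  have h1 : ((disc M).erase 0).filter (fun α => ∃ l ∈ PP w z, l ^ 2 ∣ nm α) ⊆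
      (GF w z).biUnion fun π => ((disc M).erase 0).filter (fun α => π ^ 2 ∣ α) ∪
        ((disc M).erase 0).filter fun α => (nm π : GI) ∣ α := fun α hα => by
    obtain ⟨h0, l, hl, hd⟩ := mem_filter.1 hα
    obtain ⟨π, hπ, rfl⟩ := exists_GH hl
    have hπ' := (mem_GH.1 hπ).1
    rcases sq_dvd_nm (mem_PP.1 hl).1 hd with h | h | h
    · exact mem_biUnion.2 ⟨π, hπ', mem_union_left _ (mem_filter.2 ⟨h0, h⟩)⟩
    · exact mem_biUnion.2 ⟨star π, star_mem_GF hπ', mem_union_left _ (mem_filter.2 ⟨h0, h⟩)⟩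
    · exact mem_biUnion.2 ⟨π, hπ', mem_union_right _ (mem_filter.2 ⟨h0, h⟩)⟩
  refine (Nat.cast_le.2 ((card_le_card h1).trans card_biUnion_le)).trans ?_
  rw [Nat.cast_sum]
  refine (sum_le_sum (g := fun π => 16 * M * (1 / (nm π : ℝ) ^ 2)) fun π h => ?_).trans ?_
  · have a1 := card_mult_le hM (pow_ne_zero 2 (GF_ne h))
    have a2 := card_mult_le hM (d := (nm π : GI))
      (Nat.cast_ne_zero.2 fun k => GF_ne h (nm_eq_zero.1 k))
    rw [nm_pow] at a1
    rw [nm_natCast] at a2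
    push_cast at a1 a2
    refine (Nat.cast_le.2 (card_union_le _ _)).trans ?_
    rw [Nat.cast_add]
    refine (add_le_add a1 a2).trans (le_of_eq (by ring))
  · rw [← mul_sum]
    exact (mul_le_mul_of_nonneg_left (sum_GF_sq hw z) (by positivity)).trans (le_of_eq (by ring))

/-- number of sieving primes dividing the norm -/
def oc (y z : ℝ) (α : GI) : ℕ := ((PP y z).filter fun l => l ∣ nm α).card

lemma dvd_per {π x y : GI} {l : ℕ} (h : nm π = l) (hxy : ((l ^ 2 : ℕ) : GI) ∣ x - y) :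
    (π ∣ x ↔ π ∣ y) ∧ (star π ∣ x ↔ star π ∣ y) := by
  have h1 : π * star π ∣ x - y := by
    rw [mul_star_eq, h]
    exact (Nat.cast_dvd_cast (dvd_pow_self l two_ne_zero)).trans hxy
  exact ⟨dvd_iff_dvd_of_dvd_sub ((dvd_mul_right _ _).trans h1),
    dvd_iff_dvd_of_dvd_sub ((dvd_mul_left _ _).trans h1)⟩

lemma local_mean (h2 : Loc1Stmt) {y z : ℝ} {l : ℕ} (hl : l ∈ PP y z) :
    Per1 (l ^ 2) (fun x => ind (l ∣ nm x)) ∧
      2 / ((l : ℝ) + 1) ≤ E1 (l ^ 2) (fun x => ind (l ∣ nm x)) ∧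
      E1 (l ^ 2) (fun x => ind (l ∣ nm x)) ≤ 2 / l := by
  obtain ⟨π, -, rfl⟩ := exists_GH hl
  obtain ⟨hp, h4, -⟩ := mem_PP.1 hl
  have e1 := h2.2.2.1 _ π hp rfl
  have e2 := h2.2.2.1 _ (star π) hp (nm_star π)
  have e3 := h2.1 _ 0 hp
  refine ⟨fun x y hxy => ?_, ?_, ?_⟩
  · simp only [dvd_nm_iff hp, (dvd_per rfl hxy).1, (dvd_per rfl hxy).2]
  · refine le_trans ?_ (E1_mono (φ := fun x => ind (π ∣ x) + ind (star π ∣ x) -
      ind ((nm π : GI) ∣ x - 0)) fun x => ?_)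
    · rw [E1_sub, E1_add, e1, e2, e3]
      have : (1 : ℝ) ≤ nm π := by exact_mod_cast hp.one_le
      rw [div_le_iff₀ (by positivity)]
      field_simp
      nlinarith
    · have := ind_nonneg ((nm π : GI) ∣ x - 0)
      by_cases a : π ∣ x <;> by_cases b : star π ∣ x
      · rw [ind_true a, ind_true b, ind_true ((dvd_nm_iff hp).2 (Or.inl a)), sub_zero,
          ind_true (natCast_dvd_of hp (by omega) a b)]
        norm_num
      · rw [ind_true a, ind_false b, ind_true ((dvd_nm_iff hp).2 (Or.inl a))]; linarith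
      · rw [ind_false a, ind_true b, ind_true ((dvd_nm_iff hp).2 (Or.inr b))]; linarith
      · rw [ind_false a, ind_false b]; linarith [ind_nonneg (nm π ∣ nm x)]
  · refine (E1_mono (ψ := fun x => ind (π ∣ x) + ind (star π ∣ x)) fun x => ?_).trans ?_
    · rw [dvd_nm_iff hp]; exact ind_or_le _ _
    · rw [E1_add, e1, e2]; exact le_of_eq (by ring)

lemma sieveU (h1 : LFLStmt) (h2 : Loc1Stmt) : ∃ u : ℕ, ∀ y z M lam : ℝ, 4 ≤ y → 2 ≤ z → 1 ≤ M →
    0 ≤ lam → lam ≤ 1 → ∑ α ∈ disc M, lam ^ oc y z α ≤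
      18 * M * Real.exp (-(1 - lam) * Lam y z) + 16 * z ^ (5 * u + 1) * Real.sqrt M := by
  obtain ⟨u, hu⟩ := h1 2 1 one_pos
  refine ⟨u, fun y z M lam hy hz hM h0 h1 => ?_⟩
  set r := ⌊Real.sqrt M⌋₊ with hr
  have hs : 1 ≤ Real.sqrt M := Real.one_le_sqrt.2 hM
  have hL : ((2 * r + 1 : ℕ) : ℝ) ≤ 3 * Real.sqrt M := by
    have : (r : ℝ) ≤ Real.sqrt M := Nat.floor_le (by positivity)
    push_cast; linarith
  have hE : ∀ l ∈ PP y z, E1 (l ^ 2) (fun x => 1 - (1 - lam) * ind (l ∣ nm x)) =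
      1 - (1 - lam) * E1 (l ^ 2) (fun x => ind (l ∣ nm x)) := fun l hl => by
    rw [E1_sub, E1_smul, E1_const (Nat.one_le_pow _ _ (mem_PP.1 hl).1.pos)]
  have hb : ∀ l ∈ PP y z, (1 - lam) * E1 (l ^ 2) (fun x => ind (l ∣ nm x)) ≤ 2 / l ∧
      2 / (l : ℝ) ≤ 1 / 2 := fun l hl => by
    obtain ⟨-, a1, a2⟩ := local_mean h2 hl
    have a3 := (mem_PP.1 hl).2.2.1
    have : 0 ≤ 2 / ((l : ℝ) + 1) := by positivity
    exact ⟨by nlinarith, by rw [div_le_iff₀ (by linarith)]; linarith⟩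
  have key := hu (-r) (-r) (2 * r + 1) z ∅ (PP y z)
    (fun l x => 1 - (1 - lam) * ind (l ∣ nm x)) hz (disjoint_empty_left _) (fun l hl => by
      rw [empty_union] at hl
      refine ⟨(mem_PP.1 hl).1, fun a b hab => ?_, fun x => ?_⟩
      · have := (local_mean h2 hl).1 a b hab
        simp only at this ⊢
        rw [this]
      · have := ind_nonneg (l ∣ nm x)
        have := ind_le_one (l ∣ nm x)
        constructor <;> nlinarith) fun l hl => by
      rw [hE l hl, sub_sub_cancel]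
      exact ⟨(mem_PP.1 hl).2.2.2, (hb l hl).1.trans (hb l hl).2, (hb l hl).1⟩
  rw [empty_union, prod_empty, one_mul, one_mul] at key
  have hP : ∏ l ∈ PP y z, E1 (l ^ 2) (fun x => 1 - (1 - lam) * ind (l ∣ nm x)) ≤
      Real.exp (-(1 - lam) * Lam y z) := by
    rw [Lam, mul_sum, Real.exp_sum]
    refine prod_le_prod (fun l hl => ?_) fun l hl => ?_
    · rw [hE l hl]; linarith [(hb l hl).1, (hb l hl).2]
    · rw [hE l hl]
      have := mul_le_mul_of_nonneg_left (local_mean h2 hl).2.1 (sub_nonneg.2 h1)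
      linarith [Real.add_one_le_exp (-(1 - lam) * (2 / ((l : ℝ) + 1)))]
  have hsub : disc M ⊆ Sqr (-r) (-r) (2 * r + 1) := fun α hα => by
    have a1 := mem_disc.1 hα
    rw [nm_real] at a1
    have a2 : ∀ x : ℤ, (x : ℝ) ^ 2 ≤ M → |x| ≤ r := fun x hx => by
      have : ((x.natAbs : ℕ) : ℝ) ≤ Real.sqrt M := by
        rw [Nat.cast_natAbs, Int.cast_abs]; exact Real.abs_le_sqrt hx
      have := Nat.le_floor this
      rw [← hr] at this
      rw [← Int.natCast_natAbs]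
      exact_mod_cast this
    have a3 := abs_le.1 (a2 α.re (by nlinarith))
    have a4 := abs_le.1 (a2 α.im (by nlinarith))
    rw [mem_Sqr]
    push_cast
    omega
  have hpt : ∀ α, lam ^ oc y z α = ∏ l ∈ PP y z, (1 - (1 - lam) * ind (l ∣ nm α)) := fun α => by
    rw [oc, ← prod_const, prod_filter]
    exact prod_congr rfl fun l _ => by unfold ind; split_ifs <;> simp
  refine (sum_le_sum_of_subset_of_nonneg hsub fun _ _ _ => by positivity).trans ?_
  simp only [hpt]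
  have a1 : ((2 * r + 1 : ℕ) : ℝ) ^ 2 ≤ 9 * M := by
    have := pow_le_pow_left₀ (by positivity) hL 2
    rwa [mul_pow, Real.sq_sqrt (by linarith), show (3 : ℝ) ^ 2 = 9 by norm_num] at this
  have a2 := mul_le_mul a1 hP (prod_nonneg fun l hl => by
    rw [hE l hl]; linarith [(hb l hl).1, (hb l hl).2]) (by positivity)
  have a3 : (z ^ u) ^ 2 * ((2 * r + 1 : ℕ) : ℝ) + (z ^ u) ^ 4 ≤ 4 * (z ^ u) ^ 4 * Real.sqrt M := by
    have b1 : 1 ≤ z ^ u := one_le_pow₀ (by linarith)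
    have b2 : (z ^ u) ^ 2 ≤ (z ^ u) ^ 4 := pow_le_pow_right₀ b1 (by norm_num)
    have b3 := mul_le_mul b2 hL (by positivity) (by positivity)
    nlinarith [pow_pos (show 0 < z ^ u by positivity) 4]
  have a4 := mul_le_mul_of_nonneg_left a3 (show 0 ≤ 4 * z ^ (u + 1) by positivity)
  have a5 : 4 * z ^ (u + 1) * (4 * (z ^ u) ^ 4 * Real.sqrt M) =
      16 * z ^ (5 * u + 1) * Real.sqrt M := by ring
  linarith [(abs_le.1 key).2]

lemma partner {X R : ℝ} (hX : 0 < X) (hR : 1 ≤ R) (B : Finset GI) :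
    (((Edges X R).filter fun e => e.1 ∈ B).card : ℝ) ≤ (2 * R ^ 2 + 1) * B.card := by
  rw [card_eq_sum_card_fiberwise (f := Prod.fst) (s := (Edges X R).filter fun e => e.1 ∈ B)
    (t := B) fun e he => (mem_filter.1 (mem_coe.1 he)).2, Nat.cast_sum, mul_comm, ← nsmul_eq_mul]
  refine sum_le_card_nsmul _ _ _ fun α _ => ?_
  rcases (((Edges X R).filter fun e => e.1 ∈ B).filter fun e => e.1 = α).eq_empty_or_nonempty
    with h | ⟨e, he⟩
  · rw [h, card_empty, Nat.cast_zero]; positivity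
  obtain ⟨he', rfl⟩ := mem_filter.1 he
  obtain ⟨h1, h2, -⟩ := mem_Edges.1 (mem_filter.1 he').1
  refine le_trans (Nat.cast_le.2 (card_le_card_of_injOn Prod.snd (fun x hx => ?_) ?_))
    ((card_line_le (cont_of_det h1).1 1 (M := R ^ 2 * X) (by positivity)).trans ?_)
  · obtain ⟨hx, hx'⟩ := mem_filter.1 hx
    obtain ⟨k1, -, -, -, k2⟩ := mem_Edges.1 (mem_filter.1 hx).1
    exact mem_coe.2 (mem_filter.2 ⟨mem_disc.2 k2, hx' ▸ k1⟩)
  · intro x hx y hy hxy
    exact Prod.ext ((mem_filter.1 hx).2.trans (mem_filter.1 hy).2.symm) hxy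
  · have h3 : 0 < X / R ^ 2 := by positivity
    have : Real.sqrt (R ^ 2 * X / nm e.1) ≤ R ^ 2 := by
      rw [Real.sqrt_le_left (by positivity), div_le_iff₀ (h3.trans_le h2)]
      rw [div_le_iff₀ (by positivity)] at h2
      nlinarith [sq_nonneg R]
    linarith

lemma partner' {X R : ℝ} (hX : 0 < X) (hR : 1 ≤ R) (B : Finset GI) :
    (((Edges X R).filter fun e => star e.2 ∈ B).card : ℝ) ≤ (2 * R ^ 2 + 1) * B.card := by
  refine le_trans (Nat.cast_le.2 (card_le_card_of_injOn (fun e => (star e.2, star e.1))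
    (fun e he => ?_) fun x _ y _ h => ?_)) (partner hX hR B)
  · obtain ⟨he, hB⟩ := mem_filter.1 he
    obtain ⟨h1, h2, h3, h4, h5⟩ := mem_Edges.1 he
    refine mem_coe.2 (mem_filter.2 ⟨mem_Edges.2 ⟨?_, ?_⟩, hB⟩)
    · refine Eq.trans ?_ h1; simp [det]; ring
    · simp only [nm_star]; exact ⟨h4, h5, h2, h3⟩
  · obtain ⟨h1, h2⟩ := Prod.ext_iff.1 h
    exact Prod.ext (star_injective h2) (star_injective h1)

lemma joint (h3 : PEStmt) (h4 : LocStmt) : ∃ K : ℝ, 0 ≤ K ∧ ∀ (w z M : ℝ) (E : Finset (GI × GI)),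
    1 ≤ w → 1 ≤ z → z ^ 140 ≤ M → (∀ e ∈ E, det e.1 e.2 = 1 ∧ (nm e.1 : ℝ) ≤ M ∧
      (nm e.2 : ℝ) ≤ M ∧ ∃ l ∈ PP w z, l ∣ nm e.1 ∧ l ∣ nm e.2) →
    (E.card : ℝ) ≤ 2304 * M / w + K * M / z := by
  obtain ⟨K0, hK⟩ := h3
  set ρ : ℝ := 2 ^ (4 / 5 : ℝ) with hρ
  have hρ1 : 1 < ρ := Real.one_lt_rpow (by norm_num) (by norm_num)
  have hκ : 0 ≤ ρ / (ρ - 1) := div_nonneg (by linarith) (by linarith)
  refine ⟨288 * |K0| * (ρ / (ρ - 1)), by positivity, fun w z M E hw hz hM hE => ?_⟩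
  have hM1 : 1 ≤ M := (one_le_pow₀ hz).trans hM
  set D := ⌈Real.sqrt M⌉₊ with hD
  have hs : 1 ≤ Real.sqrt M := Real.one_le_sqrt.2 hM1
  have d1 : Real.sqrt M ≤ D := Nat.le_ceil _
  have d2 : (D : ℝ) ≤ 2 * Real.sqrt M := (Nat.ceil_lt_add_one (by positivity)).le.trans (by linarith)
  have d3 : (D : ℝ) ^ 2 ≤ 4 * M := by
    have := pow_le_pow_left₀ (by positivity) d2 2
    rwa [mul_pow, Real.sq_sqrt (by linarith), show (2 : ℝ) ^ 2 = 4 by norm_num] at this
  have d4 : 1 ≤ D := by exact_mod_cast hs.trans d1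
  have d5 : ∀ x : ℤ, (x : ℝ) ^ 2 ≤ M → |x| ≤ D := fun x hx => by
    exact_mod_cast (Real.abs_le_sqrt hx).trans d1
  let S := (range (D + 1)).filter fun j => 2 ^ j ≤ D
  let B := S.biUnion fun j => (GF w z).biUnion fun π =>
    (Box (2 ^ j) D).filter fun x => π ∣ Lf 1 0 x ∧ star π ∣ Lf 0 1 x
  have hsub : E ⊆ ({1, -1, ⟨0, 1⟩, ⟨0, -1⟩} : Finset GI).biUnion fun ε =>
      B.image fun x => (star ε * x.1, star ε * x.2) := fun e he => by
    obtain ⟨a1, a2, a3, l, hl, a4, a5⟩ := hE e he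
    obtain ⟨ε, hε, hsec⟩ := exists_unit_sector e.1
    have hε1 : ∀ α, star ε * (ε * α) = α := fun α => by
      rw [← mul_assoc, mul_comm (star ε), mul_star_eq, nm_eq_one.2 hε, Nat.cast_one, one_mul]
    have hn : ∀ α, nm (ε * α) = nm α := fun α => by rw [nm_mul, nm_eq_one.2 hε, one_mul]
    refine mem_biUnion.2 ⟨ε, by simpa using unit_cases hε, mem_image.2
      ⟨(ε * e.1, ε * e.2), ?_, Prod.ext (hε1 _) (hε1 _)⟩⟩
    rw [← det_unit hε] at a1
    rw [← hn] at a2 a3 a4 a5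
    generalize ε * e.1 = α at *
    generalize ε * e.2 = β at *
    rw [nm_real] at a2 a3
    have b1 : 0 < α.im := by
      refine lt_of_le_of_ne ((abs_nonneg _).trans hsec) fun h => ?_
      have : α.re = 0 := abs_nonpos_iff.1 (h ▸ hsec)
      simp [det, this, ← h] at a1
    have b2 := abs_le.1 (d5 α.im (by nlinarith))
    have b3 := Nat.pow_log_le_self 2 (x := α.im.toNat) (by omega)
    have b4 := Nat.lt_pow_succ_log_self one_lt_two α.im.toNat
    have b5 := Nat.lt_two_pow_self (n := Nat.log 2 α.im.toNat)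
    rw [Nat.pow_succ] at b4
    have hbox : (α, β) ∈ Box (2 ^ Nat.log 2 α.im.toNat) D := by
      rw [mem_Box Nat.one_le_two_pow]
      dsimp only
      exact ⟨by omega, by omega, hsec.trans (by omega), d5 _ (by nlinarith), a1⟩
    obtain ⟨π, hπ, rfl⟩ := exists_GH hl
    have hπ' := (mem_GH.1 hπ).1
    have hp := (mem_PP.1 hl).1
    have hno : ∀ τ : GI, (nm τ).Prime → τ ∣ α → ¬ τ ∣ β := fun τ h k1 k2 => by
      have := dvd_res h (x := (α, β)) (u := 1) (v := 0) (u' := 0) (v' := 1) (by simp [a1])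
        (by simpa [Lf] using k1) (by simpa [Lf] using k2)
      norm_num at this
      exact h.one_lt.ne' (Nat.dvd_one.1 (by exact_mod_cast this))
    refine mem_biUnion.2 ⟨Nat.log 2 α.im.toNat, mem_filter.2 ⟨mem_range.2 (by omega), by omega⟩, ?_⟩
    rcases (dvd_nm_iff hp).1 a4 with c | c
    · exact mem_biUnion.2 ⟨π, hπ', mem_filter.2 ⟨hbox, by simpa [Lf] using c, by
        simpa [Lf] using ((dvd_nm_iff hp).1 a5).resolve_left (hno π hp c)⟩⟩
    · exact mem_biUnion.2 ⟨star π, star_mem_GF hπ', mem_filter.2 ⟨hbox, by simpa [Lf] using c, by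
        simpa [Lf] using ((dvd_nm_iff hp).1 a5).resolve_right (hno _ (by rwa [nm_star]) c)⟩⟩
  have c1 : (E.card : ℝ) ≤ 4 * B.card := by
    have := (card_le_card hsub).trans (card_biUnion_le.trans (sum_le_card_nsmul _ _ B.card
      fun _ _ => card_image_le))
    have h5 : ({1, -1, ⟨0, 1⟩, ⟨0, -1⟩} : Finset GI).card ≤ 4 := card_le_four
    exact_mod_cast this.trans (Nat.mul_le_mul_right _ h5)
  have c2 : ∀ j ∈ S, ∀ π ∈ GF w z, (((Box (2 ^ j) D).filter fun x => π ∣ Lf 1 0 x ∧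
      star π ∣ Lf 0 1 x).card : ℝ) ≤ 18 * D * 2 ^ j * (1 / (nm π : ℝ) ^ 2) +
        2 * |K0| * z ^ 12 * D * ρ ^ j := fun j hj π hπ => by
    obtain ⟨hp, a4, -, hl⟩ := mem_PP.1 (mem_GF.1 hπ).1
    have e1 := hK (2 ^ j) D Nat.one_le_two_pow d4 {nm π}
      (fun _ x => ind (π ∣ Lf 1 0 x ∧ star π ∣ Lf 0 1 x)) fun l hl => by
        obtain rfl := mem_singleton.1 hl
        refine ⟨hp, fun x y k1 k2 => ?_, fun x => ⟨ind_nonneg _, ind_le_one _⟩⟩
        simp [Lf, (dvd_per rfl k1).1, (dvd_per rfl k2).2]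
    have hl1 : ¬ ((nm π : ℤ) ∣ 1) := fun h => hp.one_lt.ne' (Nat.dvd_one.1 (by exact_mod_cast h))
    have e2 := (h4 _ π hp (by omega) rfl 1 0 0 1 (fun h => hl1 h.1) fun h => hl1 h.2).2.2
    simp only [prod_singleton, sum_ind] at e1
    have e3 := card_Box_le (C := 2 ^ j) (D := D) Nat.one_le_two_pow
    have e4 : ((2 ^ j : ℕ) : ℝ) ≤ D := by exact_mod_cast (mem_filter.1 hj).2
    have e5 : (1 : ℝ) ≤ D := by exact_mod_cast d4
    have e6 : (0 : ℝ) < nm π := by exact_mod_cast hp.pos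
    have e7 : ((2 ^ j : ℕ) : ℝ) ^ (4 / 5 : ℝ) = ρ ^ j := by
      rw [Nat.cast_pow, ← Real.rpow_natCast, ← Real.rpow_mul (by positivity), mul_comm,
        Real.rpow_mul (by positivity), Real.rpow_natCast]; rfl
    have e8 : 1 / ((nm π : ℝ) * (nm π + 1)) ≤ 1 / (nm π : ℝ) ^ 2 :=
      one_div_le_one_div_of_le (by positivity) (by nlinarith)
    have e9 : ((Box (2 ^ j) D).card : ℝ) ≤ 18 * D * 2 ^ j := by
      push_cast at e3; nlinarith [show (0 : ℝ) < 2 ^ j by positivity]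
    have f1 := (mul_le_mul_of_nonneg_left (e2.trans e8) (Nat.cast_nonneg (Box (2 ^ j) D).card)).trans
      (mul_le_mul_of_nonneg_right e9 (by positivity))
    have f2 : K0 * (nm π : ℝ) ^ 12 * (((2 ^ j : ℕ) : ℝ) + D) * ρ ^ j ≤
        |K0| * z ^ 12 * (2 * D) * ρ ^ j := by
      gcongr
      · exact le_abs_self _
      · linarith
    rw [e7] at e1
    linarith [(abs_le.1 e1).2]
  have c3 : ∑ j ∈ S, (1 : ℝ) * 2 ^ j ≤ D * (2 / (2 - 1)) := geo one_lt_two zero_le_one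
    (by positivity) S fun j hj => by rw [one_mul]; exact_mod_cast (mem_filter.1 hj).2
  have c4 : ∑ j ∈ S, (1 : ℝ) * ρ ^ j ≤ D / z ^ 14 * (ρ / (ρ - 1)) := geo hρ1 zero_le_one
    (by positivity) S fun j hj => by
      have e4 : (2 : ℝ) ^ j ≤ D := by exact_mod_cast (mem_filter.1 hj).2
      have e5 : z ^ 70 ≤ D := le_trans (Real.le_sqrt_of_sq_le (by rwa [← pow_mul])) d1
      rw [one_mul, le_div_iff₀ (by positivity)]
      refine le_of_pow_le_pow_left₀ (n := 5) (by norm_num) (by positivity) ?_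
      rw [mul_pow, ← pow_mul, mul_comm j, pow_mul, hρ, ← Real.rpow_natCast _ 5,
        ← Real.rpow_mul (by norm_num), ← pow_mul, show (4 / 5 * (5 : ℕ) : ℝ) = (4 : ℕ) by norm_num,
        Real.rpow_natCast, ← pow_mul, mul_comm 4, pow_mul, pow_succ (D : ℝ) 4]
      gcongr
  have c5 : ((GF w z).card : ℝ) ≤ 9 * z :=
    (Nat.cast_le.2 (card_le_card (filter_subset _ _))).trans (card_disc_le hz)
  have c6 : (B.card : ℝ) ≤ ∑ j ∈ S, (18 * D * (4 / w) * (1 * 2 ^ j) +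
      9 * z * (2 * |K0| * z ^ 12 * D) * (1 * ρ ^ j)) := by
    refine (Nat.cast_le.2 card_biUnion_le).trans ?_
    rw [Nat.cast_sum]
    refine sum_le_sum fun j hj => (Nat.cast_le.2 card_biUnion_le).trans ?_
    rw [Nat.cast_sum]
    refine (sum_le_sum (c2 j hj)).trans ?_
    rw [sum_add_distrib, ← mul_sum, sum_const, nsmul_eq_mul]
    refine add_le_add ((mul_le_mul_of_nonneg_left (sum_GF_sq hw z) (by positivity)).trans
      (le_of_eq (by ring))) ((mul_le_mul_of_nonneg_right c5 (by positivity)).trans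
      (le_of_eq (by ring)))
  rw [sum_add_distrib, ← mul_sum _ _ (18 * D * (4 / w)),
    ← mul_sum _ _ (9 * z * (2 * |K0| * z ^ 12 * D))] at c6
  have c7 := mul_le_mul_of_nonneg_left c3 (show 0 ≤ 18 * D * (4 / w) by positivity)
  have c8 := mul_le_mul_of_nonneg_left c4
    (show 0 ≤ 9 * z * (2 * |K0| * z ^ 12 * D) by positivity)
  have c9 : 18 * D * (4 / w) * (D * (2 / (2 - 1))) ≤ 576 * M / w := by
    rw [show 18 * D * (4 / w) * (D * (2 / (2 - 1))) = 144 * (D : ℝ) ^ 2 / w by ring]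
    exact div_le_div_of_nonneg_right (by linarith) (by linarith)
  have c10 : 9 * z * (2 * |K0| * z ^ 12 * D) * (D / z ^ 14 * (ρ / (ρ - 1))) ≤
      72 * |K0| * (ρ / (ρ - 1)) * M / z := by
    rw [show 9 * z * (2 * |K0| * z ^ 12 * D) * (D / z ^ 14 * (ρ / (ρ - 1))) =
      18 * |K0| * (ρ / (ρ - 1)) * (D : ℝ) ^ 2 / z by field_simp; ring,
      show 72 * |K0| * (ρ / (ρ - 1)) * M = 18 * |K0| * (ρ / (ρ - 1)) * (4 * M) by ring]
    gcongr
  rw [show 2304 * M / w = 4 * (576 * M / w) by ring, show 288 * |K0| * (ρ / (ρ - 1)) * M / z =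
    4 * (72 * |K0| * (ρ / (ρ - 1)) * M / z) by ring]
  linarith

end TE
end Pool.Agent.Lib.LQ
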