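import Pool.Agent.Lib.LQ.Basic

/-! Local means of products of sieve weights and the generic upper bound sieve. -/

set_option autoImplicit false

open Finset
open scoped Classical

noncomputable section

namespace Pool.Agent.Lib.LQ

open Pool.Agent.Lib.MP_de94cf_nt (gg det inn)

namespace U2a

lemma bonf {ι : Type*} (s : Finset ι) (x : ι → ℝ) (h : ∀ i, 0 ≤ x i ∧ x i ≤ 1) :
    1 - ∑ i ∈ s, x i ≤ ∏ i ∈ s, (1 - x i) ∧
      ∏ i ∈ s, (1 - x i) ≤ 1 - ∑ i ∈ s, x i + ((∑ i ∈ s, x i) ^ 2 - ∑ i ∈ s, x i ^ 2) := by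
  induction s using Finset.induction_on with
  | empty => simp
  | insert a s ha ih =>
    rw [prod_insert ha, sum_insert ha, sum_insert ha]
    have hS : 0 ≤ ∑ i ∈ s, x i := sum_nonneg fun i _ => (h i).1
    obtain ⟨h1, h2⟩ := ih
    obtain ⟨h3, h4⟩ := h a
    constructor
    · nlinarith [mul_le_mul_of_nonneg_left h1 (sub_nonneg.2 h4), mul_nonneg h3 hS]
    · nlinarith [mul_le_mul_of_nonneg_left h1 h3, mul_nonneg h3 hS]

lemma sq_sub {ι : Type*} (s : Finset ι) (x : ι → ℝ) :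
    (∑ i ∈ s, x i) ^ 2 - ∑ i ∈ s, x i ^ 2 = ∑ i ∈ s, ∑ j ∈ s.erase i, x i * x j := by
  rw [sq, sum_mul_sum, ← sum_sub_distrib]
  refine sum_congr rfl fun i hi => ?_
  rw [← add_sum_erase s _ hi]
  ring

lemma dvd_nm_congr {l : ℕ} {α β : GI} (h : (l : GI) ∣ α - β) : l ∣ nm α ↔ l ∣ nm β := by
  obtain ⟨t, ht⟩ := h
  have e : α = β + l * t := by rw [← ht]; ring
  rw [← Int.natCast_dvd_natCast, ← Int.natCast_dvd_natCast (n := nm β), nm_int, nm_int, e]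
  have : (β + l * t).norm = β.norm + l * (2 * (β.re * t.re + β.im * t.im) + l * t.norm) := by
    simp [Zsqrtd.norm_def]
    ring
  rw [this]
  exact dvd_add_left (dvd_mul_right _ _)

lemma Lf_congr {l : ℕ} {x y : GI × GI} (h1 : ((l ^ 2 : ℕ) : GI) ∣ x.1 - y.1)
    (h2 : ((l ^ 2 : ℕ) : GI) ∣ x.2 - y.2) (u v : ℤ) : (l : GI) ∣ Lf u v x - Lf u v y := by
  have hl : (l : GI) ∣ ((l ^ 2 : ℕ) : GI) := by
    rw [Nat.cast_pow]
    exact dvd_pow_self _ two_ne_zero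
  have : Lf u v x - Lf u v y = u * (x.1 - y.1) + v * (x.2 - y.2) := by
    unfold Lf
    ring
  rw [this]
  exact dvd_add ((hl.trans h1).mul_left _) ((hl.trans h2).mul_left _)

lemma mul_Lf_congr {l : ℕ} {x y : GI × GI} (h1 : ((l ^ 2 : ℕ) : GI) ∣ x.1 - y.1)
    (h2 : ((l ^ 2 : ℕ) : GI) ∣ x.2 - y.2) (D : GI) (u v : ℤ) :
    (l : GI) ∣ D * Lf u v x ↔ (l : GI) ∣ D * Lf u v y := by
  have := (Lf_congr h1 h2 u v).mul_left D
  rw [mul_sub] at this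
  exact (dvd_iff_dvd_of_dvd_sub this)

lemma dvd_det {l : ℕ} {x : GI × GI} (h : ((l ^ 2 : ℕ) : ℤ) ∣ det x.1 x.2 - 1) :
    (l : ℤ) ∣ det x.1 x.2 - 1 := by
  refine dvd_trans ?_ h
  rw [Nat.cast_pow]
  exact dvd_pow_self _ two_ne_zero

lemma Em_congr {m : ℕ} {φ ψ : GI × GI → ℝ}
    (h : ∀ x : GI × GI, (m : ℤ) ∣ det x.1 x.2 - 1 → φ x = ψ x) : Em m φ = Em m ψ :=
  le_antisymm (Em_mono fun x hx => (h x hx).le) (Em_mono fun x hx => (h x hx).ge)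

lemma Em_nonneg {m : ℕ} {φ : GI × GI → ℝ} (h : ∀ x, 0 ≤ φ x) : 0 ≤ Em m φ :=
  div_nonneg (sum_nonneg fun x _ => h x) (Nat.cast_nonneg _)

lemma mean_one (hL : LocStmt) {l : ℕ} {π : GI} (hl : l.Prime) (h2 : l ≠ 2) (hπ : nm π = l)
    {u v : ℤ} (h : ¬ ((l : ℤ) ∣ u ∧ (l : ℤ) ∣ v)) :
    Em (l ^ 2) (fun x => ind (l ∣ nm (Lf u v x))) = 2 / ((l : ℝ) + 1) := by
  have hp : (nm π).Prime := hπ ▸ hl
  have e1 := (hL l π hl h2 hπ u v u v h h).1
  have e2 := (hL l (star π) hl h2 (by rw [nm_star, hπ]) u v u v h h).1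
  have : Em (l ^ 2) (fun x => ind (l ∣ nm (Lf u v x))) =
      Em (l ^ 2) (fun x => ind (π ∣ Lf u v x) + ind (star π ∣ Lf u v x)) := by
    refine Em_congr fun x hx => ?_
    have hiff := dvd_nm_iff (α := Lf u v x) hp
    rw [hπ] at hiff
    by_cases a : π ∣ Lf u v x <;> by_cases b : star π ∣ Lf u v x
    · have := natCast_dvd_of hp (hπ ▸ h2) a b
      rw [hπ] at this
      exact absurd (dvd_coef (dvd_det hx) this) h
    · rw [ind_true (hiff.2 (Or.inl a)), ind_true a, ind_false b, add_zero]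
    · rw [ind_true (hiff.2 (Or.inr b)), ind_true b, ind_false a, zero_add]
    · rw [ind_false (fun c => (hiff.1 c).elim a b), ind_false a, ind_false b, add_zero]
  rw [this, Em_add, e1, e2]
  ring

lemma prim_of_res {l : ℕ} {u v u' v' : ℤ} (h : ¬ (l : ℤ) ∣ u * v' - v * u') :
    ¬ ((l : ℤ) ∣ u ∧ (l : ℤ) ∣ v) ∧ ¬ ((l : ℤ) ∣ u' ∧ (l : ℤ) ∣ v') :=
  ⟨fun c => h (dvd_sub (c.1.mul_right _) (c.2.mul_right _)),
    fun c => h (dvd_sub (c.2.mul_left _) (c.1.mul_left _))⟩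

lemma mean_two (hL : LocStmt) {l : ℕ} {π : GI} (hl : l.Prime) (h2 : l ≠ 2) (hπ : nm π = l)
    {u v u' v' : ℤ} (h : ¬ (l : ℤ) ∣ u * v' - v * u') :
    Em (l ^ 2) (fun x => ind (l ∣ nm (Lf u v x)) * ind (l ∣ nm (Lf u' v' x))) ≤
      2 / (l : ℝ) ^ 2 := by
  have hp : (nm π).Prime := hπ ▸ hl
  have hp' : (nm (star π)).Prime := by rwa [nm_star]
  obtain ⟨p1, p2⟩ := prim_of_res h
  have e1 := (hL l π hl h2 hπ u v u' v' p1 p2).2.2
  have e2 := (hL l (star π) hl h2 (by rw [nm_star, hπ]) u v u' v' p1 p2).2.2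
  have : Em (l ^ 2) (fun x => ind (l ∣ nm (Lf u v x)) * ind (l ∣ nm (Lf u' v' x))) ≤
      Em (l ^ 2) (fun x => ind (π ∣ Lf u v x ∧ star π ∣ Lf u' v' x) +
        ind (star π ∣ Lf u v x ∧ star (star π) ∣ Lf u' v' x)) := by
    refine Em_mono fun x hx => ?_
    rw [← ind_and]
    refine le_trans (ind_mono ?_) (ind_or_le _ _)
    rintro ⟨a, b⟩
    rw [← hπ, dvd_nm_iff hp] at a b
    have hx' := dvd_det hx
    rcases a with a | a <;> rcases b with b | b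
    · have := dvd_res hp (hπ ▸ hx') a b
      rw [hπ] at this
      exact absurd this h
    · exact Or.inl ⟨a, b⟩
    · exact Or.inr ⟨a, by rwa [star_star]⟩
    · have := dvd_res hp' (by rw [nm_star, hπ]; exact hx') a b
      rw [nm_star, hπ] at this
      exact absurd this h
  rw [Em_add] at this
  have l0 : (0 : ℝ) < l := by exact_mod_cast hl.pos
  have e3 : 1 / ((l : ℝ) * ((l : ℝ) + 1)) ≤ 1 / (l : ℝ) ^ 2 :=
    one_div_le_one_div_of_le (by positivity) (by nlinarith)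
  have e4 : 2 / (l : ℝ) ^ 2 = 1 / (l : ℝ) ^ 2 + 1 / (l : ℝ) ^ 2 := by ring
  linarith

/-- the sieve weight at the prime `l` -/
def wl {ι : Type} [Fintype ι] (c : ι → ℝ) (u v : ι → ℤ) (l : ℕ) (x : GI × GI) : ℝ :=
  ∏ i, (1 - c i * ind (l ∣ nm (Lf (u i) (v i) x)))

lemma cind {c : ℝ} (hc : 0 ≤ c ∧ c ≤ 1) (p : Prop) : 0 ≤ c * ind p ∧ c * ind p ≤ 1 :=
  ⟨mul_nonneg hc.1 (ind_nonneg _), mul_le_one₀ hc.2 (ind_nonneg _) (ind_le_one _)⟩

lemma wl_mem {ι : Type} [Fintype ι] {c : ι → ℝ} (hc : ∀ i, 0 ≤ c i ∧ c i ≤ 1) (u v : ι → ℤ)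
    (l : ℕ) (x : GI × GI) : 0 ≤ wl c u v l x ∧ wl c u v l x ≤ 1 :=
  ⟨prod_nonneg fun i _ => sub_nonneg.2 (cind (hc i) _).2,
    prod_le_one (fun i _ => sub_nonneg.2 (cind (hc i) _).2)
      fun i _ => sub_le_self _ (cind (hc i) _).1⟩

lemma wl_per {ι : Type} [Fintype ι] (c : ι → ℝ) (u v : ι → ℤ) (l : ℕ) :
    Per (l ^ 2) (wl c u v l) := by
  intro x y h1 h2
  unfold wl
  refine prod_congr rfl fun i _ => ?_
  rw [dvd_nm_congr (Lf_congr h1 h2 (u i) (v i))]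

lemma mean_wl (hL : LocStmt) {ι : Type} [Fintype ι] [Nontrivial ι] (hcard : Fintype.card ι ≤ 6)
    {c : ι → ℝ} (hc : ∀ i, 0 ≤ c i ∧ c i ≤ 1) {u v : ι → ℤ} {l : ℕ} {π : GI} (hl : l.Prime)
    (h2 : l ≠ 2) (hπ : nm π = l) (h : ∀ i j, i ≠ j → ¬ (l : ℤ) ∣ u i * v j - v i * u j) :
    1 - Em (l ^ 2) (wl c u v l) ≤ 12 / l ∧
      Em (l ^ 2) (wl c u v l) ≤ Real.exp (-(∑ i, c i) * (2 / ((l : ℝ) + 1)) + 72 / (l : ℝ) ^ 2) := by
  have l0 : (0 : ℝ) < l := by exact_mod_cast hl.pos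
  have l1 : 1 ≤ l ^ 2 := Nat.one_le_pow _ _ hl.pos
  have c6 : (Fintype.card ι : ℝ) ≤ 6 := by exact_mod_cast hcard
  have hprim : ∀ i, ¬ ((l : ℤ) ∣ u i ∧ (l : ℤ) ∣ v i) := fun i => by
    obtain ⟨j, hj⟩ := exists_ne i
    exact (prim_of_res (h i j hj.symm)).1
  have hS : Em (l ^ 2) (fun x => ∑ i, c i * ind (l ∣ nm (Lf (u i) (v i) x))) =
      (∑ i, c i) * (2 / ((l : ℝ) + 1)) := by
    rw [Em_sum, sum_mul]
    refine sum_congr rfl fun i _ => ?_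
    rw [Em_smul, mean_one hL hl h2 hπ (hprim i)]
  have hc6 : ∑ i, c i ≤ 6 := by
    refine le_trans (sum_le_card_nsmul _ _ 1 fun i _ => (hc i).2) ?_
    simpa using c6
  constructor
  · have : Em (l ^ 2) (fun x => 1 - ∑ i, c i * ind (l ∣ nm (Lf (u i) (v i) x))) ≤
        Em (l ^ 2) (wl c u v l) :=
      Em_mono fun x _ => (bonf univ _ fun i => cind (hc i) _).1
    rw [Em_sub, Em_const l1, hS] at this
    have e1 : (2 : ℝ) / ((l : ℝ) + 1) ≤ 2 / l := by gcongr; linarith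
    have e2 : (∑ i, c i) * (2 / ((l : ℝ) + 1)) ≤ 6 * (2 / l) :=
      mul_le_mul hc6 e1 (by positivity) (by norm_num)
    have e3 : (6 : ℝ) * (2 / l) = 12 / l := by ring
    linarith
  · have : Em (l ^ 2) (wl c u v l) ≤
        Em (l ^ 2) (fun x => (1 - ∑ i, c i * ind (l ∣ nm (Lf (u i) (v i) x))) +
          ∑ i, ∑ j ∈ univ.erase i,
            ind (l ∣ nm (Lf (u i) (v i) x)) * ind (l ∣ nm (Lf (u j) (v j) x))) := by
      refine Em_mono fun x _ => le_trans (bonf univ _ fun i => cind (hc i) _).2 ?_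
      rw [sq_sub]
      refine add_le_add_right (sum_le_sum fun i _ => sum_le_sum fun j _ => ?_) _
      exact mul_le_mul (mul_le_of_le_one_left (ind_nonneg _) (hc i).2)
        (mul_le_of_le_one_left (ind_nonneg _) (hc j).2) (cind (hc j) _).1 (ind_nonneg _)
    rw [Em_add, Em_sub, Em_const l1, hS, Em_sum] at this
    have e1 : ∑ i, Em (l ^ 2) (fun x => ∑ j ∈ univ.erase i,
        ind (l ∣ nm (Lf (u i) (v i) x)) * ind (l ∣ nm (Lf (u j) (v j) x))) ≤ 72 / (l : ℝ) ^ 2 := by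
      have : ∀ i, Em (l ^ 2) (fun x => ∑ j ∈ univ.erase i,
          ind (l ∣ nm (Lf (u i) (v i) x)) * ind (l ∣ nm (Lf (u j) (v j) x))) ≤
          6 * (2 / (l : ℝ) ^ 2) := by
        intro i
        rw [Em_sum]
        refine le_trans (sum_le_card_nsmul _ _ (2 / (l : ℝ) ^ 2) fun j hj =>
          mean_two hL hl h2 hπ (h i j (ne_of_mem_erase hj).symm)) ?_
        rw [nsmul_eq_mul]
        refine mul_le_mul_of_nonneg_right (le_trans ?_ c6) (by positivity)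
        exact_mod_cast card_le_univ _
      refine le_trans (sum_le_card_nsmul _ _ _ fun i _ => this i) ?_
      rw [nsmul_eq_mul, card_univ]
      refine le_trans (mul_le_mul_of_nonneg_right c6 (by positivity)) (le_of_eq (by ring))
    refine le_trans ?_ (Real.add_one_le_exp _)
    linarith

/-- sum of reciprocals of sieving primes with a property -/
def sd (w z : ℝ) (P : ℕ → Prop) : ℝ := ∑ l ∈ (PP w z).filter P, 1 / (l : ℝ)

lemma sd_or (w z : ℝ) (P Q : ℕ → Prop) : sd w z (fun l => P l ∨ Q l) ≤ sd w z P + sd w z Q := by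
  unfold sd
  simp only [sum_filter]
  rw [← sum_add_distrib]
  refine sum_le_sum fun l _ => ?_
  have : (0 : ℝ) ≤ 1 / (l : ℝ) := by positivity
  by_cases a : P l <;> by_cases b : Q l <;> simp only [a, b, or_self, or_true, true_or,
    if_true, if_false] <;> linarith

lemma inv_le_inv_sqrt {l : ℕ} (hl : l.Prime) : 1 / (l : ℝ) ≤ 1 / Real.sqrt l := by
  have l1 : (1 : ℝ) ≤ l := by exact_mod_cast hl.pos
  refine one_div_le_one_div_of_le (Real.sqrt_pos.2 (by linarith)) ?_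
  rw [Real.sqrt_le_left (by linarith)]
  nlinarith

lemma sd_le_sum {w z : ℝ} {P : ℕ → Prop} {T : Finset ℕ} {g : ℕ → ℝ}
    (h : ∀ l ∈ PP w z, P l → l ∈ T ∧ 1 / (l : ℝ) ≤ g l) (hg : ∀ l, 0 ≤ g l) :
    sd w z P ≤ ∑ l ∈ T, g l := by
  unfold sd
  refine le_trans (sum_le_sum fun l hl => (h l (mem_filter.1 hl).1 (mem_filter.1 hl).2).2) ?_
  exact sum_le_sum_of_subset_of_nonneg
    (fun l hl => (h l (mem_filter.1 hl).1 (mem_filter.1 hl).2).1) fun l _ _ => hg l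

lemma sd_le_sgw (w z : ℝ) {n : ℕ} (hn : n ≠ 0) : sd w z (fun l => l ∣ n) ≤ sgw w n :=
  sd_le_sum (fun l h1 h2 => ⟨mem_filter.2 ⟨Nat.mem_primeFactors.2 ⟨(mem_PP.1 h1).1, h2, hn⟩,
    (mem_PP.1 h1).2.2.1⟩, inv_le_inv_sqrt (mem_PP.1 h1).1⟩) fun l => by positivity

lemma sd_le_sg (w z : ℝ) {n : ℕ} (hn : n ≠ 0) : sd w z (fun l => l ∣ n) ≤ sg n :=
  (sd_le_sgw w z hn).trans
    (sum_le_sum_of_subset_of_nonneg (filter_subset _ _) fun l _ _ => by positivity)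

lemma sd_le_sS {w z : ℝ} {S : Finset GI} (hS : S ⊆ GF w z) :
    sd w z (fun l => l ∣ nm (pr S)) ≤ sS S := by
  have h0 : nm (pr S) ≠ 0 := fun h => pr_ne_zero hS (nm_eq_zero.1 h)
  refine le_trans (sd_le_sum (T := S.image nm) (g := fun l => 1 / (l : ℝ))
    (fun l h1 h2 => ⟨?_, le_rfl⟩) fun l => by positivity) ?_
  · rw [← primeFactors_nm_pr hS]
    exact Nat.mem_primeFactors.2 ⟨(mem_PP.1 h1).1, h2, h0⟩
  · exact sum_image_le_of_nonneg (f := fun l : ℕ => 1 / (l : ℝ)) fun l _ => by positivity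

lemma sd_le_sst (v : ℕ) (z : ℝ) (n : ℕ) (D : ℤ) :
    sd (ww v) z (fun l => (l : ℤ) ∣ D ∧ ¬ l ∣ n) ≤ sst v z n D :=
  sd_le_sum (fun l h1 h2 => ⟨mem_filter.2 ⟨h1, h2⟩, le_rfl⟩) fun l => by positivity

/-- the generic upper bound -/
lemma core (h1 : EFLStmt) (hL : LocStmt) {δ : ℝ} (hδ : 0 < δ) : ∃ (u0 : ℕ) (K : ℝ), 0 ≤ K ∧
    ∀ (ι : Type) [Fintype ι] [Nontrivial ι] (c : ι → ℝ) (u v : ι → ℤ) (C D : ℕ) (w z : ℝ)
      (L0 : Finset ℕ) (φ : ℕ → GI × GI → ℝ) (Bad : ℕ → Prop) (μ : ℝ),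
      Fintype.card ι ≤ 6 → (∀ i, 0 ≤ c i ∧ c i ≤ 1) → 1 ≤ C → 1 ≤ D → 24 ≤ w → 2 ≤ z →
      (∀ l ∈ L0, l.Prime ∧ Per (l ^ 2) (φ l) ∧ ∀ x, 0 ≤ φ l x ∧ φ l x ≤ 1) →
      (∀ l ∈ L0, l ∈ PP w z → Bad l) →
      (∀ l ∈ PP w z, ¬ Bad l → ∀ i j, i ≠ j → ¬ (l : ℤ) ∣ u i * v j - v i * u j) →
      ∏ l ∈ L0, Em (l ^ 2) (φ l) ≤ μ →
      ∑ x ∈ Box C D, (∏ l ∈ L0, φ l x) * ∏ l ∈ (PP w z).filter (fun l => ¬ Bad l), wl c u v l x ≤
        (1 + δ) * ((Box C D).card * (μ * Real.exp (-(∑ i, c i) * Lam w z + 12 * sd w z Bad +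
          144 / w))) +
        K * (∏ l ∈ L0, (l : ℝ)) ^ 12 * z ^ (13 * u0 + 1) * (C + D) * (C : ℝ) ^ (4 / 5 : ℝ) := by
  obtain ⟨u0, K, H⟩ := h1 12 δ hδ
  refine ⟨u0, max K 0, le_max_right _ _, ?_⟩
  intro ι _ _ c u v C D w z L0 φ Bad μ hcard hc hC hD hw hz hφ hbad hres hμ
  set L1 := (PP w z).filter (fun l => ¬ Bad l) with hL1
  have hdis : Disjoint L0 L1 := by
    rw [disjoint_left]
    intro l h0 h1
    exact (mem_filter.1 h1).2 (hbad l h0 (mem_filter.1 h1).1)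
  set Φ : ℕ → GI × GI → ℝ := fun l => if l ∈ L0 then φ l else wl c u v l with hΦ
  have e0 : ∀ l ∈ L0, Φ l = φ l := fun l hl => if_pos hl
  have e1 : ∀ l ∈ L1, Φ l = wl c u v l := fun l hl => if_neg (disjoint_right.1 hdis hl)
  have hmean : ∀ l ∈ L1, 1 - Em (l ^ 2) (wl c u v l) ≤ 12 / l ∧ Em (l ^ 2) (wl c u v l) ≤
      Real.exp (-(∑ i, c i) * (2 / ((l : ℝ) + 1)) + 72 / (l : ℝ) ^ 2) := by
    intro l hl
    obtain ⟨hP, hB⟩ := mem_filter.1 hl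
    obtain ⟨π, -, hπ⟩ := exists_GH hP
    obtain ⟨p1, p2, -⟩ := mem_PP.1 hP
    exact mean_wl hL hcard hc p1 (by omega) hπ (hres l hP hB)
  have H1 := H C D z L0 L1 Φ hC hD hz hdis (fun l hl => by
      rcases mem_union.1 hl with h | h
      · rw [e0 l h]
        exact hφ l h
      · rw [e1 l h]
        exact ⟨(mem_PP.1 (mem_filter.1 h).1).1, wl_per c u v l, wl_mem hc u v l⟩)
    (fun l hl => by
      obtain ⟨-, -, p3, p4⟩ := mem_PP.1 (mem_filter.1 hl).1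
      rw [e1 l hl]
      refine ⟨p4, (hmean l hl).1.trans ?_, (hmean l hl).1⟩
      rw [div_le_iff₀ (by linarith)]
      linarith)
  have s1 : ∀ x, ∏ l ∈ L0 ∪ L1, Φ l x = (∏ l ∈ L0, φ l x) * ∏ l ∈ L1, wl c u v l x := by
    intro x
    rw [prod_union hdis]
    congr 1
    · exact prod_congr rfl fun l hl => by rw [e0 l hl]
    · exact prod_congr rfl fun l hl => by rw [e1 l hl]
  have s2 : ∏ l ∈ L0 ∪ L1, Em (l ^ 2) (Φ l) ≤
      μ * Real.exp (-(∑ i, c i) * Lam w z + 12 * sd w z Bad + 144 / w) := by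
    rw [prod_union hdis, prod_congr rfl fun l hl => by rw [e0 l hl],
      prod_congr (s₂ := L1) rfl fun l hl => by rw [e1 l hl]]
    have m0 : 0 ≤ ∏ l ∈ L0, Em (l ^ 2) (φ l) :=
      prod_nonneg fun l hl => Em_nonneg fun x => ((hφ l hl).2.2 x).1
    refine mul_le_mul hμ ?_ (prod_nonneg fun l _ => Em_nonneg fun x => (wl_mem hc u v l x).1)
      (m0.trans hμ)
    refine le_trans (prod_le_prod (fun l _ => Em_nonneg fun x => (wl_mem hc u v l x).1)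
      fun l hl => (hmean l hl).2) ?_
    rw [← Real.exp_sum, Real.exp_le_exp, sum_add_distrib, ← mul_sum]
    have c0 : 0 ≤ ∑ i, c i := sum_nonneg fun i _ => (hc i).1
    have hc6 : ∑ i, c i ≤ 6 := by
      refine le_trans (sum_le_card_nsmul _ _ 1 fun i _ => (hc i).2) ?_
      have : (Fintype.card ι : ℝ) ≤ 6 := by exact_mod_cast hcard
      simpa using this
    have t1 : ∑ l ∈ L1, 72 / (l : ℝ) ^ 2 ≤ 144 / w := by
      have := sum_inv_sq_tail (w := w) (by linarith) (S := L1)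
        fun l hl => (mem_PP.1 (mem_filter.1 hl).1).2.2.1
      have e : ∑ l ∈ L1, 72 / (l : ℝ) ^ 2 = 72 * ∑ l ∈ L1, 1 / (l : ℝ) ^ 2 := by
        rw [mul_sum]
        exact sum_congr rfl fun l _ => by ring
      have e' : 144 / w = 72 * (2 / w) := by ring
      rw [e, e']
      linarith
    have t2 : Lam w z = ∑ l ∈ (PP w z).filter Bad, 2 / ((l : ℝ) + 1) +
        ∑ l ∈ L1, 2 / ((l : ℝ) + 1) := by
      rw [hL1, sum_filter_add_sum_filter_not]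
      rfl
    have t3 : ∑ l ∈ (PP w z).filter Bad, 2 / ((l : ℝ) + 1) ≤ 2 * sd w z Bad := by
      unfold sd
      rw [mul_sum]
      refine sum_le_sum fun l hl => ?_
      have l0 : (0 : ℝ) < l := by exact_mod_cast (mem_PP.1 (mem_filter.1 hl).1).1.pos
      rw [mul_one_div]
      gcongr
      linarith
    have t4 : 0 ≤ ∑ l ∈ (PP w z).filter Bad, 2 / ((l : ℝ) + 1) :=
      sum_nonneg fun l _ => by positivity
    rw [t2]
    nlinarith [mul_le_mul hc6 t3 t4 (by norm_num : (0 : ℝ) ≤ 6)]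
  simp only [s1] at H1
  have H2 := (abs_le.1 H1).2
  have b0 : (0 : ℝ) ≤ (Box C D).card := Nat.cast_nonneg _
  have s3 := mul_le_mul_of_nonneg_left (mul_le_mul_of_nonneg_left s2 b0) (by linarith : 0 ≤ 1 + δ)
  have s4 : K * (∏ l ∈ L0, (l : ℝ)) ^ 12 * z ^ (13 * u0 + 1) * (C + D) * (C : ℝ) ^ (4 / 5 : ℝ) ≤
      max K 0 * (∏ l ∈ L0, (l : ℝ)) ^ 12 * z ^ (13 * u0 + 1) * (C + D) *
        (C : ℝ) ^ (4 / 5 : ℝ) := by
    have : 0 ≤ z := by linarith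
    gcongr
    exact le_max_left _ _
  linarith

/-- the error term -/
lemma err_le {K z X P : ℝ} {u a e f C D : ℕ} (hK : 0 ≤ K) (hz : 2 * K + 4 ≤ z)
    (he : ExpOK u a e f) (hX : z ^ (4000 * f) ≤ X) (hB : BoxOK f z X C D) (hP0 : 0 ≤ P)
    (hP : P ≤ 4 * z ^ (4 * f)) :
    K * P ^ 12 * z ^ (13 * u + 1) * (C + D) * (C : ℝ) ^ (4 / 5 : ℝ) ≤ X ^ (0.93 : ℝ) := by
  obtain ⟨a1, a2, a3, a4⟩ := he
  have z1 : 1 ≤ z := by linarith
  have z0 : 0 < z := by linarith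
  have zf : z ≤ z ^ f := le_self_pow₀ z1 (by omega)
  have X1 : 1 ≤ X := (one_le_pow₀ z1).trans hX
  have X0 : 0 < X := by linarith
  have p1 : P ≤ z ^ (5 * f) := by
    refine hP.trans ?_
    rw [show 5 * f = f + 4 * f by ring, pow_add]
    gcongr
    linarith
  have p2 : P ^ 12 ≤ z ^ (60 * f) := by
    rw [show 60 * f = 5 * f * 12 by ring, pow_mul]
    gcongr
  have p3 : z ^ (13 * u + 1) ≤ z ^ f := pow_le_pow_right₀ z1 (by omega)
  have p4 : (C : ℝ) + D ≤ 2 * (X ^ (1 / 2 : ℝ) * z ^ f) := by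
    rw [← Real.sqrt_eq_rpow]
    linarith [hB.hiC, hB.hiD]
  have p5 : (C : ℝ) ^ (4 / 5 : ℝ) ≤ X ^ (2 / 5 : ℝ) * z ^ f := by
    refine le_trans (Real.rpow_le_rpow (Nat.cast_nonneg _) hB.hiC (by norm_num)) ?_
    rw [Real.mul_rpow (Real.sqrt_nonneg _) (by positivity), Real.sqrt_eq_rpow,
      ← Real.rpow_mul X0.le]
    norm_num
    gcongr
    exact Real.rpow_le_self_of_one_le (one_le_pow₀ z1) (by norm_num)
  have p6 : z ^ (120 * f) ≤ X ^ (0.03 : ℝ) := by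
    refine le_trans (le_of_eq ?_) (Real.rpow_le_rpow (by positivity) hX (by norm_num))
    rw [← Real.rpow_natCast, ← Real.rpow_natCast, ← Real.rpow_mul z0.le]
    congr 1
    push_cast
    ring
  have p7 : X ^ (0.93 : ℝ) = X ^ (0.03 : ℝ) * (X ^ (1 / 2 : ℝ) * X ^ (2 / 5 : ℝ)) := by
    rw [← Real.rpow_add X0, ← Real.rpow_add X0]
    norm_num
  have p8 : 2 * K * z ^ (63 * f) ≤ z ^ (120 * f) := by
    rw [show 120 * f = 57 * f + 63 * f by ring, pow_add]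
    gcongr
    exact le_trans (by linarith) (le_self_pow₀ z1 (by omega))
  calc _ ≤ K * z ^ (60 * f) * z ^ f * (2 * (X ^ (1 / 2 : ℝ) * z ^ f)) *
        (X ^ (2 / 5 : ℝ) * z ^ f) := by gcongr
    _ = 2 * K * z ^ (63 * f) * (X ^ (1 / 2 : ℝ) * X ^ (2 / 5 : ℝ)) := by ring
    _ ≤ X ^ (0.03 : ℝ) * (X ^ (1 / 2 : ℝ) * X ^ (2 / 5 : ℝ)) := by
      gcongr
      exact p8.trans p6
    _ = _ := p7.symm

end U2a

end Pool.Agent.Lib.LQ
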