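import Pool.Agent.Lib.LQ.U2Aux1

/-! Arithmetic facts about labels and parameters used in the pair bound. -/

set_option autoImplicit false

open Finset
open scoped Classical

noncomputable section

namespace Pool.Agent.Lib.LQ

open Pool.Agent.Lib.MP_de94cf_nt (gg det inn)

namespace U2a

lemma Lf10 (x : GI × GI) : Lf 1 0 x = x.1 := by simp [Lf]

lemma Lf01 (x : GI × GI) : Lf 0 1 x = x.2 := by simp [Lf]

lemma not_sq_dvd {n l : ℕ} (h : Squarefree n) (hl : l.Prime) : ¬ l ^ 2 ∣ n := fun c =>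
  hl.not_isUnit (h l (by rwa [← sq]))

lemma psi_pos (n : ℕ) : 0 < psi n := prod_pos fun l _ => by positivity

lemma prod_pf_le {n : ℕ} (hn : n ≠ 0) : ∏ l ∈ n.primeFactors, (l : ℝ) ≤ n := by
  have := Nat.le_of_dvd (Nat.pos_of_ne_zero hn) (Nat.prod_primeFactors_dvd n)
  rw [← Nat.cast_prod]
  exact Nat.cast_le.2 this

lemma star_dvd_star {α β : GI} (h : α ∣ β) : star α ∣ star β := by
  obtain ⟨t, rfl⟩ := h
  rw [star_mul']
  exact dvd_mul_right _ _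

lemma prod_ite_dvd {N n : ℕ} (hN : N ≠ 0) (h : n ∣ N) (F : ℕ → ℝ) :
    ∏ l ∈ N.primeFactors, (if l ∣ n then F l else 1) = ∏ l ∈ n.primeFactors, F l := by
  rw [← prod_filter, Nat.primeFactors_filter_dvd_of_dvd hN h]

section lab
variable {v a f : ℕ} {z : ℝ} {S : Finset GI} {ρ : GI}

lemma lab_ne (h : Lab v a f z S ρ) : nm (pr S * ρ) ≠ 0 := h.sf.ne_zero

lemma lab_ne_two (h : Lab v a f z S ρ) (hz : 2 ≤ z) {l : ℕ} (hl : l.Prime)
    (hd : l ∣ nm (pr S * ρ)) : l ≠ 2 := by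
  rw [nm_mul, hl.dvd_mul] at hd
  rcases hd with hd | hd
  · have h0 : nm (pr S) ≠ 0 := fun c => pr_ne_zero h.sub (nm_eq_zero.1 c)
    have : l ∈ (nm (pr S)).primeFactors := Nat.mem_primeFactors.2 ⟨hl, hd, h0⟩
    rw [primeFactors_nm_pr h.sub] at this
    obtain ⟨π, hπ, rfl⟩ := mem_image.1 this
    have := (mem_PP.1 (mem_GF.1 (h.sub hπ)).1).2.1
    omega
  · rintro rfl
    have := h.rough 2 hl hd
    norm_num at this
    linarith

lemma lab_dvd (h : Lab v a f z S ρ) {l : ℕ} (hl : l ∈ PP (ww v) z) (hd : l ∣ nm (pr S * ρ)) :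
    l ∣ nm (pr S) := by
  obtain ⟨p1, -, -, p4⟩ := mem_PP.1 hl
  rw [nm_mul, p1.dvd_mul] at hd
  exact hd.resolve_right fun c => absurd (h.rough l p1 c) (not_lt.2 p4)

lemma lab_le (h : Lab v a f z S ρ) (hz : 1 ≤ z) (ha : a ≤ f) :
    (nm (pr S * ρ) : ℝ) ≤ z ^ (2 * f) := by
  rw [nm_mul, Nat.cast_mul, two_mul, pow_add]
  exact mul_le_mul (h.hiS.trans (pow_le_pow_right₀ hz ha)) h.hiρ (Nat.cast_nonneg _)
    (by positivity)

lemma aset_facts (h : Lab v a f z S ρ) {C D : ℕ} (hC : 1 ≤ C) {γ : GI × GI}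
    (hγ : γ ∈ Aset v z S ρ C D) : det γ.1 γ.2 = 1 ∧
      (∀ l : ℕ, l ∣ nm (pr S * ρ) → (l : GI) ∣ star (pr S * ρ) * Lf 1 0 γ) ∧
      (∀ l ∈ PP (ww v) z, ¬ l ∣ nm (pr S) → ¬ l ∣ nm (Lf 1 0 γ)) ∧
      ∀ l ∈ PP (ww v) z, ¬ l ∣ nm (Lf 0 1 γ) := by
  obtain ⟨hB, h1, h2, h3⟩ := mem_filter.1 hγ
  rw [Lf10, Lf01]
  refine ⟨((mem_Box hC).1 hB).2.2.2.2, fun l hl => ?_, fun l hl hn hd => hn ?_,
    sm_eq_empty_iff.1 h2⟩
  · have d1 : pr S ∣ γ.1 := pr_dvd h.sub fun π hπ => (mem_sm.1 (h1 ▸ hπ)).2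
    have hc : IsCoprime (pr S) ρ := by
      have := h.sf
      rw [nm_mul] at this
      exact isCoprime_of_nm (Nat.coprime_of_squarefree_mul this)
    obtain ⟨t, ht⟩ := hc.mul_dvd d1 h3
    rw [ht, ← mul_assoc, mul_comm (star _), mul_star_eq]
    exact (Nat.cast_dvd_cast hl).mul_right _
  · obtain ⟨π, hπ, rfl⟩ := exists_GH hl
    have hF := (mem_GH.1 hπ).1
    rcases (dvd_nm_iff (mem_PP.1 hl).1).1 hd with c | c
    · have : π ∈ S := h1 ▸ mem_sm.2 ⟨hF, c⟩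
      exact nm_dvd (dvd_prod_of_mem (fun π => π) this)
    · have : star π ∈ S := h1 ▸ mem_sm.2 ⟨star_mem_GF hF, c⟩
      rw [← nm_star]
      exact nm_dvd (dvd_prod_of_mem (fun π => π) this)

end lab

lemma pow_omx_le {v n : ℕ} {z x : ℝ} (hx : 0 ≤ x ∧ x ≤ 1) (L : GI) {L1 : Finset ℕ}
    (h : ∀ l ∈ L1, l ∈ PP (ww v) z ∧ ¬ l ∣ n) :
    x ^ omx v z n L ≤ ∏ l ∈ L1, (1 - (1 - x) * ind (l ∣ nm L)) := by
  have e : ∏ l ∈ L1, (1 - (1 - x) * ind (l ∣ nm L)) = x ^ (L1.filter fun l => l ∣ nm L).card := by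
    rw [← prod_const, prod_filter]
    refine prod_congr rfl fun l _ => ?_
    split_ifs with c
    · rw [ind_true c]; ring
    · rw [ind_false c]; ring
  rw [e]
  refine pow_le_pow_of_le_one hx.1 hx.2 ?_
  refine le_trans (card_le_card fun l hl => ?_) (card_image_le (f := nm))
  obtain ⟨h1, h2⟩ := mem_filter.1 hl
  obtain ⟨h3, h4⟩ := h l h1
  obtain ⟨π, hπ, rfl⟩ := exists_GH h3
  have hF := (mem_GH.1 hπ).1
  rcases (dvd_nm_iff (mem_PP.1 h3).1).1 h2 with c | c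
  · exact mem_image.2 ⟨π, mem_filter.2 ⟨mem_sm.2 ⟨hF, c⟩, h4⟩, rfl⟩
  · exact mem_image.2 ⟨star π, mem_filter.2 ⟨mem_sm.2 ⟨star_mem_GF hF, c⟩, by rwa [nm_star]⟩,
      nm_star π⟩

lemma not_dvd_one {l : ℕ} (hl : l.Prime) : ¬ (l : ℤ) ∣ 1 := fun c =>
  hl.one_lt.ne' (by exact_mod_cast Int.eq_one_of_dvd_one (Nat.cast_nonneg l) c)

lemma mean_loc (hL : LocStmt) {l : ℕ} {D : GI} (hl : l.Prime) (h2 : l ≠ 2) (hd : l ∣ nm D)
    (hs : Squarefree (nm D)) (c : ℤ) :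
    Em (l ^ 2) (fun x => ind ((l : GI) ∣ star D * Lf 1 c x)) = 1 / ((l : ℝ) + 1) := by
  obtain ⟨π, hπ, -, h⟩ := exists_local hl hd (not_sq_dvd hs hl)
  simp only [h]
  exact (hL l π hl h2 hπ 1 c 1 c (fun c => not_dvd_one hl c.1) fun c => not_dvd_one hl c.1).1

/-- the local primes of two elements are equal or conjugate -/
lemma local_conj {l : ℕ} {Q Q' : GI} (hl : l.Prime) (hd : l ∣ nm Q) (hs : Squarefree (nm Q))
    (hd' : l ∣ nm Q') (hs' : Squarefree (nm Q')) (hn : ¬ (l : GI) ∣ star Q * Q') :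
    ∃ π : GI, nm π = l ∧ (∀ L, (l : GI) ∣ Q * L → π ∣ L) ∧ ∀ L, (l : GI) ∣ Q' * L → star π ∣ L := by
  obtain ⟨π, hπ, d, h⟩ := exists_local (D := star Q) hl (by rwa [nm_star])
    (by rw [nm_star]; exact not_sq_dvd hs hl)
  obtain ⟨π', hπ', d', h'⟩ := exists_local (D := star Q') hl (by rwa [nm_star])
    (by rw [nm_star]; exact not_sq_dvd hs' hl)
  rw [star_star] at h h'
  refine ⟨π, hπ, fun L c => (h L).1 c, fun L c => dvd_trans ?_ ((h' L).1 c)⟩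
  have hp : (nm π).Prime := hπ ▸ hl
  rcases (dvd_nm_iff (α := π') hp).1 (by rw [hπ, hπ']) with c | c
  · refine absurd ?_ hn
    rw [← hπ, ← mul_star_eq]
    refine mul_dvd_mul d ?_
    have := star_dvd_star (c.trans d')
    rwa [star_star] at this
  · exact c

lemma mean_loc2 (hL : LocStmt) {l : ℕ} {Q Q' : GI} (hl : l.Prime) (h2 : l ≠ 2) (hd : l ∣ nm Q)
    (hs : Squarefree (nm Q)) (hd' : l ∣ nm Q') (hs' : Squarefree (nm Q'))
    (hn : ¬ (l : GI) ∣ star Q * Q') (c c' : ℤ) :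
    Em (l ^ 2) (fun x => ind ((l : GI) ∣ Q * Lf 1 c x ∧ (l : GI) ∣ Q' * Lf 1 c' x)) ≤
      1 / ((l : ℝ) * ((l : ℝ) + 1)) := by
  obtain ⟨π, hπ, h, h'⟩ := local_conj hl hd hs hd' hs' hn
  refine le_trans (Em_mono fun x _ => ind_mono fun c => ⟨h _ c.1, h' _ c.2⟩)
    (hL l π hl h2 hπ 1 c 1 c' (fun c => not_dvd_one hl c.1) fun c => not_dvd_one hl c.1).2.2

lemma dvd_mul_of {l : ℕ} {Q L : GI} (hd : l ∣ nm Q) (h : star Q ∣ L) : (l : GI) ∣ Q * L := by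
  obtain ⟨t, rfl⟩ := h
  rw [← mul_assoc, mul_star_eq]
  exact (Nat.cast_dvd_cast hd).mul_right _

lemma g0_dvd (t t' : Tt) : g0 t t' ∣ t.q :=
  ((prod_dvd_prod_of_subset _ _ _ (filter_subset _ _)).trans
    (Nat.prod_primeFactors_dvd _)).trans (Nat.gcd_dvd_left _ _)

lemma exc_cond {t t' : Tt} (hs : Squarefree t.q) (hs' : Squarefree t'.q)
    (h2 : ∀ l : ℕ, l.Prime → l ∣ t.q → l ≠ 2) {γ : GI × GI} (hγ : det γ.1 γ.2 = 1)
    (h : star t.Q ∣ t.L3 γ) (h' : star t'.Q ∣ t'.L3 γ) :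
    (g0 t t' : ℤ) ∣ D33 t t' ∧ (D33 t t' = 0 → g0 t t' = Nat.gcd t.q t'.q) := by
  have hx : ∀ l : ℕ, (l : ℤ) ∣ det γ.1 γ.2 - 1 := fun l => by simp [hγ]
  constructor
  · rw [Int.natCast_dvd]
    refine prod_primes_dvd _ (fun l hl => (Nat.prime_of_mem_primeFactors
      (mem_filter.1 hl).1).prime) fun l hl => ?_
    obtain ⟨h3, h4⟩ := mem_filter.1 hl
    obtain ⟨hl, hd, -⟩ := Nat.mem_primeFactors.1 h3
    obtain ⟨π, hπ, d, H⟩ := exists_local (D := t.Q) hl (hd.trans (Nat.gcd_dvd_left _ _))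
      (not_sq_dvd hs hl)
    have d' := (H _).1 h4
    have := dvd_res (π := star π) (by rwa [nm_star, hπ]) (hx _)
      ((star_dvd_star d').trans h') ((star_dvd_star d).trans h)
    rw [nm_star, hπ] at this
    rw [← Int.natCast_dvd]
    simpa [D33] using this
  · intro h0
    have hc : t.c = t'.c := sub_eq_zero.1 h0
    have hg : Squarefree (Nat.gcd t.q t'.q) := hs.squarefree_of_dvd (Nat.gcd_dvd_left _ _)
    rw [g0, filter_true_of_mem, Nat.prod_primeFactors_of_squarefree hg]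
    intro l hl
    obtain ⟨hl, hd, -⟩ := Nat.mem_primeFactors.1 hl
    have d1 := hd.trans (Nat.gcd_dvd_left _ _)
    have d2 := hd.trans (Nat.gcd_dvd_right _ _)
    by_contra hn
    obtain ⟨π, hπ, H, H'⟩ := local_conj hl d1 hs d2 hs' hn
    have e1 := H _ (dvd_mul_of d1 h)
    have e2 := H' _ (dvd_mul_of d2 h')
    have e3 : t'.L3 γ = t.L3 γ := by unfold Tt.L3; rw [hc]
    rw [e3] at e2
    have := natCast_dvd_of (hπ ▸ hl) (hπ ▸ h2 l hl d1) e1 e2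
    rw [hπ] at this
    exact not_dvd_one hl (dvd_coef (hx l) this).1

/-- the local events at the primes of the moduli -/
def ev (D : GI) (t t' : Tt) (l : ℕ) (x : GI × GI) : ℝ :=
  ind ((l ∣ nm D → (l : GI) ∣ star D * Lf 1 0 x) ∧ (l ∣ t.q → (l : GI) ∣ t.Q * t.L3 x) ∧
    (l ∣ t'.q → (l : GI) ∣ t'.Q * t'.L3 x))

lemma ev_per (D : GI) (t t' : Tt) (l : ℕ) : Per (l ^ 2) (ev D t t' l) := by
  intro x y h1 h2
  unfold ev Tt.L3
  rw [mul_Lf_congr h1 h2, mul_Lf_congr h1 h2 t.Q, mul_Lf_congr h1 h2 t'.Q]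

lemma mean_ev (hL : LocStmt) {D : GI} {t t' : Tt} (hD : Squarefree (nm D)) (hs : Squarefree t.q)
    (hs' : Squarefree t'.q) (c : Nat.Coprime t.q (nm D)) (c' : Nat.Coprime t'.q (nm D))
    (h2 : ∀ l : ℕ, l.Prime → l ∣ nm D * t.q * t'.q → l ≠ 2) :
    ∏ l ∈ (nm D * t.q * t'.q).primeFactors, Em (l ^ 2) (ev D t t' l) ≤
      psi (g0 t t') * Real.exp (sg t.q) / (psi (nm D) * psi t.q * psi t'.q) := by
  have hN : nm D * t.q * t'.q ≠ 0 := mul_ne_zero (mul_ne_zero hD.ne_zero hs.ne_zero) hs'.ne_zero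
  have dq : t.q ∣ nm D * t.q * t'.q := (dvd_mul_left _ _).mul_right _
  have e : psi (g0 t t') * Real.exp (sg t.q) / (psi (nm D) * psi t.q * psi t'.q) =
      ∏ l ∈ (nm D * t.q * t'.q).primeFactors, ((if l ∣ g0 t t' then (l : ℝ) + 1 else 1) *
        (if l ∣ t.q then Real.exp (1 / Real.sqrt l) else 1) /
        ((if l ∣ nm D then (l : ℝ) + 1 else 1) * (if l ∣ t.q then (l : ℝ) + 1 else 1) *
          (if l ∣ t'.q then (l : ℝ) + 1 else 1))) := by
    rw [prod_div_distrib, prod_mul_distrib, prod_mul_distrib, prod_mul_distrib,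
      prod_ite_dvd hN ((g0_dvd t t').trans dq), prod_ite_dvd hN dq, prod_ite_dvd hN dq,
      prod_ite_dvd hN (dvd_mul_left _ _), prod_ite_dvd hN ((dvd_mul_right _ _).mul_right _),
      sg, Real.exp_sum]
    rfl
  rw [e]
  refine prod_le_prod (fun l _ => Em_nonneg fun x => ind_nonneg _) fun l hl => ?_
  obtain ⟨hl, hd, -⟩ := Nat.mem_primeFactors.1 hl
  have l2 := h2 l hl hd
  have l0 : (0 : ℝ) < l := by exact_mod_cast hl.pos
  have g1 : (1 : ℝ) ≤ if l ∣ g0 t t' then (l : ℝ) + 1 else 1 := by split_ifs <;> linarith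
  have x1 : 1 + 1 / (l : ℝ) ≤ Real.exp (1 / Real.sqrt l) := by
    linarith [Real.add_one_le_exp (1 / Real.sqrt l), inv_le_inv_sqrt hl]
  have x2 : 1 ≤ Real.exp (1 / Real.sqrt l) := Real.one_le_exp (by positivity)
  have m1 : l ∣ t.q → Em (l ^ 2) (ev D t t' l) ≤ 1 / ((l : ℝ) + 1) := fun h => by
    rw [← mean_loc hL (D := star t.Q) hl l2 (by rwa [nm_star]) (by rwa [nm_star]) t.c, star_star]
    exact Em_mono fun x _ => ind_mono fun c => c.2.1 h
  by_cases a : l ∣ nm D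
  · have b : ¬ l ∣ t.q := fun b => hl.one_lt.ne' (Nat.eq_one_of_dvd_coprimes c b a)
    have b' : ¬ l ∣ t'.q := fun b => hl.one_lt.ne' (Nat.eq_one_of_dvd_coprimes c' b a)
    simp only [a, b, b', if_true, if_false, mul_one]
    refine le_trans ?_ (div_le_div_of_nonneg_right g1 (by positivity))
    rw [← mean_loc hL hl l2 a hD 0]
    exact Em_mono fun x _ => ind_mono fun c => c.1 a
  by_cases b : l ∣ t.q <;> by_cases b' : l ∣ t'.q
  · simp only [a, b, b', if_true, if_false, one_mul]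
    by_cases g : (l : GI) ∣ star t.Q * t'.Q
    · have : l ∣ g0 t t' := dvd_prod_of_mem (fun l => l) (mem_filter.2
        ⟨Nat.mem_primeFactors.2 ⟨hl, Nat.dvd_gcd b b', Nat.gcd_ne_zero_left hs.ne_zero⟩, g⟩)
      rw [if_pos this]
      refine (m1 b).trans ?_
      rw [div_le_div_iff₀ (by positivity) (by positivity)]
      nlinarith [mul_le_mul_of_nonneg_left x2 (by positivity : 0 ≤ ((l : ℝ) + 1) * (l + 1))]
    · refine le_trans (Em_mono fun x _ => ind_mono fun c => ⟨c.2.1 b, c.2.2 b'⟩)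
        ((mean_loc2 hL hl l2 b hs b' hs' g t.c t'.c).trans ?_)
      have e : 1 / ((l : ℝ) * ((l : ℝ) + 1)) = 1 * (1 + 1 / (l : ℝ)) / ((l + 1) * (l + 1)) := by
        field_simp
      rw [e]
      gcongr
  · simp only [a, b, b', if_true, if_false, one_mul, mul_one]
    refine (m1 b).trans (div_le_div_of_nonneg_right ?_ (by positivity))
    nlinarith
  · simp only [a, b, b', if_true, if_false, one_mul, mul_one]
    refine le_trans ?_ (div_le_div_of_nonneg_right g1 (by positivity))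
    rw [← mean_loc hL (D := star t'.Q) hl l2 (by rwa [nm_star]) (by rwa [nm_star]) t'.c,
      star_star]
    exact Em_mono fun x _ => ind_mono fun c => c.2.2 b'
  · rw [hl.dvd_mul, hl.dvd_mul] at hd
    tauto

lemma const_le {δ : ℝ} (hδ : 0 < δ) {v : ℕ} (hv : (1000 : ℝ) ≤ v) :
    (1 + min δ 1) * Real.exp (217 / v) ≤ 1 + δ + 1000 / v := by
  have v0 : (0 : ℝ) < v := by linarith
  have h1 : 0 ≤ 217 / (v : ℝ) := by positivity
  have h2 : 217 / (v : ℝ) ≤ 1 := by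
    rw [div_le_one v0]
    linarith
  have h3 := (abs_le.1 (Real.abs_exp_sub_one_le (x := 217 / v) (by rwa [abs_of_nonneg h1]))).2
  rw [abs_of_nonneg h1] at h3
  have h4 : 1000 / (v : ℝ) = 1000 / 217 * (217 / v) := by ring
  have h5 := min_le_left δ 1
  have h6 := min_le_right δ 1
  have h7 : 0 < min δ 1 := lt_min hδ one_pos
  nlinarith

end U2a

end Pool.Agent.Lib.LQ
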