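import Pool.Agent.Lib.LQ.Basic

/-! Block UI of the project LQ, part 1: the object and the parameter attached to a square. -/

set_option autoImplicit false

open Finset
open scoped Classical

noncomputable section

namespace Pool.Agent.Lib.LQ

open Pool.Agent.Lib.MP_de94cf_nt (gg det inn)

namespace UI

def S2 (v : ℕ) (z : ℝ) (s : Sq) : Finset GI := sm (ww v) z (star s.a2)
def S3 (v : ℕ) (z : ℝ) (s : Sq) : Finset GI := sm (ww v) z s.P
def bb (v : ℕ) (z : ℝ) (s : Sq) : GI := s.a2 / star (pr (S2 v z s))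
def rho (v : ℕ) (z : ℝ) (s : Sq) : GI := s.P / pr (S3 v z s)
def be (v : ℕ) (z : ℝ) (s : Sq) : GI := s.a1 * pr (S2 v z s) * s.P
def gam (v : ℕ) (z : ℝ) (ε : GI) (s : Sq) : GI × GI := (ε * be v z s, ε * bb v z s)
def tt (v : ℕ) (z : ℝ) (s : Sq) : Tt := ⟨S2 v z s, S3 v z s, s.y.natAbs, s.Q⟩

variable {v a e f : ℕ} {z : ℝ} {s : Sq} {ε : GI}

lemma s2_ne (v : ℕ) (z : ℝ) (s : Sq) : pr (S2 v z s) ≠ 0 := pr_ne_zero (sm_subset _ _ _)
lemma s3_ne (v : ℕ) (z : ℝ) (s : Sq) : pr (S3 v z s) ≠ 0 := pr_ne_zero (sm_subset _ _ _)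

lemma sm_s2 (v : ℕ) (z : ℝ) (s : Sq) : sm (ww v) z (pr (S2 v z s)) = S2 v z s :=
  sm_pr (sm_subset _ _ _)

lemma bb_eq (v : ℕ) (z : ℝ) (s : Sq) : star (pr (S2 v z s)) * bb v z s = s.a2 :=
  EuclideanDomain.mul_div_cancel' (star_ne_zero.2 (s2_ne v z s))
    (star_dvd_iff.2 (pr_sm_dvd _ _ _))

lemma rho_eq (v : ℕ) (z : ℝ) (s : Sq) : pr (S3 v z s) * rho v z s = s.P :=
  EuclideanDomain.mul_div_cancel' (s3_ne v z s) (pr_sm_dvd _ _ _)

lemma star_be (v : ℕ) (z : ℝ) (s : Sq) :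
    star (be v z s) * bb v z s = star s.a1 * (s.a2 * star s.P) := by
  rw [← bb_eq v z s]; unfold be; simp only [star_mul]; ring

lemma det_gam (hε : IsUnit ε) (h : s.Valid) : det (gam v z ε s).1 (gam v z ε s).2 = 1 := by
  have h1 := star_be v z s
  rw [star_mul_eq, star_mul_eq] at h1
  have h2 := congrArg Zsqrtd.im h1
  simp only at h2
  show det (ε * _) (ε * _) = 1
  rw [det_unit hε, h2, h.hdet]

lemma inn_gam (hε : IsUnit ε) : inn (gam v z ε s).1 (gam v z ε s).2 = s.n1 := by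
  have h1 := star_be v z s
  rw [star_mul_eq, star_mul_eq] at h1
  have h2 := congrArg Zsqrtd.re h1
  simp only at h2
  show inn (ε * _) (ε * _) = _
  rw [inn_unit hε, h2, Sq.n1]

lemma sm_quot {w z : ℝ} {α α' : GI} (h : ∀ l ∈ PP w z, ¬ l ^ 2 ∣ nm α)
    (e : pr (sm w z α) * α' = α) : sm w z α' = ∅ := by
  rw [eq_empty_iff_forall_notMem]
  intro π hπ
  rw [mem_sm] at hπ
  have h1 : π ∈ sm w z α := mem_sm.2 ⟨hπ.1, e ▸ hπ.2.mul_left _⟩
  apply h _ (mem_GF.1 hπ.1).1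
  rw [← nm_pow, sq]
  exact nm_dvd (e ▸ mul_dvd_mul (dvd_pr h1) hπ.2)

lemma nm_a2 (v : ℕ) (z : ℝ) (s : Sq) : nm s.a2 = nm (pr (S2 v z s)) * nm (bb v z s) := by
  rw [← nm_star (pr _), ← nm_mul, bb_eq]

lemma nm_P (v : ℕ) (z : ℝ) (s : Sq) : nm s.P = nm (pr (S3 v z s)) * nm (rho v z s) := by
  rw [← nm_mul, rho_eq]

lemma nm_unit (hε : IsUnit ε) (α : GI) : nm (ε * α) = nm α := by
  rw [nm_mul, nm_eq_one.2 hε, one_mul]

lemma be_dvd (v : ℕ) (z : ℝ) (s : Sq) : nm (be v z s) * nm s.Q ∣ s.N6 :=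
  ⟨nm (bb v z s) * nm s.a3 * nm s.a4, by
    unfold Sq.N6 be; rw [nm_a2 v z s, nm_mul, nm_mul]; ring⟩

lemma sm_bb (hε : IsUnit ε) (h : s.Core v a e f z) : sm (ww v) z (gam v z ε s).2 = ∅ := by
  show sm _ _ (ε * _) = ∅
  rw [sm_unit _ _ hε]
  have h1 : sm (ww v) z (star (bb v z s)) = ∅ := by
    refine sm_quot (α := star s.a2) (fun l hl hd => h.sq6 l hl (hd.trans ?_)) ?_
    · rw [nm_star]; exact ⟨nm s.a1 * nm s.a3 * nm s.a4 * nm s.P * nm s.Q, by unfold Sq.N6; ring⟩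
    · show pr (S2 v z s) * star (bb v z s) = star s.a2
      rw [← bb_eq v z s, star_mul, star_star, mul_comm]
  rw [sm_eq_empty_iff] at h1 ⊢
  simpa only [nm_star] using h1

lemma two_lt_ww (hv : 2 ≤ v) : (16 : ℝ) ≤ ww v := by
  have : (2 : ℝ) ≤ v := by exact_mod_cast hv
  calc (16 : ℝ) = 2 ^ 4 := by norm_num
    _ ≤ _ := pow_le_pow_left₀ (by norm_num) this 4

lemma rho_dvd (v : ℕ) (z : ℝ) (s : Sq) : nm (rho v z s) ∣ nm s.P :=
  ⟨_, by rw [nm_P v z s, mul_comm]⟩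

lemma rho_rough (hv : 2 ≤ v) (h : s.Core v a e f z) :
    ∀ l : ℕ, l.Prime → l ∣ nm (rho v z s) → z < (l : ℝ) := by
  intro l hl hd
  have h1 : sm (ww v) z (rho v z s) = ∅ :=
    sm_quot (α := s.P) (fun l hl hd => (mem_PP.1 hl).1.one_lt.ne'
      (Nat.isUnit_iff.1 (h.sfP l (by rwa [← sq])))) (rho_eq v z s)
  have h2 := hd.trans (rho_dvd v z s)
  have h3 := h.bigP l hl h2
  have h4 := two_lt_ww hv
  have h5 : l ≠ 2 := by rintro rfl; norm_num at h3; linarith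
  have h6 := mod_four_of_sqfree hl h5 h2
    (fun hd => hl.one_lt.ne' (Nat.isUnit_iff.1 (h.sfP l (by rwa [← sq]))))
  by_contra hn
  exact sm_eq_empty_iff.1 h1 l (mem_PP.2 ⟨hl, h6, h3, not_lt.1 hn⟩) hd

lemma prime_pr {w z : ℝ} {S : Finset GI} (hS : S ⊆ GF w z) {l : ℕ} (hl : l.Prime)
    (hd : l ∣ nm (pr S)) : l ∈ PP w z := by
  have h1 : l ∈ (nm (pr S)).primeFactors :=
    Nat.mem_primeFactors.2 ⟨hl, hd, fun h => pr_ne_zero hS (nm_eq_zero.1 h)⟩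
  rw [primeFactors_nm_pr hS, mem_image] at h1
  obtain ⟨π, h2, rfl⟩ := h1
  exact (mem_GF.1 (hS h2)).1

lemma prS_dvd (hε : IsUnit ε) : nm (pr (sm (ww v) z (gam v z ε s).1)) ∣ nm (be v z s) := by
  rw [← nm_unit hε (be v z s)]; exact nm_dvd (pr_sm_dvd _ _ _)

lemma lab (hv : 2 ≤ v) (hε : IsUnit ε) (h : s.Core v a e f z) :
    Lab v a f z (sm (ww v) z (gam v z ε s).1) (rho v z s) := by
  set S := sm (ww v) z (gam v z ε s).1 with hS
  have hsub : S ⊆ GF (ww v) z := sm_subset _ _ _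
  have hd : nm (pr S) ∣ s.N6 := (prS_dvd hε).trans ((dvd_mul_right _ _).trans (be_dvd v z s))
  have hsf : Squarefree (nm (pr S)) := by
    rw [Nat.squarefree_iff_prime_squarefree]
    intro l hl h2
    exact h.sq6 l (prime_pr hsub hl ((dvd_mul_right _ _).trans h2)) (by rw [sq]; exact h2.trans hd)
  refine ⟨hsub, ?_, rho_rough hv h, ?_, ?_⟩
  · rw [nm_mul, Nat.squarefree_mul_iff]
    refine ⟨Nat.coprime_of_dvd fun l hl h1 h2 => ?_, hsf, h.sfP.squarefree_of_dvd (rho_dvd v z s)⟩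
    exact absurd (mem_PP.1 (prime_pr hsub hl h1)).2.2.2 (not_le.2 (rho_rough hv h l hl h2))
  · refine le_trans ?_ h.sz
    rw [← Nat.prod_primeFactors_of_squarefree hsf, Nat.cast_prod]
    refine prod_le_prod_of_subset_of_one_le (fun l hl => ?_) (fun _ _ => by positivity)
      fun l hl _ => ?_
    · have := Nat.mem_primeFactors.1 hl
      exact mem_filter.2 ⟨prime_pr hsub this.1 this.2.1, this.2.1.trans hd⟩
    · exact_mod_cast (mem_PP.1 (mem_filter.1 hl).1).1.one_le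
  · refine le_trans ?_ h.hiP
    exact_mod_cast Nat.le_of_dvd (Nat.pos_of_ne_zero h.sfP.ne_zero) (rho_dvd v z s)

lemma sub2 (v : ℕ) (z : ℝ) (ε : GI) (s : Sq) : S2 v z s ⊆ sm (ww v) z (gam v z ε s).1 :=
  fun _ hπ => mem_sm.2 ⟨(mem_sm.1 hπ).1,
    (((dvd_pr hπ).mul_left s.a1).mul_right s.P).mul_left ε⟩

lemma sub3 (v : ℕ) (z : ℝ) (ε : GI) (s : Sq) : S3 v z s ⊆ sm (ww v) z (gam v z ε s).1 :=
  fun _ hπ => mem_sm.2 ⟨(mem_sm.1 hπ).1, ((mem_sm.1 hπ).2.mul_left _).mul_left ε⟩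

lemma tt_p (v : ℕ) (z : ℝ) (s : Sq) : (tt v z s).p (rho v z s) = nm s.P := by
  show nm (pr (S3 v z s) * _) = _
  rw [rho_eq]

lemma y_cast (h : s.Core v a e f z) : ((s.y.natAbs : ℕ) : ℤ) = s.y :=
  Int.natAbs_of_nonneg h.ypos.le

lemma pq_eq (hs : s.Valid) : (nm s.P : ℤ) - nm s.Q = s.y * s.k := by
  rw [nm_int, nm_int, hs.hq]; ring

lemma tt_k (hs : s.Valid) (h : s.Core v a e f z) : (tt v z s).k (rho v z s) = s.k := by
  unfold Tt.k
  rw [tt_p]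
  show ((nm s.P : ℤ) - nm s.Q) / (s.y.natAbs : ℕ) = _
  rw [y_cast h, pq_eq hs, Int.mul_ediv_cancel_left _ h.ypos.ne']

lemma tt_c (h : s.Core v a e f z) : ((tt v z s).c : ℝ) = (s.y : ℝ) * nm (pr (S2 v z s)) := by
  show (((s.y.natAbs : ℕ) * (nm (pr (S2 v z s)) : ℕ) : ℤ) : ℝ) = _
  rw [y_cast h]; push_cast; rfl

lemma adm (hε : IsUnit ε) (hs : s.Valid) (h : s.Core v a e f z) {Y0 C1 : ℝ}
    (h1 : Y0 ≤ ((tt v z s).c : ℝ)) (h2 : ((tt v z s).c : ℝ) ≤ C1 * Y0) :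
    Adm v a e f z (sm (ww v) z (gam v z ε s).1) (rho v z s) 1 Y0 C1 (tt v z s) := by
  set S := sm (ww v) z (gam v z ε s).1 with hS
  have hsub : S ⊆ GF (ww v) z := sm_subset _ _ _
  have hy : ((s.y.natAbs : ℕ) : ℝ) = s.y := by rw [← Int.cast_natCast, y_cast h]
  have hc : ∀ l : ℕ, l.Prime → l ∣ nm s.P → ¬ l ∣ nm s.Q := fun l hl a b =>
    hl.one_lt.ne' (Nat.eq_one_of_dvd_coprimes h.cop a b)
  refine ⟨sub2 v z ε s, sub3 v z ε s, ?_, h1, h2, hy ▸ h.loy, hy ▸ h.hiy, h.sfy, Nat.modEq_one,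
    h.sgy, ?_, h.sfQ, h.bigQ, h.sgQ, ?_, tt_p v z s ▸ h.PQ, tt_p v z s ▸ h.QP, tt_p v z s ▸ h.ne,
    ?_, by simp, tt_p v z s ▸ h.loP, tt_p v z s ▸ h.hiP, tt_k hs h ▸ h.sgk⟩
  · refine disjoint_left.2 fun π a b => ?_
    have a' := mem_sm.1 a
    have b' := mem_sm.1 b
    refine h.sq6 _ (mem_GF.1 a'.1).1 ?_
    have h3 := nm_dvd a'.2
    rw [nm_star] at h3
    rw [sq]
    exact (mul_dvd_mul h3 (nm_dvd b'.2)).trans
      ⟨nm s.a1 * nm s.a3 * nm s.a4 * nm s.Q, by unfold Sq.N6; ring⟩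
  · refine Nat.coprime_of_dvd fun l hl a b => ?_
    rw [nm_mul] at b
    rcases (Nat.Prime.dvd_mul hl).1 b with b | b
    · exact h.yc l (prime_pr hsub hl b) a
        (b.trans ((prS_dvd hε).trans ((dvd_mul_right _ _).trans (be_dvd v z s))))
    · have b' := b.trans (rho_dvd v z s)
      refine hc l hl b' ?_
      have a' : (l : ℤ) ∣ s.y := Int.natCast_dvd.2 a
      have h4 : (nm s.Q : ℤ) = nm s.P - s.y * s.k := by linarith [pq_eq hs]
      rw [← Int.natCast_dvd_natCast, h4]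
      exact dvd_sub (Int.natCast_dvd_natCast.2 b') (a'.mul_right _)
  · refine Nat.coprime_of_dvd fun l hl a b => ?_
    rw [nm_mul] at b
    rcases (Nat.Prime.dvd_mul hl).1 b with b | b
    · refine h.sq6 l (prime_pr hsub hl b) ?_
      rw [sq]
      exact (mul_dvd_mul (b.trans (prS_dvd hε)) a).trans (be_dvd v z s)
    · exact hc l hl (b.trans (rho_dvd v z s)) a
  · rw [tt_p]
    show ((s.y.natAbs : ℕ) : ℤ) ∣ (nm s.P : ℤ) - nm s.Q
    rw [y_cast h, pq_eq hs]; exact dvd_mul_right _ _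

lemma L3_eq (hs : s.Valid) (h : s.Core v a e f z) :
    (tt v z s).L3 (gam v z ε s) = ε * (pr (S2 v z s) * (s.a3 * star s.Q)) := by
  have e1 : (((tt v z s).c : ℤ) : GI) = (s.y : GI) * (pr (S2 v z s) * star (pr (S2 v z s))) := by
    show ((((s.y.natAbs : ℕ) * (nm (pr (S2 v z s)) : ℕ) : ℤ)) : GI) = _
    rw [y_cast h, mul_star_eq]; push_cast; rfl
  unfold Tt.L3 Lf
  rw [e1, hs.h3, ← bb_eq v z s]
  simp only [gam, be]
  push_cast; ring

lemma L4_eq (hs : s.Valid) (h : s.Core v a e f z) :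
    (tt v z s).L4 (rho v z s) (gam v z ε s) =
      ε * (pr (S2 v z s) * (s.P * (s.a4 * star s.Q))) := by
  have e1 : (((tt v z s).m (rho v z s) : ℤ) : GI) =
      (pr (S2 v z s) * star (pr (S2 v z s))) * (s.P * star s.P) := by
    unfold Tt.m
    rw [tt_p, mul_star_eq, mul_star_eq]; push_cast; rfl
  unfold Tt.L4 Lf
  rw [e1, tt_k hs h, hs.h4, ← bb_eq v z s]
  simp only [gam, be]
  ring

lemma W_nonneg {x : Wt} (hx : x.OK) (v : ℕ) (z : ℝ) (s : Sq) : 0 ≤ s.W v z x := by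
  have := hx.h1; have := hx.h2; have := hx.hP; have := hx.h3.1; have := hx.h4.1; have := hx.hQ.1
  unfold Sq.W; positivity

lemma W_le {x : Wt} (hx : x.OK) (hε : IsUnit ε) (hs : s.Valid) (h : s.Core v a e f z) :
    s.W v z x ≤ phi v z x (sm (ww v) z (gam v z ε s).1) (rho v z s) (tt v z s) (gam v z ε s) := by
  set S := sm (ww v) z (gam v z ε s).1 with hS
  have p1 := hx.h1; have p2 := hx.h2; have p3 := hx.hP; have p4 := hx.h3; have p5 := hx.h4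
  have p6 := hx.hQ; have p7 := hx.hsum
  have hn : ∀ π ∈ S, nm π ∣ nm (pr S) * (tt v z s).q := fun π hπ =>
    (nm_dvd (dvd_pr hπ)).mul_right _
  have hq : ∀ π : GI, π ∣ star s.Q → nm π ∣ nm (pr S) * (tt v z s).q := fun π hπ =>
    Dvd.dvd.mul_left (by have := nm_dvd hπ; rwa [nm_star] at this) _
  have h2 : ∀ π ∈ GF (ww v) z, π ∣ pr (S2 v z s) → π ∈ S := fun π hπ hd =>
    sub2 v z ε s (by rw [← sm_s2]; exact mem_sm.2 ⟨hπ, hd⟩)
  have e1 : x.x1 ^ om (ww v) z s.a1 ≤ x.x1 ^ (S \ (S2 v z s ∪ S3 v z s)).card := by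
    refine pow_le_pow_of_le_one p1 (by linarith) (card_le_card fun π hπ => ?_)
    rw [mem_sdiff, mem_union, not_or] at hπ
    have h3 : π ∈ sm (ww v) z (ε * (s.a1 * pr (S2 v z s) * s.P)) := hπ.1
    rw [sm_unit _ _ hε, sm_mul, sm_mul, sm_s2, mem_union, mem_union] at h3
    rcases h3 with (h3 | h3) | h3
    exacts [h3, absurd h3 hπ.2.1, absurd h3 hπ.2.2]
  have e3 : x.x3 ^ om (ww v) z s.a3 ≤
      x.x3 ^ omx v z (nm (pr S) * (tt v z s).q) ((tt v z s).L3 (gam v z ε s)) := by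
    refine pow_le_pow_of_le_one p4.1 p4.2 (card_le_card fun π hπ => ?_)
    rw [mem_filter, L3_eq hs h, sm_unit _ _ hε, mem_sm] at hπ
    obtain ⟨⟨g, d⟩, n⟩ := hπ
    rcases (GF_prime g).dvd_or_dvd d with d | d
    · exact absurd (hn π (h2 π g d)) n
    rcases (GF_prime g).dvd_or_dvd d with d | d
    exacts [mem_sm.2 ⟨g, d⟩, absurd (hq π d) n]
  have e4 : x.x4 ^ om (ww v) z s.a4 ≤
      x.x4 ^ omx v z (nm (pr S) * (tt v z s).q) ((tt v z s).L4 (rho v z s) (gam v z ε s)) := by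
    refine pow_le_pow_of_le_one p5.1 p5.2 (card_le_card fun π hπ => ?_)
    rw [mem_filter, L4_eq hs h, sm_unit _ _ hε, mem_sm] at hπ
    obtain ⟨⟨g, d⟩, n⟩ := hπ
    rcases (GF_prime g).dvd_or_dvd d with d | d
    · exact absurd (hn π (h2 π g d)) n
    rcases (GF_prime g).dvd_or_dvd d with d | d
    · exact absurd (hn π (sub3 v z ε s (mem_sm.2 ⟨g, d⟩))) n
    rcases (GF_prime g).dvd_or_dvd d with d | d
    exacts [mem_sm.2 ⟨g, d⟩, absurd (hq π d) n]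
  have e5 : ind (star (tt v z s).Q ∣ (tt v z s).L3 (gam v z ε s)) = 1 := by
    rw [L3_eq hs h]
    exact ind_true (((dvd_mul_left _ _).mul_left _).mul_left _)
  unfold phi th Sq.W
  rw [e5, ← om_star _ _ s.a2]
  have p8 := p4.1; have p9 := p5.1; have p10 := p6.1
  calc _ = x.x1 ^ om (ww v) z s.a1 * x.x2 ^ (S2 v z s).card * x.xP ^ (S3 v z s).card *
        x.xQ ^ om (ww v) z s.Q * 1 * x.x3 ^ om (ww v) z s.a3 * x.x4 ^ om (ww v) z s.a4 := by
        simp only [om, S2, S3]; ring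
    _ ≤ _ := by
        show _ ≤ x.x1 ^ (S \ (S2 v z s ∪ S3 v z s)).card * x.x2 ^ (S2 v z s).card *
          x.xP ^ (S3 v z s).card * x.xQ ^ om (ww v) z s.Q * 1 * _ * _
        gcongr

lemma inj {s' : Sq} (hε : IsUnit ε) (hs : s.Valid) (h : s.Core v a e f z) (hs' : s'.Valid)
    (h' : s'.Core v a e f z) (e1 : gam v z ε s = gam v z ε s') (e2 : rho v z s = rho v z s')
    (e3 : tt v z s = tt v z s') : s = s' := by
  have q2 : S2 v z s = S2 v z s' := congrArg Tt.S2 e3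
  have q3 : S3 v z s = S3 v z s' := congrArg Tt.S3 e3
  have qQ : s.Q = s'.Q := congrArg Tt.Q e3
  have qy : s.y = s'.y := by
    rw [← y_cast h, ← y_cast h']; exact congrArg Nat.cast (congrArg Tt.y e3)
  have qP : s.P = s'.P := by rw [← rho_eq v z s, ← rho_eq v z s', q3, e2]
  have qb : bb v z s = bb v z s' := hε.mul_left_cancel (congrArg Prod.snd e1)
  have qe : be v z s = be v z s' := hε.mul_left_cancel (congrArg Prod.fst e1)
  have q2' : s.a2 = s'.a2 := by rw [← bb_eq v z s, ← bb_eq v z s', q2, qb]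
  have hP : s'.P ≠ 0 := fun h0 => h'.sfP.ne_zero (nm_eq_zero.2 h0)
  have q1 : s.a1 = s'.a1 := by
    unfold be at qe
    rw [q2, qP] at qe
    exact mul_right_cancel₀ (s2_ne v z s') (mul_right_cancel₀ hP qe)
  have qk : s.k = s'.k := by
    have h1 := pq_eq hs
    rw [qP, qQ, pq_eq hs', qy] at h1
    exact (mul_left_cancel₀ h'.ypos.ne' h1).symm
  have hQ : star s'.Q ≠ 0 := star_ne_zero.2 hs'.hQ
  refine Sq.ext q1 q2' ?_ ?_ qP qQ qy qk
  · apply mul_right_cancel₀ hQ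
    rw [hs'.h3, ← qQ, hs.h3, qP, q1, qy, q2']
  · apply mul_right_cancel₀ hQ
    rw [hs'.h4, ← qQ, hs.h4, qP, q1, qk, q2']

end UI

end Pool.Agent.Lib.LQ
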