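import Pool.Agent.Lib.LQ.UIAux1

/-! Block UI of the project LQ, part 2: sizes, and the sums over labels. -/

set_option autoImplicit false

open Finset
open scoped Classical

noncomputable section

namespace Pool.Agent.Lib.LQ

open Pool.Agent.Lib.MP_de94cf_nt (gg det inn)

namespace UI

def jj (g : GI) : ℕ := Nat.log 2 g.im.toNat
def DD (C2 X : ℝ) (j : ℕ) : ℕ := ⌈2 * C2 * X / ((2 ^ j : ℕ) : ℝ)⌉₊
def YY (C2 X : ℝ) (j : ℕ) : ℝ := ((2 ^ j : ℕ) : ℝ) ^ 2 / (2 * C2 ^ 3 * X)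

lemma real1 {C C2 X N1 N2 n c i : ℝ} (hC : 1 ≤ C) (hC2 : 1 ≤ C2) (hX : 1 ≤ X)
    (h1 : C ^ 2 ≤ N1) (h2 : N1 ≤ 8 * C ^ 2) (h3 : N1 * N2 = n ^ 2 + 1) (h4 : X / C2 ≤ n)
    (h5 : n ≤ C2 * X) (h6 : X / C2 ≤ c * N2) (h7 : c * N2 ≤ C2 * X) (hi : i ^ 2 ≤ N2)
    (hc : 0 ≤ c) :
    |i| ≤ 2 * C2 * X / C ∧ C ^ 2 / (2 * C2 ^ 3 * X) ≤ c ∧
      c ≤ 16 * C2 ^ 6 * (C ^ 2 / (2 * C2 ^ 3 * X)) := by
  have hT : 1 ≤ C2 * X := by nlinarith
  have hn0 : 0 ≤ X / C2 := by positivity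
  have hn : n ^ 2 ≤ (C2 * X) ^ 2 := pow_le_pow_left₀ (hn0.trans h4) h5 2
  have hT2 : 1 ≤ (C2 * X) ^ 2 := one_le_pow₀ hT
  have hN2 : 0 ≤ N2 := (sq_nonneg i).trans hi
  have hN1 : 0 ≤ N1 := (sq_nonneg C).trans h1
  refine ⟨?_, ?_, ?_⟩
  · rw [le_div_iff₀ (by linarith), ← pow_le_pow_iff_left₀ (by positivity) (by positivity)
      two_ne_zero, mul_pow, sq_abs]
    have : i ^ 2 * C ^ 2 ≤ N2 * N1 := mul_le_mul hi h1 (by positivity) hN2
    nlinarith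
  · rw [div_le_iff₀ (by positivity)]
    rw [div_le_iff₀ (by positivity)] at h6
    have h8 : C ^ 2 * X ≤ N1 * (c * N2 * C2) := mul_le_mul h1 h6 (by positivity) hN1
    have h9 : N1 * (c * N2 * C2) = c * C2 * (n ^ 2 + 1) := by rw [← h3]; ring
    have h10 : c * C2 * (n ^ 2 + 1) ≤ c * C2 * (2 * (C2 * X) ^ 2) := by gcongr; linarith
    have h11 : C ^ 2 * X ≤ c * (2 * C2 ^ 3 * X) * X := by nlinarith
    exact le_of_mul_le_mul_right h11 (by linarith)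
  · have e : 16 * C2 ^ 6 * (C ^ 2 / (2 * C2 ^ 3 * X)) = 8 * C2 ^ 3 * C ^ 2 / X := by
      field_simp; ring
    rw [e, le_div_iff₀ (by linarith)]
    have h8 : (X / C2) ^ 2 ≤ n ^ 2 := pow_le_pow_left₀ hn0 h4 2
    rw [div_pow, div_le_iff₀ (by positivity)] at h8
    have h9 : N1 * (c * N2) ≤ 8 * C ^ 2 * (C2 * X) := mul_le_mul h2 h7 (by positivity) (by positivity)
    have h10 : N1 * (c * N2) = c * (n ^ 2 + 1) := by rw [← h3]; ring
    have h11 : c * X ^ 2 ≤ c * (n ^ 2 * C2 ^ 2) := by gcongr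
    have h12 : c * n ^ 2 * C2 ^ 2 ≤ 8 * C ^ 2 * (C2 * X) * C2 ^ 2 :=
      mul_le_mul_of_nonneg_right (by linarith) (by positivity)
    have h13 : c * X * X ≤ 8 * C2 ^ 3 * C ^ 2 * X := by nlinarith
    exact le_of_mul_le_mul_right h13 (by linarith)

variable {v a e f u : ℕ} {z : ℝ} {s : Sq} {ε : GI}

lemma sizes {C2 X : ℝ} (hε : IsUnit ε) (hs : s.Valid) (h : s.Core v a e f z) (hz : s.Size C2 X)
    (hC2 : 1 ≤ C2) (hX : 1 ≤ X) (hsec : |(gam v z ε s).1.re| ≤ (gam v z ε s).1.im) :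
    gam v z ε s ∈ Box (2 ^ jj (gam v z ε s).1) (DD C2 X (jj (gam v z ε s).1)) ∧
      YY C2 X (jj (gam v z ε s).1) ≤ ((tt v z s).c : ℝ) ∧
      ((tt v z s).c : ℝ) ≤ 16 * C2 ^ 6 * YY C2 X (jj (gam v z ε s).1) := by
  have hd := det_gam (v := v) (z := z) hε hs
  have hi := inn_gam (v := v) (z := z) (s := s) hε
  have hb : nm (gam v z ε s).2 = nm (bb v z s) := nm_unit hε _
  generalize gam v z ε s = γ at *
  have h0 : 0 < γ.1.im := by
    rcases ((abs_nonneg _).trans hsec).eq_or_lt with h0 | h0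
    · have h1 : γ.1.re = 0 := by rw [← h0] at hsec; simpa using hsec
      unfold det at hd
      rw [h1, ← h0] at hd; simp at hd
    · exact h0
  have h1 : ((2 ^ jj γ.1 : ℕ) : ℤ) ≤ γ.1.im := by
    have := Nat.pow_log_le_self 2 (show γ.1.im.toNat ≠ 0 by omega)
    unfold jj; omega
  have h2 : γ.1.im < 2 * ((2 ^ jj γ.1 : ℕ) : ℤ) := by
    have := Nat.lt_pow_succ_log_self (b := 2) (by norm_num) γ.1.im.toNat
    rw [pow_succ] at this
    unfold jj; omega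
  have hC : 1 ≤ 2 ^ jj γ.1 := Nat.one_le_two_pow
  unfold DD YY
  generalize 2 ^ jj γ.1 = C at *
  have h3 : (C : ℤ) ^ 2 ≤ nm γ.1 := by rw [nm_int']; nlinarith [sq_nonneg γ.1.re]
  have h4 : (nm γ.1 : ℤ) ≤ 8 * (C : ℤ) ^ 2 := by
    rw [nm_int']; nlinarith [sq_abs γ.1.re, abs_nonneg γ.1.re]
  have h5 := nm_mul_nm γ.1 γ.2
  rw [hd, hi, ← sq_abs] at h5
  have h6 : ((tt v z s).c : ℝ) * nm γ.2 = s.y * nm s.a2 := by
    rw [tt_c h, hb, nm_a2 v z s]; push_cast; ring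
  have h7 : (0 : ℝ) ≤ (tt v z s).c := by
    rw [tt_c h]; have : (0 : ℝ) < s.y := by exact_mod_cast h.ypos
    positivity
  obtain ⟨r1, r2, r3⟩ := real1 (C := C) (N1 := nm γ.1) (N2 := nm γ.2) (n := |(s.n1 : ℝ)|)
    (i := γ.2.im) (by exact_mod_cast hC) hC2 hX (by exact_mod_cast h3) (by exact_mod_cast h4)
    (by exact_mod_cast h5) hz.lon hz.hin (h6 ▸ hz.loa) (h6 ▸ hz.hia)
    (by rw [nm_real]; nlinarith [sq_nonneg (γ.2.re : ℝ)]) h7
  refine ⟨(mem_Box hC).2 ⟨h1, h2, by linarith, ?_, hd⟩, r2, r3⟩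
  have := r1.trans (Nat.le_ceil _)
  exact_mod_cast this

lemma boxok {C2 X c : ℝ} {j : ℕ} (he : ExpOK u a e f) (hC2 : 1 ≤ C2) (hz : 7 * C2 ^ 3 ≤ z)
    (hX : 1 ≤ X) (h1 : YY C2 X j ≤ c) (h2 : c ≤ 16 * C2 ^ 6 * YY C2 X j) (h3 : 1 ≤ c)
    (h4 : c ≤ z ^ e * z ^ a) : BoxOK f z X (2 ^ j) (DD C2 X j) := by
  have hC : 1 ≤ 2 ^ j := Nat.one_le_two_pow
  unfold DD YY at *
  generalize 2 ^ j = C at *
  have hC' : (1 : ℝ) ≤ C := by exact_mod_cast hC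
  have h5 : 1 ≤ C2 ^ 3 := one_le_pow₀ hC2
  have hz1 : 1 ≤ z := by linarith
  have hs : 1 ≤ Real.sqrt X := Real.one_le_sqrt.2 hX
  have hs2 : Real.sqrt X ^ 2 = X := Real.sq_sqrt (by linarith)
  obtain ⟨e1, -, e2, e3⟩ := he
  refine ⟨hC, Nat.ceil_pos.2 (by positivity), ?_, ?_⟩
  · rw [← pow_le_pow_iff_left₀ (by positivity) (by positivity) two_ne_zero, mul_pow, hs2]
    rw [div_le_iff₀ (by positivity)] at h1
    calc (C : ℝ) ^ 2 ≤ c * (2 * C2 ^ 3 * X) := h1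
      _ ≤ z ^ e * z ^ a * (z * X) := by gcongr; linarith
      _ = X * z ^ (e + a + 1) := by ring
      _ ≤ X * z ^ (f * 2) := by gcongr; omega
      _ = _ := by rw [pow_mul]
  · have e : 16 * C2 ^ 6 * ((C : ℝ) ^ 2 / (2 * C2 ^ 3 * X)) = 8 * C2 ^ 3 * C ^ 2 / X := by
      field_simp; ring
    rw [e, le_div_iff₀ (by linarith)] at h2
    have h6 : Real.sqrt X ≤ 3 * C2 ^ 2 * C := by
      rw [← pow_le_pow_iff_left₀ (by positivity) (by positivity) two_ne_zero, hs2]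
      have h7 : C2 ^ 3 * (C : ℝ) ^ 2 ≤ C2 ^ 4 * C ^ 2 := by gcongr; norm_num
      have h8 : 0 ≤ C2 ^ 4 * (C : ℝ) ^ 2 := by positivity
      nlinarith
    have h7 : 2 * C2 * X / C ≤ 6 * C2 ^ 3 * Real.sqrt X := by
      rw [div_le_iff₀ (by positivity)]
      calc 2 * C2 * X = 2 * C2 * Real.sqrt X * Real.sqrt X := by rw [mul_assoc _ (Real.sqrt X), ← sq, hs2]
        _ ≤ 2 * C2 * Real.sqrt X * (3 * C2 ^ 2 * C) := by gcongr
        _ = _ := by ring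
    have h8 := Nat.ceil_lt_add_one (show 0 ≤ 2 * C2 * X / C by positivity)
    have h9 : z ≤ z ^ f := le_self_pow₀ hz1 (by omega)
    have h10 : 1 ≤ C2 ^ 3 * Real.sqrt X := by nlinarith
    have h11 : Real.sqrt X * (7 * C2 ^ 3) ≤ Real.sqrt X * z ^ f := by gcongr; linarith
    linarith

lemma card_box {C2 X : ℝ} {j : ℕ} (hC2 : 1 ≤ C2) (h : ((2 ^ j : ℕ) : ℝ) ≤ X) :
    ((Box (2 ^ j) (DD C2 X j)).card : ℝ) ≤ 42 * C2 * X := by
  have hC : 1 ≤ 2 ^ j := Nat.one_le_two_pow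
  have h1 := card_Box_le (D := DD C2 X j) hC
  unfold DD at *
  generalize 2 ^ j = C at *
  have hC' : (1 : ℝ) ≤ C := by exact_mod_cast hC
  have hX : 0 ≤ X := by linarith
  have h2 := Nat.ceil_lt_add_one (show 0 ≤ 2 * C2 * X / C by positivity)
  have h3 : (C : ℝ) * (2 * C2 * X / C) = 2 * C2 * X := by field_simp
  have h4 : X ≤ C2 * X := by nlinarith
  nlinarith

lemma psi_pos (n : ℕ) : 0 < psi n := prod_pos fun _ _ => by positivity

lemma psi_le {n : ℕ} (hn : n ≠ 0) : psi n ≤ (n : ℝ) ^ 2 := by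
  have h1 : ((∏ l ∈ n.primeFactors, l : ℕ) : ℝ) ≤ n := by
    exact_mod_cast Nat.le_of_dvd (Nat.pos_of_ne_zero hn) (Nat.prod_primeFactors_dvd n)
  refine le_trans ?_ (pow_le_pow_left₀ (by positivity) h1 2)
  rw [Nat.cast_prod, ← prod_pow]
  refine prod_le_prod (fun _ _ => by positivity) fun l hl => ?_
  have : (2 : ℝ) ≤ l := by exact_mod_cast (Nat.prime_of_mem_primeFactors hl).two_le
  nlinarith

lemma psi_pr {w z : ℝ} {S : Finset GI} (hS : S ⊆ GF w z) (h : Squarefree (nm (pr S))) :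
    psi (nm (pr S)) = ∏ π ∈ S, ((nm π : ℝ) + 1) := by
  unfold psi
  rw [primeFactors_nm_pr hS, prod_image (nm_injOn hS h)]

lemma psi_mul {m n : ℕ} (h : Squarefree (m * n)) : psi (m * n) = psi m * psi n := by
  have hc := (Nat.squarefree_mul_iff.1 h).1
  unfold psi
  rw [hc.primeFactors_mul, prod_union hc.disjoint_primeFactors]

/-- weight of the smooth part of a label -/
def gS (K : ℝ) (S : Finset GI) : ℝ := ∏ π ∈ S, Real.exp (K / nm π) / ((nm π : ℝ) + 1)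

lemma gS_nonneg (K : ℝ) (S : Finset GI) : 0 ≤ gS K S := prod_nonneg fun _ _ => by positivity

lemma sum_gS {K w z : ℝ} (hK : 0 ≤ K) (hw : 1 ≤ w) (hKw : K ≤ w) :
    ∑ S ∈ (GF w z).powerset, gS K S ≤ Real.exp (Lam w z + 8) := by
  unfold gS
  rw [← prod_one_add]
  refine (prod_le_prod (fun _ _ => by positivity) fun π _ =>
    (add_comm _ _).trans_le (Real.add_one_le_exp _)).trans ?_
  rw [← Real.exp_sum, Real.exp_le_exp, Lam_eq]
  have h1 : ∀ π ∈ GF w z, Real.exp (K / nm π) / ((nm π : ℝ) + 1) ≤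
      1 / ((nm π : ℝ) + 1) + 2 * K * (1 / (nm π : ℝ) ^ 2) := by
    intro π hπ
    have h2 := (mem_PP.1 (mem_GF.1 hπ).1).2.2.1
    have h3 : (0 : ℝ) < nm π := by linarith
    have h4 : 0 ≤ K / nm π := by positivity
    have h5 := Real.abs_exp_sub_one_le (x := K / nm π)
      (by rw [abs_of_nonneg h4, div_le_one h3]; linarith)
    rw [abs_of_nonneg h4] at h5
    have h6 : Real.exp (K / nm π) ≤ 1 + 2 * (K / nm π) := by linarith [le_abs_self (Real.exp (K / nm π) - 1)]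
    calc _ ≤ (1 + 2 * (K / nm π)) / ((nm π : ℝ) + 1) := by gcongr
      _ = 1 / ((nm π : ℝ) + 1) + 2 * (K / nm π) / ((nm π : ℝ) + 1) := by ring
      _ ≤ 1 / ((nm π : ℝ) + 1) + 2 * (K / nm π) / (nm π : ℝ) := by gcongr; linarith
      _ = _ := by ring
  refine (sum_le_sum h1).trans ?_
  rw [sum_add_distrib, ← mul_sum, sum_GF w z fun l => 1 / (l : ℝ) ^ 2]
  have h2 := sum_inv_sq_tail hw (S := PP w z) fun l hl => (mem_PP.1 hl).2.2.1
  have h3 : K * (2 / w) ≤ 2 := by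
    rw [← mul_div_assoc, div_le_iff₀ (by linarith)]; linarith
  have h4 : K * ∑ l ∈ PP w z, 1 / (l : ℝ) ^ 2 ≤ K * (2 / w) := by gcongr
  linarith

lemma sum_rho {z Z : ℝ} (hz : 2 ≤ z) {R : Finset GI}
    (hR : ∀ ρ ∈ R, Squarefree (nm ρ) ∧ (∀ l : ℕ, l.Prime → l ∣ nm ρ → z < (l : ℝ)) ∧
      (nm ρ : ℝ) ≤ Z) : ∑ ρ ∈ R, 1 / psi (nm ρ) ≤ 4 * Real.exp (Lam z Z + 8) := by
  have h1 : ∀ ρ ∈ R, ∃ ε : GI, IsUnit ε ∧ ρ = ε * pr (sm z Z ρ) := fun ρ hρ =>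
    assoc_pr (hR ρ hρ).1 fun l hl hd => by
      have h2 := (hR ρ hρ).2.1 l hl hd
      refine ⟨by rintro rfl; norm_num at h2; linarith, h2, le_trans ?_ (hR ρ hρ).2.2⟩
      exact_mod_cast Nat.le_of_dvd (Nat.pos_of_ne_zero (hR ρ hρ).1.ne_zero) hd
  have h2 : ∀ ρ ∈ R, 1 / psi (nm ρ) = gS 0 (sm z Z ρ) := fun ρ hρ => by
    obtain ⟨ε, hε, e⟩ := h1 ρ hρ
    have h3 : nm ρ = nm (pr (sm z Z ρ)) := by rw [← nm_unit hε (pr _), ← e]
    rw [h3, psi_pr (sm_subset _ _ _) (h3 ▸ (hR ρ hρ).1), gS, prod_div_distrib]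
    simp
  rw [sum_congr rfl h2, ← sum_fiberwise_of_maps_to (t := (GF z Z).powerset) (g := sm z Z)
    fun ρ _ => mem_powerset.2 (sm_subset _ _ _)]
  refine le_trans ?_ (mul_le_mul_of_nonneg_left
    (sum_gS (K := 0) (w := z) (z := Z) le_rfl (by linarith) (by linarith)) (by norm_num))
  rw [mul_sum]
  refine sum_le_sum fun U _ => ?_
  rw [sum_congr rfl fun ρ hρ => congrArg (gS 0) (mem_filter.1 hρ).2, sum_const, nsmul_eq_mul]
  refine mul_le_mul_of_nonneg_right ?_ (gS_nonneg _ _)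
  have h3 : R.filter (fun ρ => sm z Z ρ = U) ⊆
      ({1, -1, ⟨0, 1⟩, ⟨0, -1⟩} : Finset GI).image (· * pr U) := fun ρ hρ => by
    obtain ⟨ε, hε, e⟩ := h1 ρ (mem_filter.1 hρ).1
    rw [(mem_filter.1 hρ).2] at e
    exact mem_image.2 ⟨ε, by simpa using unit_cases hε, e.symm⟩
  exact_mod_cast (card_le_card h3).trans (card_image_le.trans card_le_four)

lemma lab_weight {K : ℝ} {S : Finset GI} {ρ : GI} (h : Lab v a f z S ρ) :
    Real.exp (K * sS S) / psi (nm (pr S * ρ)) = gS K S * (1 / psi (nm ρ)) := by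
  have h1 := h.sf
  rw [nm_mul] at h1 ⊢
  rw [psi_mul h1, psi_pr h.sub (Nat.squarefree_mul_iff.1 h1).2.1, gS, prod_div_distrib, sS, mul_sum,
    Real.exp_sum]
  simp only [mul_one_div]
  ring

/-- the sum of the weights of all labels -/
lemma sum_labels {K : ℝ} (hK : 0 ≤ K) (hv : 2 ≤ v) (hKv : K ≤ v) (hz : 2 ≤ z) (J : ℕ)
    {L : Finset (ℕ × Finset GI × GI)} (hL : ∀ l ∈ L, l.1 < J ∧ Lab v a f z l.2.1 l.2.2) :
    ∑ l ∈ L, Real.exp (K * sS l.2.1) / psi (nm (pr l.2.1 * l.2.2)) ≤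
      J * (Real.exp (Lam (ww v) z + 8) * (4 * Real.exp (Lam z (z ^ f) + 8))) := by
  rw [sum_congr rfl fun l hl => lab_weight (hL l hl).2]
  have hsub : L ⊆ range J ×ˢ (GF (ww v) z).powerset ×ˢ L.image (·.2.2) := fun l hl =>
    mem_product.2 ⟨mem_range.2 (hL l hl).1, mem_product.2 ⟨mem_powerset.2 (hL l hl).2.sub,
      mem_image_of_mem _ hl⟩⟩
  refine (sum_le_sum_of_subset_of_nonneg hsub fun l _ _ =>
    mul_nonneg (gS_nonneg _ _) (by have := psi_pos (nm l.2.2); positivity)).trans ?_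
  rw [sum_product]
  simp only [sum_const, card_range, nsmul_eq_mul]
  rw [sum_product]
  simp only []
  rw [← sum_mul_sum]
  have h1 := two_lt_ww hv
  have h2 : (v : ℝ) ≤ ww v := le_self_pow₀ (by exact_mod_cast (by omega : 1 ≤ v)) (by norm_num)
  gcongr
  · exact sum_nonneg fun ρ _ => by have := psi_pos (nm ρ); positivity
  · exact sum_gS hK (by linarith) (by linarith)
  · refine sum_rho hz fun ρ hρ => ?_
    obtain ⟨l, hl, rfl⟩ := mem_image.1 hρ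
    have h3 := (hL l hl).2
    exact ⟨h3.sf.squarefree_of_dvd (nm_dvd (dvd_mul_left _ _)), h3.rough, h3.hiρ⟩

lemma final_alg {M μ X n R KO c K2 E2 : ℝ} (hM : 0 ≤ M) (hμ : 0 < μ) (hX : 0 < X) (hR : 0 ≤ R)
    (hKO : 0 ≤ KO) (hc : 0 ≤ c) (hK2 : 0 ≤ K2) (hn0 : 0 ≤ n) (hn : n ≤ KO * R) (hRX : R ≤ c * X)
    (hE : E2 ≤ K2 * μ ^ 2 * X + 4 * μ * M) (hCS : M ^ 2 ≤ n * E2) :
    M ≤ Real.sqrt (KO * (K2 + 4 * (4 * (KO * c) + KO * c * K2 + 1))) * μ * Real.sqrt (X * R) := by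
  have h1 : M ^ 2 ≤ KO * R * (K2 * μ ^ 2 * X + 4 * μ * M) :=
    hCS.trans ((mul_le_mul_of_nonneg_left hE hn0).trans (by gcongr))
  set K3 := 4 * (KO * c) + KO * c * K2 + 1 with hK3
  have h2 : M ≤ K3 * (μ * X) := by
    by_contra hn
    rw [not_le] at hn
    have h3 : M ^ 2 ≤ KO * (c * X) * (K2 * μ ^ 2 * X + 4 * μ * M) := h1.trans (by gcongr)
    have h4 : 0 < μ * X := by positivity
    have h5 : 0 ≤ KO * c := by positivity
    have h6 : 0 ≤ KO * c * K2 := by positivity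
    have h7 : μ * X ≤ M := by nlinarith
    have h8 : K3 * (μ * X) * M < M * M := mul_lt_mul_of_pos_right hn (by linarith)
    have h9 : KO * c * K2 * (μ * X) * (μ * X) ≤ KO * c * K2 * (μ * X) * M := by gcongr
    have h10 : 0 ≤ μ * X * M := by positivity
    rw [hK3] at h8
    nlinarith
  have h3 : 0 ≤ K3 := by positivity
  rw [← pow_le_pow_iff_left₀ hM (by positivity) two_ne_zero, mul_pow, mul_pow,
    Real.sq_sqrt (by positivity), Real.sq_sqrt (by positivity)]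
  calc M ^ 2 ≤ KO * R * (K2 * μ ^ 2 * X + 4 * μ * (K3 * (μ * X))) := h1.trans (by gcongr)
    _ = _ := by ring

end UI

end Pool.Agent.Lib.LQ
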