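import Pool.Agent.Lib.LQ.UMbAux2
import Pool.Agent.Lib.LQ.NU

/-! Block UM: the second moment of the multiplicity. -/

set_option autoImplicit false

open Finset
open scoped Classical

noncomputable section

namespace Pool.Agent.Lib.LQ

open Pool.Agent.Lib.MP_de94cf_nt (gg det inn)

namespace UMb

open NUa

variable {v a0 a1 b : ℕ} {C0 R z X : ℝ} {o : Ob}

/-- balanced subsets -/
def Bal (R X : ℝ) (o : Ob) (u : Finset GI) : Prop :=
  X * nm (pr u) * nm o.r2 / R ^ 2 ≤ (nm o.b1 : ℝ) ∧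
    (nm o.b1 : ℝ) ≤ R ^ 2 * X * nm (pr u) * nm o.r2

/-- the class bound at fixed global parameters -/
def Cls (v a1 b : ℕ) (z X A : ℝ) : Prop :=
  ∀ (S : Finset GI) (ρ : GI) (C D : ℕ), Lab v a1 (396 * a1 * b ^ 2) z S ρ →
    BoxOK (396 * a1 * b ^ 2) z X C D → sS S ≤ 1 / v →
    ((Aset v z S ρ C D).card : ℝ) ≤ A * Nlab v z S ρ C D + X ^ (0.97 : ℝ)

lemma sS_le (H : Big v a0 a1 b R z X) (h : TypOb v a0 a1 b C0 R z X o) :
    sS (sm (ww v) z o.b1) ≤ 1 / v := by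
  have k := h.sgS
  have hv : (1 : ℝ) ≤ v := by exact_mod_cast H.hv
  unfold sg at k
  rw [primeFactors_nm_pr (sm_subset _ _ _),
    sum_image (nm_injOn (sm_subset _ _ _) h.sfS)] at k
  have k2 : sS (sm (ww v) z o.b1) ≤ ∑ π ∈ sm (ww v) z o.b1, 1 / Real.sqrt (nm π) := by
    refine sum_le_sum fun π hπ => ?_
    have h5 : (5 : ℝ) ≤ nm π := by exact_mod_cast GF_five_le (sm_subset _ _ _ hπ)
    have h6 : Real.sqrt (nm π) ≤ nm π := Real.sqrt_le_self_iff.2 (Or.inr (by linarith))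
    exact one_div_le_one_div_of_le (Real.sqrt_pos.2 (by linarith)) h6
  have k3 : 1 / (2 * (v : ℝ)) ≤ 1 / v := one_div_le_one_div_of_le (by linarith) (by linarith)
  linarith

lemma fiber {A : ℝ} (H : Big v a0 a1 b R z X) (hA : 0 ≤ A) (hc : Cls v a1 b z X A)
    (hL : Real.exp (2 * Lam (ww v) z) ≤ z) {E : Finset Ob} {S : Finset GI} {r1 r2 : GI} {j : ℕ}
    (hE : ∀ o ∈ E, TypOb v a0 a1 b C0 R z X o ∧
      sm (ww v) z o.b1 = S ∧ o.r1 = r1 ∧ o.r2 = r2 ∧ jj o = j) :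
    (E.card : ℝ) ≤ (42 * R ^ 2 * A + 1) * X * Real.exp (-2 * Lam (ww v) z) *
      (XP S * xx r1 * xx r2) := by
  have hX := H.X1
  have hR := H.R2
  have q1 := XP_pos S
  have q2 := xx_pos r1
  have q3 := xx_pos r2
  rcases E.eq_empty_or_nonempty with rfl | ⟨o, ho⟩
  · simp only [card_empty, Nat.cast_zero]
    positivity
  obtain ⟨h, rfl, rfl, rfl, rfl⟩ := hE o ho
  have k1 := hc _ _ _ _ (lab1 H h).lab (boxok H h) (sS_le H h)
  have k2 : E.card ≤
      (Aset v z (sm (ww v) z o.b1) (o.r1 * o.r2) (2 ^ jj o) (DD R X (jj o))).card := by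
    apply card_le_card_of_injOn (fun o' : Ob => (o'.b1, o'.b2))
    · intro o' ho'
      obtain ⟨h', e1, e2, e3, e4⟩ := hE o' ho'
      have m := memA H h'
      rw [e1, e2, e3, e4] at m
      exact mem_coe.2 m
    · intro o1 h1 o2 h2 e
      obtain ⟨-, -, e2, e3, -⟩ := hE o1 h1
      obtain ⟨-, -, e2', e3', -⟩ := hE o2 h2
      simp only [Prod.mk.injEq] at e
      exact Ob.ext e.1 e.2 (e2.trans e2'.symm) (e3.trans e3'.symm)
  have k3 : (E.card : ℝ) ≤ _ := (Nat.cast_le.2 k2).trans k1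
  have k4 := err_le H h hL
  have k5 := card_box H h
  have p0 := psi_pos (nm (pr (sm (ww v) z o.b1) * (o.r1 * o.r2)))
  have k6 : Nlab v z (sm (ww v) z o.b1) (o.r1 * o.r2) (2 ^ jj o) (DD R X (jj o)) ≤
      42 * R ^ 2 * X * Real.exp (-2 * Lam (ww v) z) /
        psi (nm (pr (sm (ww v) z o.b1) * (o.r1 * o.r2))) := by
    unfold Nlab
    gcongr
  have hv : (1 : ℝ) ≤ v := by exact_mod_cast H.hv
  have k7 : 1 / v * X * Real.exp (-2 * Lam (ww v) z) /
      psi (nm (pr (sm (ww v) z o.b1) * (o.r1 * o.r2))) ≤ 1 * X * Real.exp (-2 * Lam (ww v) z) /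
      psi (nm (pr (sm (ww v) z o.b1) * (o.r1 * o.r2))) := by
    have : 1 / (v : ℝ) ≤ 1 := (div_le_one (by linarith)).2 hv
    gcongr
  have e : XP (sm (ww v) z o.b1) * xx o.r1 * xx o.r2 =
      1 / psi (nm (pr (sm (ww v) z o.b1) * (o.r1 * o.r2))) := by
    rw [psi_label H h]
    unfold XP xx
    rw [prod_div_distrib, prod_const_one]
    have : 0 < ∏ π ∈ sm (ww v) z o.b1, ((nm π : ℝ) + 1) := prod_pos fun _ _ => by positivity
    field_simp
  rw [e]
  calc (E.card : ℝ) ≤ A * (42 * R ^ 2 * X * Real.exp (-2 * Lam (ww v) z) /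
        psi (nm (pr (sm (ww v) z o.b1) * (o.r1 * o.r2)))) +
        1 * X * Real.exp (-2 * Lam (ww v) z) /
          psi (nm (pr (sm (ww v) z o.b1) * (o.r1 * o.r2))) :=
        k3.trans (add_le_add (mul_le_mul_of_nonneg_left k6 hA) (k4.trans k7))
    _ = _ := by ring

lemma levels (H : Big v a0 a1 b R z X) {E : Finset Ob} {r2 : GI} {u : Finset GI}
    (hu : u ⊆ GF (ww v) z)
    (hE : ∀ o ∈ E, TypOb v a0 a1 b C0 R z X o ∧ o.r2 = r2 ∧ Bal R X o u) :
    ((E.image jj).card : ℝ) ≤ Real.log (8 * R ^ 4) + 1 := by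
  have hX := H.X1
  have hR := H.R2
  have hR4 : 1 ≤ R ^ 4 := hR.trans H.R4
  have hz8 := H.z8
  rcases E.eq_empty_or_nonempty with rfl | ⟨o, ho⟩
  · simp only [image_empty, card_empty, Nat.cast_zero]
    have := Real.log_nonneg (show 1 ≤ 8 * R ^ 4 by linarith)
    linarith
  obtain ⟨h, rfl, -⟩ := hE o ho
  have hr : (0 : ℝ) < nm o.r2 := by have := (r_big H h).1; linarith
  have hp : (0 : ℝ) < nm (pr u) := nm_pos (pr_ne_zero hu)
  refine card_levels (A := X * nm (pr u) * nm o.r2 / (8 * R ^ 2)) (by positivity) (by linarith) ?_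
  intro j hj
  obtain ⟨o', ho', rfl⟩ := mem_image.1 hj
  obtain ⟨h', e, t1, t2⟩ := hE o' ho'
  obtain ⟨n1, n2⟩ := nm_bounds h'
  rw [e] at t1 t2
  constructor
  · rw [div_le_iff₀ (by positivity)] at t1 ⊢
    nlinarith
  · refine n1.trans (t2.trans (le_of_eq ?_))
    field_simp

lemma near (H : Big v a0 a1 b R z X) (h : TypOb v a0 a1 b C0 R z X o) {u u' : Finset GI}
    (h1 : Bal R X o u) (h2 : Bal R X o u') : (nm (pr u) : ℝ) ≤ R ^ 4 * nm (pr u') := by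
  have hX := H.X1
  have hR := H.R2
  have hz8 := H.z8
  have hr : (0 : ℝ) < nm o.r2 := by have := (r_big H h).1; linarith
  have k := h1.1.trans h2.2
  rw [div_le_iff₀ (by positivity)] at k
  have k2 : (X * nm o.r2) * nm (pr u) ≤ (X * nm o.r2) * (R ^ 4 * nm (pr u')) := by
    calc (X * nm o.r2) * nm (pr u) = X * nm (pr u) * nm o.r2 := by ring
      _ ≤ _ := k
      _ = _ := by ring
  exact le_of_mul_le_mul_left k2 (by positivity)

/-- the condition linking an object and a key -/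
def Cd (v : ℕ) (R z X : ℝ) (o : Ob) (ℓ : (Finset GI × Finset GI × Finset GI) × GI × GI) : Prop :=
  sm (ww v) z o.b1 = ℓ.1.1 ∧ o.r1 = ℓ.2.1 ∧ o.r2 = ℓ.2.2 ∧ Bal R X o ℓ.1.2.1 ∧ Bal R X o ℓ.1.2.2

lemma point (H : Big v a0 a1 b R z X) (h : TypOb v a0 a1 b C0 R z X o) :
    (mult v R z X o : ℝ) ^ 2 / 2 ^ om (ww v) z o.b1 ≤
      ∑ ℓ ∈ TT v z C0 (R ^ 4) ×ˢ GF (z ^ (360 * a1 * b)) (z ^ (360 * a1 * b ^ 2)) ×ˢ
        GF (z ^ (30 * a1)) (z ^ (30 * a1 * b)), (1 / 2) ^ ℓ.1.1.card * ind (Cd v R z X o ℓ) := by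
  set L := TT v z C0 (R ^ 4) ×ˢ GF (z ^ (360 * a1 * b)) (z ^ (360 * a1 * b ^ 2)) ×ˢ
        GF (z ^ (30 * a1)) (z ^ (30 * a1 * b)) with hL
  set F := (sm (ww v) z o.b1).powerset.filter fun u => Bal R X o u with hF
  have e1 : mult v R z X o = F.card := by
    unfold mult; congr 1; ext u; simp only [hF, mem_filter, Bal]
  have e2 : ∑ ℓ ∈ L, (1 / 2 : ℝ) ^ ℓ.1.1.card * ind (Cd v R z X o ℓ) =
      (L.filter fun ℓ => Cd v R z X o ℓ).card * (1 / 2 : ℝ) ^ om (ww v) z o.b1 := by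
    rw [← sum_ind, sum_mul]
    refine sum_congr rfl fun ℓ _ => ?_
    by_cases hc : Cd v R z X o ℓ
    · rw [om, hc.1]; ring
    · rw [ind_false hc]; ring
  have e3 : (F ×ˢ F).card ≤ (L.filter fun ℓ => Cd v R z X o ℓ).card := by
    apply card_le_card_of_injOn
      (fun p : Finset GI × Finset GI => ((sm (ww v) z o.b1, p.1, p.2), o.r1, o.r2))
    · rintro ⟨u, u'⟩ hp
      obtain ⟨m1, m2⟩ := mem_product.1 (mem_coe.1 hp)
      obtain ⟨s1, b1⟩ := mem_filter.1 m1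
      obtain ⟨s2, b2⟩ := mem_filter.1 m2
      have s1' := mem_powerset.1 s1
      have s2' := mem_powerset.1 s2
      have s0 := sm_subset (ww v) z o.b1
      refine mem_coe.2 (mem_filter.2 ⟨mem_product.2 ⟨mem_filter.2 ⟨mem_product.2
        ⟨mem_powerset.2 s0, mem_product.2 ⟨mem_powerset.2 (s1'.trans s0),
          mem_powerset.2 (s2'.trans s0)⟩⟩, s1', s2', ⟨near H h b1 b2, near H h b2 b1⟩, h.multi⟩,
        mem_product.2 ⟨h.hr1, h.hr2⟩⟩, rfl, rfl, rfl, b1, b2⟩)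
    · rintro ⟨u, u'⟩ - ⟨t, t'⟩ - e
      simp only [Prod.mk.injEq] at e
      exact Prod.ext e.1.2.1 e.1.2.2
  rw [card_product] at e3
  have e4 : (F.card : ℝ) ^ 2 ≤ (L.filter fun ℓ => Cd v R z X o ℓ).card := by
    rw [sq]; exact_mod_cast e3
  rw [e2, e1, one_div_pow, mul_one_div]
  gcongr

lemma total {A L1 L2 Kc : ℝ} (H : Big v a0 a1 b R z X) (hA : 0 ≤ A)
    (hc : Cls v a1 b z X A) (hL : Real.exp (2 * Lam (ww v) z) ≤ z)
    (hL1 : Lam (z ^ (360 * a1 * b)) (z ^ (360 * a1 * b ^ 2)) ≤ L1)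
    (hL2 : Lam (z ^ (30 * a1)) (z ^ (30 * a1 * b)) ≤ L2)
    (hK : ∑ r ∈ TT v z C0 (R ^ 4), hw r.1 ≤ Kc * Real.exp (Lam (ww v) z)) {O : Finset Ob}
    (hO : ∀ o ∈ O, TypOb v a0 a1 b C0 R z X o) :
    ∑ o ∈ O, (mult v R z X o : ℝ) ^ 2 / 2 ^ om (ww v) z o.b1 * Real.exp (Lam (ww v) z) ≤
      (Real.log (8 * R ^ 4) + 1) * (42 * R ^ 2 * A + 1) * Kc * L1 * L2 * X := by
  set G1 := GF (z ^ (360 * a1 * b)) (z ^ (360 * a1 * b ^ 2)) with hG1
  set G2 := GF (z ^ (30 * a1)) (z ^ (30 * a1 * b)) with hG2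
  set B := (42 * R ^ 2 * A + 1) * X * Real.exp (-2 * Lam (ww v) z) with hB
  set N := Real.log (8 * R ^ 4) + 1 with hN
  have hX := H.X1
  have hR4 : 1 ≤ R ^ 4 := H.R2.trans H.R4
  have hB0 : 0 ≤ B := by positivity
  have hN0 : 0 ≤ N := by
    have := Real.log_nonneg (show 1 ≤ 8 * R ^ 4 by linarith)
    positivity
  have s1 : ∑ o ∈ O, (mult v R z X o : ℝ) ^ 2 / 2 ^ om (ww v) z o.b1 ≤
      ∑ ℓ ∈ TT v z C0 (R ^ 4) ×ˢ G1 ×ˢ G2,
        (1 / 2) ^ ℓ.1.1.card * ((O.filter fun o => Cd v R z X o ℓ).card : ℝ) := by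
    refine (sum_le_sum fun o ho => point H (hO o ho)).trans (le_of_eq ?_)
    rw [sum_comm]
    refine sum_congr rfl fun ℓ _ => ?_
    rw [← mul_sum, sum_ind]
  have step : ∀ ℓ ∈ TT v z C0 (R ^ 4) ×ˢ G1 ×ˢ G2,
      (1 / 2) ^ ℓ.1.1.card * ((O.filter fun o => Cd v R z X o ℓ).card : ℝ) ≤
        N * B * hw ℓ.1.1 * (xx ℓ.2.1 * xx ℓ.2.2) := by
    rintro ⟨⟨S, u, u'⟩, r1, r2⟩ hℓ
    have hu : u ⊆ GF (ww v) z :=
      mem_powerset.1 (mem_product.1 (mem_product.1 (mem_filter.1 (mem_product.1 hℓ).1).1).2).1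
    set E' := O.filter fun o => Cd v R z X o ((S, u, u'), r1, r2) with hE'
    have q1 := XP_pos S
    have q2 := xx_pos r1
    have q3 := xx_pos r2
    have e2 : (E'.card : ℝ) ≤ N * (B * (XP S * xx r1 * xx r2)) := by
      rw [card_eq_sum_card_image jj E']
      push_cast
      calc ∑ j ∈ E'.image jj, ((E'.filter fun o => jj o = j).card : ℝ)
          ≤ ∑ j ∈ E'.image jj, B * (XP S * xx r1 * xx r2) := by
            refine sum_le_sum fun j _ => fiber (C0 := C0) H hA hc hL (j := j) fun o ho => ?_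
            obtain ⟨h1, h2⟩ := mem_filter.1 ho
            obtain ⟨k0, k1, k2, k3, -⟩ := mem_filter.1 h1
            exact ⟨hO o k0, k1, k2, k3, h2⟩
        _ = (E'.image jj).card * (B * (XP S * xx r1 * xx r2)) := by
            rw [sum_const, nsmul_eq_mul]
        _ ≤ _ := by
            refine mul_le_mul_of_nonneg_right (levels (C0 := C0) H (r2 := r2) hu fun o ho => ?_)
              (by positivity)
            obtain ⟨k0, -, -, k3, k4, -⟩ := mem_filter.1 ho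
            exact ⟨hO o k0, k3, k4⟩
    calc (1 / 2) ^ S.card * (E'.card : ℝ) ≤
          (1 / 2) ^ S.card * (N * (B * (XP S * xx r1 * xx r2))) :=
          mul_le_mul_of_nonneg_left e2 (by positivity)
      _ = _ := by unfold hw; ring
  have e3 : ∑ ℓ ∈ TT v z C0 (R ^ 4) ×ˢ G1 ×ˢ G2, N * B * hw ℓ.1.1 * (xx ℓ.2.1 * xx ℓ.2.2) =
      N * B * (∑ r ∈ TT v z C0 (R ^ 4), hw r.1) * ((∑ r ∈ G1, xx r) * ∑ r ∈ G2, xx r) := by
    rw [sum_mul_sum G1 G2, ← sum_product' G1 G2, mul_sum (TT v z C0 (R ^ 4)), sum_mul_sum,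
      ← sum_product']
  have t1 : ∑ r ∈ G1, xx r ≤ L1 := (sum_xx_le Subset.rfl).trans hL1
  have t2 : ∑ r ∈ G2, xx r ≤ L2 := (sum_xx_le Subset.rfl).trans hL2
  have n1 : 0 ≤ ∑ r ∈ G1, xx r := sum_nonneg fun r _ => (xx_pos r).le
  have n2 : 0 ≤ ∑ r ∈ G2, xx r := sum_nonneg fun r _ => (xx_pos r).le
  have n3 : 0 ≤ ∑ r ∈ TT v z C0 (R ^ 4), hw r.1 := sum_nonneg fun r _ => (hw_pos r.1).le
  have s2 : ∑ o ∈ O, (mult v R z X o : ℝ) ^ 2 / 2 ^ om (ww v) z o.b1 ≤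
      N * B * (Kc * Real.exp (Lam (ww v) z)) * (L1 * L2) := by
    refine s1.trans ((sum_le_sum step).trans (e3.le.trans ?_))
    exact mul_le_mul (mul_le_mul_of_nonneg_left hK (by positivity))
      (mul_le_mul t1 t2 n2 (by linarith)) (by positivity)
      (mul_nonneg (by positivity) (n3.trans hK))
  rw [← sum_mul]
  refine (mul_le_mul_of_nonneg_right s2 (Real.exp_pos _).le).trans (le_of_eq ?_)
  have e4 : Real.exp (-2 * Lam (ww v) z) * Real.exp (Lam (ww v) z) * Real.exp (Lam (ww v) z) = 1 := by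
    rw [← Real.exp_add, ← Real.exp_add, Real.exp_eq_one_iff]; ring
  calc N * B * (Kc * Real.exp (Lam (ww v) z)) * (L1 * L2) * Real.exp (Lam (ww v) z)
      = N * (42 * R ^ 2 * A + 1) * Kc * L1 * L2 * X *
        (Real.exp (-2 * Lam (ww v) z) * Real.exp (Lam (ww v) z) * Real.exp (Lam (ww v) z)) := by
        rw [hB]; ring
    _ = _ := by rw [e4, mul_one]

theorem main (h0 : MertensStmt) (h1 : U2Stmt) : UMStmt := by
  obtain ⟨K2, hU⟩ := h1
  obtain ⟨u, hU⟩ := hU 1 one_pos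
  obtain ⟨ze, hze⟩ := exp_Lam_le 2
  have a2 := abs_nonneg K2
  refine ⟨|K2| + 2, u, fun R C0 b hR hb => ?_⟩
  have hR4 : 1 ≤ R ^ 4 := one_le_pow₀ hR
  obtain ⟨Kc, -, hKc⟩ := comb h0 C0 (show 0 < R ^ 4 by linarith)
  obtain ⟨Cm, hM⟩ := h0
  set L := Real.log b + |Cm| with hL
  refine ⟨(Real.log (8 * R ^ 4) + 1) * (42 * R ^ 2 * (3 * Real.exp 1) + 1) * Kc * L * L,
    fun v a0 a1 hv hu ha0 ha => ?_⟩
  have hv2 : (2 : ℝ) ≤ v := by linarith
  have hv2' : 2 ≤ v := by exact_mod_cast hv2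
  have ha1 : 1 ≤ a1 := ha0.trans ha
  have hex : ExpOK u a1 (36 * a1 * b) (396 * a1 * b ^ 2) := by
    have t1 : a1 * 2 ≤ a1 * b := Nat.mul_le_mul_left _ hb
    have t2 : a1 * b * 2 ≤ a1 * b * b := Nat.mul_le_mul_left _ hb
    refine ⟨by omega, by omega, by nlinarith, by nlinarith⟩
  obtain ⟨zU, hU⟩ := hU v a1 _ _ (by linarith [le_abs_self K2]) hex
  refine ⟨max (max zU ze) (max (8 * R ^ 4) (16 * (v : ℝ) ^ 2)), fun z X O hz hX hO => ?_⟩
  simp only [max_le_iff] at hz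
  obtain ⟨⟨z1, z3⟩, z5, z6⟩ := hz
  have H : Big v a0 a1 b R z X := ⟨hR, by omega, ha0, ha, hb, z5, z6, hX⟩
  have hz2 : 2 ≤ z := by have := H.z8; linarith
  have hX1 := H.X1
  have hcls : Cls v a1 b z X (3 * Real.exp 1) := by
    intro S ρ C D l1 l2 l3
    refine (hU z X S ρ C D z1 hX l1 l2).1.trans (add_le_add ?_ ?_)
    · have n0 : 0 ≤ Nlab v z S ρ C D := by
        unfold Nlab
        have := psi_pos (nm (pr S * ρ))
        positivity
      apply mul_le_mul_of_nonneg_right _ n0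
      have s0 : 0 ≤ sS S := sum_nonneg fun _ _ => by positivity
      have t1 : K2 / v ≤ 1 := (div_le_one (by linarith)).2 (by linarith [le_abs_self K2])
      have t2 : K2 * sS S ≤ 1 := by
        calc K2 * sS S ≤ |K2| * sS S := mul_le_mul_of_nonneg_right (le_abs_self _) s0
          _ ≤ v * (1 / v) := mul_le_mul (by linarith) l3 s0 (by linarith)
          _ = 1 := by field_simp
      exact mul_le_mul (by linarith) (Real.exp_le_exp.2 t2) (Real.exp_pos _).le (by norm_num)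
    · exact Real.rpow_le_rpow_of_exponent_le hX1 (by norm_num)
  have hexp : Real.exp (2 * Lam (ww v) z) ≤ z := by simpa using hze (ww v) z z3
  have hb1 : 1 ≤ b := by omega
  exact total (L1 := L) (L2 := L) H (by positivity) hcls hexp
    (mert_b hM hz2 (by nlinarith) hb1 (by ring)) (mert_b hM hz2 (by omega) hb1 rfl)
    (hKc v z hv2') hO

end UMb

end Pool.Agent.Lib.LQ
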