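import Pool.Agent.Lib.LQ.Basic

set_option autoImplicit false

open Finset
open scoped Classical

noncomputable section

namespace Pool.Agent.Lib.LQ.UMb

open Pool.Agent.Lib.MP_de94cf_nt (gg det inn)

def xx (π : GI) : ℝ := 1 / ((nm π : ℝ) + 1)

def XP (S : Finset GI) : ℝ := ∏ π ∈ S, xx π

lemma xx_pos (π : GI) : 0 < xx π := by unfold xx; positivity

lemma XP_pos (S : Finset GI) : 0 < XP S := prod_pos fun π _ => xx_pos π

lemma sum_w (H : Finset GI) (t : GI → ℝ) (ht : ∀ π, 0 ≤ t π) :
    ∑ S ∈ H.powerset, ∏ π ∈ S, (t π * xx π) ≤ Real.exp (∑ π ∈ H, t π * xx π) := by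
  rw [← prod_one_add, Real.exp_sum]
  exact prod_le_prod (fun π _ => by have := mul_nonneg (ht π) (xx_pos π).le; linarith)
    fun π _ => by linarith [Real.add_one_le_exp (t π * xx π)]

lemma sum_pow (H : Finset GI) {t : ℝ} (ht : 0 ≤ t) :
    ∑ S ∈ H.powerset, t ^ S.card * XP S ≤ Real.exp (t * ∑ π ∈ H, xx π) := by
  have := sum_w H (fun _ => t) fun _ => ht
  rw [← mul_sum] at this
  refine le_trans (le_of_eq (sum_congr rfl fun S _ => ?_)) this
  rw [prod_mul_distrib, prod_const]; rfl

lemma sum_xx_le {w z : ℝ} {H : Finset GI} (h : H ⊆ GF w z) : ∑ π ∈ H, xx π ≤ Lam w z := by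
  rw [Lam_eq]
  exact sum_le_sum_of_subset_of_nonneg h fun π _ _ => (xx_pos π).le

lemma window {w z y0 Y ρ : ℝ} (hy : 1 < y0) (hY : 0 < Y) (hρ : 0 ≤ ρ) {H : Finset GI}
    (h : H ⊆ GF w z) :
    ∑ π ∈ H, xx π * ind (y0 < (nm π : ℝ) ∧ Y ≤ (nm π : ℝ) ∧ (nm π : ℝ) ≤ ρ * Y) ≤
      4 * ρ / Real.log y0 := by
  have hl := Real.log_pos hy
  have h1 : ∑ π ∈ H, xx π * ind (y0 < (nm π : ℝ) ∧ Y ≤ (nm π : ℝ) ∧ (nm π : ℝ) ≤ ρ * Y) ≤
      2 * ∑ l ∈ PP w z, 1 / ((l : ℝ) + 1) * ind (y0 < (l : ℝ) ∧ Y ≤ (l : ℝ) ∧ (l : ℝ) ≤ ρ * Y) := by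
    rw [← sum_GF w z fun l => 1 / ((l : ℝ) + 1) * ind (y0 < (l : ℝ) ∧ Y ≤ (l : ℝ) ∧ (l : ℝ) ≤ ρ * Y)]
    exact sum_le_sum_of_subset_of_nonneg h fun π _ _ => mul_nonneg (xx_pos π).le (ind_nonneg _)
  have h2 : ∑ l ∈ PP w z, 1 / ((l : ℝ) + 1) * ind (y0 < (l : ℝ) ∧ Y ≤ (l : ℝ) ∧ (l : ℝ) ≤ ρ * Y) ≤
      Chebyshev.theta (ρ * Y) / (Y * Real.log y0) := by
    unfold Chebyshev.theta
    rw [sum_div]
    calc _ ≤ ∑ l ∈ (PP w z).filter (fun l : ℕ => (l : ℝ) ≤ ρ * Y),
          Real.log l / (Y * Real.log y0) := by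
          rw [sum_filter]
          refine sum_le_sum fun l hl' => ?_
          by_cases hc : y0 < (l : ℝ) ∧ Y ≤ (l : ℝ) ∧ (l : ℝ) ≤ ρ * Y
          · rw [ind_true hc, if_pos hc.2.2, mul_one, div_le_div_iff₀ (by positivity) (by positivity)]
            have := Real.log_le_log (by linarith) hc.1.le
            nlinarith [hc.2.1]
          · rw [ind_false hc, mul_zero]
            split_ifs
            · exact div_nonneg (Real.log_natCast_nonneg _) (by positivity)
            · exact le_rfl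
      _ ≤ _ := sum_le_sum_of_subset_of_nonneg (fun l hl' => by
            rw [mem_filter] at hl' ⊢
            have := (mem_PP.1 hl'.1).1
            exact ⟨mem_Ioc.2 ⟨this.pos, Nat.le_floor hl'.2⟩, this⟩)
          fun l _ _ => div_nonneg (Real.log_natCast_nonneg _) (by positivity)
  have h3 := Chebyshev.theta_le_log4_mul_x (show 0 ≤ ρ * Y by positivity)
  have h4 : Real.log 4 ≤ 2 := by
    rw [show (4 : ℝ) = 2 ^ 2 by norm_num, Real.log_pow]
    have := Real.log_two_lt_d9
    push_cast; linarith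
  have h5 : Chebyshev.theta (ρ * Y) / (Y * Real.log y0) ≤ 2 * ρ / Real.log y0 := by
    rw [div_le_div_iff₀ (by positivity) hl]
    have : Chebyshev.theta (ρ * Y) ≤ 2 * (ρ * Y) := h3.trans (by gcongr)
    nlinarith
  calc _ ≤ 2 * (2 * ρ / Real.log y0) := by linarith
    _ = _ := by ring

lemma gsum (w z y C0 : ℝ) :
    ∑ g ∈ (GF w z).powerset, XP g *
        ind (1.9 * Lam y z - C0 ≤ ((g.filter fun π => y < (nm π : ℝ)).card : ℝ)) ≤
      Real.exp (Lam w z - 0.3 * Lam y z + |C0|) := by
  set t : GI → ℝ := fun π => if y < (nm π : ℝ) then 2 else 1 with ht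
  have h0 : ∀ π, 0 ≤ t π := fun π => by simp only [ht]; split_ifs <;> norm_num
  have h1 := sum_w (GF w z) t h0
  have h2 : ∑ π ∈ GF w z, t π * xx π ≤ Lam w z + Lam y z := by
    have e : ∀ π, t π * xx π = xx π + (if y < (nm π : ℝ) then xx π else 0) := fun π => by
      simp only [ht]; split_ifs <;> ring
    rw [sum_congr rfl fun π _ => e π, sum_add_distrib, ← sum_filter]
    refine add_le_add (sum_xx_le Subset.rfl) (sum_xx_le fun π hπ => ?_)
    rw [mem_filter, mem_GF, mem_PP] at hπ
    rw [mem_GF, mem_PP]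
    exact ⟨⟨hπ.1.1.1, hπ.1.1.2.1, hπ.2, hπ.1.1.2.2.2⟩, hπ.1.2⟩
  have hl1 := Real.log_two_gt_d9
  have hl2 := Real.log_two_lt_d9
  have hL := Lam_nonneg y z
  calc _ ≤ ∑ g ∈ (GF w z).powerset, Real.exp (|C0| - 1.3 * Lam y z) * ∏ π ∈ g, (t π * xx π) := by
        refine sum_le_sum fun g _ => ?_
        have e : ∏ π ∈ g, (t π * xx π) =
            2 ^ (g.filter fun π => y < (nm π : ℝ)).card * XP g := by
          rw [prod_mul_distrib, ← prod_const, prod_filter]; rfl
        rw [e]
        have hX := XP_pos g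
        by_cases hc : 1.9 * Lam y z - C0 ≤ ((g.filter fun π => y < (nm π : ℝ)).card : ℝ)
        · rw [ind_true hc, mul_one, ← mul_assoc]
          refine le_mul_of_one_le_left hX.le ?_
          rw [← Real.exp_log two_pos, ← Real.exp_nat_mul, ← Real.exp_add]
          refine Real.one_le_exp ?_
          have := mul_le_mul_of_nonneg_right hc (show 0 ≤ Real.log 2 by linarith)
          nlinarith [le_abs_self C0, abs_nonneg C0]
        · rw [ind_false hc, mul_zero]; positivity
    _ ≤ Real.exp (|C0| - 1.3 * Lam y z) * Real.exp (Lam w z + Lam y z) := by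
        rw [← mul_sum]
        exact mul_le_mul_of_nonneg_left (h1.trans (Real.exp_le_exp.2 h2)) (Real.exp_pos _).le
    _ = _ := by rw [← Real.exp_add]; congr 1; ring

/-- weight of a set -/
def hw (a : Finset GI) : ℝ := (1 / 2) ^ a.card * XP a

lemma hw_pos (a : Finset GI) : 0 < hw a := mul_pos (by positivity) (XP_pos a)

def Near (ρ : ℝ) (a a' : Finset GI) : Prop :=
  (nm (pr a) : ℝ) ≤ ρ * nm (pr a') ∧ (nm (pr a') : ℝ) ≤ ρ * nm (pr a)

lemma pairsum {w z y0 ρ : ℝ} (hy : 1 < y0) (hρ : 0 < ρ) {H : Finset GI} (h : H ⊆ GF w z) :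
    ∑ a ∈ H.powerset, ∑ a' ∈ H.powerset,
        hw a * hw a' * ind ((∃ π ∈ a, y0 < (nm π : ℝ)) ∧ Near ρ a a') ≤
      4 * ρ ^ 2 / Real.log y0 * Real.exp (Lam w z) := by
  have hl := Real.log_pos hy
  rw [sum_comm]
  have key : ∀ a' ∈ H.powerset, ∑ a ∈ H.powerset,
      hw a * hw a' * ind ((∃ π ∈ a, y0 < (nm π : ℝ)) ∧ Near ρ a a') ≤
      hw a' * ∑ a ∈ H.powerset, hw a * (4 * ρ ^ 2 / Real.log y0) := by
    intro a' ha'
    have hN' := nm_pos (pr_ne_zero ((mem_powerset.1 ha').trans h))
    calc _ ≤ ∑ a ∈ H.powerset, hw a' * ∑ π ∈ H,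
          hw a * ind (π ∈ a) * ind (y0 < (nm π : ℝ) ∧ Near ρ a a') := by
          refine sum_le_sum fun a ha => ?_
          by_cases hc : (∃ π ∈ a, y0 < (nm π : ℝ)) ∧ Near ρ a a'
          · obtain ⟨⟨π, h1, h2⟩, h3⟩ := hc
            rw [ind_true ⟨⟨π, h1, h2⟩, h3⟩, mul_one, mul_comm]
            refine mul_le_mul_of_nonneg_left ?_ (hw_pos _).le
            refine le_trans ?_ (single_le_sum (fun π _ => mul_nonneg (mul_nonneg (hw_pos a).le
              (ind_nonneg _)) (ind_nonneg _)) (mem_powerset.1 ha h1))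
            rw [ind_true h1, ind_true ⟨h2, h3⟩]; simp
          · rw [ind_false hc, mul_zero]
            exact mul_nonneg (hw_pos _).le (sum_nonneg fun π _ => mul_nonneg (mul_nonneg
              (hw_pos a).le (ind_nonneg _)) (ind_nonneg _))
      _ ≤ _ := by
          rw [← mul_sum]
          refine mul_le_mul_of_nonneg_left ?_ (hw_pos _).le
          rw [sum_comm]
          calc _ ≤ ∑ π ∈ H, ∑ a ∈ H.powerset, hw a * (xx π * ind (y0 < (nm π : ℝ) ∧
                nm (pr a') / (ρ * nm (pr a)) ≤ (nm π : ℝ) ∧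
                (nm π : ℝ) ≤ ρ ^ 2 * (nm (pr a') / (ρ * nm (pr a))))) := by
                refine sum_le_sum fun π hπ => ?_
                have e : H.powerset = (insert π (H.erase π)).powerset := by rw [insert_erase hπ]
                rw [e, sum_powerset_insert (notMem_erase _ _), ← e]
                rw [sum_eq_zero (fun a ha => by
                  rw [ind_false fun h1 => notMem_erase π H (mem_powerset.1 ha h1)]; simp), zero_add]
                refine le_trans (sum_le_sum fun a ha => ?_) (sum_le_sum_of_subset_of_nonneg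
                  (powerset_mono.2 (erase_subset π H)) fun a _ _ => mul_nonneg (hw_pos a).le
                    (mul_nonneg (xx_pos π).le (ind_nonneg _)))
                have h1 : π ∉ a := fun h1 => notMem_erase π H (mem_powerset.1 ha h1)
                have hN := nm_pos (pr_ne_zero (((mem_powerset.1 ha).trans (erase_subset _ _)).trans h))
                have e1 : hw (insert π a) = 1 / 2 * (hw a * xx π) := by
                  unfold hw XP; rw [card_insert_of_notMem h1, prod_insert h1]; ring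
                have e2 : (nm (pr (insert π a)) : ℝ) = nm π * nm (pr a) := by
                  unfold pr; rw [prod_insert h1, nm_mul]; push_cast; ring
                rw [ind_true (mem_insert_self _ _), mul_one, e1, ← mul_assoc (hw a)]
                have h2 := mul_pos (hw_pos a) (xx_pos π)
                refine mul_le_mul (by linarith) (ind_mono ?_) (ind_nonneg _) h2.le
                rintro ⟨h3, h4, h5⟩
                rw [e2] at h4 h5
                refine ⟨h3, ?_, ?_⟩
                · rw [div_le_iff₀ (by positivity)]; linarith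
                · rw [show ρ ^ 2 * (nm (pr a') / (ρ * nm (pr a))) = ρ * nm (pr a') / nm (pr a) by
                    field_simp, le_div_iff₀ hN]
                  exact h4
            _ ≤ _ := by
                rw [sum_comm]
                refine sum_le_sum fun a ha => ?_
                rw [← mul_sum]
                have hN := nm_pos (pr_ne_zero ((mem_powerset.1 ha).trans h))
                exact mul_le_mul_of_nonneg_left (window hy (by positivity) (by positivity) h)
                  (hw_pos _).le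
  have h1 : ∑ a ∈ H.powerset, hw a ≤ Real.exp (Lam w z / 2) :=
    (sum_pow H (by norm_num)).trans (Real.exp_le_exp.2 (by linarith [sum_xx_le h]))
  refine (sum_le_sum key).trans ?_
  rw [← sum_mul, ← sum_mul]
  have h2 : 0 ≤ ∑ a ∈ H.powerset, hw a := sum_nonneg fun a _ => (hw_pos a).le
  have h3 : Real.exp (Lam w z) = Real.exp (Lam w z / 2) * Real.exp (Lam w z / 2) := by
    rw [← Real.exp_add]; congr 1; ring
  have h4 := mul_le_mul h1 h1 h2 (Real.exp_pos _).le
  rw [h3]
  have h5 : 0 ≤ 4 * ρ ^ 2 / Real.log y0 := by positivity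
  nlinarith

end Pool.Agent.Lib.LQ.UMb
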