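import Pool.Agent.Lib.LQ.UMbAux

set_option autoImplicit false

open Finset
open scoped Classical

noncomputable section

namespace Pool.Agent.Lib.LQ.UMb

lemma hw_union {A B : Finset GI} (h : Disjoint A B) : hw (A ∪ B) = hw A * hw B := by
  unfold hw XP; rw [card_union_of_disjoint h, prod_union h]; ring

def TT (v : ℕ) (z C0 ρ : ℝ) : Finset (Finset GI × Finset GI × Finset GI) :=
  ((GF (ww v) z).powerset ×ˢ (GF (ww v) z).powerset ×ˢ (GF (ww v) z).powerset).filter fun r =>
    r.2.1 ⊆ r.1 ∧ r.2.2 ⊆ r.1 ∧ Near ρ r.2.1 r.2.2 ∧ Multi v z C0 r.1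

lemma reindex (v : ℕ) (z C0 ρ : ℝ) :
    ∑ r ∈ TT v z C0 ρ, hw r.1 ≤
      ∑ a ∈ (GF (ww v) z).powerset, ∑ a' ∈ (GF (ww v) z).powerset, ∑ g ∈ (GF (ww v) z).powerset,
        hw a * hw a' * XP g * ind (Near ρ a a' ∧ Multi v z C0 (g ∪ (a ∪ a'))) := by
  set G := GF (ww v) z with hG
  let φ : Finset GI × Finset GI × Finset GI → Finset GI × Finset GI × Finset GI × Finset GI :=
    fun r => (r.2.1 \ r.2.2, r.2.2 \ r.2.1, r.1 \ ((r.2.1 \ r.2.2) ∪ (r.2.2 \ r.2.1)), r.2.1 ∩ r.2.2)
  let F : Finset GI × Finset GI × Finset GI × Finset GI → ℝ := fun q =>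
    hw q.1 * hw q.2.1 * hw q.2.2.1 * ind (Near ρ q.1 q.2.1 ∧
      Multi v z C0 (q.2.2.1 ∪ (q.1 ∪ q.2.1))) * ind (q.2.2.2 ⊆ q.2.2.1)
  have hF : ∀ q, 0 ≤ F q := fun q => mul_nonneg (mul_nonneg (mul_pos (mul_pos (hw_pos _)
    (hw_pos _)) (hw_pos _)).le (ind_nonneg _)) (ind_nonneg _)
  have hS : ∀ r ∈ TT v z C0 ρ, (φ r).2.2.1 ∪ ((φ r).1 ∪ (φ r).2.1) = r.1 := by
    intro r hr
    obtain ⟨-, h1, h2, -⟩ := mem_filter.1 hr
    exact sdiff_union_of_subset (union_subset (sdiff_subset.trans h1) (sdiff_subset.trans h2))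
  have h1 : ∀ r ∈ TT v z C0 ρ, hw r.1 = F (φ r) := by
    intro r hr
    have e := hS r hr
    obtain ⟨h0, h1, h2, h3, h4⟩ := mem_filter.1 hr
    have hu : r.2.1 ∩ r.2.2 ⊆ G := inter_subset_left.trans
      (mem_powerset.1 (mem_product.1 (mem_product.1 h0).2).1)
    have hN := nm_pos (pr_ne_zero hu)
    have e1 : (nm (pr r.2.1) : ℝ) = nm (pr (r.2.1 \ r.2.2)) * nm (pr (r.2.1 ∩ r.2.2)) := by
      rw [← Nat.cast_mul, ← nm_mul, ← pr_union (disjoint_sdiff_inter _ _), sdiff_union_inter]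
    have e2 : (nm (pr r.2.2) : ℝ) = nm (pr (r.2.2 \ r.2.1)) * nm (pr (r.2.1 ∩ r.2.2)) := by
      rw [inter_comm, ← Nat.cast_mul, ← nm_mul, ← pr_union (disjoint_sdiff_inter _ _),
        sdiff_union_inter]
    simp only [F]
    rw [e, ind_true (p := Near ρ _ _ ∧ _) ⟨?_, h4⟩, ind_true, mul_one, mul_one,
      ← hw_union disjoint_sdiff_sdiff, mul_comm, ← hw_union sdiff_disjoint, e]
    · intro x hx
      simp only [φ, mem_inter, mem_sdiff, mem_union] at hx ⊢
      exact ⟨h1 hx.1, by tauto⟩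
    · unfold Near at h3 ⊢
      rw [e1, e2, ← mul_assoc, ← mul_assoc] at h3
      exact ⟨le_of_mul_le_mul_right h3.1 hN, le_of_mul_le_mul_right h3.2 hN⟩
  have hinj : Set.InjOn φ (TT v z C0 ρ : Set _) := by
    intro r hr r' hr' e
    have a1 := hS r hr
    have a2 := hS r' hr'
    rw [e] at a1
    simp only [φ, Prod.mk.injEq] at e
    refine Prod.ext (a1.symm.trans a2) (Prod.ext ?_ ?_)
    · rw [← sdiff_union_inter r.2.1 r.2.2, e.1, e.2.2.2, sdiff_union_inter]
    · rw [← sdiff_union_inter r.2.2 r.2.1, e.2.1, inter_comm, e.2.2.2, inter_comm, sdiff_union_inter]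
  rw [sum_congr rfl h1, ← sum_image hinj]
  have hsub : (TT v z C0 ρ).image φ ⊆ G.powerset ×ˢ G.powerset ×ˢ G.powerset ×ˢ G.powerset := by
    intro q hq
    obtain ⟨r, hr, rfl⟩ := mem_image.1 hq
    have h0 := (mem_filter.1 hr).1
    simp only [mem_product, mem_powerset] at h0 ⊢
    exact ⟨sdiff_subset.trans h0.2.1, sdiff_subset.trans h0.2.2, sdiff_subset.trans h0.1,
      inter_subset_left.trans h0.2.1⟩
  refine (sum_le_sum_of_subset_of_nonneg hsub fun q _ _ => hF q).trans ?_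
  simp only [sum_product]
  refine sum_le_sum fun a _ => sum_le_sum fun a' _ => sum_le_sum fun g _ => ?_
  simp only [F]
  rw [← mul_sum, sum_ind]
  have h2 : ((G.powerset.filter fun c => c ⊆ g).card : ℝ) ≤ 2 ^ g.card := by
    have : (G.powerset.filter fun c => c ⊆ g).card ≤ g.powerset.card :=
      card_le_card fun c hc => mem_powerset.2 (mem_filter.1 hc).2
    rw [card_powerset] at this
    exact_mod_cast this
  have e : XP g = hw g * 2 ^ g.card := by
    unfold hw; rw [mul_right_comm, ← mul_pow]; simp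
  rw [e]
  have h3 := mul_nonneg (mul_pos (mul_pos (hw_pos a) (hw_pos a')) (hw_pos g)).le
    (ind_nonneg (Near ρ a a' ∧ Multi v z C0 (g ∪ (a ∪ a'))))
  nlinarith [mul_le_mul_of_nonneg_left h2 h3]

lemma comb (h0 : MertensStmt) (C0 : ℝ) {ρ : ℝ} (hρ : 0 < ρ) : ∃ Kc : ℝ, 0 ≤ Kc ∧
    ∀ (v : ℕ) (z : ℝ), 2 ≤ v →
    ∑ r ∈ TT v z C0 ρ, hw r.1 ≤ Kc * Real.exp (Lam (ww v) z) := by
  obtain ⟨C, hC⟩ := h0
  have hC0 : 0 ≤ C := (abs_nonneg _).trans (hC 2 2 le_rfl le_rfl)
  set r := Real.exp (-0.2) with hr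
  have hr0 : 0 < r := Real.exp_pos _
  have hr1 : r < 1 := Real.exp_lt_one_iff.2 (by norm_num)
  refine ⟨1 + 16 * ρ ^ 2 * Real.exp (2 * C + 1 + |C0|) * (1 - r)⁻¹, by
    have : 0 < 1 - r := by linarith
    positivity, fun v z hv => (reindex v z C0 ρ).trans ?_⟩
  set w := ww v with hw'
  set G := GF w z with hG
  have hw16 : 16 ≤ w := by
    have : (2 : ℝ) ≤ v := by exact_mod_cast hv
    have := pow_le_pow_left₀ two_pos.le this 4
    rw [hw', ww]; linarith
  have hlw : 1 ≤ Real.log w := by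
    rw [Real.le_log_iff_exp_le (by linarith)]; linarith [Real.exp_one_lt_d9]
  let y : ℕ → ℝ := fun i => w ^ 2 ^ i
  have hy : ∀ i, w ≤ y i := fun i => le_self_pow₀ (by linarith) (by positivity)
  have hly : ∀ i, Real.log (y i) = 2 ^ i * Real.log w := fun i => by
    simp only [y]; rw [Real.log_pow]; push_cast; ring
  have hex : ∃ I, z ≤ y I := by
    obtain ⟨n, hn⟩ := pow_unbounded_of_one_lt z (show 1 < w by linarith)
    exact ⟨n, hn.le.trans (pow_le_pow_right₀ (by linarith) Nat.lt_two_pow_self.le)⟩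
  set I := Nat.find hex with hI
  let H : ℕ → Finset GI := fun i => G.filter fun π => (nm π : ℝ) ≤ y (i + 1)
  have hH : ∀ i, H i ⊆ GF w (y (i + 1)) := fun i π hπ => by
    have h1 := mem_filter.1 hπ
    have h2 := mem_GF.1 h1.1
    have h3 := mem_PP.1 h2.1
    exact mem_GF.2 ⟨mem_PP.2 ⟨h3.1, h3.2.1, h3.2.2.1, h1.2⟩, h2.2⟩
  let E : ℕ → Finset GI → Finset GI → ℝ := fun i a a' =>
    ind (a ⊆ H i) * ind (a' ⊆ H i) * ind ((∃ π ∈ a, y i < (nm π : ℝ)) ∧ Near ρ a a')
  let B : ℕ → Finset GI → ℝ := fun i g =>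
    ind (1.9 * Lam (y (i + 1)) z - C0 ≤ ((g.filter fun π => y (i + 1) < (nm π : ℝ)).card : ℝ))
  have hE : ∀ i a a', 0 ≤ E i a a' := fun i a a' =>
    mul_nonneg (mul_nonneg (ind_nonneg _) (ind_nonneg _)) (ind_nonneg _)
  have point : ∀ a ∈ G.powerset, ∀ a' ∈ G.powerset, ∀ g,
      ind (Near ρ a a' ∧ Multi v z C0 (g ∪ (a ∪ a'))) ≤ ind (a = ∅) * ind (a' = ∅) +
        ∑ i ∈ range I, (E i a a' + E i a' a) * B i g := by
    intro a ha a' ha' g
    have hs : 0 ≤ ∑ i ∈ range I, (E i a a' + E i a' a) * B i g :=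
      sum_nonneg fun i _ => mul_nonneg (add_nonneg (hE _ _ _) (hE _ _ _)) (ind_nonneg _)
    have hp := mul_nonneg (ind_nonneg (a = ∅)) (ind_nonneg (a' = ∅))
    by_cases hc : Near ρ a a' ∧ Multi v z C0 (g ∪ (a ∪ a'))
    swap
    · rw [ind_false hc]; linarith
    rw [ind_true hc]
    by_cases he : a = ∅ ∧ a' = ∅
    · rw [ind_true he.1, ind_true he.2]; linarith
    have hsub : a ∪ a' ⊆ G := union_subset (mem_powerset.1 ha) (mem_powerset.1 ha')
    have hP : ∃ j, ∀ π ∈ a ∪ a', (nm π : ℝ) ≤ y j := ⟨I, fun π hπ =>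
      (mem_PP.1 (mem_GF.1 (hsub hπ)).1).2.2.2.trans (Nat.find_spec hex)⟩
    have hj : Nat.find hP ≤ I := Nat.find_min' hP fun π hπ =>
      (mem_PP.1 (mem_GF.1 (hsub hπ)).1).2.2.2.trans (Nat.find_spec hex)
    have hj0 : Nat.find hP ≠ 0 := by
      intro h
      have h1 := Nat.find_spec hP
      rw [h] at h1
      obtain ⟨π, hπ⟩ : (a ∪ a').Nonempty := by
        rw [nonempty_iff_ne_empty, Ne, union_eq_empty]; exact he
      have h2 := h1 π hπ
      have h3 := (mem_PP.1 (mem_GF.1 (hsub hπ)).1).2.2.1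
      simp only [y, pow_zero, pow_one] at h2
      linarith
    obtain ⟨i, hi⟩ := Nat.exists_eq_succ_of_ne_zero hj0
    have h1 := Nat.find_spec hP
    have h2 := Nat.find_min hP (m := i) (by omega)
    rw [hi] at h1
    push Not at h2
    obtain ⟨π, h3, h4⟩ := h2
    have h5 : a ⊆ H i := fun x hx => mem_filter.2 ⟨hsub (mem_union_left _ hx),
      h1 x (mem_union_left _ hx)⟩
    have h6 : a' ⊆ H i := fun x hx => mem_filter.2 ⟨hsub (mem_union_right _ hx),
      h1 x (mem_union_right _ hx)⟩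
    have h7 : B i g = 1 := ind_true ((hc.2 (i + 1)).trans (by
      refine Nat.cast_le.2 (card_le_card fun x hx => ?_)
      rw [mem_filter, mem_union] at hx
      exact mem_filter.2 ⟨hx.1.resolve_right fun h => absurd (h1 x h) (not_le.2 hx.2), hx.2⟩))
    have h8 : 1 ≤ E i a a' + E i a' a := by
      rcases mem_union.1 h3 with h | h
      · have : E i a a' = 1 := by
          simp only [E]; rw [ind_true h5, ind_true h6, ind_true ⟨⟨π, h, h4⟩, hc.1⟩]; simp
        linarith [hE i a' a]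
      · have : E i a' a = 1 := by
          simp only [E]; rw [ind_true h5, ind_true h6, ind_true ⟨⟨π, h, h4⟩, hc.1.symm⟩]; simp
        linarith [hE i a a']
    have h9 := single_le_sum (f := fun i => (E i a a' + E i a' a) * B i g)
      (fun i _ => mul_nonneg (add_nonneg (hE _ _ _) (hE _ _ _)) (ind_nonneg _))
      (mem_range.2 (show i < I by omega))
    simp only [h7, mul_one] at h9
    linarith
  have hE1 : ∀ i, ∑ a ∈ G.powerset, ∑ a' ∈ G.powerset, hw a * hw a' * E i a a' ≤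
      8 * ρ ^ 2 * Real.exp C := by
    intro i
    have e : ∀ f : Finset GI → ℝ, ∑ a ∈ G.powerset, ind (a ⊆ H i) * f a =
        ∑ a ∈ (H i).powerset, f a := fun f => by
      rw [← sum_subset (powerset_mono.2 (filter_subset _ _) : (H i).powerset ⊆ G.powerset)]
      · exact sum_congr rfl fun a ha => by rw [ind_true (mem_powerset.1 ha), one_mul]
      · intro a _ ha; rw [ind_false fun h => ha (mem_powerset.2 h), zero_mul]
    have h1 := pairsum (y0 := y i) (by linarith [hy i]) hρ (hH i)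
    rw [← e] at h1
    have h2 := (abs_le.1 (hC w (y (i + 1)) (by linarith) (hy _))).2
    rw [hly, mul_div_assoc, div_self (by linarith), mul_one] at h2
    have h3 : Real.exp (Lam w (y (i + 1))) ≤ 2 ^ (i + 1) * Real.exp C := by
      rw [← Real.exp_log (show (0 : ℝ) < 2 ^ (i + 1) by positivity), ← Real.exp_add]
      exact Real.exp_le_exp.2 (by linarith)
    calc _ = ∑ a ∈ G.powerset, ind (a ⊆ H i) * ∑ a' ∈ (H i).powerset,
          hw a * hw a' * ind ((∃ π ∈ a, y i < (nm π : ℝ)) ∧ Near ρ a a') := by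
          refine sum_congr rfl fun a _ => ?_
          rw [← e, mul_sum]
          exact sum_congr rfl fun a' _ => by simp only [E]; ring
      _ ≤ 4 * ρ ^ 2 / (2 ^ i * Real.log w) * (2 ^ (i + 1) * Real.exp C) := by
          rw [hly] at h1
          exact h1.trans (mul_le_mul_of_nonneg_left h3 (by positivity))
      _ = 8 * ρ ^ 2 * Real.exp C / Real.log w := by field_simp; ring
      _ ≤ _ := div_le_self (by positivity) hlw
  have hB1 : ∀ i ∈ range I, ∑ g ∈ G.powerset, XP g * B i g ≤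
      Real.exp (Lam w z) * Real.exp (C + 1 + |C0|) * r ^ (I - 1 - i) := by
    intro i hi
    have hi' := mem_range.1 hi
    refine (gsum w z (y (i + 1)) C0).trans ?_
    rw [hr, ← Real.exp_nat_mul, ← Real.exp_add, ← Real.exp_add]
    refine Real.exp_le_exp.2 ?_
    have hL := Lam_nonneg (y (i + 1)) z
    rcases Nat.eq_zero_or_pos (I - 1 - i) with h | h
    · rw [h]; simp; linarith
    obtain ⟨d, hd⟩ : ∃ d, I - 1 = i + 1 + d := ⟨I - 1 - i - 1, by omega⟩
    have h1 : y (I - 1) < z := not_le.1 (Nat.find_min hex (by omega))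
    have h2 : y (i + 1) ≤ y (I - 1) :=
      pow_le_pow_right₀ (by linarith) (Nat.pow_le_pow_right two_pos (by omega))
    have h3 := (abs_le.1 (hC (y (i + 1)) z (by linarith [hy (i + 1)]) (by linarith))).1
    have h4 : (2 : ℝ) ^ d ≤ Real.log z / Real.log (y (i + 1)) := by
      have := Real.log_le_log (by linarith [hy (I - 1)]) h1.le
      rw [le_div_iff₀ (by rw [hly]; positivity), hly]
      rw [hly, hd, pow_add] at this
      linarith
    have h5 := Real.log_le_log (by positivity) h4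
    rw [Real.log_pow] at h5
    have h6 : ((I - 1 - i : ℕ) : ℝ) = d + 1 := by rw [show I - 1 - i = d + 1 by omega]; simp
    have h7 := mul_le_mul_of_nonneg_left Real.log_two_gt_d9.le (Nat.cast_nonneg (α := ℝ) d)
    have h8 : (0 : ℝ) ≤ d := Nat.cast_nonneg d
    rw [h6]; linarith
  have hgeo : ∑ i ∈ range I, r ^ (I - 1 - i) ≤ (1 - r)⁻¹ := by
    rw [sum_range_reflect (fun j => r ^ j) I, ← tsum_geometric_of_lt_one hr0.le hr1]
    exact (summable_geometric_of_lt_one hr0.le hr1).sum_le_tsum _ fun _ _ => by positivity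
  have hX : ∑ g ∈ G.powerset, XP g ≤ Real.exp (Lam w z) := by
    have := sum_pow G one_pos.le
    simp only [one_pow, one_mul] at this
    exact this.trans (Real.exp_le_exp.2 (sum_xx_le Subset.rfl))
  have hone : ∑ a ∈ G.powerset, hw a * ind (a = ∅) = 1 := by
    rw [sum_eq_single_of_mem ∅ (empty_mem_powerset _) fun a _ h => by rw [ind_false h, mul_zero],
      ind_true rfl]
    simp [hw, XP]
  calc _ ≤ ∑ a ∈ G.powerset, ∑ a' ∈ G.powerset, ∑ g ∈ G.powerset, hw a * hw a' * XP g *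
        (ind (a = ∅) * ind (a' = ∅) + ∑ i ∈ range I, (E i a a' + E i a' a) * B i g) :=
        sum_le_sum fun a ha => sum_le_sum fun a' ha' => sum_le_sum fun g _ =>
          mul_le_mul_of_nonneg_left (point a ha a' ha' g)
            (mul_pos (mul_pos (hw_pos _) (hw_pos _)) (XP_pos _)).le
    _ = (∑ a ∈ G.powerset, hw a * ind (a = ∅)) * (∑ a ∈ G.powerset, hw a * ind (a = ∅)) *
          (∑ g ∈ G.powerset, XP g) + ∑ i ∈ range I,
          ((∑ a ∈ G.powerset, ∑ a' ∈ G.powerset, hw a * hw a' * E i a a') +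
            (∑ a ∈ G.powerset, ∑ a' ∈ G.powerset, hw a * hw a' * E i a' a)) *
            ∑ g ∈ G.powerset, XP g * B i g := by
        simp only [← sum_add_distrib]
        rw [sum_mul_sum]
        simp only [sum_mul]
        rw [sum_comm (s := range I), ← sum_add_distrib]
        refine sum_congr rfl fun a _ => ?_
        rw [sum_comm (s := range I), ← sum_add_distrib]
        refine sum_congr rfl fun a' _ => ?_
        simp only [mul_sum]
        rw [sum_comm (s := range I), ← sum_add_distrib]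
        refine sum_congr rfl fun g _ => ?_
        rw [mul_add, mul_sum]
        congr 1
        · ring
        · exact sum_congr rfl fun i _ => by ring
    _ ≤ Real.exp (Lam w z) + ∑ i ∈ range I, (16 * ρ ^ 2 * Real.exp C) *
          (Real.exp (Lam w z) * Real.exp (C + 1 + |C0|) * r ^ (I - 1 - i)) := by
        rw [hone, one_mul, one_mul]
        refine add_le_add hX (sum_le_sum fun i hi => ?_)
        refine mul_le_mul ?_ (hB1 i hi) (sum_nonneg fun g _ => mul_nonneg (XP_pos _).le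
          (ind_nonneg _)) (by positivity)
        have h1 := hE1 i
        have h2 : ∑ a ∈ G.powerset, ∑ a' ∈ G.powerset, hw a * hw a' * E i a' a =
            ∑ a ∈ G.powerset, ∑ a' ∈ G.powerset, hw a * hw a' * E i a a' := by
          rw [sum_comm]; exact sum_congr rfl fun _ _ => sum_congr rfl fun _ _ => by ring
        linarith
    _ ≤ _ := by
        rw [← mul_sum, ← mul_sum, show 2 * C + 1 + |C0| = C + (C + 1 + |C0|) by ring,
          Real.exp_add C]
        have := mul_le_mul_of_nonneg_left hgeo (show 0 ≤ 16 * ρ ^ 2 * Real.exp C *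
          (Real.exp (Lam w z) * Real.exp (C + 1 + |C0|)) by positivity)
        nlinarith

end Pool.Agent.Lib.LQ.UMb
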